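import Mathlib

/-!
Parts of Helper66.PU.SmallF
-/

section

set_option autoImplicit false

open Finset

namespace Pool.Agent.Helper66.PU

/-- The number of the prime factors `p` of `n` with `k < p ≤ z`, with multiplicity. -/
noncomputable def smallF (k : ℕ) (z : ℝ) (n : ℕ) : ℕ :=
  ∑ p ∈ n.primeFactors.filter (fun p => k < p ∧ (p : ℝ) ≤ z), n.factorization p

end Pool.Agent.Helper66.PU

end
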