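import Mathlib

/-!
Parts of Helper52.SZ.Defs, Helper72.SZ.Popular, Helper88.SZ.MDHJ, Helper46.SZ.MHJ, Helper4.SZ.PartAllAux, Helper37.SZ.StarSet, Helper71.SZ.InsSub, Helper82.SZ.PartStep, Helper18.SZ.PartFam, Helper4.SZ.PartAll, Helper81.SZ.Compl, Helper7.SZ.Small
-/

section

namespace Pool.Agent.Helper52.SZ

open Combinatorics

/-- the average of a real function on a finite type (no instances needed) -/
noncomputable def av {X : Type} (f : X → ℝ) : ℝ := (∑ᶠ x, f x) / (Nat.card X : ℝ)

/-- the density of a set in a finite type -/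
noncomputable def dn {X : Type} (A : Set X) : ℝ := av (A.indicator fun _ => (1 : ℝ))

section av

variable {X Y : Type}

theorem av_eq_sum [Fintype X] (f : X → ℝ) : av f = (∑ x, f x) / (Fintype.card X : ℝ) := by
  rw [av, finsum_eq_sum_of_fintype, Nat.card_eq_fintype_card]

theorem av_add [Finite X] (f g : X → ℝ) : av (fun x => f x + g x) = av f + av g := by
  have := Fintype.ofFinite X
  rw [av_eq_sum, av_eq_sum, av_eq_sum, Finset.sum_add_distrib, add_div]

theorem av_sub [Finite X] (f g : X → ℝ) : av (fun x => f x - g x) = av f - av g := by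
  have := Fintype.ofFinite X
  rw [av_eq_sum, av_eq_sum, av_eq_sum, Finset.sum_sub_distrib, sub_div]

theorem av_const_mul [Finite X] (c : ℝ) (f : X → ℝ) : av (fun x => c * f x) = c * av f := by
  have := Fintype.ofFinite X
  rw [av_eq_sum, av_eq_sum, ← Finset.mul_sum, mul_div_assoc]

theorem av_const [Finite X] [Nonempty X] (c : ℝ) : av (fun _ : X => c) = c := by
  have := Fintype.ofFinite X
  rw [av_eq_sum]
  have : (Fintype.card X : ℝ) ≠ 0 := by
    exact_mod_cast Fintype.card_ne_zero
  simp [Finset.sum_const]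

theorem av_zero : av (fun _ : X => (0 : ℝ)) = 0 := by
  simp [av]

theorem av_mono [Finite X] {f g : X → ℝ} (h : ∀ x, f x ≤ g x) : av f ≤ av g := by
  have := Fintype.ofFinite X
  rw [av_eq_sum, av_eq_sum]
  exact div_le_div_of_nonneg_right (Finset.sum_le_sum fun x _ => h x) (by (clear * -; positivity))

theorem av_nonneg [Finite X] {f : X → ℝ} (h : ∀ x, 0 ≤ f x) : 0 ≤ av f := by
  have := av_mono (f := fun _ : X => (0 : ℝ)) (g := f) h
  rwa [av_zero] at this

theorem av_le_of_le [Finite X] [Nonempty X] {f : X → ℝ} {c : ℝ} (h : ∀ x, f x ≤ c) :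
    av f ≤ c := by
  have := av_mono (g := fun _ : X => c) h
  rwa [av_const] at this

theorem av_equiv (e : X ≃ Y) (f : Y → ℝ) : av (fun x => f (e x)) = av f := by
  rw [av, av, Nat.card_congr e]
  congr 1
  exact finsum_comp_equiv e

/-- averages over a product are iterated averages -/
theorem av_prod [Finite X] [Finite Y] (f : X × Y → ℝ) :
    av f = av (fun x => av (fun y => f (x, y))) := by
  have := Fintype.ofFinite X
  have := Fintype.ofFinite Y
  rw [av_eq_sum, av_eq_sum, Fintype.sum_prod_type, Fintype.card_prod]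
  have : ∀ x, av (fun y => f (x, y)) = (∑ y, f (x, y)) / (Fintype.card Y : ℝ) :=
    fun x => av_eq_sum _
  simp_rw [this]
  rw [← Finset.sum_div, div_div, mul_comm (Fintype.card Y : ℝ)]
  push_cast
  rfl

theorem av_comm [Finite X] [Finite Y] (f : X → Y → ℝ) :
    av (fun x => av (fun y => f x y)) = av (fun y => av (fun x => f x y)) := by
  rw [← av_prod (fun p : X × Y => f p.1 p.2), ← av_prod (fun p : Y × X => f p.2 p.1),
    ← av_equiv (Equiv.prodComm X Y)]
  rfl

end av

section dn

variable {X Y : Type}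

theorem dn_eq [Finite X] (A : Set X) : dn A = (Nat.card A : ℝ) / (Nat.card X : ℝ) := by
  classical
  have := Fintype.ofFinite X
  rw [dn, av]
  congr 1
  rw [finsum_eq_sum_of_fintype, Finset.sum_indicator_eq_sum_filter, Finset.sum_const, nsmul_one,
    Nat.card_eq_fintype_card, Fintype.card_subtype]

theorem dn_nonneg [Finite X] (A : Set X) : 0 ≤ dn A :=
  av_nonneg fun x => Set.indicator_nonneg (fun _ _ => zero_le_one) x

theorem dn_mono [Finite X] {A B : Set X} (h : A ⊆ B) : dn A ≤ dn B :=
  av_mono fun x => Set.indicator_le_indicator_of_subset h (fun _ => zero_le_one) x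

theorem dn_le_one [Finite X] (A : Set X) : dn A ≤ 1 := by
  rcases isEmpty_or_nonempty X with h | h
  · rw [dn, av]
    simp
  · refine av_le_of_le fun x => ?_
    by_cases hx : x ∈ A <;> simp [hx]

theorem dn_empty : dn (∅ : Set X) = 0 := by
  rw [dn]
  simp [av]

theorem dn_equiv (e : X ≃ Y) (A : Set Y) : dn {x | e x ∈ A} = dn A := by
  rw [dn, dn, ← av_equiv e]
  rfl

theorem dn_compl [Finite X] [Nonempty X] (A : Set X) : dn Aᶜ = 1 - dn A := by
  have h : dn Aᶜ = av (fun x => 1 - A.indicator (fun _ => (1 : ℝ)) x) := by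
    rw [dn]
    congr 1
    funext x
    by_cases hx : x ∈ A <;> simp [hx]
  rw [h, av_sub, av_const]
  rfl

theorem nonempty_of_dn_pos {A : Set X} (h : 0 < dn A) : A.Nonempty := by
  by_contra hA
  rw [Set.not_nonempty_iff_eq_empty] at hA
  rw [hA, dn_empty] at h
  exact lt_irrefl _ h

/-- Markov: if f ≤ 1 has average at least 2c then f is at least c on a set of density c -/
theorem dn_ge_of_av_ge [Finite X] [Nonempty X] {f : X → ℝ} {c : ℝ} (hc : 0 ≤ c)
    (hf : ∀ x, f x ≤ 1) (h : 2 * c ≤ av f) : c ≤ dn {x | c ≤ f x} := by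
  have h1 : ∀ x, f x ≤ {x | c ≤ f x}.indicator (fun _ => (1 : ℝ)) x + c := by
    intro x
    by_cases hx : c ≤ f x
    · rw [Set.indicator_of_mem (show x ∈ {x | c ≤ f x} from hx)]
      linarith [hf x]
    · rw [Set.indicator_of_notMem (show x ∉ {x | c ≤ f x} from hx)]
      linarith
  have h2 := av_mono h1
  rw [av_add, av_const] at h2
  have h3 : av ({x | c ≤ f x}.indicator fun _ => (1 : ℝ)) = dn {x | c ≤ f x} := rfl
  rw [h3] at h2
  linarith

/-- union bound -/
theorem dn_union_le [Finite X] (A B : Set X) : dn (A ∪ B) ≤ dn A + dn B := by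
  rw [dn, dn, dn, ← av_add]
  refine av_mono fun x => ?_
  by_cases h1 : x ∈ A <;> by_cases h2 : x ∈ B <;> simp [h1, h2]

end dn

section words

variable {ι κ κ' η ζ α β : Type}

/-- replace the stars (the letter none) of a word by the letter i -/
def rep (i : α) (w : ι → Option α) : ι → α := fun j => (w j).getD i

/-- words over α are words over Option α -/
def inc (w : ι → α) : ι → Option α := fun j => some (w j)

/-- a word over κ and a word over κ' give a word over ι ≃ κ ⊕ κ' -/
def glue (e : ι ≃ κ ⊕ κ') (u : κ → β) (v : κ' → β) : ι → β := fun j => Sum.elim u v (e j)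

theorem rep_inc (i : α) (w : ι → α) : rep i (inc w) = w := rfl

theorem rep_glue (i : α) (e : ι ≃ κ ⊕ κ') (u : κ → Option α) (v : κ' → Option α) :
    rep i (glue e u v) = glue e (rep i u) (rep i v) := by
  funext j
  simp only [rep, glue]
  cases e j <;> rfl

theorem inc_glue (e : ι ≃ κ ⊕ κ') (u : κ → α) (v : κ' → α) :
    inc (glue e u v) = glue e (inc u) (inc v) := by
  funext j
  simp only [inc, glue]
  cases e j <;> rfl

/-- gluing is a bijection -/
def glueEquiv (e : ι ≃ κ ⊕ κ') (β : Type) : (κ → β) × (κ' → β) ≃ (ι → β) :=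
  (Equiv.sumArrowEquivProdArrow κ κ' β).symm.trans (Equiv.arrowCongr e.symm (Equiv.refl β))

theorem glueEquiv_apply (e : ι ≃ κ ⊕ κ') (u : κ → β) (v : κ' → β) :
    glueEquiv e β (u, v) = glue e u v := by
  funext j
  simp [glueEquiv, glue, Equiv.sumArrowEquivProdArrow]

/-- average over all words = average over the second block of the averages over the first -/
theorem av_glue [Finite κ] [Finite κ'] [Finite β] (e : ι ≃ κ ⊕ κ') (f : (ι → β) → ℝ) :
    av f = av (fun v => av (fun u => f (glue e u v))) := by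
  rw [av_comm, ← av_equiv (glueEquiv e β), av_prod]
  simp_rw [glueEquiv_apply]

theorem av_glue' [Finite κ] [Finite κ'] [Finite β] (e : ι ≃ κ ⊕ κ') (f : (ι → β) → ℝ) :
    av f = av (fun u => av (fun v => f (glue e u v))) := by
  rw [av_comm, ← av_glue]

theorem dn_glue [Finite κ] [Finite κ'] [Finite β] (e : ι ≃ κ ⊕ κ') (A : Set (ι → β)) :
    dn A = av (fun v => dn {u | glue e u v ∈ A}) := by
  rw [dn, av_glue e]
  rfl

/-- a finite type with at least n elements splits off a block of size n -/
theorem exists_split [Finite ι] {n : ℕ} (h : n ≤ Nat.card ι) :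
    ∃ (κ' : Type) (_ : Finite κ'), Nonempty (ι ≃ Fin n ⊕ κ') ∧ Nat.card ι = n + Nat.card κ' := by
  refine ⟨Fin (Nat.card ι - n), inferInstance, ?_, ?_⟩
  · refine ⟨(Finite.equivFin ι).trans ((finCongr (by omega)).trans finSumFinEquiv.symm)⟩
  · simp
    omega

/-- E does not distinguish the letters i and star -/
def Ins (i : α) (E : Set (ι → Option α)) : Prop :=
  ∀ w, w ∈ E ↔ inc (rep i w) ∈ E

end words

section subspaces

variable {ι κ κ' η ζ α β : Type}

/-- composition of subspaces -/
def compS (V : Subspace η β ι) (U : Subspace ζ β η) : Subspace ζ β ι where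
  idxFun j := (V.idxFun j).elim Sum.inl U.idxFun
  proper e := by
    obtain ⟨d, hd⟩ := U.proper e
    obtain ⟨j, hj⟩ := V.proper d
    exact ⟨j, by simp [hj, hd]⟩

@[simp] theorem compS_apply (V : Subspace η β ι) (U : Subspace ζ β η) (x : ζ → β) :
    compS V U x = V (U x) := by
  funext j
  simp only [Subspace.coe_apply, compS]
  cases V.idxFun j <;> rfl

/-- a subspace of the first block, constant on the second block -/
def subL (e : ι ≃ κ ⊕ κ') (V : Subspace η β κ) (v : κ' → β) : Subspace η β ι where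
  idxFun j := Sum.elim V.idxFun (fun p => Sum.inl (v p)) (e j)
  proper d := by
    obtain ⟨p, hp⟩ := V.proper d
    exact ⟨e.symm (Sum.inl p), by simp [hp]⟩

@[simp] theorem subL_apply (e : ι ≃ κ ⊕ κ') (V : Subspace η β κ) (v : κ' → β) (x : η → β) :
    subL e V v x = glue e (V x) v := by
  funext j
  simp only [Subspace.coe_apply, subL, glue]
  cases e j <;> rfl

/-- a subspace of the second block, constant on the first block -/
def subR (e : ι ≃ κ ⊕ κ') (u : κ → β) (V : Subspace η β κ') : Subspace η β ι where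
  idxFun j := Sum.elim (fun p => Sum.inl (u p)) V.idxFun (e j)
  proper d := by
    obtain ⟨p, hp⟩ := V.proper d
    exact ⟨e.symm (Sum.inr p), by simp [hp]⟩

@[simp] theorem subR_apply (e : ι ≃ κ ⊕ κ') (u : κ → β) (V : Subspace η β κ') (x : η → β) :
    subR e u V x = glue e u (V x) := by
  funext j
  simp only [Subspace.coe_apply, subR, glue]
  cases e j <;> rfl

end subspaces

/-- sets of density at least δ of words over β contain a line in high dimension -/
def Good (β : Type) (δ : ℝ) : Prop :=
  ∃ n0 : ℕ, ∀ (ι : Type) [Finite ι], n0 ≤ Nat.card ι → ∀ A : Set (ι → β), δ ≤ dn A →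
    ∃ l : Line β ι, ∀ x, l x ∈ A

/-- the density Hales-Jewett theorem for the alphabet β -/
def DHJ (β : Type) : Prop := ∀ δ : ℝ, 0 < δ → Good β δ

/-- the multidimensional density Hales-Jewett theorem for the alphabet β -/
def MDHJ (β : Type) : Prop :=
  ∀ (d : ℕ) (δ : ℝ), 0 < δ → ∃ n0 : ℕ, ∀ (ι : Type) [Finite ι], n0 ≤ Nat.card ι →
    ∀ A : Set (ι → β), δ ≤ dn A → ∃ V : Subspace (Fin d) β ι, ∀ x, V x ∈ A

/-- f has non-positive average on all d-dimensional subspaces -/
def Ok {α ι : Type} (d : ℕ) (f : (ι → Option α) → ℝ) : Prop :=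
  ∀ V : Subspace (Fin d) (Option α) ι, av (fun x => f (V x)) ≤ 0

theorem good_of_one_lt {β : Type} {δ : ℝ} [Finite β] (h : 1 < δ) : Good β δ :=
  ⟨0, fun _ _ _ A hA => absurd (hA.trans (dn_le_one A)) (not_le.mpr h)⟩

end Pool.Agent.Helper52.SZ

end

section

namespace Pool.Agent.Helper52.SZ

open Combinatorics

theorem pop_finite_line {β κ : Type} [Finite β] [Finite κ] : Finite (Line β κ) := by
  have hinj : Function.Injective (fun l : Line β κ => l.idxFun) := by
    intro l m h
    cases l
    cases m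
    simp only at h
    subst h
    rfl
  exact Finite.of_injective _ hinj

theorem pop_card_line {β κ : Type} [Finite β] [Finite κ] :
    (Nat.card (Line β κ) : ℝ) ≤ ((Nat.card β : ℝ) + 1) ^ (Nat.card κ) := by
  have hinj : Function.Injective (fun l : Line β κ => l.idxFun) := by
    intro l m h
    cases l
    cases m
    simp only at h
    subst h
    rfl
  have h1 : Nat.card (Line β κ) ≤ Nat.card (κ → Option β) :=
    Nat.card_le_card_of_injective _ hinj
  have h2 : Nat.card (κ → Option β) = (Nat.card β + 1) ^ (Nat.card κ) := by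
    rw [Nat.card_fun, Finite.card_option]
  rw [h2] at h1
  exact_mod_cast h1

theorem pop_union {L Z : Type} [Fintype L] [Finite Z] (P : L → Set Z) :
    dn (⋃ l, P l) ≤ ∑ l, dn (P l) := by
  classical
  have key : ∀ s : Finset L, dn (⋃ l ∈ s, P l) ≤ ∑ l ∈ s, dn (P l) := by
    intro s
    induction s using Finset.induction_on with
    | empty => simp [dn_empty]
    | insert a s ha ih =>
      rw [Finset.sum_insert ha, Finset.set_biUnion_insert]
      exact (dn_union_le _ _).trans (by linarith)
  have h := key Finset.univ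
  simpa using h

theorem popular_line {β κ Z : Type} [Finite β] [Finite κ] [Finite Z] [Nonempty Z] {c : ℝ}
    (hc : 0 < c)
    (h0 : ∀ B : Set (κ → β), c ≤ dn B → ∃ l : Line β κ, ∀ x, l x ∈ B)
    (R : (κ → β) → Z → Prop) (hR : 2 * c ≤ av (fun z => dn {w | R w z})) :
    ∃ l : Line β κ, c / ((Nat.card β : ℝ) + 1) ^ (Nat.card κ) ≤ dn {z | ∀ x, R (l x) z} := by
  classical
  have : Finite (Line β κ) := pop_finite_line
  have := Fintype.ofFinite (Line β κ)
  have hG : c ≤ dn {z | c ≤ dn {w | R w z}} :=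
    dn_ge_of_av_ge hc.le (fun z => dn_le_one _) hR
  have hsub : {z | c ≤ dn {w | R w z}} ⊆ ⋃ l : Line β κ, {z | ∀ x, R (l x) z} := by
    intro z hz
    obtain ⟨l, hl⟩ := h0 {w | R w z} hz
    exact Set.mem_iUnion.mpr ⟨l, hl⟩
  have h1 : c ≤ ∑ l : Line β κ, dn {z | ∀ x, R (l x) z} :=
    hG.trans ((dn_mono hsub).trans (pop_union _))
  by_contra hcon
  push Not at hcon
  have hne : Nonempty (Line β κ) := by
    by_contra hemp
    rw [not_nonempty_iff] at hemp
    rw [Finset.univ_eq_empty, Finset.sum_empty] at h1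
    exact absurd h1 (not_le.mpr hc)
  have hpos : (0 : ℝ) < ((Nat.card β : ℝ) + 1) ^ (Nat.card κ) := by (clear * -; positivity)
  have h2 : ∑ l : Line β κ, dn {z | ∀ x, R (l x) z} <
      ∑ _l : Line β κ, c / ((Nat.card β : ℝ) + 1) ^ (Nat.card κ) :=
    Finset.sum_lt_sum_of_nonempty Finset.univ_nonempty fun l _ => hcon l
  rw [Finset.sum_const, Finset.card_univ, nsmul_eq_mul] at h2
  have h3 := pop_card_line (β := β) (κ := κ)
  rw [Nat.card_eq_fintype_card (α := Line β κ)] at h3
  have h4 : (Fintype.card (Line β κ) : ℝ) * (c / ((Nat.card β : ℝ) + 1) ^ (Nat.card κ)) ≤ c := by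
    rw [mul_div_assoc', div_le_iff₀ hpos, mul_comm c]
    exact mul_le_mul_of_nonneg_right h3 hc.le
  (clear * - h1 h2 h4; linarith)

end Pool.Agent.Helper52.SZ

end

section

namespace Pool.Agent.Helper52.SZ

open Combinatorics

section mdhj

variable {ι κ κ' β : Type}

/-- a line on the first block and a subspace on the second block -/
def mdhj_glue {d : ℕ} (e : ι ≃ κ ⊕ κ') (l : Line β κ) (V : Subspace (Fin d) β κ') :
    Subspace (Fin (d + 1)) β ι where
  idxFun j := Sum.elim (fun p => (l.idxFun p).elim (Sum.inr 0) Sum.inl)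
    (fun q => (V.idxFun q).map id Fin.succ) (e j)
  proper i := by
    refine Fin.cases ?_ (fun i => ?_) i
    · obtain ⟨p, hp⟩ := l.proper
      exact ⟨e.symm (Sum.inl p), by simp [hp]⟩
    · obtain ⟨q, hq⟩ := V.proper i
      exact ⟨e.symm (Sum.inr q), by simp [hq]⟩

theorem mdhj_glue_apply {d : ℕ} (e : ι ≃ κ ⊕ κ') (l : Line β κ) (V : Subspace (Fin d) β κ')
    (x : Fin (d + 1) → β) :
    mdhj_glue e l V x = glue e (l (x 0)) (V (fun i => x i.succ)) := by
  funext j
  rw [Subspace.coe_apply]
  simp only [mdhj_glue, glue]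
  cases e j with
  | inl p =>
    simp only [Sum.elim_inl]
    rw [Line.coe_apply]
    cases l.idxFun p <;> rfl
  | inr q =>
    simp only [Sum.elim_inr]
    rw [Subspace.coe_apply]
    cases V.idxFun q <;> rfl

end mdhj

end Pool.Agent.Helper52.SZ

end

section

namespace Pool.Agent.Helper52.SZ

open Combinatorics

theorem mhj_large (β : Type) [Finite β] [Nonempty β] (K : Type) [Finite K] (n : ℕ) :
    ∃ n0 : ℕ, ∀ (ι : Type) [Finite ι], n0 ≤ Nat.card ι → ∀ C : (ι → β) → K,
      ∃ V : Subspace (Fin n) β ι, ∃ c, ∀ x, C (V x) = c := by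
  obtain ⟨m, hm⟩ := Subspace.exists_mono_in_high_dimension_fin β K (Fin n)
  refine ⟨m, fun ι _ hι C => ?_⟩
  obtain ⟨κ', _, ⟨e⟩, -⟩ := exists_split hι
  obtain ⟨v0⟩ : Nonempty (κ' → β) := inferInstance
  obtain ⟨U, c, hc⟩ := hm fun u => C (glue e u v0)
  exact ⟨subL e U v0, c, fun x => by rw [subL_apply]; exact hc x⟩

end Pool.Agent.Helper52.SZ

end

section

namespace Pool.Agent.Helper52.SZ

open Combinatorics

/-- the identity as a subspace -/
def pa_id (η β : Type) : Subspace η β η where
  idxFun := Sum.inr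
  proper e := ⟨e, rfl⟩

theorem pa_id_apply {η β : Type} (x : η → β) : pa_id η β x = x := by
  funext j
  simp [Subspace.coe_apply, pa_id]

theorem pa_rep {α ι η : Type} (i : α) (V : Subspace η (Option α) ι) (x : η → Option α) :
    rep i (V x) = rep i (V (inc (rep i x))) := by
  funext j
  simp only [rep, Subspace.coe_apply]
  cases V.idxFun j with
  | inl a => rfl
  | inr e => rfl

theorem pa_ins {α ι η : Type} {i : α} {E : Set (ι → Option α)} (hE : Ins i E)
    (V : Subspace η (Option α) ι) : Ins i {x : η → Option α | V x ∈ E} := by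
  intro x
  change V x ∈ E ↔ V (inc (rep i x)) ∈ E
  rw [hE (V x), hE (V (inc (rep i x))), ← pa_rep]

theorem pa_empty {α : Type} [Finite α] {d : ℕ} {ι : Type} [Finite ι] (hι : d ≤ Nat.card ι)
    {f : (ι → Option α) → ℝ} (hf : Ok d f) : av f ≤ 0 := by
  obtain ⟨κ', hκ', ⟨e⟩, _⟩ := exists_split (ι := ι) hι
  rw [av_glue e]
  have h : ∀ v : κ' → Option α, av (fun u : Fin d → Option α => f (glue e u v)) ≤ 0 := by
    intro v
    have h1 := hf (subL e (pa_id (Fin d) (Option α)) v)
    simpa only [subL_apply, pa_id_apply] using h1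
  have := av_mono (g := fun _ => (0 : ℝ)) h
  rwa [av_zero] at this

theorem pa_all {α : Type} [Finite α]
    (h1 : ∀ (i : α) (d : ℕ) (β : ℝ), 0 < β → ∃ n0 : ℕ, ∀ (ι : Type) [Finite ι],
      n0 ≤ Nat.card ι → ∀ (E : Set (ι → Option α)) (f : (ι → Option α) → ℝ),
        Ins i E → (∀ w, f w ≤ 1) → Ok d f → av (E.indicator f) ≤ β) (S : Finset α) :
    ∀ (d : ℕ) (β : ℝ), 0 < β → ∃ n0 : ℕ, ∀ (ι : Type) [Finite ι], n0 ≤ Nat.card ι →
      ∀ (E : α → Set (ι → Option α)) (f : (ι → Option α) → ℝ),
        (∀ i, Ins i (E i)) → (∀ w, f w ≤ 1) → Ok d f →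
        av ((⋂ i ∈ S, E i).indicator f) ≤ β := by
  classical
  induction S using Finset.induction_on with
  | empty =>
    intro d β hβ
    refine ⟨d, fun ι _ hι E f _ _ hf => ?_⟩
    have e : (⋂ i ∈ (∅ : Finset α), E i) = Set.univ := by simp
    rw [e, Set.indicator_univ]
    exact (pa_empty hι hf).trans hβ.le
  | insert i S hi ih =>
    intro d β hβ
    obtain ⟨n1, hn1⟩ := h1 i d (β / 2) (by positivity)
    obtain ⟨n2, hn2⟩ := ih n1 (β / 2) (by positivity)
    refine ⟨n2, fun ι _ hι E f hE hf hO => ?_⟩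
    have key := hn2 ι hι E (fun w => (E i).indicator f w - β / 2) hE ?_ ?_
    · have e : (⋂ j ∈ insert i S, E j).indicator f = fun w =>
          (⋂ j ∈ S, E j).indicator (fun w => (E i).indicator f w - β / 2) w +
            (β / 2) * (⋂ j ∈ S, E j).indicator (fun _ => (1 : ℝ)) w := by
        funext w
        by_cases hS : w ∈ ⋂ j ∈ S, E j
        · rw [Set.indicator_of_mem hS, Set.indicator_of_mem hS]
          by_cases hw : w ∈ E i
          · have : w ∈ ⋂ j ∈ insert i S, E j := by
              rw [Finset.set_biInter_insert]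
              exact ⟨hw, hS⟩
            rw [Set.indicator_of_mem this, Set.indicator_of_mem hw]
            ring
          · have : w ∉ ⋂ j ∈ insert i S, E j := by
              rw [Finset.set_biInter_insert]
              exact fun h => hw h.1
            rw [Set.indicator_of_notMem this, Set.indicator_of_notMem hw]
            ring
        · have : w ∉ ⋂ j ∈ insert i S, E j := by
            rw [Finset.set_biInter_insert]
            exact fun h => hS h.2
          rw [Set.indicator_of_notMem this, Set.indicator_of_notMem hS,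
            Set.indicator_of_notMem hS]
          ring
      rw [e, av_add, av_const_mul]
      have h2 : av ((⋂ j ∈ S, E j).indicator (fun _ => (1 : ℝ))) ≤ 1 := dn_le_one _
      have h3 : β / 2 * av ((⋂ j ∈ S, E j).indicator (fun _ => (1 : ℝ))) ≤ β / 2 * 1 :=
        mul_le_mul_of_nonneg_left h2 (by positivity)
      calc _ ≤ β / 2 + β / 2 * 1 := add_le_add key h3
        _ = β := by ring
    · intro w
      by_cases hw : w ∈ E i
      · simp only [Set.indicator_of_mem hw]
        linarith [hf w]
      · simp only [Set.indicator_of_notMem hw]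
        (clear * - hβ; linarith)
    · intro V
      have h2 := hn1 (Fin n1) (by simp) {x | V x ∈ E i} (fun x => f (V x))
        (pa_ins (hE i) V) (fun x => hf _) ?_
      · rw [av_sub, av_const]
        have e : (fun x => (E i).indicator f (V x)) =
            {x | V x ∈ E i}.indicator (fun x => f (V x)) := by
          funext x
          by_cases hx : V x ∈ E i
          · rw [Set.indicator_of_mem hx,
              Set.indicator_of_mem (show x ∈ {x | V x ∈ E i} from hx)]
          · rw [Set.indicator_of_notMem hx,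
              Set.indicator_of_notMem (show x ∉ {x | V x ∈ E i} from hx)]
        rw [e]
        (clear * - h2; linarith)
      · intro U
        have h3 := hO (compS V U)
        simpa only [compS_apply] using h3

end Pool.Agent.Helper52.SZ

end

section

set_option autoImplicit false

namespace Pool.Agent.Helper52.SZ

open Combinatorics

section starset

variable {ι α : Type}

/-- keep the stars of b and replace the other letters by the letters of w -/
def ss_st (b : ι → Option α) (w : ι → α) : ι → Option α := fun j => (b j).map fun _ => w j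

/-- exchange the letters of the two words outside the stars of the first one -/
def ss_swap (p : (ι → Option α) × (ι → α)) : (ι → Option α) × (ι → α) :=
  (ss_st p.1 p.2, fun j => (p.1 j).getD (p.2 j))

theorem ss_swap_involutive : Function.Involutive (ss_swap : (ι → Option α) × (ι → α) → _) := by
  rintro ⟨b, w⟩
  apply Prod.ext
  · funext j
    simp only [ss_swap, ss_st]
    cases b j <;> rfl
  · funext j
    simp only [ss_swap, ss_st]
    cases b j <;> rfl

theorem ss_av [Finite ι] [Finite α] [Nonempty α] (f : (ι → Option α) → ℝ) :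
    av f = av (fun b : ι → Option α => av (fun w : ι → α => f (ss_st b w))) := by
  rw [← av_prod (fun p : (ι → Option α) × (ι → α) => f (ss_st p.1 p.2))]
  have h : av (fun p : (ι → Option α) × (ι → α) => f (ss_st p.1 p.2)) =
      av (fun q : (ι → Option α) × (ι → α) => f q.1) :=
    av_equiv (ss_swap_involutive (ι := ι) (α := α)).toPerm
      (fun q : (ι → Option α) × (ι → α) => f q.1)
  rw [h, av_prod]
  congr 1
  funext s
  exact (av_const (X := ι → α) (f s)).symm

/-- the weight of a letter -/
noncomputable def ss_F (a : Option α) : ℝ := a.elim 1 fun _ => 1 / 2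

theorem ss_sumF [Fintype α] :
    ∑ a : Option α, ss_F a = 1 + (Fintype.card α : ℝ) / 2 := by
  rw [Fintype.sum_option]
  simp [ss_F, div_eq_mul_inv]

theorem ss_avH [Finite ι] [Finite α] :
    av (fun b : ι → Option α => ∏ᶠ j, ss_F (b j)) =
      ((1 + (Nat.card α : ℝ) / 2) / ((Nat.card α : ℝ) + 1)) ^ (Nat.card ι) := by
  classical
  have := Fintype.ofFinite ι
  have := Fintype.ofFinite α
  rw [av_eq_sum]
  have h1 : ∑ b : ι → Option α, ∏ᶠ j, ss_F (b j) = ∑ b : ι → Option α, ∏ j, ss_F (b j) :=
    Finset.sum_congr rfl fun b _ => finprod_eq_prod_of_fintype _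
  have h2 := Finset.prod_univ_sum (fun _ : ι => (Finset.univ : Finset (Option α)))
    (fun _ a => ss_F a)
  rw [Fintype.piFinset_univ] at h2
  rw [h1, ← h2, ss_sumF, Finset.prod_const, Finset.card_univ, Fintype.card_fun,
    Fintype.card_option, Nat.card_eq_fintype_card, Nat.card_eq_fintype_card, div_pow]
  push_cast
  rfl

theorem ss_H_ge [Finite ι] {n : ℕ} (b : ι → Option α) (h : Nat.card {j // b j ≠ none} < n) :
    1 ≤ 2 ^ n * ∏ᶠ j, ss_F (b j) := by
  classical
  have := Fintype.ofFinite ι
  rw [finprod_eq_prod_of_fintype]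
  have h1 : ∀ j, ss_F (b j) = if b j ≠ none then (1 / 2 : ℝ) else 1 := by
    intro j
    cases b j <;> simp [ss_F]
  rw [Finset.prod_congr rfl fun j _ => h1 j, Finset.prod_ite, Finset.prod_const, Finset.prod_const,
    one_pow, mul_one]
  have h2 : (Finset.univ.filter fun j => b j ≠ none).card ≤ n := by
    rw [Nat.card_eq_fintype_card, Fintype.card_subtype] at h
    exact h.le
  obtain ⟨m, hm⟩ := Nat.exists_eq_add_of_le h2
  rw [hm, pow_add, one_div, inv_pow]
  have h3 : (2 : ℝ) ^ (Finset.univ.filter fun j => b j ≠ none).card ≠ 0 := by positivity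
  rw [mul_comm ((2 : ℝ) ^ _), mul_assoc, mul_inv_cancel₀ h3, mul_one]
  exact one_le_pow₀ (by norm_num)

theorem ss_few [Finite ι] [Finite α] (n : ℕ) :
    dn {b : ι → Option α | Nat.card {j // b j ≠ none} < n} ≤
      2 ^ n * ((1 + (Nat.card α : ℝ) / 2) / ((Nat.card α : ℝ) + 1)) ^ (Nat.card ι) := by
  rw [← ss_avH, ← av_const_mul]
  refine av_mono fun b => ?_
  by_cases hb : Nat.card {j // b j ≠ none} < n
  · rw [Set.indicator_of_mem (show b ∈ {b : ι → Option α | Nat.card {j // b j ≠ none} < n} from hb)]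
    exact ss_H_ge b hb
  · rw [Set.indicator_of_notMem
      (show b ∉ {b : ι → Option α | Nat.card {j // b j ≠ none} < n} from hb)]
    refine mul_nonneg (by (clear * -; positivity)) ?_
    refine finprod_nonneg fun j => ?_
    cases b j <;> simp [ss_F]

end starset

/-- the word equal to i on T and to w outside T -/
noncomputable def fillT {α ι : Type} (i : α) (T : Set ι) (w : {j // j ∉ T} → α) : ι → α :=
  open Classical in fun j => if h : j ∉ T then w ⟨j, h⟩ else i

theorem ss_rep {ι α : Type} (i : α) (b : ι → Option α) (w : ι → α) :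
    rep i (ss_st b w) = fillT i {j | b j = none} (fun j => w j.1) := by
  funext j
  simp only [rep, ss_st, fillT]
  by_cases h : b j = none
  · rw [dif_neg (by simpa using h), h]
    rfl
  · rw [dif_pos (by simpa using h)]
    obtain ⟨a, ha⟩ := Option.ne_none_iff_exists'.mp h
    rw [ha]
    rfl

theorem exists_starset {α : Type} [Finite α] [Nonempty α] (n : ℕ) (δ : ℝ) (hδ : 0 < δ) :
    ∃ n0 : ℕ, ∀ (ι : Type) [Finite ι], n0 ≤ Nat.card ι → ∀ (i : α) (E : Set (ι → Option α)),
      Ins i E → δ ≤ dn E →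
      ∃ T : Set ι, n ≤ Nat.card {j // j ∉ T} ∧
        δ / 2 ≤ dn {w : {j // j ∉ T} → α | inc (fillT i T w) ∈ E} := by
  classical
  set q : ℝ := (1 + (Nat.card α : ℝ) / 2) / ((Nat.card α : ℝ) + 1) with hq
  have hk : (1 : ℝ) ≤ Nat.card α := by
    exact_mod_cast Nat.card_pos
  have hq0 : 0 ≤ q := by (clear * - hk; positivity)
  have hq1 : q < 1 := by
    rw [hq, div_lt_one (by positivity)]
    (clear * - hk; linarith)
  obtain ⟨n0, hn0⟩ := exists_pow_lt_of_lt_one (show (0 : ℝ) < δ / 2 / 2 ^ n by positivity) hq1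
  refine ⟨n0, fun ι _ hι i E hE hd => ?_⟩
  have hfew : dn {b : ι → Option α | Nat.card {j // b j ≠ none} < n} < δ / 2 := by
    refine lt_of_le_of_lt (ss_few n) ?_
    have h1 : q ^ (Nat.card ι) ≤ q ^ n0 := pow_le_pow_of_le_one hq0 hq1.le hι
    have h2 : q ^ (Nat.card ι) < δ / 2 / 2 ^ n := lt_of_le_of_lt h1 hn0
    rw [lt_div_iff₀ (by positivity)] at h2
    rw [mul_comm]
    exact h2
  -- a good b
  have hb : ∃ b : ι → Option α, ¬ Nat.card {j // b j ≠ none} < n ∧
      δ / 2 ≤ dn {w : ι → α | ss_st b w ∈ E} := by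
    by_contra hcon
    push Not at hcon
    have h1 : dn E = av (fun b : ι → Option α => dn {w : ι → α | ss_st b w ∈ E}) := by
      rw [dn, ss_av]
      rfl
    have h2 : ∀ b : ι → Option α, dn {w : ι → α | ss_st b w ∈ E} ≤
        {b : ι → Option α | Nat.card {j // b j ≠ none} < n}.indicator (fun _ => (1 : ℝ)) b +
          δ / 2 := by
      intro b
      by_cases hb : Nat.card {j // b j ≠ none} < n
      · rw [Set.indicator_of_mem
          (show b ∈ {b : ι → Option α | Nat.card {j // b j ≠ none} < n} from hb)]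
        have := dn_le_one {w : ι → α | ss_st b w ∈ E}
        (clear * - hδ this; linarith)
      · rw [Set.indicator_of_notMem
          (show b ∉ {b : ι → Option α | Nat.card {j // b j ≠ none} < n} from hb)]
        have := hcon b (by omega)
        (clear * - this; linarith)
    have h3 := av_mono h2
    rw [← h1, av_add, av_const] at h3
    have h4 : av ({b : ι → Option α | Nat.card {j // b j ≠ none} < n}.indicator
        fun _ => (1 : ℝ)) = dn {b : ι → Option α | Nat.card {j // b j ≠ none} < n} := rfl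
    rw [h4] at h3
    (clear * - hd hfew h3; linarith)
  obtain ⟨b, hb1, hb2⟩ := hb
  refine ⟨{j | b j = none}, ?_, ?_⟩
  · have : Nat.card {j // j ∉ {j | b j = none}} = Nat.card {j // b j ≠ none} := rfl
    rw [this]
    omega
  · refine hb2.trans (le_of_eq ?_)
    let e : ι ≃ {j // j ∉ {j | b j = none}} ⊕ {j // ¬ j ∉ {j | b j = none}} :=
      (Equiv.sumCompl (fun j => j ∉ {j | b j = none})).symm
    rw [dn_glue e]
    have h1 : ∀ v : {j // ¬ j ∉ {j | b j = none}} → α,
        dn {u : {j // j ∉ {j | b j = none}} → α | glue e u v ∈ {w : ι → α | ss_st b w ∈ E}} =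
        dn {w : {j // j ∉ {j | b j = none}} → α | inc (fillT i {j | b j = none} w) ∈ E} := by
      intro v
      congr 1
      ext u
      simp only [Set.mem_ofPred_eq]
      have h2 : (fun j : {j // j ∉ {j | b j = none}} => glue e u v j.1) = u := by
        funext j
        have : e j.1 = Sum.inl j := Equiv.sumCompl_symm_apply_pos j
        simp only [glue, this]
        rfl
      have h3 := hE (ss_st b (glue e u v))
      rw [ss_rep, h2] at h3
      exact h3
    rw [show (fun v : {j // ¬ j ∉ {j | b j = none}} → α =>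
        dn {u : {j // j ∉ {j | b j = none}} → α | glue e u v ∈ {w : ι → α | ss_st b w ∈ E}}) =
        fun _ => dn {w : {j // j ∉ {j | b j = none}} → α |
          inc (fillT i {j | b j = none} w) ∈ E} from funext h1]
    exact av_const _

end Pool.Agent.Helper52.SZ

end

section

namespace Pool.Agent.Helper52.SZ

open Combinatorics

open Classical in
/-- the subspace which is constant on T -/
noncomputable def ins_fill {α ι η : Type} (i : α) (T : Set ι)
    (V' : Subspace η α {j // j ∉ T}) : Subspace η (Option α) ι where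
  idxFun j := if h : j ∉ T then (V'.idxFun ⟨j, h⟩).map some id else Sum.inl (some i)
  proper e := by
    obtain ⟨⟨j, hj⟩, h⟩ := V'.proper e
    exact ⟨j, by rw [dif_pos hj, h]; rfl⟩

theorem ins_fill_rep {α ι η : Type} (i : α) (T : Set ι)
    (V' : Subspace η α {j // j ∉ T}) (x : η → Option α) :
    rep i (ins_fill i T V' x) = fillT i T (V' (rep i x)) := by
  classical
  funext j
  simp only [rep, Subspace.coe_apply, ins_fill, fillT]
  by_cases h : j ∉ T
  · rw [dif_pos h, dif_pos h]
    cases V'.idxFun ⟨j, h⟩ <;> rfl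
  · rw [dif_neg h, dif_neg h]
    rfl

theorem ins_sub {α : Type} [Finite α] [Nonempty α] (h : MDHJ α) (i : α) (d : ℕ) (δ : ℝ)
    (hδ : 0 < δ) :
    ∃ n0 : ℕ, ∀ (ι : Type) [Finite ι], n0 ≤ Nat.card ι → ∀ E : Set (ι → Option α),
      Ins i E → δ ≤ dn E → ∃ V : Subspace (Fin d) (Option α) ι, ∀ x, V x ∈ E := by
  obtain ⟨n, hn⟩ := h d (δ / 2) (by linarith)
  obtain ⟨n0, h0⟩ := exists_starset (α := α) n δ hδ
  refine ⟨n0, ?_⟩
  intro ι _ hι E hE hd
  obtain ⟨T, hT, hw⟩ := h0 ι hι i E hE hd
  obtain ⟨V', hV'⟩ := hn {j // j ∉ T} hT _ hw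
  refine ⟨ins_fill i T V', ?_⟩
  intro x
  rw [hE, ins_fill_rep]
  exact hV' (rep i x)

end Pool.Agent.Helper52.SZ

end

section

set_option autoImplicit false

namespace Pool.Agent.Helper52.SZ

open Combinatorics

section

variable {α : Type} {i : α} {d L : ℕ} {β : ℝ}

/-- The section of a set at a word of the second block. -/
def pst_sec {ι κ' : Type} (e : ι ≃ Fin L ⊕ κ') (E : Set (ι → Option α)) (y : κ' → Option α) :
    Set (Fin L → Option α) := {u | glue e u y ∈ E}

theorem pst_glue_iff {ι κ' : Type} (e : ι ≃ Fin L ⊕ κ') {E : Set (ι → Option α)} (hE : Ins i E)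
    (u : Fin L → Option α) (y : κ' → Option α) :
    glue e u y ∈ E ↔ glue e (inc (rep i u)) (inc (rep i y)) ∈ E := by
  rw [hE, rep_glue, inc_glue]

theorem pst_sec_ins {ι κ' : Type} (e : ι ≃ Fin L ⊕ κ') {E : Set (ι → Option α)} (hE : Ins i E)
    (y : κ' → Option α) : Ins i (pst_sec e E y) := by
  intro u
  change glue e u y ∈ E ↔ glue e (inc (rep i u)) y ∈ E
  rw [pst_glue_iff e hE u y, pst_glue_iff e hE (inc (rep i u)) y, rep_inc]

theorem pst_sec_eq {ι κ' : Type} (e : ι ≃ Fin L ⊕ κ') {E : Set (ι → Option α)} (hE : Ins i E)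
    (y : κ' → Option α) : pst_sec e E (inc (rep i y)) = pst_sec e E y := by
  ext u
  change glue e u (inc (rep i y)) ∈ E ↔ glue e u y ∈ E
  rw [pst_glue_iff e hE u (inc (rep i y)), pst_glue_iff e hE u y, rep_inc]

open Classical in
/-- The subspace removed from a dense insensitive set. -/
noncomputable def pst_rm (i : α) (β : ℝ)
    (hL : ∀ E : Set (Fin L → Option α), Ins i E → β / 2 ≤ dn E →
      ∃ V : Subspace (Fin d) (Option α) (Fin L), ∀ x, V x ∈ E)
    (S : Set (Fin L → Option α)) : Set (Fin L → Option α) :=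
  if h : Ins i S ∧ β / 2 ≤ dn S then Set.range fun x => (hL S h.1 h.2).choose x else ∅

variable (hL : ∀ E : Set (Fin L → Option α), Ins i E → β / 2 ≤ dn E →
      ∃ V : Subspace (Fin d) (Option α) (Fin L), ∀ x, V x ∈ E)

theorem pst_rm_sub (S : Set (Fin L → Option α)) : pst_rm i β hL S ⊆ S := by
  unfold pst_rm
  split
  · rename_i h
    rintro _ ⟨x, rfl⟩
    exact (hL S h.1 h.2).choose_spec x
  · exact Set.empty_subset _

theorem pst_card [Finite α] : (Nat.card (Fin L → Option α) : ℝ) = ((Nat.card α : ℝ) + 1) ^ L := by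
  have := Fintype.ofFinite α
  rw [Nat.card_fun, Nat.card_eq_fintype_card (α := Fin L), Fintype.card_fin,
    Finite.card_option]
  push_cast
  rfl

theorem pst_dn_point [Finite α] (S : Set (Fin L → Option α)) (h : S.Nonempty) :
    1 / ((Nat.card α : ℝ) + 1) ^ L ≤ dn S := by
  rw [dn_eq, pst_card]
  have h1 : 1 ≤ Nat.card S := by
    have : Nonempty S := h.to_subtype
    exact Nat.card_pos
  have h2 : (1 : ℝ) ≤ (Nat.card S : ℝ) := by exact_mod_cast h1
  gcongr

theorem pst_rm_dn [Finite α] [Nonempty α] (S : Set (Fin L → Option α)) (h1 : Ins i S)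
    (h2 : β / 2 ≤ dn S) : 1 / ((Nat.card α : ℝ) + 1) ^ L ≤ dn (pst_rm i β hL S) := by
  apply pst_dn_point
  unfold pst_rm
  rw [dif_pos ⟨h1, h2⟩]
  exact Set.range_nonempty _

theorem pst_inj {η ι β' : Type} (V : Subspace η β' ι) :
    Function.Injective (fun x : η → β' => V x) := by
  intro x y hxy
  funext k
  obtain ⟨j, hj⟩ := V.proper k
  have h := congrFun hxy j
  simpa [Subspace.coe_apply, hj] using h

theorem pst_rm_av [Finite α] [Nonempty α] (S : Set (Fin L → Option α))
    (g : (Fin L → Option α) → ℝ) (hg : Ok d g) :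
    av ((pst_rm i β hL S).indicator g) ≤ 0 := by
  unfold pst_rm
  split
  · rename_i h
    classical
    have := Fintype.ofFinite α
    have h1 := hg (hL S h.1 h.2).choose
    have h2 : (0 : ℝ) < Fintype.card (Fin d → Option α) := by
      exact_mod_cast Fintype.card_pos
    have h3 : (0 : ℝ) < Fintype.card (Fin L → Option α) := by
      exact_mod_cast Fintype.card_pos
    rw [av_eq_sum] at h1 ⊢
    have h4 : ∑ x : Fin d → Option α, g ((hL S h.1 h.2).choose x) ≤ 0 := by
      by_contra hc
      push Not at hc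
      exact absurd h1 (not_le.2 (div_pos hc h2))
    have h5 : ∑ u, (Set.range fun x => (hL S h.1 h.2).choose x).indicator g u =
        ∑ x : Fin d → Option α, g ((hL S h.1 h.2).choose x) := by
      rw [← Finset.sum_image (s := Finset.univ) (g := fun x => (hL S h.1 h.2).choose x) (f := g)
        fun x _ y _ hxy => pst_inj _ hxy]
      rw [Finset.sum_indicator_eq_sum_filter]
      apply Finset.sum_congr _ fun _ _ => rfl
      ext u
      simp
    rw [h5]
    exact div_nonpos_of_nonpos_of_nonneg h4 h3.le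
  · simp [av_zero]

end

theorem part_step {α : Type} [Finite α] [Nonempty α] (i : α) (d : ℕ) (β : ℝ) (hβ : 0 < β)
    (L : ℕ)
    (hL : ∀ E : Set (Fin L → Option α), Ins i E → β / 2 ≤ dn E →
      ∃ V : Subspace (Fin d) (Option α) (Fin L), ∀ x, V x ∈ E)
    {ι κ' : Type} [Finite ι] [Finite κ'] (e : ι ≃ Fin L ⊕ κ')
    {X : Type} [Finite X] [Nonempty X] (E : X → Set (ι → Option α))
    (f : X → (ι → Option α) → ℝ) (hE : ∀ x, Ins i (E x)) (hf : ∀ x w, f x w ≤ 1)
    (hO : ∀ x, Ok d (f x)) (hβE : β ≤ av (fun x => dn (E x))) :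
    ∃ (E' : X × (Fin L → Option α) → Set (κ' → Option α))
      (f' : X × (Fin L → Option α) → (κ' → Option α) → ℝ),
      (∀ p, Ins i (E' p)) ∧ (∀ p w, f' p w ≤ 1) ∧ (∀ p, Ok d (f' p)) ∧
      av (fun x => av ((E x).indicator (f x))) ≤ av (fun p => av ((E' p).indicator (f' p))) ∧
      av (fun p => dn (E' p)) ≤ av (fun x => dn (E x)) - β / 2 / ((Nat.card α : ℝ) + 1) ^ L := by
  classical
  refine ⟨fun p => {y | p.2 ∈ pst_sec e (E p.1) y ∧ p.2 ∉ pst_rm i β hL (pst_sec e (E p.1) y)},
    fun p y => f p.1 (glue e p.2 y), ?_, fun p w => hf _ _, ?_, ?_, ?_⟩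
  · rintro ⟨x, u⟩ y
    change _ ↔ (u ∈ pst_sec e (E x) (inc (rep i y)) ∧
      u ∉ pst_rm i β hL (pst_sec e (E x) (inc (rep i y))))
    rw [pst_sec_eq e (hE x)]
    rfl
  · rintro ⟨x, u⟩ V
    have h := hO x (subR e u V)
    simpa only [subR_apply] using h
  · rw [av_prod]
    refine av_mono fun x => ?_
    rw [av_glue e, av_comm (fun (u : Fin L → Option α) (y : κ' → Option α) =>
      ({y | u ∈ pst_sec e (E x) y ∧ u ∉ pst_rm i β hL (pst_sec e (E x) y)}).indicator
        (fun y => f x (glue e u y)) y)]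
    refine av_mono fun y => ?_
    have e1 : ∀ u, (E x).indicator (f x) (glue e u y) =
        ({y | u ∈ pst_sec e (E x) y ∧ u ∉ pst_rm i β hL (pst_sec e (E x) y)}).indicator
          (fun y => f x (glue e u y)) y +
        (pst_rm i β hL (pst_sec e (E x) y)).indicator (fun u => f x (glue e u y)) u := by
      intro u
      by_cases h1 : u ∈ pst_rm i β hL (pst_sec e (E x) y)
      · have h2 : u ∈ pst_sec e (E x) y := pst_rm_sub hL _ h1
        have h3 : glue e u y ∈ E x := h2
        rw [Set.indicator_of_mem h3, Set.indicator_of_notMem (by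
          rintro ⟨-, h4⟩
          exact h4 h1), Set.indicator_of_mem h1, zero_add]
      · by_cases h2 : u ∈ pst_sec e (E x) y
        · have h3 : glue e u y ∈ E x := h2
          rw [Set.indicator_of_mem h3, Set.indicator_of_mem (show y ∈ {y | u ∈ pst_sec e (E x) y ∧
            u ∉ pst_rm i β hL (pst_sec e (E x) y)} from ⟨h2, h1⟩),
            Set.indicator_of_notMem h1, add_zero]
        · have h3 : glue e u y ∉ E x := h2
          rw [Set.indicator_of_notMem h3, Set.indicator_of_notMem (by
            rintro ⟨h4, -⟩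
            exact h2 h4), Set.indicator_of_notMem h1, add_zero]
    simp only [e1]
    rw [av_add]
    have h5 : av ((pst_rm i β hL (pst_sec e (E x) y)).indicator
        fun u => f x (glue e u y)) ≤ 0 := by
      apply pst_rm_av
      intro V
      have h := hO x (subL e V y)
      simpa only [subL_apply] using h
    have h6 : av (fun u => (pst_rm i β hL (pst_sec e (E x) y)).indicator
        (fun u => f x (glue e u y)) u) ≤ 0 := h5
    linarith
  · -- the densities
    have h1 : ∀ x y, dn (pst_sec e (E x) y \ pst_rm i β hL (pst_sec e (E x) y)) =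
        dn (pst_sec e (E x) y) - dn (pst_rm i β hL (pst_sec e (E x) y)) := by
      intro x y
      rw [dn, dn, dn, ← av_sub]
      congr 1
      funext u
      by_cases h1 : u ∈ pst_rm i β hL (pst_sec e (E x) y)
      · have h2 : u ∈ pst_sec e (E x) y := pst_rm_sub hL _ h1
        simp [h1, h2]
      · by_cases h2 : u ∈ pst_sec e (E x) y <;> simp [h1, h2]
    have h2 : av (fun p : X × (Fin L → Option α) => dn {y | p.2 ∈ pst_sec e (E p.1) y ∧
        p.2 ∉ pst_rm i β hL (pst_sec e (E p.1) y)}) =
        av (fun x => av fun y => dn (pst_sec e (E x) y \ pst_rm i β hL (pst_sec e (E x) y))) := by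
      rw [av_prod]
      congr 1
      funext x
      simp only [dn]
      rw [av_comm]
      rfl
    have h3 : av (fun x => av fun y => dn (pst_sec e (E x) y)) = av (fun x => dn (E x)) := by
      congr 1
      funext x
      rw [dn_glue e]
      rfl
    have h4 : av (fun x => av fun y =>
        dn (pst_sec e (E x) y \ pst_rm i β hL (pst_sec e (E x) y))) =
        av (fun x => dn (E x)) - av (fun x => av fun y =>
          dn (pst_rm i β hL (pst_sec e (E x) y))) := by
      rw [← h3, ← av_sub]
      congr 1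
      funext x
      rw [← av_sub]
      congr 1
      funext y
      exact h1 x y
    rw [h2, h4]
    -- lower bound for the removed part
    have h5 : β / 2 ≤ dn {p : X × (κ' → Option α) | β / 2 ≤ dn (pst_sec e (E p.1) p.2)} := by
      apply dn_ge_of_av_ge (by linarith) fun p => dn_le_one _
      rw [av_prod, h3]
      (clear * - hβE; linarith)
    have h6 : β / 2 / ((Nat.card α : ℝ) + 1) ^ L ≤
        av (fun p : X × (κ' → Option α) => dn (pst_rm i β hL (pst_sec e (E p.1) p.2))) := by
      have h7 : ∀ p : X × (κ' → Option α), (1 / ((Nat.card α : ℝ) + 1) ^ L) *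
          ({p : X × (κ' → Option α) | β / 2 ≤ dn (pst_sec e (E p.1) p.2)}.indicator
            (fun _ => (1 : ℝ)) p) ≤ dn (pst_rm i β hL (pst_sec e (E p.1) p.2)) := by
        intro p
        by_cases hp : β / 2 ≤ dn (pst_sec e (E p.1) p.2)
        · rw [Set.indicator_of_mem (show p ∈ {p : X × (κ' → Option α) |
            β / 2 ≤ dn (pst_sec e (E p.1) p.2)} from hp), mul_one]
          exact pst_rm_dn hL _ (pst_sec_ins e (hE p.1) p.2) hp
        · rw [Set.indicator_of_notMem (show p ∉ {p : X × (κ' → Option α) |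
            β / 2 ≤ dn (pst_sec e (E p.1) p.2)} from hp), mul_zero]
          exact dn_nonneg _
      have h8 := av_mono h7
      rw [av_const_mul] at h8
      refine le_trans ?_ h8
      have h9 : (0 : ℝ) < ((Nat.card α : ℝ) + 1) ^ L := by (clear * -; positivity)
      rw [div_mul_eq_mul_div, one_mul]
      exact div_le_div_of_nonneg_right h5 h9.le
    rw [av_prod] at h6
    (clear * - h6; linarith)

end Pool.Agent.Helper52.SZ

end

section

set_option autoImplicit false

namespace Pool.Agent.Helper52.SZ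

open Combinatorics

theorem pf_ind_le {X : Type} {E : Set X} {f : X → ℝ} (hf : ∀ w, f w ≤ 1) (w : X) :
    E.indicator f w ≤ E.indicator (fun _ => (1 : ℝ)) w := by
  by_cases hw : w ∈ E
  · rw [Set.indicator_of_mem hw, Set.indicator_of_mem hw]
    exact hf w
  · rw [Set.indicator_of_notMem hw, Set.indicator_of_notMem hw]

theorem pf_le_dn {ι α X : Type} [Finite ι] [Finite α] [Finite X]
    {E : X → Set (ι → Option α)} {f : X → (ι → Option α) → ℝ} (hf : ∀ x w, f x w ≤ 1) :
    av (fun x => av ((E x).indicator (f x))) ≤ av (fun x => dn (E x)) :=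
  av_mono fun x => av_mono fun w => pf_ind_le (hf x) w

theorem part_fam {α : Type} [Finite α] [Nonempty α] (h : MDHJ α) (i : α) (d : ℕ) (β : ℝ)
    (hβ : 0 < β) :
    ∃ c0 : ℝ, 0 < c0 ∧ ∀ r : ℕ, ∃ n0 : ℕ, ∀ (ι : Type) [Finite ι], n0 ≤ Nat.card ι →
      ∀ (X : Type) [Finite X] [Nonempty X] (E : X → Set (ι → Option α))
        (f : X → (ι → Option α) → ℝ),
        (∀ x, Ins i (E x)) → (∀ x w, f x w ≤ 1) → (∀ x, Ok d (f x)) →
        av (fun x => av ((E x).indicator (f x))) ≤ max β (av (fun x => dn (E x)) - r * c0) := by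
  obtain ⟨L, hL⟩ := ins_sub h i d (β / 2) (by positivity)
  have hL' : ∀ E : Set (Fin L → Option α), Ins i E → β / 2 ≤ dn E →
      ∃ V : Subspace (Fin d) (Option α) (Fin L), ∀ x, V x ∈ E :=
    hL (Fin L) (by rw [Nat.card_eq_fintype_card, Fintype.card_fin])
  have hc0 : 0 < β / 2 / ((Nat.card α : ℝ) + 1) ^ L := by positivity
  refine ⟨β / 2 / ((Nat.card α : ℝ) + 1) ^ L, hc0, fun r => ?_⟩
  induction r with
  | zero =>
    refine ⟨0, fun ι _ _ X _ _ E f _ hf _ => ?_⟩
    refine le_max_of_le_right ?_
    rw [Nat.cast_zero, zero_mul, sub_zero]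
    exact pf_le_dn hf
  | succ r ih =>
    obtain ⟨n0, hn0⟩ := ih
    refine ⟨L + n0, fun ι _ hι X _ _ E f hE hf hO => ?_⟩
    by_cases hle : av (fun x => dn (E x)) ≤ β
    · exact le_max_of_le_left ((pf_le_dn hf).trans hle)
    · obtain ⟨κ', hκ', ⟨e⟩, hcard⟩ := exists_split (ι := ι) (n := L) (by omega)
      obtain ⟨E', f', h1, h2, h3, h4, h5⟩ := part_step i d β hβ L hL' e E f hE hf hO
        (not_le.mp hle).le
      have h6 := hn0 κ' (by omega) (X × (Fin L → Option α)) E' f' h1 h2 h3
      refine h4.trans (h6.trans (max_le_max le_rfl ?_))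
      push_cast
      linarith

theorem part_one {α : Type} [Finite α] [Nonempty α] (h : MDHJ α) (i : α) (d : ℕ) (β : ℝ)
    (hβ : 0 < β) :
    ∃ n0 : ℕ, ∀ (ι : Type) [Finite ι], n0 ≤ Nat.card ι →
      ∀ (E : Set (ι → Option α)) (f : (ι → Option α) → ℝ),
        Ins i E → (∀ w, f w ≤ 1) → Ok d f → av (E.indicator f) ≤ β := by
  obtain ⟨c0, hc0, hr⟩ := part_fam h i d β hβ
  obtain ⟨r, hr1⟩ := exists_nat_ge (1 / c0)
  have hrc : 1 ≤ r * c0 := by
    rwa [div_le_iff₀ hc0] at hr1
  obtain ⟨n0, hn0⟩ := hr r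
  refine ⟨n0, fun ι _ hι E f hE hf hO => ?_⟩
  have h1 := hn0 ι hι Unit (fun _ => E) (fun _ => f) (fun _ => hE) (fun _ => hf) (fun _ => hO)
  rw [av_const, av_const] at h1
  refine h1.trans (max_le le_rfl ?_)
  have := dn_le_one E
  linarith

end Pool.Agent.Helper52.SZ

end

section

namespace Pool.Agent.Helper52.SZ

open Combinatorics

theorem part_all {α : Type} [Finite α] [Nonempty α] (h : MDHJ α) (d : ℕ) (β : ℝ)
    (hβ : 0 < β) :
    ∃ n0 : ℕ, ∀ (ι : Type) [Finite ι], n0 ≤ Nat.card ι →
      ∀ (E : α → Set (ι → Option α)) (f : (ι → Option α) → ℝ),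
        (∀ i, Ins i (E i)) → (∀ w, f w ≤ 1) → Ok d f → av ((⋂ i, E i).indicator f) ≤ β := by
  have := Fintype.ofFinite α
  obtain ⟨n0, h0⟩ := pa_all (fun i d β hβ => part_one h i d β hβ) Finset.univ d β hβ
  refine ⟨n0, fun ι _ hι E f hE hf hO => ?_⟩
  have h1 := h0 ι hι E f hE hf hO
  simpa using h1

end Pool.Agent.Helper52.SZ

end

section

namespace Pool.Agent.Helper52.SZ

open Combinatorics

theorem compl_ins {α η : Type} {i : α} {E : Set (η → Option α)} (h : Ins i E) : Ins i Eᶜ :=
  fun w => not_congr (h w)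

theorem compl_ins_univ {α η : Type} (i : α) : Ins i (Set.univ : Set (η → Option α)) :=
  fun _ => Iff.rfl

open Classical in
theorem compl_sum_aux {α η : Type} [Finite α] [Nonempty α] [Finite η] {β : ℝ}
    (f : (η → Option α) → ℝ)
    (hall : ∀ E : α → Set (η → Option α), (∀ i, Ins i (E i)) → av ((⋂ i, E i).indicator f) ≤ β)
    (D : α → Set (η → Option α)) (hD : ∀ i, Ins i (D i)) (S : Finset α) :
    av (({w | ∀ i ∈ S, w ∈ D i}ᶜ : Set (η → Option α)).indicator f) ≤ (S.card : ℝ) * β := by
  induction S using Finset.induction_on with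
  | empty =>
    have h : ({w | ∀ i ∈ (∅ : Finset α), w ∈ D i}ᶜ : Set (η → Option α)).indicator f
        = fun _ => 0 := by
      funext w
      simp
    rw [h, av_zero]
    simp
  | insert i S hi ih =>
    have hE : ∀ j, Ins j (if j = i then (D i)ᶜ else if j ∈ S then D j else
        (Set.univ : Set (η → Option α))) := by
      intro j
      by_cases h1 : j = i
      · subst h1
        simpa using compl_ins (hD j)
      · by_cases h2 : j ∈ S
        · simpa [h1, h2] using hD j
        · simpa [h1, h2] using compl_ins_univ j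
    have h1 := hall _ hE
    have h2 : (⋂ j, (if j = i then (D i)ᶜ else if j ∈ S then D j else
        (Set.univ : Set (η → Option α)))) = {w | (∀ j ∈ S, w ∈ D j) ∧ w ∉ D i} := by
      ext w
      simp only [Set.mem_iInter, Set.mem_setOf_eq]
      constructor
      · intro h
        refine ⟨fun j hj => ?_, ?_⟩
        · have h3 := h j
          have h4 : j ≠ i := fun h5 => hi (h5 ▸ hj)
          simpa [h4, hj] using h3
        · have h3 := h i
          simpa using h3
      · rintro ⟨h3, h4⟩ j
        by_cases h5 : j = i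
        · subst h5
          simpa using h4
        · by_cases h6 : j ∈ S
          · simpa [h5, h6] using h3 j h6
          · simp [h5, h6]
    rw [h2] at h1
    have h3 : ({w | ∀ j ∈ insert i S, w ∈ D j}ᶜ : Set (η → Option α)).indicator f
        = fun w => ({w | ∀ j ∈ S, w ∈ D j}ᶜ : Set (η → Option α)).indicator f w
          + ({w | (∀ j ∈ S, w ∈ D j) ∧ w ∉ D i} : Set (η → Option α)).indicator f w := by
      funext w
      by_cases ha : ∀ j ∈ S, w ∈ D j
      · by_cases hb : w ∈ D i
        · have e1 : w ∉ ({w | ∀ j ∈ insert i S, w ∈ D j}ᶜ : Set (η → Option α)) := by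
            simp only [Set.mem_compl_iff, Set.mem_setOf_eq, not_not, Finset.mem_insert]
            rintro j (rfl | hj)
            · exact hb
            · exact ha j hj
          have e2 : w ∉ ({w | ∀ j ∈ S, w ∈ D j}ᶜ : Set (η → Option α)) := by
            simpa only [Set.mem_compl_iff, Set.mem_setOf_eq, not_not] using ha
          have e3 : w ∉ ({w | (∀ j ∈ S, w ∈ D j) ∧ w ∉ D i} : Set (η → Option α)) :=
            fun h => h.2 hb
          rw [Set.indicator_of_notMem e1, Set.indicator_of_notMem e2,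
            Set.indicator_of_notMem e3, add_zero]
        · have e1 : w ∈ ({w | ∀ j ∈ insert i S, w ∈ D j}ᶜ : Set (η → Option α)) := by
            simp only [Set.mem_compl_iff, Set.mem_setOf_eq]
            exact fun h => hb (h i (Finset.mem_insert_self i S))
          have e2 : w ∉ ({w | ∀ j ∈ S, w ∈ D j}ᶜ : Set (η → Option α)) := by
            simpa only [Set.mem_compl_iff, Set.mem_setOf_eq, not_not] using ha
          have e3 : w ∈ ({w | (∀ j ∈ S, w ∈ D j) ∧ w ∉ D i} : Set (η → Option α)) :=
            ⟨ha, hb⟩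
          rw [Set.indicator_of_mem e1, Set.indicator_of_notMem e2,
            Set.indicator_of_mem e3, zero_add]
      · have e1 : w ∈ ({w | ∀ j ∈ insert i S, w ∈ D j}ᶜ : Set (η → Option α)) := by
          simp only [Set.mem_compl_iff, Set.mem_setOf_eq]
          exact fun h => ha fun j hj => h j (Finset.mem_insert_of_mem hj)
        have e2 : w ∈ ({w | ∀ j ∈ S, w ∈ D j}ᶜ : Set (η → Option α)) := by
          simpa only [Set.mem_compl_iff, Set.mem_setOf_eq] using ha
        have e3 : w ∉ ({w | (∀ j ∈ S, w ∈ D j) ∧ w ∉ D i} : Set (η → Option α)) :=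
          fun h => ha h.1
        rw [Set.indicator_of_mem e1, Set.indicator_of_mem e2,
          Set.indicator_of_notMem e3, add_zero]
    rw [h3, av_add, Finset.card_insert_of_notMem hi]
    push_cast
    linarith

theorem compl_sum {α η : Type} [Finite α] [Nonempty α] [Finite η] {β : ℝ}
    (f : (η → Option α) → ℝ)
    (hall : ∀ E : α → Set (η → Option α), (∀ i, Ins i (E i)) → av ((⋂ i, E i).indicator f) ≤ β)
    (D : α → Set (η → Option α)) (hD : ∀ i, Ins i (D i)) :
    av (((⋂ i, D i)ᶜ).indicator f) ≤ (Nat.card α : ℝ) * β := by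
  have := Fintype.ofFinite α
  have h := compl_sum_aux f hall D hD Finset.univ
  have h1 : ({w | ∀ i ∈ (Finset.univ : Finset α), w ∈ D i} : Set (η → Option α)) = ⋂ i, D i := by
    ext w
    simp
  rw [h1, Finset.card_univ, ← Nat.card_eq_fintype_card] at h
  exact h

theorem final_contra {α η : Type} [Finite α] [Nonempty α] [Finite η] {δ γ θ : ℝ}
    (hδ : 0 < δ) (hθ : 0 < θ) (hθ1 : θ ≤ 1) (hγ : γ = δ * θ ^ 2 / 64)
    (B : Set (η → Option α)) (D : α → Set (η → Option α)) (hD : ∀ i, Ins i (D i))
    (hall : ∀ E : α → Set (η → Option α), (∀ i, Ins i (E i)) →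
      av ((⋂ i, E i).indicator (fun w => B.indicator (fun _ => (1 : ℝ)) w - (δ + γ)))
        ≤ δ * θ / (4 * ((Nat.card α : ℝ) + 1)))
    (hB : δ - 4 * γ / θ ≤ dn B) (hDD : θ ≤ dn (⋂ i, D i))
    (hBD : dn (B ∩ ⋂ i, D i) ≤ δ * θ / 8) : False := by
  have h1 := compl_sum _ hall D hD
  set DD : Set (η → Option α) := ⋂ i, D i with hDDdef
  have h2 : (DDᶜ).indicator (fun w => B.indicator (fun _ => (1 : ℝ)) w - (δ + γ))
      = fun w => (B.indicator (fun _ => (1 : ℝ)) w - (B ∩ DD).indicator (fun _ => (1 : ℝ)) w)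
        - (δ + γ) * (DDᶜ).indicator (fun _ => (1 : ℝ)) w := by
    funext w
    by_cases ha : w ∈ DD <;> by_cases hb : w ∈ B <;> simp [ha, hb]
  have h3 : av ((DDᶜ).indicator (fun w => B.indicator (fun _ => (1 : ℝ)) w - (δ + γ)))
      = (dn B - dn (B ∩ DD)) - (δ + γ) * dn DDᶜ := by
    rw [h2, av_sub, av_sub, av_const_mul]
    rfl
  rw [h3, dn_compl] at h1
  have hc : (0 : ℝ) ≤ (Nat.card α : ℝ) := Nat.cast_nonneg _
  have h4 : (Nat.card α : ℝ) * (δ * θ / (4 * ((Nat.card α : ℝ) + 1))) ≤ δ * θ / 4 := by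
    have h5 : (Nat.card α : ℝ) * (δ * θ / (4 * ((Nat.card α : ℝ) + 1)))
        = δ * θ / 4 * ((Nat.card α : ℝ) / ((Nat.card α : ℝ) + 1)) := by
      (clear * - hθ hδ; field_simp)
    rw [h5]
    refine mul_le_of_le_one_right (by positivity) ?_
    rw [div_le_one (by (clear * -; positivity))]
    (clear * -; linarith)
  have h5 : 4 * γ / θ = δ * θ / 16 := by
    rw [hγ]
    field_simp
    norm_num
  have hγ0 : 0 ≤ γ := by
    rw [hγ]
    positivity
  have h6 : γ ≤ δ * θ / 64 := by
    rw [hγ]
    have : δ * θ ^ 2 ≤ δ * θ := by (clear * - hγ hθ hθ1 hγ0 hδ; nlinarith [mul_pos hδ hθ])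
    (clear * - this; linarith)
  have h7 : (δ + γ) * (1 - dn DD) ≤ (δ + γ) * (1 - θ) :=
    mul_le_mul_of_nonneg_left (by (clear * - hDD; linarith)) (by (clear * - hδ hγ0; linarith))
  have h8 : 0 ≤ γ * θ := mul_nonneg hγ0 hθ.le
  have h9 : 0 < δ * θ := mul_pos hδ hθ
  rw [h5] at hB
  (clear * - hB hBD h1 h4 h6 h7 h8 h9; nlinarith)

end Pool.Agent.Helper52.SZ

end

section

namespace Pool.Agent.Helper52.SZ

open Combinatorics

theorem av_lower {X : Type} [Finite X] {g : X → ℝ} {a b : ℝ} (hb : 0 ≤ b)
    (h1 : ∀ x, g x ≤ a + b) (h2 : a - b ≤ av g) (x : X) :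
    a - 2 * b * (Nat.card X : ℝ) ≤ g x := by
  classical
  have := Fintype.ofFinite X
  have : Nonempty X := ⟨x⟩
  rw [Nat.card_eq_fintype_card]
  have hc : (1 : ℝ) ≤ Fintype.card X := by exact_mod_cast Fintype.card_pos
  rw [av_eq_sum, le_div_iff₀ (by (clear * - hc; linarith))] at h2
  have h3 : ∑ y, g y = g x + ∑ y ∈ Finset.univ.erase x, g y :=
    (Finset.add_sum_erase _ _ (Finset.mem_univ x)).symm
  have h4 : ∑ y ∈ Finset.univ.erase x, g y ≤ ((Fintype.card X : ℝ) - 1) * (a + b) := by
    have := Finset.sum_le_card_nsmul (Finset.univ.erase x) g (a + b) fun y _ => h1 y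
    rw [Finset.card_erase_of_mem (Finset.mem_univ x), Finset.card_univ, nsmul_eq_mul,
      Nat.cast_sub (by exact_mod_cast hc)] at this
    simpa using this
  have h5 : (a - b) * (Fintype.card X : ℝ) ≤ g x + ((Fintype.card X : ℝ) - 1) * (a + b) := by
    (clear * - h2 h3 h4; linarith)
  (clear * - hb h2 h3 h4; nlinarith)

theorem line_of_star {α ι : Type} (A : Set (ι → Option α)) (w : ι → Option α)
    (hs : ∃ j, w j = none) (hw : w ∈ A) (hi : ∀ i, inc (rep i w) ∈ A) :
    ∃ l : Line (Option α) ι, ∀ x, l x ∈ A := by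
  refine ⟨⟨fun j => (w j).map some, ?_⟩, ?_⟩
  · obtain ⟨j, hj⟩ := hs
    exact ⟨j, by simp [hj]⟩
  · intro x
    cases x with
    | none =>
      convert hw using 1
      funext j
      simp only [Line.coe_apply]
      cases w j <;> rfl
    | some i =>
      convert hi i using 1
      funext j
      simp only [Line.coe_apply, inc, rep]
      cases w j <;> rfl

end Pool.Agent.Helper52.SZ

end
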