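import Mathlib

/-!
Parts of Helper1.MT.Defs, Helper1.MT.DefsU, Helper1.MT.Clusters, Helper1.MT.BlocksLogOf, Helper1.MT.BlocksLogFinal, Helper16.MT.Bridge, Helper16.MT.Windows, Helper93.MT.Patterns, Helper52.SZ.Defs, Helper36.SZ.Ramsey
-/

namespace Pool.Agent.Helper16.MT
end Pool.Agent.Helper16.MT

section

set_option autoImplicit false

open Finset

open scoped ArithmeticFunction.vonMangoldt

namespace Pool.Agent.Helper1.MT

/-- The number of primes in the cluster `i`. -/
def hits {M κ0 : ℕ} (h : Fin M × Fin κ0 → ℕ) (n : ℕ) (i : Fin M) : ℕ :=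
  (univ.filter (fun a : Fin κ0 => (n + h (i, a)).Prime)).card

/-- The number of clusters with exactly one prime. -/
def singles {M κ0 : ℕ} (h : Fin M × Fin κ0 → ℕ) (n : ℕ) : ℕ :=
  (univ.filter (fun i : Fin M => hits h n i = 1)).card

/-- The number of clusters with at least two primes. -/
def multis {M κ0 : ℕ} (h : Fin M × Fin κ0 → ℕ) (n : ℕ) : ℕ :=
  (univ.filter (fun i : Fin M => 2 ≤ hits h n i)).card

/-- The number of primes in `[a, b]`. -/
def pc (a b : ℕ) : ℕ := ((Icc a b).filter Nat.Prime).card

/-- The `i`-th prime, `i = 0, 1, ...`. -/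
noncomputable def P (i : ℕ) : ℕ := Nat.nth Nat.Prime i

end Pool.Agent.Helper1.MT

end

section

set_option autoImplicit false

open Finset

open scoped ArithmeticFunction.vonMangoldt

namespace Pool.Agent.Helper1.MT

/-- Szemeredi's theorem. -/
def Szemeredi : Prop :=
  ∀ (k : ℕ) (δ : ℝ), 0 < δ → ∃ N0 : ℕ, ∀ N : ℕ, N0 ≤ N → ∀ A : Finset ℕ, A ⊆ range N →
    δ * N ≤ A.card → ∃ a d : ℕ, 0 < d ∧ ∀ i < k, a + i * d ∈ A

end Pool.Agent.Helper1.MT

end

section

set_option autoImplicit false

open Finset Filter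

namespace Pool.Agent.Helper1.MT

theorem pointwise {η : ℝ} (hη : 0 < η) (r : ℕ) :
    (r : ℝ) - (1 + 1 / η) * ((r * r - r : ℕ) : ℝ) ≤
      (if r = 1 then 1 else 0) - (1 / η) * (if 2 ≤ r then 1 else 0) := by
  have h1 : 0 < 1 / η := by positivity
  rcases Nat.lt_or_ge r 2 with hr | hr
  · interval_cases r
    · simp
    · simp
  · rw [if_neg (by omega), if_pos hr]
    have h2 : r ≤ r * r := Nat.le_mul_of_pos_left r (by omega)
    have h3 : ((r * r - r : ℕ) : ℝ) = r * r - r := by
      push_cast [h2]
      ring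
    have h4 : (2 : ℝ) ≤ r := by exact_mod_cast hr
    rw [h3]
    have h5 : (1 : ℝ) ≤ r * r - r := by nlinarith
    have h6 : (r : ℝ) ≤ r * r - r := by nlinarith
    nlinarith

end Pool.Agent.Helper1.MT

end

section

set_option autoImplicit false

open Finset Filter

namespace Pool.Agent.Helper1.MT

/-- The output of the sieve: for some `n` many clusters contain exactly one prime, few contain
more, and there is no prime outside of the clusters. -/
theorem pick {M κ0 : ℕ} {c1 η δ e1 S : ℝ} {J : ℕ} (hM : 0 < M) (hκ : 0 < κ0)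
    (hη : 0 < η) (hc1 : 0 < c1) (he1 : e1 = 25 * c1 / (1 + 1 / η)) (hδ : δ = e1 * c1 / 16)
    (hJ1 : ((J : ℝ) + 2) ≤ e1 * M) (hJ2 : e1 * M / 2 ≤ (J : ℝ) + 2)
    (h : Fin M × Fin κ0 → ℕ) (F : Finset ℕ) (u : ℕ → ℝ) (Y : Finset ℕ)
    (hu : ∀ n, 0 ≤ u n) (hS0 : 0 < S) (hT : ∑ n ∈ F, u n ≤ 2 * S)
    (hs : ∀ m, c1 * ((J + 2) / ((M * κ0 : ℕ) : ℝ)) * S ≤
      ∑ n ∈ F.filter (fun n => (n + h m).Prime), u n)
    (hp : ∀ m m', m ≠ m' → ∑ n ∈ F.filter (fun n => (n + h m).Prime ∧ (n + h m').Prime), u n ≤
      2 * ((J + 2) / (10 * ((M * κ0 : ℕ) : ℝ))) ^ 2 * S)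
    (ho : ∑ j ∈ Y, ∑ n ∈ F.filter (fun n => (n + j).Prime), u n ≤ e1 * c1 / 32 * S) :
    ∃ n ∈ F, δ * M ≤ singles h n ∧ (multis h n : ℝ) ≤ η * singles h n ∧
      ∀ j ∈ Y, ¬ (n + j).Prime := by
  have hMr : (0 : ℝ) < M := by exact_mod_cast hM
  have hκr : (0 : ℝ) < κ0 := by exact_mod_cast hκ
  set θ : ℝ := 1 + 1 / η with hθ
  have hθ0 : 0 < θ := by positivity
  have he10 : 0 < e1 := by rw [he1]; positivity
  have hδ0 : 0 < δ := by rw [hδ]; positivity
  have hcard : Fintype.card (Fin M × Fin κ0) = M * κ0 := by simp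
  by_contra hcon
  push Not at hcon
  have hle : ∀ n, (singles h n : ℝ) ≤ M := by
    intro n
    have : singles h n ≤ Fintype.card (Fin M) := Finset.card_le_univ _
    rw [Fintype.card_fin] at this
    exact_mod_cast this
  have hneg : ∀ n ∈ F, (singles h n : ℝ) - (1 / η) * multis h n - δ * M -
      M * ∑ j ∈ Y, (if (n + j).Prime then (1 : ℝ) else 0) ≤ 0 := by
    intro n hn
    by_contra h1
    push Not at h1
    have hY0 : 0 ≤ ∑ j ∈ Y, (if (n + j).Prime then (1 : ℝ) else 0) :=
      Finset.sum_nonneg fun j _ => by split_ifs <;> norm_num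
    have hm0 : 0 ≤ (1 / η) * (multis h n : ℝ) := by (clear * - hη; positivity)
    have hMY : 0 ≤ (M : ℝ) * ∑ j ∈ Y, (if (n + j).Prime then (1 : ℝ) else 0) := by (clear * - hM; positivity)
    obtain ⟨j, hj, hjp⟩ := hcon n hn (by (clear * - h1 hm0 hMY; linarith)) (by
      have h3 : (1 / η) * (multis h n : ℝ) ≤ singles h n := by
        have : 0 ≤ δ * M := by (clear * - hδ0 hM; positivity)
        (clear * - h1 hMY this; linarith)
      rw [one_div, inv_mul_eq_div, div_le_iff₀ hη] at h3
      (clear * - h3; linarith))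
    have h4 : (1 : ℝ) ≤ ∑ j ∈ Y, (if (n + j).Prime then (1 : ℝ) else 0) := by
      have := Finset.single_le_sum (f := fun j => if (n + j).Prime then (1 : ℝ) else 0)
        (fun j _ => by split_ifs <;> norm_num) hj
      simp only [hjp, if_true] at this
      exact this
    have h5 : (M : ℝ) * 1 ≤ M * ∑ j ∈ Y, (if (n + j).Prime then (1 : ℝ) else 0) := by (clear * - h4 hM; gcongr)
    have h6 := hle n
    have h7 : 0 < δ * M := by positivity
    (clear * - h1 hm0 h5 h6 h7; linarith)
  have hsum : ∑ n ∈ F, u n * ((singles h n : ℝ) - (1 / η) * multis h n - δ * M -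
      M * ∑ j ∈ Y, (if (n + j).Prime then (1 : ℝ) else 0)) ≤ 0 :=
    Finset.sum_nonpos fun n hn => mul_nonpos_of_nonneg_of_nonpos (hu n) (hneg n hn)
  have hpt : ∀ n : ℕ, (∑ m : Fin M × Fin κ0, if (n + h m).Prime then (1 : ℝ) else 0) -
      θ * ∑ i : Fin M, ∑ q ∈ (univ : Finset (Fin κ0)).offDiag,
        (if (n + h (i, q.1)).Prime ∧ (n + h (i, q.2)).Prime then (1 : ℝ) else 0) ≤
      (singles h n : ℝ) - (1 / η) * multis h n := by
    intro n
    have h1 : (∑ m : Fin M × Fin κ0, if (n + h m).Prime then (1 : ℝ) else 0) =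
        ∑ i : Fin M, (hits h n i : ℝ) := by
      rw [Fintype.sum_prod_type]
      refine Finset.sum_congr rfl fun i _ => ?_
      rw [Finset.sum_ite, Finset.sum_const_zero, add_zero, Finset.sum_const, nsmul_eq_mul, mul_one]
      rfl
    have h2 : ∀ i : Fin M, ∑ q ∈ (univ : Finset (Fin κ0)).offDiag,
        (if (n + h (i, q.1)).Prime ∧ (n + h (i, q.2)).Prime then (1 : ℝ) else 0) =
        ((hits h n i * hits h n i - hits h n i : ℕ) : ℝ) := by
      intro i
      rw [Finset.sum_ite, Finset.sum_const_zero, add_zero, Finset.sum_const, nsmul_eq_mul, mul_one]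
      have h3 : (univ : Finset (Fin κ0)).offDiag.filter
          (fun q => (n + h (i, q.1)).Prime ∧ (n + h (i, q.2)).Prime) =
          (univ.filter (fun a : Fin κ0 => (n + h (i, a)).Prime)).offDiag := by
        ext q
        simp only [mem_filter, mem_offDiag, mem_univ, true_and]
        tauto
      rw [h3, Finset.offDiag_card]
      rfl
    have h3 : (singles h n : ℝ) = ∑ i : Fin M, (if hits h n i = 1 then (1 : ℝ) else 0) := by
      unfold singles
      rw [Finset.card_filter]
      push_cast
      rfl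
    have h4 : (multis h n : ℝ) = ∑ i : Fin M, (if 2 ≤ hits h n i then (1 : ℝ) else 0) := by
      unfold multis
      rw [Finset.card_filter]
      push_cast
      rfl
    rw [h1, h3, h4, Finset.sum_congr rfl fun i _ => h2 i, Finset.mul_sum, Finset.mul_sum,
      ← Finset.sum_sub_distrib, ← Finset.sum_sub_distrib]
    exact Finset.sum_le_sum fun i _ => pointwise hη _
  have hlow : (∑ m : Fin M × Fin κ0, ∑ n ∈ F.filter (fun n => (n + h m).Prime), u n) -
      θ * (∑ i : Fin M, ∑ q ∈ (univ : Finset (Fin κ0)).offDiag,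
        ∑ n ∈ F.filter (fun n => (n + h (i, q.1)).Prime ∧ (n + h (i, q.2)).Prime), u n) ≤
      ∑ n ∈ F, u n * ((singles h n : ℝ) - (1 / η) * multis h n) := by
    have e1 : (∑ m : Fin M × Fin κ0, ∑ n ∈ F.filter (fun n => (n + h m).Prime), u n) =
        ∑ n ∈ F, u n * (∑ m : Fin M × Fin κ0, if (n + h m).Prime then (1 : ℝ) else 0) := by
      simp only [Finset.mul_sum, Finset.sum_filter, mul_ite, mul_one, mul_zero]
      rw [Finset.sum_comm]
    have e2 : (∑ i : Fin M, ∑ q ∈ (univ : Finset (Fin κ0)).offDiag,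
        ∑ n ∈ F.filter (fun n => (n + h (i, q.1)).Prime ∧ (n + h (i, q.2)).Prime), u n) =
        ∑ n ∈ F, u n * (∑ i : Fin M, ∑ q ∈ (univ : Finset (Fin κ0)).offDiag,
        (if (n + h (i, q.1)).Prime ∧ (n + h (i, q.2)).Prime then (1 : ℝ) else 0)) := by
      simp only [Finset.mul_sum, Finset.sum_filter, mul_ite, mul_one, mul_zero]
      rw [Finset.sum_comm (s := F)]
      exact Finset.sum_congr rfl fun i _ => Finset.sum_comm
    rw [e1, e2, Finset.mul_sum, ← Finset.sum_sub_distrib]
    refine Finset.sum_le_sum fun n _ => ?_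
    calc _ = u n * ((∑ m : Fin M × Fin κ0, if (n + h m).Prime then (1 : ℝ) else 0) -
      θ * ∑ i : Fin M, ∑ q ∈ (univ : Finset (Fin κ0)).offDiag,
        (if (n + h (i, q.1)).Prime ∧ (n + h (i, q.2)).Prime then (1 : ℝ) else 0)) := by ring
      _ ≤ _ := mul_le_mul_of_nonneg_left (hpt n) (hu n)
  have hs' : (M * κ0 : ℕ) * (c1 * ((J + 2) / (M * κ0 : ℕ)) * S) ≤
      ∑ m : Fin M × Fin κ0, ∑ n ∈ F.filter (fun n => (n + h m).Prime), u n := by
    have := Finset.card_nsmul_le_sum (univ : Finset (Fin M × Fin κ0))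
      (fun m => ∑ n ∈ F.filter (fun n => (n + h m).Prime), u n) _ (fun m _ => hs m)
    rw [Finset.card_univ, hcard, nsmul_eq_mul] at this
    exact this
  have hp' : (∑ i : Fin M, ∑ q ∈ (univ : Finset (Fin κ0)).offDiag,
        ∑ n ∈ F.filter (fun n => (n + h (i, q.1)).Prime ∧ (n + h (i, q.2)).Prime), u n) ≤
      M * (κ0 ^ 2 * (2 * ((J + 2) / (10 * (M * κ0 : ℕ))) ^ 2 * S)) := by
    have h1 : ∀ i : Fin M, ∑ q ∈ (univ : Finset (Fin κ0)).offDiag,
        ∑ n ∈ F.filter (fun n => (n + h (i, q.1)).Prime ∧ (n + h (i, q.2)).Prime), u n ≤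
        κ0 ^ 2 * (2 * ((J + 2) / (10 * (M * κ0 : ℕ))) ^ 2 * S) := by
      intro i
      have h2 := Finset.sum_le_card_nsmul (univ : Finset (Fin κ0)).offDiag
        (fun q => ∑ n ∈ F.filter (fun n => (n + h (i, q.1)).Prime ∧ (n + h (i, q.2)).Prime), u n)
        (2 * ((J + 2) / (10 * (M * κ0 : ℕ))) ^ 2 * S) (fun q hq => by
          refine hp (i, q.1) (i, q.2) ?_
          intro heq
          rw [mem_offDiag] at hq
          exact hq.2.2 (Prod.mk.inj heq).2)
      refine h2.trans ?_
      rw [nsmul_eq_mul]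
      refine mul_le_mul_of_nonneg_right ?_ (by (clear * - hM hκ hS0; positivity))
      rw [Finset.offDiag_card, Finset.card_univ, Fintype.card_fin]
      have : κ0 * κ0 - κ0 ≤ κ0 ^ 2 := by
        rw [sq]
        exact Nat.sub_le _ _
      exact_mod_cast this
    have := Finset.sum_le_card_nsmul (univ : Finset (Fin M))
      (fun i => ∑ q ∈ (univ : Finset (Fin κ0)).offDiag,
        ∑ n ∈ F.filter (fun n => (n + h (i, q.1)).Prime ∧ (n + h (i, q.2)).Prime), u n)
      (κ0 ^ 2 * (2 * ((J + 2) / (10 * (M * κ0 : ℕ))) ^ 2 * S)) (fun i _ => h1 i)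
    rw [Finset.card_univ, Fintype.card_fin, nsmul_eq_mul] at this
    exact this
  have hK : ((M * κ0 : ℕ) : ℝ) = M * κ0 := by push_cast; ring
  rw [hK] at hs' hp'
  have hmain : (J + 2) * S * (c1 / 2) ≤
      ∑ n ∈ F, u n * ((singles h n : ℝ) - (1 / η) * multis h n) := by
    refine le_trans ?_ hlow
    have e2 : (M * κ0 : ℝ) * (c1 * ((J + 2) / (M * κ0)) * S) = c1 * (J + 2) * S := by
      (clear * - hM hκ hS0 hc1; field_simp)
    have e3 : (M : ℝ) * (κ0 ^ 2 * (2 * ((J + 2) / (10 * (M * κ0))) ^ 2 * S)) =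
        (J + 2) ^ 2 / (50 * M) * S := by
      field_simp
      ring
    rw [e2] at hs'
    rw [e3] at hp'
    have e4 : θ * ((J + 2) ^ 2 / (50 * M) * S) ≤ (J + 2) * S * (c1 / 2) := by
      have e5 : θ * ((J + 2 : ℝ) / (50 * M)) ≤ c1 / 2 := by
        have e6 : (J + 2 : ℝ) / (50 * M) ≤ e1 / 50 := by
          rw [div_le_div_iff₀ (by positivity) (by norm_num)]
          (clear * - hJ1; linarith)
        calc θ * ((J + 2 : ℝ) / (50 * M)) ≤ θ * (e1 / 50) := by (clear * - e6 hη; gcongr)
          _ = c1 / 2 := by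
            rw [he1]
            field_simp
            norm_num
      have e7 : θ * ((J + 2) ^ 2 / (50 * M) * S) =
          (θ * ((J + 2 : ℝ) / (50 * M))) * ((J + 2) * S) := by ring
      rw [e7]
      have e8 : (0 : ℝ) ≤ (J + 2) * S := by (clear * - hS0; positivity)
      calc (θ * ((J + 2 : ℝ) / (50 * M))) * ((J + 2) * S) ≤ (c1 / 2) * ((J + 2) * S) := by (clear * - e5 hS0; gcongr)
        _ = _ := by ring
    have e9 := mul_le_mul_of_nonneg_left hp' hθ0.le
    (clear * - hs' e4 e9; linarith)
  have hother : ∑ n ∈ F, u n * (M * ∑ j ∈ Y, (if (n + j).Prime then (1 : ℝ) else 0)) ≤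
      M * (e1 * c1 / 32 * S) := by
    have e1 : ∑ n ∈ F, u n * (M * ∑ j ∈ Y, (if (n + j).Prime then (1 : ℝ) else 0)) =
        M * ∑ j ∈ Y, ∑ n ∈ F.filter (fun n => (n + j).Prime), u n := by
      simp only [Finset.mul_sum, Finset.sum_filter, mul_ite, mul_one, mul_zero]
      rw [Finset.sum_comm]
      refine Finset.sum_congr rfl fun j _ => Finset.sum_congr rfl fun n _ => ?_
      split_ifs
      · ring
      · rfl
    rw [e1]
    (clear * - ho hM; gcongr)
  have hfin : ∑ n ∈ F, u n * ((singles h n : ℝ) - (1 / η) * multis h n - δ * M -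
      M * ∑ j ∈ Y, (if (n + j).Prime then (1 : ℝ) else 0)) =
      ∑ n ∈ F, u n * ((singles h n : ℝ) - (1 / η) * multis h n) - δ * M * ∑ n ∈ F, u n -
        ∑ n ∈ F, u n * (M * ∑ j ∈ Y, (if (n + j).Prime then (1 : ℝ) else 0)) := by
    rw [Finset.mul_sum, ← Finset.sum_sub_distrib, ← Finset.sum_sub_distrib]
    exact Finset.sum_congr rfl fun n _ => by ring
  rw [hfin] at hsum
  have h1 : δ * M * ∑ n ∈ F, u n ≤ δ * M * (2 * S) := by (clear * - hT hδ0 hM; gcongr)
  have h2 : e1 * M / 2 * S * (c1 / 2) ≤ (J + 2) * S * (c1 / 2) := by gcongr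
  have h3 : δ * M * (2 * S) = e1 * c1 * M * S / 8 := by rw [hδ]; ring
  have h4 : e1 * M / 2 * S * (c1 / 2) = e1 * c1 * M * S / 4 := by ring
  have h5 : (M : ℝ) * (e1 * c1 / 32 * S) = e1 * c1 * M * S / 32 := by ring
  have h6 : 0 < e1 * c1 * M * S := by (clear * - he10 hc1 hM hS0; positivity)
  rw [h3] at h1
  rw [h4] at h2
  rw [h5] at hother
  (clear * - hsum hmain hother h1 h2 h6; linarith)

end Pool.Agent.Helper1.MT

end

section

set_option autoImplicit false

open Finset Filter

namespace Pool.Agent.Helper1.MT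

/-- From the output of the sieve to blocks. -/
theorem to_blocks {M κ0 Q E n B0 : ℕ} (hQ : 0 < Q) (hκE : κ0 ≤ E) (hQB : Q * κ0 ≤ B0)
    (hBE : B0 < E)
    (ho : ∀ j ∈ (range (Q * M * E + 1)).filter
      (fun j => ∀ a : Fin M × Fin κ0, Q * (a.1.val * E + a.2.val) ≠ j), ¬ (n + j).Prime) :
    (∀ q : ℕ, q.Prime → n ≤ q → q < n + M * (Q * E) →
      ∃ i < M, n + i * (Q * E) ≤ q ∧ q ≤ n + i * (Q * E) + B0) ∧
    (∀ (p : ℕ → Prop) [DecidablePred p],
      ((range M).filter (fun i => p (pc (n + i * (Q * E)) (n + i * (Q * E) + B0)))).card =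
      (univ.filter (fun i : Fin M =>
        p (hits (fun a : Fin M × Fin κ0 => Q * (a.1.val * E + a.2.val)) n i))).card) := by
  have hpr : ∀ j : ℕ, j ≤ Q * M * E → (n + j).Prime →
      ∃ a : Fin M × Fin κ0, j = Q * (a.1.val * E + a.2.val) := by
    intro j hj hjp
    by_contra hcon
    push Not at hcon
    refine ho j ?_ hjp
    rw [mem_filter, mem_range]
    exact ⟨by omega, fun a => (hcon a).symm⟩
  have hEQ : E ≤ Q * E := Nat.le_mul_of_pos_left E hQ
  have hpc : ∀ i (hi : i < M), pc (n + i * (Q * E)) (n + i * (Q * E) + B0) =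
      hits (fun a : Fin M × Fin κ0 => Q * (a.1.val * E + a.2.val)) n ⟨i, hi⟩ := by
    intro i hi
    unfold pc hits
    have h1 : ((Icc (n + i * (Q * E)) (n + i * (Q * E) + B0)).filter Nat.Prime) =
        (univ.filter (fun a : Fin κ0 => (n + Q * (i * E + a.val)).Prime)).image
          (fun a : Fin κ0 => n + Q * (i * E + a.val)) := by
      ext q
      simp only [mem_filter, mem_Icc, mem_image, mem_univ, true_and]
      constructor
      · rintro ⟨⟨h1, h2⟩, h3⟩
        obtain ⟨j, rfl⟩ : ∃ j, q = n + j := ⟨q - n, by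
          have : n ≤ q := le_trans (Nat.le_add_right _ _) h1
          omega⟩
        have h4 : i * (Q * E) ≤ j := by omega
        have h5 : j ≤ i * (Q * E) + B0 := by omega
        have h6 : j ≤ Q * M * E := by
          calc j ≤ i * (Q * E) + B0 := h5
            _ ≤ i * (Q * E) + Q * E := by omega
            _ = (i + 1) * (Q * E) := by ring
            _ ≤ M * (Q * E) := by gcongr; omega
            _ = Q * M * E := by ring
        obtain ⟨a, ha⟩ := hpr j h6 h3
        have h7 : a.1.val = i := by
          have ha2 := a.2.isLt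
          rcases Nat.lt_trichotomy a.1.val i with h8 | h8 | h8
          · exfalso
            have e1 : (a.1.val + 1) * E ≤ i * E := Nat.mul_le_mul_right _ h8
            have e2 : a.1.val * E + a.2.val < i * E := by
              rw [add_mul, one_mul] at e1
              omega
            have e3 : Q * (a.1.val * E + a.2.val) < Q * (i * E) :=
              Nat.mul_lt_mul_of_pos_left e2 hQ
            have e4 : i * (Q * E) = Q * (i * E) := by ring
            omega
          · exact h8
          · exfalso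
            have e1 : (i + 1) * E ≤ a.1.val * E := Nat.mul_le_mul_right _ h8
            have e2 : (i + 1) * E ≤ a.1.val * E + a.2.val := by omega
            have e3 : Q * ((i + 1) * E) ≤ Q * (a.1.val * E + a.2.val) := Nat.mul_le_mul_left _ e2
            have e4 : Q * ((i + 1) * E) = i * (Q * E) + Q * E := by ring
            omega
        refine ⟨a.2, ?_, ?_⟩
        · rw [← h7, ← ha]
          exact h3
        · rw [← h7, ← ha]
      · rintro ⟨a, ha, rfl⟩
        have e4 : i * (Q * E) = Q * (i * E) := by ring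
        have ha2 := a.isLt
        have e5 : Q * (i * E + a.val) = Q * (i * E) + Q * a.val := by ring
        have e6 : Q * a.val ≤ Q * κ0 := Nat.mul_le_mul_left _ ha2.le
        refine ⟨⟨?_, ?_⟩, ha⟩
        · omega
        · omega
    rw [h1, Finset.card_image_of_injective]
    intro a b hab
    have h2 : Q * (i * E + a.val) = Q * (i * E + b.val) := by
      have := hab
      simp only at this
      omega
    have h3 := Nat.eq_of_mul_eq_mul_left hQ h2
    exact Fin.ext (by omega)
  refine ⟨?_, ?_⟩
  · intro q hq h1 h2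
    obtain ⟨j, rfl⟩ : ∃ j, q = n + j := ⟨q - n, by omega⟩
    have h6 : j ≤ Q * M * E := by
      have : M * (Q * E) = Q * M * E := by ring
      omega
    obtain ⟨a, ha⟩ := hpr j h6 hq
    have e4 : a.1.val * (Q * E) = Q * (a.1.val * E) := by ring
    have ha2 := a.2.isLt
    have e5 : Q * (a.1.val * E + a.2.val) = Q * (a.1.val * E) + Q * a.2.val := by ring
    have e6 : Q * a.2.val ≤ Q * κ0 := Nat.mul_le_mul_left _ ha2.le
    refine ⟨a.1.val, a.1.isLt, ?_, ?_⟩
    · omega
    · (clear * - hQB ha e4 e5 e6; omega)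
  · intro p _
    rw [Finset.card_filter, Finset.card_filter, Finset.sum_range]
    refine Finset.sum_congr rfl fun i _ => ?_
    rw [hpc i.val i.isLt]

end Pool.Agent.Helper1.MT

end

section

set_option autoImplicit false

open Finset

namespace Pool.Agent.Helper16.MT

open Pool.Agent.Helper1.MT (P pc)

theorem P_prime (i : ℕ) : (P i).Prime := Nat.prime_nth_prime i

theorem P_strictMono : StrictMono P := Nat.nth_strictMono Nat.infinite_setOfPred_prime

theorem P_count {q : ℕ} (hq : q.Prime) : P (Nat.count Nat.Prime q) = q := Nat.nth_count hq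

theorem P_ge_of_count_le {n i : ℕ} (h : Nat.count Nat.Prime n ≤ i) : n ≤ P i := by
  by_contra hlt
  push Not at hlt
  have h1 : Nat.count Nat.Prime (P i) = i := Nat.count_nth_of_infinite Nat.infinite_setOfPred_prime i
  have h2 : Nat.count Nat.Prime (P i) < Nat.count Nat.Prime n :=
    Nat.count_strict_mono (P_prime i) hlt
  omega

theorem P_lt_of_lt_count {n i : ℕ} (h : i < Nat.count Nat.Prime n) : P i < n :=
  Nat.nth_lt_of_lt_count h

/-- The structure of the primes in `[n, n + M E)` if they are all in the blocks. -/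
theorem bridge (n E M B0 : ℕ) (h2 : B0 < E)
    (hq : ∀ q : ℕ, q.Prime → n ≤ q → q < n + M * E →
      ∃ i < M, n + i * E ≤ q ∧ q ≤ n + i * E + B0) :
    ∃ (p0 L : ℕ) (f : ℕ → ℕ), n ≤ P p0 ∧ (p0 = Nat.count Nat.Prime n) ∧
      (∀ i < L, f i < M) ∧ (∀ i j, i ≤ j → j < L → f i ≤ f j) ∧
      (∀ i < L, n + f i * E ≤ P (p0 + i) ∧ P (p0 + i) ≤ n + f i * E + B0) ∧
      (∀ v < M, ((range L).filter (fun i => f i = v)).card = pc (n + v * E) (n + v * E + B0)) ∧
      L ≤ M * (B0 + 1) := by
  classical
  have hE : 0 < E := by omega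
  set p0 := Nat.count Nat.Prime n with hp0
  set p1 := Nat.count Nat.Prime (n + M * E) with hp1
  have hmono : p0 ≤ p1 := Nat.count_monotone _ (by omega)
  have hblock : ∀ i < p1 - p0, (P (p0 + i) - n) / E < M ∧
      n + ((P (p0 + i) - n) / E) * E ≤ P (p0 + i) ∧
      P (p0 + i) ≤ n + ((P (p0 + i) - n) / E) * E + B0 := by
    intro i hi
    have ha : n ≤ P (p0 + i) := P_ge_of_count_le (by omega)
    have hb : P (p0 + i) < n + M * E := P_lt_of_lt_count (by omega)
    obtain ⟨v, hv, h3, h4⟩ := hq _ (P_prime _) ha hb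
    have hval : (P (p0 + i) - n) / E = v := by
      rw [Nat.div_eq_iff hE]
      constructor
      · omega
      · omega
    rw [hval]
    exact ⟨hv, h3, h4⟩
  have hcount : ∀ v < M, ((range (p1 - p0)).filter
      (fun i => (P (p0 + i) - n) / E = v)).card = pc (n + v * E) (n + v * E + B0) := by
    intro v hv
    unfold pc
    refine Finset.card_bij (fun i _ => P (p0 + i)) ?_ ?_ ?_
    · intro i hi
      simp only [mem_filter, mem_range] at hi
      have := hblock i hi.1
      rw [hi.2] at this
      simp only [mem_filter, mem_Icc]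
      exact ⟨⟨this.2.1, this.2.2⟩, P_prime _⟩
    · intro i _ j _ hij
      have := P_strictMono.injective hij
      omega
    · intro q hq'
      simp only [mem_filter, mem_Icc] at hq'
      have hvE : (v + 1) * E ≤ M * E := Nat.mul_le_mul_right _ hv
      have hvE' : (v + 1) * E = v * E + E := by ring
      have h5 : q < n + M * E := by omega
      have h6 : n ≤ q := le_trans (Nat.le_add_right _ _) hq'.1.1
      have h7 : p0 ≤ Nat.count Nat.Prime q := Nat.count_monotone _ h6
      have h8 : Nat.count Nat.Prime q < p1 := Nat.count_strict_mono hq'.2 h5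
      refine ⟨Nat.count Nat.Prime q - p0, ?_, ?_⟩
      · simp only [mem_filter, mem_range]
        refine ⟨by omega, ?_⟩
        rw [show p0 + (Nat.count Nat.Prime q - p0) = Nat.count Nat.Prime q by omega,
          P_count hq'.2, Nat.div_eq_iff hE]
        constructor
        · omega
        · omega
      · rw [show p0 + (Nat.count Nat.Prime q - p0) = Nat.count Nat.Prime q by omega,
          P_count hq'.2]
  refine ⟨p0, p1 - p0, fun i => (P (p0 + i) - n) / E, P_ge_of_count_le le_rfl, rfl,
    fun i hi => (hblock i hi).1, ?_, fun i hi => (hblock i hi).2, hcount, ?_⟩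
  · intro i j hij _
    apply Nat.div_le_div_right
    exact Nat.sub_le_sub_right (P_strictMono.monotone (by omega)) _
  · have h1 : (range (p1 - p0)).card = ∑ v ∈ range M,
        ((range (p1 - p0)).filter (fun i => (P (p0 + i) - n) / E = v)).card := by
      apply Finset.card_eq_sum_card_fiberwise
      intro i hi
      simp only [coe_range, Set.mem_Iio] at hi ⊢
      exact (hblock i hi).1
    rw [card_range] at h1
    rw [h1]
    calc ∑ v ∈ range M,
        ((range (p1 - p0)).filter (fun i => (P (p0 + i) - n) / E = v)).card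
        ≤ ∑ v ∈ range M, (B0 + 1) := by
          apply Finset.sum_le_sum
          intro v hv
          rw [hcount v (by simpa using hv)]
          unfold pc
          refine (Finset.card_filter_le _ _).trans ?_
          rw [Nat.card_Icc]
          omega
      _ = M * (B0 + 1) := by simp

end Pool.Agent.Helper16.MT

end

section

set_option autoImplicit false

open Finset

namespace Pool.Agent.Helper16.MT

/-- The values that are taken exactly once. -/
def sgl (M L : ℕ) (f : ℕ → ℕ) : Finset ℕ :=
  (range M).filter (fun v => ((range L).filter (fun i => f i = v)).card = 1)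

/-- The values that are taken at least twice. -/
def mlt (M L : ℕ) (f : ℕ → ℕ) : Finset ℕ :=
  (range M).filter (fun v => 2 ≤ ((range L).filter (fun i => f i = v)).card)

/-- The good windows. -/
def good (M L : ℕ) (f : ℕ → ℕ) (r C : ℕ) : Finset ℕ :=
  (range L).filter (fun i => i + r < L ∧ (∀ j ≤ r, f (i + j) ∈ sgl M L f) ∧
    ∀ j < r, f (i + j + 1) ≤ f (i + j) + C)

theorem sgl_lt {M L : ℕ} {f : ℕ → ℕ} (hmono : ∀ i j, i ≤ j → j < L → f i ≤ f j)
    {i j : ℕ} (hi : f i ∈ sgl M L f) (hij : i < j) (hj : j < L) : f i < f j := by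
  rcases Nat.lt_or_ge (f i) (f j) with h | h
  · exact h
  · exfalso
    have heq : f j = f i := le_antisymm h (hmono i j hij.le hj)
    simp only [sgl, mem_filter, mem_range] at hi
    have h1 : ({i, j} : Finset ℕ) ⊆ (range L).filter (fun a => f a = f i) := by
      intro a ha
      simp only [mem_insert, mem_singleton] at ha
      rcases ha with rfl | rfl
      · simp only [mem_filter, mem_range, and_true]; omega
      · simp only [mem_filter, mem_range]; exact ⟨hj, heq⟩
    have h2 := Finset.card_le_card h1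
    rw [hi.2, Finset.card_pair hij.ne] at h2
    omega

theorem card_good (M L : ℕ) (f : ℕ → ℕ) (r C : ℕ) (hM : ∀ i < L, f i < M)
    (hmono : ∀ i j, i ≤ j → j < L → f i ≤ f j) :
    (sgl M L f).card ≤ (good M L f r C).card + r + r * (mlt M L f).card +
      r * (M / (C + 1) + 1) := by
  classical
  -- the indices with single values
  set S' := (range L).filter (fun i => f i ∈ sgl M L f) with hS'
  have h1 : (sgl M L f).card ≤ S'.card := by
    have : sgl M L f ⊆ S'.image f := by
      intro v hv
      have hv' := hv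
      simp only [sgl, mem_filter, mem_range] at hv'
      have : 0 < ((range L).filter (fun i => f i = v)).card := by omega
      obtain ⟨i, hi⟩ := Finset.card_pos.mp this
      simp only [mem_filter, mem_range] at hi
      refine Finset.mem_image.mpr ⟨i, ?_, hi.2⟩
      simp only [hS', mem_filter, mem_range]
      exact ⟨hi.1, by rw [hi.2]; exact hv⟩
    exact (Finset.card_le_card this).trans Finset.card_image_le
  set E1 := (range L).filter (fun i => L ≤ i + r) with hE1
  set B := fun j => (range L).filter (fun i => i + j + 1 < L ∧ f (i + j) ∈ sgl M L f ∧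
    f (i + j + 1) ∉ sgl M L f) with hB
  set D := fun j => (range L).filter (fun i => i + j + 1 < L ∧ f (i + j) + C < f (i + j + 1))
    with hD
  have hsub : S' ⊆ good M L f r C ∪ E1 ∪ (range r).biUnion B ∪ (range r).biUnion D := by
    intro i hi
    simp only [hS', mem_filter, mem_range] at hi
    by_contra hcon
    simp only [mem_union, not_or, mem_biUnion, mem_range, not_exists, not_and] at hcon
    obtain ⟨⟨⟨hg, he⟩, hb⟩, hd⟩ := hcon
    have hir : i + r < L := by
      by_contra h
      apply he
      simp only [hE1, mem_filter, mem_range]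
      exact ⟨hi.1, by omega⟩
    apply hg
    simp only [good, mem_filter, mem_range]
    refine ⟨hi.1, hir, ?_, ?_⟩
    · intro j hj
      induction j with
      | zero => exact hi.2
      | succ j ih =>
        by_contra hns
        have := hb j (by omega)
        apply this
        simp only [hB, mem_filter, mem_range]
        exact ⟨hi.1, by omega, ih (by omega), hns⟩
    · intro j hj
      by_contra hns
      have := hd j hj
      apply this
      simp only [hD, mem_filter, mem_range]
      exact ⟨hi.1, by omega, by omega⟩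
  have hE1c : E1.card ≤ r := by
    have : E1 ⊆ Ico (L - r) L := by
      intro i hi
      simp only [hE1, mem_filter, mem_range] at hi
      simp only [mem_Ico]
      omega
    refine (Finset.card_le_card this).trans ?_
    rw [Nat.card_Ico]
    omega
  have hBc : ∀ j, (B j).card ≤ (mlt M L f).card := by
    intro j
    apply Finset.card_le_card_of_injOn (fun i => f (i + j + 1))
    · intro i hi
      simp only [hB, coe_filter, mem_range, Set.mem_ofPred_eq] at hi
      simp only [mlt, coe_filter, mem_range, Set.mem_ofPred_eq]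
      refine ⟨hM _ hi.2.1, ?_⟩
      have h3 : ((range L).filter (fun a => f a = f (i + j + 1))).card ≠ 1 := by
        intro h
        apply hi.2.2.2
        simp only [sgl, mem_filter, mem_range]
        exact ⟨hM _ hi.2.1, h⟩
      have h4 : 0 < ((range L).filter (fun a => f a = f (i + j + 1))).card := by
        apply Finset.card_pos.mpr
        exact ⟨i + j + 1, by simp only [mem_filter, mem_range, and_true]; exact hi.2.1⟩
      omega
    · have key : ∀ i i', i ∈ B j → i' ∈ B j → f (i + j + 1) = f (i' + j + 1) → ¬ i < i' := by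
        intro i i' hi hi' heq hlt
        simp only [hB, mem_filter, mem_range] at hi hi'
        have h5 : f (i + j + 1) ≤ f (i' + j) := hmono _ _ (by omega) (by omega)
        have h6 : f (i' + j) < f (i' + j + 1) := sgl_lt hmono hi'.2.2.1 (by omega) hi'.2.1
        omega
      intro i hi i' hi' heq
      rcases Nat.lt_trichotomy i i' with h | h | h
      · exact absurd h (key i i' hi hi' heq)
      · exact h
      · exact absurd h (key i' i hi' hi heq.symm)
  have hDc : ∀ j, (D j).card ≤ M / (C + 1) + 1 := by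
    intro j
    rw [← card_range (M / (C + 1) + 1)]
    apply Finset.card_le_card_of_injOn (fun i => f (i + j + 1) / (C + 1))
    · intro i hi
      simp only [hD, coe_filter, mem_range, Set.mem_ofPred_eq] at hi
      simp only [coe_range, Set.mem_Iio]
      have := Nat.div_le_div_right (c := C + 1) (hM _ hi.2.1).le
      omega
    · have key : ∀ i i', i ∈ D j → i' ∈ D j → i < i' →
          f (i + j + 1) / (C + 1) < f (i' + j + 1) / (C + 1) := by
        intro i i' hi hi' hlt
        simp only [hD, mem_filter, mem_range] at hi hi'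
        have h5 : f (i + j + 1) ≤ f (i' + j) := hmono _ _ (by omega) (by omega)
        have h6 : f (i + j + 1) + (C + 1) ≤ f (i' + j + 1) := by omega
        have h7 := Nat.div_le_div_right (c := C + 1) h6
        rw [Nat.add_div_right _ (Nat.succ_pos C), Nat.succ_eq_add_one] at h7
        omega
      intro i hi i' hi' heq
      rcases Nat.lt_trichotomy i i' with h | h | h
      · exact absurd heq (key i i' hi hi' h).ne
      · exact h
      · exact absurd heq (key i' i hi' hi h).ne'
  have hsum := (Finset.card_le_card hsub).trans (Finset.card_union_le _ _)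
  have hsum2 := Finset.card_union_le (good M L f r C ∪ E1) ((range r).biUnion B)
  have hsum3 := Finset.card_union_le (good M L f r C) E1
  have hb1 : ((range r).biUnion B).card ≤ r * (mlt M L f).card := by
    refine Finset.card_biUnion_le.trans ?_
    refine (Finset.sum_le_sum (fun j _ => hBc j)).trans ?_
    simp
  have hd1 : ((range r).biUnion D).card ≤ r * (M / (C + 1) + 1) := by
    refine Finset.card_biUnion_le.trans ?_
    refine (Finset.sum_le_sum (fun j _ => hDc j)).trans ?_
    simp
  omega

end Pool.Agent.Helper16.MT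

end

section

set_option autoImplicit false

open Finset

namespace Pool.Agent.Helper93.MT

open Pool.Agent.Helper1.MT (P pc Szemeredi)

open Pool.Agent.Helper16.MT

/-- The combinatorial part: a long progression of good windows with the same pattern. -/
theorem windows_ap (hS : Szemeredi) (r k C : ℕ) (δ : ℝ) (hδ : 0 < δ)
    (hC : 8 * (r : ℝ) / δ ≤ C) :
    ∃ M1 : ℕ, ∀ M : ℕ, M1 ≤ M → ∀ (L : ℕ) (f : ℕ → ℕ), (∀ i < L, f i < M) →
      (∀ i j, i ≤ j → j < L → f i ≤ f j) → δ * M ≤ (sgl M L f).card →
      ((mlt M L f).card : ℝ) ≤ 1 / (4 * ((r : ℝ) + 1)) * (sgl M L f).card →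
      ∃ (ι : ℕ → ℕ) (g' : ℕ) (gg : ℕ → ℕ), C * r < g' ∧ g' < M ∧ (∀ l < r, 1 ≤ gg l ∧ gg l < M) ∧
        (∀ s ≤ k, ι s + r < L ∧ f (ι s) = f (ι 0) + s * g' ∧
          f (ι s + r) ≤ f (ι s) + C * r ∧
          ∀ j ≤ r, f (ι s + j) = f (ι s) + ∑ l ∈ range j, gg l) := by
  classical
  set δ' : ℝ := δ / (4 * ((C : ℝ) + 1) ^ r) with hδ'
  have hδ'pos : 0 < δ' := by (clear * - hδ; positivity)
  obtain ⟨N0, hN0⟩ := hS ((k + 1) * (C * r + 1) + 1) δ' hδ'pos
  obtain ⟨M1, hM1⟩ := exists_nat_ge (16 * (r : ℝ) / (3 * δ))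
  refine ⟨max M1 N0, fun M hM L f hfM hmono hs hm => ?_⟩
  have hMr : 2 * (r : ℝ) ≤ 3 / 8 * (δ * M) := by
    have h1 : (M1 : ℝ) ≤ M := by exact_mod_cast (le_max_left _ _).trans hM
    have h2 := hM1.trans h1
    rw [div_le_iff₀ (by positivity)] at h2
    (clear * - h2; linarith)
  have hgood := card_good M L f r C hfM hmono
  have hmany : δ * M / 4 ≤ (good M L f r C).card := by
    have h3 : ((sgl M L f).card : ℝ) ≤ (good M L f r C).card + r + r * (mlt M L f).card +
      r * (((M / (C + 1) : ℕ) : ℝ) + 1) := by exact_mod_cast hgood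
    have h4 : (((M / (C + 1) : ℕ) : ℝ)) ≤ (M : ℝ) / (C + 1) := by
      have := @Nat.cast_div_le ℝ _ _ _ M (C + 1)
      simpa using this
    have h5 : (r : ℝ) * ((M : ℝ) / (C + 1)) ≤ (sgl M L f).card / 8 := by
      have h6 : 8 * (r : ℝ) ≤ δ * (C + 1) := by
        rw [div_le_iff₀ hδ] at hC
        (clear * - hδ hC; nlinarith)
      have h7 : (r : ℝ) * ((M : ℝ) / (C + 1)) ≤ δ * M / 8 := by
        rw [← mul_div_assoc, div_le_div_iff₀ (by positivity) (by norm_num)]
        have hM0' : (0 : ℝ) ≤ M := by positivity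
        (clear * - h6; nlinarith)
      (clear * - hs h7; linarith)
    have h8 : (r : ℝ) * (mlt M L f).card ≤ (sgl M L f).card / 4 := by
      have h9 : (r : ℝ) * (mlt M L f).card ≤
          r * (1 / (4 * ((r : ℝ) + 1)) * (sgl M L f).card) :=
        mul_le_mul_of_nonneg_left hm (by positivity)
      have h10 : r * (1 / (4 * ((r : ℝ) + 1)) * (sgl M L f).card) ≤ (sgl M L f).card / 4 := by
        have h11 : (r : ℝ) / (r + 1) ≤ 1 := by
          rw [div_le_one (by positivity)]; (clear * -; linarith)
        have h12 : r * (1 / (4 * ((r : ℝ) + 1)) * (sgl M L f).card) =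
            (r : ℝ) / (r + 1) * ((sgl M L f).card / 4) := by
          field_simp
        rw [h12]
        have h13 : (0 : ℝ) ≤ ((sgl M L f).card : ℝ) / 4 := by (clear * -; positivity)
        nlinarith
      (clear * - h9 h10; linarith)
    have h14 : (r : ℝ) * (((M / (C + 1) : ℕ) : ℝ)) ≤ r * ((M : ℝ) / (C + 1)) :=
      mul_le_mul_of_nonneg_left h4 (by (clear * -; positivity))
    (clear * - hs hMr h3 h5 h8 h14; nlinarith)
  -- the pigeonhole principle
  let F : ℕ → (Fin r → Fin (C + 1)) := fun i j =>
    Fin.ofNat (C + 1) (f (i + j + 1) - f (i + j))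
  obtain ⟨g, -, hg⟩ := Finset.exists_le_card_fiber_of_nsmul_le_card_of_maps_to
    (s := good M L f r C) (t := (univ : Finset (Fin r → Fin (C + 1)))) (f := F) (b := δ' * M)
    (fun i _ => mem_univ _) ⟨fun _ => 0, mem_univ _⟩ (by
      rw [card_univ, Fintype.card_fun, Fintype.card_fin, Fintype.card_fin, nsmul_eq_mul]
      push_cast
      have : ((C : ℝ) + 1) ^ r * (δ' * M) = δ * M / 4 := by
        rw [hδ']
        (clear * - hδ; field_simp)
      rw [this]
      exact hmany)
  set Fi := (good M L f r C).filter (fun i => F i = g) with hFi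
  have hmemgood : ∀ i ∈ Fi, i < L ∧ i + r < L ∧ (∀ j ≤ r, f (i + j) ∈ sgl M L f) ∧
      ∀ j < r, f (i + j + 1) ≤ f (i + j) + C := by
    intro i hi
    simp only [hFi, good, mem_filter, mem_range] at hi
    exact ⟨hi.1.1, hi.1.2.1, hi.1.2.2.1, hi.1.2.2.2⟩
  have hinj : Set.InjOn f Fi := by
    intro i hi i' hi' h
    have h1 := hmemgood i hi
    have h2 := hmemgood i' hi'
    rcases Nat.lt_trichotomy i i' with hlt | heq | hlt
    · have := sgl_lt hmono (h1.2.2.1 0 (Nat.zero_le _)) (show i + 0 < i' by omega) h2.1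
      simp only [Nat.add_zero] at this
      omega
    · exact heq
    · have := sgl_lt hmono (h2.2.2.1 0 (Nat.zero_le _)) (show i' + 0 < i by omega) h1.1
      simp only [Nat.add_zero] at this
      omega
  have hAsub : Fi.image f ⊆ range M := by
    intro v hv
    obtain ⟨i, hi, rfl⟩ := mem_image.1 hv
    exact mem_range.2 (hfM i (hmemgood i hi).1)
  have hAcard : δ' * M ≤ (Fi.image f).card := by
    rw [card_image_of_injOn hinj]
    exact hg
  obtain ⟨a, d0, hd0, hap⟩ := hN0 M ((le_max_right _ _).trans hM) (Fi.image f) hAsub hAcard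
  have hex : ∀ s, s ≤ k + 1 → ∃ i, i ∈ Fi ∧ f i = a + s * ((C * r + 1) * d0) := by
    intro s hs'
    have h1 : s * (C * r + 1) < (k + 1) * (C * r + 1) + 1 :=
      Nat.lt_succ_of_le (Nat.mul_le_mul_right _ hs')
    obtain ⟨i, hi, h2⟩ := mem_image.1 (hap _ h1)
    exact ⟨i, hi, by rw [h2, mul_assoc]⟩
  choose! ι hι1 hι2 using hex
  -- the pattern
  let gg : ℕ → ℕ := fun l => if h : l < r then (g ⟨l, h⟩ : ℕ) else 1
  have hstep : ∀ i ∈ Fi, ∀ l < r, f (i + l + 1) = f (i + l) + gg l ∧ f (i + l) < f (i + l + 1) := by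
    intro i hi l hl
    obtain ⟨h1, h2, h3, h4⟩ := hmemgood i hi
    have hlt : f (i + l) < f (i + l + 1) := sgl_lt hmono (h3 l hl.le) (by omega) (by omega)
    refine ⟨?_, hlt⟩
    have hFg : F i = g := by
      simp only [hFi, mem_filter] at hi
      exact hi.2
    have hval : (g ⟨l, hl⟩ : ℕ) = f (i + l + 1) - f (i + l) := by
      rw [← hFg]
      change ((Fin.ofNat (C + 1) (f (i + l + 1) - f (i + l))) : ℕ) = _
      rw [Fin.val_ofNat]
      apply Nat.mod_eq_of_lt
      have := h4 l hl
      omega
    have : gg l = f (i + l + 1) - f (i + l) := by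
      simp only [gg, dif_pos hl, hval]
    omega
  have hsum : ∀ i ∈ Fi, ∀ j ≤ r, f (i + j) = f i + ∑ l ∈ range j, gg l := by
    intro i hi j
    induction j with
    | zero => intro _; simp
    | succ j ih =>
      intro hj
      have h1 := ih (by omega)
      have h2 := (hstep i hi j (by omega)).1
      rw [sum_range_succ, show i + (j + 1) = i + j + 1 by omega]
      omega
  have hsumle : ∀ i ∈ Fi, ∀ j ≤ r, f (i + j) ≤ f i + C * j := by
    intro i hi j
    induction j with
    | zero => intro _; simp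
    | succ j ih =>
      intro hj
      have h1 := ih (by omega)
      have h2 := (hmemgood i hi).2.2.2 j (by omega)
      rw [show i + (j + 1) = i + j + 1 by omega, Nat.mul_succ]
      omega
  refine ⟨ι, (C * r + 1) * d0, gg, ?_, ?_, ?_, ?_⟩
  · have : (C * r + 1) * 1 ≤ (C * r + 1) * d0 := Nat.mul_le_mul_left _ hd0
    (clear * - N0 M1 M L f this; omega)
  · have h1 := hι2 (k + 1) le_rfl
    have h2 := hfM _ (hmemgood _ (hι1 (k + 1) le_rfl)).1
    have h3 : (C * r + 1) * d0 ≤ (k + 1) * ((C * r + 1) * d0) :=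
      Nat.le_mul_of_pos_left _ (Nat.succ_pos k)
    omega
  · intro l hl
    obtain ⟨h1, h2⟩ := hstep _ (hι1 0 (Nat.zero_le _)) l hl
    have h3 := hmemgood _ (hι1 0 (Nat.zero_le _))
    have h4 := hfM (ι 0 + l + 1) (by omega)
    omega
  · intro s hs'
    have hmem := hι1 s (by omega)
    refine ⟨(hmemgood _ hmem).2.1, ?_, hsumle _ hmem r le_rfl, hsum _ hmem⟩
    rw [hι2 s (by omega), hι2 0 (Nat.zero_le _)]
    ring

end Pool.Agent.Helper93.MT

end

section

namespace Pool.Agent.Helper52.SZ

open Combinatorics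

section subspaces

variable {ι κ κ' η ζ α β : Type}

/-- a subspace over the alphabet α, read over the alphabet Option α -/
def extS (V : Subspace η α ι) : Subspace η (Option α) ι where
  idxFun j := (V.idxFun j).map some id
  proper e := by
    obtain ⟨j, hj⟩ := V.proper e
    exact ⟨j, by simp [hj]⟩

/-- a line of the first block, constant on the second block -/
def lineL (e : ι ≃ κ ⊕ κ') (l : Line β κ) (v : κ' → β) : Line β ι where
  idxFun j := Sum.elim l.idxFun (fun p => some (v p)) (e j)
  proper := by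
    obtain ⟨p, hp⟩ := l.proper
    exact ⟨e.symm (Sum.inl p), by simp [hp]⟩

/-- a line of the second block, constant on the first block -/
def lineR (e : ι ≃ κ ⊕ κ') (u : κ → β) (l : Line β κ') : Line β ι where
  idxFun j := Sum.elim (fun p => some (u p)) l.idxFun (e j)
  proper := by
    obtain ⟨p, hp⟩ := l.proper
    exact ⟨e.symm (Sum.inr p), by simp [hp]⟩

/-- the image of a line under a subspace -/
def lineS (V : Subspace η β ι) (l : Line β η) : Line β ι where
  idxFun j := (V.idxFun j).elim some l.idxFun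
  proper := by
    obtain ⟨d, hd⟩ := l.proper
    obtain ⟨j, hj⟩ := V.proper d
    exact ⟨j, by simp [hj, hd]⟩

theorem lineS_apply (V : Subspace η β ι) (l : Line β η) (x : β) :
    lineS V l x = V (l x) := by
  funext j
  simp only [Line.coe_apply, Subspace.coe_apply, lineS]
  cases V.idxFun j <;> rfl

end subspaces

end Pool.Agent.Helper52.SZ

end

section

set_option autoImplicit false

namespace Pool.Agent.Helper52.SZ

open Combinatorics

section ramsey

variable {α β ι ι' ι₁ η ζ : Type}

/-- the word with first letter a, then w -/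
def ram_cons (a : β) (w : ι' → β) : Option ι' → β := fun o => o.elim a w

/-- reindexing a subspace -/
def ram_re (σ : ι ≃ ι₁) (V : Subspace η β ι₁) : Subspace η β ι where
  idxFun j := V.idxFun (σ j)
  proper e := by
    obtain ⟨j, hj⟩ := V.proper e
    exact ⟨σ.symm j, by rw [σ.apply_symm_apply, hj]⟩

theorem ram_ext_re (σ : ι ≃ ι₁) (V : Subspace η α ι₁) (s : η → Option α) :
    extS (ram_re σ V) s = fun j => extS V s (σ j) := by
  funext j
  simp only [Subspace.coe_apply, extS, ram_re]

/-- the subspace obtained from a subspace over the alphabet with star, which has the first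
coordinate as an additional wildcard -/
def ram_W0 (T : Subspace η (Option α) ι') : Subspace (Option η) α (Option ι') where
  idxFun o := o.elim (Sum.inr none)
    fun j => (T.idxFun j).elim (fun b => b.elim (Sum.inr none) Sum.inl) fun q => Sum.inr (some q)
  proper e := by
    rcases e with _ | q
    · exact ⟨none, rfl⟩
    · obtain ⟨j, hj⟩ := T.proper q
      exact ⟨some j, by simp [hj]⟩

theorem ram_W0_ext (T : Subspace η (Option α) ι') (s : Option η → Option α) (hs : s none = none) :
    extS (ram_W0 T) s = ram_cons none (T (fun q => s (some q))) := by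
  funext o
  rcases o with _ | j
  · simp [Subspace.coe_apply, extS, ram_W0, ram_cons, hs]
  · simp only [Subspace.coe_apply, extS, ram_W0, ram_cons, Option.elim_some]
    rcases T.idxFun j with b | q
    · rcases b with _ | a
      · simp [hs]
      · simp
    · simp

end ramsey

end Pool.Agent.Helper52.SZ

end
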