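import Mathlib

/-!
Parts of Helper1.MT.Defs, Helper1.MT.Bounds, Helper90.MT.Common, Helper9.MT.Gram, Helper74.MT.ClassSum, Helper74.MT.SumAll, Helper18.MT.SumGen
-/

namespace Pool.Agent.Helper1.MT
end Pool.Agent.Helper1.MT
namespace Pool.Agent.Helper74.MT
end Pool.Agent.Helper74.MT

section

set_option autoImplicit false

open Finset

open scoped ArithmeticFunction.vonMangoldt

namespace Pool.Agent.Helper1.MT

section Abstract

variable {ι κ : Type} [Fintype ι] [Fintype κ] [DecidableEq ι] [DecidableEq κ]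

/-- `c` is a restriction of `σ`. -/
def Le (c σ : ι → Option κ) : Prop := ∀ p, c p = none ∨ c p = σ p

instance (c σ : ι → Option κ) : Decidable (Le c σ) := by unfold Le; infer_instance

/-- The support of a colouring. -/
def supp (c : ι → Option κ) : Finset ι := univ.filter (fun p => c p ≠ none)

/-- The set of points of colour `i`. -/
def cls (c : ι → Option κ) (i : κ) : Finset ι := univ.filter (fun p => c p = some i)

/-- The weight of a finite set. -/
def ws (w : ι → ℝ) (S : Finset ι) : ℝ := ∏ p ∈ S, w p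

/-- Local probabilities: every colour has probability `w`. -/
def pr (κ : Type) [Fintype κ] (w : ℝ) : Option κ → ℝ
  | none => 1 - Fintype.card κ * w
  | some _ => w

/-- The local factor of the inverse transform (`λ` in terms of `y`). -/
def inv (w : ℝ) : Option κ → Option κ → ℝ
  | none, none => 1
  | none, some _ => -w
  | some _, none => 0
  | some i, some j => if i = j then 1 else 0

/-- The sieve weights `λ` in terms of `y`. -/
def lam (w : ι → ℝ) (y : (ι → Option κ) → ℝ) (c : ι → Option κ) : ℝ :=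
  ∑ c' : ι → Option κ, (∏ p, inv (w p) (c p) (c' p)) * y c'

/-- The local factor of the transform for primes. -/
def ker (m : κ) (w w' : ℝ) : Option κ → Option κ → ℝ
  | none, none => 1
  | none, some j => if j = m then -w else w' - w
  | some _, none => 0
  | some i, some j => if i = j then 1 else 0

/-- The value at `c` of the transform for primes. -/
def ym (m : κ) (w w' : ι → ℝ) (y : (ι → Option κ) → ℝ) (c : ι → Option κ) : ℝ :=
  ∑ c' : ι → Option κ, (∏ p, ker m (w p) (w' p) (c p) (c' p)) * y c'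

/-- The quadratic form of the sieve: expectation of `(∑_{c ≤ σ} f c) ^ 2`. -/
def Qf (P : ι → Option κ → ℝ) (f : (ι → Option κ) → ℝ) : ℝ :=
  ∑ σ : ι → Option κ, (∏ p, P p (σ p)) *
    (∑ c ∈ univ.filter (fun c : ι → Option κ => Le c σ), f c) ^ 2

/-- The size of a set. -/
def T (t : ι → ℝ) (S : Finset ι) : ℝ := ∑ p ∈ S, t p

/-- `∑_S γ(S) w(S)`. -/
noncomputable def A1 (w : ι → ℝ) (γ : Finset ι → ℝ) : ℝ := ∑ S : Finset ι, γ S * ws w S

/-- `∑_S γ(S)² w(S)`. -/
noncomputable def B1 (w : ι → ℝ) (γ : Finset ι → ℝ) : ℝ := ∑ S : Finset ι, γ S ^ 2 * ws w S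

/-- `∑_S γ(S)² T(S) w(S)`. -/
noncomputable def M1 (w t : ι → ℝ) (γ : Finset ι → ℝ) : ℝ :=
  ∑ S : Finset ι, γ S ^ 2 * T t S * ws w S

/-- `∑_{T(S) ≤ 1} w(S)`. -/
noncomputable def V0 (w t : ι → ℝ) : ℝ :=
  ∑ S ∈ (univ : Finset (Finset ι)).filter (fun S => T t S ≤ 1), ws w S

/-- The choice of `y`. -/
noncomputable def yw (t : ι → ℝ) (γ : Finset ι → ℝ) (c : ι → Option κ) : ℝ :=
  (-1) ^ (supp c).card * (if T t (supp c) ≤ 1 then ∏ i : κ, γ (cls c i) else 0)

/-- Assumptions on a truncation function `γ` on finite sets: `t` is the size function,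
`w` are the weights, `K` the number of colours, `η` bounds the sum of the squares of the
weights. -/
structure Good (K : ℕ) (w t : ι → ℝ) (γ : Finset ι → ℝ) (τ η : ℝ) : Prop where
  w_nonneg : ∀ p, 0 ≤ w p
  w_le : ∀ p, 4 * (K + 1 : ℝ) * w p ≤ 1
  t_nonneg : ∀ p, 0 ≤ t p
  g_nonneg : ∀ S, 0 ≤ γ S
  g_le : ∀ S, γ S ≤ 1
  g_anti : ∀ S S', S ⊆ S' → γ S' ≤ γ S
  g_supp : ∀ S, γ S ≠ 0 → T t S ≤ τ
  sq : ∑ p, w p ^ 2 ≤ η
  eta : 1000 * (K : ℝ) ^ 2 * η ≤ 1
  tau_nonneg : 0 ≤ τ
  tau_le : τ ≤ 1 / 10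

end Abstract

/-- MT-T: sums over colourings are at most sums over tuples of sets. -/
def TupleSum : Prop :=
  ∀ (ι κ : Type) [Fintype ι] [Fintype κ] [DecidableEq ι] [DecidableEq κ]
    (G : κ → Finset ι → ℝ), (∀ i S, 0 ≤ G i S) →
    ∑ c : ι → Option κ, ∏ i, G i (cls c i) ≤ ∏ i, ∑ S : Finset ι, G i S

/-- MT-G1: upper bound for the quadratic form over all integers. -/
def GramUpper : Prop :=
  ∀ (ι κ : Type) [Fintype ι] [Fintype κ] [DecidableEq ι] [DecidableEq κ] (w : ι → ℝ)
    (y : (ι → Option κ) → ℝ), (∀ p, 0 ≤ w p) → (∀ p, Fintype.card κ * w p ≤ 1) →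
    Qf (fun p => pr κ (w p)) (lam w y) ≤ ∑ c : ι → Option κ, ws w (supp c) * y c ^ 2

/-- MT-L: the main term for primes. -/
def LowerMain : Prop :=
  ∀ (ι κ : Type) [Fintype ι] [Fintype κ] [DecidableEq ι] [DecidableEq κ] (w w' t : ι → ℝ)
    (γ : Finset ι → ℝ) (τ η : ℝ), Good (Fintype.card κ) w t γ τ η →
    (∀ p, w p ≤ w' p) → (∀ p, w' p - w p ≤ 2 * w p ^ 2) →
    ((Fintype.card κ : ℝ) - 1) * M1 w t γ ≤ 1 / 10 * (1 - τ) * B1 w γ →
    ∀ m : κ, 1 / 2 * (A1 w γ ^ 2 * B1 w γ ^ (Fintype.card κ - 1)) ≤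
      ∑ c ∈ univ.filter (fun c : ι → Option κ => cls c m = ∅),
        (∏ p ∈ supp c, w' p * (1 - ((Fintype.card κ : ℝ) - 1) * w' p)) *
          ym m w w' (yw t γ) c ^ 2

/-- MT-N0: from a distribution of weights to the quadratic form. `join c c'` is a common extension
of compatible colourings. -/
def join {ι κ : Type} (c c' : ι → Option κ) : ι → Option κ :=
  fun p => if (c p).isSome then c p else c' p

/-- Two colourings are compatible: they agree wherever both are defined. -/
def Compat {ι κ : Type} (c c' : ι → Option κ) : Prop :=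
  ∀ p, c p = none ∨ c' p = none ∨ c p = c' p

/-- MT-N0: if the probability that `c ≤ σ(n)` is close to a product, then the sieve sum is close
to the quadratic form. -/
def Expand : Prop :=
  ∀ (ι κ : Type) [Fintype ι] [Fintype κ] [DecidableEq ι] [DecidableEq κ]
    (P : ι → Option κ → ℝ) (f : (ι → Option κ) → ℝ) (F : Finset ℕ) (ν : ℕ → ℝ)
    (σ : ℕ → ι → Option κ) (X : ℝ) (E : (ι → Option κ) → ℝ),
    (∀ p, ∑ a : Option κ, P p a = 1) →
    (∀ c c', f c ≠ 0 → f c' ≠ 0 → Compat c c' →
      |∑ n ∈ F.filter (fun n => Le (join c c') (σ n)), ν n -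
        X * ∏ p ∈ supp (join c c'), P p (join c c' p)| ≤ E (join c c')) →
    |∑ n ∈ F, ν n * (∑ c ∈ univ.filter (fun c : ι → Option κ => Le c (σ n)), f c) ^ 2 -
      X * Qf P f| ≤
      ∑ c : ι → Option κ, ∑ c' : ι → Option κ,
        (open Classical in if Compat c c' then |f c| * |f c'| * E (join c c') else 0)

/-- The primes up to `R` that do not divide `W`. -/
def PS (R W : ℕ) : Finset ℕ := (range (R + 1)).filter (fun p => p.Prime ∧ ¬ p ∣ W)

/-- The weights `1/p`. -/
noncomputable def wp (R W : ℕ) (p : PS R W) : ℝ := 1 / ((p : ℕ) : ℝ)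

/-- The sizes `log p / log R`. -/
noncomputable def tp (R W : ℕ) (p : PS R W) : ℝ := Real.log ((p : ℕ) : ℝ) / Real.log R

/-- `p ∣ n + h i` whenever `p` has colour `i`. -/
def Dv {κ : Type} {R W : ℕ} (h : κ → ℕ) (c : PS R W → Option κ) (n : ℕ) : Prop :=
  ∀ p i, c p = some i → (p : ℕ) ∣ n + h i

/-- The integers `n` in `(√x, x]` with `n ≡ v` modulo `W`. -/
noncomputable def NS (x : ℝ) (W v : ℕ) : Finset ℕ :=
  (Ioc ⌊x ^ (1 / 2 : ℝ)⌋₊ ⌊x⌋₊).filter (fun n => n ≡ v [MOD W])

/-- The sieve weight of `n`. -/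
noncomputable def sw {κ : Type} [Fintype κ] [DecidableEq κ] {R W : ℕ} (h : κ → ℕ)
    (f : (PS R W → Option κ) → ℝ) (n : ℕ) : ℝ := by
  classical exact (∑ c ∈ univ.filter (fun c : PS R W → Option κ => Dv h c n), f c) ^ 2

/-- The number of the colours used in the dyadic step function. -/
def Kp (K J : ℕ) : ℝ := 8 * (K : ℝ) * (J + 2)

/-- The step function `γ`: on sets of size in `(2^(j-1)/K', 2^j/K']` it is `2^(-j)`. -/
noncomputable def gam {R W : ℕ} (K J : ℕ) (S : Finset (PS R W)) : ℝ :=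
  (∑ j ∈ range J, if T (tp R W) S ≤ 2 ^ j / Kp K J then (1 / 2 : ℝ) ^ (j + 1) else 0) +
    if T (tp R W) S ≤ 2 ^ J / Kp K J then (1 / 2 : ℝ) ^ J else 0

end Pool.Agent.Helper1.MT

end

section

set_option autoImplicit false

open Finset Filter

open scoped ArithmeticFunction.vonMangoldt

namespace Pool.Agent.Helper1.MT

section Abs

variable {ι κ : Type} [Fintype ι] [Fintype κ] [DecidableEq ι] [DecidableEq κ]

theorem ws_nonneg {w : ι → ℝ} (hw : ∀ p, 0 ≤ w p) (S : Finset ι) : 0 ≤ ws w S :=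
  Finset.prod_nonneg fun p _ => hw p

end Abs

/-- The primes in `PS R W` are large. -/
theorem PS_large {D0 R W : ℕ} (hs : ∀ p : ℕ, p.Prime → p < D0 → p ∣ W) (p : PS R W) :
    D0 ≤ (p : ℕ) := by
  have h := p.2
  simp only [PS, mem_filter] at h
  by_contra h1
  exact h.2.2 (hs _ h.2.1 (by omega))

theorem PS_prime {R W : ℕ} (p : PS R W) : (p : ℕ).Prime := by
  have h := p.2
  simp only [PS, mem_filter] at h
  exact h.2.1

end Pool.Agent.Helper1.MT

end

section

set_option autoImplicit false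

open Finset

namespace Pool.Agent.Helper90.MT

open Pool.Agent.Helper1.MT

variable {ι κ : Type} [Fintype ι] [Fintype κ] [DecidableEq ι] [DecidableEq κ]

theorem ws_nonneg {w : ι → ℝ} (hw : ∀ p, 0 ≤ w p) (S : Finset ι) : 0 ≤ ws w S :=
  Finset.prod_nonneg fun p _ => hw p

theorem mem_cls {c : ι → Option κ} {i : κ} {p : ι} : p ∈ cls c i ↔ c p = some i := by
  simp [cls]

theorem mem_supp {c : ι → Option κ} {p : ι} : p ∈ supp c ↔ c p ≠ none := by
  simp [supp]

/-- Products over the support. -/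
theorem prod_supp (w : ι → ℝ) (c : ι → Option κ) :
    ∏ p ∈ supp c, w p = ∏ i, ∏ p ∈ cls c i, w p := by
  have h1 : ∀ i, ∏ p ∈ cls c i, w p = ∏ p, (if c p = some i then w p else 1) := by
    intro i
    rw [cls, Finset.prod_filter]
  simp only [h1]
  rw [Finset.prod_comm, supp, Finset.prod_filter]
  refine Finset.prod_congr rfl fun p _ => ?_
  rcases hc : c p with _ | a
  · simp
  · simp

theorem ws_supp (w : ι → ℝ) (c : ι → Option κ) : ws w (supp c) = ∏ i, ws w (cls c i) :=
  prod_supp w c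

theorem sum_supp (w : ι → ℝ) (c : ι → Option κ) :
    ∑ p ∈ supp c, w p = ∑ i, ∑ p ∈ cls c i, w p := by
  have h1 : ∀ i, ∑ p ∈ cls c i, w p = ∑ p, (if c p = some i then w p else 0) := by
    intro i
    rw [cls, Finset.sum_filter]
  simp only [h1]
  rw [Finset.sum_comm, supp, Finset.sum_filter]
  refine Finset.sum_congr rfl fun p _ => ?_
  rcases hc : c p with _ | a
  · simp
  · simp

theorem T_supp (t : ι → ℝ) (c : ι → Option κ) : T t (supp c) = ∑ i, T t (cls c i) :=
  sum_supp t c

theorem cls_inj : Function.Injective fun c : ι → Option κ => fun i : κ => cls c i := by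
  intro c c' h
  funext p
  have h1 : ∀ i, c p = some i ↔ c' p = some i := by
    intro i
    rw [← mem_cls, ← mem_cls]
    have := congrFun h i
    simp only at this
    rw [this]
  rcases hc : c p with _ | a
  · rcases hc' : c' p with _ | a'
    · rfl
    · have := (h1 a').2 hc'
      rw [hc] at this
      exact this
  · exact ((h1 a).1 hc).symm

/-- Sums over colourings are at most sums over tuples. -/
theorem tuple_le {F : (κ → Finset ι) → ℝ} (hF : ∀ f, 0 ≤ F f) :
    ∑ c : ι → Option κ, F (fun i => cls c i) ≤ ∑ f : κ → Finset ι, F f := by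
  have hinj : Set.InjOn (fun c : ι → Option κ => fun i : κ => cls c i)
      ((univ : Finset (ι → Option κ)) : Set (ι → Option κ)) := cls_inj.injOn
  rw [← Finset.sum_image (f := F) hinj]
  exact Finset.sum_le_sum_of_subset_of_nonneg (Finset.subset_univ _) fun f _ _ => hF f

end Pool.Agent.Helper90.MT

end

section

set_option autoImplicit false

open Finset

namespace Pool.Agent.Helper9.MT

open Pool.Agent.Helper1.MT

/-- A tensor product of local quadratic forms. -/
def Phi {ι O : Type} [Fintype ι] [Fintype O] [DecidableEq ι] (π : ι → O → ℝ)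
    (l : ι → O → O → ℝ) (y : (ι → O) → ℝ) : ℝ :=
  ∑ s : ι → O, (∏ p, π p (s p)) * (∑ a : ι → O, (∏ p, l p (s p) (a p)) * y a) ^ 2

theorem sum_option_fun {ι O : Type} [Fintype ι] [Fintype O] [DecidableEq ι]
    [DecidableEq (Option ι)] (f : (Option ι → O) → ℝ) :
    ∑ s : Option ι → O, f s =
      ∑ u : O, ∑ s : ι → O, f (fun p => Option.elim p u s) := by
  rw [← Fintype.sum_prod_type' (f := fun (u : O) (s : ι → O) => f (fun p => Option.elim p u s))]
  refine Fintype.sum_equiv (Equiv.piOptionEquivProd (β := fun _ : Option ι => O)) _ _ ?_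
  intro s
  congr 1
  funext p
  cases p <;> rfl

theorem tensor (ι : Type) [Fintype ι] : ∀ [DecidableEq ι] (O : Type) [Fintype O]
    (β π : ι → O → ℝ) (k l : ι → O → O → ℝ), (∀ p s, 0 ≤ β p s) → (∀ p s, 0 ≤ π p s) →
    (∀ p (b : O → ℝ), ∑ s, β p s * (∑ a, k p s a * b a) ^ 2 ≤
      ∑ s, π p s * (∑ a, l p s a * b a) ^ 2) →
    ∀ y : (ι → O) → ℝ, Phi β k y ≤ Phi π l y := by
  refine Fintype.induction_empty_option (P := fun ι [Fintype ι] => ∀ [DecidableEq ι] (O : Type)
    [Fintype O] (β π : ι → O → ℝ) (k l : ι → O → O → ℝ), (∀ p s, 0 ≤ β p s) →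
    (∀ p s, 0 ≤ π p s) →
    (∀ p (b : O → ℝ), ∑ s, β p s * (∑ a, k p s a * b a) ^ 2 ≤
      ∑ s, π p s * (∑ a, l p s a * b a) ^ 2) →
    ∀ y : (ι → O) → ℝ, Phi β k y ≤ Phi π l y) ?_ ?_ ?_ ι
  · intro α β' _ e h _ O _ β π k l hβ hπ hl y
    classical
    let _ : Fintype α := Fintype.ofEquiv β' e.symm
    have key : ∀ (π : β' → O → ℝ) (l : β' → O → O → ℝ),
        Phi π l y = Phi (fun p => π (e p)) (fun p => l (e p))
          (fun a => y (fun q => a (e.symm q))) := by
      intro π l
      unfold Phi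
      refine Fintype.sum_equiv (Equiv.arrowCongr e.symm (Equiv.refl O)) _ _ ?_
      intro s
      have h1 : ∏ p, π p (s p) =
          ∏ p, π (e p) ((Equiv.arrowCongr e.symm (Equiv.refl O)) s p) := by
        rw [← Equiv.prod_comp e]
        rfl
      rw [h1]
      congr 2
      refine Fintype.sum_equiv (Equiv.arrowCongr e.symm (Equiv.refl O)) _ _ ?_
      intro a
      have h2 : ∏ p, l p (s p) (a p) =
          ∏ p, l (e p) ((Equiv.arrowCongr e.symm (Equiv.refl O)) s p)
            ((Equiv.arrowCongr e.symm (Equiv.refl O)) a p) := by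
        rw [← Equiv.prod_comp e]
        rfl
      rw [h2]
      congr 2
      funext q
      simp [Equiv.arrowCongr]
    rw [key, key]
    exact h O _ _ _ _ (fun p s => hβ (e p) s) (fun p s => hπ (e p) s)
      (fun p b => hl (e p) b) _
  · intro _ O _ β π k l _ _ _ y
    unfold Phi
    simp
  · intro α _ ih _ O _ β π k l hβ hπ hl y
    classical
    have key : ∀ (π : Option α → O → ℝ) (l : Option α → O → O → ℝ),
        Phi π l y = ∑ u : O, π none u * Phi (fun p => π (some p)) (fun p => l (some p))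
          (fun a => ∑ v : O, l none u v * y (fun p => Option.elim p v a)) := by
      intro π l
      unfold Phi
      rw [sum_option_fun]
      refine Finset.sum_congr rfl fun u _ => ?_
      rw [Finset.mul_sum]
      refine Finset.sum_congr rfl fun s _ => ?_
      rw [Fintype.prod_option, mul_assoc]
      simp only [Option.elim]
      congr 3
      rw [sum_option_fun, Finset.sum_comm]
      refine Finset.sum_congr rfl fun a _ => ?_
      rw [Finset.mul_sum]
      refine Finset.sum_congr rfl fun v _ => ?_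
      rw [Fintype.prod_option]
      simp only [Option.elim]
      ring
    have key2 : ∀ (π0 : O → ℝ) (l0 : O → O → ℝ),
        ∑ u : O, π0 u * Phi (fun p => π (some p)) (fun p => l (some p))
          (fun a => ∑ v : O, l0 u v * y (fun p => Option.elim p v a)) =
        ∑ s : α → O, (∏ p, π (some p) (s p)) * ∑ u : O, π0 u * (∑ v : O, l0 u v *
          ∑ a : α → O, (∏ p, l (some p) (s p) (a p)) * y (fun p => Option.elim p v a)) ^ 2 := by
      intro π0 l0
      unfold Phi
      simp_rw [Finset.mul_sum]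
      rw [Finset.sum_comm]
      refine Finset.sum_congr rfl fun s _ => Finset.sum_congr rfl fun u _ => ?_
      rw [mul_left_comm]
      congr 3
      rw [Finset.sum_comm]
      refine Finset.sum_congr rfl fun v _ => Finset.sum_congr rfl fun a _ => ?_
      ring
    rw [key β k, key π l]
    calc ∑ u : O, β none u * Phi (fun p => β (some p)) (fun p => k (some p))
          (fun a => ∑ v : O, k none u v * y (fun p => Option.elim p v a))
        ≤ ∑ u : O, β none u * Phi (fun p => π (some p)) (fun p => l (some p))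
          (fun a => ∑ v : O, k none u v * y (fun p => Option.elim p v a)) := by
          refine Finset.sum_le_sum fun u _ => mul_le_mul_of_nonneg_left ?_ (hβ none u)
          exact ih O _ _ _ _ (fun p s => hβ (some p) s) (fun p s => hπ (some p) s)
            (fun p b => hl (some p) b) _
      _ = _ := key2 (β none) (k none)
      _ ≤ _ := by
          refine Finset.sum_le_sum fun s _ => mul_le_mul_of_nonneg_left ?_
            (Finset.prod_nonneg fun p _ => hπ (some p) (s p))
          exact hl none _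
      _ = _ := (key2 (π none) (l none)).symm

section Local

variable {ι κ : Type} [Fintype ι] [Fintype κ] [DecidableEq ι] [DecidableEq κ]

/-- The local factor of the sums over all colourings below a given one. -/
def loc (w : ℝ) (s a : Option κ) : ℝ := ∑ b ∈ ({none, s} : Finset (Option κ)), inv w b a

theorem sum_le (w : ι → ℝ) (y : (ι → Option κ) → ℝ) (σ : ι → Option κ) :
    ∑ c ∈ univ.filter (fun c : ι → Option κ => Le c σ), lam w y c =
      ∑ c' : ι → Option κ, (∏ p, loc (w p) (σ p) (c' p)) * y c' := by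
  unfold lam
  rw [Finset.sum_comm]
  refine Finset.sum_congr rfl fun c' _ => ?_
  rw [← Finset.sum_mul]
  congr 1
  unfold loc
  rw [Finset.prod_univ_sum]
  refine Finset.sum_congr ?_ fun _ _ => rfl
  ext c
  simp [Le, Fintype.mem_piFinset]

theorem Qf_eq (P : ι → Option κ → ℝ) (w : ι → ℝ) (y : (ι → Option κ) → ℝ) :
    Qf P (lam w y) = Phi P (fun p => loc (w p)) y := by
  unfold Qf Phi
  refine Finset.sum_congr rfl fun σ _ => ?_
  rw [sum_le]

theorem loc_none (w : ℝ) (b : Option κ → ℝ) :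
    ∑ a, loc w none a * b a = b none - w * ∑ i, b (some i) := by
  rw [Fintype.sum_option]
  simp only [loc, Finset.pair_eq_singleton, Finset.sum_singleton, inv]
  rw [Finset.mul_sum, one_mul, sub_eq_add_neg, ← Finset.sum_neg_distrib]
  congr 1
  exact Finset.sum_congr rfl fun _ _ => by ring

theorem loc_some (w : ℝ) (b : Option κ → ℝ) (i : κ) :
    ∑ a, loc w (some i) a * b a = b none - w * ∑ i, b (some i) + b (some i) := by
  rw [Fintype.sum_option]
  have h : (none : Option κ) ≠ some i := by simp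
  simp only [loc, Finset.sum_pair h, inv]
  have : ∀ x : κ, (-w + if i = x then (1 : ℝ) else 0) * b (some x) =
      -(w * b (some x)) + if i = x then b (some x) else 0 := by
    intro x
    split_ifs <;> ring
  simp_rw [this]
  rw [Finset.sum_add_distrib, Finset.sum_neg_distrib, ← Finset.mul_sum]
  simp
  ring

theorem local_upper (w : ℝ) (b : Option κ → ℝ) :
    ∑ s, pr κ w s * (∑ a, loc w s a * b a) ^ 2 ≤ b none ^ 2 + w * ∑ i, b (some i) ^ 2 := by
  rw [Fintype.sum_option, loc_none]
  simp_rw [loc_some, pr]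
  set v : ℝ := b none - w * ∑ i, b (some i) with hv
  have h1 : ∑ i, w * (v + b (some i)) ^ 2 =
      Fintype.card κ * w * v ^ 2 + 2 * w * v * ∑ i, b (some i) + w * ∑ i, b (some i) ^ 2 := by
    have : ∀ i, w * (v + b (some i)) ^ 2 =
        w * v ^ 2 + 2 * w * v * b (some i) + w * b (some i) ^ 2 := fun i => by ring
    simp_rw [this]
    rw [Finset.sum_add_distrib, Finset.sum_add_distrib, Finset.sum_const, ← Finset.mul_sum,
      ← Finset.mul_sum, Finset.card_univ, nsmul_eq_mul]
    ring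
  rw [h1]
  have h2 : b none = v + w * ∑ i, b (some i) := by rw [hv]; ring
  rw [h2]
  (clear * -; nlinarith [sq_nonneg (w * ∑ i, b (some i))])

end Local

theorem prod_delta {ι O : Type} [Fintype ι] [DecidableEq O] [DecidableEq (ι → O)]
    (s a : ι → O) : (∏ p, (if s p = a p then (1 : ℝ) else 0)) = if s = a then 1 else 0 := by
  by_cases h : s = a
  · subst h
    simp
  · rw [if_neg h]
    obtain ⟨p, hp⟩ := Function.ne_iff.1 h
    exact Finset.prod_eq_zero (Finset.mem_univ p) (by simp [hp])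

theorem gramUpper : GramUpper := by
  intro ι κ _ _ _ _ w y hw hK
  rw [Qf_eq]
  let W : ι → Option κ → ℝ := fun p s => if s ≠ none then w p else 1
  have h : Phi (fun p => pr κ (w p)) (fun p => loc (w p)) y ≤
      Phi W (fun _ s a => if s = a then (1 : ℝ) else 0) y := by
    refine tensor ι (Option κ) _ _ _ _ ?_ ?_ ?_ y
    · intro p s
      cases s with
      | none => simp only [pr]; linarith [hK p]
      | some i => exact hw p
    · intro p s
      cases s with
      | none => simp [W]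
      | some i => simpa [W] using hw p
    · intro p b
      refine (local_upper (w p) b).trans (le_of_eq ?_)
      rw [Fintype.sum_option]
      simp [W, Finset.mul_sum]
  refine h.trans (le_of_eq ?_)
  unfold Phi
  refine Finset.sum_congr rfl fun s _ => ?_
  have h1 : ∏ p, W p (s p) = ws w (supp s) := by
    unfold ws supp
    rw [Finset.prod_filter]
  rw [h1]
  congr 2
  classical
  simp_rw [prod_delta]
  simp

end Pool.Agent.Helper9.MT

end

section

set_option autoImplicit false

open Finset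

namespace Pool.Agent.Helper74.MT

theorem prog_lower (q r : ℕ) (hq : 0 < q) (hr : 0 < r) (J : ℕ) :
    (Real.log ((r : ℝ) + q * J) - Real.log r) / q ≤ ∑ j ∈ range J, (1 : ℝ) / (r + q * j) := by
  have hq' : (0 : ℝ) < q := by exact_mod_cast hq
  have hr' : (0 : ℝ) < r := by exact_mod_cast hr
  induction J with
  | zero => simp
  | succ J ih =>
    rw [Finset.sum_range_succ]
    have h1 : Real.log ((r : ℝ) + q * ((J + 1 : ℕ) : ℝ)) - Real.log ((r : ℝ) + q * J) ≤
        q / (r + q * J) := by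
      have h2 : (0 : ℝ) < r + q * J := by positivity
      have h3 : (0 : ℝ) < (r : ℝ) + q * ((J + 1 : ℕ) : ℝ) := by (clear * - hr hq; positivity)
      rw [← Real.log_div h3.ne' h2.ne']
      refine (Real.log_le_sub_one_of_pos (by (clear * - hr hq; positivity))).trans ?_
      rw [div_sub_one h2.ne']
      apply le_of_eq
      congr 1
      push_cast
      ring
    have h4 : (Real.log ((r : ℝ) + q * ((J + 1 : ℕ) : ℝ)) - Real.log r) / q =
        (Real.log ((r : ℝ) + q * J) - Real.log r) / q +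
          (Real.log ((r : ℝ) + q * ((J + 1 : ℕ) : ℝ)) - Real.log ((r : ℝ) + q * J)) / q := by
      ring
    rw [h4]
    apply add_le_add ih
    rw [div_le_iff₀ hq']
    refine h1.trans (le_of_eq ?_)
    ring

theorem prog_upper (q r : ℕ) (hq : 0 < q) (hr : 0 < r) (J : ℕ) :
    ∑ j ∈ range (J + 1), (1 : ℝ) / (r + q * j) ≤
      1 / r + (Real.log ((r : ℝ) + q * J) - Real.log r) / q := by
  have hq' : (0 : ℝ) < q := by exact_mod_cast hq
  have hr' : (0 : ℝ) < r := by exact_mod_cast hr
  induction J with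
  | zero => simp
  | succ J ih =>
    rw [Finset.sum_range_succ]
    have h2 : (0 : ℝ) < r + q * J := by (clear * - hr hq; positivity)
    have h3 : (0 : ℝ) < (r : ℝ) + q * ((J + 1 : ℕ) : ℝ) := by (clear * - hr hq; positivity)
    have h1 : q / ((r : ℝ) + q * ((J + 1 : ℕ) : ℝ)) ≤
        Real.log ((r : ℝ) + q * ((J + 1 : ℕ) : ℝ)) - Real.log ((r : ℝ) + q * J) := by
      rw [← Real.log_div h3.ne' h2.ne']
      refine le_trans (le_of_eq ?_) (Real.one_sub_inv_le_log_of_pos (by (clear * - hr hq; positivity)))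
      rw [inv_div, eq_sub_iff_add_eq, ← add_div, div_eq_one_iff_eq h3.ne']
      push_cast
      ring
    have h4 : (Real.log ((r : ℝ) + q * ((J + 1 : ℕ) : ℝ)) - Real.log r) / q =
        (Real.log ((r : ℝ) + q * J) - Real.log r) / q +
          (Real.log ((r : ℝ) + q * ((J + 1 : ℕ) : ℝ)) - Real.log ((r : ℝ) + q * J)) / q := by
      ring
    rw [h4, ← add_assoc]
    apply add_le_add ih
    rw [le_div_iff₀ hq']
    refine le_trans (le_of_eq ?_) h1
    ring

theorem exists_rep (A q a : ℕ) (hq : 0 < q) : ∃ r, A < r ∧ r ≤ A + q ∧ r ≡ a [MOD q] := by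
  refine ⟨A + 1 + (a + (q - 1) * (A + 1)) % q, by omega, ?_, ?_⟩
  · have := Nat.mod_lt (a + (q - 1) * (A + 1)) hq
    omega
  · have h1 : A + 1 + (a + (q - 1) * (A + 1)) % q ≡ A + 1 + (a + (q - 1) * (A + 1)) [MOD q] :=
      Nat.ModEq.add_left _ (Nat.mod_modEq _ _)
    have h2 : A + 1 + (a + (q - 1) * (A + 1)) = a + q * (A + 1) := by
      obtain ⟨q', rfl⟩ := Nat.exists_eq_succ_of_ne_zero hq.ne'
      simp only [Nat.succ_eq_add_one, Nat.add_sub_cancel]
      ring
    rw [h2] at h1
    refine h1.trans ?_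
    have h3 : a + q * (A + 1) ≡ a + 0 [MOD q] :=
      Nat.ModEq.add_left _ ((Nat.modEq_zero_iff_dvd).2 (Dvd.intro _ rfl))
    rwa [add_zero] at h3

theorem class_sum (A B q a : ℕ) (hA : 0 < A) (hq : 0 < q) (hAB : A + q ≤ B) :
    |∑ n ∈ (Ioc A B).filter (fun n => n ≡ a [MOD q]), (1 : ℝ) / n -
      (Real.log B - Real.log A) / q| ≤ 1 / A := by
  obtain ⟨r, hr1, hr2, hr3⟩ := exists_rep A q a hq
  have hq' : (0 : ℝ) < q := by exact_mod_cast hq
  have hA' : (0 : ℝ) < A := by exact_mod_cast hA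
  have hr0 : 0 < r := by omega
  have hr' : (0 : ℝ) < r := by exact_mod_cast hr0
  have hrB : r ≤ B := by omega
  have hB' : (0 : ℝ) < B := by exact_mod_cast (hr0.trans_le hrB)
  set J : ℕ := (B - r) / q with hJ
  have hJ1 : r + q * J ≤ B := by
    have := Nat.mul_div_le (B - r) q
    rw [← hJ] at this
    omega
  have hJ2 : B < r + q * (J + 1) := by
    have := Nat.lt_mul_div_succ (B - r) hq
    rw [← hJ] at this
    omega
  have hset : (Ioc A B).filter (fun n => n ≡ a [MOD q]) =
      (range (J + 1)).image (fun j => r + q * j) := by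
    ext n
    rw [mem_filter, mem_Ioc, mem_image]
    constructor
    · rintro ⟨⟨h1, h2⟩, h3⟩
      have h4 : n ≡ r [MOD q] := h3.trans hr3.symm
      have h5 : r ≤ n := by
        by_contra hcon
        rw [not_le] at hcon
        have h6 : q ∣ r - n := (Nat.modEq_iff_dvd' hcon.le).1 h4
        have h7 := Nat.le_of_dvd (by omega) h6
        omega
      have h6 : q ∣ n - r := (Nat.modEq_iff_dvd' h5).1 h4.symm
      obtain ⟨j, hj⟩ := h6
      refine ⟨j, ?_, by omega⟩
      rw [mem_range]
      by_contra hcon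
      rw [not_lt] at hcon
      have h8 : q * (J + 1) ≤ q * j := Nat.mul_le_mul_left _ hcon
      (clear * - A hJ2 h2 h5 hj h8; omega)
    · rintro ⟨j, hj, rfl⟩
      rw [mem_range] at hj
      have h8 : q * j ≤ q * J := Nat.mul_le_mul_left _ (by omega)
      refine ⟨⟨by omega, by omega⟩, ?_⟩
      have h9 : r + q * j ≡ r + 0 [MOD q] :=
        Nat.ModEq.add_left _ ((Nat.modEq_zero_iff_dvd).2 (Dvd.intro _ rfl))
      rw [add_zero] at h9
      exact h9.trans hr3
  have hsum : ∑ n ∈ (Ioc A B).filter (fun n => n ≡ a [MOD q]), (1 : ℝ) / n =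
      ∑ j ∈ range (J + 1), (1 : ℝ) / (r + q * j) := by
    rw [hset, Finset.sum_image]
    · apply Finset.sum_congr rfl
      intro j _
      push_cast
      rfl
    · intro j _ j' _ hjj
      have h10 : q * j = q * j' := by
        simp only at hjj
        omega
      exact Nat.eq_of_mul_eq_mul_left hq h10
  rw [hsum]
  have hlow := prog_lower q r hq hr0 (J + 1)
  have hupp := prog_upper q r hq hr0 J
  have e1 : Real.log B ≤ Real.log ((r : ℝ) + q * ((J + 1 : ℕ) : ℝ)) := by
    apply Real.log_le_log hB'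
    exact_mod_cast hJ2.le
  have e2 : Real.log r ≤ Real.log A + q / A := by
    calc Real.log r ≤ Real.log ((A : ℝ) + q) := Real.log_le_log hr' (by exact_mod_cast hr2)
      _ = Real.log A + Real.log (1 + q / A) := by
          rw [← Real.log_mul hA'.ne' (by (clear * - hq hA; positivity))]
          congr 1
          (clear * - hA hq; field_simp)
      _ ≤ Real.log A + q / A := by
          have := Real.log_le_sub_one_of_pos (show (0 : ℝ) < 1 + q / A by (clear * - hq hA; positivity))
          (clear * - this; linarith)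
  have e3 : Real.log ((r : ℝ) + q * J) ≤ Real.log B := by
    apply Real.log_le_log (by (clear * - hr0 hq; positivity))
    exact_mod_cast hJ1
  have e4 : Real.log A ≤ Real.log r := Real.log_le_log hA' (by exact_mod_cast hr1.le)
  have e5 : (1 : ℝ) / r ≤ 1 / A := one_div_le_one_div_of_le hA' (by exact_mod_cast hr1.le)
  rw [abs_le]
  constructor
  · have e6 : (Real.log B - Real.log A) / q - 1 / A ≤
        (Real.log ((r : ℝ) + q * ((J + 1 : ℕ) : ℝ)) - Real.log r) / q := by
      have e7 : (Real.log B - Real.log A) / q - 1 / A =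
          (Real.log B - (Real.log A + q / A)) / q := by
        field_simp
        ring
      rw [e7]
      (clear * - e1 e2 hq; gcongr)
    (clear * - hlow e6; linarith)
  · have e8 : (Real.log ((r : ℝ) + q * J) - Real.log r) / q ≤
        (Real.log B - Real.log A) / q := by (clear * - e3 e4 hq; gcongr)
    (clear * - hupp e5 e8; linarith)

theorem log_floor {x : ℝ} (hx : 1 ≤ x) :
    Real.log ⌊x⌋₊ ≤ Real.log x ∧ Real.log x ≤ Real.log ⌊x⌋₊ + 1 / ⌊x⌋₊ := by
  have h1 : 1 ≤ ⌊x⌋₊ := Nat.le_floor (by exact_mod_cast hx)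
  have h1' : (0 : ℝ) < ⌊x⌋₊ := by exact_mod_cast h1
  refine ⟨Real.log_le_log h1' (Nat.floor_le (by (clear * - hx; linarith))), ?_⟩
  calc Real.log x ≤ Real.log ((⌊x⌋₊ : ℝ) + 1) :=
        Real.log_le_log (by (clear * - hx; linarith)) (Nat.lt_floor_add_one x).le
    _ = Real.log ⌊x⌋₊ + Real.log (1 + 1 / ⌊x⌋₊) := by
        rw [← Real.log_mul h1'.ne' (by (clear * - h1; positivity))]
        congr 1
        (clear * - h1; field_simp)
    _ ≤ Real.log ⌊x⌋₊ + 1 / ⌊x⌋₊ := by
        have := Real.log_le_sub_one_of_pos (show (0 : ℝ) < 1 + 1 / (⌊x⌋₊ : ℝ) by (clear * - h1; positivity))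
        (clear * - this; linarith)

/-- The harmonic sum over the numbers in `(√x, x]` in a residue class modulo `q`. -/
theorem class_sum_real {x : ℝ} (hx : 9 ≤ x) (q a : ℕ) (hq : 0 < q)
    (hqx : (q : ℝ) ≤ x ^ (1 / 2 : ℝ)) :
    |∑ n ∈ (Ioc ⌊x ^ (1 / 2 : ℝ)⌋₊ ⌊x⌋₊).filter (fun n => n ≡ a [MOD q]), (1 : ℝ) / n -
      Real.log x / (2 * q)| ≤ 4 / x ^ (1 / 2 : ℝ) := by
  have hx0 : (0 : ℝ) < x := by (clear * - hx; linarith)
  set s : ℝ := x ^ (1 / 2 : ℝ) with hs
  have hss : s * s = x := by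
    rw [hs, ← Real.rpow_add hx0]
    norm_num
  have hs3 : 3 ≤ s := by
    have hs0 : 0 ≤ s := by positivity
    (clear * - hx hss hqx; nlinarith)
  have hs0 : 0 < s := by (clear * - hs3; linarith)
  set A := ⌊s⌋₊ with hA
  set B := ⌊x⌋₊ with hB
  have hA1 : 1 ≤ A := Nat.le_floor (by push_cast; (clear * - hs3; linarith))
  have hA' : (0 : ℝ) < A := by exact_mod_cast hA1
  have hAs : (A : ℝ) ≤ s := Nat.floor_le hs0.le
  have hAs' : s < A + 1 := Nat.lt_floor_add_one s
  have hBx' : x < B + 1 := Nat.lt_floor_add_one x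
  have hAB : A + q ≤ B := by
    have h1 : ((A + q : ℕ) : ℝ) < B + 1 := by
      push_cast
      (clear * - hss hAs hBx' hqx hs3; nlinarith)
    have h2 : A + q < B + 1 := by exact_mod_cast h1
    omega
  have hq1 : (1 : ℝ) ≤ q := by exact_mod_cast hq
  have hq' : (0 : ℝ) < q := by (clear * - hq1; linarith)
  have hBA : (A : ℝ) ≤ B := by
    have : A ≤ B := by omega
    exact_mod_cast this
  have h1 := class_sum A B q a hA1 hq hAB
  obtain ⟨h2, h3⟩ := log_floor (show (1 : ℝ) ≤ x by (clear * - hx; linarith))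
  obtain ⟨h4, h5⟩ := log_floor (show (1 : ℝ) ≤ s by (clear * - hs3; linarith))
  have h6 : Real.log s = Real.log x / 2 := by
    rw [hs, Real.log_rpow hx0]
    ring
  have h7 : (1 : ℝ) / B ≤ 1 / A := one_div_le_one_div_of_le hA' hBA
  have h8 : |(Real.log B - Real.log A) / q - Real.log x / (2 * q)| ≤ 1 / A := by
    have h9 : (Real.log B - Real.log A) / q - Real.log x / (2 * q) =
        (Real.log B - Real.log A - Real.log x / 2) / q := by
      field_simp
    rw [h9, abs_div, abs_of_pos hq', div_le_iff₀ hq']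
    have h10 : |Real.log B - Real.log A - Real.log x / 2| ≤ 1 / A := by
      rw [abs_le]
      constructor <;> (clear * - h3 h4 h6 h7 h2 h5; linarith)
    refine h10.trans ?_
    have h11 : (0 : ℝ) ≤ 1 / A := by (clear * - hA1; positivity)
    (clear * - hq1 h4 h5; nlinarith)
  have h12 : 2 * ((1 : ℝ) / A) ≤ 4 / s := by
    rw [mul_one_div, div_le_div_iff₀ hA' hs0]
    (clear * - hs3 hAs'; linarith)
  calc |∑ n ∈ (Ioc A B).filter (fun n => n ≡ a [MOD q]), (1 : ℝ) / n - Real.log x / (2 * q)|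
      ≤ |∑ n ∈ (Ioc A B).filter (fun n => n ≡ a [MOD q]), (1 : ℝ) / n -
          (Real.log B - Real.log A) / q| +
        |(Real.log B - Real.log A) / q - Real.log x / (2 * q)| := by
        have := abs_add_le (∑ n ∈ (Ioc A B).filter (fun n => n ≡ a [MOD q]), (1 : ℝ) / n -
          (Real.log B - Real.log A) / q) ((Real.log B - Real.log A) / q - Real.log x / (2 * q))
        rwa [sub_add_sub_cancel] at this
    _ ≤ 1 / A + 1 / A := add_le_add h1 h8
    _ ≤ 4 / s := by (clear * - h12; linarith)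

end Pool.Agent.Helper74.MT

end

section

set_option autoImplicit false

open Finset Filter

namespace Pool.Agent.Helper74.MT

open Pool.Agent.Helper1.MT

theorem PS_prime {R W : ℕ} (p : PS R W) : (p : ℕ).Prime := by
  have := p.2
  unfold PS at this
  rw [mem_filter] at this
  exact this.2.1

theorem PS_not_dvd {R W : ℕ} (p : PS R W) : ¬ (p : ℕ) ∣ W := by
  have := p.2
  unfold PS at this
  rw [mem_filter] at this
  exact this.2.2

/-- Chinese remainder theorem for the primes in `S` and `W`. -/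
theorem crt_exists {R W : ℕ} (v : ℕ) (g : PS R W → ℕ) (S : Finset (PS R W)) :
    ∃ a : ℕ, ∀ n : ℕ, (n ≡ v [MOD W] ∧ ∀ p ∈ S, (p : ℕ) ∣ n + g p) ↔
      n ≡ a [MOD (W * ∏ p ∈ S, (p : ℕ))] := by
  classical
  induction S using Finset.induction_on with
  | empty => exact ⟨v, fun n => by simp⟩
  | insert p S hp ih =>
    obtain ⟨a, ha⟩ := ih
    have hpp := PS_prime p
    have hcop : Nat.Coprime (W * ∏ q ∈ S, (q : ℕ)) p := by
      apply Nat.Coprime.symm
      apply Nat.Coprime.mul_right
      · exact (Nat.Prime.coprime_iff_not_dvd hpp).2 (PS_not_dvd p)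
      · apply Nat.Coprime.prod_right
        intro q hq
        refine (Nat.coprime_primes hpp (PS_prime q)).2 ?_
        intro h
        have h2 : p = q := Subtype.ext h
        rw [h2] at hp
        exact hp hq
    have hlast : ∀ n : ℕ, (p : ℕ) ∣ n + g p ↔ n ≡ (g p * (p - 1)) [MOD p] := by
      intro n
      have h1 : (p : ℕ) ∣ g p * (p - 1) + g p := by
        have h2 : g p * ((p : ℕ) - 1) + g p = g p * p := by
          obtain ⟨m, hm⟩ := Nat.exists_eq_succ_of_ne_zero hpp.ne_zero
          rw [hm, Nat.succ_eq_add_one, Nat.add_sub_cancel]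
          ring
        rw [h2]
        exact Dvd.intro_left _ rfl
      constructor
      · intro h
        have h4 : n + g p ≡ g p * (p - 1) + g p [MOD p] :=
          ((Nat.modEq_zero_iff_dvd).2 h).trans ((Nat.modEq_zero_iff_dvd).2 h1).symm
        exact Nat.ModEq.add_right_cancel' _ h4
      · intro h
        exact (Nat.modEq_zero_iff_dvd).1 ((h.add_right _).trans ((Nat.modEq_zero_iff_dvd).2 h1))
    obtain ⟨b, hb1, hb2⟩ := Nat.chineseRemainder hcop a (g p * (p - 1))
    refine ⟨b, fun n => ?_⟩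
    rw [Finset.prod_insert hp]
    have e1 : W * ((p : ℕ) * ∏ q ∈ S, (q : ℕ)) = (W * ∏ q ∈ S, (q : ℕ)) * p := by ring
    rw [e1, ← Nat.modEq_and_modEq_iff_modEq_mul hcop]
    constructor
    · rintro ⟨h1, h2⟩
      have h3 := (ha n).1 ⟨h1, fun q hq => h2 q (Finset.mem_insert_of_mem hq)⟩
      have h4 := (hlast n).1 (h2 p (Finset.mem_insert_self p S))
      exact ⟨h3.trans hb1.symm, h4.trans hb2.symm⟩
    · rintro ⟨h1, h2⟩
      obtain ⟨h3, h4⟩ := (ha n).2 (h1.trans hb1)
      refine ⟨h3, ?_⟩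
      intro q hq
      rcases Finset.mem_insert.1 hq with rfl | hq
      · exact (hlast n).2 (h2.trans hb2)
      · exact h4 q hq

section Abs

variable {ι κ : Type} [Fintype ι] [Fintype κ] [DecidableEq ι] [DecidableEq κ]

theorem mem_supp (c : ι → Option κ) (p : ι) : p ∈ supp c ↔ c p ≠ none := by
  unfold supp
  rw [mem_filter]
  simp

theorem sum_inv_le (w : ℝ) (h0 : 0 ≤ w) (h1 : w ≤ 1) (b : Option κ) :
    ∑ a : Option κ, |inv w a b| ≤ if b = none then 1 else 2 := by
  rw [Fintype.sum_option]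
  rcases b with _ | j
  · simp [inv]
  · simp only [inv]
    rw [abs_neg, abs_of_nonneg h0]
    have h2 : ∑ i : κ, |if i = j then (1 : ℝ) else 0| = 1 := by
      have h3 : ∀ i : κ, |if i = j then (1 : ℝ) else 0| = if i = j then 1 else 0 := by
        intro i
        split_ifs <;> simp
      simp only [h3]
      simp
    rw [h2, if_neg (by simp)]
    (clear * - h1; linarith)

/-- The sum of the absolute values of the sieve weights. -/
theorem sum_abs_lam_le (w : ι → ℝ) (h0 : ∀ p, 0 ≤ w p) (h1 : ∀ p, w p ≤ 1)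
    (y : (ι → Option κ) → ℝ) :
    ∑ c : ι → Option κ, |lam w y c| ≤
      ∑ c : ι → Option κ, |y c| * ∏ p, (if c p = none then (1 : ℝ) else 2) := by
  have e1 : ∀ c : ι → Option κ, |lam w y c| ≤
      ∑ c' : ι → Option κ, |y c'| * ∏ p, |inv (w p) (c p) (c' p)| := by
    intro c
    unfold lam
    refine (Finset.abs_sum_le_sum_abs _ _).trans (le_of_eq ?_)
    apply Finset.sum_congr rfl
    intro c' _
    rw [abs_mul, Finset.abs_prod, mul_comm]
  refine (Finset.sum_le_sum fun c _ => e1 c).trans ?_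
  rw [Finset.sum_comm]
  apply Finset.sum_le_sum
  intro c' _
  rw [← Finset.mul_sum]
  apply mul_le_mul_of_nonneg_left _ (abs_nonneg _)
  have e2 : ∑ c : ι → Option κ, ∏ p, |inv (w p) (c p) (c' p)| =
      ∏ p, ∑ a : Option κ, |inv (w p) a (c' p)| := by
    rw [Finset.prod_univ_sum]
    simp only [Fintype.piFinset_univ]
  rw [e2]
  apply Finset.prod_le_prod
  · intro p _
    exact Finset.sum_nonneg fun a _ => abs_nonneg _
  · intro p _
    exact sum_inv_le (w p) (h0 p) (h1 p) (c' p)

theorem lam_ne_zero {w : ι → ℝ} {y : (ι → Option κ) → ℝ} {c : ι → Option κ}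
    (h : lam w y c ≠ 0) : ∃ c' : ι → Option κ, y c' ≠ 0 ∧ supp c ⊆ supp c' := by
  unfold lam at h
  obtain ⟨c', -, hc'⟩ := Finset.exists_ne_zero_of_sum_ne_zero h
  refine ⟨c', right_ne_zero_of_mul hc', ?_⟩
  intro p hp
  rw [mem_supp] at hp ⊢
  have h1 := Finset.prod_ne_zero_iff.1 (left_ne_zero_of_mul hc') p (Finset.mem_univ p)
  intro hcon
  rcases hcp : c p with _ | i
  · exact hp hcp
  · rw [hcp, hcon] at h1
    simp [inv] at h1

end Abs

theorem prod_supp_le {R W : ℕ} (hR : 2 ≤ R) (S : Finset (PS R W)) (k : ℕ)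
    (h : T (tp R W) S ≤ k) : ∏ p ∈ S, ((p : ℕ) : ℝ) ≤ (R : ℝ) ^ k := by
  have hlR : 0 < Real.log R := Real.log_pos (by exact_mod_cast hR)
  have hpos : ∀ p : PS R W, (0 : ℝ) < ((p : ℕ) : ℝ) := fun p => by
    exact_mod_cast (PS_prime p).pos
  unfold T tp at h
  rw [← Finset.sum_div, div_le_iff₀ hlR] at h
  have h1 : Real.log (∏ p ∈ S, ((p : ℕ) : ℝ)) ≤ Real.log ((R : ℝ) ^ k) := by
    rw [Real.log_prod (fun p _ => (hpos p).ne'), Real.log_pow]
    exact h
  have hR0 : (0 : ℝ) < (R : ℝ) ^ k := by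
    have : (0 : ℝ) < R := by exact_mod_cast (by omega : 0 < R)
    positivity
  exact (Real.log_le_log_iff (Finset.prod_pos fun p _ => hpos p) hR0).1 h1

theorem sum_inv_sq_PS (R W : ℕ) : ∑ p : PS R W, 1 / ((p : ℕ) : ℝ) ^ 2 ≤ 2 := by
  have h1 : ∑ p : PS R W, 1 / ((p : ℕ) : ℝ) ^ 2 = ∑ p ∈ PS R W, 1 / (p : ℝ) ^ 2 :=
    Finset.sum_coe_sort (PS R W) (fun p : ℕ => 1 / (p : ℝ) ^ 2)
  rw [h1]
  have h2 := sum_Ioo_inv_sq_le (α := ℝ) 0 (R + 1)
  have h3 : ∑ p ∈ PS R W, 1 / (p : ℝ) ^ 2 ≤ ∑ i ∈ Ioo 0 (R + 1), ((i : ℝ) ^ 2)⁻¹ := by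
    have h4 : ∀ p : ℕ, 1 / (p : ℝ) ^ 2 = ((p : ℝ) ^ 2)⁻¹ := fun p => one_div _
    simp only [h4]
    apply Finset.sum_le_sum_of_subset_of_nonneg
    · intro p hp
      unfold PS at hp
      rw [mem_filter, mem_range] at hp
      rw [mem_Ioo]
      exact ⟨hp.2.1.pos, hp.1⟩
    · intro p _ _
      (clear * -; positivity)
  refine h3.trans (h2.trans ?_)
  norm_num

/-- The sum of the absolute values of the sieve weights, explicit bound. -/
theorem sum_abs_lam_bound {κ : Type} [Fintype κ] [DecidableEq κ] {R W : ℕ} (hR : 2 ≤ R)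
    (y : (PS R W → Option κ) → ℝ) (hy : ∀ c, |y c| ≤ R)
    (hT : ∀ c, y c ≠ 0 → T (tp R W) (supp c) ≤ 3) :
    ∑ c : PS R W → Option κ, |lam (wp R W) y c| ≤
      (R : ℝ) ^ 7 * Real.exp (4 * Fintype.card κ) := by
  have hpos : ∀ p : PS R W, (0 : ℝ) < ((p : ℕ) : ℝ) := fun p => by
    exact_mod_cast (PS_prime p).pos
  have h1 : ∀ p : PS R W, (1 : ℝ) ≤ ((p : ℕ) : ℝ) := fun p => by
    exact_mod_cast (PS_prime p).pos
  have hR0 : (0 : ℝ) < R := by exact_mod_cast (by omega : 0 < R)
  refine (sum_abs_lam_le (wp R W) (fun p => by unfold wp; (clear * -; positivity))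
    (fun p => by
      unfold wp
      rw [div_le_one (hpos p)]
      exact h1 p) y).trans ?_
  have h2 : ∀ c : PS R W → Option κ,
      |y c| * ∏ p, (if c p = none then (1 : ℝ) else 2) ≤
        (R : ℝ) ^ 7 * ∏ p : PS R W, (if c p = none then (1 : ℝ) else 2 / ((p : ℕ) : ℝ) ^ 2) := by
    intro c
    have hnn : (0 : ℝ) ≤ ∏ p : PS R W,
        (if c p = none then (1 : ℝ) else 2 / ((p : ℕ) : ℝ) ^ 2) := by
      apply Finset.prod_nonneg
      intro p _
      split_ifs <;> (clear * -; positivity)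
    by_cases hyc : y c = 0
    · rw [hyc, abs_zero, zero_mul]
      (clear * - hR; positivity)
    · have h3 := prod_supp_le hR (supp c) 3 (by exact_mod_cast hT c hyc)
      have h4 : ∏ p : PS R W, (if c p = none then (1 : ℝ) else 2) =
          (∏ p : PS R W, (if c p = none then (1 : ℝ) else 2 / ((p : ℕ) : ℝ) ^ 2)) *
            (∏ p ∈ supp c, ((p : ℕ) : ℝ)) ^ 2 := by
        have h5 : ∏ p ∈ supp c, ((p : ℕ) : ℝ) =
            ∏ p : PS R W, (if c p = none then (1 : ℝ) else ((p : ℕ) : ℝ)) := by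
          unfold supp
          rw [Finset.prod_filter]
          apply Finset.prod_congr rfl
          intro p _
          by_cases hcp : c p = none
          · rw [if_neg (by simpa using hcp), if_pos hcp]
          · rw [if_pos hcp, if_neg hcp]
        rw [h5, ← Finset.prod_pow, ← Finset.prod_mul_distrib]
        apply Finset.prod_congr rfl
        intro p _
        split_ifs
        · simp
        · have := (hpos p).ne'
          (clear * - this; field_simp)
      rw [h4]
      have h6 : (∏ p ∈ supp c, ((p : ℕ) : ℝ)) ^ 2 ≤ (R : ℝ) ^ 6 := by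
        calc (∏ p ∈ supp c, ((p : ℕ) : ℝ)) ^ 2 ≤ ((R : ℝ) ^ 3) ^ 2 := by
              apply pow_le_pow_left₀ _ h3
              exact Finset.prod_nonneg fun p _ => (hpos p).le
          _ = (R : ℝ) ^ 6 := by ring
      calc |y c| * ((∏ p : PS R W, (if c p = none then (1 : ℝ) else 2 / ((p : ℕ) : ℝ) ^ 2)) *
            (∏ p ∈ supp c, ((p : ℕ) : ℝ)) ^ 2)
          ≤ R * ((∏ p : PS R W, (if c p = none then (1 : ℝ) else 2 / ((p : ℕ) : ℝ) ^ 2)) *
            (R : ℝ) ^ 6) := by
            apply mul_le_mul (hy c) _ (by (clear * -; positivity)) hR0.le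
            exact mul_le_mul_of_nonneg_left h6 hnn
        _ = _ := by ring
  refine (Finset.sum_le_sum fun c _ => h2 c).trans ?_
  rw [← Finset.mul_sum]
  apply mul_le_mul_of_nonneg_left _ (by positivity)
  have h7 : ∑ c : PS R W → Option κ,
      ∏ p : PS R W, (if c p = none then (1 : ℝ) else 2 / ((p : ℕ) : ℝ) ^ 2) =
      ∏ p : PS R W, ∑ a : Option κ, (if a = none then (1 : ℝ) else 2 / ((p : ℕ) : ℝ) ^ 2) := by
    rw [Finset.prod_univ_sum]
    simp only [Fintype.piFinset_univ]
  rw [h7]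
  have h8 : ∀ p : PS R W,
      ∑ a : Option κ, (if a = none then (1 : ℝ) else 2 / ((p : ℕ) : ℝ) ^ 2) ≤
        Real.exp (2 * Fintype.card κ * (1 / ((p : ℕ) : ℝ) ^ 2)) := by
    intro p
    rw [Fintype.sum_option]
    simp only [if_true, reduceCtorEq, if_false, Finset.sum_const, Finset.card_univ, nsmul_eq_mul]
    have h9 := Real.add_one_le_exp (2 * Fintype.card κ * (1 / ((p : ℕ) : ℝ) ^ 2))
    refine le_trans (le_of_eq ?_) h9
    ring
  calc ∏ p : PS R W, ∑ a : Option κ, (if a = none then (1 : ℝ) else 2 / ((p : ℕ) : ℝ) ^ 2)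
      ≤ ∏ p : PS R W, Real.exp (2 * Fintype.card κ * (1 / ((p : ℕ) : ℝ) ^ 2)) := by
        apply Finset.prod_le_prod
        · intro p _
          apply Finset.sum_nonneg
          intro a _
          split_ifs <;> (clear * -; positivity)
        · intro p _
          exact h8 p
    _ = Real.exp (2 * Fintype.card κ * ∑ p : PS R W, (1 / ((p : ℕ) : ℝ) ^ 2)) := by
        rw [← Real.exp_sum, ← Finset.mul_sum]
    _ ≤ Real.exp (4 * Fintype.card κ) := by
        apply Real.exp_le_exp.2
        have := sum_inv_sq_PS R W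
        have hK : (0 : ℝ) ≤ Fintype.card κ := Nat.cast_nonneg _
        (clear * - this; nlinarith)

theorem join_eq_none {ι κ : Type} (c c' : ι → Option κ) (p : ι) :
    Pool.Agent.Helper1.MT.join c c' p = none ↔ c p = none ∧ c' p = none := by
  unfold Pool.Agent.Helper1.MT.join
  rcases c p with _ | i
  · simp
  · simp

end Pool.Agent.Helper74.MT

end

section

set_option autoImplicit false

open Finset Filter

namespace Pool.Agent.Helper18.MT

open Pool.Agent.Helper1.MT

open Pool.Agent.Helper74.MT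

/-- The colouring attached to `n`, with the allowed colours `a`. -/
noncomputable def sigA {κ : Type} {R W : ℕ} (h : κ → ℕ) (a : PS R W → Finset κ) (n : ℕ)
    (p : PS R W) : Option κ := by
  classical exact if hx : ∃ i, i ∈ a p ∧ (p : ℕ) ∣ n + h i then some hx.choose else none

theorem sigA_eq_some {κ : Type} {R W : ℕ} {h : κ → ℕ} {a : PS R W → Finset κ}
    (ha : ∀ p, ∀ i ∈ a p, ∀ i' ∈ a p, i ≠ i' → ¬ ((p : ℕ) : ℤ) ∣ (h i : ℤ) - h i') (n : ℕ)
    (p : PS R W) (i : κ) : sigA h a n p = some i ↔ i ∈ a p ∧ (p : ℕ) ∣ n + h i := by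
  classical
  unfold sigA
  constructor
  · intro hx
    split_ifs at hx with h1
    · have h2 := h1.choose_spec
      rw [Option.some.injEq] at hx
      rwa [hx] at h2
  · intro hx
    have h1 : ∃ i, i ∈ a p ∧ (p : ℕ) ∣ n + h i := ⟨i, hx⟩
    rw [dif_pos h1, Option.some.injEq]
    by_contra hne
    have h2 := h1.choose_spec
    refine ha p _ h2.1 i hx.1 hne ?_
    have h4 : ((p : ℕ) : ℤ) ∣ ((n + h h1.choose : ℕ) : ℤ) := by exact_mod_cast h2.2
    have h5 : ((p : ℕ) : ℤ) ∣ ((n + h i : ℕ) : ℤ) := by exact_mod_cast hx.2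
    have h6 := dvd_sub h4 h5
    push_cast at h6
    rwa [add_sub_add_left_eq_sub] at h6

theorem le_sigA_iff {κ : Type} [DecidableEq κ] {R W : ℕ} {h : κ → ℕ} {a : PS R W → Finset κ}
    (ha : ∀ p, ∀ i ∈ a p, ∀ i' ∈ a p, i ≠ i' → ¬ ((p : ℕ) : ℤ) ∣ (h i : ℤ) - h i')
    (n : ℕ) (c : PS R W → Option κ) (hc : ∀ p i, c p = some i → i ∈ a p) :
    Le c (sigA h a n) ↔ Dv h c n := by
  unfold Le Dv
  constructor
  · intro h0 p i hi
    rcases h0 p with h1 | h1
    · rw [h1] at hi
      exact absurd hi (by simp)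
    · rw [h1] at hi
      exact ((sigA_eq_some ha n p i).1 hi).2
  · intro h0 p
    rcases hcp : c p with _ | i
    · exact Or.inl rfl
    · exact Or.inr ((sigA_eq_some ha n p i).2 ⟨hc p i hcp, h0 p i hcp⟩).symm

theorem lam_ne_zero' {ι κ : Type} [Fintype ι] [Fintype κ] [DecidableEq ι] [DecidableEq κ]
    {w : ι → ℝ} {y : (ι → Option κ) → ℝ} {c : ι → Option κ}
    (h : lam w y c ≠ 0) : ∃ c' : ι → Option κ, y c' ≠ 0 ∧ ∀ p i, c p = some i → c' p = some i := by
  unfold lam at h
  obtain ⟨c', -, hc'⟩ := Finset.exists_ne_zero_of_sum_ne_zero h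
  refine ⟨c', right_ne_zero_of_mul hc', ?_⟩
  intro p i hp
  have h1 := Finset.prod_ne_zero_iff.1 (left_ne_zero_of_mul hc') p (Finset.mem_univ p)
  rw [hp] at h1
  rcases hcp : c' p with _ | j
  · rw [hcp] at h1
    simp [inv] at h1
  · rw [hcp] at h1
    simp only [inv] at h1
    split_ifs at h1 with h2
    · rw [h2]
    · exact absurd rfl h1

theorem sumGen_core (hE : Expand) {κ : Type} [Fintype κ] [DecidableEq κ] {h : κ → ℕ}
    {W v : ℕ} (hW : 0 < W) {x L : ℝ} (hx9 : 9 ≤ x) (hL : 0 < L)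
    (hWx : (W : ℝ) ≤ x ^ (23 / 54 : ℝ))
    (hKx : 4 * Real.exp (4 * Fintype.card κ) ^ 2 * L ≤ x ^ (53 / 162 : ℝ))
    {R : ℕ} (hR2 : 2 ≤ R) (hRx : (R : ℝ) ≤ x ^ (1 / 81 : ℝ)) (a : PS R W → Finset κ)
    (ha : ∀ p, ∀ i ∈ a p, ∀ i' ∈ a p, i ≠ i' → ¬ ((p : ℕ) : ℤ) ∣ (h i : ℤ) - h i')
    (y : (PS R W → Option κ) → ℝ) (hy : ∀ c, |y c| ≤ R)
    (hT : ∀ c, y c ≠ 0 → T (tp R W) (supp c) ≤ 3)
    (hya : ∀ c, y c ≠ 0 → ∀ p i, c p = some i → i ∈ a p) :
    |∑ n ∈ NS x W v, (1 / (n : ℝ)) * sw h (lam (wp R W) y) n -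
      (Real.log x / (2 * W)) * Qf (fun p => pr κ (wp R W p)) (lam (wp R W) y)| ≤ 1 / L := by
  set K : ℕ := Fintype.card κ with hK
  have hx0 : 0 < x := by (clear * - hx9; linarith)
  have hx1 : 1 ≤ x := by (clear * - hx9; linarith)
  have hR0 : (0 : ℝ) < R := by exact_mod_cast (by (clear * - κ W hR2; omega) : 0 < R)
  set f := lam (wp R W) y with hf
  have hfa : ∀ c, f c ≠ 0 → ∀ p i, c p = some i → i ∈ a p := by
    intro c hc p i hp
    obtain ⟨c', hc', hcc⟩ := lam_ne_zero' hc
    exact hya c' hc' p i (hcc p i hp)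
  have hfsupp : ∀ c, f c ≠ 0 → ∏ p ∈ supp c, ((p : ℕ) : ℝ) ≤ (R : ℝ) ^ 3 := by
    intro c hc
    obtain ⟨c', hc', hsub⟩ := lam_ne_zero hc
    refine le_trans ?_ (prod_supp_le hR2 (supp c') 3 (by exact_mod_cast hT c' hc'))
    exact_mod_cast (Finset.prod_le_prod_of_subset_of_one_le' (f := fun p : PS R W => (p : ℕ)) hsub
      (fun p _ _ => (Pool.Agent.Helper74.MT.PS_prime p).pos))
  set e : ℝ := 4 / x ^ (1 / 2 : ℝ) with he
  have he0 : 0 < e := by positivity
  have hmain := hE (PS R W) κ (fun p => pr κ (wp R W p)) f (NS x W v) (fun n => 1 / (n : ℝ))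
    (fun n => sigA h a n) (Real.log x / (2 * W)) (fun _ => e) ?_ ?_
  · have hlhs : ∑ n ∈ NS x W v, (1 / (n : ℝ)) * sw h f n =
        ∑ n ∈ NS x W v, (1 / (n : ℝ)) *
          (∑ c ∈ univ.filter (fun c : PS R W → Option κ => Le c (sigA h a n)), f c) ^ 2 := by
      classical
      apply Finset.sum_congr rfl
      intro n _
      congr 1
      unfold sw
      congr 1
      rw [Finset.sum_filter, Finset.sum_filter]
      apply Finset.sum_congr rfl
      intro c _
      by_cases hfc : f c = 0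
      · rw [hfc]
        simp
      · have h1 := le_sigA_iff ha n c (hfa c hfc)
        by_cases h2 : Dv h c n
        · rw [if_pos h2, if_pos (h1.2 h2)]
        · rw [if_neg h2, if_neg (fun h3 => h2 (h1.1 h3))]
    rw [hlhs]
    refine hmain.trans ?_
    calc ∑ c : PS R W → Option κ, ∑ c' : PS R W → Option κ,
          (open Classical in if Compat c c' then |f c| * |f c'| * e else 0)
        ≤ ∑ c : PS R W → Option κ, ∑ c' : PS R W → Option κ, |f c| * |f c'| * e := by
          apply Finset.sum_le_sum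
          intro c _
          apply Finset.sum_le_sum
          intro c' _
          split_ifs
          · exact le_rfl
          · (clear * - hx9; positivity)
      _ = e * (∑ c : PS R W → Option κ, |f c|) ^ 2 := by
          rw [sq, Finset.sum_mul_sum, Finset.mul_sum]
          apply Finset.sum_congr rfl
          intro c _
          rw [Finset.mul_sum]
          apply Finset.sum_congr rfl
          intro c' _
          ring
      _ ≤ e * ((R : ℝ) ^ 7 * Real.exp (4 * K)) ^ 2 := by
          apply mul_le_mul_of_nonneg_left _ he0.le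
          apply pow_le_pow_left₀ (Finset.sum_nonneg fun c _ => abs_nonneg _)
          exact sum_abs_lam_bound hR2 y hy hT
      _ ≤ e * ((x ^ (1 / 81 : ℝ)) ^ 7 * Real.exp (4 * K)) ^ 2 := by gcongr
      _ = (4 * Real.exp (4 * K) ^ 2 * L) * (x ^ (14 / 81 : ℝ) * (x ^ (1 / 2 : ℝ))⁻¹) / L := by
          have h1 : x ^ (14 / 81 : ℝ) = (x ^ (1 / 81 : ℝ)) ^ 14 := by
            rw [← Real.rpow_natCast, ← Real.rpow_mul hx0.le]
            norm_num
          rw [h1, he]
          (clear * - hL hx9; field_simp)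
      _ ≤ x ^ (53 / 162 : ℝ) * (x ^ (14 / 81 : ℝ) * (x ^ (1 / 2 : ℝ))⁻¹) / L := by gcongr
      _ = 1 / L := by
          congr 1
          rw [← Real.rpow_neg hx0.le, ← Real.rpow_add hx0, ← Real.rpow_add hx0]
          norm_num
  · intro p
    rw [Fintype.sum_option]
    simp only [pr, Finset.sum_const, Finset.card_univ, nsmul_eq_mul]
    ring
  · intro c c' hc hc' _
    set U := Pool.Agent.Helper1.MT.join c c' with hU
    have hUa : ∀ p i, U p = some i → i ∈ a p := by
      intro p i hp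
      rw [hU] at hp
      unfold Pool.Agent.Helper1.MT.join at hp
      split_ifs at hp with h1
      · exact hfa c hc p i hp
      · exact hfa c' hc' p i hp
    have hUprod : ∏ p ∈ supp U, ((p : ℕ) : ℝ) ≤ (R : ℝ) ^ 6 := by
      have hsub : supp U ⊆ supp c ∪ supp c' := by
        intro p hp
        rw [mem_supp, hU, ne_eq, join_eq_none] at hp
        rw [mem_union, mem_supp, mem_supp]
        tauto
      have h1 : ∏ p ∈ supp U, (p : ℕ) ≤ ∏ p ∈ supp c ∪ supp c', (p : ℕ) :=
        Finset.prod_le_prod_of_subset_of_one_le' hsub (fun p _ _ => (Pool.Agent.Helper74.MT.PS_prime p).pos)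
      have h2 : ∏ p ∈ supp c ∪ supp c', (p : ℕ) ≤
          (∏ p ∈ supp c, (p : ℕ)) * ∏ p ∈ supp c', (p : ℕ) := by
        rw [← Finset.prod_union_inter]
        exact Nat.le_mul_of_pos_right _ (Finset.prod_pos fun p _ => (Pool.Agent.Helper74.MT.PS_prime p).pos)
      have h3 := hfsupp c hc
      have h4 := hfsupp c' hc'
      calc ∏ p ∈ supp U, ((p : ℕ) : ℝ)
          ≤ (∏ p ∈ supp c, ((p : ℕ) : ℝ)) * ∏ p ∈ supp c', ((p : ℕ) : ℝ) := by
            exact_mod_cast h1.trans h2
        _ ≤ (R : ℝ) ^ 3 * (R : ℝ) ^ 3 := by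
            apply mul_le_mul h3 h4 _ (by positivity)
            exact Finset.prod_nonneg fun p _ => Nat.cast_nonneg _
        _ = (R : ℝ) ^ 6 := by ring
    obtain ⟨b, hb⟩ := crt_exists (R := R) (W := W) v
      (fun p => match U p with | some i => h i | none => 0) (supp U)
    set q : ℕ := W * ∏ p ∈ supp U, (p : ℕ) with hq
    have hq0 : 0 < q := Nat.mul_pos hW (Finset.prod_pos fun p _ => (Pool.Agent.Helper74.MT.PS_prime p).pos)
    have hqx : (q : ℝ) ≤ x ^ (1 / 2 : ℝ) := by
      rw [hq]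
      push_cast
      calc (W : ℝ) * ∏ p ∈ supp U, ((p : ℕ) : ℝ) ≤ x ^ (23 / 54 : ℝ) * (x ^ (1 / 81 : ℝ)) ^ 6 := by
            apply mul_le_mul hWx _ _ (by positivity)
            · exact hUprod.trans (by (clear * - hR2 hRx; gcongr))
            · exact Finset.prod_nonneg fun p _ => Nat.cast_nonneg _
        _ = x ^ (1 / 2 : ℝ) := by
            rw [← Real.rpow_natCast, ← Real.rpow_mul hx0.le, ← Real.rpow_add hx0]
            norm_num
    have hset : (NS x W v).filter (fun n => Le U (sigA h a n)) =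
        (Ioc ⌊x ^ (1 / 2 : ℝ)⌋₊ ⌊x⌋₊).filter (fun n => n ≡ b [MOD q]) := by
      unfold NS
      rw [filter_filter]
      ext n
      rw [mem_filter, mem_filter, ← hb n, le_sigA_iff ha n U hUa]
      apply and_congr_right
      intro _
      apply and_congr_right
      intro _
      unfold Dv
      constructor
      · intro h1 p hp
        rw [mem_supp] at hp
        rcases hUp : U p with _ | i
        · exact absurd hUp hp
        · simp only
          exact h1 p i hUp
      · intro h1 p i hUp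
        have h2 := h1 p ((mem_supp U p).2 (by rw [hUp]; simp))
        rw [hUp] at h2
        exact h2
    have hprod : Real.log x / (2 * W) * ∏ p ∈ supp U, pr κ (wp R W p) (U p) =
        Real.log x / (2 * q) := by
      have h1 : ∏ p ∈ supp U, pr κ (wp R W p) (U p) = ∏ p ∈ supp U, (((p : ℕ) : ℝ))⁻¹ := by
        apply Finset.prod_congr rfl
        intro p hp
        rw [mem_supp] at hp
        rcases hUp : U p with _ | i
        · exact absurd hUp hp
        · simp only [pr, wp, one_div]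
      rw [h1, Finset.prod_inv_distrib, hq]
      push_cast
      have hW' : (W : ℝ) ≠ 0 := by exact_mod_cast hW.ne'
      have hP : (∏ p ∈ supp U, ((p : ℕ) : ℝ)) ≠ 0 :=
        Finset.prod_ne_zero_iff.2 fun p _ => by exact_mod_cast (Pool.Agent.Helper74.MT.PS_prime p).ne_zero
      (clear * - hP hW'; field_simp)
    rw [hset, hprod]
    exact class_sum_real hx9 q b hq0 hqx

end Pool.Agent.Helper18.MT

end
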