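import Mathlib

/-!
Parts of Helper18.BV.Defs, Helper18.BV.St, Helper74.MT.BVAux, Helper37.BV.SiegelReal, Helper81.BV.Small, Helper96.BV.TLS, Helper96.BV.TypeTwo, Helper96.BV.Large, Helper18.BV.WtLemmas, Helper51.BV.Average
-/

namespace Pool.Agent.Helper1.MT
end Pool.Agent.Helper1.MT
namespace Pool.Agent.Helper18.BV
end Pool.Agent.Helper18.BV

section

set_option autoImplicit false

open Finset

namespace Pool.Agent.Helper18.BV

/-- Admissible weight functions: smooth, nonnegative, supported inside `(1/2, 1)`. -/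
structure IsWt (g : ℝ → ℝ) : Prop where
  smooth : ContDiff ℝ (⊤ : ℕ∞) g
  supp : tsupport g ⊆ Set.Ioo (1 / 2) 1
  nonneg : ∀ v, 0 ≤ g v

/-- The weight `g (log n / log x) / n`. -/
noncomputable def wt (g : ℝ → ℝ) (x : ℝ) (n : ℕ) : ℝ := g (Real.log n / Real.log x) / n

/-- The primitive characters modulo `q`. -/
noncomputable def prim (q : ℕ) : Finset (DirichletCharacter ℂ q) := by
  classical exact Finset.univ.filter (fun χ => χ.IsPrimitive)

theorem mem_prim {q : ℕ} {χ : DirichletCharacter ℂ q} : χ ∈ prim q ↔ χ.IsPrimitive := by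
  classical
  unfold prim
  simp

/-- The sum `∑_{n ≤ x} f(n) χ(n) w(n)`. -/
noncomputable def SS (f : ℕ → ℂ) (g : ℝ → ℝ) (x : ℝ) {q : ℕ} (χ : DirichletCharacter ℂ q) : ℂ :=
  ∑ n ∈ Icc 1 ⌊x⌋₊, f n * χ (n : ZMod q) * (wt g x n : ℂ)

/-- The part of an arithmetic function on `n ≤ U`. -/
noncomputable def lo (U : ℕ) (f : ArithmeticFunction ℂ) : ArithmeticFunction ℂ :=
  ⟨fun n => if n ≤ U then f n else 0, by simp⟩

/-- The part of an arithmetic function on `n > U`. -/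
noncomputable def hi (U : ℕ) (f : ArithmeticFunction ℂ) : ArithmeticFunction ℂ :=
  ⟨fun n => if n ≤ U then 0 else f n, by simp⟩

/-- The function `f(n) log n`. -/
noncomputable def D (f : ArithmeticFunction ℂ) : ArithmeticFunction ℂ :=
  ⟨fun n => f n * (Real.log n : ℂ), by simp⟩

theorem lo_apply (U : ℕ) (f : ArithmeticFunction ℂ) (n : ℕ) :
    lo U f n = if n ≤ U then f n else 0 := rfl

theorem hi_apply (U : ℕ) (f : ArithmeticFunction ℂ) (n : ℕ) :
    hi U f n = if n ≤ U then 0 else f n := rfl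

end Pool.Agent.Helper18.BV

end

section

set_option autoImplicit false

open Finset Filter Topology

open scoped ArithmeticFunction.vonMangoldt ArithmeticFunction.Moebius ArithmeticFunction.zeta

namespace Pool.Agent.Helper18.BV

/-- A1a: trivial bound in `Re s > 0`. -/
def LBound : Prop :=
  ∀ (q : ℕ) [NeZero q] (χ : DirichletCharacter ℂ q), χ ≠ 1 → ∀ s : ℂ, 0 < s.re →
    ‖DirichletCharacter.LFunction χ s‖ ≤ q * ‖s‖ / s.re

/-- A1b: bounds near `s = 1`. -/
def LUpper : Prop :=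
  ∀ ε : ℝ, 0 < ε → ∃ r C : ℝ, 0 < r ∧ r ≤ 1 / 4 ∧ 0 < C ∧
    ∀ (q : ℕ) [NeZero q] (χ : DirichletCharacter ℂ q), χ ≠ 1 → ∀ s : ℂ, ‖s - 1‖ ≤ r →
      ‖DirichletCharacter.LFunction χ s‖ ≤ C * (q : ℝ) ^ ε ∧
      ‖deriv (DirichletCharacter.LFunction χ) s‖ ≤ C * (q : ℝ) ^ ε

/-- A3: Estermann's lemma. -/
def Estermann : Prop :=
  ∃ c K : ℝ, 0 < c ∧ 0 < K ∧ ∀ (f G : ℂ → ℂ) (lam B β : ℝ),
    (∀ m : ℕ, 0 ≤ ((-1 : ℂ) ^ m * iteratedDeriv m f 2).re) → 1 ≤ (f 2).re → 1 ≤ B →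
    (∀ s : ℂ, 1 < s.re → f s = lam / (s - 1) + G s) →
    DifferentiableOn ℂ G (Metric.ball 2 (3 / 2)) →
    (∀ s : ℂ, ‖s - 2‖ = 4 / 3 → ‖G s‖ ≤ B) →
    9 / 10 ≤ β → β < 1 → (G β).re ≤ lam / (1 - β) →
    c * (1 - β) * B ^ (-(K * (1 - β))) ≤ lam

/-- A4: the derivatives at `2` of `ζ(s) L(s, χ₁) L(s, χ₂) L(s, χ₁χ₂)` alternate. -/
def AltProd : Prop :=
  ∀ (q₁ q₂ q₃ : ℕ) [NeZero q₁] [NeZero q₂] [NeZero q₃] (χ₁ : DirichletCharacter ℂ q₁)
    (χ₂ : DirichletCharacter ℂ q₂) (χ₃ : DirichletCharacter ℂ q₃),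
    χ₁ ^ 2 = 1 → χ₂ ^ 2 = 1 →
    (∀ n : ℕ, χ₃ (n : ZMod q₃) = χ₁ (n : ZMod q₁) * χ₂ (n : ZMod q₂)) →
    (∀ m : ℕ, 0 ≤ ((-1 : ℂ) ^ m * iteratedDeriv m (fun s => riemannZeta s *
      DirichletCharacter.LFunction χ₁ s * DirichletCharacter.LFunction χ₂ s *
      DirichletCharacter.LFunction χ₃ s) 2).re) ∧
    1 ≤ (riemannZeta 2 * DirichletCharacter.LFunction χ₁ 2 * DirichletCharacter.LFunction χ₂ 2 *
      DirichletCharacter.LFunction χ₃ 2).re

/-- A4': the same for `ζ(s) L(s, χ)`. -/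
def AltOne : Prop :=
  ∀ (q : ℕ) [NeZero q] (χ : DirichletCharacter ℂ q), χ ^ 2 = 1 →
    (∀ m : ℕ, 0 ≤ ((-1 : ℂ) ^ m * iteratedDeriv m (fun s => riemannZeta s *
      DirichletCharacter.LFunction χ s) 2).re) ∧
    1 ≤ (riemannZeta 2 * DirichletCharacter.LFunction χ 2).re

/-- A7: the derivatives of `L'/L` near `s = 1` for small conductors. -/
def NearOne : Prop :=
  ∀ (B : ℝ) (k : ℕ), 0 < B → ∃ C X0 : ℝ, 0 < C ∧ 3 ≤ X0 ∧ ∀ x : ℝ, X0 ≤ x →
    ∀ (q : ℕ) [NeZero q], 1 < q → (q : ℝ) ≤ Real.log x ^ B → ∀ χ ∈ prim q, ∀ s : ℂ,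
      ‖s - 1‖ ≤ Real.log x ^ (-(1 / 2) : ℝ) →
      ‖iteratedDeriv k (fun z => deriv (DirichletCharacter.LFunction χ) z /
        DirichletCharacter.LFunction χ z) s‖ ≤ C * Real.log x ^ (((k : ℝ) + 1) / 2)

/-- The von Mangoldt function with complex values. -/
noncomputable def LaC : ArithmeticFunction ℂ := ⟨fun n => ((Λ n : ℝ) : ℂ), by simp⟩

/-- The Möbius function with complex values. -/
noncomputable def muC : ArithmeticFunction ℂ := ((μ : ArithmeticFunction ℤ) : ArithmeticFunction ℂ)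

/-- The constant function `1`. -/
noncomputable def zeC : ArithmeticFunction ℂ := ((ζ : ArithmeticFunction ℕ) : ArithmeticFunction ℂ)

theorem LaC_apply (n : ℕ) : LaC n = ((Λ n : ℝ) : ℂ) := rfl

/-- B1: large sieve with logarithmic weights (weak form). -/
def TLS : Prop :=
  ∀ (Q U N : ℕ), 1 ≤ Q → Q ^ 4 ≤ U → U ≤ N → ∀ α : ℕ → ℂ,
    ∑ q ∈ Icc 1 Q, ∑ χ ∈ prim q, ‖∑ m ∈ Ioc U N, α m * χ (m : ZMod q) / m‖ ^ 2 ≤
      (Real.log N + 2) * ∑ m ∈ Ioc U N, ‖α m‖ ^ 2 / m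

/-- B2a: Vaughan's identity. -/
def VaughanId : Prop :=
  ∀ (U V : ℕ) (a m L : ArithmeticFunction ℂ), a * m = 1 → a * L = D a →
    L = lo V L + lo U m * D a - lo U m * lo V L * a + hi U m * (hi V L * a)

/-- B2b: facts on `Λ`, `μ`. -/
structure CoefFacts : Prop where
  inv : zeC * muC = 1
  log : zeC * LaC = D zeC
  mu_le : ∀ n : ℕ, ‖muC n‖ ≤ 1
  lo_mul_lo_le : ∀ (U V n : ℕ), ‖(lo U muC * lo V LaC) n‖ ≤ Real.log n
  lo_mul_lo_zero : ∀ (U V n : ℕ), U * V < n → (lo U muC * lo V LaC) n = 0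
  hi_mul_le : ∀ (V n : ℕ), ‖(hi V LaC * zeC) n‖ ≤ Real.log n
  hi_mul_zero : ∀ (V n : ℕ), n ≤ V → (hi V LaC * zeC) n = 0

/-- B3: Type I sums. -/
def TypeOne : Prop :=
  ∀ g : ℝ → ℝ, IsWt g → ∃ C : ℝ, 0 < C ∧ ∀ x : ℝ, 3 ≤ x →
    ∀ (q : ℕ) [NeZero q] (χ : DirichletCharacter ℂ q), χ ≠ 1 →
    ∀ (M : ℕ) (c : ArithmeticFunction ℂ) (Kc : ℝ), (∀ m ≤ M, ‖c m‖ ≤ Kc) →
      (∀ m, M < m → c m = 0) →
      ‖SS (c * zeC : ArithmeticFunction ℂ) g x χ‖ ≤
        C * q * M * Kc * Real.log x * x ^ (-(1 / 2) : ℝ) ∧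
      ‖SS (c * D zeC : ArithmeticFunction ℂ) g x χ‖ ≤
        C * q * M * Kc * Real.log x * x ^ (-(1 / 2) : ℝ)

/-- B4: Type II sums on average over primitive characters. -/
def TypeTwo : Prop :=
  ∀ g : ℝ → ℝ, IsWt g → ∃ C : ℝ, 0 < C ∧ ∀ x : ℝ, 3 ≤ x → ∀ Q U V : ℕ, 1 ≤ Q → Q ^ 4 ≤ U →
    Q ^ 4 ≤ V → ∀ a b : ArithmeticFunction ℂ, (∀ n ≤ U, a n = 0) → (∀ n ≤ V, b n = 0) →
      (∀ n, ‖a n‖ ≤ 1) → (∀ n : ℕ, (n : ℝ) ≤ x → ‖b n‖ ≤ Real.log x) →
      ∑ q ∈ Icc 1 Q, ∑ χ ∈ prim q, ‖SS (a * b : ArithmeticFunction ℂ) g x χ‖ ≤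
        C * Real.log x ^ 3

/-- B5: primitive characters of large conductor on average. -/
def Large : Prop :=
  ∀ g : ℝ → ℝ, IsWt g → ∀ A : ℝ, 0 < A → ∃ B C X0 : ℝ, 0 < B ∧ 0 < C ∧ 3 ≤ X0 ∧
    ∀ x : ℝ, X0 ≤ x →
      ∑ q ∈ Ioc ⌊Real.log x ^ B⌋₊ ⌊x ^ (1 / 40 : ℝ)⌋₊,
        (1 / (q.totient : ℝ)) * ∑ χ ∈ prim q, ‖SS LaC g x χ‖ ≤ C / Real.log x ^ A

end Pool.Agent.Helper18.BV

end

section

set_option autoImplicit false

open Finset

open scoped ArithmeticFunction.vonMangoldt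

namespace Pool.Agent.Helper74.MT

open Pool.Agent.Helper18.BV (wt IsWt)

open Pool.Agent.Helper1.MT

/-- The weight vanishes for `n ≤ √x`. -/
theorem wt_zero {g : ℝ → ℝ} (hg : IsWt g) {x : ℝ} (hx : 1 < x) {n : ℕ} (hn : 0 < n)
    (h : (n : ℝ) ^ 2 ≤ x) : wt g x n = 0 := by
  unfold wt
  have hlx : 0 < Real.log x := Real.log_pos hx
  have h1 : Real.log n / Real.log x ≤ 1 / 2 := by
    rw [div_le_iff₀ hlx]
    have h2 : Real.log ((n : ℝ) ^ 2) ≤ Real.log x := Real.log_le_log (by (clear * - hn; positivity)) h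
    rw [Real.log_pow] at h2
    push_cast at h2
    linarith
  have h3 : g (Real.log n / Real.log x) = 0 := by
    by_contra hcon
    have := hg.supp (subset_tsupport g hcon)
    exact absurd this.1 (not_lt.2 h1)
  rw [h3, zero_div]

theorem wt_nonneg {g : ℝ → ℝ} (hg : IsWt g) (x : ℝ) (n : ℕ) : 0 ≤ wt g x n := by
  unfold wt
  exact div_nonneg (hg.nonneg _) (Nat.cast_nonneg _)

end Pool.Agent.Helper74.MT

end

section

set_option autoImplicit false

open Complex Filter Topology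

open Pool.Agent.Helper18.BV

namespace Pool.Agent.Helper37.BV

open DirichletCharacter

/-- quadratic characters are real -/
theorem conj_apply {q : ℕ} [NeZero q] {χ : DirichletCharacter ℂ q} (hχ : χ ^ 2 = 1)
    (a : ZMod q) : (starRingEnd ℂ) (χ a) = χ a := by
  have h1 : χ⁻¹ = χ := by
    rw [inv_eq_iff_mul_eq_one, ← sq, hχ]
  have h2 := MulChar.star_apply' χ a
  rw [h1] at h2
  exact h2

theorem LFunction_conj {q : ℕ} [NeZero q] {χ : DirichletCharacter ℂ q} (hχ : χ ^ 2 = 1)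
    (hχ1 : χ ≠ 1) (s : ℂ) :
    (starRingEnd ℂ) (LFunction χ ((starRingEnd ℂ) s)) = LFunction χ s := by
  set F : ℂ → ℂ := (starRingEnd ℂ) ∘ LFunction χ ∘ (starRingEnd ℂ) with hF
  have hd : Differentiable ℂ (LFunction χ) := differentiable_LFunction hχ1
  have hdF : Differentiable ℂ F := by
    intro z
    rw [hF]
    exact differentiableAt_conj_conj_iff.2 (hd _)
  have heq : F = LFunction χ := by
    apply AnalyticOnNhd.eq_of_eventuallyEq (z₀ := 2)
      (fun z _ => hdF.analyticAt z) (fun z _ => hd.analyticAt z)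
    have hU : {z : ℂ | 1 < z.re} ∈ 𝓝 (2 : ℂ) :=
      (isOpen_lt continuous_const Complex.continuous_re).mem_nhds (by simp)
    filter_upwards [hU] with z hz
    have hz' : 1 < ((starRingEnd ℂ) z).re := by rwa [Complex.conj_re]
    change (starRingEnd ℂ) (LFunction χ ((starRingEnd ℂ) z)) = LFunction χ z
    rw [LFunction_eq_LSeries χ hz', LFunction_eq_LSeries χ hz, LSeries, LSeries, Complex.conj_tsum]
    refine tsum_congr fun n => ?_
    rcases eq_or_ne n 0 with rfl | hn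
    · simp [LSeries.term_zero]
    · rw [LSeries.term_of_ne_zero hn, LSeries.term_of_ne_zero hn, map_div₀, conj_apply hχ]
      congr 1
      have harg : (n : ℂ).arg ≠ Real.pi := by
        rw [Complex.natCast_arg]
        exact Real.pi_pos.ne
      rw [Complex.cpow_conj _ _ harg, Complex.conj_conj, Complex.conj_natCast]
  exact congrFun heq s

theorem im_zero {q : ℕ} [NeZero q] {χ : DirichletCharacter ℂ q} (hχ : χ ^ 2 = 1)
    (hχ1 : χ ≠ 1) (x : ℝ) : (LFunction χ x).im = 0 := by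
  have h := LFunction_conj hχ hχ1 (x : ℂ)
  rw [Complex.conj_ofReal] at h
  exact Complex.conj_eq_iff_im.1 h

theorem ofReal_re' {q : ℕ} [NeZero q] {χ : DirichletCharacter ℂ q} (hχ : χ ^ 2 = 1)
    (hχ1 : χ ≠ 1) (x : ℝ) : LFunction χ x = ((LFunction χ x).re : ℂ) := by
  apply Complex.ext
  · simp
  · simp [im_zero hχ hχ1 x]

theorem nonneg_of_no_zero (h5 : AltOne) {q : ℕ} [NeZero q] {χ : DirichletCharacter ℂ q}
    (hχ : χ ^ 2 = 1) (hχ1 : χ ≠ 1) (β : ℝ) (hβ : β < 1)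
    (h : ∀ x : ℝ, β ≤ x → x < 1 → LFunction χ x ≠ 0) : 0 ≤ (LFunction χ β).re := by
  by_contra hneg
  push Not at hneg
  have h2 : 0 < (LFunction χ 2).re := by
    have h3 := (h5 q χ hχ).2
    have h4 : (riemannZeta 2).im = 0 := by
      rw [riemannZeta_two]
      have : ((Real.pi : ℂ) ^ 2 / 6) = ((Real.pi ^ 2 / 6 : ℝ) : ℂ) := by push_cast; ring
      rw [this, Complex.ofReal_im]
    have h6 : (riemannZeta 2).re = Real.pi ^ 2 / 6 := by
      rw [riemannZeta_two]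
      have : ((Real.pi : ℂ) ^ 2 / 6) = ((Real.pi ^ 2 / 6 : ℝ) : ℂ) := by push_cast; ring
      rw [this, Complex.ofReal_re]
    rw [Complex.mul_re, h4, zero_mul, sub_zero, h6] at h3
    by_contra h7
    push Not at h7
    have : 0 ≤ Real.pi ^ 2 / 6 := by positivity
    (clear * - h3 h7; nlinarith)
  have hcont : Continuous fun x : ℝ => (LFunction χ x).re := by
    have := (differentiable_LFunction hχ1).continuous
    exact Complex.continuous_re.comp (this.comp Complex.continuous_ofReal)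
  have hmem : (0 : ℝ) ∈ Set.Icc ((fun x : ℝ => (LFunction χ x).re) β)
      ((fun x : ℝ => (LFunction χ x).re) 2) := by
    constructor
    · exact hneg.le
    · have : ((2 : ℝ) : ℂ) = 2 := by norm_num
      simp only [this]
      exact h2.le
  obtain ⟨x, hx, hx0⟩ := intermediate_value_Icc (by (clear * - hβ; linarith) : β ≤ 2) hcont.continuousOn hmem
  have hx0' : LFunction χ x = 0 := by
    rw [ofReal_re' hχ hχ1 x]
    have : (LFunction χ x).re = 0 := hx0
    rw [this, Complex.ofReal_zero]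
  rcases lt_or_ge x 1 with h1 | h1
  · exact h x hx.1 h1 hx0'
  · exact LFunction_ne_zero_of_one_le_re χ (Or.inl hχ1) (by simpa using h1) hx0'

theorem norm_le_circle (h1 : LBound) {q : ℕ} [NeZero q] {χ : DirichletCharacter ℂ q}
    (hχ1 : χ ≠ 1) (s : ℂ) (hs : ‖s - 2‖ = 4 / 3) : ‖LFunction χ s‖ ≤ 5 * q := by
  have hre : 2 / 3 ≤ s.re := by
    have h3 := Complex.abs_re_le_norm (s - 2)
    rw [hs] at h3
    have h4 := (abs_le.1 h3).1
    simp at h4
    (clear * - h4; linarith)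
  have hn : ‖s‖ ≤ 10 / 3 := by
    have : s = (s - 2) + 2 := by ring
    rw [this]
    refine (norm_add_le _ _).trans ?_
    rw [hs]
    norm_num
  have h5 := h1 q χ hχ1 s (by (clear * - hre; linarith))
  refine h5.trans ?_
  rw [div_le_iff₀ (by (clear * - hre; linarith))]
  have hq : (0 : ℝ) ≤ q := Nat.cast_nonneg q
  (clear * - hn hq hre; nlinarith [mul_le_mul_of_nonneg_left hn hq, mul_le_mul_of_nonneg_left hre hq])

theorem norm_le_one (h1 : LBound) {q : ℕ} [NeZero q] {χ : DirichletCharacter ℂ q}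
    (hχ1 : χ ≠ 1) : ‖LFunction χ 1‖ ≤ q := by
  have := h1 q χ hχ1 1 (by simp)
  simpa using this

theorem same {q q1 : ℕ} [NeZero q] [NeZero q1] {χ : DirichletCharacter ℂ q}
    {χ1 : DirichletCharacter ℂ q1} (hp : χ.IsPrimitive) (hp1 : χ1.IsPrimitive)
    (h : ∀ n : ℤ, IsCoprime n q → IsCoprime n q1 → χ n = χ1 n) :
    LFunction χ 1 = LFunction χ1 1 := by
  have hne : NeZero (q1 * q) := ⟨mul_ne_zero (NeZero.ne q1) (NeZero.ne q)⟩
  have hc : changeLevel (dvd_mul_left q q1) χ = changeLevel (dvd_mul_right q1 q) χ1 := by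
    ext a
    have hcop := ZMod.val_coe_unit_coprime a
    have hcopZ : IsCoprime (((a : ZMod (q1 * q)).val : ℕ) : ℤ) ((q1 * q : ℕ) : ℤ) :=
      Nat.isCoprime_iff_coprime.2 hcop
    have ha : ((((a : ZMod (q1 * q)).val : ℕ) : ℤ) : ZMod (q1 * q)) = a := by
      push_cast
      rw [ZMod.natCast_zmod_val]
    rw [← ha, changeLevel_eq_cast_of_dvd' _ _ hcopZ, changeLevel_eq_cast_of_dvd' _ _ hcopZ]
    apply h
    · push_cast at hcopZ ⊢
      exact hcopZ.of_mul_right_right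
    · push_cast at hcopZ ⊢
      exact hcopZ.of_mul_right_left
  have hq : q = q1 := by
    have h2 := conductor_changeLevel χ (dvd_mul_left q q1)
    have h3 := conductor_changeLevel χ1 (dvd_mul_right q1 q)
    rw [hc, h3] at h2
    rw [← (isPrimitive_def χ).1 hp, ← (isPrimitive_def χ1).1 hp1, h2]
  subst hq
  have : χ = χ1 := changeLevel_injective (dvd_mul_left q q) hc
  rw [this]

theorem chi3 {q q1 : ℕ} [NeZero q] [NeZero q1] {χ : DirichletCharacter ℂ q}
    {χ1 : DirichletCharacter ℂ q1} (hχ2 : χ ^ 2 = 1) (hχ12 : χ1 ^ 2 = 1)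
    (h : ∃ n : ℤ, IsCoprime n q ∧ IsCoprime n q1 ∧ χ n ≠ χ1 n) :
    ∃ χ3 : DirichletCharacter ℂ (q1 * q), χ3 ≠ 1 ∧ χ3 ^ 2 = 1 ∧
      ∀ n : ℕ, χ3 (n : ZMod (q1 * q)) = χ1 (n : ZMod q1) * χ (n : ZMod q) := by
  have hne : NeZero (q1 * q) := ⟨mul_ne_zero (NeZero.ne q1) (NeZero.ne q)⟩
  set χ3 : DirichletCharacter ℂ (q1 * q) :=
    changeLevel (dvd_mul_right q1 q) χ1 * changeLevel (dvd_mul_left q q1) χ with hχ3
  have hZ : ∀ n : ℤ, IsCoprime n ((q1 * q : ℕ) : ℤ) → χ3 n = χ1 n * χ n := by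
    intro n hn
    rw [hχ3, MulChar.mul_apply, changeLevel_eq_cast_of_dvd' _ _ hn,
      changeLevel_eq_cast_of_dvd' _ _ hn]
  refine ⟨χ3, ?_, ?_, ?_⟩
  · intro h1
    obtain ⟨n, hn, hn1, hnn⟩ := h
    have hcop : IsCoprime n ((q1 * q : ℕ) : ℤ) := by
      push_cast
      exact hn1.mul_right hn
    have h2 := hZ n hcop
    rw [h1] at h2
    have h3 : (1 : DirichletCharacter ℂ (q1 * q)) n = 1 := by
      have : IsUnit ((n : ℤ) : ZMod (q1 * q)) := by
        rw [ZMod.coe_int_isUnit_iff_isCoprime]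
        exact hcop.symm
      exact MulChar.one_apply this
    rw [h3] at h2
    have h4 : χ n ^ 2 = 1 := by
      have : IsUnit ((n : ℤ) : ZMod q) := by
        rw [ZMod.coe_int_isUnit_iff_isCoprime]
        exact hn.symm
      rw [← MulChar.pow_apply' χ two_ne_zero, hχ2]
      exact MulChar.one_apply this
    apply hnn
    calc χ n = (χ1 n * χ n) * χ n := by rw [← h2, one_mul]
      _ = χ1 n * χ n ^ 2 := by ring
      _ = χ1 n := by rw [h4, mul_one]
  · rw [hχ3, mul_pow, ← map_pow, ← map_pow, hχ2, hχ12, map_one, map_one, mul_one]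
  · intro n
    by_cases hcop : IsCoprime ((n : ℕ) : ℤ) ((q1 * q : ℕ) : ℤ)
    · have := hZ n hcop
      simpa using this
    · have h1 : χ3 ((n : ℤ) : ZMod (q1 * q)) = 0 := (apply_eq_zero_iff χ3 _).2 hcop
      have h2 : ¬ (IsCoprime ((n : ℕ) : ℤ) q1 ∧ IsCoprime ((n : ℕ) : ℤ) q) := by
        rintro ⟨h3, h4⟩
        apply hcop
        push_cast
        exact h3.mul_right h4
      have h1' : χ3 (n : ZMod (q1 * q)) = 0 := by simpa using h1
      rw [h1']
      by_cases h3 : IsCoprime ((n : ℕ) : ℤ) q1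
      · have h4 : ¬ IsCoprime ((n : ℕ) : ℤ) q := fun h => h2 ⟨h3, h⟩
        have h5 : χ ((n : ℤ) : ZMod q) = 0 := (apply_eq_zero_iff χ _).2 h4
        have h5' : χ (n : ZMod q) = 0 := by simpa using h5
        rw [h5', mul_zero]
      · have h5 : χ1 ((n : ℤ) : ZMod q1) = 0 := (apply_eq_zero_iff χ1 _).2 h3
        have h5' : χ1 (n : ZMod q1) = 0 := by simpa using h5
        rw [h5', zero_mul]

/-- the bound in the presence of one exceptional zero -/
theorem case_b (h1 : LBound) (h2 : LUpper) (h4 : AltProd) {c K C0 : ℝ} (hc : 0 < c) (hK : 0 < K)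
    (hC0 : 1 ≤ C0)
    (hE : ∀ (La : ℂ → ℂ) (lam B β : ℝ), Differentiable ℂ La → La 1 = lam →
      (∀ m : ℕ, 0 ≤ ((-1 : ℂ) ^ m * iteratedDeriv m (fun s => riemannZeta s * La s) 2).re) →
      1 ≤ (riemannZeta 2 * La 2).re → 1 ≤ B → (∀ s : ℂ, ‖s - 2‖ = 4 / 3 → ‖La s‖ ≤ B) →
      |lam| ≤ B → 9 / 10 ≤ β → β < 1 → (riemannZeta β * La β).re ≤ 0 →
      c * (1 - β) * (C0 * B) ^ (-(K * (1 - β))) ≤ lam)
    {q1 : ℕ} [NeZero q1] {χ1 : DirichletCharacter ℂ q1} (hp1 : χ1.IsPrimitive) (hχ11 : χ1 ≠ 1)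
    (hχ12 : χ1 ^ 2 = 1) (b : ℝ) (hb : 9 / 10 ≤ b) (hb1 : b < 1) (hzero : LFunction χ1 b = 0)
    (ε : ℝ) (hε : 0 < ε) (hε2 : K * (1 - b) ≤ ε / 4) :
    ∃ c' : ℝ, 0 < c' ∧
    ∀ (q : ℕ) [NeZero q] (χ : DirichletCharacter ℂ q), χ.IsPrimitive → χ ≠ 1 → χ ^ 2 = 1 →
      c' * (q : ℝ) ^ (-ε) ≤ ‖LFunction χ 1‖ := by
  obtain ⟨r, C, hr, hr4, hC, hU⟩ := h2 (ε / 2) (by (clear * - hε; positivity))
  have hL1 : LFunction χ1 1 ≠ 0 := LFunction_apply_one_ne_zero hχ11
  have hL1n : 0 < ‖LFunction χ1 1‖ := norm_pos_iff.2 hL1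
  have hq1 : (1 : ℝ) ≤ q1 := by exact_mod_cast NeZero.one_le
  have h1b : 0 < 1 - b := by (clear * - hb1; linarith)
  set a : ℝ := K * (1 - b) with ha
  have ha0 : 0 < a := by (clear * - hK hb1; positivity)
  set N : ℝ := c * (1 - b) * (C0 * (125 * (q1 : ℝ) ^ 2)) ^ (-a) with hN
  set M : ℝ := ‖LFunction χ1 1‖ * (C * (q1 : ℝ) ^ (ε / 2)) with hM
  have hN0 : 0 < N := by (clear * - hc hb1 hC0 hq1; positivity)
  have hM0 : 0 < M := by (clear * - hL1 hC hq1; positivity)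
  refine ⟨min ‖LFunction χ1 1‖ (N / M), lt_min hL1n (by (clear * - hc hb1 hC0 hq1 hL1 hC; positivity)), ?_⟩
  intro q _ χ hp hχ1 hχ2
  have hq : (1 : ℝ) ≤ q := by exact_mod_cast NeZero.one_le
  have hqe0 : (0 : ℝ) < (q : ℝ) ^ (-ε) := by (clear * - hq; positivity)
  by_cases hS : ∀ n : ℤ, IsCoprime n q → IsCoprime n q1 → χ n = χ1 n
  · rw [same hp hp1 hS]
    have hqe : (q : ℝ) ^ (-ε) ≤ 1 := Real.rpow_le_one_of_one_le_of_nonpos hq (by (clear * - hε2 ha0; linarith))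
    have := min_le_left ‖LFunction χ1 1‖ (N / M)
    calc min ‖LFunction χ1 1‖ (N / M) * (q : ℝ) ^ (-ε)
        ≤ ‖LFunction χ1 1‖ * 1 := mul_le_mul this hqe hqe0.le (norm_nonneg _)
      _ = ‖LFunction χ1 1‖ := mul_one _
  · push Not at hS
    obtain ⟨χ3, h31, h32, h33⟩ := chi3 hχ2 hχ12 hS
    have hne : NeZero (q1 * q) := ⟨mul_ne_zero (NeZero.ne q1) (NeZero.ne q)⟩
    have halt := h4 q1 q (q1 * q) χ1 χ χ3 hχ12 hχ2 h33
    set La : ℂ → ℂ := fun s => LFunction χ1 s * LFunction χ s * LFunction χ3 s with hLa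
    have hfun : (fun s => riemannZeta s * LFunction χ1 s * LFunction χ s * LFunction χ3 s) =
        fun s => riemannZeta s * La s := by
      funext s
      rw [hLa]
      ring
    rw [hfun] at halt
    have halt2 : 1 ≤ (riemannZeta 2 * La 2).re := by
      have := halt.2
      have e : riemannZeta 2 * LFunction χ1 2 * LFunction χ 2 * LFunction χ3 2 =
          riemannZeta 2 * La 2 := by
        rw [hLa]
        ring
      rwa [e] at this
    have hr1 := ofReal_re' hχ12 hχ11 1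
    have hr2 := ofReal_re' hχ2 hχ1 1
    have hr3 := ofReal_re' h32 h31 1
    rw [Complex.ofReal_one] at hr1 hr2 hr3
    set lam : ℝ := (LFunction χ1 1).re * (LFunction χ 1).re * (LFunction χ3 1).re with hlam
    have hLa1 : La 1 = lam := by
      rw [hlam]
      push_cast
      rw [← hr1, ← hr2, ← hr3]
    have habs : |lam| = ‖LFunction χ1 1‖ * ‖LFunction χ 1‖ * ‖LFunction χ3 1‖ := by
      have : |lam| = ‖(lam : ℂ)‖ := by rw [Complex.norm_real, Real.norm_eq_abs]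
      rw [this, ← hLa1, hLa]
      simp only
      rw [norm_mul, norm_mul]
    have hB : (1 : ℝ) ≤ 125 * (q1 : ℝ) ^ 2 * (q : ℝ) ^ 2 := by
      have h6 : (1 : ℝ) ≤ (q1 : ℝ) ^ 2 := one_le_pow₀ hq1
      have h7 : (1 : ℝ) ≤ (q : ℝ) ^ 2 := one_le_pow₀ hq
      (clear * - hb hb1 h6 h7; nlinarith)
    have hcast : (((q1 * q : ℕ) : ℕ) : ℝ) = (q1 : ℝ) * q := by push_cast; ring
    have hdiff : Differentiable ℂ La :=
      ((differentiable_LFunction hχ11).mul (differentiable_LFunction hχ1)).mul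
        (differentiable_LFunction h31)
    have hcirc : ∀ s : ℂ, ‖s - 2‖ = 4 / 3 → ‖La s‖ ≤ 125 * (q1 : ℝ) ^ 2 * (q : ℝ) ^ 2 := by
      intro s hs
      have b1 := norm_le_circle h1 hχ11 s hs
      have b2 := norm_le_circle h1 hχ1 s hs
      have b3 := norm_le_circle h1 h31 s hs
      rw [hcast] at b3
      rw [hLa]
      simp only
      rw [norm_mul, norm_mul]
      calc ‖LFunction χ1 s‖ * ‖LFunction χ s‖ * ‖LFunction χ3 s‖
          ≤ (5 * q1) * (5 * q) * (5 * (q1 * q)) := by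
            apply mul_le_mul (mul_le_mul b1 b2 (norm_nonneg _) (by (clear * - hq1; positivity))) b3 (norm_nonneg _)
              (by (clear * - hq1 hq; positivity))
        _ = 125 * (q1 : ℝ) ^ 2 * (q : ℝ) ^ 2 := by ring
    have hlamB : |lam| ≤ 125 * (q1 : ℝ) ^ 2 * (q : ℝ) ^ 2 := by
      rw [habs]
      have b1 := norm_le_one h1 hχ11
      have b2 := norm_le_one h1 hχ1
      have b3 := norm_le_one h1 h31
      rw [hcast] at b3
      calc ‖LFunction χ1 1‖ * ‖LFunction χ 1‖ * ‖LFunction χ3 1‖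
          ≤ (q1) * (q) * ((q1 * q)) := by
            apply mul_le_mul (mul_le_mul b1 b2 (norm_nonneg _) (by (clear * - hq1; positivity))) b3 (norm_nonneg _)
              (by (clear * - hq1 hq; positivity))
        _ ≤ 125 * (q1 : ℝ) ^ 2 * (q : ℝ) ^ 2 := by
            have : (0 : ℝ) ≤ (q1 : ℝ) ^ 2 * (q : ℝ) ^ 2 := by (clear * - hq1 hq; positivity)
            (clear * - hb hb1 hB; nlinarith)
    have h6 := hE La lam (125 * (q1 : ℝ) ^ 2 * (q : ℝ) ^ 2) b hdiff hLa1 halt.1 halt2 hB hcirc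
      hlamB hb hb1 (by
        have : La b = 0 := by
          rw [hLa]
          simp only
          rw [hzero, zero_mul, zero_mul]
        rw [this, mul_zero, Complex.zero_re])
    rw [← ha] at h6
    have h7 : c * (1 - b) * (C0 * (125 * (q1 : ℝ) ^ 2 * (q : ℝ) ^ 2)) ^ (-a) =
        N * ((q : ℝ) ^ 2) ^ (-a) := by
      rw [← mul_assoc C0, Real.mul_rpow (by (clear * - hC0 hq1; positivity)) (by (clear * - hq; positivity)), ← mul_assoc]
    have h8 : (q : ℝ) ^ (-(ε / 2)) ≤ ((q : ℝ) ^ 2) ^ (-a) := by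
      rw [← Real.rpow_natCast, ← Real.rpow_mul (by (clear * - hb hb1 hq; linarith))]
      apply Real.rpow_le_rpow_of_exponent_le hq
      push_cast
      (clear * - hε2; linarith)
    have h9 : N * (q : ℝ) ^ (-(ε / 2)) ≤ lam := by
      refine le_trans (mul_le_mul_of_nonneg_left h8 hN0.le) ?_
      rw [← h7]
      exact h6
    have h10 : lam ≤ ‖LFunction χ 1‖ * (M * (q : ℝ) ^ (ε / 2)) := by
      refine (le_abs_self _).trans ?_
      rw [habs]
      have h11 := (hU (q1 * q) χ3 h31 1 (by simpa using hr.le)).1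
      rw [hcast, Real.mul_rpow (by (clear * - hq1; positivity)) (by (clear * - hq; positivity))] at h11
      calc ‖LFunction χ1 1‖ * ‖LFunction χ 1‖ * ‖LFunction χ3 1‖
          ≤ ‖LFunction χ1 1‖ * ‖LFunction χ 1‖ * (C * ((q1 : ℝ) ^ (ε / 2) * (q : ℝ) ^ (ε / 2))) :=
            mul_le_mul_of_nonneg_left h11 (by (clear * - hL1; positivity))
        _ = ‖LFunction χ 1‖ * (M * (q : ℝ) ^ (ε / 2)) := by rw [hM]; ring
    have h12 : (0 : ℝ) < (q : ℝ) ^ (ε / 2) := by (clear * - hq; positivity)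
    have h13 : N / M * (q : ℝ) ^ (-ε) ≤ ‖LFunction χ 1‖ := by
      have h14 : (q : ℝ) ^ (-ε) = (q : ℝ) ^ (-(ε / 2)) / (q : ℝ) ^ (ε / 2) := by
        rw [← Real.rpow_sub (by (clear * - hb hb1 hq; linarith))]
        congr 1
        ring
      rw [h14, div_mul_div_comm, div_le_iff₀ (by (clear * - hL1 hC hq1 hq; positivity))]
      exact h9.trans h10
    refine le_trans (mul_le_mul_of_nonneg_right (min_le_right _ _) hqe0.le) h13

end Pool.Agent.Helper37.BV

end

section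

set_option autoImplicit false

open Finset Filter Topology MeasureTheory

open scoped ArithmeticFunction.vonMangoldt ArithmeticFunction.Moebius ArithmeticFunction.zeta

namespace Pool.Agent.Helper81.BV

open Pool.Agent.Helper18.BV

lemma wt_zero {g : ℝ → ℝ} (hg : IsWt g) {v : ℝ} (hv : v ∉ Set.Ioo (1 / 2 : ℝ) 1) : g v = 0 :=
  image_eq_zero_of_notMem_tsupport fun h => hv (hg.supp h)

end Pool.Agent.Helper81.BV

end

section

set_option autoImplicit false

open Finset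

open Pool.Agent.Helper18.BV

namespace Pool.Agent.Helper96.BV

/-- The number of primitive characters modulo `q`. -/
theorem card_prim_le (q : ℕ) [NeZero q] : (prim q).card ≤ q.totient := by
  classical
  have h1 : (prim q).card ≤ Fintype.card (DirichletCharacter ℂ q) := Finset.card_le_univ _
  have h2 : Nat.card (DirichletCharacter ℂ q) = q.totient :=
    DirichletCharacter.card_eq_totient_of_hasEnoughRootsOfUnity ℂ q
  rw [Nat.card_eq_fintype_card] at h2
  exact h1.trans (le_of_eq (by convert! h2))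

end Pool.Agent.Helper96.BV

end

section

set_option autoImplicit false

open Finset

open Pool.Agent.Helper18.BV

namespace Pool.Agent.Helper96.BV

theorem wt_eq_zero_of_large {g : ℝ → ℝ} (hg : IsWt g) {x : ℝ} (hx : 3 ≤ x) {n : ℕ}
    (hn : ⌊x⌋₊ < n) : wt g x n = 0 := by
  have h1 : x < n := (Nat.floor_lt (by (clear * - hx; linarith))).1 hn
  have hl : 0 < Real.log x := Real.log_pos (by (clear * - hx; linarith))
  have h2 : Real.log x < Real.log n := Real.log_lt_log (by (clear * - hx; linarith)) h1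
  have h3 : 1 < Real.log n / Real.log x := (one_lt_div hl).2 h2
  have h4 : g (Real.log n / Real.log x) = 0 := by
    apply image_eq_zero_of_notMem_tsupport
    intro h
    have := (hg.supp h).2
    (clear * - h3 this; linarith)
  unfold wt
  rw [h4, zero_div]

end Pool.Agent.Helper96.BV

end

section

set_option autoImplicit false

open Finset

open Pool.Agent.Helper18.BV

namespace Pool.Agent.Helper96.BV

theorem card_divisors_le_two_sqrt (n : ℕ) : n.divisors.card ≤ 2 * Nat.sqrt n := by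
  classical
  have h1 : n.divisors ⊆ Icc 1 (Nat.sqrt n) ∪ (Icc 1 (Nat.sqrt n)).image (fun d => n / d) := by
    intro d hd
    rw [Nat.mem_divisors] at hd
    obtain ⟨⟨e, he⟩, hn⟩ := hd
    have hd0 : 0 < d := Nat.pos_of_ne_zero (by rintro rfl; simp at he; omega)
    have he0 : 0 < e := Nat.pos_of_ne_zero (by rintro rfl; simp at he; omega)
    rw [Finset.mem_union, Finset.mem_image]
    by_cases h : d ≤ Nat.sqrt n
    · left; exact Finset.mem_Icc.2 ⟨hd0, h⟩
    · right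
      refine ⟨e, Finset.mem_Icc.2 ⟨he0, ?_⟩, ?_⟩
      · by_contra h'
        have h2 : Nat.sqrt n + 1 ≤ d := by omega
        have h3 : Nat.sqrt n + 1 ≤ e := by omega
        have h4 := Nat.mul_le_mul h2 h3
        have h5 := Nat.lt_succ_sqrt n
        simp only [Nat.succ_eq_add_one] at h5
        omega
      · rw [he]; exact Nat.mul_div_cancel _ he0
  refine (Finset.card_le_card h1).trans ((Finset.card_union_le _ _).trans ?_)
  have h2 : ((Icc 1 (Nat.sqrt n)).image (fun d => n / d)).card ≤ (Icc 1 (Nat.sqrt n)).card :=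
    Finset.card_image_le
  rw [Nat.card_Icc] at *
  omega

theorem le_totient (q : ℕ) : (q : ℝ) ≤ 2 * Real.sqrt q * q.totient := by
  have h1 : q ≤ q.divisors.card * q.totient := by
    rcases Nat.eq_zero_or_pos q with h0 | h0
    · subst h0; simp
    conv_lhs => rw [← Nat.sum_totient q]
    rw [← smul_eq_mul]
    apply Finset.sum_le_card_nsmul
    intro d hd
    exact Nat.le_of_dvd (Nat.totient_pos.2 h0) (Nat.totient_dvd_of_dvd (Nat.dvd_of_mem_divisors hd))
  have h2 : (q.divisors.card : ℝ) ≤ 2 * Real.sqrt q := by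
    have h3 : (q.divisors.card : ℝ) ≤ ((2 * Nat.sqrt q : ℕ) : ℝ) := by
      exact_mod_cast card_divisors_le_two_sqrt q
    push_cast at h3
    have h4 : ((Nat.sqrt q : ℕ) : ℝ) ≤ Real.sqrt q := Real.nat_sqrt_le_real_sqrt
    linarith
  have h3 : (q : ℝ) ≤ q.divisors.card * q.totient := by exact_mod_cast h1
  exact h3.trans (mul_le_mul_of_nonneg_right h2 (Nat.cast_nonneg _))

theorem inv_totient_le {q : ℕ} (hq : 0 < q) : 1 / (q.totient : ℝ) ≤ 2 / Real.sqrt q := by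
  have h1 := le_totient q
  have h2 : (0 : ℝ) < q := by exact_mod_cast hq
  have h3 : (0 : ℝ) < q.totient := by exact_mod_cast Nat.totient_pos.2 hq
  have h4 : 0 < Real.sqrt q := Real.sqrt_pos.2 h2
  rw [div_le_div_iff₀ h3 h4]
  have h5 : Real.sqrt q * Real.sqrt q = q := Real.mul_self_sqrt h2.le
  (clear * - h5 h1 h4 h2; nlinarith)

theorem SS_add (f f' : ArithmeticFunction ℂ) (g : ℝ → ℝ) (x : ℝ) {q : ℕ}
    (χ : DirichletCharacter ℂ q) :
    SS (f + f' : ArithmeticFunction ℂ) g x χ = SS f g x χ + SS f' g x χ := by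
  unfold SS
  rw [← Finset.sum_add_distrib]
  refine Finset.sum_congr rfl (fun n _ => ?_)
  rw [ArithmeticFunction.add_apply]
  ring

theorem SS_sub (f f' : ArithmeticFunction ℂ) (g : ℝ → ℝ) (x : ℝ) {q : ℕ}
    (χ : DirichletCharacter ℂ q) :
    SS (f - f' : ArithmeticFunction ℂ) g x χ = SS f g x χ - SS f' g x χ := by
  unfold SS
  rw [← Finset.sum_sub_distrib]
  refine Finset.sum_congr rfl (fun n _ => ?_)
  have h : (f - f' : ArithmeticFunction ℂ) n = f n - f' n := by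
    have h0 : (f - f' + f' : ArithmeticFunction ℂ) n = f n := by rw [sub_add_cancel]
    rw [ArithmeticFunction.add_apply] at h0
    rw [← h0]
    ring
  rw [h]
  ring

theorem wt_eq_zero_of_small {g : ℝ → ℝ} (hg : IsWt g) {x : ℝ} (hx : 3 ≤ x) {n : ℕ}
    (hn : (n : ℝ) ≤ x ^ (1 / 10 : ℝ)) : wt g x n = 0 := by
  rcases Nat.eq_zero_or_pos n with h0 | h0
  · subst h0; unfold wt; simp
  have hl : 0 < Real.log x := Real.log_pos (by (clear * - hx; linarith))
  have hn0 : (0 : ℝ) < n := by exact_mod_cast h0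
  have h1 : Real.log n ≤ (1 / 10) * Real.log x := by
    rw [← Real.log_rpow (by (clear * - hx; linarith))]
    exact Real.log_le_log hn0 hn
  have h4 : g (Real.log n / Real.log x) = 0 := by
    apply image_eq_zero_of_notMem_tsupport
    intro h
    have h5 := (hg.supp h).1
    rw [lt_div_iff₀ hl] at h5
    (clear * - hl h1 h5; linarith)
  unfold wt
  rw [h4, zero_div]

theorem SS_lo {g : ℝ → ℝ} (hg : IsWt g) {x : ℝ} (hx : 3 ≤ x) {V : ℕ}
    (hV : (V : ℝ) ≤ x ^ (1 / 10 : ℝ)) (f : ArithmeticFunction ℂ) {q : ℕ}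
    (χ : DirichletCharacter ℂ q) : SS (lo V f) g x χ = 0 := by
  unfold SS
  refine Finset.sum_eq_zero (fun n _ => ?_)
  rw [lo_apply]
  by_cases h : n ≤ V
  · have h1 : (n : ℝ) ≤ x ^ (1 / 10 : ℝ) := le_trans (by exact_mod_cast h) hV
    rw [wt_eq_zero_of_small hg hx h1]
    simp
  · rw [if_neg h]; simp

theorem ne_one_of_prim {q : ℕ} (hq : 1 < q) {χ : DirichletCharacter ℂ q} (hχ : χ ∈ prim q) :
    χ ≠ 1 := by
  rintro rfl
  have : NeZero q := ⟨by omega⟩
  rw [mem_prim, DirichletCharacter.isPrimitive_def, DirichletCharacter.conductor_one] at hχ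
  omega

/-- Module BV-13. -/
theorem large (h1 : VaughanId) (h2 : CoefFacts) (h3 : TypeOne) (h4 : TypeTwo) : Large := by
  intro g hg A hA
  obtain ⟨C3, hC3, h3'⟩ := h3 g hg
  obtain ⟨C4, hC4, h4'⟩ := h4 g hg
  -- choice of X0
  have hev : ∀ᶠ x : ℝ in Filter.atTop, Real.log x ^ (A + 2) ≤ x ^ (1 / 4 : ℝ) := by
    have h := isLittleO_log_rpow_rpow_atTop (A + 2) (by norm_num : (0 : ℝ) < 1 / 4)
    have h' := h.bound (by norm_num : (0 : ℝ) < 1)
    filter_upwards [h', Filter.eventually_ge_atTop (1 : ℝ)] with x hx hx1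
    rw [one_mul, Real.norm_of_nonneg (Real.rpow_nonneg (Real.log_nonneg hx1) _),
      Real.norm_of_nonneg (Real.rpow_nonneg (by (clear * - hx1; linarith)) _)] at hx
    exact hx
  obtain ⟨X1, hX1⟩ := Filter.eventually_atTop.1 hev
  refine ⟨2 * (A + 3), 2 * C3 + 2 * C4, max 3 X1, by (clear * - hA; positivity), by positivity,
    le_max_left _ _, ?_⟩
  intro x hx
  have hx3 : 3 ≤ x := (le_max_left _ _).trans hx
  have hxe := hX1 x ((le_max_right _ _).trans hx)
  set l := Real.log x with hl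
  have hx0 : 0 < x := by (clear * - hx3; linarith)
  have hl1 : 1 ≤ l := by
    rw [hl, Real.le_log_iff_exp_le (by (clear * - hx3; linarith))]
    have := Real.exp_one_lt_d9
    (clear * - hx3 this; linarith)
  have hl0 : 0 < l := by (clear * - hl1; linarith)
  set Q := ⌊x ^ (1 / 40 : ℝ)⌋₊ with hQ
  have hx40 : 1 ≤ x ^ (1 / 40 : ℝ) := Real.one_le_rpow (by (clear * - hx3; linarith)) (by norm_num)
  have hQ1 : 1 ≤ Q := Nat.le_floor (by simpa using hx40)
  have hQx : (Q : ℝ) ≤ x ^ (1 / 40 : ℝ) := Nat.floor_le (by positivity)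
  have hQ0 : (0 : ℝ) ≤ Q := Nat.cast_nonneg _
  set U := Q ^ 4 with hU
  have hUx : (U : ℝ) ≤ x ^ (1 / 10 : ℝ) := by
    rw [hU]
    push_cast
    calc (Q : ℝ) ^ 4 ≤ (x ^ (1 / 40 : ℝ)) ^ 4 := pow_le_pow_left₀ hQ0 hQx 4
      _ = x ^ (1 / 10 : ℝ) := by
        rw [← Real.rpow_natCast, ← Real.rpow_mul hx0.le]; norm_num
  have hU0 : (0 : ℝ) ≤ U := Nat.cast_nonneg _
  have hU1 : 1 ≤ U := Nat.one_le_pow _ _ hQ1
  have hUUx : (U : ℝ) * U ≤ x ^ (1 / 5 : ℝ) := by
    calc (U : ℝ) * U ≤ x ^ (1 / 10 : ℝ) * x ^ (1 / 10 : ℝ) :=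
          mul_le_mul hUx hUx hU0 (by positivity)
      _ = x ^ (1 / 5 : ℝ) := by rw [← Real.rpow_add hx0]; norm_num
  have hUU1 : (1 : ℝ) ≤ (U : ℝ) * U := by
    have : (1 : ℝ) ≤ U := by exact_mod_cast hU1
    (clear * - this; nlinarith)
  have hUle : (U : ℝ) ≤ (U : ℝ) * U := by
    have : (1 : ℝ) ≤ U := by exact_mod_cast hU1
    (clear * - this; nlinarith)
  -- Vaughan
  have hV := h1 U U zeC muC LaC h2.inv h2.log
  set b : ArithmeticFunction ℂ := hi U LaC * zeC with hb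
  set a : ArithmeticFunction ℂ := hi U muC with ha
  have hT2 := h4' x hx3 Q U U hQ1 le_rfl le_rfl a b
    (by intro n hn; rw [ha, hi_apply, if_pos hn])
    (by intro n hn; exact h2.hi_mul_zero U n hn)
    (by
      intro n
      rw [ha, hi_apply]
      split_ifs
      · simp
      · exact h2.mu_le n)
    (by
      intro n hn
      refine (h2.hi_mul_le U n).trans ?_
      rcases Nat.eq_zero_or_pos n with h0 | h0
      · subst h0; simp; (clear * - hl1; linarith)
      · exact Real.log_le_log (by exact_mod_cast h0) hn)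
  -- pointwise estimate
  have hpt : ∀ q : ℕ, 1 < q → ∀ χ ∈ prim q, ‖SS LaC g x χ‖ ≤
      2 * (C3 * q * (x ^ (1 / 5 : ℝ)) * l ^ 2 * x ^ (-(1 / 2) : ℝ)) +
        ‖SS (a * b : ArithmeticFunction ℂ) g x χ‖ := by
    intro q hq χ hχ
    have hq0 : NeZero q := ⟨by omega⟩
    have hne := ne_one_of_prim hq hχ
    have hq0' : (0 : ℝ) ≤ q := Nat.cast_nonneg _
    have hxh : 0 ≤ x ^ (-(1 / 2) : ℝ) := by positivity
    have e1 : ‖SS (lo U muC * D zeC : ArithmeticFunction ℂ) g x χ‖ ≤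
        C3 * q * (x ^ (1 / 5 : ℝ)) * l ^ 2 * x ^ (-(1 / 2) : ℝ) := by
      have h5 := (h3' x hx3 q χ hne U (lo U muC) 1 (by
        intro m hm
        rw [lo_apply, if_pos hm]
        exact h2.mu_le m) (by
        intro m hm
        rw [lo_apply, if_neg (by omega)])).2
      refine h5.trans ?_
      apply mul_le_mul_of_nonneg_right _ hxh
      have h6 : (U : ℝ) * 1 * l ≤ x ^ (1 / 5 : ℝ) * l ^ 2 := by
        calc (U : ℝ) * 1 * l ≤ x ^ (1 / 5 : ℝ) * l := by
              rw [mul_one]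
              exact mul_le_mul_of_nonneg_right (hUle.trans hUUx) hl0.le
          _ ≤ x ^ (1 / 5 : ℝ) * l ^ 2 := by
              apply mul_le_mul_of_nonneg_left _ (by positivity)
              (clear * - hl1; nlinarith)
      calc C3 * q * U * 1 * l = C3 * q * (U * 1 * l) := by ring
        _ ≤ C3 * q * (x ^ (1 / 5 : ℝ) * l ^ 2) := mul_le_mul_of_nonneg_left h6 (by positivity)
        _ = _ := by ring
    have e2 : ‖SS (lo U muC * lo U LaC * zeC : ArithmeticFunction ℂ) g x χ‖ ≤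
        C3 * q * (x ^ (1 / 5 : ℝ)) * l ^ 2 * x ^ (-(1 / 2) : ℝ) := by
      have h5 := (h3' x hx3 q χ hne (U * U) (lo U muC * lo U LaC) l (by
        intro m hm
        refine (h2.lo_mul_lo_le U U m).trans ?_
        rcases Nat.eq_zero_or_pos m with h0 | h0
        · subst h0; simp; (clear * - hl1; linarith)
        · apply Real.log_le_log (by exact_mod_cast h0)
          have h6 : (m : ℝ) ≤ (U : ℝ) * U := by exact_mod_cast hm
          refine h6.trans (hUUx.trans ?_)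
          calc x ^ (1 / 5 : ℝ) ≤ x ^ (1 : ℝ) :=
                Real.rpow_le_rpow_of_exponent_le (by (clear * - hx3; linarith)) (by norm_num)
            _ = x := Real.rpow_one x) (by
        intro m hm
        exact h2.lo_mul_lo_zero U U m hm)).1
      refine h5.trans ?_
      apply mul_le_mul_of_nonneg_right _ hxh
      push_cast
      calc C3 * q * (U * U) * l * l = C3 * q * ((U * U) * l ^ 2) := by ring
        _ ≤ C3 * q * (x ^ (1 / 5 : ℝ) * l ^ 2) := by
            apply mul_le_mul_of_nonneg_left _ (by positivity)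
            exact mul_le_mul_of_nonneg_right hUUx (by positivity)
        _ = _ := by ring
    have e3 : SS LaC g x χ = SS (lo U muC * D zeC : ArithmeticFunction ℂ) g x χ -
        SS (lo U muC * lo U LaC * zeC : ArithmeticFunction ℂ) g x χ +
        SS (a * b : ArithmeticFunction ℂ) g x χ := by
      conv_lhs => rw [hV]
      rw [SS_add, SS_sub, SS_add, SS_lo hg hx3 hUx, zero_add]
    rw [e3]
    calc _ ≤ ‖SS (lo U muC * D zeC : ArithmeticFunction ℂ) g x χ -
          SS (lo U muC * lo U LaC * zeC : ArithmeticFunction ℂ) g x χ‖ +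
          ‖SS (a * b : ArithmeticFunction ℂ) g x χ‖ := norm_add_le _ _
      _ ≤ _ := by
          have := norm_sub_le (SS (lo U muC * D zeC : ArithmeticFunction ℂ) g x χ)
            (SS (lo U muC * lo U LaC * zeC : ArithmeticFunction ℂ) g x χ)
          (clear * - e1 e2 this; linarith)
  -- sum over q
  have hlB1 : 1 ≤ l ^ (2 * (A + 3)) := Real.one_le_rpow hl1 (by positivity)
  have hq_facts : ∀ q ∈ Ioc ⌊l ^ (2 * (A + 3))⌋₊ Q, 1 < q ∧ q ≤ Q ∧
      l ^ (2 * (A + 3)) < q := by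
    intro q hq
    rw [Finset.mem_Ioc] at hq
    have h5 : 1 ≤ ⌊l ^ (2 * (A + 3))⌋₊ := Nat.le_floor (by simpa using hlB1)
    exact ⟨by omega, hq.2, Nat.lt_of_floor_lt hq.1⟩
  have hterm : ∀ q ∈ Ioc ⌊l ^ (2 * (A + 3))⌋₊ Q,
      (1 / (q.totient : ℝ)) * ∑ χ ∈ prim q, ‖SS LaC g x χ‖ ≤
      2 * (C3 * x ^ (1 / 40 : ℝ) * (x ^ (1 / 5 : ℝ)) * l ^ 2 * x ^ (-(1 / 2) : ℝ)) +
        2 * l ^ (-(A + 3)) * ∑ χ ∈ prim q, ‖SS (a * b : ArithmeticFunction ℂ) g x χ‖ := by
    intro q hq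
    obtain ⟨hq1, hqQ, hqB⟩ := hq_facts q hq
    have hq0 : NeZero q := ⟨by omega⟩
    have hφ : (0 : ℝ) < q.totient := by exact_mod_cast Nat.totient_pos.2 (by omega : 0 < q)
    set E : ℝ := 2 * (C3 * q * (x ^ (1 / 5 : ℝ)) * l ^ 2 * x ^ (-(1 / 2) : ℝ)) with hE
    have hE0 : 0 ≤ E := by (clear * - hC3 hq1 hx3 hl1; positivity)
    have h5 : ∑ χ ∈ prim q, ‖SS LaC g x χ‖ ≤ q.totient * E +
        ∑ χ ∈ prim q, ‖SS (a * b : ArithmeticFunction ℂ) g x χ‖ := by
      calc ∑ χ ∈ prim q, ‖SS LaC g x χ‖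
          ≤ ∑ χ ∈ prim q, (E + ‖SS (a * b : ArithmeticFunction ℂ) g x χ‖) :=
            Finset.sum_le_sum (fun χ hχ => hpt q hq1 χ hχ)
        _ = (prim q).card * E + ∑ χ ∈ prim q, ‖SS (a * b : ArithmeticFunction ℂ) g x χ‖ := by
            rw [Finset.sum_add_distrib]; simp
        _ ≤ _ := by
            have : ((prim q).card : ℝ) ≤ q.totient := by exact_mod_cast card_prim_le q
            have := mul_le_mul_of_nonneg_right this hE0
            (clear * - this; linarith)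
    have hsum0 : 0 ≤ ∑ χ ∈ prim q, ‖SS (a * b : ArithmeticFunction ℂ) g x χ‖ :=
      Finset.sum_nonneg (fun _ _ => norm_nonneg _)
    have h6 : 1 / (q.totient : ℝ) ≤ 2 * l ^ (-(A + 3)) := by
      refine (inv_totient_le (by omega : 0 < q)).trans ?_
      have h7 : l ^ (A + 3) ≤ Real.sqrt q := by
        rw [Real.le_sqrt (by positivity) (by positivity), ← Real.rpow_natCast, ← Real.rpow_mul hl0.le]
        have : (A + 3) * ((2 : ℕ) : ℝ) = 2 * (A + 3) := by push_cast; ring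
        rw [this]
        exact hqB.le
      rw [Real.rpow_neg hl0.le, ← div_eq_mul_inv]
      exact div_le_div_of_nonneg_left (by norm_num) (by positivity) h7
    calc (1 / (q.totient : ℝ)) * ∑ χ ∈ prim q, ‖SS LaC g x χ‖
        ≤ (1 / (q.totient : ℝ)) * (q.totient * E +
          ∑ χ ∈ prim q, ‖SS (a * b : ArithmeticFunction ℂ) g x χ‖) :=
          mul_le_mul_of_nonneg_left h5 (by (clear * - hq1; positivity))
      _ = E + (1 / (q.totient : ℝ)) *
          ∑ χ ∈ prim q, ‖SS (a * b : ArithmeticFunction ℂ) g x χ‖ := by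
          (clear * - hq1; field_simp)
      _ ≤ _ := by
          apply add_le_add
          · rw [hE]
            have h8 : (q : ℝ) ≤ x ^ (1 / 40 : ℝ) := le_trans (by exact_mod_cast hqQ) hQx
            have h9 : C3 * (q : ℝ) ≤ C3 * x ^ (1 / 40 : ℝ) := mul_le_mul_of_nonneg_left h8 hC3.le
            have h10 : 0 ≤ (x ^ (1 / 5 : ℝ)) * l ^ 2 * x ^ (-(1 / 2) : ℝ) := by (clear * - hx3 hl1; positivity)
            have := mul_le_mul_of_nonneg_right h9 h10
            (clear * - this; nlinarith)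
          · exact mul_le_mul_of_nonneg_right h6 hsum0
  have hsub : Ioc ⌊l ^ (2 * (A + 3))⌋₊ Q ⊆ Icc 1 Q := by
    intro q hq
    rw [Finset.mem_Ioc] at hq
    exact Finset.mem_Icc.2 ⟨by omega, hq.2⟩
  set E' : ℝ := 2 * (C3 * x ^ (1 / 40 : ℝ) * (x ^ (1 / 5 : ℝ)) * l ^ 2 * x ^ (-(1 / 2) : ℝ))
    with hE'
  have hE'0 : 0 ≤ E' := by (clear * - hC3 hx3 hl1; positivity)
  clear_value E'
  calc ∑ q ∈ Ioc ⌊l ^ (2 * (A + 3))⌋₊ Q, (1 / (q.totient : ℝ)) * ∑ χ ∈ prim q, ‖SS LaC g x χ‖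
      ≤ ∑ q ∈ Ioc ⌊l ^ (2 * (A + 3))⌋₊ Q, (E' +
        2 * l ^ (-(A + 3)) * ∑ χ ∈ prim q, ‖SS (a * b : ArithmeticFunction ℂ) g x χ‖) :=
        Finset.sum_le_sum hterm
    _ ≤ ∑ q ∈ Icc 1 Q, (E' +
        2 * l ^ (-(A + 3)) * ∑ χ ∈ prim q, ‖SS (a * b : ArithmeticFunction ℂ) g x χ‖) := by
        refine Finset.sum_le_sum_of_subset_of_nonneg hsub (fun q _ _ => ?_)
        have : 0 ≤ ∑ χ ∈ prim q, ‖SS (a * b : ArithmeticFunction ℂ) g x χ‖ :=
          Finset.sum_nonneg (fun _ _ => norm_nonneg _)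
        (clear * - hE'0 hl1; positivity)
    _ = Q * E' + 2 * l ^ (-(A + 3)) *
        ∑ q ∈ Icc 1 Q, ∑ χ ∈ prim q, ‖SS (a * b : ArithmeticFunction ℂ) g x χ‖ := by
        rw [Finset.sum_add_distrib, ← Finset.mul_sum, Finset.sum_const, Nat.card_Icc,
          nsmul_eq_mul]
        norm_num
    _ ≤ x ^ (1 / 40 : ℝ) * E' + 2 * l ^ (-(A + 3)) * (C4 * l ^ 3) := by
        apply add_le_add
        · exact mul_le_mul_of_nonneg_right hQx hE'0
        · exact mul_le_mul_of_nonneg_left hT2 (by positivity)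
    _ ≤ 2 * C3 * l ^ (-A) + 2 * C4 * l ^ (-A) := by
        apply add_le_add
        · have h5 : x ^ (1 / 40 : ℝ) * E' = 2 * C3 * (x ^ (-(1 / 4) : ℝ) * l ^ 2) := by
            rw [hE']
            have h6 : x ^ (-(1 / 4) : ℝ) = x ^ (1 / 40 : ℝ) * x ^ (1 / 40 : ℝ) *
                x ^ (1 / 5 : ℝ) * x ^ (-(1 / 2) : ℝ) := by
              rw [← Real.rpow_add hx0, ← Real.rpow_add hx0, ← Real.rpow_add hx0]
              norm_num
            rw [h6]; ring
          rw [h5]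
          apply mul_le_mul_of_nonneg_left _ (by positivity)
          rw [Real.rpow_neg hx0.le, Real.rpow_neg hl0.le]
          have h7 : 0 < x ^ (1 / 4 : ℝ) := by positivity
          have h8 : 0 < l ^ A := by positivity
          rw [inv_mul_le_iff₀ h7, ← div_eq_mul_inv, le_div_iff₀ h8]
          calc l ^ 2 * l ^ A = l ^ (A + 2) := by
                rw [Real.rpow_add hl0, mul_comm]; norm_num
            _ ≤ _ := hxe
        · have h5 : l ^ (-(A + 3)) * l ^ 3 = l ^ (-A) := by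
            rw [← Real.rpow_natCast l 3, ← Real.rpow_add hl0]
            congr 1; push_cast; ring
          have h6 : 2 * l ^ (-(A + 3)) * (C4 * l ^ 3) = 2 * C4 * (l ^ (-(A + 3)) * l ^ 3) := by ring
          rw [h6, h5]
    _ = (2 * C3 + 2 * C4) / l ^ A := by
        rw [Real.rpow_neg hl0.le]; ring

end Pool.Agent.Helper96.BV

end

section

set_option autoImplicit false

open Finset Filter Topology

open scoped ArithmeticFunction.vonMangoldt

namespace Pool.Agent.Helper18.BV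

theorem IsWt.zero_of_le {g : ℝ → ℝ} (hg : IsWt g) {v : ℝ} (hv : v ≤ 1 / 2) : g v = 0 := by
  by_contra hne
  exact absurd (hg.supp (subset_tsupport g (Function.mem_support.2 hne))).1 (not_lt.2 hv)

theorem wt_nonneg {g : ℝ → ℝ} (hg : IsWt g) (x : ℝ) (n : ℕ) : 0 ≤ wt g x n :=
  div_nonneg (hg.nonneg _) (Nat.cast_nonneg _)

end Pool.Agent.Helper18.BV

end

section

set_option autoImplicit false

open Finset Filter Topology

open scoped ArithmeticFunction.vonMangoldt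

open Pool.Agent.Helper18.BV

namespace Pool.Agent.Helper51.BV

/-- The contribution of the integers which are not coprime to `d`. -/
noncomputable def EE (g : ℝ → ℝ) (x : ℝ) (d : ℕ) : ℝ :=
  ∑ n ∈ (Icc 1 ⌊x⌋₊).filter (fun n => ¬ Nat.Coprime n d), Λ n * wt g x n

theorem EE_nonneg {g : ℝ → ℝ} (hg : IsWt g) (x : ℝ) (d : ℕ) : 0 ≤ EE g x d :=
  Finset.sum_nonneg fun _ _ => mul_nonneg ArithmeticFunction.vonMangoldt_nonneg (wt_nonneg hg _ _)

theorem SS_sub_restr {g : ℝ → ℝ} (hg : IsWt g) (x : ℝ) {q : ℕ} (χ : DirichletCharacter ℂ q) (d : ℕ) :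
    ‖SS LaC g x χ - ∑ n ∈ (Icc 1 ⌊x⌋₊).filter (fun n => Nat.Coprime n d),
      LaC n * χ (n : ZMod q) * (wt g x n : ℂ)‖ ≤ EE g x d := by
  unfold SS EE
  rw [← Finset.sum_filter_add_sum_filter_not (Icc 1 ⌊x⌋₊) (fun n => Nat.Coprime n d),
    add_sub_cancel_left]
  refine (norm_sum_le _ _).trans (Finset.sum_le_sum fun n _ => ?_)
  rw [norm_mul, norm_mul, LaC_apply, Complex.norm_real, Complex.norm_real,
    Real.norm_of_nonneg ArithmeticFunction.vonMangoldt_nonneg,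
    Real.norm_of_nonneg (wt_nonneg hg _ _)]
  have h1 : ‖χ (n : ZMod q)‖ ≤ 1 := DirichletCharacter.norm_le_one χ _
  have h2 : 0 ≤ Λ n := ArithmeticFunction.vonMangoldt_nonneg
  have h3 := wt_nonneg hg x n
  exact mul_le_mul_of_nonneg_right (mul_le_of_le_one_right h2 h1) h3

theorem SS_full {g : ℝ → ℝ} (x : ℝ) {d : ℕ} (χ : DirichletCharacter ℂ d) :
    SS LaC g x χ = ∑ n ∈ (Icc 1 ⌊x⌋₊).filter (fun n => Nat.Coprime n d),
      LaC n * χ (n : ZMod d) * (wt g x n : ℂ) := by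
  unfold SS
  symm
  refine Finset.sum_subset (Finset.filter_subset _ _) ?_
  intro n hn hn'
  have h : ¬ IsUnit ((n : ZMod d)) := by
    rw [ZMod.isUnit_iff_coprime]
    exact fun h => hn' (Finset.mem_filter.mpr ⟨hn, h⟩)
  rw [χ.map_nonunit h, mul_zero, zero_mul]

theorem orth {g : ℝ → ℝ} (x : ℝ) {d : ℕ} [NeZero d] {c : ℕ} (hc : Nat.Coprime c d) :
    (d.totient : ℂ) * ((∑ n ∈ (Icc 1 ⌊x⌋₊).filter (fun n => n ≡ c [MOD d]),
      Λ n * wt g x n : ℝ) : ℂ) =
      ∑ χ : DirichletCharacter ℂ d, χ ((c : ZMod d)⁻¹) * SS LaC g x χ := by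
  have hu : IsUnit ((c : ZMod d)) := (ZMod.isUnit_iff_coprime c d).mpr hc
  unfold SS
  simp_rw [Finset.mul_sum]
  rw [Finset.sum_comm]
  have h1 : ∀ n ∈ Icc 1 ⌊x⌋₊, (∑ χ : DirichletCharacter ℂ d, χ ((c : ZMod d)⁻¹) *
      (LaC n * χ (n : ZMod d) * (wt g x n : ℂ))) =
      if n ≡ c [MOD d] then (d.totient : ℂ) * ((Λ n * wt g x n : ℝ) : ℂ) else 0 := by
    intro n _
    have h2 : (∑ χ : DirichletCharacter ℂ d, χ ((c : ZMod d)⁻¹) *
      (LaC n * χ (n : ZMod d) * (wt g x n : ℂ))) =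
      (∑ χ : DirichletCharacter ℂ d, χ ((c : ZMod d)⁻¹) * χ (n : ZMod d)) *
        (LaC n * (wt g x n : ℂ)) := by
      rw [Finset.sum_mul]
      refine Finset.sum_congr rfl fun χ _ => ?_
      ring
    rw [h2, DirichletCharacter.sum_char_inv_mul_char_eq ℂ hu]
    have h3 : ((c : ZMod d) = (n : ZMod d)) ↔ n ≡ c [MOD d] := by
      rw [eq_comm, ZMod.natCast_eq_natCast_iff]
    simp only [h3]
    split_ifs
    · rw [LaC_apply]; push_cast; ring
    · rw [zero_mul]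
  rw [Finset.sum_congr rfl h1, ← Finset.sum_filter]
  push_cast
  rw [Finset.mul_sum]

/-- The primitive characters inducing the nonprincipal characters modulo `d`. -/
theorem sum_prim_le {d : ℕ} [NeZero d] (F : (Σ q : ℕ, DirichletCharacter ℂ q) → ℝ)
    (hF : ∀ p, 0 ≤ F p) :
    ∑ χ ∈ (univ : Finset (DirichletCharacter ℂ d)).filter (fun χ => χ ≠ 1),
      F ⟨χ.conductor, χ.primitiveCharacter⟩ ≤
      ∑ q ∈ d.divisors.filter (fun q => 1 < q), ∑ ψ ∈ prim q, F ⟨q, ψ⟩ := by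
  classical
  have hrec : ∀ (p p' : Σ q : ℕ, DirichletCharacter ℂ q) (h : p.1 ∣ d) (h' : p'.1 ∣ d), p = p' →
      DirichletCharacter.changeLevel h p.2 = DirichletCharacter.changeLevel h' p'.2 := by
    rintro p _ h h' rfl; rfl
  set A := (univ : Finset (DirichletCharacter ℂ d)).filter (fun χ => χ ≠ 1) with hA
  have hinj : Set.InjOn (fun χ : DirichletCharacter ℂ d =>
      (⟨χ.conductor, χ.primitiveCharacter⟩ : Σ q : ℕ, DirichletCharacter ℂ q)) A := by
    intro χ _ χ' _ he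
    have := hrec _ _ χ.conductor_dvd_level χ'.conductor_dvd_level he
    rwa [χ.changeLevel_primitiveCharacter, χ'.changeLevel_primitiveCharacter] at this
  have h1 : ∑ χ ∈ A, F ⟨χ.conductor, χ.primitiveCharacter⟩ =
      ∑ p ∈ A.image (fun χ : DirichletCharacter ℂ d =>
        (⟨χ.conductor, χ.primitiveCharacter⟩ : Σ q : ℕ, DirichletCharacter ℂ q)), F p := by
    rw [Finset.sum_image hinj]
  rw [h1, Finset.sum_sigma']
  refine Finset.sum_le_sum_of_subset_of_nonneg ?_ (fun p _ _ => hF _)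
  intro p hp
  obtain ⟨χ, hχ, rfl⟩ := Finset.mem_image.mp hp
  rw [hA, Finset.mem_filter] at hχ
  have hdvd := χ.conductor_dvd_level
  have hd : d ≠ 0 := NeZero.ne d
  have h2 : χ.conductor ≠ 1 := fun h => hχ.2 (DirichletCharacter.eq_one_iff_conductor_eq_one.mpr h)
  have h3 : χ.conductor ≠ 0 := fun h => hd (by rw [h] at hdvd; exact zero_dvd_iff.mp hdvd)
  rw [Finset.mem_sigma, Finset.mem_filter, Nat.mem_divisors]
  have h4 : 1 < χ.conductor := by omega
  exact ⟨⟨⟨hdvd, hd⟩, h4⟩, mem_prim.mpr χ.primitiveCharacter_isPrimitive⟩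

end Pool.Agent.Helper51.BV

end
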