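import Mathlib

/-!
Parts of Helper1.MT.DefsU, Helper79.BV.Alt, Helper83.MT.Comb, Helper55.MT.Sqfree, Helper63.MT.SqfreeU
-/

namespace Pool.Agent.Helper1.MT
end Pool.Agent.Helper1.MT
namespace Pool.Agent.Helper18.BV
end Pool.Agent.Helper18.BV
namespace Pool.Agent.Helper55.MT
end Pool.Agent.Helper55.MT

section

set_option autoImplicit false

open Finset

open scoped ArithmeticFunction.vonMangoldt

namespace Pool.Agent.Helper1.MT

/-- MU-F: squarefree integers coprime to `W`, uniformly in `W`. -/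
def SqfreeSumU : Prop :=
  ∃ C : ℝ, 0 < C ∧ ∀ W : ℕ, 0 < W → ∃ c : ℝ, (W.totient : ℝ) / (4 * W) ≤ c ∧
    c ≤ (W.totient : ℝ) / W ∧ ∀ z : ℝ, 1 ≤ z →
      |∑ d ∈ (Icc 1 ⌊z⌋₊).filter (fun d => Squarefree d ∧ d.Coprime W), 1 / (d : ℝ) -
        c * Real.log z| ≤ C * ((W : ℝ) / W.totient) * (1 + Real.log W)

end Pool.Agent.Helper1.MT

end

section

set_option autoImplicit false

open Finset

open scoped ComplexOrder ArithmeticFunction.zeta

namespace Pool.Agent.Helper79.BV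

open Pool.Agent.Helper18.BV ArithmeticFunction

/-- The arithmetic function of a character. -/
noncomputable def A {q : ℕ} (χ : DirichletCharacter ℂ q) : ArithmeticFunction ℂ :=
  toArithmeticFunction (χ ·)

lemma A_apply {q : ℕ} (χ : DirichletCharacter ℂ q) {n : ℕ} (hn : n ≠ 0) :
    A χ n = χ (n : ZMod q) := (χ.apply_eq_toArithmeticFunction_apply hn).symm

lemma A_summable {q : ℕ} (χ : DirichletCharacter ℂ q) {s : ℂ} (hs : 1 < s.re) :
    LSeriesSummable (fun n => A χ n) s :=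
  (LSeriesSummable_congr _ fun h => (χ.apply_eq_toArithmeticFunction_apply h).symm).mpr <|
    DirichletCharacter.LSeriesSummable_of_one_lt_re χ hs

lemma A_LSeries {q : ℕ} [NeZero q] (χ : DirichletCharacter ℂ q) {s : ℂ} (hs : 1 < s.re) :
    LSeries (fun n => A χ n) s = DirichletCharacter.LFunction χ s := by
  rw [DirichletCharacter.LFunction_eq_LSeries χ hs]
  exact LSeries_congr (fun h => A_apply χ h) s

lemma zetaMul_eq {q : ℕ} (χ : DirichletCharacter ℂ q) :
    χ.zetaMul = ((ζ : ArithmeticFunction ℕ) : ArithmeticFunction ℂ) * A χ := rfl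

lemma zetaMul_LSeries {q : ℕ} [NeZero q] (χ : DirichletCharacter ℂ q) {s : ℂ} (hs : 1 < s.re) :
    LSeries (fun n => χ.zetaMul n) s = riemannZeta s * DirichletCharacter.LFunction χ s := by
  have hz : LSeriesSummable (fun n => ((ζ : ArithmeticFunction ℕ) : ArithmeticFunction ℂ) n) s := by
    have h := LSeriesSummable_zeta_iff.mpr hs
    refine (LSeriesSummable_congr _ fun {n} _ => ?_).mpr h
    rw [natCoe_apply]
  have hz' : LSeries (fun n => ((ζ : ArithmeticFunction ℕ) : ArithmeticFunction ℂ) n) s =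
      riemannZeta s := by
    rw [← LSeries_zeta_eq_riemannZeta hs]
    exact LSeries_congr (fun {n} _ => by rw [natCoe_apply]) s
  rw [zetaMul_eq, ArithmeticFunction.LSeries_mul' hz (A_summable χ hs), A_LSeries χ hs, hz']

/-- The twist of `1 * χ₁` by `χ₂`. -/
lemma twist_apply {q₁ q₂ q₃ : ℕ} (χ₁ : DirichletCharacter ℂ q₁)
    (χ₂ : DirichletCharacter ℂ q₂) (χ₃ : DirichletCharacter ℂ q₃)
    (h3 : ∀ n : ℕ, χ₃ (n : ZMod q₃) = χ₁ (n : ZMod q₁) * χ₂ (n : ZMod q₂)) (n : ℕ) :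
    (A χ₂ * A χ₃) n = χ₂ (n : ZMod q₂) * χ₁.zetaMul n := by
  rw [zetaMul_eq, mul_apply, mul_apply, Finset.mul_sum]
  apply Finset.sum_congr rfl
  intro x hx
  rw [Nat.mem_divisorsAntidiagonal] at hx
  have h0 : x.1 * x.2 ≠ 0 := by
    rw [hx.1]
    exact hx.2
  have h1 : x.1 ≠ 0 := left_ne_zero_of_mul h0
  have h2 : x.2 ≠ 0 := right_ne_zero_of_mul h0
  rw [A_apply χ₂ h1, A_apply χ₃ h2, A_apply χ₁ h2, h3, ← hx.1, natCoe_apply, zeta_apply_ne h1]
  push_cast
  rw [map_mul]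
  ring

lemma chi_cases {q : ℕ} {χ : DirichletCharacter ℂ q} (hχ : χ ^ 2 = 1) (n : ℕ) :
    χ (n : ZMod q) = 0 ∨ χ (n : ZMod q) = 1 ∨ χ (n : ZMod q) = -1 :=
  MulChar.isQuadratic_iff_sq_eq_one.mpr hχ n

lemma twist_prime_pow_nonneg {q₁ q₂ : ℕ} {χ₁ : DirichletCharacter ℂ q₁}
    {χ₂ : DirichletCharacter ℂ q₂} (h1 : χ₁ ^ 2 = 1) (h2 : χ₂ ^ 2 = 1) {p : ℕ} (hp : p.Prime)
    (h : χ₁ (p : ZMod q₁) = -1 ∨ 0 ≤ χ₂ (p : ZMod q₂)) (j : ℕ) :
    0 ≤ χ₂ ((p ^ j : ℕ) : ZMod q₂) * χ₁.zetaMul (p ^ j) := by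
  rcases h with h | h
  · have h3 : χ₁.zetaMul (p ^ j) = if Even (j + 1) then 0 else 1 := by
      rw [zetaMul_eq, coe_zeta_mul_apply, Nat.sum_divisors_prime_pow hp, ← neg_one_geom_sum]
      apply Finset.sum_congr rfl
      intro i _
      rw [A_apply χ₁ (pow_ne_zero i hp.ne_zero), Nat.cast_pow, map_pow, h]
    rw [h3]
    split_ifs with h4
    · simp
    · rw [mul_one]
      have h5 : Even j := by
        rw [Nat.even_add_one, not_not] at h4
        exact h4
      obtain ⟨m, rfl⟩ := h5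
      rw [← two_mul, Nat.cast_pow, map_pow, pow_mul]
      apply pow_nonneg
      rcases chi_cases h2 p with h6 | h6 | h6 <;> rw [h6] <;> simp
  · rw [Nat.cast_pow, map_pow]
    exact mul_nonneg (pow_nonneg h j) (DirichletCharacter.zetaMul_nonneg h1 _)

lemma conv_prime_pow_nonneg {q₁ q₂ q₃ : ℕ} {χ₁ : DirichletCharacter ℂ q₁}
    {χ₂ : DirichletCharacter ℂ q₂} {χ₃ : DirichletCharacter ℂ q₃} (h1 : χ₁ ^ 2 = 1)
    (h2 : χ₂ ^ 2 = 1)
    (h3 : ∀ n : ℕ, χ₃ (n : ZMod q₃) = χ₁ (n : ZMod q₁) * χ₂ (n : ZMod q₂)) {p : ℕ} (hp : p.Prime)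
    (h : χ₁ (p : ZMod q₁) = -1 ∨ 0 ≤ χ₂ (p : ZMod q₂)) (k : ℕ) :
    0 ≤ (χ₁.zetaMul * (A χ₂ * A χ₃)) (p ^ k) := by
  rw [mul_apply]
  apply Finset.sum_nonneg
  intro x hx
  rw [Nat.mem_divisorsAntidiagonal] at hx
  have h4 : x.2 ∣ p ^ k := ⟨x.1, by rw [mul_comm]; exact hx.1.symm⟩
  obtain ⟨j, -, hj⟩ := (Nat.dvd_prime_pow hp).1 h4
  rw [hj, twist_apply χ₁ χ₂ χ₃ h3]
  exact mul_nonneg (DirichletCharacter.zetaMul_nonneg h1 _)
    (twist_prime_pow_nonneg h1 h2 hp h j)

end Pool.Agent.Helper79.BV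

end

section

set_option autoImplicit false

open Finset

namespace Pool.Agent.Helper83.MT

open Pool.Agent.Helper1.MT

/-- Choice of a residue class with maximal error for every modulus. -/
theorem exists_max_class (e : ℕ → ℕ → ℝ) (he : ∀ d a, e d (a % d) = e d a) :
    ∃ c : ℕ → ℕ, (∀ d, Nat.Coprime (c d) d) ∧ ∀ d a, Nat.Coprime a d → e d a ≤ e d (c d) := by
  have h : ∀ d : ℕ, ∃ c : ℕ, Nat.Coprime c d ∧ ∀ a, Nat.Coprime a d → e d a ≤ e d c := by
    intro d
    rcases Nat.eq_zero_or_pos d with rfl | hd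
    · refine ⟨1, by simp, ?_⟩
      intro a ha
      rw [Nat.coprime_zero_right] at ha
      rw [ha]
    · obtain ⟨c, hc, hmax⟩ := Finset.exists_max_image
        ((range (d + 1)).filter (fun a => Nat.Coprime a d)) (e d)
        ⟨1, by rw [mem_filter, mem_range]; exact ⟨by omega, by simp⟩⟩
      rw [mem_filter] at hc
      refine ⟨c, hc.2, ?_⟩
      intro a ha
      rw [← he d a]
      apply hmax
      rw [mem_filter, mem_range]
      refine ⟨by have := Nat.mod_lt a hd; omega, ?_⟩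
      unfold Nat.Coprime at ha ⊢
      rw [← ha, Nat.gcd_comm a d, Nat.gcd_rec d a]
  choose c hc using h
  exact ⟨c, fun d => (hc d).1, fun d a ha => (hc d).2 a ha⟩

end Pool.Agent.Helper83.MT

end

section

set_option autoImplicit false

namespace Pool.Agent.Helper55.MT

open Finset Pool.Agent.Helper1.MT

open scoped ArithmeticFunction.Moebius

theorem alpha_le (W : ℕ) : (W.totient : ℝ) / W ≤ 1 := by
  rcases Nat.eq_zero_or_pos W with h | h
  · simp [h]
  · rw [div_le_one (by exact_mod_cast h)]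
    exact_mod_cast Nat.totient_le W

noncomputable def GG (W : ℕ) (t : ℝ) : ℝ :=
  ∑ n ∈ (Icc 1 ⌊t⌋₊).filter (fun n => n.Coprime W), 1 / (n : ℝ)

theorem dvd_of_sq_dvd {s a b : ℕ} (ha : Squarefree a) (hb : b ≠ 0) (h : s ^ 2 ∣ b ^ 2 * a) :
    s ∣ b := by
  have ha0 : a ≠ 0 := ha.ne_zero
  have hs : s ≠ 0 := by
    rintro rfl
    rw [zero_pow (by norm_num), zero_dvd_iff] at h
    rcases Nat.mul_eq_zero.1 h with h | h
    · exact hb (pow_eq_zero_iff (by norm_num) |>.1 h)
    · exact ha0 h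
  rw [← Nat.factorization_le_iff_dvd hs hb]
  intro p
  have h1 := (Nat.factorization_le_iff_dvd (by positivity) (by positivity)).2 h p
  rw [Nat.factorization_mul (by positivity) ha0, Nat.factorization_pow, Nat.factorization_pow] at h1
  simp only [Finsupp.coe_add, Pi.add_apply, Finsupp.coe_smul, Pi.smul_apply, smul_eq_mul] at h1
  have h2 := (Nat.squarefree_iff_factorization_le_one ha0).1 ha p
  omega

theorem sum_moebius (n N : ℕ) (hn : 0 < n) (hN : ∀ s, s ^ 2 ≤ n → s ≤ N) :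
    ∑ s ∈ (Icc 1 N).filter (fun s => s ^ 2 ∣ n), (μ s : ℝ) = if Squarefree n then 1 else 0 := by
  obtain ⟨a, b, hab, ha⟩ := Nat.sq_mul_squarefree n
  have hb : b ≠ 0 := by
    rintro rfl
    rw [zero_pow (by norm_num), zero_mul] at hab
    omega
  have h1 : (Icc 1 N).filter (fun s => s ^ 2 ∣ n) = b.divisors := by
    ext s
    simp only [Finset.mem_filter, Finset.mem_Icc, Nat.mem_divisors]
    constructor
    · rintro ⟨⟨h1, h2⟩, h3⟩
      exact ⟨dvd_of_sq_dvd ha hb (hab ▸ h3), hb⟩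
    · rintro ⟨h1, h2⟩
      have h3 : s ^ 2 ∣ n := by
        rw [← hab]
        exact (pow_dvd_pow_of_dvd h1 2).mul_right a
      refine ⟨⟨Nat.pos_of_dvd_of_pos h1 (Nat.pos_of_ne_zero hb), hN s (Nat.le_of_dvd hn h3)⟩, h3⟩
  rw [h1]
  have h2 : ∑ s ∈ b.divisors, (μ s : ℝ) = if b = 1 then 1 else 0 := by
    have h4 : ∑ s ∈ b.divisors, μ s = if b = 1 then 1 else 0 := by
      rw [← ArithmeticFunction.coe_zeta_mul_apply, ArithmeticFunction.coe_zeta_mul_moebius,
        ArithmeticFunction.one_apply]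
    rw [← Int.cast_sum, h4]
    split_ifs <;> simp
  rw [h2]
  congr 1
  apply propext
  constructor
  · rintro rfl
    rw [one_pow, one_mul] at hab
    rw [← hab]
    exact ha
  · intro h
    have h3 : b * b ∣ n := by
      rw [← hab, sq]
      exact Dvd.intro _ rfl
    exact Nat.isUnit_iff.1 (h b h3)

theorem inner_sum (W s : ℕ) (z : ℝ) (hs : 1 ≤ s) (hz : 0 ≤ z) :
    ∑ d ∈ ((Icc 1 ⌊z⌋₊).filter (fun d => d.Coprime W)).filter (fun d => s ^ 2 ∣ d), 1 / (d : ℝ) =
      if s.Coprime W then 1 / (s : ℝ) ^ 2 * GG W (z / (s : ℝ) ^ 2) else 0 := by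
  have hs0 : (0 : ℝ) < (s : ℝ) ^ 2 := by positivity
  split_ifs with hc
  · unfold GG
    rw [Finset.mul_sum]
    have h1 : ((Icc 1 ⌊z⌋₊).filter (fun d => d.Coprime W)).filter (fun d => s ^ 2 ∣ d) =
        ((Icc 1 ⌊z / (s : ℝ) ^ 2⌋₊).filter (fun n => n.Coprime W)).image (fun m => s ^ 2 * m) := by
      ext d
      simp only [Finset.mem_filter, Finset.mem_Icc, Finset.mem_image]
      constructor
      · rintro ⟨⟨⟨h1, h2⟩, h3⟩, m, rfl⟩
        refine ⟨m, ⟨⟨?_, ?_⟩, ?_⟩, rfl⟩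
        · rcases Nat.eq_zero_or_pos m with h | h
          · simp [h] at h1
          · exact h
        · rw [Nat.le_floor_iff (by (clear * - hz hs; positivity)), le_div_iff₀ hs0]
          rw [Nat.le_floor_iff hz] at h2
          push_cast at h2
          (clear * - h2; linarith)
        · exact Nat.Coprime.coprime_dvd_left (Dvd.intro_left _ rfl) h3
      · rintro ⟨m, ⟨⟨h1, h2⟩, h3⟩, rfl⟩
        refine ⟨⟨⟨?_, ?_⟩, ?_⟩, Dvd.intro _ rfl⟩
        · have : 0 < s ^ 2 * m := by positivity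
          omega
        · rw [Nat.le_floor_iff (by positivity), le_div_iff₀ hs0] at h2
          rw [Nat.le_floor_iff hz]
          push_cast
          (clear * - h2; linarith)
        · exact Nat.Coprime.mul_left (hc.pow_left 2) h3
    rw [h1, Finset.sum_image]
    · apply Finset.sum_congr rfl
      intro m _
      push_cast
      rw [one_div_mul_one_div]
    · intro x _ y _ hxy
      exact Nat.eq_of_mul_eq_mul_left (by positivity) hxy
  · apply Finset.sum_eq_zero
    intro d hd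
    exfalso
    simp only [Finset.mem_filter] at hd
    apply hc
    exact Nat.Coprime.coprime_dvd_left ((dvd_pow_self s two_ne_zero).trans hd.2) hd.1.2

noncomputable def aa (W s : ℕ) : ℝ := if s.Coprime W then (μ s : ℝ) / (s : ℝ) ^ 2 else 0

theorem QQ_eq (W N : ℕ) (z : ℝ) (hz : 0 ≤ z) (hN : ∀ s : ℕ, (s : ℝ) ^ 2 ≤ z → s ≤ N) :
    ∑ d ∈ (Icc 1 ⌊z⌋₊).filter (fun d => Squarefree d ∧ d.Coprime W), 1 / (d : ℝ) =
      ∑ s ∈ Icc 1 N, aa W s * GG W (z / (s : ℝ) ^ 2) := by
  have h1 : (Icc 1 ⌊z⌋₊).filter (fun d => Squarefree d ∧ d.Coprime W) =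
      ((Icc 1 ⌊z⌋₊).filter (fun d => d.Coprime W)).filter (fun d => Squarefree d) := by
    rw [Finset.filter_filter]
    apply Finset.filter_congr
    intro x _
    exact and_comm
  rw [h1, Finset.sum_filter (s := (Icc 1 ⌊z⌋₊).filter (fun d => d.Coprime W))]
  have h2 : ∀ d ∈ (Icc 1 ⌊z⌋₊).filter (fun d => d.Coprime W),
      (if Squarefree d then 1 / (d : ℝ) else 0) =
        ∑ s ∈ Icc 1 N, if s ^ 2 ∣ d then (μ s : ℝ) * (1 / (d : ℝ)) else 0 := by
    intro d hd
    simp only [Finset.mem_filter, Finset.mem_Icc] at hd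
    rw [← Finset.sum_filter, ← Finset.sum_mul, sum_moebius d N (by omega)]
    · split_ifs <;> simp
    · intro s hs
      apply hN
      have h3 := (Nat.le_floor_iff hz).1 hd.1.2
      have h4 : ((s ^ 2 : ℕ) : ℝ) ≤ d := by exact_mod_cast hs
      push_cast at h4
      (clear * - h3 h4; linarith)
  rw [Finset.sum_congr rfl h2, Finset.sum_comm]
  apply Finset.sum_congr rfl
  intro s hs
  rw [← Finset.sum_filter, ← Finset.mul_sum, inner_sum W s z (Finset.mem_Icc.1 hs).1 hz]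
  unfold aa
  split_ifs
  · ring
  · simp

theorem abs_aa_le (W s : ℕ) : |aa W s| ≤ 1 / (s : ℝ) ^ 2 := by
  unfold aa
  split_ifs
  · rw [abs_div, abs_of_nonneg (by positivity : (0 : ℝ) ≤ (s : ℝ) ^ 2)]
    apply div_le_div_of_nonneg_right _ (by (clear * -; positivity))
    have := ArithmeticFunction.abs_moebius_le_one (n := s)
    exact_mod_cast this
  · simp

theorem summable_aa (W : ℕ) : Summable (aa W) :=
  Summable.of_norm_bounded hasSum_zeta_two.summable fun s => by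
    rw [Real.norm_eq_abs]
    exact abs_aa_le W s

theorem zeta_two_le : Real.pi ^ 2 / 6 ≤ 1.645 := by
  have h1 := Real.pi_lt_d4
  have h2 := Real.pi_pos
  nlinarith

theorem sum_sq_le (N : ℕ) : ∑ s ∈ Icc 1 N, 1 / (s : ℝ) ^ 2 ≤ 2 := by
  have h1 := hasSum_zeta_two.summable.sum_le_tsum (Icc 1 N) fun s _ => by (clear * -; positivity)
  rw [hasSum_zeta_two.tsum_eq] at h1
  have := zeta_two_le
  linarith

theorem tsum_aa_ge (W : ℕ) : 1 / 4 ≤ ∑' s, aa W s := by
  have h0 : aa W 0 = 0 := by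
    unfold aa
    split_ifs <;> simp
  have h1 : aa W 1 = 1 := by simp [aa]
  have h2 : ∑' s, aa W s = aa W 0 + aa W 1 + ∑' s, aa W (s + 2) := by
    rw [← (summable_aa W).sum_add_tsum_nat_add 2]
    simp [Finset.sum_range_succ]
  have h3 : Real.pi ^ 2 / 6 = 0 + 1 + ∑' s : ℕ, 1 / (((s + 2 : ℕ) : ℝ)) ^ 2 := by
    rw [← hasSum_zeta_two.tsum_eq, ← hasSum_zeta_two.summable.sum_add_tsum_nat_add 2]
    simp [Finset.sum_range_succ]
  have h4 : |∑' s, aa W (s + 2)| ≤ ∑' s : ℕ, 1 / (((s + 2 : ℕ) : ℝ)) ^ 2 := by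
    have h5 : Summable fun s : ℕ => 1 / (((s + 2 : ℕ) : ℝ)) ^ 2 :=
      (summable_nat_add_iff 2).2 hasSum_zeta_two.summable
    exact tsum_of_norm_bounded h5.hasSum fun s => by
      rw [Real.norm_eq_abs]
      exact abs_aa_le W (s + 2)
  have h5 := zeta_two_le
  have h6 := abs_le.1 h4
  rw [h2, h0, h1]
  (clear * - h3 h5 h6; linarith [h6.1])

theorem tail_aa (W N : ℕ) : |∑ s ∈ Icc 1 N, aa W s - ∑' s, aa W s| ≤ 2 / ((N : ℝ) + 1) := by
  have h0 : aa W 0 = 0 := by
    unfold aa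
    split_ifs <;> simp
  have h1 : ∑ s ∈ Icc 1 N, aa W s = ∑ s ∈ range (N + 1), aa W s := by
    rw [Finset.range_eq_Ico, Finset.sum_eq_sum_Ico_succ_bot (by omega), h0, zero_add]
    apply Finset.sum_congr _ fun _ _ => rfl
    ext x
    simp only [Finset.mem_Ico, Finset.mem_Icc]
    omega
  rw [h1]
  have h2 : Filter.Tendsto (fun n => |∑ s ∈ range (N + 1), aa W s - ∑ s ∈ range n, aa W s|)
      Filter.atTop (nhds |∑ s ∈ range (N + 1), aa W s - ∑' s, aa W s|) :=
    (((summable_aa W).hasSum.tendsto_sum_nat).const_sub _).abs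
  refine le_of_tendsto h2 ?_
  filter_upwards [Filter.eventually_ge_atTop (N + 1)] with n hn
  rw [← Finset.sum_range_add_sum_Ico _ hn]
  have h3 : ∑ s ∈ range (N + 1), aa W s -
      (∑ s ∈ range (N + 1), aa W s + ∑ s ∈ Ico (N + 1) n, aa W s) =
      -∑ s ∈ Ico (N + 1) n, aa W s := by ring
  rw [h3, abs_neg]
  refine (Finset.abs_sum_le_sum_abs _ _).trans ?_
  have h4 : ∑ s ∈ Ico (N + 1) n, |aa W s| ≤ ∑ s ∈ Ioo N n, ((s : ℝ) ^ 2)⁻¹ := by
    have h5 : Ico (N + 1) n = Ioo N n := by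
      ext x
      simp only [Finset.mem_Ico, Finset.mem_Ioo]
      omega
    rw [h5]
    refine Finset.sum_le_sum fun s _ => ?_
    rw [← one_div]
    exact abs_aa_le W s
  exact h4.trans (sum_Ioo_inv_sq_le N n)

theorem log_le_two_sqrt {x : ℝ} (hx : 0 < x) : Real.log x ≤ 2 * Real.sqrt x := by
  have h1 : Real.log x = 2 * Real.log (Real.sqrt x) := by
    rw [Real.log_sqrt hx.le]
    ring
  have h2 := Real.log_le_sub_one_of_pos (Real.sqrt_pos.2 hx)
  rw [h1]
  (clear * - h2; linarith)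

theorem exists_log_bound : ∃ B : ℝ, 0 ≤ B ∧ ∀ N : ℕ,
    ∑ s ∈ Icc 1 N, Real.log s / (s : ℝ) ^ 2 ≤ B := by
  have h1 : Summable fun s : ℕ => 2 * (1 / (s : ℝ) ^ (3 / 2 : ℝ)) :=
    (Real.summable_one_div_nat_rpow.2 (by norm_num)).mul_left 2
  refine ⟨∑' s : ℕ, 2 * (1 / (s : ℝ) ^ (3 / 2 : ℝ)), tsum_nonneg fun s => by (clear * -; positivity),
    fun N => ?_⟩
  refine le_trans (Finset.sum_le_sum fun s hs => ?_)
    (h1.sum_le_tsum (Icc 1 N) fun s _ => by (clear * -; positivity))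
  have hs1 : (1 : ℝ) ≤ s := by exact_mod_cast (Finset.mem_Icc.1 hs).1
  have hs0 : (0 : ℝ) < s := by linarith
  have h2 := log_le_two_sqrt hs0
  rw [div_le_iff₀ (by positivity)]
  have h3 : (s : ℝ) ^ 2 = (s : ℝ) ^ (3 / 2 : ℝ) * Real.sqrt s := by
    rw [Real.sqrt_eq_rpow, ← Real.rpow_add hs0, ← Real.rpow_natCast]
    norm_num
  rw [h3]
  have h4 : (0 : ℝ) < (s : ℝ) ^ (3 / 2 : ℝ) := Real.rpow_pos_of_pos hs0 _
  calc Real.log s ≤ 2 * Real.sqrt s := h2
    _ = _ := by (clear * - hs1; field_simp)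

end Pool.Agent.Helper55.MT

end

section

set_option autoImplicit false

namespace Pool.Agent.Helper63.MT

open Finset Pool.Agent.Helper1.MT Pool.Agent.Helper55.MT

open scoped ArithmeticFunction.Moebius

/-- The product of the primes dividing `W`. -/
def rd (W : ℕ) : ℕ := ∏ p ∈ W.primeFactors, p

theorem rd_primeFactors (W : ℕ) : (rd W).primeFactors = W.primeFactors :=
  Nat.primeFactors_prod_primeFactors W

theorem rd_squarefree (W : ℕ) : Squarefree (rd W) := by
  refine Finset.squarefree_prod_of_pairwise_isCoprime (fun p hp q hq hpq ↦ ?_)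
    fun p hp ↦ (Nat.prime_of_mem_primeFactors hp).squarefree
  simp only [← Nat.coprime_iff_isRelPrime]
  exact (Nat.coprime_primes (Nat.prime_of_mem_primeFactors hp)
    (Nat.prime_of_mem_primeFactors hq)).mpr hpq

theorem rd_dvd (W : ℕ) : rd W ∣ W := Nat.prod_primeFactors_dvd W

theorem coprime_rd {W : ℕ} (hW : 0 < W) (n : ℕ) : n.Coprime (rd W) ↔ n.Coprime W := by
  constructor
  · intro h
    rw [Nat.coprime_comm, Nat.coprime_iff_gcd_eq_one] at h ⊢
    by_contra hne
    obtain ⟨p, hp, hpd⟩ := Nat.exists_prime_and_dvd hne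
    have h1 : p ∣ W := hpd.trans (Nat.gcd_dvd_left _ _)
    have h2 : p ∣ n := hpd.trans (Nat.gcd_dvd_right _ _)
    have h3 : p ∣ rd W :=
      Finset.dvd_prod_of_mem _ (Nat.mem_primeFactors.2 ⟨hp, h1, hW.ne'⟩)
    have h4 : p ∣ (rd W).gcd n := Nat.dvd_gcd h3 h2
    rw [h] at h4
    exact hp.one_lt.ne' (Nat.dvd_one.1 h4)
  · intro h
    exact h.coprime_dvd_right (rd_dvd W)

/-- The function `n ↦ 1 / n`. -/
noncomputable def iv : ArithmeticFunction ℝ := ⟨fun n => (n : ℝ)⁻¹, by simp⟩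

theorem iv_apply (n : ℕ) : iv n = (n : ℝ)⁻¹ := rfl

theorem iv_mult : iv.IsMultiplicative := by
  refine ⟨by simp [iv_apply], fun {m n} _ => ?_⟩
  rw [iv_apply, iv_apply, iv_apply, Nat.cast_mul, mul_inv]

theorem totient_eq (W : ℕ) (hW : 0 < W) :
    (W.totient : ℝ) / W = ∏ p ∈ W.primeFactors, (1 - (p : ℝ)⁻¹) := by
  have h := Nat.totient_eq_mul_prod_factors W
  have h2 : (W.totient : ℝ) = W * ∏ p ∈ W.primeFactors, (1 - (p : ℝ)⁻¹) := by
    have h3 := congrArg (Rat.cast : ℚ → ℝ) h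
    push_cast at h3
    exact h3
  rw [h2]
  have : (W : ℝ) ≠ 0 := by positivity
  (clear * - this; field_simp)

theorem sum_mu (W : ℕ) (hW : 0 < W) :
    ∑ e ∈ (rd W).divisors, (μ e : ℝ) * (e : ℝ)⁻¹ = (W.totient : ℝ) / W := by
  rw [totient_eq W hW]
  have h := ArithmeticFunction.IsMultiplicative.prodPrimeFactors_one_sub_of_squarefree iv iv_mult
    (rd_squarefree W)
  rw [rd_primeFactors] at h
  simp only [iv_apply] at h
  rw [h]

theorem sum_inv_le (W : ℕ) (hW : 0 < W) :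
    ∑ e ∈ (rd W).divisors, (e : ℝ)⁻¹ ≤ (W : ℝ) / W.totient := by
  have h := ArithmeticFunction.IsMultiplicative.prodPrimeFactors_one_add_of_squarefree iv_mult
    (rd_squarefree W)
  rw [rd_primeFactors] at h
  simp only [iv_apply] at h
  rw [← h]
  have h2 : (W : ℝ) / W.totient = ∏ p ∈ W.primeFactors, (1 - (p : ℝ)⁻¹)⁻¹ := by
    rw [Finset.prod_inv_distrib, ← totient_eq W hW, inv_div]
  rw [h2]
  apply Finset.prod_le_prod
  · intro p _
    (clear * -; positivity)
  · intro p hp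
    have hp2 : (2 : ℝ) ≤ p := by
      exact_mod_cast (Nat.prime_of_mem_primeFactors hp).two_le
    have h3 : (p : ℝ)⁻¹ ≤ 1 / 2 := by
      rw [← one_div]
      exact one_div_le_one_div_of_le (by norm_num) hp2
    have h4 : (0 : ℝ) < 1 - (p : ℝ)⁻¹ := by (clear * - h3; linarith)
    have h5 : (0 : ℝ) ≤ (p : ℝ)⁻¹ := by (clear * - hp2; positivity)
    rw [← one_div (1 - (p : ℝ)⁻¹), le_div_iff₀ h4]
    (clear * - h5; nlinarith)

/-- The harmonic sum. -/
noncomputable def HH (y : ℝ) : ℝ := ∑ n ∈ Icc 1 ⌊y⌋₊, 1 / (n : ℝ)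

theorem HH_bound {y : ℝ} (hy : 1 ≤ y) : |HH y - Real.log y| ≤ 1 := by
  have h1 := harmonic_floor_le_one_add_log y hy
  have h2 := log_le_harmonic_floor y (by (clear * - hy; linarith))
  have h3 : HH y = (harmonic ⌊y⌋₊ : ℝ) := by
    unfold HH
    rw [harmonic_eq_sum_Icc]
    push_cast
    apply Finset.sum_congr rfl
    intro n _
    rw [one_div]
  rw [h3, abs_le]
  constructor <;> linarith

theorem HH_small {y : ℝ} (hy : y < 1) : HH y = 0 := by
  unfold HH
  have : ⌊y⌋₊ = 0 := Nat.floor_eq_zero.2 hy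
  rw [this]
  rfl

theorem indicator (W n : ℕ) (hW : 0 < W) (hn : 0 < n) :
    ∑ e ∈ (rd W).divisors.filter (fun e => e ∣ n), (μ e : ℝ) =
      if n.Coprime W then 1 else 0 := by
  have hr : rd W ≠ 0 := (rd_squarefree W).ne_zero
  have h1 : (rd W).divisors.filter (fun e => e ∣ n) = ((rd W).gcd n).divisors := by
    ext e
    simp only [Finset.mem_filter, Nat.mem_divisors, Nat.dvd_gcd_iff]
    constructor
    · rintro ⟨⟨h1, h2⟩, h3⟩
      exact ⟨⟨h1, h3⟩, (Nat.gcd_pos_of_pos_right _ hn).ne'⟩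
    · rintro ⟨⟨h1, h3⟩, h2⟩
      exact ⟨⟨h1, hr⟩, h3⟩
  rw [h1]
  have h4 : ∑ s ∈ ((rd W).gcd n).divisors, μ s = if (rd W).gcd n = 1 then 1 else 0 := by
    rw [← ArithmeticFunction.coe_zeta_mul_apply, ArithmeticFunction.coe_zeta_mul_moebius,
      ArithmeticFunction.one_apply]
  rw [← Int.cast_sum, h4]
  have h5 : (rd W).gcd n = 1 ↔ n.Coprime W := by
    rw [← coprime_rd hW, Nat.coprime_comm]
  by_cases hc : n.Coprime W
  · rw [if_pos (h5.2 hc), if_pos hc]
    simp
  · rw [if_neg (fun h => hc (h5.1 h)), if_neg hc]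
    simp

theorem sum_dvd (e : ℕ) (he : 0 < e) (t : ℝ) (ht : 0 ≤ t) :
    ∑ n ∈ (Icc 1 ⌊t⌋₊).filter (fun n => e ∣ n), 1 / (n : ℝ) = (e : ℝ)⁻¹ * HH (t / e) := by
  have he0 : (0 : ℝ) < e := by exact_mod_cast he
  unfold HH
  rw [Finset.mul_sum]
  have h1 : (Icc 1 ⌊t⌋₊).filter (fun n => e ∣ n) =
      (Icc 1 ⌊t / (e : ℝ)⌋₊).image (fun m => e * m) := by
    ext d
    simp only [Finset.mem_filter, Finset.mem_Icc, Finset.mem_image]
    constructor
    · rintro ⟨⟨h1, h2⟩, m, rfl⟩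
      refine ⟨m, ⟨?_, ?_⟩, rfl⟩
      · rcases Nat.eq_zero_or_pos m with h | h
        · simp [h] at h1
        · exact h
      · rw [Nat.le_floor_iff (by (clear * - ht he; positivity)), le_div_iff₀ he0]
        rw [Nat.le_floor_iff ht] at h2
        push_cast at h2
        (clear * - h2; linarith)
    · rintro ⟨m, ⟨h1, h2⟩, rfl⟩
      refine ⟨⟨?_, ?_⟩, Dvd.intro _ rfl⟩
      · have : 0 < e * m := by positivity
        omega
      · rw [Nat.le_floor_iff (by (clear * - ht he; positivity)), le_div_iff₀ he0] at h2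
        rw [Nat.le_floor_iff ht]
        push_cast
        (clear * - h2; linarith)
  rw [h1, Finset.sum_image]
  · apply Finset.sum_congr rfl
    intro m _
    push_cast
    rw [← one_div_mul_one_div, one_div (e : ℝ)]
  · intro x _ y _ hxy
    exact Nat.eq_of_mul_eq_mul_left he hxy

theorem GG_expand (W : ℕ) (hW : 0 < W) (t : ℝ) (ht : 0 ≤ t) :
    GG W t = ∑ e ∈ (rd W).divisors, (μ e : ℝ) * ((e : ℝ)⁻¹ * HH (t / e)) := by
  unfold GG
  rw [Finset.sum_filter]
  have h1 : ∀ n ∈ Icc 1 ⌊t⌋₊, (if n.Coprime W then 1 / (n : ℝ) else 0) =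
      ∑ e ∈ (rd W).divisors, if e ∣ n then (μ e : ℝ) * (1 / (n : ℝ)) else 0 := by
    intro n hn
    rw [← Finset.sum_filter, ← Finset.sum_mul, indicator W n hW (Finset.mem_Icc.1 hn).1]
    split_ifs <;> simp
  rw [Finset.sum_congr rfl h1, Finset.sum_comm]
  apply Finset.sum_congr rfl
  intro e he
  rw [← Finset.sum_filter, ← Finset.mul_sum, sum_dvd e (Nat.pos_of_mem_divisors he) t ht]

theorem one_le_ratio (W : ℕ) (hW : 0 < W) : (1 : ℝ) ≤ (W : ℝ) / W.totient := by
  have h : (0 : ℝ) < W.totient := by exact_mod_cast Nat.totient_pos.2 hW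
  rw [one_le_div h]
  exact_mod_cast Nat.totient_le W

theorem log_nat_nonneg (W : ℕ) : 0 ≤ Real.log W := Real.log_natCast_nonneg W

/-- The main estimate, with an error which is explicit in `W`. -/
theorem GG_bound (W : ℕ) (hW : 0 < W) (t : ℝ) (ht : 1 ≤ t) :
    |GG W t - (W.totient : ℝ) / W * Real.log t| ≤
      (W : ℝ) / W.totient * (1 + Real.log W) := by
  rw [GG_expand W hW t (by (clear * - ht; linarith)), ← sum_mu W hW, Finset.sum_mul, ← Finset.sum_sub_distrib]
  refine (Finset.abs_sum_le_sum_abs _ _).trans ?_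
  refine le_trans (Finset.sum_le_sum (g := fun e : ℕ => (e : ℝ)⁻¹ * (1 + Real.log W))
    fun e he => ?_) ?_
  · have he1 : 1 ≤ e := Nat.pos_of_mem_divisors he
    have he2 : e ≤ W := Nat.le_of_dvd hW ((Nat.dvd_of_mem_divisors he).trans (rd_dvd W))
    have he1' : (1 : ℝ) ≤ e := by exact_mod_cast he1
    have he2' : (e : ℝ) ≤ W := by exact_mod_cast he2
    have he0 : (0 : ℝ) < e := by (clear * - he1'; linarith)
    have hle : 0 ≤ Real.log e := Real.log_nonneg he1'
    have hlW : Real.log e ≤ Real.log W := Real.log_le_log he0 he2'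
    have hlt : 0 ≤ Real.log t := Real.log_nonneg ht
    have h1 : (μ e : ℝ) * ((e : ℝ)⁻¹ * HH (t / e)) - (μ e : ℝ) * (e : ℝ)⁻¹ * Real.log t =
        (μ e : ℝ) * ((e : ℝ)⁻¹ * (HH (t / e) - Real.log t)) := by ring
    rw [h1, abs_mul, abs_mul, abs_of_nonneg (by positivity : (0 : ℝ) ≤ (e : ℝ)⁻¹)]
    have h2 : |(μ e : ℝ)| ≤ 1 := by
      have := ArithmeticFunction.abs_moebius_le_one (n := e)
      exact_mod_cast this
    have h3 : |HH (t / e) - Real.log t| ≤ 1 + Real.log W := by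
      rcases le_or_gt (e : ℝ) t with h | h
      · have h4 := HH_bound ((one_le_div he0).2 h)
        rw [Real.log_div (by (clear * - ht; linarith)) he0.ne'] at h4
        rw [abs_le] at h4 ⊢
        constructor <;> (clear * - hlW h4 hle; linarith [h4.1, h4.2])
      · rw [HH_small ((div_lt_one he0).2 h), zero_sub, abs_neg, abs_of_nonneg hlt]
        have h4 : Real.log t ≤ Real.log e := Real.log_le_log (by (clear * - ht; linarith)) h.le
        (clear * - hlW h4; linarith)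
    calc |(μ e : ℝ)| * ((e : ℝ)⁻¹ * |HH (t / e) - Real.log t|)
        ≤ 1 * ((e : ℝ)⁻¹ * (1 + Real.log W)) := by
          apply mul_le_mul h2 _ (by (clear * - he1; positivity)) (by norm_num)
          exact mul_le_mul_of_nonneg_left h3 (by positivity)
      _ = (e : ℝ)⁻¹ * (1 + Real.log W) := one_mul _
  · rw [← Finset.sum_mul]
    apply mul_le_mul_of_nonneg_right (sum_inv_le W hW)
    have := log_nat_nonneg W
    (clear * - this; linarith)

theorem sqfreeSumU : SqfreeSumU := by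
  obtain ⟨B, hB0, hB⟩ := exists_log_bound
  refine ⟨2 * B + 6, by linarith, fun W hW => ?_⟩
  have ha0 : (0 : ℝ) < (W.totient : ℝ) / W := by
    have := Nat.totient_pos.2 hW
    (clear * - hW; positivity)
  have ha1 := alpha_le W
  have hT := tsum_aa_ge W
  set E : ℝ := (W : ℝ) / W.totient * (1 + Real.log W) with hE
  have hE1 : 1 ≤ E := by
    have h1 := one_le_ratio W hW
    have h2 := log_nat_nonneg W
    rw [hE]
    (clear * - h1 h2; nlinarith)
  have main : ∀ z : ℝ, 1 ≤ z →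
      |∑ d ∈ (Icc 1 ⌊z⌋₊).filter (fun d => Squarefree d ∧ d.Coprime W), 1 / (d : ℝ) -
        (W.totient : ℝ) / W * (∑' s, aa W s) * Real.log z| ≤ 2 * E + 2 * B + 4 := by
    intro z hz
    have hz0 : 0 < z := by (clear * - hz; linarith)
    have hlog : 0 ≤ Real.log z := Real.log_nonneg hz
    set N := ⌊Real.sqrt z⌋₊ with hN
    have hN1 : ∀ s : ℕ, (s : ℝ) ^ 2 ≤ z → s ≤ N := by
      intro s hs
      rw [hN, Nat.le_floor_iff (Real.sqrt_nonneg z)]
      exact Real.le_sqrt_of_sq_le hs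
    have hN2 : ∀ s ∈ Icc 1 N, (s : ℝ) ^ 2 ≤ z := by
      intro s hs
      have h1 := (Nat.le_floor_iff (Real.sqrt_nonneg z)).1 (Finset.mem_Icc.1 hs).2
      calc (s : ℝ) ^ 2 ≤ Real.sqrt z ^ 2 := by (clear * - h1; gcongr)
        _ = z := Real.sq_sqrt hz0.le
    rw [QQ_eq W N z hz0.le hN1]
    have e1 : |∑ s ∈ Icc 1 N, aa W s * GG W (z / (s : ℝ) ^ 2) -
        ∑ s ∈ Icc 1 N, aa W s * ((W.totient : ℝ) / W * (Real.log z - 2 * Real.log s))| ≤
        2 * E := by
      rw [← Finset.sum_sub_distrib]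
      refine (Finset.abs_sum_le_sum_abs _ _).trans ?_
      have h1 : ∀ s ∈ Icc 1 N, |aa W s * GG W (z / (s : ℝ) ^ 2) -
          aa W s * ((W.totient : ℝ) / W * (Real.log z - 2 * Real.log s))| ≤
          1 / (s : ℝ) ^ 2 * E := by
        intro s hs
        have hs1 : (1 : ℝ) ≤ s := by exact_mod_cast (Finset.mem_Icc.1 hs).1
        rw [← mul_sub, abs_mul]
        refine mul_le_mul (abs_aa_le W s) ?_ (abs_nonneg _) (by (clear * - hs1; positivity))
        have h2 := GG_bound W hW (z / (s : ℝ) ^ 2)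
          ((one_le_div (by (clear * - hs1; positivity))).2 (hN2 s hs))
        rwa [Real.log_div (by (clear * - hz; linarith)) (by (clear * - hs1; positivity)), Real.log_pow, Nat.cast_ofNat] at h2
      refine (Finset.sum_le_sum h1).trans ?_
      rw [← Finset.sum_mul]
      exact mul_le_mul_of_nonneg_right (sum_sq_le N) (by (clear * - hE1; linarith))
    have e2 : |∑ s ∈ Icc 1 N, aa W s * ((W.totient : ℝ) / W * (2 * Real.log s))| ≤ 2 * B := by
      refine (Finset.abs_sum_le_sum_abs _ _).trans ?_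
      have h1 : ∀ s ∈ Icc 1 N, |aa W s * ((W.totient : ℝ) / W * (2 * Real.log s))| ≤
          2 * (Real.log s / (s : ℝ) ^ 2) := by
        intro s hs
        have hs1 : (1 : ℝ) ≤ s := by exact_mod_cast (Finset.mem_Icc.1 hs).1
        have hl : 0 ≤ Real.log s := Real.log_nonneg hs1
        rw [abs_mul, abs_of_nonneg (a := (W.totient : ℝ) / W * (2 * Real.log s)) (by (clear * - hW; positivity))]
        calc |aa W s| * ((W.totient : ℝ) / W * (2 * Real.log s)) ≤
            1 / (s : ℝ) ^ 2 * (1 * (2 * Real.log s)) := by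
              gcongr
              exact abs_aa_le W s
          _ = _ := by ring
      refine (Finset.sum_le_sum h1).trans ?_
      rw [← Finset.mul_sum]
      exact mul_le_mul_of_nonneg_left (hB N) (by norm_num)
    have e3 : |(W.totient : ℝ) / W * Real.log z * (∑ s ∈ Icc 1 N, aa W s - ∑' s, aa W s)| ≤ 4 := by
      rw [abs_mul, abs_of_nonneg (by (clear * - hW hlog; positivity))]
      have h1 : (0 : ℝ) < Real.sqrt z := Real.sqrt_pos.2 hz0
      have h2 : Real.sqrt z ≤ (N : ℝ) + 1 := (Nat.lt_floor_add_one _).le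
      calc (W.totient : ℝ) / W * Real.log z * |∑ s ∈ Icc 1 N, aa W s - ∑' s, aa W s| ≤
          1 * (2 * Real.sqrt z) * (2 / Real.sqrt z) := by
            refine mul_le_mul (mul_le_mul ha1 (log_le_two_sqrt hz0) hlog (by norm_num))
              ((tail_aa W N).trans ?_) (abs_nonneg _) (by positivity)
            exact div_le_div_of_nonneg_left (by norm_num) h1 h2
        _ = 4 := by
            field_simp
            norm_num
    have e4 : ∑ s ∈ Icc 1 N, aa W s * ((W.totient : ℝ) / W * (Real.log z - 2 * Real.log s)) =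
        (W.totient : ℝ) / W * Real.log z * ∑ s ∈ Icc 1 N, aa W s -
          ∑ s ∈ Icc 1 N, aa W s * ((W.totient : ℝ) / W * (2 * Real.log s)) := by
      rw [Finset.mul_sum, ← Finset.sum_sub_distrib]
      apply Finset.sum_congr rfl
      intro s _
      ring
    rw [e4] at e1
    have h1 := abs_le.1 e1
    have h2 := abs_le.1 e2
    have h3 := abs_le.1 e3
    rw [mul_sub] at h3
    have h7 : (W.totient : ℝ) / W * Real.log z * ∑' s, aa W s =
        (W.totient : ℝ) / W * (∑' s, aa W s) * Real.log z := by ring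
    rw [h7] at h3
    rw [abs_le]
    constructor
    · linarith [h1.1, h1.2, h2.1, h2.2, h3.1, h3.2]
    · linarith [h1.1, h1.2, h2.1, h2.2, h3.1, h3.2]
  refine ⟨(W.totient : ℝ) / W * ∑' s, aa W s, ?_, ?_, fun z hz => ?_⟩
  · have : (W.totient : ℝ) / (4 * W) = (W.totient : ℝ) / W * (1 / 4) := by
      field_simp
    rw [this]
    exact mul_le_mul_of_nonneg_left hT ha0.le
  · -- comparison with the sum over all the integers coprime to `W`
    by_contra hcon
    push Not at hcon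
    set c : ℝ := (W.totient : ℝ) / W * ∑' s, aa W s with hc
    set a : ℝ := (W.totient : ℝ) / W with ha
    have hd : 0 < c - a := by (clear * - hcon; linarith)
    set z : ℝ := Real.exp ((2 * E + 2 * B + 4 + E + 1) / (c - a)) with hzdef
    have hq : 0 ≤ (2 * E + 2 * B + 4 + E + 1) / (c - a) := by
      apply div_nonneg _ hd.le
      linarith
    have hz : 1 ≤ z := Real.one_le_exp hq
    have hlz : Real.log z = (2 * E + 2 * B + 4 + E + 1) / (c - a) := Real.log_exp _
    have h1 := abs_le.1 (main z hz)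
    have h2 := abs_le.1 (GG_bound W hW z hz)
    have h3 : ∑ d ∈ (Icc 1 ⌊z⌋₊).filter (fun d => Squarefree d ∧ d.Coprime W), 1 / (d : ℝ) ≤
        GG W z := by
      unfold GG
      apply Finset.sum_le_sum_of_subset_of_nonneg
      · intro d hd
        rw [Finset.mem_filter] at hd ⊢
        exact ⟨hd.1, hd.2.2⟩
      · intro d _ _
        (clear * -; positivity)
    have h4 : (c - a) * Real.log z = 2 * E + 2 * B + 4 + E + 1 := by
      rw [hlz]
      (clear * - hcon hE1 hB0; field_simp)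
    (clear * - h1 h2 h3 h4; nlinarith [h1.1, h1.2, h2.1, h2.2, h3, h4])
  · refine (main z hz).trans ?_
    (clear * - hE1 hB0; nlinarith)

end Pool.Agent.Helper63.MT

end
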