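import Mathlib

/-!
Parts of Helper1.MT.DefsU, Helper90.MT.Common, Helper90.MT.LowerMain, Helper85.BV.LUpper, Helper30.BV.LComplex, Helper81.BV.Small, Helper96.BV.TLS, Helper83.MT.Ana, Helper72.MT.SumPrimeU, Helper68.MT.SingAvg
-/

namespace Pool.Agent.Helper1.MT
end Pool.Agent.Helper1.MT
namespace Pool.Agent.Helper18.BV
end Pool.Agent.Helper18.BV
namespace Pool.Agent.Helper83.MT
end Pool.Agent.Helper83.MT

section

set_option autoImplicit false

open Finset

open scoped ArithmeticFunction.vonMangoldt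

namespace Pool.Agent.Helper1.MT

/-- MU-Y: the average of the singular factors. -/
def SingAvg : Prop :=
  ∀ K : ℕ, ∃ C : ℝ, 0 < C ∧ ∀ (Y : ℕ) (h : Fin K → ℕ), 1 ≤ Y → (∀ i, h i ≤ Y) →
    ∑ j ∈ (range (Y + 1)).filter (fun j => ∀ i, h i ≠ j),
      ∏ p ∈ (∏ i, ((h i : ℤ) - j).natAbs).primeFactors, (1 + 1 / (p : ℝ)) ≤ C * Y

end Pool.Agent.Helper1.MT

end

section

set_option autoImplicit false

open Finset

namespace Pool.Agent.Helper90.MT

open Pool.Agent.Helper1.MT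

variable {ι κ : Type} [Fintype ι] [Fintype κ] [DecidableEq ι] [DecidableEq κ]

/-- Products of sums over finite sets. -/
theorem prod_tuple (G : κ → Finset ι → ℝ) :
    ∏ i, ∑ S : Finset ι, G i S = ∑ f : κ → Finset ι, ∏ i, G i (f i) := by
  rw [Finset.prod_univ_sum, Fintype.piFinset_univ]

end Pool.Agent.Helper90.MT

end

section

set_option autoImplicit false

open Finset

namespace Pool.Agent.Helper90.MT

open Pool.Agent.Helper1.MT

variable {ι κ : Type} [Fintype ι] [Fintype κ] [DecidableEq ι] [DecidableEq κ]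

section Main

variable {w w' t : ι → ℝ} {γ : Finset ι → ℝ} {τ η : ℝ}

/-- Comparison of products of sums. -/
theorem tuple_scale {G G' : κ → Finset ι → ℝ} {r : κ → ℝ} (hG' : ∀ i S, 0 ≤ G' i S)
    (h : ∀ i, ∑ S : Finset ι, G' i S ≤ r i * ∑ S : Finset ι, G i S) :
    ∑ f : κ → Finset ι, ∏ i, G' i (f i) ≤ (∏ i, r i) * ∏ i, ∑ S : Finset ι, G i S := by
  rw [← prod_tuple, ← Finset.prod_mul_distrib]
  exact Finset.prod_le_prod (fun i _ => Finset.sum_nonneg fun S _ => hG' i S) fun i _ => h i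

end Main

end Pool.Agent.Helper90.MT

end

section

set_option autoImplicit false

open Finset Filter Topology MeasureTheory Asymptotics

namespace Pool.Agent.Helper85.BV

open Pool.Agent.Helper18.BV

section

variable {q : ℕ} [NeZero q] (χ : DirichletCharacter ℂ q)

/-- Partial sums of a character. -/
noncomputable def cs (n : ℕ) : ℂ := ∑ k ∈ Icc 1 n, χ (k : ZMod q)

theorem sum_range_period (hχ : χ ≠ 1) : ∑ k ∈ range q, χ (k : ZMod q) = 0 := by
  have h1 : ∑ z : ZMod q, χ z = 0 := MulChar.sum_eq_zero_of_ne_one hχ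
  rw [← h1]
  refine Finset.sum_nbij' (fun k => (k : ZMod q)) (fun z => z.val) ?_ ?_ ?_ ?_ ?_
  · intro k _; simp
  · intro z _; simp [ZMod.val_lt z]
  · intro k hk; exact ZMod.val_cast_of_lt (mem_range.mp hk)
  · intro z _; simp
  · intro k _; rfl

theorem sum_Ico_period (hχ : χ ≠ 1) (a : ℕ) : ∑ k ∈ Ico a (a + q), χ (k : ZMod q) = 0 := by
  induction a with
  | zero => rw [zero_add, ← Finset.range_eq_Ico]; exact sum_range_period χ hχ
  | succ a ih =>
    have hq : 0 < q := Nat.pos_of_ne_zero (NeZero.ne q)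
    have h1 : ∑ k ∈ Ico a (a + 1 + q), χ (k : ZMod q) = 0 + χ ((a : ℕ) : ZMod q) := by
      have h2 : a + 1 + q = (a + q) + 1 := by ring
      rw [h2, Finset.sum_Ico_succ_top (by omega), ih]
      simp
    rw [Finset.sum_eq_sum_Ico_succ_bot (by omega)] at h1
    simpa using h1

theorem cs_add_period (hχ : χ ≠ 1) (n : ℕ) : cs χ (n + q) = cs χ n := by
  have h1 : ∀ m : ℕ, cs χ m = ∑ k ∈ Ico 1 (m + 1), χ (k : ZMod q) := by
    intro m
    unfold cs
    refine Finset.sum_congr ?_ (fun _ _ => rfl)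
    ext k; simp only [mem_Icc, mem_Ico]; omega
  rw [h1, h1, ← Finset.sum_Ico_consecutive _ (show 1 ≤ n + 1 by omega)
    (show n + 1 ≤ n + q + 1 by omega)]
  have h2 := sum_Ico_period χ hχ (n + 1)
  rw [show n + 1 + q = n + q + 1 by ring] at h2
  rw [h2, add_zero]

theorem norm_cs_le (n : ℕ) : ‖cs χ n‖ ≤ n := by
  unfold cs
  calc ‖∑ k ∈ Icc 1 n, χ (k : ZMod q)‖ ≤ ∑ k ∈ Icc 1 n, ‖χ (k : ZMod q)‖ := norm_sum_le _ _
    _ ≤ ∑ k ∈ Icc 1 n, (1 : ℝ) := Finset.sum_le_sum (fun k _ => DirichletCharacter.norm_le_one χ _)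
    _ = n := by simp

theorem norm_cs_le_period (hχ : χ ≠ 1) (n : ℕ) : ‖cs χ n‖ ≤ q := by
  induction n using Nat.strong_induction_on with
  | _ n ih =>
    by_cases h : n ≤ q
    · exact (norm_cs_le χ n).trans (by exact_mod_cast h)
    · have hq : 0 < q := Nat.pos_of_ne_zero (NeZero.ne q)
      have h1 : n = (n - q) + q := by omega
      rw [h1, cs_add_period χ hχ]
      exact ih (n - q) (by omega)

/-- The partial sums as a function of a real variable. -/
noncomputable def F (t : ℝ) : ℂ := cs χ ⌊t⌋₊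

theorem F_of_lt_one {t : ℝ} (ht : t < 1) : F χ t = 0 := by
  unfold F cs
  rw [Nat.floor_eq_zero.mpr ht]
  simp

theorem norm_F_le_self {t : ℝ} (ht : 0 ≤ t) : ‖F χ t‖ ≤ t :=
  (norm_cs_le χ _).trans (Nat.floor_le ht)

theorem norm_F_le (hχ : χ ≠ 1) (t : ℝ) : ‖F χ t‖ ≤ q := norm_cs_le_period χ hχ _

theorem norm_F_le_interp (hχ : χ ≠ 1) {θ : ℝ} (h0 : 0 ≤ θ) (h1 : θ ≤ 1) {t : ℝ} (ht : 0 < t) :
    ‖F χ t‖ ≤ (q : ℝ) ^ θ * t ^ (1 - θ) := by
  have hq : (0 : ℝ) < q := by exact_mod_cast Nat.pos_of_ne_zero (NeZero.ne q)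
  have h2 : ‖F χ t‖ = ‖F χ t‖ ^ θ * ‖F χ t‖ ^ (1 - θ) := by
    rcases eq_or_lt_of_le (norm_nonneg (F χ t)) with h | h
    · rw [← h]
      rcases eq_or_ne θ 0 with h3 | h3
      · subst h3; simp
      · rw [Real.zero_rpow h3]; simp
    · rw [← Real.rpow_add h]; simp
  rw [h2]
  exact mul_le_mul (Real.rpow_le_rpow (norm_nonneg _) (norm_F_le χ hχ t) h0)
    (Real.rpow_le_rpow (norm_nonneg _) (norm_F_le_self χ ht.le) (by (clear * - h1; linarith)))
    (Real.rpow_nonneg (norm_nonneg _) _) (Real.rpow_nonneg hq.le _)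

theorem measurable_F : Measurable (F χ) := by
  unfold F
  exact (measurable_from_nat (f := cs χ)).comp (Nat.measurable_floor (R := ℝ))

theorem locInt_F (hχ : χ ≠ 1) : LocallyIntegrableOn (F χ) (Set.Ioi 0) := by
  have h1 : LocallyIntegrable (fun _ : ℝ => (q : ℝ)) := locallyIntegrable_const _
  exact (h1.mono (measurable_F χ).aestronglyMeasurable
    (Eventually.of_forall (fun t => by
      rw [Real.norm_of_nonneg (Nat.cast_nonneg q)]; exact norm_F_le χ hχ t))).locallyIntegrableOn _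

theorem mellin_diff (hχ : χ ≠ 1) {s : ℂ} (hs : 0 < s.re) :
    DifferentiableAt ℂ (fun z => mellin (F χ) (-z)) s := by
  have h1 : DifferentiableAt ℂ (mellin (F χ)) (-s) := by
    refine mellin_differentiableAt_of_isBigO_rpow (a := 0) (b := (-s).re - 1) (locInt_F χ hχ)
      ?_ (by simpa using hs) ?_ (by linarith)
    · simp only [neg_zero, Real.rpow_zero]
      exact IsBigO.of_bound (q : ℝ) (Eventually.of_forall (fun t => by
        simpa using norm_F_le χ hχ t))
    · refine (EventuallyEq.isBigO (f₂ := fun _ => (0 : ℂ)) ?_).trans (isBigO_zero _ _)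
      have h3 : Set.Ioo (0 : ℝ) 1 ∈ 𝓝[>] (0 : ℝ) := Ioo_mem_nhdsGT one_pos
      filter_upwards [h3] with t ht
      exact F_of_lt_one χ ht.2
  exact h1.comp s (differentiableAt_id.neg)

theorem mellin_eq (s : ℂ) :
    mellin (F χ) (-s) = ∫ t in Set.Ioi (1 : ℝ), F χ t * (t : ℂ) ^ (-(s + 1)) := by
  unfold mellin
  have h2 : ∀ t : ℝ, (t : ℂ) ^ (-s - 1) • F χ t = F χ t * (t : ℂ) ^ (-(s + 1)) := by
    intro t
    rw [smul_eq_mul, mul_comm, neg_add']
  simp_rw [h2]
  refine setIntegral_eq_of_subset_of_ae_sdiff_eq_zero measurableSet_Ioi.nullMeasurableSet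
    (Set.Ioi_subset_Ioi zero_le_one) ?_
  have h4 : ∀ᵐ t : ℝ, t ≠ 1 := by
    have : (volume : Measure ℝ) {1} = 0 := by simp
    rw [ae_iff]; simpa using this
  filter_upwards [h4] with t ht1 ht
  have h3 : t < 1 := by
    have : ¬ (1 < t) := ht.2
    exact lt_of_le_of_ne (not_lt.mp this) ht1
  rw [F_of_lt_one χ h3, zero_mul]

theorem LFunction_eq_of_one_lt (hχ : χ ≠ 1) {s : ℂ} (hs : 1 < s.re) :
    DirichletCharacter.LFunction χ s = s * mellin (F χ) (-s) := by
  rw [DirichletCharacter.LFunction_eq_LSeries χ hs, mellin_eq]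
  refine LSeries_eq_mul_integral _ (r := 0) le_rfl (by linarith)
    (DirichletCharacter.LSeriesSummable_of_one_lt_re χ hs) ?_
  refine IsBigO.of_bound (q : ℝ) (Eventually.of_forall (fun n => ?_))
  have h := norm_cs_le_period χ hχ n
  unfold cs at h
  simpa using h

theorem LFunction_eq (hχ : χ ≠ 1) {s : ℂ} (hs : 0 < s.re) :
    DirichletCharacter.LFunction χ s = s * mellin (F χ) (-s) := by
  set U : Set ℂ := {z : ℂ | 0 < z.re} with hU
  have hUo : IsOpen U := isOpen_lt continuous_const Complex.continuous_re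
  have hUc : IsPreconnected U := (convex_halfSpace_re_gt 0).isPreconnected
  have h1 : AnalyticOnNhd ℂ (DirichletCharacter.LFunction χ) U :=
    (DirichletCharacter.differentiable_LFunction hχ).differentiableOn.analyticOnNhd hUo
  have h2 : AnalyticOnNhd ℂ (fun s => s * mellin (F χ) (-s)) U := by
    refine DifferentiableOn.analyticOnNhd ?_ hUo
    intro z hz
    exact (differentiableAt_id.mul (mellin_diff χ hχ hz)).differentiableWithinAt
  have h3 : (2 : ℂ) ∈ U := by simp [hU]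
  refine h1.eqOn_of_preconnected_of_eventuallyEq h2 hUc h3 ?_ hs
  have h4 : {z : ℂ | 1 < z.re} ∈ 𝓝 (2 : ℂ) :=
    (isOpen_lt continuous_const Complex.continuous_re).mem_nhds (by simp)
  filter_upwards [h4] with z hz
  exact LFunction_eq_of_one_lt χ hχ hz

/-- The general bound. -/
theorem norm_LFunction_le (hχ : χ ≠ 1) {s : ℂ} (hs : 0 < s.re) {θ : ℝ} (h0 : 0 ≤ θ) (h1 : θ ≤ 1)
    (h2 : 1 < θ + s.re) :
    ‖DirichletCharacter.LFunction χ s‖ ≤ ‖s‖ * ((q : ℝ) ^ θ / (θ + s.re - 1)) := by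
  rw [LFunction_eq χ hχ hs, norm_mul]
  refine mul_le_mul_of_nonneg_left ?_ (norm_nonneg s)
  rw [mellin_eq]
  have h3 : IntegrableOn (fun t : ℝ => (q : ℝ) ^ θ * t ^ (-θ - s.re)) (Set.Ioi 1) :=
    (integrableOn_Ioi_rpow_of_lt (by linarith) one_pos).const_mul _
  calc ‖∫ t in Set.Ioi (1 : ℝ), F χ t * (t : ℂ) ^ (-(s + 1))‖
      ≤ ∫ t in Set.Ioi (1 : ℝ), (q : ℝ) ^ θ * t ^ (-θ - s.re) := by
        refine norm_integral_le_of_norm_le h3 ?_
        refine (ae_restrict_mem measurableSet_Ioi).mono (fun t ht => ?_)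
        have ht0 : 0 < t := lt_trans one_pos ht
        rw [norm_mul, Complex.norm_cpow_eq_rpow_re_of_pos ht0]
        calc ‖F χ t‖ * t ^ (-(s + 1)).re ≤ ((q : ℝ) ^ θ * t ^ (1 - θ)) * t ^ (-(s + 1)).re :=
              mul_le_mul_of_nonneg_right (norm_F_le_interp χ hχ h0 h1 ht0)
                (Real.rpow_nonneg ht0.le _)
          _ = (q : ℝ) ^ θ * t ^ (-θ - s.re) := by
              rw [mul_assoc, ← Real.rpow_add ht0]
              congr 2
              simp only [Complex.neg_re, Complex.add_re, Complex.one_re]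
              ring
    _ = (q : ℝ) ^ θ / (θ + s.re - 1) := by
        rw [MeasureTheory.integral_const_mul, integral_Ioi_rpow_of_lt (by linarith) one_pos,
          Real.one_rpow, div_eq_mul_one_div ((q : ℝ) ^ θ)]
        congr 1
        rw [show -θ - s.re + 1 = -(θ + s.re - 1) by ring, div_neg, neg_div, neg_neg]

end

end Pool.Agent.Helper85.BV

end

section

set_option autoImplicit false

open Finset Filter Topology

namespace Pool.Agent.Helper30.BV

open Pool.Agent.Helper18.BV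

theorem zeta_bound {x : ℝ} (hx : 0 < x) : ‖riemannZeta (1 + x)‖ ≤ 1 / x + 1 := by
  have hre : 1 < ((1 : ℂ) + x).re := by simp [hx]
  rw [zeta_eq_tsum_one_div_nat_add_one_cpow hre]
  have hn : ∀ n : ℕ, ‖1 / ((n : ℂ) + 1) ^ ((1 : ℂ) + x)‖ = 1 / ((n : ℝ) + 1) ^ (1 + x) := by
    intro n
    rw [norm_div, norm_one]
    congr 1
    have h1 : ((n : ℂ) + 1) = (((n : ℝ) + 1 : ℝ) : ℂ) := by push_cast; ring
    rw [h1, Complex.norm_cpow_eq_rpow_re_of_pos (by (clear * -; positivity))]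
    simp
  have hs1 : 1 < 1 + x := by linarith
  have hsum : Summable (fun n : ℕ => ‖1 / ((n : ℂ) + 1) ^ ((1 : ℂ) + x)‖) := by
    simp_rw [hn]
    have h2 := (Real.summable_one_div_nat_rpow (p := 1 + x)).2 hs1
    have h3 := (summable_nat_add_iff 1).2 h2
    refine h3.congr fun n => ?_
    push_cast
    rfl
  refine (norm_tsum_le_tsum_norm hsum).trans ?_
  simp_rw [hn]
  have h4 := ZetaAsymptotics.zeta_limit_aux1 hs1
  have h5 : 0 ≤ ZetaAsymptotics.termTSum (1 + x) :=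
    tsum_nonneg fun n => ZetaAsymptotics.term_nonneg _ _
  have h6 : 1 / (1 + x - 1) = 1 / x := by ring_nf
  rw [h6] at h4
  (clear * - h4 h5 hx; nlinarith)

theorem triv_bound (q : ℕ) [NeZero q] {x : ℝ} (hx : 0 < x) (hx1 : x ≤ 1) :
    ‖DirichletCharacter.LFunctionTrivChar q (1 + x)‖ ≤ 2 / x := by
  have hne : (1 : ℂ) + x ≠ 1 := by
    intro h
    have h1 := congrArg Complex.re h
    simp at h1
    exact hx.ne' h1
  rw [DirichletCharacter.LFunctionTrivChar_eq_mul_riemannZeta hne, norm_mul]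
  have hprod : ‖∏ p ∈ q.primeFactors, (1 - (p : ℂ) ^ (-((1 : ℂ) + x)))‖ ≤ 1 := by
    rw [norm_prod]
    apply Finset.prod_le_one
    · intro p _
      exact norm_nonneg _
    · intro p hp
      have hp1 : (1 : ℝ) ≤ p := by exact_mod_cast (Nat.prime_of_mem_primeFactors hp).one_lt.le
      have h1 : (p : ℂ) ^ (-((1 : ℂ) + x)) = (((p : ℝ) ^ (-(1 + x)) : ℝ) : ℂ) := by
        rw [Complex.ofReal_cpow (by linarith)]
        push_cast
        rfl
      have h2 : 0 ≤ (p : ℝ) ^ (-(1 + x)) := by (clear * - hp1; positivity)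
      have h3 : (p : ℝ) ^ (-(1 + x)) ≤ 1 := Real.rpow_le_one_of_one_le_of_nonpos hp1 (by (clear * - hx; linarith))
      rw [h1, ← Complex.ofReal_one, ← Complex.ofReal_sub, Complex.norm_real, Real.norm_eq_abs,
        abs_of_nonneg (by (clear * - h3; linarith))]
      linarith
  have hz := zeta_bound hx
  have h7 : 1 / x + 1 ≤ 2 / x := by
    rw [div_add' _ _ _ hx.ne']
    apply div_le_div_of_nonneg_right _ hx.le
    (clear * - hx1; linarith)
  calc ‖∏ p ∈ q.primeFactors, (1 - (p : ℂ) ^ (-((1 : ℂ) + x)))‖ * ‖riemannZeta (1 + x)‖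
      ≤ 1 * (1 / x + 1) := mul_le_mul hprod hz (norm_nonneg _) zero_le_one
    _ ≤ 2 / x := by (clear * - h7; linarith)

end Pool.Agent.Helper30.BV

end

section

set_option autoImplicit false

open Finset Filter Topology MeasureTheory

open scoped ArithmeticFunction.vonMangoldt ArithmeticFunction.Moebius ArithmeticFunction.zeta

namespace Pool.Agent.Helper81.BV

open Pool.Agent.Helper18.BV

lemma tsum_rpow_le (δ : ℝ) (hδ : 0 < δ) :
    Summable (fun n : ℕ => (n : ℝ) ^ (-(1 + δ))) ∧ ∑' n : ℕ, (n : ℝ) ^ (-(1 + δ)) ≤ 1 + 1 / δ := by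
  have hs : Summable (fun n : ℕ => (n : ℝ) ^ (-(1 + δ))) :=
    Real.summable_nat_rpow.2 (by (clear * - hδ; linarith))
  refine ⟨hs, ?_⟩
  have h0 : ((0 : ℕ) : ℝ) ^ (-(1 + δ)) = 0 := by
    rw [Nat.cast_zero, Real.zero_rpow (by (clear * - hδ; linarith))]
  have hsplit : ∑' n : ℕ, (n : ℝ) ^ (-(1 + δ)) =
      ((0 : ℕ) : ℝ) ^ (-(1 + δ)) + (((0 + 1 : ℕ) : ℝ) ^ (-(1 + δ)) +
        ∑' n : ℕ, ((n + 1 + 1 : ℕ) : ℝ) ^ (-(1 + δ))) := by
    rw [hs.tsum_eq_zero_add]
    congr 1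
    exact (((summable_nat_add_iff 1).2 hs).tsum_eq_zero_add)
  have h1 : ∑' n : ℕ, ((n + 1 + 1 : ℕ) : ℝ) ^ (-(1 + δ)) ≤ 1 / δ := by
    refine Real.tsum_le_of_sum_range_le (fun n => by (clear * -; positivity)) fun N => ?_
    have hanti : AntitoneOn (fun y : ℝ => y ^ (-(1 + δ))) (Set.Icc 1 (1 + N)) := by
      intro a ha b hb hab
      have ha' : (0 : ℝ) < a := lt_of_lt_of_le one_pos ha.1
      exact Real.rpow_le_rpow_of_nonpos ha' hab (by (clear * - hδ; linarith))
    have h2 := hanti.sum_le_integral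
    have h3 : ∫ y in (1 : ℝ)..(1 + N), y ^ (-(1 + δ)) = (1 - (1 + (N : ℝ)) ^ (-δ)) / δ := by
      rw [integral_rpow]
      · have : -(1 + δ) + 1 = -δ := by ring
        rw [this, Real.one_rpow, div_neg, ← neg_div, neg_sub]
      · right
        refine ⟨by (clear * - hδ; linarith), ?_⟩
        rw [Set.uIcc_of_le (by have : (0 : ℝ) ≤ N := Nat.cast_nonneg N
                               (clear * -; linarith))]
        intro h
        (clear * - h; linarith [h.1])
    rw [h3] at h2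
    have h4 : (1 - (1 + (N : ℝ)) ^ (-δ)) / δ ≤ 1 / δ := by
      apply div_le_div_of_nonneg_right _ hδ.le
      have : (0 : ℝ) ≤ (1 + (N : ℝ)) ^ (-δ) := by (clear * -; positivity)
      (clear * - this; linarith)
    refine le_trans (le_of_eq ?_) (h2.trans h4)
    refine Finset.sum_congr rfl fun i _ => ?_
    push_cast
    congr 1
    ring
  rw [hsplit, h0]
  simp only [zero_add, Nat.cast_one, Real.one_rpow]
  (clear * - h1; linarith)

lemma iterate_logMul (f : ℕ → ℂ) (k n : ℕ) :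
    (LSeries.logMul^[k] f) n = Complex.log n ^ k * f n := by
  induction k with
  | zero => simp
  | succ k ih =>
    rw [Function.iterate_succ', Function.comp_apply]
    change Complex.log n * (LSeries.logMul^[k] f) n = _
    rw [ih]
    ring

/-- The coefficients `(log n)^k χ(n) Λ(n)`. -/
noncomputable def co (k : ℕ) {q : ℕ} (χ : DirichletCharacter ℂ q) (n : ℕ) : ℂ :=
  Complex.log n ^ k * (χ (n : ZMod q) * ((Λ n : ℝ) : ℂ))

lemma lseries_co (k : ℕ) {q : ℕ} [NeZero q] (χ : DirichletCharacter ℂ q) {s : ℂ} (hs : 1 < s.re) :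
    LSeries (co k χ) s = -((-1) ^ k * iteratedDeriv k (fun z =>
      deriv (DirichletCharacter.LFunction χ) z / DirichletCharacter.LFunction χ z) s) := by
  set f : ℕ → ℂ := (fun n : ℕ => χ (n : ZMod q)) * (fun n : ℕ => ((Λ n : ℝ) : ℂ)) with hf
  have habs : LSeries.abscissaOfAbsConv f < s.re := by
    obtain ⟨y, hy1, hy2⟩ := exists_between hs
    have hsum : LSeriesSummable f (y : ℂ) :=
      DirichletCharacter.LSeriesSummable_twist_vonMangoldt χ (by simpa using hy1)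
    refine lt_of_le_of_lt hsum.abscissaOfAbsConv_le ?_
    simpa using hy2
  have h1 := LSeries_iteratedDeriv k habs
  have h2 : LSeries.logMul^[k] f = co k χ := by
    ext n
    rw [iterate_logMul]
    rfl
  rw [h2] at h1
  have h3 : (LSeries f) =ᶠ[𝓝 s] fun z => -(deriv (DirichletCharacter.LFunction χ) z /
      DirichletCharacter.LFunction χ z) := by
    have h : {z : ℂ | 1 < z.re} ∈ nhds s :=
      (isOpen_lt continuous_const Complex.continuous_re).mem_nhds hs
    filter_upwards [h] with z hz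
    have := DirichletCharacter.LSeries_twist_vonMangoldt_eq χ hz
    rw [DirichletCharacter.deriv_LFunction_eq_deriv_LSeries χ hz,
      DirichletCharacter.LFunction_eq_LSeries χ hz, ← neg_div]
    exact this
  have h4 := h3.iteratedDeriv_eq k
  have h5 : iteratedDeriv k (fun z => -(deriv (DirichletCharacter.LFunction χ) z /
      DirichletCharacter.LFunction χ z)) s = -iteratedDeriv k (fun z =>
      deriv (DirichletCharacter.LFunction χ) z / DirichletCharacter.LFunction χ z) s :=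
    iteratedDeriv_fun_neg k _ s
  rw [h5, h1] at h4
  have h6 : ((-1 : ℂ) ^ k) * (-1) ^ k = 1 := by
    rw [← mul_pow]
    simp
  calc LSeries (co k χ) s = ((-1 : ℂ) ^ k * (-1) ^ k) * LSeries (co k χ) s := by rw [h6, one_mul]
    _ = (-1) ^ k * ((-1) ^ k * LSeries (co k χ) s) := by ring
    _ = _ := by rw [h4]; ring

lemma norm_co_le (k : ℕ) {q : ℕ} (χ : DirichletCharacter ℂ q) (n : ℕ) :
    ‖co k χ n‖ ≤ Real.log n ^ (k + 1) := by
  rw [co, norm_mul, norm_mul, norm_pow, ← Complex.natCast_log, Complex.norm_real,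
    Complex.norm_real, Real.norm_of_nonneg (Real.log_natCast_nonneg n),
    Real.norm_of_nonneg ArithmeticFunction.vonMangoldt_nonneg, pow_succ]
  refine mul_le_mul_of_nonneg_left ?_ (pow_nonneg (Real.log_natCast_nonneg n) k)
  calc ‖χ (n : ZMod q)‖ * Λ n ≤ 1 * Real.log n :=
        mul_le_mul (DirichletCharacter.norm_le_one χ _) ArithmeticFunction.vonMangoldt_le_log
          ArithmeticFunction.vonMangoldt_nonneg zero_le_one
    _ = Real.log n := one_mul _

lemma co_zero (k : ℕ) {q : ℕ} (χ : DirichletCharacter ℂ q) : co k χ 0 = 0 := by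
  simp [co]

lemma pow_log_le (l : ℝ) (hl : 0 < l) (m n : ℕ) (hn : n ≠ 0) :
    Real.log n ^ m ≤ m.factorial * (2 * l) ^ m * (n : ℝ) ^ (1 / (2 * l)) := by
  have hn' : (0 : ℝ) < n := by exact_mod_cast Nat.pos_of_ne_zero hn
  have h1 := Real.pow_div_factorial_le_exp (Real.log n / (2 * l))
    (div_nonneg (Real.log_natCast_nonneg n) (by positivity)) m
  have h2 : Real.exp (Real.log n / (2 * l)) = (n : ℝ) ^ (1 / (2 * l)) := by
    rw [Real.rpow_def_of_pos hn']
    congr 1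
    ring
  rw [h2, div_pow, div_div, div_le_iff₀ (by (clear * - hl; positivity))] at h1
  calc Real.log n ^ m ≤ _ := h1
    _ = _ := by ring

/-- The absolute values of the terms. -/
noncomputable def bb (k : ℕ) {q : ℕ} (χ : DirichletCharacter ℂ q) (l : ℝ) (n : ℕ) : ℝ :=
  ‖co k χ n‖ * (n : ℝ) ^ (-(1 + 1 / l))

lemma bb_nonneg (k : ℕ) {q : ℕ} (χ : DirichletCharacter ℂ q) (l : ℝ) (n : ℕ) :
    0 ≤ bb k χ l n := by
  unfold bb
  positivity

lemma bb_le (k : ℕ) {q : ℕ} (χ : DirichletCharacter ℂ q) (l : ℝ) (hl : 0 < l) (n : ℕ) :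
    bb k χ l n ≤ ((k + 1).factorial * (2 * l) ^ (k + 1)) * (n : ℝ) ^ (-(1 + 1 / (2 * l))) := by
  unfold bb
  rcases eq_or_ne n 0 with rfl | hn
  · rw [co_zero, norm_zero, zero_mul]
    (clear * - hl; positivity)
  have hn' : (0 : ℝ) < n := by exact_mod_cast Nat.pos_of_ne_zero hn
  have h1 := (norm_co_le k χ n).trans (pow_log_le l hl (k + 1) n hn)
  calc ‖co k χ n‖ * (n : ℝ) ^ (-(1 + 1 / l)) ≤
      ((k + 1).factorial * (2 * l) ^ (k + 1) * (n : ℝ) ^ (1 / (2 * l))) *
        (n : ℝ) ^ (-(1 + 1 / l)) := mul_le_mul_of_nonneg_right h1 (by positivity)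
    _ = ((k + 1).factorial * (2 * l) ^ (k + 1)) * ((n : ℝ) ^ (1 / (2 * l)) *
        (n : ℝ) ^ (-(1 + 1 / l))) := by ring
    _ = _ := by
      rw [← Real.rpow_add hn']
      congr 2
      field_simp
      ring

lemma bb_sum (k : ℕ) {q : ℕ} (χ : DirichletCharacter ℂ q) (l : ℝ) (hl : 1 ≤ l) :
    Summable (bb k χ l) ∧ ∑' n, bb k χ l n ≤ ((k + 1).factorial * 2 ^ (k + 1) * 3) * l ^ (k + 2) := by
  have hl0 : 0 < l := by linarith
  obtain ⟨hs, hle⟩ := tsum_rpow_le (1 / (2 * l)) (by positivity)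
  have hs2 := hs.mul_left ((k + 1).factorial * (2 * l) ^ (k + 1) : ℝ)
  have hsum : Summable (bb k χ l) :=
    Summable.of_nonneg_of_le (bb_nonneg k χ l) (bb_le k χ l hl0) hs2
  refine ⟨hsum, ?_⟩
  calc ∑' n, bb k χ l n ≤ ∑' n : ℕ, ((k + 1).factorial * (2 * l) ^ (k + 1) : ℝ) *
        (n : ℝ) ^ (-(1 + 1 / (2 * l))) := hsum.tsum_le_tsum (bb_le k χ l hl0) hs2
    _ = ((k + 1).factorial * (2 * l) ^ (k + 1) : ℝ) * ∑' n : ℕ, (n : ℝ) ^ (-(1 + 1 / (2 * l))) :=
        tsum_mul_left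
    _ ≤ ((k + 1).factorial * (2 * l) ^ (k + 1) : ℝ) * (3 * l) := by
        refine mul_le_mul_of_nonneg_left (hle.trans ?_) (by positivity)
        rw [one_div_one_div]
        (clear * - hl; linarith)
    _ = _ := by rw [mul_pow]; ring

/-- The point `1 + (1 - it) / l`. -/
noncomputable def st (l t : ℝ) : ℂ := 1 + (1 - t * Complex.I) / l

lemma st_re (l t : ℝ) : (st l t).re = 1 + 1 / l := by
  unfold st
  have : (1 - (t : ℂ) * Complex.I) / (l : ℂ) = ((1 / l : ℝ) : ℂ) + ((-t / l : ℝ) : ℂ) * Complex.I := by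
    push_cast
    ring
  rw [this]
  simp

lemma norm_term (k : ℕ) {q : ℕ} (χ : DirichletCharacter ℂ q) (l t : ℝ) (n : ℕ) :
    ‖LSeries.term (co k χ) (st l t) n‖ = bb k χ l n := by
  rw [LSeries.norm_term_eq, bb, st_re]
  split_ifs with h
  · rw [h, co_zero, norm_zero, zero_mul]
  · rw [Real.rpow_neg (Nat.cast_nonneg n), div_eq_mul_inv]

lemma term_eq (k : ℕ) {q : ℕ} (χ : DirichletCharacter ℂ q) (l t : ℝ) (n : ℕ) (hn : n ≠ 0) :
    LSeries.term (co k χ) (st l t) n = co k χ n * ((n : ℂ)⁻¹ * Complex.exp (-(Real.log n / l : ℝ))) *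
      Complex.exp (t * (Real.log n / l : ℝ) * Complex.I) := by
  have hn' : (0 : ℝ) < n := by exact_mod_cast Nat.pos_of_ne_zero hn
  have hnc : (n : ℂ) ≠ 0 := by exact_mod_cast hn
  rw [LSeries.term_of_ne_zero hn, div_eq_mul_inv, mul_assoc]
  congr 1
  rw [Complex.cpow_def_of_ne_zero hnc, ← Complex.exp_neg, mul_assoc, ← Complex.exp_add]
  have h1 : (n : ℂ)⁻¹ = Complex.exp (-(Real.log n : ℂ)) := by
    rw [Complex.exp_neg, Complex.natCast_log, Complex.exp_log hnc]
  rw [h1, ← Complex.exp_add, ← Complex.natCast_log]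
  congr 1
  unfold st
  push_cast
  ring

/-- The auxiliary test function. -/
noncomputable def gk (g : ℝ → ℝ) (k : ℕ) (v : ℝ) : ℝ := g v * (v⁻¹) ^ k * Real.exp v

lemma integral_term {h : ℝ → ℂ} (k : ℕ) {q : ℕ} (χ : DirichletCharacter ℂ q) (l : ℝ)
    (G : ℝ → ℝ) (hrep : ∀ v : ℝ, (G v : ℂ) = ∫ t : ℝ, h t * Complex.exp (t * v * Complex.I))
    (n : ℕ) : ∫ t, h t * LSeries.term (co k χ) (st l t) n =
      co k χ n * ((n : ℂ)⁻¹ * Complex.exp (-(Real.log n / l : ℝ))) * G (Real.log n / l) := by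
  rcases eq_or_ne n 0 with rfl | hn
  · simp [co_zero]
  · rw [hrep, ← integral_const_mul]
    congr 1
    ext t
    rw [term_eq k χ l t n hn]
    ring

lemma continuous_term (k : ℕ) {q : ℕ} (χ : DirichletCharacter ℂ q) (l : ℝ) (n : ℕ) :
    Continuous fun t : ℝ => LSeries.term (co k χ) (st l t) n := by
  rcases eq_or_ne n 0 with rfl | hn
  · simp [continuous_const]
  · have : (fun t : ℝ => LSeries.term (co k χ) (st l t) n) = fun t : ℝ =>
        co k χ n * ((n : ℂ)⁻¹ * Complex.exp (-(Real.log n / l : ℝ))) *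
          Complex.exp (t * (Real.log n / l : ℝ) * Complex.I) := by
      ext t
      exact term_eq k χ l t n hn
    rw [this]
    fun_prop

lemma st_sub_one_norm_le (l t : ℝ) (hl : 16 ≤ l) (ht : |t| ≤ l ^ (1 / 4 : ℝ)) :
    ‖st l t - 1‖ ≤ l ^ (-(1 / 2) : ℝ) := by
  have hl0 : 0 < l := by (clear * - hl; linarith)
  have h1 : st l t - 1 = (1 - t * Complex.I) / l := by
    unfold st
    ring
  set y := l ^ (1 / 4 : ℝ) with hy
  have hy2 : 2 ≤ y := by
    have : (16 : ℝ) ^ (1 / 4 : ℝ) = 2 := by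
      rw [show (16 : ℝ) = 2 ^ (4 : ℝ) by norm_num, ← Real.rpow_mul (by norm_num)]
      norm_num
    rw [← this]
    exact Real.rpow_le_rpow (by norm_num) hl (by norm_num)
  have hyy : y * y = l ^ (1 / 2 : ℝ) := by
    rw [hy, ← Real.rpow_add hl0]
    norm_num
  have h2 : ‖(1 : ℂ) - t * Complex.I‖ ≤ 1 + |t| := by
    refine (norm_sub_le _ _).trans ?_
    simp
  rw [h1, norm_div, Complex.norm_real, Real.norm_of_nonneg hl0.le]
  have h3 : l ^ (-(1 / 2) : ℝ) = l ^ (1 / 2 : ℝ) / l := by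
    rw [eq_div_iff hl0.ne']
    nth_rewrite 2 [← Real.rpow_one l]
    rw [← Real.rpow_add hl0]
    norm_num
  rw [h3]
  refine div_le_div_of_nonneg_right ?_ hl0.le
  rw [← hyy]
  (clear * - ht hy2 h2; nlinarith)

lemma norm_lseries_le (k : ℕ) {q : ℕ} (χ : DirichletCharacter ℂ q) (l t : ℝ) (hl : 1 ≤ l) :
    ‖LSeries (co k χ) (st l t)‖ ≤ ((k + 1).factorial * 2 ^ (k + 1) * 3) * l ^ (k + 2) := by
  obtain ⟨hs, hle⟩ := bb_sum k χ l hl
  refine le_trans ?_ hle
  unfold LSeries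
  refine (norm_tsum_le_tsum_norm ?_).trans (le_of_eq ?_)
  · simp only [norm_term]
    exact hs
  · simp only [norm_term]

end Pool.Agent.Helper81.BV

end

section

set_option autoImplicit false

open Finset

open Pool.Agent.Helper18.BV

namespace Pool.Agent.Helper96.BV

/-- Sum over a full period. -/
theorem sum_period {M : ℕ} [NeZero M] (f : ZMod M → ℂ) (c : ℕ) :
    ∑ i ∈ range M, f ((c + i : ℕ) : ZMod M) = ∑ z : ZMod M, f z := by
  refine Finset.sum_bij' (fun i _ => ((c + i : ℕ) : ZMod M)) (fun z _ => (z - (c : ZMod M)).val)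
    ?_ ?_ ?_ ?_ ?_
  · intro a _; exact Finset.mem_univ _
  · intro z _
    exact Finset.mem_range.2 (ZMod.val_lt _)
  · intro i hi
    have hi' := Finset.mem_range.1 hi
    push_cast
    rw [add_sub_cancel_left]
    exact ZMod.val_cast_of_lt hi'
  · intro z _
    push_cast
    rw [ZMod.natCast_zmod_val]
    ring
  · intro i _; rfl

/-- Interval sums of a nonprincipal character are bounded by the modulus. -/
theorem char_interval {M : ℕ} [NeZero M] (ψ : DirichletCharacter ℂ M) (hψ : ψ ≠ 1) (c : ℕ) :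
    ∀ n : ℕ, ‖∑ i ∈ range n, ψ ((c + i : ℕ) : ZMod M)‖ ≤ M := by
  intro n
  induction n using Nat.strong_induction_on with
  | _ n ih =>
    rcases Nat.lt_or_ge n M with h | h
    · calc ‖∑ i ∈ range n, ψ ((c + i : ℕ) : ZMod M)‖ ≤ ∑ i ∈ range n, ‖ψ ((c + i : ℕ) : ZMod M)‖ :=
            norm_sum_le _ _
        _ ≤ ∑ i ∈ range n, (1 : ℝ) := Finset.sum_le_sum (fun i _ => ψ.norm_le_one _)
        _ = n := by simp
        _ ≤ M := by exact_mod_cast h.le
    · have hM : 0 < M := Nat.pos_of_ne_zero (NeZero.ne M)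
      obtain ⟨k, rfl⟩ : ∃ k, n = k + M := ⟨n - M, by omega⟩
      have h0 : ∑ i ∈ range M, ψ ((c + (k + i) : ℕ) : ZMod M) = 0 := by
        have h1 := sum_period (fun z => ψ z) (c + k)
        have h2 : ∑ z : ZMod M, ψ z = 0 := MulChar.sum_eq_zero_of_ne_one hψ
        rw [h2] at h1
        rw [← h1]
        refine Finset.sum_congr rfl (fun i _ => ?_)
        rw [show c + (k + i) = c + k + i by ring]
      rw [Finset.sum_range_add, h0, add_zero]
      exact ih k (by omega)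

/-- Abel summation with the weights `1/m`. -/
theorem abel_bound (f : ℕ → ℂ) (U : ℕ) (K : ℝ) (hK : ∀ n : ℕ, ‖∑ m ∈ Ioc U n, f m‖ ≤ K)
    (N : ℕ) (hN : U + 1 ≤ N) :
    ‖∑ m ∈ Ioc U N, f m / m - (∑ m ∈ Ioc U N, f m) / N‖ ≤ K * (1 / (U + 1) - 1 / N) := by
  induction N, hN using Nat.le_induction with
  | base =>
    have h1 : Ioc U (U + 1) = {U + 1} := by
      ext m; simp only [Finset.mem_Ioc, Finset.mem_singleton]; omega
    rw [h1, Finset.sum_singleton, Finset.sum_singleton]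
    simp
  | succ N hN ih =>
    have hNpos : (0 : ℝ) < N := by
      have : 0 < N := by omega
      exact_mod_cast this
    have h1 : ∀ h : ℕ → ℂ, ∑ m ∈ Ioc U (N + 1), h m = ∑ m ∈ Ioc U N, h m + h (N + 1) := by
      intro h
      rw [Finset.sum_Ioc_succ_top (by omega : U ≤ N)]
    rw [h1, h1]
    have h2 : ∑ m ∈ Ioc U N, f m / m + f (N + 1) / ((N + 1 : ℕ) : ℂ) -
        (∑ m ∈ Ioc U N, f m + f (N + 1)) / ((N + 1 : ℕ) : ℂ) =
        (∑ m ∈ Ioc U N, f m / m - (∑ m ∈ Ioc U N, f m) / N) +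
          (∑ m ∈ Ioc U N, f m) * (((1 / (N : ℝ) - 1 / ((N + 1 : ℕ) : ℝ)) : ℝ) : ℂ) := by
      push_cast
      ring
    rw [h2]
    have h3 : 0 ≤ 1 / (N : ℝ) - 1 / ((N + 1 : ℕ) : ℝ) := by
      rw [sub_nonneg]
      apply one_div_le_one_div_of_le hNpos
      push_cast
      (clear * -; linarith)
    have h4 : ‖(∑ m ∈ Ioc U N, f m) * (((1 / (N : ℝ) - 1 / ((N + 1 : ℕ) : ℝ)) : ℝ) : ℂ)‖ ≤
        K * (1 / (N : ℝ) - 1 / ((N + 1 : ℕ) : ℝ)) := by
      rw [norm_mul, Complex.norm_real, Real.norm_of_nonneg h3]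
      exact mul_le_mul_of_nonneg_right (hK N) h3
    calc _ ≤ _ := norm_add_le _ _
      _ ≤ K * (1 / (U + 1) - 1 / N) + K * (1 / (N : ℝ) - 1 / ((N + 1 : ℕ) : ℝ)) :=
          add_le_add ih h4
      _ = _ := by ring

theorem abel_bound' (f : ℕ → ℂ) (U : ℕ) (K : ℝ) (hK0 : 0 ≤ K)
    (hK : ∀ n : ℕ, ‖∑ m ∈ Ioc U n, f m‖ ≤ K) (N : ℕ) :
    ‖∑ m ∈ Ioc U N, f m / m‖ ≤ K / (U + 1) := by
  rcases Nat.lt_or_ge U N with h | h
  · have h1 := abel_bound f U K hK N h
    have hNpos : (0 : ℝ) < N := by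
      have : 0 < N := by omega
      exact_mod_cast this
    have h2 : ‖(∑ m ∈ Ioc U N, f m) / (N : ℂ)‖ ≤ K * (1 / N) := by
      rw [norm_div, Complex.norm_natCast, div_eq_mul_one_div]
      exact mul_le_mul_of_nonneg_right (hK N) (by (clear * - hNpos; positivity))
    calc ‖∑ m ∈ Ioc U N, f m / m‖
        = ‖(∑ m ∈ Ioc U N, f m / m - (∑ m ∈ Ioc U N, f m) / N) + (∑ m ∈ Ioc U N, f m) / N‖ := by
          congr 1; ring
      _ ≤ K * (1 / (U + 1) - 1 / N) + K * (1 / N) := (norm_add_le _ _).trans (add_le_add h1 h2)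
      _ = K / (U + 1) := by ring
  · rw [Finset.Ioc_eq_empty (by omega)]
    simp only [Finset.sum_empty, norm_zero]
    (clear * - hK0; positivity)

/-- The quotient of two distinct primitive characters. -/
theorem exists_quot {q q' : ℕ} [NeZero q] [NeZero q'] (χ : DirichletCharacter ℂ q)
    (χ' : DirichletCharacter ℂ q') (h : χ.IsPrimitive) (h' : χ'.IsPrimitive)
    (hne : (⟨q, χ⟩ : Σ q : ℕ, DirichletCharacter ℂ q) ≠ ⟨q', χ'⟩) :
    ∃ ψ : DirichletCharacter ℂ (q * q'), ψ ≠ 1 ∧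
      ∀ m : ℕ, ψ (m : ZMod (q * q')) =
        χ (m : ZMod q) * (starRingEnd ℂ) (χ' (m : ZMod q')) := by
  have : NeZero (q * q') := ⟨mul_ne_zero (NeZero.ne q) (NeZero.ne q')⟩
  refine ⟨DirichletCharacter.changeLevel (dvd_mul_right q q') χ *
    (DirichletCharacter.changeLevel (dvd_mul_left q' q) χ')⁻¹, ?_, ?_⟩
  · intro h1
    have h2 : DirichletCharacter.changeLevel (dvd_mul_right q q') χ =
        DirichletCharacter.changeLevel (dvd_mul_left q' q) χ' := by
      exact mul_inv_eq_one.1 h1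
    have h3 := DirichletCharacter.conductor_changeLevel χ (dvd_mul_right q q')
    have h4 := DirichletCharacter.conductor_changeLevel χ' (dvd_mul_left q' q)
    rw [h2, h4] at h3
    rw [DirichletCharacter.isPrimitive_def] at h h'
    rw [h, h'] at h3
    subst h3
    apply hne
    have h5 : χ = χ' := DirichletCharacter.changeLevel_injective (dvd_mul_right _ _) h2
    rw [h5]
  · intro m
    rw [MulChar.mul_apply]
    by_cases hm : Nat.Coprime m (q * q')
    · have hu : IsUnit (m : ZMod (q * q')) := (ZMod.isUnit_iff_coprime _ _).2 hm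
      obtain ⟨u, hu'⟩ := hu
      have hc : ((u : ZMod (q * q')).cast : ZMod q) = (m : ZMod q) := by
        rw [hu']
        exact ZMod.cast_natCast (dvd_mul_right _ _) _
      have hc' : ((u : ZMod (q * q')).cast : ZMod q') = (m : ZMod q') := by
        rw [hu']
        exact ZMod.cast_natCast (dvd_mul_left _ _) _
      rw [← hu', MulChar.inv_apply_eq_inv', DirichletCharacter.changeLevel_eq_cast_of_dvd,
        DirichletCharacter.changeLevel_eq_cast_of_dvd, hc, hc']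
      congr 1
      have hn : ‖χ' (m : ZMod q')‖ = 1 := by
        have hm' : Nat.Coprime m q' := Nat.Coprime.coprime_mul_left_right hm
        have := DirichletCharacter.unit_norm_eq_one χ' (ZMod.unitOfCoprime m hm')
        simpa using this
      rw [Complex.inv_def, Complex.normSq_eq_norm_sq, hn]
      simp
    · have hz : DirichletCharacter.changeLevel (dvd_mul_right q q') χ (m : ZMod (q * q')) = 0 :=
        MulChar.map_nonunit _ (fun hu => hm ((ZMod.isUnit_iff_coprime _ _).1 hu))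
      rw [hz, zero_mul]
      rw [Nat.coprime_mul_iff_right, not_and_or] at hm
      rcases hm with hm | hm
      · have hz' : χ (m : ZMod q) = 0 :=
          MulChar.map_nonunit _ (fun hu => hm ((ZMod.isUnit_iff_coprime _ _).1 hu))
        rw [hz', zero_mul]
      · have hz' : χ' (m : ZMod q') = 0 :=
          MulChar.map_nonunit _ (fun hu => hm ((ZMod.isUnit_iff_coprime _ _).1 hu))
        rw [hz', map_zero, mul_zero]

/-- The off-diagonal sums. -/
theorem off_diag {q q' : ℕ} [NeZero q] [NeZero q'] (χ : DirichletCharacter ℂ q)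
    (χ' : DirichletCharacter ℂ q') (h : χ.IsPrimitive) (h' : χ'.IsPrimitive)
    (hne : (⟨q, χ⟩ : Σ q : ℕ, DirichletCharacter ℂ q) ≠ ⟨q', χ'⟩) (U N : ℕ) :
    ‖∑ m ∈ Ioc U N, χ (m : ZMod q) * (starRingEnd ℂ) (χ' (m : ZMod q')) / m‖ ≤
      (q * q' : ℝ) / (U + 1) := by
  have : NeZero (q * q') := ⟨mul_ne_zero (NeZero.ne q) (NeZero.ne q')⟩
  obtain ⟨ψ, hψ, hψ'⟩ := exists_quot χ χ' h h' hne
  have h1 : ∀ n : ℕ, ‖∑ m ∈ Ioc U n, χ (m : ZMod q) * (starRingEnd ℂ) (χ' (m : ZMod q'))‖ ≤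
      (q * q' : ℝ) := by
    intro n
    have h2 : ∑ m ∈ Ioc U n, χ (m : ZMod q) * (starRingEnd ℂ) (χ' (m : ZMod q')) =
        ∑ i ∈ range (n - U), ψ ((U + 1 + i : ℕ) : ZMod (q * q')) := by
      rw [← Finset.Ico_succ_succ_eq_Ioc, Finset.sum_Ico_eq_sum_range]
      rw [show Order.succ n - Order.succ U = n - U by
        simp only [Order.succ_eq_add_one]; omega]
      refine Finset.sum_congr rfl (fun i _ => ?_)
      rw [hψ' (U + 1 + i)]
      rfl
    rw [h2]
    have := char_interval ψ hψ (U + 1) (n - U)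
    push_cast at this ⊢
    exact this
  exact abel_bound' _ U _ (by (clear * -; positivity)) h1 N

end Pool.Agent.Helper96.BV

end

section

set_option autoImplicit false

open Finset

open scoped ArithmeticFunction.vonMangoldt

namespace Pool.Agent.Helper83.MT

open Pool.Agent.Helper1.MT

theorem nonprime_term {x : ℝ} (hx : 3 ≤ x) {n : ℕ} (hn : ¬ n.Prime) (h1 : x ^ (1 / 2 : ℝ) < n)
    (h2 : (n : ℝ) ≤ x) (hpp : IsPrimePow n) :
    Λ n / n ≤ Real.log x * x ^ (-(1 / 8) : ℝ) * (1 / (n.minFac : ℝ) ^ (3 / 2 : ℝ)) ∧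
      2 ≤ n.factorization n.minFac ∧
      n.minFac ^ n.factorization n.minFac = n := by
  have hpk := hpp.minFac_pow_factorization_eq
  have hx0 : 0 < x := by (clear * - hx; linarith)
  have hn0 : (0 : ℝ) < n := lt_of_le_of_lt (Real.rpow_nonneg hx0.le _) h1
  have hn1 : n ≠ 1 := hpp.ne_one
  have hp : n.minFac.Prime := Nat.minFac_prime hn1
  have hk : 2 ≤ n.factorization n.minFac := by
    by_contra hlt
    have h3 : n.factorization n.minFac = 0 ∨ n.factorization n.minFac = 1 := by omega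
    rcases h3 with h3 | h3
    · rw [h3, pow_zero] at hpk; exact hn1 hpk.symm
    · rw [h3, pow_one] at hpk
      rw [← hpk] at hn
      exact hn hp
  refine ⟨?_, hk, hpk⟩
  have hL : Λ n = Real.log n.minFac := by
    rw [ArithmeticFunction.vonMangoldt_apply, if_pos hpp]
  have hp0 : (0 : ℝ) < n.minFac := by exact_mod_cast hp.pos
  have hL1 : Λ n ≤ Real.log x := by
    rw [hL]
    apply Real.log_le_log hp0
    exact le_trans (by exact_mod_cast Nat.minFac_le (by exact_mod_cast hn0)) h2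
  have hlogx : 0 ≤ Real.log x := Real.log_nonneg (by (clear * - hx; linarith))
  have hsq : (n.minFac : ℝ) ^ (2 : ℝ) ≤ n := by
    rw [show (2 : ℝ) = ((2 : ℕ) : ℝ) by norm_num, Real.rpow_natCast]
    have : n.minFac ^ 2 ≤ n := by
      calc n.minFac ^ 2 ≤ n.minFac ^ n.factorization n.minFac :=
            Nat.pow_le_pow_right hp.pos hk
        _ = n := hpk
    exact_mod_cast this
  have hsplit : (n : ℝ) = (n : ℝ) ^ (1 / 4 : ℝ) * (n : ℝ) ^ (3 / 4 : ℝ) := by
    rw [← Real.rpow_add hn0]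
    norm_num
  have h4 : x ^ (1 / 8 : ℝ) ≤ (n : ℝ) ^ (1 / 4 : ℝ) := by
    have : x ^ (1 / 8 : ℝ) = (x ^ (1 / 2 : ℝ)) ^ (1 / 4 : ℝ) := by
      rw [← Real.rpow_mul hx0.le]; norm_num
    rw [this]
    exact Real.rpow_le_rpow (Real.rpow_nonneg hx0.le _) h1.le (by norm_num)
  have h5 : (n.minFac : ℝ) ^ (3 / 2 : ℝ) ≤ (n : ℝ) ^ (3 / 4 : ℝ) := by
    have : (n.minFac : ℝ) ^ (3 / 2 : ℝ) = ((n.minFac : ℝ) ^ (2 : ℝ)) ^ (3 / 4 : ℝ) := by
      rw [← Real.rpow_mul hp0.le]; norm_num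
    rw [this]
    exact Real.rpow_le_rpow (Real.rpow_nonneg hp0.le _) hsq (by norm_num)
  have h6 : (0 : ℝ) < x ^ (1 / 8 : ℝ) := Real.rpow_pos_of_pos hx0 _
  have h7 : (0 : ℝ) < (n.minFac : ℝ) ^ (3 / 2 : ℝ) := Real.rpow_pos_of_pos hp0 _
  have h8 : x ^ (1 / 8 : ℝ) * (n.minFac : ℝ) ^ (3 / 2 : ℝ) ≤ n := by
    rw [hsplit]
    exact mul_le_mul h4 h5 h7.le (Real.rpow_nonneg hn0.le _)
  calc Λ n / n ≤ Real.log x / n := by
        apply div_le_div_of_nonneg_right hL1 hn0.le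
    _ ≤ Real.log x / (x ^ (1 / 8 : ℝ) * (n.minFac : ℝ) ^ (3 / 2 : ℝ)) :=
        div_le_div_of_nonneg_left hlogx (mul_pos h6 h7) h8
    _ = _ := by
        rw [Real.rpow_neg hx0.le]
        (clear * - hp0 hx; field_simp)

theorem nonprime_bound : ∃ C : ℝ, 0 < C ∧ ∀ x : ℝ, 3 ≤ x → ∀ T : Finset ℕ,
    (∀ n ∈ T, ¬ n.Prime ∧ x ^ (1 / 2 : ℝ) < n ∧ (n : ℝ) ≤ x) →
    ∑ n ∈ T, Λ n / n ≤ C * Real.log x ^ 2 * x ^ (-(1 / 8) : ℝ) := by
  have hsum : Summable (fun n : ℕ => 1 / (n : ℝ) ^ (3 / 2 : ℝ)) :=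
    Real.summable_one_div_nat_rpow.2 (by norm_num)
  set S : ℝ := ∑' n : ℕ, 1 / (n : ℝ) ^ (3 / 2 : ℝ) with hS
  have hS0 : 0 ≤ S := tsum_nonneg fun n => by (clear * -; positivity)
  refine ⟨3 * (S + 1), by (clear * -; positivity), ?_⟩
  intro x hx T hT
  classical
  have hx0 : 0 < x := by (clear * - hx; linarith)
  have hlogx : 1 ≤ Real.log x := by
    rw [Real.le_log_iff_exp_le hx0]
    exact (Real.exp_one_lt_d9.le.trans (by norm_num)).trans hx
  set T' := T.filter IsPrimePow with hT'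
  have h1 : ∑ n ∈ T, Λ n / n = ∑ n ∈ T', Λ n / n := by
    symm
    apply Finset.sum_subset (Finset.filter_subset _ _)
    intro n hn hn'
    have : ¬ IsPrimePow n := fun h => hn' (Finset.mem_filter.2 ⟨hn, h⟩)
    rw [ArithmeticFunction.vonMangoldt_apply, if_neg this, zero_div]
  have hterm : ∀ n ∈ T', _ := fun n hn =>
    nonprime_term hx (hT n (Finset.mem_filter.1 hn).1).1 (hT n (Finset.mem_filter.1 hn).1).2.1
      (hT n (Finset.mem_filter.1 hn).1).2.2 (Finset.mem_filter.1 hn).2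
  set L : ℕ := ⌊2 * Real.log x⌋₊ with hL
  set φ : ℕ → ℕ × ℕ := fun n => (n.minFac, n.factorization n.minFac) with hφ
  have hinj : Set.InjOn φ T' := by
    intro a ha b hb hab
    have h2 := (hterm a ha).2.2
    have h3 := (hterm b hb).2.2
    simp only [hφ, Prod.mk.injEq] at hab
    rw [← h2, ← h3, hab.2, hab.1]
  have hmaps : ∀ n ∈ T', φ n ∈ (Icc 0 ⌊x⌋₊) ×ˢ (Icc 1 L) := by
    intro n hn
    obtain ⟨-, h3, h4⟩ := hterm n hn
    have hT0 := hT n (Finset.mem_filter.1 hn).1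
    have hpp := (Finset.mem_filter.1 hn).2
    have hn1 : n ≠ 1 := hpp.ne_one
    have hp : n.minFac.Prime := Nat.minFac_prime hn1
    have hnpos : 0 < n := hpp.pos
    rw [Finset.mem_product, Finset.mem_Icc, Finset.mem_Icc]
    refine ⟨⟨Nat.zero_le _, ?_⟩, ⟨by show 1 ≤ n.factorization n.minFac; omega, ?_⟩⟩
    · apply Nat.le_floor
      exact le_trans (by exact_mod_cast Nat.minFac_le hnpos) hT0.2.2
    · show n.factorization n.minFac ≤ L
      apply Nat.le_floor
      have h5 : (2 : ℝ) ^ n.factorization n.minFac ≤ x := by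
        refine le_trans ?_ hT0.2.2
        calc (2 : ℝ) ^ n.factorization n.minFac ≤ (n.minFac : ℝ) ^ n.factorization n.minFac := by
              apply pow_le_pow_left₀ (by norm_num)
              exact_mod_cast hp.two_le
          _ = n := by exact_mod_cast h4
      have h6 := Real.log_le_log (by positivity) h5
      rw [Real.log_pow] at h6
      have h7 := Real.log_two_gt_d9
      have h8 : (0 : ℝ) ≤ n.factorization n.minFac := Nat.cast_nonneg _
      (clear * - hlogx h6 h7; nlinarith)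
  have h2 : ∑ n ∈ T', 1 / (n.minFac : ℝ) ^ (3 / 2 : ℝ) ≤ L * S := by
    calc ∑ n ∈ T', 1 / (n.minFac : ℝ) ^ (3 / 2 : ℝ)
        = ∑ z ∈ T'.image φ, 1 / (z.1 : ℝ) ^ (3 / 2 : ℝ) := by
          rw [Finset.sum_image hinj]
      _ ≤ ∑ z ∈ (Icc 0 ⌊x⌋₊) ×ˢ (Icc 1 L), 1 / (z.1 : ℝ) ^ (3 / 2 : ℝ) := by
          apply Finset.sum_le_sum_of_subset_of_nonneg
          · intro z hz
            obtain ⟨n, hn, rfl⟩ := Finset.mem_image.1 hz
            exact hmaps n hn
          · intro z _ _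
            (clear * -; positivity)
      _ = L * ∑ p ∈ Icc 0 ⌊x⌋₊, 1 / (p : ℝ) ^ (3 / 2 : ℝ) := by
          rw [Finset.sum_product, Finset.mul_sum]
          apply Finset.sum_congr rfl
          intro p _
          simp
      _ ≤ L * S := by
          apply mul_le_mul_of_nonneg_left _ (Nat.cast_nonneg _)
          exact hsum.sum_le_tsum _ (fun n _ => by (clear * -; positivity))
  have hLle : (L : ℝ) ≤ 2 * Real.log x := Nat.floor_le (by (clear * - hlogx; linarith))
  have hc : 0 ≤ Real.log x * x ^ (-(1 / 8) : ℝ) := by positivity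
  rw [h1]
  calc ∑ n ∈ T', Λ n / n
      ≤ ∑ n ∈ T', Real.log x * x ^ (-(1 / 8) : ℝ) * (1 / (n.minFac : ℝ) ^ (3 / 2 : ℝ)) :=
        Finset.sum_le_sum fun n hn => (hterm n hn).1
    _ = Real.log x * x ^ (-(1 / 8) : ℝ) * ∑ n ∈ T', 1 / (n.minFac : ℝ) ^ (3 / 2 : ℝ) := by
        rw [← Finset.mul_sum]
    _ ≤ Real.log x * x ^ (-(1 / 8) : ℝ) * (L * S) := mul_le_mul_of_nonneg_left h2 hc
    _ ≤ Real.log x * x ^ (-(1 / 8) : ℝ) * ((2 * Real.log x) * S) := by
        apply mul_le_mul_of_nonneg_left _ hc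
        exact mul_le_mul_of_nonneg_right hLle hS0
    _ ≤ 3 * (S + 1) * Real.log x ^ 2 * x ^ (-(1 / 8) : ℝ) := by
        have h9 : 0 ≤ x ^ (-(1 / 8) : ℝ) := Real.rpow_nonneg hx0.le _
        have h10 : Real.log x * x ^ (-(1 / 8) : ℝ) * ((2 * Real.log x) * S) =
          (2 * S) * (Real.log x ^ 2 * x ^ (-(1 / 8) : ℝ)) := by ring
        have h11 : 3 * (S + 1) * Real.log x ^ 2 * x ^ (-(1 / 8) : ℝ) =
          (3 * (S + 1)) * (Real.log x ^ 2 * x ^ (-(1 / 8) : ℝ)) := by ring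
        rw [h10, h11]
        apply mul_le_mul_of_nonneg_right _ (by positivity)
        (clear * - hS0; linarith)

end Pool.Agent.Helper83.MT

end

section

set_option autoImplicit false

open Finset Filter Topology

open scoped ArithmeticFunction.vonMangoldt

namespace Pool.Agent.Helper72.MT

open Pool.Agent.Helper1.MT

open Pool.Agent.Helper83.MT

theorem eventually_smallU (K : ℕ) {C1 C2 A : ℝ} (hC1 : 0 < C1) (hC2 : 0 < C2) :
    ∀ᶠ x : ℝ in atTop, ((C1 * Real.log x) ^ K) ^ 2 *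
      (1 / Real.log x ^ (((2 * K + 1 : ℕ) : ℝ) + A) +
        x ^ (4 / 81 : ℝ) * (C2 * Real.log x ^ 2 * x ^ (-(1 / 8) : ℝ))) ≤
      1 / Real.log x ^ A := by
  have hlog := Real.tendsto_log_atTop.eventually_ge_atTop (max 1 (2 * (C1 ^ K) ^ 2))
  have hA' : 0 < (C1 ^ K) ^ 2 * C2 := by positivity
  have hlit := (isLittleO_log_rpow_rpow_atTop (s := 49 / 648) (((2 * K + 2 : ℕ) : ℝ) + A)
    (by norm_num)).bound (show (0 : ℝ) < 1 / (2 * ((C1 ^ K) ^ 2 * C2)) by (clear * - hC1 hC2; positivity))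
  filter_upwards [hlog, hlit, eventually_gt_atTop 1] with x h1 h2 hx
  have hx0 : 0 < x := by (clear * - hx; linarith)
  have hl1 : 1 ≤ Real.log x := (le_max_left _ _).trans h1
  have hl2 : 2 * (C1 ^ K) ^ 2 ≤ Real.log x := (le_max_right _ _).trans h1
  have hl0 : 0 < Real.log x := by (clear * - hl1; linarith)
  rw [Real.norm_of_nonneg (Real.rpow_nonneg hl0.le _),
    Real.norm_of_nonneg (Real.rpow_nonneg hx0.le _), Real.rpow_add hl0, Real.rpow_natCast] at h2
  rw [Real.rpow_add hl0, Real.rpow_natCast, mul_add]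
  set Z : ℝ := Real.log x ^ A with hZ
  have hZ0 : 0 < Z := Real.rpow_pos_of_pos hl0 _
  have h3 : ((C1 * Real.log x) ^ K) ^ 2 * (1 / (Real.log x ^ (2 * K + 1) * Z)) ≤
      1 / 2 * (1 / Z) := by
    have h4 : ((C1 * Real.log x) ^ K) ^ 2 * (1 / (Real.log x ^ (2 * K + 1) * Z)) =
        ((C1 ^ K) ^ 2 / Real.log x) * (1 / Z) := by
      have h0 : Real.log x ^ (2 * K + 1) = (Real.log x ^ K) ^ 2 * Real.log x := by
        rw [pow_succ, mul_comm 2 K, pow_mul]
      rw [mul_pow, mul_pow, h0]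
      have : Real.log x ^ K ≠ 0 := by positivity
      field_simp
    rw [h4]
    apply mul_le_mul_of_nonneg_right _ (by positivity)
    rw [div_le_iff₀ hl0]
    (clear * - hl2; linarith)
  have h5 : ((C1 * Real.log x) ^ K) ^ 2 *
      (x ^ (4 / 81 : ℝ) * (C2 * Real.log x ^ 2 * x ^ (-(1 / 8) : ℝ))) ≤ 1 / 2 * (1 / Z) := by
    have h6 : x ^ (4 / 81 : ℝ) * x ^ (-(1 / 8) : ℝ) * x ^ (49 / 648 : ℝ) = 1 := by
      rw [← Real.rpow_add hx0, ← Real.rpow_add hx0]
      norm_num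
    have h7 : ((C1 * Real.log x) ^ K) ^ 2 *
        (x ^ (4 / 81 : ℝ) * (C2 * Real.log x ^ 2 * x ^ (-(1 / 8) : ℝ))) =
        ((C1 ^ K) ^ 2 * C2) * (x ^ (4 / 81 : ℝ) * x ^ (-(1 / 8) : ℝ)) * (1 / Z) *
          (Real.log x ^ (2 * K + 2) * Z) := by
      have h0 : Real.log x ^ (2 * K + 2) = (Real.log x ^ K) ^ 2 * Real.log x ^ 2 := by
        rw [pow_add, mul_comm 2 K, pow_mul]
      rw [mul_pow, mul_pow, h0]
      field_simp
    have h8 : 0 ≤ x ^ (4 / 81 : ℝ) * x ^ (-(1 / 8) : ℝ) :=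
      mul_nonneg (Real.rpow_nonneg hx0.le _) (Real.rpow_nonneg hx0.le _)
    rw [h7]
    calc ((C1 ^ K) ^ 2 * C2) * (x ^ (4 / 81 : ℝ) * x ^ (-(1 / 8) : ℝ)) * (1 / Z) *
          (Real.log x ^ (2 * K + 2) * Z)
        ≤ ((C1 ^ K) ^ 2 * C2) * (x ^ (4 / 81 : ℝ) * x ^ (-(1 / 8) : ℝ)) * (1 / Z) *
          (1 / (2 * ((C1 ^ K) ^ 2 * C2)) * x ^ (49 / 648 : ℝ)) :=
          mul_le_mul_of_nonneg_left h2 (by (clear * - hC1 hC2 hx hl1; positivity))
      _ = (((C1 ^ K) ^ 2 * C2) * (1 / (2 * ((C1 ^ K) ^ 2 * C2)))) *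
          (x ^ (4 / 81 : ℝ) * x ^ (-(1 / 8) : ℝ) * x ^ (49 / 648 : ℝ)) * (1 / Z) := by ring
      _ = 1 / 2 * (1 / Z) := by
          rw [h6, mul_one]
          congr 1
          field_simp
  linarith

end Pool.Agent.Helper72.MT

end

section

set_option autoImplicit false

open Finset

namespace Pool.Agent.Helper68.MT

open Pool.Agent.Helper1.MT

/-- the factor of a number -/
noncomputable def FF (m : ℕ) : ℝ := ∏ p ∈ m.primeFactors, (1 + 1 / (p : ℝ))

theorem one_le_fac (p : ℕ) : (1 : ℝ) ≤ 1 + 1 / (p : ℝ) :=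
  le_add_of_nonneg_right (by (clear * -; positivity))

theorem one_le_prod_fac (s : Finset ℕ) : (1 : ℝ) ≤ ∏ p ∈ s, (1 + 1 / (p : ℝ)) := by
  have h := Finset.prod_le_prod (s := s) (f := fun _ => (1 : ℝ)) (g := fun p : ℕ => 1 + 1 / (p : ℝ))
    (fun _ _ => zero_le_one) (fun p _ => one_le_fac p)
  simpa using h

theorem FF_nonneg (m : ℕ) : 0 ≤ FF m := zero_le_one.trans (one_le_prod_fac _)

theorem prod_union_le (s t : Finset ℕ) :
    ∏ p ∈ s ∪ t, (1 + 1 / (p : ℝ)) ≤
      (∏ p ∈ s, (1 + 1 / (p : ℝ))) * ∏ p ∈ t, (1 + 1 / (p : ℝ)) := by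
  rw [← Finset.prod_union_inter]
  exact le_mul_of_one_le_right (zero_le_one.trans (one_le_prod_fac _)) (one_le_prod_fac _)

theorem prod_primeFactors_le {ι : Type} (s : Finset ι) (m : ι → ℕ) (hm : ∀ i ∈ s, m i ≠ 0) :
    ∏ p ∈ (∏ i ∈ s, m i).primeFactors, (1 + 1 / (p : ℝ)) ≤ ∏ i ∈ s, FF (m i) := by
  classical
  induction s using Finset.induction_on with
  | empty => simp
  | insert i s hi ih =>
    have h1 : ∏ i ∈ s, m i ≠ 0 :=
      Finset.prod_ne_zero_iff.2 fun j hj => hm j (mem_insert_of_mem hj)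
    rw [Finset.prod_insert hi, Finset.prod_insert hi,
      Nat.primeFactors_mul (hm i (mem_insert_self _ _)) h1]
    refine (prod_union_le _ _).trans ?_
    exact mul_le_mul_of_nonneg_left (ih fun j hj => hm j (mem_insert_of_mem hj)) (FF_nonneg _)

theorem prod_le_sum_pow {K : ℕ} (hK : 0 < K) (a : Fin K → ℝ) (ha : ∀ i, 0 ≤ a i) :
    ∏ i, a i ≤ ∑ i, a i ^ K := by
  haveI : Nonempty (Fin K) := ⟨⟨0, hK⟩⟩
  obtain ⟨i0, -, h0⟩ := Finset.exists_max_image (univ : Finset (Fin K)) a univ_nonempty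
  calc ∏ i, a i ≤ ∏ _i : Fin K, a i0 := Finset.prod_le_prod (fun i _ => ha i) fun i _ => h0 i
        (mem_univ i)
    _ = a i0 ^ K := by simp
    _ ≤ ∑ i, a i ^ K := Finset.single_le_sum (f := fun i => a i ^ K)
        (fun i _ => pow_nonneg (ha i) K) (mem_univ i0)

theorem sum_abs_le (Y h : ℕ) (hh : h ≤ Y) (G : ℕ → ℝ) (hG : ∀ m, 0 ≤ G m) :
    ∑ j ∈ (range (Y + 1)).filter (fun j => h ≠ j), G ((h : ℤ) - j).natAbs ≤
      2 * ∑ m ∈ Icc 1 Y, G m := by
  classical
  have hsplit : (range (Y + 1)).filter (fun j => h ≠ j) =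
      (range (Y + 1)).filter (fun j => j < h) ∪ (range (Y + 1)).filter (fun j => h < j) := by
    ext j
    simp only [mem_filter, mem_union, mem_range]
    omega
  have hdisj : Disjoint ((range (Y + 1)).filter (fun j => j < h))
      ((range (Y + 1)).filter (fun j => h < j)) := by
    rw [Finset.disjoint_left]
    intro j h1 h2
    simp only [mem_filter] at h1 h2
    omega
  rw [hsplit, Finset.sum_union hdisj, two_mul]
  have key : ∀ s : Finset ℕ, (∀ j ∈ s, 1 ≤ ((h : ℤ) - j).natAbs ∧ ((h : ℤ) - j).natAbs ≤ Y) →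
      (∀ j ∈ s, ∀ j' ∈ s, ((h : ℤ) - j).natAbs = ((h : ℤ) - j').natAbs → j = j') →
      ∑ j ∈ s, G ((h : ℤ) - j).natAbs ≤ ∑ m ∈ Icc 1 Y, G m := by
    intro s hs1 hs2
    rw [← Finset.sum_image (f := G) (g := fun j : ℕ => ((h : ℤ) - j).natAbs)
      (fun j hj j' hj' e => hs2 j hj j' hj' e)]
    refine Finset.sum_le_sum_of_subset_of_nonneg ?_ fun m _ _ => hG m
    intro m hm
    obtain ⟨j, hj, rfl⟩ := Finset.mem_image.1 hm
    exact mem_Icc.2 (hs1 j hj)
  refine add_le_add (key _ ?_ ?_) (key _ ?_ ?_)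
  · intro j hj
    simp only [mem_filter, mem_range] at hj
    omega
  · intro j hj j' hj' e
    simp only [mem_filter, mem_range] at hj hj'
    omega
  · intro j hj
    simp only [mem_filter, mem_range] at hj
    omega
  · intro j hj j' hj' e
    simp only [mem_filter, mem_range] at hj hj'
    omega

theorem one_add_pow_le (K : ℕ) {x : ℝ} (hx0 : 0 ≤ x) (hx1 : x ≤ 1) :
    (1 + x) ^ K ≤ 1 + (2 ^ K - 1) * x := by
  induction K with
  | zero => simp
  | succ K ih =>
    have h1 : (1 : ℝ) ≤ 2 ^ K := one_le_pow₀ (by norm_num)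
    have h2 : x ^ 2 ≤ x := by (clear * - hx0 hx1; nlinarith)
    calc (1 + x) ^ (K + 1) = (1 + x) ^ K * (1 + x) := pow_succ _ _
      _ ≤ (1 + (2 ^ K - 1) * x) * (1 + x) := mul_le_mul_of_nonneg_right ih (by linarith)
      _ = 1 + 2 ^ K * x + (2 ^ K - 1) * x ^ 2 := by ring
      _ ≤ 1 + 2 ^ K * x + (2 ^ K - 1) * x := by (clear * - h1 h2; nlinarith)
      _ = 1 + (2 ^ (K + 1) - 1) * x := by ring

/-- the local function -/
noncomputable def gg (K p : ℕ) : ℝ := (1 + 1 / (p : ℝ)) ^ K - 1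

theorem gg_nonneg (K p : ℕ) : 0 ≤ gg K p := by
  unfold gg
  have := one_le_pow₀ (n := K) (one_le_fac p)
  (clear * - this; linarith)

theorem gg_le (K : ℕ) {p : ℕ} (hp : 1 ≤ p) : gg K p ≤ 2 ^ K * (1 / (p : ℝ)) := by
  unfold gg
  have hp' : (1 : ℝ) ≤ p := by exact_mod_cast hp
  have h1 : 1 / (p : ℝ) ≤ 1 := (div_le_one (by (clear * - hp'; linarith))).2 hp'
  have h0 : 0 ≤ 1 / (p : ℝ) := by (clear * - hp; positivity)
  have := one_add_pow_le K h0 h1
  (clear * - h0 this; nlinarith)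

theorem FF_pow (K m : ℕ) :
    FF m ^ K = ∑ S ∈ m.primeFactors.powerset, ∏ p ∈ S, gg K p := by
  unfold FF
  rw [← Finset.prod_pow, ← Finset.prod_one_add]
  refine Finset.prod_congr rfl fun p _ => ?_
  unfold gg
  ring

theorem count_le (Y : ℕ) (S : Finset ℕ) (hS : ∀ p ∈ S, p.Prime) :
    (((Icc 1 Y).filter (fun m => S ⊆ m.primeFactors)).card : ℝ) ≤ Y / ∏ p ∈ S, (p : ℝ) := by
  have h1 : (Icc 1 Y).filter (fun m => S ⊆ m.primeFactors) ⊆
      (Ioc 0 Y).filter (fun m => (∏ p ∈ S, p) ∣ m) := by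
    intro m hm
    obtain ⟨h2, h3⟩ := mem_filter.1 hm
    refine mem_filter.2 ⟨mem_Ioc.2 (by have := mem_Icc.1 h2; omega), ?_⟩
    exact Finset.prod_primes_dvd m (fun p hp => (hS p hp).prime)
      fun p hp => Nat.dvd_of_mem_primeFactors (h3 hp)
  have h2 := Finset.card_le_card h1
  rw [Nat.Ioc_filter_dvd_card_eq_div] at h2
  have h3 : (((Icc 1 Y).filter (fun m => S ⊆ m.primeFactors)).card : ℝ) ≤
      ((Y / ∏ p ∈ S, p : ℕ) : ℝ) := by exact_mod_cast h2
  refine h3.trans (Nat.cast_div_le.trans ?_)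
  push_cast
  exact le_rfl

theorem sum_inv_sq_le (Y : ℕ) :
    ∑ p ∈ (range (Y + 1)).filter Nat.Prime, 1 / (p : ℝ) ^ 2 ≤ 2 := by
  have h1 := sum_Ioo_inv_sq_le (α := ℝ) 0 (Y + 1)
  have h2 : ∑ p ∈ (range (Y + 1)).filter Nat.Prime, 1 / (p : ℝ) ^ 2 ≤
      ∑ i ∈ Ioo 0 (Y + 1), ((i : ℝ) ^ 2)⁻¹ := by
    refine (Finset.sum_le_sum_of_subset_of_nonneg (t := Ioo 0 (Y + 1)) ?_
      fun i _ _ => by (clear * -; positivity)).trans (Finset.sum_le_sum fun i _ => by rw [one_div])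
    intro p hp
    obtain ⟨h3, h4⟩ := mem_filter.1 hp
    exact mem_Ioo.2 ⟨h4.pos, mem_range.1 h3⟩
  norm_num at h1 h2 ⊢
  linarith

theorem moment (K Y : ℕ) :
    ∑ m ∈ Icc 1 Y, FF m ^ K ≤ Real.exp (2 ^ K * 2) * Y := by
  classical
  set PY := (range (Y + 1)).filter Nat.Prime with hPY
  have hsub : ∀ m ∈ Icc 1 Y, m.primeFactors ⊆ PY := by
    intro m hm p hp
    have h1 := mem_Icc.1 hm
    have h2 := Nat.prime_of_mem_primeFactors hp
    have h3 := Nat.le_of_mem_primeFactors hp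
    exact mem_filter.2 ⟨mem_range.2 (by omega), h2⟩
  calc ∑ m ∈ Icc 1 Y, FF m ^ K
      = ∑ m ∈ Icc 1 Y, ∑ S ∈ PY.powerset,
          if S ⊆ m.primeFactors then ∏ p ∈ S, gg K p else 0 := by
        refine Finset.sum_congr rfl fun m hm => ?_
        rw [FF_pow, ← Finset.sum_filter]
        refine Finset.sum_congr ?_ fun _ _ => rfl
        ext S
        simp only [mem_powerset, mem_filter]
        exact ⟨fun h => ⟨h.trans (hsub m hm), h⟩, fun h => h.2⟩
    _ = ∑ S ∈ PY.powerset, ∑ m ∈ Icc 1 Y,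
          if S ⊆ m.primeFactors then ∏ p ∈ S, gg K p else 0 := Finset.sum_comm
    _ = ∑ S ∈ PY.powerset,
          (((Icc 1 Y).filter (fun m => S ⊆ m.primeFactors)).card : ℝ) * ∏ p ∈ S, gg K p := by
        refine Finset.sum_congr rfl fun S _ => ?_
        rw [← Finset.sum_filter, Finset.sum_const, nsmul_eq_mul]
    _ ≤ ∑ S ∈ PY.powerset, (Y / ∏ p ∈ S, (p : ℝ)) * ∏ p ∈ S, gg K p := by
        refine Finset.sum_le_sum fun S hS => ?_
        refine mul_le_mul_of_nonneg_right (count_le Y S fun p hp => ?_)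
          (Finset.prod_nonneg fun p _ => gg_nonneg K p)
        exact (mem_filter.1 (mem_powerset.1 hS hp)).2
    _ = Y * ∑ S ∈ PY.powerset, ∏ p ∈ S, (gg K p / p) := by
        rw [Finset.mul_sum]
        refine Finset.sum_congr rfl fun S _ => ?_
        rw [Finset.prod_div_distrib]
        ring
    _ = Y * ∏ p ∈ PY, (1 + gg K p / p) := by rw [Finset.prod_one_add]
    _ ≤ Y * Real.exp (2 ^ K * 2) := by
        refine mul_le_mul_of_nonneg_left ?_ (Nat.cast_nonneg Y)
        calc ∏ p ∈ PY, (1 + gg K p / p) ≤ ∏ p ∈ PY, Real.exp (gg K p / p) := by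
              refine Finset.prod_le_prod (fun p _ => ?_) fun p _ => ?_
              · have := gg_nonneg K p
                (clear * - this; positivity)
              · rw [add_comm]
                exact Real.add_one_le_exp _
          _ = Real.exp (∑ p ∈ PY, gg K p / p) := (Real.exp_sum _ _).symm
          _ ≤ Real.exp (2 ^ K * 2) := by
              refine Real.exp_le_exp.2 ?_
              calc ∑ p ∈ PY, gg K p / p ≤ ∑ p ∈ PY, 2 ^ K * (1 / (p : ℝ) ^ 2) := by
                    refine Finset.sum_le_sum fun p hp => ?_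
                    have hp1 : 1 ≤ p := (mem_filter.1 hp).2.one_le
                    have h1 := gg_le K hp1
                    calc gg K p / p ≤ (2 ^ K * (1 / (p : ℝ))) / p :=
                          div_le_div_of_nonneg_right h1 (Nat.cast_nonneg p)
                      _ = 2 ^ K * (1 / (p : ℝ) ^ 2) := by
                          rw [mul_div_assoc, div_div, sq]
                _ = 2 ^ K * ∑ p ∈ PY, 1 / (p : ℝ) ^ 2 := by rw [Finset.mul_sum]
                _ ≤ 2 ^ K * 2 := mul_le_mul_of_nonneg_left (sum_inv_sq_le Y) (by positivity)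
    _ = Real.exp (2 ^ K * 2) * Y := mul_comm _ _

theorem singAvg : SingAvg := by
  classical
  intro K
  rcases Nat.eq_zero_or_pos K with rfl | hK
  · refine ⟨2, by norm_num, fun Y h hY _ => ?_⟩
    simp only [univ_eq_empty, prod_empty, Nat.primeFactors_one, sum_const, nsmul_eq_mul, mul_one]
    have h1 : ((range (Y + 1)).filter (fun j => ∀ i : Fin 0, h i ≠ j)).card ≤ Y + 1 :=
      (card_filter_le _ _).trans (by simp)
    have h2 : (((range (Y + 1)).filter (fun j => ∀ i : Fin 0, h i ≠ j)).card : ℝ) ≤ Y + 1 := by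
      exact_mod_cast h1
    have h3 : (1 : ℝ) ≤ Y := by exact_mod_cast hY
    (clear * - h2 h3; linarith)
  · refine ⟨2 * K * Real.exp (2 ^ K * 2), by positivity, fun Y h hY hh => ?_⟩
    set T := (range (Y + 1)).filter (fun j => ∀ i, h i ≠ j) with hT
    have hne : ∀ j ∈ T, ∀ i, ((h i : ℤ) - j).natAbs ≠ 0 := by
      intro j hj i
      have := (mem_filter.1 hj).2 i
      omega
    calc ∑ j ∈ T, ∏ p ∈ (∏ i, ((h i : ℤ) - j).natAbs).primeFactors, (1 + 1 / (p : ℝ))
        ≤ ∑ j ∈ T, ∏ i, FF ((h i : ℤ) - j).natAbs :=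
          Finset.sum_le_sum fun j hj => prod_primeFactors_le univ _ fun i _ => hne j hj i
      _ ≤ ∑ j ∈ T, ∑ i, FF ((h i : ℤ) - j).natAbs ^ K :=
          Finset.sum_le_sum fun j _ => prod_le_sum_pow hK _ fun i => FF_nonneg _
      _ = ∑ i, ∑ j ∈ T, FF ((h i : ℤ) - j).natAbs ^ K := Finset.sum_comm
      _ ≤ ∑ _i : Fin K, 2 * (Real.exp (2 ^ K * 2) * Y) := by
          refine Finset.sum_le_sum fun i _ => ?_
          refine (Finset.sum_le_sum_of_subset_of_nonneg
            (t := (range (Y + 1)).filter (fun j => h i ≠ j)) ?_ fun j _ _ =>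
              pow_nonneg (FF_nonneg _) K).trans ?_
          · intro j hj
            have := mem_filter.1 hj
            exact mem_filter.2 ⟨this.1, this.2 i⟩
          · refine (sum_abs_le Y (h i) (hh i) (fun m => FF m ^ K) fun m =>
              pow_nonneg (FF_nonneg _) K).trans ?_
            exact mul_le_mul_of_nonneg_left (moment K Y) (by norm_num)
      _ = 2 * K * Real.exp (2 ^ K * 2) * Y := by
          rw [Finset.sum_const, card_univ, Fintype.card_fin, nsmul_eq_mul]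
          ring

end Pool.Agent.Helper68.MT

end
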