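import Mathlib

/-!
Parts of Helper1.MT.Defs, Helper1.MT.DefsU, Helper1.MT.Bounds, Helper1.MT.BoundsU, Helper90.MT.Common, Helper90.MT.LowerMain, Helper12.MT.Star, Helper18.BV.St, Helper74.MT.BVAux, Helper18.BV.EstermannLemma, Helper18.BV.Vaughan, Helper79.BV.Alt, Helper37.BV.SiegelReal, Helper46.BV.FourierRep, Helper79.BV.Near, Helper96.BV.TLS, Helper44.BV.TypeOne, Helper96.BV.TypeTwo, Helper51.BV.Average, Helper83.MT.Comb, Helper72.MT.SumPrimeU, Helper28.MT.OneDim
-/

namespace Pool.Agent.Helper1.MT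
end Pool.Agent.Helper1.MT
namespace Pool.Agent.Helper18.BV
end Pool.Agent.Helper18.BV
namespace Pool.Agent.Helper83.MT
end Pool.Agent.Helper83.MT

section

set_option autoImplicit false

open Finset

open scoped ArithmeticFunction.vonMangoldt

namespace Pool.Agent.Helper1.MT

/-- The level of the sieve. -/
noncomputable def lev (x : ℝ) : ℕ := ⌊x ^ (1 / 81 : ℝ)⌋₊

end Pool.Agent.Helper1.MT

end

section

set_option autoImplicit false

open Finset

open scoped ArithmeticFunction.vonMangoldt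

namespace Pool.Agent.Helper1.MT

/-- `W` is divisible by all primes below `D0` and its other prime factors have a bounded sum of
reciprocals. -/
structure Reg (D0 W : ℕ) : Prop where
  pos : 0 < W
  small : ∀ p : ℕ, p.Prime → p < D0 → p ∣ W
  few : ∑ p ∈ W.primeFactors.filter (fun p => D0 ≤ p), 1 / (p : ℝ) ≤ 1

end Pool.Agent.Helper1.MT

end

section

set_option autoImplicit false

open Finset Filter

open scoped ArithmeticFunction.vonMangoldt

namespace Pool.Agent.Helper1.MT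

theorem lev_tendsto : Tendsto lev atTop atTop :=
  (tendsto_nat_floor_atTop (α := ℝ)).comp (tendsto_rpow_atTop (by norm_num))

theorem lev_log : ∀ᶠ x : ℝ in atTop, Real.log x ≤ 82 * Real.log (lev x) := by
  have h1 : ∀ᶠ x : ℝ in atTop, 1 ≤ lev x := lev_tendsto.eventually_ge_atTop 1
  filter_upwards [h1, eventually_ge_atTop (1 : ℝ),
    Real.tendsto_log_atTop.eventually_ge_atTop (10000 : ℝ)] with x hx hx1 hx2
  have h2 : x ^ (1 / 81 : ℝ) < lev x + 1 := Nat.lt_floor_add_one _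
  have h3 : (lev x : ℝ) + 1 ≤ 2 * lev x := by
    have : (1 : ℝ) ≤ lev x := by exact_mod_cast hx
    (clear * - this; linarith)
  have hpos : 0 < x ^ (1 / 81 : ℝ) := Real.rpow_pos_of_pos (by (clear * - hx1; linarith)) _
  have h4 : Real.log (x ^ (1 / 81 : ℝ)) ≤ Real.log (2 * lev x) :=
    Real.log_le_log hpos (h2.le.trans h3)
  rw [Real.log_rpow (by (clear * - hx1; linarith)), Real.log_mul (by norm_num) (by positivity)] at h4
  have h5 := Real.log_two_lt_d9
  (clear * - hx2 h4 h5; linarith)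

end Pool.Agent.Helper1.MT

end

section

set_option autoImplicit false

open Finset Filter

open scoped ArithmeticFunction.vonMangoldt

namespace Pool.Agent.Helper1.MT

/-- The shifts together with one further integer `j`. -/
def ext {κ : Type} (h : κ → ℕ) (j : ℕ) : Option κ → ℕ := fun o => o.elim j h

end Pool.Agent.Helper1.MT

end

section

set_option autoImplicit false

open Finset

namespace Pool.Agent.Helper90.MT

open Pool.Agent.Helper1.MT

variable {ι κ : Type} [Fintype ι] [Fintype κ] [DecidableEq ι] [DecidableEq κ]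

theorem exp_le_two {x : ℝ} (h0 : 0 ≤ x) (h1 : x ≤ 1 / 2) : Real.exp x ≤ 1 + 2 * x := by
  have h := Real.exp_bound_div_one_sub_of_interval h0 (by linarith : x < 1)
  refine h.trans ?_
  rw [div_le_iff₀ (by (clear * - h1; linarith))]
  (clear * - h0 h1; nlinarith)

/-- `∏ (1 - x_p) ≥ 1 - ∑ x_p`. -/
theorem one_sub_le_prod (x : ι → ℝ) (S : Finset ι) (h0 : ∀ p, 0 ≤ x p) (h1 : ∀ p, x p ≤ 1) :
    1 - ∑ p ∈ S, x p ≤ ∏ p ∈ S, (1 - x p) := by
  induction S using Finset.induction_on with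
  | empty => simp
  | insert p S hp ih =>
    rw [Finset.sum_insert hp, Finset.prod_insert hp]
    have h2 : ∏ q ∈ S, (1 - x q) ≤ 1 :=
      Finset.prod_le_one (fun q _ => by linarith [h1 q]) fun q _ => by linarith [h0 q]
    have h3 := h0 p
    nlinarith

end Pool.Agent.Helper90.MT

end

section

set_option autoImplicit false

open Finset

namespace Pool.Agent.Helper90.MT

open Pool.Agent.Helper1.MT

variable {ι κ : Type} [Fintype ι] [Fintype κ] [DecidableEq ι] [DecidableEq κ]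

/-- The signed local kernel. -/
def k2 (m : κ) (w w' : ℝ) : Option κ → Option κ → ℝ
  | none, none => 1
  | none, some j => if j = m then w else -(w' - w)
  | some _, none => 0
  | some i, some j => if i = j then 1 else 0

/-- The part of the kernel with additions of colour `m` only. -/
def kA (m : κ) (w : ℝ) : Option κ → Option κ → ℝ
  | none, none => 1
  | none, some j => if j = m then w else 0
  | some _, none => 0
  | some i, some j => if i = j then 1 else 0

/-- The part of the kernel with additions of colours different from `m` only. -/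
def kB (m : κ) (e : ℝ) : Option κ → Option κ → ℝ
  | none, none => 1
  | none, some j => if j = m then 0 else e
  | some _, none => 0
  | some i, some j => if i = j then 1 else 0

theorem kA_nonneg (m : κ) {w : ℝ} (hw : 0 ≤ w) (a b : Option κ) : 0 ≤ kA m w a b := by
  rcases a with _ | i
  · rcases b with _ | j
    · simp [kA]
    · unfold kA
      dsimp only
      split_ifs
      · exact hw
      · exact le_rfl
  · rcases b with _ | j
    · simp [kA]
    · unfold kA
      dsimp only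
      split_ifs
      · exact zero_le_one
      · exact le_rfl

theorem kB_nonneg (m : κ) {e : ℝ} (he : 0 ≤ e) (a b : Option κ) : 0 ≤ kB m e a b := by
  rcases a with _ | i
  · rcases b with _ | j
    · simp [kB]
    · unfold kB
      dsimp only
      split_ifs
      · exact le_rfl
      · exact he
  · rcases b with _ | j
    · simp [kB]
    · unfold kB
      dsimp only
      split_ifs
      · exact zero_le_one
      · exact le_rfl

theorem k2_cases (m : κ) (w w' : ℝ) (a b : Option κ) : k2 m w w' a b = kA m w a b ∨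
    kA m w a b = 0 := by
  rcases a with _ | i
  · rcases b with _ | j
    · left
      rfl
    · by_cases h : j = m
      · left
        simp [k2, kA, h]
      · right
        simp [kA, h]
  · rcases b with _ | j
    · left
      rfl
    · left
      rfl

theorem prod_k2_ge (m : κ) {w : ι → ℝ} (w' : ι → ℝ) (hw : ∀ p, 0 ≤ w p) (c c' : ι → Option κ) :
    2 * ∏ p, kA m (w p) (c p) (c' p) - ∏ p, |k2 m (w p) (w' p) (c p) (c' p)| ≤
      ∏ p, k2 m (w p) (w' p) (c p) (c' p) := by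
  by_cases h : ∀ p, k2 m (w p) (w' p) (c p) (c' p) = kA m (w p) (c p) (c' p)
  · have h1 : ∏ p, k2 m (w p) (w' p) (c p) (c' p) = ∏ p, kA m (w p) (c p) (c' p) :=
      Finset.prod_congr rfl fun p _ => h p
    have h2 : ∏ p, |k2 m (w p) (w' p) (c p) (c' p)| = ∏ p, kA m (w p) (c p) (c' p) :=
      Finset.prod_congr rfl fun p _ => by rw [h p, abs_of_nonneg (kA_nonneg m (hw p) _ _)]
    rw [h1, h2]
    linarith
  · push Not at h
    obtain ⟨p, hp⟩ := h
    have h1 : kA m (w p) (c p) (c' p) = 0 := (k2_cases m _ _ _ _).resolve_left hp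
    rw [Finset.prod_eq_zero (Finset.mem_univ p) h1, ← Finset.abs_prod]
    have := neg_abs_le (∏ p, k2 m (w p) (w' p) (c p) (c' p))
    linarith

end Pool.Agent.Helper90.MT

end

section

set_option autoImplicit false

set_option linter.unusedSectionVars false

open Finset

namespace Pool.Agent.Helper12.MT

open Pool.Agent.Helper1.MT

section Comb

variable {ι κ : Type} [Fintype ι] [Fintype κ] [DecidableEq ι] [DecidableEq κ]

/-- The colouring with star set `S` and with the colours of `b` elsewhere. -/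
def smk (b : ι → Option κ) (S : Finset ι) : ι → Option (Option κ) :=
  fun p => if p ∈ S then some none else (b p).map some

/-- The part with the old colours. -/
def spart (c : ι → Option (Option κ)) : ι → Option κ := fun p => (c p).bind id

/-- The star set. -/
def sstar (c : ι → Option (Option κ)) : Finset ι := univ.filter (fun p => c p = some none)

theorem sstar_smk (b : ι → Option κ) (S : Finset ι) : sstar (smk b S) = S := by
  ext p
  simp only [sstar, smk, Finset.mem_filter, Finset.mem_univ, true_and]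
  by_cases hp : p ∈ S
  · simp [hp]
  · rw [if_neg hp]
    cases b p <;> simp [hp]

theorem smk_self (c : ι → Option (Option κ)) : smk (spart c) (sstar c) = c := by
  funext p
  simp only [smk, spart, sstar, Finset.mem_filter, Finset.mem_univ, true_and]
  rcases hc : c p with _ | _ | i
  · simp
  · simp
  · simp

end Comb

end Pool.Agent.Helper12.MT

end

section

set_option autoImplicit false

open Finset Filter Topology

open scoped ArithmeticFunction.vonMangoldt ArithmeticFunction.Moebius ArithmeticFunction.zeta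

namespace Pool.Agent.Helper18.BV

/-- A6: Fourier representation of test functions. -/
def FourierRep : Prop :=
  ∀ g : ℝ → ℝ, ContDiff ℝ (⊤ : ℕ∞) g → HasCompactSupport g →
    ∃ h : ℝ → ℂ, Continuous h ∧
      (∀ N : ℕ, MeasureTheory.Integrable (fun t : ℝ => (1 + |t|) ^ N * ‖h t‖)) ∧
      ∀ v : ℝ, (g v : ℂ) = ∫ t : ℝ, h t * Complex.exp (t * v * Complex.I)

end Pool.Agent.Helper18.BV

end

section

set_option autoImplicit false

open Finset

open scoped ArithmeticFunction.vonMangoldt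

namespace Pool.Agent.Helper74.MT

open Pool.Agent.Helper1.MT

/-- The harmonic sum over a residue class beyond the modulus. -/
theorem sum_inv_class_le (N d r : ℕ) (hd : 0 < d) :
    ∑ n ∈ (Icc 1 N).filter (fun n => n ≡ r [MOD d] ∧ d < n), (1 : ℝ) / n ≤
      (1 + Real.log N) / d := by
  have hd' : (0 : ℝ) < d := by exact_mod_cast hd
  have hinj : Set.InjOn (fun n => n / d)
      ((Icc 1 N).filter (fun n => n ≡ r [MOD d] ∧ d < n) : Finset ℕ) := by
    intro a ha b hb hab
    rw [mem_coe, mem_filter] at ha hb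
    have h1 : a % d = b % d := ha.2.1.trans hb.2.1.symm
    simp only at hab
    rw [← Nat.div_add_mod a d, ← Nat.div_add_mod b d, hab, h1]
  have h1 : ∑ n ∈ (Icc 1 N).filter (fun n => n ≡ r [MOD d] ∧ d < n), (1 : ℝ) / n ≤
      ∑ n ∈ (Icc 1 N).filter (fun n => n ≡ r [MOD d] ∧ d < n),
        (fun m : ℕ => ((m : ℝ))⁻¹ / d) (n / d) := by
    apply Finset.sum_le_sum
    intro n hn
    rw [mem_filter] at hn
    have h2 : 0 < n / d := Nat.div_pos hn.2.2.le hd
    have h3 : (0 : ℝ) < ((n / d : ℕ) : ℝ) := by exact_mod_cast h2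
    have h4 : ((n / d : ℕ) : ℝ) * d ≤ n := by exact_mod_cast Nat.div_mul_le_self n d
    have h5 : ((n / d : ℕ) : ℝ)⁻¹ / d = 1 / (((n / d : ℕ) : ℝ) * d) := by
      rw [inv_eq_one_div, div_div]
    change (1 : ℝ) / n ≤ ((n / d : ℕ) : ℝ)⁻¹ / d
    rw [h5]
    exact one_div_le_one_div_of_le (by (clear * - h2 hd; positivity)) h4
  refine h1.trans ?_
  rw [← Finset.sum_image (f := fun m : ℕ => ((m : ℝ))⁻¹ / d) hinj, ← Finset.sum_div]
  gcongr
  calc ∑ m ∈ ((Icc 1 N).filter (fun n => n ≡ r [MOD d] ∧ d < n)).image (fun n => n / d),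
        ((m : ℝ))⁻¹ ≤ ∑ m ∈ Icc 1 N, ((m : ℝ))⁻¹ := by
        apply Finset.sum_le_sum_of_subset_of_nonneg
        · intro m hm
          rw [mem_image] at hm
          obtain ⟨n, hn, rfl⟩ := hm
          rw [mem_filter, mem_Icc] at hn
          rw [mem_Icc]
          exact ⟨Nat.div_pos hn.2.2.le hd, (Nat.div_le_self _ _).trans hn.1.2⟩
        · intro m _ _
          (clear * -; positivity)
    _ = ((harmonic N : ℚ) : ℝ) := by
        rw [harmonic_eq_sum_Icc]
        push_cast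
        rfl
    _ ≤ 1 + Real.log N := harmonic_le_one_add_log N

end Pool.Agent.Helper74.MT

end

section

set_option autoImplicit false

open Finset Filter Topology

namespace Pool.Agent.Helper18.BV

/-- derivatives of `lam / (s - 1)` at `2` -/
theorem iteratedDeriv_pole (lam : ℝ) (m : ℕ) :
    iteratedDeriv m (fun s : ℂ => (lam : ℂ) / (s - 1)) 2 = lam * ((-1) ^ m * m.factorial) := by
  have h1 : (fun s : ℂ => (lam : ℂ) / (s - 1)) = fun s => (lam : ℂ) * (1 * s - 1)⁻¹ := by
    funext s; rw [one_mul, div_eq_mul_inv]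
  rw [h1, iteratedDeriv_const_mul_field, iteratedDeriv_eq_iterate, iter_deriv_inv_linear_sub]
  norm_num

end Pool.Agent.Helper18.BV

end

section

set_option autoImplicit false

open Finset

open scoped ArithmeticFunction.vonMangoldt ArithmeticFunction.Moebius ArithmeticFunction.zeta

namespace Pool.Agent.Helper18.BV

/-- sums of `Λ` over the divisors in an antidiagonal -/
theorem norm_conv_le {f g : ArithmeticFunction ℂ} (hf : ∀ n, ‖f n‖ ≤ 1)
    (hg : ∀ n, ‖g n‖ ≤ Λ n) (n : ℕ) : ‖(f * g) n‖ ≤ Real.log n := by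
  rw [ArithmeticFunction.mul_apply]
  calc ‖∑ x ∈ n.divisorsAntidiagonal, f x.1 * g x.2‖
      ≤ ∑ x ∈ n.divisorsAntidiagonal, Λ x.2 := by
        refine (norm_sum_le _ _).trans (Finset.sum_le_sum ?_)
        intro x _
        rw [norm_mul]
        calc ‖f x.1‖ * ‖g x.2‖ ≤ 1 * Λ x.2 :=
              mul_le_mul (hf _) (hg _) (norm_nonneg _) zero_le_one
          _ = Λ x.2 := one_mul _
    _ = Real.log n := by
        rw [Nat.sum_divisorsAntidiagonal' (f := fun _ j => Λ j)]
        exact ArithmeticFunction.vonMangoldt_sum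

end Pool.Agent.Helper18.BV

end

section

set_option autoImplicit false

open Finset

open scoped ComplexOrder ArithmeticFunction.zeta

namespace Pool.Agent.Helper79.BV

open Pool.Agent.Helper18.BV ArithmeticFunction

/-- The general statement on Dirichlet series with nonnegative coefficients. -/
theorem alt_of_eq (b : ArithmeticFunction ℂ) (f : ℂ → ℂ) (hb : ∀ n, 0 ≤ b n) (hb1 : b 1 = 1)
    (hsum : ∀ s : ℂ, 1 < s.re → LSeriesSummable (fun n => b n) s)
    (hf : ∀ s : ℂ, 1 < s.re → f s = LSeries (fun n => b n) s) :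
    (∀ m : ℕ, 0 ≤ ((-1 : ℂ) ^ m * iteratedDeriv m f 2).re) ∧ 1 ≤ (f 2).re := by
  have habs : LSeries.abscissaOfAbsConv (fun n => b n) ≤ (1 : ℝ) :=
    LSeries.abscissaOfAbsConv_le_of_forall_lt_LSeriesSummable
      fun y hy => hsum y (by simpa using hy)
  have hlt : LSeries.abscissaOfAbsConv (fun n => b n) < (2 : ℝ) :=
    lt_of_le_of_lt habs (by exact_mod_cast one_lt_two)
  have h2 : (2 : ℂ) ∈ {s : ℂ | 1 < s.re} := by
    simp
  have hopen : IsOpen {s : ℂ | 1 < s.re} := Complex.continuous_re.isOpen_preimage _ isOpen_Ioi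
  have hEq : Set.EqOn f (LSeries (fun n => b n)) {s : ℂ | 1 < s.re} := fun s hs => hf s hs
  constructor
  · intro m
    have h3 := ArithmeticFunction.iteratedDeriv_LSeries_alternating b hb hlt m
    rw [hEq.iteratedDeriv_of_isOpen hopen m h2]
    have h4 := (Complex.le_def.1 h3).1
    simpa using h4
  · rw [hEq h2]
    have hs2 : LSeriesSummable (fun n => b n) ((2 : ℝ) : ℂ) := hsum _ (by simp)
    have h5 : LSeries.term (fun n => b n) ((2 : ℝ) : ℂ) 1 ≤ LSeries (fun n => b n) ((2 : ℝ) : ℂ) :=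
      Summable.le_tsum hs2 1 (fun n _ => LSeries.term_nonneg (hb n) 2)
    have h6 : LSeries.term (fun n => b n) ((2 : ℝ) : ℂ) 1 = 1 := by
      rw [LSeries.term_of_ne_zero one_ne_zero]
      simp [hb1]
    rw [h6] at h5
    have h7 := (Complex.le_def.1 h5).1
    simpa using h7

end Pool.Agent.Helper79.BV

end

section

set_option autoImplicit false

open Complex Filter Topology

open Pool.Agent.Helper18.BV

namespace Pool.Agent.Helper37.BV

open DirichletCharacter

/-- the entire function `(s-1) ζ(s)` -/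
noncomputable def phi : ℂ → ℂ := Function.update (fun s => (s - 1) * riemannZeta s) 1 1

theorem phi_one : phi 1 = 1 := Function.update_self _ _ _

theorem phi_of_ne {s : ℂ} (hs : s ≠ 1) : phi s = (s - 1) * riemannZeta s :=
  Function.update_of_ne hs _ _

theorem phi_differentiable : Differentiable ℂ phi := by
  rw [← differentiableOn_univ,
    ← differentiableOn_compl_singleton_and_continuousAt_iff (c := 1) Filter.univ_mem]
  refine ⟨DifferentiableOn.congr (f := fun s ↦ (s - 1) * riemannZeta s)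
    (fun s hs ↦ DifferentiableAt.differentiableWithinAt <| ?_)
    fun _ hs ↦ Function.update_of_ne (Set.mem_sdiff_singleton.mp hs).2 ..,
    continuousWithinAt_compl_self.mp ?_⟩
  · exact (differentiableAt_id.sub_const 1).mul
      (differentiableAt_riemannZeta (Set.mem_sdiff_singleton.mp hs).2)
  · unfold phi
    simpa using riemannZeta_residue_one

theorem zeta_neg : ∃ δ : ℝ, 0 < δ ∧ ∀ β : ℝ, 1 - δ < β → β < 1 → (riemannZeta β).re < 0 := by
  have hc : ContinuousAt phi 1 := (phi_differentiable 1).continuousAt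
  obtain ⟨δ, hδ, h⟩ := Metric.continuousAt_iff.1 hc 1 one_pos
  refine ⟨δ, hδ, fun β h1 h2 => ?_⟩
  have hne : (β : ℂ) ≠ 1 := by
    intro h3
    have : β = 1 := by exact_mod_cast h3
    (clear * - h2 this; linarith)
  have h3 : dist (phi β) (phi 1) < 1 := by
    apply h
    rw [dist_eq_norm]
    have : (β : ℂ) - 1 = ((β - 1 : ℝ) : ℂ) := by push_cast; ring
    rw [this, Complex.norm_real, Real.norm_eq_abs, abs_lt]
    constructor <;> (clear * - h1 h2; linarith)
  rw [phi_one, dist_eq_norm] at h3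
  have h4 : 0 < (phi β).re := by
    have h5 := Complex.abs_re_le_norm (phi β - 1)
    rw [Complex.sub_re, Complex.one_re] at h5
    have h6 := abs_lt.1 (lt_of_le_of_lt h5 h3)
    (clear * - h6; linarith [h6.1])
  rw [phi_of_ne hne] at h4
  have h5 : ((β : ℂ) - 1) = ((β - 1 : ℝ) : ℂ) := by push_cast; ring
  rw [h5, Complex.re_ofReal_mul] at h4
  by_contra h6
  push Not at h6
  (clear * - h4 h2 h6; nlinarith)

end Pool.Agent.Helper37.BV

end

section

set_option autoImplicit false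

open MeasureTheory FourierTransform SchwartzMap

namespace Pool.Agent.Helper46.BV

open Pool.Agent.Helper18.BV

theorem integrable_G (F : SchwartzMap ℝ ℂ) (N : ℕ) (c : ℝ) :
    Integrable (fun x : ℝ => (1 + c * |x|) ^ N * ‖F x‖) := by
  have h1 : (fun x : ℝ => (1 + c * |x|) ^ N * ‖F x‖) = fun x : ℝ =>
      ∑ m ∈ Finset.range (N + 1), (c ^ (N - m) * (N.choose m : ℝ)) *
        (‖x‖ ^ (N - m) * ‖F x‖) := by
    funext x
    rw [add_pow, Finset.sum_mul]
    refine Finset.sum_congr rfl fun m _ => ?_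
    rw [one_pow, mul_pow, Real.norm_eq_abs]
    ring
  rw [h1]
  refine integrable_finsetSum _ fun m _ => ?_
  exact (F.integrable_pow_mul volume (N - m)).const_mul _

theorem fourierRep : FourierRep := by
  intro g hg hc
  have h1 : HasCompactSupport (fun v : ℝ => (g v : ℂ)) := hc.comp_left (g := Complex.ofReal) Complex.ofReal_zero
  have h2 : ContDiff ℝ (⊤ : ℕ∞) (fun v : ℝ => (g v : ℂ)) := Complex.ofRealCLM.contDiff.comp hg
  obtain ⟨G, hG⟩ : ∃ G : SchwartzMap ℝ ℂ, ∀ v, G v = (g v : ℂ) :=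
    ⟨h1.toSchwartzMap h2, fun v => rfl⟩
  obtain ⟨F, hF⟩ : ∃ F : SchwartzMap ℝ ℂ, 𝓕⁻ F = G :=
    ⟨𝓕 G, FourierTransform.fourierInv_fourier_eq G⟩
  have hpi : (0 : ℝ) < 2 * Real.pi := by positivity
  refine ⟨fun t => F (t / (2 * Real.pi)) / (2 * Real.pi), ?_, fun N => ?_, fun v => ?_⟩
  · exact (F.continuous.comp (continuous_id.div_const _)).div_const _
  · have h3 := ((integrable_G F N (2 * Real.pi)).comp_div hpi.ne').div_const (2 * Real.pi)
    refine h3.congr (Filter.Eventually.of_forall fun t => ?_)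
    simp only
    rw [abs_div, abs_of_pos hpi, mul_div_cancel₀ _ hpi.ne', norm_div, mul_div_assoc]
    congr 2
    rw [← Complex.ofReal_ofNat, ← Complex.ofReal_mul, Complex.norm_real, Real.norm_of_nonneg hpi.le]
  · have h4 : (g v : ℂ) = 𝓕⁻ (F : ℝ → ℂ) v := by rw [← hG, ← hF, fourierInv_coe]
    rw [h4, Real.fourierInv_eq']
    have h5 := MeasureTheory.Measure.integral_comp_div (fun ξ : ℝ =>
      Complex.exp (((2 * Real.pi * inner ℝ ξ v : ℝ) : ℂ) * Complex.I) • F ξ) (2 * Real.pi)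
    rw [abs_of_pos hpi] at h5
    have h6 : ∀ t : ℝ, F (t / (2 * Real.pi)) / (2 * Real.pi) * Complex.exp (t * v * Complex.I) =
        (1 / (2 * Real.pi) : ℂ) * ((fun ξ : ℝ =>
      Complex.exp (((2 * Real.pi * inner ℝ ξ v : ℝ) : ℂ) * Complex.I) • F ξ) (t / (2 * Real.pi))) := by
      intro t
      have : ((2 * Real.pi * inner ℝ (t / (2 * Real.pi)) v : ℝ) : ℂ) = t * v := by
        have h8 : inner ℝ (t / (2 * Real.pi)) v = v * (t / (2 * Real.pi)) := by
          simp [RCLike.inner_apply]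
        rw [h8]
        push_cast
        (clear * -; field_simp)
      simp only [this, smul_eq_mul]
      ring
    simp_rw [h6]
    rw [integral_const_mul, h5]
    rw [Complex.real_smul, ← mul_assoc]
    have h7 : (1 / (2 * Real.pi) : ℂ) * ((2 * Real.pi : ℝ) : ℂ) = 1 := by
      push_cast
      field_simp
    rw [h7, one_mul]

end Pool.Agent.Helper46.BV

end

section

set_option autoImplicit false

open Finset

namespace Pool.Agent.Helper79.BV

open Pool.Agent.Helper18.BV

lemma ne_one_of_prim {q : ℕ} [NeZero q] (hq : 1 < q) {χ : DirichletCharacter ℂ q}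
    (h : χ.IsPrimitive) : χ ≠ 1 := by
  rintro rfl
  have h1 : (1 : DirichletCharacter ℂ q).conductor = q := h
  rw [DirichletCharacter.conductor_one] at h1
  omega

end Pool.Agent.Helper79.BV

end

section

set_option autoImplicit false

open Finset

open Pool.Agent.Helper18.BV

namespace Pool.Agent.Helper96.BV

/-- Duality: an abstract large sieve. -/
theorem dual_sieve {ι : Type*} [DecidableEq ι] (X : Finset ι) (S : Finset ℕ) (e : ι → ℕ → ℂ)
    (w : ℕ → ℝ) (hw : ∀ m, 0 ≤ w m) (W K : ℝ) (hK : 0 ≤ K)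
    (he : ∀ x m, ‖e x m‖ ≤ 1) (hW : ∑ m ∈ S, w m ≤ W)
    (hoff : ∀ x ∈ X, ∀ y ∈ X, x ≠ y →
      ‖∑ m ∈ S, e x m * (starRingEnd ℂ) (e y m) * (w m : ℂ)‖ ≤ K) (α : ℕ → ℂ) :
    ∑ x ∈ X, ‖∑ m ∈ S, α m * e x m * (w m : ℂ)‖ ^ 2 ≤
      (W + X.card * K) * ∑ m ∈ S, ‖α m‖ ^ 2 * w m := by
  set F : ι → ℂ := fun x => ∑ m ∈ S, α m * e x m * (w m : ℂ) with hF
  set c : ι → ℂ := fun x => (starRingEnd ℂ) (F x) with hc
  set T : ℝ := ∑ x ∈ X, ‖F x‖ ^ 2 with hT
  set G : ℕ → ℂ := fun m => ∑ x ∈ X, c x * e x m with hG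
  set A : ℝ := ∑ m ∈ S, ‖α m‖ ^ 2 * w m with hA
  have hW0 : 0 ≤ W := (Finset.sum_nonneg (fun m _ => hw m)).trans hW
  have hT0 : 0 ≤ T := Finset.sum_nonneg (fun x _ => by (clear * -; positivity))
  have hA0 : 0 ≤ A := Finset.sum_nonneg (fun m _ => mul_nonneg (by (clear * -; positivity)) (hw m))
  have hcn : ∀ x, ‖c x‖ = ‖F x‖ := fun x => by rw [hc]; exact RCLike.norm_conj _
  -- step 1
  have h1 : (T : ℂ) = ∑ m ∈ S, α m * (w m : ℂ) * G m := by
    have : ∀ x ∈ X, ((‖F x‖ ^ 2 : ℝ) : ℂ) = ∑ m ∈ S, α m * (w m : ℂ) * (c x * e x m) := by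
      intro x _
      have h : ((‖F x‖ ^ 2 : ℝ) : ℂ) = c x * F x := by
        rw [hc]
        simp only
        rw [mul_comm, Complex.mul_conj, Complex.normSq_eq_norm_sq]
      rw [h, hF]
      simp only
      rw [Finset.mul_sum]
      refine Finset.sum_congr rfl (fun m _ => by ring)
    rw [hT]
    push_cast
    have h' : ∀ x ∈ X, ((‖F x‖ : ℂ)) ^ 2 = ∑ m ∈ S, α m * (w m : ℂ) * (c x * e x m) := by
      intro x hx
      rw [← this x hx]
      push_cast
      rfl
    rw [Finset.sum_congr rfl h', Finset.sum_comm]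
    refine Finset.sum_congr rfl (fun m _ => ?_)
    rw [hG]
    simp only
    rw [Finset.mul_sum]
  -- step 2
  have h2 : T ≤ ∑ m ∈ S, (‖α m‖ * Real.sqrt (w m)) * (Real.sqrt (w m) * ‖G m‖) := by
    have h3 : T = ‖(T : ℂ)‖ := by
      rw [Complex.norm_real, Real.norm_of_nonneg hT0]
    rw [h3, h1]
    refine (norm_sum_le _ _).trans (Finset.sum_le_sum (fun m _ => ?_))
    rw [norm_mul, norm_mul, Complex.norm_real, Real.norm_of_nonneg (hw m)]
    have := Real.mul_self_sqrt (hw m)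
    calc ‖α m‖ * w m * ‖G m‖ = ‖α m‖ * (Real.sqrt (w m) * Real.sqrt (w m)) * ‖G m‖ := by rw [this]
      _ = _ := by ring
      _ ≤ _ := le_refl _
  have h3 : T ^ 2 ≤ A * ∑ m ∈ S, w m * ‖G m‖ ^ 2 := by
    have h4 := Finset.sum_mul_sq_le_sq_mul_sq S (fun m => ‖α m‖ * Real.sqrt (w m))
      (fun m => Real.sqrt (w m) * ‖G m‖)
    have h5 : ∑ m ∈ S, (‖α m‖ * Real.sqrt (w m)) ^ 2 = A := by
      refine Finset.sum_congr rfl (fun m _ => ?_)
      rw [mul_pow, Real.sq_sqrt (hw m)]
    have h6 : ∑ m ∈ S, (Real.sqrt (w m) * ‖G m‖) ^ 2 = ∑ m ∈ S, w m * ‖G m‖ ^ 2 := by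
      refine Finset.sum_congr rfl (fun m _ => ?_)
      rw [mul_pow, Real.sq_sqrt (hw m)]
    rw [h5, h6] at h4
    exact (pow_le_pow_left₀ hT0 h2 2).trans h4
  -- step 3
  have h4 : ∑ m ∈ S, w m * ‖G m‖ ^ 2 ≤ (W + X.card * K) * T := by
    have h5 : ((∑ m ∈ S, w m * ‖G m‖ ^ 2 : ℝ) : ℂ) =
        ∑ x ∈ X, ∑ y ∈ X, c x * (starRingEnd ℂ) (c y) *
          ∑ m ∈ S, e x m * (starRingEnd ℂ) (e y m) * (w m : ℂ) := by
      have h6 : ∀ m ∈ S, ((w m * ‖G m‖ ^ 2 : ℝ) : ℂ) =
          ∑ x ∈ X, ∑ y ∈ X, c x * (starRingEnd ℂ) (c y) *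
            (e x m * (starRingEnd ℂ) (e y m) * (w m : ℂ)) := by
        intro m _
        have h7 : ((‖G m‖ ^ 2 : ℝ) : ℂ) = G m * (starRingEnd ℂ) (G m) := by
          rw [Complex.mul_conj, Complex.normSq_eq_norm_sq]
        rw [Complex.ofReal_mul, h7, hG]
        simp only
        rw [map_sum, Finset.sum_mul_sum, Finset.mul_sum]
        refine Finset.sum_congr rfl (fun x _ => ?_)
        rw [Finset.mul_sum]
        refine Finset.sum_congr rfl (fun y _ => ?_)
        rw [map_mul]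
        ring
      rw [Complex.ofReal_sum, Finset.sum_congr rfl h6, Finset.sum_comm]
      refine Finset.sum_congr rfl (fun x _ => ?_)
      rw [Finset.sum_comm]
      refine Finset.sum_congr rfl (fun y _ => ?_)
      rw [Finset.mul_sum]
    have h8 : 0 ≤ ∑ m ∈ S, w m * ‖G m‖ ^ 2 :=
      Finset.sum_nonneg (fun m _ => mul_nonneg (hw m) (by (clear * -; positivity)))
    have h9 : ∑ m ∈ S, w m * ‖G m‖ ^ 2 = ‖((∑ m ∈ S, w m * ‖G m‖ ^ 2 : ℝ) : ℂ)‖ := by
      rw [Complex.norm_real, Real.norm_of_nonneg h8]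
    rw [h9, h5]
    have h10 : ∀ x ∈ X, ∀ y ∈ X, ‖c x * (starRingEnd ℂ) (c y) *
          ∑ m ∈ S, e x m * (starRingEnd ℂ) (e y m) * (w m : ℂ)‖ ≤
        (if x = y then ‖c x‖ ^ 2 * W else 0) + ‖c x‖ * ‖c y‖ * K := by
      intro x hx y hy
      rw [norm_mul, norm_mul, RCLike.norm_conj (c y)]
      by_cases hxy : x = y
      · subst hxy
        rw [if_pos rfl]
        have h11 : ‖∑ m ∈ S, e x m * (starRingEnd ℂ) (e x m) * (w m : ℂ)‖ ≤ W := by
          refine (norm_sum_le _ _).trans (le_trans (Finset.sum_le_sum (fun m _ => ?_)) hW)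
          rw [norm_mul, norm_mul, RCLike.norm_conj, Complex.norm_real, Real.norm_of_nonneg (hw m)]
          have := he x m
          have h0 := norm_nonneg (e x m)
          have : ‖e x m‖ * ‖e x m‖ ≤ 1 := by (clear * - this h0; nlinarith)
          (clear * - this hw; nlinarith [hw m])
        have h12 : 0 ≤ ‖c x‖ * ‖c x‖ * K := by (clear * - hK; positivity)
        calc ‖c x‖ * ‖c x‖ * ‖∑ m ∈ S, e x m * (starRingEnd ℂ) (e x m) * (w m : ℂ)‖
            ≤ ‖c x‖ * ‖c x‖ * W := mul_le_mul_of_nonneg_left h11 (by (clear * -; positivity))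
          _ ≤ ‖c x‖ ^ 2 * W + ‖c x‖ * ‖c x‖ * K := by (clear * - h12; nlinarith)
      · rw [if_neg hxy, zero_add]
        exact mul_le_mul_of_nonneg_left (hoff x hx y hy hxy) (by (clear * -; positivity))
    calc _ ≤ ∑ x ∈ X, ‖∑ y ∈ X, c x * (starRingEnd ℂ) (c y) *
          ∑ m ∈ S, e x m * (starRingEnd ℂ) (e y m) * (w m : ℂ)‖ := norm_sum_le _ _
      _ ≤ ∑ x ∈ X, ∑ y ∈ X, ‖c x * (starRingEnd ℂ) (c y) *
          ∑ m ∈ S, e x m * (starRingEnd ℂ) (e y m) * (w m : ℂ)‖ :=
          Finset.sum_le_sum (fun x _ => norm_sum_le _ _)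
      _ ≤ ∑ x ∈ X, ∑ y ∈ X, ((if x = y then ‖c x‖ ^ 2 * W else 0) + ‖c x‖ * ‖c y‖ * K) :=
          Finset.sum_le_sum (fun x hx => Finset.sum_le_sum (fun y hy => h10 x hx y hy))
      _ = ∑ x ∈ X, ‖c x‖ ^ 2 * W + (∑ x ∈ X, ‖c x‖) ^ 2 * K := by
          simp only [Finset.sum_add_distrib]
          congr 1
          · refine Finset.sum_congr rfl (fun x hx => ?_)
            rw [Finset.sum_ite_eq, if_pos hx]
          · rw [sq, Finset.sum_mul_sum, Finset.sum_mul]
            refine Finset.sum_congr rfl (fun x _ => ?_)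
            rw [Finset.sum_mul]
      _ ≤ T * W + (X.card * T) * K := by
          have h13 : ∑ x ∈ X, ‖c x‖ ^ 2 * W = T * W := by
            rw [hT, Finset.sum_mul]
            exact Finset.sum_congr rfl (fun x _ => by rw [hcn])
          have h14 : (∑ x ∈ X, ‖c x‖) ^ 2 ≤ X.card * T := by
            have := sq_sum_le_card_mul_sum_sq (s := X) (f := fun x => ‖c x‖)
            refine this.trans (le_of_eq ?_)
            rw [hT]
            congr 1
            exact Finset.sum_congr rfl (fun x _ => by rw [hcn])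
          rw [h13]
          have := mul_le_mul_of_nonneg_right h14 hK
          linarith
      _ = (W + X.card * K) * T := by ring
  -- conclusion
  have h5 : T ^ 2 ≤ ((W + X.card * K) * A) * T := by
    calc T ^ 2 ≤ A * ∑ m ∈ S, w m * ‖G m‖ ^ 2 := h3
      _ ≤ A * ((W + X.card * K) * T) := mul_le_mul_of_nonneg_left h4 hA0
      _ = _ := by ring
  rcases eq_or_lt_of_le hT0 with h0 | h0
  · rw [← h0]
    have : (0 : ℝ) ≤ X.card := Nat.cast_nonneg _
    (clear * - hW0 hK hA0; positivity)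
  · have : T * T ≤ ((W + X.card * K) * A) * T := by rw [← sq]; exact h5
    exact le_of_mul_le_mul_right this h0

theorem sum_inv_le (U N : ℕ) : ∑ m ∈ Ioc U N, (1 : ℝ) / m ≤ Real.log N + 1 := by
  have h1 : ∑ m ∈ Ioc U N, (1 : ℝ) / m ≤ ∑ m ∈ Icc 1 N, (1 : ℝ) / m := by
    refine Finset.sum_le_sum_of_subset_of_nonneg ?_ (fun m _ _ => by (clear * -; positivity))
    intro m hm
    rw [Finset.mem_Ioc] at hm
    exact Finset.mem_Icc.2 ⟨by omega, hm.2⟩
  have h2 : ∑ m ∈ Icc 1 N, (1 : ℝ) / m = ((harmonic N : ℚ) : ℝ) := by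
    rw [harmonic_eq_sum_Icc]
    push_cast
    refine Finset.sum_congr rfl (fun m _ => by rw [one_div])
  rw [h2] at h1
  have := harmonic_le_one_add_log N
  linarith

end Pool.Agent.Helper96.BV

end

section

set_option autoImplicit false

open Finset Filter Topology

open scoped ArithmeticFunction.vonMangoldt ArithmeticFunction.Moebius ArithmeticFunction.zeta

namespace Pool.Agent.Helper44.BV

open Pool.Agent.Helper18.BV

theorem sum_period {q : ℕ} [NeZero q] {χ : DirichletCharacter ℂ q} (hχ : χ ≠ 1) :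
    ∑ i ∈ range q, χ ((i + 1 : ℕ) : ZMod q) = 0 := by
  obtain ⟨n, rfl⟩ := Nat.exists_eq_succ_of_ne_zero (NeZero.ne q)
  rw [Finset.sum_range]
  have h : ∀ i : Fin (n + 1), χ (((i : ℕ) + 1 : ℕ) : ZMod (n + 1)) =
      χ ((show ZMod (n + 1) from i) + 1) := by
    intro i
    have hi : (((i : ℕ) : ℕ) : ZMod (n + 1)) = (show ZMod (n + 1) from i) :=
      Fin.cast_val_eq_self i
    rw [Nat.cast_add, Nat.cast_one, hi]
  rw [Finset.sum_congr rfl fun i _ => h i]
  have h2 : ∑ a : ZMod (n + 1), χ (a + 1) = ∑ a : ZMod (n + 1), χ a :=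
    Equiv.sum_comp (Equiv.addRight (1 : ZMod (n + 1))) fun a => χ a
  have h3 : ∑ a : ZMod (n + 1), χ a = 0 := MulChar.sum_eq_zero_of_ne_one hχ
  rw [h3] at h2
  exact h2

theorem norm_partial_sum {q : ℕ} [NeZero q] {χ : DirichletCharacter ℂ q} (hχ : χ ≠ 1) (k : ℕ) :
    ‖∑ i ∈ range k, χ ((i + 1 : ℕ) : ZMod q)‖ ≤ q := by
  induction k using Nat.strong_induction_on with
  | _ k ih =>
    by_cases hk : k < q
    · calc ‖∑ i ∈ range k, χ ((i + 1 : ℕ) : ZMod q)‖ ≤ ∑ i ∈ range k, (1 : ℝ) :=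
            norm_sum_le_of_le _ fun i _ => χ.norm_le_one _
        _ = k := by simp
        _ ≤ q := by exact_mod_cast hk.le
    · push Not at hk
      have hq : 0 < q := Nat.pos_of_ne_zero (NeZero.ne q)
      have h1 : ∑ i ∈ range k, χ ((i + 1 : ℕ) : ZMod q) =
          ∑ i ∈ range (k - q), χ ((i + 1 : ℕ) : ZMod q) := by
        have hk' : k = q + (k - q) := by omega
        conv_lhs => rw [hk']
        rw [Finset.sum_range_add, sum_period hχ, zero_add]
        refine Finset.sum_congr rfl fun i _ => ?_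
        congr 1
        push_cast
        rw [ZMod.natCast_self]
        ring
      rw [h1]
      exact ih (k - q) (by omega)

theorem abel_char {q : ℕ} [NeZero q] {χ : DirichletCharacter ℂ q} (hχ : χ ≠ 1) (F : ℕ → ℝ)
    (K : ℕ) (hF : F (K + 1) = 0) :
    ‖∑ k ∈ Icc 1 K, (F k : ℂ) * χ (k : ZMod q)‖ ≤ q * ∑ k ∈ Icc 1 K, |F (k + 1) - F k| := by
  have h1 : ∑ k ∈ Icc 1 K, (F k : ℂ) * χ (k : ZMod q) =
      ∑ i ∈ range (K + 1), (F (i + 1) : ℂ) • χ ((i + 1 : ℕ) : ZMod q) := by
    rw [Finset.sum_range_succ, hF]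
    simp only [Complex.ofReal_zero, zero_mul, add_zero, smul_eq_mul]
    rw [Finset.range_eq_Ico, Finset.sum_Ico_add' (fun k => (F k : ℂ) * χ (k : ZMod q)) 0 K 1]
    rfl
  rw [h1, Finset.sum_range_by_parts]
  simp only [Nat.add_sub_cancel, hF, Complex.ofReal_zero, zero_smul, zero_sub, norm_neg]
  have h2 : ∑ k ∈ Icc 1 K, |F (k + 1) - F k| = ∑ i ∈ range K, |F (i + 1 + 1) - F (i + 1)| := by
    rw [Finset.range_eq_Ico, Finset.sum_Ico_add' (fun k => |F (k + 1) - F k|) 0 K 1]
    rfl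
  rw [h2, Finset.mul_sum]
  refine norm_sum_le_of_le _ fun i _ => ?_
  rw [norm_smul, ← Complex.ofReal_sub, Complex.norm_real, Real.norm_eq_abs, mul_comm]
  exact mul_le_mul_of_nonneg_right (norm_partial_sum hχ _) (abs_nonneg _)

theorem sum_inv_sq (y : ℝ) (hy : 0 < y) (K : ℕ) :
    ∑ k ∈ (Icc 1 K).filter (fun k : ℕ => y < k + 1), ((k : ℝ) ^ 2)⁻¹ ≤ 4 / y := by
  rcases Nat.eq_zero_or_pos ⌊y⌋₊ with h | h
  · have hy1 : y < 1 := by
      have := Nat.lt_floor_add_one y
      rw [h] at this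
      simpa using this
    calc ∑ k ∈ (Icc 1 K).filter (fun k : ℕ => y < k + 1), ((k : ℝ) ^ 2)⁻¹
        ≤ ∑ k ∈ Ioo 0 (K + 1), ((k : ℝ) ^ 2)⁻¹ := by
          apply Finset.sum_le_sum_of_subset_of_nonneg
          · intro k hk
            rw [Finset.mem_filter, Finset.mem_Icc] at hk
            rw [Finset.mem_Ioo]
            omega
          · intro k _ _
            (clear * -; positivity)
      _ ≤ 2 / ((0 : ℕ) + 1) := sum_Ioo_inv_sq_le 0 (K + 1)
      _ = 2 := by norm_num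
      _ ≤ 4 / y := by
          rw [le_div_iff₀ hy]
          (clear * - hy hy1; linarith)
  · have hy1 := Nat.lt_floor_add_one y
    have hfl := Nat.floor_le hy.le
    have hf1 : (1 : ℝ) ≤ ⌊y⌋₊ := by exact_mod_cast h
    calc ∑ k ∈ (Icc 1 K).filter (fun k : ℕ => y < k + 1), ((k : ℝ) ^ 2)⁻¹
        ≤ ∑ k ∈ Ioo (⌊y⌋₊ - 1) (K + 1), ((k : ℝ) ^ 2)⁻¹ := by
          apply Finset.sum_le_sum_of_subset_of_nonneg
          · intro k hk
            rw [Finset.mem_filter, Finset.mem_Icc] at hk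
            rw [Finset.mem_Ioo]
            have h3 : ((⌊y⌋₊ : ℕ) : ℝ) < ((k + 1 : ℕ) : ℝ) := by
              push_cast
              (clear * - hfl hk; linarith [hk.2])
            have h4 : ⌊y⌋₊ < k + 1 := by exact_mod_cast h3
            omega
          · intro k _ _
            (clear * -; positivity)
      _ ≤ 2 / ((⌊y⌋₊ - 1 : ℕ) + 1) := sum_Ioo_inv_sq_le _ _
      _ = 2 / ⌊y⌋₊ := by
          rw [Nat.cast_sub h, Nat.cast_one, sub_add_cancel]
      _ ≤ 4 / y := by
          rw [div_le_div_iff₀ (by (clear * - hy hy1 hf1; linarith)) hy]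
          linarith

/-- The function whose variation is estimated. -/
noncomputable def FF (A : ℕ → ℝ) (g : ℝ → ℝ) (x : ℝ) (m k : ℕ) : ℝ :=
  A k * g (Real.log ((m * k : ℕ) : ℝ) / Real.log x) / k

section Var

variable {A : ℕ → ℝ} {g : ℝ → ℝ} {G L x : ℝ} {m : ℕ}

theorem FF_var_le (hG : ∀ v, |g v| ≤ G) (hG0 : 0 < G) (hL0 : 0 < L)
    (hL : ∀ u v, |g u - g v| ≤ L * |u - v|) (hx : 3 ≤ x) (hm : 1 ≤ m) {k : ℕ} (hk1 : 1 ≤ k)
    (hA : |A k| ≤ Real.log x) (hA' : |A (k + 1) - A k| ≤ 1 / k) :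
    |FF A g x m (k + 1) - FF A g x m k| ≤ (2 * G + L) * Real.log x * ((k : ℝ) ^ 2)⁻¹ := by
  have hlog1 : 1 ≤ Real.log x := by
    rw [Real.le_log_iff_exp_le (by (clear * - hx; linarith))]
    exact (Real.exp_one_lt_d9.le.trans (by norm_num)).trans hx
  have hlog0 : 0 < Real.log x := by (clear * - hlog1; linarith)
  have hk0 : (1 : ℝ) ≤ k := by exact_mod_cast hk1
  have hm0 : (1 : ℝ) ≤ m := by exact_mod_cast hm
  set B := g (Real.log ((m * k : ℕ) : ℝ) / Real.log x) with hB
  set B' := g (Real.log ((m * (k + 1) : ℕ) : ℝ) / Real.log x) with hB'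
  have hBB : |B' - B| ≤ L / k := by
    refine (hL _ _).trans ?_
    rw [← sub_div, abs_div, abs_of_pos hlog0]
    have h1 : Real.log ((m * (k + 1) : ℕ) : ℝ) - Real.log ((m * k : ℕ) : ℝ) =
        Real.log (1 + 1 / k) := by
      rw [← Real.log_div (by (clear * - hm hk1; positivity)) (by positivity)]
      congr 1
      push_cast
      (clear * - hm hk1; field_simp)
    rw [h1]
    have h2 : 0 ≤ Real.log (1 + 1 / (k : ℝ)) := Real.log_nonneg (by
      have : 0 < 1 / (k : ℝ) := by (clear * - hk1; positivity)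
      (clear * - this; linarith))
    have h3 : Real.log (1 + 1 / (k : ℝ)) ≤ 1 / k := by
      have := Real.log_le_sub_one_of_pos (show 0 < 1 + 1 / (k : ℝ) by positivity)
      (clear * - this; linarith)
    rw [abs_of_nonneg h2, div_eq_mul_one_div L]
    apply mul_le_mul_of_nonneg_left _ hL0.le
    rw [div_le_iff₀ hlog0]
    calc Real.log (1 + 1 / (k : ℝ)) ≤ 1 / k := h3
      _ ≤ 1 / k * Real.log x := le_mul_of_one_le_right (by positivity) hlog1
  have hid : FF A g x m (k + 1) - FF A g x m k =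
      (A (k + 1) - A k) * B' * (1 / ((k : ℝ) + 1)) + A k * (B' - B) * (1 / ((k : ℝ) + 1)) +
        A k * B * (1 / ((k : ℝ) + 1) - 1 / k) := by
    unfold FF
    rw [← hB, ← hB']
    push_cast
    ring
  have hk2 : 1 / ((k : ℝ) + 1) ≤ 1 / k := one_div_le_one_div_of_le (by (clear * - hk0; linarith)) (by (clear * -; linarith))
  have hk3 : |1 / ((k : ℝ) + 1) - 1 / k| ≤ 1 / k * (1 / k) := by
    have : 1 / ((k : ℝ) + 1) - 1 / k = -(1 / k * (1 / (k + 1))) := by
      field_simp
      ring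
    rw [this, abs_neg, abs_of_nonneg (by positivity)]
    exact mul_le_mul_of_nonneg_left hk2 (by positivity)
  have hk4 : |1 / ((k : ℝ) + 1)| ≤ 1 / k := by
    rw [abs_of_nonneg (by positivity)]
    exact hk2
  have hlogk : 0 ≤ 1 / (k : ℝ) := by positivity
  rw [hid]
  have t1 : |(A (k + 1) - A k) * B' * (1 / ((k : ℝ) + 1))| ≤ 1 / k * G * (1 / k) := by
    rw [abs_mul, abs_mul]
    gcongr
    exact hG _
  have t2 : |A k * (B' - B) * (1 / ((k : ℝ) + 1))| ≤ Real.log x * (L / k) * (1 / k) := by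
    rw [abs_mul, abs_mul]
    (clear * - hA hBB hlog1 hk4 hk1 hL0; gcongr)
  have t3 : |A k * B * (1 / ((k : ℝ) + 1) - 1 / k)| ≤ Real.log x * G * (1 / k * (1 / k)) := by
    rw [abs_mul, abs_mul]
    gcongr
    exact hG _
  have h5 := abs_add_three ((A (k + 1) - A k) * B' * (1 / ((k : ℝ) + 1)))
    (A k * (B' - B) * (1 / ((k : ℝ) + 1))) (A k * B * (1 / ((k : ℝ) + 1) - 1 / k))
  refine h5.trans ?_
  have h6 : 1 / k * G * (1 / k) ≤ Real.log x * G * (1 / k * (1 / (k : ℝ))) := by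
    have : 1 / k * G * (1 / k) = 1 * G * (1 / k * (1 / (k : ℝ))) := by ring
    rw [this]
    (clear * - hlog1 hG0 hk1; gcongr)
  have h7 : (2 * G + L) * Real.log x * ((k : ℝ) ^ 2)⁻¹ = Real.log x * G * (1 / k * (1 / (k : ℝ))) +
      Real.log x * (L / k) * (1 / k) + Real.log x * G * (1 / k * (1 / (k : ℝ))) := by
    field_simp
    ring
  rw [h7]
  (clear * - t1 t2 t3 h6; linarith)

end Var

end Pool.Agent.Helper44.BV

end

section

set_option autoImplicit false

open Finset

open Pool.Agent.Helper18.BV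

namespace Pool.Agent.Helper96.BV

/-- Sums over `n ≤ N` of sums over factorizations. -/
theorem sum_anti (N : ℕ) (f : ℕ → ℕ → ℂ) (hf : ∀ d e, N < d * e → f d e = 0) :
    ∑ n ∈ Icc 1 N, ∑ p ∈ n.divisorsAntidiagonal, f p.1 p.2 =
      ∑ d ∈ Icc 1 N, ∑ e ∈ Icc 1 N, f d e := by
  classical
  rw [← Finset.sum_product']
  have h1 : ∑ p ∈ Icc 1 N ×ˢ Icc 1 N, f p.1 p.2 =
      ∑ p ∈ (Icc 1 N ×ˢ Icc 1 N).filter (fun p => p.1 * p.2 ≤ N), f p.1 p.2 := by
    rw [Finset.sum_filter]
    refine Finset.sum_congr rfl (fun p _ => ?_)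
    split_ifs with h
    · rfl
    · exact hf _ _ (not_le.1 h)
  rw [h1]
  rw [← Finset.sum_fiberwise_of_maps_to (s := (Icc 1 N ×ˢ Icc 1 N).filter
    (fun p => p.1 * p.2 ≤ N)) (t := Icc 1 N) (g := fun p => p.1 * p.2) (by
      intro p hp
      rw [Finset.mem_filter, Finset.mem_product, Finset.mem_Icc, Finset.mem_Icc] at hp
      rw [Finset.mem_Icc]
      exact ⟨Nat.mul_pos (by omega) (by omega), hp.2⟩)]
  refine Finset.sum_congr rfl (fun n hn => ?_)
  rw [Finset.mem_Icc] at hn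
  refine Finset.sum_congr ?_ (fun _ _ => rfl)
  ext ⟨d, e⟩
  simp only [Nat.mem_divisorsAntidiagonal, Finset.mem_filter, Finset.mem_product, Finset.mem_Icc]
  constructor
  · rintro ⟨h, h0⟩
    have hd : 0 < d := Nat.pos_of_ne_zero (by rintro rfl; simp at h; omega)
    have he : 0 < e := Nat.pos_of_ne_zero (by rintro rfl; simp at h; omega)
    have hd' : d ≤ n := Nat.le_of_dvd (by omega) ⟨e, h.symm⟩
    have he' : e ≤ n := Nat.le_of_dvd (by omega) ⟨d, by rw [← h, mul_comm]⟩
    exact ⟨⟨⟨⟨hd, by omega⟩, ⟨he, by omega⟩⟩, by omega⟩, h⟩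
  · rintro ⟨_, h⟩
    exact ⟨h, by omega⟩

/-- The exponential factor. -/
noncomputable def uu (l : ℝ) (m : ℕ) (t : ℝ) : ℂ :=
  Complex.exp (t * (Real.log m / l : ℝ) * Complex.I)

theorem norm_uu (l : ℝ) (m : ℕ) (t : ℝ) : ‖uu l m t‖ = 1 := by
  unfold uu
  rw [← Complex.ofReal_mul, Complex.norm_exp_ofReal_mul_I]

theorem continuous_uu (l : ℝ) (m : ℕ) : Continuous (uu l m) := by
  unfold uu
  fun_prop

/-- The linear forms. -/
noncomputable def FF (a : ℕ → ℂ) (l : ℝ) (U N : ℕ) (x : Σ q : ℕ, DirichletCharacter ℂ q)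
    (t : ℝ) : ℂ :=
  ∑ m ∈ Ioc U N, (a m * uu l m t) * x.2 (m : ZMod x.1) / m

theorem continuous_FF (a : ℕ → ℂ) (l : ℝ) (U N : ℕ) (x : Σ q : ℕ, DirichletCharacter ℂ q) :
    Continuous (FF a l U N x) := by
  unfold FF
  refine continuous_finsetSum _ (fun m _ => ?_)
  have := continuous_uu l m
  fun_prop

theorem norm_FF_le (a : ℕ → ℂ) (l : ℝ) (U N : ℕ) (x : Σ q : ℕ, DirichletCharacter ℂ q)
    (t : ℝ) : ‖FF a l U N x t‖ ≤ ∑ m ∈ Ioc U N, ‖a m‖ / m := by
  unfold FF
  refine (norm_sum_le _ _).trans (Finset.sum_le_sum (fun m _ => ?_))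
  rw [norm_div, norm_mul, norm_mul, norm_uu, mul_one, Complex.norm_natCast]
  apply div_le_div_of_nonneg_right _ (Nat.cast_nonneg m)
  have := x.2.norm_le_one (m : ZMod x.1)
  nlinarith [norm_nonneg (a m)]

end Pool.Agent.Helper96.BV

end

section

set_option autoImplicit false

open Finset Filter Topology

open scoped ArithmeticFunction.vonMangoldt

open Pool.Agent.Helper18.BV

namespace Pool.Agent.Helper51.BV

theorem sum_div_le (D : ℕ) (u v : ℕ → ℝ) (hu : ∀ n, 0 ≤ u n) (hv : ∀ n, 0 ≤ v n) :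
    ∑ d ∈ Icc 1 D, ∑ q ∈ d.divisors, u q * v (d / q) ≤
      (∑ q ∈ Icc 1 D, u q) * ∑ m ∈ Icc 1 D, v m := by
  rw [Finset.sum_sigma', Finset.sum_mul_sum, ← Finset.sum_product']
  set S : Finset (Σ _ : ℕ, ℕ) := (Icc 1 D).sigma (fun d => d.divisors) with hS
  have hinj : Set.InjOn (fun p : Σ _ : ℕ, ℕ => (p.2, p.1 / p.2)) S := by
    rintro ⟨d, q⟩ h ⟨d', q'⟩ h' he
    have h1 := Finset.mem_sigma.mp (Finset.mem_coe.mp h)
    have h2 := Finset.mem_sigma.mp (Finset.mem_coe.mp h')
    simp only [Prod.mk.injEq] at he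
    obtain ⟨he1, he2⟩ := he
    subst he1
    have e1 : d / q * q = d := Nat.div_mul_cancel (Nat.dvd_of_mem_divisors h1.2)
    have e2 : d' / q * q = d' := Nat.div_mul_cancel (Nat.dvd_of_mem_divisors h2.2)
    have : d = d' := by rw [← e1, ← e2, he2]
    subst this
    rfl
  have h1 : ∑ p ∈ S, u p.2 * v (p.1 / p.2) =
      ∑ r ∈ S.image (fun p : Σ _ : ℕ, ℕ => (p.2, p.1 / p.2)), u r.1 * v r.2 := by
    rw [Finset.sum_image hinj]
  rw [h1]
  refine Finset.sum_le_sum_of_subset_of_nonneg ?_ (fun r _ _ => mul_nonneg (hu _) (hv _))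
  intro r hr
  obtain ⟨⟨d, q⟩, hp, rfl⟩ := Finset.mem_image.mp hr
  obtain ⟨hd, hq⟩ := Finset.mem_sigma.mp hp
  rw [Finset.mem_Icc] at hd
  have hqd := Nat.dvd_of_mem_divisors hq
  have hq0 : 0 < q := Nat.pos_of_mem_divisors hq
  have hqle : q ≤ d := Nat.le_of_dvd hd.1 hqd
  simp only at hqd hq0 hqle ⊢
  rw [Finset.mem_product, Finset.mem_Icc, Finset.mem_Icc]
  exact ⟨⟨hq0, hqle.trans hd.2⟩, Nat.div_pos hqle hq0, (Nat.div_le_self _ _).trans hd.2⟩

theorem le_card_mul_totient (q : ℕ) : q ≤ q.divisors.card * q.totient := by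
  rcases Nat.eq_zero_or_pos q with h0 | h0
  · subst h0; simp
  conv_lhs => rw [← Nat.sum_totient q]
  rw [← smul_eq_mul]
  apply Finset.sum_le_card_nsmul
  intro d hd
  exact Nat.le_of_dvd (Nat.totient_pos.2 h0) (Nat.totient_dvd_of_dvd (Nat.dvd_of_mem_divisors hd))

theorem sum_inv_totient_le (D : ℕ) :
    ∑ m ∈ Icc 1 D, (1 : ℝ) / m.totient ≤ (1 + Real.log D) ^ 2 := by
  have h1 : ∀ m ∈ Icc 1 D, (1 : ℝ) / m.totient ≤
      ∑ q ∈ m.divisors, (1 / (q : ℝ)) * (1 / ((m / q : ℕ) : ℝ)) := by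
    intro m hm
    rw [Finset.mem_Icc] at hm
    have hm0 : (0 : ℝ) < m := by exact_mod_cast hm.1
    have ht : (0 : ℝ) < m.totient := by exact_mod_cast Nat.totient_pos.2 hm.1
    have h2 : ∀ q ∈ m.divisors, (1 / (q : ℝ)) * (1 / ((m / q : ℕ) : ℝ)) = 1 / m := by
      intro q hq
      have e : q * (m / q) = m := Nat.mul_div_cancel' (Nat.dvd_of_mem_divisors hq)
      rw [one_div_mul_one_div, ← Nat.cast_mul, e]
    rw [Finset.sum_congr rfl h2, Finset.sum_const, nsmul_eq_mul, mul_one_div,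
      div_le_div_iff₀ ht hm0]
    have := le_card_mul_totient m
    rw [one_mul]
    exact_mod_cast this
  refine (Finset.sum_le_sum h1).trans ?_
  refine (sum_div_le D (fun q => 1 / (q : ℝ)) (fun q => 1 / (q : ℝ)) (fun n => by (clear * -; positivity))
    (fun n => by (clear * -; positivity))).trans ?_
  have h2 : ∑ m ∈ Icc 1 D, (1 : ℝ) / m ≤ 1 + Real.log D := by
    have h3 : ∑ m ∈ Icc 1 D, (1 : ℝ) / m = ((harmonic D : ℚ) : ℝ) := by
      rw [harmonic_eq_sum_Icc]
      push_cast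
      refine Finset.sum_congr rfl (fun m _ => by rw [one_div])
    rw [h3]
    exact harmonic_le_one_add_log D
  have h4 : 0 ≤ ∑ m ∈ Icc 1 D, (1 : ℝ) / m := Finset.sum_nonneg fun m _ => by (clear * -; positivity)
  rw [sq]
  exact mul_le_mul h2 h2 h4 (h4.trans h2)

theorem natlog_le {x : ℝ} (hx : 3 ≤ x) : ((Nat.log 2 ⌊x⌋₊ : ℕ) : ℝ) ≤ 2 * Real.log x := by
  have h0 : ⌊x⌋₊ ≠ 0 := by
    have : 1 ≤ ⌊x⌋₊ := Nat.le_floor (by push_cast; (clear * - hx; linarith))
    omega
  have h1 : ((2 ^ Nat.log 2 ⌊x⌋₊ : ℕ) : ℝ) ≤ x :=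
    (Nat.cast_le.mpr (Nat.pow_log_le_self 2 h0)).trans (Nat.floor_le (by (clear * - hx; linarith)))
  push_cast at h1
  have h2 := Real.log_le_log (by positivity) h1
  rw [Real.log_pow] at h2
  have h3 : (1 / 2 : ℝ) ≤ Real.log 2 := by
    have := Real.log_two_gt_d9; (clear * - this; linarith)
  have h4 : (0 : ℝ) ≤ (Nat.log 2 ⌊x⌋₊ : ℕ) := Nat.cast_nonneg _
  (clear * - h2 h3; nlinarith)

end Pool.Agent.Helper51.BV

end

section

set_option autoImplicit false

open Finset

namespace Pool.Agent.Helper83.MT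

open Pool.Agent.Helper1.MT

section Abstract

variable {ι κ : Type} [Fintype ι] [Fintype κ] [DecidableEq ι] [DecidableEq κ]

/-- The possible pairs of colours at a point of the support. -/
def opts (κ : Type) [Fintype κ] [DecidableEq κ] : Finset (Option κ × Option κ) :=
  ((univ : Finset κ).image fun i => ((some i, none) : Option κ × Option κ)) ∪
    (((univ : Finset κ).image fun i => ((none, some i) : Option κ × Option κ)) ∪
      ((univ : Finset κ).image fun i => ((some i, some i) : Option κ × Option κ)))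

theorem card_opts_le : (opts κ).card ≤ 3 * Fintype.card κ := by
  unfold opts
  refine (Finset.card_union_le _ _).trans ?_
  have h1 : ((univ : Finset κ).image fun i => ((some i, none) : Option κ × Option κ)).card ≤
      Fintype.card κ := Finset.card_image_le
  have h2 := (Finset.card_union_le ((univ : Finset κ).image fun i =>
    ((none, some i) : Option κ × Option κ)) ((univ : Finset κ).image fun i =>
    ((some i, some i) : Option κ × Option κ)))
  have h3 : ((univ : Finset κ).image fun i => ((none, some i) : Option κ × Option κ)).card ≤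
      Fintype.card κ := Finset.card_image_le
  have h4 : ((univ : Finset κ).image fun i => ((some i, some i) : Option κ × Option κ)).card ≤
      Fintype.card κ := Finset.card_image_le
  omega

end Abstract

end Pool.Agent.Helper83.MT

end

section

set_option autoImplicit false

open Finset Filter Topology

open scoped ArithmeticFunction.vonMangoldt

namespace Pool.Agent.Helper72.MT

open Pool.Agent.Helper1.MT

open Pool.Agent.Helper83.MT

theorem eventually_shift {A : ℝ} :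
    ∀ᶠ x : ℝ in atTop, Real.log x ^ A + 2 ≤ x ^ (1 / 8 : ℝ) := by
  have hlit := (isLittleO_log_rpow_rpow_atTop (s := 1 / 8) A
    (by norm_num)).bound (show (0 : ℝ) < 1 / 2 by norm_num)
  have h4 := (tendsto_rpow_atTop (show (0 : ℝ) < 1 / 8 by norm_num)).eventually_ge_atTop 4
  filter_upwards [hlit, h4, eventually_gt_atTop 1] with x h1 h2 hx
  have hx0 : 0 < x := by (clear * - hx; linarith)
  have hl0 : 0 < Real.log x := Real.log_pos hx
  rw [Real.norm_of_nonneg (Real.rpow_nonneg hl0.le _),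
    Real.norm_of_nonneg (Real.rpow_nonneg hx0.le _)] at h1
  linarith

end Pool.Agent.Helper72.MT

end

section

set_option autoImplicit false

open Finset

namespace Pool.Agent.Helper28.MT

open Pool.Agent.Helper1.MT

/-- The step function as a function of the size. -/
noncomputable def gJ (κ : ℝ) (J : ℕ) (x : ℝ) : ℝ :=
  (∑ j ∈ range J, if x ≤ 2 ^ j / κ then (1 / 2 : ℝ) ^ (j + 1) else 0) +
    if x ≤ 2 ^ J / κ then (1 / 2 : ℝ) ^ J else 0

/-- The square of the step function. -/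
noncomputable def hJ (κ : ℝ) (J : ℕ) (x : ℝ) : ℝ :=
  (∑ j ∈ range J, if x ≤ 2 ^ j / κ then (3 / 4 : ℝ) * (1 / 4) ^ j else 0) +
    if x ≤ 2 ^ J / κ then (1 / 4 : ℝ) ^ J else 0

theorem thr_mono {κ : ℝ} (hκ : 0 < κ) {i j : ℕ} (h : i ≤ j) :
    (2 : ℝ) ^ i / κ ≤ 2 ^ j / κ := by
  apply div_le_div_of_nonneg_right _ hκ.le
  exact pow_le_pow_right₀ (by norm_num) h

theorem gJ_val {κ : ℝ} (hκ : 0 < κ) (J : ℕ) (x : ℝ) :
    (2 ^ J / κ < x ∧ gJ κ J x = 0 ∧ hJ κ J x = 0) ∨
      ∃ j ≤ J, x ≤ 2 ^ j / κ ∧ gJ κ J x = (1 / 2) ^ j ∧ hJ κ J x = (1 / 4) ^ j := by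
  induction J with
  | zero =>
    by_cases hx : x ≤ 2 ^ 0 / κ
    · right
      exact ⟨0, le_rfl, hx, by simp only [gJ, hx]; simp, by simp only [hJ, hx]; simp⟩
    · left
      exact ⟨not_le.1 hx, by simp only [gJ, hx]; simp, by simp only [hJ, hx]; simp⟩
  | succ J ih =>
    have hg : gJ κ (J + 1) x = gJ κ J x + ((if x ≤ 2 ^ J / κ then (1 / 2 : ℝ) ^ (J + 1) else 0) -
        (if x ≤ 2 ^ J / κ then (1 / 2 : ℝ) ^ J else 0) +
        if x ≤ 2 ^ (J + 1) / κ then (1 / 2 : ℝ) ^ (J + 1) else 0) := by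
      unfold gJ
      rw [sum_range_succ]
      ring
    have hh : hJ κ (J + 1) x = hJ κ J x + ((if x ≤ 2 ^ J / κ then (3 / 4 : ℝ) * (1 / 4) ^ J else 0) -
        (if x ≤ 2 ^ J / κ then (1 / 4 : ℝ) ^ J else 0) +
        if x ≤ 2 ^ (J + 1) / κ then (1 / 4 : ℝ) ^ (J + 1) else 0) := by
      unfold hJ
      rw [sum_range_succ]
      ring
    rcases ih with ⟨h1, h2, h3⟩ | ⟨j, hj, h1, h2, h3⟩
    · by_cases hx : x ≤ 2 ^ (J + 1) / κ
      · right
        refine ⟨J + 1, le_rfl, hx, ?_, ?_⟩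
        · rw [hg, h2, if_neg (not_le.2 h1), if_neg (not_le.2 h1), if_pos hx]
          ring
        · rw [hh, h3, if_neg (not_le.2 h1), if_neg (not_le.2 h1), if_pos hx]
          ring
      · left
        refine ⟨not_le.1 hx, ?_, ?_⟩
        · rw [hg, h2, if_neg (not_le.2 h1), if_neg (not_le.2 h1), if_neg hx]
          ring
        · rw [hh, h3, if_neg (not_le.2 h1), if_neg (not_le.2 h1), if_neg hx]
          ring
    · right
      have hxJ : x ≤ 2 ^ J / κ := h1.trans (thr_mono hκ hj)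
      have hxJ' : x ≤ 2 ^ (J + 1) / κ := h1.trans (thr_mono hκ (by (clear * - hj; omega)))
      refine ⟨j, by omega, h1, ?_, ?_⟩
      · rw [hg, h2, if_pos hxJ, if_pos hxJ, if_pos hxJ']
        ring
      · rw [hh, h3, if_pos hxJ, if_pos hxJ, if_pos hxJ']
        ring

theorem gJ_sq {κ : ℝ} (hκ : 0 < κ) (J : ℕ) (x : ℝ) : gJ κ J x ^ 2 = hJ κ J x := by
  rcases gJ_val hκ J x with ⟨_, h2, h3⟩ | ⟨j, _, _, h2, h3⟩
  · rw [h2, h3]
    norm_num
  · rw [h2, h3, ← pow_mul, mul_comm, pow_mul]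
    norm_num

theorem gJ_nonneg (κ : ℝ) (J : ℕ) (x : ℝ) : 0 ≤ gJ κ J x := by
  unfold gJ
  apply add_nonneg
  · apply sum_nonneg
    intro j _
    split_ifs
    · positivity
    · exact le_rfl
  · split_ifs
    · positivity
    · exact le_rfl

theorem gJ_le {κ : ℝ} (hκ : 0 < κ) (J : ℕ) (x : ℝ) : gJ κ J x ≤ 1 := by
  rcases gJ_val hκ J x with ⟨_, h2, _⟩ | ⟨j, _, _, h2, _⟩
  · rw [h2]
    norm_num
  · rw [h2]
    exact pow_le_one₀ (by norm_num) (by norm_num)

theorem gJ_anti (κ : ℝ) (J : ℕ) {x y : ℝ} (h : x ≤ y) : gJ κ J y ≤ gJ κ J x := by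
  unfold gJ
  apply add_le_add
  · apply sum_le_sum
    intro j _
    split_ifs with h1 h2 h2
    · exact le_rfl
    · exact absurd (h.trans h1) h2
    · positivity
    · exact le_rfl
  · split_ifs with h1 h2 h2
    · exact le_rfl
    · exact absurd (h.trans h1) h2
    · positivity
    · exact le_rfl

theorem gJ_supp {κ : ℝ} (hκ : 0 < κ) {J : ℕ} {x : ℝ} (h : gJ κ J x ≠ 0) : x ≤ 2 ^ J / κ := by
  rcases gJ_val hκ J x with ⟨_, h2, _⟩ | ⟨j, hj, h1, _, _⟩
  · exact absurd h2 h
  · exact h1.trans (thr_mono hκ hj)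

theorem gJ_mul {κ : ℝ} (hκ : 0 < κ) (J : ℕ) (x : ℝ) : gJ κ J x * x ≤ 1 / κ := by
  rcases gJ_val hκ J x with ⟨_, h2, _⟩ | ⟨j, hj, h1, h2, _⟩
  · rw [h2, zero_mul]
    (clear * - hκ; positivity)
  · rw [h2]
    calc (1 / 2 : ℝ) ^ j * x ≤ (1 / 2) ^ j * (2 ^ j / κ) :=
          mul_le_mul_of_nonneg_left h1 (by positivity)
      _ = ((1 / 2) * 2) ^ j / κ := by rw [mul_pow]; ring
      _ = 1 / κ := by norm_num

theorem sum_half (J : ℕ) : ∑ j ∈ range J, (1 / 2 : ℝ) ^ (j + 1) + (1 / 2) ^ J = 1 := by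
  induction J with
  | zero => simp
  | succ J ih =>
    rw [sum_range_succ]
    have : (1 / 2 : ℝ) ^ (J + 1) = (1 / 2) ^ J / 2 := by rw [pow_succ]; ring
    (clear * - ih this; linarith)

theorem sum_quarter (J : ℕ) :
    ∑ j ∈ range J, (3 / 4 : ℝ) * (1 / 4) ^ j + (1 / 4) ^ J = 1 := by
  induction J with
  | zero => simp
  | succ J ih =>
    rw [sum_range_succ]
    have : (1 / 4 : ℝ) ^ (J + 1) = (1 / 4) ^ J / 4 := by rw [pow_succ]; ring
    linarith

theorem sum_mainA (κ : ℝ) (J : ℕ) :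
    ∑ j ∈ range J, (1 / 2 : ℝ) ^ (j + 1) * (2 ^ j / κ) + (1 / 2) ^ J * (2 ^ J / κ) =
      ((J : ℝ) + 2) / (2 * κ) := by
  have h1 : ∀ j : ℕ, (1 / 2 : ℝ) ^ j * (2 ^ j / κ) = 1 / κ := by
    intro j
    calc (1 / 2 : ℝ) ^ j * (2 ^ j / κ) = ((1 / 2) * 2) ^ j / κ := by rw [mul_pow]; ring
      _ = 1 / κ := by norm_num
  have h2 : ∀ j ∈ range J, (1 / 2 : ℝ) ^ (j + 1) * (2 ^ j / κ) = 1 / (2 * κ) := by
    intro j _
    rw [pow_succ]
    calc (1 / 2 : ℝ) ^ j * (1 / 2) * (2 ^ j / κ) = (1 / 2) * ((1 / 2 : ℝ) ^ j * (2 ^ j / κ)) := by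
          ring
      _ = 1 / (2 * κ) := by rw [h1]; ring
  rw [sum_congr rfl h2, sum_const, card_range, h1, nsmul_eq_mul]
  ring

theorem sum_mainB (κ : ℝ) (J : ℕ) :
    ∑ j ∈ range J, (3 / 4 : ℝ) * (1 / 4) ^ j * (2 ^ j / κ) + (1 / 4) ^ J * (2 ^ J / κ) =
      (3 / 2 - (1 / 2) * (1 / 2) ^ J) / κ := by
  have h1 : ∀ j : ℕ, (1 / 4 : ℝ) ^ j * (2 ^ j / κ) = (1 / 2) ^ j / κ := by
    intro j
    calc (1 / 4 : ℝ) ^ j * (2 ^ j / κ) = ((1 / 4) * 2) ^ j / κ := by rw [mul_pow]; ring
      _ = (1 / 2) ^ j / κ := by norm_num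
  have h2 : ∀ j ∈ range J, (3 / 4 : ℝ) * (1 / 4) ^ j * (2 ^ j / κ) =
      (3 / 4) * (1 / 2) ^ j / κ := by
    intro j _
    rw [mul_assoc, h1]
    ring
  rw [sum_congr rfl h2, h1]
  have h3 : ∀ J : ℕ, ∑ j ∈ range J, (3 / 4 : ℝ) * (1 / 2) ^ j / κ =
      (3 / 2 - (3 / 2) * (1 / 2) ^ J) / κ := by
    intro J
    induction J with
    | zero => simp
    | succ J ih =>
      rw [sum_range_succ, ih, pow_succ]
      ring
  rw [h3]
  ring

/-- The error of a combination of the sums. -/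
theorem lin_err {κ L C : ℝ} (J : ℕ) (F : ℝ → ℝ) (hF : ∀ j ≤ J, |F (2 ^ j / κ) - 2 ^ j / κ * L| ≤ C)
    (a : ℕ → ℝ) (b : ℝ) (ha : ∀ j, 0 ≤ a j) (hb : 0 ≤ b) :
    |(∑ j ∈ range J, a j * F (2 ^ j / κ) + b * F (2 ^ J / κ)) -
      (∑ j ∈ range J, a j * (2 ^ j / κ) + b * (2 ^ J / κ)) * L| ≤
      (∑ j ∈ range J, a j + b) * C := by
  have h1 : (∑ j ∈ range J, a j * F (2 ^ j / κ) + b * F (2 ^ J / κ)) -
      (∑ j ∈ range J, a j * (2 ^ j / κ) + b * (2 ^ J / κ)) * L =
      ∑ j ∈ range J, a j * (F (2 ^ j / κ) - 2 ^ j / κ * L) +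
        b * (F (2 ^ J / κ) - 2 ^ J / κ * L) := by
    simp only [mul_sub, sum_sub_distrib, add_mul, sum_mul, mul_assoc]
    ring
  rw [h1]
  refine (abs_add_le _ _).trans ?_
  rw [add_mul]
  apply add_le_add
  · refine (abs_sum_le_sum_abs _ _).trans ?_
    rw [sum_mul]
    apply sum_le_sum
    intro j hj
    rw [abs_mul, abs_of_nonneg (ha j)]
    exact mul_le_mul_of_nonneg_left (hF j (mem_range.1 hj).le) (ha j)
  · rw [abs_mul, abs_of_nonneg hb]
    exact mul_le_mul_of_nonneg_left (hF J le_rfl) hb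

end Pool.Agent.Helper28.MT

end
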