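import Mathlib

/-!
Parts of Helper90.MT.Common, Helper9.MT.Gram, Helper90.MT.LowerMain, Helper12.MT.Star, Helper18.BV.St, Helper44.BV.TypeOne, Helper51.BV.Average, Helper28.MT.OneDim
-/

namespace Pool.Agent.Helper1.MT
end Pool.Agent.Helper1.MT
namespace Pool.Agent.Helper18.BV
end Pool.Agent.Helper18.BV

section

set_option autoImplicit false

open Finset

namespace Pool.Agent.Helper90.MT

open Pool.Agent.Helper1.MT

variable {ι κ : Type} [Fintype ι] [Fintype κ] [DecidableEq ι] [DecidableEq κ]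

/-- The sign of a local value. -/
def sg (a : Option κ) : ℝ := if a = none then 1 else -1

theorem prod_local (F : ι → Option κ → ℝ) :
    ∏ p, ∑ a : Option κ, F p a = ∑ c : ι → Option κ, ∏ p, F p (c p) := by
  rw [Finset.prod_univ_sum, Fintype.piFinset_univ]

/-- The coloring of a tuple of disjoint sets. -/
noncomputable def ofT (f : κ → Finset ι) (p : ι) : Option κ :=
  if h : ∃ i, p ∈ f i then some h.choose else none

/-- Products `∏ (1 + x_p)`. -/
theorem prod_one_add_le (x : ι → ℝ) (hx : ∀ p, 0 ≤ x p) :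
    ∏ p, (1 + x p) ≤ Real.exp (∑ p, x p) := by
  rw [Real.exp_sum]
  refine Finset.prod_le_prod (fun p _ => by (clear * - hx; linarith [hx p])) fun p _ => ?_
  have := Real.add_one_le_exp (x p)
  linarith

end Pool.Agent.Helper90.MT

end

section

set_option autoImplicit false

open Finset

namespace Pool.Agent.Helper9.MT

open Pool.Agent.Helper1.MT

section Local

variable {ι κ : Type} [Fintype ι] [Fintype κ] [DecidableEq ι] [DecidableEq κ]

/-- The local weights in the lower bound. -/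
def wlow (m : κ) (w' : ℝ) : Option κ → ℝ
  | none => 1
  | some i => if i = m then 0 else w' * (1 - ((Fintype.card κ : ℝ) - 1) * w')

end Local

end Pool.Agent.Helper9.MT

end

section

set_option autoImplicit false

open Finset

namespace Pool.Agent.Helper90.MT

open Pool.Agent.Helper1.MT

variable {ι κ : Type} [Fintype ι] [Fintype κ] [DecidableEq ι] [DecidableEq κ]

/-- Adding points of colour `m`. -/
def ext (m : κ) (c : ι → Option κ) (S : Finset ι) (p : ι) : Option κ :=
  if p ∈ S then some m else c p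

section Main

variable {w w' t : ι → ℝ} {γ : Finset ι → ℝ} {τ η : ℝ}

/-- Delete the points of colour `m`. -/
def del (m : κ) (c : ι → Option κ) (p : ι) : Option κ := if c p = some m then none else c p

end Main

end Pool.Agent.Helper90.MT

end

section

set_option autoImplicit false

set_option linter.unusedSectionVars false

open Finset

namespace Pool.Agent.Helper12.MT

open Pool.Agent.Helper1.MT

open Pool.Agent.Helper90.MT (prod_one_add_le)

section Sums

variable {ι κ : Type} [Fintype ι] [Fintype κ] [DecidableEq ι] [DecidableEq κ]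

/-- The sum over the pairs. -/
theorem pair_le {A : Finset (Finset ι)} {B C : Finset (Finset ι)} (e : Finset ι → Finset ι × Finset ι)
    (he : ∀ S ∈ A, (e S).1 ∈ B ∧ (e S).2 ∈ C) (hi : ∀ S ∈ A, (e S).1 ∪ (e S).2 = S)
    {f g : Finset ι → ℝ} (hf : ∀ S, 0 ≤ f S) (hg : ∀ S, 0 ≤ g S) :
    ∑ S ∈ A, f (e S).1 * g (e S).2 ≤ (∑ S ∈ B, f S) * ∑ S ∈ C, g S := by
  rw [Finset.sum_mul_sum, ← Finset.sum_product']
  have hinj : Set.InjOn e (A : Set (Finset ι)) := by
    intro S hS S' hS' h
    rw [← hi S hS, ← hi S' hS', h]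
  rw [← Finset.sum_image (f := fun z : Finset ι × Finset ι => f z.1 * g z.2) hinj]
  refine Finset.sum_le_sum_of_subset_of_nonneg ?_ fun z _ _ => mul_nonneg (hf _) (hg _)
  intro z hz
  obtain ⟨S, hS, rfl⟩ := Finset.mem_image.1 hz
  exact Finset.mem_product.2 (he S hS)

end Sums

end Pool.Agent.Helper12.MT

end

section

set_option autoImplicit false

open Finset Filter Topology

open scoped ArithmeticFunction.vonMangoldt ArithmeticFunction.Moebius ArithmeticFunction.zeta

namespace Pool.Agent.Helper18.BV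

/-- A2: lower bound for `L(1, χ)`, complex characters. -/
def LComplex : Prop :=
  ∀ ε : ℝ, 0 < ε → ∃ c : ℝ, 0 < c ∧
    ∀ (q : ℕ) [NeZero q] (χ : DirichletCharacter ℂ q), χ ^ 2 ≠ 1 →
      c * (q : ℝ) ^ (-ε) ≤ ‖DirichletCharacter.LFunction χ 1‖

/-- A5: Siegel's lower bound for real primitive characters. -/
def SiegelReal : Prop :=
  ∀ ε : ℝ, 0 < ε → ∃ c : ℝ, 0 < c ∧
    ∀ (q : ℕ) [NeZero q] (χ : DirichletCharacter ℂ q), χ.IsPrimitive → χ ≠ 1 → χ ^ 2 = 1 →
      c * (q : ℝ) ^ (-ε) ≤ ‖DirichletCharacter.LFunction χ 1‖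

end Pool.Agent.Helper18.BV

end

section

set_option autoImplicit false

open Finset Filter Topology

open scoped ArithmeticFunction.vonMangoldt ArithmeticFunction.Moebius ArithmeticFunction.zeta

namespace Pool.Agent.Helper44.BV

open Pool.Agent.Helper18.BV

theorem sum_antidiagonal (F : ℕ → ℕ → ℂ) (N : ℕ) :
    ∑ n ∈ Icc 1 N, ∑ p ∈ n.divisorsAntidiagonal, F p.1 p.2 =
      ∑ m ∈ Icc 1 N, ∑ k ∈ Icc 1 (N / m), F m k := by
  have h1 : ∑ n ∈ Icc 1 N, ∑ p ∈ n.divisorsAntidiagonal, F p.1 p.2 =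
      ∑ n ∈ Icc 1 N, ∑ p ∈ (Icc 1 N ×ˢ Icc 1 N).filter (fun p => p.1 * p.2 = n), F p.1 p.2 := by
    refine Finset.sum_congr rfl fun n hn => ?_
    refine Finset.sum_congr ?_ fun _ _ => rfl
    ext ⟨a, b⟩
    rw [Finset.mem_Icc] at hn
    simp only [Nat.mem_divisorsAntidiagonal, Finset.mem_filter, Finset.mem_product,
      Finset.mem_Icc]
    constructor
    · rintro ⟨h, h0⟩
      have ha : 0 < a := Nat.pos_of_ne_zero (by rintro rfl; simp at h; omega)
      have hb : 0 < b := Nat.pos_of_ne_zero (by rintro rfl; simp at h; omega)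
      have hab : a ≤ a * b := Nat.le_mul_of_pos_right a hb
      have hba : b ≤ a * b := Nat.le_mul_of_pos_left b ha
      exact ⟨⟨⟨ha, by omega⟩, ⟨hb, by omega⟩⟩, h⟩
    · rintro ⟨-, h⟩
      exact ⟨h, by omega⟩
  rw [h1]
  simp_rw [Finset.sum_filter]
  rw [Finset.sum_comm, Finset.sum_product]
  refine Finset.sum_congr rfl fun m hm => ?_
  rw [Finset.mem_Icc] at hm
  have h2 : ∀ k, (∑ n ∈ Icc 1 N, if m * k = n then F m k else 0) =
      if m * k ∈ Icc 1 N then F m k else 0 := by
    intro k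
    rw [Finset.sum_ite_eq]
  simp only
  rw [Finset.sum_congr rfl fun k _ => h2 k, ← Finset.sum_filter]
  refine Finset.sum_congr ?_ fun _ _ => rfl
  ext k
  simp only [Finset.mem_filter, Finset.mem_Icc]
  constructor
  · rintro ⟨⟨hk1, -⟩, -, h⟩
    exact ⟨hk1, (Nat.le_div_iff_mul_le (by omega)).2 (by rw [mul_comm]; exact h)⟩
  · rintro ⟨hk1, hk⟩
    have h3 : m * k ≤ N := by
      have := (Nat.le_div_iff_mul_le (by omega : 0 < m)).1 hk
      rw [mul_comm]; exact this
    have h4 : 1 ≤ m * k := Nat.mul_pos hm.1 hk1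
    exact ⟨⟨hk1, (hk.trans (Nat.div_le_self N m))⟩, h4, h3⟩

end Pool.Agent.Helper44.BV

end

section

set_option autoImplicit false

open Finset Filter Topology

open scoped ArithmeticFunction.vonMangoldt

open Pool.Agent.Helper18.BV

namespace Pool.Agent.Helper51.BV

theorem card_primePow_le (N d : ℕ) (hd : 0 < d) :
    ((Icc 1 N).filter (fun n => ¬ Nat.Coprime n d ∧ IsPrimePow n)).card ≤
      d.primeFactors.card * Nat.log 2 N := by
  have hsub : (Icc 1 N).filter (fun n => ¬ Nat.Coprime n d ∧ IsPrimePow n) ⊆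
      (d.primeFactors ×ˢ Icc 1 (Nat.log 2 N)).image (fun p : ℕ × ℕ => p.1 ^ p.2) := by
    intro n hn
    obtain ⟨h1, h2, h3⟩ := Finset.mem_filter.mp hn
    rw [Finset.mem_Icc] at h1
    obtain ⟨p, k, hp, hk, rfl⟩ := h3
    have hp' : p.Prime := Nat.prime_iff.mpr hp
    refine Finset.mem_image.mpr ⟨(p, k), ?_, rfl⟩
    rw [Finset.mem_product, Finset.mem_Icc, Nat.mem_primeFactors]
    refine ⟨⟨hp', ?_, hd.ne'⟩, hk, ?_⟩
    · by_contra hnd
      exact h2 (Nat.Coprime.pow_left k ((Nat.Prime.coprime_iff_not_dvd hp').mpr hnd))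
    · have h4 : 2 ^ k ≤ N := (Nat.pow_le_pow_left hp'.two_le k).trans h1.2
      exact Nat.le_log_of_pow_le (by norm_num) h4
  refine (Finset.card_le_card hsub).trans (Finset.card_image_le.trans ?_)
  rw [Finset.card_product, Nat.card_Icc, Nat.add_sub_cancel]

theorem card_primeFactors_le (d : ℕ) : d.primeFactors.card ≤ d := by
  have h : d.primeFactors ⊆ Icc 1 d := by
    intro p hp
    rw [Nat.mem_primeFactors] at hp
    exact Finset.mem_Icc.mpr ⟨hp.1.pos, Nat.le_of_dvd (Nat.pos_of_ne_zero hp.2.2) hp.2.1⟩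
  have := Finset.card_le_card h
  rwa [Nat.card_Icc, Nat.add_sub_cancel] at this

theorem prim_apply {d : ℕ} (χ : DirichletCharacter ℂ d) {n : ℕ} (hn : Nat.Coprime n d) :
    χ.primitiveCharacter (n : ZMod χ.conductor) = χ (n : ZMod d) := by
  have h := χ.primitiveCharacter_apply_of_isCoprime (a := (n : ℤ))
    (Nat.isCoprime_iff_coprime.mpr hn)
  push_cast at h
  exact h

theorem card_char (d : ℕ) [NeZero d] :
    (univ : Finset (DirichletCharacter ℂ d)).card = d.totient := by
  have h2 : Nat.card (DirichletCharacter ℂ d) = d.totient :=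
    DirichletCharacter.card_eq_totient_of_hasEnoughRootsOfUnity ℂ d
  rw [Nat.card_eq_fintype_card] at h2
  rw [← h2, Finset.card_univ]

end Pool.Agent.Helper51.BV

end

section

set_option autoImplicit false

open Finset

namespace Pool.Agent.Helper28.MT

open Pool.Agent.Helper1.MT

theorem D0_ge {K D0 : ℕ} (hK : 0 < K) (hD : (K + 2) ^ 10 ≤ D0) :
    6561 * (K + 2) ^ 2 ≤ D0 := by
  have h1 : (K + 2) ^ 10 = (K + 2) ^ 8 * (K + 2) ^ 2 := (Nat.pow_add (K + 2) 8 2)
  have h2 : 3 ^ 8 ≤ (K + 2) ^ 8 := Nat.pow_le_pow_left (Nat.succ_le_succ (Nat.succ_le_succ hK)) 8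
  rw [h1] at hD
  refine le_trans (Nat.mul_le_mul_right _ ?_) hD
  exact le_trans (by norm_num) h2

end Pool.Agent.Helper28.MT

end
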