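import Mathlib

/-!
Parts of Helper1.MT.Defs, Helper1.MT.Num, Helper1.MT.BoundsAux, Helper87.MT.Pair, Helper81.MT.OneDimU, Helper37.MT.ShiftsU
-/

namespace Pool.Agent.Helper1.MT
end Pool.Agent.Helper1.MT
namespace Pool.Agent.Helper28.MT
end Pool.Agent.Helper28.MT

section

set_option autoImplicit false

open Finset

open scoped ArithmeticFunction.vonMangoldt

namespace Pool.Agent.Helper1.MT

/-- Admissible data: `h` are the shifts, `v` modulo `W` the class of `n`, all primes below `D0`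
and all prime factors of differences of the shifts divide `W`. -/
structure Setup {κ : Type} (D0 : ℕ) (h : κ → ℕ) (W v : ℕ) : Prop where
  W_pos : 0 < W
  small : ∀ p : ℕ, p.Prime → p < D0 → p ∣ W
  diff : ∀ i j, i ≠ j → ∀ p : ℕ, p.Prime → (p : ℤ) ∣ (h i : ℤ) - h j → p ∣ W
  inj : Function.Injective h
  cop : ∀ i, Nat.Coprime (v + h i) W

end Pool.Agent.Helper1.MT

end

section

set_option autoImplicit false

open Finset

namespace Pool.Agent.Helper1.MT

theorem num_star {V lR lx : ℝ} {D0 : ℕ} (hD0 : 0 < D0) (hV0 : 0 < V) (hlx : 0 < lx)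
    (hx : lx ≤ 82 * lR) (hV : 9 / 10 * (1 / (32 * (D0 : ℝ)) * lR) ≤ V) :
    1 / V ≤ 2999 * D0 / lx := by
  have hD0r : (0 : ℝ) < D0 := by exact_mod_cast hD0
  rw [div_le_div_iff₀ hV0 hlx]
  have e3 : 2999 * (D0 : ℝ) * (9 / 10 * (1 / (32 * (D0 : ℝ)) * lR)) ≤ 2999 * D0 * V := by (clear * - hV hD0; gcongr)
  have e4 : 2999 * (D0 : ℝ) * (9 / 10 * (1 / (32 * (D0 : ℝ)) * lR)) = (2999 * 9 / 320) * lR := by
    field_simp
    ring
  rw [e4] at e3
  (clear * - hlx hx e3; linarith)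

theorem num_err {lx A0 err Lx W S εs : ℝ} (hlx : 2 ≤ lx) (hW : 0 < W) (hWA : W ≤ lx ^ A0)
    (hLx : Lx = lx / (2 * W)) (hS : Lx ≤ S) (herr : err = 1 / lx ^ (A0 + 2)) (hε : 0 < εs)
    (hε2 : 2 / εs ≤ lx) : err * lx ≤ S ∧ err ≤ S ∧ err ≤ εs * S := by
  have hlx0 : 0 < lx := by (clear * - hlx; linarith)
  have hpow := Real.rpow_nonneg hlx0.le A0
  have herr0 : 0 ≤ err := by
    rw [herr]
    (clear * - hlx; positivity)
  have h1 : err * lx ≤ S := by
    refine le_trans ?_ hS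
    have e2 : lx ^ (A0 + 2) = lx ^ A0 * lx ^ 2 := by
      rw [Real.rpow_add hlx0, Real.rpow_ofNat]
    rw [herr, hLx, e2, div_mul_eq_mul_div, one_mul,
      div_le_div_iff₀ (by (clear * - hlx; positivity)) (by (clear * - hW; positivity))]
    have e4 : 2 * W ≤ lx ^ A0 * lx ^ 2 := by
      have e5 : (2 : ℝ) ≤ lx ^ 2 := by (clear * - hlx; nlinarith)
      calc 2 * W ≤ lx ^ 2 * lx ^ A0 := by gcongr
        _ = _ := by ring
    gcongr
  have hS0 : 0 ≤ S := le_trans (by (clear * - herr0 hlx; positivity)) h1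
  have h2 : err * 1 ≤ err * lx := by gcongr; (clear * - hlx; linarith)
  refine ⟨h1, by (clear * - h1 h2; linarith), ?_⟩
  rw [div_le_iff₀ hε] at hε2
  have e2 : err * 2 ≤ err * (lx * εs) := by (clear * - hε2 herr0; gcongr)
  have e3 : err * lx * εs ≤ S * εs := by (clear * - h1 hε; gcongr)
  (clear * - herr0 e2 e3; linarith)

theorem prod_le_prod_subset {α : Type} [DecidableEq α] {s t : Finset α} (hst : s ⊆ t) {f : α → ℝ}
    (hf : ∀ i ∈ t, 1 ≤ f i) : ∏ i ∈ s, f i ≤ ∏ i ∈ t, f i := by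
  rw [← Finset.prod_sdiff hst]
  refine le_mul_of_one_le_left (Finset.prod_nonneg fun i hi => ?_) (Finset.one_le_prod fun i hi => ?_)
  · have := hf i (hst hi)
    (clear * - this; linarith)
  · exact hf i (Finset.sdiff_subset hi)

theorem bad_prod_ge {κ : Type} [Fintype κ] (h : κ → ℕ) (j : ℕ) :
    1 ≤ ∏ p ∈ (∏ i, ((h i : ℤ) - j).natAbs).primeFactors, (1 + 1 / (p : ℝ)) := by
  refine Finset.one_le_prod fun p _ => ?_
  have : (0 : ℝ) ≤ 1 / (p : ℝ) := by (clear * -; positivity)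
  linarith

end Pool.Agent.Helper1.MT

end

section

set_option autoImplicit false

open Finset Filter

namespace Pool.Agent.Helper1.MT

theorem num_star_end {E Q Lx B V Sg S lR lx err P : ℝ} {D0 K : ℕ} (hD0 : 0 < D0) (hV0 : 0 < V)
    (hlx : 0 < lx) (hx : lx ≤ 82 * lR) (hV : 9 / 10 * (1 / (32 * (D0 : ℝ)) * lR) ≤ V)
    (hE : E * V ≤ 2 * B ^ K * P) (hP : P ≤ Sg) (hSg : 1 ≤ Sg) (hB : 1 ≤ B) (hLx : 0 < Lx)
    (hQ : Q ≤ E) (hS : S = Lx * B ^ K) (herr : err * lx ≤ S) :
    Lx * Q + err ≤ 6000 * D0 / lx * Sg * S := by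
  have hB0 : 0 < B := by (clear * - hB; linarith)
  have hS0 : 0 < S := by
    rw [hS]
    (clear * - hLx hB; positivity)
  have hSg0 : 0 < Sg := by (clear * - hSg; linarith)
  have hD0r : (1 : ℝ) ≤ D0 := by exact_mod_cast hD0
  have h7 : E ≤ 2 * B ^ K * Sg / V := by
    rw [le_div_iff₀ hV0]
    refine hE.trans ?_
    gcongr
  have h8 : Lx * Q ≤ 2 * Sg / V * S := by
    calc Lx * Q ≤ Lx * E := mul_le_mul_of_nonneg_left hQ hLx.le
      _ ≤ Lx * (2 * B ^ K * Sg / V) := mul_le_mul_of_nonneg_left h7 hLx.le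
      _ = _ := by rw [hS]; ring
  have h9 : 2 * Sg / V * S ≤ 5999 * D0 / lx * Sg * S := by
    have e1 : 1 / V ≤ 2999 * D0 / lx := num_star hD0 hV0 hlx hx hV
    calc 2 * Sg / V * S = 2 * (1 / V) * Sg * S := by ring
      _ ≤ 2 * (2999 * D0 / lx) * Sg * S := by (clear * - e1 hSg hS0; gcongr)
      _ = 5998 * D0 / lx * Sg * S := by ring
      _ ≤ _ := by gcongr; norm_num
  have h10 : err ≤ D0 / lx * Sg * S := by
    have e1 : err ≤ S / lx := by
      rw [le_div_iff₀ hlx]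
      exact herr
    calc err ≤ S / lx := e1
      _ = 1 / lx * 1 * S := by ring
      _ ≤ _ := by gcongr
  have h11 : 6000 * D0 / lx * Sg * S = 5999 * D0 / lx * Sg * S + D0 / lx * Sg * S := by ring
  rw [h11]
  (clear * - h8 h9 h10; linarith)

end Pool.Agent.Helper1.MT

end

section

set_option autoImplicit false

set_option linter.unusedSectionVars false

open Finset

namespace Pool.Agent.Helper87.MT

open Pool.Agent.Helper1.MT

variable {ι κ : Type} [Fintype ι] [Fintype κ] [DecidableEq ι] [DecidableEq κ]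

/-- Delete the colours `m` and `m'` at one point. -/
def rr (m m' : κ) (a : Option κ) : Option κ := if a = some m ∨ a = some m' then none else a

/-- Delete the colours `m` and `m'`. -/
def rs (m m' : κ) (c : ι → Option κ) : ι → Option κ := fun p => rr m m' (c p)

/-- The local factor of the weight of the points of colour `m` or `m'`. -/
def l2 (m m' : κ) (x : ℝ) (a : Option κ) : ℝ := if a = some m ∨ a = some m' then x else 1

/-- The weight of the points of colour `m` or `m'`. -/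
def w2 (m m' : κ) (w : ι → ℝ) (c : ι → Option κ) : ℝ := ∏ p, l2 m m' (w p) (c p)

/-- The fibre of the deletion. -/
def fib (m m' : κ) (b : ι → Option κ) : Finset (ι → Option κ) :=
  univ.filter (fun c => rs m m' c = b)

theorem mem_fib {m m' : κ} {b c : ι → Option κ} : c ∈ fib m m' b ↔ rs m m' c = b := by
  simp [fib]

theorem w2_nonneg {m m' : κ} {w : ι → ℝ} (hw : ∀ p, 0 ≤ w p) (c : ι → Option κ) :
    0 ≤ w2 m m' w c := by
  unfold w2 l2
  refine Finset.prod_nonneg fun p _ => ?_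
  split_ifs
  · exact hw p
  · exact zero_le_one

theorem rr_idem (m m' : κ) (a : Option κ) : rr m m' (rr m m' a) = rr m m' a := by
  by_cases h : a = some m ∨ a = some m'
  · have h1 : rr m m' a = none := by unfold rr; rw [if_pos h]
    rw [h1]
    simp [rr]
  · have h1 : rr m m' a = a := by unfold rr; rw [if_neg h]
    rw [h1, h1]

theorem rs_idem (m m' : κ) (c : ι → Option κ) : rs m m' (rs m m' c) = rs m m' c :=
  funext fun p => rr_idem m m' (c p)

/-- A fixed point of the deletion avoids the two colours. -/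
theorem fix_ne {m m' : κ} {b : ι → Option κ} (hb : rs m m' b = b) (p : ι) :
    b p ≠ some m ∧ b p ≠ some m' := by
  have h1 : rr m m' (b p) = b p := congrFun hb p
  constructor
  · intro h
    rw [h] at h1
    simp [rr] at h1
  · intro h
    rw [h] at h1
    simp [rr] at h1

/-- The extension of `b` by two disjoint sets. -/
def ext2 (m m' : κ) (b : ι → Option κ) (S S' : Finset ι) (p : ι) : Option κ :=
  if p ∈ S then some m else if p ∈ S' then some m' else b p

end Pool.Agent.Helper87.MT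

end

section

set_option autoImplicit false

open Finset

namespace Pool.Agent.Helper81.MT

open Pool.Agent.Helper1.MT Pool.Agent.Helper28.MT

theorem exp_le_sub {y : ℝ} (h0 : 0 ≤ y) (h1 : y ≤ 1 / 2) : Real.exp (-(2 * y)) ≤ 1 - y := by
  rw [Real.exp_neg]
  have h2 : 1 + 2 * y ≤ Real.exp (2 * y) := by (clear * -; linarith [Real.add_one_le_exp (2 * y)])
  have h3 : 0 < 1 + 2 * y := by (clear * - h0; linarith)
  calc (Real.exp (2 * y))⁻¹ ≤ (1 + 2 * y)⁻¹ := inv_anti₀ h3 h2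
    _ ≤ 1 - y := by
      rw [inv_le_iff_one_le_mul₀ h3]
      (clear * - h0 h1; nlinarith)

theorem prod_small (n : ℕ) (hn : 2 ≤ n) :
    ∏ k ∈ Ico 2 n, (1 - 1 / (k : ℝ)) = 1 / ((n : ℝ) - 1) := by
  induction n, hn using Nat.le_induction with
  | base => norm_num
  | succ n hn ih =>
    have hn' : (2 : ℝ) ≤ n := by exact_mod_cast hn
    rw [prod_Ico_succ_top hn, ih]
    push_cast
    have h1 : (n : ℝ) - 1 ≠ 0 := by (clear * - hn'; linarith)
    have h2 : (n : ℝ) ≠ 0 := by (clear * - hn'; linarith)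
    rw [add_sub_cancel_right]
    field_simp

end Pool.Agent.Helper81.MT

end

section

set_option autoImplicit false

open Finset

namespace Pool.Agent.Helper37.MT

open Pool.Agent.Helper1.MT

/-- The shifts. -/
def hh (Q D : ℕ) {M κ0 : ℕ} (a : Fin M × Fin κ0) : ℕ := Q * (a.1.val * D + a.2.val)

theorem hh_inj {Q D M κ0 : ℕ} (hQ : 0 < Q) (hκ : κ0 ≤ D) :
    Function.Injective (fun a : Fin M × Fin κ0 => hh Q D a) := by
  rintro ⟨a, b⟩ ⟨c, d⟩ h
  simp only [hh] at h
  have h1 := Nat.eq_of_mul_eq_mul_left hQ h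
  have hb : b.val < D := b.isLt.trans_le hκ
  have hd : d.val < D := d.isLt.trans_le hκ
  have hac : a.val = c.val := by
    rcases lt_trichotomy a.val c.val with h2 | h2 | h2
    · have : (a.val + 1) * D ≤ c.val * D := Nat.mul_le_mul_right _ h2
      (clear * - h1 hb this; nlinarith)
    · exact h2
    · have : (c.val + 1) * D ≤ a.val * D := Nat.mul_le_mul_right _ h2
      (clear * - h1 hd this; nlinarith)
  have hbd : b.val = d.val := by rw [hac] at h1; omega
  rw [Prod.mk.injEq]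
  exact ⟨Fin.ext hac, Fin.ext hbd⟩

/-- A residue which avoids the shifts. -/
theorem avoid {M κ0 p : ℕ} (hp : M * κ0 < p) (h : Fin M × Fin κ0 → ℕ) :
    ∃ r : ℕ, ∀ a, ¬ p ∣ r + h a := by
  by_contra hcon
  push Not at hcon
  choose f hf using hcon
  have hinj : Set.InjOn f (range p : Set ℕ) := by
    intro r hr s hs hrs
    have h1 := hf r
    have h2 := hf s
    rw [← hrs] at h2
    have h3 : r ≡ s [MOD p] := by
      have h4 : r + h (f r) ≡ s + h (f r) [MOD p] :=
        ((Nat.modEq_zero_iff_dvd.2 h1).trans (Nat.modEq_zero_iff_dvd.2 h2).symm)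
      exact Nat.ModEq.add_right_cancel' _ h4
    have hr' := Finset.mem_range.1 (Finset.mem_coe.1 hr)
    have hs' := Finset.mem_range.1 (Finset.mem_coe.1 hs)
    exact h3.eq_of_lt_of_lt hr' hs'
  have hcard : (range p).card ≤ (univ : Finset (Fin M × Fin κ0)).card :=
    Finset.card_le_card_of_injOn f (fun _ _ => Finset.mem_coe.2 (mem_univ _)) hinj
  rw [card_range, card_univ, Fintype.card_prod, Fintype.card_fin, Fintype.card_fin] at hcard
  omega

/-- The values of the linear forms. -/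
def ff (κ0 : ℕ) (i : ℕ × ℕ) (E : ℕ) : ℕ := i.1 * E + i.2 - κ0

theorem ff_cast {κ0 : ℕ} {i : ℕ × ℕ} {E : ℕ} (hi : 0 < i.1) (hE : κ0 ≤ E) :
    ((ff κ0 i E : ℕ) : ℤ) = (i.1 : ℤ) * E + i.2 - κ0 := by
  have h1 : κ0 ≤ i.1 * E + i.2 := by
    have : E ≤ i.1 * E := Nat.le_mul_of_pos_left _ hi
    omega
  unfold ff
  rw [Nat.cast_sub h1]
  push_cast
  ring

theorem ff_pos {κ0 : ℕ} {i : ℕ × ℕ} {E : ℕ} (hi : 0 < i.1) (hE : κ0 < E) :
    0 < ff κ0 i E := by
  have : E ≤ i.1 * E := Nat.le_mul_of_pos_left _ hi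
  unfold ff
  omega

theorem ff_le {M κ0 D : ℕ} {i : ℕ × ℕ} {E : ℕ} (hi : i.1 < M) (hi2 : i.2 < 2 * κ0)
    (hκ : κ0 ≤ D) (hE : E ≤ 2 * D) : ff κ0 i E ≤ 3 * M * D := by
  have h1 : (i.1 + 1) * E ≤ M * E := Nat.mul_le_mul_right _ hi
  have h2 : M * E ≤ M * (2 * D) := Nat.mul_le_mul_left _ hE
  have h3 : 1 * D ≤ M * D := Nat.mul_le_mul_right _ (by omega)
  have h4 : i.1 * E ≤ M * E := by (clear * - h1; nlinarith)
  unfold ff
  have h5 : M * (2 * D) + M * D = 3 * M * D := by ring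
  omega

/-- Counting the spacings for which a given form is divisible by `p`. -/
theorem count_le {p κ0 D : ℕ} {i : ℕ × ℕ} (hp : p.Prime) (hg0 : 0 < i.1) (hgp : i.1 < p)
    (hκ : κ0 ≤ D) :
    (((Icc D (2 * D)).filter (fun E => p ∣ ff κ0 i E)).card : ℝ) ≤ D / p + 2 := by
  have hinj : Set.InjOn (fun E : ℕ => E / p)
      (((Icc D (2 * D)).filter (fun E => p ∣ ff κ0 i E) : Finset ℕ) : Set ℕ) := by
    intro E hE E' hE' hEE
    rw [Finset.mem_coe, mem_filter, mem_Icc] at hE hE'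
    have h1 : (p : ℤ) ∣ (i.1 : ℤ) * E + i.2 - κ0 := by
      rw [← ff_cast hg0 (hκ.trans hE.1.1)]
      exact Int.natCast_dvd_natCast.2 hE.2
    have h2 : (p : ℤ) ∣ (i.1 : ℤ) * E' + i.2 - κ0 := by
      rw [← ff_cast hg0 (hκ.trans hE'.1.1)]
      exact Int.natCast_dvd_natCast.2 hE'.2
    have h3 : (p : ℤ) ∣ (i.1 : ℤ) * ((E' : ℤ) - E) := by
      have h4 := dvd_sub h2 h1
      have h5 : (i.1 : ℤ) * E' + i.2 - κ0 - ((i.1 : ℤ) * E + i.2 - κ0) =
          (i.1 : ℤ) * ((E' : ℤ) - E) := by ring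
      rwa [h5] at h4
    have h6 : (p : ℤ) ∣ (E' : ℤ) - E := by
      rcases (Nat.prime_iff_prime_int.1 hp).dvd_or_dvd h3 with h7 | h7
      · exact absurd (Nat.le_of_dvd hg0 (Int.natCast_dvd_natCast.1 h7)) (by omega)
      · exact h7
    have h8 : E % p = E' % p := (Nat.modEq_iff_dvd).2 h6
    have h9 : E / p = E' / p := hEE
    rw [← Nat.div_add_mod E p, ← Nat.div_add_mod E' p, h8, h9]
  have hmaps : ∀ E ∈ (Icc D (2 * D)).filter (fun E => p ∣ ff κ0 i E),
      E / p ∈ Icc (D / p) (2 * D / p) := by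
    intro E hE
    rw [mem_filter, mem_Icc] at hE
    rw [mem_Icc]
    exact ⟨Nat.div_le_div_right hE.1.1, Nat.div_le_div_right hE.1.2⟩
  have hc := Finset.card_le_card_of_injOn (fun E : ℕ => E / p)
    (fun E hE => Finset.mem_coe.2 (hmaps E hE)) hinj
  rw [Nat.card_Icc] at hc
  have hp0 : (0 : ℝ) < p := by exact_mod_cast hp.pos
  have h1 : ((2 * D / p : ℕ) : ℝ) ≤ (2 * D : ℕ) / p := Nat.cast_div_le
  have h2 : (D : ℝ) / p < (D / p : ℕ) + 1 := by
    rw [div_lt_iff₀ hp0]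
    have h3 := Nat.lt_div_mul_add (a := D) hp.pos
    have h4 : (D : ℝ) < ((D / p * p + p : ℕ) : ℝ) := by exact_mod_cast h3
    push_cast at h4
    (clear * - h4; linarith)
  have h5 : D / p ≤ 2 * D / p + 1 := (Nat.div_le_div_right (by omega)).trans (Nat.le_succ _)
  have h6 : (((Icc D (2 * D)).filter (fun E => p ∣ ff κ0 i E)).card : ℝ) ≤
      ((2 * D / p + 1 - D / p : ℕ) : ℝ) := by exact_mod_cast hc
  rw [Nat.cast_sub h5] at h6
  push_cast at h6 h1
  have h7 : (2 * (D : ℝ)) / p = D / p + D / p := by ring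
  (clear * - h2 h6 h1 h7; linarith)

/-- The sum over the primes. -/
theorem sum_bound {D0 N : ℕ} (D : ℝ) (hD : 0 ≤ D) (h0 : 0 < D0) :
    ∑ p ∈ (Icc D0 N).filter Nat.Prime, (1 / (p : ℝ)) * (D / p + 2) ≤
      D * (2 / D0) + 2 * (1 + Real.log N) := by
  have h1 : ∑ p ∈ (Icc D0 N).filter Nat.Prime, (1 / (p : ℝ)) * (D / p + 2) ≤
      ∑ p ∈ Icc D0 N, (1 / (p : ℝ)) * (D / p + 2) := by
    apply sum_le_sum_of_subset_of_nonneg (filter_subset _ _)
    intro i _ _
    (clear * - hD; positivity)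
  have h2 : ∑ p ∈ Icc D0 N, (1 / (p : ℝ)) * (D / p + 2) =
      D * ∑ p ∈ Icc D0 N, ((p : ℝ) ^ 2)⁻¹ + 2 * ∑ p ∈ Icc D0 N, (p : ℝ)⁻¹ := by
    rw [mul_sum, mul_sum, ← sum_add_distrib]
    apply sum_congr rfl
    intro p hp
    have : (p : ℝ) ≠ 0 := by
      have := (mem_Icc.1 hp).1
      have h : p ≠ 0 := by omega
      exact_mod_cast h
    (clear * - this hD; field_simp)
  have h3 : ∑ p ∈ Icc D0 N, ((p : ℝ) ^ 2)⁻¹ ≤ 2 / D0 := by
    have h4 := sum_Ioo_inv_sq_le (α := ℝ) (D0 - 1) (N + 1)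
    have h5 : Ioo (D0 - 1) (N + 1) = Icc D0 N := by
      ext x
      rw [mem_Ioo, mem_Icc]
      omega
    rw [h5] at h4
    have h6 : ((D0 - 1 : ℕ) : ℝ) + 1 = D0 := by
      have : D0 - 1 + 1 = D0 := by omega
      exact_mod_cast this
    rw [h6] at h4
    exact h4
  have h4 : ∑ p ∈ Icc D0 N, (p : ℝ)⁻¹ ≤ 1 + Real.log N := by
    have h5 : ∑ p ∈ Icc D0 N, (p : ℝ)⁻¹ ≤ ∑ p ∈ Icc 1 N, (p : ℝ)⁻¹ := by
      apply sum_le_sum_of_subset_of_nonneg
      · intro x hx
        rw [mem_Icc] at hx ⊢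
        omega
      · intro i _ _
        (clear * -; positivity)
    have h6 := harmonic_le_one_add_log N
    rw [harmonic_eq_sum_Icc] at h6
    push_cast at h6
    exact h5.trans h6
  rw [h2] at h1
  nlinarith

/-- The good spacing. -/
theorem exists_spacing {M κ0 D0 : ℕ} (hM : 0 < M) (hκ0 : 0 < κ0)
    (hD0 : (M * κ0 + 2) ^ 10 ≤ D0) {D : ℕ} (hD : 768 * (M * κ0) ^ 2 * M ≤ D) (hκ : κ0 ≤ D) :
    ∃ E, D ≤ E ∧ E ≤ 2 * D ∧ ∑ i ∈ Ico 1 M ×ˢ range (2 * κ0),
      ∑ p ∈ ((Icc D0 (3 * M * D)).filter Nat.Prime).filter (fun p => p ∣ ff κ0 i E),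
        1 / (p : ℝ) ≤ 1 := by
  classical
  set P := (Icc D0 (3 * M * D)).filter Nat.Prime with hP
  set I := Ico 1 M ×ˢ range (2 * κ0) with hI
  set K := M * κ0 with hK
  have hK1 : 1 ≤ K := Nat.mul_pos hM hκ0
  have hKD0 : K + 2 ≤ D0 := (Nat.le_self_pow (by norm_num) _).trans hD0
  have hMK : M ≤ K := Nat.le_mul_of_pos_right _ hκ0
  have hDpos : 0 < D := by
    refine lt_of_lt_of_le ?_ hD
    (clear * - hM hκ0; positivity)
  have hmain : ∑ E ∈ Icc D (2 * D), ∑ i ∈ I, ∑ p ∈ P.filter (fun p => p ∣ ff κ0 i E),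
      1 / (p : ℝ) ≤ ∑ E ∈ Icc D (2 * D), (1 : ℝ) := by
    have h1 : ∑ E ∈ Icc D (2 * D), ∑ i ∈ I, ∑ p ∈ P.filter (fun p => p ∣ ff κ0 i E),
        1 / (p : ℝ) = ∑ i ∈ I, ∑ p ∈ P, (1 / (p : ℝ)) *
          (((Icc D (2 * D)).filter (fun E => p ∣ ff κ0 i E)).card : ℝ) := by
      rw [sum_comm]
      apply sum_congr rfl
      intro i _
      simp_rw [sum_filter]
      rw [sum_comm]
      apply sum_congr rfl
      intro p _
      rw [← sum_filter, sum_const, nsmul_eq_mul, mul_comm]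
    have h2 : ∑ i ∈ I, ∑ p ∈ P, (1 / (p : ℝ)) *
          (((Icc D (2 * D)).filter (fun E => p ∣ ff κ0 i E)).card : ℝ) ≤
        ∑ i ∈ I, ((D : ℝ) * (2 / D0) + 2 * (1 + Real.log (3 * M * D : ℕ))) := by
      apply sum_le_sum
      intro i hi
      refine le_trans ?_ (sum_bound (D0 := D0) (N := 3 * M * D) (D : ℝ) (Nat.cast_nonneg _)
        (by omega))
      apply sum_le_sum
      intro p hp
      rw [hP, mem_filter, mem_Icc] at hp
      rw [hI, mem_product, mem_Ico, mem_range] at hi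
      apply mul_le_mul_of_nonneg_left _ (by (clear * -; positivity))
      exact count_le hp.2 (by (clear * - D0 D hi p; omega)) (by (clear * - hKD0 hMK hi hp; omega)) hκ
    have h3 : ((I.card : ℕ) : ℝ) ≤ 2 * K := by
      have : I.card ≤ 2 * K := by
        rw [hI, card_product, Nat.card_Ico, card_range, hK]
        calc (M - 1) * (2 * κ0) ≤ M * (2 * κ0) := Nat.mul_le_mul_right _ (by omega)
          _ = 2 * (M * κ0) := by ring
      exact_mod_cast this
    have hKr : (1 : ℝ) ≤ K := by exact_mod_cast hK1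
    have hD0r : ((K : ℝ) + 2) ^ 10 ≤ D0 := by exact_mod_cast hD0
    have hDr : 768 * (K : ℝ) ^ 2 * M ≤ D := by exact_mod_cast hD
    have hD0pos : (0 : ℝ) < D0 := by
      have : 0 < D0 := by omega
      exact_mod_cast this
    have hMr : (1 : ℝ) ≤ M := by exact_mod_cast hM
    have hDr0 : (0 : ℝ) < D := by exact_mod_cast hDpos
    -- the first part
    have h4 : 2 * (K : ℝ) * ((D : ℝ) * (2 / D0)) ≤ D / 2 := by
      have h5 : 8 * (K : ℝ) ≤ D0 := by
        have h6 : ((K : ℝ) + 2) ^ 2 ≤ ((K : ℝ) + 2) ^ 10 :=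
          pow_le_pow_right₀ (by (clear * - hKr; linarith)) (by norm_num)
        (clear * - hD0r h6; nlinarith [sq_nonneg ((K : ℝ) - 2)])
      have h7 : 2 * (K : ℝ) * ((D : ℝ) * (2 / D0)) = D / 2 * (8 * K / D0) := by ring
      rw [h7]
      have h8 : 8 * (K : ℝ) / D0 ≤ 1 := (div_le_one hD0pos).2 h5
      calc (D : ℝ) / 2 * (8 * K / D0) ≤ D / 2 * 1 :=
            mul_le_mul_of_nonneg_left h8 (by positivity)
        _ = D / 2 := by ring
    -- the second part
    have h5 : 2 * (K : ℝ) * (2 * (1 + Real.log (3 * M * D : ℕ))) ≤ D / 2 := by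
      push_cast
      set y : ℝ := 3 * M * D with hy
      have hy0 : 0 < y := by rw [hy]; positivity
      have h6 : 1 + Real.log y ≤ 2 * Real.sqrt y := by
        have h7 : Real.log (Real.sqrt y) ≤ Real.sqrt y - 1 :=
          Real.log_le_sub_one_of_pos (Real.sqrt_pos.2 hy0)
        rw [Real.log_sqrt hy0.le] at h7
        (clear * - h7; linarith)
      have h8 : 16 * (K : ℝ) * Real.sqrt y ≤ D := by
        have h9 : 16 * (K : ℝ) * Real.sqrt y = Real.sqrt ((16 * (K : ℝ)) ^ 2 * y) := by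
          rw [Real.sqrt_mul (x := (16 * (K : ℝ)) ^ 2) (by positivity) y,
            Real.sqrt_sq (by positivity)]
        rw [h9]
        apply Real.sqrt_le_iff.2
        refine ⟨hDr0.le, ?_⟩
        have h10 : (16 * (K : ℝ)) ^ 2 * y = (768 * (K : ℝ) ^ 2 * M) * D := by
          rw [hy]; ring
        rw [h10, pow_two (D : ℝ)]
        exact mul_le_mul_of_nonneg_right hDr hDr0.le
      have h11 : 2 * (K : ℝ) * (2 * (1 + Real.log y)) ≤ 2 * (K : ℝ) * (2 * (2 * Real.sqrt y)) := by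
        apply mul_le_mul_of_nonneg_left _ (by positivity)
        (clear * - h6; linarith)
      (clear * - h8 h11; linarith)
    have hlog : 0 ≤ Real.log (3 * M * D : ℕ) := by
      apply Real.log_natCast_nonneg
    rw [h1]
    refine h2.trans ?_
    rw [sum_const, nsmul_eq_mul, sum_const, nsmul_eq_mul, Nat.card_Icc]
    have h12 : (((2 * D + 1 - D : ℕ)) : ℝ) = D + 1 := by
      have : 2 * D + 1 - D = D + 1 := by (clear * - M κ0 D0 hDpos; omega)
      rw [this]
      push_cast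
      ring
    rw [h12]
    have h13 : (I.card : ℝ) * ((D : ℝ) * (2 / D0) + 2 * (1 + Real.log (3 * M * D : ℕ))) ≤
        2 * (K : ℝ) * ((D : ℝ) * (2 / D0) + 2 * (1 + Real.log (3 * M * D : ℕ))) := by
      apply mul_le_mul_of_nonneg_right h3
      (clear * - hDpos hD0pos; positivity)
    have h14 : 2 * (K : ℝ) * ((D : ℝ) * (2 / D0) + 2 * (1 + Real.log (3 * M * D : ℕ))) =
        2 * (K : ℝ) * ((D : ℝ) * (2 / D0)) +
          2 * (K : ℝ) * (2 * (1 + Real.log (3 * M * D : ℕ))) := by ring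
    (clear * - h4 h5 h13; linarith)
  obtain ⟨E, hE, hE1⟩ := Finset.exists_le_of_sum_le (nonempty_Icc.2 (by omega)) hmain
  rw [mem_Icc] at hE
  exact ⟨E, hE.1, hE.2, hE1⟩

theorem sum_biUnion_le' (I : Finset (ℕ × ℕ)) (t : ℕ × ℕ → Finset ℕ) (f : ℕ → ℝ)
    (hf : ∀ p, 0 ≤ f p) : ∑ p ∈ I.biUnion t, f p ≤ ∑ i ∈ I, ∑ p ∈ t i, f p := by
  classical
  induction I using Finset.induction_on with
  | empty => simp
  | insert a s ha ih =>
    rw [biUnion_insert, sum_insert ha]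
    have h1 := sum_union_inter (s₁ := t a) (s₂ := s.biUnion t) (f := f)
    have h2 : 0 ≤ ∑ p ∈ t a ∩ s.biUnion t, f p := sum_nonneg fun p _ => hf p
    linarith

end Pool.Agent.Helper37.MT

end
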