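import Mathlib

/-!
Parts of Helper44.MertensProd, Helper44.Bonferroni, Helper44.BrunHooley, Helper44.SievePairs, Helper96.CPAP.BHk, Helper96.CPAP.SieveK, Helper96.CPAP.Count, Helper30.Gap.PairSieve, Helper30.Gap.AvgG, Helper30.Gap.Upper
-/

namespace Pool.Agent.Helper44
end Pool.Agent.Helper44
namespace Pool.Agent.Helper96.CPAP
end Pool.Agent.Helper96.CPAP

section

set_option autoImplicit false

open Finset Real

namespace Pool.Agent.Helper44

theorem one_sub_ge_exp {x : ℝ} (h0 : 0 ≤ x) (h1 : x ≤ 1 / 2) : Real.exp (-(2 * x)) ≤ 1 - x := by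
  have h2 : 2 * x + 1 ≤ Real.exp (2 * x) := Real.add_one_le_exp _
  have h3 : 0 < Real.exp (2 * x) := Real.exp_pos _
  rw [Real.exp_neg, inv_le_comm₀ h3 (by (clear * - h1; linarith))]
  refine le_trans ?_ h2
  rw [inv_le_iff_one_le_mul₀ (by (clear * - h1; linarith))]
  (clear * - h0 h1; nlinarith)

end Pool.Agent.Helper44

end

section

set_option autoImplicit false

open Finset

namespace Pool.Agent.Helper44

variable {ι : Type*} [DecidableEq ι]

/-- Truncated alternating sum. -/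
noncomputable def tr (B : Finset ι) (m : ℕ) (x : ι → ℝ) : ℝ :=
  ∑ I ∈ B.powerset, if I.card ≤ m then (-1 : ℝ) ^ I.card * ∏ i ∈ I, x i else 0

theorem tr_zero (B : Finset ι) (x : ι → ℝ) : tr B 0 x = 1 := by
  unfold tr
  have h : ∀ I ∈ B.powerset, (if I.card ≤ 0 then (-1 : ℝ) ^ I.card * ∏ i ∈ I, x i else 0) =
      if I = ∅ then 1 else 0 := by
    intro I _
    by_cases hI : I = ∅
    · simp [hI]
    · simp [hI]
  rw [Finset.sum_congr rfl h]
  simp

theorem tr_insert {a : ι} {B : Finset ι} (ha : a ∉ B) (m : ℕ) (x : ι → ℝ) :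
    tr (insert a B) (m + 1) x = tr B (m + 1) x - x a * tr B m x := by
  unfold tr
  rw [Finset.sum_powerset_insert ha, Finset.mul_sum, sub_eq_add_neg, ← Finset.sum_neg_distrib]
  congr 1
  apply Finset.sum_congr rfl
  intro I hI
  have haI : a ∉ I := fun h => ha (Finset.mem_powerset.mp hI h)
  rw [Finset.card_insert_of_notMem haI, Finset.prod_insert haI]
  by_cases h : I.card ≤ m
  · simp only [h, if_true, Nat.add_le_add_iff_right]; ring
  · simp only [h, if_false, Nat.add_le_add_iff_right]; ring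

/-- Bonferroni inequalities in weighted form. -/
theorem bonferroni (B : Finset ι) (x : ι → ℝ) (hx : ∀ i ∈ B, 0 ≤ x i ∧ x i ≤ 1) (m : ℕ) :
    0 ≤ (-1 : ℝ) ^ m * (tr B m x - ∏ i ∈ B, (1 - x i)) := by
  induction B using Finset.induction_on generalizing m with
  | empty =>
    have : tr (∅ : Finset ι) m x = 1 := by simp [tr]
    simp [this]
  | insert a B ha ih =>
    have hxB : ∀ i ∈ B, 0 ≤ x i ∧ x i ≤ 1 := fun i hi => hx i (Finset.mem_insert_of_mem hi)
    have hxa := hx a (Finset.mem_insert_self a B)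
    have hP0 : 0 ≤ ∏ i ∈ B, (1 - x i) := Finset.prod_nonneg fun i hi => by linarith [(hxB i hi).2]
    rw [Finset.prod_insert ha]
    cases m with
    | zero =>
      have h0 := ih hxB 0
      rw [tr_zero] at h0 ⊢
      simp only [pow_zero, one_mul] at h0 ⊢
      (clear * - h0 hxa hP0; nlinarith [mul_nonneg hxa.1 hP0])
    | succ m =>
      have h1 := ih hxB (m + 1)
      have h2 := ih hxB m
      rw [tr_insert ha]
      have : (-1 : ℝ) ^ (m + 1) * (tr B (m + 1) x - x a * tr B m x - (1 - x a) * ∏ i ∈ B, (1 - x i))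
        = (-1 : ℝ) ^ (m + 1) * (tr B (m + 1) x - ∏ i ∈ B, (1 - x i)) +
          x a * ((-1 : ℝ) ^ m * (tr B m x - ∏ i ∈ B, (1 - x i))) := by
        rw [pow_succ]; ring
      rw [this]
      exact add_nonneg h1 (mul_nonneg hxa.1 h2)

theorem prod_le_tr_even (B : Finset ι) (x : ι → ℝ) (hx : ∀ i ∈ B, 0 ≤ x i ∧ x i ≤ 1) (m : ℕ)
    (hm : Even m) : ∏ i ∈ B, (1 - x i) ≤ tr B m x := by
  have h := bonferroni B x hx m
  rw [hm.neg_one_pow, one_mul] at h
  (clear * - h; linarith)

end Pool.Agent.Helper44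

end

section

set_option autoImplicit false

set_option linter.unusedSectionVars false

open Finset

namespace Pool.Agent.Helper44

variable {ι : Type*} [DecidableEq ι] {α : Type*}

/-- Number of elements of `Ω` satisfying `P`, as a real number. -/
noncomputable def evCount (Ω : Finset α) (P : α → Prop) : ℝ := by
  classical exact ((Ω.filter P).card : ℝ)

theorem evCount_eq (Ω : Finset α) (P : α → Prop) [DecidablePred P] :
    evCount Ω P = ((Ω.filter P).card : ℝ) := by
  unfold evCount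
  congr!

theorem evCount_eq_sum (Ω : Finset α) (P : α → Prop) [DecidablePred P] :
    evCount Ω P = ∑ ω ∈ Ω, if P ω then (1 : ℝ) else 0 := by
  rw [evCount_eq, ← Finset.sum_filter]
  simp

/-- The 0-1 vector of events occurring at `ω`. -/
noncomputable def ind (occ : ι → α → Prop) (ω : α) : ι → ℝ := by
  classical exact fun i => if occ i ω then 1 else 0

theorem ind_mem (occ : ι → α → Prop) (ω : α) (i : ι) : 0 ≤ ind occ ω i ∧ ind occ ω i ≤ 1 := by
  unfold ind
  split_ifs <;> norm_num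

open Classical in
theorem prod_ind (occ : ι → α → Prop) (ω : α) (I : Finset ι) :
    ∏ i ∈ I, ind occ ω i = if (∀ i ∈ I, occ i ω) then 1 else 0 := by
  unfold ind
  rw [Finset.prod_ite_zero]
  simp

open Classical in
theorem prod_one_sub_ind (occ : ι → α → Prop) (ω : α) (I : Finset ι) :
    ∏ i ∈ I, (1 - ind occ ω i) = if (∀ i ∈ I, ¬ occ i ω) then 1 else 0 := by
  have : ∀ i ∈ I, (1 - ind occ ω i) = if ¬ occ i ω then 1 else 0 := by
    intro i _
    unfold ind
    by_cases h : occ i ω <;> simp [h]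
  rw [Finset.prod_congr rfl this, Finset.prod_ite_zero]
  simp

/-- Product inequality behind Hooley's lower bound. -/
theorem prod_lower {t : ℕ} (P T : Fin t → ℝ) (h0 : ∀ j, 0 ≤ P j) (h1 : ∀ j, P j ≤ T j) :
    ∏ j, T j - ∑ l, ∏ j, (if j = l then T l - P l else T j) ≤ ∏ j, P j := by
  have key : ∀ s : Finset (Fin t),
      ∏ j ∈ s, T j - ∑ l ∈ s, ∏ j ∈ s, (if j = l then T l - P l else T j) ≤ ∏ j ∈ s, P j := by
    intro s
    induction s using Finset.induction_on with
    | empty => simp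
    | insert a s ha ih =>
      rw [Finset.prod_insert ha, Finset.prod_insert ha, Finset.sum_insert ha,
        Finset.prod_insert ha]
      have e1 : ∏ j ∈ s, (if j = a then T a - P a else T j) = ∏ j ∈ s, T j := by
        apply Finset.prod_congr rfl
        intro j hj
        rw [if_neg]
        rintro rfl
        exact ha hj
      have e2 : ∑ l ∈ s, ∏ j ∈ insert a s, (if j = l then T l - P l else T j) =
          T a * ∑ l ∈ s, ∏ j ∈ s, (if j = l then T l - P l else T j) := by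
        rw [Finset.mul_sum]
        apply Finset.sum_congr rfl
        intro l hl
        rw [Finset.prod_insert ha, if_neg]
        rintro rfl
        exact ha hl
      rw [e1, e2, if_pos rfl]
      have hS : 0 ≤ ∑ l ∈ s, ∏ j ∈ s, (if j = l then T l - P l else T j) := by
        apply Finset.sum_nonneg
        intro l _
        apply Finset.prod_nonneg
        intro j _
        split_ifs
        · linarith [h1 l]
        · exact (h0 j).trans (h1 j)
      have := mul_le_mul_of_nonneg_left ih (h0 a)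
      nlinarith [mul_le_mul_of_nonneg_right (h1 a) hS]
  exact key Finset.univ

theorem tr_eq_sum_filter (B : Finset ι) (m : ℕ) (x : ι → ℝ) :
    tr B m x = ∑ I ∈ B.powerset.filter (fun I => I.card ≤ m), (-1 : ℝ) ^ I.card * ∏ i ∈ I, x i := by
  unfold tr
  rw [Finset.sum_filter]

end Pool.Agent.Helper44

end

section

set_option autoImplicit false

open Finset Real

namespace Pool.Agent.Helper44

/-- Sieving scales `w^(1/2^j)`. -/
noncomputable def zs (w : ℝ) (j : ℕ) : ℝ := w ^ ((1 / 2 : ℝ) ^ j)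

theorem zs_zero (w : ℝ) : zs w 0 = w := by simp [zs]

theorem one_le_zs {w : ℝ} (hw : 1 ≤ w) (j : ℕ) : 1 ≤ zs w j :=
  Real.one_le_rpow hw (by positivity)

theorem zs_pos {w : ℝ} (hw : 1 ≤ w) (j : ℕ) : 0 < zs w j :=
  lt_of_lt_of_le one_pos (one_le_zs hw j)

theorem zs_succ_sq {w : ℝ} (hw : 1 ≤ w) (j : ℕ) : zs w (j + 1) ^ 2 = zs w j := by
  unfold zs
  rw [← Real.rpow_natCast, ← Real.rpow_mul (by (clear * - hw; linarith))]
  congr 1
  rw [pow_succ]
  push_cast
  ring

theorem zs_succ_le {w : ℝ} (hw : 1 ≤ w) (j : ℕ) : zs w (j + 1) ≤ zs w j := by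
  have h1 := one_le_zs hw (j + 1)
  rw [← zs_succ_sq hw j]
  nlinarith

theorem zs_anti {w : ℝ} (hw : 1 ≤ w) {i j : ℕ} (hij : i ≤ j) : zs w j ≤ zs w i := by
  induction j, hij using Nat.le_induction with
  | base => exact le_rfl
  | succ n _ ih => exact (zs_succ_le hw n).trans ih

theorem log_zs {w : ℝ} (hw : 0 < w) (j : ℕ) : Real.log (zs w j) = (1 / 2 : ℝ) ^ j * Real.log w := by
  unfold zs
  rw [Real.log_rpow hw]

/-- Number of blocks. -/
noncomputable def nb (w : ℝ) : ℕ := ⌊w⌋₊ + 1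

theorem zs_nb_lt {w : ℝ} (hw : 2 ≤ w) : zs w (nb w) < 2 := by
  have hw0 : 0 < w := by linarith
  rw [← Real.log_lt_log_iff (zs_pos (by linarith) _) (by norm_num), log_zs hw0]
  have h1 : ((nb w : ℕ) : ℝ) + 1 ≤ 2 ^ (nb w) := by
    have := Nat.lt_two_pow_self (n := nb w)
    exact_mod_cast this
  have h2 : w < nb w := by
    unfold nb
    push_cast
    exact Nat.lt_floor_add_one w
  have h3 : Real.log w ≤ w - 1 := Real.log_le_sub_one_of_pos hw0
  have h4 : Real.log 2 > 0.5 := by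
    have := Real.log_two_gt_d9; (clear * - this; linarith)
  have h5 : (0 : ℝ) < 2 ^ (nb w) := by positivity
  rw [one_div, inv_pow, inv_mul_lt_iff₀ h5]
  have h6 : (1 : ℝ) ≤ 2 ^ (nb w - 1) := one_le_pow₀ (by norm_num)
  -- 2^(nb w) * log 2 > log w
  have h7 : Real.log w ≤ Real.log (nb w) := Real.log_le_log hw0 h2.le
  have h8 : Real.log (nb w : ℝ) < (nb w : ℝ) * Real.log 2 := by
    have h9 : ((nb w : ℕ) : ℝ) < 2 ^ (nb w) := by (clear * - h1; linarith)
    have h10 : (0 : ℝ) < (nb w : ℕ) := by (clear * - hw h2; linarith)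
    calc Real.log (nb w : ℝ) < Real.log (2 ^ (nb w)) := Real.log_lt_log h10 h9
      _ = (nb w : ℝ) * Real.log 2 := by rw [Real.log_pow]
  have h11 : (nb w : ℝ) * Real.log 2 ≤ 2 ^ (nb w) * Real.log 2 := by
    apply mul_le_mul_of_nonneg_right _ (by (clear * - h4; linarith))
    (clear * - h1; linarith)
  (clear * - h7 h8 h11; linarith)

/-- Block `j` of primes (two copies). -/
noncomputable def blk (w : ℝ) (j : ℕ) : Finset (ℕ × Bool) :=
  ((Finset.Ioc ⌊zs w (j + 1)⌋₊ ⌊zs w j⌋₊).filter Nat.Prime) ×ˢ (Finset.univ : Finset Bool)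

theorem mem_blk {w : ℝ} {j : ℕ} {i : ℕ × Bool} :
    i ∈ blk w j ↔ (⌊zs w (j + 1)⌋₊ < i.1 ∧ i.1 ≤ ⌊zs w j⌋₊) ∧ i.1.Prime := by
  unfold blk
  simp [Finset.mem_product]

/-- The density of an event. -/
noncomputable def dens (i : ℕ × Bool) : ℝ := 1 / (i.1 : ℝ)

theorem sum_dens_blk (w : ℝ) (j : ℕ) : ∑ i ∈ blk w j, dens i =
    2 * ∑ q ∈ (Finset.Ioc ⌊zs w (j + 1)⌋₊ ⌊zs w j⌋₊).filter Nat.Prime, (1 : ℝ) / q := by
  unfold blk dens
  rw [Finset.sum_product]
  simp only [Finset.sum_const, Finset.card_univ, Fintype.card_bool, nsmul_eq_mul]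
  rw [Finset.mul_sum]
  rfl

theorem sum_geo_le (t : ℕ) : ∑ j ∈ range t, (1 / 2 : ℝ) ^ j ≤ 2 := by
  have h : ∀ t : ℕ, ∑ j ∈ range t, (1 / 2 : ℝ) ^ j = 2 - 2 * (1 / 2 : ℝ) ^ t := by
    intro t
    induction t with
    | zero => simp
    | succ n ih => rw [Finset.sum_range_succ, ih]; ring
  rw [h]
  have : (0 : ℝ) ≤ (1 / 2 : ℝ) ^ t := by positivity
  linarith

theorem sum_geo_mul_le (t : ℕ) : ∑ j ∈ range t, (j : ℝ) * (1 / 2 : ℝ) ^ j ≤ 2 := by
  have h : ∀ t : ℕ, ∑ j ∈ range t, (j : ℝ) * (1 / 2 : ℝ) ^ j = 2 - (2 * t + 2) * (1 / 2 : ℝ) ^ t := by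
    intro t
    induction t with
    | zero => simp
    | succ n ih => rw [Finset.sum_range_succ, ih]; push_cast; ring
  rw [h]
  have : (0 : ℝ) ≤ (2 * t + 2) * (1 / 2 : ℝ) ^ t := by (clear * -; positivity)
  (clear * - this; linarith)

end Pool.Agent.Helper44

end

section

set_option autoImplicit false

set_option linter.unusedSectionVars false

open Finset

namespace Pool.Agent.Helper96.CPAP

open Pool.Agent.Helper44

variable {ι : Type*} [DecidableEq ι] {α : Type*}

open Classical in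
theorem expand_blocksK {t : ℕ} (Ω : Finset α) (occ : ι → α → Prop)
    (B : Fin t → Finset ι) (hB : ∀ i j, i ≠ j → Disjoint (B i) (B j)) (x : ι → ℝ) (X E κ : ℝ)
    (hE : 0 ≤ E) (hκ : 1 ≤ κ)
    (hcnt : ∀ I : Finset ι, I ⊆ Finset.univ.biUnion B →
      |evCount Ω (fun ω => ∀ i ∈ I, occ i ω) - X * ∏ i ∈ I, x i| ≤ E * κ ^ I.card)
    (c : Fin t → Finset ι → ℝ) (S : Fin t → Finset (Finset ι)) (hS : ∀ j, ∀ I ∈ S j, I ⊆ B j)
    (hc : ∀ j I, |c j I| ≤ 1) :
    |∑ ω ∈ Ω, ∏ j, ∑ I ∈ S j, c j I * ∏ i ∈ I, ind occ ω i -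
      X * ∏ j, ∑ I ∈ S j, c j I * ∏ i ∈ I, x i| ≤ E * ∏ j, ∑ I ∈ S j, κ ^ I.card := by
  have hprod : ∀ (y : ι → ℝ), ∏ j, ∑ I ∈ S j, c j I * ∏ i ∈ I, y i =
      ∑ f ∈ Fintype.piFinset S, (∏ j, c j (f j)) * ∏ i ∈ Finset.univ.biUnion f, y i := by
    intro y
    rw [Finset.prod_univ_sum]
    apply Finset.sum_congr rfl
    intro f hf
    rw [Fintype.mem_piFinset] at hf
    rw [Finset.prod_mul_distrib, Finset.prod_biUnion]
    intro i _ j _ hij
    exact Finset.disjoint_of_subset_left (hS i _ (hf i))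
      (Finset.disjoint_of_subset_right (hS j _ (hf j)) (hB i j hij))
  simp_rw [hprod]
  rw [Finset.sum_comm, Finset.mul_sum, ← Finset.sum_sub_distrib]
  have hterm : ∀ f ∈ Fintype.piFinset S,
      |∑ ω ∈ Ω, (∏ j, c j (f j)) * ∏ i ∈ Finset.univ.biUnion f, ind occ ω i -
        X * ((∏ j, c j (f j)) * ∏ i ∈ Finset.univ.biUnion f, x i)| ≤
        E * ∏ j, κ ^ (f j).card := by
    intro f hf
    rw [Fintype.mem_piFinset] at hf
    have hsub : Finset.univ.biUnion f ⊆ Finset.univ.biUnion B := by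
      intro i hi
      rw [Finset.mem_biUnion] at hi ⊢
      obtain ⟨j, hj, hij⟩ := hi
      exact ⟨j, hj, hS j _ (hf j) hij⟩
    have h1 := hcnt _ hsub
    have h2 : ∑ ω ∈ Ω, (∏ j, c j (f j)) * ∏ i ∈ Finset.univ.biUnion f, ind occ ω i =
        (∏ j, c j (f j)) * evCount Ω (fun ω => ∀ i ∈ Finset.univ.biUnion f, occ i ω) := by
      rw [← Finset.mul_sum, evCount_eq_sum]
      simp_rw [prod_ind]
    rw [h2]
    have h3 : (∏ j, c j (f j)) * evCount Ω (fun ω => ∀ i ∈ Finset.univ.biUnion f, occ i ω) -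
        X * ((∏ j, c j (f j)) * ∏ i ∈ Finset.univ.biUnion f, x i) =
        (∏ j, c j (f j)) * (evCount Ω (fun ω => ∀ i ∈ Finset.univ.biUnion f, occ i ω) -
            X * ∏ i ∈ Finset.univ.biUnion f, x i) := by ring
    rw [h3, abs_mul]
    have h4 : |∏ j, c j (f j)| ≤ 1 := by
      rw [Finset.abs_prod]
      exact Finset.prod_le_one (fun _ _ => abs_nonneg _) (fun j _ => hc j _)
    have h5 : κ ^ (Finset.univ.biUnion f).card ≤ ∏ j, κ ^ (f j).card := by
      rw [Finset.prod_pow_eq_pow_sum]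
      exact pow_le_pow_right₀ hκ Finset.card_biUnion_le
    calc _ ≤ 1 * (E * κ ^ (Finset.univ.biUnion f).card) :=
          mul_le_mul h4 h1 (abs_nonneg _) (by norm_num)
      _ = E * κ ^ (Finset.univ.biUnion f).card := one_mul _
      _ ≤ _ := mul_le_mul_of_nonneg_left h5 hE
  calc |∑ f ∈ Fintype.piFinset S,
      (∑ ω ∈ Ω, (∏ j, c j (f j)) * ∏ i ∈ Finset.univ.biUnion f, ind occ ω i -
        X * ((∏ j, c j (f j)) * ∏ i ∈ Finset.univ.biUnion f, x i))|
      ≤ ∑ f ∈ Fintype.piFinset S, E * ∏ j, κ ^ (f j).card := (Finset.abs_sum_le_sum_abs _ _).trans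
        (Finset.sum_le_sum hterm)
    _ = E * ∏ j, ∑ I ∈ S j, κ ^ I.card := by
        rw [Finset.prod_univ_sum, Finset.mul_sum]

theorem sum_pow_powerset_filter_le (B : Finset ι) (m : ℕ) (κ : ℝ) (hκ : 0 ≤ κ) :
    ∑ I ∈ B.powerset.filter (fun I => I.card ≤ m), κ ^ I.card ≤ (κ * (B.card : ℝ) + 1) ^ m := by
  have h1 : ∑ I ∈ B.powerset.filter (fun I => I.card ≤ m), κ ^ I.card =
      ∑ j ∈ range (m + 1), (B.card.choose j : ℝ) * κ ^ j := by
    have : B.powerset.filter (fun I => I.card ≤ m) =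
        (range (m + 1)).biUnion (fun j => B.powersetCard j) := by
      ext I
      simp only [Finset.mem_filter, Finset.mem_powerset, Finset.mem_biUnion, Finset.mem_range,
        Finset.mem_powersetCard]
      constructor
      · rintro ⟨h, h'⟩; exact ⟨I.card, by omega, h, rfl⟩
      · rintro ⟨j, hj, h, rfl⟩; exact ⟨h, by omega⟩
    rw [this, Finset.sum_biUnion]
    · apply Finset.sum_congr rfl
      intro j _
      have h2 : ∑ I ∈ B.powersetCard j, κ ^ I.card = ∑ I ∈ B.powersetCard j, κ ^ j := by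
        apply Finset.sum_congr rfl
        intro I hI
        rw [(Finset.mem_powersetCard.mp hI).2]
      rw [h2, Finset.sum_const, Finset.card_powersetCard, nsmul_eq_mul]
    · intro i _ j _ hij
      rw [Function.onFun, Finset.disjoint_left]
      intro I hI hJ
      exact hij ((Finset.mem_powersetCard.mp hI).2.symm.trans (Finset.mem_powersetCard.mp hJ).2)
  rw [h1, add_pow]
  apply Finset.sum_le_sum
  intro j hj
  have hj' : j ≤ m := by rw [Finset.mem_range] at hj; omega
  have h2 : (B.card.choose j : ℝ) ≤ (B.card : ℝ) ^ j := by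
    exact_mod_cast Nat.choose_le_pow B.card j
  have h3 : (1 : ℝ) ≤ (m.choose j : ℝ) := by
    exact_mod_cast Nat.choose_pos hj'
  have h4 : (0 : ℝ) ≤ (κ * (B.card : ℝ)) ^ j := by (clear * - hκ; positivity)
  rw [one_pow, mul_one]
  calc (B.card.choose j : ℝ) * κ ^ j ≤ (B.card : ℝ) ^ j * κ ^ j :=
        mul_le_mul_of_nonneg_right h2 (by (clear * - hκ; positivity))
    _ = (κ * (B.card : ℝ)) ^ j := by rw [mul_pow]; ring
    _ ≤ (κ * (B.card : ℝ)) ^ j * (m.choose j : ℝ) := le_mul_of_one_le_right h4 h3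

end Pool.Agent.Helper96.CPAP

end

section

set_option autoImplicit false

open Finset Real

namespace Pool.Agent.Helper96.CPAP

open Pool.Agent.Helper44

/-- Block `j` of sieving primes. -/
noncomputable def pb (P : ℕ → Prop) (w : ℝ) (j : ℕ) : Finset ℕ := by
  classical exact (Finset.Ioc ⌊zs w (j + 1)⌋₊ ⌊zs w j⌋₊).filter P

theorem mem_pb {P : ℕ → Prop} {w : ℝ} {j i : ℕ} :
    i ∈ pb P w j ↔ (⌊zs w (j + 1)⌋₊ < i ∧ i ≤ ⌊zs w j⌋₊) ∧ P i := by
  classical
  unfold pb
  rw [Finset.mem_filter, Finset.mem_Ioc]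

theorem pb_disjoint {P : ℕ → Prop} {w : ℝ} (hw : 1 ≤ w) {i j : ℕ} (hij : i ≠ j) :
    Disjoint (pb P w i) (pb P w j) := by
  rw [Finset.disjoint_left]
  intro a hi hj
  rw [mem_pb] at hi hj
  rcases lt_or_gt_of_ne hij with h | h
  · have : ⌊zs w j⌋₊ ≤ ⌊zs w (i + 1)⌋₊ := Nat.floor_le_floor (zs_anti hw h)
    omega
  · have : ⌊zs w i⌋₊ ≤ ⌊zs w (j + 1)⌋₊ := Nat.floor_le_floor (zs_anti hw h)
    omega

theorem card_pb_le {P : ℕ → Prop} (hP : ∀ q, P q → q.Prime) (k : ℕ) {w : ℝ} (hw : 2 ≤ w) (j : ℕ) :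
    ((k : ℝ) + 1) * ((pb P w j).card : ℝ) + 1 ≤ (zs w j) ^ (k + 2) := by
  classical
  have hw1 : (1 : ℝ) ≤ w := by linarith
  have h1 := one_le_zs hw1 j
  rcases Finset.eq_empty_or_nonempty (pb P w j) with h | ⟨i, hi⟩
  · rw [h]
    simp only [Finset.card_empty, Nat.cast_zero, mul_zero, zero_add]
    exact one_le_pow₀ h1
  · rw [mem_pb] at hi
    have h2 : (2 : ℝ) ≤ zs w j := by
      have h3 : (i : ℝ) ≤ zs w j := (Nat.le_floor_iff (zs_pos hw1 j).le).mp hi.1.2
      have h4 : (2 : ℝ) ≤ i := by exact_mod_cast (hP i hi.2).two_le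
      (clear * - h3 h4; linarith)
    have h6 : (pb P w j).card ≤ ⌊zs w j⌋₊ := by
      unfold pb
      refine (Finset.card_filter_le _ _).trans ?_
      rw [Nat.card_Ioc]; omega
    have h7 : (⌊zs w j⌋₊ : ℝ) ≤ zs w j := Nat.floor_le (zs_pos hw1 j).le
    have h8 : ((pb P w j).card : ℝ) ≤ zs w j := le_trans (by exact_mod_cast h6) h7
    have h9 : (k : ℝ) + 2 ≤ 2 ^ (k + 1) := by
      have := Nat.lt_two_pow_self (n := k + 1)
      have h10 : k + 2 ≤ 2 ^ (k + 1) := by omega
      exact_mod_cast h10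
    have h10 : (2 : ℝ) ^ (k + 1) ≤ (zs w j) ^ (k + 1) := pow_le_pow_left₀ (by norm_num) h2 _
    have hk : (0 : ℝ) ≤ k := by (clear * -; positivity)
    calc ((k : ℝ) + 1) * ((pb P w j).card : ℝ) + 1 ≤ ((k : ℝ) + 1) * zs w j + 1 := by gcongr
      _ ≤ ((k : ℝ) + 2) * zs w j := by (clear * - h2; nlinarith)
      _ ≤ (zs w j) ^ (k + 1) * zs w j := by
          apply mul_le_mul_of_nonneg_right (h9.trans h10) (by (clear * - h2; linarith))
      _ = (zs w j) ^ (k + 2) := by ring

theorem prod_pb_card_le {P : ℕ → Prop} (hP : ∀ q, P q → q.Prime) (k : ℕ) {w : ℝ} (hw : 2 ≤ w)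
    (b : ℕ) :
    ∏ j : Fin (nb w), (((k : ℝ) + 1) * ((pb P w j).card : ℝ) + 1) ^ (2 * (b + (j : ℕ)) + 1) ≤
      w ^ (((k : ℝ) + 2) * (4 * b + 6) : ℝ) := by
  have hw1 : (1 : ℝ) ≤ w := by linarith
  have hw0 : (0 : ℝ) < w := by (clear * - hw; linarith)
  calc ∏ j : Fin (nb w), (((k : ℝ) + 1) * ((pb P w j).card : ℝ) + 1) ^ (2 * (b + (j : ℕ)) + 1)
      ≤ ∏ j : Fin (nb w), w ^ ((1 / 2 : ℝ) ^ (j : ℕ) * (((k : ℝ) + 2) * (2 * (b + (j : ℕ)) + 1))) := by
        apply Finset.prod_le_prod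
        · intro j _; (clear * -; positivity)
        · intro j _
          calc (((k : ℝ) + 1) * ((pb P w j).card : ℝ) + 1) ^ (2 * (b + (j : ℕ)) + 1)
              ≤ ((zs w j) ^ (k + 2)) ^ (2 * (b + (j : ℕ)) + 1) :=
                pow_le_pow_left₀ (by (clear * -; positivity)) (card_pb_le hP k hw j) _
            _ = w ^ ((1 / 2 : ℝ) ^ (j : ℕ) * (((k : ℝ) + 2) * (2 * (b + (j : ℕ)) + 1))) := by
                unfold zs
                rw [← pow_mul, ← Real.rpow_natCast, ← Real.rpow_mul hw0.le]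
                congr 1
                push_cast
                ring
    _ = w ^ (∑ j : Fin (nb w), (1 / 2 : ℝ) ^ (j : ℕ) *
          (((k : ℝ) + 2) * (2 * (b + (j : ℕ)) + 1))) := by
        rw [Real.rpow_sum_of_pos hw0]
    _ ≤ w ^ (((k : ℝ) + 2) * (4 * b + 6) : ℝ) := by
        apply Real.rpow_le_rpow_of_exponent_le hw1
        rw [Fin.sum_univ_eq_sum_range
          (fun j => (1 / 2 : ℝ) ^ (j : ℕ) * (((k : ℝ) + 2) * (2 * (b + (j : ℝ)) + 1))) (nb w)]
        have e : ∀ j ∈ range (nb w), (1 / 2 : ℝ) ^ (j : ℕ) *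
            (((k : ℝ) + 2) * (2 * (b + (j : ℝ)) + 1)) =
            (((k : ℝ) + 2) * (2 * b + 1)) * (1 / 2 : ℝ) ^ j +
              (2 * ((k : ℝ) + 2)) * ((j : ℝ) * (1 / 2 : ℝ) ^ j) := by
          intro j _; ring
        rw [Finset.sum_congr rfl e, Finset.sum_add_distrib, ← Finset.mul_sum, ← Finset.mul_sum]
        have h1 := sum_geo_le (nb w)
        have h2 := sum_geo_mul_le (nb w)
        have h3 : (0 : ℝ) ≤ ((k : ℝ) + 2) * (2 * b + 1) := by (clear * -; positivity)
        have h4 : (0 : ℝ) ≤ 2 * ((k : ℝ) + 2) := by positivity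
        have h5 := mul_le_mul_of_nonneg_left h1 h3
        have h6 := mul_le_mul_of_nonneg_left h2 h4
        calc _ ≤ ((k : ℝ) + 2) * (2 * b + 1) * 2 + 2 * ((k : ℝ) + 2) * 2 := add_le_add h5 h6
          _ = _ := by ring

end Pool.Agent.Helper96.CPAP

end

section

set_option autoImplicit false

open Finset

namespace Pool.Agent.Helper96.CPAP

open Pool.Agent.Helper44

theorem count_shift {p : ℕ → Prop} [DecidablePred p] {D : ℕ} (hp : ∀ n, p (n + D) ↔ p n) (n : ℕ) :
    Nat.count (fun k => p (D + k)) n = Nat.count p n := by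
  induction n with
  | zero => simp
  | succ n ih =>
    rw [Nat.count_succ, Nat.count_succ, ih]
    congr 1
    by_cases h : p n
    · rw [if_pos h, if_pos]
      rw [add_comm]; exact (hp n).mpr h
    · rw [if_neg h, if_neg]
      rw [add_comm]; exact fun h' => h ((hp n).mp h')

theorem count_periodic {p : ℕ → Prop} [DecidablePred p] {D : ℕ} (hp : ∀ n, p (n + D) ↔ p n)
    (Q r : ℕ) : Nat.count p (Q * D + r) = Q * Nat.count p D + Nat.count p r := by
  induction Q with
  | zero => simp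
  | succ Q ih =>
    have e : (Q + 1) * D + r = D + (Q * D + r) := by ring
    rw [e, Nat.count_add, count_shift hp, ih]
    ring

theorem count_periodic_bound {p : ℕ → Prop} [DecidablePred p] {D : ℕ} (hD : 0 < D)
    (hp : ∀ n, p (n + D) ↔ p n) (N : ℕ) :
    |(Nat.count p N : ℝ) - N * ((Nat.count p D : ℝ) / D)| ≤ Nat.count p D := by
  have hN : N = N / D * D + N % D := by rw [mul_comm]; exact (Nat.div_add_mod N D).symm
  have hlt : N % D < D := Nat.mod_lt _ hD
  have h1 : Nat.count p N = N / D * Nat.count p D + Nat.count p (N % D) := by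
    conv_lhs => rw [hN]
    exact count_periodic hp _ _
  have h2 : Nat.count p (N % D) ≤ Nat.count p D := Nat.count_monotone p hlt.le
  have hD0 : (0 : ℝ) < D := by exact_mod_cast hD
  set ρ : ℝ := (Nat.count p D : ℝ) with hρ
  have hρ0 : 0 ≤ ρ := by (clear * -; positivity)
  have h3 : (Nat.count p N : ℝ) = (N / D : ℕ) * ρ + Nat.count p (N % D) := by
    rw [h1]; push_cast; ring
  have h4 : (N : ℝ) = (N / D : ℕ) * D + (N % D : ℕ) := by exact_mod_cast hN
  have h5 : (N : ℝ) * (ρ / D) = (N / D : ℕ) * ρ + (N % D : ℕ) * (ρ / D) := by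
    conv_lhs => rw [h4]
    (clear * - hD; field_simp)
  rw [h3, h5]
  have h6 : ((N % D : ℕ) : ℝ) ≤ D := by exact_mod_cast hlt.le
  have h7 : 0 ≤ ((N % D : ℕ) : ℝ) * (ρ / D) := by (clear * - hD; positivity)
  have h8 : ((N % D : ℕ) : ℝ) * (ρ / D) ≤ ρ := by
    calc ((N % D : ℕ) : ℝ) * (ρ / D) ≤ D * (ρ / D) :=
          mul_le_mul_of_nonneg_right h6 (by (clear * - hD; positivity))
      _ = ρ := by field_simp
  have h9 : (Nat.count p (N % D) : ℝ) ≤ ρ := by rw [hρ]; exact_mod_cast h2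
  have h10 : (0 : ℝ) ≤ Nat.count p (N % D) := by (clear * -; positivity)
  rw [abs_le]
  constructor <;> (clear * - h8 h7 h9; linarith)

theorem card_crt {q D : ℕ} (hco : Nat.Coprime q D) (hq : 0 < q) (hD : 0 < D) (A B : ℕ → Prop)
    [DecidablePred A] [DecidablePred B]
    (hA : ∀ n, A (n % q) ↔ A n) (hB : ∀ n, B (n % D) ↔ B n) :
    ((range (q * D)).filter (fun n => A n ∧ B n)).card =
      ((range q).filter A).card * ((range D).filter B).card := by
  rw [← Finset.card_product]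
  refine Finset.card_nbij' (fun n => (n % q, n % D))
    (fun x => (Nat.chineseRemainder hco x.1 x.2 : ℕ)) ?_ ?_ ?_ ?_
  · intro n hn
    rw [Finset.mem_coe, Finset.mem_filter, Finset.mem_range] at hn
    rw [Finset.mem_coe, Finset.mem_product, Finset.mem_filter, Finset.mem_filter, Finset.mem_range,
      Finset.mem_range]
    exact ⟨⟨Nat.mod_lt _ hq, (hA n).mpr hn.2.1⟩, ⟨Nat.mod_lt _ hD, (hB n).mpr hn.2.2⟩⟩
  · rintro ⟨x, y⟩ hx
    rw [Finset.mem_coe, Finset.mem_product, Finset.mem_filter, Finset.mem_filter, Finset.mem_range,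
      Finset.mem_range] at hx
    rw [Finset.mem_coe, Finset.mem_filter, Finset.mem_range]
    have h1 := (Nat.chineseRemainder hco x y).2
    refine ⟨Nat.chineseRemainder_lt_mul hco x y hq.ne' hD.ne', ?_, ?_⟩
    · rw [← hA, h1.1, hA]; exact hx.1.2
    · rw [← hB, h1.2, hB]; exact hx.2.2
  · intro n hn
    rw [Finset.mem_coe, Finset.mem_filter, Finset.mem_range] at hn
    have h1 := (Nat.chineseRemainder hco (n % q) (n % D)).2
    have h2 : (Nat.chineseRemainder hco (n % q) (n % D) : ℕ) ≡ n [MOD q * D] := by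
      rw [← Nat.modEq_and_modEq_iff_modEq_mul hco]
      exact ⟨h1.1.trans (Nat.mod_modEq _ _), h1.2.trans (Nat.mod_modEq _ _)⟩
    exact Nat.ModEq.eq_of_lt_of_lt h2 (Nat.chineseRemainder_lt_mul hco _ _ hq.ne' hD.ne') hn.1
  · rintro ⟨x, y⟩ hx
    rw [Finset.mem_coe, Finset.mem_product, Finset.mem_filter, Finset.mem_filter, Finset.mem_range,
      Finset.mem_range] at hx
    have h1 := (Nat.chineseRemainder hco x y).2
    simp only [Prod.mk.injEq]
    constructor
    · rw [h1.1]; exact Nat.mod_eq_of_lt hx.1.1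
    · rw [h1.2]; exact Nat.mod_eq_of_lt hx.2.1

theorem occ_mod {q M a d k : ℕ} (n : ℕ) :
    (∃ i < k, q ∣ a + M * (n % q) + i * d) ↔ (∃ i < k, q ∣ a + M * n + i * d) := by
  apply exists_congr
  intro i
  apply and_congr_right
  intro _
  have h : a + M * (n % q) + i * d ≡ a + M * n + i * d [MOD q] := by
    apply Nat.ModEq.add_right
    apply Nat.ModEq.add_left
    exact (Nat.mod_modEq n q).mul_left M
  exact ⟨fun h' => (Nat.ModEq.dvd_iff h dvd_rfl).mp h', fun h' => (Nat.ModEq.dvd_iff h dvd_rfl).mpr h'⟩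

theorem card_occ_prime {q M a d k : ℕ} (hq : q.Prime) (hM : ¬ q ∣ M) (hd : ¬ q ∣ d) (hk : k ≤ q) :
    ((range q).filter (fun n => ∃ i < k, q ∣ a + M * n + i * d)).card = k := by
  classical
  have : Fact q.Prime := ⟨hq⟩
  have hM' : (M : ZMod q) ≠ 0 := fun h => hM ((ZMod.natCast_eq_zero_iff M q).mp h)
  have hd' : (d : ZMod q) ≠ 0 := fun h => hd ((ZMod.natCast_eq_zero_iff d q).mp h)
  set f : ℕ → ℕ := fun i => (-((a : ZMod q) + i * d) * (M : ZMod q)⁻¹).val with hf
  have key : ∀ n i : ℕ, q ∣ a + M * n + i * d ↔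
      (n : ZMod q) = -((a : ZMod q) + i * d) * (M : ZMod q)⁻¹ := by
    intro n i
    rw [← ZMod.natCast_eq_zero_iff]
    push_cast
    constructor
    · intro h
      field_simp
      linear_combination h
    · intro h
      rw [h]
      field_simp
      ring
  have himg : (range q).filter (fun n => ∃ i < k, q ∣ a + M * n + i * d) = (range k).image f := by
    ext n
    rw [Finset.mem_filter, Finset.mem_range, Finset.mem_image]
    constructor
    · rintro ⟨hn, i, hi, hdv⟩
      refine ⟨i, Finset.mem_range.mpr hi, ?_⟩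
      rw [key] at hdv
      rw [hf]
      simp only
      rw [← hdv, ZMod.val_natCast, Nat.mod_eq_of_lt hn]
    · rintro ⟨i, hi, rfl⟩
      refine ⟨ZMod.val_lt _, i, Finset.mem_range.mp hi, ?_⟩
      rw [key, hf]
      simp only
      rw [ZMod.natCast_val, ZMod.cast_id]
  rw [himg, Finset.card_image_of_injOn, Finset.card_range]
  intro i hi j hj hij
  rw [Finset.coe_range, Set.mem_Iio] at hi hj
  have h1 : (-((a : ZMod q) + i * d) * (M : ZMod q)⁻¹) = (-((a : ZMod q) + j * d) * (M : ZMod q)⁻¹) :=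
    ZMod.val_injective q hij
  have h2 : (i : ZMod q) * d = (j : ZMod q) * d := by
    have h3 := mul_right_cancel₀ (inv_ne_zero hM') h1
    have h4 := neg_injective h3
    exact add_left_cancel h4
  have h3 : (i : ZMod q) = (j : ZMod q) := mul_right_cancel₀ hd' h2
  rw [ZMod.natCast_eq_natCast_iff] at h3
  exact Nat.ModEq.eq_of_lt_of_lt h3 (by omega) (by omega)

theorem card_occ_prod {M a d k : ℕ} (I : Finset ℕ)
    (hI : ∀ q ∈ I, q.Prime ∧ ¬ q ∣ M ∧ ¬ q ∣ d ∧ k ≤ q) :
    ((range (∏ q ∈ I, q)).filter (fun n => ∀ q ∈ I, ∃ i < k, q ∣ a + M * n + i * d)).card =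
      k ^ I.card := by
  classical
  induction I using Finset.induction_on with
  | empty => simp
  | insert q I hqI ih =>
    have hq := hI q (Finset.mem_insert_self _ _)
    have hI' : ∀ q ∈ I, q.Prime ∧ ¬ q ∣ M ∧ ¬ q ∣ d ∧ k ≤ q :=
      fun q' hq' => hI q' (Finset.mem_insert_of_mem hq')
    have hco : Nat.Coprime q (∏ q ∈ I, q) := by
      apply Nat.Coprime.prod_right
      intro q' hq'
      exact (Nat.coprime_primes hq.1 (hI' q' hq').1).mpr (fun h => hqI (h ▸ hq'))
    have hpos : 0 < ∏ q ∈ I, q := Finset.prod_pos fun q' hq' => (hI' q' hq').1.pos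
    rw [Finset.prod_insert hqI, Finset.card_insert_of_notMem hqI, pow_succ, mul_comm (k ^ I.card),
      ← ih hI', ← card_occ_prime (a := a) hq.1 hq.2.1 hq.2.2.1 hq.2.2.2]
    rw [← card_crt hco hq.1.pos hpos]
    · congr 1
      apply Finset.filter_congr
      intro n _
      rw [Finset.forall_mem_insert, card_occ_prime hq.1 hq.2.1 hq.2.2.1 hq.2.2.2]
    · intro n
      exact occ_mod n
    · intro n
      apply forall₂_congr
      intro q' hq'
      apply exists_congr
      intro i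
      apply and_congr_right
      intro _
      have hdvd : q' ∣ ∏ q ∈ I, q := Finset.dvd_prod_of_mem _ hq'
      have h : a + M * (n % ∏ q ∈ I, q) + i * d ≡ a + M * n + i * d [MOD q'] := by
        apply Nat.ModEq.add_right
        apply Nat.ModEq.add_left
        exact ((Nat.mod_modEq n _).of_dvd hdvd).mul_left M
      exact ⟨fun h' => (Nat.ModEq.dvd_iff h dvd_rfl).mp h',
        fun h' => (Nat.ModEq.dvd_iff h dvd_rfl).mpr h'⟩

theorem count_bound {M a d k : ℕ} (I : Finset ℕ)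
    (hI : ∀ q ∈ I, q.Prime ∧ ¬ q ∣ M ∧ ¬ q ∣ d ∧ k ≤ q) (N : ℕ) :
    |evCount (range N) (fun n => ∀ q ∈ I, ∃ i < k, q ∣ a + M * n + i * d) -
      (N : ℝ) * ∏ q ∈ I, ((k : ℝ) / q)| ≤ 1 * ((k : ℝ) + 1) ^ I.card := by
  classical
  have hpos : 0 < ∏ q ∈ I, q := Finset.prod_pos fun q' hq' => (hI q' hq').1.pos
  have hper : ∀ n, (∀ q ∈ I, ∃ i < k, q ∣ a + M * (n + ∏ q ∈ I, q) + i * d) ↔
      (∀ q ∈ I, ∃ i < k, q ∣ a + M * n + i * d) := by
    intro n
    apply forall₂_congr
    intro q' hq'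
    apply exists_congr
    intro i
    apply and_congr_right
    intro _
    have hdvd : q' ∣ ∏ q ∈ I, q := Finset.dvd_prod_of_mem _ hq'
    have h : a + M * (n + ∏ q ∈ I, q) + i * d ≡ a + M * n + i * d [MOD q'] := by
      apply Nat.ModEq.add_right
      apply Nat.ModEq.add_left
      apply Nat.ModEq.mul_left
      have h1 : ∏ q ∈ I, q ≡ 0 [MOD q'] := (Nat.modEq_zero_iff_dvd).mpr hdvd
      simpa using h1.add_left n
    exact ⟨fun h' => (Nat.ModEq.dvd_iff h dvd_rfl).mp h',
      fun h' => (Nat.ModEq.dvd_iff h dvd_rfl).mpr h'⟩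
  have h1 := count_periodic_bound (p := fun n => ∀ q ∈ I, ∃ i < k, q ∣ a + M * n + i * d)
    hpos hper N
  rw [Nat.count_eq_card_filter_range, Nat.count_eq_card_filter_range, card_occ_prod I hI] at h1
  rw [evCount_eq, Finset.prod_div_distrib, Finset.prod_const]
  push_cast at h1
  refine h1.trans ?_
  rw [one_mul]
  exact pow_le_pow_left₀ (by (clear * -; positivity)) (by (clear * -; linarith)) _

end Pool.Agent.Helper96.CPAP

end

section

set_option autoImplicit false

open Finset Real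

namespace Pool.Agent.Helper30.Gap

open Pool.Agent.Helper44 Pool.Agent.Helper96.CPAP

/-- `G h = ∏_{q ∣ h} (1 - 1/q)^{-2}`. -/
noncomputable def G (h : ℕ) : ℝ := ∏ q ∈ h.primeFactors, ((1 - (1 : ℝ) / q) ^ 2)⁻¹

theorem one_sub_inv_pos {q : ℕ} (hq : q.Prime) : (0 : ℝ) < 1 - (1 : ℝ) / q := by
  have h2 : (2 : ℝ) ≤ q := by exact_mod_cast hq.two_le
  rw [sub_pos, div_lt_one (by (clear * - h2; linarith))]
  (clear * - h2; linarith)

theorem one_sub_inv_lt {q : ℕ} (hq : q.Prime) : 1 - (1 : ℝ) / q < 1 := by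
  have h2 : (2 : ℝ) ≤ q := by exact_mod_cast hq.two_le
  have : (0 : ℝ) < 1 / q := by (clear * - h2; positivity)
  (clear * - this; linarith)

theorem one_le_G (h : ℕ) : 1 ≤ G h := by
  unfold G
  apply Finset.one_le_prod
  intro q hq
  have hq' := Nat.prime_of_mem_primeFactors hq
  rw [one_le_inv₀ (by have := one_sub_inv_pos hq'; (clear * - this; positivity))]
  have h1 := one_sub_inv_pos hq'
  have h2 := one_sub_inv_lt hq'
  (clear * - h2 h1; nlinarith)

/-- The primes used in the sieve: `q > 3` not dividing `h`. -/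
def Pr (h : ℕ) (q : ℕ) : Prop := q.Prime ∧ 4 ≤ q ∧ ¬ q ∣ h

end Pool.Agent.Helper30.Gap

end

section

set_option autoImplicit false

open Finset Real

namespace Pool.Agent.Helper30.Gap

/-- `g q = (1 - 1/q)^{-2} - 1`. -/
noncomputable def g (q : ℕ) : ℝ := ((1 - (1 : ℝ) / q) ^ 2)⁻¹ - 1

theorem g_nonneg {q : ℕ} (hq : q.Prime) : 0 ≤ g q := by
  unfold g
  have h1 := one_sub_inv_pos hq
  have h2 := one_sub_inv_lt hq
  rw [sub_nonneg, one_le_inv₀ (by (clear * - h1; positivity))]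
  nlinarith

theorem g_le {q : ℕ} (hq : q.Prime) : g q ≤ 6 / q := by
  unfold g
  have h2 : (2 : ℝ) ≤ q := by exact_mod_cast hq.two_le
  have hq0 : (0 : ℝ) < q := by (clear * - h2; linarith)
  have h1 : (0 : ℝ) < q - 1 := by (clear * - h2; linarith)
  have e : ((1 - (1 : ℝ) / q) ^ 2)⁻¹ - 1 = (2 * (q : ℝ) - 1) / ((q : ℝ) - 1) ^ 2 := by
    have e1 : 1 - (1 : ℝ) / q = ((q : ℝ) - 1) / q := by (clear * - h2 h1; field_simp)
    rw [e1]
    field_simp
    ring
  rw [e, div_le_div_iff₀ (by (clear * - h1; positivity)) hq0]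
  (clear * - h2; nlinarith)

theorem G_eq_sum (h : ℕ) : G h = ∑ S ∈ h.primeFactors.powerset, ∏ q ∈ S, g q := by
  unfold G
  rw [← Finset.prod_one_add]
  apply Finset.prod_congr rfl
  intro q _
  unfold g; ring

theorem card_mult (A B D : ℕ) (hAB : A ≤ B) (hD : 0 < D) :
    (((Ioc A B).filter (fun h => D ∣ h)).card : ℝ) ≤
      ((B : ℝ) - A) / D + Real.sqrt B / Real.sqrt D := by
  have hD0 : (0 : ℝ) < D := by exact_mod_cast hD
  have h1 : (Ioc A B).filter (fun h => D ∣ h) =
      ((Ioc 0 B).filter (fun h => D ∣ h)) \ ((Ioc 0 A).filter (fun h => D ∣ h)) := by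
    ext x
    simp only [Finset.mem_filter, Finset.mem_Ioc, Finset.mem_sdiff]
    constructor
    · rintro ⟨⟨h1, h2⟩, h3⟩
      exact ⟨⟨⟨by omega, h2⟩, h3⟩, fun h => by omega⟩
    · rintro ⟨⟨⟨h1, h2⟩, h3⟩, h4⟩
      refine ⟨⟨?_, h2⟩, h3⟩
      by_contra hc
      exact h4 ⟨⟨h1, by omega⟩, h3⟩
  have hsub : (Ioc 0 A).filter (fun h => D ∣ h) ⊆ (Ioc 0 B).filter (fun h => D ∣ h) := by
    apply Finset.filter_subset_filter
    exact Finset.Ioc_subset_Ioc_right hAB
  have h2 : ((Ioc A B).filter (fun h => D ∣ h)).card = B / D - A / D := by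
    rw [h1, Finset.card_sdiff_of_subset hsub, Nat.Ioc_filter_dvd_card_eq_div,
      Nat.Ioc_filter_dvd_card_eq_div]
  rw [h2, Nat.cast_sub (Nat.div_le_div_right hAB)]
  by_cases hDB : D ≤ B
  · have h3 : ((B / D : ℕ) : ℝ) ≤ B / D := Nat.cast_div_le
    have h4 : (A : ℝ) / D < ((A / D : ℕ) : ℝ) + 1 := by
      rw [div_lt_iff₀ hD0]
      have := Nat.lt_div_mul_add (a := A) hD
      have h5 : A < (A / D + 1) * D := by
        rw [add_mul, one_mul]; exact this
      exact_mod_cast h5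
    have h5 : (1 : ℝ) ≤ Real.sqrt B / Real.sqrt D := by
      rw [le_div_iff₀ (Real.sqrt_pos.mpr hD0), one_mul]
      exact Real.sqrt_le_sqrt (by exact_mod_cast hDB)
    rw [sub_div]
    (clear * - h3 h4 h5; linarith)
  · push Not at hDB
    rw [Nat.div_eq_of_lt hDB, Nat.div_eq_of_lt (lt_of_le_of_lt hAB hDB)]
    have : (A : ℝ) ≤ B := by exact_mod_cast hAB
    have h6 : (0 : ℝ) ≤ ((B : ℝ) - A) / D := by
      apply div_nonneg (by (clear * - this; linarith)) hD0.le
    simp only [Nat.cast_zero, sub_zero]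
    (clear * - this hD; positivity)

theorem avg_G : ∃ C : ℝ, 0 < C ∧ ∀ A B : ℕ, A ≤ B →
    ∑ h ∈ Ioc A B, G h ≤ C * ((B : ℝ) - A) + C * Real.sqrt B := by
  classical
  set Z : ℝ := ∑' n : ℕ, 1 / (n : ℝ) ^ (3 / 2 : ℝ) with hZ
  have hsum : Summable (fun n : ℕ => 1 / (n : ℝ) ^ (3 / 2 : ℝ)) :=
    Real.summable_one_div_nat_rpow.mpr (by norm_num)
  refine ⟨Real.exp (6 * Z), Real.exp_pos _, ?_⟩
  intro A B hAB
  have hABr : (0 : ℝ) ≤ (B : ℝ) - A := by
    have : (A : ℝ) ≤ B := by exact_mod_cast hAB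
    (clear * - this; linarith)
  set PB : Finset ℕ := (range (B + 1)).filter Nat.Prime with hPB
  have hPBp : ∀ q ∈ PB, q.Prime := fun q hq => (Finset.mem_filter.mp hq).2
  have hgS : ∀ S ∈ PB.powerset, 0 ≤ ∏ q ∈ S, g q := by
    intro S hS
    apply Finset.prod_nonneg
    intro q hq
    exact g_nonneg (hPBp q (Finset.mem_powerset.mp hS hq))
  have h1 : ∑ h ∈ Ioc A B, G h =
      ∑ S ∈ PB.powerset, (∏ q ∈ S, g q) *
        (((Ioc A B).filter (fun h => (∏ q ∈ S, q) ∣ h)).card : ℝ) := by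
    calc ∑ h ∈ Ioc A B, G h
        = ∑ h ∈ Ioc A B, ∑ S ∈ PB.powerset,
            if (∏ q ∈ S, q) ∣ h then ∏ q ∈ S, g q else 0 := by
          apply Finset.sum_congr rfl
          intro h hh
          rw [Finset.mem_Ioc] at hh
          have hh0 : h ≠ 0 := by omega
          rw [G_eq_sum, ← Finset.sum_filter]
          apply Finset.sum_congr _ fun _ _ => rfl
          ext S
          rw [Finset.mem_filter, Finset.mem_powerset, Finset.mem_powerset]
          constructor
          · intro hS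
            refine ⟨?_, ?_⟩
            · intro q hq
              have h3 := hS hq
              rw [Nat.mem_primeFactors] at h3
              rw [hPB, Finset.mem_filter, Finset.mem_range]
              have := Nat.le_of_dvd (by omega) h3.2.1
              exact ⟨by omega, h3.1⟩
            · apply Finset.prod_primes_dvd
              · intro q hq
                exact (Nat.prime_of_mem_primeFactors (hS hq)).prime
              · intro q hq
                exact Nat.dvd_of_mem_primeFactors (hS hq)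
          · rintro ⟨hS, hd⟩ q hq
            rw [Nat.mem_primeFactors]
            exact ⟨hPBp q (hS hq), (Finset.dvd_prod_of_mem _ hq).trans hd, hh0⟩
      _ = ∑ S ∈ PB.powerset, ∑ h ∈ Ioc A B,
            if (∏ q ∈ S, q) ∣ h then ∏ q ∈ S, g q else 0 := Finset.sum_comm
      _ = _ := by
          apply Finset.sum_congr rfl
          intro S _
          rw [← Finset.sum_filter, Finset.sum_const, nsmul_eq_mul, mul_comm]
  rw [h1]
  have hprodbd : ∀ f : ℕ → ℝ, (∀ q ∈ PB, 0 ≤ f q ∧ f q ≤ 6 * (1 / (q : ℝ) ^ (3 / 2 : ℝ))) →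
      ∑ S ∈ PB.powerset, ∏ q ∈ S, f q ≤ Real.exp (6 * Z) := by
    intro f hf
    rw [← Finset.prod_one_add]
    calc ∏ q ∈ PB, (1 + f q) ≤ ∏ q ∈ PB, Real.exp (6 * (1 / (q : ℝ) ^ (3 / 2 : ℝ))) := by
          apply Finset.prod_le_prod
          · intro q hq; (clear * - hf hq; linarith [(hf q hq).1])
          · intro q hq
            have := Real.add_one_le_exp (6 * (1 / (q : ℝ) ^ (3 / 2 : ℝ)))
            (clear * - this hf hq; linarith [(hf q hq).2])
      _ = Real.exp (∑ q ∈ PB, 6 * (1 / (q : ℝ) ^ (3 / 2 : ℝ))) := by rw [Real.exp_sum]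
      _ ≤ Real.exp (6 * Z) := by
          apply Real.exp_le_exp.mpr
          rw [← Finset.mul_sum]
          apply mul_le_mul_of_nonneg_left _ (by norm_num)
          exact hsum.sum_le_tsum _ (fun n _ => by (clear * -; positivity))
  have hq1 : ∀ q ∈ PB, (1 : ℝ) ≤ q := fun q hq => by exact_mod_cast (hPBp q hq).one_lt.le
  have hr : ∀ q ∈ PB, (q : ℝ) ^ (3 / 2 : ℝ) = q * Real.sqrt q := by
    intro q hq
    have h1 : (0 : ℝ) < q := by (clear * - hq1 hq; linarith [hq1 q hq])
    rw [show (3 / 2 : ℝ) = 1 + 1 / 2 by norm_num, Real.rpow_add h1, Real.rpow_one,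
      ← Real.sqrt_eq_rpow]
  have hb1 := hprodbd (fun q => g q / q) (by
    intro q hq
    have h1 := hq1 q hq
    have h2 := g_nonneg (hPBp q hq)
    have h3 := g_le (hPBp q hq)
    have h4 : (0 : ℝ) < q := by (clear * - h1; linarith)
    have h5 : 1 ≤ Real.sqrt q := Real.one_le_sqrt.mpr h1
    have h6 : Real.sqrt q ≤ q := by
      have := Real.mul_self_sqrt h4.le
      (clear * - h1 this h5; nlinarith)
    refine ⟨by (clear * - h2 h1; positivity), ?_⟩
    rw [hr q hq]
    calc g q / q ≤ (6 / q) / q := by (clear * - h3 h1; gcongr)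
      _ = 6 * (1 / (q * q)) := by ring
      _ ≤ 6 * (1 / (q * Real.sqrt q)) := by
        apply mul_le_mul_of_nonneg_left _ (by norm_num)
        apply one_div_le_one_div_of_le (by (clear * - h1; positivity))
        (clear * - h6 h1; gcongr))
  have hb2 := hprodbd (fun q => g q / Real.sqrt q) (by
    intro q hq
    have h1 := hq1 q hq
    have h2 := g_nonneg (hPBp q hq)
    have h3 := g_le (hPBp q hq)
    have h4 : (0 : ℝ) < q := by (clear * - h1; linarith)
    have h5 : 1 ≤ Real.sqrt q := Real.one_le_sqrt.mpr h1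
    refine ⟨by (clear * - h2 h1; positivity), ?_⟩
    rw [hr q hq]
    calc g q / Real.sqrt q ≤ (6 / q) / Real.sqrt q := by (clear * - h3 h1; gcongr)
      _ = 6 * (1 / (q * Real.sqrt q)) := by (clear * - h1; field_simp))
  have hsqrtprod : ∀ S : Finset ℕ, Real.sqrt ((∏ q ∈ S, q : ℕ) : ℝ) = ∏ q ∈ S, Real.sqrt q := by
    intro S
    push_cast
    rw [Real.sqrt_eq_rpow, ← Real.finsetProd_rpow]
    · apply Finset.prod_congr rfl
      intro q _
      rw [Real.sqrt_eq_rpow]
    · intro q _; (clear * -; positivity)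
  calc ∑ S ∈ PB.powerset, (∏ q ∈ S, g q) *
        (((Ioc A B).filter (fun h => (∏ q ∈ S, q) ∣ h)).card : ℝ)
      ≤ ∑ S ∈ PB.powerset, (((B : ℝ) - A) * ∏ q ∈ S, (g q / q) +
          Real.sqrt B * ∏ q ∈ S, (g q / Real.sqrt q)) := by
        apply Finset.sum_le_sum
        intro S hS
        have hSp : ∀ q ∈ S, q.Prime := fun q hq => hPBp q (Finset.mem_powerset.mp hS hq)
        have hDpos : 0 < ∏ q ∈ S, q := Finset.prod_pos fun q hq => (hSp q hq).pos
        have h2 := card_mult A B (∏ q ∈ S, q) hAB hDpos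
        have h3 := hgS S hS
        calc _ ≤ (∏ q ∈ S, g q) * (((B : ℝ) - A) / ((∏ q ∈ S, q : ℕ) : ℝ) +
              Real.sqrt B / Real.sqrt ((∏ q ∈ S, q : ℕ) : ℝ)) := mul_le_mul_of_nonneg_left h2 h3
          _ = _ := by
            rw [hsqrtprod, Finset.prod_div_distrib, Finset.prod_div_distrib]
            push_cast
            ring
    _ = ((B : ℝ) - A) * ∑ S ∈ PB.powerset, ∏ q ∈ S, (g q / q) +
          Real.sqrt B * ∑ S ∈ PB.powerset, ∏ q ∈ S, (g q / Real.sqrt q) := by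
        rw [Finset.sum_add_distrib, Finset.mul_sum, Finset.mul_sum]
    _ ≤ ((B : ℝ) - A) * Real.exp (6 * Z) + Real.sqrt B * Real.exp (6 * Z) := by
        (clear * - hb1 hABr hb2; gcongr)
    _ = _ := by ring

end Pool.Agent.Helper30.Gap

end

section

set_option autoImplicit false

open Finset Real Filter

namespace Pool.Agent.Helper30.Gap

theorem growth {N : ℕ} (hN : 81 ≤ N) : 4 * (N : ℝ) * Real.log N + 2 ≤ (N : ℝ) ^ 2 := by
  have hN1 : (81 : ℝ) ≤ N := by exact_mod_cast hN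
  have hN0 : (0 : ℝ) < N := by (clear * - hN1; linarith)
  have h1 := Real.log_le_rpow_div hN0.le (show (0 : ℝ) < 1 / 2 by norm_num)
  rw [← Real.sqrt_eq_rpow] at h1
  have h2 : Real.log N ≤ 2 * Real.sqrt N := by linarith
  have h3 : 9 ≤ Real.sqrt N := by
    rw [show (9 : ℝ) = Real.sqrt 81 by
      rw [show (81 : ℝ) = 9 ^ 2 by norm_num, Real.sqrt_sq (by norm_num)]]
    exact Real.sqrt_le_sqrt hN1
  have h4 : Real.sqrt N * Real.sqrt N = N := Real.mul_self_sqrt hN0.le
  have h5 : 9 * Real.sqrt N ≤ N := by (clear * - hN1 h4 h3; nlinarith)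
  calc 4 * (N : ℝ) * Real.log N + 2 ≤ 4 * N * (2 * Real.sqrt N) + N := by
        have : 4 * (N : ℝ) * Real.log N ≤ 4 * N * (2 * Real.sqrt N) := by gcongr
        (clear * - hN1 this; linarith)
    _ ≤ N * (9 * Real.sqrt N) := by (clear * - hN1 h3; nlinarith)
    _ ≤ N * N := by gcongr
    _ = (N : ℝ) ^ 2 := by ring

theorem nth_lt {N : ℕ} (hN : 81 ≤ N) :
    Nat.nth Nat.Prime (N - 1) < ⌈4 * (N : ℝ) * Real.log N⌉₊ + 1 := by
  have hN1 : (81 : ℝ) ≤ N := by exact_mod_cast hN
  have hN0 : (0 : ℝ) < N := by (clear * - hN1; linarith)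
  have hlN : 1 < Real.log N := by
    rw [Real.lt_log_iff_exp_lt hN0]
    have := Real.exp_one_lt_d9
    (clear * - hN1 this; linarith)
  have hg := growth hN
  set X : ℕ := ⌈4 * (N : ℝ) * Real.log N⌉₊ with hX
  have hX1 : 4 * (N : ℝ) * Real.log N ≤ X := Nat.le_ceil _
  have hX2 : (X : ℝ) < 4 * (N : ℝ) * Real.log N + 1 := Nat.ceil_lt_add_one (by (clear * - hN hlN; positivity))
  have hXN : (N : ℝ) ≤ X := by (clear * - hN1 hX1 hlN; nlinarith)
  have hX0 : (1 : ℝ) < X := by (clear * - hN1 hXN; linarith)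
  have hlogX : Real.log X ≤ 2 * Real.log N := by
    rw [show 2 * Real.log N = Real.log ((N : ℝ) ^ 2) by rw [Real.log_pow]; norm_num]
    exact Real.log_le_log (by (clear * - hN1 hXN; linarith)) (by (clear * - hg hX2; linarith))
  have hlogX1 : Real.log ((X : ℝ) + 1) ≤ 2 * Real.log N := by
    rw [show 2 * Real.log N = Real.log ((N : ℝ) ^ 2) by rw [Real.log_pow]; norm_num]
    exact Real.log_le_log (by (clear * - hN1 hXN; linarith)) (by (clear * - hg hX2; linarith))
  have hlX0 : 0 < Real.log X := Real.log_pos hX0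
  have hpi := Chebyshev.pi_ge X
  have hlog2 := Real.log_two_gt_d9
  have hnum : 4 * (N : ℝ) * Real.log N * Real.log 2 - 2 * Real.log N ≤
      X * Real.log 2 - Real.log ((X : ℝ) + 1) := by
    have : 4 * (N : ℝ) * Real.log N * Real.log 2 ≤ X * Real.log 2 :=
      mul_le_mul_of_nonneg_right hX1 (by (clear * - hlog2; linarith))
    (clear * - hlogX1 this; linarith)
  have hnumpos : 0 ≤ 4 * (N : ℝ) * Real.log N * Real.log 2 - 2 * Real.log N := by
    have : 2 * Real.log N ≤ 4 * (N : ℝ) * Real.log N * Real.log 2 := by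
      have h1 : (2 : ℝ) ≤ 4 * N * Real.log 2 := by (clear * - hN1 hlog2; nlinarith)
      (clear * - hN1 hlog2 hlN h1; nlinarith)
    (clear * - this; linarith)
  have hge : (N : ℝ) ≤ (Nat.primeCounting X : ℝ) := by
    calc (N : ℝ) ≤ (4 * (N : ℝ) * Real.log N * Real.log 2 - 2 * Real.log N) / (2 * Real.log N) := by
          rw [le_div_iff₀ (by (clear * - hlN; linarith))]
          (clear * - hN1 hlN hlog2 hX2 hXN; nlinarith)
      _ ≤ (4 * (N : ℝ) * Real.log N * Real.log 2 - 2 * Real.log N) / Real.log X := by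
          apply div_le_div_of_nonneg_left hnumpos hlX0 hlogX
      _ ≤ (X * Real.log 2 - Real.log ((X : ℝ) + 1)) / Real.log X := by
          (clear * - hnum hlX0; gcongr)
      _ ≤ _ := hpi
  have hge' : N ≤ Nat.primeCounting X := by exact_mod_cast hge
  apply Nat.nth_lt_of_lt_count
  have : Nat.count Nat.Prime (X + 1) = Nat.primeCounting X := rfl
  omega

end Pool.Agent.Helper30.Gap

end
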