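import Mathlib

/-!
Parts of Helper44.MertensProd, Helper44.Bonferroni, Helper44.BrunHooley
-/

section

set_option autoImplicit false

open Finset Real

namespace Pool.Agent.Helper44

theorem one_sub_ge_exp' {x : ℝ} (h0 : 0 ≤ x) (h1 : x ≤ 1 / 2) :
    Real.exp (-(x + 2 * x ^ 2)) ≤ 1 - x := by
  have h2 : (x + 2 * x ^ 2) + 1 ≤ Real.exp (x + 2 * x ^ 2) := Real.add_one_le_exp _
  have h3 : 0 < Real.exp (x + 2 * x ^ 2) := Real.exp_pos _
  rw [Real.exp_neg, inv_le_comm₀ h3 (by (clear * - h1; linarith))]
  refine le_trans ?_ h2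
  rw [inv_le_iff_one_le_mul₀ (by (clear * - h1; linarith))]
  (clear * - h0 h1; nlinarith [sq_nonneg x, mul_nonneg h0 h0, mul_nonneg (mul_nonneg h0 h0) (by linarith : 0 ≤ 1 - 2 * x)])

theorem sum_inv_sq_le : ∃ C : ℝ, 0 ≤ C ∧ ∀ s : Finset ℕ, ∑ n ∈ s, ((1 : ℝ) / n) ^ 2 ≤ C := by
  have h : Summable (fun n : ℕ => ((1 : ℝ) / n) ^ 2) := by
    have := Real.summable_one_div_nat_pow.mpr (by norm_num : 1 < 2)
    refine this.congr ?_
    intro n
    rw [div_pow, one_pow]
  exact ⟨∑' n : ℕ, ((1 : ℝ) / n) ^ 2, tsum_nonneg fun n => by (clear * -; positivity),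
    fun s => h.sum_le_tsum s (fun n _ => by (clear * -; positivity))⟩

end Pool.Agent.Helper44

end

section

set_option autoImplicit false

open Finset

namespace Pool.Agent.Helper44

variable {ι : Type*} [DecidableEq ι]

/-- Elementary symmetric sum. -/
noncomputable def es (B : Finset ι) (m : ℕ) (x : ι → ℝ) : ℝ :=
  ∑ I ∈ B.powerset, if I.card = m then ∏ i ∈ I, x i else 0

theorem es_zero (B : Finset ι) (x : ι → ℝ) : es B 0 x = 1 := by
  unfold es
  have h : ∀ I ∈ B.powerset, (if I.card = 0 then ∏ i ∈ I, x i else 0) =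
      if I = ∅ then 1 else 0 := by
    intro I _
    by_cases hI : I = ∅
    · simp [hI]
    · simp [hI]
  rw [Finset.sum_congr rfl h]
  simp

theorem es_insert {a : ι} {B : Finset ι} (ha : a ∉ B) (m : ℕ) (x : ι → ℝ) :
    es (insert a B) (m + 1) x = es B (m + 1) x + x a * es B m x := by
  unfold es
  rw [Finset.sum_powerset_insert ha, Finset.mul_sum]
  congr 1
  apply Finset.sum_congr rfl
  intro I hI
  have haI : a ∉ I := fun h => ha (Finset.mem_powerset.mp hI h)
  rw [Finset.card_insert_of_notMem haI, Finset.prod_insert haI]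
  by_cases h : I.card = m
  · simp [h]
  · simp [h]

theorem es_le_pow_div_factorial (B : Finset ι) (x : ι → ℝ) (hx : ∀ i ∈ B, 0 ≤ x i) (m : ℕ) :
    es B m x ≤ (∑ i ∈ B, x i) ^ m / m.factorial := by
  induction B using Finset.induction_on generalizing m with
  | empty =>
    unfold es
    cases m with
    | zero => simp
    | succ m => simp
  | insert a B ha ih =>
    have hxB : ∀ i ∈ B, 0 ≤ x i := fun i hi => hx i (Finset.mem_insert_of_mem hi)
    have hxa := hx a (Finset.mem_insert_self a B)
    cases m with
    | zero => rw [es_zero]; simp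
    | succ m =>
      rw [es_insert ha, Finset.sum_insert ha]
      have h1 := ih hxB (m + 1)
      have h2 := ih hxB m
      set s := ∑ i ∈ B, x i with hs
      have hs0 : 0 ≤ s := Finset.sum_nonneg hxB
      have hb : s ^ (m + 1) + (m + 1) * (x a * s ^ m) ≤ (x a + s) ^ (m + 1) := by
        -- binomial: first two terms
        have hexp : ∀ m : ℕ, s ^ (m + 1) + (m + 1) * (x a * s ^ m) ≤ (x a + s) ^ (m + 1) := by
          intro m
          induction m with
          | zero => simp; (clear * -; linarith)
          | succ k ihk =>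
            have : (x a + s) ^ (k + 1 + 1) = (x a + s) * (x a + s) ^ (k + 1) := by ring
            rw [this]
            calc s ^ (k + 1 + 1) + ((k + 1 : ℕ) + 1) * (x a * s ^ (k + 1))
                ≤ (x a + s) * (s ^ (k + 1) + (k + 1) * (x a * s ^ k)) := by
                  have e : (x a + s) * (s ^ (k + 1) + (k + 1) * (x a * s ^ k)) =
                    s ^ (k + 1 + 1) + ((k + 1 : ℕ) + 1) * (x a * s ^ (k + 1)) +
                      (k + 1) * (x a * x a * s ^ k) := by
                    push_cast; ring
                  rw [e]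
                  have : 0 ≤ ((k : ℝ) + 1) * (x a * x a * s ^ k) := by (clear * - hxa hs0; positivity)
                  (clear * - this; linarith)
              _ ≤ _ := mul_le_mul_of_nonneg_left ihk (by linarith)
        exact hexp m
      have hf : ((m + 1).factorial : ℝ) = (m + 1) * m.factorial := by
        rw [Nat.factorial_succ]; push_cast; ring
      have hfpos : (0 : ℝ) < m.factorial := by positivity
      calc es B (m + 1) x + x a * es B m x
          ≤ s ^ (m + 1) / (m + 1).factorial + x a * (s ^ m / m.factorial) := by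
            (clear * - h1 h2 hxa; gcongr)
        _ = (s ^ (m + 1) + (m + 1) * (x a * s ^ m)) / (m + 1).factorial := by
            rw [hf]
            (clear * -; field_simp)
        _ ≤ (x a + s) ^ (m + 1) / (m + 1).factorial := by
            gcongr

end Pool.Agent.Helper44

end

section

set_option autoImplicit false

set_option linter.unusedSectionVars false

open Finset

namespace Pool.Agent.Helper44

variable {ι : Type*} [DecidableEq ι] {α : Type*}

theorem es_eq_sum_filter (B : Finset ι) (m : ℕ) (x : ι → ℝ) :
    es B m x = ∑ I ∈ B.powerset.filter (fun I => I.card = m), (1 : ℝ) * ∏ i ∈ I, x i := by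
  unfold es
  rw [Finset.sum_filter]
  simp

end Pool.Agent.Helper44

end
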