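import Mathlib

/-!
Parts of Helper99.LR.Abs, Helper99.LR.Main, Helper99.LR2.Abs, Helper99.LR2.Sum
-/

section

set_option autoImplicit false

open Finset

namespace Pool.Agent.Helper99.LR

/-- The mean difference of the sequence `p` over the block `n, ..., n + r`. -/
noncomputable def gm (p : ℕ → ℝ) (r n : ℕ) : ℝ := (p (n + r) - p n) / r

theorem gm_nonneg {p : ℕ → ℝ} (hp : Monotone p) (r n : ℕ) : 0 ≤ gm p r n := by
  unfold gm
  have := hp (Nat.le_add_right n r)
  apply div_nonneg (by linarith) (Nat.cast_nonneg _)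

theorem gm_mul (p : ℕ → ℝ) {b r : ℕ} (hb : 0 < b) (hr : 0 < r) (n : ℕ) :
    gm p (b * r) n = (∑ j ∈ range b, gm p r (n + j * r)) / b := by
  have hb0 : (b : ℝ) ≠ 0 := by exact_mod_cast hb.ne'
  have hr0 : (r : ℝ) ≠ 0 := by exact_mod_cast hr.ne'
  have h1 : ∑ j ∈ range b, gm p r (n + j * r) = (p (n + b * r) - p n) / r := by
    unfold gm
    rw [← Finset.sum_div]
    congr 1
    have h2 := Finset.sum_range_sub (fun j => p (n + j * r)) b
    simp only [zero_mul, add_zero] at h2
    rw [← h2]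
    apply Finset.sum_congr rfl
    intro j _
    congr 2
    ring
  rw [h1]
  unfold gm
  push_cast
  field_simp

end Pool.Agent.Helper99.LR

end

section

set_option autoImplicit false

open Finset Real Filter

namespace Pool.Agent.Helper99.LR

/-- The sequence of the primes (counted from `0`), as real numbers. -/
noncomputable def pr (n : ℕ) : ℝ := (Nat.nth Nat.Prime n : ℝ)

theorem pr_lt {m n : ℕ} (h : m < n) : Nat.nth Nat.Prime m < Nat.nth Nat.Prime n :=
  Nat.nth_strictMono Nat.infinite_setOfPred_prime h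

end Pool.Agent.Helper99.LR

end

section

set_option autoImplicit false

open Finset

namespace Pool.Agent.Helper99.LR2

open Pool.Agent.Helper99.LR (gm gm_nonneg gm_mul)

/-- The potential. -/
noncomputable def lph (K t : ℝ) : ℝ := Real.log (1 + t / K)

theorem lph_nonneg {K t : ℝ} (hK : 0 < K) (ht : 0 ≤ t) : 0 ≤ lph K t := by
  unfold lph
  apply Real.log_nonneg
  have : 0 ≤ t / K := by (clear * - ht hK; positivity)
  linarith

theorem lph_eq {K t : ℝ} (hK : 0 < K) (ht : 0 ≤ t) : lph K t = Real.log (K + t) - Real.log K := by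
  unfold lph
  rw [← Real.log_div (by (clear * - hK ht; positivity)) hK.ne']
  congr 1
  (clear * - hK ht; field_simp)

/-- The tangent inequality. -/
theorem lph_le {K t a : ℝ} (hK : 0 < K) (ht : 0 ≤ t) (ha : 0 ≤ a) :
    lph K t ≤ lph K a + (t - a) / (K + a) := by
  rw [lph_eq hK ht, lph_eq hK ha]
  have h1 : Real.log (K + t) - Real.log (K + a) = Real.log ((K + t) / (K + a)) := by
    rw [Real.log_div (by positivity) (by (clear * - hK ha; positivity))]
  have h2 := Real.log_le_sub_one_of_pos (show 0 < (K + t) / (K + a) by (clear * - hK ht ha; positivity))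
  have h3 : (K + t) / (K + a) - 1 = (t - a) / (K + a) := by
    field_simp
    ring
  (clear * - h1 h2 h3; linarith)

theorem psi_ge {y η : ℝ} (hy : 0 < y) (hη : 0 ≤ η) (hη2 : η ≤ 1 / 2) (h : η ≤ |y - 1|) :
    η ^ 2 / 5 ≤ y - 1 - Real.log y := by
  set s : ℝ := Real.sqrt y with hs
  have hs0 : 0 < s := Real.sqrt_pos.mpr hy
  have hsy : y = s ^ 2 := (Real.sq_sqrt hy.le).symm
  have h1 : Real.log y ≤ 2 * (s - 1) := by
    rw [hsy, Real.log_pow]
    have := Real.log_le_sub_one_of_pos hs0
    push_cast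
    (clear * - this; linarith)
  have h2 : y - 1 - 2 * (s - 1) = (s - 1) ^ 2 := by rw [hsy]; ring
  have h3 : η ^ 2 / 5 ≤ (s - 1) ^ 2 := by
    by_contra hc
    push Not at hc
    set d : ℝ := |s - 1| with hd
    have hd0 : 0 ≤ d := abs_nonneg _
    have hd2 : d ^ 2 = (s - 1) ^ 2 := sq_abs _
    have h4 : d < 9 / 20 * η := by
      by_contra hcc
      push Not at hcc
      have : (9 / 20 * η) ^ 2 ≤ d ^ 2 := pow_le_pow_left₀ (by (clear * - hη; positivity)) hcc 2
      (clear * - hc hd2 this; nlinarith)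
    have h5 : |y - 1| = d * (s + 1) := by
      have : y - 1 = (s - 1) * (s + 1) := by rw [hsy]; ring
      rw [this, abs_mul, abs_of_pos (show (0 : ℝ) < s + 1 by (clear * - hs0; linarith))]
    have h6 : s - 1 ≤ d := le_abs_self _
    have h7 : d * (s + 1) ≤ d * (2 + d) := mul_le_mul_of_nonneg_left (by (clear * - h6; linarith)) hd0
    (clear * - h hc hd2 h4 h5 h7 hη hη2; nlinarith)
  (clear * - hsy h1 h3; linarith)

/-- The defect at scale `r` (factor `b`) at the place `n`. -/
noncomputable def Dl (p : ℕ → ℝ) (K : ℝ) (b r n : ℕ) : ℝ :=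
  lph K (gm p (b * r) n) - (∑ j ∈ range b, lph K (gm p r (n + j * r))) / b

theorem Dl_eq {p : ℕ → ℝ} (hp : Monotone p) {K : ℝ} (hK : 0 < K) {b r : ℕ} (hb : 0 < b)
    (hr : 0 < r) (n : ℕ) : Dl p K b r n =
      (∑ j ∈ range b, ((K + gm p r (n + j * r)) / (K + gm p (b * r) n) - 1 -
        Real.log ((K + gm p r (n + j * r)) / (K + gm p (b * r) n)))) / b := by
  have hb0 : (b : ℝ) ≠ 0 := by exact_mod_cast hb.ne'
  set m : ℝ := gm p (b * r) n with hm
  have hm0 : 0 ≤ m := gm_nonneg hp _ _
  have hmK : K + m ≠ 0 := by (clear * - hK hm0; positivity)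
  have h0 : ∑ j ∈ range b, (gm p r (n + j * r) - m) = 0 := by
    rw [Finset.sum_sub_distrib, Finset.sum_const, Finset.card_range, nsmul_eq_mul, hm,
      gm_mul p hb hr n]
    field_simp
    ring
  have h1 : ∀ j ∈ range b, (K + gm p r (n + j * r)) / (K + m) - 1 -
      Real.log ((K + gm p r (n + j * r)) / (K + m)) =
      (gm p r (n + j * r) - m) * (K + m)⁻¹ + (lph K m - lph K (gm p r (n + j * r))) := by
    intro j _
    have h2 := gm_nonneg hp r (n + j * r)
    rw [lph_eq hK hm0, lph_eq hK h2, Real.log_div (by (clear * - hK h2; positivity)) hmK]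
    field_simp
    ring
  rw [Finset.sum_congr rfl h1, Finset.sum_add_distrib, ← Finset.sum_mul, h0, zero_mul, zero_add,
    Finset.sum_sub_distrib, Finset.sum_const, Finset.card_range, nsmul_eq_mul, sub_div,
    mul_div_assoc, mul_div_cancel₀ _ hb0]
  rfl

theorem term_nonneg {x : ℝ} (hx : 0 < x) : 0 ≤ x - 1 - Real.log x := by
  have := Real.log_le_sub_one_of_pos hx
  (clear * - this; linarith)

theorem Dl_nonneg {p : ℕ → ℝ} (hp : Monotone p) {K : ℝ} (hK : 0 < K) {b r : ℕ} (hb : 0 < b)
    (hr : 0 < r) (n : ℕ) : 0 ≤ Dl p K b r n := by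
  rw [Dl_eq hp hK hb hr]
  apply div_nonneg _ (Nat.cast_nonneg _)
  apply Finset.sum_nonneg
  intro j _
  have h1 := gm_nonneg hp r (n + j * r)
  have h2 := gm_nonneg hp (b * r) n
  exact term_nonneg (by (clear * - hK h1 h2; positivity))

/-- Places at which the `b` means are not `ε`-close have a large defect. -/
theorem Dl_large {p : ℕ → ℝ} (hp : Monotone p) {K ε : ℝ} (hK : 0 < K) (hε : 0 ≤ ε) (hε1 : ε ≤ 1)
    {b r : ℕ} (hb : 0 < b) (hr : 0 < r) (n : ℕ) (h1 : K ≤ gm p (b * r) n)
    {j : ℕ} (hj : j < b) (h3 : ε * gm p (b * r) n < |gm p r (n + j * r) - gm p (b * r) n|) :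
    ε ^ 2 / (20 * b) ≤ Dl p K b r n := by
  have hb0 : (0 : ℝ) < b := by exact_mod_cast hb
  set m : ℝ := gm p (b * r) n with hm
  have hm0 : 0 < m := by (clear * - hK h1; linarith)
  have hg := gm_nonneg hp r (n + j * r)
  rw [Dl_eq hp hK hb hr, ← hm]
  have h4 : (ε / 2) ^ 2 / 5 ≤ (K + gm p r (n + j * r)) / (K + m) - 1 -
      Real.log ((K + gm p r (n + j * r)) / (K + m)) := by
    apply psi_ge (by (clear * - hK hg hm0; positivity)) (by linarith) (by (clear * - hε1; linarith))
    have h5 : (K + gm p r (n + j * r)) / (K + m) - 1 = (gm p r (n + j * r) - m) / (K + m) := by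
      field_simp
      ring
    rw [h5, abs_div, abs_of_pos (show (0 : ℝ) < K + m by positivity), le_div_iff₀ (by positivity)]
    have h6 : ε / 2 * (K + m) ≤ ε * m := by (clear * - hε h1; nlinarith)
    (clear * - h3 h6; linarith)
  have h7 : (K + gm p r (n + j * r)) / (K + m) - 1 -
      Real.log ((K + gm p r (n + j * r)) / (K + m)) ≤
      ∑ i ∈ range b, ((K + gm p r (n + i * r)) / (K + m) - 1 -
        Real.log ((K + gm p r (n + i * r)) / (K + m))) := by
    apply Finset.single_le_sum (f := fun i => (K + gm p r (n + i * r)) / (K + m) - 1 -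
        Real.log ((K + gm p r (n + i * r)) / (K + m))) _ (Finset.mem_range.mpr hj)
    intro i _
    have := gm_nonneg hp r (n + i * r)
    exact term_nonneg (by (clear * - hK this hm0; positivity))
  have h8 : ε ^ 2 / (20 * b) = (ε / 2) ^ 2 / 5 / b := by
    field_simp
    ring
  rw [h8]
  exact div_le_div_of_nonneg_right (h4.trans h7) hb0.le

/-- The total of the means over an initial segment. -/
theorem sum_gm_le {p : ℕ → ℝ} (hp : Monotone p) {r : ℕ} (hr : 0 < r) (N : ℕ) :
    ∑ n ∈ range N, gm p r n ≤ p (N + r) - p 0 := by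
  have hr0 : (0 : ℝ) < r := by exact_mod_cast hr
  have h2 : ∑ n ∈ range N, gm p r n = (∑ j ∈ range r, (p (N + j) - p j)) / r := by
    unfold gm
    rw [← Finset.sum_div]
    congr 1
    have h3 : ∀ n ∈ range N, p (n + r) - p n = ∑ j ∈ range r, (p (n + 1 + j) - p (n + j)) := by
      intro n _
      have h4 := Finset.sum_range_sub (fun j => p (n + j)) r
      simp only [add_zero] at h4
      rw [← h4]
      apply Finset.sum_congr rfl
      intro j _
      congr 2
      ring
    rw [Finset.sum_congr rfl h3, Finset.sum_comm]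
    apply Finset.sum_congr rfl
    intro j _
    have h4 := Finset.sum_range_sub (fun n => p (n + j)) N
    simp only [zero_add] at h4
    rw [← h4]
  have h3 : ∑ j ∈ range r, (p (N + j) - p j) ≤ r * (p (N + r) - p 0) := by
    calc _ ≤ ∑ j ∈ range r, (p (N + r) - p 0) := by
          apply Finset.sum_le_sum
          intro j hj
          rw [Finset.mem_range] at hj
          have h4 := hp (show N + j ≤ N + r by omega)
          have h5 := hp (Nat.zero_le j)
          (clear * - h4 h5; linarith)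
      _ = _ := by rw [Finset.sum_const, Finset.card_range, nsmul_eq_mul]
  rw [h2, div_le_iff₀ hr0]
  (clear * - h3; linarith)

/-- The total potential over an initial segment, by Jensen's inequality. -/
theorem sum_lph_le {p : ℕ → ℝ} (hp : Monotone p) {K : ℝ} (hK : 0 < K) {r : ℕ} (hr : 0 < r) (N : ℕ)
    {a : ℝ} (ha : 0 ≤ a) (hlen : p (N + r) - p 0 ≤ N * a) :
    ∑ n ∈ range N, lph K (gm p r n) ≤ N * lph K a := by
  have h1 : ∀ n ∈ range N, lph K (gm p r n) ≤ lph K a + (gm p r n - a) / (K + a) :=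
    fun n _ => lph_le hK (gm_nonneg hp r n) ha
  have h2 := Finset.sum_le_sum h1
  rw [Finset.sum_add_distrib, ← Finset.sum_div, Finset.sum_sub_distrib, Finset.sum_const,
    Finset.sum_const, Finset.card_range, nsmul_eq_mul, nsmul_eq_mul] at h2
  have h3 := sum_gm_le hp hr N
  have h4 : (∑ n ∈ range N, gm p r n - N * a) / (K + a) ≤ 0 := by
    apply div_nonpos_of_nonpos_of_nonneg (by (clear * - hlen h3; linarith)) (by (clear * - hK ha; positivity))
  linarith

theorem shift_sum' (f : ℕ → ℝ) (hf0 : ∀ n, 0 ≤ f n) (N s : ℕ) :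
    ∑ n ∈ range N, f n - ∑ n ∈ range s, f n ≤ ∑ n ∈ range N, f (n + s) := by
  have h1 : ∑ n ∈ range (N + s), f n = ∑ n ∈ range s, f n + ∑ n ∈ range N, f (n + s) := by
    rw [add_comm N s, Finset.sum_range_add]
    congr 1
    apply Finset.sum_congr rfl
    intro n _
    rw [add_comm]
  have h2 : ∑ n ∈ range N, f n ≤ ∑ n ∈ range (N + s), f n := by
    apply Finset.sum_le_sum_of_subset_of_nonneg
    · apply Finset.range_subset_range.mpr; omega
    · intro n _ _; exact hf0 n
  linarith

/-- The total defect at one scale, with the boundary term. -/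
theorem sum_Dl_le {p : ℕ → ℝ} (hp : Monotone p) {K : ℝ} (hK : 0 < K) {b r : ℕ} (hb : 0 < b)
    (N : ℕ) : ∑ n ∈ range N, Dl p K b r n ≤
      ∑ n ∈ range N, lph K (gm p (b * r) n) - ∑ n ∈ range N, lph K (gm p r n) +
        ∑ n ∈ range (b * r), lph K (gm p r n) := by
  have hb0 : (0 : ℝ) < b := by exact_mod_cast hb
  unfold Dl
  rw [Finset.sum_sub_distrib, ← Finset.sum_div, Finset.sum_comm]
  have h1 : ∀ j ∈ range b, ∑ n ∈ range N, lph K (gm p r n) -
      ∑ n ∈ range (b * r), lph K (gm p r n) ≤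
      ∑ n ∈ range N, lph K (gm p r (n + j * r)) := by
    intro j hj
    have h2 := shift_sum' (fun n => lph K (gm p r n)) (fun n => lph_nonneg hK (gm_nonneg hp _ _))
      N (j * r)
    have h3 : ∑ n ∈ range (j * r), lph K (gm p r n) ≤ ∑ n ∈ range (b * r), lph K (gm p r n) := by
      apply Finset.sum_le_sum_of_subset_of_nonneg
      · apply Finset.range_subset_range.mpr
        rw [Finset.mem_range] at hj
        exact Nat.mul_le_mul_right _ hj.le
      · intro n _ _
        exact lph_nonneg hK (gm_nonneg hp _ _)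
    (clear * - h2 h3; linarith)
  have h4 := Finset.sum_le_sum h1
  rw [Finset.sum_const, Finset.card_range, nsmul_eq_mul] at h4
  have h5 : ∑ n ∈ range N, lph K (gm p r n) - ∑ n ∈ range (b * r), lph K (gm p r n) ≤
      (∑ j ∈ range b, ∑ n ∈ range N, lph K (gm p r (n + j * r))) / b := by
    rw [le_div_iff₀ hb0]
    (clear * - h4; linarith)
  (clear * - h5; linarith)

/-- The potentials at two neighbouring scales. -/
theorem lph_near {p : ℕ → ℝ} (hp : Monotone p) {K : ℝ} (hK : 0 < K) {m j : ℕ} (hm : 0 < m)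
    (n : ℕ) : lph K (gm p m n) ≤ lph K (gm p (m + j) n) + (j : ℝ) / m := by
  have hm0 : (0 : ℝ) < m := by exact_mod_cast hm
  have h1 := gm_nonneg hp m n
  have h2 := gm_nonneg hp (m + j) n
  have h3 : gm p m n * m ≤ gm p (m + j) n * ((m + j : ℕ) : ℝ) := by
    unfold gm
    rw [div_mul_cancel₀ _ hm0.ne', div_mul_cancel₀ _ (by (clear * - hm; positivity))]
    have := hp (show n + m ≤ n + (m + j) by omega)
    (clear * - this; linarith)
  rw [lph_eq hK h1, lph_eq hK h2]
  have h4 : K + gm p m n ≤ (K + gm p (m + j) n) * (1 + (j : ℝ) / m) := by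
    have h5 : gm p m n ≤ gm p (m + j) n * (1 + (j : ℝ) / m) := by
      have h6 : gm p (m + j) n * (1 + (j : ℝ) / m) = gm p (m + j) n * ((m + j : ℕ) : ℝ) / m := by
        push_cast
        (clear * - hm; field_simp)
      rw [h6, le_div_iff₀ hm0]
      exact h3
    have h7 : 0 ≤ K * ((j : ℝ) / m) := by (clear * - hK hm; positivity)
    (clear * - h5 h7; nlinarith)
  have h8 : Real.log (K + gm p m n) ≤
      Real.log (K + gm p (m + j) n) + Real.log (1 + (j : ℝ) / m) := by
    rw [← Real.log_mul (by positivity) (by (clear * - hm; positivity))]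
    exact Real.log_le_log (by positivity) h4
  have h9 : Real.log (1 + (j : ℝ) / m) ≤ (j : ℝ) / m := by
    have := Real.log_le_sub_one_of_pos (show 0 < 1 + (j : ℝ) / m by positivity)
    linarith
  (clear * - h8 h9; linarith)

end Pool.Agent.Helper99.LR2

end

section

set_option autoImplicit false

open Finset

namespace Pool.Agent.Helper99.LR2

theorem sum_sq_le (J : ℕ) : ∑ i ∈ range J, 1 / ((i : ℝ) + 1) ^ 2 ≤ 2 := by
  have h : ∀ J : ℕ, ∑ i ∈ range (J + 1), 1 / ((i : ℝ) + 1) ^ 2 ≤ 2 - 1 / ((J : ℝ) + 1) := by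
    intro J
    induction J with
    | zero => norm_num
    | succ J ih =>
      rw [Finset.sum_range_succ]
      have h1 : (0 : ℝ) < (J : ℝ) + 1 := by (clear * -; positivity)
      have h2 : 1 / (((J + 1 : ℕ) : ℝ) + 1) ^ 2 ≤
          1 / ((J : ℝ) + 1) - 1 / (((J + 1 : ℕ) : ℝ) + 1) := by
        push_cast
        rw [div_sub_div _ _ (by (clear * -; positivity)) (by positivity), div_le_div_iff₀ (by positivity)
          (by positivity)]
        (clear * -; nlinarith)
      linarith
  rcases Nat.eq_zero_or_pos J with h0 | h0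
  · rw [h0]; norm_num
  · obtain ⟨J', rfl⟩ := Nat.exists_eq_succ_of_ne_zero h0.ne'
    have h1 := h J'
    have h2 : (0 : ℝ) ≤ 1 / ((J' : ℝ) + 1) := by (clear * -; positivity)
    rw [Nat.succ_eq_add_one]
    (clear * - h1 h2; linarith)

/-- The logarithmic size of a block. -/
theorem sum_block_le {a c : ℕ} (ha : 0 < a) {t : ℝ} (hc : (c : ℝ) ≤ t * a) (hac : a ≤ c) :
    ∑ m ∈ Ico a c, 1 / (m : ℝ) ≤ 1 + Real.log t := by
  have ha0 : (0 : ℝ) < a := by exact_mod_cast ha
  have hc0 : (0 : ℝ) < c := by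
    have : 0 < c := by omega
    exact_mod_cast this
  have h1 : ∀ c : ℕ, a ≤ c → ∑ m ∈ Ico a c, 1 / (m : ℝ) =
      ((harmonic (c - 1) : ℚ) : ℝ) - ((harmonic (a - 1) : ℚ) : ℝ) := by
    intro c hc
    induction c, hc using Nat.le_induction with
    | base => simp
    | succ c hc ih =>
      rw [Finset.sum_Ico_succ_top hc, ih]
      have h2 : c + 1 - 1 = (c - 1) + 1 := by omega
      rw [h2, harmonic_succ]
      have h3 : c - 1 + 1 = c := by omega
      rw [h3]
      push_cast
      ring
  rw [h1 c hac]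
  have h2 := log_add_one_le_harmonic (a - 1)
  have h3 := harmonic_le_one_add_log (c - 1)
  have h4 : a - 1 + 1 = a := by omega
  have h2' : Real.log (a : ℝ) ≤ ((harmonic (a - 1) : ℚ) : ℝ) := by
    rw [h4] at h2
    exact h2
  have h6 : Real.log ((c - 1 : ℕ) : ℝ) ≤ Real.log c := by
    rcases Nat.eq_zero_or_pos (c - 1) with h | h
    · rw [h]
      simp only [Nat.cast_zero, Real.log_zero]
      apply Real.log_nonneg
      have : 1 ≤ c := by omega
      exact_mod_cast this
    · apply Real.log_le_log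
      · exact_mod_cast h
      · exact_mod_cast Nat.sub_le c 1
  have h7 : Real.log c ≤ Real.log t + Real.log a := by
    have ht : 0 < t := by
      by_contra hcc
      push Not at hcc
      (clear * - hc hc0 hcc; nlinarith)
    rw [← Real.log_mul ht.ne' ha0.ne']
    exact Real.log_le_log hc0 hc
  (clear * - h3 h2' h6 h7; linarith)

/-- The weighted sum of the increments of a function that is almost constant between neighbouring
scales. -/
theorem scale_sum {F : ℕ → ℝ} {A Λ : ℝ} {M : ℕ} (hA : 0 ≤ A) (hΛ : 0 ≤ Λ)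
    (h0 : ∀ m, 0 ≤ F m) (h1 : ∀ m, 0 < m → m ≤ M → F m ≤ Λ)
    (h2 : ∀ m j : ℕ, 0 < m → F m ≤ F (m + j) + A * ((j : ℝ) / m)) {b R : ℕ} (hb : 0 < b)
    (hM : b * (R + 1) ≤ M + 1) :
    ∑ i ∈ range R, (F (b * (i + 1)) - F (i + 1)) / ((i : ℝ) + 1) ≤
      Λ * (1 + Real.log b) + 2 * (Λ + A) := by
  have hb0 : (0 : ℝ) < b := by exact_mod_cast hb
  set G : ℕ → ℝ := fun m => F m / m with hG
  have hG0 : ∀ m, 0 ≤ G m := fun m => div_nonneg (h0 m) (Nat.cast_nonneg _)
  -- one scale
  have hstep : ∀ i < R, F (b * (i + 1)) / ((i : ℝ) + 1) ≤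
      ∑ j ∈ range b, G (b * (i + 1) + j) + (Λ + A) * (1 / ((i : ℝ) + 1) ^ 2) := by
    intro i hi
    have hr0 : (0 : ℝ) < (i : ℝ) + 1 := by (clear * -; positivity)
    have hterm : ∀ j ∈ range b, F (b * (i + 1)) / ((b : ℝ) * ((i : ℝ) + 1)) ≤
        G (b * (i + 1) + j) + (Λ + A) * (1 / ((i : ℝ) + 1) ^ 2) / b := by
      intro j hj
      rw [Finset.mem_range] at hj
      have hj0 : (0 : ℝ) ≤ j := Nat.cast_nonneg _
      have hjb : (j : ℝ) ≤ b := by exact_mod_cast hj.le
      have hpos : 0 < b * (i + 1) := by (clear * - hb; positivity)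
      have h3 := h2 (b * (i + 1)) j hpos
      have h4 : F (b * (i + 1) + j) ≤ Λ := by
        apply h1 _ (by omega)
        have : b * (i + 1) + b ≤ b * (R + 1) := by
          have h5 : b * (i + 1) + b = b * (i + 2) := by ring
          rw [h5]
          exact Nat.mul_le_mul_left _ (by omega)
        omega
      set x : ℝ := (b : ℝ) * ((i : ℝ) + 1) with hx
      have hx0 : 0 < x := by (clear * - hb; positivity)
      have hcast : ((b * (i + 1) : ℕ) : ℝ) = x := by rw [hx]; push_cast; ring
      rw [hcast] at h3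
      have hcast2 : ((b * (i + 1) + j : ℕ) : ℝ) = x + j := by
        push_cast
        rw [hx]
      have hGe : G (b * (i + 1) + j) = F (b * (i + 1) + j) / (x + j) := by
        rw [hG]
        simp only
        rw [hcast2]
      rw [hGe]
      have h5 : F (b * (i + 1)) / x ≤ (F (b * (i + 1) + j) + A * (j / x)) / x :=
        div_le_div_of_nonneg_right h3 hx0.le
      have h6 : (F (b * (i + 1) + j) + A * (j / x)) / x =
          F (b * (i + 1) + j) / (x + j) + F (b * (i + 1) + j) * (j / (x * (x + j))) +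
            A * (j / (x * x)) := by
        (clear * - hx0; field_simp)
      have h7 : (j : ℝ) / (x * x) ≤ 1 / ((i : ℝ) + 1) ^ 2 / b := by
        calc (j : ℝ) / (x * x) ≤ b / (x * x) := by (clear * - hjb hb; gcongr)
          _ = 1 / ((i : ℝ) + 1) ^ 2 / b := by
            rw [hx]
            (clear * - hb; field_simp)
      have h8 : (j : ℝ) / (x * (x + j)) ≤ 1 / ((i : ℝ) + 1) ^ 2 / b := by
        refine le_trans ?_ h7
        apply div_le_div_of_nonneg_left hj0 (by (clear * - hb; positivity))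
        (clear * - hx0; nlinarith)
      have h9 : F (b * (i + 1) + j) * (j / (x * (x + j))) ≤
          Λ * (1 / ((i : ℝ) + 1) ^ 2 / b) :=
        mul_le_mul h4 h8 (by (clear * - hb; positivity)) hΛ
      have h10 : A * (j / (x * x)) ≤ A * (1 / ((i : ℝ) + 1) ^ 2 / b) :=
        mul_le_mul_of_nonneg_left h7 hA
      calc F (b * (i + 1)) / x ≤ _ := h5
        _ = _ := h6
        _ ≤ F (b * (i + 1) + j) / (x + j) + Λ * (1 / ((i : ℝ) + 1) ^ 2 / b) +
            A * (1 / ((i : ℝ) + 1) ^ 2 / b) := by (clear * - h9 h10; linarith)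
        _ = _ := by ring
    have h3 := Finset.sum_le_sum hterm
    rw [Finset.sum_const, Finset.card_range, nsmul_eq_mul, Finset.sum_add_distrib,
      Finset.sum_const, Finset.card_range, nsmul_eq_mul] at h3
    have h4 : (b : ℝ) * (F (b * (i + 1)) / ((b : ℝ) * ((i : ℝ) + 1))) =
        F (b * (i + 1)) / ((i : ℝ) + 1) := by
      (clear * - hb; field_simp)
    have h5 : (b : ℝ) * ((Λ + A) * (1 / ((i : ℝ) + 1) ^ 2) / b) =
        (Λ + A) * (1 / ((i : ℝ) + 1) ^ 2) := by
      (clear * - hb; field_simp)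
    rw [h4, h5] at h3
    exact h3
  -- the double sum
  have hdouble : ∀ J : ℕ, ∑ i ∈ range J, ∑ j ∈ range b, G (b * (i + 1) + j) =
      ∑ m ∈ Ico b (b * (J + 1)), G m := by
    intro J
    induction J with
    | zero => simp
    | succ J ih =>
      rw [Finset.sum_range_succ, ih]
      have h3 : ∑ j ∈ range b, G (b * (J + 1) + j) =
          ∑ m ∈ Ico (b * (J + 1)) (b * (J + 1 + 1)), G m := by
        rw [Finset.sum_Ico_eq_sum_range]
        apply Finset.sum_congr _ (fun _ _ => rfl)
        congr 1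
        have : b * (J + 1 + 1) = b * (J + 1) + b := by ring
        omega
      rw [h3, Finset.sum_Ico_consecutive]
      · calc b = b * 1 := (mul_one b).symm
          _ ≤ _ := Nat.mul_le_mul_left _ (by omega)
      · exact Nat.mul_le_mul_left _ (by omega)
  have hG1 : ∑ i ∈ range R, F (i + 1) / ((i : ℝ) + 1) = ∑ m ∈ Ico 1 (R + 1), G m := by
    rw [Finset.sum_Ico_eq_sum_range]
    apply Finset.sum_congr (by simp)
    intro i _
    rw [hG]
    simp only
    rw [add_comm 1 i]
    push_cast
    rfl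
  have hsum1 : ∑ i ∈ range R, F (b * (i + 1)) / ((i : ℝ) + 1) ≤
      ∑ m ∈ Ico b (b * (R + 1)), G m + (Λ + A) * 2 := by
    calc _ ≤ ∑ i ∈ range R, (∑ j ∈ range b, G (b * (i + 1) + j) +
          (Λ + A) * (1 / ((i : ℝ) + 1) ^ 2)) :=
          Finset.sum_le_sum fun i hi => hstep i (Finset.mem_range.mp hi)
      _ = ∑ m ∈ Ico b (b * (R + 1)), G m +
          (Λ + A) * ∑ i ∈ range R, 1 / ((i : ℝ) + 1) ^ 2 := by
          rw [Finset.sum_add_distrib, hdouble, Finset.mul_sum]
      _ ≤ _ := by
          have := mul_le_mul_of_nonneg_left (sum_sq_le R) (show 0 ≤ Λ + A by (clear * - hA hΛ; linarith))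
          linarith
  have hbR : R + 1 ≤ b * (R + 1) := by
    calc R + 1 = 1 * (R + 1) := (one_mul _).symm
      _ ≤ _ := Nat.mul_le_mul_right _ hb
  have hsum2 : ∑ m ∈ Ico b (b * (R + 1)), G m ≤
      ∑ m ∈ Ico 1 (R + 1), G m + ∑ m ∈ Ico (R + 1) (b * (R + 1)), G m := by
    rw [Finset.sum_Ico_consecutive _ (by omega) hbR]
    apply Finset.sum_le_sum_of_subset_of_nonneg
    · apply Finset.Ico_subset_Ico (by omega) le_rfl
    · intro m _ _
      exact hG0 m
  have hsum3 : ∑ m ∈ Ico (R + 1) (b * (R + 1)), G m ≤ Λ * (1 + Real.log b) := by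
    have h3 : ∀ m ∈ Ico (R + 1) (b * (R + 1)), G m ≤ Λ * (1 / (m : ℝ)) := by
      intro m hm
      rw [Finset.mem_Ico] at hm
      have h4 : F m ≤ Λ := h1 m (by omega) (by omega)
      have h5 : (0 : ℝ) ≤ m := Nat.cast_nonneg _
      rw [hG]
      simp only
      calc F m / m ≤ Λ / m := div_le_div_of_nonneg_right h4 h5
        _ = _ := by ring
    refine (Finset.sum_le_sum h3).trans ?_
    rw [← Finset.mul_sum]
    apply mul_le_mul_of_nonneg_left _ hΛ
    apply sum_block_le (Nat.succ_pos R) _ hbR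
    push_cast
    exact le_rfl
  have hsplit : ∑ i ∈ range R, (F (b * (i + 1)) - F (i + 1)) / ((i : ℝ) + 1) =
      ∑ i ∈ range R, F (b * (i + 1)) / ((i : ℝ) + 1) - ∑ i ∈ range R, F (i + 1) / ((i : ℝ) + 1) := by
    rw [← Finset.sum_sub_distrib]
    apply Finset.sum_congr rfl
    intro i _
    rw [sub_div]
  rw [hsplit, hG1]
  (clear * - hsum1 hsum2 hsum3; linarith)

end Pool.Agent.Helper99.LR2

end
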