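import Mathlib

/-!
Parts of Helper66.PAP.Star, Helper66.PV.Defs, Helper66.PV.Rare, Helper66.PU.Defs, Helper66.PU.Bounds, Helper66.PAP.CardLe, Helper66.PV.Sum, Helper66.PV.Main, Helper66.PU.All0, Helper4.PU.SingCop, Helper13.PU.Classes, Helper45.Cheb, Helper13.PV.Ik
-/

namespace Pool.Agent.Helper1.MT
end Pool.Agent.Helper1.MT
namespace Pool.Agent.Helper66.PV
end Pool.Agent.Helper66.PV

section

set_option autoImplicit false

open Finset

namespace Pool.Agent.Helper66.PAP

open Pool.Agent.Helper1.MT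

section Abstract

variable {ι ι' κ : Type}

variable [Fintype ι] [Fintype ι'] [Fintype κ] [DecidableEq ι] [DecidableEq ι'] [DecidableEq κ]

omit [Fintype κ] [DecidableEq ι] [DecidableEq ι'] [DecidableEq κ] in
theorem prod_ext (e : Option ι' ≃ ι) (g : ι → ℝ) :
    ∏ p, g p = g (e none) * ∏ p : ι', g (e (some p)) := by
  rw [← e.prod_comp, Fintype.prod_option]

end Abstract

end Pool.Agent.Helper66.PAP

end

section

set_option autoImplicit false

open Finset

namespace Pool.Agent.Helper66.PV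

open Pool.Agent.Helper1.MT

/-- Admissible data: `h` are the shifts, all primes below `D0` and all prime factors of
differences of the shifts divide `W`. -/
structure SetN {κ : Type} (D0 : ℕ) (h : κ → ℕ) (W : ℕ) : Prop where
  W_pos : 0 < W
  small : ∀ p : ℕ, p.Prime → p < D0 → p ∣ W
  diff : ∀ i j, i ≠ j → ∀ p : ℕ, p.Prime → (p : ℤ) ∣ (h i : ℤ) - h j → p ∣ W
  inj : Function.Injective h

/-- The positions that may be prime. -/
def Ik (k : ℕ) : Finset (Fin k) := univ.filter (fun i : Fin k => ((i : ℕ) + k + 1).Prime)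

end Pool.Agent.Helper66.PV

end

section

set_option autoImplicit false

open Finset

namespace Pool.Agent.Helper66.PV

open Pool.Agent.Helper1.MT

/-- The number of the prime factors of `y` that do not divide `W`, with multiplicity. -/
def oW (W y : ℕ) : ℕ := ∑ p ∈ y.primeFactors.filter (fun p => ¬ p ∣ W), y.factorization p

end Pool.Agent.Helper66.PV

end

section

set_option autoImplicit false

open Finset

namespace Pool.Agent.Helper66.PU

open Pool.Agent.Helper1.MT

open Pool.Agent.Helper66.PV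

/-- PU-C: the modulus `W0 d'` and the classes. -/
def ClassesU : Prop :=
  ∀ k D0 : ℕ, 1 ≤ k → 2 * k < D0 → ∃ W0 : ℕ, 0 < W0 ∧ ∀ d : ℕ, 0 < d →
    ∃ (d' : ℕ) (V : Finset ℕ), d' ∣ d ∧ 0 < d' ∧ Nat.Coprime W0 d' ∧
      SetN D0 (fun i : Fin k => (i : ℕ) * d) (W0 * d') ∧
      (∀ p : ℕ, p.Prime → p ∣ W0 * d' → p < D0 ∨ p ∣ d) ∧
      V ⊆ range (W0 * d') ∧ d'.totient ≤ V.card ∧
      ∀ v ∈ V, (∀ i ∈ Ik k, Nat.Coprime (v + (i : ℕ) * d) (W0 * d')) ∧
        ∀ n : ℕ, 0 < n → n ≡ v [MOD (W0 * d')] → ∀ i : Fin k, ∃ g m : ℕ,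
          n + (i : ℕ) * d = g * m ∧ 0 < g ∧ g ≤ 2 * k ∧
          (∀ p : ℕ, p.Prime → p ∣ g → p ≤ k) ∧ Nat.Coprime m (W0 * d')

end Pool.Agent.Helper66.PU

end

section

set_option autoImplicit false

set_option linter.unusedSectionVars false

open Finset Filter

open scoped ArithmeticFunction.vonMangoldt

namespace Pool.Agent.Helper66.PU

open Pool.Agent.Helper1.MT

open Pool.Agent.Helper66.PV

theorem log_rpow_le {A s : ℝ} (hs : 0 < s) : ∀ᶠ x : ℝ in atTop, Real.log x ^ A ≤ x ^ s := by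
  have h1 := (isLittleO_log_rpow_rpow_atTop (s := s) A hs).bound (show (0 : ℝ) < 1 by norm_num)
  filter_upwards [h1, eventually_ge_atTop 1] with x hx hx1
  have h2 : 0 ≤ Real.log x := Real.log_nonneg hx1
  rw [Real.norm_of_nonneg (Real.rpow_nonneg h2 _),
    Real.norm_of_nonneg (Real.rpow_nonneg (by (clear * - hx1; linarith)) _), one_mul] at hx
  exact hx

end Pool.Agent.Helper66.PU

end

section

set_option autoImplicit false

open Finset Filter

open ArithmeticFunction (cardFactors)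

namespace Pool.Agent.Helper66.PAP

/-- Rough integers have few prime factors. -/
theorem cardFactors_le {y : ℕ} (hy : y ≠ 0) {w L : ℝ} (hw : 1 < w) (hL : (y : ℝ) ≤ w ^ L)
    (h : ∀ p : ℕ, p.Prime → p ∣ y → w < p) : (cardFactors y : ℝ) ≤ L := by
  classical
  rw [ArithmeticFunction.cardFactors_eq_sum_factorization, Finsupp.sum, Nat.support_factorization]
  have h3 : w ^ (((∑ p ∈ y.primeFactors, y.factorization p : ℕ) : ℝ)) ≤ w ^ L := by
    refine le_trans ?_ hL
    rw [Real.rpow_natCast, ← Finset.prod_pow_eq_pow_sum]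
    calc ∏ p ∈ y.primeFactors, w ^ y.factorization p ≤
        ∏ p ∈ y.primeFactors, ((p : ℝ)) ^ y.factorization p := by
          apply Finset.prod_le_prod
          · intro p _; positivity
          · intro p hp
            rw [Nat.mem_primeFactors] at hp
            exact pow_le_pow_left₀ (by linarith) (h p hp.1 hp.2.1).le _
      _ = (y : ℝ) := by
          have h4 := Nat.prod_factorization_pow_eq_self hy
          rw [Finsupp.prod, Nat.support_factorization] at h4
          exact_mod_cast h4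
  have h5 := (Real.rpow_le_rpow_left_iff hw).mp h3
  exact_mod_cast h5

end Pool.Agent.Helper66.PAP

end

section

set_option autoImplicit false

open Finset Filter

namespace Pool.Agent.Helper66.PV

open Pool.Agent.Helper1.MT

/-- The number of the primes among the `n + h i`, `i ∈ I`. -/
def npI {κ : Type} (h : κ → ℕ) (I : Finset κ) (n : ℕ) : ℕ :=
  (I.filter (fun i => (n + h i).Prime)).card

end Pool.Agent.Helper66.PV

end

section

set_option autoImplicit false

open Finset Filter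

namespace Pool.Agent.Helper66.PV

open Pool.Agent.Helper1.MT

/-- The good `n` in the class: few prime factors outside `W`, all of them large, many primes. -/
def GoodN {k : ℕ} (h : Fin k → ℕ) (W : ℕ) (c δ : ℝ) (r n : ℕ) : Prop :=
  (∀ i, oW W (n + h i) ≤ r) ∧
    (∀ i, ∀ p : ℕ, p.Prime → p ∣ n + h i → ¬ p ∣ W → (n : ℝ) ^ δ < p) ∧
    c * Real.log k ≤ npI h (Ik k) n

end Pool.Agent.Helper66.PV

end

section

set_option autoImplicit false

open Finset Filter

open ArithmeticFunction (cardFactors)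

namespace Pool.Agent.Helper66.PU

open Pool.Agent.Helper1.MT

open Pool.Agent.Helper66.PV

open Pool.Agent.Helper66.PAP (cardFactors_le)

/-- The number of the prime factors of a product. -/
theorem cardFactors_mul_le {k W y g m : ℕ} (hk : 1 ≤ k) (hy : y = g * m) (hy0 : 0 < y)
    (hg : g ≤ 2 * k) (hm : Nat.Coprime m W) :
    cardFactors y ≤ oW W y + ⌈5 / 2 * Real.log (2 * k)⌉₊ := by
  classical
  have hg0 : g ≠ 0 := by rintro rfl; simp at hy; omega
  have hm0 : m ≠ 0 := by rintro rfl; simp at hy; omega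
  have hkr : (1 : ℝ) ≤ k := by exact_mod_cast hk
  rw [hy, ArithmeticFunction.cardFactors_mul hg0 hm0, ← hy, add_comm]
  apply add_le_add
  · rw [ArithmeticFunction.cardFactors_eq_sum_factorization, Finsupp.sum,
      Nat.support_factorization]
    unfold oW
    have h1 : m.primeFactors ⊆ y.primeFactors.filter (fun p => ¬ p ∣ W) := by
      intro p hp
      rw [Nat.mem_primeFactors] at hp
      rw [mem_filter, Nat.mem_primeFactors]
      refine ⟨⟨hp.1, hy ▸ Dvd.dvd.mul_left hp.2.1 g, by omega⟩, fun hpW => ?_⟩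
      have h2 : p ∣ Nat.gcd m W := Nat.dvd_gcd hp.2.1 hpW
      rw [hm] at h2
      exact hp.1.one_lt.ne' (Nat.dvd_one.1 h2)
    calc ∑ p ∈ m.primeFactors, m.factorization p ≤ ∑ p ∈ m.primeFactors, y.factorization p := by
          apply Finset.sum_le_sum
          intro p _
          rw [hy, Nat.factorization_mul hg0 hm0, Finsupp.add_apply]
          exact Nat.le_add_left _ _
      _ ≤ _ := Finset.sum_le_sum_of_subset h1
  · have h1 : (g : ℝ) ≤ (3 / 2 : ℝ) ^ (5 / 2 * Real.log (2 * k)) := by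
      have h2 : (g : ℝ) ≤ 2 * k := by exact_mod_cast hg
      refine h2.trans ?_
      have h3 : Real.exp (2 / 5) ≤ 3 / 2 := by
        have h4 : Real.exp (2 / 5) ^ 5 ≤ (3 / 2 : ℝ) ^ 5 := by
          rw [← Real.exp_nat_mul]
          have h5 : ((5 : ℕ) : ℝ) * (2 / 5) = 1 + 1 := by norm_num
          rw [h5, Real.exp_add]
          have h6 := Real.exp_one_lt_d9
          have h7 := Real.exp_pos 1
          (clear * - h6 h7; nlinarith)
        exact le_of_pow_le_pow_left₀ (by norm_num) (by norm_num) h4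
      have h4 : 2 / 5 ≤ Real.log (3 / 2) := by
        rw [Real.le_log_iff_exp_le (by norm_num)]
        exact h3
      have h5 : (0 : ℝ) ≤ Real.log (2 * k) := Real.log_nonneg (by (clear * - hkr; linarith))
      rw [← Real.log_le_log_iff (by positivity) (by positivity), Real.log_rpow (by norm_num)]
      (clear * - h4 h5; nlinarith)
    have h2 := cardFactors_le (y := g) hg0 (w := 3 / 2) (by norm_num) h1 (by
      intro p hp _
      have : (2 : ℝ) ≤ p := by exact_mod_cast hp.two_le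
      (clear * - this; linarith))
    exact_mod_cast h2.trans (Nat.le_ceil _)

end Pool.Agent.Helper66.PU

end

section

set_option autoImplicit false

open Finset

namespace Pool.Agent.Helper4.PU

/-- The singular factor of one integer. -/
noncomputable def gf (d m : ℕ) : ℝ :=
  ∏ p ∈ m.primeFactors.filter (fun p => ¬ p ∣ d), (1 + 1 / (p : ℝ))

theorem one_le_prodf (s : Finset ℕ) : (1 : ℝ) ≤ ∏ p ∈ s, (1 + 1 / (p : ℝ)) := by
  calc (1 : ℝ) = ∏ p ∈ s, (1 : ℝ) := by simp
    _ ≤ _ := Finset.prod_le_prod (fun _ _ => zero_le_one) (fun p _ => by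
      have : (0 : ℝ) ≤ 1 / p := by (clear * -; positivity)
      (clear * - this; linarith))

theorem one_le_gf (d m : ℕ) : 1 ≤ gf d m := one_le_prodf _

theorem gf_mul_le (d : ℕ) {a b : ℕ} (ha : a ≠ 0) (hb : b ≠ 0) :
    gf d (a * b) ≤ gf d a * gf d b := by
  unfold gf
  rw [Nat.primeFactors_mul ha hb, Finset.filter_union, ← Finset.prod_union_inter]
  exact le_mul_of_one_le_right (zero_le_one.trans (one_le_prodf _)) (one_le_prodf _)

theorem gf_prod_le {ι : Type} [DecidableEq ι] (d : ℕ) (s : Finset ι) (x : ι → ℕ)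
    (hx : ∀ i ∈ s, x i ≠ 0) : gf d (∏ i ∈ s, x i) ≤ ∏ i ∈ s, gf d (x i) := by
  induction s using Finset.induction_on with
  | empty => simp [gf]
  | insert a s ha ih =>
    rw [Finset.prod_insert ha, Finset.prod_insert ha]
    have h1 : ∀ i ∈ s, x i ≠ 0 := fun i hi => hx i (Finset.mem_insert_of_mem hi)
    have h2 : ∏ i ∈ s, x i ≠ 0 := Finset.prod_ne_zero_iff.mpr h1
    refine (gf_mul_le d (hx a (Finset.mem_insert_self a s)) h2).trans ?_
    exact mul_le_mul_of_nonneg_left (ih h1) (zero_le_one.trans (one_le_gf d _))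

theorem one_add_pow_le (x : ℝ) (hx : 0 ≤ x) (hx1 : x ≤ 1) (k : ℕ) :
    (1 + x) ^ k ≤ 1 + (2 ^ k - 1) * x := by
  induction k with
  | zero => simp
  | succ k ih =>
    have h1 : (1 : ℝ) ≤ 2 ^ k := one_le_pow₀ (by norm_num)
    have h2 : x * x ≤ x := by nlinarith
    rw [pow_succ]
    calc (1 + x) ^ k * (1 + x) ≤ (1 + (2 ^ k - 1) * x) * (1 + x) :=
          mul_le_mul_of_nonneg_right ih (by (clear * - hx; linarith))
      _ ≤ 1 + (2 ^ (k + 1) - 1) * x := by
          rw [pow_succ]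
          (clear * - h2 h1; nlinarith [mul_le_mul_of_nonneg_left h2 (by linarith : (0 : ℝ) ≤ 2 ^ k - 1)])

/-- The weights. -/
noncomputable def wt (k e : ℕ) : ℝ := 2 ^ (k * e.primeFactors.card) / (e : ℝ)

theorem wt_nonneg (k e : ℕ) : 0 ≤ wt k e := by
  unfold wt
  (clear * -; positivity)

theorem gf_pow_le (k d m N : ℕ) (hm : m ≠ 0) (hmN : m ≤ N) :
    gf d m ^ k ≤ ∑ e ∈ (Finset.Icc 1 N).filter (fun e => Nat.Coprime e d),
      if e ∣ m then wt k e else 0 := by
  classical
  set F := m.primeFactors.filter (fun p => ¬ p ∣ d) with hF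
  have hFp : ∀ A ∈ F.powerset, ∀ p ∈ A, p.Prime := by
    intro A hA p hp
    have h1 := Finset.mem_powerset.mp hA hp
    rw [hF, Finset.mem_filter] at h1
    exact Nat.prime_of_mem_primeFactors h1.1
  have hpf : ∀ A ∈ F.powerset, (∏ p ∈ A, p).primeFactors = A :=
    fun A hA => Nat.primeFactors_prod (hFp A hA)
  have hinj : Set.InjOn (fun A : Finset ℕ => ∏ p ∈ A, p) (F.powerset : Set (Finset ℕ)) := by
    intro A hA B hB hAB
    rw [Finset.mem_coe] at hA hB
    simp only at hAB
    rw [← hpf A hA, ← hpf B hB, hAB]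
  calc gf d m ^ k = ∏ p ∈ F, (1 + 1 / (p : ℝ)) ^ k := by
        unfold gf
        rw [Finset.prod_pow]
    _ ≤ ∏ p ∈ F, (1 + 2 ^ k / (p : ℝ)) := by
        apply Finset.prod_le_prod
        · intro p _; (clear * -; positivity)
        · intro p hp
          rw [hF, Finset.mem_filter] at hp
          have hp1 : (1 : ℝ) ≤ p := by
            exact_mod_cast (Nat.prime_of_mem_primeFactors hp.1).one_lt.le
          have h3 : 1 / (p : ℝ) ≤ 1 := by
            rw [div_le_one (by (clear * - hp1; linarith))]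
            exact hp1
          have h0 : 0 ≤ 1 / (p : ℝ) := by (clear * - hp1; positivity)
          refine (one_add_pow_le _ h0 h3 k).trans ?_
          have h4 : (2 : ℝ) ^ k / (p : ℝ) = 2 ^ k * (1 / (p : ℝ)) := by ring
          rw [h4]
          (clear * - h0; linarith)
    _ = ∑ A ∈ F.powerset, ∏ p ∈ A, (2 ^ k / (p : ℝ)) := Finset.prod_one_add F
    _ = ∑ A ∈ F.powerset, wt k (∏ p ∈ A, p) := by
        apply Finset.sum_congr rfl
        intro A hA
        unfold wt
        rw [hpf A hA, Finset.prod_div_distrib, Finset.prod_const, ← pow_mul, Nat.cast_prod]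
    _ = ∑ e ∈ F.powerset.image (fun A => ∏ p ∈ A, p), wt k e := by
        rw [Finset.sum_image hinj]
    _ = ∑ e ∈ F.powerset.image (fun A => ∏ p ∈ A, p), if e ∣ m then wt k e else 0 := by
        apply Finset.sum_congr rfl
        intro e he
        obtain ⟨A, hA, rfl⟩ := Finset.mem_image.mp he
        rw [if_pos]
        have h5 : A ⊆ m.primeFactors :=
          (Finset.mem_powerset.mp hA).trans (Finset.filter_subset _ _)
        exact (Finset.prod_dvd_prod_of_subset _ _ _ h5).trans (Nat.prod_primeFactors_dvd m)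
    _ ≤ _ := by
        apply Finset.sum_le_sum_of_subset_of_nonneg
        · intro e he
          obtain ⟨A, hA, rfl⟩ := Finset.mem_image.mp he
          have h5 : A ⊆ m.primeFactors :=
            (Finset.mem_powerset.mp hA).trans (Finset.filter_subset _ _)
          have h6 : ∏ p ∈ A, p ∣ m :=
            (Finset.prod_dvd_prod_of_subset _ _ _ h5).trans (Nat.prod_primeFactors_dvd m)
          have h7 : 0 < ∏ p ∈ A, p := Finset.prod_pos fun p hp => (hFp A hA p hp).pos
          rw [Finset.mem_filter, Finset.mem_Icc]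
          refine ⟨⟨h7, (Nat.le_of_dvd (Nat.pos_of_ne_zero hm) h6).trans hmN⟩, ?_⟩
          refine Nat.Coprime.prod_left fun p hp => ?_
          have h8 := Finset.mem_powerset.mp hA hp
          rw [hF, Finset.mem_filter] at h8
          exact (Nat.Prime.coprime_iff_not_dvd (hFp A hA p hp)).mpr h8.2
        · intro e _ _
          split_ifs
          · exact wt_nonneg k e
          · exact le_refl _

noncomputable def Cst (k : ℕ) : ℝ := (2 ^ k) ^ (2 ^ (8 * k))

theorem Cst_pos (k : ℕ) : 0 < Cst k := by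
  unfold Cst
  positivity

/-- `2^(k ω(e)) ≤ C e^(1/8)`. -/
theorem two_pow_le (k e : ℕ) (he : 0 < e) :
    (2 : ℝ) ^ (k * e.primeFactors.card) ≤ Cst k * (e : ℝ) ^ (1 / 8 : ℝ) := by
  classical
  unfold Cst
  have h1 : (1 : ℝ) ≤ 2 ^ k := one_le_pow₀ (by norm_num)
  set S := e.primeFactors.filter (fun p => p < 2 ^ (8 * k)) with hS
  set L := e.primeFactors.filter (fun p => ¬ p < 2 ^ (8 * k)) with hL
  have hc : e.primeFactors.card = S.card + L.card :=
    (Finset.card_filter_add_card_filter_not (s := e.primeFactors)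
      (fun p => p < 2 ^ (8 * k))).symm
  have hSc : S.card ≤ 2 ^ (8 * k) := by
    calc S.card ≤ (range (2 ^ (8 * k))).card := by
          apply Finset.card_le_card
          intro p hp
          rw [hS, Finset.mem_filter] at hp
          exact Finset.mem_range.mpr hp.2
      _ = _ := Finset.card_range _
  have hLc : ((2 : ℝ) ^ k) ^ L.card ≤ (e : ℝ) ^ (1 / 8 : ℝ) := by
    calc ((2 : ℝ) ^ k) ^ L.card = ∏ p ∈ L, (2 : ℝ) ^ k := by rw [Finset.prod_const]
      _ ≤ ∏ p ∈ L, (p : ℝ) ^ (1 / 8 : ℝ) := by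
          apply Finset.prod_le_prod
          · intro p _; positivity
          · intro p hp
            rw [hL, Finset.mem_filter, not_lt] at hp
            have h2 : ((2 : ℝ) ^ (8 * k)) ≤ (p : ℝ) := by exact_mod_cast hp.2
            calc (2 : ℝ) ^ k = (((2 : ℝ) ^ k) ^ (8 : ℕ)) ^ (1 / 8 : ℝ) := by
                  rw [← Real.rpow_natCast (_ ^ k) 8, ← Real.rpow_mul (by positivity)]
                  norm_num
              _ ≤ (p : ℝ) ^ (1 / 8 : ℝ) := by
                  apply Real.rpow_le_rpow (by positivity) _ (by norm_num)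
                  rw [← pow_mul, mul_comm k 8]
                  exact h2
      _ = (∏ p ∈ L, (p : ℝ)) ^ (1 / 8 : ℝ) :=
          Real.finsetProd_rpow L _ (fun p _ => Nat.cast_nonneg p) _
      _ ≤ (e : ℝ) ^ (1 / 8 : ℝ) := by
          apply Real.rpow_le_rpow (Finset.prod_nonneg fun p _ => Nat.cast_nonneg p) _ (by norm_num)
          have h3 : ∏ p ∈ L, p ∣ e :=
            (Finset.prod_dvd_prod_of_subset _ _ _ (Finset.filter_subset _ _)).trans
              (Nat.prod_primeFactors_dvd e)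
          have h4 : ((∏ p ∈ L, p : ℕ) : ℝ) ≤ (e : ℝ) := by exact_mod_cast Nat.le_of_dvd he h3
          rwa [Nat.cast_prod] at h4
  rw [pow_mul, hc, pow_add]
  exact mul_le_mul (pow_le_pow_right₀ h1 hSc) hLc (by positivity) (by positivity)

theorem exists_two_pow (k : ℕ) : ∃ C : ℝ, 0 < C ∧ ∀ e : ℕ, 0 < e →
    (2 : ℝ) ^ (k * e.primeFactors.card) ≤ C * (e : ℝ) ^ (1 / 8 : ℝ) :=
  ⟨Cst k, Cst_pos k, two_pow_le k⟩

end Pool.Agent.Helper4.PU

end

section

set_option autoImplicit false

open Finset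

namespace Pool.Agent.Helper66.PU

open Pool.Agent.Helper1.MT

open Pool.Agent.Helper66.PV

theorem classesU : ClassesU := by
  classical
  intro k D0 hk hD0
  obtain ⟨E, hE⟩ : ∃ E, E = 2 * k + 1 := ⟨_, rfl⟩
  have hE0 : E ≠ 0 := by omega
  set S := (range D0).filter Nat.Prime with hS
  have hSprime : ∀ p ∈ S, p.Prime := fun p hp => (Finset.mem_filter.mp hp).2
  have hSlt : ∀ p ∈ S, p < D0 := fun p hp => Finset.mem_range.mp (Finset.mem_filter.mp hp).1
  have hSsmall : ∀ p : ℕ, p.Prime → p < D0 → p ∈ S := fun p hp hpD =>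
    Finset.mem_filter.mpr ⟨Finset.mem_range.mpr hpD, hp⟩
  have hppos : ∀ p ∈ S, 0 < p ^ E := fun p hp => pow_pos (hSprime p hp).pos E
  have hs0 : ∀ p ∈ S, (fun p : ℕ => p ^ E) p ≠ 0 := fun p hp => (hppos p hp).ne'
  have hpair : Set.Pairwise (S : Set ℕ) (Function.onFun Nat.Coprime (fun p : ℕ => p ^ E)) := by
    intro p hp q hq hpq
    exact Nat.Coprime.pow E E ((Nat.coprime_primes (hSprime p hp) (hSprime q hq)).mpr hpq)
  obtain ⟨W0, hW0⟩ : ∃ W0, W0 = ∏ p ∈ S, p ^ E := ⟨_, rfl⟩
  have hW0pos : 0 < W0 := by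
    rw [hW0]
    exact Finset.prod_pos fun p hp => hppos p hp
  have hEdvd : ∀ p ∈ S, p ^ E ∣ W0 := fun p hp => by
    rw [hW0]
    exact Finset.dvd_prod_of_mem (fun p : ℕ => p ^ E) hp
  have hWdvd : ∀ p ∈ S, p ∣ W0 := fun p hp => (dvd_pow_self p hE0).trans (hEdvd p hp)
  have hmemS : ∀ p : ℕ, p.Prime → p ∣ W0 → p ∈ S := by
    intro p hp hpW
    rw [hW0] at hpW
    obtain ⟨q, hq, hpq⟩ := (hp.prime.dvd_finsetProd_iff _).mp hpW
    have h1 : p ∣ q := hp.dvd_of_dvd_pow hpq
    have h2 : p = q := (Nat.prime_dvd_prime_iff_eq hp (hSprime q hq)).mp h1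
    rw [h2]
    exact hq
  refine ⟨W0, hW0pos, fun d hd => ?_⟩
  -- the large prime factors of `d`
  obtain ⟨d', hd'⟩ : ∃ d', d' = ∏ p ∈ d.primeFactors.filter (fun p => D0 ≤ p), p := ⟨_, rfl⟩
  have hd'd : d' ∣ d := by
    rw [hd']
    exact (Finset.prod_dvd_prod_of_subset _ _ _ (Finset.filter_subset _ _)).trans
      (Nat.prod_primeFactors_dvd d)
  have hd'pos : 0 < d' := Nat.pos_of_dvd_of_pos hd'd hd
  have hpd' : ∀ p : ℕ, p.Prime → p ∣ d' → D0 ≤ p ∧ p ∣ d := by
    intro p hp hpd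
    rw [hd'] at hpd
    obtain ⟨q, hq, hpq⟩ := (hp.prime.dvd_finsetProd_iff _).mp hpd
    rw [Finset.mem_filter, Nat.mem_primeFactors] at hq
    have h2 : p = q := (Nat.prime_dvd_prime_iff_eq hp hq.1.1).mp hpq
    rw [h2]
    exact ⟨hq.2, hq.1.2.1⟩
  have hpd'2 : ∀ p : ℕ, p.Prime → D0 ≤ p → p ∣ d → p ∣ d' := by
    intro p hp hpD hpd
    rw [hd']
    apply Finset.dvd_prod_of_mem
    rw [Finset.mem_filter, Nat.mem_primeFactors]
    exact ⟨⟨hp, hpd, hd.ne'⟩, hpD⟩
  have hcopW : Nat.Coprime W0 d' := by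
    apply Nat.coprime_of_dvd
    intro p hp hpW hpd
    have h1 := hSlt p (hmemS p hp hpW)
    have h2 := (hpd' p hp hpd).1
    omega
  -- the residue class modulo `W0`
  set res : ℕ → ℕ := fun p => if p ∣ d then 1 else (if p ≤ k then (k + 1) * d else d) with hres
  obtain ⟨a0, ha0⟩ := Nat.chineseRemainderOfFinset res (fun p : ℕ => p ^ E) S hs0 hpair
  have hcong : ∀ x : ℕ, x ≡ a0 [MOD W0] → ∀ y : ℕ, ∀ p ∈ S, x + y ≡ res p + y [MOD p ^ E] :=
    fun x hx y p hp => Nat.ModEq.add_right _ ((hx.of_dvd (hEdvd p hp)).trans (ha0 p hp))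
  have h2E : 2 * k < 2 ^ E := by
    have h1 : E < 2 ^ E := Nat.lt_two_pow_self
    omega
  -- primes which are large or divide `d` do not divide `x + i d`
  have hcop : ∀ x : ℕ, x ≡ a0 [MOD W0] → Nat.Coprime x d' → ∀ i : ℕ, i < k → ∀ p : ℕ, p.Prime →
      p ∣ W0 * d' → (k < p ∨ p ∣ d) → ¬ p ∣ x + i * d := by
    intro x hx hxd i hi p hpp hpW hpk hdvd
    rcases hpp.dvd_mul.mp hpW with hpW | hpd'1
    · have hp := hmemS p hpp hpW
      have hcE := hcong x hx (i * d) p hp
      have hcp : x + i * d ≡ res p + i * d [MOD p] := hcE.of_dvd (dvd_pow_self p hE0)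
      have hdvd1 : p ∣ res p + i * d := (Nat.ModEq.dvd_iff hcp dvd_rfl).mp hdvd
      by_cases hpd : p ∣ d
      · have h1 : res p = 1 := by simp only [hres]; rw [if_pos hpd]
        rw [h1] at hdvd1
        have h2 : p ∣ 1 := (Nat.dvd_add_left (Dvd.dvd.mul_left hpd i)).mp hdvd1
        exact hpp.one_lt.ne' (Nat.dvd_one.mp h2)
      · have hkp : k < p := hpk.resolve_right hpd
        have h1 : res p = d := by
          simp only [hres]
          rw [if_neg hpd, if_neg (by omega)]
        have h2 : res p + i * d = (i + 1) * d := by rw [h1]; ring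
        rw [h2] at hdvd1
        have h3 : p ∣ i + 1 := (hpp.dvd_mul.mp hdvd1).resolve_right hpd
        have h4 : p ≤ i + 1 := Nat.le_of_dvd (by omega) h3
        omega
    · obtain ⟨_, h2⟩ := hpd' p hpp hpd'1
      have h3 : p ∣ x := (Nat.dvd_add_left (Dvd.dvd.mul_left h2 i)).mp hdvd
      have h4 : p ∣ Nat.gcd x d' := Nat.dvd_gcd h3 hpd'1
      rw [hxd] at h4
      exact hpp.one_lt.ne' (Nat.dvd_one.mp h4)
  -- the small primes that do not divide `d`
  have hval : ∀ x : ℕ, x ≡ a0 [MOD W0] → ∀ i : ℕ, ∀ p : ℕ, p.Prime → p ≤ k → ¬ p ∣ d →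
      ∀ e ≤ E, p ^ e ∣ x + i * d → p ^ e ∣ i + k + 1 := by
    intro x hx i p hpp hpk hpd e he hdvd
    have hp := hSsmall p hpp (by omega)
    have hcE := hcong x hx (i * d) p hp
    have hce : x + i * d ≡ res p + i * d [MOD p ^ e] := hcE.of_dvd (pow_dvd_pow p he)
    have h1 : p ^ e ∣ res p + i * d := (Nat.ModEq.dvd_iff hce dvd_rfl).mp hdvd
    have h2 : res p = (k + 1) * d := by
      simp only [hres]
      rw [if_neg hpd, if_pos hpk]
    have h3 : res p + i * d = (i + k + 1) * d := by rw [h2]; ring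
    rw [h3] at h1
    exact (Nat.Coprime.pow_left e ((hpp.coprime_iff_not_dvd).mpr hpd)).dvd_of_dvd_mul_right h1
  have hnE : ∀ x : ℕ, x ≡ a0 [MOD W0] → ∀ i : ℕ, i < k → ∀ p : ℕ, p.Prime → p ≤ k →
      ¬ p ∣ d → ¬ p ^ E ∣ x + i * d := by
    intro x hx i hi p hpp hpk hpd hdvd
    have h1 := hval x hx i p hpp hpk hpd E le_rfl hdvd
    have h2 := Nat.le_of_dvd (by omega) h1
    have h3 : 2 ^ E ≤ p ^ E := Nat.pow_le_pow_left hpp.two_le E
    omega
  -- the classes
  set vv : ℕ → ℕ := fun u => (Nat.chineseRemainder hcopW a0 u : ℕ) with hvv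
  have hvv1 : ∀ u, vv u ≡ a0 [MOD W0] := fun u => (Nat.chineseRemainder hcopW a0 u).2.1
  have hvv2 : ∀ u, vv u ≡ u [MOD d'] := fun u => (Nat.chineseRemainder hcopW a0 u).2.2
  have hvvlt : ∀ u, vv u < W0 * d' := fun u =>
    Nat.chineseRemainder_lt_mul hcopW a0 u hW0pos.ne' hd'pos.ne'
  refine ⟨d', ((range d').filter (fun u => Nat.Coprime d' u)).image vv, hd'd, hd'pos, hcopW,
    ⟨Nat.mul_pos hW0pos hd'pos, ?_, ?_, ?_⟩, ?_, ?_, ?_, ?_⟩
  · intro p hp hpD
    exact Dvd.dvd.mul_right (hWdvd p (hSsmall p hp hpD)) _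
  · intro i j hij p hp hdvd
    have h1 : (((i : ℕ) * d : ℕ) : ℤ) - (((j : ℕ) * d : ℕ) : ℤ) =
        (((i : ℕ) : ℤ) - ((j : ℕ) : ℤ)) * (d : ℤ) := by push_cast; ring
    rw [h1] at hdvd
    have hpi : Prime (p : ℤ) := Nat.prime_iff_prime_int.mp hp
    rcases hpi.dvd_or_dvd hdvd with h2 | h2
    · have h3 : ((i : ℕ) : ℤ) - ((j : ℕ) : ℤ) ≠ 0 := by
        intro h
        apply hij
        ext
        omega
      have h4 := Int.le_of_dvd (abs_pos.mpr h3) ((dvd_abs _ _).mpr h2)
      have hi := i.2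
      have hj := j.2
      have h5 : |((i : ℕ) : ℤ) - ((j : ℕ) : ℤ)| ≤ k := by
        rw [abs_le]
        constructor <;> omega
      exact Dvd.dvd.mul_right (hWdvd p (hSsmall p hp (by omega))) _
    · have h3 : p ∣ d := by exact_mod_cast h2
      by_cases hpD : p < D0
      · exact Dvd.dvd.mul_right (hWdvd p (hSsmall p hp hpD)) _
      · exact Dvd.dvd.mul_left (hpd'2 p hp (by omega) h3) _
  · intro i j hij
    have h1 : (i : ℕ) * d = (j : ℕ) * d := hij
    exact Fin.ext (Nat.eq_of_mul_eq_mul_right hd h1)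
  · intro p hp hpW
    rcases hp.dvd_mul.mp hpW with h | h
    · exact Or.inl (hSlt p (hmemS p hp h))
    · exact Or.inr (hpd' p hp h).2
  · intro v hv
    rw [Finset.mem_image] at hv
    obtain ⟨u, _, rfl⟩ := hv
    exact Finset.mem_range.mpr (hvvlt u)
  · rw [Finset.card_image_of_injOn, Nat.totient_eq_card_coprime]
    intro u hu u' hu' huu
    rw [Finset.mem_coe, Finset.mem_filter, Finset.mem_range] at hu hu'
    have h1 : vv u = vv u' := huu
    have h2 : u ≡ u' [MOD d'] := by
      have h3 := (hvv2 u).symm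
      rw [h1] at h3
      exact h3.trans (hvv2 u')
    exact Nat.ModEq.eq_of_lt_of_lt h2 hu.1 hu'.1
  · intro v hv
    rw [Finset.mem_image] at hv
    obtain ⟨u, hu, rfl⟩ := hv
    rw [Finset.mem_filter] at hu
    have hx1 := hvv1 u
    have hx2 : Nat.Coprime (vv u) d' := by
      have h1 : Nat.gcd (vv u) d' = Nat.gcd u d' := (hvv2 u).gcd_eq
      unfold Nat.Coprime
      rw [h1]
      exact hu.2.symm
    refine ⟨?_, ?_⟩
    · intro i hi
      have hi1 : ((i : ℕ) + k + 1).Prime := (Finset.mem_filter.mp hi).2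
      apply Nat.Coprime.symm
      apply Nat.coprime_of_dvd
      intro p hpp hpW hpN
      by_cases hc : k < p ∨ p ∣ d
      · exact hcop _ hx1 hx2 i i.2 p hpp hpW hc hpN
      · push Not at hc
        have h1 := hval _ hx1 i p hpp hc.1 hc.2 1 (by omega) (by rw [pow_one]; exact hpN)
        rw [pow_one] at h1
        have h2 := (Nat.prime_dvd_prime_iff_eq hpp hi1).mp h1
        omega
    · intro n hn hnv i
      have hn1 : n ≡ a0 [MOD W0] := (hnv.of_dvd (dvd_mul_right W0 d')).trans hx1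
      have hn2 : Nat.Coprime n d' := by
        have h1 : Nat.gcd n d' = Nat.gcd (vv u) d' :=
          (hnv.of_dvd (dvd_mul_left d' W0)).gcd_eq
        unfold Nat.Coprime
        rw [h1]
        exact hx2
      have hi := i.2
      set N := n + (i : ℕ) * d with hN
      have hN0 : 0 < N := by omega
      set g := Nat.gcd N (W0 * d') with hg
      have hg0 : 0 < g := Nat.gcd_pos_of_pos_left _ hN0
      have hgN : g ∣ N := Nat.gcd_dvd_left _ _
      have hgW : g ∣ W0 * d' := Nat.gcd_dvd_right _ _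
      have hgp : ∀ p : ℕ, p.Prime → p ∣ g → p ≤ k ∧ ¬ p ∣ d := by
        intro p hpp hpg
        by_contra hcon
        have hc : k < p ∨ p ∣ d := by
          by_contra h
          push Not at h
          exact hcon h
        exact hcop n hn1 hn2 i hi p hpp (hpg.trans hgW) hc (hpg.trans hgN)
      have hgA : g ∣ (i : ℕ) + k + 1 := by
        rw [Nat.dvd_iff_prime_pow_dvd_dvd]
        intro p a hpp hpa
        rcases Nat.eq_zero_or_pos a with ha | ha
        · rw [ha, pow_zero]
          exact one_dvd _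
        · have hpg : p ∣ g := (dvd_pow_self p ha.ne').trans hpa
          obtain ⟨h1, h2⟩ := hgp p hpp hpg
          by_cases hae : a ≤ E
          · exact hval n hn1 i p hpp h1 h2 a hae (hpa.trans hgN)
          · exfalso
            exact hnE n hn1 i hi p hpp h1 h2
              (((pow_dvd_pow p (by omega)).trans hpa).trans hgN)
      obtain ⟨m, hm⟩ := hgN
      refine ⟨g, m, hm, hg0, ?_, fun p hpp hpg => (hgp p hpp hpg).1, ?_⟩
      · have := Nat.le_of_dvd (by omega) hgA
        omega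
      · apply Nat.Coprime.symm
        apply Nat.coprime_of_dvd
        intro p hpp hpW hpm
        have hpN : p ∣ N := by rw [hm]; exact Dvd.dvd.mul_left hpm _
        by_cases hc : k < p ∨ p ∣ d
        · exact hcop n hn1 hn2 i hi p hpp hpW hc hpN
        · push Not at hc
          have hpS : p ∈ S := hSsmall p hpp (by omega)
          obtain ⟨a, ha⟩ : ∃ a, a = g.factorization p := ⟨_, rfl⟩
          have h1 : p ^ a ∣ g := by rw [ha]; exact Nat.ordProj_dvd g p
          have h2 : ¬ p ^ (a + 1) ∣ g := by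
            rw [ha]
            exact Nat.pow_succ_factorization_not_dvd hg0.ne' hpp
          have h3 : p ^ (a + 1) ∣ N := by
            rw [hm, pow_succ]
            exact Nat.mul_dvd_mul h1 hpm
          by_cases hae : a + 1 ≤ E
          · apply h2
            rw [hg]
            exact Nat.dvd_gcd h3
              (((pow_dvd_pow p hae).trans (hEdvd p hpS)).trans (dvd_mul_right W0 d'))
          · exact hnE n hn1 i hi p hpp hc.1 hc.2 ((pow_dvd_pow p (by omega)).trans h3)

end Pool.Agent.Helper66.PU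

end

section

set_option autoImplicit false

namespace Pool.Agent.Helper45.Cheb

open Finset Real Nat ArithmeticFunction

/-- `log (N!)` as a sum over `Λ`. -/
theorem log_factorial_eq (N : ℕ) :
    Real.log (N ! : ℝ) = ∑ d ∈ Ioc 0 N, Λ d * ((N / d : ℕ) : ℝ) := by
  have h1 : Real.log (N ! : ℝ) = ∑ n ∈ Ioc 0 N, Real.log n := by
    induction N with
    | zero => simp
    | succ n ih =>
      rw [Nat.factorial_succ, Nat.cast_mul, Real.log_mul (by (clear * -; positivity)) (by (clear * -; positivity)), ih,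
        Finset.sum_Ioc_succ_top (by omega)]
      ring
  rw [h1]
  have h2 := sum_Ioc_mul_zeta_eq_sum (R := ℝ) Λ N
  rw [← h2]
  refine Finset.sum_congr rfl fun n hn => ?_
  rw [ArithmeticFunction.vonMangoldt_mul_zeta]
  rfl

/-- extension of the sum to a larger range -/
theorem log_factorial_eq' (N M k : ℕ) (hM : M = N / k) :
    Real.log (M ! : ℝ) = ∑ d ∈ Ioc 0 N, Λ d * ((N / d / k : ℕ) : ℝ) := by
  rw [log_factorial_eq, hM]
  have hle : N / k ≤ N := Nat.div_le_self _ _
  have hsub : Ioc 0 (N / k) ⊆ Ioc 0 N := Finset.Ioc_subset_Ioc_right hle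
  rw [← Finset.sum_subset hsub]
  · refine Finset.sum_congr rfl fun d hd => ?_
    rw [Nat.div_div_eq_div_mul, Nat.div_div_eq_div_mul, Nat.mul_comm]
  · intro d hd hnd
    simp only [mem_Ioc, not_and, not_le] at hd hnd
    have : N / d / k = 0 := by
      rw [Nat.div_div_eq_div_mul, Nat.mul_comm, ← Nat.div_div_eq_div_mul]
      exact Nat.div_eq_of_lt (hnd hd.1)
    rw [this]; simp

/-- The Chebyshev combination. -/
theorem comb_bounds (m : ℕ) :
    m + m / 30 ≤ 1 + m / 2 + m / 3 + m / 5 ∧ m / 2 + m / 3 + m / 5 ≤ m + m / 30 := by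
  omega

theorem comb_eq_one (m : ℕ) (h1 : 1 ≤ m) (h2 : m < 6) :
    m + m / 30 = 1 + m / 2 + m / 3 + m / 5 := by
  interval_cases m <;> norm_num

noncomputable def D (N : ℕ) : ℝ :=
  Real.log (N ! : ℝ) - Real.log ((N / 2)! : ℝ) - Real.log ((N / 3)! : ℝ)
    - Real.log ((N / 5)! : ℝ) + Real.log ((N / 30)! : ℝ)

theorem D_eq (N : ℕ) : D N = ∑ d ∈ Ioc 0 N, Λ d *
    (((N / d : ℕ) : ℝ) - ((N / d / 2 : ℕ) : ℝ) - ((N / d / 3 : ℕ) : ℝ) - ((N / d / 5 : ℕ) : ℝ)
      + ((N / d / 30 : ℕ) : ℝ)) := by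
  unfold D
  rw [log_factorial_eq N, log_factorial_eq' N (N / 2) 2 rfl,
    log_factorial_eq' N (N / 3) 3 rfl,
    log_factorial_eq' N (N / 5) 5 rfl,
    log_factorial_eq' N (N / 30) 30 rfl]
  rw [← Finset.sum_sub_distrib, ← Finset.sum_sub_distrib, ← Finset.sum_sub_distrib,
    ← Finset.sum_add_distrib]
  refine Finset.sum_congr rfl fun d _ => ?_
  ring

theorem psi_nat (N : ℕ) : Chebyshev.psi N = ∑ n ∈ Ioc 0 N, Λ n := by
  simp [Chebyshev.psi]

theorem D_le_psi (N : ℕ) : D N ≤ Chebyshev.psi N := by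
  rw [D_eq, psi_nat]
  refine Finset.sum_le_sum fun d _ => ?_
  have h := (comb_bounds (N / d)).1
  have h' : ((N / d : ℕ) : ℝ) + ((N / d / 30 : ℕ) : ℝ) ≤
      1 + ((N / d / 2 : ℕ) : ℝ) + ((N / d / 3 : ℕ) : ℝ) + ((N / d / 5 : ℕ) : ℝ) := by
    exact_mod_cast h
  have h0 : 0 ≤ Λ d := vonMangoldt_nonneg
  (clear * - h' h0; nlinarith)

theorem psi_sub_le_D (N : ℕ) : Chebyshev.psi N - Chebyshev.psi (N / 6 : ℕ) ≤ D N := by
  rw [D_eq, psi_nat, psi_nat]
  have hle : N / 6 ≤ N := Nat.div_le_self _ _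
  have hsub : Ioc 0 (N / 6) ⊆ Ioc 0 N := Finset.Ioc_subset_Ioc_right hle
  rw [← Finset.sum_sdiff hsub, add_sub_cancel_right, ← Finset.sum_sdiff hsub]
  have hA : ∀ d ∈ Ioc 0 N \ Ioc 0 (N / 6), Λ d ≤ Λ d *
    (((N / d : ℕ) : ℝ) - ((N / d / 2 : ℕ) : ℝ) - ((N / d / 3 : ℕ) : ℝ) - ((N / d / 5 : ℕ) : ℝ)
      + ((N / d / 30 : ℕ) : ℝ)) := by
    intro d hd
    simp only [mem_sdiff, mem_Ioc, not_and, not_le] at hd
    obtain ⟨⟨h1, h2⟩, h3⟩ := hd
    have h3 := h3 h1
    have h4 : N / d < 6 := by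
      rw [Nat.div_lt_iff_lt_mul h1]
      omega
    have h5 : 1 ≤ N / d := (Nat.one_le_div_iff h1).2 h2
    have h6 := comb_eq_one (N / d) h5 h4
    have h' : ((N / d : ℕ) : ℝ) + ((N / d / 30 : ℕ) : ℝ) =
      1 + ((N / d / 2 : ℕ) : ℝ) + ((N / d / 3 : ℕ) : ℝ) + ((N / d / 5 : ℕ) : ℝ) := by
      exact_mod_cast h6
    have h7 : (((N / d : ℕ) : ℝ) - ((N / d / 2 : ℕ) : ℝ) - ((N / d / 3 : ℕ) : ℝ)
        - ((N / d / 5 : ℕ) : ℝ) + ((N / d / 30 : ℕ) : ℝ)) = 1 := by (clear * - h'; linarith)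
    rw [h7, mul_one]
  have hB : ∀ d ∈ Ioc 0 (N / 6), 0 ≤ Λ d *
    (((N / d : ℕ) : ℝ) - ((N / d / 2 : ℕ) : ℝ) - ((N / d / 3 : ℕ) : ℝ) - ((N / d / 5 : ℕ) : ℝ)
      + ((N / d / 30 : ℕ) : ℝ)) := by
    intro d _
    refine mul_nonneg vonMangoldt_nonneg ?_
    have h := (comb_bounds (N / d)).2
    have h' : ((N / d / 2 : ℕ) : ℝ) + ((N / d / 3 : ℕ) : ℝ) + ((N / d / 5 : ℕ) : ℝ)
        ≤ ((N / d : ℕ) : ℝ) + ((N / d / 30 : ℕ) : ℝ) := by
      exact_mod_cast h
    (clear * - h'; linarith)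
  have h1 := Finset.sum_le_sum hA
  have h2 := Finset.sum_nonneg hB
  linarith

noncomputable def F (x : ℝ) : ℝ := x * Real.log x - x

theorem F_nat_le (m : ℕ) (hm : 1 ≤ m) : F m ≤ Real.log (m ! : ℝ) := by
  have h := Stirling.le_log_factorial_stirling (n := m) (by omega)
  have h1 : 0 ≤ Real.log m := Real.log_nonneg (by exact_mod_cast hm)
  have h2 : 0 ≤ Real.log (2 * Real.pi) := Real.log_nonneg (by (clear * -; linarith [Real.pi_gt_three]))
  unfold F
  (clear * - h h1 h2; linarith)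

theorem log_fact_le_F_nat (m : ℕ) (hm : 1 ≤ m) :
    Real.log (m ! : ℝ) ≤ F m + Real.log m + 1 := by
  induction m, hm using Nat.le_induction with
  | base => simp [F]
  | succ m hm ih =>
    have hm0 : (0 : ℝ) < m := by exact_mod_cast hm
    rw [Nat.factorial_succ, Nat.cast_mul, Real.log_mul (by (clear * - hm; positivity)) (by (clear * -; positivity))]
    unfold F at *
    have h1 : 1 - ((m : ℝ) / (m + 1)) ≤ Real.log (((m : ℝ) + 1) / m) := by
      have := Real.one_sub_inv_le_log_of_pos (x := ((m : ℝ) + 1) / m) (by (clear * - hm; positivity))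
      rwa [inv_div] at this
    rw [Real.log_div (by positivity) (by positivity)] at h1
    have h2 : (1 : ℝ) ≤ ((m : ℝ) + 1) * (Real.log ((m : ℝ) + 1) - Real.log m) := by
      have h3 : 1 - ((m : ℝ) / (m + 1)) = 1 / ((m : ℝ) + 1) := by field_simp; ring
      rw [h3, div_le_iff₀ (by (clear * - hm; positivity))] at h1
      (clear * - h1; linarith)
    push_cast
    (clear * - ih h2; nlinarith)

theorem F_floor_bounds (x : ℝ) (hx : 1 ≤ x) :
    F x - Real.log x ≤ Real.log ((⌊x⌋₊)! : ℝ) ∧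
      Real.log ((⌊x⌋₊)! : ℝ) ≤ F x + Real.log x + 1 := by
  set m := ⌊x⌋₊ with hm
  have hm1 : 1 ≤ m := by
    rw [hm]; exact (Nat.one_le_floor_iff x).2 hx
  have hm0 : (0 : ℝ) < m := by exact_mod_cast hm1
  have hmx : (m : ℝ) ≤ x := Nat.floor_le (by (clear * - hx; linarith))
  have hxm : x < m + 1 := Nat.lt_floor_add_one x
  have hx0 : 0 < x := by (clear * - hx; linarith)
  have hlogm : 0 ≤ Real.log m := Real.log_nonneg (by exact_mod_cast hm1)
  have hlogx : 0 ≤ Real.log x := Real.log_nonneg hx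
  have hlogmx : Real.log m ≤ Real.log x := Real.log_le_log hm0 hmx
  have h1 : Real.log (x / m) ≤ x / m - 1 := Real.log_le_sub_one_of_pos (by (clear * - hx hm1; positivity))
  have h2 : 1 - (m : ℝ) / x ≤ Real.log (x / m) := by
    have := Real.one_sub_inv_le_log_of_pos (x := x / m) (by positivity)
    rwa [inv_div] at this
  rw [Real.log_div (by positivity) (by positivity)] at h1 h2
  have h1' : (m : ℝ) * (Real.log x - Real.log m) ≤ x - m := by
    have : x / m - 1 = (x - m) / m := by field_simp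
    rw [this, le_div_iff₀ hm0] at h1
    (clear * - h1; linarith)
  have h2' : x - m ≤ x * (Real.log x - Real.log m) := by
    have : 1 - (m : ℝ) / x = (x - m) / x := by field_simp
    rw [this, div_le_iff₀ hx0] at h2
    (clear * - h2; linarith)
  have h3 := F_nat_le m hm1
  have h4 := log_fact_le_F_nat m hm1
  unfold F at *
  constructor
  · (clear * - h1' h3 hxm hlogx; nlinarith)
  · (clear * - hlogmx h2' h4 hmx hlogm; nlinarith)

noncomputable def A : ℝ :=
  Real.log 2 / 2 + Real.log 3 / 3 + Real.log 5 / 5 - Real.log 30 / 30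

theorem log_thirty : Real.log 30 = Real.log 2 + Real.log 3 + Real.log 5 := by
  rw [show (30 : ℝ) = 2 * 3 * 5 by norm_num, Real.log_mul (by norm_num) (by norm_num),
    Real.log_mul (by norm_num) (by norm_num)]

theorem A_gt : 0.92129 < A := by
  unfold A; rw [log_thirty]
  have := Real.log_two_gt_d9
  have := Real.log_three_gt_d9
  have := Real.log_five_gt_d9
  linarith

theorem A_lt : A < 0.9213 := by
  unfold A; rw [log_thirty]
  have := Real.log_two_lt_d9
  have := Real.log_three_lt_d9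
  have := Real.log_five_lt_d9
  linarith

theorem F_comb (x : ℝ) (hx : 0 < x) :
    F x - F (x / 2) - F (x / 3) - F (x / 5) + F (x / 30) = A * x := by
  unfold F A
  rw [Real.log_div hx.ne' (by norm_num), Real.log_div hx.ne' (by norm_num),
    Real.log_div hx.ne' (by norm_num), Real.log_div hx.ne' (by norm_num)]
  ring

theorem floor_bounds_nat (N k : ℕ) (hk : 0 < k) (hN : k ≤ N) :
    F ((N : ℝ) / k) - Real.log N ≤ Real.log ((N / k)! : ℝ) ∧
      Real.log ((N / k)! : ℝ) ≤ F ((N : ℝ) / k) + Real.log N + 1 := by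
  have hk' : (0 : ℝ) < k := by exact_mod_cast hk
  have hNk : (1 : ℝ) ≤ (N : ℝ) / k := by
    rw [le_div_iff₀ hk', one_mul]; exact_mod_cast hN
  have h := F_floor_bounds ((N : ℝ) / k) hNk
  rw [Nat.floor_div_eq_div] at h
  have hN0 : (0 : ℝ) < N := by
    have : 0 < N := by omega
    exact_mod_cast this
  have hk1 : (1 : ℝ) ≤ k := by exact_mod_cast hk
  have hlog : Real.log ((N : ℝ) / k) ≤ Real.log N := by
    apply Real.log_le_log (by (clear * - hN0 hk; positivity))
    exact div_le_self hN0.le hk1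
  constructor
  · (clear * - h hlog; linarith [h.1])
  · (clear * - h hlog; linarith [h.2])

theorem D_lower (N : ℕ) (hN : 30 ≤ N) : A * N - 5 * Real.log N - 3 ≤ D N := by
  have hN0 : (0 : ℝ) < N := by
    have : 0 < N := by omega
    exact_mod_cast this
  have h1 := floor_bounds_nat N 1 (by norm_num) (by omega)
  have h2 := floor_bounds_nat N 2 (by norm_num) (by omega)
  have h3 := floor_bounds_nat N 3 (by norm_num) (by omega)
  have h5 := floor_bounds_nat N 5 (by norm_num) (by omega)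
  have h30 := floor_bounds_nat N 30 (by norm_num) (by omega)
  have hF := F_comb (N : ℝ) hN0
  unfold D
  rw [Nat.div_one] at h1
  push_cast at h1 h2 h3 h5 h30
  rw [div_one] at h1
  linarith [h1.1, h2.2, h3.2, h5.2, h30.1]

theorem D_upper (N : ℕ) (hN : 30 ≤ N) : D N ≤ A * N + 5 * Real.log N + 2 := by
  have hN0 : (0 : ℝ) < N := by
    have : 0 < N := by omega
    exact_mod_cast this
  have h1 := floor_bounds_nat N 1 (by norm_num) (by omega)
  have h2 := floor_bounds_nat N 2 (by norm_num) (by omega)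
  have h3 := floor_bounds_nat N 3 (by norm_num) (by omega)
  have h5 := floor_bounds_nat N 5 (by norm_num) (by omega)
  have h30 := floor_bounds_nat N 30 (by norm_num) (by omega)
  have hF := F_comb (N : ℝ) hN0
  unfold D
  rw [Nat.div_one] at h1
  push_cast at h1 h2 h3 h5 h30
  rw [div_one] at h1
  linarith [h1.2, h2.1, h3.1, h5.1, h30.2]

theorem psi_ge_nat (N : ℕ) (hN : 30 ≤ N) : A * N - 5 * Real.log N - 3 ≤ Chebyshev.psi N :=
  (D_lower N hN).trans (D_le_psi N)

theorem psi_sub_le_nat (N : ℕ) (hN : 30 ≤ N) :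
    Chebyshev.psi N - Chebyshev.psi (N / 6 : ℕ) ≤ A * N + 5 * Real.log N + 2 :=
  (psi_sub_le_D N).trans (D_upper N hN)

open Filter in
/-- `ψ N ≤ 1.1056 N + K` for all `N`. -/
theorem psi_le_nat : ∃ K : ℝ, 0 ≤ K ∧ ∀ N : ℕ, Chebyshev.psi N ≤ 1.1056 * N + K := by
  have hev : ∀ᶠ x : ℝ in atTop, 5 * Real.log x + 2 ≤ 0.00003 * x := by
    have h := Real.isLittleO_log_id_atTop.bound (c := 0.000001) (by norm_num)
    filter_upwards [h, eventually_ge_atTop (100000 : ℝ)] with x hx hx2
    simp only [Real.norm_eq_abs, id_eq] at hx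
    rw [abs_of_nonneg (Real.log_nonneg (by (clear * - hx2; linarith))), abs_of_nonneg (by (clear * - hx2; linarith))] at hx
    linarith
  obtain ⟨X, hX⟩ := Filter.eventually_atTop.1 hev
  set N0 : ℕ := max 30 ⌈X⌉₊ with hN0
  refine ⟨Chebyshev.psi N0, Chebyshev.psi_nonneg _, ?_⟩
  intro N
  induction N using Nat.strong_induction_on with
  | _ N ih =>
    by_cases hN : N < N0
    · have : Chebyshev.psi N ≤ Chebyshev.psi N0 := Chebyshev.psi_mono (by exact_mod_cast hN.le)
      have h0 : (0 : ℝ) ≤ 1.1056 * N := by (clear * -; positivity)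
      (clear * - this; linarith)
    · push Not at hN
      have h30 : 30 ≤ N := le_trans (le_max_left _ _) hN
      have hXN : X ≤ N := by
        have : ⌈X⌉₊ ≤ N := le_trans (le_max_right _ _) hN
        exact (Nat.le_ceil X).trans (by exact_mod_cast this)
      have h1 := psi_sub_le_nat N h30
      have h2 := ih (N / 6) (Nat.div_lt_self (by omega) (by norm_num))
      have h3 := hX N hXN
      have h4 : ((N / 6 : ℕ) : ℝ) ≤ (N : ℝ) / 6 := Nat.cast_div_le
      have h5 := A_lt
      have h6 : (30 : ℝ) ≤ N := by exact_mod_cast h30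
      (clear * - h1 h2 h3 h4 h6 h5; nlinarith)

open Filter

theorem eventually_psi_ge : ∀ᶠ x : ℝ in atTop, 0.9212 * x ≤ Chebyshev.psi x := by
  have h := Real.isLittleO_log_id_atTop.bound (c := 0.000001) (by norm_num)
  filter_upwards [h, eventually_ge_atTop (10000000 : ℝ)] with x hx hx2
  simp only [Real.norm_eq_abs, id_eq] at hx
  rw [abs_of_nonneg (Real.log_nonneg (by (clear * - hx2; linarith))), abs_of_nonneg (by (clear * - hx2; linarith))] at hx
  rw [Chebyshev.psi_eq_psi_coe_floor]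
  have hfl : x < ⌊x⌋₊ + 1 := Nat.lt_floor_add_one x
  have hfl2 : (⌊x⌋₊ : ℝ) ≤ x := Nat.floor_le (by (clear * - hx2; linarith))
  have h30 : 30 ≤ ⌊x⌋₊ := Nat.le_floor (by norm_num; (clear * - hx2; linarith))
  have h1 := psi_ge_nat ⌊x⌋₊ h30
  have h30' : (30 : ℝ) ≤ ⌊x⌋₊ := by exact_mod_cast h30
  have h2 : Real.log ⌊x⌋₊ ≤ Real.log x := Real.log_le_log (by (clear * - hx2 hfl; linarith)) hfl2
  have h3 := A_gt
  (clear * - hx hx2 hfl h1 h2 h3; nlinarith)

theorem eventually_psi_le : ∀ᶠ x : ℝ in atTop, Chebyshev.psi x ≤ 1.1057 * x := by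
  obtain ⟨K, hK0, hK⟩ := psi_le_nat
  filter_upwards [eventually_ge_atTop (100000 * (K + 1) : ℝ)] with x hx
  rw [Chebyshev.psi_eq_psi_coe_floor]
  have hfl2 : (⌊x⌋₊ : ℝ) ≤ x := Nat.floor_le (by (clear * - hK0 hx; linarith))
  have h1 := hK ⌊x⌋₊
  linarith

end Pool.Agent.Helper45.Cheb

end

section

set_option autoImplicit false

open Finset Filter

namespace Pool.Agent.Helper13.PV

open Pool.Agent.Helper66.PV

/-- the primes in `(k, 2k]` -/
def dp (k : ℕ) : Finset ℕ := (Ioc k (2 * k)).filter Nat.Prime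

theorem card_Ik (k : ℕ) : (Ik k).card = (dp k).card := by
  apply Finset.card_bij (fun (i : Fin k) _ => (i : ℕ) + k + 1)
  · intro i hi
    have hi2 : ((i : ℕ) + k + 1).Prime := by
      have := hi
      unfold Ik at this
      exact (mem_filter.1 this).2
    have := i.2
    exact mem_filter.2 ⟨mem_Ioc.2 ⟨by omega, by omega⟩, hi2⟩
  · intro i _ j _ h
    have h' : (i : ℕ) = j := by omega
    exact Fin.ext h'
  · intro p hp
    obtain ⟨h1, h2⟩ := mem_filter.1 hp
    obtain ⟨h3, h4⟩ := mem_Ioc.1 h1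
    refine ⟨⟨p - k - 1, by omega⟩, ?_, ?_⟩
    · unfold Ik
      refine mem_filter.2 ⟨mem_univ _, ?_⟩
      have : p - k - 1 + k + 1 = p := by omega
      simpa [this] using h2
    · show p - k - 1 + k + 1 = p
      omega

theorem theta_sub_le (k : ℕ) :
    Chebyshev.theta ((2 * k : ℕ) : ℝ) - Chebyshev.theta (k : ℝ) ≤
      (dp k).card * Real.log (2 * k) := by
  unfold Chebyshev.theta
  rw [Nat.floor_natCast, Nat.floor_natCast]
  have hU : (Ioc 0 (2 * k)).filter Nat.Prime = (Ioc 0 k).filter Nat.Prime ∪ dp k := by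
    unfold dp
    rw [← filter_union]
    congr 1
    ext a
    simp only [mem_union, mem_Ioc]
    (clear * -; omega)
  have hD : Disjoint ((Ioc 0 k).filter Nat.Prime) (dp k) := by
    rw [Finset.disjoint_left]
    intro a ha hb
    have h1 := mem_Ioc.1 (mem_filter.1 ha).1
    have h2 := mem_Ioc.1 (mem_filter.1 hb).1
    omega
  rw [hU, sum_union hD, add_sub_cancel_left]
  calc ∑ p ∈ dp k, Real.log (p : ℝ) ≤ ∑ _p ∈ dp k, Real.log (2 * k) := by
        apply sum_le_sum
        intro p hp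
        obtain ⟨h1, h2⟩ := mem_filter.1 hp
        obtain ⟨h3, h4⟩ := mem_Ioc.1 h1
        apply Real.log_le_log
        · exact_mod_cast h2.pos
        · exact_mod_cast h4
    _ = (dp k).card * Real.log (2 * k) := by rw [sum_const, nsmul_eq_mul]

theorem dp_pos {k : ℕ} (hk : 1 ≤ k) : 1 ≤ (dp k).card := by
  obtain ⟨p, hp, h1, h2⟩ := Nat.exists_prime_lt_and_le_two_mul k (by omega)
  exact card_pos.2 ⟨p, mem_filter.2 ⟨mem_Ioc.2 ⟨h1, h2⟩, hp⟩⟩

theorem large : ∀ᶠ k : ℕ in atTop, (1 / 2 : ℝ) * k ≤ (dp k).card * Real.log (2 * k) := by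
  have t1 : Tendsto (fun k : ℕ => ((2 * k : ℕ) : ℝ)) atTop atTop := by
    apply tendsto_natCast_atTop_atTop.comp
    exact tendsto_id.const_mul_atTop' (by norm_num)
  have e1 := t1.eventually Pool.Agent.Helper45.Cheb.eventually_psi_ge
  have e2 := tendsto_natCast_atTop_atTop.eventually Pool.Agent.Helper45.Cheb.eventually_psi_le
  have hlo := (isLittleO_log_rpow_atTop (r := 1 / 2) (by norm_num)).bound (c := 1 / 40) (by norm_num)
  have e3 := t1.eventually hlo
  filter_upwards [e1, e2, e3, eventually_ge_atTop 1] with k h1 h2 h3 hk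
  have hk1 : (1 : ℝ) ≤ ((2 * k : ℕ) : ℝ) := by exact_mod_cast (show 1 ≤ 2 * k by omega)
  have h4 := Chebyshev.psi_sub_theta_le hk1
  have h5 := Chebyshev.theta_le_psi (k : ℝ)
  have h6 := theta_sub_le k
  rw [Real.norm_of_nonneg (Real.log_nonneg hk1), Real.norm_of_nonneg (by positivity),
    ← Real.sqrt_eq_rpow] at h3
  have h7 : 2 * √((2 * k : ℕ) : ℝ) * Real.log ((2 * k : ℕ) : ℝ) ≤
      1 / 20 * ((2 * k : ℕ) : ℝ) := by
    have hs : √((2 * k : ℕ) : ℝ) * √((2 * k : ℕ) : ℝ) = ((2 * k : ℕ) : ℝ) :=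
      Real.mul_self_sqrt (by (clear * - hk; positivity))
    have := mul_le_mul_of_nonneg_left h3 (Real.sqrt_nonneg ((2 * k : ℕ) : ℝ))
    (clear * - hs this; nlinarith)
  push_cast at h1 h2 h4 h5 h6 h7
  have hk0 : (0 : ℝ) ≤ k := Nat.cast_nonneg k
  linarith

end Pool.Agent.Helper13.PV

end
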