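import Pool.Agent.Helper23.MT.Defs

/-!
Parts of Helper66.PAP.Defs, Helper66.PAP.Star, Helper66.PU.Tot, Helper66.PV.Energy, Helper66.PV.Main, Helper66.PV.FinalA, Helper4.PU.Defs, Helper4.PU.Exact, Helper4.PU.Inter, Helper66.PU.InterG, Helper66.PU.All0, Helper66.PU.AllG, Helper4.PU.SmallSets, Helper4.PU.Legendre, Helper4.PU.Rho, Helper4.PL.Rare, Helper4.PU.ManyU, Helper56.PU.OneDim, Helper7.PU.Interval
-/

namespace Pool.Agent.Helper1.MT
end Pool.Agent.Helper1.MT
namespace Pool.Agent.Helper28.MT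
end Pool.Agent.Helper28.MT
namespace Pool.Agent.Helper4.PL
end Pool.Agent.Helper4.PL
namespace Pool.Agent.Helper66.PAP
end Pool.Agent.Helper66.PAP
namespace Pool.Agent.Helper66.PV
end Pool.Agent.Helper66.PV
namespace Pool.Agent.Helper81.MT
end Pool.Agent.Helper81.MT

section

set_option autoImplicit false

open Finset

namespace Pool.Agent.Helper66.PAP

open Pool.Agent.Helper1.MT

section Abstract

variable {ι ι' κ : Type}

/-- The colouring of `ι` which is `a` at the point `e none` and `c` elsewhere. -/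
def ext (e : Option ι' ≃ ι) (c : ι' → Option κ) (a : Option κ) (p : ι) : Option κ :=
  (e.symm p).elim a c

/-- The transformed weights at a prime with colour `i`. -/
def ys [Fintype κ] (e : Option ι' ≃ ι) (w : ι → ℝ) (i : κ) (y : (ι → Option κ) → ℝ)
    (c : ι' → Option κ) : ℝ :=
  y (ext e c none) - w (e none) * ∑ j, y (ext e c (some j)) + y (ext e c (some i))

end Abstract

end Pool.Agent.Helper66.PAP

end

section

set_option autoImplicit false

open Finset

namespace Pool.Agent.Helper66.PAP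

open Pool.Agent.Helper1.MT

section Abstract

variable {ι ι' κ : Type}

theorem ext_at_none (e : Option ι' ≃ ι) (c : ι' → Option κ) (a : Option κ) :
    ext e c a (e none) = a := by
  simp [ext]

theorem ext_at_some (e : Option ι' ≃ ι) (c : ι' → Option κ) (a : Option κ) (p : ι') :
    ext e c a (e (some p)) = c p := by
  simp [ext]

/-- A colouring of `ι` is a colouring of `ι'` and a colour of the additional point. -/
def extEquiv (e : Option ι' ≃ ι) : (ι' → Option κ) × Option κ ≃ (ι → Option κ) where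
  toFun x := ext e x.1 x.2
  invFun c := (fun p => c (e (some p)), c (e none))
  left_inv x := by
    refine Prod.ext ?_ ?_
    · funext p
      exact ext_at_some e x.1 x.2 p
    · exact ext_at_none e x.1 x.2
  right_inv c := by
    funext p
    obtain ⟨o, rfl⟩ := e.surjective p
    cases o with
    | none => exact ext_at_none e _ _
    | some p => exact ext_at_some e _ _ p

variable [Fintype ι] [Fintype ι'] [Fintype κ] [DecidableEq ι] [DecidableEq ι'] [DecidableEq κ]

theorem sum_ext (e : Option ι' ≃ ι) (F : (ι → Option κ) → ℝ) :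
    ∑ c, F c = ∑ c : ι' → Option κ, ∑ a : Option κ, F (ext e c a) := by
  rw [← (extEquiv e).sum_comp, Fintype.sum_prod_type]
  rfl

end Abstract

end Pool.Agent.Helper66.PAP

end

section

set_option autoImplicit false

open Finset Filter

namespace Pool.Agent.Helper66.PU

theorem prod_div_le (S : Finset ℕ) (hS : ∀ n ∈ S, 2 ≤ n) :
    ∏ n ∈ S, ((n : ℝ) / ((n : ℝ) - 1)) ≤ S.card + 1 := by
  induction S using Finset.induction_on_max with
  | empty => simp
  | insert a S ha ih =>
    have hna : a ∉ S := fun h => lt_irrefl _ (ha a h)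
    have h1 := ih fun n hn => hS n (mem_insert_of_mem hn)
    rw [prod_insert hna, card_insert_of_notMem hna]
    have ha2 : 2 ≤ a := hS a (mem_insert_self _ _)
    have hcard : S.card + 2 ≤ a := by
      have h2 : S ⊆ Ico 2 a := by
        intro n hn
        rw [mem_Ico]
        exact ⟨hS n (mem_insert_of_mem hn), ha n hn⟩
      have h3 := card_le_card h2
      rw [Nat.card_Ico] at h3
      omega
    have har : ((S.card : ℕ) : ℝ) + 2 ≤ a := by exact_mod_cast hcard
    have hc0 : (0 : ℝ) ≤ S.card := Nat.cast_nonneg _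
    have h4 : (a : ℝ) / ((a : ℝ) - 1) ≤ (S.card + 2) / (S.card + 1) := by
      rw [div_le_div_iff₀ (by (clear * - har; linarith)) (by (clear * -; linarith))]
      (clear * - har; nlinarith)
    have h5 : 0 ≤ ∏ n ∈ S, ((n : ℝ) / ((n : ℝ) - 1)) := by
      apply prod_nonneg
      intro n hn
      have : (2 : ℝ) ≤ n := by exact_mod_cast hS n (mem_insert_of_mem hn)
      exact div_nonneg (by (clear * - this; linarith)) (by (clear * - this; linarith))
    calc (a : ℝ) / ((a : ℝ) - 1) * ∏ n ∈ S, ((n : ℝ) / ((n : ℝ) - 1))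
        ≤ (S.card + 2) / (S.card + 1) * (S.card + 1) :=
          mul_le_mul h4 h1 h5 (by (clear * -; positivity))
      _ = ((S.card + 1 : ℕ) : ℝ) + 1 := by
          rw [div_mul_cancel₀ _ (by (clear * -; linarith))]
          push_cast
          ring

theorem div_totient_le {W : ℕ} (hW : 0 < W) :
    (W : ℝ) / W.totient ≤ 1 + 2 * Real.log W := by
  have hWr : (0 : ℝ) < W := by exact_mod_cast hW
  have h1 : (W.totient : ℝ) = W * ∏ p ∈ W.primeFactors, (1 - (p : ℝ)⁻¹) := by
    have h2 := Nat.totient_eq_mul_prod_factors W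
    have := congrArg (Rat.cast : ℚ → ℝ) h2
    push_cast at this
    exact this
  have h2 : (W : ℝ) / W.totient = ∏ p ∈ W.primeFactors, ((p : ℝ) / ((p : ℝ) - 1)) := by
    have h3 : ∏ p ∈ W.primeFactors, ((p : ℝ) / ((p : ℝ) - 1)) =
        (∏ p ∈ W.primeFactors, (1 - (p : ℝ)⁻¹))⁻¹ := by
      rw [← prod_inv_distrib]
      apply prod_congr rfl
      intro p hp
      have h4 : (2 : ℝ) ≤ p := by exact_mod_cast (Nat.prime_of_mem_primeFactors hp).two_le
      have h5 : (p : ℝ) ≠ 0 := by (clear * - h4; linarith)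
      have h6 : (p : ℝ) - 1 ≠ 0 := by (clear * - h4; linarith)
      have h7 : 1 - (p : ℝ)⁻¹ = ((p : ℝ) - 1) / p := by field_simp
      rw [h7, inv_div]
    rw [h3, h1, div_mul_eq_div_div, div_self hWr.ne', one_div]
  rw [h2]
  refine (prod_div_le _ fun p hp => (Nat.prime_of_mem_primeFactors hp).two_le).trans ?_
  have h3 : 2 ^ W.primeFactors.card ≤ W := by
    calc 2 ^ W.primeFactors.card = ∏ _p ∈ W.primeFactors, 2 := by rw [prod_const]
      _ ≤ ∏ p ∈ W.primeFactors, p :=
          prod_le_prod' fun p hp => (Nat.prime_of_mem_primeFactors hp).two_le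
      _ ≤ W := Nat.le_of_dvd hW (Nat.prod_primeFactors_dvd W)
  have h4 : (W.primeFactors.card : ℝ) * Real.log 2 ≤ Real.log W := by
    rw [← Real.log_pow]
    apply Real.log_le_log (by positivity)
    exact_mod_cast h3
  have h5 := Real.log_two_gt_d9
  have h6 : (0 : ℝ) ≤ W.primeFactors.card := Nat.cast_nonneg _
  (clear * - h4 h5; nlinarith)

/-- Powers of `log log x` are small against `log x`. -/
theorem loglog_small (n : ℕ) (A a : ℝ) (hA : 0 ≤ A) (ha : 0 ≤ a) {b : ℝ} (hb : 0 < b) :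
    ∀ᶠ x : ℝ in atTop, a * (1 + A * Real.log (Real.log x)) ^ n ≤ b * Real.log x := by
  have h1 : ∀ᶠ y : ℝ in atTop, a * (1 + A * Real.log y) ^ n ≤ b * y := by
    have h2 := (Real.isLittleO_pow_log_id_atTop (n := n)).bound
      (show (0 : ℝ) < b / (a * (1 + A) ^ n + 1) by (clear * - hb ha hA; positivity))
    filter_upwards [h2, Real.tendsto_log_atTop.eventually_ge_atTop 1, eventually_gt_atTop 0]
      with y hy hy1 hy0
    simp only [id, Real.norm_eq_abs] at hy
    rw [abs_of_nonneg (by positivity : 0 ≤ Real.log y ^ n), abs_of_pos hy0] at hy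
    have h3 : 1 + A * Real.log y ≤ (1 + A) * Real.log y := by (clear * - hy1; nlinarith)
    have h4 : 0 ≤ 1 + A * Real.log y := by (clear * - hA hy1; positivity)
    calc a * (1 + A * Real.log y) ^ n ≤ a * ((1 + A) * Real.log y) ^ n :=
          mul_le_mul_of_nonneg_left (pow_le_pow_left₀ h4 h3 n) ha
      _ = a * (1 + A) ^ n * Real.log y ^ n := by rw [mul_pow]; ring
      _ ≤ (a * (1 + A) ^ n + 1) * Real.log y ^ n := by
          have : 0 ≤ Real.log y ^ n := by positivity
          (clear * - this; nlinarith)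
      _ ≤ (a * (1 + A) ^ n + 1) * (b / (a * (1 + A) ^ n + 1) * y) :=
          mul_le_mul_of_nonneg_left hy (by positivity)
      _ = b * y := by field_simp
  exact Real.tendsto_log_atTop.eventually h1

end Pool.Agent.Helper66.PU

end

section

set_option autoImplicit false

set_option linter.unusedSectionVars false

open Finset

namespace Pool.Agent.Helper66.PV

open Pool.Agent.Helper1.MT

open Pool.Agent.Helper66.PAP (ext ys)

section

variable {ι ι' κ : Type} [Fintype ι] [Fintype ι'] [Fintype κ] [DecidableEq ι] [DecidableEq ι']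
  [DecidableEq κ]

theorem ext_none (e : Option ι' ≃ ι) (c : ι' → Option κ) (a : Option κ) :
    ext e c a (e none) = a := by
  simp [PAP.ext]

theorem ext_some (e : Option ι' ≃ ι) (c : ι' → Option κ) (a : Option κ) (p : ι') :
    ext e c a (e (some p)) = c p := by
  simp [PAP.ext]

theorem ext_inj (e : Option ι' ≃ ι) :
    Function.Injective fun c : ι' → Option κ => ext e c none := by
  intro c c' h
  funext p
  have h1 := congrFun h (e (some p))
  simpa [ext_some] using h1

end

end Pool.Agent.Helper66.PV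

end

section

set_option autoImplicit false

open Finset Filter

namespace Pool.Agent.Helper66.PV

open Pool.Agent.Helper1.MT

theorem log_le_J {N : ℕ} (hN : 1 ≤ N) : Real.log N ≤ (Nat.log 2 N : ℝ) + 2 := by
  have h1 : N < 2 ^ (Nat.log 2 N + 1) := Nat.lt_pow_succ_log_self (by norm_num) N
  have hN0 : (0 : ℝ) < N := by exact_mod_cast hN
  have h2 : Real.log N ≤ Real.log ((2 : ℝ) ^ (Nat.log 2 N + 1)) :=
    Real.log_le_log hN0 (by exact_mod_cast h1.le)
  rw [Real.log_pow] at h2
  have h3 := Real.log_two_lt_d9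
  have h4 : (0 : ℝ) ≤ (Nat.log 2 N : ℝ) := Nat.cast_nonneg _
  push_cast at h2
  (clear * - h3 h2; nlinarith)

/-- The tail of the exponential series. -/
theorem tail_le {y : ℝ} {s : ℕ} (hy : 0 ≤ y) (hs : 8 * y ≤ s) :
    y ^ s / s.factorial ≤ Real.exp (-s) := by
  have h1 := Real.pow_div_factorial_le_exp (8 * y) (by positivity) s
  have h2 : (8 * y) ^ s / (s.factorial : ℝ) = 8 ^ s * (y ^ s / s.factorial) := by
    rw [mul_pow]
    ring
  rw [h2] at h1
  have h3 : Real.exp (2 * s) ≤ 8 ^ s := by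
    have h4 : Real.exp 2 ≤ 8 := by
      have h5 : Real.exp 2 = Real.exp 1 * Real.exp 1 := by rw [← Real.exp_add]; norm_num
      have h6 := Real.exp_one_lt_d9
      have h7 := Real.exp_pos 1
      rw [h5]
      (clear * - h6 h7; nlinarith)
    calc Real.exp (2 * s) = Real.exp 2 ^ s := by rw [← Real.exp_nat_mul]; ring_nf
      _ ≤ 8 ^ s := pow_le_pow_left₀ (Real.exp_pos _).le h4 s
  have h0 : 0 ≤ y ^ s / (s.factorial : ℝ) := by (clear * - hy; positivity)
  have h5 : Real.exp (2 * s) * (y ^ s / s.factorial) ≤ Real.exp s := by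
    calc Real.exp (2 * s) * (y ^ s / s.factorial) ≤ 8 ^ s * (y ^ s / s.factorial) :=
          mul_le_mul_of_nonneg_right h3 h0
      _ ≤ Real.exp (8 * y) := h1
      _ ≤ Real.exp s := Real.exp_le_exp.2 hs
  have h6 : Real.exp (-s) * Real.exp (2 * s) = Real.exp s := by
    rw [← Real.exp_add]
    congr 1
    ring
  have h7 : Real.exp (-s) * Real.exp s = 1 := by
    rw [← Real.exp_add]
    simp
  have h8 : 0 < Real.exp (-(s : ℝ)) := Real.exp_pos _
  have h9 : 0 < Real.exp (s : ℝ) := Real.exp_pos _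
  have h10 : Real.exp s * (y ^ s / s.factorial) ≤ 1 := by
    have h11 := mul_le_mul_of_nonneg_left h5 h8.le
    rw [← mul_assoc, h6, h7] at h11
    exact h11
  calc y ^ s / (s.factorial : ℝ) = Real.exp (-s) * (Real.exp s * (y ^ s / s.factorial)) := by
        rw [← mul_assoc, h7, one_mul]
    _ ≤ Real.exp (-s) * 1 := mul_le_mul_of_nonneg_left h10 h8.le
    _ = _ := mul_one _

end Pool.Agent.Helper66.PV

end

section

set_option autoImplicit false

set_option linter.unusedSectionVars false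

open Finset Filter

namespace Pool.Agent.Helper66.PV

open Pool.Agent.Helper1.MT

theorem sum_rho {k : ℕ} (I : Finset (Fin k)) (hN : 1 ≤ I.card) :
    ∑ i : Fin k, 1 / (9 * (((if i ∈ I then 3 * I.card + 1 else 3 * k + 1 : ℕ) : ℝ) - 1)) ≤
      1 / 10 := by
  have hk : 1 ≤ k := by
    have h1 : I.card ≤ Fintype.card (Fin k) := Finset.card_le_univ I
    rw [Fintype.card_fin] at h1
    omega
  have hNr : (0 : ℝ) < I.card := by exact_mod_cast hN
  have hkr : (0 : ℝ) < k := by exact_mod_cast hk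
  have h1 : ∀ i : Fin k, 1 / (9 * (((if i ∈ I then 3 * I.card + 1 else 3 * k + 1 : ℕ) : ℝ) - 1)) ≤
      (if i ∈ I then 1 / (27 * (I.card : ℝ)) else 0) + 1 / (27 * (k : ℝ)) := by
    intro i
    have h2 : 0 < 1 / (27 * (k : ℝ)) := by (clear * - hk; positivity)
    by_cases hi : i ∈ I
    · rw [if_pos hi, if_pos hi]
      have h3 : 9 * (((3 * I.card + 1 : ℕ) : ℝ) - 1) = 27 * (I.card : ℝ) := by push_cast; ring
      rw [h3]
      (clear * - h2; linarith)
    · rw [if_neg hi, if_neg hi]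
      have h3 : 9 * (((3 * k + 1 : ℕ) : ℝ) - 1) = 27 * (k : ℝ) := by push_cast; ring
      rw [h3]
      (clear * -; linarith)
  refine (Finset.sum_le_sum fun i _ => h1 i).trans ?_
  rw [Finset.sum_add_distrib, ← Finset.sum_filter, Finset.sum_const, Finset.sum_const,
    Finset.card_univ, Fintype.card_fin, nsmul_eq_mul, nsmul_eq_mul]
  have h4 : (univ.filter fun i => i ∈ I) = I := by ext i; simp
  rw [h4]
  have h5 : (I.card : ℝ) * (1 / (27 * (I.card : ℝ))) = 1 / 27 := by (clear * - hN; field_simp)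
  have h6 : (k : ℝ) * (1 / (27 * (k : ℝ))) = 1 / 27 := by (clear * - hk; field_simp)
  rw [h5, h6]
  norm_num

theorem num_a {k J c e : ℝ} (hk : 1 ≤ k) (hJ : 0 ≤ J) (he0 : 0 < e) (he : e ≤ c / 110592) :
    k * (36 * k * (8 * (3 * k + 1) * (J + 2)) * (e / k ^ 3)) ≤ c * (J + 2) / 4 / 24 := by
  have hk0 : 0 < k := by (clear * - hk; linarith)
  have h3 : k * (36 * k * (8 * (3 * k + 1) * (J + 2)) * (e / k ^ 3)) =
      288 * (3 * k + 1) * (J + 2) / k * e := by
    field_simp
    ring
  have h4 : 288 * (3 * k + 1) * (J + 2) / k ≤ 1152 * (J + 2) := by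
    rw [div_le_iff₀ hk0]
    have : 0 ≤ J * (k - 1) := mul_nonneg hJ (by (clear * - hk; linarith))
    (clear * - hk this; nlinarith)
  rw [h3]
  calc 288 * (3 * k + 1) * (J + 2) / k * e ≤ 1152 * (J + 2) * (c / 110592) := by (clear * - h4 he he0 hJ; gcongr)
    _ = c * (J + 2) / 4 / 24 := by ring

theorem num_J {N J1 : ℕ} (hN : 1 ≤ N) (h1 : 2 ^ J1 ≤ N) :
    10 * 2 ^ J1 ≤ 8 * (3 * N + 1) * (J1 + 2) := by
  nlinarith [Nat.zero_le J1, Nat.zero_le (N * J1)]

end Pool.Agent.Helper66.PV

end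

section

set_option autoImplicit false

open Finset

open ArithmeticFunction (cardFactors)

namespace Pool.Agent.Helper4.PU

open Pool.Agent.Helper1.MT

/-- The singular factor. -/
noncomputable def Sg {κ : Type} [Fintype κ] (h : κ → ℕ) (W t : ℕ) : ℝ :=
  ∏ p ∈ (∏ i, ((h i : ℤ) - t).natAbs).primeFactors.filter (fun p => ¬ p ∣ W), (1 + 1 / (p : ℝ))

/-- PU-6: the average of the singular factors, over the `t` such that `v + t` is not divisible by
the large prime factors of `d`. -/
def SingCop : Prop :=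
  ∀ k : ℕ, ∃ C : ℝ, 0 < C ∧ ∀ d D0 v : ℕ, 0 < d →
    ∀ [DecidablePred (fun t => ¬ d ∣ t ∧ ∀ p : ℕ, p.Prime → D0 ≤ p → p ∣ d → ¬ p ∣ v + t)],
    ∑ t ∈ (range ((k - 1) * d)).filter
      (fun t => ¬ d ∣ t ∧ ∀ p : ℕ, p.Prime → D0 ≤ p → p ∣ d → ¬ p ∣ v + t),
        Sg (fun i : Fin k => (i : ℕ) * d) d t ≤
      C * d * ∏ p ∈ d.primeFactors.filter (fun p => D0 ≤ p), (1 - 1 / (p : ℝ))

end Pool.Agent.Helper4.PU

end

section

set_option autoImplicit false

open Finset

namespace Pool.Agent.Helper4.PU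

open Pool.Agent.Helper66.PAP

open Pool.Agent.Helper4.PL

section Abstract

variable {ι ι' κ : Type}

/-- The transformed weights at a prime without colour. -/
def yn [Fintype κ] (e : Option ι' ≃ ι) (w : ι → ℝ) (y : (ι → Option κ) → ℝ)
    (c : ι' → Option κ) : ℝ :=
  y (ext e c none) - w (e none) * ∑ j, y (ext e c (some j))

end Abstract

end Pool.Agent.Helper4.PU

end

section

set_option autoImplicit false

open Finset Filter

open ArithmeticFunction (cardFactors)

namespace Pool.Agent.Helper4.PU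

theorem prod_Ico (n : ℕ) : ∏ j ∈ Ico 2 (n + 2), (1 - 1 / (j : ℝ)) = 1 / (n + 1) := by
  induction n with
  | zero => simp
  | succ n ih =>
    rw [Finset.prod_Ico_succ_top (by omega), ih]
    push_cast
    have h1 : (n : ℝ) + 1 ≠ 0 := by (clear * -; positivity)
    have h2 : (n : ℝ) + 2 ≠ 0 := by (clear * -; positivity)
    have h3 : (n : ℝ) + 1 + 1 ≠ 0 := by (clear * -; positivity)
    field_simp
    ring

theorem prod_subset_le {s t : Finset ℕ} {f : ℕ → ℝ} (hst : s ⊆ t) (h0 : ∀ p ∈ t, 0 ≤ f p)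
    (h1 : ∀ p ∈ t, f p ≤ 1) : ∏ p ∈ t, f p ≤ ∏ p ∈ s, f p := by
  classical
  rw [← Finset.prod_sdiff hst]
  have h2 : ∏ p ∈ t \ s, f p ≤ 1 :=
    Finset.prod_le_one (fun p hp => h0 p (Finset.mem_sdiff.1 hp).1)
      fun p hp => h1 p (Finset.mem_sdiff.1 hp).1
  have h3 : 0 ≤ ∏ p ∈ s, f p := Finset.prod_nonneg fun p hp => h0 p (hst hp)
  exact mul_le_of_le_one_left h3 h2

theorem prod_subset_ge {s t : Finset ℕ} {f : ℕ → ℝ} (hst : s ⊆ t) (h1 : ∀ p ∈ t, 1 ≤ f p) :
    ∏ p ∈ s, f p ≤ ∏ p ∈ t, f p := by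
  classical
  rw [← Finset.prod_sdiff hst]
  have h2 : 1 ≤ ∏ p ∈ t \ s, f p := by
    calc (1 : ℝ) = ∏ _p ∈ t \ s, (1 : ℝ) := by rw [Finset.prod_const_one]
      _ ≤ _ := Finset.prod_le_prod (fun p _ => zero_le_one)
        fun p hp => h1 p (Finset.mem_sdiff.1 hp).1
  have h3 : 0 ≤ ∏ p ∈ s, f p := Finset.prod_nonneg fun p hp => zero_le_one.trans (h1 p (hst hp))
  exact le_mul_of_one_le_left h3 h2

theorem one_sub_mem {p : ℕ} (hp : p.Prime) : 0 ≤ 1 - 1 / (p : ℝ) ∧ 1 - 1 / (p : ℝ) ≤ 1 := by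
  have h1 : (2 : ℝ) ≤ p := by exact_mod_cast hp.two_le
  have h2 : 1 / (p : ℝ) ≤ 1 := by
    rw [div_le_one (by (clear * - h1; linarith))]
    (clear * - h1; linarith)
  have h3 : 0 ≤ 1 / (p : ℝ) := by (clear * - h1; positivity)
  constructor <;> (clear * - h2 h3; linarith)

theorem totient_div {W : ℕ} (hW : 0 < W) :
    (W.totient : ℝ) / W = ∏ p ∈ W.primeFactors, (1 - 1 / (p : ℝ)) := by
  have hWr : (0 : ℝ) < W := by exact_mod_cast hW
  have h1 := Nat.totient_eq_mul_prod_factors W
  have h2 : (W.totient : ℝ) = W * ∏ p ∈ W.primeFactors, (1 - (p : ℝ)⁻¹) := by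
    have h3 := congrArg (fun q : ℚ => (q : ℝ)) h1
    push_cast at h3
    exact h3
  rw [h2, mul_div_assoc, mul_comm, div_mul_cancel₀ _ hWr.ne']
  refine Finset.prod_congr rfl fun p _ => ?_
  rw [one_div]

/-- The density of the large prime factors of `d`. -/
theorem density_le {D0 d W : ℕ} (hD0 : 2 ≤ D0) (hW : 0 < W) (hd : 0 < d)
    (hp : ∀ p : ℕ, p.Prime → p ∣ W → p < D0 ∨ p ∣ d) :
    ∏ p ∈ d.primeFactors.filter (fun p => D0 ≤ p), (1 - 1 / (p : ℝ)) ≤
      D0 * ((W.totient : ℝ) / W) := by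
  classical
  rw [totient_div hW]
  set P := ∏ p ∈ d.primeFactors.filter (fun p => D0 ≤ p), (1 - 1 / (p : ℝ)) with hP
  have hPnn : 0 ≤ P := Finset.prod_nonneg fun p hp =>
    (one_sub_mem (Nat.prime_of_mem_primeFactors (mem_filter.1 hp).1)).1
  rw [← Finset.prod_filter_mul_prod_filter_not W.primeFactors (fun p => p < D0)]
  have h1 : 1 / (D0 : ℝ) ≤ ∏ p ∈ W.primeFactors.filter (fun p => p < D0), (1 - 1 / (p : ℝ)) := by
    obtain ⟨n, rfl⟩ : ∃ n, D0 = n + 2 := ⟨D0 - 2, by omega⟩
    have h2 : ∏ j ∈ Ico 2 (n + 2), (1 - 1 / (j : ℝ)) ≤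
        ∏ p ∈ W.primeFactors.filter (fun p => p < n + 2), (1 - 1 / (p : ℝ)) := by
      apply prod_subset_le
      · intro p hp
        rw [mem_filter] at hp
        rw [mem_Ico]
        exact ⟨(Nat.prime_of_mem_primeFactors hp.1).two_le, hp.2⟩
      · intro j hj
        rw [mem_Ico] at hj
        have h3 : (2 : ℝ) ≤ j := by exact_mod_cast hj.1
        have h4 : 1 / (j : ℝ) ≤ 1 := by
          rw [div_le_one (by (clear * - h3; linarith))]
          (clear * - h3; linarith)
        (clear * - h4; linarith)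
      · intro j _
        have : 0 ≤ 1 / (j : ℝ) := by (clear * -; positivity)
        (clear * - this; linarith)
    rw [prod_Ico] at h2
    refine le_trans ?_ h2
    push_cast
    apply one_div_le_one_div_of_le (by (clear * -; positivity))
    (clear * -; linarith)
  have h5 : P ≤ ∏ p ∈ W.primeFactors.filter (fun p => ¬ p < D0), (1 - 1 / (p : ℝ)) := by
    apply prod_subset_le
    · intro p hp'
      rw [mem_filter] at hp' ⊢
      have h6 := Nat.prime_of_mem_primeFactors hp'.1
      have h7 := Nat.dvd_of_mem_primeFactors hp'.1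
      have h8 : p ∣ d := by
        rcases hp p h6 h7 with h9 | h9
        · exact absurd h9 hp'.2
        · exact h9
      exact ⟨Nat.mem_primeFactors.2 ⟨h6, h8, hd.ne'⟩, not_lt.1 hp'.2⟩
    · intro p hp'
      exact (one_sub_mem (Nat.prime_of_mem_primeFactors (mem_filter.1 hp').1)).1
    · intro p hp'
      exact (one_sub_mem (Nat.prime_of_mem_primeFactors (mem_filter.1 hp').1)).2
  have hD0r : (0 : ℝ) < D0 := by exact_mod_cast (by omega : 0 < D0)
  have h10 : 1 / (D0 : ℝ) * P ≤
      (∏ p ∈ W.primeFactors.filter (fun p => p < D0), (1 - 1 / (p : ℝ))) *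
        ∏ p ∈ W.primeFactors.filter (fun p => ¬ p < D0), (1 - 1 / (p : ℝ)) :=
    mul_le_mul h1 h5 hPnn (le_trans (by positivity) h1)
  calc P = D0 * (1 / (D0 : ℝ) * P) := by field_simp
    _ ≤ _ := mul_le_mul_of_nonneg_left h10 hD0r.le

theorem Sg_anti {κ : Type} [Fintype κ] (h : κ → ℕ) {W d t : ℕ}
    (hdW : ∀ p : ℕ, p.Prime → p ∣ d → p ∣ W) : Sg h W t ≤ Sg h d t := by
  unfold Sg
  apply prod_subset_ge
  · intro p hp
    rw [mem_filter] at hp ⊢
    exact ⟨hp.1, fun hpd => hp.2 (hdW p (Nat.prime_of_mem_primeFactors hp.1) hpd)⟩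
  · intro p _
    have : 0 ≤ 1 / (p : ℝ) := by (clear * -; positivity)
    (clear * - this; linarith)

theorem Sg_le_full {κ : Type} [Fintype κ] (h : κ → ℕ) (W t : ℕ) :
    Sg h W t ≤ ∏ p ∈ (∏ i, ((h i : ℤ) - t).natAbs).primeFactors, (1 + 1 / (p : ℝ)) := by
  unfold Sg
  apply prod_subset_ge (Finset.filter_subset _ _)
  intro p _
  have : 0 ≤ 1 / (p : ℝ) := by (clear * -; positivity)
  linarith

theorem Sg_nonneg {κ : Type} [Fintype κ] (h : κ → ℕ) (W t : ℕ) : 0 ≤ Sg h W t := by
  unfold Sg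
  exact Finset.prod_nonneg fun p _ => by (clear * -; positivity)

/-- The final computation. -/
theorem inter_num {Cb r c Cs D0 Ca k S V G1 G2 d ρ lx LL s1 s2 q : ℝ} (hCb : 0 < Cb) (hr : 0 < r)
    (hc : 0 < c) (hCs : 0 < Cs) (hD0 : 0 < D0) (hCa : 0 < Ca) (hk : 0 < k) (hS : 0 ≤ S)
    (hV : c * ρ * (lx / 82) ≤ V) (hρ : 0 < ρ) (hlx : 0 < lx) (hd : 0 < d) (hG1 : 0 ≤ G1)
    (hG2 : 0 ≤ G2) (hG1q : G1 ≤ q) (hG2q : G2 * (4 * LL) ≤ 4 * q)
    (hρ1 : 1 / ρ ≤ 4 * LL) (hs1 : s1 ≤ Cs * d * (D0 * ρ)) (hs2 : s2 ≤ Ca * k * d)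
    (hq : 0 ≤ q) :
    2 * Cb * r * S / V * (G1 * s1 + G2 * s2) ≤
      164 * Cb * r / c * (Cs * D0 + 4 * Ca * k) * q * d / lx * S := by
  have hV0 : 0 < c * ρ * (lx / 82) := by (clear * - hc hρ hlx; positivity)
  have h1 : 2 * Cb * r * S / V ≤ 2 * Cb * r * S / (c * ρ * (lx / 82)) :=
    div_le_div_of_nonneg_left (by (clear * - hCb hr hS; positivity)) hV0 hV
  have h2 : G1 * s1 + G2 * s2 ≤ G1 * (Cs * d * (D0 * ρ)) + G2 * (Ca * k * d) :=
    add_le_add (mul_le_mul_of_nonneg_left hs1 hG1) (mul_le_mul_of_nonneg_left hs2 hG2)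
  have h3 : 0 ≤ G1 * (Cs * d * (D0 * ρ)) + G2 * (Ca * k * d) := by (clear * - hG1 hCs hd hD0 hρ hG2 hCa hk; positivity)
  have hVpos : 0 < V := lt_of_lt_of_le hV0 hV
  calc 2 * Cb * r * S / V * (G1 * s1 + G2 * s2)
      ≤ 2 * Cb * r * S / V * (G1 * (Cs * d * (D0 * ρ)) + G2 * (Ca * k * d)) :=
        mul_le_mul_of_nonneg_left h2 (by (clear * - hCb hr hS hVpos; positivity))
    _ ≤ 2 * Cb * r * S / (c * ρ * (lx / 82)) *
          (G1 * (Cs * d * (D0 * ρ)) + G2 * (Ca * k * d)) :=
        mul_le_mul_of_nonneg_right h1 h3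
    _ = 164 * Cb * r / c * d / lx * S * (G1 * (Cs * D0) + G2 * (1 / ρ) * (Ca * k)) := by
        field_simp
        ring
    _ ≤ 164 * Cb * r / c * d / lx * S * (q * (Cs * D0) + 4 * q * (Ca * k)) := by
        apply mul_le_mul_of_nonneg_left _ (by (clear * - hCb hr hc hd hlx hS; positivity))
        apply add_le_add
        · exact mul_le_mul_of_nonneg_right hG1q (by positivity)
        · apply mul_le_mul_of_nonneg_right _ (by positivity)
          exact (mul_le_mul_of_nonneg_left hρ1 hG2).trans hG2q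
    _ = _ := by ring

end Pool.Agent.Helper4.PU

end

section

set_option autoImplicit false

open Finset Filter

open ArithmeticFunction (cardFactors)

namespace Pool.Agent.Helper66.PU

open Pool.Agent.Helper4.PU (Sg SingCop Sg_nonneg Sg_anti Sg_le_full density_le inter_num)

theorem card_le_smallF {k : ℕ} {z : ℝ} {n : ℕ} (hn : n ≠ 0) (A : Finset ℕ)
    (hA : ∀ p ∈ A, p.Prime ∧ p ∣ n ∧ k < p ∧ (p : ℝ) ≤ z) : A.card ≤ smallF k z n := by
  unfold smallF
  have h1 : A ⊆ n.primeFactors.filter (fun p => k < p ∧ (p : ℝ) ≤ z) := by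
    intro p hp
    obtain ⟨h1, h2, h3, h4⟩ := hA p hp
    rw [mem_filter, Nat.mem_primeFactors]
    exact ⟨⟨h1, h2, hn⟩, h3, h4⟩
  calc A.card = ∑ _p ∈ A, 1 := by rw [Finset.card_eq_sum_ones]
    _ ≤ ∑ p ∈ A, n.factorization p := by
        apply Finset.sum_le_sum
        intro p hp
        obtain ⟨h1, h2, h3, h4⟩ := hA p hp
        exact (h1.dvd_iff_one_le_factorization hn).1 h2
    _ ≤ _ := Finset.sum_le_sum_of_subset h1

end Pool.Agent.Helper66.PU

end

section

set_option autoImplicit false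

open Finset Filter

open ArithmeticFunction (cardFactors)

namespace Pool.Agent.Helper66.PU

open Pool.Agent.Helper1.MT

open Pool.Agent.Helper66.PV

theorem totient_div_eq {n : ℕ} (hn : 0 < n) :
    (n.totient : ℝ) / n = ∏ p ∈ n.primeFactors, (1 - (p : ℝ)⁻¹) := by
  have hnr : (0 : ℝ) < n := by exact_mod_cast hn
  have h2 := Nat.totient_eq_mul_prod_factors n
  have h3 := congrArg (Rat.cast : ℚ → ℝ) h2
  push_cast at h3
  rw [h3]
  (clear * - hn; field_simp)

theorem totient_div_anti {a b : ℕ} (ha : 0 < a) (hb : 0 < b)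
    (h : ∀ p : ℕ, p.Prime → p ∣ a → p ∣ b) :
    (b.totient : ℝ) / b ≤ (a.totient : ℝ) / a := by
  rw [totient_div_eq ha, totient_div_eq hb]
  have h01 : ∀ p ∈ b.primeFactors, 0 ≤ 1 - (p : ℝ)⁻¹ ∧ 1 - (p : ℝ)⁻¹ ≤ 1 := by
    intro p hp
    have h1 : (1 : ℝ) ≤ p := by exact_mod_cast (Nat.prime_of_mem_primeFactors hp).one_lt.le
    have h2 : (p : ℝ)⁻¹ ≤ 1 := inv_le_one_of_one_le₀ h1
    have h3 : (0 : ℝ) ≤ (p : ℝ)⁻¹ := by (clear * - h1; positivity)
    constructor <;> (clear * - h2 h3; linarith)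
  have hsub : a.primeFactors ⊆ b.primeFactors := by
    intro p hp
    rw [Nat.mem_primeFactors] at hp ⊢
    exact ⟨hp.1, h p hp.1 hp.2.1, by omega⟩
  rw [← Finset.prod_sdiff hsub]
  refine mul_le_of_le_one_left ?_ ?_
  · exact Finset.prod_nonneg fun p hp => (h01 p (hsub hp)).1
  · exact Finset.prod_le_one (fun p hp => (h01 p (Finset.mem_sdiff.1 hp).1).1)
      fun p hp => (h01 p (Finset.mem_sdiff.1 hp).1).2

end Pool.Agent.Helper66.PU

end

section

set_option autoImplicit false

open Finset Filter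

open ArithmeticFunction (cardFactors)

namespace Pool.Agent.Helper66.PU

open Pool.Agent.Helper1.MT

open Pool.Agent.Helper66.PV

/-- `n` is good: the `n + i d` have at most `R₀` prime factors, those larger than `k` are larger
than `n ^ δ`, at least `c log k` of the `n + i d` are primes, and `T d n` does not hold. -/
structure GoodT (T : ℕ → ℕ → Prop) (c : ℝ) (k d R₀ : ℕ) (δ : ℝ) (n : ℕ) : Prop where
  few : ∀ i < k, cardFactors (n + i * d) ≤ R₀
  big : ∀ i < k, ∀ p : ℕ, p.Prime → p ∣ n + i * d → p ≤ k ∨ (n : ℝ) ^ δ < p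
  inter : ¬ T d n
  primes : c * Real.log k ≤ (((range k).filter (fun i => (n + i * d).Prime)).card : ℝ)

end Pool.Agent.Helper66.PU

end

section

set_option autoImplicit false

open Finset

namespace Pool.Agent.Helper4.PU

open Pool.Agent.Helper1.MT

/-- `∑_{A ⊆ B, |A| ≤ m} ∏_{p ∈ A} f p ≤ (1 + ∑_{p ∈ B} f p)^m` for `f ≥ 0`. -/
theorem sum_small_sets (f : ℕ → ℝ) (B : Finset ℕ) (hf : ∀ p ∈ B, 0 ≤ f p) (m : ℕ) :
    ∑ A ∈ B.powerset, (if A.card ≤ m then ∏ p ∈ A, f p else 0) ≤ (1 + ∑ p ∈ B, f p) ^ m := by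
  classical
  induction B using Finset.induction_on generalizing m with
  | empty => simp
  | insert a B ha ih =>
    have hfB : ∀ p ∈ B, 0 ≤ f p := fun p hp => hf p (mem_insert_of_mem hp)
    have hfa : 0 ≤ f a := hf a (mem_insert_self _ _)
    have hs : 0 ≤ ∑ p ∈ B, f p := Finset.sum_nonneg hfB
    rw [Finset.sum_powerset_insert ha, Finset.sum_insert ha]
    rcases m with _ | m
    · have h2 : ∑ t ∈ B.powerset,
          (if (insert a t).card ≤ 0 then ∏ p ∈ insert a t, f p else 0) = 0 := by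
        refine Finset.sum_eq_zero fun t _ => ?_
        rw [if_neg]
        rw [Nat.le_zero, Finset.card_eq_zero]
        exact Finset.insert_ne_empty _ _
      rw [h2, add_zero, pow_zero]
      have h3 := ih hfB 0
      rwa [pow_zero] at h3
    · have h2 : ∑ t ∈ B.powerset,
          (if (insert a t).card ≤ m + 1 then ∏ p ∈ insert a t, f p else 0) =
          f a * ∑ t ∈ B.powerset, (if t.card ≤ m then ∏ p ∈ t, f p else 0) := by
        rw [Finset.mul_sum]
        refine Finset.sum_congr rfl fun t ht => ?_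
        have hat : a ∉ t := fun h => ha (Finset.mem_powerset.1 ht h)
        rw [Finset.card_insert_of_notMem hat, Finset.prod_insert hat]
        by_cases h : t.card ≤ m
        · rw [if_pos h, if_pos (by omega)]
        · rw [if_neg h, if_neg (by omega), mul_zero]
      rw [h2]
      have h3 := ih hfB (m + 1)
      have h4 := mul_le_mul_of_nonneg_left (ih hfB m) hfa
      have h5 : (1 + ∑ p ∈ B, f p) ^ m ≤ (1 + (f a + ∑ p ∈ B, f p)) ^ m :=
        pow_le_pow_left₀ (by linarith) (by (clear * - hfa; linarith)) m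
      calc _ ≤ (1 + ∑ p ∈ B, f p) ^ (m + 1) + f a * (1 + ∑ p ∈ B, f p) ^ m :=
            add_le_add h3 h4
        _ = (1 + ∑ p ∈ B, f p) ^ m * (1 + (f a + ∑ p ∈ B, f p)) := by ring
        _ ≤ (1 + (f a + ∑ p ∈ B, f p)) ^ m * (1 + (f a + ∑ p ∈ B, f p)) :=
            mul_le_mul_of_nonneg_right h5 (by linarith)
        _ = _ := by ring

end Pool.Agent.Helper4.PU

end

section

set_option autoImplicit false

open Finset

namespace Pool.Agent.Helper4.PU

theorem base_case (e a N : ℕ) (he : 0 < e) :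
    |((((range N).filter (fun t => t ≡ a [MOD e])).card : ℕ) : ℝ) - N / e| ≤ 1 := by
  rw [← Nat.count_eq_card_filter_range, Nat.count_modEq_card N he]
  have he' : (0 : ℝ) < e := by exact_mod_cast he
  have h1 : ((N / e : ℕ) : ℝ) ≤ (N : ℝ) / e := Nat.cast_div_le
  have h2 : (N : ℝ) / e < ((N / e : ℕ) : ℝ) + 1 := by
    rw [div_lt_iff₀ he']
    have h3 : N < e * (N / e + 1) := Nat.lt_mul_div_succ N he
    have h4 : (N : ℝ) < ((e * (N / e + 1) : ℕ) : ℝ) := by exact_mod_cast h3
    push_cast at h4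
    (clear * - h4; linarith)
  rw [abs_le]
  split_ifs
  · push_cast
    constructor <;> (clear * - h2 h1; linarith)
  · push_cast
    constructor <;> (clear * - h2 h1; linarith)

end Pool.Agent.Helper4.PU

end

section

set_option autoImplicit false

open Finset

namespace Pool.Agent.Helper4.PU

theorem prod_le_card (S : Finset ℕ) (hS : ∀ p ∈ S, 2 ≤ p) :
    ∏ p ∈ S, ((p : ℝ) / ((p : ℝ) - 1)) ≤ S.card + 1 := by
  induction S using Finset.induction_on_max with
  | empty => simp
  | insert a s hlt ih =>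
    have ha : a ∉ s := fun h => lt_irrefl a (hlt a h)
    rw [prod_insert ha, card_insert_of_notMem ha]
    have h1 := ih fun p hp => hS p (mem_insert_of_mem hp)
    have h2 : s.card + 2 ≤ a := by
      have h3 : s ⊆ Finset.Ico 2 a := fun p hp =>
        Finset.mem_Ico.2 ⟨hS p (mem_insert_of_mem hp), hlt p hp⟩
      have h4 := card_le_card h3
      rw [Nat.card_Ico] at h4
      have h5 := hS a (mem_insert_self a s)
      omega
    have h2' : (s.card : ℝ) + 2 ≤ a := by exact_mod_cast h2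
    have hc : (0 : ℝ) ≤ s.card := Nat.cast_nonneg _
    have h6 : (a : ℝ) / ((a : ℝ) - 1) ≤ (s.card + 2) / (s.card + 1) := by
      rw [div_le_div_iff₀ (by (clear * - h2'; linarith)) (by (clear * -; linarith))]
      (clear * - h2'; nlinarith)
    have h7 : 0 ≤ ∏ p ∈ s, ((p : ℝ) / ((p : ℝ) - 1)) := by
      refine prod_nonneg fun p hp => ?_
      have h8 : (2 : ℝ) ≤ p := by exact_mod_cast hS p (mem_insert_of_mem hp)
      exact div_nonneg (by (clear * - h8; linarith)) (by (clear * - h8; linarith))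
    calc (a : ℝ) / ((a : ℝ) - 1) * ∏ p ∈ s, ((p : ℝ) / ((p : ℝ) - 1))
        ≤ (s.card + 2) / (s.card + 1) * (s.card + 1) :=
          mul_le_mul h6 h1 h7 (div_nonneg (by (clear * -; linarith)) (by (clear * -; linarith)))
      _ = ((s.card + 1 : ℕ) : ℝ) + 1 := by
          rw [div_mul_cancel₀ _ (by (clear * -; linarith) : (s.card : ℝ) + 1 ≠ 0)]
          push_cast
          ring

end Pool.Agent.Helper4.PU

end

section

set_option autoImplicit false

open Finset Filter

namespace Pool.Agent.Helper4.PL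

open Pool.Agent.Helper1.MT

open Pool.Agent.Helper66.PAP

/-- The prime factors larger than `R`. -/
theorem exp_large {R m N : ℕ} (hR : 2 ≤ R) (hm : m ≠ 0) (h : m ≤ R ^ N) :
    ∑ p ∈ m.primeFactors.filter (fun p => R < p), m.factorization p ≤ N := by
  have h1 : R ^ (∑ p ∈ m.primeFactors.filter (fun p => R < p), m.factorization p) ≤ R ^ N := by
    refine le_trans ?_ h
    rw [← Finset.prod_pow_eq_pow_sum]
    calc ∏ p ∈ m.primeFactors.filter (fun p => R < p), R ^ m.factorization p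
        ≤ ∏ p ∈ m.primeFactors.filter (fun p => R < p), p ^ m.factorization p := by
          apply Finset.prod_le_prod'
          intro p hp
          exact Nat.pow_le_pow_left (mem_filter.1 hp).2.le _
      _ ≤ ∏ p ∈ m.primeFactors, p ^ m.factorization p := by
          apply Finset.prod_le_prod_of_subset_of_one_le' (Finset.filter_subset _ _)
          intro p hp _
          exact Nat.one_le_pow _ _ (Nat.prime_of_mem_primeFactors hp).pos
      _ = m := by
          have h4 := Nat.prod_factorization_pow_eq_self hm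
          rw [Finsupp.prod, Nat.support_factorization] at h4
          exact h4
  exact (Nat.pow_le_pow_iff_right (by omega)).1 h1

end Pool.Agent.Helper4.PL

end

section

set_option autoImplicit false

open Finset Filter

namespace Pool.Agent.Helper4.PU

open Pool.Agent.Helper1.MT

/-- The facts on large `x` that do not depend on `W` and `h`. -/
theorem many_evU (A : ℝ) : ∀ᶠ x : ℝ in atTop, Real.log x ^ A ≤ x ^ (1 / 10 : ℝ) ∧
    (3 : ℝ) ≤ x ^ (1 / 5 : ℝ) ∧ (1 : ℝ) ≤ x := by
  have h0 : (0 : ℝ) < 1 / 10 := by norm_num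
  have h1 := (isLittleO_log_rpow_rpow_atTop A h0).bound one_pos
  have h2 : Tendsto (fun x : ℝ => x ^ (1 / 5 : ℝ)) atTop atTop :=
    tendsto_rpow_atTop (by norm_num)
  filter_upwards [h1, h2.eventually_ge_atTop 3, eventually_ge_atTop (1 : ℝ)] with x hx hx5 hx1
  refine ⟨?_, hx5, hx1⟩
  have h3 : Real.log x ^ A ≤ ‖Real.log x ^ A‖ := Real.le_norm_self _
  have h4 : ‖x ^ (1 / 10 : ℝ)‖ = x ^ (1 / 10 : ℝ) :=
    Real.norm_of_nonneg (Real.rpow_nonneg (by (clear * - hx1; linarith)) _)
  rw [one_mul, h4] at hx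
  exact h3.trans hx

end Pool.Agent.Helper4.PU

end

section

set_option autoImplicit false

open Finset

namespace Pool.Agent.Helper56.PU

open Pool.Agent.Helper1.MT Pool.Agent.Helper28.MT Pool.Agent.Helper81.MT

/-- A product of `1 - 1/k` over a finite set of integers `k ≥ 2`. -/
theorem prod_one_sub (n : ℕ) : ∀ S : Finset ℕ, S.card = n → (∀ k ∈ S, 2 ≤ k) →
    1 / ((n : ℝ) + 1) ≤ ∏ k ∈ S, (1 - 1 / (k : ℝ)) := by
  induction n with
  | zero =>
    intro S hS _
    rw [Finset.card_eq_zero.1 hS]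
    simp
  | succ n ih =>
    intro S hS h2
    have hne : S.Nonempty := by
      rw [← Finset.card_pos]
      omega
    set m := S.max' hne with hm
    have hmS : m ∈ S := S.max'_mem hne
    have hcard : (S.erase m).card = n := by
      rw [Finset.card_erase_of_mem hmS, hS]
      rfl
    have hsub : S ⊆ Icc 2 m := by
      intro k hk
      rw [mem_Icc]
      exact ⟨h2 k hk, S.le_max' k hk⟩
    have hm1 : n + 2 ≤ m := by
      have h3 := Finset.card_le_card hsub
      rw [hS, Nat.card_Icc] at h3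
      have := h2 m hmS
      omega
    have hm1' : (n : ℝ) + 2 ≤ m := by exact_mod_cast hm1
    have h4 := ih (S.erase m) hcard (fun k hk => h2 k (Finset.mem_of_mem_erase hk))
    rw [← Finset.mul_prod_erase S _ hmS]
    have h5 : ((n : ℝ) + 1) / (n + 2) ≤ 1 - 1 / (m : ℝ) := by
      have h6 : 1 / (m : ℝ) ≤ 1 / ((n : ℝ) + 2) := one_div_le_one_div_of_le (by (clear * -; positivity)) hm1'
      have h7 : ((n : ℝ) + 1) / (n + 2) = 1 - 1 / ((n : ℝ) + 2) := by
        field_simp
        ring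
      rw [h7]
      (clear * - h6; linarith)
    have h8 : (1 : ℝ) / (((n + 1 : ℕ) : ℝ) + 1) = ((n : ℝ) + 1) / (n + 2) * (1 / ((n : ℝ) + 1)) := by
      push_cast
      field_simp
      ring
    rw [h8]
    apply mul_le_mul h5 h4 (by (clear * -; positivity))
    exact le_trans (by (clear * -; positivity)) h5

theorem card_primeFactors_le {W : ℕ} (hW : 0 < W) :
    (W.primeFactors.card : ℝ) ≤ 2 * Real.log W := by
  have h1 : 2 ^ W.primeFactors.card ≤ W := by
    calc 2 ^ W.primeFactors.card = ∏ _p ∈ W.primeFactors, 2 := by rw [Finset.prod_const]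
      _ ≤ ∏ p ∈ W.primeFactors, p :=
        Finset.prod_le_prod' fun p hp => (Nat.prime_of_mem_primeFactors hp).two_le
      _ ≤ W := Nat.le_of_dvd hW (Nat.prod_primeFactors_dvd W)
  have h2 : ((2 : ℝ)) ^ W.primeFactors.card ≤ W := by exact_mod_cast h1
  have h3 := Real.log_le_log (by positivity) h2
  rw [Real.log_pow] at h3
  have h4 : (1 / 2 : ℝ) ≤ Real.log 2 := by linarith [Real.log_two_gt_d9]
  have h5 : (0 : ℝ) ≤ (W.primeFactors.card : ℝ) := by (clear * -; positivity)
  (clear * - h3 h4; nlinarith)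

theorem totient_ge' {W : ℕ} (hW : 0 < W) :
    1 / (2 * (1 + Real.log W)) ≤ (W.totient : ℝ) / W := by
  have hW' : (0 : ℝ) < W := by exact_mod_cast hW
  have h1 : (W.totient : ℝ) / W = ∏ p ∈ W.primeFactors, (1 - 1 / (p : ℝ)) := by
    have h2 := Nat.totient_eq_mul_prod_factors W
    have h3 : (W.totient : ℝ) = W * ∏ p ∈ W.primeFactors, (1 - (p : ℝ)⁻¹) := by
      have := congrArg (Rat.cast : ℚ → ℝ) h2
      push_cast at this
      exact this
    rw [h3, mul_div_cancel_left₀ _ hW'.ne']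
    simp only [one_div]
  rw [h1]
  refine le_trans ?_ (prod_one_sub _ W.primeFactors rfl
    (fun p hp => (Nat.prime_of_mem_primeFactors hp).two_le))
  apply one_div_le_one_div_of_le (by (clear * -; positivity))
  have := card_primeFactors_le hW
  (clear * - this; linarith)

end Pool.Agent.Helper56.PU

end

section

set_option autoImplicit false

open Finset

namespace Pool.Agent.Helper7.PU

open Pool.Agent.Helper1.MT

open Pool.Agent.Helper28.MT

/-- The sum of `1 / d` over the squarefree `d ≤ z` coprime to `W`. -/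
noncomputable def gg (W : ℕ) (z : ℝ) : ℝ :=
  ∑ d ∈ (Icc 1 ⌊z⌋₊).filter (fun d => Squarefree d ∧ d.Coprime W), 1 / (d : ℝ)

theorem gg_nonneg (W : ℕ) (z : ℝ) : 0 ≤ gg W z := by
  unfold gg
  apply sum_nonneg
  intro d _
  (clear * -; positivity)

theorem gg_zero {W : ℕ} {z : ℝ} (hz : z < 1) : gg W z = 0 := by
  unfold gg
  have h : ⌊z⌋₊ = 0 := by
    rw [Nat.floor_eq_zero]
    exact hz
  rw [h]
  simp

/-- The sum over the integers between `z / q` and `z`. -/
theorem gg_sub {W : ℕ} {c a C q z z' : ℝ} (hc0 : 0 ≤ c) (hca : c ≤ a) (hC : 0 ≤ C)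
    (hG : ∀ z : ℝ, 1 ≤ z → |gg W z - c * Real.log z| ≤ C) (hq : 1 ≤ q) (hz : 0 < z')
    (hzz : z = q * z') : gg W z - gg W z' ≤ a * Real.log q + 2 * C := by
  have hlq : 0 ≤ Real.log q := Real.log_nonneg hq
  have hcq : c * Real.log q ≤ a * Real.log q := mul_le_mul_of_nonneg_right hca hlq
  have hcq0 : 0 ≤ c * Real.log q := mul_nonneg hc0 hlq
  have hlog : Real.log z = Real.log q + Real.log z' := by
    rw [hzz, Real.log_mul (by (clear * - hq; linarith)) hz.ne']
  have hle : z' ≤ z := by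
    rw [hzz]
    (clear * - hq hz; nlinarith)
  by_cases h1 : 1 ≤ z'
  · have e1 := abs_le.1 (hG z (h1.trans hle))
    have e2 := abs_le.1 (hG z' h1)
    rw [hlog, mul_add] at e1
    (clear * - hcq e1 e2; linarith [e1.2, e2.1])
  · have h1' : z' < 1 := not_le.1 h1
    have h0 := gg_nonneg W z'
    by_cases h2 : 1 ≤ z
    · have e1 := abs_le.1 (hG z h2)
      have h3 : Real.log z' ≤ 0 := Real.log_nonpos hz.le h1'.le
      have h4 : c * Real.log z' ≤ 0 := mul_nonpos_of_nonneg_of_nonpos hc0 h3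
      rw [hlog, mul_add] at e1
      (clear * - hC hcq h0 e1 h4; linarith [e1.2])
    · rw [gg_zero (not_le.1 h2)]
      linarith

end Pool.Agent.Helper7.PU

end
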