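import Pool.Agent.Helper23.MT.Defs

/-!
Parts of Helper66.PAP.Star, Helper66.PV.FinalA, Helper66.PU.InterG, Helper4.PU.Legendre, Helper4.PU.SingCop, Helper4.PL.Many, Helper4.PL.Square
-/

namespace Pool.Agent.Helper1.MT
end Pool.Agent.Helper1.MT
namespace Pool.Agent.Helper66.PAP
end Pool.Agent.Helper66.PAP

section

set_option autoImplicit false

open Finset

namespace Pool.Agent.Helper66.PAP

open Pool.Agent.Helper1.MT

section Arith

variable {κ : Type} [Fintype κ] [DecidableEq κ] {R W : ℕ}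

theorem exists_class (W v a : ℕ) {q : ℕ} (hq : q.Prime) (hqW : ¬ q ∣ W) :
    ∃ v' : ℕ, ∀ n : ℕ, n ≡ v' [MOD W * q] ↔ n ≡ v [MOD W] ∧ q ∣ n + a := by
  have hco : Nat.Coprime W q := ((Nat.Prime.coprime_iff_not_dvd hq).2 hqW).symm
  set b := (q - 1) * a with hb
  obtain ⟨v', hv'⟩ := Nat.chineseRemainder hco v b
  refine ⟨v', fun n => ?_⟩
  have hqa : q ∣ b + a := by
    have : b + a = q * a := by
      rw [hb]
      obtain ⟨m, hm⟩ : ∃ m, q = m + 1 := ⟨q - 1, (Nat.succ_pred_eq_of_pos hq.pos).symm⟩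
      rw [hm]
      simp
      ring
    rw [this]
    exact dvd_mul_right _ _
  rw [← Nat.modEq_and_modEq_iff_modEq_mul hco]
  constructor
  · rintro ⟨h1, h2⟩
    refine ⟨h1.trans hv'.1, ?_⟩
    have h3 : n + a ≡ b + a [MOD q] := (h2.trans hv'.2).add_right a
    exact (Nat.ModEq.dvd_iff h3 dvd_rfl).2 hqa
  · rintro ⟨h1, h2⟩
    refine ⟨h1.trans hv'.1.symm, ?_⟩
    have h3 : n + a ≡ b + a [MOD q] :=
      ((Nat.modEq_zero_iff_dvd).2 h2).trans ((Nat.modEq_zero_iff_dvd).2 hqa).symm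
    exact (Nat.ModEq.add_right_cancel' _ h3).trans hv'.2.symm

end Arith

end Pool.Agent.Helper66.PAP

end

section

set_option autoImplicit false

set_option linter.unusedSectionVars false

open Finset Filter

namespace Pool.Agent.Helper66.PV

open Pool.Agent.Helper1.MT

/-- The sum over a union of two sets. -/
theorem sum_or_le {s : Finset ℕ} {A B : ℕ → Prop} [DecidablePred A] [DecidablePred B]
    [DecidablePred fun n => A n ∨ B n] {u : ℕ → ℝ} (hu : ∀ n, 0 ≤ u n) :
    ∑ n ∈ s.filter (fun n => A n ∨ B n), u n ≤ ∑ n ∈ s.filter A, u n + ∑ n ∈ s.filter B, u n := by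
  classical
  have h1 : s.filter (fun n => A n ∨ B n) = s.filter A ∪ s.filter B := by
    ext n
    simp only [mem_filter, mem_union]
    tauto
  rw [h1, ← Finset.sum_union_inter]
  have h2 : 0 ≤ ∑ n ∈ s.filter A ∩ s.filter B, u n := Finset.sum_nonneg fun n _ => hu n
  (clear * - h2; linarith)

/-- The bound for the number of prime factors. -/
theorem num_r {L L0 L1 l s : ℝ} (hl : l ≤ L) (hL : 1 / 2 ≤ L) (hL0 : 0 ≤ L0) (hL1 : 0 ≤ L1)
    (hs : s ≤ 72 * (3 * l + L0) + 2 * l + L1 + 1) :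
    s ≤ (218 + 2 * (72 * L0 + L1 + 1)) * L := by
  have h3 : 0 ≤ 72 * L0 + L1 + 1 := by (clear * - hL0 hL1; positivity)
  have h2 : 72 * L0 + L1 + 1 ≤ 2 * (72 * L0 + L1 + 1) * L := by (clear * - hL hL0 hL1; nlinarith)
  (clear * - hl hs h2; linarith)

theorem num_r2 {C s L E : ℝ} (hE : 0 ≤ E * L) (hL : 1 / 2 ≤ L) (hs : s ≤ C * L) :
    6 * s + 164 ≤ (6 * C + 328 + E) * L := by
  linarith

theorem num_b {k J c D : ℝ} (hJ : 0 ≤ J) (hc : 0 < c) (hD : 0 < D) (h : 192 * k ^ 4 / c ≤ D) :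
    k * (4 * k ^ 3 / D) ≤ c * (J + 2) / 4 / 24 := by
  rw [div_le_iff₀ hc] at h
  have h5 : k * (4 * k ^ 3 / D) = 4 * k ^ 4 / D := by ring
  rw [h5, div_le_iff₀ hD]
  have h6 : 0 ≤ J * (D * c) := by positivity
  (clear * - h h6; nlinarith)

theorem num_c {k L1 c : ℝ} {s : ℕ} (hk : 1 ≤ k) (hc : 0 < c) (hL1 : Real.log (48 / c) ≤ L1)
    (hs : 2 * Real.log k + L1 ≤ s) : Real.exp (-s) ≤ c / 48 / k ^ 2 := by
  have hk0 : 0 < k := by (clear * - hk; linarith)
  calc Real.exp (-s) ≤ Real.exp (-(Real.log (k ^ 2) + Real.log (48 / c))) := by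
        apply Real.exp_le_exp.2
        rw [Real.log_pow]
        push_cast
        linarith
    _ = c / 48 / k ^ 2 := by
        rw [neg_add, Real.exp_add, Real.exp_neg, Real.exp_neg, Real.exp_log (by (clear * - hk; positivity)),
          Real.exp_log (by positivity)]
        field_simp

theorem num_d {k J c X : ℝ} (hk : 1 ≤ k) (hJ : 0 ≤ J) (hc : 0 < c) (hX : X ≤ c / 48 / k ^ 2) :
    k * (k * X) ≤ c * (J + 2) / 4 / 24 := by
  have hk0 : 0 < k := by (clear * - hk; linarith)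
  calc k * (k * X) ≤ k * (k * (c / 48 / k ^ 2)) :=
        mul_le_mul_of_nonneg_left (mul_le_mul_of_nonneg_left hX hk0.le) hk0.le
    _ = c / 48 := by field_simp
    _ ≤ c * (J + 2) / 4 / 24 := by
        have : 0 ≤ c * J := by positivity
        linarith

theorem num_G {c J N : ℝ} (hc : 0 < c) (hJ : 0 ≤ J) (hN : 1 ≤ N) :
    c * (J + 2) / 4 ≤ N * (c * ((J + 2) / (3 * N + 1))) := by
  have h2 : N * (c * ((J + 2) / (3 * N + 1))) = c * (J + 2) * (N / (3 * N + 1)) := by ring
  have h3 : (1 : ℝ) / 4 ≤ N / (3 * N + 1) := by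
    rw [div_le_div_iff₀ (by norm_num) (by (clear * - hN; linarith))]
    (clear * - hN; linarith)
  rw [h2]
  calc c * (J + 2) / 4 = c * (J + 2) * (1 / 4) := by ring
    _ ≤ _ := mul_le_mul_of_nonneg_left h3 (by (clear * - hc hJ; positivity))

end Pool.Agent.Helper66.PV

end

section

set_option autoImplicit false

open Finset Filter

open ArithmeticFunction (cardFactors)

namespace Pool.Agent.Helper66.PU

/-- Some integer between `n` and `n + (k-1) d`, not of the form `n + i d`, has at most `j` small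
prime factors. -/
def InterG (k d j : ℕ) (δ : ℝ) (n : ℕ) : Prop :=
  ∃ t < (k - 1) * d, ¬ d ∣ t ∧ smallF k (((n + t : ℕ) : ℝ) ^ δ) (n + t) ≤ j

end Pool.Agent.Helper66.PU

end

section

set_option autoImplicit false

open Finset

namespace Pool.Agent.Helper4.PU

theorem class_iff {q e a v : ℕ} (hq : q.Prime) (hqe : ¬ q ∣ e) :
    ∃ a', ∀ t, (t ≡ a [MOD e] ∧ q ∣ v + t) ↔ t ≡ a' [MOD e * q] := by
  have hc : Nat.Coprime e q := ((Nat.Prime.coprime_iff_not_dvd hq).2 hqe).symm
  -- a residue `b` with `q ∣ v + b`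
  have hb : ∀ t, q ∣ v + t ↔ t ≡ (q - v % q) [MOD q] := by
    intro t
    have hlt : v % q < q := Nat.mod_lt _ hq.pos
    have h1 : v + (q - v % q) ≡ 0 [MOD q] := by
      have h2 : v + (q - v % q) = q * (v / q + 1) := by
        have := Nat.div_add_mod v q
        rw [mul_add, mul_one]
        omega
      rw [h2]
      exact (Nat.modEq_zero_iff_dvd).2 (dvd_mul_right _ _)
    constructor
    · intro h
      have h3 : v + t ≡ v + (q - v % q) [MOD q] :=
        ((Nat.modEq_zero_iff_dvd).2 h).trans h1.symm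
      exact Nat.ModEq.add_left_cancel' v h3
    · intro h
      exact (Nat.modEq_zero_iff_dvd).1 ((Nat.ModEq.add_left v h).trans h1)
  obtain ⟨c, hc1, hc2⟩ := Nat.chineseRemainder hc a (q - v % q)
  refine ⟨c, fun t => ?_⟩
  rw [hb t]
  constructor
  · rintro ⟨h1, h2⟩
    exact (Nat.modEq_and_modEq_iff_modEq_mul hc).1 ⟨h1.trans hc1.symm, h2.trans hc2.symm⟩
  · intro h
    have h3 := (Nat.modEq_and_modEq_iff_modEq_mul hc).2 h
    exact ⟨h3.1.trans hc1, h3.2.trans hc2⟩

end Pool.Agent.Helper4.PU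

end

section

set_option autoImplicit false

open Finset

namespace Pool.Agent.Helper4.PU

theorem prod_le_sum_pow {ι : Type} (k : ℕ) (s : Finset ι) (hs : s.Nonempty)
    (hc : s.card ≤ k) (u : ι → ℝ) (hu : ∀ i ∈ s, 1 ≤ u i) : ∏ i ∈ s, u i ≤ ∑ i ∈ s, u i ^ k := by
  classical
  obtain ⟨m, hm, hmax⟩ := Finset.exists_max_image s u hs
  calc ∏ i ∈ s, u i ≤ ∏ i ∈ s, u m := by
        apply Finset.prod_le_prod
        · intro i hi; (clear * - hu hi; linarith [hu i hi])
        · intro i hi; exact hmax i hi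
    _ = u m ^ s.card := by rw [Finset.prod_const]
    _ ≤ u m ^ k := pow_le_pow_right₀ (hu m hm) hc
    _ ≤ ∑ i ∈ s, u i ^ k := by
        apply Finset.single_le_sum (f := fun i => u i ^ k) _ hm
        intro i hi
        have := hu i hi
        (clear * - this; positivity)

end Pool.Agent.Helper4.PU

end

section

set_option autoImplicit false

open Finset Filter

namespace Pool.Agent.Helper4.PL

open Pool.Agent.Helper1.MT

open Pool.Agent.Helper66.PAP

theorem prod_ge_pow {P : ℝ} (hP : 0 ≤ P) (s m : ℕ) : ∀ B : Finset ℕ, (∀ b ∈ B, 1 ≤ b) →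
    m * s ≤ B.card → (∀ A ⊆ B, A.card = s → P ≤ ∏ b ∈ A, (b : ℝ)) →
    P ^ m ≤ ∏ b ∈ B, (b : ℝ) := by
  classical
  induction m with
  | zero =>
    intro B hB _ _
    rw [pow_zero]
    calc (1 : ℝ) = ∏ _b ∈ B, (1 : ℝ) := by rw [Finset.prod_const_one]
      _ ≤ ∏ b ∈ B, (b : ℝ) :=
        Finset.prod_le_prod (fun b _ => zero_le_one) (fun b hb => by exact_mod_cast hB b hb)
  | succ m ih =>
    intro B hB hc hall
    have hs : s ≤ B.card := by
      calc s = 1 * s := (one_mul s).symm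
        _ ≤ (m + 1) * s := Nat.mul_le_mul_right _ (by omega)
        _ ≤ B.card := hc
    obtain ⟨A, hA, hAc⟩ := Finset.exists_subset_card_eq hs
    have hc' : m * s ≤ (B \ A).card := by
      rw [Finset.card_sdiff_of_subset hA, hAc]
      have : (m + 1) * s = m * s + s := by ring
      omega
    have h1 := ih (B \ A) (fun b hb => hB b (Finset.mem_sdiff.1 hb).1) hc'
      (fun A' hA' hc => hall A' (hA'.trans Finset.sdiff_subset) hc)
    have h2 := hall A hA hAc
    rw [← Finset.prod_sdiff hA, pow_succ]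
    exact mul_le_mul h1 h2 hP (le_trans (pow_nonneg hP _) h1)

end Pool.Agent.Helper4.PL

end

section

set_option autoImplicit false

open Finset Filter

namespace Pool.Agent.Helper4.PL

open Pool.Agent.Helper1.MT

open Pool.Agent.Helper66.PAP

theorem modEq_of_dvd {m n a : ℕ} (hm : 0 < m) (h : m ∣ n + a) : n ≡ (m - 1) * a [MOD m] := by
  obtain ⟨k, rfl⟩ : ∃ k, m = k + 1 := ⟨m - 1, by omega⟩
  have h1 : (k + 1) ∣ (k + 1 - 1) * a + a := by
    have : (k + 1 - 1) * a + a = (k + 1) * a := by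
      rw [Nat.add_sub_cancel]
      ring
    rw [this]
    exact Dvd.intro _ rfl
  exact Nat.ModEq.add_right_cancel' a
    (((Nat.modEq_zero_iff_dvd).2 h).trans ((Nat.modEq_zero_iff_dvd).2 h1).symm)

end Pool.Agent.Helper4.PL

end
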