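import Mathlib

/-!
Parts of Helper99.LR.Pick, Helper99.LR2.PickT, Helper99.LR.Window
-/

section

set_option autoImplicit false

open Finset

namespace Pool.Agent.Helper99.LR

/-- The pairs of indices whose slots are at distance at most `t`. -/
def Zt (M κ0 t : ℕ) : Finset ((Fin M × Fin κ0) × (Fin M × Fin κ0)) :=
  univ.filter (fun z => z.1 ≠ z.2 ∧ z.1.1.val ≤ z.2.1.val + t ∧ z.2.1.val ≤ z.1.1.val + t)

theorem Zt_card (M κ0 t : ℕ) : (Zt M κ0 t).card ≤ M * κ0 * ((2 * t + 1) * κ0) := by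
  have h1 : (Zt M κ0 t).card ≤
      ((univ : Finset (Fin M × Fin κ0)) ×ˢ (range (2 * t + 1) ×ˢ (univ : Finset (Fin κ0)))).card := by
    apply Finset.card_le_card_of_injOn
      (fun z => (z.1, (z.2.1.val + t - z.1.1.val, z.2.2)))
    · rintro ⟨a, a'⟩ hz
      rw [Finset.mem_coe, Zt, Finset.mem_filter] at hz
      obtain ⟨_, _, h1, h2⟩ := hz
      simp only at h1 h2
      rw [Finset.mem_coe, Finset.mem_product, Finset.mem_product, Finset.mem_range]
      simp only
      exact ⟨Finset.mem_univ _, by omega, Finset.mem_univ _⟩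
    · rintro ⟨a, a'⟩ hz ⟨c, c'⟩ hz' heq
      rw [Finset.mem_coe, Zt, Finset.mem_filter] at hz hz'
      obtain ⟨_, _, h1, h2⟩ := hz
      obtain ⟨_, _, h3, h4⟩ := hz'
      simp only [Prod.mk.injEq] at heq h1 h2 h3 h4
      obtain ⟨e1, e2, e3⟩ := heq
      subst e1
      have e4 : a'.1 = c'.1 := Fin.ext (by omega)
      rw [Prod.mk.injEq]
      exact ⟨rfl, Prod.ext e4 e3⟩
  rw [Finset.card_product, Finset.card_product, Finset.card_range, Finset.card_univ,
    Finset.card_univ, Fintype.card_prod, Fintype.card_fin, Fintype.card_fin] at h1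
  exact h1

/-- The number of primes among the `n + h a`. -/
noncomputable def cnt {M κ0 : ℕ} (h : Fin M × Fin κ0 → ℕ) (n : ℕ) : ℝ :=
  ∑ a : Fin M × Fin κ0, if (n + h a).Prime then (1 : ℝ) else 0

/-- The number of ordered pairs of primes `n + h a`, `n + h a'` with slots at distance at
most `t`. -/
noncomputable def prs {M κ0 : ℕ} (h : Fin M × Fin κ0 → ℕ) (t n : ℕ) : ℝ :=
  ∑ z ∈ Zt M κ0 t, if (n + h z.1).Prime ∧ (n + h z.2).Prime then (1 : ℝ) else 0

theorem prs_nonneg {M κ0 : ℕ} (h : Fin M × Fin κ0 → ℕ) (t n : ℕ) : 0 ≤ prs h t n :=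
  Finset.sum_nonneg fun z _ => by split_ifs <;> norm_num

theorem cnt_le {M κ0 : ℕ} (h : Fin M × Fin κ0 → ℕ) (n : ℕ) : cnt h n ≤ M * κ0 := by
  unfold cnt
  calc _ ≤ ∑ a : Fin M × Fin κ0, (1 : ℝ) :=
        Finset.sum_le_sum fun a _ => by split_ifs <;> norm_num
    _ = _ := by
        rw [Finset.sum_const, Finset.card_univ, Fintype.card_prod, Fintype.card_fin,
          Fintype.card_fin, nsmul_eq_mul]
        push_cast
        ring

theorem prs_sum {M κ0 : ℕ} {S : ℝ} {J : ℕ} (hM : 0 < M) (hκ : 0 < κ0)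
    (h : Fin M × Fin κ0 → ℕ) (F : Finset ℕ) (u : ℕ → ℝ) (hS0 : 0 < S)
    (hp : ∀ m m', m ≠ m' → ∑ n ∈ F.filter (fun n => (n + h m).Prime ∧ (n + h m').Prime), u n ≤
      2 * ((J + 2) / (10 * ((M * κ0 : ℕ) : ℝ))) ^ 2 * S) (t : ℕ) :
    ∑ n ∈ F, u n * prs h t n ≤ (2 * t + 1) * (J + 2) ^ 2 / (50 * M) * S := by
  have hMr : (0 : ℝ) < M := by exact_mod_cast hM
  have hκr : (0 : ℝ) < κ0 := by exact_mod_cast hκ
  have h1 : ∑ n ∈ F, u n * prs h t n =
      ∑ z ∈ Zt M κ0 t, ∑ n ∈ F.filter (fun n => (n + h z.1).Prime ∧ (n + h z.2).Prime), u n := by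
    unfold prs
    simp only [Finset.mul_sum, Finset.sum_filter, mul_ite, mul_one, mul_zero]
    rw [Finset.sum_comm]
  rw [h1]
  have h2 := Finset.sum_le_card_nsmul (Zt M κ0 t)
    (fun z => ∑ n ∈ F.filter (fun n => (n + h z.1).Prime ∧ (n + h z.2).Prime), u n)
    (2 * ((J + 2) / (10 * ((M * κ0 : ℕ) : ℝ))) ^ 2 * S) (fun z hz => by
      rw [Zt, Finset.mem_filter] at hz
      exact hp z.1 z.2 hz.2.1)
  refine h2.trans ?_
  rw [nsmul_eq_mul]
  have h3 : ((Zt M κ0 t).card : ℝ) ≤ M * κ0 * ((2 * t + 1) * κ0) := by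
    exact_mod_cast Zt_card M κ0 t
  calc ((Zt M κ0 t).card : ℝ) * (2 * ((J + 2) / (10 * ((M * κ0 : ℕ) : ℝ))) ^ 2 * S)
      ≤ (M * κ0 * ((2 * t + 1) * κ0)) * (2 * ((J + 2) / (10 * ((M * κ0 : ℕ) : ℝ))) ^ 2 * S) :=
        mul_le_mul_of_nonneg_right h3 (by positivity)
    _ = (2 * t + 1) * (J + 2) ^ 2 / (50 * M) * S := by
        push_cast
        field_simp
        ring

end Pool.Agent.Helper99.LR

end

section

set_option autoImplicit false

open Finset

namespace Pool.Agent.Helper99.LR2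

open Pool.Agent.Helper99.LR (cnt prs prs_nonneg prs_sum cnt_le)

theorem pickT {M κ0 b : ℕ} {c1 e1 S I : ℝ} {J : ℕ} (hM : 0 < M) (hκ : 0 < κ0) {T : Finset ℕ}
    (hT1 : ∀ r ∈ T, 1 ≤ r) (hId : I = ∑ r ∈ T, 1 / (r : ℝ)) (hIr : 0 < I) (hb : 0 < b) (hc1 : 0 < c1) (he1 : e1 = 5 * c1 / 8)
    (hJ1 : ((J : ℝ) + 2) ≤ e1 * M) (hJ2 : e1 * M / 2 ≤ (J : ℝ) + 2)
    (h : Fin M × Fin κ0 → ℕ) (F : Finset ℕ) (u : ℕ → ℝ) (Y : Finset ℕ)
    (hu : ∀ n, 0 ≤ u n) (hS0 : 0 < S) (hT : ∑ n ∈ F, u n ≤ 2 * S)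
    (hs : ∀ m, c1 * ((J + 2) / ((M * κ0 : ℕ) : ℝ)) * S ≤
      ∑ n ∈ F.filter (fun n => (n + h m).Prime), u n)
    (hp : ∀ m m', m ≠ m' → ∑ n ∈ F.filter (fun n => (n + h m).Prime ∧ (n + h m').Prime), u n ≤
      2 * ((J + 2) / (10 * ((M * κ0 : ℕ) : ℝ))) ^ 2 * S)
    (ho : ∑ j ∈ Y, ∑ n ∈ F.filter (fun n => (n + j).Prime), u n ≤ e1 * c1 / (16 * κ0) * S) :
    ∃ n ∈ F, e1 * c1 / 16 * M ≤ cnt h n ∧
      ∑ r ∈ T, 1 / (r : ℝ) * (prs h (b * r + 1) n / ((b * r : ℕ) : ℝ)) ≤ I * cnt h n / 8 ∧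
      ∀ j ∈ Y, ¬ (n + j).Prime := by
  have hMr : (0 : ℝ) < M := by exact_mod_cast hM
  have hκr : (0 : ℝ) < κ0 := by exact_mod_cast hκ
  have he10 : 0 < e1 := by rw [he1]; positivity
  by_contra hcon
  push Not at hcon
  set G : ℕ → ℝ := fun n => ∑ r ∈ T, 1 / (r : ℝ) * (prs h (b * r + 1) n / ((b * r : ℕ) : ℝ))
    with hG
  have hG0 : ∀ n, 0 ≤ G n := fun n =>
    Finset.sum_nonneg fun i _ => mul_nonneg (by (clear * -; positivity))
      (div_nonneg (prs_nonneg h _ _) (Nat.cast_nonneg _))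
  set Yn : ℕ → ℝ := fun n => ∑ j ∈ Y, (if (n + j).Prime then (1 : ℝ) else 0) with hYn
  have hY0 : ∀ n, 0 ≤ Yn n := fun n => Finset.sum_nonneg fun j _ => by split_ifs <;> norm_num
  have hneg : ∀ n ∈ F, cnt h n - 8 / I * G n - e1 * c1 / 16 * M - M * κ0 * Yn n ≤ 0 := by
    intro n hn
    by_contra h1
    push Not at h1
    have h2 : 0 ≤ 8 / I * G n := mul_nonneg (by positivity) (hG0 n)
    have h3 : 0 ≤ (M : ℝ) * κ0 * Yn n := mul_nonneg (by (clear * - hM hκ; positivity)) (hY0 n)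
    have h4 : 0 ≤ e1 * c1 / 16 * M := by (clear * - he10 hc1 hM; positivity)
    obtain ⟨j, hj, hjp⟩ := hcon n hn (by (clear * - h1 h2 h3; linarith)) (by
      have h5 : 8 / I * G n ≤ cnt h n := by (clear * - h1 h3 h4; linarith)
      have h6 : G n = I / 8 * (8 / I * G n) := by (clear * - hIr; field_simp)
      change G n ≤ _
      rw [h6]
      calc I / 8 * (8 / I * G n) ≤ I / 8 * cnt h n := mul_le_mul_of_nonneg_left h5 (by positivity)
        _ = _ := by ring)
    have h5 : (1 : ℝ) ≤ Yn n := by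
      have := Finset.single_le_sum (f := fun j => if (n + j).Prime then (1 : ℝ) else 0)
        (fun j _ => by split_ifs <;> norm_num) hj
      simp only [hjp, if_true] at this
      exact this
    have h6 := cnt_le h n
    have h7 : (M : ℝ) * κ0 * 1 ≤ M * κ0 * Yn n := mul_le_mul_of_nonneg_left h5 (by positivity)
    (clear * - h1 h2 h4 h6 h7; linarith)
  have hsum : ∑ n ∈ F, u n * (cnt h n - 8 / I * G n - e1 * c1 / 16 * M - M * κ0 * Yn n) ≤ 0 :=
    Finset.sum_nonpos fun n hn => mul_nonpos_of_nonneg_of_nonpos (hu n) (hneg n hn)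
  -- the main term
  have hcnt : c1 * (J + 2) * S ≤ ∑ n ∈ F, u n * cnt h n := by
    have h1 : ∑ n ∈ F, u n * cnt h n =
        ∑ m : Fin M × Fin κ0, ∑ n ∈ F.filter (fun n => (n + h m).Prime), u n := by
      unfold cnt
      simp only [Finset.mul_sum, Finset.sum_filter, mul_ite, mul_one, mul_zero]
      rw [Finset.sum_comm]
    have h2 := Finset.card_nsmul_le_sum (univ : Finset (Fin M × Fin κ0))
      (fun m => ∑ n ∈ F.filter (fun n => (n + h m).Prime), u n) _ (fun m _ => hs m)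
    rw [Finset.card_univ, Fintype.card_prod, Fintype.card_fin, Fintype.card_fin,
      nsmul_eq_mul] at h2
    rw [h1]
    refine le_trans (le_of_eq ?_) h2
    push_cast
    (clear * - hM hκ hS0 hc1; field_simp)
  -- the pairs
  have hpairs : ∑ n ∈ F, u n * (8 / I * G n) ≤ c1 / 2 * (J + 2) * S := by
    have h1 : ∑ n ∈ F, u n * (8 / I * G n) =
        8 / I * ∑ r ∈ T, 1 / (r : ℝ) * ((∑ n ∈ F, u n * prs h (b * r + 1) n) /
          ((b * r : ℕ) : ℝ)) := by
      rw [hG]
      simp only [Finset.mul_sum, Finset.sum_div]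
      rw [Finset.sum_comm]
      refine Finset.sum_congr rfl fun i _ => Finset.sum_congr rfl fun n _ => ?_
      ring
    have h2 : ∀ i ∈ T, 1 / (i : ℝ) * ((∑ n ∈ F, u n * prs h (b * i + 1) n) /
        ((b * i : ℕ) : ℝ)) ≤ 1 / (i : ℝ) * (c1 / 16 * (J + 2) * S) := by
      intro i hi
      have hi0 : 0 < i := hT1 i hi
      apply mul_le_mul_of_nonneg_left _ (by positivity)
      have hr0 : 0 < b * i := by positivity
      have hr0' : (0 : ℝ) < ((b * i : ℕ) : ℝ) := by exact_mod_cast hr0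
      have hr1 : (1 : ℝ) ≤ ((b * i : ℕ) : ℝ) := by exact_mod_cast hr0
      rw [div_le_iff₀ hr0']
      refine (prs_sum hM hκ h F u hS0 hp (b * i + 1)).trans ?_
      set r : ℝ := ((b * i : ℕ) : ℝ) with hr
      have h3 : (((b * i + 1 : ℕ) : ℝ)) = r + 1 := by rw [hr]; push_cast; ring
      rw [h3]
      have h4 : (2 * (r + 1) + 1) * ((J : ℝ) + 2) ^ 2 / (50 * M) ≤
          5 * r * ((J + 2) * (e1 * M)) / (50 * M) := by
        have h5 : (2 * (r + 1) + 1) * ((J : ℝ) + 2) ^ 2 ≤ 5 * r * ((J + 2) * (e1 * M)) := by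
          have h6 : ((J : ℝ) + 2) ^ 2 ≤ (J + 2) * (e1 * M) := by
            rw [sq]
            exact mul_le_mul_of_nonneg_left hJ1 (by (clear * -; positivity))
          have h7 : 2 * (r + 1) + 1 ≤ 5 * r := by (clear * - hr1; linarith)
          exact mul_le_mul h7 h6 (by (clear * -; positivity)) (by positivity)
        exact div_le_div_of_nonneg_right h5 (by positivity)
      have h5 : 5 * r * (((J : ℝ) + 2) * (e1 * M)) / (50 * M) = c1 / 16 * (J + 2) * r := by
        rw [he1]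
        field_simp
        norm_num
      rw [h5] at h4
      calc _ ≤ c1 / 16 * (J + 2) * r * S := mul_le_mul_of_nonneg_right h4 hS0.le
        _ = _ := by ring
    have h3 := Finset.sum_le_sum h2
    rw [← Finset.sum_mul, ← hId] at h3
    rw [h1]
    calc _ ≤ 8 / I * (I * (c1 / 16 * (J + 2) * S)) :=
          mul_le_mul_of_nonneg_left h3 (by positivity)
      _ = _ := by
          field_simp
          norm_num
  have hother : ∑ n ∈ F, u n * (M * κ0 * Yn n) ≤ e1 * c1 / 16 * M * S := by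
    have h1 : ∑ n ∈ F, u n * (M * κ0 * Yn n) =
        M * κ0 * ∑ j ∈ Y, ∑ n ∈ F.filter (fun n => (n + j).Prime), u n := by
      rw [hYn]
      simp only [Finset.mul_sum, Finset.sum_filter, mul_ite, mul_one, mul_zero]
      rw [Finset.sum_comm]
      refine Finset.sum_congr rfl fun j _ => Finset.sum_congr rfl fun n _ => ?_
      split_ifs
      · ring
      · rfl
    rw [h1]
    calc _ ≤ M * κ0 * (e1 * c1 / (16 * κ0) * S) := mul_le_mul_of_nonneg_left ho (by positivity)
      _ = _ := by (clear * - hκ hS0 hc1 he10 hM; field_simp)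
  have hlam : ∑ n ∈ F, u n * (e1 * c1 / 16 * M) ≤ e1 * c1 / 16 * M * (2 * S) := by
    rw [← Finset.sum_mul, mul_comm]
    exact mul_le_mul_of_nonneg_left hT (by positivity)
  have hfin : ∑ n ∈ F, u n * (cnt h n - 8 / I * G n - e1 * c1 / 16 * M - M * κ0 * Yn n) =
      ∑ n ∈ F, u n * cnt h n - ∑ n ∈ F, u n * (8 / I * G n) -
        ∑ n ∈ F, u n * (e1 * c1 / 16 * M) - ∑ n ∈ F, u n * (M * κ0 * Yn n) := by
    rw [← Finset.sum_sub_distrib, ← Finset.sum_sub_distrib, ← Finset.sum_sub_distrib]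
    exact Finset.sum_congr rfl fun n _ => by ring
  rw [hfin] at hsum
  have h1 : c1 / 2 * S * (e1 * M / 2) ≤ c1 / 2 * S * (J + 2) :=
    mul_le_mul_of_nonneg_left hJ2 (by positivity)
  have h2 : 0 < e1 * c1 * M * S := by positivity
  (clear * - hsum hcnt hpairs hother hlam h1 h2; linarith)

end Pool.Agent.Helper99.LR2

end

section

set_option autoImplicit false

open Finset

namespace Pool.Agent.Helper99.LR

/-- The `m`-th prime of the window which begins at `n`. -/
noncomputable def wp (n m : ℕ) : ℕ := Nat.nth Nat.Prime (Nat.count Nat.Prime n + m)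

theorem wp_le {n m m' : ℕ} (h : m ≤ m') : wp n m ≤ wp n m' := by
  unfold wp
  exact (Nat.nth_strictMono Nat.infinite_setOfPred_prime).monotone (by omega)

theorem wp_prime (n m : ℕ) : (wp n m).Prime := Nat.prime_nth_prime _

theorem wp_ge (n m : ℕ) : n ≤ wp n m := by
  unfold wp
  by_contra hc
  push Not at hc
  have h1 := Nat.count_monotone Nat.Prime (show Nat.nth Nat.Prime
    (Nat.count Nat.Prime n + m) + 1 ≤ n by omega)
  rw [Nat.count_succ, Nat.count_nth_of_infinite Nat.infinite_setOfPred_prime,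
    if_pos (Nat.prime_nth_prime _)] at h1
  omega

theorem wp_window {n m H : ℕ}
    (hm : m < ((range (H + 1)).filter (fun k => (n + k).Prime)).card) : wp n m ≤ n + H := by
  have h1 : Nat.count Nat.Prime (n + (H + 1)) =
      Nat.count Nat.Prime n + ((range (H + 1)).filter (fun k => (n + k).Prime)).card := by
    rw [Nat.count_add, Nat.count_eq_card_filter_range (fun k => Nat.Prime (n + k))]
  have h2 : wp n m < n + (H + 1) := by
    unfold wp
    apply Nat.nth_lt_of_lt_count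
    omega
  omega

theorem cnt_window {M κ0 Q E n : ℕ} (hQ : 0 < Q) (hκE : κ0 ≤ E) :
    cnt (fun a : Fin M × Fin κ0 => Q * (a.1.val * E + a.2.val)) n ≤
      (((range (Q * M * E + 1)).filter (fun k => (n + k).Prime)).card : ℝ) := by
  classical
  set h : Fin M × Fin κ0 → ℕ := fun a => Q * (a.1.val * E + a.2.val) with hh
  have h1 : cnt h n = ((univ.filter (fun a => (n + h a).Prime)).card : ℝ) := by
    unfold cnt
    rw [Finset.card_filter]
    push_cast
    rfl
  rw [h1]
  have h2 : (univ.filter (fun a => (n + h a).Prime)).card ≤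
      ((range (Q * M * E + 1)).filter (fun k => (n + k).Prime)).card := by
    apply Finset.card_le_card_of_injOn h
    · intro a ha
      rw [Finset.mem_coe, Finset.mem_filter] at ha
      rw [Finset.mem_coe, Finset.mem_filter, Finset.mem_range]
      refine ⟨?_, ha.2⟩
      have h1 := a.1.isLt
      have h2 := a.2.isLt
      have h3 : (a.1.val + 1) * E ≤ M * E := Nat.mul_le_mul_right _ h1
      have h4 : h a ≤ Q * (M * E) := by
        apply Nat.mul_le_mul_left
        rw [add_mul, one_mul] at h3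
        omega
      have h5 : Q * (M * E) = Q * M * E := by ring
      omega
    · intro a ha c hc heq
      have h3 : a.1.val * E + a.2.val = c.1.val * E + c.2.val := Nat.eq_of_mul_eq_mul_left hQ heq
      have ha2 := a.2.isLt
      have hc2 := c.2.isLt
      have h4 : a.1.val = c.1.val := by
        rcases Nat.lt_trichotomy a.1.val c.1.val with h5 | h5 | h5
        · have h6 : (a.1.val + 1) * E ≤ c.1.val * E := Nat.mul_le_mul_right _ h5
          rw [add_mul, one_mul] at h6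
          omega
        · exact h5
        · have h6 : (c.1.val + 1) * E ≤ a.1.val * E := Nat.mul_le_mul_right _ h5
          rw [add_mul, one_mul] at h6
          omega
      have h5 : a.2.val = c.2.val := by
        rw [h4] at h3
        (clear * - Q h3; omega)
      exact Prod.ext (Fin.ext h4) (Fin.ext h5)
  exact_mod_cast h2

end Pool.Agent.Helper99.LR

end
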