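import Pool.Agent.Helper23.MT.L00_a0
import Pool.Agent.Helper23.MT.L00_a1

/-!
Parts of Helper52.SZ.Defs, Helper12.SZ.MainA, Helper15.SZ.DHJBase, Helper88.SZ.MDHJ, Helper36.SZ.Ramsey, Helper7.SZ.Small, Helper52.SZ.Core, Helper15.SZ.DHJ, Helper12.SZ.Main
-/

section

namespace Pool.Agent.Helper52.SZ

open Combinatorics

section av

variable {X Y : Type}

theorem le_av_of_le [Finite X] [Nonempty X] {f : X → ℝ} {c : ℝ} (h : ∀ x, c ≤ f x) :
    c ≤ av f := by
  have := av_mono (f := fun _ : X => c) h
  rwa [av_const] at this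

theorem exists_le_av [Finite X] [Nonempty X] (f : X → ℝ) : ∃ x, av f ≤ f x := by
  by_contra h
  push Not at h
  have := Fintype.ofFinite X
  have h1 : ∑ x, f x < ∑ _x : X, av f :=
    Finset.sum_lt_sum_of_nonempty Finset.univ_nonempty fun x _ => h x
  rw [Finset.sum_const, Finset.card_univ, nsmul_eq_mul] at h1
  have hc : (0 : ℝ) < Fintype.card X := by exact_mod_cast Fintype.card_pos
  have h2 : (∑ x, f x) / (Fintype.card X : ℝ) < av f := by
    rw [div_lt_iff₀ hc, mul_comm]
    exact h1
  rw [← av_eq_sum] at h2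
  exact lt_irrefl _ h2

end av

section words

variable {ι κ κ' η ζ α β : Type}

theorem dn_glue' [Finite κ] [Finite κ'] [Finite β] (e : ι ≃ κ ⊕ κ') (A : Set (ι → β)) :
    dn A = av (fun u => dn {v | glue e u v ∈ A}) := by
  rw [dn, av_glue' e]
  rfl

end words

section subspaces

variable {ι κ κ' η ζ α β : Type}

theorem rep_extS (i : α) (V : Subspace η α ι) (s : η → Option α) :
    rep i (extS V s) = V (rep i s) := by
  funext j
  simp only [rep, Subspace.coe_apply, extS]
  cases V.idxFun j <;> rfl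

theorem extS_compS (V : Subspace η α ι) (U : Subspace ζ α η) (s : ζ → Option α) :
    extS (compS V U) s = extS V (extS U s) := by
  funext j
  simp only [Subspace.coe_apply, extS, compS]
  cases V.idxFun j with
  | inl a => rfl
  | inr d => rfl

theorem lineL_apply (e : ι ≃ κ ⊕ κ') (l : Line β κ) (v : κ' → β) (x : β) :
    lineL e l v x = glue e (l x) v := by
  funext j
  simp only [Line.coe_apply, lineL, glue]
  cases e j <;> rfl

theorem lineR_apply (e : ι ≃ κ ⊕ κ') (u : κ → β) (l : Line β κ') (x : β) :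
    lineR e u l x = glue e u (l x) := by
  funext j
  simp only [Line.coe_apply, lineR, glue]
  cases e j <;> rfl

end subspaces

theorem Good.mono {β : Type} {δ δ' : ℝ} (h : Good β δ) (hδ : δ ≤ δ') : Good β δ' := by
  obtain ⟨n0, h0⟩ := h
  exact ⟨n0, fun ι _ hι A hA => h0 ι hι A (hδ.trans hA)⟩

end Pool.Agent.Helper52.SZ

end

section

namespace Pool.Agent.Helper52.SZ

open Combinatorics

/-- the digit sum along a combinatorial line is an arithmetic progression -/
theorem main_line {k n : ℕ} (l : Line (Fin k) (Fin n)) :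
    ∃ c m : ℕ, 0 < m ∧ ∀ x : Fin k, ∑ j, ((l x j : Fin k) : ℕ) = c + (x : ℕ) * m := by
  refine ⟨∑ j, (l.idxFun j).elim 0 (fun y => (y : ℕ)),
    ∑ j, (if l.idxFun j = none then 1 else 0), ?_, ?_⟩
  · obtain ⟨p, hp⟩ := l.proper
    refine Finset.sum_pos' (fun _ _ => Nat.zero_le _) ⟨p, Finset.mem_univ p, ?_⟩
    rw [if_pos hp]
    exact Nat.one_pos
  · intro x
    rw [Finset.mul_sum, ← Finset.sum_add_distrib]
    refine Finset.sum_congr rfl fun j _ => ?_
    rw [Line.coe_apply]
    cases l.idxFun j with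
    | none => simp
    | some y => simp

/-- the number of a < N with a + t ∈ A is at least |A| - t -/
theorem main_count {N : ℕ} (A : Finset ℕ) (hA : A ⊆ Finset.range N) (t : ℕ) :
    (A.card : ℝ) - t ≤ ∑ a : Fin N, {b : ℕ | b ∈ A}.indicator (fun _ => (1 : ℝ)) ((a : ℕ) + t) := by
  classical
  have h1 : ∑ a : Fin N, {b : ℕ | b ∈ A}.indicator (fun _ => (1 : ℝ)) ((a : ℕ) + t)
      = (((Finset.range N).filter (fun a => a + t ∈ A)).card : ℝ) := by
    rw [Fin.sum_univ_eq_sum_range
      (fun a => {b : ℕ | b ∈ A}.indicator (fun _ => (1 : ℝ)) (a + t)) N]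
    rw [Finset.card_filter]
    push_cast
    refine Finset.sum_congr rfl fun a _ => ?_
    rw [Set.indicator_apply]
    rfl
  rw [h1]
  have h2 : A ⊆ Finset.range t ∪
      ((Finset.range N).filter (fun a => a + t ∈ A)).image (fun a => a + t) := by
    intro b hb
    rw [Finset.mem_union]
    by_cases hbt : b < t
    · exact Or.inl (Finset.mem_range.mpr hbt)
    · refine Or.inr (Finset.mem_image.mpr ⟨b - t, Finset.mem_filter.mpr ⟨?_, ?_⟩, by omega⟩)
      · have := Finset.mem_range.mp (hA hb)
        exact Finset.mem_range.mpr (by omega)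
      · rwa [Nat.sub_add_cancel (by omega)]
  have h3 := (Finset.card_le_card h2).trans (Finset.card_union_le _ _)
  have h4 := Finset.card_image_le
    (s := (Finset.range N).filter (fun a => a + t ∈ A)) (f := fun a => a + t)
  rw [Finset.card_range] at h3
  have h5 : A.card ≤ t + ((Finset.range N).filter (fun a => a + t ∈ A)).card := by omega
  have h6 : (A.card : ℝ) ≤ t + (((Finset.range N).filter (fun a => a + t ∈ A)).card : ℝ) := by
    exact_mod_cast h5
  (clear * - h6; linarith)

theorem szemeredi_of_dhj {k : ℕ} (hk : 0 < k) (h : DHJ (Fin k)) (δ : ℝ) (hδ : 0 < δ) :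
    ∃ N0 : ℕ, ∀ N : ℕ, N0 ≤ N → ∀ A : Finset ℕ, A ⊆ Finset.range N → δ * N ≤ (A.card : ℝ) →
      ∃ a d : ℕ, 0 < d ∧ ∀ i < k, a + i * d ∈ A := by
  obtain ⟨n, hn⟩ := h (δ / 2) (by (clear * - hδ; linarith))
  refine ⟨⌈2 * (n * k : ℝ) / δ⌉₊ + 1, fun N hN A hA hcard => ?_⟩
  have : NeZero k := ⟨hk.ne'⟩
  have hN1 : 2 * (n * k : ℝ) / δ ≤ N := by
    refine (Nat.le_ceil _).trans ?_
    exact_mod_cast (Nat.le_succ _).trans hN
  have hN0 : 0 < N := by omega
  have : NeZero N := ⟨hN0.ne'⟩
  have hNr : (0 : ℝ) < N := by exact_mod_cast hN0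
  have hN2 : 2 * (n * k : ℝ) ≤ δ * N := by
    rw [div_le_iff₀ hδ] at hN1
    (clear * - hN1; linarith)
  -- the digit sum
  let s : (Fin n → Fin k) → ℕ := fun x => ∑ j, ((x j : Fin k) : ℕ)
  have hs : ∀ x, s x ≤ n * k := by
    intro x
    have h1 : s x ≤ ∑ _j : Fin n, k := Finset.sum_le_sum fun j _ => (x j).isLt.le
    simpa using h1
  let F : Fin N → (Fin n → Fin k) → ℝ := fun a x =>
    {b : ℕ | b ∈ A}.indicator (fun _ => (1 : ℝ)) ((a : ℕ) + s x)
  have hF : ∀ x, δ / 2 ≤ av (fun a => F a x) := by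
    intro x
    rw [av_eq_sum, Fintype.card_fin, le_div_iff₀ hNr]
    have h1 := main_count A hA (s x)
    have h2 : (s x : ℝ) ≤ n * k := by exact_mod_cast hs x
    show δ / 2 * N ≤ ∑ a : Fin N,
      {b : ℕ | b ∈ A}.indicator (fun _ => (1 : ℝ)) ((a : ℕ) + s x)
    (clear * - hcard hN2 h1 h2; linarith)
  have hG : δ / 2 ≤ av (fun a => av (fun x => F a x)) := by
    rw [av_comm]
    exact le_av_of_le hF
  obtain ⟨a, ha⟩ := exists_le_av (fun a => av (fun x => F a x))
  have hd : δ / 2 ≤ dn {x : Fin n → Fin k | (a : ℕ) + s x ∈ A} := hG.trans ha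
  obtain ⟨l, hl⟩ := hn (Fin n) (by simp) _ hd
  obtain ⟨c, m, hm, hcm⟩ := main_line l
  refine ⟨(a : ℕ) + c, m, hm, fun i hi => ?_⟩
  have h1 : (a : ℕ) + s (l ⟨i, hi⟩) ∈ A := hl ⟨i, hi⟩
  have h2 : s (l ⟨i, hi⟩) = c + i * m := hcm ⟨i, hi⟩
  rw [h2, ← add_assoc] at h1
  exact h1

end Pool.Agent.Helper52.SZ

end

section

namespace Pool.Agent.Helper52.SZ

open Combinatorics

/-- an alphabet with one letter (at most) is trivial -/
theorem dhj_subsingleton {β : Type} [Subsingleton β] [Finite β] : DHJ β := by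
  intro δ hδ
  refine ⟨1, fun ι _ hι A hA => ?_⟩
  have hne : Nonempty ι := by
    by_contra h
    rw [not_nonempty_iff] at h
    rw [Nat.card_of_isEmpty] at hι
    omega
  obtain ⟨w, hw⟩ := nonempty_of_dn_pos (lt_of_lt_of_le hδ hA)
  refine ⟨⟨fun _ => none, ⟨Classical.choice hne, rfl⟩⟩, fun x => ?_⟩
  have : (⟨fun _ => none, ⟨Classical.choice hne, rfl⟩⟩ : Line β ι) x = w :=
    funext fun j => Subsingleton.elim _ _
  rw [this]
  exact hw

/-- the critical density argument, from the statement of the core theorem -/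
theorem dhj_option_of {α : Type} [Finite α]
    (hcore : Nonempty α → ∀ δ : ℝ, 0 < δ → (∀ γ : ℝ, 0 < γ → Good (Option α) (δ + γ)) →
      ∃ ε : ℝ, 0 < ε ∧ Good (Option α) (δ - ε)) : DHJ (Option α) := by
  rcases isEmpty_or_nonempty α with hE | hN
  · have : Subsingleton (Option α) := ⟨fun a b => by
      cases a with
      | none => cases b with
        | none => rfl
        | some b => exact isEmptyElim b
      | some a => exact isEmptyElim a⟩
    exact dhj_subsingleton
  · intro δ0 hδ0
    by_contra hbad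
    set S : Set ℝ := {δ | 0 < δ ∧ Good (Option α) δ} with hS
    have h2 : (2 : ℝ) ∈ S := ⟨by norm_num, good_of_one_lt (by norm_num)⟩
    have hlow : ∀ δ ∈ S, δ0 ≤ δ := by
      intro δ hδ
      by_contra hlt
      push Not at hlt
      exact hbad (hδ.2.mono hlt.le)
    have hbdd : BddBelow S := ⟨δ0, hlow⟩
    have hge : δ0 ≤ sInf S := le_csInf ⟨2, h2⟩ hlow
    have hpos : 0 < sInf S := lt_of_lt_of_le hδ0 hge
    obtain ⟨ε, hε, hG⟩ := hcore hN (sInf S) hpos (fun γ hγ => by
      obtain ⟨δ, hδ, hlt⟩ := exists_lt_of_csInf_lt ⟨2, h2⟩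
        (show sInf S < sInf S + γ by linarith)
      exact hδ.2.mono hlt.le)
    have hm : max (sInf S - ε) (sInf S / 2) ∈ S :=
      ⟨lt_of_lt_of_le (by linarith) (le_max_right _ _), hG.mono (le_max_left _ _)⟩
    have h3 := csInf_le hbdd hm
    rcases max_cases (sInf S - ε) (sInf S / 2) with ⟨h4, _⟩ | ⟨h4, _⟩ <;>
      rw [h4] at h3 <;> linarith

theorem dhj_congr {α β : Type} (e : α ≃ β) (h : DHJ α) : DHJ β := by
  intro δ hδ
  obtain ⟨n0, h0⟩ := h δ hδ
  refine ⟨n0, fun ι _ hι A hA => ?_⟩
  obtain ⟨l, hl⟩ := h0 ι hι {w | (fun j => e (w j)) ∈ A} (by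
    have := dn_equiv (Equiv.arrowCongr (Equiv.refl ι) e) A
    have h2 : {x | (Equiv.arrowCongr (Equiv.refl ι) e) x ∈ A} = {w : ι → α | (fun j => e (w j)) ∈ A} := rfl
    rw [h2] at this
    rw [this]
    exact hA)
  refine ⟨⟨fun j => (l.idxFun j).map e, ?_⟩, fun x => ?_⟩
  · obtain ⟨j, hj⟩ := l.proper
    exact ⟨j, by rw [hj]; rfl⟩
  · have h3 := hl (e.symm x)
    have h4 : (⟨fun j => (l.idxFun j).map e, by
        obtain ⟨j, hj⟩ := l.proper
        exact ⟨j, by rw [hj]; rfl⟩⟩ : Line β ι) x = fun j => e (l (e.symm x) j) := by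
      funext j
      simp only [Line.coe_apply]
      cases l.idxFun j with
      | none => simp
      | some a => simp
    rw [h4]
    exact h3

/-- induction over finite alphabets -/
theorem dhj_of_step (hstep : ∀ (α : Type) [Finite α], DHJ α → DHJ (Option α))
    (α : Type) [Finite α] : DHJ α := by
  refine Finite.induction_empty_option (P := fun α => DHJ α) ?_ ?_ ?_ α
  · intro α β e h
    exact dhj_congr e h
  · exact dhj_subsingleton
  · intro α _ h
    exact hstep α h

end Pool.Agent.Helper52.SZ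

end

section

namespace Pool.Agent.Helper52.SZ

open Combinatorics

section mdhj

variable {ι κ κ' β : Type}

/-- the constant subspace -/
def mdhj_const (w : ι → β) : Subspace (Fin 0) β ι where
  idxFun j := Sum.inl (w j)
  proper e := e.elim0

theorem mdhj_const_apply (w : ι → β) (x : Fin 0 → β) : mdhj_const w x = w := by
  funext j
  simp [Subspace.coe_apply, mdhj_const]

end mdhj

theorem mdhj_of_dhj {β : Type} [Finite β] [Nonempty β] (h : DHJ β) : MDHJ β := by
  intro d
  induction d with
  | zero =>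
    intro δ hδ
    refine ⟨0, fun ι _ _ A hA => ?_⟩
    obtain ⟨w, hw⟩ := nonempty_of_dn_pos (lt_of_lt_of_le hδ hA)
    exact ⟨mdhj_const w, fun x => by rw [mdhj_const_apply]; exact hw⟩
  | succ d ih =>
    intro δ hδ
    obtain ⟨a, ha⟩ := h (δ / 2) (by positivity)
    have hδ' : 0 < (δ / 2) / ((Nat.card β : ℝ) + 1) ^ a := by positivity
    obtain ⟨n', hn'⟩ := ih _ hδ'
    refine ⟨a + n', fun ι _ hι A hA => ?_⟩
    obtain ⟨κ', hκ', ⟨e⟩, hcard⟩ := exists_split (n := a) (ι := ι) (by omega)
    have hZ : 2 * (δ / 2) ≤ av (fun z : κ' → β => dn {w : Fin a → β | glue e w z ∈ A}) := by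
      rw [← dn_glue]
      linarith
    obtain ⟨l, hl⟩ := popular_line (β := β) (κ := Fin a) (Z := κ' → β) (c := δ / 2)
      (by positivity) (fun B hB => ha (Fin a) (by simp) B hB)
      (fun w z => glue e w z ∈ A) hZ
    have hca : Nat.card (Fin a) = a := by simp
    rw [hca] at hl
    obtain ⟨V', hV'⟩ := hn' κ' (by omega) {z | ∀ x, glue e (l x) z ∈ A} hl
    exact ⟨mdhj_glue e l V', fun x => by rw [mdhj_glue_apply]; exact hV' _ _⟩

end Pool.Agent.Helper52.SZ

end

section

set_option autoImplicit false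

namespace Pool.Agent.Helper52.SZ

open Combinatorics

section ramsey

variable {α β ι ι' ι₁ η ζ : Type}

theorem ram_step [Finite α] [Nonempty α] (m0 M n' n1 : ℕ) (C : Type) [Finite C]
    (ih : ∀ (ι : Type) [Finite ι], n' ≤ Nat.card ι →
      ∀ good : C × α → (ι → Option α) → Prop,
        (∃ R : Subspace (Fin m0) α ι, ∀ c, ∀ s : Fin m0 → Option α, (∃ e, s e = none) →
          ¬ good c (extS R s)) ∨
        (∃ c, ∃ W : Subspace (Option (Fin M)) α ι, ∀ s : Option (Fin M) → Option α,
          s none = none → good c (extS W s)))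
    (hn1 : ∀ (ι : Type) [Finite ι], n1 ≤ Nat.card ι → ∀ f : (ι → Option α) → (C → Prop),
      ∃ V : Subspace (Fin (max n' M)) (Option α) ι, ∃ c, ∀ x, f (V x) = c)
    (ι' : Type) [Finite ι'] (hι : n1 ≤ Nat.card ι')
    (good : C → (Option ι' → Option α) → Prop) :
    (∃ R : Subspace (Fin (m0 + 1)) α (Option ι'), ∀ c, ∀ s : Fin (m0 + 1) → Option α,
      (∃ e, s e = none) → ¬ good c (extS R s)) ∨
    (∃ c, ∃ W : Subspace (Option (Fin M)) α (Option ι'), ∀ s : Option (Fin M) → Option α,
      s none = none → good c (extS W s)) := by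
  obtain ⟨T, χ, hT⟩ := hn1 ι' hι (fun w c => good c (ram_cons none w))
  have hχ : ∀ (c : C) (s : Option (Fin (max n' M)) → Option α), s none = none →
      (good c (extS (ram_W0 T) s) ↔ χ c) := by
    intro c s hs
    rw [ram_W0_ext T s hs]
    have := congrFun (hT (fun q => s (some q))) c
    exact Iff.of_eq this
  by_cases hc : ∃ c, χ c
  · obtain ⟨c, hc⟩ := hc
    right
    obtain ⟨a0⟩ := ‹Nonempty α›
    let U : Subspace (Option (Fin M)) α (Option (Fin (max n' M))) :=
      { idxFun := fun o => o.elim (Sum.inr none)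
          fun q => if h : (q : ℕ) < M then Sum.inr (some ⟨q, h⟩) else Sum.inl a0
        proper := by
          intro e
          rcases e with _ | q
          · exact ⟨none, rfl⟩
          · refine ⟨some (Fin.castLE (le_max_right n' M) q), ?_⟩
            simp }
    refine ⟨c, compS (ram_W0 T) U, fun s hs => ?_⟩
    rw [extS_compS, hχ]
    · exact hc
    · simp [Subspace.coe_apply, extS, U, hs]
  · push Not at hc
    have hcard : n' ≤ Nat.card (Fin (max n' M)) := by
      rw [Nat.card_fin]
      exact le_max_left _ _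
    rcases ih (Fin (max n' M)) hcard
      (fun ca s' => good ca.1 (extS (ram_W0 T) (ram_cons (some ca.2) s'))) with ⟨R', hR'⟩ | ⟨ca, W', hW'⟩
    · left
      let U : Subspace (Fin (m0 + 1)) α (Option (Fin (max n' M))) :=
        { idxFun := fun o => o.elim (Sum.inr 0) fun q => (R'.idxFun q).map id Fin.succ
          proper := by
            intro e
            rcases Fin.eq_zero_or_eq_succ e with rfl | ⟨e', rfl⟩
            · exact ⟨none, rfl⟩
            · obtain ⟨q, hq⟩ := R'.proper e'
              exact ⟨some q, by simp [hq]⟩ }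
      have hU : ∀ s : Fin (m0 + 1) → Option α,
          extS U s = ram_cons (s 0) (extS R' (fun i => s i.succ)) := by
        intro s
        funext o
        rcases o with _ | q
        · simp [Subspace.coe_apply, extS, U, ram_cons]
        · simp only [Subspace.coe_apply, extS, U, ram_cons, Option.elim_some]
          rcases R'.idxFun q with b | q'
          · simp
          · simp
      refine ⟨compS (ram_W0 T) U, fun c s hs => ?_⟩
      rw [extS_compS, hU]
      rcases h0 : s 0 with _ | a
      · rw [hχ c _ rfl]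
        exact hc c
      · refine hR' (c, a) (fun i => s i.succ) ?_
        obtain ⟨e, he⟩ := hs
        rcases Fin.eq_zero_or_eq_succ e with rfl | ⟨e', rfl⟩
        · rw [h0] at he
          exact absurd he (by simp)
        · exact ⟨e', he⟩
    · right
      let U : Subspace (Option (Fin M)) α (Option (Fin (max n' M))) :=
        { idxFun := fun o => o.elim (Sum.inl ca.2) fun q => W'.idxFun q
          proper := by
            intro e
            obtain ⟨q, hq⟩ := W'.proper e
            exact ⟨some q, hq⟩ }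
      have hU : ∀ s : Option (Fin M) → Option α,
          extS U s = ram_cons (some ca.2) (extS W' s) := by
        intro s
        funext o
        rcases o with _ | q
        · simp [Subspace.coe_apply, extS, U, ram_cons]
        · simp only [Subspace.coe_apply, extS, U, ram_cons, Option.elim_some]
      refine ⟨ca.1, compS (ram_W0 T) U, fun s hs => ?_⟩
      rw [extS_compS, hU]
      exact hW' s hs

end ramsey

theorem ramsey {α : Type} [Finite α] [Nonempty α] (m0 M : ℕ) :
    ∀ (C : Type) [Finite C], ∃ n0 : ℕ, ∀ (ι : Type) [Finite ι], n0 ≤ Nat.card ι →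
      ∀ good : C → (ι → Option α) → Prop,
        (∃ R : Subspace (Fin m0) α ι, ∀ c, ∀ s : Fin m0 → Option α, (∃ e, s e = none) →
          ¬ good c (extS R s)) ∨
        (∃ c, ∃ W : Subspace (Option (Fin M)) α ι, ∀ s : Option (Fin M) → Option α,
          s none = none → good c (extS W s)) := by
  induction m0 with
  | zero =>
    intro C _
    refine ⟨0, fun ι _ _ good => Or.inl ⟨?_, ?_⟩⟩
    · exact { idxFun := fun _ => Sum.inl (Classical.arbitrary α), proper := fun e => e.elim0 }
    · rintro c s ⟨e, -⟩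
      exact e.elim0
  | succ m0 ih =>
    intro C _
    obtain ⟨n', hn'⟩ := ih (C × α)
    obtain ⟨n1, hn1⟩ := mhj_large (Option α) (C → Prop) (max n' M)
    refine ⟨n1 + 1, fun ι _ hι good => ?_⟩
    obtain ⟨m, hm⟩ : ∃ m, Nat.card ι = m + 1 := ⟨Nat.card ι - 1, by omega⟩
    let σ : ι ≃ Option (Fin m) := (Finite.equivFin ι).trans ((finCongr hm).trans (finSuccEquiv m))
    have hcard : n1 ≤ Nat.card (Fin m) := by
      rw [Nat.card_fin]
      omega
    rcases ram_step m0 M n' n1 C hn' hn1 (Fin m) hcard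
      (fun c w => good c fun j => w (σ j)) with ⟨R, hR⟩ | ⟨c, W, hW⟩
    · left
      refine ⟨ram_re σ R, fun c s hs => ?_⟩
      rw [ram_ext_re]
      exact hR c s hs
    · right
      refine ⟨c, ram_re σ W, fun s hs => ?_⟩
      rw [ram_ext_re]
      exact hW s hs

end Pool.Agent.Helper52.SZ

end

section

namespace Pool.Agent.Helper52.SZ

open Combinatorics

theorem dn_nostar {α ι : Type} [Finite α] [Finite ι] :
    dn {w : ι → Option α | ∀ j, w j ≠ none}
      = ((Nat.card α : ℝ) / ((Nat.card α : ℝ) + 1)) ^ (Nat.card ι) := by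
  have hinj : Function.Injective (inc : (ι → α) → (ι → Option α)) := by
    intro u v huv
    funext j
    have := congrFun huv j
    simpa [inc] using this
  have hset : {w : ι → Option α | ∀ j, w j ≠ none} = Set.range (inc : (ι → α) → _) := by
    ext w
    constructor
    · intro hw
      refine ⟨fun j => (w j).get (Option.ne_none_iff_isSome.mp (hw j)), ?_⟩
      funext j
      simp [inc]
    · rintro ⟨u, rfl⟩ j
      simp [inc]
  have h1 : Nat.card {w : ι → Option α | ∀ j, w j ≠ none} = Nat.card α ^ Nat.card ι := by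
    rw [hset, ← Nat.card_congr (Equiv.ofInjective _ hinj), Nat.card_fun]
  have h2 : Nat.card (ι → Option α) = (Nat.card α + 1) ^ Nat.card ι := by
    rw [Nat.card_fun, Finite.card_option]
  rw [dn_eq, h1, h2, div_pow]
  push_cast
  rfl

theorem dn_firststar {α : Type} [Finite α] (M : ℕ) :
    dn {w : Option (Fin M) → Option α | w none = none} = 1 / ((Nat.card α : ℝ) + 1) := by
  have hA : {w : Option (Fin M) → Option α | w none = none}
      = {w | (Equiv.piOptionEquivProd (β := fun _ : Option (Fin M) => Option α)) w ∈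
          {p : Option α × (Fin M → Option α) | p.1 = none}} := by
    ext w
    simp [Equiv.piOptionEquivProd]
  rw [hA, dn_equiv, dn, av_prod]
  have h1 : ∀ x : Option α, av (fun y : Fin M → Option α =>
      ({p : Option α × (Fin M → Option α) | p.1 = none}.indicator (fun _ => (1 : ℝ))) (x, y))
      = (({none} : Set (Option α)).indicator (fun _ => (1 : ℝ))) x := by
    intro x
    by_cases hx : x = none
    · subst hx
      simp [av_const]
    · have : ∀ y : Fin M → Option α,
          ({p : Option α × (Fin M → Option α) | p.1 = none}.indicator (fun _ => (1 : ℝ))) (x, y)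
            = 0 := by
        intro y
        simp [hx]
      simp only [this, av_zero]
      simp [hx]
  simp_rw [h1]
  change dn ({none} : Set (Option α)) = _
  rw [dn_eq, Finite.card_option]
  simp

theorem choose_z {Z : Type} [Finite Z] [Nonempty Z] {a b : Z → ℝ} {δ γ θ : ℝ} (hγ : 0 < γ)
    (hθ : 0 < θ) (ha : ∀ z, a z ≤ δ + γ) (hav : δ - γ ≤ av a) (hb : ∀ z, b z ≤ 1)
    (hbv : 2 * θ ≤ av b) : ∃ z, δ - 4 * γ / θ ≤ a z ∧ θ ≤ b z := by
  by_contra hcon
  push Not at hcon
  have h1 : θ ≤ dn {z | θ ≤ b z} := dn_ge_of_av_ge hθ.le hb hbv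
  have h2 : ∀ z, (4 * γ / θ) * ({z | θ ≤ b z}.indicator (fun _ => (1 : ℝ)) z)
      ≤ (δ + γ) - a z := by
    intro z
    by_cases hz : θ ≤ b z
    · have h3 : a z < δ - 4 * γ / θ := by
        by_contra h4
        exact absurd hz (not_le.mpr (hcon z (not_lt.mp h4)))
      rw [Set.indicator_of_mem (show z ∈ {z | θ ≤ b z} from hz)]
      (clear * - hγ h3; linarith)
    · rw [Set.indicator_of_notMem (show z ∉ {z | θ ≤ b z} from hz)]
      (clear * - ha; linarith [ha z])
  have h3 := av_mono h2
  rw [av_const_mul, av_sub, av_const] at h3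
  have h4 : av ({z | θ ≤ b z}.indicator fun _ => (1 : ℝ)) = dn {z | θ ≤ b z} := rfl
  rw [h4] at h3
  have h5 : 4 * γ / θ * θ ≤ 4 * γ / θ * dn {z | θ ≤ b z} :=
    mul_le_mul_of_nonneg_left h1 (by positivity)
  rw [div_mul_cancel₀ _ hθ.ne'] at h5
  (clear * - hγ hav h3 h5; linarith)

end Pool.Agent.Helper52.SZ

end

section

namespace Pool.Agent.Helper52.SZ

open Combinatorics

theorem core_pow_small {q t : ℝ} (hq0 : 0 ≤ q) (hq : q < 1) (ht : 0 < t) :
    ∃ n : ℕ, ∀ m, n ≤ m → q ^ m ≤ t := by
  obtain ⟨n, hn⟩ := exists_pow_lt_of_lt_one ht hq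
  exact ⟨n, fun m hm => (pow_le_pow_of_le_one hq0 hq.le hm).trans hn.le⟩

theorem core {α : Type} [Finite α] [Nonempty α] (hD : DHJ α) {δ : ℝ} (hδ : 0 < δ)
    (hG : ∀ γ : ℝ, 0 < γ → Good (Option α) (δ + γ)) :
    ∃ ε : ℝ, 0 < ε ∧ Good (Option α) (δ - ε) := by
  classical
  have hk0 : (0 : ℝ) ≤ (Nat.card α : ℝ) := Nat.cast_nonneg _
  set k : ℝ := (Nat.card α : ℝ) with hk
  set K : ℝ := k + 1 with hK
  have hK1 : 1 ≤ K := by linarith
  have hK0 : 0 < K := by linarith
  by_cases hδ1 : 1 < δ
  · refine ⟨(δ - 1) / 2, by linarith, good_of_one_lt (by linarith)⟩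
  push Not at hδ1
  -- the parameters
  obtain ⟨m0, hm0⟩ := hD (δ / 4) (by (clear * - hδ; linarith))
  set θ1 : ℝ := (δ / 4) / K ^ m0 with hθ1
  have hθ1pos : 0 < θ1 := by (clear * - hδ; positivity)
  have hθ1le : θ1 ≤ 1 := by
    rw [hθ1, div_le_one (by positivity)]
    have : 1 ≤ K ^ m0 := one_le_pow₀ hK1
    (clear * - hδ1 this; linarith)
  set θ : ℝ := θ1 / (2 * K) with hθ
  have hθpos : 0 < θ := by (clear * - hδ; positivity)
  have hθle : θ ≤ 1 := by
    rw [hθ, div_le_one (by positivity)]
    linarith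
  set γ : ℝ := δ * θ ^ 2 / 64 with hγ
  have hγpos : 0 < γ := by (clear * - hδ; positivity)
  have hγδ : γ ≤ δ / 2 := by
    have h1 : θ ^ 2 ≤ 1 := pow_le_one₀ hθpos.le hθle
    have h2 : δ * θ ^ 2 ≤ δ * 1 := mul_le_mul_of_nonneg_left h1 hδ.le
    rw [hγ]
    (clear * - hδ h2; linarith)
  obtain ⟨n1, hn1⟩ := hG γ hγpos
  set β : ℝ := δ * θ / (4 * K) with hβ
  have hβpos : 0 < β := by (clear * - hδ; positivity)
  have hM : MDHJ α := mdhj_of_dhj hD
  obtain ⟨nP, hnP⟩ := part_all hM n1 β hβpos
  obtain ⟨nQ, hnQ⟩ := core_pow_small (q := k / K) (t := δ * θ / 8) (by (clear * -; positivity))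
    (by rw [div_lt_one hK0]; (clear * - hδ1 hγpos hγδ; linarith)) (by (clear * - hδ; positivity))
  set M : ℕ := nP + n1 + nQ with hMdef
  obtain ⟨m, hm⟩ := ramsey (α := α) m0 M Unit
  have hcardT : (Nat.card (Fin m → Option α) : ℝ) = K ^ m := by
    rw [Nat.card_fun, Nat.card_fin, Finite.card_option]
    push_cast
    rfl
  set ε : ℝ := γ / (2 * K ^ m) with hε
  have hεpos : 0 < ε := by (clear * - hδ; positivity)
  obtain ⟨n2, hn2⟩ := hG ε hεpos
  refine ⟨ε, hεpos, m + n2, ?_⟩
  intro ι _ hι A hA
  by_contra hno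
  obtain ⟨κ', _, ⟨e⟩, hcard⟩ := exists_split (ι := ι) (n := m) (by omega)
  have hκ' : n2 ≤ Nat.card κ' := by omega
  -- sections
  have hsec_le : ∀ t, dn {v | glue e t v ∈ A} ≤ δ + ε := by
    intro t
    by_contra hcon
    push Not at hcon
    obtain ⟨l, hl⟩ := hn2 κ' hκ' _ hcon.le
    exact hno ⟨lineR e t l, fun x => by rw [lineR_apply]; exact hl x⟩
  have hsec_ge : ∀ t, δ - γ ≤ dn {v | glue e t v ∈ A} := by
    intro t
    have h1 := av_lower (X := Fin m → Option α) (g := fun t => dn {v | glue e t v ∈ A})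
      (a := δ) (b := ε) hεpos.le hsec_le (by rw [dn_glue' e] at hA; exact hA) t
    rw [hcardT] at h1
    have h2 : 2 * ε * K ^ m = γ := by
      rw [hε]
      field_simp
    rw [h2] at h1
    exact h1
  -- lines in a section over the first block
  have hnoL : ∀ z : κ' → Option α, ¬ ∃ l : Line (Option α) (Fin m), ∀ x, glue e (l x) z ∈ A := by
    rintro z ⟨l, hl⟩
    exact hno ⟨lineL e l z, fun x => by rw [lineL_apply]; exact hl x⟩
  rcases hm (Fin m) (by simp) (fun _ t => θ1 ≤ dn {v | ∀ i, glue e (inc (rep i t)) v ∈ A}) with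
    ⟨R, hR⟩ | ⟨-, W, hW⟩
  · -- option (i)
    obtain ⟨l, hl⟩ := popular_line (β := α) (κ := Fin m0) (Z := κ' → Option α) (c := δ / 4)
      (by (clear * - hγpos hγδ; linarith)) (fun B hB => hm0 (Fin m0) (by simp) B hB)
      (fun w z => glue e (inc (R w)) z ∈ A) (by
        have h1 : av (fun z => dn {w : Fin m0 → α | glue e (inc (R w)) z ∈ A})
            = av (fun w : Fin m0 → α => dn {z | glue e (inc (R w)) z ∈ A}) := by
          simp only [dn]
          rw [av_comm]
          rfl
        rw [h1]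
        refine le_av_of_le fun w => ?_
        (clear * - hγδ hsec_ge; linarith [hsec_ge (inc (R w))]))
    have hs := hR () l.idxFun l.proper
    apply hs
    rw [Nat.card_fin] at hl
    refine hl.trans (le_of_eq ?_)
    congr 1
    ext z
    simp only [Set.mem_ofPred_eq]
    refine forall_congr' fun i => ?_
    rw [rep_extS]
    rfl
  · -- option (ii)
    have hηcard : Nat.card (Option (Fin M)) = M + 1 := by simp
    set B : (κ' → Option α) → Set (Option (Fin M) → Option α) :=
      fun z => {s | glue e (extS W s) z ∈ A} with hBdef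
    set D : (κ' → Option α) → α → Set (Option (Fin M) → Option α) :=
      fun z i => {s | glue e (inc (W (rep i s))) z ∈ A} with hDdef
    have hDins : ∀ z i, Ins i (D z i) := by
      intro z i w
      simp only [hDdef, Set.mem_ofPred_eq, rep_inc]
    have hBline : ∀ z, ¬ ∃ l : Line (Option α) (Option (Fin M)), ∀ x, l x ∈ B z := by
      rintro z ⟨l, hl⟩
      exact hnoL z ⟨lineS (extS W) l, fun x => by rw [lineS_apply]; exact hl x⟩
    have hBle : ∀ z, dn (B z) ≤ δ + γ := by
      intro z
      by_contra hcon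
      push Not at hcon
      exact hBline z (hn1 (Option (Fin M)) (by rw [hηcard]; omega) _ hcon.le)
    have hBav : δ - γ ≤ av (fun z => dn (B z)) := by
      have h1 : av (fun z => dn (B z))
          = av (fun s : Option (Fin M) → Option α => dn {z | glue e (extS W s) z ∈ A}) := by
        simp only [dn]
        rw [av_comm]
        rfl
      rw [h1]
      exact le_av_of_le fun s => hsec_ge _
    have hDav : 2 * θ ≤ av (fun z => dn (⋂ i, D z i)) := by
      have h1 : av (fun z => dn (⋂ i, D z i))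
          = av (fun s : Option (Fin M) → Option α =>
            dn {z : κ' → Option α | ∀ i, glue e (inc (W (rep i s))) z ∈ A}) := by
        simp only [dn]
        rw [av_comm]
        congr 1
        funext s
        congr 1
        funext z
        by_cases hz : ∀ i, glue e (inc (W (rep i s))) z ∈ A
        · rw [Set.indicator_of_mem (by simpa [hDdef] using hz), Set.indicator_of_mem (by simpa using hz)]
        · rw [Set.indicator_of_notMem (by simpa [hDdef] using hz),
            Set.indicator_of_notMem (by simpa using hz)]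
      rw [h1]
      have h2 : ∀ s : Option (Fin M) → Option α,
          θ1 * {w : Option (Fin M) → Option α | w none = none}.indicator (fun _ => (1 : ℝ)) s
            ≤ dn {z : κ' → Option α | ∀ i, glue e (inc (W (rep i s))) z ∈ A} := by
        intro s
        by_cases hs : s none = none
        · rw [Set.indicator_of_mem (by exact hs), mul_one]
          have h3 := hW s hs
          refine h3.trans (le_of_eq ?_)
          congr 1
          ext z
          simp only [Set.mem_ofPred_eq]
          refine forall_congr' fun i => ?_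
          rw [rep_extS]
        · rw [Set.indicator_of_notMem (by exact hs), mul_zero]
          exact dn_nonneg _
      have h3 := av_mono h2
      rw [av_const_mul] at h3
      have h4 : av ({w : Option (Fin M) → Option α | w none = none}.indicator (fun _ => (1 : ℝ)))
          = 1 / K := dn_firststar M
      rw [h4] at h3
      refine le_trans (le_of_eq ?_) h3
      rw [hθ]
      field_simp
    obtain ⟨z, hz1, hz2⟩ := choose_z hγpos hθpos hBle hBav (fun z => dn_le_one _) hDav
    refine final_contra hδ hθpos hθle hγ (B z) (D z) (hDins z) ?_ hz1 hz2 ?_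
    · intro E hE
      refine hnP (Option (Fin M)) (by rw [hηcard]; omega) E _ hE ?_ ?_
      · intro w
        have h1 : (B z).indicator (fun _ => (1 : ℝ)) w ≤ 1 :=
          Set.indicator_le_self' (fun _ _ => zero_le_one) w
        (clear * - hγpos hγδ h1; linarith)
      · intro V
        have h1 : av (fun x => (B z).indicator (fun _ => (1 : ℝ)) (V x) - (δ + γ))
            = dn {x | V x ∈ B z} - (δ + γ) := by
          rw [av_sub, av_const]
          rfl
        rw [h1]
        by_contra hcon
        push Not at hcon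
        obtain ⟨l, hl⟩ := hn1 (Fin n1) (by simp) {x | V x ∈ B z} (by (clear * - hcon; linarith))
        exact hBline z ⟨lineS V l, fun x => by rw [lineS_apply]; exact hl x⟩
    · have h1 : B z ∩ ⋂ i, D z i ⊆ {w : Option (Fin M) → Option α | ∀ j, w j ≠ none} := by
        rintro w ⟨hwB, hwD⟩ j hj
        obtain ⟨p, hp⟩ := (extS W).proper j
        refine hnoL z ?_
        obtain ⟨l, hl⟩ := line_of_star {t | glue e t z ∈ A} (extS W w)
          ⟨p, by rw [Subspace.apply_inr hp, hj]⟩ hwB (fun i => by
            have h2 := Set.mem_iInter.mp hwD i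
            simp only [hDdef, Set.mem_ofPred_eq] at h2
            simp only [Set.mem_ofPred_eq, rep_extS]
            exact h2)
        exact ⟨l, hl⟩
      refine (dn_mono h1).trans ?_
      rw [dn_nostar, hηcard]
      exact hnQ (M + 1) (by omega)

end Pool.Agent.Helper52.SZ

end

section

namespace Pool.Agent.Helper52.SZ

open Combinatorics

theorem dhj_option {α : Type} [Finite α] (hD : DHJ α) : DHJ (Option α) :=
  dhj_option_of fun hN _ hδ hG => by
    have := hN
    exact core hD hδ hG

theorem dhj (α : Type) [Finite α] : DHJ α :=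
  dhj_of_step (fun _ _ h => dhj_option h) α

end Pool.Agent.Helper52.SZ

end

section

namespace Pool.Agent.Helper52.SZ

/-- Szemeredi's theorem. -/
theorem szemeredi (k : ℕ) (δ : ℝ) (hδ : 0 < δ) :
    ∃ N0 : ℕ, ∀ N : ℕ, N0 ≤ N → ∀ A : Finset ℕ, A ⊆ Finset.range N → δ * N ≤ (A.card : ℝ) →
      ∃ a d : ℕ, 0 < d ∧ ∀ i < k, a + i * d ∈ A := by
  rcases Nat.eq_zero_or_pos k with hk | hk
  · subst hk
    exact ⟨0, fun _ _ _ _ _ => ⟨0, 1, Nat.one_pos, fun i hi => absurd hi (Nat.not_lt_zero i)⟩⟩
  · exact szemeredi_of_dhj hk (dhj (Fin k)) δ hδ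

end Pool.Agent.Helper52.SZ

end
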