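import Pool.Agent.Helper23.MT.L00_abcd0
import Pool.Agent.Helper23.MT.L00_acd0
import Pool.Agent.Helper23.MT.L00_acd1
import Pool.Agent.Helper23.MT.L00_acd2
import Pool.Agent.Helper23.MT.L00_acd3
import Pool.Agent.Helper23.MT.L00_acd4
import Pool.Agent.Helper23.MT.L00_acd5

/-!
Parts of Helper18.BV.Defs, Helper1.MT.DefsU, Helper18.BV.St, Helper44.BV.Mass, Helper74.MT.BVAux, Helper18.BV.Vaughan, Helper81.BV.Small, Helper44.BV.TypeOne, Helper18.BV.WtLemmas, Helper51.BV.Average, Helper28.MT.BVErrorU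
-/

namespace Pool.Agent.Helper1.MT
end Pool.Agent.Helper1.MT
namespace Pool.Agent.Helper18.BV
end Pool.Agent.Helper18.BV

section

set_option autoImplicit false

open Finset

namespace Pool.Agent.Helper18.BV

theorem D_apply (f : ArithmeticFunction ℂ) (n : ℕ) : D f n = f n * (Real.log n : ℂ) := rfl

end Pool.Agent.Helper18.BV

end

section

set_option autoImplicit false

open Finset

open scoped ArithmeticFunction.vonMangoldt

namespace Pool.Agent.Helper1.MT

open Pool.Agent.Helper18.BV (wt IsWt)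

/-- MU-A: the one-dimensional sums, uniformly in `W`. -/
def OneDimU : Prop :=
  ∀ (K J D0 : ℕ) (A : ℝ), 0 < K → 10 * 2 ^ J ≤ 8 * K * (J + 2) → (K + 2) ^ 10 ≤ D0 → 0 < A →
    ∃ X0 : ℝ, 3 ≤ X0 ∧ ∀ x : ℝ, X0 ≤ x → ∀ W : ℕ, Reg D0 W → (W : ℝ) ≤ Real.log x ^ A →
    ∃ c : ℝ, (W.totient : ℝ) / (4 * W) ≤ c ∧ c ≤ 1 ∧ 1 / (32 * (D0 : ℝ)) ≤ c ∧
      Good K (wp (lev x) W) (tp (lev x) W) (gam K J) (2 ^ J / Kp K J) (2 / D0) ∧
      ((K : ℝ) - 1) * M1 (wp (lev x) W) (tp (lev x) W) (gam K J) ≤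
        1 / 10 * (1 - 2 ^ J / Kp K J) * B1 (wp (lev x) W) (gam K J) ∧
      9 / 10 * (J + 2 : ℝ) / (2 * Kp K J) * (c * Real.log (lev x)) ≤
        A1 (wp (lev x) W) (gam K J) ∧
      A1 (wp (lev x) W) (gam K J) ≤
        11 / 10 * (J + 2 : ℝ) / (2 * Kp K J) * (c * Real.log (lev x)) ∧
      9 / 10 / Kp K J * (c * Real.log (lev x)) ≤ B1 (wp (lev x) W) (gam K J) ∧
      B1 (wp (lev x) W) (gam K J) ≤ 16 / 10 / Kp K J * (c * Real.log (lev x)) ∧
      9 / 10 * (c * Real.log (lev x)) ≤ V0 (wp (lev x) W) (tp (lev x) W)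

/-- MU-B: the error terms for primes, uniformly in `W`. -/
def BVErrorU : Prop :=
  ∀ g : ℝ → ℝ, IsWt g → ∀ (k : ℕ) (A : ℝ), 0 < A → ∃ X0 : ℝ, 3 ≤ X0 ∧
    ∀ x : ℝ, X0 ≤ x → ∀ W : ℕ, 0 < W → (W : ℝ) ≤ Real.log x ^ A →
    ∀ c : ℕ → ℕ, (∀ d, Nat.Coprime (c d) d) →
      ∑ U ∈ (PS (lev x) W).powerset.filter (fun U => ∏ p ∈ U, p ≤ lev x ^ 2),
        (k : ℝ) ^ U.card *
        |∑ n ∈ (Icc 1 ⌊x⌋₊).filter (fun n => n ≡ c (W * ∏ p ∈ U, p) [MOD (W * ∏ p ∈ U, p)]),
            Λ n * wt g x n -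
          (1 / ((W * ∏ p ∈ U, p : ℕ).totient : ℝ)) * ∑ n ∈ Icc 1 ⌊x⌋₊, Λ n * wt g x n| ≤
        1 / Real.log x ^ A

end Pool.Agent.Helper1.MT

end

section

set_option autoImplicit false

open Finset Filter Topology

open scoped ArithmeticFunction.vonMangoldt ArithmeticFunction.Moebius ArithmeticFunction.zeta

namespace Pool.Agent.Helper18.BV

/-- A8: prime number theorem for primitive characters of small conductor. -/
def Small : Prop :=
  ∀ g : ℝ → ℝ, IsWt g → ∀ A B : ℝ, 0 < A → 0 < B → ∃ C X0 : ℝ, 0 < C ∧ 3 ≤ X0 ∧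
    ∀ x : ℝ, X0 ≤ x → ∀ q : ℕ, 1 < q → (q : ℝ) ≤ Real.log x ^ B → ∀ χ ∈ prim q,
      ‖SS LaC g x χ‖ ≤ C / Real.log x ^ A

/-- B6: primes in one residue class for every modulus up to `x ^ (1/40)`, on average. -/
def BVav : Prop :=
  ∀ g : ℝ → ℝ, IsWt g → ∀ A : ℝ, 0 < A → ∃ C X0 : ℝ, 0 < C ∧ 3 ≤ X0 ∧
    ∀ x : ℝ, X0 ≤ x → ∀ c : ℕ → ℕ, (∀ d, Nat.Coprime (c d) d) →
      ∑ d ∈ Icc 1 ⌊x ^ (1 / 40 : ℝ)⌋₊,
        |∑ n ∈ (Icc 1 ⌊x⌋₊).filter (fun n => n ≡ c d [MOD d]), Λ n * wt g x n -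
          (1 / (d.totient : ℝ)) * ∑ n ∈ Icc 1 ⌊x⌋₊, Λ n * wt g x n| ≤ C / Real.log x ^ A

end Pool.Agent.Helper18.BV

end

section

set_option autoImplicit false

open Finset Filter Topology

open scoped ArithmeticFunction.vonMangoldt

namespace Pool.Agent.Helper44.BV

open Pool.Agent.Helper18.BV

/-- Admissible weights are bounded. -/
theorem IsWt_bdd {g : ℝ → ℝ} (hg : IsWt g) : ∃ G : ℝ, 0 < G ∧ ∀ v, |g v| ≤ G := by
  have hcs : HasCompactSupport g :=
    isCompact_Icc.of_isClosed_subset (isClosed_tsupport g) (hg.supp.trans Set.Ioo_subset_Icc_self)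
  obtain ⟨G, hG⟩ := hg.smooth.continuous.bounded_above_of_compact_support hcs
  refine ⟨|G| + 1, by (clear * -; positivity), fun v => ?_⟩
  have := hG v
  rw [Real.norm_eq_abs] at this
  linarith [le_abs_self G]

theorem sum_Lambda_Ioc_le {x : ℝ} (hx : 1 ≤ x) :
    ∑ n ∈ Ioc 0 ⌊x⌋₊, Λ n / n ≤ Real.log x + 6 := by
  have h1 : 1 ≤ ⌊x⌋₊ := Nat.le_floor (by exact_mod_cast hx)
  have h2 := (abs_le.1 (abs_sum_vonMangoldt_div_sub_log_nat ⌊x⌋₊ h1)).2
  have h3 : Real.log ⌊x⌋₊ ≤ Real.log x :=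
    Real.log_le_log (by exact_mod_cast h1) (Nat.floor_le (by (clear * - hx; linarith)))
  (clear * - h2 h3; linarith)

end Pool.Agent.Helper44.BV

end

section

set_option autoImplicit false

open Finset

open scoped ArithmeticFunction.vonMangoldt

namespace Pool.Agent.Helper74.MT

open Pool.Agent.Helper18.BV (wt IsWt)

open Pool.Agent.Helper1.MT

/-- The trivial bound in one residue class. -/
theorem sum_class_le {g : ℝ → ℝ} (hg : IsWt g) {G : ℝ} (hG : ∀ v, |g v| ≤ G) {x : ℝ}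
    (hx : 3 ≤ x) (d r : ℕ) (hd : 0 < d) (hdx : (d : ℝ) ^ 2 ≤ x) :
    ∑ n ∈ (Icc 1 ⌊x⌋₊).filter (fun n => n ≡ r [MOD d]), Λ n * wt g x n ≤
      G * Real.log x * (1 + Real.log x) / d := by
  have hG0 : 0 ≤ G := (abs_nonneg (g 0)).trans (hG 0)
  have hlx : 0 < Real.log x := Real.log_pos (by (clear * - hx; linarith))
  have hd' : (0 : ℝ) < d := by exact_mod_cast hd
  have h1 : ∑ n ∈ (Icc 1 ⌊x⌋₊).filter (fun n => n ≡ r [MOD d]), Λ n * wt g x n ≤
      ∑ n ∈ (Icc 1 ⌊x⌋₊).filter (fun n => n ≡ r [MOD d] ∧ d < n),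
        (G * Real.log x) * ((1 : ℝ) / n) := by
    have h2 : (Icc 1 ⌊x⌋₊).filter (fun n => n ≡ r [MOD d] ∧ d < n) =
        ((Icc 1 ⌊x⌋₊).filter (fun n => n ≡ r [MOD d])).filter (fun n => d < n) := by
      rw [filter_filter]
    rw [h2, Finset.sum_filter (fun n => d < n)]
    apply Finset.sum_le_sum
    intro n hn
    rw [mem_filter, mem_Icc] at hn
    have hn0 : (0 : ℝ) < n := by exact_mod_cast hn.1.1
    split_ifs with h
    · have h3 : Λ n ≤ Real.log x := by
        refine ArithmeticFunction.vonMangoldt_le_log.trans ?_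
        apply Real.log_le_log hn0
        exact (Nat.le_floor_iff (by (clear * - hx; linarith))).1 hn.1.2
      have h4 : wt g x n ≤ G * (1 / n) := by
        unfold wt
        rw [div_eq_mul_one_div]
        exact mul_le_mul_of_nonneg_right ((le_abs_self _).trans (hG _)) (by (clear * - hn0; positivity))
      calc Λ n * wt g x n ≤ Real.log x * (G * (1 / n)) :=
            mul_le_mul h3 h4 (wt_nonneg hg x n) hlx.le
        _ = _ := by ring
    · rw [wt_zero hg (by (clear * - hx; linarith)) hn.1.1, mul_zero]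
      have h5 : (n : ℝ) ≤ d := by exact_mod_cast not_lt.1 h
      calc (n : ℝ) ^ 2 ≤ (d : ℝ) ^ 2 := by gcongr
        _ ≤ x := hdx
  refine h1.trans ?_
  rw [← Finset.mul_sum, mul_div_assoc]
  apply mul_le_mul_of_nonneg_left _ (by (clear * - hG0 hlx; positivity))
  refine (sum_inv_class_le _ d r hd).trans ?_
  have hfl : 1 ≤ ⌊x⌋₊ := Nat.le_floor (by push_cast; (clear * - hx; linarith))
  have h6 : Real.log ⌊x⌋₊ ≤ Real.log x :=
    Real.log_le_log (by exact_mod_cast hfl) (Nat.floor_le (by (clear * - hx; linarith)))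
  gcongr

/-- The trivial bound for the total mass. -/
theorem sum_total_le {g : ℝ → ℝ} (_hg : IsWt g) {G : ℝ} (hG : ∀ v, |g v| ≤ G) {x : ℝ}
    (hx : 3 ≤ x) :
    ∑ n ∈ Icc 1 ⌊x⌋₊, Λ n * wt g x n ≤ G * (Real.log x + 6) := by
  have hG0 : 0 ≤ G := (abs_nonneg (g 0)).trans (hG 0)
  have h1 : ∑ n ∈ Icc 1 ⌊x⌋₊, Λ n * wt g x n ≤ ∑ n ∈ Ioc 0 ⌊x⌋₊, G * (Λ n / n) := by
    have h2 : Icc 1 ⌊x⌋₊ = Ioc 0 ⌊x⌋₊ := by
      ext n; rw [mem_Icc, mem_Ioc]; omega
    rw [h2]
    apply Finset.sum_le_sum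
    intro n hn
    unfold wt
    have h3 : Λ n * (g (Real.log n / Real.log x) / n) = g (Real.log n / Real.log x) * (Λ n / n) := by
      ring
    rw [h3]
    exact mul_le_mul_of_nonneg_right ((le_abs_self _).trans (hG _))
      (div_nonneg ArithmeticFunction.vonMangoldt_nonneg (Nat.cast_nonneg _))
  refine h1.trans ?_
  rw [← Finset.mul_sum]
  exact mul_le_mul_of_nonneg_left (Pool.Agent.Helper44.BV.sum_Lambda_Ioc_le (by (clear * - hx; linarith))) hG0

/-- Euler's function of the moduli. -/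
theorem le_totient (R W : ℕ) (hW : 0 < W) (U : Finset ℕ) (hU : U ⊆ PS R W) :
    ∏ p ∈ U, p ≤ (W * ∏ p ∈ U, p).totient * 2 ^ U.card ∧
      Nat.Coprime (W * ∏ p ∈ U, p) (W * ∏ p ∈ U, p + 1) := by
  refine ⟨?_, by simp⟩
  induction U using Finset.induction_on with
  | empty =>
    simp only [prod_empty, mul_one, card_empty, pow_zero]
    exact Nat.totient_pos.2 hW
  | insert p U hp ih =>
    have ih' := ih ((Finset.subset_insert p U).trans hU)
    have hpm : p ∈ PS R W := hU (Finset.mem_insert_self p U)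
    unfold PS at hpm
    rw [mem_filter] at hpm
    have hpp : p.Prime := hpm.2.1
    rw [Finset.prod_insert hp, Finset.card_insert_of_notMem hp]
    have h1 : W * (p * ∏ q ∈ U, q) = p * (W * ∏ q ∈ U, q) := by ring
    have hcop : Nat.Coprime p (W * ∏ q ∈ U, q) := by
      apply Nat.Coprime.mul_right
      · exact (Nat.Prime.coprime_iff_not_dvd hpp).2 hpm.2.2
      · apply Nat.Coprime.prod_right
        intro q hq
        have hqm : q ∈ PS R W := hU (Finset.mem_insert_of_mem hq)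
        unfold PS at hqm
        rw [mem_filter] at hqm
        refine (Nat.coprime_primes hpp hqm.2.1).2 ?_
        rintro rfl
        exact hp hq
    rw [h1, Nat.totient_mul hcop, Nat.totient_prime hpp, pow_succ]
    have h2 : p ≤ (p - 1) * 2 := by have := hpp.two_le; omega
    calc p * ∏ q ∈ U, q ≤ ((p - 1) * 2) * ((W * ∏ q ∈ U, q).totient * 2 ^ U.card) :=
          Nat.mul_le_mul h2 ih'
      _ = _ := by ring

/-- The sum of `a ^ |U| / ∏ U` over sets of primes. -/
theorem sum_powerset_le {C : ℝ} (hM : ∀ w : ℝ, 2 ≤ w →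
    |∑ q ∈ Pool.Agent.Helper44.primesUpTo w, (1 : ℝ) / q - Real.log (Real.log w)| ≤ C)
    (R W : ℕ) (x : ℝ) (hx : 2 ≤ x) (hR : (R : ℝ) ≤ x) (a : ℝ) (ha : 0 ≤ a) :
    ∑ U ∈ (PS R W).powerset, a ^ U.card / ((∏ p ∈ U, p : ℕ) : ℝ) ≤
      Real.exp (a * C) * Real.log x ^ a := by
  have hlx : 0 < Real.log x := Real.log_pos (by linarith)
  have h1 : ∑ U ∈ (PS R W).powerset, a ^ U.card / ((∏ p ∈ U, p : ℕ) : ℝ) =
      ∏ p ∈ PS R W, (1 + a / p) := by
    rw [Finset.prod_one_add]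
    apply Finset.sum_congr rfl
    intro U _
    rw [Finset.prod_div_distrib, Finset.prod_const]
    push_cast
    rfl
  rw [h1]
  have h2 : ∏ p ∈ PS R W, (1 + a / p) ≤ ∏ p ∈ PS R W, Real.exp (a * (1 / p)) := by
    apply Finset.prod_le_prod
    · intro p _; (clear * - ha; positivity)
    · intro p _
      have := Real.add_one_le_exp (a * (1 / (p : ℝ)))
      have h3 : a * (1 / (p : ℝ)) = a / p := by ring
      rw [h3] at this ⊢
      (clear * - this; linarith)
  refine h2.trans ?_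
  rw [← Real.exp_sum, ← Finset.mul_sum]
  have h4 : ∑ p ∈ PS R W, (1 : ℝ) / p ≤ Real.log (Real.log x) + C := by
    have h5 := (abs_le.1 (hM x hx)).2
    have h6 : ∑ p ∈ PS R W, (1 : ℝ) / p ≤
        ∑ q ∈ Pool.Agent.Helper44.primesUpTo x, (1 : ℝ) / q := by
      apply Finset.sum_le_sum_of_subset_of_nonneg
      · intro p hp
        unfold PS at hp
        rw [mem_filter, mem_range] at hp
        rw [Pool.Agent.Helper44.mem_primesUpTo (by (clear * - hx; linarith))]
        refine ⟨hp.2.1, le_trans ?_ hR⟩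
        exact_mod_cast Nat.lt_succ_iff.1 hp.1
      · intro p _ _; (clear * -; positivity)
    (clear * - h5 h6; linarith)
  have h7 : Real.exp (a * C) * Real.log x ^ a = Real.exp (a * (Real.log (Real.log x) + C)) := by
    rw [Real.rpow_def_of_pos hlx, ← Real.exp_add]
    congr 1
    ring
  rw [h7]
  exact Real.exp_le_exp.2 (mul_le_mul_of_nonneg_left h4 ha)

end Pool.Agent.Helper74.MT

end

section

set_option autoImplicit false

open Finset

open scoped ArithmeticFunction.vonMangoldt ArithmeticFunction.Moebius ArithmeticFunction.zeta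

namespace Pool.Agent.Helper18.BV

theorem zeC_apply {n : ℕ} (hn : n ≠ 0) : zeC n = 1 := by
  unfold zeC
  rw [ArithmeticFunction.natCoe_apply, ArithmeticFunction.zeta_apply_ne hn, Nat.cast_one]

theorem zeC_mul_LaC : zeC * LaC = D zeC := by
  ext n
  rcases Nat.eq_zero_or_pos n with rfl | hn
  · simp
  rw [D_apply, zeC_apply hn.ne', one_mul, ArithmeticFunction.mul_apply]
  have h1 : ∀ x ∈ n.divisorsAntidiagonal, zeC x.1 * LaC x.2 = ((Λ x.2 : ℝ) : ℂ) := by
    intro x hx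
    have : x.1 ≠ 0 := (Nat.ne_zero_of_mem_divisorsAntidiagonal hx).1
    rw [zeC_apply this, one_mul, LaC_apply]
  rw [Finset.sum_congr rfl h1]
  rw [Nat.sum_divisorsAntidiagonal' (f := fun _ j => ((Λ j : ℝ) : ℂ))]
  rw [← ArithmeticFunction.vonMangoldt_sum]
  push_cast
  rfl

theorem norm_zeC_le (n : ℕ) : ‖zeC n‖ ≤ 1 := by
  rcases Nat.eq_zero_or_pos n with rfl | hn
  · simp
  · rw [zeC_apply hn.ne']; simp

end Pool.Agent.Helper18.BV

end

section

set_option autoImplicit false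

open Finset Filter Topology MeasureTheory

open scoped ArithmeticFunction.vonMangoldt ArithmeticFunction.Moebius ArithmeticFunction.zeta

namespace Pool.Agent.Helper81.BV

open Pool.Agent.Helper18.BV

lemma gk_smooth {g : ℝ → ℝ} (hg : IsWt g) (k : ℕ) : ContDiff ℝ (⊤ : ℕ∞) (gk g k) := by
  rw [contDiff_iff_contDiffAt]
  intro v
  by_cases hv : v ∈ tsupport g
  · have hv0 : v ≠ 0 := by
      have := (hg.supp hv).1
      intro h
      rw [h] at this
      norm_num at this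
    exact (hg.smooth.contDiffAt.mul ((contDiffAt_inv ℝ hv0).pow k)).mul
      Real.contDiff_exp.contDiffAt
  · rw [notMem_tsupport_iff_eventuallyEq] at hv
    have : gk g k =ᶠ[𝓝 v] fun _ => (0 : ℝ) := by
      filter_upwards [hv] with w hw
      simp [gk, hw]
    exact contDiffAt_const.congr_of_eventuallyEq this

lemma gk_compact {g : ℝ → ℝ} (hg : IsWt g) (k : ℕ) : HasCompactSupport (gk g k) := by
  refine HasCompactSupport.intro (isCompact_Icc (a := (1 / 2 : ℝ)) (b := 1)) fun v hv => ?_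
  have : g v = 0 := wt_zero hg fun h => hv (Set.Ioo_subset_Icc_self h)
  simp [gk, this]

lemma identity {g : ℝ → ℝ} (hg : IsWt g) {h : ℝ → ℂ} (hc : Continuous h)
    (hi : Integrable (fun t : ℝ => ‖h t‖)) (k : ℕ)
    (hrep : ∀ v : ℝ, (gk g k v : ℂ) = ∫ t : ℝ, h t * Complex.exp (t * v * Complex.I))
    (x : ℝ) (hx0 : 1 < x) (hx : 1 ≤ Real.log x) {q : ℕ} (χ : DirichletCharacter ℂ q) :
    SS LaC g x χ = ((Real.log x : ℂ)⁻¹) ^ k *
      ∫ t, h t * LSeries (co k χ) (st (Real.log x) t) := by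
  set l := Real.log x with hl
  have hl0 : 0 < l := by linarith
  have hint : ∀ n, Integrable (fun t => h t * LSeries.term (co k χ) (st l t) n) := by
    intro n
    refine Integrable.mono' (hi.mul_const (bb k χ l n))
      (hc.mul (continuous_term k χ l n)).aestronglyMeasurable (Eventually.of_forall fun t => ?_)
    rw [norm_mul, norm_term]
  have hsum : Summable fun n => ∫ t, ‖h t * LSeries.term (co k χ) (st l t) n‖ := by
    have : (fun n => ∫ t, ‖h t * LSeries.term (co k χ) (st l t) n‖) =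
        fun n => (∫ t, ‖h t‖) * bb k χ l n := by
      ext n
      rw [← integral_mul_const]
      congr 1
      ext t
      rw [norm_mul, norm_term]
    rw [this]
    exact (bb_sum k χ l hx).1.mul_left _
  have h1 : ∫ t, h t * LSeries (co k χ) (st l t) =
      ∑' n : ℕ, ∫ t, h t * LSeries.term (co k χ) (st l t) n := by
    rw [integral_tsum_of_summable_integral_norm hint hsum]
    congr 1
    ext t
    rw [tsum_mul_left]
    rfl
  rw [h1]
  simp only [integral_term k χ l (gk g k) hrep]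
  rw [← tsum_mul_left]
  have hz : ∀ n ∉ Icc 1 ⌊x⌋₊, ((l : ℂ)⁻¹) ^ k * (co k χ n * ((n : ℂ)⁻¹ *
      Complex.exp (-(Real.log n / l : ℝ))) * gk g k (Real.log n / l)) = 0 := by
    intro n hn
    rcases eq_or_ne n 0 with rfl | hn0
    · simp [co_zero]
    · have hnx : x < n := by
        by_contra hcon
        push Not at hcon
        exact hn (Finset.mem_Icc.2 ⟨Nat.pos_of_ne_zero hn0, Nat.le_floor hcon⟩)
      have h2 : g (Real.log n / l) = 0 := by
        refine wt_zero hg fun h => ?_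
        have h3 := h.2
        rw [div_lt_one hl0] at h3
        exact absurd (Real.log_lt_log (by linarith) hnx) (not_lt.2 h3.le)
      simp [gk, h2]
  rw [tsum_eq_sum hz]
  unfold SS
  refine Finset.sum_congr rfl fun n hn => ?_
  have hn0 : n ≠ 0 := by
    have := (Finset.mem_Icc.1 hn).1
    omega
  have hnc : (n : ℂ) ≠ 0 := by exact_mod_cast hn0
  have hlogc : Complex.log (n : ℂ) = ((Real.log n : ℝ) : ℂ) := (Complex.natCast_log).symm
  rw [co, LaC_apply, wt, gk, hlogc]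
  generalize Real.log (n : ℝ) = L
  rcases eq_or_ne L 0 with hlog | hlog
  · have h2 : g 0 = 0 := wt_zero hg (by norm_num)
    simp [hlog, h2]
  · have hlc : (l : ℂ) ≠ 0 := by exact_mod_cast hl0.ne'
    have hLc : (L : ℂ) ≠ 0 := by exact_mod_cast hlog
    have hexp : Complex.exp (-((L : ℂ) / l)) * Complex.exp ((L : ℂ) / l) = 1 := by
      rw [← Complex.exp_add]
      simp
    push_cast
    rw [inv_div, div_pow, inv_pow]
    calc _ = (Λ n : ℂ) * χ (n : ZMod q) * (g (L / l) / n) * 1 := by ring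
      _ = (Λ n : ℂ) * χ (n : ZMod q) * (g (L / l) / n) *
          (Complex.exp (-((L : ℂ) / l)) * Complex.exp ((L : ℂ) / l)) := by
        rw [hexp]
      _ = _ := by
        field_simp

/-- Module BV-8. -/
theorem small (h1 : NearOne) (h2 : FourierRep) : Small := by
  intro g hg A B hA hB
  set k : ℕ := ⌈2 * A + 2⌉₊ with hk
  have hkA : 2 * A + 2 ≤ k := Nat.le_ceil _
  set M : ℕ := ⌈A + 2⌉₊ with hM
  have hMA : A + 2 ≤ M := Nat.le_ceil _
  obtain ⟨C1, X1, hC1, hX1, hno⟩ := h1 B k hB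
  obtain ⟨h, hc, hint, hrep⟩ := h2 (gk g k) (gk_smooth hg k) (gk_compact hg k)
  have hi : Integrable (fun t : ℝ => ‖h t‖) := by
    simpa using hint 0
  set I0 : ℝ := ∫ t, ‖h t‖ with hI0
  set IN : ℝ := ∫ t, (1 + |t|) ^ (4 * M) * ‖h t‖ with hIN
  have hI0' : 0 ≤ I0 := integral_nonneg fun t => norm_nonneg _
  have hIN' : 0 ≤ IN := integral_nonneg fun t => by (clear * -; positivity)
  set Ck : ℝ := (k + 1).factorial * 2 ^ (k + 1) * 3 with hCk
  have hCk' : 0 ≤ Ck := by positivity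
  refine ⟨C1 * I0 + Ck * IN + 1, max X1 (Real.exp 16), by (clear * - hC1; positivity),
    hX1.trans (le_max_left _ _), fun x hx q hq hqB χ hχ => ?_⟩
  have hx1 : X1 ≤ x := (le_max_left _ _).trans hx
  have hx16 : Real.exp 16 ≤ x := (le_max_right _ _).trans hx
  have hx0 : 0 < x := (Real.exp_pos _).trans_le hx16
  set l := Real.log x with hl
  have hl16 : 16 ≤ l := by
    rw [hl, Real.le_log_iff_exp_le hx0]
    exact hx16
  have hl0 : 0 < l := by (clear * - hl16; linarith)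
  have hl1 : 1 ≤ l := by (clear * - hl16; linarith)
  have : NeZero q := ⟨by omega⟩
  rw [identity hg hc hi k hrep x (by (clear * - hX1 hx1; linarith)) hl1 χ, ← hl]
  have hpt : ∀ t : ℝ, ‖h t * LSeries (co k χ) (st l t)‖ ≤
      C1 * l ^ (((k : ℝ) + 1) / 2) * ‖h t‖ +
        Ck * l ^ (k + 2) / l ^ M * ((1 + |t|) ^ (4 * M) * ‖h t‖) := by
    intro t
    rw [norm_mul]
    rcases le_or_gt |t| (l ^ (1 / 4 : ℝ)) with ht | ht
    · have h3 := hno x hx1 q hq hqB χ hχ (st l t) (st_sub_one_norm_le l t hl16 ht)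
      have h4 : ‖LSeries (co k χ) (st l t)‖ ≤ C1 * l ^ (((k : ℝ) + 1) / 2) := by
        rw [lseries_co k χ (by rw [st_re]; have : 0 < 1 / l := by (clear * - hl16; positivity)
                               (clear * - this; linarith)), norm_neg, norm_mul, norm_pow, norm_neg, norm_one,
          one_pow, one_mul]
        exact h3
      have h5 : 0 ≤ Ck * l ^ (k + 2) / l ^ M * ((1 + |t|) ^ (4 * M) * ‖h t‖) := by (clear * - hl16; positivity)
      (clear * - h5 h4; nlinarith [mul_le_mul_of_nonneg_left h4 (norm_nonneg (h t))])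
    · have h3 := norm_lseries_le k χ l t hl1
      have h4 : l ^ M ≤ (1 + |t|) ^ (4 * M) := by
        have h5 : l = (l ^ (1 / 4 : ℝ)) ^ 4 := by
          rw [← Real.rpow_natCast, ← Real.rpow_mul hl0.le]
          norm_num
        calc l ^ M = ((l ^ (1 / 4 : ℝ)) ^ 4) ^ M := by rw [← h5]
          _ = (l ^ (1 / 4 : ℝ)) ^ (4 * M) := by rw [pow_mul]
          _ ≤ (1 + |t|) ^ (4 * M) := by
            refine pow_le_pow_left₀ (by positivity) ?_ _
            (clear * - ht; linarith)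
      have h5 : 1 ≤ (1 + |t|) ^ (4 * M) / l ^ M := by
        rw [one_le_div (by positivity)]
        exact h4
      have h6 : 0 ≤ C1 * l ^ (((k : ℝ) + 1) / 2) * ‖h t‖ := by (clear * - hC1 hl16; positivity)
      have h7 : ‖h t‖ * ‖LSeries (co k χ) (st l t)‖ ≤ ‖h t‖ * (Ck * l ^ (k + 2)) :=
        mul_le_mul_of_nonneg_left h3 (norm_nonneg _)
      have h8 : ‖h t‖ * (Ck * l ^ (k + 2)) * 1 ≤
          ‖h t‖ * (Ck * l ^ (k + 2)) * ((1 + |t|) ^ (4 * M) / l ^ M) :=
        mul_le_mul_of_nonneg_left h5 (by (clear * - hl16; positivity))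
      have h9 : ‖h t‖ * (Ck * l ^ (k + 2)) * ((1 + |t|) ^ (4 * M) / l ^ M) =
          Ck * l ^ (k + 2) / l ^ M * ((1 + |t|) ^ (4 * M) * ‖h t‖) := by
        ring
      linarith
  have hbound : ‖∫ t, h t * LSeries (co k χ) (st l t)‖ ≤
      C1 * l ^ (((k : ℝ) + 1) / 2) * I0 + Ck * l ^ (k + 2) / l ^ M * IN := by
    have hi1 : Integrable fun t : ℝ => C1 * l ^ (((k : ℝ) + 1) / 2) * ‖h t‖ := hi.const_mul _
    have hi2 : Integrable fun t : ℝ =>
        Ck * l ^ (k + 2) / l ^ M * ((1 + |t|) ^ (4 * M) * ‖h t‖) := (hint (4 * M)).const_mul _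
    refine (norm_integral_le_of_norm_le (hi1.add hi2) (Eventually.of_forall hpt)).trans
      (le_of_eq ?_)
    simp only [Pi.add_apply]
    rw [integral_add hi1 hi2, integral_const_mul, integral_const_mul]
  rw [norm_mul, norm_pow, norm_inv, Complex.norm_real, Real.norm_of_nonneg hl0.le]
  have hA1 : (l⁻¹) ^ k * l ^ (((k : ℝ) + 1) / 2) ≤ l ^ (-A) := by
    rw [← Real.rpow_natCast, Real.inv_rpow hl0.le, ← Real.rpow_neg hl0.le, ← Real.rpow_add hl0]
    exact Real.rpow_le_rpow_of_exponent_le hl1 (by (clear * - hkA; linarith))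
  have hA2 : (l⁻¹) ^ k * (l ^ (k + 2) / l ^ M) ≤ l ^ (-A) := by
    have : (l⁻¹) ^ k * (l ^ (k + 2) / l ^ M) = l ^ ((2 : ℝ) - M) := by
      rw [Real.rpow_sub hl0, Real.rpow_natCast, inv_pow, pow_add]
      norm_cast
      (clear * - hl16; field_simp)
    rw [this]
    exact Real.rpow_le_rpow_of_exponent_le hl1 (by (clear * - hMA; linarith))
  have hlA : 0 < l ^ (-A) := Real.rpow_pos_of_pos hl0 _
  calc (l⁻¹) ^ k * ‖∫ t, h t * LSeries (co k χ) (st l t)‖ ≤
      (l⁻¹) ^ k * (C1 * l ^ (((k : ℝ) + 1) / 2) * I0 + Ck * l ^ (k + 2) / l ^ M * IN) :=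
        mul_le_mul_of_nonneg_left hbound (by positivity)
    _ = C1 * I0 * ((l⁻¹) ^ k * l ^ (((k : ℝ) + 1) / 2)) +
        Ck * IN * ((l⁻¹) ^ k * (l ^ (k + 2) / l ^ M)) := by ring
    _ ≤ C1 * I0 * l ^ (-A) + Ck * IN * l ^ (-A) :=
        add_le_add (mul_le_mul_of_nonneg_left hA1 (by (clear * - hC1; positivity)))
          (mul_le_mul_of_nonneg_left hA2 (by (clear * -; positivity)))
    _ ≤ (C1 * I0 + Ck * IN + 1) * l ^ (-A) := by (clear * - hlA; nlinarith)
    _ = (C1 * I0 + Ck * IN + 1) / l ^ A := by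
        rw [Real.rpow_neg hl0.le, div_eq_mul_inv]

end Pool.Agent.Helper81.BV

end

section

set_option autoImplicit false

open Finset Filter Topology

open scoped ArithmeticFunction.vonMangoldt ArithmeticFunction.Moebius ArithmeticFunction.zeta

namespace Pool.Agent.Helper44.BV

open Pool.Agent.Helper18.BV

theorem IsWt_lip {g : ℝ → ℝ} (hg : IsWt g) : ∃ L : ℝ, 0 < L ∧ ∀ u v, |g u - g v| ≤ L * |u - v| := by
  have hcs : HasCompactSupport g :=
    isCompact_Icc.of_isClosed_subset (isClosed_tsupport g) (hg.supp.trans Set.Ioo_subset_Icc_self)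
  have hd : Continuous (deriv g) := hg.smooth.continuous_deriv (by simp)
  obtain ⟨L, hL⟩ := hd.bounded_above_of_compact_support hcs.deriv
  have hdiff : Differentiable ℝ g := hg.smooth.differentiable (by simp)
  refine ⟨|L| + 1, by (clear * -; positivity), fun u v => ?_⟩
  have h := Convex.norm_image_sub_le_of_norm_deriv_le (f := g) (s := Set.univ) (C := |L| + 1)
    (fun t _ => hdiff t) (fun t _ => (hL t).trans (by (clear * -; linarith [le_abs_self L]))) convex_univ
    (Set.mem_univ v) (Set.mem_univ u)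
  rw [Real.norm_eq_abs, Real.norm_eq_abs] at h
  exact h

theorem IsWt_zero_le {g : ℝ → ℝ} (hg : IsWt g) {v : ℝ} (hv : v ≤ 1 / 2) : g v = 0 := by
  by_contra h
  have := hg.supp (subset_tsupport g h)
  (clear * - hv this; linarith [this.1])

theorem IsWt_zero_ge {g : ℝ → ℝ} (hg : IsWt g) {v : ℝ} (hv : 1 ≤ v) : g v = 0 := by
  by_contra h
  have := hg.supp (subset_tsupport g h)
  (clear * - hv this; linarith [this.2])

section Var

variable {A : ℕ → ℝ} {g : ℝ → ℝ} {G L x : ℝ} {m : ℕ}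

theorem FF_zero_of_ge (hg : IsWt g) (hx : 3 ≤ x) {k : ℕ} (hk : x ≤ ((m * k : ℕ) : ℝ)) :
    FF A g x m k = 0 := by
  unfold FF
  have hlog0 : 0 < Real.log x := Real.log_pos (by (clear * - hx; linarith))
  rw [IsWt_zero_ge hg]
  · simp
  · rw [le_div_iff₀ hlog0, one_mul]
    exact Real.log_le_log (by (clear * - hx; linarith)) hk

theorem FF_zero_of_le (hg : IsWt g) (hx : 3 ≤ x) (hm : 1 ≤ m) {k : ℕ} (hk1 : 1 ≤ k)
    (hk : ((m * k : ℕ) : ℝ) ≤ x ^ (1 / 2 : ℝ)) : FF A g x m k = 0 := by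
  unfold FF
  have hlog0 : 0 < Real.log x := Real.log_pos (by (clear * - hx; linarith))
  rw [IsWt_zero_le hg]
  · simp
  · rw [div_le_iff₀ hlog0, ← Real.log_rpow (by (clear * - hx; linarith))]
    have : 1 ≤ m * k := Nat.mul_pos hm hk1
    exact Real.log_le_log (by exact_mod_cast this) hk

theorem FF_total_var (hg : IsWt g) (hG : ∀ v, |g v| ≤ G) (hG0 : 0 < G) (hL0 : 0 < L)
    (hL : ∀ u v, |g u - g v| ≤ L * |u - v|) (hx : 3 ≤ x) (hm : 1 ≤ m) (K : ℕ)
    (hA : ∀ k ∈ Icc 1 K, |A k| ≤ Real.log x)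
    (hA' : ∀ k ∈ Icc 1 K, |A (k + 1) - A k| ≤ 1 / k) :
    ∑ k ∈ Icc 1 K, |FF A g x m (k + 1) - FF A g x m k| ≤
      (2 * G + L) * Real.log x * (4 * m * x ^ (-(1 / 2) : ℝ)) := by
  have hx0 : 0 < x := by (clear * - hx; linarith)
  have hlog0 : 0 < Real.log x := Real.log_pos (by (clear * - hx; linarith))
  have hm0 : (0 : ℝ) < m := by exact_mod_cast hm
  set y : ℝ := x ^ (1 / 2 : ℝ) / m with hy
  have hy0 : 0 < y := by (clear * - hx hm; positivity)
  have h1 : ∑ k ∈ Icc 1 K, |FF A g x m (k + 1) - FF A g x m k| =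
      ∑ k ∈ (Icc 1 K).filter (fun k : ℕ => y < k + 1), |FF A g x m (k + 1) - FF A g x m k| := by
    symm
    apply Finset.sum_filter_of_ne
    intro k hk hne
    by_contra hcon
    push Not at hcon
    apply hne
    have hk1 := (Finset.mem_Icc.1 hk).1
    have h2 : ((m * (k + 1) : ℕ) : ℝ) ≤ x ^ (1 / 2 : ℝ) := by
      rw [hy, le_div_iff₀ hm0] at hcon
      push_cast
      (clear * - hcon; linarith)
    have h3 : ((m * k : ℕ) : ℝ) ≤ x ^ (1 / 2 : ℝ) := by
      refine le_trans ?_ h2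
      exact_mod_cast Nat.mul_le_mul_left m (Nat.le_succ k)
    rw [FF_zero_of_le hg hx hm (by omega) h2, FF_zero_of_le hg hx hm hk1 h3]
    simp
  rw [h1]
  calc ∑ k ∈ (Icc 1 K).filter (fun k : ℕ => y < k + 1), |FF A g x m (k + 1) - FF A g x m k|
      ≤ ∑ k ∈ (Icc 1 K).filter (fun k : ℕ => y < k + 1),
          (2 * G + L) * Real.log x * ((k : ℝ) ^ 2)⁻¹ := by
        apply Finset.sum_le_sum
        intro k hk
        have hk' := (Finset.mem_filter.1 hk).1
        exact FF_var_le hG hG0 hL0 hL hx hm (Finset.mem_Icc.1 hk').1 (hA k hk') (hA' k hk')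
    _ = (2 * G + L) * Real.log x *
          ∑ k ∈ (Icc 1 K).filter (fun k : ℕ => y < k + 1), ((k : ℝ) ^ 2)⁻¹ := by
        rw [Finset.mul_sum]
    _ ≤ (2 * G + L) * Real.log x * (4 / y) := by
        gcongr
        exact sum_inv_sq y hy0 K
    _ = (2 * G + L) * Real.log x * (4 * m * x ^ (-(1 / 2) : ℝ)) := by
        rw [hy, Real.rpow_neg hx0.le]
        (clear * - hm hx hlog0 hG0 hL0; field_simp)

end Var

/-- The general estimate. -/
theorem typeOne_aux {g : ℝ → ℝ} (hg : IsWt g) {G L : ℝ} (hG : ∀ v, |g v| ≤ G) (hG0 : 0 < G)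
    (hL0 : 0 < L) (hL : ∀ u v, |g u - g v| ≤ L * |u - v|) {x : ℝ} (hx : 3 ≤ x) {q : ℕ} [NeZero q]
    {χ : DirichletCharacter ℂ q} (hχ : χ ≠ 1) (M : ℕ) (c z : ArithmeticFunction ℂ) (Kc : ℝ)
    (hc : ∀ m ≤ M, ‖c m‖ ≤ Kc) (hc0 : ∀ m, M < m → c m = 0) (A : ℕ → ℝ)
    (hz : ∀ k : ℕ, 1 ≤ k → z k = (A k : ℂ))
    (hA : ∀ k : ℕ, 1 ≤ k → (k : ℝ) ≤ x → |A k| ≤ Real.log x)
    (hA' : ∀ k : ℕ, 1 ≤ k → |A (k + 1) - A k| ≤ 1 / k) :
    ‖SS (c * z : ArithmeticFunction ℂ) g x χ‖ ≤
      (4 * (2 * G + L)) * q * M * Kc * Real.log x * x ^ (-(1 / 2) : ℝ) := by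
  have hx0 : 0 < x := by linarith
  have hlog0 : 0 < Real.log x := Real.log_pos (by (clear * - hx; linarith))
  set N := ⌊x⌋₊ with hN
  have hNx : (N : ℝ) ≤ x := Nat.floor_le hx0.le
  have hxN : x < N + 1 := Nat.lt_floor_add_one x
  have hKc : 0 ≤ Kc := (norm_nonneg _).trans (hc 0 (Nat.zero_le _))
  have h1 : SS (c * z : ArithmeticFunction ℂ) g x χ =
      ∑ m ∈ Icc 1 N, c m * χ (m : ZMod q) / m *
        ∑ k ∈ Icc 1 (N / m), (FF A g x m k : ℂ) * χ (k : ZMod q) := by
    unfold SS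
    rw [← hN]
    have h2 : ∀ n ∈ Icc 1 N, (c * z : ArithmeticFunction ℂ) n * χ (n : ZMod q) *
        ((wt g x n : ℝ) : ℂ) = ∑ p ∈ n.divisorsAntidiagonal,
          c p.1 * z p.2 * χ ((p.1 * p.2 : ℕ) : ZMod q) * ((wt g x (p.1 * p.2) : ℝ) : ℂ) := by
      intro n _
      rw [ArithmeticFunction.mul_apply, Finset.sum_mul, Finset.sum_mul]
      refine Finset.sum_congr rfl fun p hp => ?_
      rw [(Nat.mem_divisorsAntidiagonal.1 hp).1]
    rw [Finset.sum_congr rfl h2, sum_antidiagonal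
      (fun a b => c a * z b * χ ((a * b : ℕ) : ZMod q) * ((wt g x (a * b) : ℝ) : ℂ))]
    refine Finset.sum_congr rfl fun m hm => ?_
    rw [Finset.mul_sum]
    refine Finset.sum_congr rfl fun k hk => ?_
    rw [hz k (Finset.mem_Icc.1 hk).1]
    unfold wt FF
    rw [Nat.cast_mul (α := ZMod q), map_mul]
    push_cast
    ring
  rw [h1]
  calc ‖∑ m ∈ Icc 1 N, c m * χ (m : ZMod q) / m *
        ∑ k ∈ Icc 1 (N / m), (FF A g x m k : ℂ) * χ (k : ZMod q)‖
      ≤ ∑ m ∈ Icc 1 N, ‖c m‖ * (4 * (2 * G + L) * q * Real.log x * x ^ (-(1 / 2) : ℝ)) := by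
        refine norm_sum_le_of_le _ fun m hm => ?_
        rw [Finset.mem_Icc] at hm
        have hm0 : (0 : ℝ) < m := by exact_mod_cast hm.1
        rw [norm_mul, norm_div, norm_mul, Complex.norm_natCast]
        have h3 : FF A g x m (N / m + 1) = 0 := by
          apply FF_zero_of_ge hg hx
          have h4 : N + 1 ≤ m * (N / m + 1) := by
            have := Nat.lt_mul_div_succ N (by omega : 0 < m)
            simpa using this
          have h5 : ((N + 1 : ℕ) : ℝ) ≤ ((m * (N / m + 1) : ℕ) : ℝ) := by exact_mod_cast h4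
          push_cast at h5 ⊢
          (clear * - hxN h5; linarith)
        have h6 := abel_char hχ (FF A g x m) (N / m) h3
        have h7 := FF_total_var (A := A) (m := m) hg hG hG0 hL0 hL hx hm.1 (N / m)
          (fun k hk => hA k (Finset.mem_Icc.1 hk).1 (le_trans (by
            exact_mod_cast (Finset.mem_Icc.1 hk).2.trans (Nat.div_le_self N m)) hNx))
          (fun k hk => hA' k (Finset.mem_Icc.1 hk).1)
        have h8 : ‖∑ k ∈ Icc 1 (N / m), (FF A g x m k : ℂ) * χ (k : ZMod q)‖ ≤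
            q * ((2 * G + L) * Real.log x * (4 * m * x ^ (-(1 / 2) : ℝ))) :=
          h6.trans (mul_le_mul_of_nonneg_left h7 (Nat.cast_nonneg q))
        have h9 : ‖χ (m : ZMod q)‖ ≤ 1 := χ.norm_le_one _
        calc ‖c m‖ * ‖χ (m : ZMod q)‖ / m *
              ‖∑ k ∈ Icc 1 (N / m), (FF A g x m k : ℂ) * χ (k : ZMod q)‖
            ≤ ‖c m‖ * 1 / m * (q * ((2 * G + L) * Real.log x * (4 * m * x ^ (-(1 / 2) : ℝ)))) := by
              (clear * - h9 hm0 h8; gcongr)
          _ = ‖c m‖ * (4 * (2 * G + L) * q * Real.log x * x ^ (-(1 / 2) : ℝ)) := by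
              (clear * - hm0 hx hlog0 hG0 hL0; field_simp)
    _ = (∑ m ∈ Icc 1 N, ‖c m‖) * (4 * (2 * G + L) * q * Real.log x * x ^ (-(1 / 2) : ℝ)) := by
        rw [Finset.sum_mul]
    _ ≤ (M * Kc) * (4 * (2 * G + L) * q * Real.log x * x ^ (-(1 / 2) : ℝ)) := by
        apply mul_le_mul_of_nonneg_right _ (by (clear * - hG0 hL0 hlog0 hx; positivity))
        calc ∑ m ∈ Icc 1 N, ‖c m‖ = ∑ m ∈ (Icc 1 N).filter (fun m => m ≤ M), ‖c m‖ := by
              symm
              apply Finset.sum_filter_of_ne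
              intro m _ hne
              by_contra hcon
              push Not at hcon
              apply hne
              rw [hc0 m hcon, norm_zero]
          _ ≤ ∑ m ∈ Icc 1 M, Kc := by
              refine (Finset.sum_le_sum_of_subset_of_nonneg (t := Icc 1 M) ?_ ?_).trans ?_
              · intro m hm
                rw [Finset.mem_filter, Finset.mem_Icc] at hm
                rw [Finset.mem_Icc]
                exact ⟨hm.1.1, hm.2⟩
              · intro m _ _
                exact norm_nonneg _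
              · exact Finset.sum_le_sum fun m hm => hc m (Finset.mem_Icc.1 hm).2
          _ = M * Kc := by simp
    _ = (4 * (2 * G + L)) * q * M * Kc * Real.log x * x ^ (-(1 / 2) : ℝ) := by ring

theorem typeOne : TypeOne := by
  intro g hg
  obtain ⟨G, hG0, hG⟩ := IsWt_bdd hg
  obtain ⟨L, hL0, hL⟩ := IsWt_lip hg
  refine ⟨4 * (2 * G + L), by (clear * - hG0 hL0; positivity), ?_⟩
  intro x hx q _ χ hχ M c Kc hc hc0
  have hlog1 : 1 ≤ Real.log x := by
    rw [Real.le_log_iff_exp_le (by (clear * - hx; linarith))]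
    exact (Real.exp_one_lt_d9.le.trans (by norm_num)).trans hx
  constructor
  · refine typeOne_aux hg hG hG0 hL0 hL hx hχ M c zeC Kc hc hc0 (fun _ => 1) ?_ ?_ ?_
    · intro k hk
      have hk0 : k ≠ 0 := by omega
      simp [zeC, ArithmeticFunction.zeta_apply, hk0]
    · intro k _ _
      simpa using hlog1
    · intro k _
      simp
  · refine typeOne_aux hg hG hG0 hL0 hL hx hχ M c (D zeC) Kc hc hc0 (fun k => Real.log k) ?_ ?_ ?_
    · intro k hk
      have hk0 : k ≠ 0 := by omega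
      rw [D_apply]
      simp [zeC, ArithmeticFunction.zeta_apply, hk0]
    · intro k hk hkx
      have hk0 : (1 : ℝ) ≤ k := by exact_mod_cast hk
      rw [abs_of_nonneg (Real.log_nonneg hk0)]
      exact Real.log_le_log (by (clear * - hk0; linarith)) hkx
    · intro k hk
      have hk0 : (1 : ℝ) ≤ k := by exact_mod_cast hk
      have h1 : Real.log ((k + 1 : ℕ) : ℝ) - Real.log k = Real.log (1 + 1 / k) := by
        rw [← Real.log_div (by (clear * - hk; positivity)) (by (clear * - hk; positivity))]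
        congr 1
        push_cast
        (clear * - hk; field_simp)
      have h2 : 0 ≤ Real.log (1 + 1 / (k : ℝ)) := Real.log_nonneg (by
        have : 0 < 1 / (k : ℝ) := by positivity
        (clear * - this; linarith))
      have h3 := Real.log_le_sub_one_of_pos (show 0 < 1 + 1 / (k : ℝ) by positivity)
      rw [h1, abs_of_nonneg h2]
      linarith

end Pool.Agent.Helper44.BV

end

section

set_option autoImplicit false

open Finset Filter Topology

open scoped ArithmeticFunction.vonMangoldt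

namespace Pool.Agent.Helper18.BV

theorem IsWt.zero_of_ge {g : ℝ → ℝ} (hg : IsWt g) {v : ℝ} (hv : 1 ≤ v) : g v = 0 := by
  by_contra hne
  exact absurd (hg.supp (subset_tsupport g (Function.mem_support.2 hne))).2 (not_lt.2 hv)

theorem IsWt.exists_bound {g : ℝ → ℝ} (hg : IsWt g) : ∃ M : ℝ, 0 < M ∧ ∀ v, g v ≤ M := by
  obtain ⟨M, hM⟩ := (isCompact_Icc (a := (0:ℝ)) (b := 1)).exists_bound_of_continuousOn
    hg.smooth.continuous.continuousOn
  refine ⟨max M 1, lt_max_of_lt_right one_pos, fun v => ?_⟩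
  by_cases h : v ∈ Set.Icc (0:ℝ) 1
  · exact ((le_abs_self _).trans (hM v h)).trans (le_max_left _ _)
  · have : g v = 0 := by
      rw [Set.mem_Icc, not_and_or, not_le, not_le] at h
      rcases h with h | h
      · exact hg.zero_of_le (by linarith)
      · exact hg.zero_of_ge h.le
    rw [this]
    exact zero_le_one.trans (le_max_right _ _)

/-- the weight vanishes for `n ≤ √x` -/
theorem wt_zero {g : ℝ → ℝ} (hg : IsWt g) {x : ℝ} (hx : 1 < x) {n : ℕ}
    (hn : (n : ℝ) ≤ x ^ (1 / 2 : ℝ)) : wt g x n = 0 := by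
  rcases Nat.eq_zero_or_pos n with rfl | hn0
  · simp [wt]
  have hn' : (0:ℝ) < n := by exact_mod_cast hn0
  have hlog : 0 < Real.log x := Real.log_pos hx
  have h1 : Real.log n ≤ 1 / 2 * Real.log x := by
    rw [← Real.log_rpow (by linarith)]
    exact Real.log_le_log hn' hn
  have : g (Real.log n / Real.log x) = 0 := by
    apply hg.zero_of_le
    rwa [div_le_iff₀ hlog]
  rw [wt, this, zero_div]

end Pool.Agent.Helper18.BV

end

section

set_option autoImplicit false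

open Finset Filter Topology

open scoped ArithmeticFunction.vonMangoldt

open Pool.Agent.Helper18.BV

namespace Pool.Agent.Helper51.BV

theorem EE_le {g : ℝ → ℝ} (hg : IsWt g) {G : ℝ} (hG : ∀ v, g v ≤ G) (hG0 : 0 < G) {x : ℝ}
    (hx : 3 ≤ x) (d : ℕ) (hd : 0 < d) :
    EE g x d ≤ d * (2 * Real.log x) * (Real.log x * (G / x ^ (1 / 2 : ℝ))) := by
  have hx1 : 1 < x := by (clear * - hx; linarith)
  have hlog : 0 < Real.log x := Real.log_pos hx1
  have hxs : 0 < x ^ (1 / 2 : ℝ) := Real.rpow_pos_of_pos (by (clear * - hx; linarith)) _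
  set T := (Icc 1 ⌊x⌋₊).filter (fun n => ¬ Nat.Coprime n d ∧ IsPrimePow n) with hT
  have h1 : EE g x d = ∑ n ∈ T, Λ n * wt g x n := by
    unfold EE
    symm
    refine Finset.sum_subset ?_ ?_
    · intro n hn
      rw [hT, Finset.mem_filter] at hn
      exact Finset.mem_filter.mpr ⟨hn.1, hn.2.1⟩
    · intro n hn hn'
      rw [Finset.mem_filter] at hn
      have h2 : ¬ IsPrimePow n := fun h => hn' (by
        rw [hT]; exact Finset.mem_filter.mpr ⟨hn.1, hn.2, h⟩)
      rw [ArithmeticFunction.vonMangoldt_eq_zero_iff.mpr h2, zero_mul]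
  have h2 : ∀ n ∈ T, Λ n * wt g x n ≤ Real.log x * (G / x ^ (1 / 2 : ℝ)) := by
    intro n hn
    rw [hT, Finset.mem_filter, Finset.mem_Icc] at hn
    have hn1 : (1 : ℝ) ≤ n := by exact_mod_cast hn.1.1
    have hnx : (n : ℝ) ≤ x := (Nat.cast_le.mpr hn.1.2).trans (Nat.floor_le (by (clear * - hx; linarith)))
    have hL : Λ n ≤ Real.log x := by
      refine (ArithmeticFunction.vonMangoldt_le_log (n := n)).trans ?_
      exact Real.log_le_log (by (clear * - hn1; linarith)) hnx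
    have hw : wt g x n ≤ G / x ^ (1 / 2 : ℝ) := by
      by_cases h : (n : ℝ) ≤ x ^ (1 / 2 : ℝ)
      · rw [wt_zero hg hx1 h]; (clear * - hG0 hx; positivity)
      · rw [not_le] at h
        unfold wt
        exact div_le_div₀ hG0.le (hG _) hxs h.le
    exact mul_le_mul hL hw (wt_nonneg hg _ _) hlog.le
  rw [h1]
  refine (Finset.sum_le_sum h2).trans ?_
  rw [Finset.sum_const, nsmul_eq_mul]
  refine mul_le_mul_of_nonneg_right ?_ (by (clear * - hlog hG0 hx; positivity))
  have h3 : (T.card : ℝ) ≤ d.primeFactors.card * (Nat.log 2 ⌊x⌋₊ : ℕ) := by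
    exact_mod_cast card_primePow_le ⌊x⌋₊ d hd
  have h4 : (d.primeFactors.card : ℝ) ≤ d := by exact_mod_cast card_primeFactors_le d
  refine h3.trans (mul_le_mul h4 (natlog_le hx) (Nat.cast_nonneg _) (Nat.cast_nonneg _))

theorem SS_prim {g : ℝ → ℝ} (hg : IsWt g) (x : ℝ) {d : ℕ} (χ : DirichletCharacter ℂ d) :
    ‖SS LaC g x χ‖ ≤ ‖SS LaC g x χ.primitiveCharacter‖ + EE g x d := by
  have h1 := SS_sub_restr hg x χ.primitiveCharacter d
  have h2 : (∑ n ∈ (Icc 1 ⌊x⌋₊).filter (fun n => Nat.Coprime n d),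
      LaC n * χ.primitiveCharacter (n : ZMod χ.conductor) * (wt g x n : ℂ)) = SS LaC g x χ := by
    rw [SS_full x χ]
    refine Finset.sum_congr rfl fun n hn => ?_
    rw [prim_apply χ (Finset.mem_filter.mp hn).2]
  rw [h2] at h1
  have h3 := norm_sub_norm_le (SS LaC g x χ) (SS LaC g x χ.primitiveCharacter)
  rw [norm_sub_rev] at h1
  linarith

theorem SS_one {g : ℝ → ℝ} (hg : IsWt g) (x : ℝ) {d : ℕ} :
    ‖SS LaC g x (1 : DirichletCharacter ℂ d) -
      ((∑ n ∈ Icc 1 ⌊x⌋₊, Λ n * wt g x n : ℝ) : ℂ)‖ ≤ EE g x d := by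
  rw [SS_full]
  have h1 : (∑ n ∈ (Icc 1 ⌊x⌋₊).filter (fun n => Nat.Coprime n d),
      LaC n * (1 : DirichletCharacter ℂ d) (n : ZMod d) * (wt g x n : ℂ)) =
      ((∑ n ∈ (Icc 1 ⌊x⌋₊).filter (fun n => Nat.Coprime n d), Λ n * wt g x n : ℝ) : ℂ) := by
    push_cast
    refine Finset.sum_congr rfl fun n hn => ?_
    rw [MulChar.one_apply ((ZMod.isUnit_iff_coprime n d).mpr (Finset.mem_filter.mp hn).2),
      mul_one, LaC_apply]
  rw [h1, ← Complex.ofReal_sub, Complex.norm_real,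
    ← Finset.sum_filter_add_sum_filter_not (Icc 1 ⌊x⌋₊) (fun n => Nat.Coprime n d)]
  rw [Real.norm_eq_abs, sub_add_cancel_left, abs_neg]
  exact le_of_eq (abs_of_nonneg (EE_nonneg hg x d))

/-- The error term of one modulus. -/
theorem one_modulus {g : ℝ → ℝ} (hg : IsWt g) (x : ℝ) {d : ℕ} (hd : 0 < d) {c : ℕ}
    (hc : Nat.Coprime c d) :
    |∑ n ∈ (Icc 1 ⌊x⌋₊).filter (fun n => n ≡ c [MOD d]), Λ n * wt g x n -
          (1 / (d.totient : ℝ)) * ∑ n ∈ Icc 1 ⌊x⌋₊, Λ n * wt g x n| ≤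
      (1 / (d.totient : ℝ)) * ∑ q ∈ d.divisors.filter (fun q => 1 < q),
        ∑ ψ ∈ prim q, ‖SS LaC g x ψ‖ + EE g x d := by
  classical
  have : NeZero d := ⟨hd.ne'⟩
  have ht : (0 : ℝ) < d.totient := by exact_mod_cast Nat.totient_pos.2 hd
  set S1 : ℝ := ∑ n ∈ (Icc 1 ⌊x⌋₊).filter (fun n => n ≡ c [MOD d]), Λ n * wt g x n with hS1
  set S : ℝ := ∑ n ∈ Icc 1 ⌊x⌋₊, Λ n * wt g x n with hS
  have h1 := orth (g := g) x hc
  rw [← hS1, ← Finset.sum_filter_add_sum_filter_not univ (fun χ : DirichletCharacter ℂ d => χ ≠ 1)]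
    at h1
  have h2 : (univ.filter (fun χ : DirichletCharacter ℂ d => ¬ χ ≠ 1)) = {1} := by
    ext χ; simp
  have hu : IsUnit ((c : ZMod d)⁻¹) := by
    have := (ZMod.isUnit_iff_coprime c d).mpr hc
    obtain ⟨u, hu⟩ := this
    rw [← hu, ZMod.inv_coe_unit]
    exact Units.isUnit _
  rw [h2, Finset.sum_singleton, MulChar.one_apply hu, one_mul] at h1
  have h3 : ((d.totient * S1 - S : ℝ) : ℂ) =
      (∑ χ ∈ univ.filter (fun χ : DirichletCharacter ℂ d => χ ≠ 1),
        χ ((c : ZMod d)⁻¹) * SS LaC g x χ) + (SS LaC g x (1 : DirichletCharacter ℂ d) - (S : ℂ)) := by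
    push_cast
    rw [h1]; ring
  have h4 : |d.totient * S1 - S| ≤
      (∑ χ ∈ univ.filter (fun χ : DirichletCharacter ℂ d => χ ≠ 1),
        (‖SS LaC g x χ.primitiveCharacter‖ + EE g x d)) + EE g x d := by
    rw [← Real.norm_eq_abs, ← Complex.norm_real, h3]
    refine (norm_add_le _ _).trans (add_le_add ((norm_sum_le _ _).trans
      (Finset.sum_le_sum fun χ _ => ?_)) (SS_one hg x))
    rw [norm_mul]
    calc ‖χ ((c : ZMod d)⁻¹)‖ * ‖SS LaC g x χ‖ ≤ 1 * ‖SS LaC g x χ‖ :=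
          mul_le_mul_of_nonneg_right (DirichletCharacter.norm_le_one χ _) (norm_nonneg _)
      _ ≤ _ := by rw [one_mul]; exact SS_prim hg x χ
  rw [Finset.sum_add_distrib, Finset.sum_const, nsmul_eq_mul] at h4
  have h5 := sum_prim_le (d := d) (fun p => ‖SS LaC g x p.2‖) (fun p => norm_nonneg _)
  have h6 : ((univ.filter (fun χ : DirichletCharacter ℂ d => χ ≠ 1)).card : ℝ) + 1 = d.totient := by
    have h7 := Finset.card_filter_add_card_filter_not (s := (univ : Finset (DirichletCharacter ℂ d)))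
      (fun χ => χ ≠ 1)
    rw [h2, Finset.card_singleton, card_char d] at h7
    exact_mod_cast h7
  have h8 : S1 - 1 / (d.totient : ℝ) * S = (d.totient * S1 - S) / d.totient := by
    (clear * - hd; field_simp)
  rw [h8, abs_div, abs_of_pos ht, div_le_iff₀ ht]
  have h9 : ((1 / (d.totient : ℝ)) * ∑ q ∈ d.divisors.filter (fun q => 1 < q),
        ∑ ψ ∈ prim q, ‖SS LaC g x ψ‖ + EE g x d) * d.totient =
        (∑ q ∈ d.divisors.filter (fun q => 1 < q), ∑ ψ ∈ prim q, ‖SS LaC g x ψ‖) +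
          EE g x d * d.totient := by
    (clear * - hd; field_simp)
  rw [h9]
  refine h4.trans ?_
  simp only at h5
  have h10 : EE g x d * d.totient =
      ((univ.filter (fun χ : DirichletCharacter ℂ d => χ ≠ 1)).card : ℝ) * EE g x d + EE g x d := by
    rw [← h6]; ring
  rw [h10]
  (clear * - h5; linarith)

theorem card_prim_le (q : ℕ) (hq : 0 < q) : ((prim q).card : ℝ) ≤ q.totient := by
  have : NeZero q := ⟨hq.ne'⟩
  have h1 : (prim q).card ≤ (univ : Finset (DirichletCharacter ℂ q)).card :=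
    Finset.card_le_card (Finset.subset_univ _)
  rw [card_char] at h1
  exact_mod_cast h1

theorem swap (g : ℝ → ℝ) (x : ℝ) (D : ℕ) :
    ∑ d ∈ Icc 1 D, (1 / (d.totient : ℝ)) * ∑ q ∈ d.divisors.filter (fun q => 1 < q),
        ∑ ψ ∈ prim q, ‖SS LaC g x ψ‖ ≤
      (∑ q ∈ Ioc 1 D, (1 / (q.totient : ℝ)) * ∑ ψ ∈ prim q, ‖SS LaC g x ψ‖) *
        ∑ m ∈ Icc 1 D, (1 : ℝ) / m.totient := by
  set T : ℕ → ℝ := fun q => ∑ ψ ∈ prim q, ‖SS LaC g x ψ‖ with hT
  have hT0 : ∀ q, 0 ≤ T q := fun q => Finset.sum_nonneg fun _ _ => norm_nonneg _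
  set u : ℕ → ℝ := fun q => if 1 < q then (1 / (q.totient : ℝ)) * T q else 0 with hu
  have hu0 : ∀ q, 0 ≤ u q := by
    intro q
    simp only [hu]
    split_ifs
    · exact mul_nonneg (by positivity) (hT0 q)
    · exact le_rfl
  have h1 := sum_div_le D u (fun m => (1 : ℝ) / m.totient) hu0 (fun m => by (clear * -; positivity))
  have h2 : ∑ q ∈ Icc 1 D, u q = ∑ q ∈ Ioc 1 D, (1 / (q.totient : ℝ)) * T q := by
    symm
    rw [← Finset.sum_subset (s₁ := Ioc 1 D) (s₂ := Icc 1 D)]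
    · refine Finset.sum_congr rfl fun q hq => ?_
      simp only [hu]
      rw [if_pos (Finset.mem_Ioc.mp hq).1]
    · intro q hq
      rw [Finset.mem_Ioc] at hq
      exact Finset.mem_Icc.mpr ⟨hq.1.le, hq.2⟩
    · intro q hq hq'
      simp only [hu]
      rw [if_neg]
      intro h
      exact hq' (Finset.mem_Ioc.mpr ⟨h, (Finset.mem_Icc.mp hq).2⟩)
  rw [h2] at h1
  refine le_trans (Finset.sum_le_sum fun d hd => ?_) h1
  rw [Finset.mem_Icc] at hd
  have h3 : ∑ q ∈ d.divisors, u q * (1 / ((d / q).totient : ℝ)) =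
      ∑ q ∈ d.divisors.filter (fun q => 1 < q),
        (1 / (q.totient : ℝ)) * T q * (1 / ((d / q).totient : ℝ)) := by
    rw [Finset.sum_filter]
    refine Finset.sum_congr rfl fun q _ => ?_
    simp only [hu]
    split_ifs
    · rfl
    · rw [zero_mul]
  rw [h3, Finset.mul_sum]
  refine Finset.sum_le_sum fun q hq => ?_
  have hqd := (Finset.mem_filter.mp hq).1
  have hq0 : 0 < q := Nat.pos_of_mem_divisors hqd
  have hdvd := Nat.dvd_of_mem_divisors hqd
  have hdq : 0 < d / q := Nat.div_pos (Nat.le_of_dvd hd.1 hdvd) hq0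
  have e : q * (d / q) = d := Nat.mul_div_cancel' hdvd
  have h4 : q.totient * (d / q).totient ≤ d.totient := by
    have := Nat.totient_super_multiplicative q (d / q)
    rwa [e] at this
  have h5 : (q.totient : ℝ) * (d / q).totient ≤ d.totient := by exact_mod_cast h4
  have p1 : (0 : ℝ) < q.totient := by exact_mod_cast Nat.totient_pos.2 hq0
  have p2 : (0 : ℝ) < (d / q).totient := by exact_mod_cast Nat.totient_pos.2 hdq
  have h6 : 1 / (d.totient : ℝ) ≤ 1 / ((q.totient : ℝ) * (d / q).totient) :=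
    one_div_le_one_div_of_le (by (clear * - hq0 hdq; positivity)) h5
  calc 1 / (d.totient : ℝ) * T q ≤ 1 / ((q.totient : ℝ) * (d / q).totient) * T q :=
        mul_le_mul_of_nonneg_right h6 (hT0 q)
    _ = 1 / (q.totient : ℝ) * T q * (1 / ((d / q).totient : ℝ)) := by
        (clear * - hdq hq0; field_simp)

/-- BV-14: the theorem for residue classes. -/
theorem bvav (h1 : Small) (h2 : Large) : BVav := by
  intro g hg A hA
  obtain ⟨G, hG0, hG⟩ := hg.exists_bound
  obtain ⟨B, C1, X1, hB, hC1, hX1, hL⟩ := h2 g hg (A + 2) (by linarith)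
  obtain ⟨C2, X2, hC2, hX2, hS⟩ := h1 g hg (A + 2 + B) B (by (clear * - hA hB; linarith)) hB
  have hev : ∀ᶠ x : ℝ in atTop, ‖Real.log x ^ (A + 2)‖ ≤ 1 * ‖x ^ (9 / 20 : ℝ)‖ :=
    (isLittleO_log_rpow_rpow_atTop (A + 2) (by norm_num : (0 : ℝ) < 9 / 20)).bound one_pos
  obtain ⟨X3, hX3⟩ := Filter.eventually_atTop.mp hev
  refine ⟨4 * (C1 + C2) + 2 * G, max (max X1 X2) X3, by (clear * - hC1 hC2 hG0; positivity),
    hX1.trans ((le_max_left _ _).trans (le_max_left _ _)), ?_⟩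
  intro x hx c hc
  have hx1 : X1 ≤ x := ((le_max_left _ _).trans (le_max_left _ _)).trans hx
  have hx2 : X2 ≤ x := ((le_max_right _ _).trans (le_max_left _ _)).trans hx
  have hx3 : X3 ≤ x := (le_max_right _ _).trans hx
  have h3x : 3 ≤ x := hX1.trans hx1
  have hx0 : 0 < x := by (clear * - hX1 hx1; linarith)
  set l : ℝ := Real.log x with hl
  have hl1 : 1 ≤ l := by
    rw [hl, Real.le_log_iff_exp_le hx0]
    linarith [Real.exp_one_lt_d9]
  have hl0 : 0 < l := by (clear * - hl1; linarith)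
  set D : ℕ := ⌊x ^ (1 / 40 : ℝ)⌋₊ with hD
  have hDx : (D : ℝ) ≤ x ^ (1 / 40 : ℝ) := Nat.floor_le (Real.rpow_nonneg hx0.le _)
  -- the large conductors
  have hLx := hL x hx1
  -- the small conductors
  set T : ℕ → ℝ := fun q => ∑ ψ ∈ prim q, ‖SS LaC g x ψ‖ with hT
  have hT0 : ∀ q, 0 ≤ T q := fun q => Finset.sum_nonneg fun _ _ => norm_nonneg _
  have hSx : ∑ q ∈ Ioc 1 ⌊l ^ B⌋₊, (1 / (q.totient : ℝ)) * T q ≤ C2 / l ^ (A + 2) := by
    have hterm : ∀ q ∈ Ioc 1 ⌊l ^ B⌋₊, (1 / (q.totient : ℝ)) * T q ≤ C2 / l ^ (A + 2 + B) := by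
      intro q hq
      rw [Finset.mem_Ioc] at hq
      have hq0 : 0 < q := by omega
      have hqB : (q : ℝ) ≤ l ^ B :=
        (Nat.cast_le.mpr hq.2).trans (Nat.floor_le (Real.rpow_nonneg hl0.le _))
      have p1 : (0 : ℝ) < q.totient := by exact_mod_cast Nat.totient_pos.2 hq0
      have h4 : T q ≤ (prim q).card • (C2 / l ^ (A + 2 + B)) :=
        Finset.sum_le_card_nsmul _ _ _ fun ψ hψ => hS x hx2 q hq.1 hqB ψ hψ
      rw [nsmul_eq_mul] at h4
      have h5 : T q ≤ q.totient * (C2 / l ^ (A + 2 + B)) :=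
        h4.trans (mul_le_mul_of_nonneg_right (card_prim_le q hq0) (by positivity))
      calc 1 / (q.totient : ℝ) * T q ≤ 1 / (q.totient : ℝ) * (q.totient * (C2 / l ^ (A + 2 + B))) :=
            mul_le_mul_of_nonneg_left h5 (by positivity)
        _ = C2 / l ^ (A + 2 + B) := by field_simp
    refine (Finset.sum_le_card_nsmul _ _ _ hterm).trans ?_
    rw [nsmul_eq_mul, Nat.card_Ioc]
    have h6 : ((⌊l ^ B⌋₊ - 1 : ℕ) : ℝ) ≤ l ^ B := by
      have h7 : ((⌊l ^ B⌋₊ - 1 : ℕ) : ℝ) ≤ (⌊l ^ B⌋₊ : ℕ) := by exact_mod_cast Nat.sub_le _ _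
      exact h7.trans (Nat.floor_le (Real.rpow_nonneg hl0.le _))
    calc ((⌊l ^ B⌋₊ - 1 : ℕ) : ℝ) * (C2 / l ^ (A + 2 + B)) ≤ l ^ B * (C2 / l ^ (A + 2 + B)) :=
          mul_le_mul_of_nonneg_right h6 (by (clear * - hC2 hl1; positivity))
      _ = C2 / l ^ (A + 2) := by
          rw [Real.rpow_add hl0 (A + 2) B]
          have : 0 < l ^ B := Real.rpow_pos_of_pos hl0 _
          have : 0 < l ^ (A + 2) := Real.rpow_pos_of_pos hl0 _
          (clear * - hl1 hC2; field_simp)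
  have hall : ∑ q ∈ Ioc 1 D, (1 / (q.totient : ℝ)) * T q ≤ (C1 + C2) / l ^ (A + 2) := by
    have hsub : Ioc 1 D ⊆ Ioc 1 ⌊l ^ B⌋₊ ∪ Ioc ⌊l ^ B⌋₊ D := by
      intro q hq
      rw [Finset.mem_Ioc] at hq
      rw [Finset.mem_union, Finset.mem_Ioc, Finset.mem_Ioc]
      by_cases h : q ≤ ⌊l ^ B⌋₊
      · exact Or.inl ⟨hq.1, h⟩
      · exact Or.inr ⟨by omega, hq.2⟩
    have hnn : ∀ q, 0 ≤ (1 / (q.totient : ℝ)) * T q := fun q => mul_nonneg (by (clear * -; positivity)) (hT0 q)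
    calc ∑ q ∈ Ioc 1 D, (1 / (q.totient : ℝ)) * T q
        ≤ ∑ q ∈ Ioc 1 ⌊l ^ B⌋₊ ∪ Ioc ⌊l ^ B⌋₊ D, (1 / (q.totient : ℝ)) * T q :=
          Finset.sum_le_sum_of_subset_of_nonneg hsub fun q _ _ => hnn q
      _ ≤ (∑ q ∈ Ioc 1 ⌊l ^ B⌋₊, (1 / (q.totient : ℝ)) * T q) +
          ∑ q ∈ Ioc ⌊l ^ B⌋₊ D, (1 / (q.totient : ℝ)) * T q := by
          rw [← Finset.sum_union_inter]
          exact le_add_of_nonneg_right (Finset.sum_nonneg fun q _ => hnn q)
      _ ≤ C2 / l ^ (A + 2) + C1 / l ^ (A + 2) := add_le_add hSx hLx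
      _ = (C1 + C2) / l ^ (A + 2) := by ring
  -- the sum of 1 / φ
  have hphi : ∑ m ∈ Icc 1 D, (1 : ℝ) / m.totient ≤ 4 * l ^ 2 := by
    refine (sum_inv_totient_le D).trans ?_
    have h7 : Real.log D ≤ l := by
      rcases Nat.eq_zero_or_pos D with h0 | h0
      · rw [h0]; simp; exact hl0.le
      · have h8 : (D : ℝ) ≤ x := by
          refine hDx.trans ?_
          calc x ^ (1 / 40 : ℝ) ≤ x ^ (1 : ℝ) :=
                Real.rpow_le_rpow_of_exponent_le (by (clear * - hX1 hx1; linarith)) (by norm_num)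
            _ = x := Real.rpow_one x
        exact Real.log_le_log (by exact_mod_cast h0) h8
    have h9 : 0 ≤ Real.log D := Real.log_natCast_nonneg D
    (clear * - hl1 h7 h9; nlinarith)
  -- the integers not coprime to the modulus
  have hEE : ∑ d ∈ Icc 1 D, EE g x d ≤ 2 * G / l ^ A := by
    have h7 : ∀ d ∈ Icc 1 D, EE g x d ≤ D * (2 * l) * (l * (G / x ^ (1 / 2 : ℝ))) := by
      intro d hd
      rw [Finset.mem_Icc] at hd
      refine (EE_le hg hG hG0 h3x d hd.1).trans ?_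
      have : (d : ℝ) ≤ D := by exact_mod_cast hd.2
      have hxs : 0 < x ^ (1 / 2 : ℝ) := Real.rpow_pos_of_pos hx0 _
      (clear * - this hl1 hG0 h3x; gcongr)
    refine (Finset.sum_le_card_nsmul _ _ _ h7).trans ?_
    rw [nsmul_eq_mul, Nat.card_Icc, Nat.add_sub_cancel]
    have hxs : 0 < x ^ (1 / 2 : ℝ) := Real.rpow_pos_of_pos hx0 _
    have h8 : (D : ℝ) * D ≤ x ^ (1 / 20 : ℝ) := by
      calc (D : ℝ) * D ≤ x ^ (1 / 40 : ℝ) * x ^ (1 / 40 : ℝ) :=
            mul_le_mul hDx hDx (Nat.cast_nonneg _) (Real.rpow_nonneg hx0.le _)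
        _ = x ^ (1 / 20 : ℝ) := by rw [← Real.rpow_add hx0]; norm_num
    have h9 := hX3 x hx3
    rw [one_mul, Real.norm_of_nonneg (Real.rpow_nonneg hl0.le _),
      Real.norm_of_nonneg (Real.rpow_nonneg hx0.le _)] at h9
    have h10 : x ^ (1 / 20 : ℝ) * x ^ (9 / 20 : ℝ) = x ^ (1 / 2 : ℝ) := by
      rw [← Real.rpow_add hx0]; norm_num
    have hlA : 0 < l ^ A := Real.rpow_pos_of_pos hl0 _
    have h11 : l ^ (A + 2) = l ^ A * l ^ 2 := by
      rw [Real.rpow_add hl0]; norm_num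
    have h12 : (D : ℝ) * D * l ^ (A + 2) ≤ x ^ (1 / 2 : ℝ) := by
      rw [← h10]
      exact mul_le_mul h8 h9 (Real.rpow_nonneg hl0.le _) (Real.rpow_nonneg hx0.le _)
    rw [h11] at h12
    rw [le_div_iff₀ hlA]
    have h13 : (D : ℝ) * (D * (2 * l) * (l * (G / x ^ (1 / 2 : ℝ)))) * l ^ A =
        2 * G * ((D : ℝ) * D * (l ^ A * l ^ 2)) / x ^ (1 / 2 : ℝ) := by
      (clear * - hl1 h3x hG0; field_simp)
    rw [h13, div_le_iff₀ hxs]
    exact mul_le_mul_of_nonneg_left h12 (by positivity)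
  -- conclusion
  have hlA : 0 < l ^ A := Real.rpow_pos_of_pos hl0 _
  have h11 : l ^ (A + 2) = l ^ A * l ^ 2 := by
    rw [Real.rpow_add hl0]; norm_num
  calc ∑ d ∈ Icc 1 D,
        |∑ n ∈ (Icc 1 ⌊x⌋₊).filter (fun n => n ≡ c d [MOD d]), Λ n * wt g x n -
          (1 / (d.totient : ℝ)) * ∑ n ∈ Icc 1 ⌊x⌋₊, Λ n * wt g x n|
      ≤ ∑ d ∈ Icc 1 D, ((1 / (d.totient : ℝ)) * ∑ q ∈ d.divisors.filter (fun q => 1 < q),
        ∑ ψ ∈ prim q, ‖SS LaC g x ψ‖ + EE g x d) := by
        refine Finset.sum_le_sum fun d hd => ?_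
        exact one_modulus hg x (Finset.mem_Icc.mp hd).1 (hc d)
    _ = (∑ d ∈ Icc 1 D, (1 / (d.totient : ℝ)) * ∑ q ∈ d.divisors.filter (fun q => 1 < q),
        ∑ ψ ∈ prim q, ‖SS LaC g x ψ‖) + ∑ d ∈ Icc 1 D, EE g x d := Finset.sum_add_distrib
    _ ≤ (C1 + C2) / l ^ (A + 2) * (4 * l ^ 2) + 2 * G / l ^ A := by
        refine add_le_add ((swap g x D).trans ?_) hEE
        refine mul_le_mul hall hphi (Finset.sum_nonneg fun m _ => by (clear * -; positivity)) (by (clear * - hC1 hC2 hl1; positivity))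
    _ = (4 * (C1 + C2) + 2 * G) / l ^ A := by
        rw [h11]
        (clear * - hl1 hC1 hC2 hG0; field_simp)

end Pool.Agent.Helper51.BV

end

section

set_option autoImplicit false

open Finset Filter

open scoped ArithmeticFunction.vonMangoldt

namespace Pool.Agent.Helper28.MT

open Pool.Agent.Helper18.BV (wt IsWt BVav)

open Pool.Agent.Helper1.MT

open Pool.Agent.Helper74.MT (sum_class_le sum_total_le wt_nonneg le_totient sum_powerset_le)

theorem bvErrorU_of (hbv : BVav) : BVErrorU := by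
  intro g hg k A hA
  obtain ⟨G, hG0, hG⟩ := Pool.Agent.Helper44.BV.IsWt_bdd hg
  obtain ⟨C3, hC3, hM⟩ := Pool.Agent.Helper44.sum_primesUpTo_bounds
  set a : ℝ := 2 * (k : ℝ) ^ 2 with ha
  have ha0 : 0 ≤ a := by (clear * -; positivity)
  set B : ℝ := A + 3 + a with hB
  obtain ⟨C', X1, hC', hX1, hav⟩ := hbv g hg (A + B + 1) (by (clear * - hA; positivity))
  set C'' : ℝ := 9 * G * Real.exp (a * C3) with hC''
  have hC''0 : 0 < C'' := by positivity
  -- the threshold
  have ev : ∀ᶠ x : ℝ in atTop, (C'' + C') / 2 ≤ Real.log x := 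
    Real.tendsto_log_atTop.eventually (eventually_ge_atTop _)
  have ev2 : ∀ᶠ x : ℝ in atTop, Real.log x ^ A ≤ x ^ (1 / 3240 : ℝ) := by
    have h := (isLittleO_log_rpow_rpow_atTop A (show (0 : ℝ) < 1 / 3240 by norm_num)).bound
      (show (0 : ℝ) < 1 by norm_num)
    filter_upwards [h, eventually_ge_atTop (1 : ℝ)] with x hx hx1
    rw [one_mul, Real.norm_of_nonneg (Real.rpow_nonneg (Real.log_nonneg hx1) _),
      Real.norm_of_nonneg (Real.rpow_nonneg (by (clear * - hx1; linarith)) _)] at hx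
    exact hx
  obtain ⟨X2, hX2⟩ := eventually_atTop.1 (ev.and ev2)
  refine ⟨max X1 X2, hX1.trans (le_max_left _ _), ?_⟩
  intro x hx W hW hWA c hc
  have hxX1 : X1 ≤ x := (le_max_left _ _).trans hx
  have hx3 : 3 ≤ x := hX1.trans hxX1
  have hx0 : 0 < x := by (clear * - hX1 hxX1; linarith)
  have hx1 : 1 ≤ x := by (clear * - hX1 hxX1; linarith)
  obtain ⟨hlogC, hWx'⟩ := hX2 x ((le_max_right _ _).trans hx)
  have hWx : (W : ℝ) ≤ x ^ (1 / 3240 : ℝ) := hWA.trans hWx'
  have hlog1 : 1 ≤ Real.log x := by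
    rw [Real.le_log_iff_exp_le hx0]
    exact (Real.exp_one_lt_d9.le.trans (by norm_num)).trans hx3
  have hlog0 : 0 < Real.log x := by (clear * - hC' hC''0 hlogC; linarith)
  set R : ℕ := lev x with hR
  have hRx : (R : ℝ) ≤ x ^ (1 / 81 : ℝ) := by
    rw [hR]; unfold lev
    exact Nat.floor_le (by positivity)
  have hRx1 : (R : ℝ) ≤ x := by
    refine hRx.trans ?_
    calc x ^ (1 / 81 : ℝ) ≤ x ^ (1 : ℝ) := Real.rpow_le_rpow_of_exponent_le hx1 (by norm_num)
      _ = x := Real.rpow_one x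
  -- the error terms
  set E : ℕ → ℝ := fun d =>
    |∑ n ∈ (Icc 1 ⌊x⌋₊).filter (fun n => n ≡ c d [MOD d]), Λ n * wt g x n -
      (1 / (d.totient : ℝ)) * ∑ n ∈ Icc 1 ⌊x⌋₊, Λ n * wt g x n| with hE
  have hE0 : ∀ d, 0 ≤ E d := fun d => abs_nonneg _
  set F := (PS R W).powerset.filter (fun U => ∏ p ∈ U, p ≤ R ^ 2) with hF
  have hgoal : ∑ U ∈ F, (k : ℝ) ^ U.card * E (W * ∏ p ∈ U, p) ≤ 1 / Real.log x ^ A := by
    -- moduli
    have hFm : ∀ U ∈ F, U ⊆ PS R W ∧ ∏ p ∈ U, p ≤ R ^ 2 := by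
      intro U hU
      rw [hF, mem_filter, mem_powerset] at hU
      exact hU
    have hprime : ∀ U ∈ F, ∀ p ∈ U, p.Prime := by
      intro U hU p hp
      have := (hFm U hU).1 hp
      unfold PS at this
      rw [mem_filter] at this
      exact this.2.1
    have hprod0 : ∀ U ∈ F, 0 < ∏ p ∈ U, p := fun U hU =>
      Finset.prod_pos fun p hp => (hprime U hU p hp).pos
    have hmod : ∀ U ∈ F, ((W * ∏ p ∈ U, p : ℕ) : ℝ) ≤ x ^ (1 / 40 : ℝ) := by
      intro U hU
      have h1 : ((∏ p ∈ U, p : ℕ) : ℝ) ≤ (x ^ (1 / 81 : ℝ)) ^ 2 := by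
        calc ((∏ p ∈ U, p : ℕ) : ℝ) ≤ (R : ℝ) ^ 2 := by exact_mod_cast (hFm U hU).2
          _ ≤ _ := by (clear * - hRx; gcongr)
      rw [Nat.cast_mul]
      calc (W : ℝ) * ((∏ p ∈ U, p : ℕ) : ℝ) ≤ x ^ (1 / 3240 : ℝ) * (x ^ (1 / 81 : ℝ)) ^ 2 := by
            (clear * - hWx h1 hx3; gcongr)
        _ = x ^ (1 / 40 : ℝ) := by
            rw [← Real.rpow_natCast, ← Real.rpow_mul hx0.le, ← Real.rpow_add hx0]
            norm_num
    -- sum of the errors
    have hsumE : ∑ U ∈ F, E (W * ∏ p ∈ U, p) ≤ C' / Real.log x ^ (A + B + 1) := by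
      refine le_trans ?_ (hav x hxX1 c hc)
      have hinj : Set.InjOn (fun U : Finset ℕ => W * ∏ p ∈ U, p) (F : Set (Finset ℕ)) := by
        intro U hU V hV hUV
        have h1 : ∏ p ∈ U, p = ∏ p ∈ V, p := Nat.eq_of_mul_eq_mul_left hW hUV
        have h2 : ∀ S ∈ F, (∏ p ∈ S, p).primeFactors = S := by
          intro S hS
          exact Nat.primeFactors_prod (hprime S hS)
        rw [← h2 U hU, ← h2 V hV, h1]
      rw [← Finset.sum_image (f := E) hinj]
      apply Finset.sum_le_sum_of_subset_of_nonneg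
      · intro d hd
        rw [mem_image] at hd
        obtain ⟨U, hU, rfl⟩ := hd
        rw [mem_Icc]
        exact ⟨Nat.mul_pos hW (hprod0 U hU), Nat.le_floor (hmod U hU)⟩
      · intro d _ _
        exact hE0 d
    -- trivial bound
    have htriv : ∀ U ∈ F, E (W * ∏ p ∈ U, p) ≤
        9 * G * Real.log x ^ 2 * (2 ^ U.card / ((∏ p ∈ U, p : ℕ) : ℝ)) := by
      intro U hU
      set d := W * ∏ p ∈ U, p with hd
      have hd0 : 0 < d := Nat.mul_pos hW (hprod0 U hU)
      have hdr : (0 : ℝ) < d := by exact_mod_cast hd0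
      have hP0 : (0 : ℝ) < ((∏ p ∈ U, p : ℕ) : ℝ) := by exact_mod_cast hprod0 U hU
      have hdx : (d : ℝ) ^ 2 ≤ x := by
        calc (d : ℝ) ^ 2 ≤ (x ^ (1 / 40 : ℝ)) ^ 2 := by
              gcongr
              exact hmod U hU
          _ = x ^ (1 / 20 : ℝ) := by
              rw [← Real.rpow_natCast, ← Real.rpow_mul hx0.le]; norm_num
          _ ≤ x ^ (1 : ℝ) := Real.rpow_le_rpow_of_exponent_le hx1 (by norm_num)
          _ = x := Real.rpow_one x
      have h1 := sum_class_le hg hG hx3 d (c d) hd0 hdx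
      have h2 := sum_total_le hg hG hx3
      have h1n : 0 ≤ ∑ n ∈ (Icc 1 ⌊x⌋₊).filter (fun n => n ≡ c d [MOD d]), Λ n * wt g x n :=
        Finset.sum_nonneg fun n _ =>
          mul_nonneg ArithmeticFunction.vonMangoldt_nonneg (wt_nonneg hg x n)
      have h2n : 0 ≤ ∑ n ∈ Icc 1 ⌊x⌋₊, Λ n * wt g x n :=
        Finset.sum_nonneg fun n _ =>
          mul_nonneg ArithmeticFunction.vonMangoldt_nonneg (wt_nonneg hg x n)
      have hphi : ((∏ p ∈ U, p : ℕ) : ℝ) ≤ (d.totient : ℝ) * 2 ^ U.card := by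
        exact_mod_cast (le_totient R W hW U (hFm U hU).1).1
      have hphi0 : (0 : ℝ) < d.totient := by exact_mod_cast Nat.totient_pos.2 hd0
      have hinvphi : 1 / (d.totient : ℝ) ≤ 2 ^ U.card / ((∏ p ∈ U, p : ℕ) : ℝ) := by
        rw [div_le_div_iff₀ hphi0 hP0]
        (clear * - hphi; linarith)
      have hinvd : 1 / (d : ℝ) ≤ 2 ^ U.card / ((∏ p ∈ U, p : ℕ) : ℝ) := by
        rw [div_le_div_iff₀ hdr hP0]
        have h3 : ((∏ p ∈ U, p : ℕ) : ℝ) ≤ d := by
          exact_mod_cast Nat.le_mul_of_pos_left _ hW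
        have h4 : (1 : ℝ) ≤ 2 ^ U.card := one_le_pow₀ (by norm_num)
        (clear * - h3 h4; nlinarith)
      set r : ℝ := 2 ^ U.card / ((∏ p ∈ U, p : ℕ) : ℝ) with hr
      have hr0 : 0 ≤ r := by (clear * - hP0; positivity)
      have hA1 : E d ≤ (∑ n ∈ (Icc 1 ⌊x⌋₊).filter (fun n => n ≡ c d [MOD d]), Λ n * wt g x n) +
          (1 / (d.totient : ℝ)) * ∑ n ∈ Icc 1 ⌊x⌋₊, Λ n * wt g x n := by
        rw [hE]
        have h5 : 0 ≤ (1 / (d.totient : ℝ)) * ∑ n ∈ Icc 1 ⌊x⌋₊, Λ n * wt g x n := by (clear * - hd0 h2n; positivity)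
        rw [abs_le]
        constructor <;> (clear * - h1n h5; linarith)
      refine hA1.trans ?_
      have h6 : ∑ n ∈ (Icc 1 ⌊x⌋₊).filter (fun n => n ≡ c d [MOD d]), Λ n * wt g x n ≤
          2 * G * Real.log x ^ 2 * r := by
        refine h1.trans ?_
        calc G * Real.log x * (1 + Real.log x) / d
            = G * Real.log x * (1 + Real.log x) * (1 / d) := by ring
          _ ≤ G * Real.log x * (Real.log x + Real.log x) * r := by (clear * - hlog1 hG0 hinvd hd0; gcongr)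
          _ = _ := by ring
      have h7 : (1 / (d.totient : ℝ)) * ∑ n ∈ Icc 1 ⌊x⌋₊, Λ n * wt g x n ≤
          7 * G * Real.log x ^ 2 * r := by
        calc (1 / (d.totient : ℝ)) * ∑ n ∈ Icc 1 ⌊x⌋₊, Λ n * wt g x n
            ≤ r * (G * (Real.log x + 6)) := mul_le_mul hinvphi h2 h2n hr0
          _ ≤ r * (G * (7 * Real.log x ^ 2)) := by
              gcongr
              (clear * - hlog1 hC' hC''0 hlogC; nlinarith)
          _ = _ := by ring
      (clear * - h6 h7; linarith)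
    -- weighted sum of the errors
    have hsum2 : ∑ U ∈ F, ((k : ℝ) ^ U.card) ^ 2 * E (W * ∏ p ∈ U, p) ≤
        C'' * Real.log x ^ (2 + a) := by
      calc ∑ U ∈ F, ((k : ℝ) ^ U.card) ^ 2 * E (W * ∏ p ∈ U, p)
          ≤ ∑ U ∈ F, 9 * G * Real.log x ^ 2 * (a ^ U.card / ((∏ p ∈ U, p : ℕ) : ℝ)) := by
            apply Finset.sum_le_sum
            intro U hU
            calc ((k : ℝ) ^ U.card) ^ 2 * E (W * ∏ p ∈ U, p) ≤ ((k : ℝ) ^ U.card) ^ 2 *
                  (9 * G * Real.log x ^ 2 * (2 ^ U.card / ((∏ p ∈ U, p : ℕ) : ℝ))) := by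
                  gcongr
                  exact htriv U hU
              _ = _ := by
                  rw [ha, mul_pow, ← pow_mul, ← pow_mul, mul_comm U.card 2]
                  ring
        _ = 9 * G * Real.log x ^ 2 * ∑ U ∈ F, a ^ U.card / ((∏ p ∈ U, p : ℕ) : ℝ) := by
            rw [Finset.mul_sum]
        _ ≤ 9 * G * Real.log x ^ 2 * (Real.exp (a * C3) * Real.log x ^ a) := by
            gcongr
            refine le_trans ?_ (sum_powerset_le hM R W x (by (clear * - hX1 hxX1; linarith)) hRx1 a ha0)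
            apply Finset.sum_le_sum_of_subset_of_nonneg
            · rw [hF]; exact Finset.filter_subset _ _
            · intro U _ _; (clear * -; positivity)
        _ = C'' * Real.log x ^ (2 + a) := by
            rw [Real.rpow_add hlog0, hC'']
            have h8 : Real.log x ^ (2 : ℝ) = Real.log x ^ 2 := by
              exact_mod_cast Real.rpow_natCast (Real.log x) 2
            rw [h8]
            ring
    -- arithmetic mean
    set lam : ℝ := Real.log x ^ (-B) with hlam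
    have hlam0 : 0 < lam := Real.rpow_pos_of_pos hlog0 _
    have hpt : ∀ U ∈ F, (k : ℝ) ^ U.card * E (W * ∏ p ∈ U, p) ≤
        lam / 2 * (((k : ℝ) ^ U.card) ^ 2 * E (W * ∏ p ∈ U, p)) +
          1 / (2 * lam) * E (W * ∏ p ∈ U, p) := by
      intro U _
      set b : ℝ := (k : ℝ) ^ U.card
      have h9 : b ≤ lam / 2 * b ^ 2 + 1 / (2 * lam) := by
        have h10 : 0 ≤ (lam * b - 1) ^ 2 / (2 * lam) := by (clear * - hlog1; positivity)
        have h11 : (lam * b - 1) ^ 2 / (2 * lam) = lam / 2 * b ^ 2 + 1 / (2 * lam) - b := by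
          field_simp
          ring
        (clear * - h10 h11; linarith)
      calc b * E (W * ∏ p ∈ U, p) ≤ (lam / 2 * b ^ 2 + 1 / (2 * lam)) * E (W * ∏ p ∈ U, p) :=
            mul_le_mul_of_nonneg_right h9 (hE0 _)
        _ = _ := by ring
    calc ∑ U ∈ F, (k : ℝ) ^ U.card * E (W * ∏ p ∈ U, p)
        ≤ ∑ U ∈ F, (lam / 2 * (((k : ℝ) ^ U.card) ^ 2 * E (W * ∏ p ∈ U, p)) +
          1 / (2 * lam) * E (W * ∏ p ∈ U, p)) := Finset.sum_le_sum hpt
      _ = lam / 2 * ∑ U ∈ F, ((k : ℝ) ^ U.card) ^ 2 * E (W * ∏ p ∈ U, p) +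
          1 / (2 * lam) * ∑ U ∈ F, E (W * ∏ p ∈ U, p) := by
          rw [Finset.sum_add_distrib, ← Finset.mul_sum, ← Finset.mul_sum]
      _ ≤ lam / 2 * (C'' * Real.log x ^ (2 + a)) +
          1 / (2 * lam) * (C' / Real.log x ^ (A + B + 1)) := by
          (clear * - hsum2 hlog1 hsumE; gcongr)
      _ = (C'' + C') / 2 * Real.log x ^ (-A - 1) := by
          have e1 : lam / 2 * (C'' * Real.log x ^ (2 + a)) =
              C'' / 2 * Real.log x ^ (-A - 1) := by
            have : Real.log x ^ (-A - 1) = lam * Real.log x ^ (2 + a) := by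
              rw [hlam, ← Real.rpow_add hlog0, hB]
              congr 1
              ring
            rw [this]
            ring
          have e2 : 1 / (2 * lam) * (C' / Real.log x ^ (A + B + 1)) =
              C' / 2 * Real.log x ^ (-A - 1) := by
            have h12 : 1 / lam = Real.log x ^ B := by
              rw [hlam, Real.rpow_neg hlog0.le, one_div, inv_inv]
            have h13 : 1 / Real.log x ^ (A + B + 1) = Real.log x ^ (-(A + B + 1)) := by
              rw [Real.rpow_neg hlog0.le, one_div]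
            have h14 : Real.log x ^ (-A - 1) = Real.log x ^ B * Real.log x ^ (-(A + B + 1)) := by
              rw [← Real.rpow_add hlog0]
              congr 1
              ring
            calc 1 / (2 * lam) * (C' / Real.log x ^ (A + B + 1))
                = C' / 2 * ((1 / lam) * (1 / Real.log x ^ (A + B + 1))) := by
                  (clear * - hlog1 hC' hlam0; field_simp)
              _ = _ := by rw [h12, h13, h14]
          rw [e1, e2]
          ring
      _ ≤ Real.log x * Real.log x ^ (-A - 1) := by (clear * - hlogC hlog1; gcongr)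
      _ = 1 / Real.log x ^ A := by
          rw [one_div, ← Real.rpow_neg hlog0.le]
          have : Real.log x * Real.log x ^ (-A - 1) =
              Real.log x ^ (1 : ℝ) * Real.log x ^ (-A - 1) := by rw [Real.rpow_one]
          rw [this, ← Real.rpow_add hlog0]
          congr 1
          ring
  exact hgoal

end Pool.Agent.Helper28.MT

end
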