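import Pool.Agent.Helper23.MT.L00_acd0
import Pool.Agent.Helper23.MT.L00_acd1
import Pool.Agent.Helper23.MT.L00_acd4
import Pool.Agent.Helper23.MT.L00_acd5

/-!
Parts of Helper12.MT.Star, Helper18.BV.EstermannLemma
-/

namespace Pool.Agent.Helper1.MT
end Pool.Agent.Helper1.MT

section

set_option autoImplicit false

set_option linter.unusedSectionVars false

open Finset

namespace Pool.Agent.Helper12.MT

open Pool.Agent.Helper1.MT

open Pool.Agent.Helper90.MT (ws_nonneg mem_cls mem_supp ws_supp prod_one_add_le)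

section Sums

variable {ι κ : Type} [Fintype ι] [Fintype κ] [DecidableEq ι] [DecidableEq κ]

/-- The allowed star sets. -/
noncomputable def SS (t : ι → ℝ) (bad : Finset ι) (b : ι → Option κ) : Finset (Finset ι) :=
  (univ.filter (fun S => Disjoint S (supp b))).filter (fun S => T t S ≤ 1 ∧ Disjoint S bad)

/-- The normalising factor. -/
noncomputable def VV (w t : ι → ℝ) (bad : Finset ι) (b : ι → Option κ) : ℝ :=
  ∑ S ∈ SS t bad b, ws w S

theorem one_le_VV {w t : ι → ℝ} (hw : ∀ p, 0 ≤ w p) (bad : Finset ι) (b : ι → Option κ) :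
    1 ≤ VV w t bad b := by
  have h1 : (∅ : Finset ι) ∈ SS t bad b := by
    simp [SS, T]
  have h2 : ws w (∅ : Finset ι) = 1 := by simp [ws]
  calc (1 : ℝ) = ws w (∅ : Finset ι) := h2.symm
    _ ≤ _ := Finset.single_le_sum (f := fun S => ws w S) (fun S _ => Pool.Agent.Helper90.MT.ws_nonneg hw S) h1

theorem V0_le {w t : ι → ℝ} (hw : ∀ p, 0 ≤ w p) (ht : ∀ p, 0 ≤ t p) (bad : Finset ι)
    (b : ι → Option κ) :
    V0 w t ≤ (∏ p ∈ supp b, (1 + w p)) * (∏ p ∈ bad, (1 + w p)) * VV w t bad b := by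
  have h1 : V0 w t ≤ (∏ p ∈ supp b ∪ bad, (1 + w p)) * VV w t bad b := by
    unfold V0 VV
    rw [Finset.prod_one_add]
    have h2 : ∀ S ∈ (univ : Finset (Finset ι)).filter (fun S => T t S ≤ 1), ws w S =
        ws w (S ∩ (supp b ∪ bad)) * ws w (S \ (supp b ∪ bad)) := by
      intro S _
      unfold ws
      rw [Finset.prod_inter_mul_prod_sdiff]
    rw [Finset.sum_congr rfl h2]
    refine pair_le (B := (supp b ∪ bad).powerset) (C := SS t bad b)
      (fun S => (S ∩ (supp b ∪ bad), S \ (supp b ∪ bad))) ?_ ?_ (Pool.Agent.Helper90.MT.ws_nonneg hw) (Pool.Agent.Helper90.MT.ws_nonneg hw)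
    · intro S hS
      refine ⟨Finset.mem_powerset.2 Finset.inter_subset_right, ?_⟩
      have h3 : Disjoint (S \ (supp b ∪ bad)) (supp b ∪ bad) := Finset.sdiff_disjoint
      rw [Finset.disjoint_union_right] at h3
      simp only [SS, Finset.mem_filter, Finset.mem_univ, true_and] at hS ⊢
      refine ⟨h3.1, ?_, h3.2⟩
      refine le_trans ?_ hS
      exact Finset.sum_le_sum_of_subset_of_nonneg Finset.sdiff_subset fun p _ _ => ht p
    · intro S _
      rw [Finset.union_comm]
      exact Finset.sdiff_union_inter S _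
  refine h1.trans (mul_le_mul_of_nonneg_right ?_ (le_trans zero_le_one (one_le_VV hw bad b)))
  rw [← Finset.prod_union_inter (s₁ := supp b) (s₂ := bad)]
  have h4 : 1 ≤ ∏ p ∈ supp b ∩ bad, (1 + w p) := by
    calc (1 : ℝ) = ∏ p ∈ supp b ∩ bad, (1 : ℝ) := by rw [Finset.prod_const_one]
      _ ≤ _ := Finset.prod_le_prod (fun p _ => zero_le_one) fun p _ => by (clear * - hw; linarith [hw p])
  have h5 : 0 ≤ ∏ p ∈ supp b ∪ bad, (1 + w p) :=
    Finset.prod_nonneg fun p _ => by linarith [hw p]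
  (clear * - h4 h5; nlinarith)

end Sums

end Pool.Agent.Helper12.MT

end

section

set_option autoImplicit false

open Finset Filter Topology

namespace Pool.Agent.Helper18.BV

theorem estermann : Estermann := by
  set L : ℝ := Real.log (40 / 33) with hL
  have hL0 : 0 < L := Real.log_pos (by norm_num)
  set K : ℝ := 1 / L with hK
  have hK0 : 0 < K := by positivity
  refine ⟨Real.exp (-1) * (12 : ℝ) ^ (-K) / 2, K, by positivity, hK0, ?_⟩
  intro f G lam B β hf hf1 hB hfG hG hGB hβ hβ1 hGβ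
  set u : ℝ := 2 - β with hu
  have hu1 : 1 < u := by rw [hu]; (clear * - hβ1; linarith)
  have hu2 : u ≤ 11 / 10 := by rw [hu]; (clear * - hβ; linarith)
  have hu0 : 0 < u := by (clear * - hβ hβ1; linarith)
  have hβ0 : 0 < 1 - β := by (clear * - hβ1; linarith)
  -- derivatives of `f` and `G` at `2`
  have hGan : AnalyticAt ℂ G 2 := hG.analyticAt (Metric.isOpen_ball.mem_nhds (by simp))
  have hder : ∀ m : ℕ, iteratedDeriv m f 2 =
      lam * ((-1) ^ m * m.factorial) + iteratedDeriv m G 2 := by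
    intro m
    have hev : f =ᶠ[𝓝 2] (fun s : ℂ => (lam : ℂ) / (s - 1) + G s) := by
      have : {s : ℂ | 1 < s.re} ∈ 𝓝 (2 : ℂ) :=
        (isOpen_lt continuous_const Complex.continuous_re).mem_nhds (by simp)
      filter_upwards [this] with s hs using hfG s hs
    rw [hev.iteratedDeriv_eq m, iteratedDeriv_fun_add, iteratedDeriv_pole]
    · have : AnalyticAt ℂ (fun s : ℂ => (lam : ℂ) / (s - 1)) 2 := by
        apply AnalyticAt.div analyticAt_const (by fun_prop)
        norm_num
      exact this.contDiffAt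
    · exact hGan.contDiffAt
  set c : ℕ → ℝ := fun m => ((-1 : ℂ) ^ m * iteratedDeriv m f 2).re / m.factorial with hc
  have hc0 : ∀ m, 0 ≤ c m := fun m => div_nonneg (hf m) (by positivity)
  have hc1 : 1 ≤ c 0 := by simp [hc]; exact hf1
  have hcG : ∀ m : ℕ, ((-1 : ℂ) ^ m * iteratedDeriv m G 2).re / m.factorial = c m - lam := by
    intro m
    have h0 : (0 : ℝ) < m.factorial := by positivity
    have h1 : (-1 : ℂ) ^ m * iteratedDeriv m f 2 =
        ((lam * m.factorial : ℝ) : ℂ) + (-1 : ℂ) ^ m * iteratedDeriv m G 2 := by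
      rw [hder m, mul_add]
      congr 1
      have : (-1 : ℂ) ^ m * (-1) ^ m = 1 := by rw [← mul_pow]; norm_num
      push_cast
      linear_combination (lam * m.factorial : ℂ) * this
    have h2 : ((-1 : ℂ) ^ m * iteratedDeriv m f 2).re =
        lam * m.factorial + ((-1 : ℂ) ^ m * iteratedDeriv m G 2).re := by
      rw [h1, Complex.add_re, Complex.ofReal_re]
    simp only [hc]
    rw [h2, add_div, mul_div_assoc, div_self h0.ne']
    ring
  -- Cauchy estimates
  have hcau : ∀ m : ℕ, ‖iteratedDeriv m G 2‖ ≤ m.factorial * B / (4 / 3) ^ m := by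
    intro m
    apply Complex.norm_iteratedDeriv_le_of_forall_mem_sphere_norm_le m (by norm_num)
    · apply DifferentiableOn.diffContOnCl
      rw [closure_ball (2 : ℂ) (by norm_num)]
      exact hG.mono (Metric.closedBall_subset_ball (by norm_num))
    · intro z hz
      exact hGB z (by rw [mem_sphere_iff_norm] at hz; exact hz)
  -- the Taylor series at `β`
  have hsum : HasSum (fun m : ℕ => (c m - lam) * u ^ m) (G β).re := by
    have hmem : (β : ℂ) ∈ Metric.ball (2 : ℂ) (3 / 2) := by
      rw [Metric.mem_ball, Complex.dist_eq]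
      have : ((β : ℂ) - 2) = ((β - 2 : ℝ) : ℂ) := by push_cast; ring
      rw [this, Complex.norm_real, Real.norm_eq_abs, abs_lt]
      constructor <;> (clear * - hβ hβ1; linarith)
    have h1 := Complex.hasSum_taylorSeries_on_ball hG hmem
    have h2 := Complex.hasSum_re h1
    convert h2 using 2 with m
    rw [← hcG m]
    have h3 : ((β : ℂ) - 2) ^ m = ((u ^ m : ℝ) : ℂ) * (-1) ^ m := by
      have : ((β : ℂ) - 2) = (u : ℂ) * (-1) := by rw [hu]; push_cast; ring
      rw [this, mul_pow]; push_cast; ring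
    rw [h3]
    have h4 : ((m.factorial : ℂ))⁻¹ • (((u ^ m : ℝ) : ℂ) * (-1) ^ m) • iteratedDeriv m G 2 =
        (((m.factorial : ℝ)⁻¹ * u ^ m : ℝ) : ℂ) * ((-1) ^ m * iteratedDeriv m G 2) := by
      simp only [smul_eq_mul]; push_cast; ring
    rw [h4, Complex.re_ofReal_mul]
    field_simp
  have hterm : ∀ m : ℕ, |(c m - lam) * u ^ m| ≤ B * (33 / 40) ^ m := by
    intro m
    rw [← hcG m, abs_mul, abs_div]
    have h0 : (0 : ℝ) < m.factorial := by positivity
    have h1 : |((-1 : ℂ) ^ m * iteratedDeriv m G 2).re| ≤ ‖iteratedDeriv m G 2‖ := by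
      refine (Complex.abs_re_le_norm _).trans ?_
      rw [norm_mul, norm_pow, norm_neg, norm_one, one_pow, one_mul]
    have h2 : |((-1 : ℂ) ^ m * iteratedDeriv m G 2).re| / |(m.factorial : ℝ)| ≤
        B / (4 / 3) ^ m := by
      rw [abs_of_pos h0, div_le_iff₀ h0]
      refine (h1.trans (hcau m)).trans (le_of_eq ?_)
      ring
    have h3 : |u ^ m| ≤ (11 / 10) ^ m := by
      rw [abs_of_pos (by (clear * - hu1; positivity))]
      exact pow_le_pow_left₀ hu0.le hu2 m
    calc _ ≤ (B / (4 / 3) ^ m) * (11 / 10) ^ m :=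
          mul_le_mul h2 h3 (abs_nonneg _) (by (clear * - hB; positivity))
      _ = B * (33 / 40) ^ m := by
          have : (33 / 40 : ℝ) ^ m = (11 / 10) ^ m / (4 / 3) ^ m := by
            rw [← div_pow]; norm_num
          rw [this]; ring
  -- choice of `M`
  have hB12 : 0 < 12 * B := by (clear * - hB hβ hβ1; linarith)
  have hlogB : 0 < Real.log (12 * B) := Real.log_pos (by (clear * - hB hβ hβ1; linarith))
  set M : ℕ := ⌈Real.log (12 * B) * K⌉₊ with hM
  have hM1 : Real.log (12 * B) * K ≤ M := Nat.le_ceil _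
  have hM2 : (M : ℝ) < Real.log (12 * B) * K + 1 := Nat.ceil_lt_add_one (by positivity)
  have hMpos : 0 < M := Nat.ceil_pos.2 (by positivity)
  have hpow : (33 / 40 : ℝ) ^ M ≤ 1 / (12 * B) := by
    have h1 : (33 / 40 : ℝ) ^ M = Real.exp (-(M * L)) := by
      have : (33 / 40 : ℝ) = Real.exp (-L) := by
        rw [Real.exp_neg, hL, Real.exp_log (by norm_num)]; norm_num
      rw [this, ← Real.exp_nat_mul]; congr 1; ring
    rw [h1, one_div, ← Real.exp_log hB12, ← Real.exp_neg]
    apply Real.exp_le_exp.2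
    have : Real.log (12 * B) ≤ M * L := by
      have := mul_le_mul_of_nonneg_right hM1 hL0.le
      rwa [mul_assoc, hK, one_div, inv_mul_cancel₀ hL0.ne', mul_one] at this
    (clear * - this; linarith)
  -- the partial sum
  have hpart : 1 - lam * ((u ^ M - 1) / (1 - β)) ≤ ∑ m ∈ range M, (c m - lam) * u ^ m := by
    have hgeo : ∑ m ∈ range M, u ^ m = (u ^ M - 1) / (1 - β) := by
      rw [geom_sum_eq hu1.ne']
      congr 1
      rw [hu]; ring
    have h1 : ∑ m ∈ range M, (c m - lam) * u ^ m =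
        ∑ m ∈ range M, c m * u ^ m - lam * ((u ^ M - 1) / (1 - β)) := by
      rw [← hgeo, Finset.mul_sum, ← Finset.sum_sub_distrib]
      apply Finset.sum_congr rfl; intro m _; ring
    have h2 : (1 : ℝ) ≤ ∑ m ∈ range M, c m * u ^ m := by
      calc (1 : ℝ) ≤ c 0 * u ^ 0 := by simpa using hc1
        _ ≤ _ := Finset.single_le_sum (f := fun m => c m * u ^ m)
            (fun m _ => mul_nonneg (hc0 m) (by (clear * - hu1; positivity))) (Finset.mem_range.2 hMpos)
    rw [h1]; (clear * - h2; linarith)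
  -- the tail
  have hsummable := hsum.summable
  have hgeoS : Summable (fun m : ℕ => B * (33 / 40 : ℝ) ^ (m + M)) := by
    have : Summable (fun m : ℕ => (33 / 40 : ℝ) ^ m) :=
      summable_geometric_of_lt_one (by norm_num) (by norm_num)
    have h2 := (this.mul_left (B * (33 / 40 : ℝ) ^ M))
    refine h2.congr (fun m => ?_)
    rw [pow_add]; ring
  have htail : -(40 / 7 * (B * (33 / 40) ^ M)) ≤ ∑' m : ℕ, (c (m + M) - lam) * u ^ (m + M) := by
    have hS : Summable (fun m : ℕ => (c (m + M) - lam) * u ^ (m + M)) :=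
      (summable_nat_add_iff M).2 hsummable
    have h1 : ∑' m : ℕ, -(B * (33 / 40 : ℝ) ^ (m + M)) ≤
        ∑' m : ℕ, (c (m + M) - lam) * u ^ (m + M) := by
      apply Summable.tsum_le_tsum _ hgeoS.neg hS
      intro m
      exact (abs_le.1 (hterm (m + M))).1
    have h2 : ∑' m : ℕ, -(B * (33 / 40 : ℝ) ^ (m + M)) = -(40 / 7 * (B * (33 / 40) ^ M)) := by
      rw [tsum_neg]
      congr 1
      have : ∀ m : ℕ, B * (33 / 40 : ℝ) ^ (m + M) = (B * (33 / 40) ^ M) * (33 / 40) ^ m := by
        intro m; rw [pow_add]; ring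
      simp_rw [this]
      rw [tsum_mul_left, tsum_geometric_of_lt_one (by norm_num) (by norm_num)]
      norm_num; ring
    (clear * - h1 h2; linarith)
  have hsplit : ∑ m ∈ range M, (c m - lam) * u ^ m + ∑' m : ℕ, (c (m + M) - lam) * u ^ (m + M) =
      (G β).re := by
    rw [hsummable.sum_add_tsum_nat_add, hsum.tsum_eq]
  have hBpow : 40 / 7 * (B * (33 / 40) ^ M) ≤ 1 / 2 := by
    have h1 : B * (33 / 40 : ℝ) ^ M ≤ B * (1 / (12 * B)) :=
      mul_le_mul_of_nonneg_left hpow (by (clear * - hB hβ hβ1; linarith))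
    have h2 : B * (1 / (12 * B)) = 1 / 12 := by
      field_simp
    rw [h2] at h1
    (clear * - hβ hβ1 h1; linarith)
  have hmain : 1 / 2 ≤ lam * (u ^ M / (1 - β)) := by
    have h1 : lam / (1 - β) + lam * ((u ^ M - 1) / (1 - β)) = lam * (u ^ M / (1 - β)) := by
      field_simp; ring
    (clear * - hGβ hpart htail hsplit hBpow h1; linarith)
  -- conclusion
  have huM : u ^ M ≤ Real.exp ((1 - β) * M) := by
    have h1 : u ≤ Real.exp (1 - β) := by
      have := Real.add_one_le_exp (1 - β)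
      rw [hu]; (clear * - this; linarith)
    calc u ^ M ≤ Real.exp (1 - β) ^ M := pow_le_pow_left₀ hu0.le h1 M
      _ = Real.exp ((1 - β) * M) := by rw [← Real.exp_nat_mul]; congr 1; ring
  have huMpos : 0 < u ^ M := by (clear * - hu1; positivity)
  have hlam : (1 - β) / 2 * Real.exp (-((1 - β) * M)) ≤ lam := by
    have h1 : (1 - β) / 2 ≤ lam * u ^ M := by
      have h2 := mul_le_mul_of_nonneg_right hmain hβ0.le
      have h3 : lam * (u ^ M / (1 - β)) * (1 - β) = lam * u ^ M := by (clear * - hβ0 hu1; field_simp)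
      rw [h3] at h2
      (clear * - h2; linarith)
    have hlampos : 0 < lam := by
      by_contra hneg
      have : lam * u ^ M ≤ 0 := mul_nonpos_of_nonpos_of_nonneg (not_lt.1 hneg) huMpos.le
      (clear * - hβ1 h1 this; linarith)
    have h4 : lam * u ^ M ≤ lam * Real.exp ((1 - β) * M) :=
      mul_le_mul_of_nonneg_left huM hlampos.le
    rw [Real.exp_neg, ← div_eq_mul_inv, div_le_iff₀ (Real.exp_pos _)]
    (clear * - h1 h4; linarith)
  refine le_trans ?_ hlam
  have hexp : Real.exp (-1) * ((12 : ℝ) ^ (-K) * B ^ (-(K * (1 - β)))) ≤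
      Real.exp (-((1 - β) * M)) := by
    have h12 : (12 : ℝ) ^ (-K) ≤ (12 : ℝ) ^ (-(K * (1 - β))) := by
      apply Real.rpow_le_rpow_of_exponent_le (by norm_num)
      (clear * - hK0 hβ; nlinarith)
    have hBp : 0 < B ^ (-(K * (1 - β))) := Real.rpow_pos_of_pos (by (clear * - hB hβ hβ1; linarith)) _
    calc Real.exp (-1) * ((12 : ℝ) ^ (-K) * B ^ (-(K * (1 - β))))
        ≤ Real.exp (-1) * ((12 : ℝ) ^ (-(K * (1 - β))) * B ^ (-(K * (1 - β)))) := by
          apply mul_le_mul_of_nonneg_left _ (Real.exp_pos _).le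
          exact mul_le_mul_of_nonneg_right h12 hBp.le
      _ = Real.exp (-1) * Real.exp (Real.log (12 * B) * (-(K * (1 - β)))) := by
          rw [← Real.mul_rpow (by norm_num) (by (clear * - hB hβ hβ1; linarith)), Real.rpow_def_of_pos hB12]
      _ = Real.exp (-1 + Real.log (12 * B) * (-(K * (1 - β)))) := by rw [Real.exp_add]
      _ ≤ Real.exp (-((1 - β) * M)) := by
          apply Real.exp_le_exp.2
          have h5 : (1 - β) * M ≤ (1 - β) * (Real.log (12 * B) * K + 1) :=
            mul_le_mul_of_nonneg_left hM2.le hβ0.le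
          have h6 : 1 - β ≤ 1 := by (clear * - hβ hβ1; linarith)
          (clear * - hβ hβ1 h5; nlinarith)
  calc Real.exp (-1) * (12 : ℝ) ^ (-K) / 2 * (1 - β) * B ^ (-(K * (1 - β)))
      = (1 - β) / 2 * (Real.exp (-1) * ((12 : ℝ) ^ (-K) * B ^ (-(K * (1 - β))))) := by ring
    _ ≤ (1 - β) / 2 * Real.exp (-((1 - β) * M)) :=
        mul_le_mul_of_nonneg_left hexp (by (clear * - hβ1; linarith))

end Pool.Agent.Helper18.BV

end
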