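import Pool.Agent.Helper23.MT.L00_acd0
import Pool.Agent.Helper23.MT.L00_acd1
import Pool.Agent.Helper23.MT.L00_acd4
import Pool.Agent.Helper23.MT.L00_acd5

/-!
Parts of Helper37.BV.SiegelReal, Helper96.BV.TypeTwo, Helper83.MT.Comb, Helper28.MT.OneDim, Helper81.MT.OneDimU
-/

namespace Pool.Agent.Helper1.MT
end Pool.Agent.Helper1.MT
namespace Pool.Agent.Helper18.BV
end Pool.Agent.Helper18.BV
namespace Pool.Agent.Helper28.MT
end Pool.Agent.Helper28.MT

section

set_option autoImplicit false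

open Complex Filter Topology

open Pool.Agent.Helper18.BV

namespace Pool.Agent.Helper37.BV

open DirichletCharacter

theorem estermann_apply (h3 : Estermann) : ∃ c K C0 : ℝ, 0 < c ∧ 0 < K ∧ 1 ≤ C0 ∧
    ∀ (La : ℂ → ℂ) (lam B β : ℝ), Differentiable ℂ La → La 1 = lam →
      (∀ m : ℕ, 0 ≤ ((-1 : ℂ) ^ m * iteratedDeriv m (fun s => riemannZeta s * La s) 2).re) →
      1 ≤ (riemannZeta 2 * La 2).re → 1 ≤ B → (∀ s : ℂ, ‖s - 2‖ = 4 / 3 → ‖La s‖ ≤ B) →
      |lam| ≤ B → 9 / 10 ≤ β → β < 1 → (riemannZeta β * La β).re ≤ 0 →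
      c * (1 - β) * (C0 * B) ^ (-(K * (1 - β))) ≤ lam := by
  obtain ⟨c, K, hc, hK, h⟩ := h3
  obtain ⟨C, hC⟩ := (isCompact_closedBall (2 : ℂ) (4 / 3)).exists_bound_of_continuousOn
    phi_differentiable.continuous.continuousOn
  have hC0 : 0 ≤ C := le_trans (norm_nonneg _) (hC 2 (Metric.mem_closedBall_self (by norm_num)))
  refine ⟨c, K, 3 * (C + 1), hc, hK, by (clear * - hC0; linarith), ?_⟩
  intro La lam B β hLa h1 halt h2 hB hbd hlam hβ hβ1 hneg
  set H : ℂ → ℂ := fun s => phi s * La s with hH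
  have hH1 : H 1 = lam := by rw [hH]; simp only [phi_one, one_mul, h1]
  have hHd : Differentiable ℂ H := phi_differentiable.mul hLa
  have hG : ∀ s : ℂ, s ≠ 1 → dslope H 1 s = (H s - lam) / (s - 1) := by
    intro s hs
    rw [dslope_of_ne _ hs, slope_def_field, hH1]
  have hf : ∀ s : ℂ, s ≠ 1 → riemannZeta s * La s = lam / (s - 1) + dslope H 1 s := by
    intro s hs
    have hs' : s - 1 ≠ 0 := sub_ne_zero.2 hs
    rw [hG s hs, ← add_div, add_sub_cancel, hH]
    simp only
    rw [phi_of_ne hs]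
    (clear * - hs'; field_simp)
  apply h (fun s => riemannZeta s * La s) (dslope H 1) lam (3 * (C + 1) * B) β halt h2
  · (clear * - hC0 hB hβ hβ1; nlinarith)
  · intro s hs
    apply hf
    intro h4
    rw [h4] at hs
    simp at hs
  · exact ((Complex.differentiableOn_dslope (Filter.univ_mem)).2
      hHd.differentiableOn).mono (Set.subset_univ _)
  · intro s hs
    have hs1 : 1 / 3 ≤ ‖s - 1‖ := by
      have h5 : ‖s - 2‖ ≤ ‖s - 1‖ + 1 := by
        have : s - 2 = (s - 1) - 1 := by ring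
        rw [this]
        refine (norm_sub_le _ _).trans ?_
        rw [norm_one]
      (clear * - hs h5; linarith)
    have hne : s ≠ 1 := by
      intro h6
      rw [h6, sub_self, norm_zero] at hs1
      (clear * - hβ hβ1 hs1; linarith)
    rw [hG s hne, norm_div, div_le_iff₀ (by (clear * - hβ hβ1 hs1; linarith))]
    have h7 : ‖H s‖ ≤ C * B := by
      rw [hH]
      simp only
      rw [norm_mul]
      apply mul_le_mul (hC s _) (hbd s hs) (norm_nonneg _) hC0
      rw [Metric.mem_closedBall, dist_eq_norm, hs]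
    have h8 : ‖(lam : ℂ)‖ ≤ B := by rw [Complex.norm_real]; exact hlam
    have h9 : ‖H s - lam‖ ≤ (C + 1) * B := by
      refine (norm_sub_le _ _).trans ?_
      (clear * - h7 h8; linarith)
    have h10 : 0 ≤ (C + 1) * B := by (clear * - hC0 hB hβ hβ1; nlinarith)
    (clear * - h9 hβ hβ1 hs1 h10; nlinarith)
  · exact hβ
  · exact hβ1
  · have hne : (β : ℂ) ≠ 1 := by
      intro h3
      have : β = 1 := by exact_mod_cast h3
      (clear * - hβ1 this; linarith)
    have h4 := hf β hne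
    have h5 : dslope H 1 β = riemannZeta β * La β + ((lam / (1 - β) : ℝ) : ℂ) := by
      have h6 : (lam : ℂ) / ((β : ℂ) - 1) = -((lam / (1 - β) : ℝ) : ℂ) := by
        push_cast
        rw [← neg_sub (1 : ℂ) (β : ℂ), div_neg]
      rw [h4, h6]
      ring
    rw [h5, Complex.add_re, Complex.ofReal_re]
    (clear * - hneg; linarith)

/-- the bound in the absence of exceptional zeros -/
theorem case_a (h1 : LBound) (h5 : AltOne) {c K C0 : ℝ} (hc : 0 < c) (hK : 0 < K) (hC0 : 1 ≤ C0)
    (hE : ∀ (La : ℂ → ℂ) (lam B β : ℝ), Differentiable ℂ La → La 1 = lam →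
      (∀ m : ℕ, 0 ≤ ((-1 : ℂ) ^ m * iteratedDeriv m (fun s => riemannZeta s * La s) 2).re) →
      1 ≤ (riemannZeta 2 * La 2).re → 1 ≤ B → (∀ s : ℂ, ‖s - 2‖ = 4 / 3 → ‖La s‖ ≤ B) →
      |lam| ≤ B → 9 / 10 ≤ β → β < 1 → (riemannZeta β * La β).re ≤ 0 →
      c * (1 - β) * (C0 * B) ^ (-(K * (1 - β))) ≤ lam)
    (e : ℝ) (he : 0 < e) (he1 : e ≤ 1 / 10)
    (hz : ∀ β : ℝ, 1 - e < β → β < 1 → (riemannZeta β).re < 0)
    (hno : ∀ (q : ℕ) [NeZero q] (χ : DirichletCharacter ℂ q), χ.IsPrimitive → χ ≠ 1 → χ ^ 2 = 1 →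
      ∀ x : ℝ, 1 - e < x → x < 1 → LFunction χ x ≠ 0) (ε : ℝ) (hε : K * e ≤ ε) :
    ∃ c' : ℝ, 0 < c' ∧
    ∀ (q : ℕ) [NeZero q] (χ : DirichletCharacter ℂ q), χ.IsPrimitive → χ ≠ 1 → χ ^ 2 = 1 →
      c' * (q : ℝ) ^ (-ε) ≤ ‖LFunction χ 1‖ := by
  refine ⟨c * (e / 2) * (C0 * 5) ^ (-(K * (e / 2))), by (clear * - hc he hC0; positivity), ?_⟩
  intro q _ χ hp hχ1 hχ2
  have hq : (1 : ℝ) ≤ q := by exact_mod_cast NeZero.one_le
  have hr := ofReal_re' hχ2 hχ1 1
  rw [Complex.ofReal_one] at hr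
  have halt := h5 q χ hχ2
  have h6 := hE (LFunction χ) (LFunction χ 1).re (5 * q) (1 - e / 2) (differentiable_LFunction hχ1)
    hr halt.1 halt.2 (by (clear * - he he1 hq; linarith)) (norm_le_circle h1 hχ1)
    ((Complex.abs_re_le_norm _).trans ((norm_le_one h1 hχ1).trans (by (clear * - he he1 hq; linarith))))
    (by linarith) (by (clear * - he; linarith)) (by
      rw [ofReal_re' hχ2 hχ1, mul_comm, Complex.re_ofReal_mul]
      have h7 := nonneg_of_no_zero h5 hχ2 hχ1 (1 - e / 2) (by (clear * - he; linarith))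
        (fun x hx hx1 => hno q χ hp hχ1 hχ2 x (by (clear * - hx hx1; linarith)) hx1)
      have h8 := hz (1 - e / 2) (by (clear * - he; linarith)) (by (clear * - he; linarith))
      (clear * - he he1 h7 h8; nlinarith))
  have h7 : (LFunction χ 1).re ≤ ‖LFunction χ 1‖ := Complex.re_le_norm _
  refine le_trans ?_ (h6.trans h7)
  have h8 : (1 : ℝ) - (1 - e / 2) = e / 2 := by ring
  rw [h8, ← mul_assoc C0 5 (q : ℝ), Real.mul_rpow (x := C0 * 5) (y := (q : ℝ)) (by positivity)
    (by (clear * - hq; positivity)), ← mul_assoc]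
  apply mul_le_mul_of_nonneg_left _ (by positivity)
  apply Real.rpow_le_rpow_of_exponent_le hq
  (clear * - hε hK he; nlinarith)

theorem siegelReal (h1 : LBound) (h2 : LUpper) (h3 : Estermann) (h4 : AltProd) (h5 : AltOne) :
    SiegelReal := by
  obtain ⟨c, K, C0, hc, hK, hC0, hE⟩ := estermann_apply h3
  obtain ⟨δ, hδ, hz⟩ := zeta_neg
  intro ε hε
  set e : ℝ := min (min (1 / 10) δ) (ε / (4 * K)) with he
  have he0 : 0 < e := lt_min (lt_min (by norm_num) hδ) (by (clear * - hε hK; positivity))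
  have he1 : e ≤ 1 / 10 := (min_le_left _ _).trans (min_le_left _ _)
  have he2 : e ≤ δ := (min_le_left _ _).trans (min_le_right _ _)
  have he3 : K * e ≤ ε / 4 := by
    have : e ≤ ε / (4 * K) := min_le_right _ _
    rw [le_div_iff₀ (by positivity)] at this
    (clear * - this; linarith)
  by_cases hno : ∀ (q : ℕ) [NeZero q] (χ : DirichletCharacter ℂ q), χ.IsPrimitive → χ ≠ 1 →
      χ ^ 2 = 1 → ∀ x : ℝ, 1 - e < x → x < 1 → LFunction χ x ≠ 0
  · exact case_a h1 h5 hc hK hC0 hE e he0 he1 (fun β hβ => hz β (by (clear * - he2 hβ; linarith))) hno ε (by (clear * - hε he3; linarith))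
  · push Not at hno
    obtain ⟨q1, hq1, χ1, hp1, hχ11, hχ12, b, hb, hb1, hzero⟩ := hno
    exact case_b h1 h2 h4 hc hK hC0 hE hp1 hχ11 hχ12 b (by (clear * - he1 hb; linarith)) hb1 hzero ε hε (by
      have : K * (1 - b) ≤ K * e := mul_le_mul_of_nonneg_left (by (clear * - hb; linarith)) hK.le
      (clear * - he3 this; linarith))

end Pool.Agent.Helper37.BV

end

section

set_option autoImplicit false

open Finset

open Pool.Agent.Helper18.BV

namespace Pool.Agent.Helper96.BV

/-- `SS` of a Dirichlet product as a double sum. -/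
theorem SS_mul {g : ℝ → ℝ} (hg : IsWt g) {x : ℝ} (hx : 3 ≤ x) {q : ℕ}
    (χ : DirichletCharacter ℂ q) (a b : ArithmeticFunction ℂ) :
    SS (a * b : ArithmeticFunction ℂ) g x χ =
      ∑ d ∈ Icc 1 ⌊x⌋₊, ∑ e ∈ Icc 1 ⌊x⌋₊, a d * b e *
        (χ (d : ZMod q) * χ (e : ZMod q)) * (wt g x (d * e) : ℂ) := by
  unfold SS
  rw [← sum_anti ⌊x⌋₊ (fun d e => a d * b e *
        (χ (d : ZMod q) * χ (e : ZMod q)) * (wt g x (d * e) : ℂ)) (by
      intro d e h
      rw [wt_eq_zero_of_large hg hx h]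
      simp)]
  refine Finset.sum_congr rfl (fun n hn => ?_)
  rw [ArithmeticFunction.mul_apply, Finset.sum_mul, Finset.sum_mul]
  refine Finset.sum_congr rfl (fun p hp => ?_)
  rw [Nat.mem_divisorsAntidiagonal] at hp
  rw [← hp.1]
  push_cast
  rw [map_mul]

theorem sq_FF_le (h1 : TLS) {Q U N : ℕ} (hQ : 1 ≤ Q) (hU : Q ^ 4 ≤ U) (hN : U ≤ N)
    (a : ℕ → ℂ) (l : ℝ) (K : ℝ) (ha : ∀ n ∈ Ioc U N, ‖a n‖ ≤ K) (t : ℝ) :
    ∑ x ∈ (Icc 1 Q).sigma (fun q => prim q), ‖FF a l U N x t‖ ^ 2 ≤
      (Real.log N + 2) * (K ^ 2 * (Real.log N + 1)) := by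
  have h2 := h1 Q U N hQ hU hN (fun m => a m * uu l m t)
  rw [Finset.sum_sigma]
  refine h2.trans ?_
  have hl : 0 ≤ Real.log N := Real.log_natCast_nonneg N
  apply mul_le_mul_of_nonneg_left _ (by (clear * - hl; linarith))
  have h3 : ∑ m ∈ Ioc U N, ‖a m * uu l m t‖ ^ 2 / m ≤ ∑ m ∈ Ioc U N, K ^ 2 * (1 / m) := by
    refine Finset.sum_le_sum (fun m hm => ?_)
    rw [norm_mul, norm_uu, mul_one, div_eq_mul_one_div]
    exact mul_le_mul_of_nonneg_right (pow_le_pow_left₀ (norm_nonneg _) (ha m hm) 2) (by (clear * -; positivity))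
  refine h3.trans ?_
  rw [← Finset.mul_sum]
  exact mul_le_mul_of_nonneg_left (sum_inv_le U N) (by (clear * -; positivity))

/-- Module BV-12. -/
theorem typeTwo (h1 : TLS) (h2 : FourierRep) : TypeTwo := by
  classical
  intro g hg
  have hcs : HasCompactSupport g :=
    IsCompact.of_isClosed_subset isCompact_Icc (isClosed_tsupport _)
      (hg.supp.trans Set.Ioo_subset_Icc_self)
  obtain ⟨h, hc, hint, hrep⟩ := h2 g hg.smooth hcs
  have hint0 : MeasureTheory.Integrable (fun t : ℝ => ‖h t‖) := by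
    have := hint 0
    simpa using this
  have hinth : MeasureTheory.Integrable h := by
    rwa [MeasureTheory.integrable_norm_iff hc.aestronglyMeasurable] at hint0
  set H : ℝ := ∫ t, ‖h t‖ with hH
  have hH0 : 0 ≤ H := MeasureTheory.integral_nonneg (fun t => norm_nonneg _)
  refine ⟨6 * H + 1, by (clear * -; positivity), ?_⟩
  intro x hx Q U V hQ hU hV a b ha hb ha1 hb1
  set N := ⌊x⌋₊ with hN
  set l := Real.log x with hl
  have hl1 : 1 ≤ l := by
    rw [hl, Real.le_log_iff_exp_le (by (clear * - hx; linarith))]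
    have := Real.exp_one_lt_d9
    (clear * - hx this; linarith)
  have hN3 : 3 ≤ N := Nat.le_floor (by simpa using hx)
  have hNx : (N : ℝ) ≤ x := Nat.floor_le (by (clear * - hx; linarith))
  have hlN : Real.log N ≤ l := Real.log_le_log (by
    have : 0 < N := by omega
    exact_mod_cast this) hNx
  have hlN0 : 0 ≤ Real.log N := Real.log_natCast_nonneg N
  -- the double sum
  have hSS : ∀ (q : ℕ) (χ : DirichletCharacter ℂ q), SS (a * b : ArithmeticFunction ℂ) g x χ =
      ∑ d ∈ Ioc U N, ∑ e ∈ Ioc V N, a d * b e *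
        (χ (d : ZMod q) * χ (e : ZMod q)) * (wt g x (d * e) : ℂ) := by
    intro q χ
    rw [SS_mul hg hx]
    symm
    have hsub : ∀ W : ℕ, Ioc W N ⊆ Icc 1 N := by
      intro W m hm
      rw [Finset.mem_Ioc] at hm
      exact Finset.mem_Icc.2 ⟨by omega, hm.2⟩
    have h3 : ∀ d, ∑ e ∈ Ioc V N, a d * b e *
        (χ (d : ZMod q) * χ (e : ZMod q)) * (wt g x (d * e) : ℂ) =
        ∑ e ∈ Icc 1 N, a d * b e *
        (χ (d : ZMod q) * χ (e : ZMod q)) * (wt g x (d * e) : ℂ) := by
      intro d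
      refine Finset.sum_subset (hsub V) (fun e he he' => ?_)
      rw [Finset.mem_Icc] at he
      rw [Finset.mem_Ioc, not_and_or] at he'
      rw [hb e (by omega)]
      simp
    rw [Finset.sum_congr rfl (fun d _ => h3 d)]
    refine Finset.sum_subset (hsub U) (fun d hd hd' => ?_)
    rw [Finset.mem_Icc] at hd
    rw [Finset.mem_Ioc, not_and_or] at hd'
    refine Finset.sum_eq_zero (fun e _ => ?_)
    rw [ha d (by omega)]
    simp
  by_cases hUV : U ≤ N ∧ V ≤ N
  · obtain ⟨hUN, hVN⟩ := hUV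
    -- integral representation
    have hI : ∀ y : (Σ q : ℕ, DirichletCharacter ℂ q), SS (a * b : ArithmeticFunction ℂ) g x y.2 =
        ∫ t, h t * (FF a l U N y t * FF b l V N y t) := by
      intro y
      rw [hSS]
      have h3 : ∀ d ∈ Ioc U N, ∀ e ∈ Ioc V N, a d * b e *
          (y.2 (d : ZMod y.1) * y.2 (e : ZMod y.1)) * (wt g x (d * e) : ℂ) =
          ∫ t, h t * ((a d * uu l d t) * y.2 (d : ZMod y.1) / d *
            ((b e * uu l e t) * y.2 (e : ZMod y.1) / e)) := by
        intro d hd e he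
        rw [Finset.mem_Ioc] at hd he
        have hd0 : (d : ℝ) ≠ 0 := by
          have : 0 < d := by omega
          exact_mod_cast this.ne'
        have he0 : (e : ℝ) ≠ 0 := by
          have : 0 < e := by omega
          exact_mod_cast this.ne'
        have h4 : (wt g x (d * e) : ℂ) = (∫ t : ℝ, h t * (uu l d t * uu l e t)) / (d * e) := by
          unfold wt
          push_cast
          rw [hrep]
          congr 1
          refine MeasureTheory.integral_congr_ae (Filter.Eventually.of_forall (fun t => ?_))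
          simp only
          congr 1
          unfold uu
          rw [← Complex.exp_add]
          congr 1
          push_cast
          rw [Real.log_mul hd0 he0]
          push_cast
          ring
        rw [h4]
        rw [mul_div_assoc', ← MeasureTheory.integral_const_mul, ← MeasureTheory.integral_div]
        refine MeasureTheory.integral_congr_ae (Filter.Eventually.of_forall (fun t => ?_))
        simp only
        ring
      have hint2 : ∀ d e : ℕ, MeasureTheory.Integrable (fun t => h t *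
          ((a d * uu l d t) * y.2 (d : ZMod y.1) / d *
            ((b e * uu l e t) * y.2 (e : ZMod y.1) / e))) := by
        intro d e
        have h5 : MeasureTheory.Integrable (fun t => (a d * y.2 (d : ZMod y.1) / d *
            (b e * y.2 (e : ZMod y.1) / e)) * (h t * (uu l d t * uu l e t))) := by
          apply MeasureTheory.Integrable.const_mul
          refine MeasureTheory.Integrable.mono hinth ?_ ?_
          · have := continuous_uu l d
            have := continuous_uu l e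
            exact (by fun_prop : Continuous (fun t => h t * (uu l d t * uu l e t))).aestronglyMeasurable
          · refine Filter.Eventually.of_forall (fun t => ?_)
            rw [norm_mul, norm_mul, norm_uu, norm_uu]
            simp
        refine h5.congr (Filter.Eventually.of_forall (fun t => ?_))
        simp only
        ring
      rw [Finset.sum_congr rfl (fun d hd => Finset.sum_congr rfl (fun e he => h3 d hd e he))]
      rw [Finset.sum_congr rfl (fun d _ =>
        (MeasureTheory.integral_finsetSum (Ioc V N) (fun e _ => hint2 d e)).symm)]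
      rw [← MeasureTheory.integral_finsetSum]
      · refine MeasureTheory.integral_congr_ae (Filter.Eventually.of_forall (fun t => ?_))
        simp only
        unfold FF
        rw [Finset.sum_mul_sum, Finset.mul_sum]
        refine Finset.sum_congr rfl (fun d _ => ?_)
        rw [Finset.mul_sum]
      · intro d _
        exact MeasureTheory.integrable_finsetSum _ (fun e _ => hint2 d e)
    -- the main estimate
    set X : Finset (Σ q : ℕ, DirichletCharacter ℂ q) := (Icc 1 Q).sigma (fun q => prim q) with hX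
    have hF2 : ∀ t, ∑ y ∈ X, ‖FF a l U N y t‖ ^ 2 ≤ (l + 2) * (l + 1) := by
      intro t
      refine (sq_FF_le h1 hQ hU hUN a l 1 (fun n _ => ha1 n) t).trans ?_
      (clear * - hlN hl1 hlN0; nlinarith)
    have hG2 : ∀ t, ∑ y ∈ X, ‖FF b l V N y t‖ ^ 2 ≤ (l + 2) * (l + 1) * l ^ 2 := by
      intro t
      refine (sq_FF_le h1 hQ hV hVN b l l (fun n hn => hb1 n ?_) t).trans ?_
      · rw [Finset.mem_Ioc] at hn
        have : (n : ℝ) ≤ N := by exact_mod_cast hn.2
        (clear * - hNx this; linarith)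
      · have h6 : (Real.log N + 2) * (Real.log N + 1) ≤ (l + 2) * (l + 1) := by (clear * - hlN hl1 hlN0; nlinarith)
        have h7 : (0 : ℝ) ≤ l ^ 2 := by positivity
        (clear * - h6 h7; nlinarith [mul_le_mul_of_nonneg_right h6 h7])
    have hFG : ∀ t, ∑ y ∈ X, ‖FF a l U N y t‖ * ‖FF b l V N y t‖ ≤ 6 * l ^ 3 := by
      intro t
      have h6 := Finset.sum_mul_sq_le_sq_mul_sq X (fun y => ‖FF a l U N y t‖)
        (fun y => ‖FF b l V N y t‖)
      have h7 : (∑ y ∈ X, ‖FF a l U N y t‖ * ‖FF b l V N y t‖) ^ 2 ≤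
          ((l + 2) * (l + 1) * l) ^ 2 := by
        calc _ ≤ _ := h6
          _ ≤ ((l + 2) * (l + 1)) * ((l + 2) * (l + 1) * l ^ 2) :=
              mul_le_mul (hF2 t) (hG2 t) (Finset.sum_nonneg (fun _ _ => by (clear * -; positivity)))
                (by (clear * - hl1; positivity))
          _ = _ := by ring
      have h8 := abs_le_of_sq_le_sq h7 (by (clear * - hl1; positivity))
      refine (le_abs_self _).trans (h8.trans ?_)
      have h9 : (l + 2) * (l + 1) ≤ (3 * l) * (2 * l) := by (clear * - hl1; nlinarith)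
      (clear * - h9 hl1; nlinarith)
    have hintF : ∀ y, MeasureTheory.Integrable
        (fun t => ‖h t‖ * (‖FF a l U N y t‖ * ‖FF b l V N y t‖)) := by
      intro y
      refine MeasureTheory.Integrable.mono' (hint0.mul_const
        ((∑ m ∈ Ioc U N, ‖a m‖ / m) * (∑ m ∈ Ioc V N, ‖b m‖ / m))) ?_ ?_
      · have := continuous_FF a l U N y
        have := continuous_FF b l V N y
        exact (by fun_prop : Continuous (fun t => ‖h t‖ *
          (‖FF a l U N y t‖ * ‖FF b l V N y t‖))).aestronglyMeasurable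
      · refine Filter.Eventually.of_forall (fun t => ?_)
        rw [Real.norm_of_nonneg (by (clear * -; positivity))]
        apply mul_le_mul_of_nonneg_left _ (norm_nonneg _)
        exact mul_le_mul (norm_FF_le _ _ _ _ _ _) (norm_FF_le _ _ _ _ _ _) (norm_nonneg _)
          (Finset.sum_nonneg (fun _ _ => by (clear * -; positivity)))
    have hS : ∑ q ∈ Icc 1 Q, ∑ χ ∈ prim q, ‖SS (a * b : ArithmeticFunction ℂ) g x χ‖ =
        ∑ y ∈ X, ‖SS (a * b : ArithmeticFunction ℂ) g x y.2‖ := by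
      rw [hX, Finset.sum_sigma]
    rw [hS]
    calc ∑ y ∈ X, ‖SS (a * b : ArithmeticFunction ℂ) g x y.2‖
        ≤ ∑ y ∈ X, ∫ t, ‖h t‖ * (‖FF a l U N y t‖ * ‖FF b l V N y t‖) := by
          refine Finset.sum_le_sum (fun y _ => ?_)
          rw [hI y]
          refine (MeasureTheory.norm_integral_le_integral_norm _).trans (le_of_eq ?_)
          refine MeasureTheory.integral_congr_ae (Filter.Eventually.of_forall (fun t => ?_))
          simp only
          rw [norm_mul, norm_mul]
      _ = ∫ t, ∑ y ∈ X, ‖h t‖ * (‖FF a l U N y t‖ * ‖FF b l V N y t‖) :=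
          (MeasureTheory.integral_finsetSum X (fun y _ => hintF y)).symm
      _ ≤ ∫ t, ‖h t‖ * (6 * l ^ 3) := by
          apply MeasureTheory.integral_mono
          · exact MeasureTheory.integrable_finsetSum _ (fun y _ => hintF y)
          · exact hint0.mul_const _
          · intro t
            simp only
            rw [← Finset.mul_sum]
            exact mul_le_mul_of_nonneg_left (hFG t) (norm_nonneg _)
      _ = H * (6 * l ^ 3) := by rw [MeasureTheory.integral_mul_const]
      _ ≤ (6 * H + 1) * l ^ 3 := by (clear * - hl1; nlinarith [pow_nonneg (by linarith : (0 : ℝ) ≤ l) 3])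
  · have hz : ∀ (q : ℕ) (χ : DirichletCharacter ℂ q),
        SS (a * b : ArithmeticFunction ℂ) g x χ = 0 := by
      intro q χ
      rw [hSS]
      rw [not_and_or] at hUV
      rcases hUV with h3 | h3
      · rw [Finset.Ioc_eq_empty (by (clear * - Q V h3; omega)), Finset.sum_empty]
      · refine Finset.sum_eq_zero (fun d _ => ?_)
        rw [Finset.Ioc_eq_empty (by omega), Finset.sum_empty]
    have : ∑ q ∈ Icc 1 Q, ∑ χ ∈ prim q, ‖SS (a * b : ArithmeticFunction ℂ) g x χ‖ = 0 := by
      refine Finset.sum_eq_zero (fun q _ => Finset.sum_eq_zero (fun χ _ => ?_))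
      rw [hz, norm_zero]
    rw [this]
    (clear * - hl1; positivity)

end Pool.Agent.Helper96.BV

end

section

set_option autoImplicit false

open Finset

namespace Pool.Agent.Helper83.MT

open Pool.Agent.Helper1.MT

section Abstract

variable {ι κ : Type} [Fintype ι] [Fintype κ] [DecidableEq ι] [DecidableEq κ]

theorem mem_supp {c : ι → Option κ} {p : ι} : p ∈ supp c ↔ c p ≠ none := by
  unfold supp
  rw [mem_filter]
  exact ⟨fun h => h.2, fun h => ⟨mem_univ _, h⟩⟩

theorem supp_join (c c' : ι → Option κ) : supp (join c c') = supp c ∪ supp c' := by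
  ext p
  rw [mem_union, mem_supp, mem_supp, mem_supp]
  unfold join
  cases hc : c p with
  | none => simp
  | some i => simp

open Classical in
theorem card_pairs_le (S : Finset ι) :
    ((univ : Finset ((ι → Option κ) × (ι → Option κ))).filter
      (fun z => Compat z.1 z.2 ∧ supp (join z.1 z.2) = S)).card ≤ (3 * Fintype.card κ) ^ S.card := by
  have h1 : (Fintype.piFinset (fun p : ι => if p ∈ S then opts κ else
      {((none, none) : Option κ × Option κ)})).card ≤ (3 * Fintype.card κ) ^ S.card := by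
    rw [Fintype.card_piFinset]
    have h2 : ∀ p ∈ (univ : Finset ι), (if p ∈ S then opts κ else
        {((none, none) : Option κ × Option κ)}).card ≤
          if p ∈ S then 3 * Fintype.card κ else 1 := by
      intro p _
      split_ifs
      · exact card_opts_le
      · simp
    refine (Finset.prod_le_prod (fun _ _ => Nat.zero_le _) h2).trans ?_
    rw [Finset.prod_ite]
    simp
  refine le_trans ?_ h1
  apply Finset.card_le_card_of_injOn (fun z p => (z.1 p, z.2 p))
  · intro z hz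
    rw [Finset.mem_coe, Finset.mem_filter] at hz
    rw [Finset.mem_coe, Fintype.mem_piFinset]
    intro p
    obtain ⟨_, hcomp, hS⟩ := hz
    have hp := hcomp p
    have hmem : p ∈ S ↔ (z.1 p ≠ none ∨ z.2 p ≠ none) := by
      rw [← hS, supp_join, mem_union, mem_supp, mem_supp]
    split_ifs with h
    · rw [hmem] at h
      unfold opts
      rw [mem_union, mem_union, mem_image, mem_image, mem_image]
      dsimp only
      cases h1 : z.1 p with
      | none =>
        cases h2 : z.2 p with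
        | none =>
          rw [h1, h2] at h
          simp at h
        | some j => right; left; exact ⟨j, mem_univ _, rfl⟩
      | some i =>
        cases h2 : z.2 p with
        | none => left; exact ⟨i, mem_univ _, rfl⟩
        | some j =>
          right; right
          rw [h1, h2] at hp
          simp at hp
          exact ⟨i, mem_univ _, by rw [hp]⟩
    · rw [hmem] at h
      push Not at h
      rw [mem_singleton]
      dsimp only
      rw [h.1, h.2]
  · intro z _ z' _ h
    ext p : 2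
    · exact congrArg Prod.fst (congrFun h p)
    · exact congrArg Prod.snd (congrFun h p)

open Classical in
theorem sum_pairs_le (G : Finset ι → ℝ) (hG : ∀ S, 0 ≤ G S) :
    ∑ c : ι → Option κ, ∑ c' : ι → Option κ,
      (if Compat c c' then G (supp (join c c')) else 0) ≤
      ∑ S : Finset ι, (3 * Fintype.card κ : ℝ) ^ S.card * G S := by
  rw [← Finset.sum_product']
  rw [show (univ : Finset (ι → Option κ)) ×ˢ (univ : Finset (ι → Option κ)) = univ from
    Finset.univ_product_univ]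
  have h1 : ∀ z : (ι → Option κ) × (ι → Option κ),
      (if Compat z.1 z.2 then G (supp (join z.1 z.2)) else 0) =
      ∑ S : Finset ι, if Compat z.1 z.2 ∧ supp (join z.1 z.2) = S then G S else 0 := by
    intro z
    by_cases hz : Compat z.1 z.2
    · simp [hz]
    · simp [hz]
  rw [Finset.sum_congr rfl (fun z _ => h1 z), Finset.sum_comm]
  apply Finset.sum_le_sum
  intro S _
  rw [← Finset.sum_filter, Finset.sum_const, nsmul_eq_mul]
  apply mul_le_mul_of_nonneg_right _ (hG S)
  have := card_pairs_le (ι := ι) (κ := κ) S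
  calc _ ≤ (((3 * Fintype.card κ) ^ S.card : ℕ) : ℝ) := by exact_mod_cast this
    _ = _ := by push_cast; rfl

end Abstract

end Pool.Agent.Helper83.MT

end

section

set_option autoImplicit false

open Finset

namespace Pool.Agent.Helper28.MT

open Pool.Agent.Helper1.MT

/-- The sum of the weights of the sets of size at most `θ`. -/
noncomputable def FF (R W : ℕ) (θ : ℝ) : ℝ :=
  ∑ S ∈ (univ : Finset (Finset (PS R W))).filter (fun S => T (tp R W) S ≤ θ), ws (wp R W) S

theorem ps_prime {R W : ℕ} (p : PS R W) : (p : ℕ).Prime := by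
  have := p.2
  simp only [PS, mem_filter] at this
  exact this.2.1

theorem ps_not_dvd {R W : ℕ} (p : PS R W) : ¬ (p : ℕ) ∣ W := by
  have := p.2
  simp only [PS, mem_filter] at this
  exact this.2.2

theorem T_eq {R W : ℕ} (S : Finset (PS R W)) :
    T (tp R W) S = Real.log ((∏ p ∈ S, (p : ℕ) : ℕ) : ℝ) / Real.log R := by
  unfold T tp
  rw [← sum_div]
  congr 1
  push_cast
  rw [Real.log_prod]
  intro p _
  exact_mod_cast (ps_prime p).ne_zero

theorem ws_eq {R W : ℕ} (S : Finset (PS R W)) :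
    ws (wp R W) S = 1 / ((∏ p ∈ S, (p : ℕ) : ℕ) : ℝ) := by
  unfold ws wp
  push_cast
  rw [prod_div_distrib, prod_const_one]

theorem T_le_iff {R W : ℕ} (hR : 3 ≤ R) (S : Finset (PS R W)) (θ : ℝ) :
    T (tp R W) S ≤ θ ↔ ((∏ p ∈ S, (p : ℕ) : ℕ) : ℝ) ≤ (R : ℝ) ^ θ := by
  have hR0 : (0 : ℝ) < R := by (clear * - hR; positivity)
  have hlR : 0 < Real.log R := Real.log_pos (by exact_mod_cast (by omega : 1 < R))
  have hP : (0 : ℝ) < ((∏ p ∈ S, (p : ℕ) : ℕ) : ℝ) := by
    exact_mod_cast prod_pos fun p _ => (ps_prime p).pos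
  rw [T_eq, div_le_iff₀ hlR, ← Real.log_rpow hR0,
    Real.log_le_log_iff hP (Real.rpow_pos_of_pos hR0 θ)]

/-- The primes dividing `d`. -/
def dv (R W d : ℕ) : Finset (PS R W) := univ.filter (fun p : PS R W => (p : ℕ) ∣ d)

theorem mem_dv {R W d : ℕ} {p : PS R W} : p ∈ dv R W d ↔ (p : ℕ) ∣ d := by
  simp [dv]

theorem FF_eq {R W : ℕ} (hR : 3 ≤ R) {θ : ℝ} (hθ : θ ≤ 1) :
    FF R W θ = ∑ d ∈ (Icc 1 ⌊(R : ℝ) ^ θ⌋₊).filter (fun d => Squarefree d ∧ d.Coprime W),
      1 / (d : ℝ) := by
  classical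
  unfold FF
  have hR1 : (1 : ℝ) ≤ R := by exact_mod_cast (by omega : 1 ≤ R)
  have key : ∀ d : ℕ, d ∈ (Icc 1 ⌊(R : ℝ) ^ θ⌋₊).filter
      (fun d => Squarefree d ∧ d.Coprime W) →
      ∏ p ∈ dv R W d, (p : ℕ) = d := by
    intro d hd
    rw [mem_filter, mem_Icc] at hd
    obtain ⟨⟨h1, h2⟩, h3, h4⟩ := hd
    have hdR : d ≤ R := by
      have h5 : (d : ℝ) ≤ (R : ℝ) ^ θ := (Nat.le_floor_iff (by (clear * - hR; positivity))).1 h2
      have h6 : (R : ℝ) ^ θ ≤ (R : ℝ) ^ (1 : ℝ) := Real.rpow_le_rpow_of_exponent_le hR1 hθ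
      rw [Real.rpow_one] at h6
      exact_mod_cast h5.trans h6
    have h7 : ∏ p ∈ dv R W d, (p : ℕ) = ∏ p ∈ d.primeFactors, p := by
      refine prod_bij (fun (p : PS R W) _ => (p : ℕ)) ?_ ?_ ?_ ?_
      · intro p hp
        rw [mem_dv] at hp
        rw [Nat.mem_primeFactors]
        exact ⟨ps_prime p, hp, by omega⟩
      · intro p _ q _ h
        exact Subtype.ext h
      · intro q hq
        rw [Nat.mem_primeFactors] at hq
        have hqR : q ≤ R := (Nat.le_of_dvd (by omega) hq.2.1).trans hdR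
        have hqW : ¬ q ∣ W := by
          intro h
          have h8 := Nat.dvd_gcd hq.2.1 h
          rw [h4] at h8
          exact hq.1.one_lt.ne' (Nat.dvd_one.1 h8)
        refine ⟨⟨q, ?_⟩, ?_, rfl⟩
        · simp only [PS, mem_filter, mem_range]
          exact ⟨by omega, hq.1, hqW⟩
        · rw [mem_dv]
          exact hq.2.1
      · intro p _
        rfl
    rw [h7]
    exact Nat.prod_primeFactors_of_squarefree h3
  refine sum_bij' (fun S _ => ∏ p ∈ S, (p : ℕ))
    (fun d _ => dv R W d) ?_ ?_ ?_ ?_ ?_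
  · intro S hS
    rw [mem_filter] at hS
    have h1 := (T_le_iff hR S θ).1 hS.2
    rw [mem_filter, mem_Icc]
    refine ⟨⟨?_, ?_⟩, ?_, ?_⟩
    · exact Nat.one_le_iff_ne_zero.2 (prod_ne_zero_iff.2 fun p _ => (ps_prime p).ne_zero)
    · exact Nat.le_floor h1
    · apply Finset.squarefree_prod_of_pairwise_isCoprime
      · intro p _ q _ hpq
        show IsRelPrime (p : ℕ) (q : ℕ)
        rw [← Nat.coprime_iff_isRelPrime]
        exact (Nat.coprime_primes (ps_prime p) (ps_prime q)).2 fun h => hpq (Subtype.ext h)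
      · intro p _
        exact (ps_prime p).prime.squarefree
    · apply Nat.Coprime.prod_left
      intro p _
      exact ((ps_prime p).coprime_iff_not_dvd).2 (ps_not_dvd p)
  · intro d hd
    have h1 := key d hd
    rw [mem_filter]
    refine ⟨mem_univ _, ?_⟩
    rw [T_le_iff hR, h1]
    rw [mem_filter, mem_Icc] at hd
    exact (Nat.le_floor_iff (by (clear * - hR; positivity))).1 hd.1.2
  · intro S _
    ext p
    rw [mem_dv]
    constructor
    · intro h
      rw [(ps_prime p).prime.dvd_finsetProd_iff] at h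
      obtain ⟨q, hq, hpq⟩ := h
      have : p = q := Subtype.ext ((Nat.prime_dvd_prime_iff_eq (ps_prime p) (ps_prime q)).1 hpq)
      rw [this]
      exact hq
    · intro hp
      exact dvd_prod_of_mem _ hp
  · intro d hd
    exact key d hd
  · intro S _
    exact ws_eq S

/-- Sums of step functions. -/
theorem sum_step {R W : ℕ} (κ : ℝ) (J : ℕ) (a : ℕ → ℝ) (b : ℝ) :
    ∑ S : Finset (PS R W), ((∑ j ∈ range J, if T (tp R W) S ≤ 2 ^ j / κ then a j else 0) +
      if T (tp R W) S ≤ 2 ^ J / κ then b else 0) * ws (wp R W) S =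
      ∑ j ∈ range J, a j * FF R W (2 ^ j / κ) + b * FF R W (2 ^ J / κ) := by
  have h1 : ∀ (θ c : ℝ), ∑ S : Finset (PS R W), (if T (tp R W) S ≤ θ then c else 0) *
      ws (wp R W) S = c * FF R W θ := by
    intro θ c
    unfold FF
    rw [mul_sum, sum_filter]
    apply sum_congr rfl
    intro S _
    split_ifs <;> ring
  simp only [add_mul, sum_add_distrib, sum_mul]
  rw [h1, sum_comm]
  congr 1
  apply sum_congr rfl
  intro j _
  exact h1 _ _

theorem gam_eq {R W : ℕ} (K J : ℕ) (S : Finset (PS R W)) :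
    gam K J S = gJ (Kp K J) J (T (tp R W) S) := rfl

/-- The sum of the squares of the weights. -/
theorem sq_le {R W D0 : ℕ} (hD : 2 ≤ D0) (h : ∀ p : ℕ, p.Prime → p < D0 → p ∣ W) :
    ∑ p : PS R W, wp R W p ^ 2 ≤ 2 / D0 := by
  have hD' : (2 : ℝ) ≤ D0 := by exact_mod_cast hD
  have h1 : ∀ n : ℕ, D0 ≤ n → ∑ k ∈ Ico D0 n, (1 / (k : ℝ)) ^ 2 ≤
      1 / ((D0 : ℝ) - 1) - 1 / ((n : ℝ) - 1) := by
    intro n hn
    induction n, hn using Nat.le_induction with
    | base => simp
    | succ n hn ih =>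
      rw [sum_Ico_succ_top hn]
      have hn' : (2 : ℝ) ≤ n := by exact_mod_cast hD.trans hn
      have h2 : (1 / (n : ℝ)) ^ 2 ≤ 1 / ((n : ℝ) - 1) - 1 / (((n + 1 : ℕ) : ℝ) - 1) := by
        push_cast
        have h3 : 1 / ((n : ℝ) - 1) - 1 / ((n : ℝ) + 1 - 1) = 1 / (((n : ℝ) - 1) * n) := by
          have h4 : (n : ℝ) - 1 ≠ 0 := by (clear * - hn'; linarith)
          have h5 : (n : ℝ) ≠ 0 := by (clear * - hn'; linarith)
          rw [add_sub_cancel_right, div_sub_div _ _ h4 h5]
          congr 1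
          ring
        rw [h3, div_pow, one_pow]
        apply div_le_div_of_nonneg_left (by norm_num)
        · exact mul_pos (by (clear * - hn'; linarith)) (by (clear * - hn'; linarith))
        · (clear * - hn'; nlinarith)
      linarith
  have h2 : ∑ p : PS R W, wp R W p ^ 2 ≤ ∑ k ∈ Ico D0 (max D0 (R + 1)), (1 / (k : ℝ)) ^ 2 := by
    have h3 : ∑ p : PS R W, wp R W p ^ 2 = ∑ p ∈ PS R W, (1 / (p : ℝ)) ^ 2 := by
      rw [← sum_coe_sort (PS R W)]
      rfl
    rw [h3]
    apply sum_le_sum_of_subset_of_nonneg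
    · intro p hp
      rw [mem_Ico]
      simp only [PS, mem_filter, mem_range] at hp
      constructor
      · by_contra hlt
        exact hp.2.2 (h p hp.2.1 (not_le.1 hlt))
      · exact lt_of_lt_of_le hp.1 (le_max_right _ _)
    · intro k _ _
      (clear * -; positivity)
  have h4 := h1 (max D0 (R + 1)) (le_max_left _ _)
  have h5 : (2 : ℝ) ≤ ((max D0 (R + 1) : ℕ) : ℝ) := by exact_mod_cast hD.trans (le_max_left _ _)
  have h6 : 0 ≤ 1 / (((max D0 (R + 1) : ℕ) : ℝ) - 1) := by
    apply div_nonneg (by norm_num)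
    (clear * - h5; linarith)
  have h7 : 1 / ((D0 : ℝ) - 1) ≤ 2 / D0 := by
    rw [div_le_div_iff₀ (by (clear * - hD'; linarith)) (by (clear * - hD'; linarith))]
    (clear * - hD'; linarith)
  (clear * - h2 h4 h6 h7; linarith)

theorem good {K J D0 W R : ℕ} (hK : 0 < K) (hJ : 10 * 2 ^ J ≤ 8 * K * (J + 2))
    (hD : (K + 2) ^ 10 ≤ D0) (h : ∀ p : ℕ, p.Prime → p < D0 → p ∣ W) :
    Good K (wp R W) (tp R W) (gam K J) (2 ^ J / Kp K J) (2 / D0) := by
  have hκ : 0 < Kp K J := by unfold Kp; (clear * - hK; positivity)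
  have hD2 : 6561 * (K + 2) ^ 2 ≤ D0 := D0_ge hK hD
  clear hD
  have hD3 : (6561 : ℝ) * ((K : ℝ) + 2) ^ 2 ≤ D0 := by exact_mod_cast hD2
  have hK0 : (1 : ℝ) ≤ K := by exact_mod_cast hK
  have hD4 : (0 : ℝ) < D0 := by (clear * - hD3 hK0; nlinarith)
  have hpD : ∀ p : PS R W, (D0 : ℝ) ≤ ((p : ℕ) : ℝ) := by
    intro p
    by_contra hlt
    rw [not_le] at hlt
    exact ps_not_dvd p (h p (ps_prime p) (by exact_mod_cast hlt))
  have htp : ∀ p : PS R W, 0 ≤ tp R W p := by
    intro p
    unfold tp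
    exact div_nonneg (Real.log_natCast_nonneg _) (Real.log_natCast_nonneg _)
  have hT : ∀ S S' : Finset (PS R W), S ⊆ S' → T (tp R W) S ≤ T (tp R W) S' := by
    intro S S' hS
    exact sum_le_sum_of_subset_of_nonneg hS fun p _ _ => htp p
  refine ⟨?_, ?_, htp, ?_, ?_, ?_, ?_, ?_, ?_, ?_, ?_⟩
  · intro p
    unfold wp
    (clear * -; positivity)
  · intro p
    unfold wp
    have h1 := hpD p
    rw [mul_one_div, div_le_one (by (clear * - hD4 h1; linarith))]
    (clear * - hD3 hK0 h1; nlinarith)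
  · intro S
    rw [gam_eq]
    exact gJ_nonneg _ _ _
  · intro S
    rw [gam_eq]
    exact gJ_le hκ _ _
  · intro S S' hS
    rw [gam_eq, gam_eq]
    exact gJ_anti _ _ (hT S S' hS)
  · intro S hS
    rw [gam_eq] at hS
    exact gJ_supp hκ hS
  · apply sq_le _ h
    (clear * - hK hD2; nlinarith)
  · rw [← mul_div_assoc, div_le_one hD4]
    (clear * - hD3 hK0; nlinarith)
  · positivity
  · have h1 : (10 : ℝ) * 2 ^ J ≤ 8 * K * (J + 2) := by exact_mod_cast hJ
    unfold Kp at *
    rw [div_le_div_iff₀ hκ (by norm_num)]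
    (clear * - h1; linarith)

end Pool.Agent.Helper28.MT

end

section

set_option autoImplicit false

open Finset

namespace Pool.Agent.Helper81.MT

open Pool.Agent.Helper1.MT Pool.Agent.Helper28.MT

/-- The one-dimensional sums, from the sum over the squarefree integers. -/
theorem core {K J D0 W R : ℕ} (hK : 0 < K) (hJ : 10 * 2 ^ J ≤ 8 * K * (J + 2))
    (hD : (K + 2) ^ 10 ≤ D0) (hp : ∀ p : ℕ, p.Prime → p < D0 → p ∣ W) (hR3 : 3 ≤ R) {c C : ℝ}
    (hC : 0 < C)
    (hS : ∀ z : ℝ, 1 ≤ z →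
      |∑ d ∈ (Icc 1 ⌊z⌋₊).filter (fun d => Squarefree d ∧ d.Coprime W), 1 / (d : ℝ) -
        c * Real.log z| ≤ C)
    (hlog : 10 * Kp K J * C ≤ c * Real.log R) :
      Good K (wp R W) (tp R W) (gam K J) (2 ^ J / Kp K J) (2 / D0) ∧
      ((K : ℝ) - 1) * M1 (wp R W) (tp R W) (gam K J) ≤
        1 / 10 * (1 - 2 ^ J / Kp K J) * B1 (wp R W) (gam K J) ∧
      9 / 10 * (J + 2 : ℝ) / (2 * Kp K J) * (c * Real.log R) ≤ A1 (wp R W) (gam K J) ∧
      A1 (wp R W) (gam K J) ≤ 11 / 10 * (J + 2 : ℝ) / (2 * Kp K J) * (c * Real.log R) ∧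
      9 / 10 / Kp K J * (c * Real.log R) ≤ B1 (wp R W) (gam K J) ∧
      B1 (wp R W) (gam K J) ≤ 16 / 10 / Kp K J * (c * Real.log R) ∧
      9 / 10 * (c * Real.log R) ≤ V0 (wp R W) (tp R W) := by
  have hκ : 0 < Kp K J := by unfold Kp; (clear * - hK; positivity)
  have hK0 : (1 : ℝ) ≤ K := by exact_mod_cast hK
  have hκ1 : 1 ≤ Kp K J := by
    unfold Kp
    have : (0 : ℝ) ≤ J := by (clear * -; positivity)
    (clear * - hK0; nlinarith)
  have hR0 : (0 : ℝ) < R := by positivity
  set L := c * Real.log R with hL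
  set κ := Kp K J with hκd
  have hCL : C ≤ 1 / 10 * (L / κ) := by
    have : 1 / 10 * (L / κ) = L / (10 * κ) := by field_simp
    rw [this, le_div_iff₀ (by positivity)]
    (clear * - hlog; linarith)
  have hLκ : 0 < L / κ := by (clear * - hC hCL; linarith)
  have hL0 : 0 < L := by
    have := mul_pos hLκ hκ
    rwa [div_mul_cancel₀ _ hκ.ne'] at this
  have hG := good (R := R) hK hJ hD hp
  have hθ : (2 : ℝ) ^ J / κ ≤ 1 / 10 := hG.tau_le
  have hFF : ∀ θ : ℝ, 0 ≤ θ → θ ≤ 1 → |FF R W θ - θ * L| ≤ C := by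
    intro θ h0 h1
    rw [FF_eq hR3 h1]
    have h2 := hS ((R : ℝ) ^ θ) (Real.one_le_rpow (by exact_mod_cast (by omega : 1 ≤ R)) h0)
    rw [Real.log_rpow hR0] at h2
    have h3 : θ * L = c * (θ * Real.log R) := by rw [hL]; ring
    rw [h3]
    exact h2
  have hFj : ∀ j ≤ J, |FF R W (2 ^ j / κ) - 2 ^ j / κ * L| ≤ C := by
    intro j hj
    exact hFF _ (by positivity) ((thr_mono hκ hj).trans (hθ.trans (by norm_num)))
  -- the sum A1
  have hA : |A1 (wp R W) (gam K J) - ((J : ℝ) + 2) / (2 * κ) * L| ≤ C := by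
    have h1 : A1 (wp R W) (gam K J) = ∑ j ∈ range J, (1 / 2 : ℝ) ^ (j + 1) * FF R W (2 ^ j / κ) +
        (1 / 2) ^ J * FF R W (2 ^ J / κ) := by
      rw [← sum_step]
      rfl
    have h2 := lin_err (κ := κ) J (FF R W) hFj (fun j => (1 / 2 : ℝ) ^ (j + 1)) ((1 / 2) ^ J)
      (fun j => by positivity) (by positivity)
    rw [sum_mainA, sum_half, one_mul] at h2
    rw [h1]
    exact h2
  have hB : |B1 (wp R W) (gam K J) - (3 / 2 - (1 / 2) * (1 / 2) ^ J) / κ * L| ≤ C := by
    have h1 : B1 (wp R W) (gam K J) =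
        ∑ j ∈ range J, ((3 / 4 : ℝ) * (1 / 4) ^ j) * FF R W (2 ^ j / κ) +
        (1 / 4) ^ J * FF R W (2 ^ J / κ) := by
      rw [← sum_step]
      unfold B1
      apply sum_congr rfl
      intro S _
      rw [gam_eq, gJ_sq hκ]
      rfl
    have h2 := lin_err (κ := κ) J (FF R W) hFj (fun j => (3 / 4 : ℝ) * (1 / 4) ^ j) ((1 / 4) ^ J)
      (fun j => by positivity) (by positivity)
    rw [sum_mainB, sum_quarter, one_mul] at h2
    rw [h1]
    exact h2
  have hAm : ((J : ℝ) + 2) / (2 * κ) * L = ((J : ℝ) + 2) / 2 * (L / κ) := by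
    (clear * - hL0 hκ; field_simp)
  have hBm : (3 / 2 - (1 / 2) * (1 / 2) ^ J) / κ * L = (3 / 2 - (1 / 2) * (1 / 2 : ℝ) ^ J) * (L / κ) := by
    (clear * - hL0 hκ; field_simp)
  have hJ0 : (0 : ℝ) ≤ J := by positivity
  have hhalf : (0 : ℝ) ≤ (1 / 2) ^ J := by positivity
  have hhalf1 : (1 / 2 : ℝ) ^ J ≤ 1 := pow_le_one₀ (by norm_num) (by norm_num)
  rw [abs_le, hAm] at hA
  rw [abs_le, hBm] at hB
  have hAu : A1 (wp R W) (gam K J) ≤ 11 / 10 * ((J : ℝ) + 2) / 2 * (L / κ) := by nlinarith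
  have hAl : 9 / 10 * ((J : ℝ) + 2) / 2 * (L / κ) ≤ A1 (wp R W) (gam K J) := by nlinarith
  have hBl : 9 / 10 * (L / κ) ≤ B1 (wp R W) (gam K J) := by (clear * - hCL hB hC hhalf1; nlinarith)
  have hBu : B1 (wp R W) (gam K J) ≤ 16 / 10 * (L / κ) := by (clear * - hCL hB hC hhalf; nlinarith)
  have hM : M1 (wp R W) (tp R W) (gam K J) ≤ A1 (wp R W) (gam K J) * (1 / κ) := by
    unfold M1 A1
    rw [sum_mul]
    apply sum_le_sum
    intro S _
    have h1 : gam K J S * T (tp R W) S ≤ 1 / κ := by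
      rw [gam_eq]
      exact gJ_mul hκ _ _
    have h2 : 0 ≤ gam K J S * ws (wp R W) S := by
      apply mul_nonneg (hG.g_nonneg S)
      unfold ws
      exact prod_nonneg fun p _ => hG.w_nonneg p
    calc gam K J S ^ 2 * T (tp R W) S * ws (wp R W) S =
          (gam K J S * ws (wp R W) S) * (gam K J S * T (tp R W) S) := by ring
      _ ≤ (gam K J S * ws (wp R W) S) * (1 / κ) := mul_le_mul_of_nonneg_left h1 h2
      _ = gam K J S * ws (wp R W) S * (1 / κ) := by ring
  refine ⟨hG, ?_, ?_, ?_, ?_, ?_, ?_⟩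
  · have hκe : κ = 8 * (K : ℝ) * (J + 2) := rfl
    have h1 : ((K : ℝ) - 1) * M1 (wp R W) (tp R W) (gam K J) ≤
        ((K : ℝ) - 1) * (A1 (wp R W) (gam K J) * (1 / κ)) :=
      mul_le_mul_of_nonneg_left hM (by (clear * - hK0; linarith))
    have hA0 : 0 ≤ A1 (wp R W) (gam K J) := le_trans (by (clear * - hL0 hκ; positivity)) hAl
    have h2 : ((K : ℝ) - 1) * (A1 (wp R W) (gam K J) * (1 / κ)) ≤
        K * (A1 (wp R W) (gam K J) * (1 / κ)) := by
      apply mul_le_mul_of_nonneg_right (by (clear * -; linarith))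
      (clear * - hA0 hκ; positivity)
    have h3 : (K : ℝ) * (A1 (wp R W) (gam K J) * (1 / κ)) ≤
        K * ((11 / 10 * ((J : ℝ) + 2) / 2 * (L / κ)) * (1 / κ)) := by
      apply mul_le_mul_of_nonneg_left _ (by (clear * - hK0; linarith))
      exact mul_le_mul_of_nonneg_right hAu (by positivity)
    have h4 : (K : ℝ) * ((11 / 10 * ((J : ℝ) + 2) / 2 * (L / κ)) * (1 / κ)) =
        11 / 160 * (L / κ) := by
      have h5 : (K : ℝ) * ((J : ℝ) + 2) * (1 / κ) = 1 / 8 := by
        rw [hκe]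
        have : (K : ℝ) ≠ 0 := by (clear * - hK0; linarith)
        have : (J : ℝ) + 2 ≠ 0 := by (clear * -; linarith)
        field_simp
      calc (K : ℝ) * ((11 / 10 * ((J : ℝ) + 2) / 2 * (L / κ)) * (1 / κ)) =
          11 / 20 * (L / κ) * ((K : ℝ) * ((J : ℝ) + 2) * (1 / κ)) := by ring
        _ = 11 / 160 * (L / κ) := by rw [h5]; ring
    have h5 : (1 / 10 : ℝ) * (9 / 10) * (9 / 10 * (L / κ)) ≤
        1 / 10 * (1 - 2 ^ J / κ) * B1 (wp R W) (gam K J) := by
      apply mul_le_mul _ hBl (by (clear * - hL0 hκ; positivity))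
      · (clear * - hθ; nlinarith)
      · (clear * - hθ; nlinarith)
    (clear * - hC hCL h1 h2 h3 h4 h5; linarith)
  · calc 9 / 10 * ((J : ℝ) + 2) / (2 * κ) * L = 9 / 10 * ((J : ℝ) + 2) / 2 * (L / κ) := by
          (clear * - hL0 hκ; field_simp)
      _ ≤ _ := hAl
  · calc A1 (wp R W) (gam K J) ≤ 11 / 10 * ((J : ℝ) + 2) / 2 * (L / κ) := hAu
      _ = 11 / 10 * ((J : ℝ) + 2) / (2 * κ) * L := by (clear * - hκ hL0; field_simp)
  · calc 9 / 10 / κ * L = 9 / 10 * (L / κ) := by field_simp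
      _ ≤ _ := hBl
  · calc B1 (wp R W) (gam K J) ≤ 16 / 10 * (L / κ) := hBu
      _ = 16 / 10 / κ * L := by (clear * - hκ hL0; field_simp)
  · have h1 := hFF 1 (by norm_num) le_rfl
    rw [abs_le, one_mul] at h1
    have h2 : V0 (wp R W) (tp R W) = FF R W 1 := rfl
    rw [h2]
    have h3 : L / κ ≤ L := div_le_self hL0.le hκ1
    (clear * - hCL h1 h3; linarith)

end Pool.Agent.Helper81.MT

end
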