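import Pool.Agent.Helper23.MT.L00_abcd0
import Pool.Agent.Helper23.MT.L00_acd0
import Pool.Agent.Helper23.MT.L00_acd1
import Pool.Agent.Helper23.MT.L00_acd3
import Pool.Agent.Helper23.MT.L00_acd4
import Pool.Agent.Helper23.MT.L00_acd5

/-!
Parts of Helper1.MT.Defs, Helper1.MT.Bounds, Helper87.MT.Tuple, Helper90.MT.Common, Helper9.MT.Gram, Helper46.MT.Expand, Helper12.MT.Star, Helper44.BV.Mass, Helper18.BV.Vaughan, Helper85.BV.LUpper, Helper30.BV.LComplex, Helper79.BV.Near, Helper96.BV.TLS, Helper83.MT.Comb, Helper83.MT.Ana, Helper83.MT.Crt, Helper83.MT.Wt, Helper18.BV.Assemble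
-/

namespace Pool.Agent.Helper1.MT
end Pool.Agent.Helper1.MT
namespace Pool.Agent.Helper18.BV
end Pool.Agent.Helper18.BV

section

set_option autoImplicit false

open Finset

open scoped ArithmeticFunction.vonMangoldt

namespace Pool.Agent.Helper1.MT

open Pool.Agent.Helper18.BV (wt IsWt)

section Abstract

variable {ι κ : Type} [Fintype ι] [Fintype κ] [DecidableEq ι] [DecidableEq κ]

/-- Local probabilities without the colour `m`. -/
def prm (m : κ) (w : ℝ) : Option κ → ℝ
  | none => 1 - ((Fintype.card κ : ℝ) - 1) * w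
  | some i => if i = m then 0 else w

end Abstract

/-- MT-G2: lower bound for the quadratic form over primes. -/
def GramLower : Prop :=
  ∀ (ι κ : Type) [Fintype ι] [Fintype κ] [DecidableEq ι] [DecidableEq κ] (w w' : ι → ℝ) (m : κ)
    (y : (ι → Option κ) → ℝ), (∀ p, 0 ≤ w' p) → (∀ p, Fintype.card κ * w' p ≤ 1) →
    ∑ c ∈ univ.filter (fun c : ι → Option κ => cls c m = ∅),
      (∏ p ∈ supp c, w' p * (1 - ((Fintype.card κ : ℝ) - 1) * w' p)) * ym m w w' y c ^ 2 ≤
      Qf (fun p => prm m (w' p)) (lam w y)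

end Pool.Agent.Helper1.MT

end

section

set_option autoImplicit false

open Finset Filter

open scoped ArithmeticFunction.vonMangoldt

namespace Pool.Agent.Helper1.MT

theorem NS_gt {x : ℝ} {W v n : ℕ} (h : n ∈ NS x W v) (hx : 1 ≤ x) : lev x < n := by
  unfold NS at h
  rw [mem_filter, mem_Ioc] at h
  refine lt_of_le_of_lt ?_ h.1.1
  exact Nat.floor_le_floor (Real.rpow_le_rpow_of_exponent_le hx (by norm_num))

end Pool.Agent.Helper1.MT

end

section

set_option autoImplicit false

open Finset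

namespace Pool.Agent.Helper87.MT

open Pool.Agent.Helper1.MT

theorem tupleSum : TupleSum := by
  intro ι κ _ _ _ _ G hG
  have hinj : Function.Injective (fun (c : ι → Option κ) (i : κ) => cls c i) := by
    intro c c' h
    funext p
    apply Option.ext
    intro i
    have h1 : cls c i = cls c' i := congrFun h i
    have h2 : p ∈ cls c i ↔ p ∈ cls c' i := by rw [h1]
    simpa [cls] using h2
  rw [prod_univ_sum, Fintype.piFinset_univ]
  calc ∑ c : ι → Option κ, ∏ i, G i (cls c i)
      = ∑ f ∈ univ.map ⟨fun (c : ι → Option κ) (i : κ) => cls c i, hinj⟩, ∏ i, G i (f i) := by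
        rw [sum_map]
        rfl
    _ ≤ ∑ f : κ → Finset ι, ∏ i, G i (f i) :=
        sum_le_sum_of_subset_of_nonneg (subset_univ _) fun f _ _ =>
          prod_nonneg fun i _ => hG i (f i)

end Pool.Agent.Helper87.MT

end

section

set_option autoImplicit false

open Finset

namespace Pool.Agent.Helper90.MT

open Pool.Agent.Helper1.MT

variable {ι κ : Type} [Fintype ι] [Fintype κ] [DecidableEq ι] [DecidableEq κ]

/-- The sum over the supersets of `U`. -/
theorem superSum {w : ι → ℝ} (hw : ∀ p, 0 ≤ w p) {G : Finset ι → ℝ} (hG : ∀ S, 0 ≤ G S)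
    (hanti : ∀ S S', S ⊆ S' → G S' ≤ G S) (U : Finset ι) :
    ∑ S ∈ univ.filter (fun S : Finset ι => U ⊆ S), G S * ws w S ≤
      ws w U * ∑ S : Finset ι, G S * ws w S := by
  have h1 : ∀ S ∈ univ.filter (fun S : Finset ι => U ⊆ S), G S * ws w S ≤
      ws w U * (G (S \ U) * ws w (S \ U)) := by
    intro S hS
    have hU : U ⊆ S := (Finset.mem_filter.1 hS).2
    have h2 : ws w S = ws w U * ws w (S \ U) := by
      unfold ws
      rw [mul_comm, Finset.prod_sdiff hU]
    rw [h2]
    have h3 := hanti (S \ U) S Finset.sdiff_subset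
    calc G S * (ws w U * ws w (S \ U)) ≤ G (S \ U) * (ws w U * ws w (S \ U)) :=
          mul_le_mul_of_nonneg_right h3 (mul_nonneg (ws_nonneg hw _) (ws_nonneg hw _))
      _ = _ := by ring
  refine (Finset.sum_le_sum h1).trans ?_
  rw [← Finset.mul_sum]
  refine mul_le_mul_of_nonneg_left ?_ (ws_nonneg hw _)
  have hinj : Set.InjOn (fun S : Finset ι => S \ U)
      (univ.filter (fun S : Finset ι => U ⊆ S) : Finset (Finset ι)) := by
    intro S hS S' hS' h
    have h4 : U ⊆ S := by simpa using hS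
    have h5 : U ⊆ S' := by simpa using hS'
    have h6 : S \ U = S' \ U := h
    rw [← Finset.sdiff_union_of_subset h4, h6, Finset.sdiff_union_of_subset h5]
  rw [← Finset.sum_image (f := fun S => G S * ws w S) hinj]
  exact Finset.sum_le_sum_of_subset_of_nonneg (Finset.subset_univ _)
    fun S _ _ => mul_nonneg (hG S) (ws_nonneg hw S)

/-- The sum over the sets which contain `p`. -/
theorem memSum {w : ι → ℝ} (hw : ∀ p, 0 ≤ w p) {G : Finset ι → ℝ} (hG : ∀ S, 0 ≤ G S)
    (hanti : ∀ S S', S ⊆ S' → G S' ≤ G S) (p : ι) :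
    ∑ S : Finset ι, (if p ∈ S then G S * ws w S else 0) ≤
      w p * ∑ S : Finset ι, G S * ws w S := by
  have h := superSum hw hG hanti {p}
  rw [← Finset.sum_filter]
  have h1 : ws w {p} = w p := by simp [ws]
  rw [h1] at h
  refine le_trans (le_of_eq ?_) h
  refine Finset.sum_congr ?_ fun _ _ => rfl
  ext S
  simp

/-- `∑_S G(S) w(S) ∑_{p ∈ S} w(p) ≤ (∑ w²) ∑_S G(S) w(S)`. -/
theorem sumSum {w : ι → ℝ} (hw : ∀ p, 0 ≤ w p) {G : Finset ι → ℝ} (hG : ∀ S, 0 ≤ G S)
    (hanti : ∀ S S', S ⊆ S' → G S' ≤ G S) :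
    ∑ S : Finset ι, G S * ws w S * ∑ p ∈ S, w p ≤
      (∑ p, w p ^ 2) * ∑ S : Finset ι, G S * ws w S := by
  have h1 : ∀ S : Finset ι, G S * ws w S * ∑ p ∈ S, w p =
      ∑ p, w p * (if p ∈ S then G S * ws w S else 0) := by
    intro S
    rw [Finset.mul_sum, ← Finset.sum_filter_add_sum_filter_not univ (fun p => p ∈ S)]
    rw [Finset.sum_eq_zero (s := univ.filter fun p => p ∉ S), add_zero]
    · have h2 : univ.filter (fun p => p ∈ S) = S := by ext p; simp
      rw [h2]
      refine Finset.sum_congr rfl fun p hp => ?_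
      rw [if_pos hp]
      ring
    · intro p hp
      rw [if_neg (Finset.mem_filter.1 hp).2, mul_zero]
  simp only [h1]
  rw [Finset.sum_comm, Finset.sum_mul]
  refine Finset.sum_le_sum fun p _ => ?_
  rw [← Finset.mul_sum]
  calc w p * ∑ S : Finset ι, (if p ∈ S then G S * ws w S else 0)
      ≤ w p * (w p * ∑ S : Finset ι, G S * ws w S) :=
        mul_le_mul_of_nonneg_left (memSum hw hG hanti p) (hw p)
    _ = _ := by ring

theorem cls_ofT {f : κ → Finset ι} (hf : ∀ i j, i ≠ j → Disjoint (f i) (f j)) (i : κ) :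
    cls (ofT f) i = f i := by
  ext p
  rw [mem_cls]
  unfold ofT
  constructor
  · intro h
    split_ifs at h with h1
    · have h2 := h1.choose_spec
      rw [Option.some.inj h] at h2
      exact h2
  · intro h
    have h1 : ∃ i, p ∈ f i := ⟨i, h⟩
    rw [dif_pos h1]
    congr 1
    by_contra hne
    exact (Finset.disjoint_left.1 (hf _ _ hne) h1.choose_spec) h

/-- Sums over tuples of disjoint sets are at most sums over colourings. -/
theorem le_tuple {F : (κ → Finset ι) → ℝ} (hF : ∀ f, 0 ≤ F f)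
    [DecidablePred fun f : κ → Finset ι => ∀ i j, i ≠ j → Disjoint (f i) (f j)] :
    ∑ f ∈ univ.filter (fun f : κ → Finset ι => ∀ i j, i ≠ j → Disjoint (f i) (f j)), F f ≤
      ∑ c : ι → Option κ, F (fun i => cls c i) := by
  have h1 : ∀ f ∈ univ.filter (fun f : κ → Finset ι => ∀ i j, i ≠ j → Disjoint (f i) (f j)),
      F f = F (fun i => cls (ofT f) i) := by
    intro f hf
    congr 1
    funext i
    exact (cls_ofT (Finset.mem_filter.1 hf).2 i).symm
  rw [Finset.sum_congr rfl h1]
  have hinj : Set.InjOn (fun f : κ → Finset ι => (ofT f : ι → Option κ))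
      (univ.filter (fun f : κ → Finset ι => ∀ i j, i ≠ j → Disjoint (f i) (f j)) :
        Finset (κ → Finset ι)) := by
    intro f hf f' hf' h
    have h2 : ∀ i j, i ≠ j → Disjoint (f i) (f j) := by simpa using hf
    have h3 : ∀ i j, i ≠ j → Disjoint (f' i) (f' j) := by simpa using hf'
    have h4 : (ofT f : ι → Option κ) = ofT f' := h
    funext i
    rw [← cls_ofT h2 i, h4, cls_ofT h3 i]
  rw [← Finset.sum_image (g := fun f : κ → Finset ι => (ofT f : ι → Option κ))
    (f := fun c : ι → Option κ => F (fun i => cls c i)) hinj]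
  exact Finset.sum_le_sum_of_subset_of_nonneg (Finset.subset_univ _) fun c _ _ => hF _

end Pool.Agent.Helper90.MT

end

section

set_option autoImplicit false

open Finset

namespace Pool.Agent.Helper9.MT

open Pool.Agent.Helper1.MT

section Local

variable {ι κ : Type} [Fintype ι] [Fintype κ] [DecidableEq ι] [DecidableEq κ]

theorem ker_none (m : κ) (w w' : ℝ) (b : Option κ → ℝ) :
    ∑ a, ker m w w' none a * b a =
      b none - w * ∑ i, b (some i) + w' * ∑ i ∈ univ.filter (fun i => i ≠ m), b (some i) := by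
  rw [Fintype.sum_option]
  simp only [ker]
  have h : ∀ x : κ, (if x = m then -w else w' - w) * b (some x) =
      -(w * b (some x)) + w' * (if x ≠ m then b (some x) else 0) := by
    intro x
    by_cases hx : x = m
    · simp [hx]
    · simp [hx]
      ring
  simp_rw [h]
  rw [Finset.sum_add_distrib, Finset.sum_neg_distrib, ← Finset.mul_sum, ← Finset.mul_sum,
    Finset.sum_filter]
  ring

theorem ker_some (m : κ) (w w' : ℝ) (b : Option κ → ℝ) (i : κ) :
    ∑ a, ker m w w' (some i) a * b a = b (some i) := by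
  rw [Fintype.sum_option]
  simp [ker]

theorem local_lower (m : κ) (w w' : ℝ) (b : Option κ → ℝ) :
    ∑ s, wlow m w' s * (∑ a, ker m w w' s a * b a) ^ 2 ≤
      ∑ s, prm m w' s * (∑ a, loc w s a * b a) ^ 2 := by
  rw [Fintype.sum_option, ker_none, Fintype.sum_option, loc_none]
  simp_rw [loc_some, ker_some, prm, wlow]
  set v : ℝ := b none - w * ∑ i, b (some i) with hv
  set F : Finset κ := univ.filter (fun i => i ≠ m) with hF
  have hcard : (F.card : ℝ) = (Fintype.card κ : ℝ) - 1 := by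
    have h1 : F = univ.erase m := by
      ext i
      simp [hF]
    rw [h1, Finset.card_erase_of_mem (Finset.mem_univ m), Finset.card_univ,
      Nat.cast_sub (Fintype.card_pos_iff.2 ⟨m⟩)]
    simp
  have h1 : ∑ i, (if i = m then (0 : ℝ) else w') * (v + b (some i)) ^ 2 =
      F.card * w' * v ^ 2 + 2 * w' * v * ∑ i ∈ F, b (some i) + w' * ∑ i ∈ F, b (some i) ^ 2 := by
    have h2 : ∑ i, (if i = m then (0 : ℝ) else w') * (v + b (some i)) ^ 2 =
        ∑ i ∈ F, w' * (v + b (some i)) ^ 2 := by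
      rw [hF, Finset.sum_filter]
      refine Finset.sum_congr rfl fun i _ => ?_
      by_cases hi : i = m <;> simp [hi]
    rw [h2]
    have : ∀ i, w' * (v + b (some i)) ^ 2 =
        w' * v ^ 2 + 2 * w' * v * b (some i) + w' * b (some i) ^ 2 := fun i => by ring
    simp_rw [this]
    rw [Finset.sum_add_distrib, Finset.sum_add_distrib, Finset.sum_const, ← Finset.mul_sum,
      ← Finset.mul_sum, nsmul_eq_mul]
    ring
  have h3 : ∑ i, (if i = m then (0 : ℝ) else w' * (1 - ((Fintype.card κ : ℝ) - 1) * w')) *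
      b (some i) ^ 2 =
      w' * (1 - ((Fintype.card κ : ℝ) - 1) * w') * ∑ i ∈ F, b (some i) ^ 2 := by
    rw [hF, Finset.sum_filter, Finset.mul_sum]
    refine Finset.sum_congr rfl fun i _ => ?_
    by_cases hi : i = m <;> simp [hi]
  rw [h1, h3, ← hcard]
  have h4 : (∑ i ∈ F, b (some i)) ^ 2 ≤ F.card * ∑ i ∈ F, b (some i) ^ 2 :=
    sq_sum_le_card_mul_sum_sq
  have h5 : w' ^ 2 * (∑ i ∈ F, b (some i)) ^ 2 ≤
      w' ^ 2 * (F.card * ∑ i ∈ F, b (some i) ^ 2) :=
    mul_le_mul_of_nonneg_left h4 (sq_nonneg _)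
  (clear * - h5; nlinarith [h5])

end Local

theorem gramLower : GramLower := by
  intro ι κ _ _ _ _ w w' m y hw hK
  rw [Qf_eq]
  have hm : (1 : ℝ) ≤ (Fintype.card κ : ℝ) := by
    exact_mod_cast Fintype.card_pos_iff.2 ⟨m⟩
  have hnn : ∀ p, 0 ≤ 1 - ((Fintype.card κ : ℝ) - 1) * w' p := by
    intro p
    have := hK p
    have := hw p
    nlinarith
  have h : Phi (fun p => wlow m (w' p)) (fun p => ker m (w p) (w' p)) y ≤
      Phi (fun p => prm m (w' p)) (fun p => loc (w p)) y := by
    refine tensor ι (Option κ) _ _ _ _ ?_ ?_ ?_ y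
    · intro p s
      cases s with
      | none => simp [wlow]
      | some i =>
        simp only [wlow]
        split_ifs
        · exact le_refl _
        · exact mul_nonneg (hw p) (hnn p)
    · intro p s
      cases s with
      | none => exact hnn p
      | some i =>
        simp only [prm]
        split_ifs
        · exact le_refl _
        · exact hw p
    · intro p b
      exact local_lower m (w p) (w' p) b
  refine le_trans (le_of_eq ?_) h
  unfold Phi
  rw [Finset.sum_filter]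
  refine Finset.sum_congr rfl fun c _ => ?_
  by_cases hc : cls c m = ∅
  · rw [if_pos hc]
    unfold ym
    congr 1
    unfold supp
    rw [Finset.prod_filter]
    refine Finset.prod_congr rfl fun p _ => ?_
    have hp : c p ≠ some m := by
      intro h'
      have : p ∈ cls c m := by simp [cls, h']
      rw [hc] at this
      simp at this
    cases hcp : c p with
    | none => simp [wlow]
    | some i =>
      have : i ≠ m := by
        rintro rfl
        exact hp hcp
      simp [wlow, this]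
  · rw [if_neg hc]
    obtain ⟨p, hp⟩ := Finset.nonempty_iff_ne_empty.2 hc
    have hp' : c p = some m := by simpa [cls] using hp
    have h0 : ∏ p, wlow m (w' p) (c p) = 0 :=
      Finset.prod_eq_zero (Finset.mem_univ p) (by simp [hp', wlow])
    rw [h0, zero_mul]

end Pool.Agent.Helper9.MT

end

section

set_option autoImplicit false

open Finset

namespace Pool.Agent.Helper46.MT

open Pool.Agent.Helper1.MT

section

variable {ι κ : Type} [Fintype ι] [Fintype κ] [DecidableEq ι] [DecidableEq κ]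

theorem le_iff (c c' s : ι → Option κ) :
    (Le c s ∧ Le c' s) ↔ (Compat c c' ∧ Le (join c c') s) := by
  unfold Le Compat join
  constructor
  · rintro ⟨h1, h2⟩
    refine ⟨fun p => ?_, fun p => ?_⟩
    · rcases h1 p with h | h
      · exact Or.inl h
      · rcases h2 p with h' | h'
        · exact Or.inr (Or.inl h')
        · exact Or.inr (Or.inr (h.trans h'.symm))
    · by_cases hc : (c p).isSome
      · simp only [hc, if_true]
        exact h1 p
      · rw [if_neg hc]
        exact h2 p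
  · rintro ⟨h1, h2⟩
    refine ⟨fun p => ?_, fun p => ?_⟩
    · by_cases hc : (c p).isSome
      · have := h2 p
        simpa only [hc, if_true] using this
      · left
        simpa using hc
    · by_cases hc : (c p).isSome
      · have h3 := h2 p
        simp only [hc, if_true] at h3
        rcases h1 p with h | h | h
        · rw [h] at hc; simp at hc
        · exact Or.inl h
        · rw [← h]; exact h3
      · have h3 := h2 p
        rw [if_neg hc] at h3
        exact h3

/-- The probability that `σ` extends `u`. -/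
theorem sum_ext (P : ι → Option κ → ℝ) (hP : ∀ p, ∑ a : Option κ, P p a = 1)
    (u : ι → Option κ) :
    ∑ s : ι → Option κ, (if Le u s then ∏ p, P p (s p) else 0) =
      ∏ p ∈ supp u, P p (u p) := by
  have h1 : ∀ s : ι → Option κ, (if Le u s then ∏ p, P p (s p) else 0) =
      ∏ p, (if u p = none ∨ u p = s p then P p (s p) else 0) := by
    intro s
    by_cases h : Le u s
    · rw [if_pos h]
      exact prod_congr rfl fun p _ => by rw [if_pos (h p)]
    · rw [if_neg h]
      unfold Le at h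
      push Not at h
      obtain ⟨p, hp⟩ := h
      refine (prod_eq_zero (mem_univ p) ?_).symm
      rw [if_neg]
      rintro (h | h)
      · exact hp.1 h
      · exact hp.2 h
  have h2 := (prod_univ_sum (fun _ : ι => (univ : Finset (Option κ)))
    fun p a => if u p = none ∨ u p = a then P p a else 0).symm
  rw [Fintype.piFinset_univ] at h2
  rw [sum_congr rfl fun s _ => h1 s, h2]
  unfold supp
  rw [prod_filter]
  refine prod_congr rfl fun p _ => ?_
  by_cases hp : u p = none
  · simp [hp, hP p]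
  · have : ∀ a : Option κ, (if u p = none ∨ u p = a then P p a else 0) =
        if u p = a then P p a else 0 := fun a => by simp [hp]
    rw [sum_congr rfl fun a _ => this a]
    simp [hp]

theorem sq_expand (f : (ι → Option κ) → ℝ) (s : ι → Option κ) :
    (∑ c ∈ univ.filter (fun c : ι → Option κ => Le c s), f c) ^ 2 =
      ∑ c : ι → Option κ, ∑ c' : ι → Option κ,
        (open Classical in if Compat c c' then
          (f c * f c') * (if Le (join c c') s then 1 else 0) else 0) := by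
  classical
  rw [sum_filter, sq, sum_mul_sum]
  refine sum_congr rfl fun c _ => sum_congr rfl fun c' _ => ?_
  have h := le_iff c c' s
  by_cases h1 : Le c s
  · by_cases h2 : Le c' s
    · obtain ⟨h3, h4⟩ := h.1 ⟨h1, h2⟩
      simp [h1, h2, h3, h4]
    · have h3 : ¬ (Compat c c' ∧ Le (join c c') s) := fun h' => h2 (h.2 h').2
      by_cases h4 : Compat c c'
      · have h5 : ¬ Le (join c c') s := fun h' => h3 ⟨h4, h'⟩
        simp [h2, h5]
      · simp [h2, h4]
  · have h3 : ¬ (Compat c c' ∧ Le (join c c') s) := fun h' => h1 (h.2 h').1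
    by_cases h4 : Compat c c'
    · have h5 : ¬ Le (join c c') s := fun h' => h3 ⟨h4, h'⟩
      simp [h1, h5]
    · simp [h1, h4]

theorem sum_side (f : (ι → Option κ) → ℝ) (F : Finset ℕ) (ν : ℕ → ℝ)
    (σ : ℕ → ι → Option κ) :
    ∑ n ∈ F, ν n * (∑ c ∈ univ.filter (fun c : ι → Option κ => Le c (σ n)), f c) ^ 2 =
      ∑ c : ι → Option κ, ∑ c' : ι → Option κ,
        (open Classical in if Compat c c' then
          (f c * f c') * ∑ n ∈ F.filter (fun n => Le (join c c') (σ n)), ν n else 0) := by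
  classical
  rw [sum_congr rfl fun n _ => by rw [sq_expand f (σ n), mul_sum]]
  rw [sum_comm]
  refine sum_congr rfl fun c _ => ?_
  rw [sum_congr rfl fun n _ => mul_sum _ _ _]
  rw [sum_comm]
  refine sum_congr rfl fun c' _ => ?_
  by_cases h : Compat c c'
  · simp only [h, if_true]
    rw [sum_filter, mul_sum]
    refine sum_congr rfl fun n _ => ?_
    by_cases h' : Le (join c c') (σ n)
    · simp [h']; ring
    · simp [h']
  · simp [h]

theorem Qf_side (P : ι → Option κ → ℝ) (hP : ∀ p, ∑ a : Option κ, P p a = 1)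
    (f : (ι → Option κ) → ℝ) :
    Qf P f = ∑ c : ι → Option κ, ∑ c' : ι → Option κ,
        (open Classical in if Compat c c' then
          (f c * f c') * ∏ p ∈ supp (join c c'), P p (join c c' p) else 0) := by
  classical
  unfold Qf
  rw [sum_congr rfl fun s _ => by rw [sq_expand f s, mul_sum]]
  rw [sum_comm]
  refine sum_congr rfl fun c _ => ?_
  rw [sum_congr rfl fun n _ => mul_sum _ _ _]
  rw [sum_comm]
  refine sum_congr rfl fun c' _ => ?_
  by_cases h : Compat c c'
  · simp only [h, if_true]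
    rw [← sum_ext P hP, mul_sum]
    refine sum_congr rfl fun n _ => ?_
    by_cases h' : Le (join c c') n
    · simp [h']; ring
    · simp [h']
  · simp [h]

end

theorem expand : Expand := by
  classical
  intro ι κ _ _ _ _ P f F ν σ X E hP hE
  rw [sum_side, Qf_side P hP, mul_sum, ← sum_sub_distrib]
  refine (abs_sum_le_sum_abs _ _).trans (sum_le_sum fun c _ => ?_)
  rw [mul_sum, ← sum_sub_distrib]
  refine (abs_sum_le_sum_abs _ _).trans (sum_le_sum fun c' _ => ?_)
  by_cases h : Compat c c'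
  · simp only [h, if_true]
    have e : (f c * f c') * ∑ n ∈ F.filter (fun n => Le (join c c') (σ n)), ν n -
        X * ((f c * f c') * ∏ p ∈ supp (join c c'), P p (join c c' p)) =
        (f c * f c') * (∑ n ∈ F.filter (fun n => Le (join c c') (σ n)), ν n -
          X * ∏ p ∈ supp (join c c'), P p (join c c' p)) := by ring
    rw [e, abs_mul, abs_mul]
    by_cases h1 : f c = 0
    · simp [h1]
    · by_cases h2 : f c' = 0
      · simp [h2]
      · exact mul_le_mul_of_nonneg_left (hE c c' h1 h2 h) (by (clear * - h1 h2; positivity))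
  · simp [h]

end Pool.Agent.Helper46.MT

end

section

set_option autoImplicit false

set_option linter.unusedSectionVars false

open Finset

namespace Pool.Agent.Helper12.MT

open Pool.Agent.Helper1.MT

open Pool.Agent.Helper90.MT (ws_nonneg mem_cls mem_supp ws_supp prod_one_add_le)

section Sums

variable {ι κ : Type} [Fintype ι] [Fintype κ] [DecidableEq ι] [DecidableEq κ]

theorem sum_energy {w : ι → ℝ} (hw : ∀ p, 0 ≤ w p) {γ : Finset ι → ℝ} (hγ : ∀ S, 0 ≤ γ S)
    (hanti : ∀ S S', S ⊆ S' → γ S' ≤ γ S) :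
    ∑ S : Finset ι, γ S ^ 2 * (ws w S * ∏ p ∈ S, (1 + w p)) ≤
      (∏ p, (1 + w p ^ 2)) * B1 w γ := by
  have h1 : ∀ S : Finset ι, γ S ^ 2 * (ws w S * ∏ p ∈ S, (1 + w p)) =
      ∑ S' ∈ S.powerset, γ S ^ 2 * (ws w S * ws w S') := by
    intro S
    rw [Finset.prod_one_add, Finset.mul_sum, Finset.mul_sum]
    rfl
  simp only [h1]
  rw [Finset.sum_comm' (s' := fun S' => univ.filter (fun S => S' ⊆ S)) (t' := univ) (by
    intro S S'
    simp)]
  have h2 : ∀ S' : Finset ι, ∑ S ∈ univ.filter (fun S => S' ⊆ S), γ S ^ 2 * (ws w S * ws w S') ≤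
      (ws w S') ^ 2 * B1 w γ := by
    intro S'
    have h3 := Pool.Agent.Helper90.MT.superSum hw (G := fun S => γ S ^ 2)
      (fun S => sq_nonneg _)
      (fun S S' h => pow_le_pow_left₀ (hγ S') (hanti S S' h) 2) S'
    have h4 : ∑ S ∈ univ.filter (fun S => S' ⊆ S), γ S ^ 2 * (ws w S * ws w S') =
        ws w S' * ∑ S ∈ univ.filter (fun S => S' ⊆ S), γ S ^ 2 * ws w S := by
      rw [Finset.mul_sum]
      refine Finset.sum_congr rfl fun S _ => ?_
      ring
    rw [h4]
    calc ws w S' * ∑ S ∈ univ.filter (fun S => S' ⊆ S), γ S ^ 2 * ws w S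
        ≤ ws w S' * (ws w S' * B1 w γ) := mul_le_mul_of_nonneg_left h3 (Pool.Agent.Helper90.MT.ws_nonneg hw _)
      _ = _ := by ring
  refine (Finset.sum_le_sum fun S' _ => h2 S').trans ?_
  rw [← Finset.sum_mul]
  refine le_of_eq ?_
  congr 1
  rw [Finset.prod_one_add, Finset.powerset_univ]
  refine Finset.sum_congr rfl fun S _ => ?_
  unfold ws
  rw [Finset.prod_pow]

end Sums

end Pool.Agent.Helper12.MT

end

section

set_option autoImplicit false

open Finset Filter Topology

open scoped ArithmeticFunction.vonMangoldt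

namespace Pool.Agent.Helper44.BV

open Pool.Agent.Helper18.BV

theorem le_sum_Lambda_Ioc {x : ℝ} (hx : 1 ≤ x) :
    Real.log x - 7 ≤ ∑ n ∈ Ioc 0 ⌊x⌋₊, Λ n / n := by
  have h1 : 1 ≤ ⌊x⌋₊ := Nat.le_floor (by exact_mod_cast hx)
  have h2 := (abs_le.1 (abs_sum_vonMangoldt_div_sub_log_nat ⌊x⌋₊ h1)).1
  have h4 : x / 2 ≤ ⌊x⌋₊ := by
    have h5 := Nat.lt_floor_add_one x
    have h6 : (1 : ℝ) ≤ ⌊x⌋₊ := by exact_mod_cast h1
    (clear * - h5 h6; linarith)
  have h3 : Real.log (x / 2) ≤ Real.log ⌊x⌋₊ := Real.log_le_log (by positivity) h4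
  rw [Real.log_div (by positivity) (by norm_num)] at h3
  have := Real.log_two_lt_d9
  linarith

end Pool.Agent.Helper44.BV

end

section

set_option autoImplicit false

open Finset

open scoped ArithmeticFunction.vonMangoldt ArithmeticFunction.Moebius ArithmeticFunction.zeta

namespace Pool.Agent.Helper18.BV

theorem lo_add_hi (U : ℕ) (f : ArithmeticFunction ℂ) : lo U f + hi U f = f := by
  ext n
  rw [ArithmeticFunction.add_apply, lo_apply, hi_apply]
  split_ifs <;> simp

theorem vaughanId : VaughanId := by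
  intro U V a m L h1 h2
  have hm : hi U m = m - lo U m := eq_sub_of_add_eq' (lo_add_hi U m)
  have hL : hi V L = L - lo V L := eq_sub_of_add_eq' (lo_add_hi V L)
  rw [hm, hL, ← h2]
  linear_combination (lo V L - L) * h1

theorem norm_muC_le (n : ℕ) : ‖muC n‖ ≤ 1 := by
  unfold muC
  rw [ArithmeticFunction.intCoe_apply, Complex.norm_intCast]
  exact_mod_cast ArithmeticFunction.abs_moebius_le_one

end Pool.Agent.Helper18.BV

end

section

set_option autoImplicit false

open Finset Filter Topology MeasureTheory Asymptotics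

namespace Pool.Agent.Helper85.BV

open Pool.Agent.Helper18.BV

theorem lUpper : LUpper := by
  intro ε hε
  set r0 : ℝ := min (ε / 2) (1 / 4) with hr0
  have hr0p : 0 < r0 := lt_min (by linarith) (by norm_num)
  have hr0a : r0 ≤ ε / 2 := min_le_left _ _
  have hr0b : r0 ≤ 1 / 4 := min_le_right _ _
  refine ⟨r0 / 2, 5 / (2 * r0 ^ 2), by (clear * - hr0p; linarith), by (clear * - hr0p hr0b; linarith), by positivity, ?_⟩
  intro q _ χ hχ s hs
  have hq1 : (1 : ℝ) ≤ q := by exact_mod_cast Nat.pos_of_ne_zero (NeZero.ne q)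
  have key : ∀ z : ℂ, ‖z - 1‖ ≤ r0 →
      ‖DirichletCharacter.LFunction χ z‖ ≤ 5 / (4 * r0) * (q : ℝ) ^ ε := by
    intro z hz
    have h1 : |z.re - 1| ≤ r0 := by
      have := (Complex.abs_re_le_norm (z - 1)).trans hz
      simpa using this
    have h2 : 1 - r0 ≤ z.re := by have := (abs_le.mp h1).1; (clear * - this; linarith)
    have h3 : ‖z‖ ≤ 5 / 4 := by
      calc ‖z‖ = ‖(z - 1) + 1‖ := by ring_nf
        _ ≤ ‖z - 1‖ + ‖(1 : ℂ)‖ := norm_add_le _ _
        _ ≤ 5 / 4 := by rw [norm_one]; (clear * - hr0b hz; linarith)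
    have h4 := norm_LFunction_le χ hχ (s := z) (by (clear * - hr0p hr0b h2; linarith)) (θ := 2 * r0) (by (clear * - hr0p; linarith))
      (by (clear * - hr0p hr0b; linarith)) (by (clear * - hr0p h2; linarith))
    refine h4.trans ?_
    have h5 : (q : ℝ) ^ (2 * r0) ≤ (q : ℝ) ^ ε := Real.rpow_le_rpow_of_exponent_le hq1 (by (clear * - hr0a; linarith))
    calc ‖z‖ * ((q : ℝ) ^ (2 * r0) / (2 * r0 + z.re - 1))
        ≤ (5 / 4) * ((q : ℝ) ^ ε / r0) := by
          refine mul_le_mul h3 ?_ ?_ (by norm_num)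
          · exact div_le_div₀ (by positivity) h5 hr0p (by (clear * - h2; linarith))
          · exact div_nonneg (by positivity) (by (clear * - hr0p h2; linarith))
      _ = 5 / (4 * r0) * (q : ℝ) ^ ε := by field_simp
  have hC : 5 / (4 * r0) ≤ 5 / (2 * r0 ^ 2) := by
    apply div_le_div_of_nonneg_left (by norm_num) (by positivity)
    (clear * - hr0p hr0b; nlinarith)
  refine ⟨?_, ?_⟩
  · exact (key s (by (clear * - hr0p hs; linarith))).trans (mul_le_mul_of_nonneg_right hC (by positivity))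
  · have h6 : ‖deriv (DirichletCharacter.LFunction χ) s‖ ≤
        (5 / (4 * r0) * (q : ℝ) ^ ε) / (r0 / 2) := by
      refine Complex.norm_deriv_le_of_forall_mem_sphere_norm_le (by (clear * - hr0p; linarith))
        (DirichletCharacter.differentiable_LFunction hχ).diffContOnCl ?_
      intro z hz
      refine key z ?_
      have h7 : ‖z - s‖ = r0 / 2 := by simpa [dist_eq_norm] using hz
      calc ‖z - 1‖ = ‖(z - s) + (s - 1)‖ := by ring_nf
        _ ≤ ‖z - s‖ + ‖s - 1‖ := norm_add_le _ _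
        _ ≤ r0 := by (clear * - hs h7; linarith)
    refine h6.trans (le_of_eq ?_)
    field_simp
    norm_num

end Pool.Agent.Helper85.BV

end

section

set_option autoImplicit false

open Finset Filter Topology

namespace Pool.Agent.Helper30.BV

open Pool.Agent.Helper18.BV

/-- A2: lower bound for `L(1, χ)`, complex characters. -/
theorem lComplex (h : LUpper) : LComplex := by
  intro ε hε
  obtain ⟨r, C0, hr, hr4, hC0, hL⟩ := h (ε / 4) (by (clear * - hε; positivity))
  obtain ⟨C, hCdef⟩ : ∃ C, C = max C0 1 := ⟨_, rfl⟩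
  have hC1 : 1 ≤ C := by rw [hCdef]; exact le_max_right _ _
  have hCC : C0 ≤ C := by rw [hCdef]; exact le_max_left _ _
  refine ⟨r / (128 * C ^ 4), by (clear * - hr hC1; positivity), ?_⟩
  intro q _ χ hχ2
  have hχ : χ ≠ 1 := by
    rintro rfl
    exact hχ2 (one_pow 2)
  have hq0 : (1 : ℝ) ≤ q := by exact_mod_cast Nat.one_le_iff_ne_zero.2 (NeZero.ne q)
  set T : ℝ := (q : ℝ) ^ (ε / 4) with hT
  have hT1 : 1 ≤ T := Real.one_le_rpow hq0 (by (clear * - hε; positivity))
  have hT4 : T ^ 4 = (q : ℝ) ^ ε := by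
    rw [hT, ← Real.rpow_natCast, ← Real.rpow_mul (by (clear * - hr hr4 hq0; linarith))]
    congr 1
    push_cast
    ring
  set x : ℝ := r / (128 * C ^ 5 * T ^ 5) with hx
  have hden : 1 ≤ 128 * C ^ 5 * T ^ 5 := by
    have h1 : 1 ≤ C ^ 5 := one_le_pow₀ hC1
    have h2 : 1 ≤ T ^ 5 := one_le_pow₀ hT1
    (clear * - hr4 h1 h2 hr; nlinarith)
  have hx0 : 0 < x := by (clear * - hr hC1 hq0; positivity)
  have hxr : x ≤ r := div_le_self hr.le hden
  have hx1 : x ≤ 1 := by (clear * - hr hr4 hxr; linarith)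
  -- the product inequality
  have hprod := χ.norm_LFunction_product_ge_one hx0 0
  simp only [Complex.ofReal_zero, mul_zero, add_zero] at hprod
  rw [norm_mul, norm_mul, norm_pow, norm_pow] at hprod
  have hb1 : ‖((1 : ℂ) + x) - 1‖ ≤ r := by
    have : ((1 : ℂ) + x) - 1 = (x : ℂ) := by ring
    rw [this, Complex.norm_real, Real.norm_eq_abs, abs_of_pos hx0]
    exact hxr
  have hL2 : ‖DirichletCharacter.LFunction (χ ^ 2) (1 + x)‖ ≤ C * T :=
    ((hL q (χ ^ 2) hχ2 _ hb1).1).trans (mul_le_mul_of_nonneg_right hCC (by (clear * - hq0; positivity)))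
  have htr := triv_bound q hx0 hx1
  set ℓ := ‖DirichletCharacter.LFunction χ 1‖ with hℓ
  -- continuity
  have hdiff : ‖DirichletCharacter.LFunction χ (1 + x) - DirichletCharacter.LFunction χ 1‖ ≤
      C * T * x := by
    have hconv : Convex ℝ (Metric.closedBall (1 : ℂ) r) := convex_closedBall _ _
    have h1 := hconv.norm_image_sub_le_of_norm_deriv_le (f := DirichletCharacter.LFunction χ)
      (C := C * T) (x := (1 : ℂ)) (y := 1 + x)
      (fun z _ => (DirichletCharacter.differentiable_LFunction hχ) z)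
      (fun z hz => by
        rw [mem_closedBall_iff_norm] at hz
        exact ((hL q χ hχ z hz).2).trans (mul_le_mul_of_nonneg_right hCC (by positivity)))
      (Metric.mem_closedBall_self hr.le)
      (by rw [mem_closedBall_iff_norm]; exact hb1)
    have h2 : ‖((1 : ℂ) + x) - 1‖ = x := by
      have : ((1 : ℂ) + x) - 1 = (x : ℂ) := by ring
      rw [this, Complex.norm_real, Real.norm_eq_abs, abs_of_pos hx0]
    rw [h2] at h1
    exact h1
  set y := ‖DirichletCharacter.LFunction χ (1 + x)‖ with hy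
  have hyℓ : y ≤ ℓ + C * T * x := by
    have h1 := norm_le_norm_add_norm_sub' (DirichletCharacter.LFunction χ (1 + x))
      (DirichletCharacter.LFunction χ 1)
    (clear * - hdiff h1; linarith)
  have hy0 : 0 ≤ y := norm_nonneg _
  have hℓ0 : 0 ≤ ℓ := norm_nonneg _
  have h3 : 1 ≤ (2 / x) ^ 3 * y ^ 4 * (C * T) := by
    refine le_trans hprod ?_
    apply mul_le_mul _ hL2 (norm_nonneg _) (by (clear * - hr hC1 hq0; positivity))
    apply mul_le_mul_of_nonneg_right _ (by (clear * -; positivity))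
    exact pow_le_pow_left₀ (norm_nonneg _) htr 3
  have h4 : x ^ 3 ≤ 8 * C * T * y ^ 4 := by
    have h5 : (2 / x) ^ 3 * y ^ 4 * (C * T) = 8 * C * T * y ^ 4 / x ^ 3 := by
      field_simp
      ring
    rw [h5, le_div_iff₀ (by (clear * - hr hC1 hq0; positivity))] at h3
    (clear * - h3; linarith)
  have h6 : x * (128 * C ^ 5 * T ^ 5) ≤ 1 := by
    rw [hx, div_mul_cancel₀ _ (by positivity)]
    (clear * - hr hr4; linarith)
  have h7 : (2 * (C * T * x)) ^ 4 ≤ y ^ 4 := by
    have h8 : 8 * C * T * (2 * (C * T * x)) ^ 4 ≤ x ^ 3 := by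
      have h9 : 8 * C * T * (2 * (C * T * x)) ^ 4 = x ^ 3 * (x * (128 * C ^ 5 * T ^ 5)) := by
        ring
      rw [h9]
      have : 0 ≤ x ^ 3 := by (clear * - hr hC1 hq0; positivity)
      (clear * - hr hr4 h6 this; nlinarith)
    have h10 : 0 < 8 * C * T := by (clear * - hC1 hq0; positivity)
    (clear * - h4 h8 h10; nlinarith)
  have h11 : 2 * (C * T * x) ≤ y := le_of_pow_le_pow_left₀ (by norm_num) hy0 h7
  have h12 : C * T * x ≤ ℓ := by (clear * - hyℓ h11; linarith)
  refine le_trans (le_of_eq ?_) h12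
  rw [Real.rpow_neg (by (clear * - hr hr4 hq0; linarith)), ← hT4, hx]
  field_simp

end Pool.Agent.Helper30.BV

end

section

set_option autoImplicit false

open Finset

namespace Pool.Agent.Helper79.BV

open Pool.Agent.Helper18.BV

theorem nearOne (h1 : LUpper) (h2 : LComplex) (h3 : SiegelReal) : NearOne := by
  intro B k hB
  have hε : 0 < 1 / (8 * B) := by (clear * - hB; positivity)
  obtain ⟨r, C₁, hr0, -, hC₁, hup⟩ := h1 _ hε
  obtain ⟨c₁, hc₁, hlow₁⟩ := h2 _ hε
  obtain ⟨c₂, hc₂, hlow₂⟩ := h3 _ hε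
  set c : ℝ := min c₁ c₂ with hc
  have hc0 : 0 < c := lt_min hc₁ hc₂
  set L0 : ℝ := max 1 (max ((2 / r) ^ 2) ((4 * C₁ / c) ^ 4)) with hL0
  refine ⟨k.factorial * (2 * C₁ / c), max 3 (Real.exp L0), by (clear * - hC₁ hc₁ hc₂; positivity), le_max_left _ _, ?_⟩
  intro x hx q _ hq1 hq χ hχ s hs
  rw [mem_prim] at hχ
  have hχ1 := ne_one_of_prim hq1 hχ
  set l : ℝ := Real.log x with hl
  have hxpos : 0 < x := by
    have := (le_max_left (3 : ℝ) (Real.exp L0)).trans hx
    (clear * - this; linarith)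
  have hlL0 : L0 ≤ l := by
    rw [hl, Real.le_log_iff_exp_le hxpos]
    exact (le_max_right _ _).trans hx
  have hl1 : 1 ≤ l := (le_max_left _ _).trans hlL0
  have hlpos : 0 < l := by (clear * - hl1; linarith)
  have hl2 : (2 / r) ^ 2 ≤ l := ((le_max_left _ _).trans (le_max_right _ _)).trans hlL0
  have hl3 : (4 * C₁ / c) ^ 4 ≤ l := ((le_max_right _ _).trans (le_max_right _ _)).trans hlL0
  have hqpos : (0 : ℝ) < q := by
    have : (1 : ℝ) < q := by exact_mod_cast hq1
    (clear * - this; linarith)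
  -- powers of q
  have hqe : (q : ℝ) ^ (1 / (8 * B)) ≤ l ^ (1 / 8 : ℝ) := by
    calc (q : ℝ) ^ (1 / (8 * B)) ≤ (l ^ B) ^ (1 / (8 * B)) :=
          Real.rpow_le_rpow hqpos.le hq hε.le
      _ = l ^ (1 / 8 : ℝ) := by
          rw [← Real.rpow_mul hlpos.le]
          congr 1
          field_simp
  have hqe' : l ^ (-(1 / 8) : ℝ) ≤ (q : ℝ) ^ (-(1 / (8 * B))) := by
    rw [Real.rpow_neg hlpos.le, Real.rpow_neg hqpos.le]
    exact inv_anti₀ (Real.rpow_pos_of_pos hqpos _) hqe
  -- lower bound at 1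
  have hL1 : c * l ^ (-(1 / 8) : ℝ) ≤ ‖DirichletCharacter.LFunction χ 1‖ := by
    have hpos : 0 ≤ (q : ℝ) ^ (-(1 / (8 * B))) := (Real.rpow_pos_of_pos hqpos _).le
    have hpos' : 0 ≤ l ^ (-(1 / 8) : ℝ) := (Real.rpow_pos_of_pos hlpos _).le
    by_cases hsq : χ ^ 2 = 1
    · calc c * l ^ (-(1 / 8) : ℝ) ≤ c₂ * (q : ℝ) ^ (-(1 / (8 * B))) :=
            mul_le_mul (min_le_right _ _) hqe' hpos' hc₂.le
        _ ≤ _ := hlow₂ q χ hχ hχ1 hsq
    · calc c * l ^ (-(1 / 8) : ℝ) ≤ c₁ * (q : ℝ) ^ (-(1 / (8 * B))) :=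
            mul_le_mul (min_le_left _ _) hqe' hpos' hc₁.le
        _ ≤ _ := hlow₁ q χ hsq
  -- radius
  set δ : ℝ := l ^ (-(1 / 2) : ℝ) with hδ
  have hδ0 : 0 < δ := Real.rpow_pos_of_pos hlpos _
  have hδr : 2 * δ ≤ r := by
    have h4 : 2 / r ≤ l ^ (1 / 2 : ℝ) := by
      have h5 : ((2 / r) ^ 2) ^ (1 / 2 : ℝ) ≤ l ^ (1 / 2 : ℝ) :=
        Real.rpow_le_rpow (by positivity) hl2 (by norm_num)
      rwa [← Real.rpow_natCast, ← Real.rpow_mul (by (clear * - hr0; positivity)), show ((2 : ℕ) : ℝ) * (1 / 2) = 1 by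
        norm_num, Real.rpow_one] at h5
    have h6 : δ * l ^ (1 / 2 : ℝ) = 1 := by
      rw [hδ, ← Real.rpow_add hlpos]
      norm_num
    rw [div_le_iff₀ hr0] at h4
    (clear * - hr0 h6 hδ0 h4; nlinarith)
  -- the balls
  have hz1 : ∀ z : ℂ, ‖z - s‖ ≤ δ → ‖z - 1‖ ≤ 2 * δ := by
    intro z hz
    calc ‖z - 1‖ = ‖(z - s) + (s - 1)‖ := by ring_nf
      _ ≤ ‖z - s‖ + ‖s - 1‖ := norm_add_le _ _
      _ ≤ 2 * δ := by (clear * - hs hz; linarith)
  have hdiff : Differentiable ℂ (DirichletCharacter.LFunction χ) :=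
    DirichletCharacter.differentiable_LFunction hχ1
  have hlowz : ∀ z : ℂ, ‖z - s‖ ≤ δ →
      c / 2 * l ^ (-(1 / 8) : ℝ) ≤ ‖DirichletCharacter.LFunction χ z‖ := by
    intro z hz
    have h7 : ‖DirichletCharacter.LFunction χ z - DirichletCharacter.LFunction χ 1‖ ≤
        C₁ * l ^ (1 / 8 : ℝ) * ‖z - 1‖ := by
      apply Convex.norm_image_sub_le_of_norm_deriv_le (𝕜 := ℂ) (s := Metric.closedBall (1 : ℂ) r)
      · intro w _
        exact hdiff w
      · intro w hw
        rw [mem_closedBall_iff_norm] at hw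
        exact (hup q χ hχ1 w hw).2.trans (mul_le_mul_of_nonneg_left hqe hC₁.le)
      · exact convex_closedBall _ _
      · exact Metric.mem_closedBall_self hr0.le
      · rw [mem_closedBall_iff_norm]
        exact (hz1 z hz).trans hδr
    have h8 : C₁ * l ^ (1 / 8 : ℝ) * ‖z - 1‖ ≤ c / 2 * l ^ (-(1 / 8) : ℝ) := by
      have h9 : C₁ * l ^ (1 / 8 : ℝ) * ‖z - 1‖ ≤ C₁ * l ^ (1 / 8 : ℝ) * (2 * δ) :=
        mul_le_mul_of_nonneg_left (hz1 z hz) (by positivity)
      have h10 : l ^ (1 / 8 : ℝ) * δ = l ^ (-(1 / 8) : ℝ) * l ^ (-(1 / 4) : ℝ) := by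
        rw [hδ, ← Real.rpow_add hlpos, ← Real.rpow_add hlpos]
        norm_num
      have h11 : 4 * C₁ / c ≤ l ^ (1 / 4 : ℝ) := by
        have h5 : ((4 * C₁ / c) ^ 4) ^ (1 / 4 : ℝ) ≤ l ^ (1 / 4 : ℝ) :=
          Real.rpow_le_rpow (by (clear * - hC₁ hc₁ hc₂; positivity)) hl3 (by norm_num)
        rwa [← Real.rpow_natCast, ← Real.rpow_mul (by positivity),
          show ((4 : ℕ) : ℝ) * (1 / 4) = 1 by norm_num, Real.rpow_one] at h5
      have h12 : l ^ (1 / 4 : ℝ) * l ^ (-(1 / 4) : ℝ) = 1 := by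
        rw [← Real.rpow_add hlpos]
        norm_num
      have h13 : 0 < l ^ (-(1 / 4) : ℝ) := Real.rpow_pos_of_pos hlpos _
      have h14 : 4 * C₁ * l ^ (-(1 / 4) : ℝ) ≤ c := by
        rw [div_le_iff₀ hc0] at h11
        (clear * - hc0 h12 h11 h13; nlinarith)
      have h15 : 0 < l ^ (-(1 / 8) : ℝ) := Real.rpow_pos_of_pos hlpos _
      calc C₁ * l ^ (1 / 8 : ℝ) * ‖z - 1‖ ≤ C₁ * l ^ (1 / 8 : ℝ) * (2 * δ) := h9
        _ = 2 * C₁ * (l ^ (1 / 8 : ℝ) * δ) := by ring
        _ = (4 * C₁ * l ^ (-(1 / 4) : ℝ)) / 2 * l ^ (-(1 / 8) : ℝ) := by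
            rw [h10]
            ring
        _ ≤ c / 2 * l ^ (-(1 / 8) : ℝ) := by (clear * - h14 hl1; gcongr)
    have h16 : ‖DirichletCharacter.LFunction χ 1‖ ≤ ‖DirichletCharacter.LFunction χ z‖ +
        ‖DirichletCharacter.LFunction χ z - DirichletCharacter.LFunction χ 1‖ := by
      have := norm_sub_le (DirichletCharacter.LFunction χ z)
        (DirichletCharacter.LFunction χ z - DirichletCharacter.LFunction χ 1)
      simpa using this
    have h17 : c * l ^ (-(1 / 8) : ℝ) = 2 * (c / 2 * l ^ (-(1 / 8) : ℝ)) := by ring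
    (clear * - hL1 h7 h8 h16; linarith)
  have hl8 : 0 < l ^ (-(1 / 8) : ℝ) := Real.rpow_pos_of_pos hlpos _
  have hne : ∀ z : ℂ, ‖z - s‖ ≤ δ → DirichletCharacter.LFunction χ z ≠ 0 := by
    intro z hz h0
    have h18 := hlowz z hz
    rw [h0, norm_zero] at h18
    have : 0 < c / 2 * l ^ (-(1 / 8) : ℝ) := by (clear * - hc₁ hc₂ hl1; positivity)
    (clear * - h18 this; linarith)
  have hbound : ∀ z ∈ Metric.sphere s δ, ‖deriv (DirichletCharacter.LFunction χ) z /
      DirichletCharacter.LFunction χ z‖ ≤ 2 * C₁ / c * l ^ (1 / 4 : ℝ) := by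
    intro z hz
    rw [mem_sphere_iff_norm] at hz
    rw [norm_div]
    have h19 := (hup q χ hχ1 z ((hz1 z hz.le).trans hδr)).2.trans
      (mul_le_mul_of_nonneg_left hqe hC₁.le)
    have h20 := hlowz z hz.le
    have h21 : 0 < c / 2 * l ^ (-(1 / 8) : ℝ) := by (clear * - hc₁ hc₂ hl1; positivity)
    calc ‖deriv (DirichletCharacter.LFunction χ) z‖ / ‖DirichletCharacter.LFunction χ z‖
        ≤ (C₁ * l ^ (1 / 8 : ℝ)) / (c / 2 * l ^ (-(1 / 8) : ℝ)) :=
          div_le_div₀ (by (clear * - hC₁ hl1; positivity)) h19 h21 h20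
      _ = 2 * C₁ / c * l ^ (1 / 4 : ℝ) := by
          rw [Real.rpow_neg hlpos.le]
          have h22 : l ^ (1 / 4 : ℝ) = l ^ (1 / 8 : ℝ) * l ^ (1 / 8 : ℝ) := by
            rw [← Real.rpow_add hlpos]
            norm_num
          rw [h22]
          have h23 : 0 < l ^ (1 / 8 : ℝ) := Real.rpow_pos_of_pos hlpos _
          (clear * - hc0 hl1 hC₁; field_simp)
  have hdc : DiffContOnCl ℂ (fun z => deriv (DirichletCharacter.LFunction χ) z /
      DirichletCharacter.LFunction χ z) (Metric.ball s δ) := by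
    apply DifferentiableOn.diffContOnCl
    intro z hz
    have hz' : ‖z - s‖ ≤ δ := by
      have := Metric.closure_ball_subset_closedBall hz
      rwa [mem_closedBall_iff_norm] at this
    have hd2 : Differentiable ℂ (deriv (DirichletCharacter.LFunction χ)) :=
      hdiff.contDiff (n := 2) |>.differentiable_deriv_two
    exact ((hd2 z).div (hdiff z) (hne z hz')).differentiableWithinAt
  have hfin := Complex.norm_iteratedDeriv_le_of_forall_mem_sphere_norm_le k hδ0 hdc hbound
  refine hfin.trans ?_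
  have h24 : l ^ (1 / 4 : ℝ) / δ ^ k ≤ l ^ (((k : ℝ) + 1) / 2) := by
    rw [hδ, ← Real.rpow_natCast, ← Real.rpow_mul hlpos.le, ← Real.rpow_sub hlpos]
    apply Real.rpow_le_rpow_of_exponent_le hl1
    (clear * -; linarith)
  calc (k.factorial : ℝ) * (2 * C₁ / c * l ^ (1 / 4 : ℝ)) / δ ^ k
      = k.factorial * (2 * C₁ / c) * (l ^ (1 / 4 : ℝ) / δ ^ k) := by ring
    _ ≤ k.factorial * (2 * C₁ / c) * l ^ (((k : ℝ) + 1) / 2) := by (clear * - h24 hC₁ hc₁ hc₂; gcongr)

end Pool.Agent.Helper79.BV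

end

section

set_option autoImplicit false

open Finset

open Pool.Agent.Helper18.BV

namespace Pool.Agent.Helper96.BV

/-- Module BV-9: the large sieve with logarithmic weights. -/
theorem tls : TLS := by
  classical
  intro Q U N hQ hU hN α
  set X : Finset (Σ q : ℕ, DirichletCharacter ℂ q) := (Icc 1 Q).sigma (fun q => prim q) with hX
  have hsum : ∑ q ∈ Icc 1 Q, ∑ χ ∈ prim q, ‖∑ m ∈ Ioc U N, α m * χ (m : ZMod q) / m‖ ^ 2 =
      ∑ x ∈ X, ‖∑ m ∈ Ioc U N, α m * x.2 (m : ZMod x.1) * (((1 / m : ℝ)) : ℂ)‖ ^ 2 := by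
    rw [hX, Finset.sum_sigma]
    refine Finset.sum_congr rfl (fun q _ => Finset.sum_congr rfl (fun χ _ => ?_))
    congr 2
    refine Finset.sum_congr rfl (fun m _ => ?_)
    push_cast
    ring
  have hcard : (X.card : ℝ) ≤ (Q : ℝ) ^ 2 := by
    have h1 : X.card ≤ Q ^ 2 := by
      rw [hX, Finset.card_sigma]
      calc ∑ q ∈ Icc 1 Q, (prim q).card ≤ ∑ q ∈ Icc 1 Q, Q := by
            refine Finset.sum_le_sum (fun q hq => ?_)
            rw [Finset.mem_Icc] at hq
            have : NeZero q := ⟨by omega⟩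
            exact (card_prim_le q).trans ((Nat.totient_le q).trans hq.2)
        _ = Q ^ 2 := by simp [sq]
    exact_mod_cast h1
  have hK0 : (0 : ℝ) ≤ (Q : ℝ) ^ 2 / (U + 1) := by (clear * - hQ; positivity)
  have hmain := dual_sieve X (Ioc U N) (fun x m => x.2 (m : ZMod x.1)) (fun m => 1 / (m : ℝ))
    (fun m => by (clear * -; positivity)) (Real.log N + 1) ((Q : ℝ) ^ 2 / (U + 1)) hK0
    (fun x m => x.2.norm_le_one _) (sum_inv_le U N) (by
      rintro ⟨q, χ⟩ hx ⟨q', χ'⟩ hy hne
      rw [hX, Finset.mem_sigma, Finset.mem_Icc, mem_prim] at hx hy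
      simp only at hx hy
      have hq0 : NeZero q := ⟨by omega⟩
      have hq0' : NeZero q' := ⟨by omega⟩
      have h1 := off_diag χ χ' hx.2 hy.2 hne U N
      have h2 : (q * q' : ℝ) / (U + 1) ≤ (Q : ℝ) ^ 2 / (U + 1) := by
        apply div_le_div_of_nonneg_right _ (by (clear * -; positivity))
        have h3 : (q : ℝ) ≤ Q := by exact_mod_cast hx.1.2
        have h4 : (q' : ℝ) ≤ Q := by exact_mod_cast hy.1.2
        have h5 : (0 : ℝ) ≤ q' := Nat.cast_nonneg _
        have h6 : (0 : ℝ) ≤ Q := Nat.cast_nonneg _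
        (clear * - h3 h4; nlinarith)
      refine le_trans (le_of_eq ?_) (h1.trans h2)
      congr 1
      refine Finset.sum_congr rfl (fun m _ => ?_)
      push_cast
      ring) α
  rw [hsum]
  refine hmain.trans ?_
  have hA : ∑ m ∈ Ioc U N, ‖α m‖ ^ 2 * (1 / (m : ℝ)) = ∑ m ∈ Ioc U N, ‖α m‖ ^ 2 / m :=
    Finset.sum_congr rfl (fun m _ => by ring)
  rw [hA]
  apply mul_le_mul_of_nonneg_right
  · have h1 : (X.card : ℝ) * ((Q : ℝ) ^ 2 / (U + 1)) ≤ 1 := by
      have hUr : (Q : ℝ) ^ 4 ≤ U := by exact_mod_cast hU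
      have hU1 : (0 : ℝ) < (U : ℝ) + 1 := by (clear * -; positivity)
      rw [← mul_div_assoc, div_le_one hU1]
      have hQ2 : (0 : ℝ) ≤ (Q : ℝ) ^ 2 := by positivity
      calc (X.card : ℝ) * (Q : ℝ) ^ 2 ≤ (Q : ℝ) ^ 2 * (Q : ℝ) ^ 2 :=
            mul_le_mul_of_nonneg_right hcard hQ2
        _ = (Q : ℝ) ^ 4 := by ring
        _ ≤ (U : ℝ) + 1 := by (clear * - hUr; linarith)
    (clear * - h1; linarith)
  · exact Finset.sum_nonneg (fun m _ => by (clear * -; positivity))

end Pool.Agent.Helper96.BV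

end

section

set_option autoImplicit false

open Finset

namespace Pool.Agent.Helper83.MT

open Pool.Agent.Helper1.MT

section Abstract

variable {ι κ : Type} [Fintype ι] [Fintype κ] [DecidableEq ι] [DecidableEq κ]

theorem sum_abs_inv_le (w : ℝ) (hw : 0 ≤ w) (a : Option κ) :
    ∑ b : Option κ, |inv w a b| ≤ 1 + Fintype.card κ * w := by
  rw [Fintype.sum_option]
  cases a with
  | none =>
    simp only [inv, abs_one, abs_neg, sum_const, card_univ, nsmul_eq_mul]
    rw [abs_of_nonneg hw]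
  | some i =>
    simp only [inv, abs_zero, zero_add]
    have : ∑ x : κ, |if i = x then (1 : ℝ) else 0| = 1 := by
      rw [Finset.sum_eq_single i]
      · simp
      · intro b _ hb
        simp [Ne.symm hb]
      · intro h; exact absurd (mem_univ i) h
    rw [this]
    have : 0 ≤ (Fintype.card κ : ℝ) * w := by (clear * - hw; positivity)
    (clear * - this; linarith)

theorem abs_lam_le {w : ι → ℝ} (hw : ∀ p, 0 ≤ w p) {y : (ι → Option κ) → ℝ}
    (hy : ∀ c, |y c| ≤ 1) (c : ι → Option κ) :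
    |lam w y c| ≤ ∏ p, (1 + Fintype.card κ * w p) := by
  unfold lam
  calc |∑ c' : ι → Option κ, (∏ p, inv (w p) (c p) (c' p)) * y c'|
      ≤ ∑ c' : ι → Option κ, |(∏ p, inv (w p) (c p) (c' p)) * y c'| :=
        Finset.abs_sum_le_sum_abs _ _
    _ ≤ ∑ c' : ι → Option κ, ∏ p, |inv (w p) (c p) (c' p)| := by
        apply Finset.sum_le_sum
        intro c' _
        rw [abs_mul, Finset.abs_prod]
        exact mul_le_of_le_one_right (Finset.prod_nonneg fun _ _ => abs_nonneg _) (hy c')
    _ = ∏ p, ∑ b : Option κ, |inv (w p) (c p) b| := by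
        rw [Finset.prod_univ_sum, Fintype.piFinset_univ]
    _ ≤ ∏ p, (1 + Fintype.card κ * w p) := by
        apply Finset.prod_le_prod
        · intro p _
          exact Finset.sum_nonneg fun _ _ => abs_nonneg _
        · intro p _
          exact sum_abs_inv_le _ (hw p) _

theorem sum_prm (m : κ) (w : ℝ) : ∑ a : Option κ, prm m w a = 1 := by
  rw [Fintype.sum_option]
  simp only [prm]
  have h : ∑ x : κ, (if x = m then (0 : ℝ) else w) = (Fintype.card κ - 1) * w := by
    have h1 : ∀ x : κ, (if x = m then (0 : ℝ) else w) = w - if x = m then w else 0 := by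
      intro x
      split_ifs <;> ring
    rw [Finset.sum_congr rfl (fun x _ => h1 x), Finset.sum_sub_distrib, Finset.sum_const,
      Finset.card_univ, nsmul_eq_mul, Finset.sum_ite_eq' univ m]
    simp
    ring
  rw [h]
  ring

end Abstract

end Pool.Agent.Helper83.MT

end

section

set_option autoImplicit false

open Finset

open scoped ArithmeticFunction.vonMangoldt

namespace Pool.Agent.Helper83.MT

open Pool.Agent.Helper1.MT

/-- The product of the `1 + K / p`. -/
theorem prod_bound : ∃ C : ℝ, 0 < C ∧ ∀ (K W R : ℕ), 2 ≤ R →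
    ∏ p : PS R W, (1 + (K : ℝ) * wp R W p) ≤ (C * Real.log R) ^ K := by
  obtain ⟨C, hC, hM⟩ := Pool.Agent.Helper44.sum_primesUpTo_bounds
  refine ⟨Real.exp C, Real.exp_pos _, ?_⟩
  intro K W R hR
  have hR2 : (2 : ℝ) ≤ R := by exact_mod_cast hR
  have hlogR : 0 < Real.log R := Real.log_pos (by (clear * - hR2; linarith))
  have h1 : ∑ p : PS R W, wp R W p ≤ Real.log (Real.log R) + C := by
    have h2 : ∑ p : PS R W, wp R W p = ∑ p ∈ PS R W, 1 / (p : ℝ) := by
      unfold wp
      rw [← Finset.sum_coe_sort (PS R W) (fun p : ℕ => 1 / (p : ℝ))]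
    have h3 : ∑ p ∈ PS R W, 1 / (p : ℝ) ≤
        ∑ q ∈ Pool.Agent.Helper44.primesUpTo (R : ℝ), (1 : ℝ) / q := by
      apply Finset.sum_le_sum_of_subset_of_nonneg
      · intro p hp
        unfold PS at hp
        rw [Finset.mem_filter, Finset.mem_range] at hp
        rw [Pool.Agent.Helper44.mem_primesUpTo (by (clear * - hR; positivity))]
        exact ⟨hp.2.1, by exact_mod_cast Nat.lt_succ_iff.1 hp.1⟩
      · intro p _ _
        (clear * -; positivity)
    have h4 := (abs_le.1 (hM R hR2)).2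
    rw [h2]
    (clear * - h3 h4; linarith)
  calc ∏ p : PS R W, (1 + (K : ℝ) * wp R W p)
      ≤ ∏ p : PS R W, Real.exp ((K : ℝ) * wp R W p) := by
        apply Finset.prod_le_prod
        · intro p _
          unfold wp
          (clear * -; positivity)
        · intro p _
          have := Real.add_one_le_exp ((K : ℝ) * wp R W p)
          (clear * - this; linarith)
    _ = Real.exp ((K : ℝ) * ∑ p : PS R W, wp R W p) := by
        rw [← Real.exp_sum, Finset.mul_sum]
    _ ≤ Real.exp ((K : ℝ) * (Real.log (Real.log R) + C)) := by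
        apply Real.exp_le_exp.2
        exact mul_le_mul_of_nonneg_left h1 (Nat.cast_nonneg _)
    _ = (Real.exp C * Real.log R) ^ K := by
        rw [Real.exp_nat_mul, Real.exp_add, Real.exp_log hlogR, mul_comm]

end Pool.Agent.Helper83.MT

end

section

set_option autoImplicit false

open Finset

namespace Pool.Agent.Helper83.MT

open Pool.Agent.Helper1.MT

variable {R W : ℕ}

theorem PS_prime (p : PS R W) : (p : ℕ).Prime := by
  have := p.2
  unfold PS at this
  exact (Finset.mem_filter.1 this).2.1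

theorem PS_not_dvd (p : PS R W) : ¬ (p : ℕ) ∣ W := by
  have := p.2
  unfold PS at this
  exact (Finset.mem_filter.1 this).2.2

theorem coprime_step (S : Finset (PS R W)) (p : PS R W) (hp : p ∉ S) :
    Nat.Coprime (W * ∏ q ∈ S, (q : ℕ)) p := by
  rw [Nat.coprime_mul_iff_left]
  refine ⟨((PS_prime p).coprime_iff_not_dvd.2 (PS_not_dvd p)).symm, ?_⟩
  apply Nat.Coprime.prod_left
  intro q hq
  rw [Nat.coprime_primes (PS_prime q) (PS_prime p)]
  intro heq
  apply hp
  have : q = p := Subtype.ext heq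
  rwa [← this]

theorem totient_mul_prod (S : Finset (PS R W)) :
    ((W * ∏ p ∈ S, (p : ℕ)).totient : ℝ) = W.totient * ∏ p ∈ S, (((p : ℕ) : ℝ) - 1) := by
  classical
  induction S using Finset.induction_on with
  | empty => simp
  | insert p S hp ih =>
    rw [Finset.prod_insert hp, Finset.prod_insert hp]
    have h1 : W * ((p : ℕ) * ∏ q ∈ S, (q : ℕ)) = (W * ∏ q ∈ S, (q : ℕ)) * p := by ring
    rw [h1, Nat.totient_mul (coprime_step S p hp), Nat.totient_prime (PS_prime p)]
    push_cast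
    rw [ih, Nat.cast_sub (PS_prime p).one_le]
    push_cast
    ring

theorem T_tp_eq (S : Finset (PS R W)) :
    T (tp R W) S = Real.log ((∏ p ∈ S, (p : ℕ) : ℕ) : ℝ) / Real.log R := by
  unfold T tp
  rw [← Finset.sum_div]
  congr 1
  push_cast
  rw [Real.log_prod]
  intro p _
  exact_mod_cast (PS_prime p).ne_zero

theorem prod_pos (S : Finset (PS R W)) : 0 < ∏ p ∈ S, (p : ℕ) :=
  Finset.prod_pos fun p _ => (PS_prime p).pos

theorem prod_le_of_T_le (hR : 2 ≤ R) {S : Finset (PS R W)} (hT : T (tp R W) S ≤ 1) :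
    ∏ p ∈ S, (p : ℕ) ≤ R := by
  have hR2 : (2 : ℝ) ≤ R := by exact_mod_cast hR
  have hlogR : 0 < Real.log R := Real.log_pos (by (clear * - hR2; linarith))
  rw [T_tp_eq, div_le_one hlogR] at hT
  have h1 : (0 : ℝ) < ((∏ p ∈ S, (p : ℕ) : ℕ) : ℝ) := by exact_mod_cast prod_pos S
  have h2 := (Real.log_le_log_iff h1 (by (clear * - hR2; linarith))).1 hT
  exact_mod_cast h2

theorem prod_le_prod_of_subset {S S' : Finset (PS R W)} (h : S ⊆ S') :
    ∏ p ∈ S, (p : ℕ) ≤ ∏ p ∈ S', (p : ℕ) :=
  Finset.prod_le_prod_of_subset_of_one_le' h fun p _ _ => (PS_prime p).one_le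

theorem prod_union_le (S S' : Finset (PS R W)) :
    ∏ p ∈ S ∪ S', (p : ℕ) ≤ (∏ p ∈ S, (p : ℕ)) * ∏ p ∈ S', (p : ℕ) := by
  classical
  have h1 := Finset.prod_union_inter (s₁ := S) (s₂ := S') (f := fun p : PS R W => (p : ℕ))
  calc ∏ p ∈ S ∪ S', (p : ℕ) ≤ (∏ p ∈ S ∪ S', (p : ℕ)) * ∏ p ∈ S ∩ S', (p : ℕ) :=
        Nat.le_mul_of_pos_right _ (prod_pos _)
    _ = _ := h1

/-- The set of the primes in `S`. -/
def toNat (S : Finset (PS R W)) : Finset ℕ := S.map (Function.Embedding.subtype _)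

theorem toNat_injective : Function.Injective (toNat : Finset (PS R W) → Finset ℕ) :=
  Finset.map_injective _

theorem toNat_card (S : Finset (PS R W)) : (toNat S).card = S.card := Finset.card_map _

theorem toNat_prod (S : Finset (PS R W)) : ∏ p ∈ toNat S, p = ∏ p ∈ S, (p : ℕ) := by
  unfold toNat
  rw [Finset.prod_map]
  rfl

theorem toNat_mem (S : Finset (PS R W)) : toNat S ∈ (PS R W).powerset := by
  rw [Finset.mem_powerset]
  intro p hp
  unfold toNat at hp
  rw [Finset.mem_map] at hp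
  obtain ⟨q, _, rfl⟩ := hp
  exact q.2

theorem prod_injective : Function.Injective (fun S : Finset (PS R W) => ∏ p ∈ S, (p : ℕ)) := by
  intro S S' h
  apply toNat_injective
  have h1 : ∀ S : Finset (PS R W), (∏ p ∈ S, (p : ℕ)).primeFactors = toNat S := by
    intro S
    rw [← toNat_prod, Nat.primeFactors_prod]
    intro p hp
    unfold toNat at hp
    rw [Finset.mem_map] at hp
    obtain ⟨q, _, rfl⟩ := hp
    exact PS_prime q
  rw [← h1, ← h1]
  exact congrArg _ h

/-- The weighted number of sets with small product. -/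
theorem sum_pow_card_le (k N : ℕ) (hk : ∀ p : PS R W, k ≤ (p : ℕ)) :
    ∑ S ∈ (univ : Finset (Finset (PS R W))).filter (fun S : Finset (PS R W) => ∏ p ∈ S, (p : ℕ) ≤ N),
      (k : ℝ) ^ S.card ≤ (N : ℝ) ^ 2 := by
  classical
  have h1 : ∀ S ∈ (univ : Finset (Finset (PS R W))).filter (fun S : Finset (PS R W) => ∏ p ∈ S, (p : ℕ) ≤ N),
      (k : ℝ) ^ S.card ≤ N := by
    intro S hS
    have h2 : k ^ S.card ≤ ∏ p ∈ S, (p : ℕ) := by
      rw [← Finset.prod_const]
      exact Finset.prod_le_prod' fun p _ => hk p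
    exact_mod_cast h2.trans (Finset.mem_filter.1 hS).2
  have h3 : ((univ : Finset (Finset (PS R W))).filter
      (fun S : Finset (PS R W) => ∏ p ∈ S, (p : ℕ) ≤ N)).card ≤ N := by
    have h4 : ((univ : Finset (Finset (PS R W))).filter
      (fun S : Finset (PS R W) => ∏ p ∈ S, (p : ℕ) ≤ N)).card ≤ (Icc 1 N).card := by
      apply Finset.card_le_card_of_injOn (fun S : Finset (PS R W) => ∏ p ∈ S, (p : ℕ))
      · intro S hS
        rw [Finset.mem_coe, Finset.mem_Icc]
        exact ⟨prod_pos S, (Finset.mem_filter.1 (Finset.mem_coe.1 hS)).2⟩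
      · intro S _ S' _ h
        exact prod_injective h
    simpa using h4
  calc _ ≤ ∑ S ∈ (univ : Finset (Finset (PS R W))).filter (fun S : Finset (PS R W) => ∏ p ∈ S, (p : ℕ) ≤ N),
        (N : ℝ) := Finset.sum_le_sum h1
    _ = (((univ : Finset (Finset (PS R W))).filter
      (fun S : Finset (PS R W) => ∏ p ∈ S, (p : ℕ) ≤ N)).card : ℝ) * N := by
        rw [Finset.sum_const, nsmul_eq_mul]
    _ ≤ (N : ℝ) * N := by
        apply mul_le_mul_of_nonneg_right _ (Nat.cast_nonneg _)
        exact_mod_cast h3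
    _ = (N : ℝ) ^ 2 := by ring

end Pool.Agent.Helper83.MT

end

section

set_option autoImplicit false

open Finset

open scoped ArithmeticFunction.vonMangoldt

namespace Pool.Agent.Helper83.MT

open Pool.Agent.Helper1.MT

open Pool.Agent.Helper18.BV (wt IsWt)

/-- The error for the class of `a` modulo `d`. -/
noncomputable def err (g : ℝ → ℝ) (x : ℝ) (d a : ℕ) : ℝ :=
  |∑ n ∈ (Icc 1 ⌊x⌋₊).filter (fun n => n ≡ a [MOD d]), Λ n * wt g x n -
    (1 / (d.totient : ℝ)) * ∑ n ∈ Icc 1 ⌊x⌋₊, Λ n * wt g x n|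

theorem err_mod (g : ℝ → ℝ) (x : ℝ) (d a : ℕ) : err g x d (a % d) = err g x d a := by
  unfold err
  have h : (Icc 1 ⌊x⌋₊).filter (fun n => n ≡ a % d [MOD d]) =
      (Icc 1 ⌊x⌋₊).filter (fun n => n ≡ a [MOD d]) := by
    apply Finset.filter_congr
    intro n _
    unfold Nat.ModEq
    rw [Nat.mod_mod]
  rw [h]

theorem err_nonneg (g : ℝ → ℝ) (x : ℝ) (d a : ℕ) : 0 ≤ err g x d a := abs_nonneg _

end Pool.Agent.Helper83.MT

end

section

set_option autoImplicit false

open Finset Filter Topology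

namespace Pool.Agent.Helper18.BV

/-- a weight function supported close to `1` -/
theorem exists_wt {τ : ℝ} (h0 : 0 < τ) (h1 : τ ≤ 1 / 2) : ∃ g : ℝ → ℝ, IsWt g ∧ (∃ y, g y ≠ 0) ∧
    (∀ y, g y ≤ 1) ∧ ∀ y, y ≤ 1 - τ → g y = 0 := by
  obtain ⟨g, hg1, hg2, hg3, hg4, hg5⟩ := exists_contDiff_tsupport_subset (n := (⊤ : ℕ∞))
    (s := Set.Ioo (1 - τ) 1) (x := 1 - τ / 2) (Ioo_mem_nhds (by linarith) (by linarith))
  have hr : ∀ y, g y ∈ Set.Icc (0:ℝ) 1 := fun y => hg4 (Set.mem_range_self y)
  refine ⟨g, ⟨hg3, hg1.trans (Set.Ioo_subset_Ioo_left (by linarith)), fun v => (hr v).1⟩,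
    ⟨1 - τ / 2, by rw [hg5]; norm_num⟩, fun y => (hr y).2, ?_⟩
  intro y hy
  by_contra hne
  have := hg1 (subset_tsupport g (Function.mem_support.2 hne))
  exact absurd this.1 (not_lt.2 hy)

end Pool.Agent.Helper18.BV

end
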