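import Pool.Agent.Helper23.MT.L00_acd0
import Pool.Agent.Helper23.MT.L00_acd1
import Pool.Agent.Helper23.MT.L00_acd2
import Pool.Agent.Helper23.MT.L00_acd3
import Pool.Agent.Helper23.MT.L00_acd4
import Pool.Agent.Helper23.MT.L00_acd5

/-!
Parts of Helper1.MT.Defs, Helper1.MT.Bounds, Helper90.MT.Common, Helper90.MT.LowerMain, Helper12.MT.Star, Helper18.BV.St, Helper18.BV.Vaughan, Helper85.BV.LUpper, Helper79.BV.Alt, Helper83.MT.Comb, Helper83.MT.Crt, Helper83.MT.Wt
-/

namespace Pool.Agent.Helper1.MT
end Pool.Agent.Helper1.MT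
namespace Pool.Agent.Helper18.BV
end Pool.Agent.Helper18.BV

section

set_option autoImplicit false

open Finset

open scoped ArithmeticFunction.vonMangoldt

namespace Pool.Agent.Helper1.MT

open Pool.Agent.Helper18.BV (wt IsWt)

/-- The weights `1/(p-1)`. -/
noncomputable def wp' (R W : ℕ) (p : PS R W) : ℝ := 1 / (((p : ℕ) : ℝ) - 1)

end Pool.Agent.Helper1.MT

end

section

set_option autoImplicit false

open Finset Filter

open scoped ArithmeticFunction.vonMangoldt

namespace Pool.Agent.Helper1.MT

section Abs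

variable {ι κ : Type} [Fintype ι] [Fintype κ] [DecidableEq ι] [DecidableEq κ]

theorem ws_supp (w : ι → ℝ) (c : ι → Option κ) : ws w (supp c) = ∏ i : κ, ws w (cls c i) := by
  unfold ws
  rw [← Finset.prod_biUnion]
  · congr 1
    ext p
    simp only [supp, cls, mem_filter, mem_univ, true_and, mem_biUnion]
    exact Option.ne_none_iff_exists'
  · intro i _ j _ hij
    rw [Function.onFun, Finset.disjoint_left]
    intro p hp hq
    simp only [cls, mem_filter, mem_univ, true_and] at hp hq
    exact hij (Option.some_injective _ (hp.symm.trans hq))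

end Abs

theorem PS_le {R W : ℕ} (p : PS R W) : (p : ℕ) ≤ R := by
  have h := p.2
  simp only [PS, mem_filter, mem_range] at h
  omega

end Pool.Agent.Helper1.MT

end

section

set_option autoImplicit false

open Finset

namespace Pool.Agent.Helper90.MT

open Pool.Agent.Helper1.MT

variable {ι κ : Type} [Fintype ι] [Fintype κ] [DecidableEq ι] [DecidableEq κ]

theorem sg_prod (c : ι → Option κ) : ((-1 : ℝ)) ^ (supp c).card = ∏ p, sg (c p) := by
  rw [← Finset.prod_const, supp, Finset.prod_filter]
  refine Finset.prod_congr rfl fun p _ => ?_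
  unfold sg
  by_cases h : c p = none
  · simp [h]
  · simp [h]

end Pool.Agent.Helper90.MT

end

section

set_option autoImplicit false

open Finset

namespace Pool.Agent.Helper90.MT

open Pool.Agent.Helper1.MT

variable {ι κ : Type} [Fintype ι] [Fintype κ] [DecidableEq ι] [DecidableEq κ]

theorem cls_ext_self {m : κ} {c : ι → Option κ} (hc : cls c m = ∅) (S : Finset ι) :
    cls (ext m c S) m = S := by
  ext p
  rw [mem_cls]
  unfold ext
  split_ifs with h
  · simp [h]
  · have h1 : p ∉ cls c m := by rw [hc]; simp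
    rw [mem_cls] at h1
    simp [h, h1]

theorem cls_ext_ne {m i : κ} {c : ι → Option κ} (hi : i ≠ m) {S : Finset ι}
    (hS : Disjoint S (supp c)) : cls (ext m c S) i = cls c i := by
  ext p
  rw [mem_cls, mem_cls]
  unfold ext
  split_ifs with h
  · have h1 : p ∉ supp c := Finset.disjoint_left.1 hS h
    rw [mem_supp, not_not] at h1
    rw [h1]
    simp [Ne.symm hi]
  · rfl

theorem supp_ext {m : κ} {c : ι → Option κ} {S : Finset ι} :
    supp (ext m c S) = supp c ∪ S := by
  ext p
  rw [Finset.mem_union, mem_supp, mem_supp]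
  unfold ext
  split_ifs with h
  · simp [h]
  · simp [h]

theorem prod_kA_ext {m : κ} {c : ι → Option κ} {S : Finset ι} (w : ι → ℝ)
    (hS : Disjoint S (supp c)) : ∏ p, kA m (w p) (c p) (ext m c S p) = ws w S := by
  have h1 : ws w S = ∏ p, (if p ∈ S then w p else 1) := by
    unfold ws
    rw [← Finset.prod_filter]
    congr 1
    ext p
    simp
  rw [h1]
  refine Finset.prod_congr rfl fun p _ => ?_
  unfold ext
  split_ifs with h
  · have h1 : p ∉ supp c := Finset.disjoint_left.1 hS h
    rw [mem_supp, not_not] at h1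
    rw [h1]
    simp [kA]
  · rcases c p with _ | i
    · simp [kA]
    · simp [kA]

section Main

variable {w w' t : ι → ℝ} {γ : Finset ι → ℝ} {τ η : ℝ}

theorem B1_nonneg (hw : ∀ p, 0 ≤ w p) : 0 ≤ B1 w γ :=
  Finset.sum_nonneg fun S _ => mul_nonneg (sq_nonneg _) (ws_nonneg hw _)

end Main

end Pool.Agent.Helper90.MT

end

section

set_option autoImplicit false

set_option linter.unusedSectionVars false

open Finset

namespace Pool.Agent.Helper12.MT

open Pool.Agent.Helper1.MT

open Pool.Agent.Helper90.MT (ws_nonneg mem_cls mem_supp ws_supp prod_one_add_le)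

section Comb

variable {ι κ : Type} [Fintype ι] [Fintype κ] [DecidableEq ι] [DecidableEq κ]

theorem spart_smk {b : ι → Option κ} {S : Finset ι} (h : Disjoint S (supp b)) :
    spart (smk b S) = b := by
  funext p
  unfold spart smk
  by_cases hp : p ∈ S
  · rw [if_pos hp]
    have h1 : p ∉ supp b := Finset.disjoint_left.1 h hp
    rw [mem_supp, not_not] at h1
    rw [h1]
    rfl
  · rw [if_neg hp]
    cases b p <;> rfl

theorem disj_self (c : ι → Option (Option κ)) : Disjoint (sstar c) (supp (spart c)) := by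
  rw [Finset.disjoint_left]
  intro p hp
  rw [mem_supp, not_not]
  have h : c p = some none := by simpa [sstar] using hp
  unfold spart
  rw [h]
  rfl

theorem supp_smk (b : ι → Option κ) (S : Finset ι) : supp (smk b S) = S ∪ supp b := by
  ext p
  rw [Finset.mem_union, mem_supp, mem_supp]
  unfold smk
  by_cases hp : p ∈ S
  · simp [hp]
  · simp [hp]

/-- Sums over the colourings with the additional colour. -/
theorem sum_star (F : (ι → Option (Option κ)) → ℝ) :
    ∑ c, F c = ∑ b : ι → Option κ, ∑ S ∈ univ.filter (fun S => Disjoint S (supp b)),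
      F (smk b S) := by
  rw [Finset.sum_sigma']
  refine Finset.sum_bij' (fun c _ => ⟨spart c, sstar c⟩) (fun z _ => smk z.1 z.2) ?_ ?_ ?_ ?_ ?_
  · intro c _
    simp only [Finset.mem_sigma, Finset.mem_univ, Finset.mem_filter, true_and]
    exact disj_self c
  · intro z _
    exact Finset.mem_univ _
  · intro c _
    exact smk_self c
  · rintro ⟨b, S⟩ hz
    simp only [Finset.mem_sigma, Finset.mem_univ, Finset.mem_filter, true_and] at hz
    have h1 := spart_smk hz
    have h2 := sstar_smk b S
    simp only [h1, h2]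
  · intro c _
    rw [smk_self]

/-- The local factors. -/
theorem inv_star (w : ℝ) (a b : Option κ) :
    inv w (a.map some) (b.map some) = inv w a b := by
  rcases a with _ | i <;> rcases b with _ | j
  · rfl
  · rfl
  · rfl
  · simp [inv]

theorem prod_inv (w : ι → ℝ) (c b : ι → Option κ) {S : Finset ι} (h : Disjoint S (supp b)) :
    ∏ p, inv (w p) ((c p).map some) (smk b S p) =
      (∏ p ∈ S, (- w p)) * ∏ p, inv (w p) (c p) (b p) := by
  rw [← Finset.prod_mul_prod_compl S (fun p => inv (w p) ((c p).map some) (smk b S p)),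
    ← Finset.prod_mul_prod_compl S (fun p => inv (w p) (c p) (b p)), ← mul_assoc,
    ← Finset.prod_mul_distrib]
  congr 1
  · refine Finset.prod_congr rfl fun p hp => ?_
    have h1 : p ∉ supp b := Finset.disjoint_left.1 h hp
    rw [mem_supp, not_not] at h1
    unfold smk
    rw [if_pos hp, h1]
    rcases c p with _ | i
    · simp [inv]
    · simp [inv]
  · refine Finset.prod_congr rfl fun p hp => ?_
    rw [Finset.mem_compl] at hp
    unfold smk
    rw [if_neg hp]
    exact inv_star _ _ _

end Comb

end Pool.Agent.Helper12.MT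

end

section

set_option autoImplicit false

open Finset Filter Topology

open scoped ArithmeticFunction.vonMangoldt ArithmeticFunction.Moebius ArithmeticFunction.zeta

namespace Pool.Agent.Helper18.BV

/-- C1: the total mass. -/
def Mass : Prop :=
  ∀ g : ℝ → ℝ, IsWt g → (∃ v, g v ≠ 0) → ∃ c C X0 : ℝ, 0 < c ∧ 0 < C ∧ 3 ≤ X0 ∧
    ∀ x : ℝ, X0 ≤ x → c * Real.log x ≤ ∑ n ∈ Icc 1 ⌊x⌋₊, Λ n * wt g x n ∧
      ∑ n ∈ Icc 1 ⌊x⌋₊, Λ n * wt g x n ≤ C * Real.log x

end Pool.Agent.Helper18.BV

end

section

set_option autoImplicit false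

open Finset

open scoped ArithmeticFunction.vonMangoldt ArithmeticFunction.Moebius ArithmeticFunction.zeta

namespace Pool.Agent.Helper18.BV

theorem norm_LaC (n : ℕ) : ‖LaC n‖ = Λ n := by
  rw [LaC_apply, Complex.norm_real, Real.norm_eq_abs,
    abs_of_nonneg ArithmeticFunction.vonMangoldt_nonneg]

theorem norm_lo_le (U : ℕ) (f : ArithmeticFunction ℂ) (n : ℕ) : ‖lo U f n‖ ≤ ‖f n‖ := by
  rw [lo_apply]; split_ifs
  · exact le_rfl
  · simp

theorem norm_hi_le (U : ℕ) (f : ArithmeticFunction ℂ) (n : ℕ) : ‖hi U f n‖ ≤ ‖f n‖ := by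
  rw [hi_apply]; split_ifs
  · simp
  · exact le_rfl

end Pool.Agent.Helper18.BV

end

section

set_option autoImplicit false

open Finset Filter Topology MeasureTheory Asymptotics

namespace Pool.Agent.Helper85.BV

open Pool.Agent.Helper18.BV

theorem lBound : LBound := by
  intro q _ χ hχ s hs
  have h := norm_LFunction_le χ hχ hs (θ := 1) zero_le_one le_rfl (by linarith)
  rw [Real.rpow_one, show (1 : ℝ) + s.re - 1 = s.re by ring] at h
  calc ‖DirichletCharacter.LFunction χ s‖ ≤ ‖s‖ * ((q : ℝ) / s.re) := h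
    _ = q * ‖s‖ / s.re := by ring

end Pool.Agent.Helper85.BV

end

section

set_option autoImplicit false

open Finset

open scoped ComplexOrder ArithmeticFunction.zeta

namespace Pool.Agent.Helper79.BV

open Pool.Agent.Helper18.BV ArithmeticFunction

theorem altOne : AltOne := by
  intro q _ χ hχ
  have h := alt_of_eq χ.zetaMul (fun s => riemannZeta s * DirichletCharacter.LFunction χ s)
    (DirichletCharacter.zetaMul_nonneg hχ) χ.isMultiplicative_zetaMul.map_one
    (fun s hs => χ.LSeriesSummable_zetaMul hs) (fun s hs => (zetaMul_LSeries χ hs).symm)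
  exact h

theorem altProd : AltProd := by
  intro q₁ q₂ q₃ _ _ _ χ₁ χ₂ χ₃ h1 h2 h3
  set b : ArithmeticFunction ℂ := χ₁.zetaMul * (A χ₂ * A χ₃) with hbdef
  have hb' : b = χ₂.zetaMul * (A χ₁ * A χ₃) := by
    rw [hbdef, zetaMul_eq, zetaMul_eq]
    ring
  have hmul : b.IsMultiplicative :=
    χ₁.isMultiplicative_zetaMul.mul
      ((DirichletCharacter.isMultiplicative_toArithmeticFunction χ₂).mul
        (DirichletCharacter.isMultiplicative_toArithmeticFunction χ₃))
  have hpp : ∀ (p k : ℕ), p.Prime → 0 ≤ b (p ^ k) := by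
    intro p k hp
    by_cases h : χ₁ (p : ZMod q₁) = -1 ∨ 0 ≤ χ₂ (p : ZMod q₂)
    · exact conv_prime_pow_nonneg h1 h2 h3 hp h k
    · rw [not_or] at h
      have h4 : χ₂ (p : ZMod q₂) = -1 := by
        rcases chi_cases h2 p with h6 | h6 | h6
        · exact absurd (by rw [h6]) h.2
        · exact absurd (by rw [h6]; exact zero_le_one) h.2
        · exact h6
      rw [hb']
      exact conv_prime_pow_nonneg h2 h1 (fun n => by rw [h3, mul_comm]) hp (Or.inl h4) k
  have hb : ∀ n, 0 ≤ b n := by
    intro n
    rcases eq_or_ne n 0 with rfl | hn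
    · simp only [ArithmeticFunction.map_zero, le_refl]
    · rw [hmul.multiplicative_factorization _ hn]
      exact Finset.prod_nonneg fun p hp =>
        hpp p _ (Nat.prime_of_mem_primeFactors hp)
  have h := alt_of_eq b (fun s => riemannZeta s *
      DirichletCharacter.LFunction χ₁ s * DirichletCharacter.LFunction χ₂ s *
      DirichletCharacter.LFunction χ₃ s) hb hmul.map_one
    (fun s hs => LSeriesSummable_mul (χ₁.LSeriesSummable_zetaMul hs)
      (LSeriesSummable_mul (A_summable χ₂ hs) (A_summable χ₃ hs)))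
    (fun s hs => by
      rw [hbdef, ArithmeticFunction.LSeries_mul' (χ₁.LSeriesSummable_zetaMul hs)
        (LSeriesSummable_mul (A_summable χ₂ hs) (A_summable χ₃ hs)),
        ArithmeticFunction.LSeries_mul' (A_summable χ₂ hs) (A_summable χ₃ hs),
        A_LSeries χ₂ hs, A_LSeries χ₃ hs, zetaMul_LSeries χ₁ hs]
      ring)
  exact h

end Pool.Agent.Helper79.BV

end

section

set_option autoImplicit false

open Finset

namespace Pool.Agent.Helper83.MT

open Pool.Agent.Helper1.MT

section Abstract

variable {ι κ : Type} [Fintype ι] [Fintype κ] [DecidableEq ι] [DecidableEq κ]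

theorem le_of_inv_prod {w : ι → ℝ} {c c' : ι → Option κ}
    (h : ∏ p, inv (w p) (c p) (c' p) ≠ 0) : Le c c' := by
  intro p
  rw [Finset.prod_ne_zero_iff] at h
  have h1 := h p (mem_univ p)
  cases hc : c p with
  | none => left; rfl
  | some i =>
    right
    rw [hc] at h1
    cases hc' : c' p with
    | none => rw [hc'] at h1; simp [inv] at h1
    | some j =>
      rw [hc'] at h1
      by_contra hne
      apply h1
      have : i ≠ j := fun h => hne (by rw [h])
      simp [inv, this]

theorem exists_of_lam_ne_zero {w : ι → ℝ} {y : (ι → Option κ) → ℝ} {c : ι → Option κ}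
    (h : lam w y c ≠ 0) : ∃ c', Le c c' ∧ y c' ≠ 0 := by
  unfold lam at h
  obtain ⟨c', _, hc'⟩ := Finset.exists_ne_zero_of_sum_ne_zero h
  exact ⟨c', le_of_inv_prod (left_ne_zero_of_mul hc'), right_ne_zero_of_mul hc'⟩

theorem supp_subset_of_le {c c' : ι → Option κ} (h : Le c c') : supp c ⊆ supp c' := by
  intro p hp
  unfold supp at hp ⊢
  rw [mem_filter] at hp ⊢
  refine ⟨mem_univ _, ?_⟩
  rcases h p with h | h
  · exact absurd h hp.2
  · rw [← h]; exact hp.2

theorem Qf_nonneg {P : ι → Option κ → ℝ} (hP : ∀ p a, 0 ≤ P p a) (f : (ι → Option κ) → ℝ) :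
    0 ≤ Qf P f := by
  unfold Qf
  exact Finset.sum_nonneg fun σ _ => mul_nonneg (Finset.prod_nonneg fun p _ => hP _ _)
    (sq_nonneg _)

end Abstract

end Pool.Agent.Helper83.MT

end

section

set_option autoImplicit false

open Finset

namespace Pool.Agent.Helper83.MT

open Pool.Agent.Helper1.MT

variable {R W : ℕ}

theorem PS_le (p : PS R W) : (p : ℕ) ≤ R := by
  have := p.2
  unfold PS at this
  exact Nat.lt_succ_iff.1 (Finset.mem_range.1 (Finset.mem_filter.1 this).1)

/-- The colour of `n` at `p`. -/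
noncomputable def sig {κ : Type} (h : κ → ℕ) (n : ℕ) (p : PS R W) : Option κ := by
  classical exact if hp : ∃ i, (p : ℕ) ∣ n + h i then some hp.choose else none

end Pool.Agent.Helper83.MT

end

section

set_option autoImplicit false

open Finset

open scoped ArithmeticFunction.vonMangoldt

namespace Pool.Agent.Helper83.MT

open Pool.Agent.Helper1.MT

open Pool.Agent.Helper18.BV (wt IsWt)

/-- The weight of `n`: nonzero only if `n + H` is prime. -/
noncomputable def nu (g : ℝ → ℝ) (x : ℝ) (H n : ℕ) : ℝ :=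
  if (n + H).Prime then Λ (n + H) * wt g x (n + H) else 0

theorem mem_NS {x : ℝ} {W v n : ℕ} :
    n ∈ NS x W v ↔ (⌊x ^ (1 / 2 : ℝ)⌋₊ < n ∧ n ≤ ⌊x⌋₊) ∧ n ≡ v [MOD W] := by
  unfold NS
  rw [Finset.mem_filter, Finset.mem_Ioc]

end Pool.Agent.Helper83.MT

end
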