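import Pool.Agent.Helper23.MT.L00_acd0
import Pool.Agent.Helper23.MT.L00_acd4
import Pool.Agent.Helper23.MT.L00_acd5
import Pool.Agent.Helper23.MT.L00_ad0

/-!
Parts of Helper1.MT.Defs, Helper1.MT.DefsU, Helper1.MT.Bounds, Helper1.MT.Num, Helper1.MT.BoundsAux, Helper87.MT.Pair, Helper90.MT.LowerMain, Helper12.MT.Star, Helper81.MT.OneDimU, Helper37.MT.ShiftsU
-/

namespace Pool.Agent.Helper1.MT
end Pool.Agent.Helper1.MT
namespace Pool.Agent.Helper28.MT
end Pool.Agent.Helper28.MT

section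

set_option autoImplicit false

open Finset

open scoped ArithmeticFunction.vonMangoldt

namespace Pool.Agent.Helper1.MT

/-- MT-P: the majorant for two colours. -/
def PairMajorant : Prop :=
  ∀ (ι κ : Type) [Fintype ι] [Fintype κ] [DecidableEq ι] [DecidableEq κ] (w t : ι → ℝ)
    (γ : Finset ι → ℝ) (τ η : ℝ), Good (Fintype.card κ) w t γ τ η →
    ∀ m m' : κ, m ≠ m' → ∃ y' : (ι → Option κ) → ℝ,
      (∀ c : ι → Option κ, cls c m = ∅ → cls c m' = ∅ → lam w y' c = lam w (yw t γ) c) ∧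
      (∀ c, y' c ≠ 0 → T t (supp c) ≤ 3) ∧
      (∀ c, |y' c| ≤ A1 w γ ^ 2) ∧
      (∑ c : ι → Option κ, ws w (supp c) * y' c ^ 2) * V0 w t ^ 2 ≤
        4 * (A1 w γ ^ 4 * B1 w γ ^ (Fintype.card κ - 2))

end Pool.Agent.Helper1.MT

end

section

set_option autoImplicit false

open Finset

open scoped ArithmeticFunction.vonMangoldt

namespace Pool.Agent.Helper1.MT

/-- MU-C: the shifts with spacing `E`, in the interval `[D, 2 D]`. -/
def ShiftsU : Prop :=
  ∀ M κ0 D0 : ℕ, 0 < M → 0 < κ0 → (M * κ0 + 2) ^ 10 ≤ D0 → ∃ Q D1 : ℕ, 0 < Q ∧ κ0 < D1 ∧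
    ∀ D : ℕ, D1 ≤ D → ∃ E W v : ℕ, D ≤ E ∧ E ≤ 2 * D ∧
      Setup D0 (fun a : Fin M × Fin κ0 => Q * (a.1.val * E + a.2.val)) W v ∧ Reg D0 W ∧
      W ≤ D ^ D1

end Pool.Agent.Helper1.MT

end

section

set_option autoImplicit false

open Finset Filter

open scoped ArithmeticFunction.vonMangoldt

namespace Pool.Agent.Helper1.MT

section Abs

variable {ι κ : Type} [Fintype ι] [Fintype κ] [DecidableEq ι] [DecidableEq κ]

theorem yw_abs_le {K : ℕ} {w t : ι → ℝ} {γ : Finset ι → ℝ} {τ η : ℝ} (hG : Good K w t γ τ η)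
    (c : ι → Option κ) : |yw t γ c| ≤ 1 := by
  unfold yw
  rw [abs_mul, abs_pow, abs_neg, abs_one, one_pow, one_mul]
  split_ifs
  · rw [abs_of_nonneg (Finset.prod_nonneg fun i _ => hG.g_nonneg _)]
    exact Finset.prod_le_one (fun i _ => hG.g_nonneg _) fun i _ => hG.g_le _
  · simp

theorem yw_supp {t : ι → ℝ} {γ : Finset ι → ℝ} {c : ι → Option κ} (h : yw t γ c ≠ 0) :
    T t (supp c) ≤ 1 := by
  unfold yw at h
  by_contra h1
  rw [if_neg h1, mul_zero] at h
  exact h rfl

theorem A1_nonneg {K : ℕ} {w t : ι → ℝ} {γ : Finset ι → ℝ} {τ η : ℝ} (hG : Good K w t γ τ η) :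
    0 ≤ A1 w γ :=
  Finset.sum_nonneg fun S _ => mul_nonneg (hG.g_nonneg _) (ws_nonneg hG.w_nonneg S)

end Abs

theorem NS_floor {x : ℝ} {W v n : ℕ} (h : n ∈ NS x W v) : ⌊x ^ (1 / 2 : ℝ)⌋₊ < n := by
  unfold NS at h
  rw [mem_filter, mem_Ioc] at h
  exact h.1.1

end Pool.Agent.Helper1.MT

end

section

set_option autoImplicit false

open Finset

namespace Pool.Agent.Helper1.MT

theorem num_prime {c0 c φ W A B L lR lx : ℝ} {K J : ℕ} (hK : 0 < K) (hc0 : 0 < c0) (hc : 0 < c)
    (hφ : 0 < φ) (hW : 0 < W) (hcW : φ / (4 * W) ≤ c) (hL : L = c * lR) (hlR : 0 < lR)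
    (hlx : 0 < lx) (hx : lx ≤ 82 * lR) (hB : 1 ≤ B)
    (hAl : 9 / 10 * (J + 2 : ℝ) / (2 * Kp K J) * L ≤ A) (hBu : B ≤ 16 / 10 / Kp K J * L) :
    c0 / 25000 * ((J + 2) / (K : ℝ)) * (lx / (2 * W) * B ^ K) ≤ c0 / φ *
        (1 / 2 * (A ^ 2 * B ^ (K - 1))) := by
  have hKr : (0 : ℝ) < K := by exact_mod_cast hK
  have hKp : 0 < Kp K J := by unfold Kp; (clear * - hK; positivity)
  have hL0 : 0 < L := by rw [hL]; (clear * - hc hlR; positivity)
  have hBK : B ^ K = B ^ (K - 1) * B := by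
    rw [← pow_succ]
    congr 1
    omega
  have key : 1 / 25000 * ((J + 2) / (K : ℝ)) * (lx * φ / W * B) ≤ A ^ 2 := by
    have e1 : lx * φ / W * B ≤ 82 * lR * (4 * c) * (16 / 10 / Kp K J * L) := by
      have e2 : φ / W ≤ 4 * c := by
        have : φ / W = 4 * (φ / (4 * W)) := by
          field_simp
        rw [this]
        (clear * - hcW; linarith)
      calc lx * φ / W * B = lx * (φ / W) * B := by ring
        _ ≤ _ := by gcongr
    have e3 : A ^ 2 ≥ (9 / 10 * (J + 2 : ℝ) / (2 * Kp K J) * L) ^ 2 := by (clear * - hKp hL0 hAl; gcongr)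
    have e4 : 1 / 25000 * ((J + 2) / (K : ℝ)) * (82 * lR * (4 * c) *
        (16 / 10 / Kp K J * L)) ≤ (9 / 10 * (J + 2 : ℝ) / (2 * Kp K J) * L) ^ 2 := by
      have e5 : (9 / 10 * (J + 2 : ℝ) / (2 * Kp K J) * L) ^ 2 =
          (81 / 3200 : ℝ) * (((J + 2) / K) * (L ^ 2 / Kp K J)) := by
        unfold Kp
        field_simp
        ring
      have e6 : 1 / 25000 * ((J + 2) / (K : ℝ)) * (82 * lR * (4 * c) *
        (16 / 10 / Kp K J * L)) = (5248 / 250000 : ℝ) * (((J + 2) / K) * (L ^ 2 / Kp K J)) := by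
        rw [hL]
        ring
      rw [e5, e6]
      have : 0 ≤ ((J + 2) / (K : ℝ)) * (L ^ 2 / Kp K J) := by (clear * - hK hL0 hKp; positivity)
      (clear * - this; linarith)
    calc _ ≤ 1 / 25000 * ((J + 2) / (K : ℝ)) * (82 * lR * (4 * c) *
        (16 / 10 / Kp K J * L)) := by gcongr
      _ ≤ _ := e4.trans e3
  rw [hBK]
  have hB' : 0 ≤ B ^ (K - 1) := by positivity
  have e7 : c0 / 25000 * ((J + 2) / (K : ℝ)) * (lx / (2 * W) * (B ^ (K - 1) * B)) =
      c0 / φ * (1 / 2 * ((1 / 25000 * ((J + 2) / (K : ℝ)) *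
        (lx * φ / W * B)) * B ^ (K - 1))) := by
    (clear * - hφ hB hW hlx hK hc0; field_simp)
  rw [e7]
  (clear * - key hB hc0 hφ; gcongr)

theorem num_pair {A B L V E : ℝ} {K J : ℕ} (hK : 2 ≤ K) (hL0 : 0 < L) (hA0 : 0 ≤ A) (hB0 : 0 < B)
    (hV0 : 0 < V) (hAu : A ≤ 11 / 10 * (J + 2 : ℝ) / (2 * Kp K J) * L)
    (hBl : 9 / 10 / Kp K J * L ≤ B) (hV : 9 / 10 * L ≤ V)
    (hE : E * V ^ 2 ≤ 4 * (A ^ 4 * B ^ (K - 2))) :
    E ≤ ((J + 2) / (10 * (K : ℝ))) ^ 2 * B ^ K := by
  have hKr : (0 : ℝ) < K := by exact_mod_cast (by omega : 0 < K)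
  have hKp : 0 < Kp K J := by unfold Kp; (clear * - hK; positivity)
  have e1 : E * V ^ 2 ≤ ((J + 2) / (10 * (K : ℝ))) ^ 2 * B ^ K * V ^ 2 := by
    refine hE.trans ?_
    have hBK : B ^ K = B ^ (K - 2) * B ^ 2 := by
      rw [← pow_add]
      congr 1
      omega
    have e2 : 2 * A ^ 2 ≤ (J + 2) / (10 * (K : ℝ)) * (B * V) := by
      have e3 : 2 * A ^ 2 ≤ 2 * (11 / 10 * (J + 2 : ℝ) / (2 * Kp K J) * L) ^ 2 := by gcongr
      have e4 : (9 / 10 / Kp K J * L) * (9 / 10 * L) ≤ B * V := by (clear * - hBl hV hL0 hB0; gcongr)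
      have e5 : 2 * (11 / 10 * (J + 2 : ℝ) / (2 * Kp K J) * L) ^ 2 =
          (121 / 1600 : ℝ) * (((J + 2) / K) * (L ^ 2 / Kp K J)) := by
        unfold Kp
        field_simp
        ring
      have e6 : (J + 2) / (10 * (K : ℝ)) * ((9 / 10 / Kp K J * L) * (9 / 10 * L)) =
          (81 / 1000 : ℝ) * (((J + 2) / K) * (L ^ 2 / Kp K J)) := by
        field_simp
        ring
      have e7 : 0 ≤ ((J + 2) / (K : ℝ)) * (L ^ 2 / Kp K J) := by (clear * - hK hL0 hKp; positivity)
      calc 2 * A ^ 2 ≤ (121 / 1600 : ℝ) * (((J + 2) / K) * (L ^ 2 / Kp K J)) := e3.trans e5.le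
        _ ≤ (81 / 1000 : ℝ) * (((J + 2) / K) * (L ^ 2 / Kp K J)) := by (clear * - e7; linarith)
        _ = (J + 2) / (10 * (K : ℝ)) * ((9 / 10 / Kp K J * L) * (9 / 10 * L)) := e6.symm
        _ ≤ _ := by (clear * - e4 hK; gcongr)
    have e8 : (2 * A ^ 2) ^ 2 ≤ ((J + 2) / (10 * (K : ℝ)) * (B * V)) ^ 2 := by (clear * - e2; gcongr)
    rw [hBK]
    calc 4 * (A ^ 4 * B ^ (K - 2)) = (2 * A ^ 2) ^ 2 * B ^ (K - 2) := by ring
      _ ≤ ((J + 2) / (10 * (K : ℝ)) * (B * V)) ^ 2 * B ^ (K - 2) := by (clear * - e8 hB0; gcongr)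
      _ = _ := by ring
  exact le_of_mul_le_mul_right e1 (by positivity)

theorem bad_prod {κ : Type} [Fintype κ] {R W : ℕ} (h : κ → ℕ) (j : ℕ) (hj : ∀ i, h i ≠ j)
    (bad : Finset (PS R W)) (hbad : ∀ p ∈ bad, ∃ i, (((p : PS R W) : ℕ) : ℤ) ∣ (h i : ℤ) - j) :
    ∏ p ∈ bad, (1 + wp R W p) ≤
      ∏ p ∈ (∏ i, ((h i : ℤ) - j).natAbs).primeFactors, (1 + 1 / (p : ℝ)) := by
  classical
  have hne : (∏ i, ((h i : ℤ) - j).natAbs) ≠ 0 := by
    rw [Finset.prod_ne_zero_iff]
    intro i _
    rw [Int.natAbs_ne_zero]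
    intro h0
    exact hj i (by omega)
  have e1 : ∏ p ∈ bad, (1 + wp R W p) = ∏ q ∈ bad.image (fun p : PS R W => (p : ℕ)),
      (1 + 1 / (q : ℝ)) := by
    rw [Finset.prod_image (fun p _ p' _ hpp => Subtype.ext hpp)]
    rfl
  rw [e1]
  refine prod_le_prod_subset ?_ ?_
  · intro q hq
    rw [mem_image] at hq
    obtain ⟨p, hp, rfl⟩ := hq
    obtain ⟨i, hi⟩ := hbad p hp
    rw [Nat.mem_primeFactors]
    refine ⟨PS_prime p, ?_, hne⟩
    refine dvd_trans ?_ (Finset.dvd_prod_of_mem _ (mem_univ i))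
    exact Int.natCast_dvd.1 hi
  · intro q _
    have : (0 : ℝ) ≤ 1 / (q : ℝ) := by (clear * -; positivity)
    (clear * - this; linarith)

end Pool.Agent.Helper1.MT

end

section

set_option autoImplicit false

open Finset Filter

namespace Pool.Agent.Helper1.MT

theorem lev_log_sq {a : ℝ} (ha : 0 < a) :
    ∀ᶠ x : ℝ in atTop, (a * Real.log (lev x)) ^ 2 ≤ lev x := by
  have h1 : ∀ᶠ R : ℕ in atTop, a ^ 2 * Real.log R ^ 2 ≤ R := by
    have h2 : Tendsto (fun y : ℝ => Real.log y ^ 2 / (1 * y + 0)) atTop (nhds 0) :=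
      Real.tendsto_pow_log_div_mul_add_atTop 1 0 2 one_ne_zero
    have ha2 : (0 : ℝ) < a ^ 2 := pow_pos ha 2
    have h3 := (h2.comp tendsto_natCast_atTop_atTop).eventually
      (gt_mem_nhds (one_div_pos.2 ha2))
    filter_upwards [h3, eventually_gt_atTop 0] with R hR hR0
    have hRr : (0 : ℝ) < R := by exact_mod_cast hR0
    simp only [Function.comp_apply, one_mul, add_zero] at hR
    rw [div_lt_div_iff₀ hRr ha2] at hR
    linarith
  filter_upwards [lev_tendsto.eventually h1] with x hx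
  rw [mul_pow]
  exact hx

theorem lev_log_large {a : ℝ} (ha : 0 < a) : ∀ᶠ x : ℝ in atTop, 1 ≤ a * Real.log (lev x) := by
  have h1 : Tendsto (fun x : ℝ => a * Real.log (lev x)) atTop atTop :=
    (Real.tendsto_log_atTop.comp (tendsto_natCast_atTop_atTop.comp lev_tendsto)).const_mul_atTop ha
  exact h1.eventually_ge_atTop 1

theorem sw_term_nonneg {κ : Type} [Fintype κ] [DecidableEq κ] {R W : ℕ} (h : κ → ℕ)
    (f : (PS R W → Option κ) → ℝ) (n : ℕ) : 0 ≤ 1 / (n : ℝ) * sw h f n := by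
  unfold sw
  (clear * -; positivity)

theorem good_mul_le {ι : Type} [Fintype ι] [DecidableEq ι] {K : ℕ} {w t : ι → ℝ}
    {γ : Finset ι → ℝ} {τ η : ℝ} (hG : Good K w t γ τ η) (p : ι) :
    (K : ℝ) * w p ≤ 1 ∧ ((K : ℝ) + 1) * w p ≤ 1 := by
  have h1 := hG.w_le p
  have h0 := hG.w_nonneg p
  have h2 : 0 ≤ (K : ℝ) * w p := mul_nonneg (Nat.cast_nonneg K) h0
  constructor <;> (clear * - h1 h0; linarith)

end Pool.Agent.Helper1.MT

end

section

set_option autoImplicit false

set_option linter.unusedSectionVars false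

open Finset

namespace Pool.Agent.Helper87.MT

open Pool.Agent.Helper1.MT

open Pool.Agent.Helper90.MT (sg ws_nonneg mem_cls mem_supp prod_supp ws_supp T_supp cls_inj prod_one_add_le exp_le_two)

variable {ι κ : Type} [Fintype ι] [Fintype κ] [DecidableEq ι] [DecidableEq κ]

/-- The choice of `y` without the sign. -/
noncomputable def Yv (t : ι → ℝ) (γ : Finset ι → ℝ) (c : ι → Option κ) : ℝ :=
  if T t (supp c) ≤ 1 then ∏ i : κ, γ (cls c i) else 0

/-- The truncation for the colours `m` and `m'`. -/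
noncomputable def rho (m m' : κ) (t : ι → ℝ) (c : ι → Option κ) : ℝ :=
  if T t (cls c m) ≤ 1 ∧ T t (cls c m') ≤ 1 then 1 else 0

/-- The sums over the fibres. -/
noncomputable def Zb (m m' : κ) (w t : ι → ℝ) (γ : Finset ι → ℝ) (b : ι → Option κ) : ℝ :=
  ∑ c ∈ fib m m' b, w2 m m' w c * Yv t γ c

/-- The sums over the fibres. -/
noncomputable def Vb (m m' : κ) (w t : ι → ℝ) (b : ι → Option κ) : ℝ :=
  ∑ c ∈ fib m m' b, w2 m m' w c * rho m m' t c

theorem inv_sg {m m' : κ} (x : ℝ) {a : Option κ} (h1 : a ≠ some m) (h2 : a ≠ some m')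
    (a' : Option κ) :
    inv x a a' * sg a' = (inv x a (rr m m' a') * sg (rr m m' a')) * l2 m m' x a' := by
  rcases a' with _ | j
  · simp [rr, l2]
  · by_cases hj : (some j = some m ∨ some j = some m')
    · have h3 : rr m m' (some j) = none := by unfold rr; rw [if_pos hj]
      have h4 : l2 m m' x (some j) = x := by unfold l2; rw [if_pos hj]
      rw [h3, h4]
      rcases a with _ | i
      · simp [inv, sg]
      · have h5 : i ≠ j := by
          rintro rfl
          rcases hj with h | h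
          · exact h1 h
          · exact h2 h
        simp [inv, sg, h5]
    · have h3 : rr m m' (some j) = some j := by unfold rr; rw [if_neg hj]
      have h4 : l2 m m' x (some j) = 1 := by unfold l2; rw [if_neg hj]
      rw [h3, h4, mul_one]

theorem lam_sg {m m' : κ} (w : ι → ℝ) (F : (ι → Option κ) → ℝ) {c : ι → Option κ}
    (h1 : cls c m = ∅) (h2 : cls c m' = ∅) :
    lam w (fun c' => (∏ p, sg (c' p)) * F c') c =
      ∑ b : ι → Option κ, (∏ p, inv (w p) (c p) (b p) * sg (b p)) *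
        ∑ c' ∈ fib m m' b, w2 m m' w c' * F c' := by
  have hm : ∀ p, c p ≠ some m := by
    intro p hp
    have : p ∈ cls c m := mem_cls.2 hp
    rw [h1] at this
    simp at this
  have hm' : ∀ p, c p ≠ some m' := by
    intro p hp
    have : p ∈ cls c m' := mem_cls.2 hp
    rw [h2] at this
    simp at this
  unfold lam
  rw [← Finset.sum_fiberwise (s := (univ : Finset (ι → Option κ))) (g := rs m m')]
  refine Finset.sum_congr rfl fun b _ => ?_
  rw [Finset.mul_sum]
  refine Finset.sum_congr rfl fun c' hc' => ?_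
  have hb : rs m m' c' = b := (Finset.mem_filter.1 hc').2
  have h3 : (∏ p, inv (w p) (c p) (c' p)) * ∏ p, sg (c' p) =
      (∏ p, inv (w p) (c p) (b p) * sg (b p)) * w2 m m' w c' := by
    unfold w2
    rw [← Finset.prod_mul_distrib, ← Finset.prod_mul_distrib]
    refine Finset.prod_congr rfl fun p _ => ?_
    rw [inv_sg (m := m) (m' := m') (w p) (hm p) (hm' p) (c' p), ← hb]
    rfl
  rw [← mul_assoc, h3]
  ring

theorem rho_nonneg {m m' : κ} {t : ι → ℝ} (c : ι → Option κ) : 0 ≤ rho m m' t c := by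
  unfold rho
  split_ifs
  · exact zero_le_one
  · exact le_rfl

theorem Vb_ge_one {m m' : κ} {w t : ι → ℝ} (hw : ∀ p, 0 ≤ w p) {b : ι → Option κ}
    (hb : rs m m' b = b) : 1 ≤ Vb m m' w t b := by
  unfold Vb
  have h1 : b ∈ fib m m' b := mem_fib.2 hb
  have hm : cls b m = ∅ := by
    ext p
    simp only [mem_cls, Finset.notMem_empty, iff_false]
    exact (fix_ne hb p).1
  have hm' : cls b m' = ∅ := by
    ext p
    simp only [mem_cls, Finset.notMem_empty, iff_false]
    exact (fix_ne hb p).2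
  have h2 : w2 m m' w b * rho m m' t b = 1 := by
    have h3 : w2 m m' w b = 1 := by
      unfold w2 l2
      refine Finset.prod_eq_one fun p _ => ?_
      rw [if_neg]
      rintro (h | h)
      · exact (fix_ne hb p).1 h
      · exact (fix_ne hb p).2 h
    have h4 : rho m m' t b = 1 := by
      unfold rho
      rw [hm, hm', if_pos]
      simp [T]
    rw [h3, h4, mul_one]
  calc (1 : ℝ) = w2 m m' w b * rho m m' t b := h2.symm
    _ ≤ _ := Finset.single_le_sum (f := fun c => w2 m m' w c * rho m m' t c)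
        (fun c _ => mul_nonneg (w2_nonneg hw c) (rho_nonneg c)) h1

/-- The modified coefficients without the sign. -/
noncomputable def Fv (m m' : κ) (w t : ι → ℝ) (γ : Finset ι → ℝ) (c : ι → Option κ) : ℝ :=
  rho m m' t c * (Zb m m' w t γ (rs m m' c) / Vb m m' w t (rs m m' c))

theorem sum_Fv {m m' : κ} {w t : ι → ℝ} {γ : Finset ι → ℝ} (hw : ∀ p, 0 ≤ w p)
    (b : ι → Option κ) :
    ∑ c ∈ fib m m' b, w2 m m' w c * Fv m m' w t γ c = Zb m m' w t γ b := by
  by_cases hb : rs m m' b = b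
  · have h1 : ∀ c ∈ fib m m' b, w2 m m' w c * Fv m m' w t γ c =
        (w2 m m' w c * rho m m' t c) * (Zb m m' w t γ b / Vb m m' w t b) := by
      intro c hc
      unfold Fv
      rw [mem_fib.1 hc]
      ring
    rw [Finset.sum_congr rfl h1, ← Finset.sum_mul]
    have h2 : (0 : ℝ) < Vb m m' w t b := lt_of_lt_of_le zero_lt_one (Vb_ge_one hw hb)
    change Vb m m' w t b * _ = _
    (clear * - h2; field_simp)
  · have h1 : fib m m' b = ∅ := by
      rw [Finset.eq_empty_iff_forall_notMem]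
      intro c hc
      apply hb
      rw [← mem_fib.1 hc, rs_idem]
    unfold Zb
    rw [h1]
    simp

theorem T_rs {m m' : κ} (hmm : m ≠ m') (t : ι → ℝ) (c : ι → Option κ) :
    T t (supp c) = T t (supp (rs m m' c)) + T t (cls c m) + T t (cls c m') := by
  unfold T supp cls
  rw [Finset.sum_filter, Finset.sum_filter, Finset.sum_filter, Finset.sum_filter,
    ← Finset.sum_add_distrib, ← Finset.sum_add_distrib]
  refine Finset.sum_congr rfl fun p _ => ?_
  unfold rs rr
  rcases hc : c p with _ | a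
  · simp
  · by_cases h1 : a = m
    · subst h1
      simp [hmm]
    · by_cases h2 : a = m'
      · subst h2
        simp [h1]
      · simp [h1, h2]

theorem supp_rs_sub (m m' : κ) (c : ι → Option κ) : supp (rs m m' c) ⊆ supp c := by
  intro p hp
  rw [mem_supp] at hp ⊢
  intro h
  apply hp
  simp [rs, rr, h]

theorem T_mono {t : ι → ℝ} (ht : ∀ p, 0 ≤ t p) {S S' : Finset ι} (h : S ⊆ S') :
    T t S ≤ T t S' := Finset.sum_le_sum_of_subset_of_nonneg h fun p _ _ => ht p

theorem ws_rs {m m' : κ} (w : ι → ℝ) (c : ι → Option κ) :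
    ws w (supp c) = ws w (supp (rs m m' c)) * w2 m m' w c := by
  unfold ws w2 supp
  rw [Finset.prod_filter, Finset.prod_filter, ← Finset.prod_mul_distrib]
  refine Finset.prod_congr rfl fun p _ => ?_
  unfold rs rr l2
  rcases hc : c p with _ | a
  · simp
  · by_cases h : (some a = some m ∨ some a = some m')
    · simp only [if_pos h]
      simp
    · simp only [if_neg h]
      simp

theorem w2_cls {m m' : κ} (hmm : m ≠ m') (w : ι → ℝ) (c : ι → Option κ) :
    w2 m m' w c = ws w (cls c m) * ws w (cls c m') := by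
  unfold ws w2 cls
  rw [Finset.prod_filter, Finset.prod_filter, ← Finset.prod_mul_distrib]
  refine Finset.prod_congr rfl fun p _ => ?_
  unfold l2
  by_cases h1 : c p = some m
  · have h2 : c p ≠ some m' := by
      rw [h1]
      intro h
      exact hmm (Option.some.inj h)
    simp [h1, hmm]
  · by_cases h2 : c p = some m'
    · have h3 : m' ≠ m := fun h => hmm h.symm
      simp [h2, h3]
    · simp [h1, h2]

theorem cls_rs {m m' i : κ} (h1 : i ≠ m) (h2 : i ≠ m') (c : ι → Option κ) :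
    cls (rs m m' c) i = cls c i := by
  ext p
  rw [mem_cls, mem_cls]
  unfold rs rr
  by_cases h : c p = some m ∨ c p = some m'
  · rw [if_pos h]
    constructor
    · intro h3
      exact absurd h3 (by simp)
    · intro h3
      exfalso
      rw [h3] at h
      rcases h with h | h
      · exact h1 (Option.some.inj h)
      · exact h2 (Option.some.inj h)
  · rw [if_neg h]

/-- Two colourings with the same deletion and the same classes of `m`, `m'` are equal. -/
theorem fib_inj {m m' : κ} {b c c' : ι → Option κ} (hc : rs m m' c = b) (hc' : rs m m' c' = b)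
    (h1 : cls c m = cls c' m) (h2 : cls c m' = cls c' m') : c = c' := by
  apply cls_inj
  funext i
  by_cases hi : i = m
  · subst hi
    exact h1
  · by_cases hi' : i = m'
    · subst hi'
      exact h2
    · have h3 := cls_rs hi hi' c
      have h4 := cls_rs hi hi' c'
      change cls c i = cls c' i
      rw [← h3, ← h4, hc, hc']

theorem fib_sum_le {m m' : κ} (b : ι → Option κ) {F : Finset ι → Finset ι → ℝ}
    (hF : ∀ S S', 0 ≤ F S S') :
    ∑ c ∈ fib m m' b, F (cls c m) (cls c m') ≤ ∑ S : Finset ι, ∑ S' : Finset ι, F S S' := by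
  have hinj : Set.InjOn (fun c : ι → Option κ => (cls c m, cls c m'))
      ((fib m m' b : Finset (ι → Option κ)) : Set (ι → Option κ)) := by
    intro c hc c' hc' h
    have h1 : rs m m' c = b := mem_fib.1 (by simpa using hc)
    have h2 : rs m m' c' = b := mem_fib.1 (by simpa using hc')
    have h3 := Prod.mk.inj h
    exact fib_inj h1 h2 h3.1 h3.2
  rw [← Finset.sum_product', Finset.univ_product_univ,
    ← Finset.sum_image (f := fun x : Finset ι × Finset ι => F x.1 x.2) hinj]
  exact Finset.sum_le_sum_of_subset_of_nonneg (Finset.subset_univ _) fun x _ _ => hF x.1 x.2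

/-- The product of `γ` over the colours different from `m`, `m'`. -/
noncomputable def gb (m m' : κ) (γ : Finset ι → ℝ) (b : ι → Option κ) : ℝ :=
  ∏ i : κ, if i = m ∨ i = m' then 1 else γ (cls b i)

theorem prod_gb {m m' : κ} (hmm : m ≠ m') (γ : Finset ι → ℝ) {b c : ι → Option κ}
    (hc : rs m m' c = b) :
    ∏ i : κ, γ (cls c i) = gb m m' γ b * (γ (cls c m) * γ (cls c m')) := by
  have h1 : γ (cls c m) = ∏ i : κ, if i = m then γ (cls c m) else 1 := by
    rw [Finset.prod_ite_eq' univ m (fun _ => γ (cls c m)), if_pos (Finset.mem_univ _)]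
  have h2 : γ (cls c m') = ∏ i : κ, if i = m' then γ (cls c m') else 1 := by
    rw [Finset.prod_ite_eq' univ m' (fun _ => γ (cls c m')), if_pos (Finset.mem_univ _)]
  rw [h1, h2]
  unfold gb
  rw [← Finset.prod_mul_distrib, ← Finset.prod_mul_distrib]
  refine Finset.prod_congr rfl fun i _ => ?_
  by_cases hi : i = m
  · subst hi
    simp [hmm]
  · by_cases hi' : i = m'
    · subst hi'
      simp [hi]
    · have h3 := cls_rs hi hi' c
      rw [hc] at h3
      simp [hi, hi', h3]

theorem gb_nonneg {m m' : κ} {γ : Finset ι → ℝ} (h0 : ∀ S, 0 ≤ γ S) (b : ι → Option κ) :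
    0 ≤ gb m m' γ b := by
  unfold gb
  refine Finset.prod_nonneg fun i _ => ?_
  split_ifs
  · exact zero_le_one
  · exact h0 _

theorem gb_le_one {m m' : κ} {γ : Finset ι → ℝ} (h0 : ∀ S, 0 ≤ γ S) (h1 : ∀ S, γ S ≤ 1)
    (b : ι → Option κ) : gb m m' γ b ≤ 1 := by
  unfold gb
  refine Finset.prod_le_one (fun i _ => ?_) fun i _ => ?_
  · split_ifs
    · exact zero_le_one
    · exact h0 _
  · split_ifs
    · exact le_rfl
    · exact h1 _

theorem Yv_nonneg {t : ι → ℝ} {γ : Finset ι → ℝ} (h0 : ∀ S, 0 ≤ γ S) (c : ι → Option κ) :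
    0 ≤ Yv t γ c := by
  unfold Yv
  split_ifs
  · exact Finset.prod_nonneg fun i _ => h0 _
  · exact le_rfl

theorem Yv_le {t : ι → ℝ} {γ : Finset ι → ℝ} (h0 : ∀ S, 0 ≤ γ S) (c : ι → Option κ) :
    Yv t γ c ≤ ∏ i : κ, γ (cls c i) := by
  unfold Yv
  split_ifs
  · exact le_rfl
  · exact Finset.prod_nonneg fun i _ => h0 _

theorem Zb_nonneg {m m' : κ} {w t : ι → ℝ} {γ : Finset ι → ℝ} (hw : ∀ p, 0 ≤ w p)
    (h0 : ∀ S, 0 ≤ γ S) (b : ι → Option κ) : 0 ≤ Zb m m' w t γ b :=
  Finset.sum_nonneg fun c _ => mul_nonneg (w2_nonneg hw c) (Yv_nonneg h0 c)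

theorem A1_nonneg {w : ι → ℝ} {γ : Finset ι → ℝ} (hw : ∀ p, 0 ≤ w p) (h0 : ∀ S, 0 ≤ γ S) :
    0 ≤ A1 w γ :=
  Finset.sum_nonneg fun S _ => mul_nonneg (h0 S) (Pool.Agent.Helper90.MT.ws_nonneg hw S)

theorem Zb_le {m m' : κ} (hmm : m ≠ m') {w t : ι → ℝ} {γ : Finset ι → ℝ} (hw : ∀ p, 0 ≤ w p)
    (h0 : ∀ S, 0 ≤ γ S) (b : ι → Option κ) :
    Zb m m' w t γ b ≤ gb m m' γ b * A1 w γ ^ 2 := by
  have h1 : ∀ c ∈ fib m m' b, w2 m m' w c * Yv t γ c ≤
      gb m m' γ b * ((γ (cls c m) * ws w (cls c m)) * (γ (cls c m') * ws w (cls c m'))) := by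
    intro c hc
    have h2 := prod_gb hmm γ (mem_fib.1 hc)
    have h3 := Yv_le (t := t) h0 c
    rw [h2] at h3
    calc w2 m m' w c * Yv t γ c ≤ w2 m m' w c * (gb m m' γ b * (γ (cls c m) * γ (cls c m'))) :=
          mul_le_mul_of_nonneg_left h3 (w2_nonneg hw c)
      _ = _ := by rw [w2_cls hmm]; ring
  unfold Zb
  refine (Finset.sum_le_sum h1).trans ?_
  rw [← Finset.mul_sum]
  refine mul_le_mul_of_nonneg_left ?_ (gb_nonneg h0 b)
  refine (fib_sum_le b (F := fun S S' => (γ S * ws w S) * (γ S' * ws w S')) fun S S' =>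
    mul_nonneg (mul_nonneg (h0 S) (Pool.Agent.Helper90.MT.ws_nonneg hw S)) (mul_nonneg (h0 S') (Pool.Agent.Helper90.MT.ws_nonneg hw S'))).trans ?_
  rw [pow_two]
  unfold A1
  rw [Finset.sum_mul_sum]

theorem ext2_rs {m m' : κ} {b : ι → Option κ} (hb : rs m m' b = b) {S S' : Finset ι}
    (h1 : Disjoint S (supp b)) (h2 : Disjoint S' (supp b)) :
    rs m m' (ext2 m m' b S S') = b := by
  funext p
  have hn : ∀ {S : Finset ι}, Disjoint S (supp b) → p ∈ S → b p = none := by
    intro S h hp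
    by_contra h3
    exact Finset.disjoint_left.1 h hp (mem_supp.2 h3)
  unfold rs ext2
  by_cases hS : p ∈ S
  · rw [if_pos hS, hn h1 hS]
    simp [rr]
  · rw [if_neg hS]
    by_cases hS' : p ∈ S'
    · rw [if_pos hS', hn h2 hS']
      simp [rr]
    · rw [if_neg hS']
      exact congrFun hb p

theorem ext2_m {m m' : κ} (hmm : m ≠ m') {b : ι → Option κ} (hb : rs m m' b = b)
    (S S' : Finset ι) : cls (ext2 m m' b S S') m = S := by
  ext p
  rw [mem_cls]
  unfold ext2
  by_cases hS : p ∈ S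
  · simp [hS]
  · rw [if_neg hS]
    by_cases hS' : p ∈ S'
    · rw [if_pos hS']
      constructor
      · intro h
        exact absurd (Option.some.inj h).symm hmm
      · intro h
        exact absurd h hS
    · rw [if_neg hS']
      constructor
      · intro h
        exact absurd h (fix_ne hb p).1
      · intro h
        exact absurd h hS

theorem ext2_m' {m m' : κ} (hmm : m ≠ m') {b : ι → Option κ} (hb : rs m m' b = b)
    {S S' : Finset ι} (hd : Disjoint S S') : cls (ext2 m m' b S S') m' = S' := by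
  ext p
  rw [mem_cls]
  unfold ext2
  by_cases hS : p ∈ S
  · rw [if_pos hS]
    constructor
    · intro h
      exact absurd (Option.some.inj h) hmm
    · intro h
      exact absurd h (Finset.disjoint_left.1 hd hS)
  · rw [if_neg hS]
    by_cases hS' : p ∈ S'
    · simp [hS']
    · rw [if_neg hS']
      constructor
      · intro h
        exact absurd h (fix_ne hb p).2
      · intro h
        exact absurd h hS'

theorem fib_sum_ge {m m' : κ} (hmm : m ≠ m') {b : ι → Option κ} (hb : rs m m' b = b)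
    {F : Finset ι → Finset ι → ℝ} (hF : ∀ S S', 0 ≤ F S S') :
    ∑ x ∈ (univ : Finset (Finset ι × Finset ι)).filter (fun x => Disjoint x.1 x.2 ∧
      Disjoint x.1 (supp b) ∧ Disjoint x.2 (supp b)), F x.1 x.2 ≤
      ∑ c ∈ fib m m' b, F (cls c m) (cls c m') := by
  set D := (univ : Finset (Finset ι × Finset ι)).filter (fun x => Disjoint x.1 x.2 ∧
      Disjoint x.1 (supp b) ∧ Disjoint x.2 (supp b)) with hD
  have hm : ∀ x ∈ D, Disjoint x.1 x.2 ∧ Disjoint x.1 (supp b) ∧ Disjoint x.2 (supp b) :=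
    fun x hx => (Finset.mem_filter.1 hx).2
  have h1 : ∀ x ∈ D, F x.1 x.2 =
      F (cls (ext2 m m' b x.1 x.2) m) (cls (ext2 m m' b x.1 x.2) m') := by
    intro x hx
    rw [ext2_m hmm hb, ext2_m' hmm hb (hm x hx).1]
  have hinj : Set.InjOn (fun x : Finset ι × Finset ι => ext2 m m' b x.1 x.2)
      ((D : Finset (Finset ι × Finset ι)) : Set (Finset ι × Finset ι)) := by
    intro x hx y hy h
    have hx' := hm x (by simpa using hx)
    have hy' := hm y (by simpa using hy)
    have h2 : ext2 m m' b x.1 x.2 = ext2 m m' b y.1 y.2 := h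
    refine Prod.ext ?_ ?_
    · rw [← ext2_m hmm hb x.1 x.2, ← ext2_m hmm hb y.1 y.2, h2]
    · rw [← ext2_m' hmm hb hx'.1, ← ext2_m' hmm hb hy'.1, h2]
  rw [Finset.sum_congr rfl h1,
    ← Finset.sum_image (f := fun c : ι → Option κ => F (cls c m) (cls c m')) hinj]
  refine Finset.sum_le_sum_of_subset_of_nonneg ?_ fun c _ _ => hF _ _
  intro c hc
  obtain ⟨x, hx, rfl⟩ := Finset.mem_image.1 hc
  exact mem_fib.2 (ext2_rs hb (hm x hx).2.1 (hm x hx).2.2)

/-- The truncated sum over the sets which are disjoint from `D`. -/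
noncomputable def Gd (t : ι → ℝ) (D S : Finset ι) : ℝ := if T t S ≤ 1 ∧ Disjoint S D then 1 else 0

theorem Gd_nonneg (t : ι → ℝ) (D S : Finset ι) : 0 ≤ Gd t D S := by
  unfold Gd
  split_ifs
  · exact zero_le_one
  · exact le_rfl

theorem Gd_anti {t : ι → ℝ} (ht : ∀ p, 0 ≤ t p) (D : Finset ι) (S S' : Finset ι) (h : S ⊆ S') :
    Gd t D S' ≤ Gd t D S := by
  unfold Gd
  by_cases h1 : T t S' ≤ 1 ∧ Disjoint S' D
  · rw [if_pos h1, if_pos ⟨(T_mono ht h).trans h1.1, Disjoint.mono_left h h1.2⟩]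
  · rw [if_neg h1]
    split_ifs
    · exact zero_le_one
    · exact le_rfl

theorem sum_mem_le {w : ι → ℝ} (hw : ∀ p, 0 ≤ w p) {G : Finset ι → ℝ}
    (hanti : ∀ S S', S ⊆ S' → G S' ≤ G S) (p : ι) :
    ∑ S : Finset ι, G S * ws w S ≤
      (1 + w p) * ∑ S ∈ univ.filter (fun S : Finset ι => p ∉ S), G S * ws w S := by
  have h1 : ∑ S ∈ univ.filter (fun S : Finset ι => ¬ p ∉ S), G S * ws w S ≤
      w p * ∑ S ∈ univ.filter (fun S : Finset ι => p ∉ S), G S * ws w S := by
    have h2 : ∑ S ∈ univ.filter (fun S : Finset ι => ¬ p ∉ S), G S * ws w S =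
        ∑ S ∈ univ.filter (fun S : Finset ι => p ∉ S), G (insert p S) * ws w (insert p S) := by
      refine Finset.sum_nbij' (fun S => S.erase p) (fun S => insert p S) ?_ ?_ ?_ ?_ ?_
      · intro S hS
        simp
      · intro S hS
        simp
      · intro S hS
        have hS' : p ∈ S := by simpa using hS
        exact Finset.insert_erase hS'
      · intro S hS
        have hS' : p ∉ S := by simpa using hS
        exact Finset.erase_insert hS'
      · intro S hS
        have hS' : p ∈ S := by simpa using hS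
        rw [Finset.insert_erase hS']
    rw [h2, Finset.mul_sum]
    refine Finset.sum_le_sum fun S hS => ?_
    have hS' : p ∉ S := by simpa using hS
    have h3 : ws w (insert p S) = w p * ws w S := Finset.prod_insert hS'
    rw [h3]
    have h4 := hanti S (insert p S) (Finset.subset_insert p S)
    calc G (insert p S) * (w p * ws w S) ≤ G S * (w p * ws w S) :=
          mul_le_mul_of_nonneg_right h4 (mul_nonneg (hw p) (Pool.Agent.Helper90.MT.ws_nonneg hw S))
      _ = _ := by ring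
  rw [← Finset.sum_filter_add_sum_filter_not univ (fun S : Finset ι => p ∉ S)]
  (clear * - h1; linarith)

theorem V0_le {w t : ι → ℝ} (hw : ∀ p, 0 ≤ w p) (ht : ∀ p, 0 ≤ t p) (D : Finset ι) :
    V0 w t ≤ (∏ p ∈ D, (1 + w p)) * ∑ S : Finset ι, Gd t D S * ws w S := by
  induction D using Finset.induction_on with
  | empty =>
    rw [Finset.prod_empty, one_mul]
    unfold V0
    rw [Finset.sum_filter]
    refine le_of_eq (Finset.sum_congr rfl fun S _ => ?_)
    unfold Gd
    by_cases h : T t S ≤ 1 <;> simp [h]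
  | insert p D hp ih =>
    refine ih.trans ?_
    rw [Finset.prod_insert hp]
    have h1 := sum_mem_le hw (Gd_anti ht D) p
    have h2 : ∑ S ∈ univ.filter (fun S : Finset ι => p ∉ S), Gd t D S * ws w S =
        ∑ S : Finset ι, Gd t (insert p D) S * ws w S := by
      rw [Finset.sum_filter]
      refine Finset.sum_congr rfl fun S _ => ?_
      unfold Gd
      by_cases h3 : p ∈ S
      · simp [h3]
      · simp [h3]
    rw [h2] at h1
    have h4 : 0 ≤ ∏ q ∈ D, (1 + w q) := Finset.prod_nonneg fun q _ => by (clear * - hw; linarith [hw q])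
    calc (∏ q ∈ D, (1 + w q)) * ∑ S : Finset ι, Gd t D S * ws w S
        ≤ (∏ q ∈ D, (1 + w q)) * ((1 + w p) * ∑ S : Finset ι, Gd t (insert p D) S * ws w S) :=
          mul_le_mul_of_nonneg_left h1 h4
      _ = _ := by ring

/-- The local sums for `TupleSum`. -/
noncomputable def Gt (m m' : κ) (w : ι → ℝ) (γ : Finset ι → ℝ) (i : κ) (S : Finset ι) : ℝ :=
  if i = m ∨ i = m' then (if S = ∅ then 1 else 0)
  else γ S ^ 2 * ws w S * (∏ p ∈ S, (1 + w p)) ^ 2

theorem Gt_nonneg {m m' : κ} {w : ι → ℝ} (hw : ∀ p, 0 ≤ w p) (γ : Finset ι → ℝ) (i : κ)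
    (S : Finset ι) : 0 ≤ Gt m m' w γ i S := by
  unfold Gt
  split_ifs
  · exact zero_le_one
  · exact le_rfl
  · exact mul_nonneg (mul_nonneg (sq_nonneg _) (Pool.Agent.Helper90.MT.ws_nonneg hw S)) (sq_nonneg _)

theorem cls_fix {m m' : κ} {b : ι → Option κ} (hb : rs m m' b = b) :
    cls b m = ∅ ∧ cls b m' = ∅ := by
  constructor
  · ext p
    simp only [mem_cls, Finset.notMem_empty, iff_false]
    exact (fix_ne hb p).1
  · ext p
    simp only [mem_cls, Finset.notMem_empty, iff_false]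
    exact (fix_ne hb p).2

theorem prod_Gt {m m' : κ} (w : ι → ℝ) (γ : Finset ι → ℝ) {b : ι → Option κ}
    (hb : rs m m' b = b) :
    ws w (supp b) * gb m m' γ b ^ 2 * (∏ p ∈ supp b, (1 + w p)) ^ 2 =
      ∏ i, Gt m m' w γ i (cls b i) := by
  rw [ws_supp, prod_supp (fun p => 1 + w p) b]
  unfold gb
  rw [← Finset.prod_pow, ← Finset.prod_pow, ← Finset.prod_mul_distrib, ← Finset.prod_mul_distrib]
  refine Finset.prod_congr rfl fun i _ => ?_
  unfold Gt
  by_cases hi : i = m ∨ i = m'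
  · have h1 : cls b i = ∅ := by
      rcases hi with rfl | rfl
      · exact (cls_fix hb).1
      · exact (cls_fix hb).2
    rw [if_pos hi, if_pos hi, h1, if_pos rfl]
    simp [ws]
  · rw [if_neg hi, if_neg hi]
    ring

theorem prod_Gt_sum {m m' : κ} (hmm : m ≠ m') (w : ι → ℝ) (γ : Finset ι → ℝ) :
    ∏ i, ∑ S : Finset ι, Gt m m' w γ i S =
      (∑ S : Finset ι, γ S ^ 2 * ws w S * (∏ p ∈ S, (1 + w p)) ^ 2) ^ (Fintype.card κ - 2) := by
  set C := ∑ S : Finset ι, γ S ^ 2 * ws w S * (∏ p ∈ S, (1 + w p)) ^ 2 with hC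
  have h1 : ∀ i, ∑ S : Finset ι, Gt m m' w γ i S = if ¬ (i = m ∨ i = m') then C else 1 := by
    intro i
    by_cases hi : i = m ∨ i = m'
    · rw [if_neg (not_not.2 hi)]
      unfold Gt
      simp only [if_pos hi]
      rw [Finset.sum_ite_eq' univ (∅ : Finset ι) (fun _ => (1 : ℝ)), if_pos (Finset.mem_univ _)]
    · rw [if_pos hi]
      unfold Gt
      simp only [if_neg hi]
      rfl
  simp only [h1]
  rw [← Finset.prod_filter, Finset.prod_const]
  congr 1
  have h2 : univ.filter (fun i : κ => ¬ (i = m ∨ i = m')) = univ \ {m, m'} := by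
    ext i
    simp
  rw [h2, Finset.card_sdiff_of_subset (Finset.subset_univ _), Finset.card_univ,
    Finset.card_pair hmm]

theorem sg_sq (c : ι → Option κ) : (∏ p, sg (c p)) ^ 2 = 1 := by
  rw [← Finset.prod_pow]
  refine Finset.prod_eq_one fun p _ => ?_
  unfold sg
  split_ifs <;> norm_num

theorem rho_sq {m m' : κ} {t : ι → ℝ} (c : ι → Option κ) :
    rho m m' t c ^ 2 = rho m m' t c := by
  unfold rho
  split_ifs <;> norm_num

theorem rho_le {m m' : κ} {t : ι → ℝ} (c : ι → Option κ) : rho m m' t c ≤ 1 := by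
  unfold rho
  split_ifs <;> norm_num

theorem energy_eq {m m' : κ} (w t : ι → ℝ) (γ : Finset ι → ℝ) :
    ∑ c : ι → Option κ, ws w (supp c) * ((∏ p, sg (c p)) * Fv m m' w t γ c) ^ 2 =
      ∑ b : ι → Option κ, ws w (supp b) * (Zb m m' w t γ b / Vb m m' w t b) ^ 2 *
        Vb m m' w t b := by
  rw [← Finset.sum_fiberwise (s := (univ : Finset (ι → Option κ))) (g := rs m m')]
  refine Finset.sum_congr rfl fun b _ => ?_
  have h1 : ∀ c ∈ univ.filter (fun c : ι → Option κ => rs m m' c = b),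
      ws w (supp c) * ((∏ p, sg (c p)) * Fv m m' w t γ c) ^ 2 =
      ws w (supp b) * (Zb m m' w t γ b / Vb m m' w t b) ^ 2 *
        (w2 m m' w c * rho m m' t c) := by
    intro c hc
    have hb : rs m m' c = b := (Finset.mem_filter.1 hc).2
    rw [ws_rs (m := m) (m' := m') w c, mul_pow, sg_sq, one_mul]
    unfold Fv
    rw [mul_pow, rho_sq, hb]
    ring
  rw [Finset.sum_congr rfl h1, ← Finset.mul_sum]
  rfl

end Pool.Agent.Helper87.MT

end

section

set_option autoImplicit false

open Finset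

namespace Pool.Agent.Helper90.MT

open Pool.Agent.Helper1.MT

variable {ι κ : Type} [Fintype ι] [Fintype κ] [DecidableEq ι] [DecidableEq κ]

/-- The absolute values of `yw`. -/
noncomputable def Yt (t : ι → ℝ) (γ : Finset ι → ℝ) (c : ι → Option κ) : ℝ :=
  if T t (supp c) ≤ 1 then ∏ i : κ, γ (cls c i) else 0

/-- The product of the `γ` of the classes different from `m`. -/
noncomputable def Pm (m : κ) (γ : Finset ι → ℝ) (c : ι → Option κ) : ℝ :=
  ∏ i ∈ univ.erase m, γ (cls c i)

theorem Yt_nonneg {t : ι → ℝ} {γ : Finset ι → ℝ} (hg : ∀ S, 0 ≤ γ S) (c : ι → Option κ) :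
    0 ≤ Yt t γ c := by
  unfold Yt
  split_ifs
  · exact Finset.prod_nonneg fun i _ => hg _
  · exact le_rfl

theorem Pm_nonneg (m : κ) {γ : Finset ι → ℝ} (hg : ∀ S, 0 ≤ γ S) (c : ι → Option κ) :
    0 ≤ Pm m γ c := Finset.prod_nonneg fun i _ => hg _

section Main

variable {w w' t : ι → ℝ} {γ : Finset ι → ℝ} {τ η : ℝ}

theorem B_le (hG : Good (Fintype.card κ) w t γ τ η) (hw1 : ∀ p, w p ≤ w' p)
    (hw2 : ∀ p, w' p - w p ≤ 2 * w p ^ 2) {m : κ} {c : ι → Option κ} (hc : cls c m = ∅) :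
    ∑ c' : ι → Option κ, (∏ p, |k2 m (w p) (w' p) (c p) (c' p)|) * Yt t γ c' ≤
      Pm m γ c * (A1 w γ * (1 + 4 * Fintype.card κ * η)) := by
  have he : ∀ p, 0 ≤ w' p - w p := fun p => by (clear * - hw1; linarith [hw1 p])
  -- termwise
  have h1 : ∀ c' : ι → Option κ, (∏ p, |k2 m (w p) (w' p) (c p) (c' p)|) * Yt t γ c' ≤
      Pm m γ c * ((γ (cls c' m) * ws w (cls c' m)) *
        ∏ p, kB m (w' p - w p) (c p) (del m c' p)) := by
    intro c'
    have hR : 0 ≤ Pm m γ c * ((γ (cls c' m) * ws w (cls c' m)) *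
        ∏ p, kB m (w' p - w p) (c p) (del m c' p)) :=
      mul_nonneg (Pm_nonneg m hG.g_nonneg c) (mul_nonneg (mul_nonneg (hG.g_nonneg _)
        (ws_nonneg hG.w_nonneg _)) (Finset.prod_nonneg fun p _ => kB_nonneg m (he p) _ _))
    by_cases hz : ∏ p, |k2 m (w p) (w' p) (c p) (c' p)| = 0
    · rw [hz, zero_mul]
      exact hR
    · have h2 : ∀ p, c p ≠ none → c' p = c p := by
        intro p hp
        have h3 : k2 m (w p) (w' p) (c p) (c' p) ≠ 0 := by
          intro h4
          exact hz (Finset.prod_eq_zero (Finset.mem_univ p) (by rw [h4, abs_zero]))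
        rcases hcp : c p with _ | i
        · exact absurd hcp hp
        · rw [hcp] at h3
          rcases hcp' : c' p with _ | j
          · rw [hcp'] at h3
            exact absurd rfl h3
          · rw [hcp'] at h3
            by_contra hne
            apply h3
            have : i ≠ j := fun h => hne (by rw [h])
            simp [k2, this]
      have hm : ∀ p, c p ≠ some m := by
        intro p hp
        have : p ∈ cls c m := mem_cls.2 hp
        rw [hc] at this
        simp at this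
      have h5 : ∏ p, |k2 m (w p) (w' p) (c p) (c' p)| =
          ws w (cls c' m) * ∏ p, kB m (w' p - w p) (c p) (del m c' p) := by
        have h6 : ws w (cls c' m) = ∏ p, (if c' p = some m then w p else 1) := by
          unfold ws cls
          rw [Finset.prod_filter]
        rw [h6, ← Finset.prod_mul_distrib]
        refine Finset.prod_congr rfl fun p _ => ?_
        unfold del
        by_cases h7 : c' p = some m
        · rw [if_pos h7, if_pos h7]
          have h8 : c p = none := by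
            by_contra h9
            exact hm p ((h2 p h9).symm.trans h7)
          rw [h8, h7]
          simp [k2, kB, abs_of_nonneg (hG.w_nonneg p)]
        · rw [if_neg h7, if_neg h7, one_mul]
          rcases hcp : c p with _ | i
          · rcases hcp' : c' p with _ | j
            · simp [k2, kB]
            · have h8 : j ≠ m := by
                intro h9
                rw [h9] at hcp'
                exact h7 hcp'
              simp only [k2, kB, if_neg h8, abs_neg, abs_of_nonneg (he p)]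
          · have h9 := h2 p (by rw [hcp]; simp)
            rw [h9, hcp]
            simp [k2, kB]
      have h10 : Yt t γ c' ≤ Pm m γ c * γ (cls c' m) := by
        have h11 : ∏ i : κ, γ (cls c' i) ≤ Pm m γ c * γ (cls c' m) := by
          rw [← Finset.mul_prod_erase univ _ (Finset.mem_univ m), mul_comm]
          refine mul_le_mul_of_nonneg_right ?_ (hG.g_nonneg _)
          unfold Pm
          refine Finset.prod_le_prod (fun i _ => hG.g_nonneg _) fun i _ => ?_
          refine hG.g_anti _ _ ?_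
          intro p hp
          rw [mem_cls] at hp ⊢
          rw [h2 p (by rw [hp]; simp), hp]
        unfold Yt
        split_ifs
        · exact h11
        · exact mul_nonneg (Pm_nonneg m hG.g_nonneg c) (hG.g_nonneg _)
      rw [h5]
      have h12 : 0 ≤ ws w (cls c' m) * ∏ p, kB m (w' p - w p) (c p) (del m c' p) :=
        mul_nonneg (ws_nonneg hG.w_nonneg _) (Finset.prod_nonneg fun p _ =>
          kB_nonneg m (he p) _ _)
      calc ws w (cls c' m) * (∏ p, kB m (w' p - w p) (c p) (del m c' p)) * Yt t γ c'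
          ≤ ws w (cls c' m) * (∏ p, kB m (w' p - w p) (c p) (del m c' p)) *
            (Pm m γ c * γ (cls c' m)) := mul_le_mul_of_nonneg_left h10 h12
        _ = _ := by ring
  refine (Finset.sum_le_sum fun c' _ => h1 c').trans ?_
  rw [← Finset.mul_sum]
  refine mul_le_mul_of_nonneg_left ?_ (Pm_nonneg m hG.g_nonneg c)
  -- pass to pairs
  have hinj : Function.Injective fun c' : ι → Option κ => (cls c' m, del m c') := by
    intro a b h
    simp only [Prod.mk.injEq] at h
    obtain ⟨h2, h3⟩ := h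
    funext p
    have h4 : a p = some m ↔ b p = some m := by rw [← mem_cls, ← mem_cls, h2]
    have h5 := congrFun h3 p
    unfold del at h5
    by_cases h6 : a p = some m
    · rw [h6, h4.1 h6]
    · rwa [if_neg h6, if_neg fun h7 => h6 (h4.2 h7)] at h5
  have h2 : ∑ c' : ι → Option κ, (γ (cls c' m) * ws w (cls c' m)) *
      ∏ p, kB m (w' p - w p) (c p) (del m c' p) ≤
      ∑ x : Finset ι × (ι → Option κ), (γ x.1 * ws w x.1) *
        ∏ p, kB m (w' p - w p) (c p) (x.2 p) := by
    have h3 := Finset.sum_image (s := (univ : Finset (ι → Option κ)))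
      (g := fun c' : ι → Option κ => (cls c' m, del m c'))
      (f := fun x : Finset ι × (ι → Option κ) => (γ x.1 * ws w x.1) *
        ∏ p, kB m (w' p - w p) (c p) (x.2 p)) hinj.injOn
    simp only at h3
    rw [← h3]
    refine Finset.sum_le_sum_of_subset_of_nonneg (Finset.subset_univ _) fun x _ _ => ?_
    exact mul_nonneg (mul_nonneg (hG.g_nonneg _) (ws_nonneg hG.w_nonneg _))
      (Finset.prod_nonneg fun p _ => kB_nonneg m (he p) _ _)
  refine h2.trans ?_
  rw [Fintype.sum_prod_type]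
  simp only [← Finset.mul_sum]
  rw [← Finset.sum_mul]
  have h7 : A1 w γ = ∑ S : Finset ι, γ S * ws w S := rfl
  rw [← h7]
  have hA : 0 ≤ A1 w γ := Finset.sum_nonneg fun S _ =>
    mul_nonneg (hG.g_nonneg _) (ws_nonneg hG.w_nonneg _)
  refine mul_le_mul_of_nonneg_left ?_ hA
  rw [← prod_local (fun p a => kB m (w' p - w p) (c p) a)]
  -- local sums
  have h8 : ∀ p, ∑ a : Option κ, kB m (w' p - w p) (c p) a ≤
      1 + Fintype.card κ * (w' p - w p) := by
    intro p
    rw [Fintype.sum_option]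
    rcases c p with _ | i
    · simp only [kB]
      have h9 : ∑ j : κ, (if j = m then (0 : ℝ) else w' p - w p) ≤ ∑ j : κ, (w' p - w p) := by
        refine Finset.sum_le_sum fun j _ => ?_
        split_ifs
        · exact he p
        · exact le_rfl
      rw [Finset.sum_const, Finset.card_univ, nsmul_eq_mul] at h9
      (clear * - h9; linarith)
    · simp only [kB]
      rw [Finset.sum_ite_eq univ i]
      simp only [Finset.mem_univ, if_true]
      have : 0 ≤ (Fintype.card κ : ℝ) * (w' p - w p) := mul_nonneg (Nat.cast_nonneg _) (he p)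
      (clear * - this; linarith)
  have h9 : ∏ p, ∑ a : Option κ, kB m (w' p - w p) (c p) a ≤
      ∏ p, (1 + Fintype.card κ * (w' p - w p)) :=
    Finset.prod_le_prod (fun p _ => Finset.sum_nonneg fun a _ => kB_nonneg m (he p) _ _)
      fun p _ => h8 p
  have h10 := prod_one_add_le (fun p => (Fintype.card κ : ℝ) * (w' p - w p))
    (fun p => mul_nonneg (Nat.cast_nonneg _) (he p))
  have h11 : ∑ p, (Fintype.card κ : ℝ) * (w' p - w p) ≤ 2 * Fintype.card κ * η := by
    rw [← Finset.mul_sum]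
    have h12 : ∑ p, (w' p - w p) ≤ 2 * ∑ p, w p ^ 2 := by
      rw [Finset.mul_sum]
      exact Finset.sum_le_sum fun p _ => hw2 p
    have h13 : (0 : ℝ) ≤ Fintype.card κ := Nat.cast_nonneg _
    have h14 := hG.sq
    (clear * - h12 h14; nlinarith)
  have hK : (1 : ℝ) ≤ Fintype.card κ := by
    have : 0 < Fintype.card κ := Fintype.card_pos_iff.2 ⟨m⟩
    exact_mod_cast this
  have hη : 0 ≤ η := le_trans (Finset.sum_nonneg fun p _ => sq_nonneg _) hG.sq
  have h12 : 2 * Fintype.card κ * η ≤ 1 / 2 := by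
    have := hG.eta
    have h13 : (Fintype.card κ : ℝ) * η ≤ (Fintype.card κ : ℝ) ^ 2 * η := by
      refine mul_le_mul_of_nonneg_right ?_ hη
      (clear * - hK; nlinarith)
    (clear * - this h13; nlinarith)
  have h13 := exp_le_two (mul_nonneg (by (clear * - hK; positivity)) hη : 0 ≤ 2 * (Fintype.card κ : ℝ) * η) h12
  have h14 := Real.exp_le_exp.2 h11
  have h15 : 1 + 2 * (2 * (Fintype.card κ : ℝ) * η) = 1 + 4 * Fintype.card κ * η := by ring
  rw [h15] at h13
  exact (h9.trans h10).trans (h14.trans h13)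

/-- The factors for the classes. -/
noncomputable def Gc (m : κ) (w : ι → ℝ) (γ : Finset ι → ℝ) (i : κ) (S : Finset ι) : ℝ :=
  if i = m then (if S = ∅ then 1 else 0) else γ S ^ 2 * ws w S

theorem Gc_nonneg (hw : ∀ p, 0 ≤ w p) (m i : κ) (S : Finset ι) : 0 ≤ Gc m w γ i S := by
  unfold Gc
  split_ifs
  · exact zero_le_one
  · exact le_rfl
  · exact mul_nonneg (sq_nonneg _) (ws_nonneg hw _)

theorem Gc_sum (m i : κ) : ∑ S : Finset ι, Gc m w γ i S = if i = m then 1 else B1 w γ := by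
  unfold Gc
  split_ifs with h
  · rw [Finset.sum_ite_eq' univ (∅ : Finset ι)]
    simp
  · rfl

theorem Gc_prod_sum (m : κ) : ∏ i : κ, ∑ S : Finset ι, Gc m w γ i S =
    B1 w γ ^ (Fintype.card κ - 1) := by
  simp only [Gc_sum]
  rw [← Finset.mul_prod_erase univ _ (Finset.mem_univ m), if_pos rfl, one_mul]
  have h1 : ∀ i ∈ univ.erase m, (if i = m then (1 : ℝ) else B1 w γ) = B1 w γ := by
    intro i hi
    rw [if_neg (Finset.ne_of_mem_erase hi)]
  rw [Finset.prod_congr rfl h1, Finset.prod_const, Finset.card_erase_of_mem (Finset.mem_univ m),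
    Finset.card_univ]

theorem wprime_ge (hG : Good (Fintype.card κ) w t γ τ η) (hw1 : ∀ p, w p ≤ w' p)
    (hw2 : ∀ p, w' p - w p ≤ 2 * w p ^ 2) (m : κ) (p : ι) :
    w p * (1 - 2 * Fintype.card κ * w p) ≤ w' p * (1 - ((Fintype.card κ : ℝ) - 1) * w' p) := by
  have hK : (1 : ℝ) ≤ Fintype.card κ := by
    have : 0 < Fintype.card κ := Fintype.card_pos_iff.2 ⟨m⟩
    exact_mod_cast this
  have h0 := hG.w_nonneg p
  have h1 := hG.w_le p
  have h2 := hw1 p
  have h3 := hw2 p
  have h4 : 8 * w p ≤ 1 := by (clear * - hK h1; nlinarith)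
  have h5 : w' p ≤ 5 / 4 * w p := by (clear * - h3 hK h0 h1; nlinarith)
  have h6 : ((Fintype.card κ : ℝ) - 1) * w' p ≤ ((Fintype.card κ : ℝ) - 1) * (5 / 4 * w p) :=
    mul_le_mul_of_nonneg_left h5 (by (clear * - hK; linarith))
  have h7 : ((Fintype.card κ : ℝ) - 1) * (5 / 4 * w p) ≤ 2 * Fintype.card κ * w p := by (clear * - h0; nlinarith)
  have h8 : 2 * Fintype.card κ * w p ≤ 1 := by (clear * - h0 h1; nlinarith)
  calc w p * (1 - 2 * Fintype.card κ * w p) ≤ w' p * (1 - 2 * Fintype.card κ * w p) :=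
        mul_le_mul_of_nonneg_right h2 (by (clear * - h0 h1; linarith))
    _ ≤ _ := mul_le_mul_of_nonneg_left (by (clear * - h6 h7; linarith)) (h0.trans h2)

theorem prod_wprime_ge (hG : Good (Fintype.card κ) w t γ τ η) (hw1 : ∀ p, w p ≤ w' p)
    (hw2 : ∀ p, w' p - w p ≤ 2 * w p ^ 2) (m : κ) (S : Finset ι) :
    ws w S * (1 - 2 * Fintype.card κ * ∑ p ∈ S, w p) ≤
      ∏ p ∈ S, w' p * (1 - ((Fintype.card κ : ℝ) - 1) * w' p) := by
  have hK : (1 : ℝ) ≤ Fintype.card κ := by
    have : 0 < Fintype.card κ := Fintype.card_pos_iff.2 ⟨m⟩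
    exact_mod_cast this
  have h8 : ∀ p, 2 * Fintype.card κ * w p ≤ 1 := by
    intro p
    have h0 := hG.w_nonneg p
    have h1 := hG.w_le p
    nlinarith
  have h9 : ∀ p, 0 ≤ 2 * Fintype.card κ * w p := fun p =>
    mul_nonneg (by (clear * - hK; linarith)) (hG.w_nonneg p)
  have h1 : ∏ p ∈ S, w p * (1 - 2 * Fintype.card κ * w p) ≤
      ∏ p ∈ S, w' p * (1 - ((Fintype.card κ : ℝ) - 1) * w' p) := by
    refine Finset.prod_le_prod (fun p _ => mul_nonneg (hG.w_nonneg p) (by linarith [h8 p]))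
      fun p _ => wprime_ge hG hw1 hw2 m p
  refine le_trans ?_ h1
  rw [Finset.prod_mul_distrib]
  refine mul_le_mul_of_nonneg_left ?_ (ws_nonneg hG.w_nonneg S)
  have h2 := one_sub_le_prod (fun p => 2 * (Fintype.card κ : ℝ) * w p) S h9 h8
  rwa [← Finset.mul_sum] at h2

theorem Phi_eq {m : κ} {c : ι → Option κ} (hc : cls c m = ∅) :
    ∏ i, Gc m w γ i (cls c i) = Pm m γ c ^ 2 * ws w (supp c) := by
  rw [ws_supp, ← Finset.mul_prod_erase univ _ (Finset.mem_univ m),
    ← Finset.mul_prod_erase univ (fun i => ws w (cls c i)) (Finset.mem_univ m), hc]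
  have h1 : Gc m w γ m (∅ : Finset ι) = 1 := by simp [Gc]
  have h2 : ws w (∅ : Finset ι) = 1 := by simp [ws]
  rw [h1, h2, one_mul, one_mul]
  unfold Pm
  rw [← Finset.prod_pow, ← Finset.prod_mul_distrib]
  refine Finset.prod_congr rfl fun i hi => ?_
  unfold Gc
  rw [if_neg (Finset.ne_of_mem_erase hi)]

end Main

end Pool.Agent.Helper90.MT

end

section

set_option autoImplicit false

set_option linter.unusedSectionVars false

open Finset

namespace Pool.Agent.Helper12.MT

open Pool.Agent.Helper1.MT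

open Pool.Agent.Helper90.MT (ws_nonneg mem_cls mem_supp ws_supp prod_one_add_le)

section Sums

variable {ι κ : Type} [Fintype ι] [Fintype κ] [DecidableEq ι] [DecidableEq κ]

theorem yw_abs_le {t : ι → ℝ} {γ : Finset ι → ℝ} (h0 : ∀ S, 0 ≤ γ S) (h1 : ∀ S, γ S ≤ 1)
    (b : ι → Option κ) : |yw t γ b| ≤ 1 := by
  unfold yw
  rw [abs_mul, abs_pow, abs_neg, abs_one, one_pow, one_mul]
  by_cases h : T t (supp b) ≤ 1
  · rw [if_pos h, abs_of_nonneg (Finset.prod_nonneg fun i _ => h0 _)]
    exact Finset.prod_le_one (fun i _ => h0 _) fun i _ => h1 _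
  · rw [if_neg h, abs_zero]
    exact zero_le_one

theorem yw_sq_le {t : ι → ℝ} {γ : Finset ι → ℝ} (b : ι → Option κ) :
    yw t γ b ^ 2 ≤ ∏ i, γ (cls b i) ^ 2 := by
  unfold yw
  rw [mul_pow, ← pow_mul, mul_comm (supp b).card 2, pow_mul, neg_one_sq, one_pow, one_mul]
  by_cases h : T t (supp b) ≤ 1
  · rw [if_pos h, Finset.prod_pow]
  · rw [if_neg h]
    rw [zero_pow two_ne_zero]
    exact Finset.prod_nonneg fun i _ => sq_nonneg _

end Sums

end Pool.Agent.Helper12.MT

end

section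

set_option autoImplicit false

open Finset

namespace Pool.Agent.Helper81.MT

open Pool.Agent.Helper1.MT Pool.Agent.Helper28.MT

theorem totient_ge {D0 W : ℕ} (hD : 2 ≤ D0) (h : Reg D0 W) :
    1 / (8 * (D0 : ℝ)) ≤ (W.totient : ℝ) / W := by
  have hW : (0 : ℝ) < W := by exact_mod_cast h.pos
  have hD' : (2 : ℝ) ≤ D0 := by exact_mod_cast hD
  have h1 : (W.totient : ℝ) / W = ∏ p ∈ W.primeFactors, (1 - 1 / (p : ℝ)) := by
    have h2 := Nat.totient_eq_mul_prod_factors W
    have h3 : (W.totient : ℝ) = W * ∏ p ∈ W.primeFactors, (1 - (p : ℝ)⁻¹) := by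
      have := congrArg (Rat.cast : ℚ → ℝ) h2
      push_cast at this
      exact this
    rw [h3, mul_div_cancel_left₀ _ hW.ne']
    simp only [one_div]
  rw [h1, ← prod_filter_mul_prod_filter_not W.primeFactors (fun p => p < D0)]
  have hf : ∀ k : ℕ, 2 ≤ k → 0 ≤ 1 - 1 / (k : ℝ) ∧ 1 - 1 / (k : ℝ) ≤ 1 := by
    intro k hk
    have hk' : (2 : ℝ) ≤ k := by exact_mod_cast hk
    have h5 : 0 < 1 / (k : ℝ) := by positivity
    have h6 : 1 / (k : ℝ) ≤ 1 := by rw [div_le_one (by (clear * - hk'; linarith))]; (clear * - hk'; linarith)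
    exact ⟨by (clear * - h6; linarith), by (clear * - h5; linarith)⟩
  have h4 : 1 / ((D0 : ℝ) - 1) ≤ ∏ p ∈ W.primeFactors.filter (fun p => p < D0), (1 - 1 / (p : ℝ)) := by
    rw [← prod_small D0 hD]
    refine prod_le_prod_of_subset_of_le_one ?_ ?_ ?_
    · intro p hp
      rw [mem_filter, Nat.mem_primeFactors] at hp
      rw [mem_Ico]
      exact ⟨hp.1.1.two_le, hp.2⟩
    · intro k hk
      exact (hf k (mem_Ico.1 hk).1).1
    · intro k hk _
      exact (hf k (mem_Ico.1 hk).1).2
  have h5 : 1 / 8 ≤ ∏ p ∈ W.primeFactors.filter (fun p => ¬ p < D0), (1 - 1 / (p : ℝ)) := by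
    have h6 : ∏ p ∈ W.primeFactors.filter (fun p => ¬ p < D0), Real.exp (-(2 * (1 / (p : ℝ)))) ≤
        ∏ p ∈ W.primeFactors.filter (fun p => ¬ p < D0), (1 - 1 / (p : ℝ)) := by
      refine prod_le_prod (fun p _ => (Real.exp_pos _).le) fun p hp => ?_
      rw [mem_filter, Nat.mem_primeFactors] at hp
      have h7 : (2 : ℝ) ≤ p := by exact_mod_cast hp.1.1.two_le
      refine exp_le_sub (by (clear * - h7; positivity)) ?_
      exact one_div_le_one_div_of_le (by norm_num) h7
    refine le_trans ?_ h6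
    rw [← Real.exp_sum]
    have h7 : ∑ p ∈ W.primeFactors.filter (fun p => ¬ p < D0), (-(2 * (1 / (p : ℝ)))) =
        -(2 * ∑ p ∈ W.primeFactors.filter (fun p => D0 ≤ p), 1 / (p : ℝ)) := by
      rw [sum_neg_distrib, mul_sum]
      simp only [not_lt]
    rw [h7]
    have h8 := h.few
    have h9 : Real.exp (-2) ≤
        Real.exp (-(2 * ∑ p ∈ W.primeFactors.filter (fun p => D0 ≤ p), 1 / (p : ℝ))) :=
      Real.exp_le_exp.2 (by (clear * - h8; linarith))
    refine le_trans ?_ h9
    rw [Real.exp_neg, one_div]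
    apply inv_anti₀ (Real.exp_pos _)
    have h10 : Real.exp 2 = Real.exp 1 * Real.exp 1 := by rw [← Real.exp_add]; norm_num
    have h11 := Real.exp_one_lt_d9
    have h12 := Real.exp_pos 1
    rw [h10]
    (clear * - h11 h12; nlinarith)
  have h6 : 1 / (8 * (D0 : ℝ)) ≤ 1 / ((D0 : ℝ) - 1) * (1 / 8) := by
    rw [div_mul_div_comm, one_mul]
    exact one_div_le_one_div_of_le (by (clear * - hD'; linarith)) (by (clear * -; linarith))
  refine h6.trans ?_
  apply mul_le_mul h4 h5 (by norm_num)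
  exact prod_nonneg fun p hp => (hf p (by
    rw [mem_filter, Nat.mem_primeFactors] at hp
    exact hp.1.1.two_le)).1

end Pool.Agent.Helper81.MT

end

section

set_option autoImplicit false

open Finset

namespace Pool.Agent.Helper37.MT

open Pool.Agent.Helper1.MT

theorem shiftsU : ShiftsU := by
  classical
  intro M κ0 D0 hM hκ0 hD0
  set K := M * κ0 with hK
  have hK1 : 1 ≤ K := Nat.mul_pos hM hκ0
  have hKD0 : K + 2 ≤ D0 := (Nat.le_self_pow (by norm_num) _).trans hD0
  have hMK : M ≤ K := Nat.le_mul_of_pos_right _ hκ0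
  have hκK : κ0 ≤ K := Nat.le_mul_of_pos_left _ hM
  refine ⟨(D0 - 1).factorial, D0 + 4 * K + 3 * M + 768 * K ^ 2 * M, Nat.factorial_pos _,
    by omega, ?_⟩
  intro D hD
  set Q := (D0 - 1).factorial with hQ
  have hQ0 : 0 < Q := Nat.factorial_pos _
  have hκD : κ0 < D := by omega
  obtain ⟨E, hDE, hE2, hEs⟩ := exists_spacing hM hκ0 hD0 (D := D) (by rw [← hK]; omega) hκD.le
  have hκE : κ0 < E := by omega
  set I := Ico 1 M ×ˢ range (2 * κ0) with hI
  set P := (Icc D0 (3 * M * D)).filter Nat.Prime with hP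
  set T := I.biUnion (fun i => P.filter (fun p => p ∣ ff κ0 i E)) with hT
  set S := (range D0).filter Nat.Prime ∪ T with hS
  have hTp : ∀ p ∈ T, p.Prime ∧ D0 ≤ p := by
    intro p hp
    rw [hT, mem_biUnion] at hp
    obtain ⟨i, _, hp⟩ := hp
    rw [mem_filter, hP, mem_filter, mem_Icc] at hp
    exact ⟨hp.1.2, hp.1.1.1⟩
  have hSp : ∀ p ∈ S, p.Prime := by
    intro p hp
    rw [hS, mem_union] at hp
    rcases hp with hp | hp
    · exact (mem_filter.1 hp).2
    · exact (hTp p hp).1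
  have hpQ : ∀ p : ℕ, p.Prime → (p ∣ Q ↔ p < D0) := by
    intro p hp
    rw [hQ, hp.dvd_factorial]
    omega
  -- residues
  have hres : ∀ p : ℕ, p.Prime → ∃ r : ℕ, ∀ a : Fin M × Fin κ0, ¬ p ∣ r + hh Q E a := by
    intro p hp
    by_cases hpD : p < D0
    · refine ⟨1, ?_⟩
      intro a hdvd
      have hpQ' : p ∣ hh Q E a := Dvd.dvd.mul_right ((hpQ p hp).2 hpD) _
      have := (Nat.dvd_add_left hpQ').1 hdvd
      exact hp.one_lt.ne' (Nat.dvd_one.1 this)
    · exact avoid (p := p) (by omega) (fun a : Fin M × Fin κ0 => hh Q E a)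
  choose! r hr1 using hres
  have hco : Set.Pairwise (S : Set ℕ) (Function.onFun Nat.Coprime (fun p : ℕ => p)) := by
    intro a ha b hb hab
    exact (Nat.coprime_primes (hSp a (mem_coe.1 ha)) (hSp b (mem_coe.1 hb))).2 hab
  obtain ⟨v, hv⟩ := Nat.chineseRemainderOfFinset r (fun p : ℕ => p) S
    (fun p hp => (hSp p hp).ne_zero) hco
  set W := ∏ p ∈ S, p with hW
  have hWpos : 0 < W := Finset.prod_pos fun p hp => (hSp p hp).pos
  have hWsmall : ∀ p : ℕ, p.Prime → p < D0 → p ∣ W := by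
    intro p hp hpD
    exact dvd_prod_of_mem _ (mem_union_left _ (mem_filter.2 ⟨mem_range.2 hpD, hp⟩))
  have hWT : ∀ p : ℕ, p.Prime → ∀ i ∈ I, p ∣ ff κ0 i E → p ∣ W := by
    intro p hp i hi hdvd
    by_cases hpD : p < D0
    · exact hWsmall p hp hpD
    · apply dvd_prod_of_mem
      refine mem_union_right _ (mem_biUnion.2 ⟨i, hi, mem_filter.2 ⟨mem_filter.2
        ⟨mem_Icc.2 ⟨by omega, ?_⟩, hp⟩, hdvd⟩⟩)
      rw [hI, mem_product, mem_Ico, mem_range] at hi
      exact (Nat.le_of_dvd (ff_pos (by omega) hκE) hdvd).trans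
        (ff_le hi.1.2 hi.2 hκD.le hE2)
  -- the differences
  have hdiff1 : ∀ (a c : Fin M × Fin κ0), c.1.val < a.1.val → ∀ p : ℕ, p.Prime →
      (p : ℤ) ∣ ((a.1.val : ℤ) - c.1.val) * E + ((a.2.val : ℤ) - c.2.val) → p ∣ W := by
    intro a c hac p hp hdvd
    have ha1 := a.1.isLt
    have ha2 := a.2.isLt
    have hc1 := c.1.isLt
    have hc2 := c.2.isLt
    apply hWT p hp (a.1.val - c.1.val, κ0 + a.2.val - c.2.val)
    · rw [hI, mem_product, mem_Ico, mem_range]
      constructor
      · constructor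
        · show 1 ≤ a.1.val - c.1.val
          omega
        · show a.1.val - c.1.val < M
          omega
      · show κ0 + a.2.val - c.2.val < 2 * κ0
        omega
    · apply Int.natCast_dvd_natCast.1
      rw [ff_cast (by show 0 < a.1.val - c.1.val; omega) hκE.le]
      have h1 : (((a.1.val - c.1.val : ℕ)) : ℤ) = (a.1.val : ℤ) - c.1.val := by
        rw [Nat.cast_sub hac.le]
      have h2 : (((κ0 + a.2.val - c.2.val : ℕ)) : ℤ) = (κ0 : ℤ) + a.2.val - c.2.val := by
        rw [Nat.cast_sub (by omega)]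
        push_cast
        ring
      show (p : ℤ) ∣ (((a.1.val - c.1.val : ℕ)) : ℤ) * E +
        (((κ0 + a.2.val - c.2.val : ℕ)) : ℤ) - κ0
      rw [h1, h2]
      have h3 : ((a.1.val : ℤ) - c.1.val) * E + ((κ0 : ℤ) + a.2.val - c.2.val) - κ0 =
          ((a.1.val : ℤ) - c.1.val) * E + ((a.2.val : ℤ) - c.2.val) := by ring
      rw [h3]
      exact hdvd
  have hdiff : ∀ (a c : Fin M × Fin κ0), a ≠ c → ∀ p : ℕ, p.Prime →
      (p : ℤ) ∣ ((hh Q E a : ℕ) : ℤ) - ((hh Q E c : ℕ) : ℤ) → p ∣ W := by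
    intro a c hac p hp hdvd
    have h1 : ((hh Q E a : ℕ) : ℤ) - ((hh Q E c : ℕ) : ℤ) =
        (Q : ℤ) * (((a.1.val : ℤ) - c.1.val) * E + ((a.2.val : ℤ) - c.2.val)) := by
      unfold hh
      push_cast
      ring
    rw [h1] at hdvd
    rcases (Nat.prime_iff_prime_int.1 hp).dvd_or_dvd hdvd with h2 | h2
    · exact hWsmall p hp ((hpQ p hp).1 (Int.natCast_dvd_natCast.1 h2))
    · rcases lt_trichotomy c.1.val a.1.val with h3 | h3 | h3
      · exact hdiff1 a c h3 p hp h2
      · rw [h3, sub_self, zero_mul, zero_add] at h2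
        have h4 : a.2.val ≠ c.2.val := by
          intro h4
          exact hac (Prod.ext (Fin.ext h3.symm) (Fin.ext h4))
        have h5 : p ∣ ((a.2.val : ℤ) - c.2.val).natAbs := Int.natCast_dvd.1 h2
        have h6 := Nat.le_of_dvd (by (clear * - D0 D E p h4; omega)) h5
        have ha2 := a.2.isLt
        have hc2 := c.2.isLt
        exact hWsmall p hp (by omega)
      · apply hdiff1 c a h3 p hp
        have h4 : ((c.1.val : ℤ) - a.1.val) * E + ((c.2.val : ℤ) - a.2.val) =
            -(((a.1.val : ℤ) - c.1.val) * E + ((a.2.val : ℤ) - c.2.val)) := by ring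
        rw [h4]
        exact (dvd_neg).2 h2
  refine ⟨E, W, v, hDE, hE2, ⟨hWpos, hWsmall, fun i j hij p hp h => hdiff i j hij p hp h,
    hh_inj hQ0 hκE.le, ?_⟩, ⟨hWpos, hWsmall, ?_⟩, ?_⟩
  · intro i
    show Nat.Coprime (v + hh Q E i) W
    refine Nat.Coprime.prod_right fun p hp => ?_
    have hpp := hSp p hp
    rw [Nat.coprime_comm, hpp.coprime_iff_not_dvd]
    intro hdvd
    apply hr1 p hpp i
    have h1 : v + hh Q E i ≡ r p + hh Q E i [MOD p] := Nat.ModEq.add_right _ (hv p hp)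
    exact (Nat.modEq_zero_iff_dvd).1 (h1.symm.trans ((Nat.modEq_zero_iff_dvd).2 hdvd))
  · have h1 : W.primeFactors = S := by
      rw [hW]
      exact Nat.primeFactors_prod hSp
    rw [h1]
    have h2 : S.filter (fun p => D0 ≤ p) ⊆ T := by
      intro p hp
      rw [mem_filter, hS, mem_union, mem_filter, mem_range] at hp
      rcases hp with ⟨hp | hp, hp2⟩
      · omega
      · exact hp
    calc ∑ p ∈ S.filter (fun p => D0 ≤ p), 1 / (p : ℝ) ≤ ∑ p ∈ T, 1 / (p : ℝ) := by
          apply sum_le_sum_of_subset_of_nonneg h2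
          intro i _ _
          (clear * -; positivity)
      _ ≤ ∑ i ∈ I, ∑ p ∈ P.filter (fun p => p ∣ ff κ0 i E), 1 / (p : ℝ) := by
          rw [hT]
          exact sum_biUnion_le' _ _ _ (fun p => by (clear * -; positivity))
      _ ≤ 1 := hEs
  · -- the bound for `W`
    have hD1 : D0 + 4 * K + 3 * M ≤ D := by omega
    have h1 : W ≤ (∏ p ∈ (range D0).filter Nat.Prime, p) * ∏ p ∈ T, p := by
      rw [hW, hS, prod_union]
      rw [Finset.disjoint_left]
      intro p hp hp2
      have h3 := mem_range.1 (mem_filter.1 hp).1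
      have h4 := (hTp p hp2).2
      omega
    have h2 : ∏ p ∈ (range D0).filter Nat.Prime, p ≤ D ^ D0 := by
      calc ∏ p ∈ (range D0).filter Nat.Prime, p ≤ D ^ ((range D0).filter Nat.Prime).card := by
            apply prod_le_pow_card
            intro p hp
            have := mem_range.1 (mem_filter.1 hp).1
            omega
        _ ≤ D ^ D0 := by
            apply Nat.pow_le_pow_right (by omega)
            calc ((range D0).filter Nat.Prime).card ≤ (range D0).card := card_filter_le _ _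
              _ = D0 := card_range _
    have h3 : ∏ p ∈ T, p ≤ ∏ i ∈ I, ff κ0 i E := by
      apply Nat.le_of_dvd
      · apply prod_pos
        intro i hi
        rw [hI, mem_product, mem_Ico, mem_range] at hi
        exact ff_pos (by omega) hκE
      · apply Finset.prod_primes_dvd
        · intro p hp
          exact (hTp p hp).1.prime
        · intro p hp
          rw [hT, mem_biUnion] at hp
          obtain ⟨i, hi, hp⟩ := hp
          exact (mem_filter.1 hp).2.trans (dvd_prod_of_mem _ hi)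
    have h4 : ∏ i ∈ I, ff κ0 i E ≤ (D ^ 2) ^ (2 * K) := by
      calc ∏ i ∈ I, ff κ0 i E ≤ (D ^ 2) ^ I.card := by
            apply prod_le_pow_card
            intro i hi
            rw [hI, mem_product, mem_Ico, mem_range] at hi
            refine (ff_le hi.1.2 hi.2 hκD.le hE2).trans ?_
            rw [pow_two]
            exact Nat.mul_le_mul_right _ (by omega)
        _ ≤ (D ^ 2) ^ (2 * K) := by
            apply Nat.pow_le_pow_right (Nat.pow_pos (by omega))
            rw [hI, card_product, Nat.card_Ico, card_range, hK]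
            calc (M - 1) * (2 * κ0) ≤ M * (2 * κ0) := Nat.mul_le_mul_right _ (by omega)
              _ = 2 * (M * κ0) := by ring
    calc W ≤ (∏ p ∈ (range D0).filter Nat.Prime, p) * ∏ p ∈ T, p := h1
      _ ≤ D ^ D0 * (D ^ 2) ^ (2 * K) := Nat.mul_le_mul h2 (h3.trans h4)
      _ = D ^ (D0 + 4 * K) := by
          rw [← pow_mul, ← pow_add]
          congr 1
          ring
      _ ≤ D ^ (D0 + 4 * K + 3 * M + 768 * K ^ 2 * M) := by
          apply Nat.pow_le_pow_right (by omega)
          (clear * - hM D E; omega)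

end Pool.Agent.Helper37.MT

end
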