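import Pool.Agent.Helper23.MT.L00_abcd0
import Pool.Agent.Helper23.MT.L00_b0
import Pool.Agent.Helper23.MT.L00_bc0
import Pool.Agent.Helper23.MT.L00_bd0

/-!
Parts of Helper44.MertensProd, Helper44.Bonferroni, Helper44.SievePairs, Helper96.CPAP.BHk, Helper96.CPAP.SieveK, Helper30.Gap.PairSieve, Helper99.LR.Main
-/

namespace Pool.Agent.Helper44
end Pool.Agent.Helper44
namespace Pool.Agent.Helper96.CPAP
end Pool.Agent.Helper96.CPAP

section

set_option autoImplicit false

open Finset Real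

namespace Pool.Agent.Helper44

theorem mertens_prod : ∃ c C : ℝ, 0 < c ∧ 0 < C ∧ ∀ w : ℝ, 2 ≤ w →
    c / Real.log w ≤ ∏ q ∈ primesUpTo w, (1 - (1 : ℝ) / q) ∧
    ∏ q ∈ primesUpTo w, (1 - (1 : ℝ) / q) ≤ C / Real.log w := by
  obtain ⟨C, hC, hM⟩ := sum_primesUpTo_bounds
  obtain ⟨C2, hC2, hS⟩ := sum_inv_sq_le
  refine ⟨Real.exp (-(C + 2 * C2)), Real.exp C, Real.exp_pos _, Real.exp_pos _, ?_⟩
  intro w hw
  have hlw : 0 < Real.log w := Real.log_pos (by linarith)
  have h1 := hM w hw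
  rw [abs_le] at h1
  have hq : ∀ q ∈ primesUpTo w, (0 : ℝ) ≤ 1 / q ∧ (1 : ℝ) / q ≤ 1 / 2 := by
    intro q hq
    rw [mem_primesUpTo (by (clear * - hw; linarith))] at hq
    have : (2 : ℝ) ≤ q := by exact_mod_cast hq.1.two_le
    exact ⟨by (clear * - this; positivity), one_div_le_one_div_of_le (by norm_num) this⟩
  constructor
  · calc Real.exp (-(C + 2 * C2)) / Real.log w
        = Real.exp (-(C + 2 * C2) - Real.log (Real.log w)) := by
          rw [Real.exp_sub, Real.exp_log hlw]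
      _ ≤ Real.exp (-∑ q ∈ primesUpTo w, ((1 : ℝ) / q + 2 * ((1 : ℝ) / q) ^ 2)) := by
          apply Real.exp_le_exp.mpr
          rw [Finset.sum_add_distrib, ← Finset.mul_sum]
          have := hS (primesUpTo w)
          linarith [h1.2]
      _ = ∏ q ∈ primesUpTo w, Real.exp (-((1 : ℝ) / q + 2 * ((1 : ℝ) / q) ^ 2)) := by
          rw [← Finset.sum_neg_distrib, Real.exp_sum]
      _ ≤ ∏ q ∈ primesUpTo w, (1 - (1 : ℝ) / q) := by
          apply Finset.prod_le_prod
          · intro q _; exact (Real.exp_pos _).le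
          · intro q hq'
            exact one_sub_ge_exp' (hq q hq').1 (hq q hq').2
  · calc ∏ q ∈ primesUpTo w, (1 - (1 : ℝ) / q)
        ≤ ∏ q ∈ primesUpTo w, Real.exp (-((1 : ℝ) / q)) := by
          apply Finset.prod_le_prod
          · intro q hq'
            (clear * - hq hq'; linarith [(hq q hq').2])
          · intro q _
            have := Real.add_one_le_exp (-((1 : ℝ) / q))
            (clear * - this; linarith)
      _ = Real.exp (-∑ q ∈ primesUpTo w, (1 : ℝ) / q) := by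
          rw [← Real.exp_sum, Finset.sum_neg_distrib]
      _ ≤ Real.exp (C - Real.log (Real.log w)) := by
          apply Real.exp_le_exp.mpr
          linarith [h1.1]
      _ = Real.exp C / Real.log w := by rw [Real.exp_sub, Real.exp_log hlw]

end Pool.Agent.Helper44

end

section

set_option autoImplicit false

open Finset

namespace Pool.Agent.Helper44

variable {ι : Type*} [DecidableEq ι]

theorem tr_succ (B : Finset ι) (m : ℕ) (x : ι → ℝ) :
    tr B (m + 1) x = tr B m x + (-1) ^ (m + 1) * es B (m + 1) x := by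
  unfold tr es
  rw [Finset.mul_sum, ← Finset.sum_add_distrib]
  apply Finset.sum_congr rfl
  intro I _
  rcases lt_trichotomy I.card (m + 1) with h | h | h
  · rw [if_pos (by omega), if_pos (by omega), if_neg (by omega)]; ring
  · rw [if_pos (by omega), if_neg (by omega), if_pos h, h]; ring
  · rw [if_neg (by omega), if_neg (by omega), if_neg (by omega)]; ring

theorem es_nonneg (B : Finset ι) (m : ℕ) (x : ι → ℝ) (hx : ∀ i ∈ B, 0 ≤ x i) :
    0 ≤ es B m x := by
  unfold es
  apply Finset.sum_nonneg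
  intro I hI
  split_ifs
  · exact Finset.prod_nonneg fun i hi => hx i (Finset.mem_powerset.mp hI hi)
  · exact le_rfl

theorem tr_even_le (B : Finset ι) (x : ι → ℝ) (hx : ∀ i ∈ B, 0 ≤ x i ∧ x i ≤ 1) (m : ℕ)
    (hm : Even m) : tr B m x ≤ ∏ i ∈ B, (1 - x i) + es B (m + 1) x := by
  have h := bonferroni B x hx (m + 1)
  rw [tr_succ, hm.add_one.neg_one_pow] at h
  (clear * - h; linarith)

end Pool.Agent.Helper44

end

section

set_option autoImplicit false

open Finset Real

namespace Pool.Agent.Helper44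

theorem sum_dens_blk_le : ∃ S0 : ℝ, 0 < S0 ∧ ∀ w : ℝ, 2 ≤ w → ∀ j : ℕ,
    ∑ i ∈ blk w j, dens i ≤ S0 := by
  obtain ⟨C, hC, hM⟩ := mertens_interval
  have hl2 : 0 < Real.log 2 := Real.log_pos (by norm_num)
  refine ⟨2 * (Real.log 2 + C / Real.log 2) + 8, by (clear * - hC; positivity), ?_⟩
  intro w hw j
  rw [sum_dens_blk]
  have hw1 : (1 : ℝ) ≤ w := by linarith
  rcases lt_or_ge (zs w (j + 1)) 2 with h | h
  · -- small scale
    have h4 : zs w j < 4 := by
      rw [← zs_succ_sq hw1 j]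
      have := one_le_zs hw1 (j + 1)
      (clear * - h this; nlinarith)
    have hfl : ⌊zs w j⌋₊ ≤ 3 := by
      have : ⌊zs w j⌋₊ < 4 := by
        rw [Nat.floor_lt (zs_pos hw1 j).le]
        exact_mod_cast h4
      omega
    have : ∑ q ∈ (Finset.Ioc ⌊zs w (j + 1)⌋₊ ⌊zs w j⌋₊).filter Nat.Prime, (1 : ℝ) / q ≤ 4 := by
      calc ∑ q ∈ (Finset.Ioc ⌊zs w (j + 1)⌋₊ ⌊zs w j⌋₊).filter Nat.Prime, (1 : ℝ) / q
          ≤ ∑ q ∈ (Finset.Ioc ⌊zs w (j + 1)⌋₊ ⌊zs w j⌋₊).filter Nat.Prime, 1 := by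
            apply Finset.sum_le_sum
            intro q hq
            have : (1 : ℝ) ≤ q := by exact_mod_cast (Finset.mem_filter.mp hq).2.one_lt.le
            rw [div_le_one (by (clear * - this; linarith))]
            exact this
        _ = ((Finset.Ioc ⌊zs w (j + 1)⌋₊ ⌊zs w j⌋₊).filter Nat.Prime).card := by simp
        _ ≤ (4 : ℕ) := by
            have h1 : ((Finset.Ioc ⌊zs w (j + 1)⌋₊ ⌊zs w j⌋₊).filter Nat.Prime).card ≤
              (Finset.Ioc ⌊zs w (j + 1)⌋₊ ⌊zs w j⌋₊).card := Finset.card_filter_le _ _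
            rw [Nat.card_Ioc] at h1
            exact_mod_cast (by omega)
        _ = 4 := by norm_num
    have : 0 < C / Real.log 2 := by (clear * - hC; positivity)
    linarith
  · have h1 := hM (zs w (j + 1)) (zs w j) h (zs_succ_le hw1 j)
    have hlz : 0 < Real.log (zs w (j + 1)) := Real.log_pos (by (clear * - h; linarith))
    have h2 : Real.log (zs w j) / Real.log (zs w (j + 1)) = 2 := by
      rw [← zs_succ_sq hw1 j, Real.log_pow]
      push_cast
      (clear * - hlz; field_simp)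
    rw [h2] at h1
    have h3 : C / Real.log (zs w (j + 1)) ≤ C / Real.log 2 := by
      apply div_le_div_of_nonneg_left hC.le hl2
      exact Real.log_le_log (by norm_num) h
    rw [abs_le] at h1
    linarith [h1.2]

theorem biUnion_blk {w : ℝ} (hw : 2 ≤ w) :
    (Finset.univ : Finset (Fin (nb w))).biUnion (fun j => blk w j) =
      primesUpTo w ×ˢ (Finset.univ : Finset Bool) := by
  have hw1 : (1 : ℝ) ≤ w := by linarith
  ext i
  simp only [Finset.mem_biUnion, Finset.mem_univ, true_and, mem_blk, Finset.mem_product, and_true]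
  rw [mem_primesUpTo (by linarith)]
  constructor
  · rintro ⟨j, ⟨_, h2⟩, h3⟩
    refine ⟨h3, ?_⟩
    have h4 : (i.1 : ℝ) ≤ zs w j := (Nat.le_floor_iff (zs_pos hw1 j).le).mp h2
    have h5 : zs w j ≤ w := by
      have := zs_anti hw1 (Nat.zero_le (j : ℕ))
      rwa [zs_zero] at this
    (clear * - h4 h5; linarith)
  · rintro ⟨hq, hle⟩
    -- find the last scale at least `i.1`
    have hex : ∃ j : ℕ, j < nb w ∧ (i.1 ≤ ⌊zs w j⌋₊ ∧ ¬ i.1 ≤ ⌊zs w (j + 1)⌋₊) := by
      by_contra hcon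
      push Not at hcon
      have hall : ∀ j : ℕ, j ≤ nb w → i.1 ≤ ⌊zs w j⌋₊ := by
        intro j
        induction j with
        | zero =>
          intro _
          rw [zs_zero, Nat.le_floor_iff (by (clear * - hw; linarith))]
          exact hle
        | succ n ih =>
          intro hn
          exact hcon n (by omega) (ih (by omega))
      have h6 := hall (nb w) le_rfl
      have h7 : (i.1 : ℝ) ≤ zs w (nb w) := (Nat.le_floor_iff (zs_pos hw1 _).le).mp h6
      have h8 := zs_nb_lt hw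
      have h9 : (2 : ℝ) ≤ i.1 := by exact_mod_cast hq.two_le
      (clear * - h7 h8 h9; linarith)
    obtain ⟨j, hj, h1, h2⟩ := hex
    exact ⟨⟨j, hj⟩, ⟨by simpa using h2, h1⟩, hq⟩

end Pool.Agent.Helper44

end

section

set_option autoImplicit false

set_option linter.unusedSectionVars false

open Finset

namespace Pool.Agent.Helper96.CPAP

open Pool.Agent.Helper44

variable {ι : Type*} [DecidableEq ι] {α : Type*}

/-- The Brun-Hooley sieve, raw form. -/
theorem brun_hooley_rawK {t : ℕ} (Ω : Finset α) (occ : ι → α → Prop)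
    (B : Fin t → Finset ι) (hB : ∀ i j, i ≠ j → Disjoint (B i) (B j)) (x : ι → ℝ) (X E κ : ℝ)
    (hE : 0 ≤ E) (hκ : 1 ≤ κ)
    (hcnt : ∀ I : Finset ι, I ⊆ Finset.univ.biUnion B →
      |evCount Ω (fun ω => ∀ i ∈ I, occ i ω) - X * ∏ i ∈ I, x i| ≤ E * κ ^ I.card)
    (m : Fin t → ℕ) (hm : ∀ j, Even (m j)) :
    evCount Ω (fun ω => ∀ j, ∀ i ∈ B j, ¬ occ i ω) ≤
        X * ∏ j, tr (B j) (m j) x + E * ∏ j, (κ * ((B j).card : ℝ) + 1) ^ (m j + 1) ∧
    X * (∏ j, tr (B j) (m j) x -
        ∑ l, ∏ j, (if j = l then es (B l) (m l + 1) x else tr (B j) (m j) x)) -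
      E * ((t + 1) * ∏ j, (κ * ((B j).card : ℝ) + 1) ^ (m j + 1)) ≤
      evCount Ω (fun ω => ∀ j, ∀ i ∈ B j, ¬ occ i ω) := by
  classical
  have hκ0 : 0 ≤ κ := by (clear * - hκ; linarith)
  have hcard : evCount Ω (fun ω => ∀ j, ∀ i ∈ B j, ¬ occ i ω) =
      ∑ ω ∈ Ω, ∏ j, ∏ i ∈ B j, (1 - ind occ ω i) := by
    rw [evCount_eq_sum]
    simp_rw [prod_one_sub_ind, Finset.prod_ite_zero]
    simp
  have hN : ∀ j, 1 ≤ (κ * ((B j).card : ℝ) + 1) := fun j => by
    have : (0 : ℝ) ≤ κ * ((B j).card : ℝ) := by (clear * - hκ; positivity)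
    linarith
  have hPT : ∀ ω, ∀ j, ∏ i ∈ B j, (1 - ind occ ω i) ≤ tr (B j) (m j) (ind occ ω) := fun ω j =>
    prod_le_tr_even (B j) (ind occ ω) (fun i _ => ind_mem occ ω i) (m j) (hm j)
  have hP0 : ∀ ω, ∀ j, 0 ≤ ∏ i ∈ B j, (1 - ind occ ω i) := fun ω j =>
    Finset.prod_nonneg fun i _ => by linarith [(ind_mem occ ω i).2]
  have hTP : ∀ ω, ∀ j, tr (B j) (m j) (ind occ ω) - ∏ i ∈ B j, (1 - ind occ ω i) ≤
      es (B j) (m j + 1) (ind occ ω) := fun ω j => by
    have := tr_even_le (B j) (ind occ ω) (fun i _ => ind_mem occ ω i) (m j) (hm j)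
    linarith
  -- main expansion
  have hmain : |∑ ω ∈ Ω, ∏ j, tr (B j) (m j) (ind occ ω) - X * ∏ j, tr (B j) (m j) x| ≤
      E * ∏ j, (κ * ((B j).card : ℝ) + 1) ^ (m j + 1) := by
    simp_rw [tr_eq_sum_filter]
    refine (expand_blocksK Ω occ B hB x X E κ hE hκ hcnt (fun _ I => (-1 : ℝ) ^ I.card)
      (fun j => (B j).powerset.filter (fun I => I.card ≤ m j)) ?_ ?_).trans ?_
    · intro j I hI
      exact Finset.mem_powerset.mp (Finset.mem_filter.mp hI).1
    · intro j I
      rw [abs_pow]; simp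
    · apply mul_le_mul_of_nonneg_left _ hE
      apply Finset.prod_le_prod
      · intro j _; (clear * - hκ; positivity)
      · intro j _
        refine (sum_pow_powerset_filter_le (B j) (m j) κ hκ0).trans ?_
        exact pow_le_pow_right₀ (hN j) (by omega)
  have herr : ∀ l : Fin t,
      |∑ ω ∈ Ω, ∏ j, (if j = l then es (B l) (m l + 1) (ind occ ω) else
          tr (B j) (m j) (ind occ ω)) -
        X * ∏ j, (if j = l then es (B l) (m l + 1) x else tr (B j) (m j) x)| ≤
      E * ∏ j, (κ * ((B j).card : ℝ) + 1) ^ (m j + 1) := by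
    intro l
    have hform : ∀ y : ι → ℝ, ∀ j : Fin t,
        (if j = l then es (B l) (m l + 1) y else tr (B j) (m j) y) =
        ∑ I ∈ (B j).powerset.filter (fun I => if j = l then I.card = m j + 1 else I.card ≤ m j),
          (if j = l then 1 else (-1 : ℝ) ^ I.card) * ∏ i ∈ I, y i := by
      intro y j
      by_cases hj : j = l
      · subst hj
        simp only [if_true]
        rw [es_eq_sum_filter]
      · simp only [hj, if_false]
        rw [tr_eq_sum_filter]
    simp_rw [hform]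
    refine (expand_blocksK Ω occ B hB x X E κ hE hκ hcnt
      (fun j I => if j = l then 1 else (-1 : ℝ) ^ I.card)
      (fun j => (B j).powerset.filter
        (fun I => if j = l then I.card = m j + 1 else I.card ≤ m j)) ?_ ?_).trans ?_
    · intro j I hI
      exact Finset.mem_powerset.mp (Finset.mem_filter.mp hI).1
    · intro j I
      split_ifs
      · simp
      · rw [abs_pow]; simp
    · apply mul_le_mul_of_nonneg_left _ hE
      apply Finset.prod_le_prod
      · intro j _; (clear * - hκ; positivity)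
      · intro j _
        refine le_trans ?_ (sum_pow_powerset_filter_le (B j) (m j + 1) κ hκ0)
        apply Finset.sum_le_sum_of_subset_of_nonneg
        · intro I hI
          rw [Finset.mem_filter] at hI ⊢
          refine ⟨hI.1, ?_⟩
          have := hI.2
          split_ifs at this <;> omega
        · intro I _ _
          positivity
  constructor
  · rw [hcard]
    have h1 : ∑ ω ∈ Ω, ∏ j, ∏ i ∈ B j, (1 - ind occ ω i) ≤
        ∑ ω ∈ Ω, ∏ j, tr (B j) (m j) (ind occ ω) := by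
      apply Finset.sum_le_sum
      intro ω _
      exact Finset.prod_le_prod (fun j _ => hP0 ω j) (fun j _ => hPT ω j)
    have h2 := (abs_le.mp hmain).2
    linarith
  · rw [hcard]
    have h1 : ∑ ω ∈ Ω, (∏ j, tr (B j) (m j) (ind occ ω) -
        ∑ l, ∏ j, (if j = l then es (B l) (m l + 1) (ind occ ω) else
          tr (B j) (m j) (ind occ ω))) ≤
        ∑ ω ∈ Ω, ∏ j, ∏ i ∈ B j, (1 - ind occ ω i) := by
      apply Finset.sum_le_sum
      intro ω _
      refine le_trans ?_ (prod_lower (fun j => ∏ i ∈ B j, (1 - ind occ ω i))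
        (fun j => tr (B j) (m j) (ind occ ω)) (hP0 ω) (hPT ω))
      apply sub_le_sub_left
      apply Finset.sum_le_sum
      intro l _
      apply Finset.prod_le_prod
      · intro j _
        split_ifs with hj
        · have := hPT ω l; linarith
        · exact (hP0 ω j).trans (hPT ω j)
      · intro j _
        split_ifs with hj
        · exact hTP ω l
        · exact le_rfl
    rw [Finset.sum_sub_distrib, Finset.sum_comm] at h1
    have h2 := (abs_le.mp hmain).1
    have h3 : ∑ l : Fin t, ∑ ω ∈ Ω, ∏ j, (if j = l then es (B l) (m l + 1) (ind occ ω) else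
          tr (B j) (m j) (ind occ ω)) ≤
        ∑ l : Fin t, (X * ∏ j, (if j = l then es (B l) (m l + 1) x else tr (B j) (m j) x) +
          E * ∏ j, (κ * ((B j).card : ℝ) + 1) ^ (m j + 1)) := by
      apply Finset.sum_le_sum
      intro l _
      have := (abs_le.mp (herr l)).2
      (clear * - this; linarith)
    rw [Finset.sum_add_distrib, ← Finset.mul_sum, Finset.sum_const, Finset.card_univ,
      Fintype.card_fin, nsmul_eq_mul] at h3
    have h4 : X * (∏ j, tr (B j) (m j) x -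
        ∑ l, ∏ j, (if j = l then es (B l) (m l + 1) x else tr (B j) (m j) x)) -
        E * ((t + 1) * ∏ j, (κ * ((B j).card : ℝ) + 1) ^ (m j + 1)) =
        (X * ∏ j, tr (B j) (m j) x - E * ∏ j, (κ * ((B j).card : ℝ) + 1) ^ (m j + 1)) -
        (X * ∑ l, ∏ j, (if j = l then es (B l) (m l + 1) x else tr (B j) (m j) x) +
        t * (E * ∏ j, (κ * ((B j).card : ℝ) + 1) ^ (m j + 1))) := by ring
    rw [h4]
    linarith

/-- The Brun-Hooley sieve with clean main terms. -/
theorem brun_hooleyK {t : ℕ} (Ω : Finset α) (occ : ι → α → Prop)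
    (B : Fin t → Finset ι) (hB : ∀ i j, i ≠ j → Disjoint (B i) (B j)) (x : ι → ℝ)
    (hx : ∀ j, ∀ i ∈ B j, 0 ≤ x i ∧ x i ≤ 1 / 2) (X E κ : ℝ) (hX : 0 ≤ X) (hE : 0 ≤ E)
    (hκ : 1 ≤ κ)
    (hcnt : ∀ I : Finset ι, I ⊆ Finset.univ.biUnion B →
      |evCount Ω (fun ω => ∀ i ∈ I, occ i ω) - X * ∏ i ∈ I, x i| ≤ E * κ ^ I.card)
    (m : Fin t → ℕ) (hm : ∀ j, Even (m j))
    (hr : ∑ j, es (B j) (m j + 1) x / ∏ i ∈ B j, (1 - x i) ≤ 1 / 2) :
    evCount Ω (fun ω => ∀ j, ∀ i ∈ B j, ¬ occ i ω) ≤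
        2 * X * (∏ j, ∏ i ∈ B j, (1 - x i)) +
          E * ∏ j, (κ * ((B j).card : ℝ) + 1) ^ (m j + 1) ∧
    (1 / 2) * X * (∏ j, ∏ i ∈ B j, (1 - x i)) -
      E * ((t + 1) * ∏ j, (κ * ((B j).card : ℝ) + 1) ^ (m j + 1)) ≤
      evCount Ω (fun ω => ∀ j, ∀ i ∈ B j, ¬ occ i ω) := by
  obtain ⟨h1, h2⟩ := brun_hooley_rawK Ω occ B hB x X E κ hE hκ hcnt m hm
  have hx1 : ∀ j, ∀ i ∈ B j, 0 ≤ x i ∧ x i ≤ 1 := fun j i hi =>
    ⟨(hx j i hi).1, by (clear * - hx hi; linarith [(hx j i hi).2])⟩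
  set V : Fin t → ℝ := fun j => ∏ i ∈ B j, (1 - x i) with hV
  have hVpos : ∀ j, 0 < V j := fun j => Finset.prod_pos fun i hi => by
    (clear * - hx hi; linarith [(hx j i hi).2])
  set r : Fin t → ℝ := fun j => es (B j) (m j + 1) x / V j with hrdef
  have hr0 : ∀ j, 0 ≤ r j := fun j =>
    div_nonneg (es_nonneg _ _ _ fun i hi => (hx j i hi).1) (hVpos j).le
  have hVT : ∀ j, V j ≤ tr (B j) (m j) x := fun j => prod_le_tr_even _ _ (hx1 j) _ (hm j)
  have hTV : ∀ j, tr (B j) (m j) x ≤ V j * Real.exp (r j) := by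
    intro j
    have h3 := tr_even_le (B j) x (hx1 j) (m j) (hm j)
    have h4 : es (B j) (m j + 1) x = V j * r j := by
      simp only [hrdef]
      rw [mul_div_cancel₀ _ (hVpos j).ne']
    have h5 : r j + 1 ≤ Real.exp (r j) := Real.add_one_le_exp _
    calc tr (B j) (m j) x ≤ V j + V j * r j := by rw [← h4]; exact h3
      _ = V j * (r j + 1) := by ring
      _ ≤ V j * Real.exp (r j) := mul_le_mul_of_nonneg_left h5 (hVpos j).le
  have hr' : ∑ j, r j ≤ 1 / 2 := hr
  have hT0 : ∀ j, 0 < tr (B j) (m j) x := fun j => (hVpos j).trans_le (hVT j)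
  have hPV : 0 < ∏ j, V j := Finset.prod_pos fun j _ => hVpos j
  have hPT : 0 < ∏ j, tr (B j) (m j) x := Finset.prod_pos fun j _ => hT0 j
  have hexp2 : Real.exp (1 / 2) ≤ 2 := by
    have h6 : Real.exp (1 / 2) ^ 2 ≤ 2 ^ 2 := by
      rw [← Real.exp_nat_mul]
      have := Real.exp_one_lt_d9
      have e : ((2 : ℕ) : ℝ) * (1 / 2) = 1 := by norm_num
      rw [e]
      (clear * - this; linarith)
    exact (pow_le_pow_iff_left₀ (Real.exp_pos _).le (by norm_num) (by norm_num)).mp h6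
  have hup : ∏ j, tr (B j) (m j) x ≤ 2 * ∏ j, V j := by
    calc ∏ j, tr (B j) (m j) x ≤ ∏ j, (V j * Real.exp (r j)) :=
          Finset.prod_le_prod (fun j _ => (hT0 j).le) (fun j _ => hTV j)
      _ = (∏ j, V j) * Real.exp (∑ j, r j) := by
          rw [Finset.prod_mul_distrib, Real.exp_sum]
      _ ≤ (∏ j, V j) * 2 := by
          apply mul_le_mul_of_nonneg_left _ hPV.le
          exact (Real.exp_le_exp.mpr hr').trans hexp2
      _ = 2 * ∏ j, V j := by ring
  constructor
  · refine h1.trans ?_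
    have : X * ∏ j, tr (B j) (m j) x ≤ X * (2 * ∏ j, V j) := mul_le_mul_of_nonneg_left hup hX
    (clear * - this; linarith)
  · refine le_trans ?_ h2
    have hsum : ∑ l, ∏ j, (if j = l then es (B l) (m l + 1) x else tr (B j) (m j) x) ≤
        (1 / 2) * ∏ j, tr (B j) (m j) x := by
      calc ∑ l, ∏ j, (if j = l then es (B l) (m l + 1) x else tr (B j) (m j) x)
          ≤ ∑ l, r l * ∏ j, tr (B j) (m j) x := by
            apply Finset.sum_le_sum
            intro l _
            rw [← Finset.mul_prod_erase Finset.univ _ (Finset.mem_univ l),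
              ← Finset.mul_prod_erase Finset.univ (fun j => tr (B j) (m j) x) (Finset.mem_univ l),
              if_pos rfl, ← mul_assoc]
            have h7 : ∏ j ∈ Finset.univ.erase l,
                (if j = l then es (B l) (m l + 1) x else tr (B j) (m j) x) =
                ∏ j ∈ Finset.univ.erase l, tr (B j) (m j) x := by
              apply Finset.prod_congr rfl
              intro j hj
              rw [if_neg (Finset.ne_of_mem_erase hj)]
            rw [h7]
            apply mul_le_mul_of_nonneg_right _ (Finset.prod_nonneg fun j _ => (hT0 j).le)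
            have h8 : es (B l) (m l + 1) x = r l * V l := by
              simp only [hrdef]
              rw [div_mul_cancel₀ _ (hVpos l).ne']
            rw [h8]
            exact mul_le_mul_of_nonneg_left (hVT l) (hr0 l)
        _ = (∑ l, r l) * ∏ j, tr (B j) (m j) x := by rw [Finset.sum_mul]
        _ ≤ (1 / 2) * ∏ j, tr (B j) (m j) x := mul_le_mul_of_nonneg_right hr' hPT.le
    have hlow : ∏ j, V j ≤ ∏ j, tr (B j) (m j) x :=
      Finset.prod_le_prod (fun j _ => (hVpos j).le) (fun j _ => hVT j)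
    have : X * ((1 / 2) * ∏ j, V j) ≤ X * (∏ j, tr (B j) (m j) x -
        ∑ l, ∏ j, (if j = l then es (B l) (m l + 1) x else tr (B j) (m j) x)) := by
      apply mul_le_mul_of_nonneg_left _ hX
      (clear * - hsum hlow; linarith)
    (clear * - this; linarith)

end Pool.Agent.Helper96.CPAP

end

section

set_option autoImplicit false

open Finset Real

namespace Pool.Agent.Helper96.CPAP

open Pool.Agent.Helper44

/-- All sieving primes up to `w`. -/
noncomputable def pU (P : ℕ → Prop) (w : ℝ) : Finset ℕ := by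
  classical exact (primesUpTo w).filter P

theorem mem_pU {P : ℕ → Prop} (hP : ∀ q, P q → q.Prime) {w : ℝ} (hw : 0 ≤ w) {q : ℕ} :
    q ∈ pU P w ↔ P q ∧ (q : ℝ) ≤ w := by
  classical
  unfold pU
  rw [Finset.mem_filter, mem_primesUpTo hw]
  constructor
  · rintro ⟨⟨_, h⟩, h'⟩; exact ⟨h', h⟩
  · rintro ⟨h', h⟩; exact ⟨⟨hP q h', h⟩, h'⟩

theorem biUnion_pb {P : ℕ → Prop} (hP : ∀ q, P q → q.Prime) {w : ℝ} (hw : 2 ≤ w) :
    (Finset.univ : Finset (Fin (nb w))).biUnion (fun j => pb P w j) = pU P w := by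
  have hw1 : (1 : ℝ) ≤ w := by (clear * - hw; linarith)
  have hw0 : (0 : ℝ) ≤ w := by (clear * - hw; linarith)
  ext q
  rw [mem_pU hP hw0, Finset.mem_biUnion]
  constructor
  · rintro ⟨j, _, hj⟩
    rw [mem_pb] at hj
    refine ⟨hj.2, ?_⟩
    have h4 : (q : ℝ) ≤ zs w j := (Nat.le_floor_iff (zs_pos hw1 j).le).mp hj.1.2
    have h5 : zs w j ≤ w := by
      have := zs_anti hw1 (Nat.zero_le (j : ℕ))
      rwa [zs_zero] at this
    (clear * - h4 h5; linarith)
  · rintro ⟨hPq, hle⟩
    have h1 : ((q, true) : ℕ × Bool) ∈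
        (Finset.univ : Finset (Fin (nb w))).biUnion (fun j => blk w j) := by
      rw [biUnion_blk hw, Finset.mem_product, mem_primesUpTo hw0]
      exact ⟨⟨hP q hPq, hle⟩, Finset.mem_univ _⟩
    rw [Finset.mem_biUnion] at h1
    obtain ⟨j, _, hj⟩ := h1
    rw [mem_blk] at hj
    exact ⟨j, Finset.mem_univ _, mem_pb.mpr ⟨hj.1, hPq⟩⟩

theorem sum_inv_pb_le : ∃ S0 : ℝ, 0 < S0 ∧ ∀ (P : ℕ → Prop), (∀ q, P q → q.Prime) →
    ∀ w : ℝ, 2 ≤ w → ∀ j : ℕ, ∑ q ∈ pb P w j, (1 : ℝ) / q ≤ S0 := by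
  obtain ⟨S0, hS0, hS⟩ := sum_dens_blk_le
  refine ⟨S0, hS0, ?_⟩
  intro P hP w hw j
  have h1 := hS w hw j
  rw [sum_dens_blk] at h1
  have h2 : ∑ q ∈ pb P w j, (1 : ℝ) / q ≤
      ∑ q ∈ (Finset.Ioc ⌊zs w (j + 1)⌋₊ ⌊zs w j⌋₊).filter Nat.Prime, (1 : ℝ) / q := by
    apply Finset.sum_le_sum_of_subset_of_nonneg
    · intro q hq
      rw [mem_pb] at hq
      rw [Finset.mem_filter, Finset.mem_Ioc]
      exact ⟨hq.1, hP q hq.2⟩
    · intro q _ _; (clear * -; positivity)
  have h3 : 0 ≤ ∑ q ∈ (Finset.Ioc ⌊zs w (j + 1)⌋₊ ⌊zs w j⌋₊).filter Nat.Prime, (1 : ℝ) / q :=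
    Finset.sum_nonneg fun q _ => by (clear * -; positivity)
  (clear * - hS0 h1 h2; linarith)

/-- Lower bound for the sieve product in dimension `k`. -/
theorem prod_lower_bound (k : ℕ) : ∃ c : ℝ, 0 < c ∧ ∀ (P : ℕ → Prop),
    (∀ q, P q → q.Prime ∧ 2 * k ≤ q) → ∀ ν : ℕ → ℝ, (∀ q, P q → 0 ≤ ν q ∧ ν q ≤ k) →
    ∀ w : ℝ, 2 ≤ w → c / (Real.log w) ^ k ≤ ∏ q ∈ pU P w, (1 - ν q / q) := by
  classical
  obtain ⟨C, hC, hM⟩ := sum_primesUpTo_bounds
  obtain ⟨C2, hC2, hS⟩ := sum_inv_sq_le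
  refine ⟨Real.exp (-(k * C + 2 * k ^ 2 * C2)), Real.exp_pos _, ?_⟩
  intro P hP ν hν w hw
  have hP' : ∀ q, P q → q.Prime := fun q h => (hP q h).1
  have hw0 : 0 ≤ w := by (clear * - hw; linarith)
  have hlw : 0 < Real.log w := Real.log_pos (by (clear * - hw; linarith))
  have hy : ∀ q ∈ pU P w, 0 ≤ ν q / q ∧ ν q / q ≤ k * (1 / (q : ℝ)) ∧ ν q / q ≤ 1 / 2 := by
    intro q hq
    rw [mem_pU hP' hw0] at hq
    have h1 := hP q hq.1
    have h2 := hν q hq.1
    have hq0 : (0 : ℝ) < q := by exact_mod_cast h1.1.pos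
    have h3 : (2 : ℝ) * k ≤ q := by exact_mod_cast h1.2
    refine ⟨div_nonneg h2.1 hq0.le, ?_, ?_⟩
    · rw [mul_one_div]
      exact div_le_div_of_nonneg_right h2.2 hq0.le
    · rw [div_le_iff₀ hq0]
      linarith
  have h1 : ∏ q ∈ pU P w, Real.exp (-(ν q / q + 2 * (ν q / q) ^ 2)) ≤
      ∏ q ∈ pU P w, (1 - ν q / q) := by
    apply Finset.prod_le_prod
    · intro q _; exact (Real.exp_pos _).le
    · intro q hq
      exact one_sub_ge_exp' (hy q hq).1 (hy q hq).2.2
  refine le_trans ?_ h1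
  rw [← Real.exp_sum, Finset.sum_neg_distrib, Finset.sum_add_distrib]
  have h2 : ∑ q ∈ pU P w, ν q / q ≤ k * (Real.log (Real.log w) + C) := by
    calc ∑ q ∈ pU P w, ν q / q ≤ ∑ q ∈ pU P w, k * (1 / (q : ℝ)) :=
          Finset.sum_le_sum fun q hq => (hy q hq).2.1
      _ = k * ∑ q ∈ pU P w, (1 / (q : ℝ)) := by rw [Finset.mul_sum]
      _ ≤ k * ∑ q ∈ primesUpTo w, (1 / (q : ℝ)) := by
          apply mul_le_mul_of_nonneg_left _ (by (clear * -; positivity))
          apply Finset.sum_le_sum_of_subset_of_nonneg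
          · unfold pU
            exact Finset.filter_subset _ _
          · intro q _ _; (clear * -; positivity)
      _ ≤ k * (Real.log (Real.log w) + C) := by
          apply mul_le_mul_of_nonneg_left _ (by (clear * -; positivity))
          have := (abs_le.mp (hM w hw)).2
          (clear * - this; linarith)
  have h3 : ∑ q ∈ pU P w, 2 * (ν q / q) ^ 2 ≤ 2 * k ^ 2 * C2 := by
    calc ∑ q ∈ pU P w, 2 * (ν q / q) ^ 2 ≤ ∑ q ∈ pU P w, 2 * (k : ℝ) ^ 2 * (1 / (q : ℝ)) ^ 2 := by
          apply Finset.sum_le_sum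
          intro q hq
          have h4 := pow_le_pow_left₀ (hy q hq).1 (hy q hq).2.1 2
          rw [mul_pow] at h4
          (clear * - h4; linarith)
      _ = 2 * (k : ℝ) ^ 2 * ∑ q ∈ pU P w, (1 / (q : ℝ)) ^ 2 := by rw [Finset.mul_sum]
      _ ≤ 2 * k ^ 2 * C2 := mul_le_mul_of_nonneg_left (hS _) (by (clear * -; positivity))
  have h4 : Real.exp (-(k * C + 2 * k ^ 2 * C2)) / (Real.log w) ^ k =
      Real.exp (-(k * (Real.log (Real.log w) + C) + 2 * k ^ 2 * C2)) := by
    have h5 : (Real.log w) ^ k = Real.exp (k * Real.log (Real.log w)) := by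
      rw [Real.exp_nat_mul, Real.exp_log hlw]
    rw [h5, ← Real.exp_sub]
    congr 1
    ring
  rw [h4]
  apply Real.exp_le_exp.mpr
  (clear * - h2 h3; linarith)

/-- The `k`-dimensional Brun-Hooley sieve. -/
theorem sieveK (k : ℕ) : ∃ K c : ℝ, 1 ≤ K ∧ 0 < c ∧ ∀ (α : Type) (P : ℕ → Prop),
    (∀ q, P q → q.Prime ∧ 2 * k ≤ q) → ∀ ν : ℕ → ℝ, (∀ q, P q → 0 ≤ ν q ∧ ν q ≤ k) →
    ∀ w : ℝ, 2 ≤ w → ∀ (Ω : Finset α) (occ : ℕ → α → Prop) (X E : ℝ), 0 ≤ X → 0 ≤ E →
    (∀ I : Finset ℕ, (∀ q ∈ I, P q ∧ (q : ℝ) ≤ w) →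
      |evCount Ω (fun ω => ∀ q ∈ I, occ q ω) - X * ∏ q ∈ I, (ν q / q)| ≤
        E * ((k : ℝ) + 1) ^ I.card) →
    evCount Ω (fun ω => ∀ q : ℕ, P q → (q : ℝ) ≤ w → ¬ occ q ω) ≤
        2 * X * (∏ q ∈ pU P w, (1 - ν q / q)) + E * w ^ K ∧
    c * X / (Real.log w) ^ k - E * w ^ K ≤
      evCount Ω (fun ω => ∀ q : ℕ, P q → (q : ℝ) ≤ w → ¬ occ q ω) := by
  obtain ⟨S0, hS0, hS⟩ := sum_inv_pb_le
  obtain ⟨c1, hc1, hlow⟩ := prod_lower_bound k
  set S1 : ℝ := k * S0 with hS1
  have hS1n : 0 ≤ S1 := by (clear * - hS0; positivity)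
  have hsum : Summable (fun n : ℕ => S1 ^ n / (n.factorial : ℝ)) := Real.summable_pow_div_factorial S1
  obtain ⟨s0, hs0⟩ := summable_iff_vanishing_norm.mp hsum (Real.exp (-(2 * S1)) / 2) (by (clear * -; positivity))
  set b := s0.sup id + 1 with hb
  set K0 : ℝ := ((k : ℝ) + 2) * (4 * b + 6) with hK0
  have hK0' : 0 ≤ K0 := by (clear * -; positivity)
  refine ⟨K0 + 2, c1 / 2, by (clear * - hK0'; linarith), by (clear * - hc1; positivity), ?_⟩
  intro α P hP ν hν w hw Ω occ X E hX hE hcnt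
  have hP' : ∀ q, P q → q.Prime := fun q h => (hP q h).1
  have hw1 : (1 : ℝ) ≤ w := by (clear * - hw; linarith)
  have hw0 : (0 : ℝ) < w := by (clear * - hw; linarith)
  have hlw : 0 < Real.log w := Real.log_pos (by (clear * - hw; linarith))
  have hdisj : ∀ i j : Fin (nb w), i ≠ j → Disjoint (pb P w i) (pb P w j) := by
    intro i j hij
    exact pb_disjoint hw1 (fun h => hij (Fin.ext h))
  have hx : ∀ j : ℕ, ∀ i ∈ pb P w j, 0 ≤ ν i / i ∧ ν i / i ≤ 1 / 2 := by
    intro j i hi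
    rw [mem_pb] at hi
    have h1 := hP i hi.2
    have h2 := hν i hi.2
    have hq0 : (0 : ℝ) < i := by exact_mod_cast h1.1.pos
    have h3 : (2 : ℝ) * k ≤ i := by exact_mod_cast h1.2
    refine ⟨div_nonneg h2.1 hq0.le, ?_⟩
    rw [div_le_iff₀ hq0]
    (clear * - h2 h3; linarith)
  have hcnt' : ∀ I : Finset ℕ,
      I ⊆ Finset.univ.biUnion (fun j : Fin (nb w) => pb P w j) →
      |evCount Ω (fun ω => ∀ i ∈ I, occ i ω) - X * ∏ i ∈ I, (ν i / i)| ≤
        E * ((k : ℝ) + 1) ^ I.card := by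
    intro I hI
    apply hcnt
    intro q hq
    have := hI hq
    rwa [biUnion_pb hP' hw, mem_pU hP' hw0.le] at this
  have hsumx : ∀ j : ℕ, ∑ i ∈ pb P w j, ν i / i ≤ S1 := by
    intro j
    calc ∑ i ∈ pb P w j, ν i / i ≤ ∑ i ∈ pb P w j, k * ((1 : ℝ) / i) := by
          apply Finset.sum_le_sum
          intro i hi
          rw [mem_pb] at hi
          have hq0 : (0 : ℝ) < i := by exact_mod_cast (hP' i hi.2).pos
          rw [mul_one_div]
          exact div_le_div_of_nonneg_right (hν i hi.2).2 hq0.le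
      _ = k * ∑ i ∈ pb P w j, (1 : ℝ) / i := by rw [Finset.mul_sum]
      _ ≤ k * S0 := mul_le_mul_of_nonneg_left (hS P hP' w hw j) (by (clear * -; positivity))
  have hVlow : ∀ j : Fin (nb w), Real.exp (-(2 * S1)) ≤ ∏ i ∈ pb P w j, (1 - ν i / i) := by
    intro j
    calc Real.exp (-(2 * S1)) ≤ Real.exp (-∑ i ∈ pb P w j, 2 * (ν i / i)) := by
          apply Real.exp_le_exp.mpr
          rw [← Finset.mul_sum]
          have := hsumx j
          (clear * - this; linarith)
      _ = ∏ i ∈ pb P w j, Real.exp (-(2 * (ν i / i))) := by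
          rw [← Finset.sum_neg_distrib, Real.exp_sum]
      _ ≤ _ := by
          apply Finset.prod_le_prod
          · intro i _; exact (Real.exp_pos _).le
          · intro i hi
            have := hx j i hi
            exact one_sub_ge_exp this.1 this.2
  have hr : ∑ j : Fin (nb w), es (pb P w j) (2 * (b + (j : ℕ)) + 1) (fun q => ν q / q) /
      ∏ i ∈ pb P w j, (1 - ν i / i) ≤ 1 / 2 := by
    have hterm : ∀ j : Fin (nb w), es (pb P w j) (2 * (b + (j : ℕ)) + 1) (fun q => ν q / q) /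
        ∏ i ∈ pb P w j, (1 - ν i / i) ≤
        (S1 ^ (2 * (b + (j : ℕ)) + 1) / ((2 * (b + (j : ℕ)) + 1).factorial : ℝ)) *
          Real.exp (2 * S1) := by
      intro j
      have h1 : es (pb P w j) (2 * (b + (j : ℕ)) + 1) (fun q => ν q / q) ≤
          S1 ^ (2 * (b + (j : ℕ)) + 1) / ((2 * (b + (j : ℕ)) + 1).factorial : ℝ) := by
        refine (es_le_pow_div_factorial _ _ (fun i hi => (hx j i hi).1) _).trans ?_
        apply div_le_div_of_nonneg_right _ (by positivity)
        apply pow_le_pow_left₀ (Finset.sum_nonneg fun i hi => (hx j i hi).1) (hsumx j)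
      have h2 := hVlow j
      have h3 : 0 < Real.exp (-(2 * S1)) := Real.exp_pos _
      rw [div_le_iff₀ (h3.trans_le h2)]
      calc es (pb P w j) (2 * (b + (j : ℕ)) + 1) (fun q => ν q / q)
          ≤ S1 ^ (2 * (b + (j : ℕ)) + 1) / ((2 * (b + (j : ℕ)) + 1).factorial : ℝ) * 1 := by
            rw [mul_one]; exact h1
        _ = S1 ^ (2 * (b + (j : ℕ)) + 1) / ((2 * (b + (j : ℕ)) + 1).factorial : ℝ) *
              (Real.exp (2 * S1) * Real.exp (-(2 * S1))) := by
            rw [← Real.exp_add]; simp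
        _ ≤ S1 ^ (2 * (b + (j : ℕ)) + 1) / ((2 * (b + (j : ℕ)) + 1).factorial : ℝ) *
              (Real.exp (2 * S1) * ∏ i ∈ pb P w j, (1 - ν i / i)) := by
            (clear * - h2 hS0; gcongr)
        _ = _ := by ring
    calc ∑ j : Fin (nb w), es (pb P w j) (2 * (b + (j : ℕ)) + 1) (fun q => ν q / q) /
          ∏ i ∈ pb P w j, (1 - ν i / i)
        ≤ ∑ j : Fin (nb w), (S1 ^ (2 * (b + (j : ℕ)) + 1) /
            ((2 * (b + (j : ℕ)) + 1).factorial : ℝ)) * Real.exp (2 * S1) :=
          Finset.sum_le_sum fun j _ => hterm j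
      _ = (∑ n ∈ (Finset.univ : Finset (Fin (nb w))).image (fun j : Fin (nb w) => 2 * (b + (j : ℕ)) + 1),
            S1 ^ n / (n.factorial : ℝ)) * Real.exp (2 * S1) := by
          rw [← Finset.sum_mul, Finset.sum_image]
          intro i _ j _ hij
          apply Fin.ext
          simp only at hij
          omega
      _ ≤ (Real.exp (-(2 * S1)) / 2) * Real.exp (2 * S1) := by
          apply mul_le_mul_of_nonneg_right _ (Real.exp_pos _).le
          have h4 := hs0 ((Finset.univ : Finset (Fin (nb w))).image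
            (fun j : Fin (nb w) => 2 * (b + (j : ℕ)) + 1)) ?_
          · rw [Real.norm_eq_abs] at h4
            exact (le_abs_self _).trans h4.le
          · rw [Finset.disjoint_left]
            intro n hn hn'
            rw [Finset.mem_image] at hn
            obtain ⟨j, _, rfl⟩ := hn
            have : id (2 * (b + (j : ℕ)) + 1) ≤ s0.sup id := Finset.le_sup (f := id) hn'
            simp only [id] at this
            omega
      _ = 1 / 2 := by
          rw [div_mul_eq_mul_div, ← Real.exp_add]; simp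
  have hmain := brun_hooleyK Ω occ (fun j : Fin (nb w) => pb P w j) hdisj (fun q => ν q / q)
    (fun j i hi => hx j i hi) X E ((k : ℝ) + 1) hX hE (by (clear * - α; linarith [Nat.cast_nonneg (α := ℝ) k]))
    hcnt' (fun j => 2 * (b + (j : ℕ)))
    (fun j => even_two_mul _) hr
  -- identify the event
  have hevent : (fun ω : α => ∀ j : Fin (nb w), ∀ i ∈ pb P w j, ¬ occ i ω) =
      (fun ω => ∀ q : ℕ, P q → (q : ℝ) ≤ w → ¬ occ q ω) := by
    funext ω
    apply propext
    constructor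
    · intro h q hq hqw
      have : q ∈ (Finset.univ : Finset (Fin (nb w))).biUnion (fun j => pb P w j) := by
        rw [biUnion_pb hP' hw, mem_pU hP' hw0.le]
        exact ⟨hq, hqw⟩
      rw [Finset.mem_biUnion] at this
      obtain ⟨j, _, hj⟩ := this
      exact h j q hj
    · intro h j i hi
      have hi' : i ∈ (Finset.univ : Finset (Fin (nb w))).biUnion (fun j => pb P w j) :=
        Finset.mem_biUnion.mpr ⟨j, Finset.mem_univ _, hi⟩
      rw [biUnion_pb hP' hw, mem_pU hP' hw0.le] at hi'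
      exact h i hi'.1 hi'.2
  rw [hevent] at hmain
  -- the product
  have hprodV : ∏ j : Fin (nb w), ∏ i ∈ pb P w j, (1 - ν i / i) =
      ∏ q ∈ pU P w, (1 - ν q / q) := by
    rw [← Finset.prod_biUnion, biUnion_pb hP' hw]
    intro i _ j _ hij
    exact hdisj i j hij
  rw [hprodV] at hmain
  have hPw := hlow P hP ν hν w hw
  have hprod := prod_pb_card_le hP' k hw b
  have hprod0 : 0 ≤ ∏ j : Fin (nb w),
      (((k : ℝ) + 1) * ((pb P w j).card : ℝ) + 1) ^ (2 * (b + (j : ℕ)) + 1) :=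
    Finset.prod_nonneg fun j _ => by (clear * -; positivity)
  have hwK : w ^ (K0 + 2) = w ^ K0 * w ^ 2 := by
    rw [Real.rpow_add hw0]
    norm_num
  have hwK0 : 0 < w ^ K0 := Real.rpow_pos_of_pos hw0 _
  have hnb : (nb w : ℝ) + 1 ≤ w ^ 2 := by
    unfold nb
    push_cast
    have := Nat.floor_le hw0.le
    (clear * - hw this; nlinarith)
  constructor
  · refine hmain.1.trans ?_
    have h2 : E * ∏ j : Fin (nb w),
        (((k : ℝ) + 1) * ((pb P w j).card : ℝ) + 1) ^ (2 * (b + (j : ℕ)) + 1) ≤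
        E * w ^ (K0 + 2) := by
      apply mul_le_mul_of_nonneg_left _ hE
      refine hprod.trans ?_
      rw [hwK]
      have : (1 : ℝ) ≤ w ^ 2 := one_le_pow₀ hw1
      (clear * - hprod hprod0 hnb; nlinarith)
    linarith
  · refine le_trans ?_ hmain.2
    have h1 : c1 / 2 * X / Real.log w ^ k ≤
        1 / 2 * X * ∏ q ∈ pU P w, (1 - ν q / q) := by
      calc c1 / 2 * X / Real.log w ^ k = 1 / 2 * X * (c1 / Real.log w ^ k) := by ring
        _ ≤ _ := by
            apply mul_le_mul_of_nonneg_left _ (by (clear * - hX; positivity))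
            exact hPw
    have h2 : E * (((nb w : ℕ) + 1) *
        ∏ j : Fin (nb w), (((k : ℝ) + 1) * ((pb P w j).card : ℝ) + 1) ^ (2 * (b + (j : ℕ)) + 1)) ≤
        E * w ^ (K0 + 2) := by
      apply mul_le_mul_of_nonneg_left _ hE
      rw [hwK, mul_comm (w ^ K0)]
      exact mul_le_mul hnb hprod hprod0 (by positivity)
    (clear * - h1 h2; linarith)

end Pool.Agent.Helper96.CPAP

end

section

set_option autoImplicit false

open Finset Real

namespace Pool.Agent.Helper30.Gap

open Pool.Agent.Helper44 Pool.Agent.Helper96.CPAP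

theorem prod_pU_le {h : ℕ} (hh : h ≠ 0) {w : ℝ} (hw : 0 ≤ w) :
    ∏ q ∈ pU (Pr h) w, (1 - (2 : ℝ) / q) ≤
      9 * G h * (∏ q ∈ primesUpTo w, (1 - (1 : ℝ) / q)) ^ 2 := by
  classical
  have hpU : pU (Pr h) w = (primesUpTo w).filter (Pr h) := by
    unfold pU; congr!
  -- compare factors
  have h1 : ∏ q ∈ pU (Pr h) w, (1 - (2 : ℝ) / q) ≤ ∏ q ∈ pU (Pr h) w, (1 - (1 : ℝ) / q) ^ 2 := by
    apply Finset.prod_le_prod
    · intro q hq
      rw [mem_pU (fun q h => h.1) hw] at hq
      have h4 : (4 : ℝ) ≤ q := by exact_mod_cast hq.1.2.1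
      rw [sub_nonneg, div_le_one (by linarith)]
      (clear * - h4; linarith)
    · intro q hq
      have : (0 : ℝ) ≤ (1 / q) ^ 2 := by (clear * -; positivity)
      have e : (1 - (1 : ℝ) / q) ^ 2 = 1 - 2 / q + (1 / q) ^ 2 := by ring
      rw [e]; (clear * - this; linarith)
  have hsplit : (∏ q ∈ primesUpTo w, (1 - (1 : ℝ) / q)) ^ 2 =
      (∏ q ∈ pU (Pr h) w, (1 - (1 : ℝ) / q) ^ 2) *
      ∏ q ∈ (primesUpTo w).filter (fun q => ¬ Pr h q), (1 - (1 : ℝ) / q) ^ 2 := by
    rw [hpU, ← Finset.prod_pow, Finset.prod_filter_mul_prod_filter_not]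
  set R := (primesUpTo w).filter (fun q => ¬ Pr h q) with hR
  set T : Finset ℕ := {2, 3} with hT
  have hTp : ∀ q ∈ T, q.Prime := by
    intro q hq; rw [hT] at hq; simp only [Finset.mem_insert, Finset.mem_singleton] at hq
    rcases hq with rfl | rfl
    · exact Nat.prime_two
    · exact Nat.prime_three
  have hUp : ∀ q ∈ T ∪ h.primeFactors, q.Prime := by
    intro q hq
    rcases Finset.mem_union.mp hq with h' | h'
    · exact hTp q h'
    · exact Nat.prime_of_mem_primeFactors h'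
  have hfac : ∀ q : ℕ, q.Prime → (0 : ℝ) < (1 - (1 : ℝ) / q) ^ 2 ∧ (1 - (1 : ℝ) / q) ^ 2 ≤ 1 := by
    intro q hq
    have h1 := one_sub_inv_pos hq
    have h2 := one_sub_inv_lt hq
    exact ⟨by (clear * - h1; positivity), by (clear * - h2 h1; nlinarith)⟩
  have hRsub : R ⊆ T ∪ h.primeFactors := by
    intro q hq
    rw [hR, Finset.mem_filter, mem_primesUpTo hw] at hq
    obtain ⟨⟨hqp, _⟩, hn⟩ := hq
    rw [Finset.mem_union]
    by_cases h3 : 4 ≤ q
    · right
      rw [Nat.mem_primeFactors]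
      refine ⟨hqp, ?_, hh⟩
      by_contra hnd
      exact hn ⟨hqp, h3, hnd⟩
    · left
      have := hqp.two_le
      rw [hT]; simp only [Finset.mem_insert, Finset.mem_singleton]; omega
  have hprodpos : ∀ s : Finset ℕ, (∀ q ∈ s, q.Prime) →
      0 < ∏ q ∈ s, (1 - (1 : ℝ) / q) ^ 2 ∧ ∏ q ∈ s, (1 - (1 : ℝ) / q) ^ 2 ≤ 1 := by
    intro s hs
    exact ⟨Finset.prod_pos fun q hq => (hfac q (hs q hq)).1,
      Finset.prod_le_one (fun q hq => (hfac q (hs q hq)).1.le) fun q hq => (hfac q (hs q hq)).2⟩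
  have hRge : ∏ q ∈ T ∪ h.primeFactors, (1 - (1 : ℝ) / q) ^ 2 ≤
      ∏ q ∈ R, (1 - (1 : ℝ) / q) ^ 2 := by
    rw [← Finset.prod_sdiff hRsub]
    have h5 := hprodpos ((T ∪ h.primeFactors) \ R) (fun q hq => hUp q (Finset.mem_sdiff.mp hq).1)
    have h6 := hprodpos R (fun q hq => hUp q (hRsub hq))
    (clear * - h5 h6; nlinarith [h5.1, h5.2, h6.1])
  have hU := Finset.prod_union_inter (s₁ := T) (s₂ := h.primeFactors)
    (f := fun q : ℕ => (1 - (1 : ℝ) / q) ^ 2)
  have hI := hprodpos (T ∩ h.primeFactors) (fun q hq => hTp q (Finset.mem_inter.mp hq).1)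
  have hUpos := hprodpos _ hUp
  have hTv : ∏ q ∈ T, (1 - (1 : ℝ) / (q : ℝ)) ^ 2 = 1 / 9 := by
    rw [hT, Finset.prod_pair (by norm_num)]; norm_num
  have hGv : ∏ q ∈ h.primeFactors, (1 - (1 : ℝ) / (q : ℝ)) ^ 2 = (G h)⁻¹ := by
    unfold G; rw [Finset.prod_inv_distrib, inv_inv]
  have hG1 := one_le_G h
  have hG0 : 0 < G h := by (clear * - hG1; linarith)
  have hge : (1 / 9) * (G h)⁻¹ ≤ ∏ q ∈ R, (1 - (1 : ℝ) / q) ^ 2 := by
    rw [← hTv, ← hGv, ← hU]
    calc _ ≤ ∏ q ∈ T ∪ h.primeFactors, (1 - (1 : ℝ) / (q : ℝ)) ^ 2 := by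
          (clear * - hI hUpos; nlinarith [hI.2, hI.1, hUpos.1])
      _ ≤ _ := hRge
  have hP0 := (hprodpos (pU (Pr h) w) (fun q hq => by
    rw [mem_pU (fun q h => h.1) hw] at hq; exact hq.1.1)).1
  rw [hsplit]
  have h7 : 1 ≤ 9 * G h * ∏ q ∈ R, (1 - (1 : ℝ) / q) ^ 2 := by
    have : 9 * G h * ((1 / 9) * (G h)⁻¹) = 1 := by (clear * - hG1; field_simp)
    calc (1 : ℝ) = 9 * G h * ((1 / 9) * (G h)⁻¹) := this.symm
      _ ≤ _ := by
        apply mul_le_mul_of_nonneg_left hge; (clear * - hG1; positivity)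
  calc ∏ q ∈ pU (Pr h) w, (1 - (2 : ℝ) / q) ≤ ∏ q ∈ pU (Pr h) w, (1 - (1 : ℝ) / q) ^ 2 := h1
    _ = (∏ q ∈ pU (Pr h) w, (1 - (1 : ℝ) / q) ^ 2) * 1 := (mul_one _).symm
    _ ≤ (∏ q ∈ pU (Pr h) w, (1 - (1 : ℝ) / q) ^ 2) *
        (9 * G h * ∏ q ∈ R, (1 - (1 : ℝ) / q) ^ 2) := mul_le_mul_of_nonneg_left h7 hP0.le
    _ = _ := by ring

theorem pair_bound : ∃ C : ℝ, 0 < C ∧ ∀ N : ℕ, 2 ≤ N → ∀ h : ℕ, h ≠ 0 →
    (((range N).filter (fun m => m.Prime ∧ (m + h).Prime)).card : ℝ) ≤
      C * G h * N / (Real.log N) ^ 2 := by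
  classical
  obtain ⟨K, c, hK, -, hsv⟩ := sieveK 2
  obtain ⟨_, C1, _, hC1, hM⟩ := mertens_prod
  refine ⟨72 * K ^ 2 * C1 ^ 2 + 48 + (K * Real.log 4) ^ 2, by (clear * - hK hC1; positivity), ?_⟩
  intro N hN h hh
  have hN1 : (2 : ℝ) ≤ N := by exact_mod_cast hN
  have hN0 : (0 : ℝ) < N := by (clear * - hN1; linarith)
  have hlN : 0 < Real.log N := Real.log_pos (by (clear * - hN1; linarith))
  have hG := one_le_G h
  have hG0 : 0 < G h := by (clear * - hG; linarith)
  by_cases hsmall : (N : ℝ) < (4 : ℝ) ^ K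
  · -- trivial bound
    have hcard : (((range N).filter (fun m => m.Prime ∧ (m + h).Prime)).card : ℝ) ≤ N := by
      have := Finset.card_filter_le (range N) (fun m => m.Prime ∧ (m + h).Prime)
      rw [Finset.card_range] at this
      exact_mod_cast this
    have hlog : Real.log N ≤ K * Real.log 4 := by
      rw [← Real.log_rpow (by norm_num)]
      exact Real.log_le_log hN0 hsmall.le
    rw [le_div_iff₀ (by positivity)]
    have h1 : (Real.log N) ^ 2 ≤ (K * Real.log 4) ^ 2 := by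
      apply pow_le_pow_left₀ hlN.le hlog
    have h2 : (0 : ℝ) ≤ 72 * K ^ 2 * C1 ^ 2 + 48 := by positivity
    calc _ ≤ (N : ℝ) * (K * Real.log 4) ^ 2 := by (clear * - hcard h1 hlN hN; gcongr)
      _ = (K * Real.log 4) ^ 2 * 1 * N := by ring
      _ ≤ (72 * K ^ 2 * C1 ^ 2 + 48 + (K * Real.log 4) ^ 2) * G h * N := by
        gcongr
        (clear * - h2; linarith)
  · push Not at hsmall
    set w : ℝ := (N : ℝ) ^ (1 / (2 * K)) with hw
    have hK0 : (0 : ℝ) < K := by (clear * - hK; linarith)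
    have hw2 : 2 ≤ w := by
      have h4 : (2 : ℝ) = ((4 : ℝ) ^ K) ^ (1 / (2 * K)) := by
        rw [← Real.rpow_mul (by norm_num)]
        have : K * (1 / (2 * K)) = 1 / 2 := by (clear * - hK; field_simp)
        rw [this, show (4 : ℝ) = 2 ^ (2 : ℝ) by norm_num, ← Real.rpow_mul (by norm_num)]
        norm_num
      rw [h4, hw]
      apply Real.rpow_le_rpow (by positivity) hsmall (by positivity)
    have hw0 : (0 : ℝ) ≤ w := by (clear * - hw2; linarith)
    have hwK : w ^ K = Real.sqrt N := by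
      rw [hw, ← Real.rpow_mul hN0.le, Real.sqrt_eq_rpow]
      congr 1; field_simp
    have hwle : w ≤ Real.sqrt N := by
      rw [← hwK]
      calc w = w ^ (1 : ℝ) := (Real.rpow_one w).symm
        _ ≤ w ^ K := Real.rpow_le_rpow_of_exponent_le (by (clear * - hw2; linarith)) hK
    have hlogw : Real.log w = Real.log N / (2 * K) := by
      rw [hw, Real.log_rpow hN0]; ring
    have hlw : 0 < Real.log w := Real.log_pos (by linarith)
    have key := (hsv ℕ (Pr h) (fun q hq => ⟨hq.1, hq.2.1⟩) (fun _ => 2)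
      (fun q _ => ⟨by norm_num, by norm_num⟩) w hw2 (range N)
      (fun q n => ∃ i < 2, q ∣ 0 + 1 * n + i * h) N 1 hN0.le (by norm_num) (by
        intro I hI
        have := count_bound (M := 1) (a := 0) (d := h) (k := 2) I (fun q hq => by
          have hq' := (hI q hq).1
          refine ⟨hq'.1, ?_, hq'.2.2, by have := hq'.2.1; (clear * - N this; omega)⟩
          rw [Nat.dvd_one]; exact hq'.1.one_lt.ne') N
        exact_mod_cast this)).1
    rw [evCount_eq] at key
    have hcard : (((range N).filter (fun m => m.Prime ∧ (m + h).Prime)).card : ℝ) ≤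
        (((range N).filter (fun n => ∀ q : ℕ, Pr h q → (q : ℝ) ≤ w →
          ¬ ∃ i < 2, q ∣ 0 + 1 * n + i * h)).card : ℝ) + (w + 1) := by
      have hsub : (range N).filter (fun m => m.Prime ∧ (m + h).Prime) ⊆
          (range N).filter (fun n => ∀ q : ℕ, Pr h q → (q : ℝ) ≤ w →
          ¬ ∃ i < 2, q ∣ 0 + 1 * n + i * h) ∪ range (⌊w⌋₊ + 1) := by
        intro m hm
        rw [Finset.mem_filter] at hm
        rw [Finset.mem_union, Finset.mem_filter, Finset.mem_range (n := ⌊w⌋₊ + 1)]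
        by_cases hmw : (m : ℝ) ≤ w
        · right
          have := (Nat.le_floor_iff hw0).mpr hmw
          omega
        · left
          push Not at hmw
          refine ⟨hm.1, ?_⟩
          intro q hq hqw ⟨i, hi, hdvd⟩
          have hi' : i = 0 ∨ i = 1 := by omega
          rcases hi' with rfl | rfl
          · have h1 : q ∣ m := by simpa using hdvd
            have h2 := (Nat.prime_dvd_prime_iff_eq hq.1 hm.2.1).mp h1
            rw [h2] at hqw; (clear * - hmw hqw; linarith)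
          · have h1 : q ∣ m + h := by simpa using hdvd
            have h2 := (Nat.prime_dvd_prime_iff_eq hq.1 hm.2.2).mp h1
            rw [h2] at hqw
            push_cast at hqw
            have : (0 : ℝ) ≤ h := Nat.cast_nonneg h
            (clear * - hmw hqw; linarith)
      have h1 := (Finset.card_le_card hsub).trans (Finset.card_union_le _ _)
      rw [Finset.card_range] at h1
      have h2 : ((⌊w⌋₊ + 1 : ℕ) : ℝ) ≤ w + 1 := by
        push_cast; (clear * - hw0; linarith [Nat.floor_le hw0])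
      calc _ ≤ ((((range N).filter (fun n => ∀ q : ℕ, Pr h q → (q : ℝ) ≤ w →
          ¬ ∃ i < 2, q ∣ 0 + 1 * n + i * h)).card + (⌊w⌋₊ + 1) : ℕ) : ℝ) := by exact_mod_cast h1
        _ ≤ _ := by push_cast at h2 ⊢; (clear * - h2; linarith)
    have hprod := prod_pU_le hh hw0
    have hmer := (hM w hw2).2
    have hmer0 : 0 ≤ ∏ q ∈ primesUpTo w, (1 - (1 : ℝ) / q) := by
      apply Finset.prod_nonneg
      intro q hq
      rw [mem_primesUpTo hw0] at hq
      exact (one_sub_inv_pos hq.1).le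
    have hsqC : (∏ q ∈ primesUpTo w, (1 - (1 : ℝ) / q)) ^ 2 ≤ (C1 / Real.log w) ^ 2 :=
      pow_le_pow_left₀ hmer0 hmer 2
    have hlog16 : (Real.log N) ^ 2 ≤ 16 * Real.sqrt N := by
      have h1 := Real.log_le_rpow_div hN0.le (show (0 : ℝ) < 1 / 4 by norm_num)
      have h2 : Real.log N ≤ 4 * (N : ℝ) ^ (1 / 4 : ℝ) := by linarith
      calc (Real.log N) ^ 2 ≤ (4 * (N : ℝ) ^ (1 / 4 : ℝ)) ^ 2 := pow_le_pow_left₀ hlN.le h2 2
        _ = 16 * ((N : ℝ) ^ (1 / 4 : ℝ)) ^ 2 := by ring
        _ = 16 * Real.sqrt N := by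
          rw [← Real.rpow_natCast ((N : ℝ) ^ (1 / 4 : ℝ)) 2, ← Real.rpow_mul hN0.le,
            Real.sqrt_eq_rpow]
          norm_num
    have hsq1 : 1 ≤ Real.sqrt N := by
      rw [Real.one_le_sqrt]; (clear * - hN1; linarith)
    have hsqN : Real.sqrt N * Real.sqrt N = N := Real.mul_self_sqrt hN0.le
    rw [le_div_iff₀ (by positivity)]
    have hA : (((range N).filter (fun m => m.Prime ∧ (m + h).Prime)).card : ℝ) ≤
        2 * N * (9 * G h * (C1 / Real.log w) ^ 2) + 3 * Real.sqrt N := by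
      have h3 : 2 * (N : ℝ) * ∏ q ∈ pU (Pr h) w, (1 - (2 : ℝ) / q) ≤
          2 * N * (9 * G h * (C1 / Real.log w) ^ 2) := by
        apply mul_le_mul_of_nonneg_left _ (by positivity)
        exact hprod.trans (mul_le_mul_of_nonneg_left hsqC (by positivity))
      rw [hwK] at key
      calc _ ≤ _ := hcard
        _ ≤ _ := by (clear * - hw2 hwle key h3; linarith)
    have hB : 2 * (N : ℝ) * (9 * G h * (C1 / Real.log w) ^ 2) * (Real.log N) ^ 2 =
        72 * K ^ 2 * C1 ^ 2 * G h * N := by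
      rw [hlogw]; field_simp; ring
    have hC : 3 * Real.sqrt N * (Real.log N) ^ 2 ≤ 48 * G h * N := by
      calc 3 * Real.sqrt N * (Real.log N) ^ 2 ≤ 3 * Real.sqrt N * (16 * Real.sqrt N) := by (clear * - hlog16 hN; gcongr)
        _ = 48 * (Real.sqrt N * Real.sqrt N) := by ring
        _ = 48 * 1 * N := by rw [hsqN]; ring
        _ ≤ 48 * G h * N := by (clear * - hG hN; gcongr)
    have hD : (0 : ℝ) ≤ (K * Real.log 4) ^ 2 * G h * N := by (clear * - hK hG hN; positivity)
    calc _ ≤ (2 * N * (9 * G h * (C1 / Real.log w) ^ 2) + 3 * Real.sqrt N) * (Real.log N) ^ 2 := by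
          gcongr
      _ = 2 * (N : ℝ) * (9 * G h * (C1 / Real.log w) ^ 2) * (Real.log N) ^ 2 +
          3 * Real.sqrt N * (Real.log N) ^ 2 := by ring
      _ ≤ 72 * K ^ 2 * C1 ^ 2 * G h * N + 48 * G h * N := by rw [hB]; (clear * - hC; linarith)
      _ ≤ _ := by (clear * - hD; nlinarith)

end Pool.Agent.Helper30.Gap

end

section

set_option autoImplicit false

open Finset Real Filter

namespace Pool.Agent.Helper99.LR

/-- Blocks of primes that are too short are rare. -/
theorem small_card : ∃ C : ℝ, 0 < C ∧ ∀ κ : ℝ, 0 < κ → ∀ N r : ℕ, 81 ≤ N → 0 < r →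
    (((range N).filter (fun n => gm pr r n < κ * Real.log N)).card : ℝ) ≤ C * κ * N := by
  classical
  obtain ⟨C, hC, hpair⟩ := Pool.Agent.Helper30.Gap.pair_bound
  obtain ⟨C', hC', havg⟩ := Pool.Agent.Helper30.Gap.avg_G
  refine ⟨10 * C * C', by (clear * - hC hC'; positivity), ?_⟩
  intro κ hκ N r hN hr
  have hr0 : (0 : ℝ) < r := by exact_mod_cast hr
  have hN1 : (81 : ℝ) ≤ N := by exact_mod_cast hN
  have hN0 : (0 : ℝ) < N := by (clear * - hN1; linarith)
  have hlN : 1 < Real.log N := by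
    rw [Real.lt_log_iff_exp_lt hN0]
    have := Real.exp_one_lt_d9
    (clear * - hN1 this; linarith)
  set L : ℝ := Real.log N with hL
  have hL0 : 0 < L := by (clear * - hlN; linarith)
  set M : ℕ := ⌈4 * (N : ℝ) * L⌉₊ + 1 with hM
  have hMlow : 4 * (N : ℝ) * L ≤ (M : ℝ) := by
    rw [hM]; push_cast
    have := Nat.le_ceil (4 * (N : ℝ) * L)
    (clear * - this; linarith)
  have hMup : (M : ℝ) ≤ 5 * N * L := by
    rw [hM]; push_cast
    have := Nat.ceil_lt_add_one (a := 4 * (N : ℝ) * L) (by (clear * - hN hlN; positivity))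
    (clear * - hN1 this hlN; nlinarith)
  have hMN : (N : ℝ) ≤ M := by (clear * - hN1 hMlow hlN; nlinarith)
  have hM2 : 2 ≤ M := by
    have : (2 : ℝ) ≤ M := by (clear * - hN1 hMN; linarith)
    exact_mod_cast this
  set H : ℕ := ⌊κ * r * L⌋₊ with hH
  have hHup : (H : ℝ) ≤ κ * r * L := Nat.floor_le (by positivity)
  set S : Finset ℕ := (range N).filter (fun n => gm pr r n < κ * L) with hS
  -- the pairs
  have hinj : S.card * r ≤
      ((Ioc 0 H).sigma (fun h => (range M).filter (fun m => m.Prime ∧ (m + h).Prime))).card := by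
    have h1 : S.card * r = (S ×ˢ Icc 1 r).card := by
      rw [Finset.card_product, Nat.card_Icc, Nat.add_sub_cancel]
    rw [h1]
    apply Finset.card_le_card_of_injOn (fun z : ℕ × ℕ =>
      (⟨Nat.nth Nat.Prime (z.1 + z.2) - Nat.nth Nat.Prime z.1, Nat.nth Nat.Prime z.1⟩ :
        Sigma fun _ : ℕ => ℕ))
    · rintro ⟨n, j⟩ hz
      rw [Finset.mem_coe, Finset.mem_product, hS, Finset.mem_filter, Finset.mem_range,
        Finset.mem_Icc] at hz
      obtain ⟨⟨hnN, hgm⟩, hj1, hjr⟩ := hz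
      simp only at hnN hgm hj1 hjr
      have h2 : Nat.nth Nat.Prime n < Nat.nth Nat.Prime (n + j) := pr_lt (by omega)
      have h3 : Nat.nth Nat.Prime (n + j) ≤ Nat.nth Nat.Prime (n + r) :=
        (Nat.nth_strictMono Nat.infinite_setOfPred_prime).monotone (by omega)
      have h3' : (Nat.nth Nat.Prime (n + j) : ℝ) ≤ Nat.nth Nat.Prime (n + r) := by
        exact_mod_cast h3
      rw [Finset.mem_coe, Finset.mem_sigma, Finset.mem_Ioc, Finset.mem_filter, Finset.mem_range]
      simp only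
      refine ⟨⟨by omega, ?_⟩, ?_, Nat.prime_nth_prime _, ?_⟩
      · rw [hH]
        apply Nat.le_floor
        rw [Nat.cast_sub h2.le]
        unfold gm pr at hgm
        rw [div_lt_iff₀ hr0] at hgm
        (clear * - hgm h3'; linarith)
      · have h4 := Pool.Agent.Helper30.Gap.nth_lt hN
        refine lt_of_le_of_lt ?_ h4
        exact (Nat.nth_strictMono Nat.infinite_setOfPred_prime).monotone (by omega)
      · have h4 : Nat.nth Nat.Prime n + (Nat.nth Nat.Prime (n + j) - Nat.nth Nat.Prime n) =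
            Nat.nth Nat.Prime (n + j) := by omega
        rw [h4]
        exact Nat.prime_nth_prime _
    · rintro ⟨n, j⟩ hz ⟨n', j'⟩ hz' heq
      rw [Finset.mem_coe, Finset.mem_product, Finset.mem_Icc] at hz hz'
      simp only [Sigma.mk.injEq, heq_eq_eq] at heq
      obtain ⟨h1, h2⟩ := heq
      have h3 : n = n' := Nat.nth_injective Nat.infinite_setOfPred_prime h2
      subst h3
      simp only at hz hz'
      have h4 := pr_lt (show n < n + j by omega)
      have h5 := pr_lt (show n < n + j' by omega)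
      have h6 : Nat.nth Nat.Prime (n + j) = Nat.nth Nat.Prime (n + j') := by omega
      have h7 := Nat.nth_injective Nat.infinite_setOfPred_prime h6
      have h8 : j = j' := by omega
      rw [h8]
  have hsum : ∑ h ∈ Ioc 0 H, (((range M).filter (fun m => m.Prime ∧ (m + h).Prime)).card : ℝ) ≤
      C * M / (Real.log M) ^ 2 * (C' * ((H : ℝ) - (0 : ℕ)) + C' * Real.sqrt H) := by
    calc _ ≤ ∑ h ∈ Ioc 0 H, C * M / (Real.log M) ^ 2 * Pool.Agent.Helper30.Gap.G h := by
          apply Finset.sum_le_sum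
          intro h hh
          rw [Finset.mem_Ioc] at hh
          have := hpair M hM2 h (by omega)
          calc _ ≤ _ := this
            _ = _ := by ring
      _ = C * M / (Real.log M) ^ 2 * ∑ h ∈ Ioc 0 H, Pool.Agent.Helper30.Gap.G h := by
          rw [Finset.mul_sum]
      _ ≤ _ := by
          apply mul_le_mul_of_nonneg_left (havg 0 H (Nat.zero_le _))
          (clear * - hC hN hlN; positivity)
  have hfac : C * M / (Real.log M) ^ 2 ≤ C * (5 * N) / L := by
    have hlM : L ≤ Real.log M := Real.log_le_log hN0 hMN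
    calc C * M / (Real.log M) ^ 2 ≤ C * (5 * N * L) / L ^ 2 := by (clear * - hC hN hlN hMup hlM; gcongr)
      _ = C * (5 * N) / L := by
          (clear * - hlN hN hC; field_simp)
  have hsq : Real.sqrt H ≤ H := by
    rcases Nat.eq_zero_or_pos H with h | h
    · rw [h]; simp
    · have h1 : (1 : ℝ) ≤ H := by exact_mod_cast h
      rw [Real.sqrt_le_left (by (clear * - h1; linarith))]
      (clear * - h1; nlinarith)
  have hfin : C * M / (Real.log M) ^ 2 * (C' * ((H : ℝ) - (0 : ℕ)) + C' * Real.sqrt H) ≤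
      10 * C * C' * κ * N * r := by
    have h0 : (0 : ℝ) ≤ H := Nat.cast_nonneg _
    calc _ ≤ C * (5 * N) / L * (C' * (κ * r * L) + C' * (κ * r * L)) := by
          apply mul_le_mul hfac _ _ (by (clear * - hC hN hlN; positivity))
          · have h1 : C' * ((H : ℝ) - (0 : ℕ)) ≤ C' * (κ * r * L) := by
              apply mul_le_mul_of_nonneg_left _ hC'.le
              push_cast
              (clear * - hHup; linarith)
            have h2 : C' * Real.sqrt H ≤ C' * (κ * r * L) := by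
              apply mul_le_mul_of_nonneg_left _ hC'.le
              (clear * - hHup hsq; linarith)
            (clear * - h1 h2; linarith)
          · push_cast
            rw [sub_zero]
            (clear * - hC'; positivity)
      _ = _ := by
          field_simp
          ring
  have h1 : ((S.card * r : ℕ) : ℝ) ≤ 10 * C * C' * κ * N * r := by
    refine le_trans ?_ (hsum.trans hfin)
    have h2 := hinj
    rw [Finset.card_sigma] at h2
    exact_mod_cast h2
  push_cast at h1
  exact le_of_mul_le_mul_right h1 hr0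

end Pool.Agent.Helper99.LR

end
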