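import Pool.Agent.Helper23.MT.L00_acd0
import Pool.Agent.Helper23.MT.L00_acd3
import Pool.Agent.Helper23.MT.L00_acd4
import Pool.Agent.Helper23.MT.L00_acd5
import Pool.Agent.Helper23.MT.L00_c1

/-!
Parts of Helper66.PV.Defs, Helper66.PAP.Bad, Helper66.PV.BoundsX0, Helper66.PV.Energy, Helper66.PV.Bad0, Helper95.PV.LowerMain, Helper4.PU.OneT
-/

namespace Pool.Agent.Helper1.MT
end Pool.Agent.Helper1.MT
namespace Pool.Agent.Helper66.PV
end Pool.Agent.Helper66.PV
namespace Pool.Agent.Helper90.MT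
end Pool.Agent.Helper90.MT

section

set_option autoImplicit false

open Finset

namespace Pool.Agent.Helper66.PV

open Pool.Agent.Helper1.MT

open Pool.Agent.Helper66.PAP (ext ys)

section Abstract

variable {ι κ : Type} [Fintype ι] [Fintype κ] [DecidableEq ι] [DecidableEq κ]

/-- The choice of `y`, with a truncation function for each colour. -/
noncomputable def yv (t : ι → ℝ) (γ : κ → Finset ι → ℝ) (c : ι → Option κ) : ℝ :=
  (-1) ^ (supp c).card * (if T t (supp c) ≤ 1 then ∏ i : κ, γ i (cls c i) else 0)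

/-- Assumptions on the truncation functions: `t` is the size function, `w` are the weights, `η`
bounds the sum of the squares of the weights. -/
structure GoodV (w t : ι → ℝ) (γ : κ → Finset ι → ℝ) (τ η : ℝ) : Prop where
  w_nonneg : ∀ p, 0 ≤ w p
  w_le : ∀ p, 4 * (Fintype.card κ + 1 : ℝ) * w p ≤ 1
  t_nonneg : ∀ p, 0 ≤ t p
  g_nonneg : ∀ i S, 0 ≤ γ i S
  g_le : ∀ i S, γ i S ≤ 1
  g_anti : ∀ i S S', S ⊆ S' → γ i S' ≤ γ i S
  g_supp : ∀ i S, γ i S ≠ 0 → T t S ≤ τ
  sq : ∑ p, w p ^ 2 ≤ η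
  eta : 1000 * (Fintype.card κ : ℝ) ^ 2 * η ≤ 1
  tau_nonneg : 0 ≤ τ
  tau_le : τ ≤ 1 / 10

end Abstract

/-- PV-L: the main term for primes. -/
def LowerMainV : Prop :=
  ∀ (ι κ : Type) [Fintype ι] [Fintype κ] [DecidableEq ι] [DecidableEq κ] (w w' t : ι → ℝ)
    (γ : κ → Finset ι → ℝ) (τ η : ℝ) (ρ : κ → ℝ), GoodV w t γ τ η →
    (∀ p, w p ≤ w' p) → (∀ p, w' p - w p ≤ 2 * w p ^ 2) → (∀ i, 0 ≤ ρ i) →
    (∀ i, M1 w t (γ i) ≤ ρ i * (1 - τ) * B1 w (γ i)) → ∑ i, ρ i ≤ 1 / 10 →
    ∀ m : κ, 1 / 2 * (A1 w (γ m) ^ 2 * ∏ i ∈ univ.erase m, B1 w (γ i)) ≤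
      ∑ c ∈ univ.filter (fun c : ι → Option κ => cls c m = ∅),
        (∏ p ∈ supp c, w' p * (1 - ((Fintype.card κ : ℝ) - 1) * w' p)) *
          ym m w w' (yv t γ) c ^ 2

/-- PV-E: the energy of the transformed weights. -/
def EnergyStarV : Prop :=
  ∀ (ι ι' κ : Type) [Fintype ι] [Fintype ι'] [Fintype κ] [DecidableEq ι] [DecidableEq ι']
    [DecidableEq κ] (e : Option ι' ≃ ι) (w t : ι → ℝ) (γ : κ → Finset ι → ℝ) (τ η Λ : ℝ),
    GoodV w t γ τ η →
    (∀ a : ℝ, a ≤ 1 → ∑ S ∈ (univ : Finset (Finset ι)).filter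
      (fun S => a - t (e none) < T t S ∧ T t S ≤ a), ws w S ≤ Λ) →
    (∀ i, ∑ S : Finset ι, (γ i S ^ 2 - γ i (insert (e none) S) ^ 2) * ws w S ≤ Λ) →
    ∀ i : κ, ∑ c : ι' → Option κ, ws (fun p => w (e (some p))) (supp c) *
        ys e w i (yv t γ) c ^ 2 ≤
      4 * Λ * ∏ j ∈ univ.erase i, B1 w (γ j) +
        2 * (Fintype.card κ * w (e none)) ^ 2 * ∏ j, B1 w (γ j)

/-- The truncation function of the colour `i`. -/
noncomputable def gv {κ : Type} (K J : κ → ℕ) (R W : ℕ) (i : κ) (S : Finset (PS R W)) : ℝ :=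
  gam (K i) (J i) S

/-- The one-dimensional sum of the squares for the colour `i`. -/
noncomputable def Bv {κ : Type} (K J : κ → ℕ) (W : ℕ) (x : ℝ) (i : κ) : ℝ :=
  B1 (wp (lev x) W) (gv K J (lev x) W i)

/-- The expected size of the sieve sum. -/
noncomputable def Sv {κ : Type} [Fintype κ] (K J : κ → ℕ) (W : ℕ) (x : ℝ) : ℝ :=
  Real.log x / (2 * W) * ∏ i, Bv K J W x i

/-- The sieve weight of `n`. -/
noncomputable def uv {κ : Type} [Fintype κ] [DecidableEq κ] (h : κ → ℕ) (K J : κ → ℕ) (W : ℕ)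
    (x : ℝ) (n : ℕ) : ℝ :=
  (1 / (n : ℝ)) * sw h (lam (wp (lev x) W) (yv (tp (lev x) W) (gv K J (lev x) W))) n

end Pool.Agent.Helper66.PV

end

section

set_option autoImplicit false

open Finset Filter

namespace Pool.Agent.Helper66.PAP

open Pool.Agent.Helper1.MT

/-- Some small prime of the sieve divides some `n + h i`. -/
def BadAt {κ : Type} (h : κ → ℕ) (W : ℕ) (ε x : ℝ) (n : ℕ) : Prop :=
  ∃ q : PS (lev x) W, tp (lev x) W q ≤ ε ∧ ∃ i, (q : ℕ) ∣ n + h i

end Pool.Agent.Helper66.PAP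

end

section

set_option autoImplicit false

set_option linter.unusedSectionVars false

open Finset Filter

open scoped ArithmeticFunction.vonMangoldt

namespace Pool.Agent.Helper66.PV

open Pool.Agent.Helper1.MT

section Abs

variable {ι κ : Type} [Fintype ι] [Fintype κ] [DecidableEq ι] [DecidableEq κ]

theorem yv_abs_le {w t : ι → ℝ} {γ : κ → Finset ι → ℝ} {τ η : ℝ} (hG : GoodV w t γ τ η)
    (c : ι → Option κ) : |yv t γ c| ≤ 1 := by
  unfold yv
  rw [abs_mul, abs_pow, abs_neg, abs_one, one_pow, one_mul]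
  split_ifs
  · rw [abs_of_nonneg (Finset.prod_nonneg fun i _ => hG.g_nonneg _ _)]
    exact Finset.prod_le_one (fun i _ => hG.g_nonneg _ _) fun i _ => hG.g_le _ _
  · simp

theorem yv_supp {t : ι → ℝ} {γ : κ → Finset ι → ℝ} {c : ι → Option κ} (h : yv t γ c ≠ 0) :
    T t (supp c) ≤ 1 := by
  unfold yv at h
  by_contra h1
  rw [if_neg h1, mul_zero] at h
  exact h rfl

end Abs

/-- The facts on the sieve at `x`. -/
structure SieveAtV (c1 : ℝ) {κ : Type} [Fintype κ] [DecidableEq κ] (K J : κ → ℕ) (I : Finset κ)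
    (D0 : ℕ) (h : κ → ℕ) (W v : ℕ) (x : ℝ) : Prop where
  R3 : 3 ≤ lev x
  Rx : (lev x : ℝ) ≤ x ^ (1 / 81 : ℝ)
  x9 : 9 ≤ x
  logx : Real.log x ≤ 82 * Real.log (lev x)
  good : GoodV (wp (lev x) W) (tp (lev x) W) (gv K J (lev x) W) (1 / 10) (2 / D0)
  Blow : ∀ i, 9 / 40 / Kp (K i) (J i) * ((W.totient : ℝ) / W * Real.log (lev x)) ≤ Bv K J W x i
  Bone : ∀ i, 1 ≤ Bv K J W x i
  tot : ∑ n ∈ NS x W v, uv h K J W x n ≤ Sv K J W x + 1
  prim : ∀ m ∈ I, c1 * ((J m + 2) / K m) * Sv K J W x - 1 ≤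
    ∑ n ∈ (NS x W v).filter (fun n => (n + h m).Prime), uv h K J W x n

theorem uv_nonneg {κ : Type} [Fintype κ] [DecidableEq κ] (h : κ → ℕ) (K J : κ → ℕ) (W : ℕ) (x : ℝ)
    (n : ℕ) : 0 ≤ uv h K J W x n := by
  unfold uv sw
  positivity

end Pool.Agent.Helper66.PV

end

section

set_option autoImplicit false

set_option linter.unusedSectionVars false

open Finset

namespace Pool.Agent.Helper66.PV

open Pool.Agent.Helper1.MT

open Pool.Agent.Helper66.PAP (ext ys)

section

variable {ι ι' κ : Type} [Fintype ι] [Fintype ι'] [Fintype κ] [DecidableEq ι] [DecidableEq ι']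
  [DecidableEq κ]

theorem q_notMem_supp (e : Option ι' ≃ ι) (c : ι' → Option κ) :
    e none ∉ supp (Pool.Agent.Helper66.PAP.ext e c none) := by
  rw [Helper90.MT.mem_supp, ext_none]
  simp

theorem ws_supp_ext (e : Option ι' ≃ ι) (w : ι → ℝ) (c : ι' → Option κ) :
    ws (fun p => w (e (some p))) (supp c) = ws w (supp (Pool.Agent.Helper66.PAP.ext e c none)) := by
  unfold ws supp
  rw [Finset.prod_filter, Finset.prod_filter]
  rw [← Equiv.prod_comp e (fun p => if Pool.Agent.Helper66.PAP.ext e c none p ≠ none then w p else 1)]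
  rw [Fintype.prod_option]
  simp only [ext_none, ext_some, ne_eq, not_true_eq_false, if_false, one_mul]

theorem supp_ext_some (e : Option ι' ≃ ι) (c : ι' → Option κ) (i : κ) :
    supp (Pool.Agent.Helper66.PAP.ext e c (some i)) = insert (e none) (supp (Pool.Agent.Helper66.PAP.ext e c none)) := by
  ext p
  obtain ⟨a, rfl⟩ := e.surjective p
  rw [Finset.mem_insert, Helper90.MT.mem_supp, Helper90.MT.mem_supp]
  rcases a with _ | a
  · simp [ext_none]
  · rw [ext_some, ext_some]
    simp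

theorem cls_ext_some (e : Option ι' ≃ ι) (c : ι' → Option κ) (i j : κ) :
    cls (Pool.Agent.Helper66.PAP.ext e c (some i)) j =
      if j = i then insert (e none) (cls (Pool.Agent.Helper66.PAP.ext e c none) j) else cls (Pool.Agent.Helper66.PAP.ext e c none) j := by
  ext p
  obtain ⟨a, rfl⟩ := e.surjective p
  rcases a with _ | a
  · by_cases h : j = i
    · rw [if_pos h, Finset.mem_insert, Helper90.MT.mem_cls, ext_none, h]
      simp
    · rw [if_neg h, Helper90.MT.mem_cls, Helper90.MT.mem_cls, ext_none, ext_none]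
      constructor
      · intro h1
        exact absurd (Option.some.inj h1).symm h
      · intro h1
        simp at h1
  · by_cases h : j = i
    · rw [if_pos h, Finset.mem_insert, Helper90.MT.mem_cls, Helper90.MT.mem_cls, ext_some, ext_some]
      simp
    · rw [if_neg h, Helper90.MT.mem_cls, Helper90.MT.mem_cls, ext_some, ext_some]

/-- The pointwise bound. -/
theorem point (e : Option ι' ≃ ι) (w t : ι → ℝ) (γ : κ → Finset ι → ℝ) (τ η : ℝ)
    (hG : GoodV w t γ τ η) (i : κ) (c : ι' → Option κ) :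
    ys e w i (yv t γ) c ^ 2 ≤
      2 * ((γ i (cls (Pool.Agent.Helper66.PAP.ext e c none) i) ^ 2 - γ i (insert (e none) (cls (Pool.Agent.Helper66.PAP.ext e c none) i)) ^ 2) *
          (∏ j : {j // j ≠ i}, γ j (cls (Pool.Agent.Helper66.PAP.ext e c none) j) ^ 2) +
        (if 1 - t (e none) < ∑ j, T t (cls (Pool.Agent.Helper66.PAP.ext e c none) j) ∧
            ∑ j, T t (cls (Pool.Agent.Helper66.PAP.ext e c none) j) ≤ 1 then
          ∏ j : {j // j ≠ i}, γ j (cls (Pool.Agent.Helper66.PAP.ext e c none) j) ^ 2 else 0)) +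
      2 * (Fintype.card κ * w (e none)) ^ 2 * ∏ j, γ j (cls (Pool.Agent.Helper66.PAP.ext e c none) j) ^ 2 := by
  set S : κ → Finset ι := fun j => cls (Pool.Agent.Helper66.PAP.ext e c none) j with hS
  set q := e none with hq
  set s := supp (Pool.Agent.Helper66.PAP.ext e c none) with hs
  have hTs : T t s = ∑ j, T t (S j) := Helper90.MT.T_supp t _
  have hqs : q ∉ s := q_notMem_supp e c
  set F0 : ℝ := if T t s ≤ 1 then ∏ j, γ j (S j) else 0 with hF0
  set P : ℝ := ∏ j : {j // j ≠ i}, γ j (S j) with hP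
  have hP0 : 0 ≤ P := Finset.prod_nonneg fun j _ => hG.g_nonneg _ _
  have hPsq : ∏ j : {j // j ≠ i}, γ j (S j) ^ 2 = P ^ 2 := by rw [hP, Finset.prod_pow]
  have hall : ∏ j, γ j (S j) = γ i (S i) * P := Fintype.prod_eq_mul_prod_subtype_ne (fun j => γ j (S j)) i
  have hallsq : ∏ j, γ j (S j) ^ 2 = (∏ j, γ j (S j)) ^ 2 := by rw [Finset.prod_pow]
  have hG0 : 0 ≤ ∏ j, γ j (S j) := Finset.prod_nonneg fun j _ => hG.g_nonneg _ _
  -- the values at the extensions
  let F : κ → ℝ := fun k => if T t s + t q ≤ 1 then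
    ∏ j, γ j (if j = k then insert q (S j) else S j) else 0
  have hy0 : yv t γ (Pool.Agent.Helper66.PAP.ext e c none) = (-1) ^ s.card * F0 := rfl
  have hy1 : ∀ k, yv t γ (Pool.Agent.Helper66.PAP.ext e c (some k)) = -((-1) ^ s.card * F k) := by
    intro k
    unfold yv
    rw [supp_ext_some, Finset.card_insert_of_notMem hqs, pow_succ]
    have hT1 : T t (insert q s) = T t s + t q := by
      unfold T
      rw [Finset.sum_insert hqs, add_comm]
    rw [hT1]
    have h2 : (∏ j : κ, γ j (cls (Pool.Agent.Helper66.PAP.ext e c (some k)) j)) =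
        ∏ j, γ j (if j = k then insert q (S j) else S j) := by
      refine Finset.prod_congr rfl fun j _ => ?_
      rw [cls_ext_some]
    rw [h2]
    show (-1 : ℝ) ^ s.card * -1 * F k = _
    ring
  have hFnn : ∀ k, 0 ≤ F k := by
    intro k
    show 0 ≤ (if T t s + t q ≤ 1 then _ else _)
    split_ifs
    · exact Finset.prod_nonneg fun j _ => hG.g_nonneg _ _
    · exact le_rfl
  have hFle : ∀ k, F k ≤ F0 := by
    intro k
    show (if T t s + t q ≤ 1 then _ else _) ≤ (if T t s ≤ 1 then _ else _)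
    have htq := hG.t_nonneg q
    by_cases h1 : T t s + t q ≤ 1
    · rw [if_pos h1, if_pos (by linarith)]
      refine Finset.prod_le_prod (fun j _ => hG.g_nonneg _ _) fun j _ => ?_
      split_ifs
      · exact hG.g_anti _ _ _ (Finset.subset_insert _ _)
      · exact le_rfl
    · rw [if_neg h1]
      split_ifs
      · exact hG0
      · exact le_rfl
  have hF0nn : 0 ≤ F0 := (hFnn i).trans (hFle i)
  have hys : ys e w i (yv t γ) c = (-1) ^ s.card * (F0 - F i + w q * ∑ k, F k) := by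
    unfold ys
    rw [hy0, hy1]
    simp only [hy1]
    rw [Finset.sum_neg_distrib, ← Finset.mul_sum]
    ring
  have hsum0 : 0 ≤ ∑ k, F k := Finset.sum_nonneg fun k _ => hFnn k
  have hsum : ∑ k, F k ≤ Fintype.card κ * F0 := by
    calc ∑ k, F k ≤ ∑ _k : κ, F0 := Finset.sum_le_sum fun k _ => hFle k
      _ = _ := by rw [Finset.sum_const, nsmul_eq_mul, Finset.card_univ]
  have hwq := hG.w_nonneg q
  have hF0sq : F0 ^ 2 ≤ ∏ j, γ j (S j) ^ 2 := by
    rw [hallsq]
    refine pow_le_pow_left₀ hF0nn ?_ 2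
    rw [hF0]
    split_ifs
    · exact le_rfl
    · exact hG0
  have hsq : ((-1 : ℝ) ^ s.card) ^ 2 = 1 := by
    rw [← pow_mul, mul_comm, pow_mul, neg_one_sq, one_pow]
  have h1 : ys e w i (yv t γ) c ^ 2 = (F0 - F i + w q * ∑ k, F k) ^ 2 := by
    rw [hys, mul_pow, hsq, one_mul]
  have h2 : (w q * ∑ k, F k) ^ 2 ≤ (Fintype.card κ * w q) ^ 2 * ∏ j, γ j (S j) ^ 2 := by
    have h3 : w q * ∑ k, F k ≤ (Fintype.card κ * w q) * F0 := by
      calc w q * ∑ k, F k ≤ w q * (Fintype.card κ * F0) := mul_le_mul_of_nonneg_left hsum hwq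
        _ = _ := by ring
    calc (w q * ∑ k, F k) ^ 2 ≤ ((Fintype.card κ * w q) * F0) ^ 2 :=
          pow_le_pow_left₀ (mul_nonneg hwq hsum0) h3 2
      _ = (Fintype.card κ * w q) ^ 2 * F0 ^ 2 := by ring
      _ ≤ _ := mul_le_mul_of_nonneg_left hF0sq (sq_nonneg _)
  have hFi : F i = if T t s + t q ≤ 1 then γ i (insert q (S i)) * P else 0 := by
    show (if T t s + t q ≤ 1 then _ else _) = _
    congr 1
    rw [Fintype.prod_eq_mul_prod_subtype_ne (fun j => γ j (if j = i then insert q (S j) else S j)) i]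
    rw [if_pos rfl]
    congr 1
    refine Finset.prod_congr rfl fun j _ => ?_
    rw [if_neg j.2]
  have hanti : γ i (insert q (S i)) ≤ γ i (S i) := hG.g_anti _ _ _ (Finset.subset_insert _ _)
  have hins : 0 ≤ γ i (insert q (S i)) := hG.g_nonneg _ _
  have hdiff : 0 ≤ γ i (S i) ^ 2 - γ i (insert q (S i)) ^ 2 := by (clear * - hanti hins; nlinarith)
  have h3 : F0 ^ 2 - F i ^ 2 ≤ (γ i (S i) ^ 2 - γ i (insert q (S i)) ^ 2) * P ^ 2 +
      (if 1 - t q < ∑ j, T t (S j) ∧ ∑ j, T t (S j) ≤ 1 then P ^ 2 else 0) := by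
    rw [← hTs, hFi, hF0, hall]
    have hPP : 0 ≤ P ^ 2 := sq_nonneg P
    by_cases hA : T t s ≤ 1
    · by_cases hB : T t s + t q ≤ 1
      · rw [if_pos hA, if_pos hB]
        rw [if_neg (fun h => absurd h.1 (by (clear * - hB h; linarith)))]
        apply le_of_eq
        ring
      · rw [if_pos hA, if_neg hB, if_pos ⟨by (clear * - hB; linarith [not_le.1 hB]), hA⟩]
        have h4 : γ i (S i) ^ 2 ≤ 1 := by
          have := hG.g_le i (S i)
          have := hG.g_nonneg i (S i)
          nlinarith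
        have h5 : 0 ≤ (γ i (S i) ^ 2 - γ i (insert q (S i)) ^ 2) * P ^ 2 := mul_nonneg hdiff hPP
        (clear * - h5 h4; nlinarith)
    · have htq := hG.t_nonneg q
      rw [if_neg hA, if_neg (fun h => hA (by linarith)), if_neg (fun h => hA h.2)]
      have h5 : 0 ≤ (γ i (S i) ^ 2 - γ i (insert q (S i)) ^ 2) * P ^ 2 := mul_nonneg hdiff hPP
      (clear * - h5; linarith)
  have h4 : (F0 - F i) ^ 2 ≤ F0 ^ 2 - F i ^ 2 := by
    have := hFnn i
    have := hFle i
    nlinarith
  have h5 : (F0 - F i + w q * ∑ k, F k) ^ 2 ≤ 2 * (F0 - F i) ^ 2 + 2 * (w q * ∑ k, F k) ^ 2 := by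
    (clear * -; nlinarith [sq_nonneg (F0 - F i - w q * ∑ k, F k)])
  rw [h1, hPsq]
  (clear * - h2 h3 h4 h5; linarith)

end

theorem energyStarV : EnergyStarV := by
  intro ι ι' κ _ _ _ _ _ _ e w t γ τ η Λ hG hint hdif i
  have hK : 0 < Fintype.card κ := Fintype.card_pos_iff.2 ⟨i⟩
  set q := e none with hq
  set g : κ → Finset ι → ℝ := fun j A => γ j A ^ 2 * ws w A with hg
  have hw0 : ∀ A, 0 ≤ ws w A := Helper90.MT.ws_nonneg hG.w_nonneg
  have hg0 : ∀ j A, 0 ≤ g j A := fun j A => mul_nonneg (sq_nonneg _) (hw0 A)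
  have hdiff : ∀ A : Finset ι, 0 ≤ γ i A ^ 2 - γ i (insert q A) ^ 2 := by
    intro A
    have h1 : γ i (insert q A) ≤ γ i A := hG.g_anti _ _ _ (Finset.subset_insert _ _)
    have h2 : 0 ≤ γ i (insert q A) := hG.g_nonneg _ _
    nlinarith
  -- the function on tuples
  let H : (κ → Finset ι) → ℝ := fun S =>
    (2 * ((γ i (S i) ^ 2 - γ i (insert q (S i)) ^ 2) * (∏ j : {j // j ≠ i}, γ j (S j) ^ 2) +
        (if 1 - t q < ∑ j, T t (S j) ∧ ∑ j, T t (S j) ≤ 1 then
          ∏ j : {j // j ≠ i}, γ j (S j) ^ 2 else 0)) +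
      2 * (Fintype.card κ * w q) ^ 2 * ∏ j, γ j (S j) ^ 2) * ∏ j, ws w (S j)
  have hH0 : ∀ S, 0 ≤ H S := by
    intro S
    have h1 : 0 ≤ ∏ j : {j // j ≠ i}, γ j (S j) ^ 2 := Finset.prod_nonneg fun j _ => sq_nonneg _
    have h2 : 0 ≤ ∏ j, γ j (S j) ^ 2 := Finset.prod_nonneg fun j _ => sq_nonneg _
    have h3 : 0 ≤ ∏ j, ws w (S j) := Finset.prod_nonneg fun j _ => hw0 _
    have h4 : 0 ≤ (if 1 - t q < ∑ j, T t (S j) ∧ ∑ j, T t (S j) ≤ 1 then
          ∏ j : {j // j ≠ i}, γ j (S j) ^ 2 else 0) := by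
      split_ifs
      · exact h1
      · exact le_rfl
    have h5 := mul_nonneg (hdiff (S i)) h1
    refine mul_nonneg ?_ h3
    have h6 : 0 ≤ 2 * (Fintype.card κ * w q) ^ 2 * ∏ j, γ j (S j) ^ 2 :=
      mul_nonneg (mul_nonneg (by norm_num) (sq_nonneg _)) h2
    (clear * - h4 h5 h6; linarith)
  have hstep1 : ∑ c : ι' → Option κ, ws (fun p => w (e (some p))) (supp c) *
      ys e w i (yv t γ) c ^ 2 ≤
      ∑ c : ι' → Option κ, H (fun j => cls (Pool.Agent.Helper66.PAP.ext e c none) j) := by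
    refine Finset.sum_le_sum fun c _ => ?_
    rw [ws_supp_ext, Helper90.MT.ws_supp, mul_comm]
    exact mul_le_mul_of_nonneg_right (point e w t γ τ η hG i c)
      (Finset.prod_nonneg fun j _ => hw0 _)
  have hstep2 : ∑ c : ι' → Option κ, H (fun j => cls (Pool.Agent.Helper66.PAP.ext e c none) j) ≤
      ∑ S : κ → Finset ι, H S := by
    have h1 : ∑ c : ι' → Option κ, H (fun j => cls (Pool.Agent.Helper66.PAP.ext e c none) j) ≤
        ∑ c : ι → Option κ, H (fun j => cls c j) := by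
      have hinj : Set.InjOn (fun c : ι' → Option κ => Pool.Agent.Helper66.PAP.ext e c none)
          ((univ : Finset (ι' → Option κ)) : Set (ι' → Option κ)) := (ext_inj e).injOn
      rw [← Finset.sum_image (f := fun c : ι → Option κ => H (fun j => cls c j)) hinj]
      exact Finset.sum_le_sum_of_subset_of_nonneg (Finset.subset_univ _) fun f _ _ => hH0 _
    exact h1.trans (Helper90.MT.tuple_le (F := H) hH0)
  -- split off the coordinate i
  let Rr : ({j // j ≠ i} → Finset ι) → ℝ := fun S' => ∏ j : {j // j ≠ i}, g j (S' j)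
  have hRr0 : ∀ S', 0 ≤ Rr S' := fun S' => Finset.prod_nonneg fun j _ => hg0 _ _
  have hRsum : ∑ S' : {j // j ≠ i} → Finset ι, Rr S' = ∏ j ∈ univ.erase i, B1 w (γ j) := by
    have h1 := Helper90.MT.prod_tuple (κ := {j // j ≠ i}) (fun j => g j)
    rw [← h1]
    have h2 : ∏ j ∈ univ.erase i, B1 w (γ j) = ∏ j : {j // j ≠ i}, B1 w (γ j) := by
      apply Finset.prod_subtype
      intro j
      simp
    rw [h2]
    rfl
  have hGsum : ∑ S : κ → Finset ι, ∏ j, g j (S j) = ∏ j, B1 w (γ j) := by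
    have h1 := Helper90.MT.prod_tuple (κ := κ) (fun j => g j)
    rw [← h1]
    rfl
  have hHeq : ∀ S : κ → Finset ι, H S =
      2 * (((γ i (S i) ^ 2 - γ i (insert q (S i)) ^ 2) * ws w (S i) +
        (if 1 - t q < T t (S i) + ∑ j : {j // j ≠ i}, T t (S j) ∧
          T t (S i) + ∑ j : {j // j ≠ i}, T t (S j) ≤ 1 then ws w (S i) else 0)) *
        Rr (fun j => S j)) +
      2 * (Fintype.card κ * w q) ^ 2 * ∏ j, g j (S j) := by
    intro S
    have h1 : ∏ j, ws w (S j) = ws w (S i) * ∏ j : {j // j ≠ i}, ws w (S j) :=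
      Fintype.prod_eq_mul_prod_subtype_ne (fun j => ws w (S j)) i
    have h2 : Rr (fun j => S j) = (∏ j : {j // j ≠ i}, γ j (S j) ^ 2) *
        ∏ j : {j // j ≠ i}, ws w (S j) := by
      show ∏ j : {j // j ≠ i}, (γ j (S j) ^ 2 * ws w (S j)) = _
      rw [Finset.prod_mul_distrib]
    have h3 : ∏ j, g j (S j) = (∏ j, γ j (S j) ^ 2) * ∏ j, ws w (S j) := by
      show ∏ j, (γ j (S j) ^ 2 * ws w (S j)) = _
      rw [Finset.prod_mul_distrib]
    have h4 : ∑ j, T t (S j) = T t (S i) + ∑ j : {j // j ≠ i}, T t (S j) :=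
      Fintype.sum_eq_add_sum_subtype_ne (fun j => T t (S j)) i
    show (2 * ((γ i (S i) ^ 2 - γ i (insert q (S i)) ^ 2) * (∏ j : {j // j ≠ i}, γ j (S j) ^ 2) +
        (if 1 - t q < ∑ j, T t (S j) ∧ ∑ j, T t (S j) ≤ 1 then
          ∏ j : {j // j ≠ i}, γ j (S j) ^ 2 else 0)) +
      2 * (Fintype.card κ * w q) ^ 2 * ∏ j, γ j (S j) ^ 2) * ∏ j, ws w (S j) = _
    rw [h3, h2, h4, add_mul]
    congr 1
    · rw [h1]
      split_ifs <;> ring
    · ring
  have hstep3 : ∑ S : κ → Finset ι, H S ≤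
      2 * ((Λ + Λ) * ∏ j ∈ univ.erase i, B1 w (γ j)) +
        2 * (Fintype.card κ * w q) ^ 2 * ∏ j, B1 w (γ j) := by
    rw [Finset.sum_congr rfl fun S _ => hHeq S, Finset.sum_add_distrib, ← Finset.mul_sum,
      ← Finset.mul_sum, hGsum, ← hRsum]
    have hmain : ∑ S : κ → Finset ι, ((γ i (S i) ^ 2 - γ i (insert q (S i)) ^ 2) * ws w (S i) +
        (if 1 - t q < T t (S i) + ∑ j : {j // j ≠ i}, T t (S j) ∧
          T t (S i) + ∑ j : {j // j ≠ i}, T t (S j) ≤ 1 then ws w (S i) else 0)) *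
        Rr (fun j => S j) ≤ (Λ + Λ) * ∑ S' : {j // j ≠ i} → Finset ι, Rr S' := by
      let E : (κ → Finset ι) ≃ Finset ι × ({j // j ≠ i} → Finset ι) := Equiv.funSplitAt i _
      let G : Finset ι × ({j // j ≠ i} → Finset ι) → ℝ := fun x =>
        ((γ i x.1 ^ 2 - γ i (insert q x.1) ^ 2) * ws w x.1 +
        (if 1 - t q < T t x.1 + ∑ j : {j // j ≠ i}, T t (x.2 j) ∧
          T t x.1 + ∑ j : {j // j ≠ i}, T t (x.2 j) ≤ 1 then ws w x.1 else 0)) * Rr x.2
      have h1 : ∀ S : κ → Finset ι, ((γ i (S i) ^ 2 - γ i (insert q (S i)) ^ 2) * ws w (S i) +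
        (if 1 - t q < T t (S i) + ∑ j : {j // j ≠ i}, T t (S j) ∧
          T t (S i) + ∑ j : {j // j ≠ i}, T t (S j) ≤ 1 then ws w (S i) else 0)) *
        Rr (fun j => S j) = G (E S) := fun S => rfl
      rw [Finset.sum_congr rfl fun S _ => h1 S, Equiv.sum_comp E G, Fintype.sum_prod_type_right,
        Finset.mul_sum]
      refine Finset.sum_le_sum fun S' _ => ?_
      show ∑ A : Finset ι, ((γ i A ^ 2 - γ i (insert q A) ^ 2) * ws w A +
        (if 1 - t q < T t A + ∑ j : {j // j ≠ i}, T t (S' j) ∧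
          T t A + ∑ j : {j // j ≠ i}, T t (S' j) ≤ 1 then ws w A else 0)) * Rr S' ≤ _
      rw [← Finset.sum_mul]
      refine mul_le_mul_of_nonneg_right ?_ (hRr0 S')
      rw [Finset.sum_add_distrib]
      refine add_le_add (hdif i) ?_
      have hT0 : 0 ≤ ∑ j : {j // j ≠ i}, T t (S' j) :=
        Finset.sum_nonneg fun j _ => Finset.sum_nonneg fun p _ => hG.t_nonneg p
      have h2 := hint (1 - ∑ j : {j // j ≠ i}, T t (S' j)) (by (clear * - hT0; linarith))
      refine le_trans (le_of_eq ?_) h2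
      rw [Finset.sum_filter]
      refine Finset.sum_congr rfl fun A _ => ?_
      have h3 : (1 - t q < T t A + ∑ j : {j // j ≠ i}, T t (S' j) ∧
          T t A + ∑ j : {j // j ≠ i}, T t (S' j) ≤ 1) ↔
          (1 - ∑ j : {j // j ≠ i}, T t (S' j) - t (e none) < T t A ∧
            T t A ≤ 1 - ∑ j : {j // j ≠ i}, T t (S' j)) := by
        rw [← hq]
        constructor
        · rintro ⟨h4, h5⟩
          exact ⟨by linarith, by linarith⟩
        · rintro ⟨h4, h5⟩
          exact ⟨by linarith, by linarith⟩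
      exact if_congr h3 rfl rfl
    (clear * - hmain; linarith)
  refine (hstep1.trans (hstep2.trans hstep3)).trans (le_of_eq ?_)
  ring

end Pool.Agent.Helper66.PV

end

section

set_option autoImplicit false

open Finset Filter

namespace Pool.Agent.Helper66.PV

open Pool.Agent.Helper1.MT

open Pool.Agent.Helper66.PAP (ys BadAt)

/-- The union bound. -/
theorem bad_union {κ : Type} [Fintype κ] [DecidableEq κ] (h : κ → ℕ) (K J : κ → ℕ) (W v : ℕ)
    (ε x : ℝ) [DecidablePred (BadAt h W ε x)] :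
    ∑ n ∈ (NS x W v).filter (BadAt h W ε x), uv h K J W x n ≤
      ∑ q ∈ univ.filter (fun q : PS (lev x) W => tp (lev x) W q ≤ ε), ∑ i : κ,
        ∑ n ∈ (NS x W v).filter (fun n => (q : ℕ) ∣ n + h i), uv h K J W x n := by
  have h1 : ∀ n ∈ (NS x W v).filter (BadAt h W ε x), uv h K J W x n ≤
      ∑ q ∈ univ.filter (fun q : PS (lev x) W => tp (lev x) W q ≤ ε), ∑ i : κ,
        if (q : ℕ) ∣ n + h i then uv h K J W x n else 0 := by
    intro n hn
    obtain ⟨q, hq, i, hi⟩ := (mem_filter.1 hn).2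
    have hnn : ∀ (q : PS (lev x) W) (i : κ), 0 ≤ if (q : ℕ) ∣ n + h i then uv h K J W x n else 0 := by
      intro q i
      split_ifs
      · exact uv_nonneg h K J W x n
      · exact le_rfl
    calc uv h K J W x n = if (q : ℕ) ∣ n + h i then uv h K J W x n else 0 := by rw [if_pos hi]
      _ ≤ ∑ i : κ, if (q : ℕ) ∣ n + h i then uv h K J W x n else 0 :=
          Finset.single_le_sum (f := fun i : κ => if (q : ℕ) ∣ n + h i then uv h K J W x n else 0)
            (fun i _ => hnn q i) (mem_univ i)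
      _ ≤ _ := Finset.single_le_sum (f := fun q : PS (lev x) W => ∑ i : κ,
            if (q : ℕ) ∣ n + h i then uv h K J W x n else 0)
            (fun q _ => Finset.sum_nonneg fun i _ => hnn q i)
            (mem_filter.2 ⟨mem_univ q, hq⟩)
  refine (Finset.sum_le_sum h1).trans ?_
  refine (Finset.sum_le_sum_of_subset_of_nonneg (Finset.filter_subset _ _) ?_).trans ?_
  · intro n _ _
    refine Finset.sum_nonneg fun q _ => Finset.sum_nonneg fun i _ => ?_
    split_ifs
    · exact uv_nonneg h K J W x n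
    · exact le_rfl
  · rw [Finset.sum_comm]
    refine Finset.sum_le_sum fun q _ => ?_
    rw [Finset.sum_comm]
    refine Finset.sum_le_sum fun i _ => ?_
    rw [Finset.sum_filter]

end Pool.Agent.Helper66.PV

end

section

set_option autoImplicit false

open Finset

namespace Pool.Agent.Helper95.PV

open Pool.Agent.Helper1.MT hiding ws_nonneg

open Pool.Agent.Helper90.MT Pool.Agent.Helper66.PV

variable {ι κ : Type} [Fintype ι] [Fintype κ] [DecidableEq ι] [DecidableEq κ]

/-- The absolute values of `yv`. -/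
noncomputable def Yt (t : ι → ℝ) (γ : κ → Finset ι → ℝ) (c : ι → Option κ) : ℝ :=
  if T t (supp c) ≤ 1 then ∏ i : κ, γ i (cls c i) else 0

/-- The product of the `γ` of the classes different from `m`. -/
noncomputable def Pm (m : κ) (γ : κ → Finset ι → ℝ) (c : ι → Option κ) : ℝ :=
  ∏ i ∈ univ.erase m, γ i (cls c i)

theorem Yt_nonneg {t : ι → ℝ} {γ : κ → Finset ι → ℝ} (hg : ∀ i S, 0 ≤ γ i S) (c : ι → Option κ) :
    0 ≤ Yt t γ c := by
  unfold Yt
  split_ifs
  · exact Finset.prod_nonneg fun i _ => hg _ _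
  · exact le_rfl

theorem Pm_nonneg (m : κ) {γ : κ → Finset ι → ℝ} (hg : ∀ i S, 0 ≤ γ i S) (c : ι → Option κ) :
    0 ≤ Pm m γ c := Finset.prod_nonneg fun i _ => hg _ _

section Main

variable {w w' t : ι → ℝ} {γ : κ → Finset ι → ℝ} {τ η : ℝ}

theorem B_le (hG : GoodV w t γ τ η) (hw1 : ∀ p, w p ≤ w' p)
    (hw2 : ∀ p, w' p - w p ≤ 2 * w p ^ 2) {m : κ} {c : ι → Option κ} (hc : cls c m = ∅) :
    ∑ c' : ι → Option κ, (∏ p, |k2 m (w p) (w' p) (c p) (c' p)|) * Yt t γ c' ≤
      Pm m γ c * (A1 w (γ m) * (1 + 4 * Fintype.card κ * η)) := by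
  have he : ∀ p, 0 ≤ w' p - w p := fun p => by (clear * - hw1; linarith [hw1 p])
  -- termwise
  have h1 : ∀ c' : ι → Option κ, (∏ p, |k2 m (w p) (w' p) (c p) (c' p)|) * Yt t γ c' ≤
      Pm m γ c * ((γ m (cls c' m) * ws w (cls c' m)) *
        ∏ p, kB m (w' p - w p) (c p) (del m c' p)) := by
    intro c'
    have hR : 0 ≤ Pm m γ c * ((γ m (cls c' m) * ws w (cls c' m)) *
        ∏ p, kB m (w' p - w p) (c p) (del m c' p)) :=
      mul_nonneg (Pm_nonneg m hG.g_nonneg c) (mul_nonneg (mul_nonneg (hG.g_nonneg _ _)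
        (ws_nonneg hG.w_nonneg _)) (Finset.prod_nonneg fun p _ => kB_nonneg m (he p) _ _))
    by_cases hz : ∏ p, |k2 m (w p) (w' p) (c p) (c' p)| = 0
    · rw [hz, zero_mul]
      exact hR
    · have h2 : ∀ p, c p ≠ none → c' p = c p := by
        intro p hp
        have h3 : k2 m (w p) (w' p) (c p) (c' p) ≠ 0 := by
          intro h4
          exact hz (Finset.prod_eq_zero (Finset.mem_univ p) (by rw [h4, abs_zero]))
        rcases hcp : c p with _ | i
        · exact absurd hcp hp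
        · rw [hcp] at h3
          rcases hcp' : c' p with _ | j
          · rw [hcp'] at h3
            exact absurd rfl h3
          · rw [hcp'] at h3
            by_contra hne
            apply h3
            have : i ≠ j := fun h => hne (by rw [h])
            simp [k2, this]
      have hm : ∀ p, c p ≠ some m := by
        intro p hp
        have : p ∈ cls c m := mem_cls.2 hp
        rw [hc] at this
        simp at this
      have h5 : ∏ p, |k2 m (w p) (w' p) (c p) (c' p)| =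
          ws w (cls c' m) * ∏ p, kB m (w' p - w p) (c p) (del m c' p) := by
        have h6 : ws w (cls c' m) = ∏ p, (if c' p = some m then w p else 1) := by
          unfold ws cls
          rw [Finset.prod_filter]
        rw [h6, ← Finset.prod_mul_distrib]
        refine Finset.prod_congr rfl fun p _ => ?_
        unfold del
        by_cases h7 : c' p = some m
        · rw [if_pos h7, if_pos h7]
          have h8 : c p = none := by
            by_contra h9
            exact hm p ((h2 p h9).symm.trans h7)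
          rw [h8, h7]
          simp [k2, kB, abs_of_nonneg (hG.w_nonneg p)]
        · rw [if_neg h7, if_neg h7, one_mul]
          rcases hcp : c p with _ | i
          · rcases hcp' : c' p with _ | j
            · simp [k2, kB]
            · have h8 : j ≠ m := by
                intro h9
                rw [h9] at hcp'
                exact h7 hcp'
              simp only [k2, kB, if_neg h8, abs_neg, abs_of_nonneg (he p)]
          · have h9 := h2 p (by rw [hcp]; simp)
            rw [h9, hcp]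
            simp [k2, kB]
      have h10 : Yt t γ c' ≤ Pm m γ c * γ m (cls c' m) := by
        have h11 : ∏ i : κ, γ i (cls c' i) ≤ Pm m γ c * γ m (cls c' m) := by
          rw [← Finset.mul_prod_erase univ _ (Finset.mem_univ m), mul_comm]
          refine mul_le_mul_of_nonneg_right ?_ (hG.g_nonneg _ _)
          unfold Pm
          refine Finset.prod_le_prod (fun i _ => hG.g_nonneg _ _) fun i _ => ?_
          refine hG.g_anti _ _ _ ?_
          intro p hp
          rw [mem_cls] at hp ⊢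
          rw [h2 p (by rw [hp]; simp), hp]
        unfold Yt
        split_ifs
        · exact h11
        · exact mul_nonneg (Pm_nonneg m hG.g_nonneg c) (hG.g_nonneg _ _)
      rw [h5]
      have h12 : 0 ≤ ws w (cls c' m) * ∏ p, kB m (w' p - w p) (c p) (del m c' p) :=
        mul_nonneg (ws_nonneg hG.w_nonneg _) (Finset.prod_nonneg fun p _ =>
          kB_nonneg m (he p) _ _)
      calc ws w (cls c' m) * (∏ p, kB m (w' p - w p) (c p) (del m c' p)) * Yt t γ c'
          ≤ ws w (cls c' m) * (∏ p, kB m (w' p - w p) (c p) (del m c' p)) *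
            (Pm m γ c * γ m (cls c' m)) := mul_le_mul_of_nonneg_left h10 h12
        _ = _ := by ring
  refine (Finset.sum_le_sum fun c' _ => h1 c').trans ?_
  rw [← Finset.mul_sum]
  refine mul_le_mul_of_nonneg_left ?_ (Pm_nonneg m hG.g_nonneg c)
  -- pass to pairs
  have hinj : Function.Injective fun c' : ι → Option κ => (cls c' m, del m c') := by
    intro a b h
    simp only [Prod.mk.injEq] at h
    obtain ⟨h2, h3⟩ := h
    funext p
    have h4 : a p = some m ↔ b p = some m := by rw [← mem_cls, ← mem_cls, h2]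
    have h5 := congrFun h3 p
    unfold del at h5
    by_cases h6 : a p = some m
    · rw [h6, h4.1 h6]
    · rwa [if_neg h6, if_neg fun h7 => h6 (h4.2 h7)] at h5
  have h2 : ∑ c' : ι → Option κ, (γ m (cls c' m) * ws w (cls c' m)) *
      ∏ p, kB m (w' p - w p) (c p) (del m c' p) ≤
      ∑ x : Finset ι × (ι → Option κ), (γ m x.1 * ws w x.1) *
        ∏ p, kB m (w' p - w p) (c p) (x.2 p) := by
    have h3 := Finset.sum_image (s := (univ : Finset (ι → Option κ)))
      (g := fun c' : ι → Option κ => (cls c' m, del m c'))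
      (f := fun x : Finset ι × (ι → Option κ) => (γ m x.1 * ws w x.1) *
        ∏ p, kB m (w' p - w p) (c p) (x.2 p)) hinj.injOn
    simp only at h3
    rw [← h3]
    refine Finset.sum_le_sum_of_subset_of_nonneg (Finset.subset_univ _) fun x _ _ => ?_
    exact mul_nonneg (mul_nonneg (hG.g_nonneg _ _) (ws_nonneg hG.w_nonneg _))
      (Finset.prod_nonneg fun p _ => kB_nonneg m (he p) _ _)
  refine h2.trans ?_
  rw [Fintype.sum_prod_type]
  simp only [← Finset.mul_sum]
  rw [← Finset.sum_mul]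
  have h7 : A1 w (γ m) = ∑ S : Finset ι, γ m S * ws w S := rfl
  rw [← h7]
  have hA : 0 ≤ A1 w (γ m) := Finset.sum_nonneg fun S _ =>
    mul_nonneg (hG.g_nonneg _ _) (ws_nonneg hG.w_nonneg _)
  refine mul_le_mul_of_nonneg_left ?_ hA
  rw [← prod_local (fun p a => kB m (w' p - w p) (c p) a)]
  -- local sums
  have h8 : ∀ p, ∑ a : Option κ, kB m (w' p - w p) (c p) a ≤
      1 + Fintype.card κ * (w' p - w p) := by
    intro p
    rw [Fintype.sum_option]
    rcases c p with _ | i
    · simp only [kB]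
      have h9 : ∑ j : κ, (if j = m then (0 : ℝ) else w' p - w p) ≤ ∑ j : κ, (w' p - w p) := by
        refine Finset.sum_le_sum fun j _ => ?_
        split_ifs
        · exact he p
        · exact le_rfl
      rw [Finset.sum_const, Finset.card_univ, nsmul_eq_mul] at h9
      (clear * - h9; linarith)
    · simp only [kB]
      rw [Finset.sum_ite_eq univ i]
      simp only [Finset.mem_univ, if_true]
      have : 0 ≤ (Fintype.card κ : ℝ) * (w' p - w p) := mul_nonneg (Nat.cast_nonneg _) (he p)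
      (clear * - this; linarith)
  have h9 : ∏ p, ∑ a : Option κ, kB m (w' p - w p) (c p) a ≤
      ∏ p, (1 + Fintype.card κ * (w' p - w p)) :=
    Finset.prod_le_prod (fun p _ => Finset.sum_nonneg fun a _ => kB_nonneg m (he p) _ _)
      fun p _ => h8 p
  have h10 := prod_one_add_le (fun p => (Fintype.card κ : ℝ) * (w' p - w p))
    (fun p => mul_nonneg (Nat.cast_nonneg _) (he p))
  have h11 : ∑ p, (Fintype.card κ : ℝ) * (w' p - w p) ≤ 2 * Fintype.card κ * η := by
    rw [← Finset.mul_sum]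
    have h12 : ∑ p, (w' p - w p) ≤ 2 * ∑ p, w p ^ 2 := by
      rw [Finset.mul_sum]
      exact Finset.sum_le_sum fun p _ => hw2 p
    have h13 : (0 : ℝ) ≤ Fintype.card κ := Nat.cast_nonneg _
    have h14 := hG.sq
    (clear * - h12 h14; nlinarith)
  have hK : (1 : ℝ) ≤ Fintype.card κ := by
    have : 0 < Fintype.card κ := Fintype.card_pos_iff.2 ⟨m⟩
    exact_mod_cast this
  have hη : 0 ≤ η := le_trans (Finset.sum_nonneg fun p _ => sq_nonneg _) hG.sq
  have h12 : 2 * Fintype.card κ * η ≤ 1 / 2 := by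
    have := hG.eta
    have h13 : (Fintype.card κ : ℝ) * η ≤ (Fintype.card κ : ℝ) ^ 2 * η := by
      refine mul_le_mul_of_nonneg_right ?_ hη
      (clear * - hK; nlinarith)
    (clear * - this h13; nlinarith)
  have h13 := exp_le_two (mul_nonneg (by (clear * - hK; positivity)) hη : 0 ≤ 2 * (Fintype.card κ : ℝ) * η) h12
  have h14 := Real.exp_le_exp.2 h11
  have h15 : 1 + 2 * (2 * (Fintype.card κ : ℝ) * η) = 1 + 4 * Fintype.card κ * η := by ring
  rw [h15] at h13
  exact (h9.trans h10).trans (h14.trans h13)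

/-- The factors for the classes. -/
noncomputable def Gc (m : κ) (w : ι → ℝ) (γ : κ → Finset ι → ℝ) (i : κ) (S : Finset ι) : ℝ :=
  if i = m then (if S = ∅ then 1 else 0) else γ i S ^ 2 * ws w S

theorem Gc_nonneg (hw : ∀ p, 0 ≤ w p) (m i : κ) (S : Finset ι) : 0 ≤ Gc m w γ i S := by
  unfold Gc
  split_ifs
  · exact zero_le_one
  · exact le_rfl
  · exact mul_nonneg (sq_nonneg _) (ws_nonneg hw _)

theorem Gc_sum (m i : κ) : ∑ S : Finset ι, Gc m w γ i S = if i = m then 1 else B1 w (γ i) := by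
  unfold Gc
  split_ifs with h
  · rw [Finset.sum_ite_eq' univ (∅ : Finset ι)]
    simp
  · rfl

theorem Gc_prod_sum (m : κ) : ∏ i : κ, ∑ S : Finset ι, Gc m w γ i S =
    ∏ l ∈ univ.erase m, B1 w (γ l) := by
  simp only [Gc_sum]
  rw [← Finset.mul_prod_erase univ _ (Finset.mem_univ m), if_pos rfl, one_mul]
  refine Finset.prod_congr rfl fun i hi => ?_
  rw [if_neg (Finset.ne_of_mem_erase hi)]

theorem wprime_ge (hG : GoodV w t γ τ η) (hw1 : ∀ p, w p ≤ w' p)
    (hw2 : ∀ p, w' p - w p ≤ 2 * w p ^ 2) (m : κ) (p : ι) :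
    w p * (1 - 2 * Fintype.card κ * w p) ≤ w' p * (1 - ((Fintype.card κ : ℝ) - 1) * w' p) := by
  have hK : (1 : ℝ) ≤ Fintype.card κ := by
    have : 0 < Fintype.card κ := Fintype.card_pos_iff.2 ⟨m⟩
    exact_mod_cast this
  have h0 := hG.w_nonneg p
  have h1 := hG.w_le p
  have h2 := hw1 p
  have h3 := hw2 p
  have h4 : 8 * w p ≤ 1 := by (clear * - hK h1; nlinarith)
  have h5 : w' p ≤ 5 / 4 * w p := by (clear * - h3 hK h0 h1; nlinarith)
  have h6 : ((Fintype.card κ : ℝ) - 1) * w' p ≤ ((Fintype.card κ : ℝ) - 1) * (5 / 4 * w p) :=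
    mul_le_mul_of_nonneg_left h5 (by (clear * - hK; linarith))
  have h7 : ((Fintype.card κ : ℝ) - 1) * (5 / 4 * w p) ≤ 2 * Fintype.card κ * w p := by (clear * - h0; nlinarith)
  have h8 : 2 * Fintype.card κ * w p ≤ 1 := by (clear * - h0 h1; nlinarith)
  calc w p * (1 - 2 * Fintype.card κ * w p) ≤ w' p * (1 - 2 * Fintype.card κ * w p) :=
        mul_le_mul_of_nonneg_right h2 (by (clear * - h0 h1; linarith))
    _ ≤ _ := mul_le_mul_of_nonneg_left (by linarith) (h0.trans h2)

theorem prod_wprime_ge (hG : GoodV w t γ τ η) (hw1 : ∀ p, w p ≤ w' p)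
    (hw2 : ∀ p, w' p - w p ≤ 2 * w p ^ 2) (m : κ) (S : Finset ι) :
    ws w S * (1 - 2 * Fintype.card κ * ∑ p ∈ S, w p) ≤
      ∏ p ∈ S, w' p * (1 - ((Fintype.card κ : ℝ) - 1) * w' p) := by
  have hK : (1 : ℝ) ≤ Fintype.card κ := by
    have : 0 < Fintype.card κ := Fintype.card_pos_iff.2 ⟨m⟩
    exact_mod_cast this
  have h8 : ∀ p, 2 * Fintype.card κ * w p ≤ 1 := by
    intro p
    have h0 := hG.w_nonneg p
    have h1 := hG.w_le p
    nlinarith
  have h9 : ∀ p, 0 ≤ 2 * Fintype.card κ * w p := fun p =>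
    mul_nonneg (by (clear * - hK; linarith)) (hG.w_nonneg p)
  have h1 : ∏ p ∈ S, w p * (1 - 2 * Fintype.card κ * w p) ≤
      ∏ p ∈ S, w' p * (1 - ((Fintype.card κ : ℝ) - 1) * w' p) := by
    refine Finset.prod_le_prod (fun p _ => mul_nonneg (hG.w_nonneg p) (by (clear * - h8; linarith [h8 p])))
      fun p _ => wprime_ge hG hw1 hw2 m p
  refine le_trans ?_ h1
  rw [Finset.prod_mul_distrib]
  refine mul_le_mul_of_nonneg_left ?_ (ws_nonneg hG.w_nonneg S)
  have h2 := one_sub_le_prod (fun p => 2 * (Fintype.card κ : ℝ) * w p) S h9 h8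
  rwa [← Finset.mul_sum] at h2

theorem Phi_eq {m : κ} {c : ι → Option κ} (hc : cls c m = ∅) :
    ∏ i, Gc m w γ i (cls c i) = Pm m γ c ^ 2 * ws w (supp c) := by
  rw [ws_supp, ← Finset.mul_prod_erase univ _ (Finset.mem_univ m),
    ← Finset.mul_prod_erase univ (fun i => ws w (cls c i)) (Finset.mem_univ m), hc]
  have h1 : Gc m w γ m (∅ : Finset ι) = 1 := by simp [Gc]
  have h2 : ws w (∅ : Finset ι) = 1 := by simp [ws]
  rw [h1, h2, one_mul, one_mul]
  unfold Pm
  rw [← Finset.prod_pow, ← Finset.prod_mul_distrib]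
  refine Finset.prod_congr rfl fun i hi => ?_
  unfold Gc
  rw [if_neg (Finset.ne_of_mem_erase hi)]

end Main

end Pool.Agent.Helper95.PV

end

section

set_option autoImplicit false

open Finset

open ArithmeticFunction (cardFactors)

namespace Pool.Agent.Helper4.PU

open Pool.Agent.Helper1.MT (Le supp cls ws V0 B1 PS wp tp NS lev sw lam Expand PS_prime PS_large T)

open Pool.Agent.Helper66.PV (GoodV gv uv Sv Bv yv yv_abs_le yv_supp uv_nonneg)

section Abs

variable {ι κ : Type} [Fintype ι] [Fintype κ] [DecidableEq ι] [DecidableEq κ]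

/-- The product of the truncation functions. -/
noncomputable def Yv (γ : κ → Finset ι → ℝ) (c : ι → Option κ) : ℝ := ∏ i, γ i (cls c i)

theorem yv_le_Yv {w t : ι → ℝ} {γ : κ → Finset ι → ℝ} {τ η : ℝ} (hG : GoodV w t γ τ η)
    (c : ι → Option κ) : |yv t γ c| ≤ Yv γ c := by
  unfold yv Yv
  rw [abs_mul, abs_pow, abs_neg, abs_one, one_pow, one_mul]
  split_ifs
  · rw [abs_of_nonneg (Finset.prod_nonneg fun i _ => hG.g_nonneg _ _)]
  · rw [abs_zero]
    exact Finset.prod_nonneg fun i _ => hG.g_nonneg _ _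

end Abs

end Pool.Agent.Helper4.PU

end
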