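import Pool.Agent.Helper23.MT.L00_abcd0
import Pool.Agent.Helper23.MT.L00_acd0
import Pool.Agent.Helper23.MT.L00_c0
import Pool.Agent.Helper23.MT.L00_c1
import Pool.Agent.Helper23.MT.L00_c2

/-!
Parts of Helper66.PAP.Star, Helper66.PAP.Bad, Helper66.PV.Star, Helper4.PL.Core, Helper4.PU.Defs, Helper4.PU.Exact, Helper66.PU.InterG, Helper4.PU.Legendre, Helper4.PU.Rho, Helper4.PU.SingCop, Helper4.PL.Many
-/

namespace Pool.Agent.Helper1.MT
end Pool.Agent.Helper1.MT
namespace Pool.Agent.Helper4.PL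
end Pool.Agent.Helper4.PL
namespace Pool.Agent.Helper66.PAP
end Pool.Agent.Helper66.PAP

section

set_option autoImplicit false

open Finset

namespace Pool.Agent.Helper66.PAP

open Pool.Agent.Helper1.MT

section Abstract

variable {ι ι' κ : Type}

variable [Fintype ι] [Fintype ι'] [Fintype κ] [DecidableEq ι] [DecidableEq ι'] [DecidableEq κ]

theorem lam_ext (e : Option ι' ≃ ι) (w : ι → ℝ) (i : κ) (y : (ι → Option κ) → ℝ)
    (c : ι' → Option κ) :
    lam w y (ext e c none) + lam w y (ext e c (some i)) =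
      lam (fun p => w (e (some p))) (ys e w i y) c := by
  unfold lam
  rw [sum_ext e, sum_ext e, ← Finset.sum_add_distrib]
  refine Finset.sum_congr rfl fun c' _ => ?_
  rw [Fintype.sum_option, Fintype.sum_option]
  simp only [prod_ext e, ext_at_none, ext_at_some]
  set P := ∏ p : ι', inv (w (e (some p))) (c p) (c' p) with hP
  have i1 : inv (w (e none)) (none : Option κ) none = 1 := rfl
  have i2 : inv (w (e none)) (some i) none = 0 := rfl
  have i3 : ∀ x : κ, inv (w (e none)) (none : Option κ) (some x) = -w (e none) := fun _ => rfl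
  have i4 : ∀ x : κ, inv (w (e none)) (some i) (some x) = if i = x then (1 : ℝ) else 0 :=
    fun _ => rfl
  simp only [i1, i2, i3, i4]
  have h1 : ∑ x : κ, (if i = x then (1 : ℝ) else 0) * P * y (ext e c' (some x)) =
      P * y (ext e c' (some i)) := by
    rw [Finset.sum_eq_single i]
    · rw [if_pos rfl, one_mul]
    · intro b _ hb
      rw [if_neg (Ne.symm hb), zero_mul, zero_mul]
    · intro h
      exact absurd (mem_univ i) h
  rw [h1, zero_mul, zero_mul, zero_add, one_mul]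
  unfold ys
  have h2 : ∑ x : κ, -w (e none) * P * y (ext e c' (some x)) =
      -(P * (w (e none) * ∑ j, y (ext e c' (some j)))) := by
    rw [Finset.mul_sum, Finset.mul_sum, ← Finset.sum_neg_distrib]
    refine Finset.sum_congr rfl fun j _ => ?_
    ring
  rw [h2]
  ring

end Abstract

section Arith

variable {κ : Type} [Fintype κ] [DecidableEq κ] {R W : ℕ}

theorem PS_not_dvd (p : PS R W) : ¬ (p : ℕ) ∣ W := by
  have h := p.2
  simp only [PS, mem_filter] at h
  exact h.2.2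

theorem mem_PS {p : ℕ} : p ∈ PS R W ↔ p ≤ R ∧ p.Prime ∧ ¬ p ∣ W := by
  simp only [PS, mem_filter, mem_range, Nat.lt_succ_iff]

theorem mem_PS_mul (q : PS R W) {p : ℕ} : p ∈ PS R (W * (q : ℕ)) ↔ p ∈ PS R W ∧ p ≠ q := by
  rw [mem_PS, mem_PS]
  constructor
  · rintro ⟨h1, h2, h3⟩
    refine ⟨⟨h1, h2, fun h => h3 (Dvd.dvd.mul_right h _)⟩, ?_⟩
    rintro rfl
    exact h3 (dvd_mul_left _ _)
  · rintro ⟨⟨h1, h2, h3⟩, h4⟩
    refine ⟨h1, h2, ?_⟩
    intro h
    rcases (h2.dvd_mul).1 h with h5 | h5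
    · exact h3 h5
    · exact h4 ((Nat.prime_dvd_prime_iff_eq h2 (PS_prime q)).1 h5)

theorem exists_equiv (q : PS R W) : ∃ e : Option (PS R (W * (q : ℕ))) ≃ PS R W,
    e none = q ∧ ∀ p, ((e (some p) : PS R W) : ℕ) = (p : ℕ) := by
  classical
  refine ⟨{
    toFun := fun o => o.elim q (fun p => ⟨p, ((mem_PS_mul q).1 p.2).1⟩)
    invFun := fun p => if h : (p : ℕ) = q then none else some ⟨p, (mem_PS_mul q).2 ⟨p.2, h⟩⟩
    left_inv := ?_
    right_inv := ?_ }, rfl, fun p => rfl⟩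
  · intro o
    cases o with
    | none => simp
    | some p =>
      have h := ((mem_PS_mul q).1 p.2).2
      simp only [Option.elim_some]
      rw [dif_neg h]
  · intro p
    by_cases h : (p : ℕ) = q
    · simp only [dif_pos h, Option.elim_none]
      exact (Subtype.ext h).symm
    · simp only [dif_neg h, Option.elim_some]

theorem Dv_ext {h : κ → ℕ} (q : PS R W) (e : Option (PS R (W * (q : ℕ))) ≃ PS R W)
    (he : e none = q) (he' : ∀ p, ((e (some p) : PS R W) : ℕ) = (p : ℕ))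
    (c : PS R (W * (q : ℕ)) → Option κ) (a : Option κ) (n : ℕ) :
    Dv h (ext e c a) n ↔ Dv h c n ∧ ∀ j, a = some j → (q : ℕ) ∣ n + h j := by
  unfold Dv
  constructor
  · intro H
    refine ⟨fun p i hp => ?_, fun j hj => ?_⟩
    · have := H (e (some p)) i (by rw [ext_at_some]; exact hp)
      rwa [he' p] at this
    · have := H (e none) j (by rw [ext_at_none]; exact hj)
      rwa [he] at this
  · rintro ⟨H1, H2⟩ p i hp
    obtain ⟨o, rfl⟩ := e.surjective p
    cases o with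
    | none =>
      rw [ext_at_none] at hp
      rw [he]
      exact H2 i hp
    | some p =>
      rw [ext_at_some] at hp
      rw [he' p]
      exact H1 p i hp

theorem wp_comp (q : PS R W) (e : Option (PS R (W * (q : ℕ))) ≃ PS R W)
    (he' : ∀ p, ((e (some p) : PS R W) : ℕ) = (p : ℕ)) :
    (fun p => wp R W (e (some p))) = wp R (W * (q : ℕ)) := by
  funext p
  unfold wp
  rw [he' p]

theorem tp_comp (q : PS R W) (e : Option (PS R (W * (q : ℕ))) ≃ PS R W)
    (he' : ∀ p, ((e (some p) : PS R W) : ℕ) = (p : ℕ)) :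
    (fun p => tp R W (e (some p))) = tp R (W * (q : ℕ)) := by
  funext p
  unfold tp
  rw [he' p]

theorem sw_star {h : κ → ℕ} (q : PS R W) (e : Option (PS R (W * (q : ℕ))) ≃ PS R W)
    (he : e none = q) (he' : ∀ p, ((e (some p) : PS R W) : ℕ) = (p : ℕ)) (i : κ)
    (y : (PS R W → Option κ) → ℝ) (n : ℕ) (h1 : (q : ℕ) ∣ n + h i)
    (h2 : ∀ j, j ≠ i → ¬ (q : ℕ) ∣ n + h j) :
    sw h (lam (wp R W) y) n = sw h (lam (wp R (W * (q : ℕ))) (ys e (wp R W) i y)) n := by
  classical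
  unfold sw
  congr 1
  rw [Finset.sum_filter, Finset.sum_filter, sum_ext e]
  refine Finset.sum_congr rfl fun c _ => ?_
  rw [Fintype.sum_option]
  simp only [Dv_ext q e he he' c]
  by_cases hc : Dv h c n
  · rw [if_pos (by exact ⟨hc, fun j hj => by cases hj⟩), if_pos hc]
    have h3 : ∑ x : κ, (if Dv h c n ∧ ∀ j, some x = some j → (q : ℕ) ∣ n + h j then
        lam (wp R W) y (ext e c (some x)) else 0) = lam (wp R W) y (ext e c (some i)) := by
      rw [Finset.sum_eq_single i]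
      · rw [if_pos]
        exact ⟨hc, fun j hj => by rw [← Option.some.inj hj]; exact h1⟩
      · intro b _ hb
        rw [if_neg]
        rintro ⟨-, h4⟩
        exact h2 b hb (h4 b rfl)
      · intro h
        exact absurd (mem_univ i) h
    rw [h3, lam_ext, wp_comp q e he']
  · rw [if_neg hc, if_neg (fun h => hc h.1), Finset.sum_eq_zero, add_zero]
    intro x _
    rw [if_neg (fun h => hc h.1)]

end Arith

end Pool.Agent.Helper66.PAP

end

section

set_option autoImplicit false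

open Finset Filter

namespace Pool.Agent.Helper66.PAP

open Pool.Agent.Helper1.MT

theorem sum_log_small : ∃ C : ℝ, 0 < C ∧ ∀ (R W : ℕ) (ε : ℝ), 3 ≤ R → 0 ≤ ε →
    ∑ q ∈ univ.filter (fun q : PS R W => tp R W q ≤ ε), Real.log (q : ℕ) / ((q : ℕ) : ℝ) ≤
      ε * Real.log R + C := by
  obtain ⟨C, hC, hM⟩ := Pool.Agent.Helper44.mertens_first
  refine ⟨C, hC, fun R W ε hR hε => ?_⟩
  have hR1 : (1 : ℝ) < R := by exact_mod_cast (by omega : 1 < R)
  have hR0 : (0 : ℝ) < R := by (clear * - hR1; linarith)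
  have hlR : 0 < Real.log R := Real.log_pos hR1
  set N := ⌊(R : ℝ) ^ ε⌋₊ with hN
  have hN1 : 1 ≤ N := by
    rw [hN, Nat.one_le_floor_iff]
    exact Real.one_le_rpow hR1.le hε
  have h1 := (abs_le.1 (hM N hN1)).2
  have h2 : Real.log N ≤ ε * Real.log R := by
    rw [← Real.log_rpow hR0]
    apply Real.log_le_log (by exact_mod_cast hN1)
    exact Nat.floor_le (by positivity)
  have h3 : ∑ q ∈ univ.filter (fun q : PS R W => tp R W q ≤ ε),
      Real.log (q : ℕ) / ((q : ℕ) : ℝ) =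
      ∑ p ∈ (PS R W).filter (fun p : ℕ => Real.log p / Real.log R ≤ ε), Real.log p / p := by
    rw [Finset.sum_filter, Finset.sum_filter]
    rw [← Finset.sum_coe_sort (PS R W)
      (fun p : ℕ => if Real.log p / Real.log R ≤ ε then Real.log p / p else 0)]
    rfl
  rw [h3]
  have h4 : ∑ p ∈ (PS R W).filter (fun p : ℕ => Real.log p / Real.log R ≤ ε), Real.log p / p ≤
      ∑ q ∈ (Ioc 0 N).filter Nat.Prime, Real.log q / q := by
    apply Finset.sum_le_sum_of_subset_of_nonneg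
    · intro p hp
      rw [mem_filter] at hp ⊢
      obtain ⟨hp1, hp2⟩ := hp
      rw [mem_PS] at hp1
      refine ⟨?_, hp1.2.1⟩
      rw [mem_Ioc]
      refine ⟨hp1.2.1.pos, ?_⟩
      rw [hN]
      apply Nat.le_floor
      have hp0 : (0 : ℝ) < p := by exact_mod_cast hp1.2.1.pos
      rw [div_le_iff₀ hlR, ← Real.log_rpow hR0] at hp2
      exact (Real.log_le_log_iff hp0 (Real.rpow_pos_of_pos hR0 _)).1 hp2
    · intro p _ _
      exact div_nonneg (Real.log_natCast_nonneg p) (Nat.cast_nonneg p)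
  (clear * - h1 h2 h4; linarith)

theorem sum_inv_small : ∃ C : ℝ, 0 < C ∧ ∀ (R W : ℕ), 3 ≤ R →
    ∑ q : PS R W, 1 / ((q : ℕ) : ℝ) ≤ Real.log (Real.log R) + C := by
  obtain ⟨C, hC, hM⟩ := Pool.Agent.Helper44.sum_primesUpTo_bounds
  refine ⟨C, hC, fun R W hR => ?_⟩
  have hR2 : (2 : ℝ) ≤ R := by exact_mod_cast (by omega : 2 ≤ R)
  have h1 := (abs_le.1 (hM R hR2)).2
  have h2 : ∑ q : PS R W, 1 / ((q : ℕ) : ℝ) = ∑ p ∈ PS R W, 1 / (p : ℝ) :=
    Finset.sum_coe_sort (PS R W) (fun p : ℕ => 1 / (p : ℝ))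
  have h3 : ∑ p ∈ PS R W, 1 / (p : ℝ) ≤
      ∑ q ∈ Pool.Agent.Helper44.primesUpTo (R : ℝ), (1 : ℝ) / q := by
    apply Finset.sum_le_sum_of_subset_of_nonneg
    · intro p hp
      rw [mem_PS] at hp
      rw [Pool.Agent.Helper44.mem_primesUpTo (by (clear * - hR; positivity))]
      exact ⟨hp.2.1, by exact_mod_cast hp.1⟩
    · intro p _ _
      (clear * -; positivity)
  rw [h2]
  linarith

end Pool.Agent.Helper66.PAP

end

section

set_option autoImplicit false

open Finset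

namespace Pool.Agent.Helper66.PV

open Pool.Agent.Helper1.MT

open Pool.Agent.Helper66.PAP (ys exists_class PS_not_dvd sw_star tp_comp ext_at_some)

variable {κ : Type} [Fintype κ] [DecidableEq κ] {R W : ℕ}

/-- The sieve sum over the `n` with `q ∣ n + h i`. -/
theorem sum_qN (hE : Expand) {D0 : ℕ} {h : κ → ℕ} {v : ℕ} (hS : SetN D0 h W)
    (hD : (Fintype.card κ + 2) ^ 10 ≤ D0) {x L : ℝ} (hx9 : 9 ≤ x) (hL : 0 < L)
    (hKx : 4 * Real.exp (4 * Fintype.card κ) ^ 2 * L ≤ x ^ (53 / 162 : ℝ))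
    (hR3 : 3 ≤ R) (hRx : (R : ℝ) ≤ x ^ (1 / 81 : ℝ)) (q : PS R W)
    (hWx : ((W * (q : ℕ) : ℕ) : ℝ) ≤ x ^ (23 / 54 : ℝ))
    (e : Option (PS R (W * (q : ℕ))) ≃ PS R W) (he : e none = q)
    (he' : ∀ p, ((e (some p) : PS R W) : ℕ) = (p : ℕ))
    (y : (PS R W → Option κ) → ℝ) (hy : ∀ c, |y c| ≤ 1)
    (hT : ∀ c, y c ≠ 0 → T (tp R W) (supp c) ≤ 1) (i : κ) :
    ∑ n ∈ (NS x W v).filter (fun n => (q : ℕ) ∣ n + h i),
        (1 / (n : ℝ)) * sw h (lam (wp R W) y) n ≤
      Real.log x / (2 * ((W * (q : ℕ) : ℕ) : ℝ)) *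
        ∑ c : PS R (W * (q : ℕ)) → Option κ,
          ws (wp R (W * (q : ℕ))) (supp c) * ys e (wp R W) i y c ^ 2 + 1 / L := by
  classical
  have hqp : (q : ℕ).Prime := PS_prime q
  have hW' : 0 < W * (q : ℕ) := Nat.mul_pos hS.W_pos hqp.pos
  obtain ⟨v', hv'⟩ := exists_class W v (h i) hqp (PS_not_dvd q)
  have hNS : (NS x W v).filter (fun n => (q : ℕ) ∣ n + h i) = NS x (W * (q : ℕ)) v' := by
    unfold NS
    rw [Finset.filter_filter]
    refine Finset.filter_congr fun n _ => ?_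
    exact (hv' n).symm
  have hKq : (Fintype.card κ : ℝ) * wp R W q ≤ 1 := by
    have h1 := PS_large hS.small q
    have h2 : Fintype.card κ ≤ (Fintype.card κ + 2) ^ 10 :=
      (Nat.le_add_right _ 2).trans (Nat.le_self_pow (by norm_num) _)
    have h3 : ((Fintype.card κ : ℕ) : ℝ) ≤ ((q : ℕ) : ℝ) := by
      exact_mod_cast (h2.trans hD).trans h1
    have h4 : (0 : ℝ) < ((q : ℕ) : ℝ) := by exact_mod_cast hqp.pos
    unfold wp
    rw [mul_one_div, div_le_one h4]
    exact h3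
  have hwq : 0 ≤ wp R W q := by unfold wp; (clear * -; positivity)
  -- the weights
  have hys : ∀ c, |ys e (wp R W) i y c| ≤ 3 := by
    intro c
    unfold ys
    rw [he]
    have h1 := hy (PAP.ext e c none)
    have h2 := hy (PAP.ext e c (some i))
    have h3 : |wp R W q * ∑ j, y (PAP.ext e c (some j))| ≤ 1 := by
      rw [abs_mul, abs_of_nonneg hwq]
      calc wp R W q * |∑ j, y (PAP.ext e c (some j))|
          ≤ wp R W q * ∑ j : κ, |y (PAP.ext e c (some j))| :=
            mul_le_mul_of_nonneg_left (Finset.abs_sum_le_sum_abs _ _) hwq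
        _ ≤ wp R W q * ∑ _j : κ, (1 : ℝ) :=
            mul_le_mul_of_nonneg_left (Finset.sum_le_sum fun j _ => hy _) hwq
        _ = Fintype.card κ * wp R W q := by
            rw [Finset.sum_const, Finset.card_univ, nsmul_eq_mul, mul_one, mul_comm]
        _ ≤ 1 := hKq
    rw [abs_le] at *
    constructor <;> (clear * - h1 h2 h3; linarith [h1.1, h1.2, h2.1, h2.2, h3.1, h3.2])
  have hR0 : (3 : ℝ) ≤ R := by exact_mod_cast hR3
  have htp : ∀ p : PS R W, 0 ≤ tp R W p := by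
    intro p
    unfold tp
    have h1 : (1 : ℝ) ≤ ((p : ℕ) : ℝ) := by exact_mod_cast (PS_prime p).one_le
    exact div_nonneg (Real.log_nonneg h1) (Real.log_nonneg (by (clear * - hR0; linarith)))
  have hTle : ∀ (c : PS R (W * (q : ℕ)) → Option κ) (a : Option κ),
      T (tp R (W * (q : ℕ))) (supp c) ≤ T (tp R W) (supp (PAP.ext e c a)) := by
    intro c a
    unfold T
    have hinj : Function.Injective (fun p : PS R (W * (q : ℕ)) => e (some p)) := by
      intro p p' hpp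
      exact Option.some.inj (e.injective hpp)
    rw [← tp_comp q e he']
    have hmap : ∑ p ∈ supp c, (fun p => tp R W (e (some p))) p =
        ∑ p ∈ (supp c).map ⟨_, hinj⟩, tp R W p := by
      rw [Finset.sum_map]
      rfl
    rw [hmap]
    apply Finset.sum_le_sum_of_subset_of_nonneg
    · intro p hp
      rw [Finset.mem_map] at hp
      obtain ⟨p', hp', rfl⟩ := hp
      unfold supp at hp' ⊢
      rw [mem_filter] at hp' ⊢
      refine ⟨mem_univ _, ?_⟩
      simp only [Function.Embedding.coeFn_mk]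
      rw [ext_at_some]
      exact hp'.2
    · intro p _ _
      exact htp p
  have hysT : ∀ c, ys e (wp R W) i y c ≠ 0 → T (tp R (W * (q : ℕ))) (supp c) ≤ 3 := by
    intro c hc
    by_contra hcon
    push Not at hcon
    have h0 : ∀ a, y (PAP.ext e c a) = 0 := by
      intro a
      by_contra hne
      have h1 := hT _ hne
      have h2 := hTle c a
      (clear * - hcon h1 h2; linarith)
    apply hc
    unfold ys
    simp [h0]
  have hmain := Pool.Agent.Helper18.MT.sumGen_core hE (h := h) (v := v') hW' hx9 hL hWx hKx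
    (by omega) hRx (fun _ => univ) (by
      intro p j _ j' _ hjj hdvd
      have h1 := hS.diff j j' hjj p (PS_prime p) hdvd
      exact PS_not_dvd p (Dvd.dvd.mul_right h1 _))
    (ys e (wp R W) i y) (fun c => (hys c).trans hR0) hysT (fun _ _ _ j _ => mem_univ j)
  have hG := Pool.Agent.Helper9.MT.gramUpper (PS R (W * (q : ℕ))) κ (wp R (W * (q : ℕ)))
    (ys e (wp R W) i y) (fun p => by unfold wp; (clear * -; positivity)) (fun p => by
      have h1 : D0 ≤ (p : ℕ) := by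
        have h1 := PS_large hS.small (e (some p))
        rwa [he' p] at h1
      have h2 : Fintype.card κ ≤ (Fintype.card κ + 2) ^ 10 :=
        (Nat.le_add_right _ 2).trans (Nat.le_self_pow (by norm_num) _)
      have h3 : ((Fintype.card κ : ℕ) : ℝ) ≤ ((p : ℕ) : ℝ) := by
        exact_mod_cast (h2.trans hD).trans h1
      have h4 : (0 : ℝ) < ((p : ℕ) : ℝ) := by exact_mod_cast (PS_prime p).pos
      unfold wp
      rw [mul_one_div, div_le_one h4]
      exact h3)
  have hsum : ∑ n ∈ (NS x W v).filter (fun n => (q : ℕ) ∣ n + h i),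
      (1 / (n : ℝ)) * sw h (lam (wp R W) y) n = ∑ n ∈ NS x (W * (q : ℕ)) v',
        (1 / (n : ℝ)) * sw h (lam (wp R (W * (q : ℕ))) (ys e (wp R W) i y)) n := by
    rw [← hNS]
    refine Finset.sum_congr rfl fun n hn => ?_
    rw [mem_filter] at hn
    rw [sw_star q e he he' i y n hn.2]
    intro j hj hdvd
    have h1 : ((q : ℕ) : ℤ) ∣ ((n + h i : ℕ) : ℤ) := by exact_mod_cast hn.2
    have h2 : ((q : ℕ) : ℤ) ∣ ((n + h j : ℕ) : ℤ) := by exact_mod_cast hdvd
    have h3 := dvd_sub h1 h2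
    push_cast at h3
    rw [add_sub_add_left_eq_sub] at h3
    exact PS_not_dvd q (hS.diff i j (Ne.symm hj) _ hqp h3)
  rw [hsum]
  have hlogx : 0 ≤ Real.log x := Real.log_nonneg (by (clear * - hx9; linarith))
  have h5 := (abs_le.1 hmain).2
  have h6 := mul_le_mul_of_nonneg_left hG
    (show 0 ≤ Real.log x / (2 * ((W * (q : ℕ) : ℕ) : ℝ)) by (clear * - hlogx hW'; positivity))
  (clear * - h5 h6; linarith)

end Pool.Agent.Helper66.PV

end

section

set_option autoImplicit false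

open Finset

namespace Pool.Agent.Helper4.PL

open Pool.Agent.Helper1.MT

open Pool.Agent.Helper66.PAP

section Abstract

variable {ι ι' κ : Type}

theorem le_ext_none (e : Option ι' ≃ ι) {c c' : ι' → Option κ} (h : Le c c') :
    Le (ext e c none) (ext e c' none) := by
  intro p
  obtain ⟨o, rfl⟩ := e.surjective p
  cases o with
  | none =>
    rw [ext_at_none]
    exact Or.inl rfl
  | some p =>
    rw [ext_at_some, ext_at_some]
    exact h p

theorem le_ext_some (e : Option ι' ≃ ι) (c : ι' → Option κ) (a : Option κ) :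
    Le (ext e c none) (ext e c a) := by
  intro p
  obtain ⟨o, rfl⟩ := e.surjective p
  cases o with
  | none =>
    rw [ext_at_none]
    exact Or.inl rfl
  | some p =>
    rw [ext_at_some, ext_at_some]
    exact Or.inr rfl

variable [Fintype ι] [Fintype ι'] [Fintype κ] [DecidableEq ι] [DecidableEq ι'] [DecidableEq κ]

omit [Fintype κ] in
theorem ws_supp_ext (e : Option ι' ≃ ι) (w : ι → ℝ) (c : ι' → Option κ) :
    ws (fun p => w (e (some p))) (supp c) = ws w (supp (ext e c none)) := by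
  unfold ws supp
  rw [Finset.prod_filter, Finset.prod_filter]
  rw [← Equiv.prod_comp e (fun p => if ext e c none p ≠ none then w p else 1)]
  rw [Fintype.prod_option]
  simp only [ext_at_none, ext_at_some, ne_eq, not_true_eq_false, if_false, one_mul]

/-- The energy of the restriction. -/
theorem energy_ext (e : Option ι' ≃ ι) (w : ι → ℝ) (hw : ∀ p, 0 ≤ w p)
    (Y : (ι → Option κ) → ℝ) :
    ∑ c : ι' → Option κ, ws (fun p => w (e (some p))) (supp c) * Y (ext e c none) ^ 2 ≤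
      ∑ c : ι → Option κ, ws w (supp c) * Y c ^ 2 := by
  have h0 : ∀ c : ι → Option κ, 0 ≤ ws w (supp c) * Y c ^ 2 := fun c =>
    mul_nonneg (Finset.prod_nonneg fun p _ => hw p) (sq_nonneg _)
  rw [sum_ext e]
  refine Finset.sum_le_sum fun c _ => ?_
  rw [ws_supp_ext]
  exact Finset.single_le_sum (f := fun a : Option κ =>
    ws w (supp (ext e c a)) * Y (ext e c a) ^ 2) (fun a _ => h0 _) (Finset.mem_univ none)

/-- The transformed weights are dominated. -/
theorem abs_ys_le (e : Option ι' ≃ ι) (w : ι → ℝ) (i : κ) (hw : 0 ≤ w (e none))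
    (hK : (Fintype.card κ : ℝ) * w (e none) ≤ 1) (y Y : (ι → Option κ) → ℝ)
    (hyY : ∀ c, |y c| ≤ Y c) (hanti : ∀ c c', Le c c' → Y c' ≤ Y c) (c : ι' → Option κ) :
    |ys e w i y c| ≤ 3 * Y (ext e c none) := by
  have hY : ∀ a, |y (ext e c a)| ≤ Y (ext e c none) := fun a =>
    (hyY _).trans (hanti _ _ (le_ext_some e c a))
  have hY0 : 0 ≤ Y (ext e c none) := (abs_nonneg _).trans (hY none)
  have h3 : |w (e none) * ∑ j, y (ext e c (some j))| ≤ Y (ext e c none) := by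
    rw [abs_mul, abs_of_nonneg hw]
    calc w (e none) * |∑ j, y (ext e c (some j))|
        ≤ w (e none) * ∑ j : κ, |y (ext e c (some j))| :=
          mul_le_mul_of_nonneg_left (Finset.abs_sum_le_sum_abs _ _) hw
      _ ≤ w (e none) * ∑ _j : κ, Y (ext e c none) :=
          mul_le_mul_of_nonneg_left (Finset.sum_le_sum fun j _ => hY _) hw
      _ = Fintype.card κ * w (e none) * Y (ext e c none) := by
          rw [Finset.sum_const, Finset.card_univ, nsmul_eq_mul]
          ring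
      _ ≤ 1 * Y (ext e c none) := mul_le_mul_of_nonneg_right hK hY0
      _ = Y (ext e c none) := one_mul _
  have h1 := hY none
  have h2 := hY (some i)
  unfold ys
  rw [abs_le] at *
  constructor <;> linarith [h1.1, h1.2, h2.1, h2.2, h3.1, h3.2]

end Abstract

section Arith

variable {κ : Type} [Fintype κ] [DecidableEq κ]

theorem tp_nonneg' {R W : ℕ} (hR : 2 ≤ R) (p : PS R W) : 0 ≤ tp R W p := by
  unfold tp
  have h1 : (1 : ℝ) ≤ ((p : ℕ) : ℝ) := by exact_mod_cast (PS_prime p).one_le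
  have h2 : (1 : ℝ) < (R : ℝ) := by exact_mod_cast (by omega : 1 < R)
  exact div_nonneg (Real.log_nonneg h1) (Real.log_nonneg h2.le)

theorem T_ext_le {R W : ℕ} (hR : 2 ≤ R) (q : PS R W)
    (e : Option (PS R (W * (q : ℕ))) ≃ PS R W)
    (he' : ∀ p, ((e (some p) : PS R W) : ℕ) = (p : ℕ))
    (c : PS R (W * (q : ℕ)) → Option κ) (a : Option κ) :
    T (tp R (W * (q : ℕ))) (supp c) ≤ T (tp R W) (supp (ext e c a)) := by
  unfold T
  have hinj : Function.Injective (fun p : PS R (W * (q : ℕ)) => e (some p)) := by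
    intro p p' hpp
    exact Option.some.inj (e.injective hpp)
  rw [← tp_comp q e he']
  have hmap : ∑ p ∈ supp c, (fun p => tp R W (e (some p))) p =
      ∑ p ∈ (supp c).map ⟨_, hinj⟩, tp R W p := by
    rw [Finset.sum_map]
    rfl
  rw [hmap]
  apply Finset.sum_le_sum_of_subset_of_nonneg
  · intro p hp
    rw [Finset.mem_map] at hp
    obtain ⟨p', hp', rfl⟩ := hp
    unfold supp at hp' ⊢
    rw [mem_filter] at hp' ⊢
    refine ⟨mem_univ _, ?_⟩
    simp only [Function.Embedding.coeFn_mk]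
    rw [ext_at_some]
    exact hp'.2
  · intro p _ _
    exact tp_nonneg' hR p

/-- The sieve sum over the `n` such that all the primes of `A` divide `n + h i`. -/
theorem sum_set (hE : Expand) {D0 : ℕ} {h : κ → ℕ} (hD : Fintype.card κ ≤ D0) {x L : ℝ}
    (hx9 : 9 ≤ x) (hL : 0 < L)
    (hKx : 4 * Real.exp (4 * Fintype.card κ) ^ 2 * L ≤ x ^ (53 / 162 : ℝ)) {R : ℕ}
    (hR3 : 3 ≤ R) (hRx : (R : ℝ) ≤ x ^ (1 / 81 : ℝ)) (i : κ) (A : Finset ℕ) :
    ∀ (W v : ℕ), 0 < W → (∀ p : ℕ, p.Prime → p < D0 → p ∣ W) →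
      (∀ i j, i ≠ j → ∀ p : ℕ, p.Prime → (p : ℤ) ∣ (h i : ℤ) - h j → p ∣ W) →
      A ⊆ PS R W → ((W * ∏ q ∈ A, q : ℕ) : ℝ) ≤ x ^ (23 / 54 : ℝ) →
      ∀ (b : ℝ) (y Y : (PS R W → Option κ) → ℝ), (∀ c, |y c| ≤ Y c) → (∀ c, Y c ≤ b) →
        (∀ c c', Le c c' → Y c' ≤ Y c) → 3 ^ A.card * b ≤ R →
        (∀ c, y c ≠ 0 → T (tp R W) (supp c) ≤ 3) →
        ∑ n ∈ (NS x W v).filter (fun n => ∀ q ∈ A, q ∣ n + h i),
          (1 / (n : ℝ)) * sw h (lam (wp R W) y) n ≤
        Real.log x / (2 * ((W * ∏ q ∈ A, q : ℕ) : ℝ)) *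
          (9 ^ A.card * ∑ c, ws (wp R W) (supp c) * Y c ^ 2) + 1 / L := by
  classical
  have hKp : ∀ (W : ℕ), (∀ p : ℕ, p.Prime → p < D0 → p ∣ W) → ∀ p : PS R W,
      (Fintype.card κ : ℝ) * wp R W p ≤ 1 := by
    intro W hsm p
    have h1 := PS_large hsm p
    have h3 : ((Fintype.card κ : ℕ) : ℝ) ≤ ((p : ℕ) : ℝ) := by exact_mod_cast hD.trans h1
    have h4 : (0 : ℝ) < ((p : ℕ) : ℝ) := by exact_mod_cast (PS_prime p).pos
    unfold wp
    rw [mul_one_div, div_le_one h4]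
    exact h3
  have hwp0 : ∀ (W : ℕ) (p : PS R W), 0 ≤ wp R W p := by
    intro W p
    unfold wp
    (clear * -; positivity)
  have hlogx : 0 ≤ Real.log x := Real.log_nonneg (by (clear * - hx9; linarith))
  induction A using Finset.induction_on with
  | empty =>
    intro W v hW hsm hdiff _ hWx b y Y hyY hYb hanti hb hT
    rw [Finset.prod_empty, mul_one] at hWx ⊢
    rw [Finset.card_empty, pow_zero, one_mul] at hb ⊢
    have hfil : (NS x W v).filter (fun n => ∀ q ∈ (∅ : Finset ℕ), q ∣ n + h i) = NS x W v := by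
      apply Finset.filter_true_of_mem
      intro n _ q hq
      exact absurd hq (Finset.notMem_empty q)
    rw [hfil]
    have hmain := Pool.Agent.Helper18.MT.sumGen_core hE (h := h) (v := v) hW hx9 hL hWx hKx
      (by omega) hRx (fun _ => univ) (by
        intro p j _ j' _ hjj hdvd
        exact PS_not_dvd p (hdiff j j' hjj p (PS_prime p) hdvd))
      y (fun c => ((hyY c).trans (hYb c)).trans hb) hT (fun _ _ _ j _ => mem_univ j)
    have hG := Pool.Agent.Helper9.MT.gramUpper (PS R W) κ (wp R W) y (hwp0 W) (hKp W hsm)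
    have hyY2 : ∑ c, ws (wp R W) (supp c) * y c ^ 2 ≤ ∑ c, ws (wp R W) (supp c) * Y c ^ 2 := by
      refine Finset.sum_le_sum fun c _ => ?_
      apply mul_le_mul_of_nonneg_left
      · rw [← sq_abs (y c)]
        exact pow_le_pow_left₀ (abs_nonneg _) (hyY c) 2
      · exact Finset.prod_nonneg fun p _ => hwp0 W p
    have h5 := (abs_le.1 hmain).2
    have h6 := mul_le_mul_of_nonneg_left (hG.trans hyY2)
      (show 0 ≤ Real.log x / (2 * (W : ℝ)) by (clear * - hlogx hW; positivity))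
    (clear * - h5 h6; linarith)
  | insert q A hqA ih =>
    intro W v hW hsm hdiff hAS hWx b y Y hyY hYb hanti hb hT
    have hqS : q ∈ PS R W := hAS (Finset.mem_insert_self q A)
    have hAS' : A ⊆ PS R W := fun p hp => hAS (Finset.mem_insert_of_mem hp)
    obtain ⟨hqR, hqp, hqW⟩ := mem_PS.1 hqS
    set q' : PS R W := ⟨q, hqS⟩ with hq'
    have hqq : ((q' : PS R W) : ℕ) = q := rfl
    obtain ⟨e, he, he'⟩ := exists_equiv q'
    obtain ⟨v', hv'⟩ := exists_class W v (h i) hqp hqW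
    have hW' : 0 < W * (q' : ℕ) := Nat.mul_pos hW hqp.pos
    have hsm' : ∀ p : ℕ, p.Prime → p < D0 → p ∣ W * (q' : ℕ) := fun p hp hpD =>
      Dvd.dvd.mul_right (hsm p hp hpD) _
    have hdiff' : ∀ i j, i ≠ j → ∀ p : ℕ, p.Prime → (p : ℤ) ∣ (h i : ℤ) - h j →
        p ∣ W * (q' : ℕ) := fun i j hij p hp hd => Dvd.dvd.mul_right (hdiff i j hij p hp hd) _
    have hAS2 : A ⊆ PS R (W * (q' : ℕ)) := by
      intro p hp
      rw [mem_PS_mul q']
      exact ⟨hAS' hp, fun hpq => hqA (by rw [hqq] at hpq; rwa [← hpq])⟩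
    have hprod : W * ∏ p ∈ insert q A, p = W * (q' : ℕ) * ∏ p ∈ A, p := by
      rw [Finset.prod_insert hqA, hqq, mul_assoc]
    have hcard : (insert q A).card = A.card + 1 := Finset.card_insert_of_notMem hqA
    rw [hprod] at hWx ⊢
    have hwq : 0 ≤ wp R W (e none) := hwp0 W _
    have hKq : (Fintype.card κ : ℝ) * wp R W (e none) ≤ 1 := hKp W hsm _
    have h1 := ih (W * (q' : ℕ)) v' hW' hsm' hdiff' hAS2 hWx (3 * b) (ys e (wp R W) i y)
      (fun c => 3 * Y (ext e c none))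
      (fun c => abs_ys_le e (wp R W) i hwq hKq y Y hyY hanti c)
      (fun c => mul_le_mul_of_nonneg_left (hYb _) (by norm_num))
      (fun c c' hcc => mul_le_mul_of_nonneg_left (hanti _ _ (le_ext_none e hcc)) (by norm_num))
      (by
        rw [hcard, pow_succ] at hb
        (clear * - hb; linarith))
      (by
        intro c hc
        by_contra hcon
        push Not at hcon
        have h0 : ∀ a, y (ext e c a) = 0 := by
          intro a
          by_contra hne
          have h1 := hT _ hne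
          have h2 := T_ext_le (by omega) q' e he' c a
          (clear * - hcon h1 h2; linarith)
        apply hc
        unfold ys
        simp [h0])
    have hsum : ∑ n ∈ (NS x W v).filter (fun n => ∀ p ∈ insert q A, p ∣ n + h i),
        (1 / (n : ℝ)) * sw h (lam (wp R W) y) n =
        ∑ n ∈ (NS x (W * (q' : ℕ)) v').filter (fun n => ∀ p ∈ A, p ∣ n + h i),
          (1 / (n : ℝ)) * sw h (lam (wp R (W * (q' : ℕ))) (ys e (wp R W) i y)) n := by
      have hset : (NS x W v).filter (fun n => ∀ p ∈ insert q A, p ∣ n + h i) =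
          (NS x (W * (q' : ℕ)) v').filter (fun n => ∀ p ∈ A, p ∣ n + h i) := by
        unfold NS
        rw [Finset.filter_filter, Finset.filter_filter]
        refine Finset.filter_congr fun n _ => ?_
        rw [hqq, hv', Finset.forall_mem_insert, and_assoc]
      rw [hset]
      refine Finset.sum_congr rfl fun n hn => ?_
      rw [← hset, mem_filter] at hn
      have hqn : (q' : ℕ) ∣ n + h i := hn.2 q (Finset.mem_insert_self q A)
      rw [sw_star q' e he he' i y n hqn]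
      intro j hj hdvd
      have h1 : ((q' : ℕ) : ℤ) ∣ ((n + h i : ℕ) : ℤ) := by exact_mod_cast hqn
      have h2 : ((q' : ℕ) : ℤ) ∣ ((n + h j : ℕ) : ℤ) := by exact_mod_cast hdvd
      have h3 := dvd_sub h1 h2
      push_cast at h3
      rw [add_sub_add_left_eq_sub] at h3
      exact PS_not_dvd q' (hdiff i j (Ne.symm hj) _ hqp h3)
    rw [hsum]
    refine h1.trans ?_
    gcongr ?_ + 1 / L
    apply mul_le_mul_of_nonneg_left _ (by (clear * - hlogx; positivity))
    have h2 := energy_ext e (wp R W) (hwp0 W) Y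
    rw [wp_comp q' e he'] at h2
    calc 9 ^ A.card * ∑ c, ws (wp R (W * (q' : ℕ))) (supp c) * (3 * Y (ext e c none)) ^ 2
        = 9 ^ (insert q A).card *
          ∑ c, ws (wp R (W * (q' : ℕ))) (supp c) * Y (ext e c none) ^ 2 := by
          rw [hcard, pow_succ, mul_assoc]
          congr 1
          rw [Finset.mul_sum]
          refine Finset.sum_congr rfl fun c _ => ?_
          ring
      _ ≤ 9 ^ (insert q A).card * ∑ c, ws (wp R W) (supp c) * Y c ^ 2 :=
          mul_le_mul_of_nonneg_left h2 (by positivity)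

end Arith

end Pool.Agent.Helper4.PL

end

section

set_option autoImplicit false

open Finset

open ArithmeticFunction (cardFactors)

namespace Pool.Agent.Helper4.PU

open Pool.Agent.Helper1.MT

open Pool.Agent.Helper66.PV (SetN)

/-- PU-1: the majorant with one additional colour `none`, for arbitrary weights. -/
def StarGen : Prop :=
  ∀ (ι κ : Type) [Fintype ι] [Fintype κ] [DecidableEq ι] [DecidableEq κ] (w t : ι → ℝ)
    (y : (ι → Option κ) → ℝ) (b : ℝ) (bad : Finset ι), (∀ p, 0 ≤ w p) → (∀ p, 0 ≤ t p) →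
    (∀ c, |y c| ≤ b) → (∀ c, y c ≠ 0 → T t (supp c) ≤ 1) →
    ∃ y' : (ι → Option (Option κ)) → ℝ,
      (∀ c : ι → Option κ, lam w y' (fun p => (c p).map some) = lam w y c) ∧
      (∀ c, y' c ≠ 0 → T t (supp c) ≤ 2 ∧ ∀ p ∈ bad, c p ≠ some none) ∧
      (∀ c, |y' c| ≤ b) ∧
      (∑ c : ι → Option (Option κ), ws w (supp c) * y' c ^ 2) * V0 w t ≤
        (∑ c : ι → Option κ, ws w (supp c) * y c ^ 2 * ∏ p ∈ supp c, (1 + w p)) *
          ∏ p ∈ bad, (1 + w p)

/-- The prime factors of `m` up to `z` that do not divide `W` are the elements of `A`. -/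
def Exact (R W : ℕ) (z : ℝ) (A : Finset ℕ) (m : ℕ) : Prop :=
  ∀ p ∈ PS R W, (p : ℝ) ≤ z → (p ∣ m ↔ p ∈ A)

/-- PU-3: the sieve sum over the `n` for which the small prime factors of `n + t` are given. -/
def SumExact : Prop :=
  ∀ (κ : Type) [Fintype κ] [DecidableEq κ] (D0 : ℕ) (h : κ → ℕ) (t R : ℕ) (x L z : ℝ),
    Fintype.card κ + 1 ≤ D0 → 9 ≤ x → 0 < L →
    4 * Real.exp (4 * (Fintype.card κ + 1)) ^ 2 * L ≤ x ^ (53 / 162 : ℝ) → 3 ≤ R →
    (R : ℝ) ≤ x ^ (1 / 81 : ℝ) → ∀ (A : Finset ℕ) (W v : ℕ), 0 < W →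
    (∀ p : ℕ, p.Prime → p < D0 → p ∣ W) →
    (∀ i j, i ≠ j → ∀ p : ℕ, p.Prime → (p : ℤ) ∣ (h i : ℤ) - h j → p ∣ W) →
    A ⊆ PS R W → (∀ p ∈ A, (p : ℝ) ≤ z) → ((W * ∏ q ∈ A, q : ℕ) : ℝ) ≤ x ^ (23 / 54 : ℝ) →
    ∀ (b : ℝ) (y Y : (PS R W → Option κ) → ℝ) (E Bd : ℝ), (∀ c, |y c| ≤ Y c) → (∀ c, Y c ≤ b) →
    (∀ c c', Le c c' → Y c' ≤ Y c) → 3 ^ A.card * b ≤ R →
    (∀ c, y c ≠ 0 → T (tp R W) (supp c) ≤ 1) →
    ∑ c, ws (wp R W) (supp c) * Y c ^ 2 * ∏ p ∈ supp c, (1 + wp R W p) ≤ E →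
    ∏ p ∈ univ.filter (fun p : PS R W => z < ((p : ℕ) : ℝ) ∨
      ∃ i, ((p : ℕ) : ℤ) ∣ (h i : ℤ) - t), (1 + wp R W p) ≤ Bd →
    ∀ [DecidablePred (fun n => Exact R W z A (n + t))],
    ∑ n ∈ (NS x W v).filter (fun n => Exact R W z A (n + t)),
      (1 / (n : ℝ)) * sw h (lam (wp R W) y) n ≤
    Real.log x / (2 * ((W * ∏ q ∈ A, q : ℕ) : ℝ)) *
      (18 ^ A.card * (E * Bd / V0 (wp R W) (tp R W))) + 1 / L

/-- The sets of at most `m` primes up to `z`. -/
noncomputable def Sm (R W m : ℕ) (z : ℝ) : Finset (Finset ℕ) := by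
  classical
  exact (PS R W).powerset.filter (fun A => A.card ≤ m ∧ ∀ p ∈ A, ((p : ℕ) : ℝ) ≤ z)

theorem mem_Sm {R W m : ℕ} {z : ℝ} {A : Finset ℕ} :
    A ∈ Sm R W m z ↔ A ⊆ PS R W ∧ A.card ≤ m ∧ ∀ p ∈ A, ((p : ℕ) : ℝ) ≤ z := by
  classical
  unfold Sm
  rw [Finset.mem_filter, Finset.mem_powerset]

/-- PU-4: the sets of at most `m` primes up to `z`. -/
def SmallSets : Prop :=
  ∃ C : ℝ, 0 < C ∧ ∀ (R W m : ℕ) (z : ℝ), 3 ≤ R → 1 ≤ z →
    ∑ A ∈ Sm R W m z, (18 : ℝ) ^ A.card / ∏ p ∈ A, (p : ℝ) ≤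
      (18 * (Real.log (Real.log R) + C)) ^ m ∧
    ((Sm R W m z).card : ℝ) ≤ (2 * z) ^ m

/-- PU-5: the factor of the primes that are large or divide some `h i - t`. -/
def BadProd : Prop :=
  ∃ C : ℝ, 0 < C ∧ ∀ (κ : Type) [Fintype κ] (h : κ → ℕ) (t R W r : ℕ), 3 ≤ R → 1 ≤ r →
    (∀ i, h i ≠ t) → 2 ≤ (R : ℝ) ^ (1 / (r : ℝ)) →
    ∏ p ∈ univ.filter (fun p : PS R W => (R : ℝ) ^ (1 / (r : ℝ)) < ((p : ℕ) : ℝ) ∨
      ∃ i, ((p : ℕ) : ℤ) ∣ (h i : ℤ) - t), (1 + wp R W p) ≤ C * r * Sg h W t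

/-- PU-6a: the `t` in a residue class modulo `e` that avoid a residue class modulo each prime of
`P`. -/
def Legendre : Prop :=
  ∀ (P : Finset ℕ) (e a v N : ℕ), 0 < e → (∀ p ∈ P, p.Prime ∧ ¬ p ∣ e) →
    |((((range N).filter (fun t => t ≡ a [MOD e] ∧ ∀ p ∈ P, ¬ p ∣ v + t)).card : ℕ) : ℝ) -
      N / e * ∏ p ∈ P, (1 - 1 / (p : ℝ))| ≤ 2 ^ P.card

/-- PU-8: a bound for `W / φ(W)`. -/
def RhoBound : Prop := ∀ W : ℕ, 0 < W → (W : ℝ) / W.totient ≤ 1 + Real.log W / Real.log 2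

/-- PU-W: the sieve weight of an integer `n` for which the `n + h i` have few prime factors in
`PS R W`. -/
def WeightPS : Prop :=
  ∃ C : ℝ, 0 < C ∧ ∀ (κ : Type) [Fintype κ] [DecidableEq κ] (R W : ℕ) (h : κ → ℕ)
    (y : (PS R W → Option κ) → ℝ) (n r : ℕ), 3 ≤ R → (∀ c, |y c| ≤ 1) → 0 < n →
    (∀ i, ((PS R W).filter (fun p => p ∣ n + h i)).card ≤ r) →
    sw h (lam (wp R W) y) n ≤
      ((2 : ℝ) ^ (Fintype.card κ * r) * (C * Real.log R) ^ Fintype.card κ) ^ 2

end Pool.Agent.Helper4.PU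

end

section

set_option autoImplicit false

open Finset

namespace Pool.Agent.Helper4.PU

open Pool.Agent.Helper1.MT (Le supp cls ws inv pr lam Qf T V0 PS wp tp Dv NS sw Expand PS_prime PS_large)

open Pool.Agent.Helper66.PAP

open Pool.Agent.Helper4.PL

section Abstract

variable {ι ι' κ : Type}

variable [Fintype ι] [Fintype ι'] [Fintype κ] [DecidableEq ι] [DecidableEq ι'] [DecidableEq κ]

theorem lam_ext0 (e : Option ι' ≃ ι) (w : ι → ℝ) (y : (ι → Option κ) → ℝ)
    (c : ι' → Option κ) :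
    lam w y (ext e c none) = lam (fun p => w (e (some p))) (yn e w y) c := by
  unfold lam
  rw [sum_ext e]
  refine Finset.sum_congr rfl fun c' _ => ?_
  rw [Fintype.sum_option]
  simp only [prod_ext e, ext_at_none, ext_at_some]
  set P := ∏ p : ι', inv (w (e (some p))) (c p) (c' p) with hP
  have i1 : inv (w (e none)) (none : Option κ) none = 1 := rfl
  have i3 : ∀ x : κ, inv (w (e none)) (none : Option κ) (some x) = -w (e none) := fun _ => rfl
  simp only [i1, i3]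
  rw [one_mul]
  unfold yn
  have h2 : ∑ x : κ, -w (e none) * P * y (ext e c' (some x)) =
      -(P * (w (e none) * ∑ j, y (ext e c' (some j)))) := by
    rw [Finset.mul_sum, Finset.mul_sum, ← Finset.sum_neg_distrib]
    refine Finset.sum_congr rfl fun j _ => ?_
    ring
  rw [h2]
  ring

/-- The transformed weights are dominated. -/
theorem abs_yn_le (e : Option ι' ≃ ι) (w : ι → ℝ) (hw : 0 ≤ w (e none))
    (hK : (Fintype.card κ : ℝ) * w (e none) ≤ 1) (y Y : (ι → Option κ) → ℝ)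
    (hyY : ∀ c, |y c| ≤ Y c) (hanti : ∀ c c', Le c c' → Y c' ≤ Y c) (c : ι' → Option κ) :
    |yn e w y c| ≤ 3 * Y (ext e c none) := by
  have hY : ∀ a, |y (ext e c a)| ≤ Y (ext e c none) := fun a =>
    (hyY _).trans (hanti _ _ (le_ext_some e c a))
  have hY0 : 0 ≤ Y (ext e c none) := (abs_nonneg _).trans (hY none)
  have h3 : |w (e none) * ∑ j, y (ext e c (some j))| ≤ Y (ext e c none) := by
    rw [abs_mul, abs_of_nonneg hw]
    calc w (e none) * |∑ j, y (ext e c (some j))|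
        ≤ w (e none) * ∑ j : κ, |y (ext e c (some j))| :=
          mul_le_mul_of_nonneg_left (Finset.abs_sum_le_sum_abs _ _) hw
      _ ≤ w (e none) * ∑ _j : κ, Y (ext e c none) :=
          mul_le_mul_of_nonneg_left (Finset.sum_le_sum fun j _ => hY _) hw
      _ = Fintype.card κ * w (e none) * Y (ext e c none) := by
          rw [Finset.sum_const, Finset.card_univ, nsmul_eq_mul]
          ring
      _ ≤ 1 * Y (ext e c none) := mul_le_mul_of_nonneg_right hK hY0
      _ = Y (ext e c none) := one_mul _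
  have h1 := hY none
  unfold yn
  rw [abs_le] at *
  constructor <;> (clear * - hY0 h3 h1; linarith [h1.1, h1.2, h3.1, h3.2])

/-- The energy of the restriction, with additional factors. -/
theorem energy1_ext (e : Option ι' ≃ ι) (w : ι → ℝ) (hw : ∀ p, 0 ≤ w p)
    (Y : (ι → Option κ) → ℝ) :
    ∑ c : ι' → Option κ, ws (fun p => w (e (some p))) (supp c) * Y (ext e c none) ^ 2 *
        ∏ p ∈ supp c, (1 + w (e (some p))) ≤
      ∑ c : ι → Option κ, ws w (supp c) * Y c ^ 2 * ∏ p ∈ supp c, (1 + w p) := by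
  have h0 : ∀ c : ι → Option κ, 0 ≤ ws w (supp c) * Y c ^ 2 * ∏ p ∈ supp c, (1 + w p) :=
    fun c => mul_nonneg (mul_nonneg (Finset.prod_nonneg fun p _ => hw p) (sq_nonneg _))
      (Finset.prod_nonneg fun p _ => by linarith [hw p])
  have h1 : ∀ c : ι' → Option κ, ∏ p ∈ supp c, (1 + w (e (some p))) =
      ∏ p ∈ supp (ext e c none), (1 + w p) := by
    intro c
    have h2 := ws_supp_ext e (fun p => 1 + w p) c
    unfold ws at h2
    exact h2
  rw [sum_ext e]
  refine Finset.sum_le_sum fun c _ => ?_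
  rw [ws_supp_ext, h1]
  exact Finset.single_le_sum (f := fun a : Option κ =>
    ws w (supp (ext e c a)) * Y (ext e c a) ^ 2 * ∏ p ∈ supp (ext e c a), (1 + w p))
    (fun a _ => h0 _) (Finset.mem_univ none)

end Abstract

section Arith

variable {κ : Type} [Fintype κ] [DecidableEq κ] {R W : ℕ}

/-- The weights of an integer `n` such that no `n + h j` is divisible by `q`. -/
theorem sw_none {h : κ → ℕ} (q : PS R W) (e : Option (PS R (W * (q : ℕ))) ≃ PS R W)
    (he : e none = q) (he' : ∀ p, ((e (some p) : PS R W) : ℕ) = (p : ℕ))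
    (y : (PS R W → Option κ) → ℝ) (n : ℕ) (h2 : ∀ j, ¬ (q : ℕ) ∣ n + h j) :
    sw h (lam (wp R W) y) n = sw h (lam (wp R (W * (q : ℕ))) (yn e (wp R W) y)) n := by
  classical
  unfold sw
  congr 1
  rw [Finset.sum_filter, Finset.sum_filter, sum_ext e]
  refine Finset.sum_congr rfl fun c _ => ?_
  rw [Fintype.sum_option]
  simp only [Dv_ext q e he he' c]
  by_cases hc : Dv h c n
  · rw [if_pos (by exact ⟨hc, fun j hj => by cases hj⟩), if_pos hc]
    have h3 : ∑ x : κ, (if Dv h c n ∧ ∀ j, some x = some j → (q : ℕ) ∣ n + h j then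
        lam (wp R W) y (ext e c (some x)) else 0) = 0 := by
      apply Finset.sum_eq_zero
      intro b _
      rw [if_neg]
      rintro ⟨-, h4⟩
      exact h2 b (h4 b rfl)
    rw [h3, add_zero, lam_ext0, wp_comp q e he']
  · rw [if_neg hc, if_neg (fun h => hc h.1), Finset.sum_eq_zero, add_zero]
    intro x _
    rw [if_neg (fun h => hc h.1)]

theorem bad_ext {z : ℝ} {t : ℕ} {h : κ → ℕ} (q : PS R W)
    (e : Option (PS R (W * (q : ℕ))) ≃ PS R W)
    (he' : ∀ p, ((e (some p) : PS R W) : ℕ) = (p : ℕ))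
    [DecidablePred (fun p : PS R W => z < ((p : ℕ) : ℝ) ∨
      ∃ i, ((p : ℕ) : ℤ) ∣ (h i : ℤ) - t)]
    [DecidablePred (fun p : PS R (W * (q : ℕ)) => z < ((p : ℕ) : ℝ) ∨
      ∃ i, ((p : ℕ) : ℤ) ∣ (h i : ℤ) - t)] :
    ∏ p ∈ univ.filter (fun p : PS R (W * (q : ℕ)) => z < ((p : ℕ) : ℝ) ∨
      ∃ i, ((p : ℕ) : ℤ) ∣ (h i : ℤ) - t), (1 + wp R (W * (q : ℕ)) p) ≤
    ∏ p ∈ univ.filter (fun p : PS R W => z < ((p : ℕ) : ℝ) ∨
      ∃ i, ((p : ℕ) : ℤ) ∣ (h i : ℤ) - t), (1 + wp R W p) := by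
  classical
  have hw : ∀ p : PS R W, 0 ≤ wp R W p := fun p => by unfold wp; (clear * -; positivity)
  have hw2 : ∀ p : PS R (W * (q : ℕ)), 0 ≤ wp R (W * (q : ℕ)) p := fun p => by
    unfold wp; (clear * -; positivity)
  rw [Finset.prod_filter, Finset.prod_filter,
    prod_ext e (fun p : PS R W => if z < ((p : ℕ) : ℝ) ∨ ∃ i, ((p : ℕ) : ℤ) ∣ (h i : ℤ) - t
      then 1 + wp R W p else 1)]
  have h1 : (1 : ℝ) ≤ if z < (((e none : PS R W) : ℕ) : ℝ) ∨
      ∃ i, (((e none : PS R W) : ℕ) : ℤ) ∣ (h i : ℤ) - t then 1 + wp R W (e none) else 1 := by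
    split_ifs
    · linarith [hw (e none)]
    · exact le_rfl
  have h2 : ∏ p : PS R (W * (q : ℕ)), (if z < ((p : ℕ) : ℝ) ∨
      ∃ i, ((p : ℕ) : ℤ) ∣ (h i : ℤ) - t then 1 + wp R (W * (q : ℕ)) p else 1) =
      ∏ p : PS R (W * (q : ℕ)), (if z < (((e (some p) : PS R W) : ℕ) : ℝ) ∨
      ∃ i, (((e (some p) : PS R W) : ℕ) : ℤ) ∣ (h i : ℤ) - t then 1 + wp R W (e (some p))
        else 1) := by
    refine Finset.prod_congr rfl fun p _ => ?_
    have h3 := congrFun (wp_comp q e he') p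
    simp only [he' p]
    rw [← h3]
  rw [h2]
  refine le_mul_of_one_le_left ?_ h1
  apply Finset.prod_nonneg
  intro p _
  split_ifs
  · (clear * - hw; linarith [hw (e (some p))])
  · exact zero_le_one

theorem PS_card_le {D0 : ℕ} (hD : Fintype.card κ ≤ D0)
    (hsm : ∀ p : ℕ, p.Prime → p < D0 → p ∣ W) (p : PS R W) :
    (Fintype.card κ : ℝ) * wp R W p ≤ 1 := by
  have h1 := PS_large hsm p
  have h3 : ((Fintype.card κ : ℕ) : ℝ) ≤ ((p : ℕ) : ℝ) := by exact_mod_cast hD.trans h1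
  have h4 : (0 : ℝ) < ((p : ℕ) : ℝ) := by exact_mod_cast (PS_prime p).pos
  unfold wp
  rw [mul_one_div, div_le_one h4]
  exact h3

/-- The transformation at a prime `q` that divides `n + t`. -/
theorem exists_transform {D0 : ℕ} {h : κ → ℕ} {t : ℕ} (hD : Fintype.card κ ≤ D0)
    (hsm : ∀ p : ℕ, p.Prime → p < D0 → p ∣ W)
    (hdiff : ∀ i j, i ≠ j → ∀ p : ℕ, p.Prime → (p : ℤ) ∣ (h i : ℤ) - h j → p ∣ W)
    (q : PS R W) (e : Option (PS R (W * (q : ℕ))) ≃ PS R W) (he : e none = q)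
    (he' : ∀ p, ((e (some p) : PS R W) : ℕ) = (p : ℕ))
    (y Y : (PS R W → Option κ) → ℝ) (hyY : ∀ c, |y c| ≤ Y c)
    (hanti : ∀ c c', Le c c' → Y c' ≤ Y c) :
    ∃ y₂ : (PS R (W * (q : ℕ)) → Option κ) → ℝ, (∀ c, |y₂ c| ≤ 3 * Y (ext e c none)) ∧
      (∀ c, y₂ c ≠ 0 → ∃ a, y (ext e c a) ≠ 0) ∧
      ∀ n, (q : ℕ) ∣ n + t →
        sw h (lam (wp R W) y) n = sw h (lam (wp R (W * (q : ℕ))) y₂) n := by
  classical
  have hwq : 0 ≤ wp R W (e none) := by unfold wp; (clear * -; positivity)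
  have hKq : (Fintype.card κ : ℝ) * wp R W (e none) ≤ 1 := PS_card_le hD hsm _
  have hdvd : ∀ n i, (q : ℕ) ∣ n + t → ((q : ℕ) ∣ n + h i ↔ ((q : ℕ) : ℤ) ∣ (h i : ℤ) - t) := by
    intro n i hn
    have h1 : ((q : ℕ) : ℤ) ∣ ((n + t : ℕ) : ℤ) := by exact_mod_cast hn
    have e1 : (h i : ℤ) - t = ((n + h i : ℕ) : ℤ) - ((n + t : ℕ) : ℤ) := by
      push_cast
      ring
    rw [e1]
    constructor
    · intro h2
      have h3 : ((q : ℕ) : ℤ) ∣ ((n + h i : ℕ) : ℤ) := by exact_mod_cast h2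
      exact dvd_sub h3 h1
    · intro h2
      have h3 := dvd_add h2 h1
      rw [sub_add_cancel] at h3
      exact_mod_cast h3
  by_cases hex : ∃ i, ((q : ℕ) : ℤ) ∣ (h i : ℤ) - t
  · obtain ⟨i, hi⟩ := hex
    refine ⟨ys e (wp R W) i y, abs_ys_le e (wp R W) i hwq hKq y Y hyY hanti, ?_, ?_⟩
    · intro c hc
      by_contra hcon
      push Not at hcon
      apply hc
      unfold ys
      simp [hcon]
    · intro n hn
      apply sw_star q e he he' i y n ((hdvd n i hn).2 hi)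
      intro j hj hdj
      have h2 := (hdvd n j hn).1 hdj
      have h3 := dvd_sub hi h2
      rw [sub_sub_sub_cancel_right] at h3
      exact PS_not_dvd q (hdiff i j (Ne.symm hj) _ (PS_prime q) h3)
  · push Not at hex
    refine ⟨yn e (wp R W) y, abs_yn_le e (wp R W) hwq hKq y Y hyY hanti, ?_, ?_⟩
    · intro c hc
      by_contra hcon
      push Not at hcon
      apply hc
      unfold yn
      simp [hcon]
    · intro n hn
      apply sw_none q e he he' y n
      intro j hdj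
      exact hex j ((hdvd n j hn).1 hdj)

end Arith

end Pool.Agent.Helper4.PU

end

section

set_option autoImplicit false

open Finset Filter

open ArithmeticFunction (cardFactors)

namespace Pool.Agent.Helper66.PU

open Pool.Agent.Helper1.MT (Le supp cls ws V0 B1 PS wp tp NS sw lam Expand PS_prime PS_large T)

open Pool.Agent.Helper4.PU (SumExact Exact Sm mem_Sm Sg SmallSets BadProd SingCop RhoBound Sg_nonneg Sg_anti Sg_le_full density_le inter_num)

open Pool.Agent.Helper66.PAP (mem_PS)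

open Pool.Agent.Helper66.PV (SetN)

/-- The small prime factors of `n + t`. -/
theorem small_set {k D0 j W v t n R : ℕ} {z y : ℝ} (hk : k < D0) (hW : 0 < W) (hn : 0 < n)
    (hmod : n ≡ v [MOD W]) (hsm : ∀ p : ℕ, p.Prime → p < D0 → p ∣ W) (hWz : (W : ℝ) ≤ z)
    (hzy : z ≤ y) (hj : smallF k y (n + t) ≤ j) :
    ∃ A ⊆ PS R W, (∀ p ∈ A, (p : ℝ) ≤ z) ∧ Exact R W z A (n + t) ∧ A.card ≤ j ∧
      ((∃ q : ℕ, q.Prime ∧ k < q ∧ q ∣ W ∧ q ∣ v + t) → A.card + 1 ≤ j) := by
  classical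
  have hne : n + t ≠ 0 := by omega
  set A : Finset ℕ := (PS R W).filter (fun p : ℕ => (p : ℝ) ≤ z ∧ p ∣ n + t) with hA
  have hAp : ∀ p ∈ A, p.Prime ∧ p ∣ n + t ∧ k < p ∧ (p : ℝ) ≤ y := by
    intro p hp
    rw [hA, mem_filter, mem_PS] at hp
    obtain ⟨⟨h1, h2, h3⟩, h4, h5⟩ := hp
    refine ⟨h2, h5, ?_, h4.trans hzy⟩
    by_contra h6
    exact h3 (hsm p h2 (by omega))
  refine ⟨A, Finset.filter_subset _ _, fun p hp => (mem_filter.1 hp).2.1, ?_, ?_, ?_⟩
  · intro p hp hpz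
    rw [hA, mem_filter]
    exact ⟨fun h => ⟨hp, hpz, h⟩, fun h => h.2.2⟩
  · exact (card_le_smallF hne A hAp).trans hj
  · rintro ⟨q, hq, hkq, hqW, hqv⟩
    have hqn : q ∣ n + t := by
      have h1 : n + t ≡ v + t [MOD q] := (hmod.of_dvd hqW).add_right t
      exact (h1.dvd_iff (dvd_refl q)).2 hqv
    have hqA : q ∉ A := by
      intro h
      rw [hA, mem_filter, mem_PS] at h
      exact h.1.2.2 hqW
    have hqz : (q : ℝ) ≤ y := by
      have h1 : q ≤ W := Nat.le_of_dvd hW hqW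
      have h2 : (q : ℝ) ≤ W := by exact_mod_cast h1
      (clear * - hWz hzy h2; linarith)
    have h1 := card_le_smallF (k := k) (z := y) hne (insert q A) (by
      intro p hp
      rw [mem_insert] at hp
      rcases hp with rfl | hp
      · exact ⟨hq, hqn, hkq, hqz⟩
      · exact hAp p hp)
    rw [Finset.card_insert_of_notMem hqA] at h1
    exact h1.trans hj

end Pool.Agent.Helper66.PU

end

section

set_option autoImplicit false

open Finset

namespace Pool.Agent.Helper4.PU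

/-- Induction on `P`, for all `e` and `a`: the count for `insert q P` is the count for `P` minus
the count for `P` with `t ≡ a [MOD e]`, `q ∣ v + t`, and these two conditions are one condition
`t ≡ a' [MOD e * q]` (`Pool.Agent.Helper66.PAP.exists_class`). The case `P = ∅` is
`|#{t < N : t ≡ a [MOD e]} - N / e| ≤ 1` (`Nat.count_modEq_card` or similar). -/
theorem legendre : Legendre := by
  intro P
  induction P using Finset.induction_on with
  | empty =>
    intro e a v N he _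
    have h := base_case e a N he
    simp only [notMem_empty, false_imp_iff, implies_true, and_true, prod_empty, mul_one,
      card_empty, pow_zero]
    exact h
  | insert q P hqP ih =>
    intro e a v N he hP
    have hq := hP q (mem_insert_self q P)
    obtain ⟨a', ha'⟩ := class_iff (a := a) (v := v) hq.1 hq.2
    have hP1 : ∀ p ∈ P, p.Prime ∧ ¬ p ∣ e := fun p hp => hP p (mem_insert_of_mem hp)
    have hP2 : ∀ p ∈ P, p.Prime ∧ ¬ p ∣ e * q := by
      intro p hp
      refine ⟨(hP1 p hp).1, fun h => ?_⟩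
      rcases ((hP1 p hp).1.dvd_mul).1 h with h | h
      · exact (hP1 p hp).2 h
      · have := (Nat.prime_dvd_prime_iff_eq (hP1 p hp).1 hq.1).1 h
        exact hqP (this ▸ hp)
    have i1 := ih e a v N he hP1
    have i2 := ih (e * q) a' v N (Nat.mul_pos he hq.1.pos) hP2
    set F1 := (range N).filter (fun t => t ≡ a [MOD e] ∧ ∀ p ∈ P, ¬ p ∣ v + t) with hF1
    set F2 := (range N).filter (fun t => t ≡ a' [MOD e * q] ∧ ∀ p ∈ P, ¬ p ∣ v + t) with hF2
    have hsub : F2 ⊆ F1 := by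
      intro t ht
      rw [hF2, mem_filter] at ht
      rw [hF1, mem_filter]
      exact ⟨ht.1, ((ha' t).2 ht.2.1).1, ht.2.2⟩
    have hF : (range N).filter (fun t => t ≡ a [MOD e] ∧ ∀ p ∈ insert q P, ¬ p ∣ v + t) =
        F1 \ F2 := by
      ext t
      rw [mem_sdiff, hF1, hF2, mem_filter, mem_filter, mem_filter]
      constructor
      · rintro ⟨h1, h2, h3⟩
        refine ⟨⟨h1, h2, fun p hp => h3 p (mem_insert_of_mem hp)⟩, fun h4 => ?_⟩
        exact h3 q (mem_insert_self q P) ((ha' t).2 h4.2.1).2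
      · rintro ⟨⟨h1, h2, h3⟩, h4⟩
        refine ⟨h1, h2, fun p hp => ?_⟩
        rcases mem_insert.1 hp with rfl | hp
        · intro h5
          exact h4 ⟨h1, (ha' t).1 ⟨h2, h5⟩, h3⟩
        · exact h3 p hp
    have hcard : ((((range N).filter
        (fun t => t ≡ a [MOD e] ∧ ∀ p ∈ insert q P, ¬ p ∣ v + t)).card : ℕ) : ℝ) =
        (F1.card : ℝ) - (F2.card : ℝ) := by
      rw [hF, card_sdiff_of_subset hsub, Nat.cast_sub (card_le_card hsub)]
    rw [hcard, prod_insert hqP, card_insert_of_notMem hqP, pow_succ]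
    have he' : (e : ℝ) ≠ 0 := by exact_mod_cast he.ne'
    have hq' : (q : ℝ) ≠ 0 := by exact_mod_cast hq.1.pos.ne'
    have key : (F1.card : ℝ) - F2.card - N / e * ((1 - 1 / (q : ℝ)) * ∏ p ∈ P, (1 - 1 / (p : ℝ))) =
        ((F1.card : ℝ) - N / e * ∏ p ∈ P, (1 - 1 / (p : ℝ))) -
          ((F2.card : ℝ) - N / ((e * q : ℕ) : ℝ) * ∏ p ∈ P, (1 - 1 / (p : ℝ))) := by
      push_cast
      field_simp
      ring
    rw [key]
    calc _ ≤ _ + _ := abs_sub _ _
      _ ≤ 2 ^ P.card + 2 ^ P.card := add_le_add i1 i2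
      _ = _ := by ring

end Pool.Agent.Helper4.PU

end

section

set_option autoImplicit false

open Finset

namespace Pool.Agent.Helper4.PU

/-- `W / φ(W) = ∏_{p ∣ W} p / (p - 1) ≤ ω(W) + 1` (for a finite set `S` of integers `≥ 2`,
`∏_{p ∈ S} p / (p - 1) ≤ |S| + 1`: induction on the number of elements, removing the largest one,
which is at least `|S| + 1`), and `2^ω(W) ≤ W`. -/
theorem rhoBound : RhoBound := by
  intro W hW
  have hp : ∀ p ∈ W.primeFactors, 2 ≤ p := fun p hp => (Nat.prime_of_mem_primeFactors hp).two_le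
  have h1 := prod_le_card W.primeFactors hp
  have h2 : (W : ℝ) / W.totient = ∏ p ∈ W.primeFactors, ((p : ℝ) / ((p : ℝ) - 1)) := by
    have h3 := Nat.totient_mul_prod_primeFactors W
    have h4 : ((W.totient * ∏ p ∈ W.primeFactors, p : ℕ) : ℝ) =
        ((W * ∏ p ∈ W.primeFactors, (p - 1) : ℕ) : ℝ) := by rw [h3]
    push_cast at h4
    have h5 : ∏ p ∈ W.primeFactors, (((p - 1 : ℕ)) : ℝ) = ∏ p ∈ W.primeFactors, ((p : ℝ) - 1) := by
      refine prod_congr rfl fun p hp' => ?_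
      rw [Nat.cast_sub (by have := hp p hp'; omega), Nat.cast_one]
    rw [h5] at h4
    have h6 : 0 < ∏ p ∈ W.primeFactors, ((p : ℝ) - 1) := by
      refine prod_pos fun p hp' => ?_
      have : (2 : ℝ) ≤ p := by exact_mod_cast hp p hp'
      (clear * - this; linarith)
    have h7 : (0 : ℝ) < W.totient := by exact_mod_cast Nat.totient_pos.2 hW
    rw [prod_div_distrib, div_eq_div_iff h7.ne' h6.ne', ← h4, mul_comm]
  have h8 : (W.primeFactors.card : ℝ) ≤ Real.log W / Real.log 2 := by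
    rw [le_div_iff₀ (Real.log_pos (by norm_num)), ← Real.log_pow]
    refine Real.log_le_log (by positivity) ?_
    have h9 : 2 ^ W.primeFactors.card ≤ ∏ p ∈ W.primeFactors, p :=
      Finset.pow_card_le_prod _ _ _ hp
    have h10 : ∏ p ∈ W.primeFactors, p ≤ W := Nat.le_of_dvd hW (Nat.prod_primeFactors_dvd W)
    exact_mod_cast h9.trans h10
  rw [h2]
  (clear * - h1 h8; linarith)

end Pool.Agent.Helper4.PU

end

section

set_option autoImplicit false

open Finset

namespace Pool.Agent.Helper4.PU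

/-- `d^(3/8) ≤ 4 d φ(d) / d`. -/
theorem rpow_le_tot (d : ℕ) (hd : 0 < d) (x : ℝ) (hx : (d.totient : ℝ) / d ≤ x) :
    (d : ℝ) ^ (3 / 8 : ℝ) ≤ 4 * (d * x) := by
  have hd0 : (0 : ℝ) < d := by exact_mod_cast hd
  have hd1 : (1 : ℝ) ≤ d := by exact_mod_cast hd
  have hφ : (0 : ℝ) < d.totient := by exact_mod_cast Nat.totient_pos.mpr hd
  have h1 := rhoBound d hd
  have h2 : Real.log d ≤ (d : ℝ) ^ (5 / 8 : ℝ) / (5 / 8) :=
    Real.log_le_rpow_div hd0.le (by norm_num)
  have h3 : (1 : ℝ) ≤ (d : ℝ) ^ (5 / 8 : ℝ) := Real.one_le_rpow hd1 (by norm_num)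
  have h4 : (0.6931 : ℝ) < Real.log 2 := by (clear * -; linarith [Real.log_two_gt_d9])
  have h5 : Real.log d / Real.log 2 ≤ 3 * (d : ℝ) ^ (5 / 8 : ℝ) := by
    rw [div_le_iff₀ (by (clear * - h4; linarith))]
    have h6 : (0 : ℝ) ≤ (d : ℝ) ^ (5 / 8 : ℝ) := by (clear * - h3; linarith)
    (clear * - h2 h3 h4; nlinarith)
  have h7 : (d : ℝ) / d.totient ≤ 4 * (d : ℝ) ^ (5 / 8 : ℝ) := by linarith
  have h8 : (1 : ℝ) ≤ 4 * (d : ℝ) ^ (5 / 8 : ℝ) * x := by
    calc (1 : ℝ) = (d : ℝ) / d.totient * (d.totient / d) := by field_simp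
      _ ≤ 4 * (d : ℝ) ^ (5 / 8 : ℝ) * x := by
        apply mul_le_mul h7 hx (by positivity) (by positivity)
  calc (d : ℝ) ^ (3 / 8 : ℝ) ≤ (d : ℝ) ^ (3 / 8 : ℝ) * (4 * (d : ℝ) ^ (5 / 8 : ℝ) * x) :=
        le_mul_of_one_le_right (by positivity) h8
    _ = 4 * ((d : ℝ) ^ (3 / 8 : ℝ) * (d : ℝ) ^ (5 / 8 : ℝ) * x) := by ring
    _ = 4 * (d * x) := by
      rw [← Real.rpow_add hd0]
      norm_num

end Pool.Agent.Helper4.PU

end

section

set_option autoImplicit false

open Finset Filter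

namespace Pool.Agent.Helper4.PL

open Pool.Agent.Helper1.MT

open Pool.Agent.Helper66.PAP

/-- The prime divisors of `m` in `(R^ε, R]` that do not divide `W`. -/
noncomputable def lps (R W : ℕ) (ε : ℝ) (m : ℕ) : Finset ℕ :=
  (PS R W).filter (fun p : ℕ => p ∣ m ∧ (R : ℝ) ^ ε < p)

/-- Some `n + h i` has at least `6 s` prime divisors in `(R^ε, R]`. -/
def Many {κ : Type} (h : κ → ℕ) (R W : ℕ) (ε : ℝ) (s n : ℕ) : Prop :=
  ∃ i, 6 * s ≤ (lps R W ε (n + h i)).card

/-- The sets of `s` primes in `(R^ε, R]` with product less than `P`. -/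
noncomputable def sets (R W : ℕ) (ε P : ℝ) (s : ℕ) : Finset (Finset ℕ) := by
  classical
  exact (PS R W).powerset.filter
    (fun A => A.card = s ∧ (∀ p ∈ A, (R : ℝ) ^ ε < p) ∧ ∏ p ∈ A, (p : ℝ) < P)

theorem mem_sets {R W : ℕ} {ε P : ℝ} {s : ℕ} {A : Finset ℕ} : A ∈ sets R W ε P s ↔
    A ⊆ PS R W ∧ A.card = s ∧ (∀ p ∈ A, (R : ℝ) ^ ε < p) ∧ ∏ p ∈ A, (p : ℝ) < P := by
  classical
  unfold sets
  rw [Finset.mem_filter, Finset.mem_powerset]

theorem exists_set {R W : ℕ} {ε P : ℝ} {s m : ℕ} (hP : 0 ≤ P) (hm : 0 < m)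
    (hmP : (m : ℝ) < P ^ 6) (h : 6 * s ≤ (lps R W ε m).card) :
    ∃ A ∈ sets R W ε P s, ∀ p ∈ A, p ∣ m := by
  classical
  by_contra hcon
  push Not at hcon
  have hpr : ∀ p ∈ lps R W ε m, p.Prime ∧ p ∣ m ∧ p ∈ PS R W ∧ (R : ℝ) ^ ε < p := by
    intro p hp
    unfold lps at hp
    rw [mem_filter] at hp
    exact ⟨(mem_PS.1 hp.1).2.1, hp.2.1, hp.1, hp.2.2⟩
  have h1 := prod_ge_pow hP s 6 (lps R W ε m) (fun b hb => (hpr b hb).1.one_le) h (by
    intro A hA hAc
    by_contra hlt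
    push Not at hlt
    obtain ⟨p, hp, hpm⟩ := hcon A (mem_sets.2 ⟨fun p hp => (hpr p (hA hp)).2.2.1, hAc,
      fun p hp => (hpr p (hA hp)).2.2.2, hlt⟩)
    exact hpm (hpr p (hA hp)).2.1)
  have h2 : ∏ p ∈ lps R W ε m, p ≤ m := by
    have hsub : lps R W ε m ⊆ m.primeFactors := fun p hp =>
      Nat.mem_primeFactors.2 ⟨(hpr p hp).1, (hpr p hp).2.1, hm.ne'⟩
    calc ∏ p ∈ lps R W ε m, p ≤ ∏ p ∈ m.primeFactors, p :=
          Finset.prod_le_prod_of_subset_of_one_le' hsub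
            (fun p hp _ => (Nat.prime_of_mem_primeFactors hp).one_lt.le)
      _ ≤ m := Nat.le_of_dvd hm (Nat.prod_primeFactors_dvd m)
  have h3 : ∏ p ∈ lps R W ε m, (p : ℝ) ≤ m := by
    have h4 := (Nat.cast_le (α := ℝ)).2 h2
    rwa [Nat.cast_prod] at h4
  (clear * - hmP h1 h3; linarith)

theorem card_sets_le {R W : ℕ} {ε P : ℝ} {s : ℕ} (hP : 1 ≤ P) :
    ((sets R W ε P s).card : ℝ) ≤ 2 * P := by
  classical
  have hinj : Set.InjOn (fun A : Finset ℕ => ∏ p ∈ A, p) (sets R W ε P s : Set (Finset ℕ)) := by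
    intro A hA B hB hAB
    have hA' := (mem_sets.1 hA).1
    have hB' := (mem_sets.1 hB).1
    have h1 : (∏ p ∈ A, p).primeFactors = A :=
      Nat.primeFactors_prod fun p hp => (mem_PS.1 (hA' hp)).2.1
    have h2 : (∏ p ∈ B, p).primeFactors = B :=
      Nat.primeFactors_prod fun p hp => (mem_PS.1 (hB' hp)).2.1
    simp only at hAB
    rw [← h1, ← h2, hAB]
  have h1 : (sets R W ε P s).card ≤ (range (⌊P⌋₊ + 1)).card := by
    apply Finset.card_le_card_of_injOn (fun A : Finset ℕ => ∏ p ∈ A, p)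
    · intro A hA
      have h2 := (mem_sets.1 hA).2.2.2
      simp only [Finset.coe_range, Set.mem_Iio]
      rw [Nat.lt_succ_iff]
      apply Nat.le_floor
      push_cast
      exact h2.le
    · exact hinj
  rw [card_range] at h1
  have h2 : (⌊P⌋₊ : ℝ) ≤ P := Nat.floor_le (by (clear * - hP; linarith))
  have h3 : ((sets R W ε P s).card : ℝ) ≤ ((⌊P⌋₊ + 1 : ℕ) : ℝ) := by exact_mod_cast h1
  push_cast at h3
  (clear * - hP h2 h3; linarith)

/-- The union bound. -/
theorem many_union {κ : Type} [Fintype κ] [DecidableEq κ] {h : κ → ℕ} {R W v : ℕ} {ε P x : ℝ}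
    {s : ℕ} (hP : 0 ≤ P) (hx : 0 ≤ x) (hxP : ∀ i, x + h i < P ^ 6) (u : ℕ → ℝ)
    (hu : ∀ n, 0 ≤ u n) [DecidablePred (Many h R W ε s)] :
    ∑ n ∈ (NS x W v).filter (Many h R W ε s), u n ≤
      ∑ i : κ, ∑ A ∈ sets R W ε P s,
        ∑ n ∈ (NS x W v).filter (fun n => ∀ q ∈ A, q ∣ n + h i), u n := by
  classical
  have hnn : ∀ (A : Finset ℕ) (i : κ) (n : ℕ), 0 ≤ if (∀ q ∈ A, q ∣ n + h i) then u n else 0 := by
    intro A i n
    split_ifs
    · exact hu n
    · exact le_rfl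
  have h1 : ∀ n ∈ (NS x W v).filter (Many h R W ε s), u n ≤
      ∑ i : κ, ∑ A ∈ sets R W ε P s, if (∀ q ∈ A, q ∣ n + h i) then u n else 0 := by
    intro n hn
    rw [mem_filter] at hn
    obtain ⟨hnNS, i, hi⟩ := hn
    have hnx : (n : ℝ) ≤ x ∧ 0 < n := by
      unfold NS at hnNS
      rw [mem_filter, mem_Ioc] at hnNS
      exact ⟨(Nat.le_floor_iff hx).1 hnNS.1.2, by omega⟩
    obtain ⟨A, hA, hAd⟩ := exists_set (m := n + h i) hP (by omega) (by
      push_cast
      have := hxP i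
      (clear * - hnx this; linarith [hnx.1])) hi
    calc u n = if (∀ q ∈ A, q ∣ n + h i) then u n else 0 := by rw [if_pos hAd]
      _ ≤ ∑ A ∈ sets R W ε P s, if (∀ q ∈ A, q ∣ n + h i) then u n else 0 :=
          Finset.single_le_sum (f := fun A : Finset ℕ =>
            if (∀ q ∈ A, q ∣ n + h i) then u n else 0) (fun A _ => hnn A i n) hA
      _ ≤ _ := Finset.single_le_sum (f := fun i : κ => ∑ A ∈ sets R W ε P s,
            if (∀ q ∈ A, q ∣ n + h i) then u n else 0)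
            (fun i _ => Finset.sum_nonneg fun A _ => hnn A i n) (mem_univ i)
  refine (Finset.sum_le_sum h1).trans ?_
  refine (Finset.sum_le_sum_of_subset_of_nonneg (Finset.filter_subset _ _) ?_).trans ?_
  · intro n _ _
    exact Finset.sum_nonneg fun i _ => Finset.sum_nonneg fun A _ => hnn A i n
  · rw [Finset.sum_comm]
    refine Finset.sum_le_sum fun i _ => ?_
    rw [Finset.sum_comm]
    refine Finset.sum_le_sum fun A _ => ?_
    rw [Finset.sum_filter]

/-- The sum over the sets of primes, for one `x`. -/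
theorem many_core (hE : Expand) {κ : Type} [Fintype κ] [DecidableEq κ] {D0 : ℕ} {h : κ → ℕ}
    {W v s R : ℕ} {ε x C : ℝ} (hD : Fintype.card κ ≤ D0) (hW : 0 < W)
    (hsm : ∀ p : ℕ, p.Prime → p < D0 → p ∣ W)
    (hdiff : ∀ i j, i ≠ j → ∀ p : ℕ, p.Prime → (p : ℤ) ∣ (h i : ℤ) - h j → p ∣ W)
    (hx9 : 9 ≤ x) (hR3 : 3 ≤ R) (hRx : (R : ℝ) ≤ x ^ (1 / 81 : ℝ)) (hlogC : 0 ≤ Real.log (1 / ε) + C)
    (e1 : 4 * Real.exp (4 * Fintype.card κ) ^ 2 * x ^ (1 / 4 : ℝ) ≤ x ^ (53 / 162 : ℝ))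
    (e2 : (W : ℝ) * x ^ (1 / 5 : ℝ) ≤ x ^ (23 / 54 : ℝ))
    (e3 : (2 * Fintype.card κ : ℝ) * x ^ (1 / 5 : ℝ) ≤ x ^ (1 / 4 : ℝ))
    (e4 : ∀ i, x + h i < (x ^ (1 / 5 : ℝ)) ^ 6) (e5 : (3 : ℝ) ^ s ≤ R)
    (hsum : ∑ A ∈ sets R W ε (x ^ (1 / 5 : ℝ)) s, ∏ p ∈ A, (1 / (p : ℝ)) ≤
      (Real.log (1 / ε) + C) ^ s / (s.factorial : ℝ))
    (y Y : (PS R W → Option κ) → ℝ) (E : ℝ) (hyY : ∀ c, |y c| ≤ Y c) (hY1 : ∀ c, Y c ≤ 1)
    (hanti : ∀ c c', Le c c' → Y c' ≤ Y c) (hT : ∀ c, y c ≠ 0 → T (tp R W) (supp c) ≤ 3)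
    (hYE : ∑ c, ws (wp R W) (supp c) * Y c ^ 2 ≤ E) [DecidablePred (Many h R W ε s)] :
    ∑ n ∈ (NS x W v).filter (Many h R W ε s), (1 / (n : ℝ)) * sw h (lam (wp R W) y) n ≤
      Fintype.card κ * ((9 * (Real.log (1 / ε) + C)) ^ s / (s.factorial : ℝ)) *
        (Real.log x / (2 * W) * E) + 1 := by
  have hWr : (0 : ℝ) < W := by exact_mod_cast hW
  have hx0 : (0 : ℝ) < x := by (clear * - hx9; linarith)
  have hx1 : (1 : ℝ) ≤ x := by (clear * - hx9; linarith)
  have hlogx : 0 ≤ Real.log x := Real.log_nonneg hx1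
  have hP1 : 1 ≤ x ^ (1 / 5 : ℝ) := Real.one_le_rpow hx1 (by norm_num)
  have hL0 : 0 < x ^ (1 / 4 : ℝ) := by positivity
  have hE0 : 0 ≤ E := le_trans (Finset.sum_nonneg fun c _ =>
    mul_nonneg (Finset.prod_nonneg fun p _ => by unfold wp; (clear * -; positivity)) (sq_nonneg _)) hYE
  refine (many_union (P := x ^ (1 / 5 : ℝ)) (by (clear * - hP1; linarith)) hx0.le e4 _ (fun n => by
    unfold sw
    (clear * -; positivity))).trans ?_
  have hone : ∀ i : κ, ∀ A ∈ sets R W ε (x ^ (1 / 5 : ℝ)) s,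
      ∑ n ∈ (NS x W v).filter (fun n => ∀ q ∈ A, q ∣ n + h i),
        (1 / (n : ℝ)) * sw h (lam (wp R W) y) n ≤
      Real.log x / (2 * W) * 9 ^ s * E * ∏ p ∈ A, (1 / (p : ℝ)) + 1 / x ^ (1 / 4 : ℝ) := by
    intro i A hA
    obtain ⟨hA1, hA2, hA3, hA4⟩ := mem_sets.1 hA
    have hWx : ((W * ∏ q ∈ A, q : ℕ) : ℝ) ≤ x ^ (23 / 54 : ℝ) := by
      push_cast
      refine le_trans ?_ e2
      exact mul_le_mul_of_nonneg_left hA4.le hWr.le
    have h1 := sum_set hE (h := h) hD hx9 hL0 e1 hR3 hRx i A W v hW hsm hdiff hA1 hWx 1 y Y hyY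
      hY1 hanti (by rw [hA2, mul_one]; exact e5) hT
    refine h1.trans ?_
    rw [hA2]
    have hpos : 0 < (∏ q ∈ A, (q : ℝ)) := Finset.prod_pos fun q hq => by
      have := (mem_PS.1 (hA1 hq)).2.1.pos
      exact_mod_cast this
    have hinv : ∏ p ∈ A, (1 / (p : ℝ)) = 1 / ∏ q ∈ A, (q : ℝ) := by
      simp only [one_div, Finset.prod_inv_distrib]
    rw [hinv]
    gcongr ?_ + _
    push_cast
    calc Real.log x / (2 * (W * ∏ q ∈ A, (q : ℝ))) *
          (9 ^ s * ∑ c, ws (wp R W) (supp c) * Y c ^ 2)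
        ≤ Real.log x / (2 * (W * ∏ q ∈ A, (q : ℝ))) * (9 ^ s * E) := by (clear * - hYE hlogx hW hpos; gcongr)
      _ = Real.log x / (2 * W) * 9 ^ s * E * (1 / ∏ q ∈ A, (q : ℝ)) := by
          (clear * - hpos hW; field_simp)
  have hcard := card_sets_le (R := R) (W := W) (ε := ε) (s := s) hP1
  calc ∑ i : κ, ∑ A ∈ sets R W ε (x ^ (1 / 5 : ℝ)) s,
        ∑ n ∈ (NS x W v).filter (fun n => ∀ q ∈ A, q ∣ n + h i),
          (1 / (n : ℝ)) * sw h (lam (wp R W) y) n
      ≤ ∑ _i : κ, ∑ A ∈ sets R W ε (x ^ (1 / 5 : ℝ)) s,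
          (Real.log x / (2 * W) * 9 ^ s * E * ∏ p ∈ A, (1 / (p : ℝ)) + 1 / x ^ (1 / 4 : ℝ)) :=
        Finset.sum_le_sum fun i _ => Finset.sum_le_sum fun A hA => hone i A hA
    _ = Fintype.card κ * (Real.log x / (2 * W) * 9 ^ s * E *
          ∑ A ∈ sets R W ε (x ^ (1 / 5 : ℝ)) s, ∏ p ∈ A, (1 / (p : ℝ))) +
          Fintype.card κ * ((sets R W ε (x ^ (1 / 5 : ℝ)) s).card / x ^ (1 / 4 : ℝ)) := by
        rw [Finset.sum_const, Finset.card_univ, nsmul_eq_mul, Finset.sum_add_distrib,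
          ← Finset.mul_sum, Finset.sum_const, nsmul_eq_mul]
        ring
    _ ≤ Fintype.card κ * (Real.log x / (2 * W) * 9 ^ s * E *
          ((Real.log (1 / ε) + C) ^ s / (s.factorial : ℝ))) + 1 := by
        apply add_le_add
        · (clear * - hsum hlogx hW hE0; gcongr)
        · rw [mul_div_assoc', div_le_one hL0]
          calc (Fintype.card κ : ℝ) * (sets R W ε (x ^ (1 / 5 : ℝ)) s).card ≤
                Fintype.card κ * (2 * x ^ (1 / 5 : ℝ)) := by (clear * - hcard; gcongr)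
            _ = (2 * Fintype.card κ : ℝ) * x ^ (1 / 5 : ℝ) := by ring
            _ ≤ x ^ (1 / 4 : ℝ) := e3
    _ = _ := by
        rw [mul_pow]
        ring

end Pool.Agent.Helper4.PL

end
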