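import Pool.Agent.Helper23.MT.L00_abcd0
import Pool.Agent.Helper23.MT.L00_acd0
import Pool.Agent.Helper23.MT.L00_acd4
import Pool.Agent.Helper23.MT.L00_bc0
import Pool.Agent.Helper23.MT.L00_c0
import Pool.Agent.Helper23.MT.L00_c2

/-!
Parts of Helper1.MT.Bounds, Helper66.PAP.Bad, Helper66.PU.Defs, Helper66.PU.Main, Helper4.PU.Exact, Helper4.PU.Inter, Helper66.PU.WeightPS, Helper4.AR.Subsets, Helper4.PL.Many, Helper4.PL.Square, Helper7.PU.Interval, Helper96.PU.Weight
-/

namespace Pool.Agent.Helper1.MT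
end Pool.Agent.Helper1.MT
namespace Pool.Agent.Helper28.MT
end Pool.Agent.Helper28.MT
namespace Pool.Agent.Helper4.PL
end Pool.Agent.Helper4.PL
namespace Pool.Agent.Helper44
end Pool.Agent.Helper44
namespace Pool.Agent.Helper66.PAP
end Pool.Agent.Helper66.PAP
namespace Pool.Agent.Helper66.PV
end Pool.Agent.Helper66.PV
namespace Pool.Agent.Helper96.CPAP
end Pool.Agent.Helper96.CPAP

section

set_option autoImplicit false

open Finset Filter

open scoped ArithmeticFunction.vonMangoldt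

namespace Pool.Agent.Helper1.MT

theorem NS_mod {x : ℝ} {W v n : ℕ} (h : n ∈ NS x W v) : n ≡ v [MOD W] := by
  unfold NS at h
  rw [mem_filter] at h
  exact h.2

end Pool.Agent.Helper1.MT

end

section

set_option autoImplicit false

open Finset Filter

namespace Pool.Agent.Helper66.PAP

open Pool.Agent.Helper1.MT

theorem card_PS_le (R W : ℕ) : Fintype.card (PS R W) ≤ R + 1 := by
  rw [Fintype.card_coe]
  calc (PS R W).card ≤ (range (R + 1)).card := Finset.card_le_card (Finset.filter_subset _ _)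
    _ = R + 1 := card_range _

end Pool.Agent.Helper66.PAP

end

section

set_option autoImplicit false

open Finset

namespace Pool.Agent.Helper66.PU

open Pool.Agent.Helper1.MT

open Pool.Agent.Helper66.PV

/-- PU-O: the one-dimensional sums, uniformly in `W`. -/
def OneDimW : Prop :=
  ∀ (K J D0 : ℕ) (A : ℝ), 0 < K → 10 * 2 ^ J ≤ 8 * K * (J + 2) → (K + 2) ^ 10 ≤ D0 → 0 < A →
    ∃ X0 : ℝ, 3 ≤ X0 ∧ ∀ x : ℝ, X0 ≤ x → ∀ W : ℕ, 0 < W →
    (∀ p : ℕ, p.Prime → p < D0 → p ∣ W) → (W : ℝ) ≤ Real.log x ^ A →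
    ∃ c : ℝ, (W.totient : ℝ) / (4 * W) ≤ c ∧ c ≤ (W.totient : ℝ) / W ∧
      Good K (wp (lev x) W) (tp (lev x) W) (gam K J) (2 ^ J / Kp K J) (2 / D0) ∧
      ((K : ℝ) - 1) * M1 (wp (lev x) W) (tp (lev x) W) (gam K J) ≤
        1 / 10 * (1 - 2 ^ J / Kp K J) * B1 (wp (lev x) W) (gam K J) ∧
      9 / 10 * (J + 2 : ℝ) / (2 * Kp K J) * (c * Real.log (lev x)) ≤
        A1 (wp (lev x) W) (gam K J) ∧
      A1 (wp (lev x) W) (gam K J) ≤
        11 / 10 * (J + 2 : ℝ) / (2 * Kp K J) * (c * Real.log (lev x)) ∧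
      9 / 10 / Kp K J * (c * Real.log (lev x)) ≤ B1 (wp (lev x) W) (gam K J) ∧
      B1 (wp (lev x) W) (gam K J) ≤ 16 / 10 / Kp K J * (c * Real.log (lev x)) ∧
      9 / 10 * (c * Real.log (lev x)) ≤ V0 (wp (lev x) W) (tp (lev x) W) ∧
      1 ≤ 9 / 10 / Kp K J * (c * Real.log (lev x))

/-- PU-I: the sets whose size is in a short interval, uniformly in `W`. -/
def IntervalSumU : Prop :=
  ∃ C : ℝ, 0 < C ∧ ∀ W : ℕ, 0 < W → ∀ R : ℕ, 3 ≤ R → ∀ q : PS R W,
    (∀ a : ℝ, a ≤ 1 → ∑ S ∈ (univ : Finset (Finset (PS R W))).filter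
      (fun S => a - tp R W q < T (tp R W) S ∧ T (tp R W) S ≤ a), ws (wp R W) S ≤
        (W.totient : ℝ) / W * Real.log (q : ℕ) +
          C * ((W : ℝ) / W.totient) * (1 + Real.log W)) ∧
    ∀ K J : ℕ, 0 < K → 10 * 2 ^ J ≤ 8 * K * (J + 2) →
      ∑ S : Finset (PS R W), (gam K J S ^ 2 - gam K J (insert q S) ^ 2) * ws (wp R W) S ≤
        (W.totient : ℝ) / W * Real.log (q : ℕ) +
          C * ((W : ℝ) / W.totient) * (1 + Real.log W)

/-- PU-W: the sieve weight of an integer `n` for which the `n + h i` have few prime factors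
outside `W`. -/
def WeightU : Prop :=
  ∃ C : ℝ, 0 < C ∧ ∀ (κ : Type) [Fintype κ] [DecidableEq κ] (R W : ℕ) (h : κ → ℕ)
    (y : (PS R W → Option κ) → ℝ) (n r : ℕ), 3 ≤ R → 0 < W → W ≤ R → (∀ c, |y c| ≤ 1) → 0 < n →
    (∀ i, oW W (n + h i) ≤ r) →
    sw h (lam (wp R W) y) n ≤
      ((2 : ℝ) ^ (Fintype.card κ * r) *
        (C * ((W.totient : ℝ) / W * Real.log R)) ^ Fintype.card κ) ^ 2

end Pool.Agent.Helper66.PU

end

section

set_option autoImplicit false

open Finset Filter

open ArithmeticFunction (cardFactors)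

namespace Pool.Agent.Helper66.PU

open Pool.Agent.Helper1.MT

open Pool.Agent.Helper66.PV

/-- The sum over the classes. -/
theorem sum_classes {k W0 d' : ℕ} {V : Finset ℕ} {x C : ℝ} {P : ℕ → Prop} [DecidablePred P]
    (hk : 1 ≤ k) (hW0 : 0 < W0) (hd' : 0 < d') (hco : Nat.Coprime W0 d') (hx : 1 < x) (hC : 0 < C)
    (hV : V ⊆ range (W0 * d')) (hcard : d'.totient ≤ V.card)
    (h : ∀ v ∈ V, C * (Real.log x / (W0 * d' : ℕ)) /
      (((W0 * d').totient : ℝ) / (W0 * d' : ℕ) * Real.log x) ^ k ≤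
        ∑ n ∈ (NS x (W0 * d') v).filter P, 1 / (n : ℝ)) :
    C / W0 * ((d' : ℝ) / d'.totient) ^ (k - 1) * Real.log x / Real.log x ^ k ≤
      ∑ n ∈ (Ioc ⌊x ^ (1 / 2 : ℝ)⌋₊ ⌊x⌋₊).filter P, 1 / (n : ℝ) := by
  classical
  have hlogx : 0 < Real.log x := Real.log_pos hx
  have hW0r : (0 : ℝ) < W0 := by exact_mod_cast hW0
  have hd'r : (0 : ℝ) < d' := by exact_mod_cast hd'
  have hφ0 : (0 : ℝ) < W0.totient := by exact_mod_cast Nat.totient_pos.2 hW0
  have hφ' : (0 : ℝ) < d'.totient := by exact_mod_cast Nat.totient_pos.2 hd'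
  -- disjoint classes
  have h1 : ∑ v ∈ V, ∑ n ∈ (NS x (W0 * d') v).filter P, 1 / (n : ℝ) ≤
      ∑ n ∈ (Ioc ⌊x ^ (1 / 2 : ℝ)⌋₊ ⌊x⌋₊).filter P, 1 / (n : ℝ) := by
    rw [← Finset.sum_biUnion]
    · apply Finset.sum_le_sum_of_subset_of_nonneg
      · intro n hn
        rw [mem_biUnion] at hn
        obtain ⟨v, -, hn⟩ := hn
        rw [mem_filter] at hn
        have h2 := hn.1
        unfold NS at h2
        rw [mem_filter] at h2
        rw [mem_filter]
        exact ⟨h2.1, hn.2⟩
      · intro n _ _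
        (clear * -; positivity)
    · intro v hv v' hv' hne
      rw [Function.onFun, Finset.disjoint_left]
      intro n hn hn'
      apply hne
      have e1 := NS_mod (mem_filter.1 hn).1
      have e2 := NS_mod (mem_filter.1 hn').1
      have e3 : v ≡ v' [MOD (W0 * d')] := e1.symm.trans e2
      have e4 := mem_range.1 (hV hv)
      have e5 := mem_range.1 (hV hv')
      exact Nat.ModEq.eq_of_lt_of_lt e3 e4 e5
  refine le_trans ?_ h1
  refine le_trans ?_ (Finset.sum_le_sum h)
  rw [Finset.sum_const, nsmul_eq_mul]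
  set q : ℝ := ((W0 * d').totient : ℝ) / (W0 * d' : ℕ) with hq
  have hq1 : q = (W0.totient : ℝ) / W0 * ((d'.totient : ℝ) / d') := by
    rw [hq, Nat.totient_mul hco]
    push_cast
    field_simp
  have hφd1 : (d'.totient : ℝ) / d' ≤ 1 := by
    rw [div_le_one hd'r]
    exact_mod_cast Nat.totient_le d'
  have hφW1 : (W0.totient : ℝ) / W0 ≤ 1 := by
    rw [div_le_one hW0r]
    exact_mod_cast Nat.totient_le W0
  have hq0 : 0 < q := by rw [hq1]; (clear * - hW0 hd'; positivity)
  have hqd : q ≤ (d'.totient : ℝ) / d' := by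
    rw [hq1]
    exact mul_le_of_le_one_left (by positivity) hφW1
  have hqk : q ^ k ≤ ((d'.totient : ℝ) / d') ^ k := pow_le_pow_left₀ hq0.le hqd k
  have hVr : (d'.totient : ℝ) ≤ V.card := by exact_mod_cast hcard
  have h2 : (d'.totient : ℝ) * (C * (Real.log x / (W0 * d' : ℕ)) / (q * Real.log x) ^ k) ≤
      V.card * (C * (Real.log x / (W0 * d' : ℕ)) / (q * Real.log x) ^ k) :=
    mul_le_mul_of_nonneg_right hVr (by positivity)
  refine le_trans ?_ h2
  have h3 : (d'.totient : ℝ) * (C * (Real.log x / (W0 * d' : ℕ)) / (q * Real.log x) ^ k) =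
      C / W0 * Real.log x / Real.log x ^ k * ((d'.totient : ℝ) / d' / q ^ k) := by
    push_cast
    rw [mul_pow]
    (clear * - hlogx hq0 hd' hW0 hC; field_simp)
  have h4 : C / W0 * ((d' : ℝ) / d'.totient) ^ (k - 1) * Real.log x / Real.log x ^ k =
      C / W0 * Real.log x / Real.log x ^ k * ((d' : ℝ) / d'.totient) ^ (k - 1) := by ring
  rw [h3, h4]
  refine mul_le_mul_of_nonneg_left ?_ (by (clear * - hC hW0 hlogx; positivity))
  have h5 : ((d' : ℝ) / d'.totient) ^ (k - 1) =
      (d'.totient : ℝ) / d' / ((d'.totient : ℝ) / d') ^ k := by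
    obtain ⟨m, rfl⟩ : ∃ m, k = m + 1 := ⟨k - 1, by omega⟩
    rw [Nat.add_sub_cancel, pow_succ, ← inv_div (d'.totient : ℝ) (d' : ℝ), inv_pow]
    (clear * - hd'; field_simp)
  rw [h5]
  exact div_le_div_of_nonneg_left (by positivity) (by positivity) hqk

end Pool.Agent.Helper66.PU

end

section

set_option autoImplicit false

open Finset

namespace Pool.Agent.Helper4.PU

open Pool.Agent.Helper1.MT (Le supp cls ws inv pr lam Qf T V0 PS wp tp Dv NS sw Expand PS_prime PS_large)

open Pool.Agent.Helper66.PAP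

open Pool.Agent.Helper4.PL

section Abstract

variable {ι ι' κ : Type}

variable [Fintype ι] [Fintype ι'] [Fintype κ] [DecidableEq ι] [DecidableEq ι'] [DecidableEq κ]

omit [Fintype κ] [DecidableEq κ] in
/-- Removing one point. -/
theorem V0_ext (e : Option ι' ≃ ι) (w t : ι → ℝ) (hw : ∀ p, 0 ≤ w p) (ht : ∀ p, 0 ≤ t p)
    (h1 : w (e none) ≤ 1) :
    V0 w t ≤ 2 * V0 (fun p => w (e (some p))) (fun p => t (e (some p))) := by
  classical
  set f : ι' ↪ ι := ⟨fun p => e (some p), fun p p' hpp => Option.some.inj (e.injective hpp)⟩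
    with hf
  set w' : ι' → ℝ := fun p => w (e (some p)) with hw'
  set t' : ι' → ℝ := fun p => t (e (some p)) with ht'
  set A' := (univ : Finset (Finset ι')).filter (fun S => T t' S ≤ 1) with hA'
  -- every set is the image of a set or the image with the additional point
  have hws : ∀ S : Finset ι', ws w (S.map f) = ws w' S := by
    intro S
    unfold ws
    rw [Finset.prod_map]
    rfl
  have hTs : ∀ S : Finset ι', T t (S.map f) = T t' S := by
    intro S
    unfold T
    rw [Finset.sum_map]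
    rfl
  have hnot : ∀ S : Finset ι', e none ∉ S.map f := by
    intro S hS
    rw [Finset.mem_map] at hS
    obtain ⟨p, _, hp⟩ := hS
    have := e.injective hp
    cases this
  have hcov : (univ : Finset (Finset ι)).filter (fun S => T t S ≤ 1) ⊆
      A'.image (fun S => S.map f) ∪ A'.image (fun S => insert (e none) (S.map f)) := by
    intro S hS
    rw [mem_filter] at hS
    set S' : Finset ι' := univ.filter (fun p => e (some p) ∈ S) with hS'
    have hsub : S'.map f ⊆ S := by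
      intro p hp
      rw [Finset.mem_map] at hp
      obtain ⟨p', hp', rfl⟩ := hp
      rw [hS', mem_filter] at hp'
      exact hp'.2
    have hT' : T t' S' ≤ 1 := by
      rw [← hTs]
      refine le_trans ?_ hS.2
      exact Finset.sum_le_sum_of_subset_of_nonneg hsub fun p _ _ => ht p
    have hback : ∀ p ∈ S, p ≠ e none → p ∈ S'.map f := by
      intro p hp hpe
      obtain ⟨o, rfl⟩ := e.surjective p
      cases o with
      | none => exact absurd rfl hpe
      | some p' =>
        rw [Finset.mem_map]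
        exact ⟨p', by rw [hS', mem_filter]; exact ⟨mem_univ _, hp⟩, rfl⟩
    rw [Finset.mem_union, Finset.mem_image, Finset.mem_image]
    by_cases hq : e none ∈ S
    · refine Or.inr ⟨S', mem_filter.2 ⟨mem_univ _, hT'⟩, ?_⟩
      apply Finset.Subset.antisymm
      · exact Finset.insert_subset hq hsub
      · intro p hp
        rw [Finset.mem_insert]
        by_cases hpe : p = e none
        · exact Or.inl hpe
        · exact Or.inr (hback p hp hpe)
    · refine Or.inl ⟨S', mem_filter.2 ⟨mem_univ _, hT'⟩, ?_⟩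
      apply Finset.Subset.antisymm
      · exact hsub
      · intro p hp
        exact hback p hp (fun hpe => hq (hpe ▸ hp))
  have hnn : ∀ S : Finset ι, 0 ≤ ws w S := fun S => Finset.prod_nonneg fun p _ => hw p
  calc V0 w t ≤ ∑ S ∈ A'.image (fun S => S.map f) ∪
          A'.image (fun S => insert (e none) (S.map f)), ws w S :=
        Finset.sum_le_sum_of_subset_of_nonneg hcov fun S _ _ => hnn S
    _ ≤ ∑ S ∈ A'.image (fun S => S.map f), ws w S +
          ∑ S ∈ A'.image (fun S => insert (e none) (S.map f)), ws w S := by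
        rw [← Finset.sum_union_inter]
        have := Finset.sum_nonneg (s := A'.image (fun S => S.map f) ∩
          A'.image (fun S => insert (e none) (S.map f))) (fun S _ => hnn S)
        (clear * - this; linarith)
    _ ≤ ∑ S ∈ A', ws w (S.map f) + ∑ S ∈ A', ws w (insert (e none) (S.map f)) :=
        add_le_add (Finset.sum_image_le_of_nonneg fun S _ => hnn S)
          (Finset.sum_image_le_of_nonneg fun S _ => hnn S)
    _ ≤ ∑ S ∈ A', ws w' S + ∑ S ∈ A', ws w' S := by
        apply add_le_add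
        · exact le_of_eq (Finset.sum_congr rfl fun S _ => hws S)
        · refine Finset.sum_le_sum fun S _ => ?_
          unfold ws at *
          rw [Finset.prod_insert (hnot S), hws S]
          have h2 : 0 ≤ ∏ p ∈ S, w' p := Finset.prod_nonneg fun p _ => hw _
          (clear * - h1 h2; nlinarith)
    _ = 2 * V0 w' t' := by
        unfold V0
        ring

end Abstract

section Arith

variable {κ : Type} [Fintype κ] [DecidableEq κ] {R W : ℕ}

/-- The additional colour does not occur. -/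
theorem sw_extra {h : κ → ℕ} {t n : ℕ} {f : (PS R W → Option κ) → ℝ}
    {y' : (PS R W → Option (Option κ)) → ℝ} (bad : Finset (PS R W))
    (hbad : ∀ p : PS R W, (p : ℕ) ∣ n + t → p ∈ bad)
    (hy' : ∀ c, y' c ≠ 0 → ∀ p ∈ bad, c p ≠ some none)
    (hf : ∀ c : PS R W → Option κ, lam (wp R W) y' (fun p => (c p).map some) = f c) :
    sw (Pool.Agent.Helper1.MT.ext h t) (lam (wp R W) y') n = sw h f n := by
  classical
  unfold sw
  congr 1
  have h1 : ∑ c ∈ (univ.filter (fun c : PS R W → Option (Option κ) =>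
      Dv (Pool.Agent.Helper1.MT.ext h t) c n)), lam (wp R W) y' c =
      ∑ c ∈ (univ.filter (fun c : PS R W → Option κ => Dv h c n)).image
        (fun c p => (c p).map some), lam (wp R W) y' c := by
    symm
    apply Finset.sum_subset
    · intro c hc
      rw [mem_image] at hc
      obtain ⟨c', hc', rfl⟩ := hc
      rw [mem_filter] at hc' ⊢
      refine ⟨mem_univ _, ?_⟩
      intro p o hpo
      change (c' p).map some = some o at hpo
      cases hcp : c' p with
      | none => rw [hcp] at hpo; simp at hpo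
      | some i =>
        rw [hcp] at hpo
        simp only [Option.map_some, Option.some.injEq] at hpo
        subst hpo
        exact hc'.2 p i hcp
    · intro c hc hcn
      rw [mem_filter] at hc
      by_contra hne
      obtain ⟨c', hc', hcc⟩ := Pool.Agent.Helper18.MT.lam_ne_zero' hne
      have hns : ∀ p, c p ≠ some none := by
        intro p hcp
        have h2 : (p : ℕ) ∣ n + t := hc.2 p none hcp
        exact hy' c' hc' p (hbad p h2) (hcc p none hcp)
      apply hcn
      rw [mem_image]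
      refine ⟨fun p => (c p).join, ?_, ?_⟩
      · rw [mem_filter]
        refine ⟨mem_univ _, ?_⟩
        intro p i hpi
        refine hc.2 p (some i) ?_
        change (c p).join = some i at hpi
        cases hcp : c p with
        | none => rw [hcp] at hpi; simp at hpi
        | some o =>
          rw [hcp] at hpi
          simp only [Option.join_some] at hpi
          rw [hpi]
      · funext p
        change ((c p).join).map some = c p
        cases hcp : c p with
        | none => simp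
        | some o =>
          cases o with
          | none => exact absurd hcp (hns p)
          | some i => simp
  rw [h1, Finset.sum_image]
  · exact Finset.sum_congr rfl fun c _ => hf c
  · intro c _ c' _ hcc
    funext p
    exact Option.map_injective (Option.some_injective _) (congrFun hcc p)

theorem one_le_V0 {ι : Type} [Fintype ι] [DecidableEq ι] {w t : ι → ℝ} (hw : ∀ p, 0 ≤ w p) :
    1 ≤ V0 w t := by
  have h1 : (∅ : Finset ι) ∈ (univ : Finset (Finset ι)).filter (fun S => T t S ≤ 1) := by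
    rw [mem_filter]
    refine ⟨mem_univ _, ?_⟩
    simp [T]
  calc (1 : ℝ) = ws w (∅ : Finset ι) := by simp [ws]
    _ ≤ V0 w t := Finset.single_le_sum (f := fun S => ws w S)
      (fun S _ => Finset.prod_nonneg fun p _ => hw p) h1

end Arith

end Pool.Agent.Helper4.PU

end

section

set_option autoImplicit false

open Finset Filter

open ArithmeticFunction (cardFactors)

namespace Pool.Agent.Helper4.PU

open Pool.Agent.Helper1.MT (Le supp cls ws V0 B1 PS wp tp NS lev sw lam Expand PS_prime PS_large NS_mod T lev_tendsto lev_log)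

open Pool.Agent.Helper66.PV (SetN)

theorem inter_ev (k r : ℕ) (C4 : ℝ) (hr : 1 ≤ r) : ∀ᶠ x : ℝ in atTop,
    9 ≤ x ∧ 3 ≤ lev x ∧ Real.log x ≤ 82 * Real.log (lev x) ∧
    4 * Real.exp (4 * ((k : ℝ) + 1)) ^ 2 * x ^ (1 / 4 : ℝ) ≤ x ^ (53 / 162 : ℝ) ∧
    Real.log x ^ 2 ≤ (lev x : ℝ) ^ (1 / (r : ℝ)) ∧
    Real.log x ^ 2 * lev x ≤ x ^ (23 / 54 : ℝ) ∧ (3 : ℝ) ^ r ≤ lev x ∧
    (2 : ℝ) ≤ (lev x : ℝ) ^ (1 / (r : ℝ)) ∧
    Real.log (Real.log (lev x)) + C4 ≤ 2 * Real.log (Real.log x) ∧
    k * Real.log x * (2 ^ r * lev x / x ^ (1 / 4 : ℝ)) ≤ 1 ∧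
    1 ≤ Real.log (Real.log x) ∧ 0 ≤ Real.log (Real.log (lev x)) + C4 := by
  have hr0 : (0 : ℝ) < r := by exact_mod_cast hr
  have hlev : Tendsto (fun x : ℝ => (lev x : ℝ)) atTop atTop :=
    tendsto_natCast_atTop_atTop.comp lev_tendsto
  have hll : Tendsto (fun x : ℝ => Real.log (Real.log x)) atTop atTop :=
    Real.tendsto_log_atTop.comp Real.tendsto_log_atTop
  have ev4 : ∀ᶠ x : ℝ in atTop, 4 * Real.exp (4 * ((k : ℝ) + 1)) ^ 2 * x ^ (1 / 4 : ℝ) ≤
      x ^ (53 / 162 : ℝ) := by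
    have h1 : Tendsto (fun x : ℝ => x ^ (53 / 162 - 1 / 4 : ℝ)) atTop atTop :=
      tendsto_rpow_atTop (by norm_num)
    filter_upwards [h1.eventually_ge_atTop (4 * Real.exp (4 * ((k : ℝ) + 1)) ^ 2),
      eventually_gt_atTop 0] with x hx hx0
    calc 4 * Real.exp (4 * ((k : ℝ) + 1)) ^ 2 * x ^ (1 / 4 : ℝ) ≤
          x ^ (53 / 162 - 1 / 4 : ℝ) * x ^ (1 / 4 : ℝ) :=
          mul_le_mul_of_nonneg_right hx (by (clear * - hx0; positivity))
      _ = x ^ (53 / 162 : ℝ) := by rw [← Real.rpow_add hx0]; norm_num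
  -- powers of the logarithm
  have hpow : ∀ (c : ℝ) (m : ℕ) (δ : ℝ), 0 < c → 0 < δ → ∀ᶠ y : ℝ in atTop,
      c * Real.log y ^ m ≤ y ^ δ := by
    intro c m δ hc hδ
    have h2 : (fun t : ℝ => Real.log t ^ m) =o[atTop] fun t : ℝ => t ^ δ := by
      simpa only [← Real.rpow_natCast] using isLittleO_log_rpow_rpow_atTop (m : ℝ) hδ
    have h3 := h2.bound (show 0 < 1 / c by (clear * - hc; positivity))
    filter_upwards [h3, eventually_ge_atTop (1 : ℝ)] with y hy hy1
    have := Real.log_nonneg hy1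
    rw [Real.norm_eq_abs, Real.norm_eq_abs, abs_of_nonneg (by (clear * - this; positivity)),
      abs_of_nonneg (by positivity)] at hy
    calc c * Real.log y ^ m ≤ c * (1 / c * y ^ δ) := mul_le_mul_of_nonneg_left hy hc.le
      _ = y ^ δ := by (clear * - hc hy1; field_simp)
  have ev5 : ∀ᶠ x : ℝ in atTop, Real.log x ^ 2 ≤ (lev x : ℝ) ^ (1 / (r : ℝ)) := by
    have h1 := hlev.eventually (hpow (82 ^ 2) 2 (1 / (r : ℝ)) (by norm_num) (by positivity))
    filter_upwards [h1, lev_log, eventually_ge_atTop (1 : ℝ)] with x hx hx2 hx3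
    have h0 := Real.log_nonneg hx3
    calc Real.log x ^ 2 ≤ (82 * Real.log (lev x)) ^ 2 := pow_le_pow_left₀ h0 hx2 2
      _ = 82 ^ 2 * Real.log (lev x) ^ 2 := by ring
      _ ≤ _ := hx
  have ev6 : ∀ᶠ x : ℝ in atTop, Real.log x ^ 2 * lev x ≤ x ^ (23 / 54 : ℝ) := by
    filter_upwards [hpow 1 2 (23 / 54 - 1 / 81) one_pos (by norm_num), eventually_gt_atTop 0]
      with x hx hx0
    have hRx : (lev x : ℝ) ≤ x ^ (1 / 81 : ℝ) := Nat.floor_le (by positivity)
    rw [one_mul] at hx
    calc Real.log x ^ 2 * lev x ≤ x ^ (23 / 54 - 1 / 81 : ℝ) * x ^ (1 / 81 : ℝ) :=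
          mul_le_mul hx hRx (by (clear * -; positivity)) (by positivity)
      _ = x ^ (23 / 54 : ℝ) := by rw [← Real.rpow_add hx0]; norm_num
  have ev10 : ∀ᶠ x : ℝ in atTop, k * Real.log x * (2 ^ r * lev x / x ^ (1 / 4 : ℝ)) ≤ 1 := by
    filter_upwards [hpow ((k : ℝ) * 2 ^ r + 1) 1 (1 / 4 - 1 / 81) (by (clear * -; positivity)) (by norm_num),
      eventually_gt_atTop 0, eventually_ge_atTop (1 : ℝ)] with x hx hx0 hx1
    have h0 := Real.log_nonneg hx1
    have hRx : (lev x : ℝ) ≤ x ^ (1 / 81 : ℝ) := Nat.floor_le (by positivity)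
    have hq : 0 < x ^ (1 / 4 : ℝ) := by positivity
    rw [pow_one] at hx
    rw [mul_div_assoc', div_le_one hq]
    calc k * Real.log x * (2 ^ r * lev x) ≤ ((k : ℝ) * 2 ^ r + 1) * Real.log x * lev x := by
          have h3 : 0 ≤ Real.log x * lev x := by (clear * - h0; positivity)
          (clear * - h3; nlinarith)
      _ ≤ x ^ (1 / 4 - 1 / 81 : ℝ) * x ^ (1 / 81 : ℝ) :=
          mul_le_mul hx hRx (by (clear * -; positivity)) (by positivity)
      _ = x ^ (1 / 4 : ℝ) := by rw [← Real.rpow_add hx0]; norm_num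
  have ev9 : ∀ᶠ x : ℝ in atTop,
      Real.log (Real.log (lev x)) + C4 ≤ 2 * Real.log (Real.log x) := by
    have hlogl : Tendsto (fun x : ℝ => Real.log (lev x)) atTop atTop :=
      Real.tendsto_log_atTop.comp hlev
    filter_upwards [hll.eventually_ge_atTop C4, hlogl.eventually_ge_atTop 1,
      eventually_ge_atTop (1 : ℝ), hlev.eventually_ge_atTop 1] with x hx hx1 hx2 hx3
    have hRx : (lev x : ℝ) ≤ x := by
      calc (lev x : ℝ) ≤ x ^ (1 / 81 : ℝ) := Nat.floor_le (by positivity)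
        _ ≤ x ^ (1 : ℝ) := Real.rpow_le_rpow_of_exponent_le hx2 (by norm_num)
        _ = x := Real.rpow_one x
    have h1 : Real.log (lev x) ≤ Real.log x := Real.log_le_log (by (clear * - hx3; linarith)) hRx
    have h2 : Real.log (Real.log (lev x)) ≤ Real.log (Real.log x) :=
      Real.log_le_log (by (clear * - hx1; linarith)) h1
    (clear * - hx h2; linarith)
  have ev12 : ∀ᶠ x : ℝ in atTop, 0 ≤ Real.log (Real.log (lev x)) + C4 := by
    have h1 : Tendsto (fun x : ℝ => Real.log (Real.log (lev x))) atTop atTop :=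
      Real.tendsto_log_atTop.comp (Real.tendsto_log_atTop.comp hlev)
    filter_upwards [h1.eventually_ge_atTop (-C4)] with x hx
    linarith
  exact (eventually_ge_atTop (9 : ℝ)).and ((lev_tendsto.eventually_ge_atTop 3).and
    (lev_log.and (ev4.and (ev5.and (ev6.and ((hlev.eventually_ge_atTop _).and
    ((((tendsto_rpow_atTop (by positivity)).comp hlev).eventually_ge_atTop 2).and
    (ev9.and (ev10.and ((hll.eventually_ge_atTop 1).and ev12))))))))))

end Pool.Agent.Helper4.PU

end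

section

set_option autoImplicit false

open Finset

namespace Pool.Agent.Helper66.PU

open Pool.Agent.Helper1.MT

theorem wp_nonneg' (R W : ℕ) (p : PS R W) : 0 ≤ wp R W p := by
  unfold wp
  (clear * -; positivity)

/-- The prime divisors of `m` among the primes of the sieve. -/
theorem card_div_le (R W m r : ℕ) (hr : ((PS R W).filter (fun p => p ∣ m)).card ≤ r) :
    ((univ : Finset (PS R W)).filter (fun p : PS R W => (p : ℕ) ∣ m)).card ≤ r := by
  refine le_trans ?_ hr
  have h1 : (((univ : Finset (PS R W)).filter (fun p : PS R W => (p : ℕ) ∣ m)).image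
      (fun p : PS R W => (p : ℕ))) ⊆ (PS R W).filter (fun p => p ∣ m) := by
    intro q hq
    obtain ⟨p, hp, rfl⟩ := Finset.mem_image.1 hq
    have h2 := (Finset.mem_filter.1 hp).2
    exact Finset.mem_filter.2 ⟨p.2, h2⟩
  refine le_trans (le_of_eq ?_) (Finset.card_le_card h1)
  rw [Finset.card_image_of_injective _ Subtype.val_injective]

/-- The number of colourings that are compatible with `n`. -/
theorem card_Dv_le {κ : Type} [Fintype κ] [DecidableEq κ] (R W : ℕ) (h : κ → ℕ)
    (n r : ℕ) (hr : ∀ i, ((PS R W).filter (fun p => p ∣ n + h i)).card ≤ r)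
    (s : Finset (PS R W → Option κ)) (hs : ∀ c ∈ s, Dv h c n) :
    s.card ≤ 2 ^ (Fintype.card κ * r) := by
  classical
  have h1 : s.image (fun c : PS R W → Option κ => fun i : κ => cls c i) ⊆
      Fintype.piFinset (fun i : κ =>
        ((univ : Finset (PS R W)).filter (fun p : PS R W => (p : ℕ) ∣ n + h i)).powerset) := by
    intro f hf
    obtain ⟨c, hc, rfl⟩ := Finset.mem_image.1 hf
    rw [Fintype.mem_piFinset]
    intro i
    rw [Finset.mem_powerset]
    intro p hp
    rw [Finset.mem_filter]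
    exact ⟨Finset.mem_univ _, hs c hc p i (Pool.Agent.Helper90.MT.mem_cls.1 hp)⟩
  have h2 : s.card = (s.image (fun c : PS R W → Option κ => fun i : κ => cls c i)).card :=
    (Finset.card_image_of_injective _ Pool.Agent.Helper90.MT.cls_inj).symm
  rw [h2]
  refine le_trans (Finset.card_le_card h1) ?_
  rw [Fintype.card_piFinset]
  calc ∏ i : κ, (((univ : Finset (PS R W)).filter (fun p : PS R W => (p : ℕ) ∣ n + h i)).powerset).card
      ≤ ∏ _i : κ, 2 ^ r := by
        refine Finset.prod_le_prod' fun i _ => ?_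
        rw [Finset.card_powerset]
        exact Nat.pow_le_pow_right (by norm_num) (card_div_le R W (n + h i) r (hr i))
    _ = 2 ^ (Fintype.card κ * r) := by
        rw [Finset.prod_const, Finset.card_univ, ← pow_mul, mul_comm]

end Pool.Agent.Helper66.PU

end

section

set_option autoImplicit false

open Finset

namespace Pool.Agent.Helper4.AR

open Pool.Agent.Helper44 Pool.Agent.Helper96.CPAP

/-- `∑_A ∏_{p ∈ A} 1/p ≤ (∑_{w < p ≤ z} 1/p)^s / s!` (`es`, `es_le_pow_div_factorial` in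
Helper44/Bonferroni or BrunHooley) and `sum_primesUpTo_bounds` for the primes in `(w, z]`. -/
theorem large_sum : ∃ C : ℝ, 0 < C ∧ ∀ w z : ℝ, 2 ≤ w → w ≤ z → ∀ (s : ℕ)
    (T : Finset (Finset ℕ)),
    (∀ A ∈ T, A.card = s ∧ ∀ p ∈ A, p.Prime ∧ w < p ∧ (p : ℝ) ≤ z) →
    ∑ A ∈ T, ∏ p ∈ A, (1 / (p : ℝ)) ≤
      (Real.log (Real.log z / Real.log w) + C) ^ s / (s.factorial : ℝ) := by
  classical
  obtain ⟨C, hC, hM⟩ := sum_primesUpTo_bounds
  refine ⟨2 * C, by positivity, ?_⟩
  intro w z hw hwz s T hT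
  have hz : 2 ≤ z := hw.trans hwz
  have hlw : 0 < Real.log w := Real.log_pos (by linarith)
  have hlz : 0 < Real.log z := Real.log_pos (by linarith)
  have hsub : primesUpTo w ⊆ primesUpTo z := by
    intro q hq
    rw [mem_primesUpTo (by linarith)] at hq ⊢
    exact ⟨hq.1, hq.2.trans hwz⟩
  set B := primesUpTo z \ primesUpTo w with hB
  have hsum : ∑ q ∈ B, (1 : ℝ) / q ≤ Real.log (Real.log z / Real.log w) + 2 * C := by
    have h1 := abs_le.1 (hM z hz)
    have h2 := abs_le.1 (hM w hw)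
    have h3 : ∑ q ∈ B, (1 : ℝ) / q + ∑ q ∈ primesUpTo w, (1 : ℝ) / q =
        ∑ q ∈ primesUpTo z, (1 : ℝ) / q := by
      rw [hB]
      exact Finset.sum_sdiff hsub
    rw [Real.log_div hlz.ne' hlw.ne']
    linarith
  have h0 : 0 ≤ ∑ q ∈ B, (1 : ℝ) / q := Finset.sum_nonneg fun q _ => by positivity
  calc ∑ A ∈ T, ∏ p ∈ A, (1 / (p : ℝ))
      ≤ ∑ A ∈ B.powerset.filter (fun I => I.card = s), ∏ p ∈ A, (1 / (p : ℝ)) := by
        apply Finset.sum_le_sum_of_subset_of_nonneg
        · intro A hA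
          obtain ⟨h1, h2⟩ := hT A hA
          rw [Finset.mem_filter, Finset.mem_powerset]
          refine ⟨fun p hp => ?_, h1⟩
          obtain ⟨h3, h4, h5⟩ := h2 p hp
          rw [hB, Finset.mem_sdiff, mem_primesUpTo (by linarith), mem_primesUpTo (by linarith)]
          exact ⟨⟨h3, h5⟩, fun h => absurd h.2 (not_le.2 h4)⟩
        · intro A _ _
          exact Finset.prod_nonneg fun p _ => by positivity
    _ = es B s (fun p : ℕ => 1 / (p : ℝ)) := by
        rw [es_eq_sum_filter]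
        simp only [one_mul]
    _ ≤ (∑ q ∈ B, (1 : ℝ) / q) ^ s / (s.factorial : ℝ) :=
        es_le_pow_div_factorial _ _ (fun i _ => by positivity) s
    _ ≤ (Real.log (Real.log z / Real.log w) + 2 * C) ^ s / (s.factorial : ℝ) := by
        apply div_le_div_of_nonneg_right _ (by positivity)
        exact pow_le_pow_left₀ h0 hsum s

end Pool.Agent.Helper4.AR

end

section

set_option autoImplicit false

open Finset Filter

namespace Pool.Agent.Helper4.PL

open Pool.Agent.Helper1.MT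

open Pool.Agent.Helper66.PAP

/-- The facts on large `x` that are used. -/
theorem many_ev (K W s : ℕ) {ε : ℝ} (hε0 : 0 < ε) {κ : Type} [Fintype κ] (h : κ → ℕ) :
    ∀ᶠ x : ℝ in atTop, 4 * Real.exp (4 * K) ^ 2 * x ^ (1 / 4 : ℝ) ≤ x ^ (53 / 162 : ℝ) ∧
      (W : ℝ) * x ^ (1 / 5 : ℝ) ≤ x ^ (23 / 54 : ℝ) ∧
      (2 * K : ℝ) * x ^ (1 / 5 : ℝ) ≤ x ^ (1 / 4 : ℝ) ∧
      (∀ i, x + h i < (x ^ (1 / 5 : ℝ)) ^ 6) ∧ (3 : ℝ) ^ s ≤ lev x ∧
      (2 : ℝ) ≤ (lev x : ℝ) ^ ε ∧ 3 ≤ lev x ∧ 9 ≤ x := by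
  have hlev : Tendsto (fun x : ℝ => (lev x : ℝ)) atTop atTop :=
    tendsto_natCast_atTop_atTop.comp lev_tendsto
  have ev1 : ∀ᶠ x : ℝ in atTop, 4 * Real.exp (4 * K) ^ 2 * x ^ (1 / 4 : ℝ) ≤
      x ^ (53 / 162 : ℝ) := by
    have h1 : Tendsto (fun x : ℝ => x ^ (53 / 162 - 1 / 4 : ℝ)) atTop atTop :=
      tendsto_rpow_atTop (by norm_num)
    filter_upwards [h1.eventually_ge_atTop (4 * Real.exp (4 * K) ^ 2), eventually_gt_atTop 0]
      with x hx hx0
    calc 4 * Real.exp (4 * K) ^ 2 * x ^ (1 / 4 : ℝ) ≤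
          x ^ (53 / 162 - 1 / 4 : ℝ) * x ^ (1 / 4 : ℝ) :=
          mul_le_mul_of_nonneg_right hx (by positivity)
      _ = x ^ (53 / 162 : ℝ) := by rw [← Real.rpow_add hx0]; norm_num
  have ev2 : ∀ᶠ x : ℝ in atTop, (W : ℝ) * x ^ (1 / 5 : ℝ) ≤ x ^ (23 / 54 : ℝ) := by
    have h1 : Tendsto (fun x : ℝ => x ^ (23 / 54 - 1 / 5 : ℝ)) atTop atTop :=
      tendsto_rpow_atTop (by norm_num)
    filter_upwards [h1.eventually_ge_atTop (W : ℝ), eventually_gt_atTop 0] with x hx hx0
    calc (W : ℝ) * x ^ (1 / 5 : ℝ) ≤ x ^ (23 / 54 - 1 / 5 : ℝ) * x ^ (1 / 5 : ℝ) :=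
          mul_le_mul_of_nonneg_right hx (by positivity)
      _ = x ^ (23 / 54 : ℝ) := by rw [← Real.rpow_add hx0]; norm_num
  have ev3 : ∀ᶠ x : ℝ in atTop, (2 * K : ℝ) * x ^ (1 / 5 : ℝ) ≤ x ^ (1 / 4 : ℝ) := by
    have h1 : Tendsto (fun x : ℝ => x ^ (1 / 4 - 1 / 5 : ℝ)) atTop atTop :=
      tendsto_rpow_atTop (by norm_num)
    filter_upwards [h1.eventually_ge_atTop (2 * K : ℝ), eventually_gt_atTop 0] with x hx hx0
    calc (2 * K : ℝ) * x ^ (1 / 5 : ℝ) ≤ x ^ (1 / 4 - 1 / 5 : ℝ) * x ^ (1 / 5 : ℝ) :=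
          mul_le_mul_of_nonneg_right hx (by positivity)
      _ = x ^ (1 / 4 : ℝ) := by rw [← Real.rpow_add hx0]; norm_num
  have ev4 : ∀ᶠ x : ℝ in atTop, ∀ i, x + h i < (x ^ (1 / 5 : ℝ)) ^ 6 := by
    rw [eventually_all]
    intro i
    have h1 : Tendsto (fun x : ℝ => x ^ (1 / 5 : ℝ)) atTop atTop :=
      tendsto_rpow_atTop (by norm_num)
    filter_upwards [h1.eventually_ge_atTop 3, eventually_ge_atTop (h i : ℝ),
      eventually_gt_atTop 0] with x hx hxi hx0
    have h2 : (x ^ (1 / 5 : ℝ)) ^ 6 = x * x ^ (1 / 5 : ℝ) := by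
      have h3 : (x ^ (1 / 5 : ℝ)) ^ 5 = x := by
        rw [← Real.rpow_natCast, ← Real.rpow_mul hx0.le]
        norm_num
      rw [pow_succ, h3]
    rw [h2]
    (clear * - hxi hx0 hx; nlinarith)
  exact ev1.and (ev2.and (ev3.and (ev4.and ((hlev.eventually_ge_atTop _).and
    ((((tendsto_rpow_atTop hε0).comp hlev).eventually_ge_atTop 2).and
    ((lev_tendsto.eventually_ge_atTop 3).and (eventually_ge_atTop (9 : ℝ))))))))

end Pool.Agent.Helper4.PL

end

section

set_option autoImplicit false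

open Finset Filter

namespace Pool.Agent.Helper4.PL

open Pool.Agent.Helper1.MT

open Pool.Agent.Helper66.PAP

/-- Some `n + h i` is divisible by the square of a large prime of the sieve. -/
def Sqr {κ : Type} (h : κ → ℕ) (R W : ℕ) (ε : ℝ) (n : ℕ) : Prop :=
  ∃ i, ∃ q : PS R W, ε < tp R W q ∧ (q : ℕ) ^ 2 ∣ n + h i

/-- The `n` with `m ∣ n + a`. -/
theorem sum_dvd_le {x : ℝ} (hx : 9 ≤ x) (W v a m : ℕ) (hm : 0 < m)
    (hmx : (m : ℝ) ≤ x ^ (1 / 2 : ℝ)) :
    ∑ n ∈ (NS x W v).filter (fun n => m ∣ n + a), (1 : ℝ) / n ≤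
      Real.log x / (2 * m) + 4 / x ^ (1 / 2 : ℝ) := by
  have h1 := (abs_le.1 (Pool.Agent.Helper74.MT.class_sum_real hx m ((m - 1) * a) hm hmx)).2
  have h2 : ∑ n ∈ (NS x W v).filter (fun n => m ∣ n + a), (1 : ℝ) / n ≤
      ∑ n ∈ (Ioc ⌊x ^ (1 / 2 : ℝ)⌋₊ ⌊x⌋₊).filter (fun n => n ≡ (m - 1) * a [MOD m]),
        (1 : ℝ) / n := by
    apply Finset.sum_le_sum_of_subset_of_nonneg
    · intro n hn
      unfold NS at hn
      rw [mem_filter, mem_filter] at hn
      rw [mem_filter]
      exact ⟨hn.1.1, modEq_of_dvd hm hn.2⟩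
    · intro n _ _
      (clear * -; positivity)
  (clear * - h1 h2; linarith)

/-- The union bound. -/
theorem square_union {κ : Type} [Fintype κ] (h : κ → ℕ) (R W v : ℕ) (ε x : ℝ)
    [DecidablePred (Sqr h R W ε)] :
    ∑ n ∈ (NS x W v).filter (Sqr h R W ε), (1 : ℝ) / n ≤
      ∑ _i : κ, ∑ q ∈ univ.filter (fun q : PS R W => ε < tp R W q),
        ∑ n ∈ (NS x W v).filter (fun n => (q : ℕ) ^ 2 ∣ n + h _i), (1 : ℝ) / n := by
  classical
  have hnn : ∀ (q : PS R W) (i : κ) (n : ℕ),
      0 ≤ if (q : ℕ) ^ 2 ∣ n + h i then (1 : ℝ) / n else 0 := by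
    intro q i n
    split_ifs
    · (clear * -; positivity)
    · exact le_rfl
  have h1 : ∀ n ∈ (NS x W v).filter (Sqr h R W ε), (1 : ℝ) / n ≤
      ∑ i : κ, ∑ q ∈ univ.filter (fun q : PS R W => ε < tp R W q),
        if (q : ℕ) ^ 2 ∣ n + h i then (1 : ℝ) / n else 0 := by
    intro n hn
    obtain ⟨i, q, hq, hi⟩ := (mem_filter.1 hn).2
    calc (1 : ℝ) / n = if (q : ℕ) ^ 2 ∣ n + h i then (1 : ℝ) / n else 0 := by rw [if_pos hi]
      _ ≤ ∑ q ∈ univ.filter (fun q : PS R W => ε < tp R W q),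
            if (q : ℕ) ^ 2 ∣ n + h i then (1 : ℝ) / n else 0 :=
          Finset.single_le_sum (f := fun q : PS R W =>
            if (q : ℕ) ^ 2 ∣ n + h i then (1 : ℝ) / n else 0)
            (fun q _ => hnn q i n) (mem_filter.2 ⟨mem_univ q, hq⟩)
      _ ≤ _ := Finset.single_le_sum (f := fun i : κ =>
            ∑ q ∈ univ.filter (fun q : PS R W => ε < tp R W q),
            if (q : ℕ) ^ 2 ∣ n + h i then (1 : ℝ) / n else 0)
            (fun i _ => Finset.sum_nonneg fun q _ => hnn q i n) (mem_univ i)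
  refine (Finset.sum_le_sum h1).trans ?_
  refine (Finset.sum_le_sum_of_subset_of_nonneg (Finset.filter_subset _ _) ?_).trans ?_
  · intro n _ _
    exact Finset.sum_nonneg fun i _ => Finset.sum_nonneg fun q _ => hnn q i n
  · rw [Finset.sum_comm]
    refine Finset.sum_le_sum fun i _ => ?_
    rw [Finset.sum_comm]
    refine Finset.sum_le_sum fun q _ => ?_
    rw [Finset.sum_filter]

/-- The estimate for large `x`. -/
theorem square_ev {C ε M : ℝ} (hC : 0 < C) (hε : 0 < ε) (hM : 0 < M) (K : ℕ) :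
    ∀ᶠ x : ℝ in atTop, M * Real.log (lev x) ^ (2 * K) *
      (Real.log x * (Real.log (Real.log (lev x)) + C) / (lev x : ℝ) ^ ε +
        8 * lev x / x ^ (1 / 2 : ℝ)) ≤ 1 := by
  have hlev : Tendsto (fun x : ℝ => (lev x : ℝ)) atTop atTop :=
    tendsto_natCast_atTop_atTop.comp lev_tendsto
  have hlog : Tendsto (fun x : ℝ => Real.log (lev x)) atTop atTop :=
    Real.tendsto_log_atTop.comp hlev
  -- `(log R)^(2K+2) ≤ c R^ε`
  have h1 : ∀ᶠ x : ℝ in atTop, Real.log (lev x) ^ (2 * K + 2) ≤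
      1 / (2 * M * 82 * (1 + C)) * (lev x : ℝ) ^ ε := by
    have h2 : (fun t : ℝ => Real.log t ^ (2 * K + 2)) =o[atTop] fun t : ℝ => t ^ ε :=
      by simpa only [← Real.rpow_natCast] using
        isLittleO_log_rpow_rpow_atTop ((2 * K + 2 : ℕ) : ℝ) hε
    have h3 := h2.bound (show 0 < 1 / (2 * M * 82 * (1 + C)) by (clear * - hM hC; positivity))
    filter_upwards [hlev.eventually h3, hlog.eventually_ge_atTop 1,
      hlev.eventually_ge_atTop 1] with x hx hx1 hx2
    rw [Real.norm_eq_abs, Real.norm_eq_abs, abs_of_nonneg (by (clear * - hx1; positivity)),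
      abs_of_nonneg (by (clear * - hx2; positivity))] at hx
    exact hx
  have h4 : ∀ᶠ x : ℝ in atTop, Real.log x ^ (2 * K) ≤
      1 / (2 * M * 8) * x ^ (1 / 3 : ℝ) := by
    have h2 : (fun t : ℝ => Real.log t ^ (2 * K)) =o[atTop] fun t : ℝ => t ^ (1 / 3 : ℝ) :=
      by simpa only [← Real.rpow_natCast] using
        isLittleO_log_rpow_rpow_atTop ((2 * K : ℕ) : ℝ) (show (0 : ℝ) < 1 / 3 by norm_num)
    have h3 := h2.bound (show 0 < 1 / (2 * M * 8) by (clear * - hM; positivity))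
    filter_upwards [h3, eventually_ge_atTop (1 : ℝ)] with x hx hx1
    have := Real.log_nonneg hx1
    rw [Real.norm_eq_abs, Real.norm_eq_abs, abs_of_nonneg (by (clear * - this; positivity)),
      abs_of_nonneg (by positivity)] at hx
    exact hx
  filter_upwards [h1, h4, hlog.eventually_ge_atTop 1, lev_log, hlev.eventually_ge_atTop 1,
    eventually_ge_atTop (1 : ℝ)] with x e1 e2 e3 e4 e5 e6
  have hx0 : (0 : ℝ) < x := by (clear * - e6; linarith)
  have hRx : (lev x : ℝ) ≤ x ^ (1 / 81 : ℝ) := Nat.floor_le (by positivity)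
  have hRx' : (lev x : ℝ) ≤ x := by
    refine hRx.trans ?_
    calc x ^ (1 / 81 : ℝ) ≤ x ^ (1 : ℝ) := Real.rpow_le_rpow_of_exponent_le e6 (by norm_num)
      _ = x := Real.rpow_one x
  have hRpos : (0 : ℝ) < (lev x : ℝ) := by (clear * - e5; linarith)
  have hRe : 0 < (lev x : ℝ) ^ ε := Real.rpow_pos_of_pos hRpos _
  have hll : Real.log (Real.log (lev x)) ≤ Real.log (lev x) := by
    have := Real.log_le_sub_one_of_pos (show 0 < Real.log (lev x) by (clear * - e3; linarith))
    (clear * - this; linarith)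
  have hll0 : 0 ≤ Real.log (Real.log (lev x)) := Real.log_nonneg e3
  have a1 : M * Real.log (lev x) ^ (2 * K) *
      (Real.log x * (Real.log (Real.log (lev x)) + C) / (lev x : ℝ) ^ ε) ≤ 1 / 2 := by
    have hb : Real.log x * (Real.log (Real.log (lev x)) + C) ≤
        82 * Real.log (lev x) * ((1 + C) * Real.log (lev x)) := by
      apply mul_le_mul e4 _ (by (clear * - hll0 hC; positivity)) (by positivity)
      (clear * - hll hC e3; nlinarith)
    calc M * Real.log (lev x) ^ (2 * K) *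
        (Real.log x * (Real.log (Real.log (lev x)) + C) / (lev x : ℝ) ^ ε)
        ≤ M * Real.log (lev x) ^ (2 * K) *
        (82 * Real.log (lev x) * ((1 + C) * Real.log (lev x)) / (lev x : ℝ) ^ ε) := by
          (clear * - hb e5 hM e3; gcongr)
      _ = M * 82 * (1 + C) * Real.log (lev x) ^ (2 * K + 2) / (lev x : ℝ) ^ ε := by
          rw [pow_add]
          ring
      _ ≤ M * 82 * (1 + C) * (1 / (2 * M * 82 * (1 + C)) * (lev x : ℝ) ^ ε) /
            (lev x : ℝ) ^ ε := by
          (clear * - e1 hM hC e5; gcongr)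
      _ = 1 / 2 := by
          field_simp
  have a2 : M * Real.log (lev x) ^ (2 * K) * (8 * lev x / x ^ (1 / 2 : ℝ)) ≤ 1 / 2 := by
    have hl : Real.log (lev x) ≤ Real.log x := Real.log_le_log hRpos hRx'
    have hlx : 0 ≤ Real.log x := Real.log_nonneg e6
    have hdiv : 8 * lev x / x ^ (1 / 2 : ℝ) ≤ 8 * (1 / x ^ (1 / 3 : ℝ)) := by
      rw [mul_div_assoc]
      apply mul_le_mul_of_nonneg_left _ (by norm_num)
      rw [div_le_div_iff₀ (by positivity) (by positivity), one_mul]
      calc (lev x : ℝ) * x ^ (1 / 3 : ℝ) ≤ x ^ (1 / 81 : ℝ) * x ^ (1 / 3 : ℝ) := by (clear * - hRx e6; gcongr)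
        _ = x ^ (1 / 81 + 1 / 3 : ℝ) := by rw [← Real.rpow_add hx0]
        _ ≤ x ^ (1 / 2 : ℝ) := Real.rpow_le_rpow_of_exponent_le e6 (by norm_num)
    calc M * Real.log (lev x) ^ (2 * K) * (8 * lev x / x ^ (1 / 2 : ℝ))
        ≤ M * Real.log x ^ (2 * K) * (8 * (1 / x ^ (1 / 3 : ℝ))) := by
          (clear * - e3 hl hM hdiv e5 e6 hlx; gcongr)
      _ ≤ M * (1 / (2 * M * 8) * x ^ (1 / 3 : ℝ)) * (8 * (1 / x ^ (1 / 3 : ℝ))) := by
          gcongr
      _ = 1 / 2 := by
          field_simp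
  rw [mul_add]
  (clear * - a1 a2; linarith)

end Pool.Agent.Helper4.PL

end

section

set_option autoImplicit false

open Finset

namespace Pool.Agent.Helper7.PU

open Pool.Agent.Helper1.MT

open Pool.Agent.Helper28.MT

theorem ws_nonneg' {R W : ℕ} (S : Finset (PS R W)) : 0 ≤ ws (wp R W) S := by
  unfold ws wp
  apply prod_nonneg
  intro p _
  (clear * -; positivity)

theorem hJ_anti (κ : ℝ) (J : ℕ) {x y : ℝ} (h : x ≤ y) : hJ κ J y ≤ hJ κ J x := by
  unfold hJ
  apply add_le_add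
  · apply sum_le_sum
    intro j _
    split_ifs with h1 h2 h2
    · exact le_rfl
    · exact absurd (h.trans h1) h2
    · positivity
    · exact le_rfl
  · split_ifs with h1 h2 h2
    · exact le_rfl
    · exact absurd (h.trans h1) h2
    · positivity
    · exact le_rfl

end Pool.Agent.Helper7.PU

end

section

set_option autoImplicit false

open Finset

namespace Pool.Agent.Helper96.PU

open Pool.Agent.Helper1.MT

open Pool.Agent.Helper66.PV

theorem wp_nonneg (R W : ℕ) (p : PS R W) : 0 ≤ wp R W p := by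
  unfold wp
  (clear * -; positivity)

theorem PS_prime {R W : ℕ} (p : PS R W) : (p : ℕ).Prime ∧ ¬ (p : ℕ) ∣ W := by
  have h4 := p.2
  unfold PS at h4
  exact (Finset.mem_filter.1 h4).2

/-- The prime divisors of `m` among the primes of the sieve. -/
theorem card_div_le (R W m r : ℕ) (hm : m ≠ 0) (hr : oW W m ≤ r) :
    ((univ : Finset (PS R W)).filter (fun p : PS R W => (p : ℕ) ∣ m)).card ≤ r := by
  refine le_trans ?_ hr
  have h1 : (((univ : Finset (PS R W)).filter (fun p : PS R W => (p : ℕ) ∣ m)).image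
      (fun p : PS R W => (p : ℕ))) ⊆ m.primeFactors.filter (fun p => ¬ p ∣ W) := by
    intro q hq
    obtain ⟨p, hp, rfl⟩ := Finset.mem_image.1 hq
    have h2 := (Finset.mem_filter.1 hp).2
    exact Finset.mem_filter.2 ⟨Nat.mem_primeFactors.2 ⟨(PS_prime p).1, h2, hm⟩, (PS_prime p).2⟩
  have h2 : (m.primeFactors.filter (fun p => ¬ p ∣ W)).card ≤ oW W m := by
    unfold oW
    rw [Finset.card_eq_sum_ones]
    refine Finset.sum_le_sum fun p hp => ?_
    have h3 := Nat.mem_primeFactors.1 (Finset.mem_filter.1 hp).1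
    exact (h3.1.dvd_iff_one_le_factorization hm).1 h3.2.1
  refine le_trans ?_ h2
  refine le_trans (le_of_eq ?_) (Finset.card_le_card h1)
  rw [Finset.card_image_of_injective _ Subtype.val_injective]

/-- The number of colourings that are compatible with `n`. -/
theorem card_Dv_le {κ : Type} [Fintype κ] [DecidableEq κ] (R W : ℕ) (h : κ → ℕ)
    (n r : ℕ) (hn : 0 < n) (hr : ∀ i, oW W (n + h i) ≤ r)
    (s : Finset (PS R W → Option κ)) (hs : ∀ c ∈ s, Dv h c n) :
    s.card ≤ 2 ^ (Fintype.card κ * r) := by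
  classical
  have h1 : s.image (fun c : PS R W → Option κ => fun i : κ => cls c i) ⊆
      Fintype.piFinset (fun i : κ =>
        ((univ : Finset (PS R W)).filter (fun p : PS R W => (p : ℕ) ∣ n + h i)).powerset) := by
    intro f hf
    obtain ⟨c, hc, rfl⟩ := Finset.mem_image.1 hf
    rw [Fintype.mem_piFinset]
    intro i
    rw [Finset.mem_powerset]
    intro p hp
    rw [Finset.mem_filter]
    exact ⟨Finset.mem_univ _, hs c hc p i (Pool.Agent.Helper90.MT.mem_cls.1 hp)⟩
  have h2 : s.card = (s.image (fun c : PS R W → Option κ => fun i : κ => cls c i)).card :=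
    (Finset.card_image_of_injective _ Pool.Agent.Helper90.MT.cls_inj).symm
  rw [h2]
  refine le_trans (Finset.card_le_card h1) ?_
  rw [Fintype.card_piFinset]
  calc ∏ i : κ, (((univ : Finset (PS R W)).filter (fun p : PS R W => (p : ℕ) ∣ n + h i)).powerset).card
      ≤ ∏ _i : κ, 2 ^ r := by
        refine Finset.prod_le_prod' fun i _ => ?_
        rw [Finset.card_powerset]
        exact Nat.pow_le_pow_right (by norm_num) (card_div_le R W (n + h i) r (by omega) (hr i))
    _ = 2 ^ (Fintype.card κ * r) := by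
        rw [Finset.prod_const, Finset.card_univ, ← pow_mul, mul_comm]

/-- `exp(-∑_{p ∣ W} 1/p)` is at most a constant times `φ(W)/W`. -/
theorem exp_neg_sum_le : ∃ C : ℝ, 0 < C ∧ ∀ W : ℕ, 0 < W →
    Real.exp (-∑ p ∈ W.primeFactors, (1 : ℝ) / p) ≤ C * ((W.totient : ℝ) / W) := by
  obtain ⟨C₂, hC₂, hS⟩ := Pool.Agent.Helper44.sum_inv_sq_le
  refine ⟨Real.exp (2 * C₂), Real.exp_pos _, ?_⟩
  intro W hW
  have hW0 : (0 : ℝ) < W := by exact_mod_cast hW
  have h1 : (W.totient : ℝ) / W = ∏ p ∈ W.primeFactors, (1 - (1 : ℝ) / p) := by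
    have h2 := Nat.totient_eq_mul_prod_factors W
    have h3 : (W.totient : ℝ) = W * ∏ p ∈ W.primeFactors, (1 - ((p : ℝ))⁻¹) := by
      have h4 := congrArg (fun q : ℚ => (q : ℝ)) h2
      push_cast at h4
      exact h4
    rw [h3, mul_div_assoc, mul_comm, div_mul_cancel₀ _ hW0.ne']
    exact Finset.prod_congr rfl fun p _ => by rw [one_div]
  have h5 : Real.exp (-∑ p ∈ W.primeFactors, ((1 : ℝ) / p + 2 * ((1 : ℝ) / p) ^ 2)) ≤
      (W.totient : ℝ) / W := by
    rw [h1, ← Finset.sum_neg_distrib, Real.exp_sum]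
    refine Finset.prod_le_prod (fun p _ => (Real.exp_pos _).le) fun p hp => ?_
    have hp2 : (2 : ℝ) ≤ p := by exact_mod_cast (Nat.mem_primeFactors.1 hp).1.two_le
    refine Pool.Agent.Helper44.one_sub_ge_exp' (by (clear * - hp2; positivity)) ?_
    rw [div_le_div_iff₀ (by (clear * - hp2; linarith)) (by norm_num)]
    (clear * - hp2; linarith)
  have h6 := hS W.primeFactors
  calc Real.exp (-∑ p ∈ W.primeFactors, (1 : ℝ) / p)
      ≤ Real.exp (2 * C₂ + -∑ p ∈ W.primeFactors, ((1 : ℝ) / p + 2 * ((1 : ℝ) / p) ^ 2)) := by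
        apply Real.exp_le_exp.2
        rw [Finset.sum_add_distrib, ← Finset.mul_sum]
        (clear * - h6; linarith)
    _ = Real.exp (2 * C₂) *
        Real.exp (-∑ p ∈ W.primeFactors, ((1 : ℝ) / p + 2 * ((1 : ℝ) / p) ^ 2)) := Real.exp_add _ _
    _ ≤ _ := mul_le_mul_of_nonneg_left h5 (Real.exp_pos _).le

/-- The product of the `1 + K / p`, with `φ(W) / W`. -/
theorem prod_boundW : ∃ C : ℝ, 0 < C ∧ ∀ (K W R : ℕ), 2 ≤ R → 0 < W → W ≤ R →
    ∏ p : PS R W, (1 + (K : ℝ) * wp R W p) ≤ (C * ((W.totient : ℝ) / W * Real.log R)) ^ K := by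
  obtain ⟨C, hC, hM⟩ := Pool.Agent.Helper44.sum_primesUpTo_bounds
  obtain ⟨C₁, hC₁, hE⟩ := exp_neg_sum_le
  refine ⟨Real.exp C * C₁, mul_pos (Real.exp_pos _) hC₁, ?_⟩
  intro K W R hR hW hWR
  have hR2 : (2 : ℝ) ≤ R := by exact_mod_cast hR
  have hlogR : 0 < Real.log R := Real.log_pos (by (clear * - hR2; linarith))
  have h1 : ∑ p : PS R W, wp R W p ≤
      Real.log (Real.log R) + C - ∑ p ∈ W.primeFactors, (1 : ℝ) / p := by
    have h2 : ∑ p : PS R W, wp R W p = ∑ p ∈ PS R W, 1 / (p : ℝ) := by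
      unfold wp
      rw [← Finset.sum_coe_sort (PS R W) (fun p : ℕ => 1 / (p : ℝ))]
    have hdisj : Disjoint (PS R W) W.primeFactors := by
      rw [Finset.disjoint_left]
      intro p hp hp'
      unfold PS at hp
      exact (Finset.mem_filter.1 hp).2.2 (Nat.mem_primeFactors.1 hp').2.1
    have h3 : ∑ p ∈ PS R W, 1 / (p : ℝ) + ∑ p ∈ W.primeFactors, (1 : ℝ) / p ≤
        ∑ q ∈ Pool.Agent.Helper44.primesUpTo (R : ℝ), (1 : ℝ) / q := by
      rw [← Finset.sum_union hdisj]
      apply Finset.sum_le_sum_of_subset_of_nonneg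
      · intro p hp
        rw [Pool.Agent.Helper44.mem_primesUpTo (by positivity)]
        rcases Finset.mem_union.1 hp with hp | hp
        · unfold PS at hp
          rw [Finset.mem_filter, Finset.mem_range] at hp
          exact ⟨hp.2.1, by exact_mod_cast Nat.lt_succ_iff.1 hp.1⟩
        · have h4 := Nat.mem_primeFactors.1 hp
          exact ⟨h4.1, by exact_mod_cast (Nat.le_of_dvd hW h4.2.1).trans hWR⟩
      · intro p _ _
        (clear * -; positivity)
    have h4 := (abs_le.1 (hM R hR2)).2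
    rw [h2]
    (clear * - h3 h4; linarith)
  calc ∏ p : PS R W, (1 + (K : ℝ) * wp R W p)
      ≤ ∏ p : PS R W, Real.exp ((K : ℝ) * wp R W p) := by
        apply Finset.prod_le_prod
        · intro p _
          unfold wp
          (clear * -; positivity)
        · intro p _
          have := Real.add_one_le_exp ((K : ℝ) * wp R W p)
          (clear * - this; linarith)
    _ = Real.exp ((K : ℝ) * ∑ p : PS R W, wp R W p) := by
        rw [← Real.exp_sum, Finset.mul_sum]
    _ ≤ Real.exp ((K : ℝ) * (Real.log (Real.log R) + C +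
          -∑ p ∈ W.primeFactors, (1 : ℝ) / p)) := by
        apply Real.exp_le_exp.2
        exact mul_le_mul_of_nonneg_left (by (clear * - h1; linarith)) (Nat.cast_nonneg _)
    _ = (Real.log R * Real.exp C * Real.exp (-∑ p ∈ W.primeFactors, (1 : ℝ) / p)) ^ K := by
        rw [Real.exp_nat_mul, Real.exp_add, Real.exp_add, Real.exp_log hlogR]
    _ ≤ (Real.log R * Real.exp C * (C₁ * ((W.totient : ℝ) / W))) ^ K := by
        refine pow_le_pow_left₀ (by positivity) ?_ K
        exact mul_le_mul_of_nonneg_left (hE W hW) (by positivity)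
    _ = _ := by
        congr 1
        ring

end Pool.Agent.Helper96.PU

end
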