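import Pool.Agent.Helper23.MT.L00_acd3
import Pool.Agent.Helper23.MT.L00_bd0
import Pool.Agent.Helper23.MT.L00_d0
import Pool.Agent.Helper23.MT.L01_ad0

/-!
Parts of Helper99.LR.Window, Helper99.LR2.WindowT, Helper99.LR2.ScalesT
-/

section

set_option autoImplicit false

open Finset

namespace Pool.Agent.Helper99.LR

theorem wp_lt {n m m' : ℕ} (h : m < m') : wp n m < wp n m' := by
  unfold wp
  exact pr_lt (by omega)

/-- Short blocks give close pairs. -/
theorem small_pairs {M κ0 Q E n : ℕ} (hM : 0 < M) (hκ : 0 < κ0) (hκE : κ0 ≤ E)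
    (ho : ∀ j ∈ (range (Q * M * E + 1)).filter
      (fun j => ∀ a : Fin M × Fin κ0, Q * (a.1.val * E + a.2.val) ≠ j), ¬ (n + j).Prime)
    {r N' : ℕ} (hr : 0 < r)
    (hN' : N' + r ≤ ((range (Q * M * E + 1)).filter (fun k => (n + k).Prime)).card) :
    (((range N').filter (fun m => gm (fun i => (wp n i : ℝ)) r m < (Q * E : ℕ))).card : ℝ) * r ≤
      prs (fun a : Fin M × Fin κ0 => Q * (a.1.val * E + a.2.val)) (r + 1) n := by
  classical
  set h : Fin M × Fin κ0 → ℕ := fun a => Q * (a.1.val * E + a.2.val) with hh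
  have hr0 : (0 : ℝ) < r := by exact_mod_cast hr
  have hex : ∀ m : ℕ, ∃ a : Fin M × Fin κ0,
      m < ((range (Q * M * E + 1)).filter (fun k => (n + k).Prime)).card → n + h a = wp n m := by
    intro m
    by_cases hm : m < ((range (Q * M * E + 1)).filter (fun k => (n + k).Prime)).card
    · have h1 := wp_window hm
      have h2 := wp_ge n m
      by_contra hcon
      push Not at hcon
      refine ho (wp n m - n) ?_ (by
        have : n + (wp n m - n) = wp n m := by omega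
        rw [this]
        exact wp_prime n m)
      rw [Finset.mem_filter, Finset.mem_range]
      refine ⟨by omega, fun a ha => ?_⟩
      have h3 := (hcon a).2
      apply h3
      have h4 : h a = wp n m - n := ha
      (clear * - r N' h2 h3 h4; omega)
    · exact ⟨(⟨0, hM⟩, ⟨0, hκ⟩), fun h => absurd h hm⟩
  choose f hf using hex
  set S : Finset ℕ := (range N').filter (fun m => gm (fun i => (wp n i : ℝ)) r m < (Q * E : ℕ))
    with hS
  have hprs : prs h (r + 1) n = (((Zt M κ0 (r + 1)).filter (fun z =>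
      (n + h z.1).Prime ∧ (n + h z.2).Prime)).card : ℝ) := by
    unfold prs
    rw [Finset.card_filter]
    push_cast
    rfl
  rw [hprs]
  have h1 : S.card * r ≤ ((Zt M κ0 (r + 1)).filter (fun z =>
      (n + h z.1).Prime ∧ (n + h z.2).Prime)).card := by
    have h2 : S.card * r = (S ×ˢ Icc 1 r).card := by
      rw [Finset.card_product, Nat.card_Icc, Nat.add_sub_cancel]
    rw [h2]
    apply Finset.card_le_card_of_injOn (fun z : ℕ × ℕ => (f z.1, f (z.1 + z.2)))
    · rintro ⟨m, j⟩ hz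
      rw [Finset.mem_coe, Finset.mem_product, hS, Finset.mem_filter, Finset.mem_range,
        Finset.mem_Icc] at hz
      obtain ⟨⟨hm, hgm⟩, hj1, hjr⟩ := hz
      simp only at hm hgm hj1 hjr
      have e1 := hf m (by omega)
      have e2 := hf (m + j) (by omega)
      have e3 : wp n m < wp n (m + j) := wp_lt (by omega)
      have e4 : wp n (m + j) ≤ wp n (m + r) := wp_le (by omega)
      have e5 : wp n (m + r) < wp n m + Q * E * r := by
        unfold gm at hgm
        rw [div_lt_iff₀ hr0] at hgm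
        have : (wp n (m + r) : ℝ) < ((wp n m + Q * E * r : ℕ) : ℝ) := by
          push_cast at hgm ⊢
          (clear * - hgm; linarith)
        exact_mod_cast this
      have e6 : h (f m) < h (f (m + j)) := by omega
      have e7 : h (f (m + j)) < h (f m) + Q * E * r := by omega
      simp only [hh] at e6 e7
      have e8 : (f m).1.val * E + (f m).2.val < (f (m + j)).1.val * E + (f (m + j)).2.val :=
        Nat.lt_of_mul_lt_mul_left e6
      have e9 : (f (m + j)).1.val * E + (f (m + j)).2.val <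
          (f m).1.val * E + (f m).2.val + E * r := by
        apply Nat.lt_of_mul_lt_mul_left (a := Q)
        calc _ < _ := e7
          _ = _ := by ring
      have hb1 := (f m).2.isLt
      have hb2 := (f (m + j)).2.isLt
      have e10 : (f m).1.val ≤ (f (m + j)).1.val := by
        by_contra hc
        push Not at hc
        have e11 : ((f (m + j)).1.val + 1) * E ≤ (f m).1.val * E := Nat.mul_le_mul_right _ hc
        rw [add_mul, one_mul] at e11
        omega
      have e12 : (f (m + j)).1.val ≤ (f m).1.val + (r + 1) := by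
        by_contra hc
        push Not at hc
        have e11 : ((f m).1.val + (r + 1) + 1) * E ≤ (f (m + j)).1.val * E :=
          Nat.mul_le_mul_right _ hc
        have e13 : ((f m).1.val + (r + 1) + 1) * E = (f m).1.val * E + E * r + 2 * E := by ring
        omega
      rw [Finset.mem_coe, Finset.mem_filter, Zt, Finset.mem_filter]
      simp only
      refine ⟨⟨Finset.mem_univ _, ?_, by omega, e12⟩, ?_, ?_⟩
      · intro he
        rw [he] at e1
        omega
      · rw [e1]; exact wp_prime _ _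
      · rw [e2]; exact wp_prime _ _
    · rintro ⟨m, j⟩ hz ⟨m', j'⟩ hz' heq
      rw [Finset.mem_coe, Finset.mem_product, hS, Finset.mem_filter, Finset.mem_range,
        Finset.mem_Icc] at hz hz'
      obtain ⟨⟨hm, _⟩, hj1, hjr⟩ := hz
      obtain ⟨⟨hm', _⟩, hj1', hjr'⟩ := hz'
      simp only [Prod.mk.injEq] at heq hm hj1 hjr hm' hj1' hjr'
      obtain ⟨q1, q2⟩ := heq
      have e1 := hf m (by omega)
      have e2 := hf (m + j) (by omega)
      have e1' := hf m' (by omega)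
      have e2' := hf (m' + j') (by omega)
      rw [q1, e1'] at e1
      rw [q2, e2'] at e2
      have q3 : m = m' := by
        rcases Nat.lt_trichotomy m m' with h3 | h3 | h3
        · have := wp_lt (n := n) h3; omega
        · exact h3
        · have := wp_lt (n := n) h3; omega
      have q4 : m + j = m' + j' := by
        rcases Nat.lt_trichotomy (m + j) (m' + j') with h3 | h3 | h3
        · have := wp_lt (n := n) h3; omega
        · exact h3
        · have := wp_lt (n := n) h3; omega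
      rw [Prod.mk.injEq]
      exact ⟨q3, by omega⟩
  exact_mod_cast h1

end Pool.Agent.Helper99.LR

end

section

set_option autoImplicit false

open Finset

namespace Pool.Agent.Helper99.LR2

open Pool.Agent.Helper99.LR (gm gm_nonneg cnt prs wp wp_le wp_ge wp_window cnt_window small_pairs)

/-- The weighted total defect over the steps `r ≤ R` in a finite window. -/
theorem sum_steps {p : ℕ → ℝ} (hp : Monotone p) {K a : ℝ} (hK : 0 < K) (ha : 0 ≤ a)
    {b R N : ℕ} (hb : 0 < b) (hR : 0 < R) (hRN : 4 * b * R ^ 2 ≤ N)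
    (hlen : p (N + b * (R + 1)) - p 0 ≤ N * a) :
    ∑ i ∈ range R, 1 / ((i : ℝ) + 1) * ∑ n ∈ range N, Dl p K b (i + 1) n ≤
      N * (lph K a * (4 + Real.log b) + 3) := by
  have hR0 : (0 : ℝ) < R := by exact_mod_cast hR
  have hR1 : (1 : ℝ) ≤ R := by exact_mod_cast hR
  have hb0 : (0 : ℝ) < b := by exact_mod_cast hb
  have hN0 : 0 < N := lt_of_lt_of_le (by (clear * - hb hR; positivity)) hRN
  have hN0r : (0 : ℝ) < N := by exact_mod_cast hN0
  have hΛ0 : 0 ≤ lph K a := lph_nonneg hK ha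
  have hRNr : 4 * (b : ℝ) * (R : ℝ) ^ 2 ≤ N := by exact_mod_cast hRN
  have hbRN : (b : ℝ) * R ≤ N := by (clear * - hN0r hRNr hR1; nlinarith)
  have hlph : ∀ m n : ℕ, 0 ≤ lph K (gm p m n) := fun m n => lph_nonneg hK (gm_nonneg hp _ _)
  set F : ℕ → ℝ := fun m => (∑ n ∈ range N, lph K (gm p m n)) / N with hF
  have hF0 : ∀ m, 0 ≤ F m := fun m =>
    div_nonneg (Finset.sum_nonneg fun n _ => hlph m n) (Nat.cast_nonneg _)
  have hF1 : ∀ m, 0 < m → m ≤ b * (R + 1) → F m ≤ lph K a := by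
    intro m hm hmR
    rw [hF]
    simp only
    rw [div_le_iff₀ hN0r]
    have h1 := sum_lph_le hp hK hm N ha (by
      have h2 := hp (show N + m ≤ N + b * (R + 1) by omega)
      (clear * - hlen h2; linarith))
    (clear * - h1; linarith)
  have hF2 : ∀ m j : ℕ, 0 < m → F m ≤ F (m + j) + 1 * ((j : ℝ) / m) := by
    intro m j hm
    have h1 := Finset.sum_le_sum (s := range N) fun n _ => lph_near hp hK (j := j) hm n
    rw [Finset.sum_add_distrib, Finset.sum_const, Finset.card_range, nsmul_eq_mul] at h1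
    rw [hF]
    simp only
    rw [div_add' _ _ _ hN0r.ne']
    apply div_le_div_of_nonneg_right _ hN0r.le
    (clear * - h1; linarith)
  have hsc := scale_sum (A := 1) (M := b * (R + 1)) (R := R) zero_le_one hΛ0 hF0 hF1 hF2 hb
    (by omega)
  -- the boundary terms
  have hbd : ∀ i < R, ∑ n ∈ range (b * (i + 1)), lph K (gm p (i + 1) n) ≤
      N * (((i : ℝ) + 1) / R * (lph K a + 1)) := by
    intro i hi
    obtain ⟨M, hM⟩ : ∃ M : ℕ, M = b * (i + 1) := ⟨_, rfl⟩
    rw [← hM]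
    have hM0 : 0 < M := by rw [hM]; positivity
    have hM0r : (0 : ℝ) < M := by exact_mod_cast hM0
    have hMr : (M : ℝ) = b * ((i : ℝ) + 1) := by rw [hM]; push_cast; ring
    have hi0 : (0 : ℝ) < (i : ℝ) + 1 := by (clear * -; positivity)
    have hiR : (i : ℝ) + 1 ≤ R := by exact_mod_cast hi
    have hMN1 : (M : ℝ) ≤ N := by
      rw [hMr]
      have : (b : ℝ) * ((i : ℝ) + 1) ≤ b * R := mul_le_mul_of_nonneg_left hiR hb0.le
      (clear * - hbRN this; linarith)
    have h5 : ∑ n ∈ range M, lph K (gm p (i + 1) n) ≤ M * lph K (N * a / M) := by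
      apply sum_lph_le hp hK (by positivity) M (by (clear * - hN0 ha hM0; positivity))
      have h6 : p (M + (i + 1)) ≤ p (N + b * (R + 1)) := by
        apply hp
        have h7 : M ≤ N := by exact_mod_cast hMN1
        have h8 : 1 * (R + 1) ≤ b * (R + 1) := Nat.mul_le_mul_right _ hb
        omega
      have h7 : (M : ℝ) * (N * a / M) = N * a := by (clear * - hM0 hN0; field_simp)
      rw [h7]
      (clear * - hlen h6; linarith)
    have h6 : lph K (N * a / M) ≤ lph K a + Real.log (N / M) := by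
      unfold lph
      rw [← Real.log_mul (by (clear * - ha hK; positivity)) (by (clear * - hN0 hM0; positivity))]
      apply Real.log_le_log (by (clear * - hN0 ha hM0 hK; positivity))
      have h7 : 1 ≤ (N : ℝ) / M := by
        rw [le_div_iff₀ hM0r]
        (clear * - hMN1; linarith)
      have h8 : (1 + a / K) * ((N : ℝ) / M) = N / M + N * a / M / K := by
        (clear * - hK hM0 hN0 ha; field_simp)
      rw [h8]
      (clear * - h7; linarith)
    have h7 : Real.log ((N : ℝ) / M) ≤ 2 * Real.sqrt ((N : ℝ) / M) := by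
      have hx : (0 : ℝ) < (N : ℝ) / M := by (clear * - hN0 hM0; positivity)
      have h8 := Real.log_le_sub_one_of_pos (Real.sqrt_pos.mpr hx)
      have h9 : Real.log ((N : ℝ) / M) = 2 * Real.log (Real.sqrt ((N : ℝ) / M)) := by
        conv_lhs => rw [← Real.sq_sqrt hx.le]
        rw [Real.log_pow]
        norm_num
      rw [h9]
      (clear * - h8; linarith)
    have h8 : (M : ℝ) * (2 * Real.sqrt ((N : ℝ) / M)) ≤ N * (((i : ℝ) + 1) / R) := by
      have h9 : Real.sqrt ((N : ℝ) / M) ≤ N / (2 * R * b) := by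
        rw [Real.sqrt_le_left (by (clear * - hN0 hR hb; positivity)), hMr]
        have h10 : (N : ℝ) / (b * ((i : ℝ) + 1)) =
            (N / (2 * R * b)) ^ 2 * (4 * b * R ^ 2 / (N * ((i : ℝ) + 1))) := by
          field_simp
          ring
        rw [h10]
        have h11 : 4 * b * (R : ℝ) ^ 2 / (N * ((i : ℝ) + 1)) ≤ 1 := by
          rw [div_le_one (by (clear * - hN0; positivity))]
          (clear * - hRNr; nlinarith)
        exact mul_le_of_le_one_right (by positivity) h11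
      calc (M : ℝ) * (2 * Real.sqrt ((N : ℝ) / M)) ≤ M * (2 * (N / (2 * R * b))) := by gcongr
        _ = _ := by
          rw [hMr]
          (clear * - hb hR hN0; field_simp)
    have h9 : (M : ℝ) * lph K a ≤ N * (((i : ℝ) + 1) / R * lph K a) := by
      rw [← mul_assoc]
      apply mul_le_mul_of_nonneg_right _ hΛ0
      rw [hMr, ← mul_div_assoc, le_div_iff₀ hR0]
      (clear * - hbRN; nlinarith)
    have h10 : (M : ℝ) * lph K (N * a / M) ≤ M * (lph K a + 2 * Real.sqrt ((N : ℝ) / M)) :=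
      mul_le_mul_of_nonneg_left (by (clear * - h6 h7; linarith)) hM0r.le
    have h11 : (M : ℝ) * (lph K a + 2 * Real.sqrt ((N : ℝ) / M)) =
        M * lph K a + M * (2 * Real.sqrt ((N : ℝ) / M)) := by ring
    have h12 : (N : ℝ) * (((i : ℝ) + 1) / R * (lph K a + 1)) =
        N * (((i : ℝ) + 1) / R * lph K a) + N * (((i : ℝ) + 1) / R) := by ring
    (clear * - h5 h8 h9 h10; linarith)
  have hterm : ∀ i ∈ range R, 1 / ((i : ℝ) + 1) * ∑ n ∈ range N, Dl p K b (i + 1) n ≤
      N * ((F (b * (i + 1)) - F (i + 1)) / ((i : ℝ) + 1) + 1 / R * (lph K a + 1)) := by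
    intro i hi
    rw [Finset.mem_range] at hi
    have hi0 : (0 : ℝ) < (i : ℝ) + 1 := by (clear * -; positivity)
    have h1 := sum_Dl_le hp hK (r := i + 1) hb N
    have h2 := hbd i hi
    have h3 : ∑ n ∈ range N, lph K (gm p (b * (i + 1)) n) = N * F (b * (i + 1)) := by
      rw [hF]
      (clear * - hN0; field_simp)
    have h4 : ∑ n ∈ range N, lph K (gm p (i + 1) n) = N * F (i + 1) := by
      rw [hF]
      (clear * - hN0; field_simp)
    rw [h3, h4] at h1
    calc 1 / ((i : ℝ) + 1) * ∑ n ∈ range N, Dl p K b (i + 1) n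
        ≤ 1 / ((i : ℝ) + 1) * (N * F (b * (i + 1)) - N * F (i + 1) +
          N * (((i : ℝ) + 1) / R * (lph K a + 1))) :=
          mul_le_mul_of_nonneg_left (by (clear * - h1 h2; linarith)) (by (clear * -; positivity))
      _ = _ := by
          (clear * - hR hN0; field_simp)
  have h1 := Finset.sum_le_sum hterm
  rw [← Finset.mul_sum, Finset.sum_add_distrib, Finset.sum_const, Finset.card_range,
    nsmul_eq_mul] at h1
  refine h1.trans (mul_le_mul_of_nonneg_left ?_ hN0r.le)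
  have h2 : (R : ℝ) * (1 / R * (lph K a + 1)) = lph K a + 1 := by (clear * - hR hΛ0; field_simp)
  rw [h2]
  have h3 : lph K a * (4 + Real.log b) = lph K a * (1 + Real.log b) + 3 * lph K a := by ring
  (clear * - hsc; linarith)

/-- A good place for one of the steps, in a finite window. -/
theorem detT {p : ℕ → ℝ} (hp : Monotone p) {K a ε s : ℝ} (hK : 0 < K) (ha : 0 ≤ a) (hε : 0 < ε)
    (hε1 : ε ≤ 1) {b R N : ℕ} (hb : 0 < b) (hR : 0 < R) (hRN : 4 * b * R ^ 2 ≤ N)
    (hlen : p (N + b * (R + 1)) - p 0 ≤ N * a)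
    {T : Finset ℕ} (hT1 : ∀ r ∈ T, 1 ≤ r ∧ r ≤ R) (hs : s = ∑ r ∈ T, 1 / (r : ℝ))
    (hsm : ∑ r ∈ T, 1 / (r : ℝ) * (((range N).filter (fun n => gm p (b * r) n < K)).card : ℝ) ≤
      s * N / 4)
    (hd : 27 * b * (lph K a * (4 + Real.log b) + 3) / ε ^ 2 ≤ s) :
    ∃ r ∈ T, ∃ n < N, K ≤ gm p (b * r) n ∧
      ∀ j < b, |gm p r (n + j * r) - gm p (b * r) n| ≤ ε * gm p (b * r) n := by
  classical
  by_contra hcon
  push Not at hcon
  have hb0 : (0 : ℝ) < b := by exact_mod_cast hb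
  have hb1 : (1 : ℝ) ≤ b := by exact_mod_cast hb
  have hN0 : 0 < N := lt_of_lt_of_le (by (clear * - hb hR; positivity)) hRN
  have hN0r : (0 : ℝ) < N := by exact_mod_cast hN0
  have hΛ0 : 0 ≤ lph K a := lph_nonneg hK ha
  have hlog : 0 ≤ Real.log b := Real.log_nonneg hb1
  set A : ℕ → Finset ℕ := fun r => (range N).filter (fun n => gm p (b * r) n < K) with hA
  set E : ℕ → Finset ℕ := fun r =>
    (range N).filter (fun n => ε ^ 2 / (20 * b) ≤ Dl p K b r n) with hE
  have hcov : ∀ r ∈ T, 1 / (r : ℝ) * N ≤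
      1 / (r : ℝ) * (A r).card + 1 / (r : ℝ) * (E r).card := by
    intro r hr
    have hr1 := (hT1 r hr).1
    have h1 : range N ⊆ A r ∪ E r := by
      intro n hn
      by_contra hcc
      rw [Finset.mem_union, not_or] at hcc
      simp only [hA, hE, Finset.mem_filter, not_and] at hcc
      obtain ⟨h1, h3⟩ := hcc
      have h1' := h1 hn
      have h3' := h3 hn
      push Not at h1'
      obtain ⟨j, hj, hj2⟩ := hcon r hr n (Finset.mem_range.mp hn) h1'
      exact h3' (Dl_large hp hK hε.le hε1 hb hr1 n h1' hj hj2)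
    have h2 := (Finset.card_le_card h1).trans (Finset.card_union_le _ _)
    rw [Finset.card_range] at h2
    have h3 : (N : ℝ) ≤ (A r).card + (E r).card := by exact_mod_cast h2
    have h4 := mul_le_mul_of_nonneg_left h3 (show (0 : ℝ) ≤ 1 / (r : ℝ) by (clear * - hr1; positivity))
    (clear * - h4; linarith)
  have h1 := Finset.sum_le_sum hcov
  rw [← Finset.sum_mul, ← hs, Finset.sum_add_distrib] at h1
  have h3 : (∑ r ∈ T, 1 / (r : ℝ) * ((E r).card : ℝ)) * (ε ^ 2 / (20 * b)) ≤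
      N * (lph K a * (4 + Real.log b) + 3) := by
    refine le_trans ?_ (sum_steps hp hK ha hb hR hRN hlen)
    have h4 : ∑ i ∈ range R, 1 / ((i : ℝ) + 1) * ∑ n ∈ range N, Dl p K b (i + 1) n =
        ∑ r ∈ Ico 1 (R + 1), 1 / (r : ℝ) * ∑ n ∈ range N, Dl p K b r n := by
      rw [Finset.sum_Ico_eq_sum_range]
      apply Finset.sum_congr (by simp)
      intro i _
      rw [add_comm 1 i]
      push_cast
      rfl
    rw [h4, Finset.sum_mul]
    have hTs : T ⊆ Ico 1 (R + 1) := by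
      intro r hr
      have := hT1 r hr
      rw [Finset.mem_Ico]
      omega
    refine le_trans (Finset.sum_le_sum ?_) (Finset.sum_le_sum_of_subset_of_nonneg hTs
      (fun r hr _ => mul_nonneg (by (clear * -; positivity)) (Finset.sum_nonneg fun n _ =>
        Dl_nonneg hp hK hb (by rw [Finset.mem_Ico] at hr; omega) n)))
    intro r hr
    rw [mul_assoc]
    apply mul_le_mul_of_nonneg_left _ (by (clear * -; positivity))
    calc ((E r).card : ℝ) * (ε ^ 2 / (20 * b)) = ∑ n ∈ E r, ε ^ 2 / (20 * (b : ℝ)) := by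
          rw [Finset.sum_const, nsmul_eq_mul]
      _ ≤ ∑ n ∈ E r, Dl p K b r n := by
          apply Finset.sum_le_sum
          intro n hn
          exact (Finset.mem_filter.mp hn).2
      _ ≤ _ := by
          apply Finset.sum_le_sum_of_subset_of_nonneg (Finset.filter_subset _ _)
          intro n _ _
          exact Dl_nonneg hp hK hb (hT1 r hr).1 n
  have h4 : 3 / 4 * (s * N) ≤ ∑ r ∈ T, 1 / (r : ℝ) * ((E r).card : ℝ) := by (clear * - hsm h1; linarith)
  have h5 : 3 / 4 * (s * N) * (ε ^ 2 / (20 * b)) ≤ N * (lph K a * (4 + Real.log b) + 3) :=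
    le_trans (mul_le_mul_of_nonneg_right h4 (by (clear * - hε hb; positivity))) h3
  have h6 : N * (lph K a * (4 + Real.log b) + 3) < 3 / 4 * (s * N) * (ε ^ 2 / (20 * b)) := by
    set G : ℝ := lph K a * (4 + Real.log b) + 3 with hG
    have hG0 : 0 < G := by
      have : 0 ≤ lph K a * (4 + Real.log b) := by (clear * - hΛ0; positivity)
      (clear * - this; linarith)
    have h7 : 27 * b * G ≤ s * ε ^ 2 := by
      rw [div_le_iff₀ (by positivity)] at hd
      exact hd
    have h8 : 3 / 4 * (s * N) * (ε ^ 2 / (20 * (b : ℝ))) = N * (3 / (80 * b) * (s * ε ^ 2)) := by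
      field_simp
      ring
    rw [h8]
    apply mul_lt_mul_of_pos_left _ hN0r
    have h9 : 3 / (80 * (b : ℝ)) * (27 * b * G) ≤ 3 / (80 * b) * (s * ε ^ 2) :=
      mul_le_mul_of_nonneg_left h7 (by positivity)
    have h10 : 3 / (80 * (b : ℝ)) * (27 * b * G) = 81 / 80 * G := by
      field_simp
      norm_num
    rw [h10] at h9
    (clear * - hG0 h9; linarith)
  (clear * - h5 h6; linarith)

/-- A local progression in a window, with step in a given set. -/
theorem windowT {M κ0 Q E n : ℕ} (hM : 0 < M) (hκ : 0 < κ0) (hQ : 0 < Q) (hκE : κ0 ≤ E)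
    (ho : ∀ j ∈ (range (Q * M * E + 1)).filter
      (fun j => ∀ a : Fin M × Fin κ0, Q * (a.1.val * E + a.2.val) ≠ j), ¬ (n + j).Prime)
    {b R : ℕ} (hb : 0 < b) (hR : 0 < R) {lam ε s : ℝ} (hlam : 0 < lam)
    (hε : 0 < ε) (hε1 : ε ≤ 1) {T : Finset ℕ} (hT1 : ∀ r ∈ T, 1 ≤ r ∧ r ≤ R)
    (hs : s = ∑ r ∈ T, 1 / (r : ℝ))
    (hc : lam * M ≤ cnt (fun a : Fin M × Fin κ0 => Q * (a.1.val * E + a.2.val)) n)
    (hp : ∑ r ∈ T, 1 / (r : ℝ) * (prs (fun a : Fin M × Fin κ0 => Q * (a.1.val * E + a.2.val))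
      (b * r + 1) n / ((b * r : ℕ) : ℝ)) ≤
        s * cnt (fun a : Fin M × Fin κ0 => Q * (a.1.val * E + a.2.val)) n / 8)
    (hlM : 2 * (4 * b * (R : ℝ) ^ 2 + b * (R + 1)) + 2 ≤ lam * M)
    (hd : 27 * b * (Real.log (1 + 2 / lam) * (4 + Real.log b) + 3) / ε ^ 2 ≤ s) :
    ∃ r ∈ T, ∃ m : ℕ, ∃ d : ℝ, (Q * E : ℕ) ≤ d ∧ d ≤ (Q * M * E : ℕ) ∧
      wp n (m + b * r) ≤ n + Q * M * E ∧
      ∀ j < b, |(wp n (m + (j + 1) * r) : ℝ) - wp n (m + j * r) - d| ≤ ε * d := by
  classical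
  set Nn : ℕ := ((range (Q * M * E + 1)).filter (fun k => (n + k).Prime)).card with hNn
  have hcN := cnt_window (M := M) (n := n) hQ hκE
  rw [← hNn] at hcN
  set h : Fin M × Fin κ0 → ℕ := fun a => Q * (a.1.val * E + a.2.val) with hh
  have hE0 : 0 < E := by omega
  have hQE : (0 : ℝ) < (Q * E : ℕ) := by exact_mod_cast Nat.mul_pos hQ hE0
  have hb0 : (0 : ℝ) < b := by exact_mod_cast hb
  have hb1 : (1 : ℝ) ≤ b := by exact_mod_cast hb
  have hs0 : 0 ≤ s := by
    rw [hs]
    exact Finset.sum_nonneg fun r _ => by (clear * -; positivity)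
  have hMr : (0 : ℝ) < M := by exact_mod_cast hM
  have hNlow : 2 * (4 * b * (R : ℝ) ^ 2 + b * (R + 1)) + 2 ≤ Nn := by (clear * - hlM hc hcN; linarith)
  have hNlow' : 2 * (4 * b * R ^ 2 + b * (R + 1)) + 2 ≤ Nn := by exact_mod_cast hNlow
  obtain ⟨N', hN'⟩ : ∃ N' : ℕ, N' + b * (R + 1) + 1 = Nn := ⟨Nn - b * (R + 1) - 1, by omega⟩
  have hN'2 : Nn ≤ 2 * N' := by omega
  have hRN' : 4 * b * R ^ 2 ≤ N' := by omega
  have hN'2r : (Nn : ℝ) ≤ 2 * N' := by exact_mod_cast hN'2
  have hbr : ∀ r ∈ T, b * r ≤ b * (R + 1) := by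
    intro r hr
    exact Nat.mul_le_mul_left _ (by have := (hT1 r hr).2; omega)
  have hwp : Monotone (fun i => (wp n i : ℝ)) := fun i j hij => by
    change (wp n i : ℝ) ≤ (wp n j : ℝ)
    exact_mod_cast wp_le hij
  have hlph : lph ((Q * E : ℕ) : ℝ) (2 / lam * (Q * E : ℕ)) = Real.log (1 + 2 / lam) := by
    unfold lph
    congr 2
    (clear * - hQ hE0 hlam; field_simp)
  obtain ⟨r, hr, m, hm, h1, h3⟩ := detT (p := fun i => (wp n i : ℝ)) hwp
    (K := ((Q * E : ℕ) : ℝ)) (a := 2 / lam * (Q * E : ℕ)) (ε := ε) (s := s)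
    hQE (by (clear * - hlam hQ hE0; positivity)) hε hε1 hb hR hRN' (by
      have e1 := wp_window (n := n) (m := N' + b * (R + 1)) (H := Q * M * E) (by omega)
      have e2 := wp_ge n 0
      have e3 : (wp n (N' + b * (R + 1)) : ℝ) ≤ (n : ℝ) + (Q * M * E : ℕ) := by exact_mod_cast e1
      have e4 : (n : ℝ) ≤ wp n 0 := by exact_mod_cast e2
      have e5 : (M : ℝ) ≤ N' * (2 / lam) := by
        have e6 : lam * M ≤ 2 * N' := by (clear * - hc hcN hN'2r; linarith)
        calc (M : ℝ) = lam * M / lam := by (clear * - hlam hM; field_simp)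
          _ ≤ 2 * N' / lam := div_le_div_of_nonneg_right e6 hlam.le
          _ = _ := by ring
      have e6 : ((Q * M * E : ℕ) : ℝ) = M * (Q * E : ℕ) := by push_cast; ring
      have e7 : (M : ℝ) * (Q * E : ℕ) ≤ N' * (2 / lam) * (Q * E : ℕ) :=
        mul_le_mul_of_nonneg_right e5 hQE.le
      have e8 : (N' : ℝ) * (2 / lam) * (Q * E : ℕ) = N' * (2 / lam * (Q * E : ℕ)) := by ring
      (clear * - e3 e4 e6 e7; linarith)) hT1 hs (by
      have e1 : ∀ r ∈ T, 1 / (r : ℝ) * (((range N').filter (fun m =>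
          gm (fun i => (wp n i : ℝ)) (b * r) m < (Q * E : ℕ))).card : ℝ) ≤
          1 / (r : ℝ) * (prs h (b * r + 1) n / ((b * r : ℕ) : ℝ)) := by
        intro r hr
        apply mul_le_mul_of_nonneg_left _ (by (clear * -; positivity))
        have e2 : 0 < b * r := Nat.mul_pos hb (hT1 r hr).1
        have e3 := hbr r hr
        rw [le_div_iff₀ (by exact_mod_cast e2)]
        exact small_pairs hM hκ hκE ho e2 (by omega)
      refine (Finset.sum_le_sum e1).trans (hp.trans ?_)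
      have e2 : s * cnt h n ≤ s * Nn := mul_le_mul_of_nonneg_left hcN hs0
      have e3 : s * Nn ≤ s * (2 * N') := mul_le_mul_of_nonneg_left hN'2r hs0
      (clear * - e2 e3; linarith)) (by
      rw [hlph]
      exact hd)
  have hr1 := (hT1 r hr).1
  have hr1r : (1 : ℝ) ≤ r := by exact_mod_cast hr1
  have hr0r : (0 : ℝ) < r := by (clear * - hr1r; linarith)
  set g : ℝ := gm (fun i => (wp n i : ℝ)) (b * r) m with hg
  have hlast : wp n (m + b * r) ≤ n + Q * M * E := by
    have e3 := hbr r hr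
    exact wp_window (by omega)
  refine ⟨r, hr, m, r * g, ?_, ?_, hlast, ?_⟩
  · (clear * - hr1r h1; nlinarith)
  · have e1 : g * (b * r) = (wp n (m + b * r) : ℝ) - wp n m := by
      rw [hg]
      unfold gm
      push_cast
      (clear * - hb hr1; field_simp)
    have e2 : (wp n (m + b * r) : ℝ) ≤ (n : ℝ) + (Q * M * E : ℕ) := by exact_mod_cast hlast
    have e3 : (n : ℝ) ≤ wp n m := by exact_mod_cast wp_ge n m
    have e4 : 0 ≤ g := gm_nonneg hwp _ _
    have e5 : r * g ≤ g * (b * r) := by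
      have : 0 ≤ r * g := by (clear * - hr1 e4; positivity)
      (clear * - hb1 this; nlinarith)
    (clear * - e1 e2 e3 e5; linarith)
  · intro j hj
    have h4 := h3 j hj
    have h5 : (wp n (m + (j + 1) * r) : ℝ) - wp n (m + j * r) - r * g =
        (gm (fun i => (wp n i : ℝ)) r (m + j * r) - g) * r := by
      unfold gm
      have e1 : m + j * r + r = m + (j + 1) * r := by ring
      rw [e1]
      (clear * - hr1; field_simp)
    rw [h5, abs_mul, abs_of_pos hr0r]
    calc _ ≤ ε * g * r := mul_le_mul_of_nonneg_right h4 hr0r.le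
      _ = _ := by ring

end Pool.Agent.Helper99.LR2

end

section

set_option autoImplicit false

open Finset

namespace Pool.Agent.Helper99.LR2

open Pool.Agent.Helper1.MT (Setup Reg NS SingAvg ShiftsU NS_floor)

open Pool.Agent.Helper99.LR (pr wp wp_le wp_ge)

theorem stepsT_of {c1 : ℝ} (hc1 : 0 < c1)
    (hb : ∀ (κ : Type) [Fintype κ] [DecidableEq κ] (J D0 : ℕ) (A : ℝ),
      0 < Fintype.card κ → 10 * 2 ^ J ≤ 8 * Fintype.card κ * (J + 2) →
      (Fintype.card κ + 3) ^ 10 ≤ D0 → 1 ≤ A → ∃ X0 : ℝ, 3 ≤ X0 ∧ ∀ x : ℝ, X0 ≤ x →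
      ∀ (h : κ → ℕ) (W v : ℕ), Setup D0 h W v → Reg D0 W → (W : ℝ) ≤ Real.log x ^ A →
      (∀ i, (h i : ℝ) ≤ Real.log x ^ A) →
      ∃ (u : ℕ → ℝ) (S : ℝ), (∀ n, 0 ≤ u n) ∧ 0 < S ∧ ∑ n ∈ NS x W v, u n ≤ 2 * S ∧
        (∀ m : κ, c1 * ((J + 2) / Fintype.card κ) * S ≤
          ∑ n ∈ (NS x W v).filter (fun n => (n + h m).Prime), u n) ∧
        (∀ m m' : κ, m ≠ m' →
          ∑ n ∈ (NS x W v).filter (fun n => (n + h m).Prime ∧ (n + h m').Prime), u n ≤
            2 * ((J + 2) / (10 * Fintype.card κ)) ^ 2 * S) ∧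
        (∀ j : ℕ, (∀ i, h i ≠ j) →
          ∑ n ∈ (NS x W v).filter (fun n => (n + j).Prime), u n ≤
            6000 * D0 / Real.log x *
              (∏ p ∈ (∏ i, ((h i : ℤ) - j).natAbs).primeFactors, (1 + 1 / (p : ℝ))) * S))
    (hY : SingAvg) (hC : ShiftsU) :
    ∃ C : ℝ, 0 < C ∧ ∀ k : ℕ, 1 ≤ k → ∀ ε : ℝ, 0 < ε → ε ≤ 1 → ∀ T : Finset ℕ,
      (∀ r ∈ T, 1 ≤ r) → C * (k * Real.log (k + 1)) / ε ^ 2 ≤ ∑ r ∈ T, 1 / (r : ℝ) →
      ∃ (B : ℕ) (c x0 : ℝ), 0 < c ∧
      ∀ x : ℝ, x0 ≤ x → ∀ D : ℕ, B ≤ D → (D : ℝ) ≤ c * Real.log x →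
      ∃ r ∈ T, ∃ (n : ℕ) (d : ℝ), (D : ℝ) ≤ d ∧ d ≤ B * D ∧
        x ^ (1 / 2 : ℝ) ≤ pr n ∧ pr (n + k * r) ≤ 2 * x ∧
        ∀ i < k, |pr (n + (i + 1) * r) - pr (n + i * r) - d| ≤ ε * d := by
  classical
  obtain ⟨e1, he1⟩ : ∃ e1 : ℝ, e1 = 5 * c1 / 8 := ⟨_, rfl⟩
  have he10 : 0 < e1 := by rw [he1]; positivity
  obtain ⟨lam, hlamd⟩ : ∃ lam : ℝ, lam = e1 * c1 / 16 := ⟨_, rfl⟩
  have hlam : 0 < lam := by rw [hlamd]; positivity
  obtain ⟨T0, hT0d⟩ : ∃ T0 : ℝ, T0 = Real.log (1 + 2 / lam) := ⟨_, rfl⟩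
  have hT0 : 0 ≤ T0 := by
    rw [hT0d]
    apply Real.log_nonneg
    have : 0 ≤ 2 / lam := by positivity
    (clear * - this; linarith)
  refine ⟨54 * (7 * T0 + 5), by (clear * - hT0; positivity), ?_⟩
  intro k hk ε hε hε1 T hT1 hTs
  have hk1 : (1 : ℝ) ≤ k := by exact_mod_cast hk
  obtain ⟨b, hbd⟩ : ∃ b : ℕ, b = k + 1 := ⟨_, rfl⟩
  have hbr : (b : ℝ) = k + 1 := by rw [hbd]; push_cast; ring
  have hb0 : 0 < b := by omega
  have hb0r : (0 : ℝ) < b := by exact_mod_cast hb0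
  obtain ⟨s, hs⟩ : ∃ s : ℝ, s = ∑ r ∈ T, 1 / (r : ℝ) := ⟨_, rfl⟩
  rw [← hs] at hTs
  have hlb : (69 : ℝ) / 100 ≤ Real.log b := by
    have h1 := Real.log_two_gt_d9
    have h2 : Real.log 2 ≤ Real.log b := by
      apply Real.log_le_log (by norm_num)
      rw [hbr]
      (clear * - hk1; linarith)
    (clear * - h1 h2; linarith)
  have hd : 27 * b * (T0 * (4 + Real.log b) + 3) / ε ^ 2 ≤ s := by
    refine le_trans ?_ hTs
    apply div_le_div_of_nonneg_right _ (by positivity)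
    rw [← hbr]
    have h1 : (b : ℝ) ≤ 2 * k := by
      rw [hbr]; (clear * - hk1; linarith)
    have h2 : T0 * (4 + Real.log b) + 3 ≤ (7 * T0 + 5) * Real.log b := by (clear * - hT0 hlb; nlinarith)
    have h3 : 0 ≤ T0 * (4 + Real.log b) + 3 := by (clear * - hT0 hlb; positivity)
    calc 27 * (b : ℝ) * (T0 * (4 + Real.log b) + 3)
        ≤ 27 * (2 * k) * ((7 * T0 + 5) * Real.log b) := by (clear * - h1 h2 hT0 hlb hk; gcongr)
      _ = _ := by ring
  have hs0 : 0 < s := by
    refine lt_of_lt_of_le ?_ hd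
    have : 0 ≤ T0 * (4 + Real.log b) := by (clear * - hT0 hlb; positivity)
    (clear * - hb0 hT0 hlb hε; positivity)
  obtain ⟨R, hRd⟩ : ∃ R : ℕ, R = T.sup id + 1 := ⟨_, rfl⟩
  have hR0 : 0 < R := by omega
  have hT2 : ∀ r ∈ T, 1 ≤ r ∧ r ≤ R := by
    intro r hr
    refine ⟨hT1 r hr, ?_⟩
    have h1 : id r ≤ T.sup id := Finset.le_sup hr
    rw [id] at h1
    omega
  -- the number of slots
  obtain ⟨M, hMd⟩ : ∃ M : ℕ, M = ⌈(2 * (4 * b * (R : ℝ) ^ 2 + b * (R + 1)) + 2) / lam⌉₊ +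
    ⌈4 / e1⌉₊ + 1 := ⟨_, rfl⟩
  have hM0 : 0 < M := by omega
  have hMr : (0 : ℝ) < M := by exact_mod_cast hM0
  have hlM : 2 * (4 * b * (R : ℝ) ^ 2 + b * (R + 1)) + 2 ≤ lam * M := by
    have h1 : (2 * (4 * b * (R : ℝ) ^ 2 + b * (R + 1)) + 2) / lam ≤ M :=
      (Nat.le_ceil _).trans (by
        exact_mod_cast (by omega : ⌈(2 * (4 * b * (R : ℝ) ^ 2 + b * (R + 1)) + 2) / lam⌉₊ ≤ M))
    rw [div_le_iff₀ hlam] at h1
    (clear * - h1; linarith)
  have heM : 4 ≤ e1 * M := by
    have h1 : 4 / e1 ≤ M := (Nat.le_ceil _).trans (by exact_mod_cast (by omega : ⌈4 / e1⌉₊ ≤ M))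
    rw [div_le_iff₀ he10] at h1
    (clear * - h1; linarith)
  obtain ⟨J, hJ1, hJ2⟩ : ∃ J : ℕ, ((J : ℝ) + 2) ≤ e1 * M ∧ e1 * M / 2 ≤ (J : ℝ) + 2 := by
    have h1 : 4 ≤ ⌊e1 * M⌋₊ := Nat.le_floor (by exact_mod_cast heM)
    refine ⟨⌊e1 * M⌋₊ - 2, ?_, ?_⟩
    · have h2 : ((⌊e1 * M⌋₊ - 2 : ℕ) : ℝ) + 2 = ⌊e1 * M⌋₊ := by
        push_cast [(by omega : 2 ≤ ⌊e1 * M⌋₊)]
        ring
      rw [h2]
      exact Nat.floor_le (by positivity)
    · have h2 : ((⌊e1 * M⌋₊ - 2 : ℕ) : ℝ) + 2 = ⌊e1 * M⌋₊ := by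
        push_cast [(by omega : 2 ≤ ⌊e1 * M⌋₊)]
        ring
      rw [h2]
      have h3 := Nat.lt_floor_add_one (e1 * M)
      (clear * - heM h3; linarith)
  obtain ⟨κ0, hκ0⟩ : ∃ κ0 : ℕ, κ0 = 2 ^ (J + 1) := ⟨_, rfl⟩
  have hκ00 : 0 < κ0 := by rw [hκ0]; positivity
  have hκ0r : (0 : ℝ) < κ0 := by exact_mod_cast hκ00
  obtain ⟨D0, hD0⟩ : ∃ D0 : ℕ, D0 = (M * κ0 + 3) ^ 10 := ⟨_, rfl⟩
  have hD00 : 0 < D0 := by rw [hD0]; (clear * - hM0 hκ00; positivity)
  have hD0r : (0 : ℝ) < D0 := by exact_mod_cast hD00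
  obtain ⟨Q, D1, hQ, hD1, hsh⟩ := hC M κ0 D0 hM0 hκ00 (by
    rw [hD0]
    exact Nat.pow_le_pow_left (by omega) 10)
  have hQr : (0 : ℝ) < Q := by exact_mod_cast hQ
  obtain ⟨CK, hCK0, hCK⟩ := hY (M * κ0)
  have hcard : Fintype.card (Fin M × Fin κ0) = M * κ0 := by simp
  obtain ⟨X0, hX03, hb'⟩ := hb (Fin M × Fin κ0) J D0 (D1 + 1 : ℕ) (by rw [hcard]; (clear * - hM0 hκ00; positivity)) (by
      rw [hcard]
      have h1 : 1 * 2 ^ (J + 1) ≤ M * κ0 := by
        rw [hκ0]
        exact Nat.mul_le_mul hM0 le_rfl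
      have h2 : (2 : ℕ) ^ (J + 1) = 2 * 2 ^ J := by ring
      have h3 : 0 < 2 ^ J := by positivity
      (clear * - h1 h2 h3 hcard; nlinarith)) (by rw [hcard, hD0]) (by exact_mod_cast (by omega : 1 ≤ D1 + 1))
  set c : ℝ := min (1 / (2 * Q * M)) (e1 * c1 / (16 * κ0 * 12000 * D0 * CK * Q * M)) with hc
  have hc0 : 0 < c := lt_min (by (clear * - hQ hM0; positivity)) (by (clear * - he10 hc1 hκ00 hD00 hCK0 hQ hM0; positivity))
  refine ⟨D1 + 2 * (Q * M), c, max X0 3, hc0, ?_⟩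
  intro x hx D hD hDc
  have hxX : X0 ≤ x := (le_max_left _ _).trans hx
  have hx3 : 3 ≤ x := (le_max_right _ _).trans hx
  have hD1D : D1 ≤ D := by omega
  have hlog1 : 1 ≤ Real.log x := by
    rw [Real.le_log_iff_exp_le (by (clear * - hX03 hxX; linarith))]
    exact (Real.exp_one_lt_d9.le.trans (by norm_num)).trans hx3
  have hlog0 : 0 < Real.log x := by (clear * - hlog1; linarith)
  obtain ⟨E, W, v, hDE, hE2, hSet, hReg, hW⟩ := hsh D hD1D
  have hc1' : c ≤ 1 / (2 * Q * M) := min_le_left _ _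
  have hc2' : c ≤ e1 * c1 / (16 * κ0 * 12000 * D0 * CK * Q * M) := min_le_right _ _
  have hYle : ((Q * M * E : ℕ) : ℝ) ≤ 2 * Q * M * (c * Real.log x) := by
    have h1 : (E : ℝ) ≤ 2 * D := by exact_mod_cast hE2
    push_cast
    calc (Q : ℝ) * M * E ≤ Q * M * (2 * D) := by (clear * - h1 hQ hM0; gcongr)
      _ = 2 * Q * M * D := by ring
      _ ≤ _ := by (clear * - hDc hQ hM0; gcongr)
  have hYlog : ((Q * M * E : ℕ) : ℝ) ≤ Real.log x := by
    refine hYle.trans ?_
    calc 2 * Q * M * (c * Real.log x) = 2 * Q * M * c * Real.log x := by ring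
      _ ≤ 2 * Q * M * (1 / (2 * Q * M)) * Real.log x := by (clear * - hc1' hQ hM0 hlog1; gcongr)
      _ = Real.log x := by (clear * - hQ hM0 hlog1; field_simp)
  have hDlog : (D : ℝ) ≤ Real.log x := by
    refine le_trans ?_ hYlog
    have h1 : 1 * 1 * D ≤ Q * M * E := Nat.mul_le_mul (Nat.mul_le_mul hQ hM0) hDE
    rw [one_mul, one_mul] at h1
    exact_mod_cast h1
  have hpow1 : Real.log x ≤ Real.log x ^ ((D1 + 1 : ℕ) : ℝ) := by
    rw [Real.rpow_natCast]
    exact le_self_pow₀ hlog1 (by omega)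
  have hWlog : (W : ℝ) ≤ Real.log x ^ ((D1 + 1 : ℕ) : ℝ) := by
    rw [Real.rpow_natCast]
    calc (W : ℝ) ≤ (D : ℝ) ^ D1 := by exact_mod_cast hW
      _ ≤ Real.log x ^ D1 := by (clear * - hDlog; gcongr)
      _ ≤ Real.log x ^ (D1 + 1) := pow_le_pow_right₀ hlog1 (by omega)
  have hκE : κ0 ≤ E := by omega
  -- the shifts are at most Q M E
  have hshift : ∀ a : Fin M × Fin κ0, Q * (a.1.val * E + a.2.val) ≤ Q * M * E := by
    intro a
    have h1 := a.1.isLt
    have h2 := a.2.isLt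
    have h3 : (a.1.val + 1) * E ≤ M * E := Nat.mul_le_mul_right _ h1
    rw [mul_assoc]
    apply Nat.mul_le_mul_left
    rw [add_mul, one_mul] at h3
    omega
  obtain ⟨u, S, hu, hS0, hT, hs', hp, ho⟩ := hb' x hxX _ W v hSet hReg hWlog (fun a => by
    refine le_trans ?_ hpow1
    refine le_trans ?_ hYlog
    exact_mod_cast hshift a)
  rw [hcard] at hs' hp
  set h : Fin M × Fin κ0 → ℕ := fun a => Q * (a.1.val * E + a.2.val) with hh
  set Yf : Finset ℕ := (range (Q * M * E + 1)).filter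
      (fun j => ∀ a : Fin M × Fin κ0, h a ≠ j) with hYf
  have hYsum : ∑ j ∈ Yf, ∑ n ∈ (NS x W v).filter (fun n => (n + j).Prime), u n ≤
      e1 * c1 / (16 * κ0) * S := by
    have h1 : ∑ j ∈ Yf, ∑ n ∈ (NS x W v).filter (fun n => (n + j).Prime), u n ≤
        ∑ j ∈ Yf, 6000 * D0 / Real.log x *
          (∏ p ∈ (∏ i, ((h i : ℤ) - j).natAbs).primeFactors, (1 + 1 / (p : ℝ))) * S := by
      refine Finset.sum_le_sum fun j hj => ho j ?_
      rw [hYf, mem_filter] at hj
      exact hj.2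
    refine h1.trans ?_
    rw [← Finset.sum_mul, ← Finset.mul_sum]
    have h2 : ∑ j ∈ Yf, ∏ p ∈ (∏ i, ((h i : ℤ) - j).natAbs).primeFactors, (1 + 1 / (p : ℝ)) ≤
        CK * (Q * M * E : ℕ) := by
      have h3 := hCK (Q * M * E) (fun i => h (finProdFinEquiv.symm i)) (by
        have : 1 * 1 * 1 ≤ Q * M * E := Nat.mul_le_mul (Nat.mul_le_mul hQ hM0) (by omega)
        omega) (fun i => hshift _)
      refine le_trans (le_of_eq ?_) h3
      have h4 : Yf = (range (Q * M * E + 1)).filter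
          (fun j => ∀ i : Fin (M * κ0), h (finProdFinEquiv.symm i) ≠ j) := by
        rw [hYf]
        refine Finset.filter_congr fun j _ => ?_
        constructor
        · intro h5 i
          exact h5 _
        · intro h5 a
          have := h5 (finProdFinEquiv a)
          rwa [Equiv.symm_apply_apply] at this
      rw [h4]
      refine Finset.sum_congr rfl fun j _ => ?_
      have h5 : (∏ i : Fin (M * κ0), ((h (finProdFinEquiv.symm i) : ℤ) - j).natAbs) =
          ∏ a : Fin M × Fin κ0, ((h a : ℤ) - j).natAbs :=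
        Equiv.prod_comp finProdFinEquiv.symm (fun a => ((h a : ℤ) - j).natAbs)
      rw [h5]
    calc _ ≤ 6000 * D0 / Real.log x * (CK * (Q * M * E : ℕ)) * S := by (clear * - h2 hD00 hlog1 hS0; gcongr)
      _ ≤ 6000 * D0 / Real.log x * (CK * (2 * Q * M * (c * Real.log x))) * S := by (clear * - hYle hCK0 hD00 hlog1 hS0; gcongr)
      _ = 12000 * D0 * CK * Q * M * c * S := by
        field_simp
        ring
      _ ≤ 12000 * D0 * CK * Q * M *
          (e1 * c1 / (16 * κ0 * 12000 * D0 * CK * Q * M)) * S := by (clear * - hc2' hD00 hCK0 hQ hM0 hS0; gcongr)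
      _ = e1 * c1 / (16 * κ0) * S := by
        (clear * - hD00 hCK0 hQ hM0 hS0 hκ00 hc1 he10; field_simp)
  obtain ⟨n, hn, hn1, hn2, hn3⟩ := pickT hM0 hκ00 hT1 hs hs0 hb0 hc1 he1 hJ1 hJ2 h (NS x W v) u Yf
    hu hS0 hT hs' hp hYsum
  rw [← hlamd] at hn1
  obtain ⟨r, hr, m, d, h1, h2, h3, h4⟩ := windowT hM0 hκ00 hQ hκE hn3 hb0 hR0 hlam hε hε1 hT2 hs
    hn1 hn2 hlM (by rw [← hT0d]; exact hd)
  have hEr : (E : ℝ) ≤ 2 * D := by exact_mod_cast hE2
  refine ⟨r, hr, Nat.count Nat.Prime n + m, d, ?_, ?_, ?_, ?_, ?_⟩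
  · refine le_trans ?_ h1
    exact_mod_cast hDE.trans (Nat.le_mul_of_pos_left E hQ)
  · refine h2.trans ?_
    have h5 : Q * M * E ≤ (D1 + 2 * (Q * M)) * D := by
      calc Q * M * E ≤ Q * M * (2 * D) := Nat.mul_le_mul_left _ hE2
        _ = 2 * (Q * M) * D := by ring
        _ ≤ _ := Nat.mul_le_mul_right _ (by omega)
    exact_mod_cast h5
  · have e1 := NS_floor hn
    have e2 := Nat.lt_floor_add_one (x ^ (1 / 2 : ℝ))
    have e3 : ((⌊x ^ (1 / 2 : ℝ)⌋₊ : ℝ) + 1) ≤ n := by exact_mod_cast e1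
    have e4 : (n : ℝ) ≤ pr (Nat.count Nat.Prime n + m) := by
      unfold pr
      exact_mod_cast wp_ge n m
    (clear * - e2 e3 e4; linarith)
  · have e1 : (n : ℝ) ≤ x := by
      unfold NS at hn
      rw [mem_filter, mem_Ioc] at hn
      exact (Nat.le_floor_iff (by (clear * - hX03 hxX; linarith))).1 hn.1.2
    have e2 : wp n (m + k * r) ≤ n + Q * M * E := by
      refine le_trans (wp_le ?_) h3
      have : k * r ≤ b * r := Nat.mul_le_mul_right _ (by omega)
      omega
    have e3 : pr (Nat.count Nat.Prime n + m + k * r) ≤ (n : ℝ) + (Q * M * E : ℕ) := by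
      unfold pr
      have e4 : wp n (m + k * r) = Nat.nth Nat.Prime (Nat.count Nat.Prime n + m + k * r) := by
        unfold wp
        rw [add_assoc]
      rw [← e4]
      exact_mod_cast e2
    have e5 : Real.log x ≤ x := by
      have := Real.log_le_sub_one_of_pos (show 0 < x by (clear * - hX03 hxX; linarith))
      (clear * - this; linarith)
    (clear * - hYlog e1 e3 e5; linarith)
  · intro j hj
    have e1 := h4 j (by omega)
    unfold wp at e1
    unfold pr
    rw [add_assoc, add_assoc]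
    exact e1

end Pool.Agent.Helper99.LR2

end
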