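import Pool.Agent.Helper23.MT.L01_acd0
import Pool.Agent.Helper23.MT.L01_acd1
import Pool.Agent.Helper23.MT.L01_acd3
import Pool.Agent.Helper23.MT.L01_acd4
import Pool.Agent.Helper23.MT.L01_ad0

/-!
Parts of Helper1.MT.DefsU, Helper1.MT.Bounds, Helper1.MT.Num, Helper1.MT.BoundsU, Helper1.MT.BoundsUThm, Helper87.MT.Pair, Helper12.MT.Star, Helper18.MT.SumGen, Helper83.MT.Crt, Helper83.MT.SumPrime
-/

namespace Pool.Agent.Helper1.MT
end Pool.Agent.Helper1.MT
namespace Pool.Agent.Helper74.MT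
end Pool.Agent.Helper74.MT

section

set_option autoImplicit false

open Finset

open scoped ArithmeticFunction.vonMangoldt

namespace Pool.Agent.Helper1.MT

open Pool.Agent.Helper18.BV (wt IsWt)

/-- MU-N1: the sieve sum over all integers, uniformly in `W`. At the prime `p` only the colours in
`a p` are allowed; `p` does not divide the differences of their shifts. -/
def SumGen : Prop :=
  ∀ (κ : Type) [Fintype κ] [DecidableEq κ] (D0 : ℕ) (A : ℝ),
    (Fintype.card κ + 2) ^ 10 ≤ D0 → 0 < A → ∃ X0 : ℝ, 3 ≤ X0 ∧ ∀ x : ℝ, X0 ≤ x →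
    ∀ (h : κ → ℕ) (W v : ℕ), 0 < W → (∀ p : ℕ, p.Prime → p < D0 → p ∣ W) →
    (W : ℝ) ≤ Real.log x ^ A → ∀ a : PS (lev x) W → Finset κ,
    (∀ p, ∀ i ∈ a p, ∀ i' ∈ a p, i ≠ i' → ¬ ((p : ℕ) : ℤ) ∣ (h i : ℤ) - h i') →
    ∀ y : (PS (lev x) W → Option κ) → ℝ, (∀ c, |y c| ≤ lev x) →
      (∀ c, y c ≠ 0 → T (tp (lev x) W) (supp c) ≤ 3) →
      (∀ c, y c ≠ 0 → ∀ p i, c p = some i → i ∈ a p) →
      |∑ n ∈ NS x W v, (1 / (n : ℝ)) * sw h (lam (wp (lev x) W) y) n -
        (Real.log x / (2 * W)) * Qf (fun p => pr κ (wp (lev x) W p)) (lam (wp (lev x) W) y)| ≤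
        1 / Real.log x ^ A

/-- MU-N2: the sieve sum over the `n` such that `n + h m` is prime, uniformly. -/
def SumPrimeU : Prop :=
  ∃ c0 : ℝ, 0 < c0 ∧ ∀ (κ : Type) [Fintype κ] [DecidableEq κ] (D0 : ℕ) (A : ℝ),
    (Fintype.card κ + 2) ^ 10 ≤ D0 → 0 < A → ∃ X0 : ℝ, 3 ≤ X0 ∧ ∀ x : ℝ, X0 ≤ x →
    ∀ (h : κ → ℕ) (W v : ℕ), Setup D0 h W v → (W : ℝ) ≤ Real.log x ^ A →
    (∀ i, (h i : ℝ) ≤ Real.log x ^ A) → ∀ m : κ,
    ∀ y : (PS (lev x) W → Option κ) → ℝ, (∀ c, |y c| ≤ 1) →
      (∀ c, y c ≠ 0 → T (tp (lev x) W) (supp c) ≤ 1) →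
      (c0 / (W.totient : ℝ)) *
        Qf (fun p => prm m (wp' (lev x) W p)) (lam (wp (lev x) W) y) - 1 / Real.log x ^ A ≤
      ∑ n ∈ (NS x W v).filter (fun n => (n + h m).Prime),
        (1 / (n : ℝ)) * sw h (lam (wp (lev x) W) y) n

/-- MU-S: the majorant with one additional colour `none` (for the primes outside the clusters).
The points in `bad` must not have the additional colour. -/
def StarMajorant : Prop :=
  ∀ (ι κ : Type) [Fintype ι] [Fintype κ] [DecidableEq ι] [DecidableEq κ] (w t : ι → ℝ)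
    (γ : Finset ι → ℝ) (τ η : ℝ), Good (Fintype.card κ) w t γ τ η → ∀ bad : Finset ι,
    ∃ y' : (ι → Option (Option κ)) → ℝ,
      (∀ c : ι → Option κ, lam w y' (fun p => (c p).map some) = lam w (yw t γ) c) ∧
      (∀ c, y' c ≠ 0 → T t (supp c) ≤ 2 ∧ ∀ p ∈ bad, c p ≠ some none) ∧
      (∀ c, |y' c| ≤ 1) ∧
      (∑ c : ι → Option (Option κ), ws w (supp c) * y' c ^ 2) * V0 w t ≤
        2 * B1 w γ ^ (Fintype.card κ) * ∏ p ∈ bad, (1 + w p)

end Pool.Agent.Helper1.MT

end

section

set_option autoImplicit false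

open Finset Filter

open scoped ArithmeticFunction.vonMangoldt

namespace Pool.Agent.Helper1.MT

section Abs

variable {ι κ : Type} [Fintype ι] [Fintype κ] [DecidableEq ι] [DecidableEq κ]

theorem energy_le (hT : TupleSum) {K : ℕ} {w t : ι → ℝ} {γ : Finset ι → ℝ} {τ η : ℝ}
    (hG : Good K w t γ τ η) :
    ∑ c : ι → Option κ, ws w (supp c) * yw t γ c ^ 2 ≤ B1 w γ ^ (Fintype.card κ) := by
  have h1 := hT ι κ (fun _ S => γ S ^ 2 * ws w S)
    (fun i S => mul_nonneg (sq_nonneg _) (ws_nonneg hG.w_nonneg S))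
  simp only [Finset.prod_const, Finset.card_univ] at h1
  refine le_trans (Finset.sum_le_sum fun c _ => ?_) h1
  rw [Finset.prod_mul_distrib, ← ws_supp]
  have h2 : yw t γ c ^ 2 ≤ ∏ i : κ, γ (cls c i) ^ 2 := by
    unfold yw
    rw [mul_pow, ← pow_mul, mul_comm _ 2, pow_mul, neg_one_sq, one_pow, one_mul]
    split_ifs
    · rw [Finset.prod_pow]
    · rw [zero_pow two_ne_zero]
      exact Finset.prod_nonneg fun i _ => sq_nonneg _
  rw [mul_comm]
  exact mul_le_mul_of_nonneg_right h2 (ws_nonneg hG.w_nonneg _)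

end Abs

/-- If `n + h m` is a prime larger than `R` then no prime of `PS R W` has colour `m`. -/
theorem cls_empty {κ : Type} [DecidableEq κ] {R W : ℕ} {h : κ → ℕ} {c : PS R W → Option κ} {n : ℕ}
    {m : κ} (hc : Dv h c n) (hp : (n + h m).Prime) (hR : R < n + h m) : cls c m = ∅ := by
  rw [Finset.eq_empty_iff_forall_notMem]
  intro p hq
  simp only [cls, mem_filter, mem_univ, true_and] at hq
  have h1 := hc p m hq
  have h2 := (Nat.prime_dvd_prime_iff_eq (PS_prime p) hp).1 h1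
  have h3 := PS_le p
  omega

end Pool.Agent.Helper1.MT

end

section

set_option autoImplicit false

open Finset

namespace Pool.Agent.Helper1.MT

theorem wp_facts {K R W : ℕ} (hp2 : ∀ p : PS R W, ((K : ℝ) + 2) ≤ ((p : ℕ) : ℝ)) :
    (∀ p, 0 ≤ wp' R W p) ∧ (∀ p, (K : ℝ) * wp' R W p ≤ 1) ∧ (∀ p, wp R W p ≤ wp' R W p) ∧
      ∀ p, wp' R W p - wp R W p ≤ 2 * wp R W p ^ 2 := by
  have hK0 : (0 : ℝ) ≤ K := by (clear * -; positivity)
  refine ⟨fun p => ?_, fun p => ?_, fun p => ?_, fun p => ?_⟩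
  · have := hp2 p
    simp only [wp']
    exact div_nonneg zero_le_one (by (clear * - this; linarith))
  · have := hp2 p
    simp only [wp']
    rw [mul_one_div, div_le_one (by (clear * - this; linarith))]
    linarith
  · have := hp2 p
    simp only [wp, wp']
    exact one_div_le_one_div_of_le (by linarith) (by linarith)
  · have := hp2 p
    simp only [wp, wp']
    have h1 : (0 : ℝ) < ((p : ℕ) : ℝ) := by linarith
    have h2 : (0 : ℝ) < ((p : ℕ) : ℝ) - 1 := by linarith
    have h3 : (2 : ℝ) ≤ ((p : ℕ) : ℝ) := by (clear * - this; linarith)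
    rw [div_sub_div _ _ h2.ne' h1.ne', div_pow, one_pow, mul_one_div,
      div_le_div_iff₀ (by (clear * - h2 h1; positivity)) (by positivity)]
    (clear * - this h1 h2; nlinarith [mul_pos h1 h2])

end Pool.Agent.Helper1.MT

end

section

set_option autoImplicit false

open Finset Filter

open scoped ArithmeticFunction.vonMangoldt

namespace Pool.Agent.Helper1.MT

/-- For `n + j` prime the additional colour does not occur. -/
theorem sw_star {κ : Type} [Fintype κ] [DecidableEq κ] {R W : ℕ} {h : κ → ℕ} {j n : ℕ}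
    (hp : (n + j).Prime) (hR : R < n + j) {f : (PS R W → Option κ) → ℝ}
    {f' : (PS R W → Option (Option κ)) → ℝ}
    (hf : ∀ c : PS R W → Option κ, f' (fun p => (c p).map some) = f c) :
    sw (ext h j) f' n = sw h f n := by
  classical
  unfold sw
  congr 1
  have h1 : (univ.filter (fun c : PS R W → Option (Option κ) => Dv (ext h j) c n)) =
      (univ.filter (fun c : PS R W → Option κ => Dv h c n)).image
        (fun c p => (c p).map some) := by
    ext c
    simp only [mem_filter, mem_univ, true_and, mem_image]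
    constructor
    · intro hc
      have hns : ∀ p, c p ≠ some none := by
        intro p hcp
        have h2 := hc p none hcp
        have h3 := (Nat.prime_dvd_prime_iff_eq (PS_prime p) hp).1 h2
        have h4 := PS_le p
        omega
      refine ⟨fun p => (c p).join, ?_, ?_⟩
      · intro p i hpi
        refine hc p (some i) ?_
        change (c p).join = some i at hpi
        cases hcp : c p with
        | none => rw [hcp] at hpi; simp at hpi
        | some o =>
          rw [hcp] at hpi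
          simp only [Option.join_some] at hpi
          rw [hpi]
      · funext p
        change ((c p).join).map some = c p
        cases hcp : c p with
        | none => simp
        | some o =>
          cases o with
          | none => exact absurd hcp (hns p)
          | some i => simp
    · rintro ⟨c', hc', rfl⟩ p o hpo
      change (c' p).map some = some o at hpo
      cases hcp : c' p with
      | none => rw [hcp] at hpo; simp at hpo
      | some i =>
        rw [hcp] at hpo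
        simp only [Option.map_some, Option.some.injEq] at hpo
        subst hpo
        exact hc' p i hcp
  rw [h1, Finset.sum_image]
  · exact Finset.sum_congr rfl fun c _ => hf c
  · intro c _ c' _ hcc
    funext p
    exact Option.map_injective (Option.some_injective _) (congrFun hcc p)

end Pool.Agent.Helper1.MT

end

section

set_option autoImplicit false

open Finset Filter

open scoped ArithmeticFunction.vonMangoldt

namespace Pool.Agent.Helper1.MT

/-- The sieve bounds, uniformly in the shifts. -/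
theorem boundsU (hT : TupleSum) (hG1 : GramUpper) (hG2 : GramLower) (hL : LowerMain)
    (hP : PairMajorant) (hSt : StarMajorant) (hN1 : SumGen) (hN2 : SumPrimeU) (hA : OneDimU) :
    ∃ c1 : ℝ, 0 < c1 ∧ ∀ (κ : Type) [Fintype κ] [DecidableEq κ] (J D0 : ℕ) (A : ℝ),
      0 < Fintype.card κ → 10 * 2 ^ J ≤ 8 * Fintype.card κ * (J + 2) →
      (Fintype.card κ + 3) ^ 10 ≤ D0 → 1 ≤ A → ∃ X0 : ℝ, 3 ≤ X0 ∧ ∀ x : ℝ, X0 ≤ x →
      ∀ (h : κ → ℕ) (W v : ℕ), Setup D0 h W v → Reg D0 W → (W : ℝ) ≤ Real.log x ^ A →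
      (∀ i, (h i : ℝ) ≤ Real.log x ^ A) →
      ∃ (u : ℕ → ℝ) (S : ℝ), (∀ n, 0 ≤ u n) ∧ 0 < S ∧ ∑ n ∈ NS x W v, u n ≤ 2 * S ∧
        (∀ m : κ, c1 * ((J + 2) / Fintype.card κ) * S ≤
          ∑ n ∈ (NS x W v).filter (fun n => (n + h m).Prime), u n) ∧
        (∀ m m' : κ, m ≠ m' →
          ∑ n ∈ (NS x W v).filter (fun n => (n + h m).Prime ∧ (n + h m').Prime), u n ≤
            2 * ((J + 2) / (10 * Fintype.card κ)) ^ 2 * S) ∧
        (∀ j : ℕ, (∀ i, h i ≠ j) →
          ∑ n ∈ (NS x W v).filter (fun n => (n + j).Prime), u n ≤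
            6000 * D0 / Real.log x *
              (∏ p ∈ (∏ i, ((h i : ℤ) - j).natAbs).primeFactors, (1 + 1 / (p : ℝ))) * S) := by
  classical
  obtain ⟨c0, hc0, hN2⟩ := hN2
  refine ⟨c0 / 50000, by positivity, ?_⟩
  intro κ _ _ J D0 A0 hK hJ hD hA0
  set K := Fintype.card κ with hKdef
  set A' : ℝ := A0 + 2 with hA'
  have hA'0 : 0 < A' := by (clear * - hA0; linarith)
  have hD2 : (K + 2) ^ 10 ≤ D0 := le_trans (Nat.pow_le_pow_left (by omega) 10) hD
  obtain ⟨Xa, hXa3, hXa⟩ := hA K J D0 A' hK hJ hD2 hA'0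
  obtain ⟨X1, hX13, hX1⟩ := hN1 κ D0 A' hD2 hA'0
  obtain ⟨X3, hX33, hX3⟩ := hN1 (Option κ) D0 A' (by
    rw [Fintype.card_option]
    exact hD) hA'0
  obtain ⟨X2, hX23, hX2⟩ := hN2 κ D0 A' hD2 hA'0
  have hKr : (0 : ℝ) < K := by exact_mod_cast hK
  have hKp : 0 < Kp K J := by unfold Kp; (clear * - hK; positivity)
  have hD00 : 0 < D0 := lt_of_lt_of_le (by positivity) hD
  have hD0r : (0 : ℝ) < D0 := by exact_mod_cast hD00
  have hJ0 : (0 : ℝ) ≤ J := by (clear * -; positivity)
  have haa : 0 < 11 / 10 * (J + 2 : ℝ) / (2 * Kp K J) := by (clear * - hKp; positivity)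
  have hab : 0 < 9 / 10 / Kp K J := by positivity
  have hac : 0 < 1 / (32 * (D0 : ℝ)) := by positivity
  -- large x
  set εs : ℝ := min (c0 / 50000 * ((J + 2) / (K : ℝ))) (((J + 2) / (10 * (K : ℝ))) ^ 2) with hεs
  have hεs0 : 0 < εs := lt_min (by (clear * - hc0 hK; positivity)) (by (clear * - hK; positivity))
  have hev : ∀ᶠ x : ℝ in atTop, Xa ≤ x ∧ X1 ≤ x ∧ X2 ≤ x ∧ X3 ≤ x ∧ 3 ≤ lev x ∧
      Real.log x ≤ 82 * Real.log (lev x) ∧
      (11 / 10 * (J + 2 : ℝ) / (2 * Kp K J) * (Real.log (lev x))) ^ 2 ≤ lev x ∧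
      1 ≤ 9 / 10 / Kp K J * (1 / (32 * (D0 : ℝ))) * Real.log (lev x) ∧
      2 + 2 / εs ≤ Real.log x ∧ 3 ≤ x := by
    refine (eventually_ge_atTop Xa).and ((eventually_ge_atTop X1).and ((eventually_ge_atTop X2).and
      ((eventually_ge_atTop X3).and ((lev_tendsto.eventually_ge_atTop 3).and
      (lev_log.and ((lev_log_sq haa).and ((lev_log_large (mul_pos hab hac)).and
      ((Real.tendsto_log_atTop.eventually_ge_atTop _).and (eventually_ge_atTop 3)))))))))
  obtain ⟨X0, hX0⟩ := eventually_atTop.1 hev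
  refine ⟨max X0 3, le_max_right _ _, ?_⟩
  intro x hx h W v hS hReg hWA hhA
  obtain ⟨hxa, hx1, hx2, hx3', hxR, hxl, hxA, hxB, hxL, hx3⟩ := hX0 x ((le_max_left _ _).trans hx)
  rw [mul_assoc] at hxB
  have hlogx : 0 < Real.log x := Real.log_pos (by (clear * - hXa3 hxa; linarith))
  have hlogx2 : 2 ≤ Real.log x := by
    have : 0 < 2 / εs := div_pos two_pos hεs0
    (clear * - hxL this; linarith)
  have hpowA : Real.log x ^ A0 ≤ Real.log x ^ A' :=
    Real.rpow_le_rpow_of_exponent_le (by (clear * - hlogx2; linarith)) (by (clear * -; linarith))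
  have hWA' : (W : ℝ) ≤ Real.log x ^ A' := hWA.trans hpowA
  have hhA' : ∀ i, (h i : ℝ) ≤ Real.log x ^ A' := fun i => (hhA i).trans hpowA
  have hWr : (0 : ℝ) < W := by exact_mod_cast hS.W_pos
  have hphi : (0 : ℝ) < W.totient := by exact_mod_cast Nat.totient_pos.2 hS.W_pos
  obtain ⟨c, hcW, hc1, hcD, hGood, hM1, hAl, hAu, hBl, hBu, hV⟩ := hXa x hxa W hReg hWA'
  have hc : 0 < c := lt_of_lt_of_le hac hcD
  set R := lev x with hRdef
  set w := wp R W with hw
  set w' := wp' R W with hw'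
  set t := tp R W with ht
  set γ : Finset (PS R W) → ℝ := gam K J with hγ
  set A := A1 w γ with hAdef
  set B := B1 w γ with hBdef
  set V := V0 w t with hVdef
  set L := c * Real.log R with hLdef
  have hlogR : 0 < Real.log R := Real.log_pos (by exact_mod_cast (by omega : 1 < R))
  have hL0 : 0 < L := mul_pos hc hlogR
  have hA0' : 0 ≤ A := A1_nonneg hGood
  have hB1 : 1 ≤ B := by
    refine le_trans ?_ hBl
    refine hxB.trans ?_
    exact mul_le_mul_of_nonneg_left (mul_le_mul_of_nonneg_right hcD hlogR.le) hab.le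
  have hV0 : 0 < V := lt_of_lt_of_le (mul_pos (by norm_num) hL0) hV
  have hRr : (1 : ℝ) ≤ R := by exact_mod_cast (by omega : 1 ≤ R)
  -- the weights 1/(p-1)
  have hpD : ∀ p : PS R W, ((K : ℝ) + 2) ≤ ((p : ℕ) : ℝ) := by
    intro p
    have h1 := PS_large hS.small p
    have h2 : K + 2 ≤ (K + 2) ^ 10 := Nat.le_self_pow (by norm_num) _
    exact_mod_cast (h2.trans hD2).trans h1
  obtain ⟨hw'0, hw'K, hww', hww2⟩ := wp_facts hpD
  have hwK : ∀ p, (K : ℝ) * w p ≤ 1 := fun p => (good_mul_le hGood p).1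
  have hwK1 : ∀ p, ((Fintype.card (Option κ) : ℕ) : ℝ) * w p ≤ 1 := by
    intro p
    have h2 : ((Fintype.card (Option κ) : ℕ) : ℝ) = K + 1 := by
      rw [Fintype.card_option]
      push_cast
      rfl
    rw [h2]
    exact (good_mul_le hGood p).2
  -- S and the error terms
  set Lx := Real.log x / (2 * W) with hLx
  have hLx0 : 0 < Lx := div_pos hlogx (mul_pos two_pos hWr)
  set S := Lx * B ^ K with hSdef
  have hS0 : 0 < S := mul_pos hLx0 (pow_pos (lt_of_lt_of_le one_pos hB1) K)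
  set err : ℝ := 1 / Real.log x ^ A' with herr
  have hεlx : 2 / εs ≤ Real.log x := by (clear * - hxL; linarith)
  have hLxS : Lx ≤ S := by
    rw [hSdef]
    exact le_mul_of_one_le_right hLx0.le (one_le_pow₀ hB1)
  obtain ⟨herrS, herr1, herrε⟩ := num_err hlogx2 hWr hWA hLx hLxS (show err =
    1 / Real.log x ^ (A0 + 2) from rfl) hεs0 hεlx
  have ha1 : ∀ p, ∀ i ∈ (univ : Finset κ), ∀ i' ∈ (univ : Finset κ), i ≠ i' →
      ¬ (((p : PS R W) : ℕ) : ℤ) ∣ (h i : ℤ) - h i' := by
    intro p i _ i' _ hii hdvd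
    have h1 := hS.diff i i' hii p (PS_prime p) hdvd
    have h2 := p.2
    simp only [PS, mem_filter] at h2
    exact h2.2.2 h1
  refine ⟨fun n => 1 / (n : ℝ) * sw h (lam w (yw t γ)) n, S, ?_, hS0, ?_, ?_, ?_, ?_⟩
  · exact fun n => sw_term_nonneg _ _ n
  · -- total
    have h1 := hX1 x hx1 h W v hS.W_pos hS.small hWA' (fun _ => univ) ha1 (yw t γ)
      (fun c => (yw_abs_le hGood c).trans hRr)
      (fun c hc => (yw_supp hc).trans (by norm_num)) (fun _ _ _ _ _ => mem_univ _)
    have h2 := hG1 (PS R W) κ w (yw t γ) hGood.w_nonneg hwK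
    have h3 := h2.trans (energy_le hT hGood)
    have h4 := (abs_le.1 h1).2
    have h5 : Lx * Qf (fun p => pr κ (w p)) (lam w (yw t γ)) ≤ S :=
      mul_le_mul_of_nonneg_left h3 hLx0.le
    (clear * - herr1 h4 h5; linarith)
  · -- primes
    intro m
    have h1 := hX2 x hx2 h W v hS hWA' hhA' m (yw t γ) (fun c => yw_abs_le hGood c)
      (fun c hc => yw_supp hc)
    have h2 := hG2 (PS R W) κ w w' m (yw t γ) hw'0 hw'K
    have h3 := hL (PS R W) κ w w' t γ _ _ hGood hww' hww2 hM1 m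
    have h4 := h3.trans h2
    refine le_trans ?_ h1
    have h5 : c0 / 25000 * ((J + 2) / (K : ℝ)) * S ≤ c0 / (W.totient : ℝ) *
        (1 / 2 * (A ^ 2 * B ^ (K - 1))) :=
      num_prime hK hc0 hc hphi hWr hcW hLdef hlogR hlogx hxl hB1 hAl hBu
    have h6 : c0 / (W.totient : ℝ) * (1 / 2 * (A ^ 2 * B ^ (K - 1))) ≤
        c0 / (W.totient : ℝ) * Qf (fun p => prm m (w' p)) (lam w (yw t γ)) :=
      mul_le_mul_of_nonneg_left h4 (div_pos hc0 hphi).le
    have h7 : err ≤ c0 / 50000 * ((J + 2) / (K : ℝ)) * S :=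
      herrε.trans (mul_le_mul_of_nonneg_right (min_le_left _ _) hS0.le)
    have h8 : c0 / 25000 * ((J + 2) / (K : ℝ)) * S = 2 * (c0 / 50000 * ((J + 2) / (K : ℝ)) * S) := by
      ring
    rw [h8] at h5
    (clear * - h5 h6 h7; linarith)
  · -- pairs
    intro m m' hmm
    obtain ⟨y', hy1, hy2, hy3, hy4⟩ := hP (PS R W) κ w t γ _ _ hGood m m' hmm
    have hAR : A ^ 2 ≤ R := by
      refine le_trans (pow_le_pow_left₀ hA0' hAu 2) (le_trans ?_ hxA)
      have : L ≤ Real.log R := by
        rw [hLdef]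
        calc c * Real.log R ≤ 1 * Real.log R := mul_le_mul_of_nonneg_right hc1 hlogR.le
          _ = Real.log R := one_mul _
      exact pow_le_pow_left₀ (mul_pos haa hL0).le (mul_le_mul_of_nonneg_left this haa.le) 2
    have h1 := hX1 x hx1 h W v hS.W_pos hS.small hWA' (fun _ => univ) ha1 y'
      (fun c => (hy3 c).trans hAR) hy2 (fun _ _ _ _ _ => mem_univ _)
    have h2 := hG1 (PS R W) κ w y' hGood.w_nonneg hwK
    have h4 := (abs_le.1 h1).2
    have hK2 : 2 ≤ K := by
      rw [hKdef]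
      exact Fintype.one_lt_card_iff.2 ⟨m, m', hmm⟩
    -- the weights agree
    have h5 : ∀ n ∈ (NS x W v).filter (fun n => (n + h m).Prime ∧ (n + h m').Prime),
        sw h (lam w (yw t γ)) n = sw h (lam w y') n := by
      intro n hn
      rw [mem_filter] at hn
      have hgt := NS_gt hn.1 (by (clear * - hXa3 hxa; linarith))
      unfold sw
      congr 1
      refine Finset.sum_congr rfl fun c hc => ?_
      rw [mem_filter] at hc
      exact (hy1 c (cls_empty hc.2 hn.2.1 (by omega)) (cls_empty hc.2 hn.2.2 (by omega))).symm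
    have h6 : ∑ n ∈ (NS x W v).filter (fun n => (n + h m).Prime ∧ (n + h m').Prime),
        1 / (n : ℝ) * sw h (lam w (yw t γ)) n ≤ ∑ n ∈ NS x W v, 1 / (n : ℝ) * sw h (lam w y') n := by
      rw [Finset.sum_congr rfl fun n hn => by rw [h5 n hn]]
      exact Finset.sum_le_sum_of_subset_of_nonneg (Finset.filter_subset _ _)
        fun n _ _ => sw_term_nonneg _ _ n
    have h7 : Lx * Qf (fun p => pr κ (w p)) (lam w y') ≤
        ((J + 2) / (10 * (K : ℝ))) ^ 2 * S := by
      set E := ∑ c : PS R W → Option κ, ws w (supp c) * y' c ^ 2 with hE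
      have e9 : E ≤ ((J + 2) / (10 * (K : ℝ))) ^ 2 * B ^ K :=
        num_pair hK2 hL0 hA0' (by (clear * - hB1; linarith)) hV0 hAu hBl hV hy4
      calc Lx * Qf (fun p => pr κ (w p)) (lam w y') ≤ Lx * E :=
            mul_le_mul_of_nonneg_left h2 hLx0.le
        _ ≤ Lx * (((J + 2) / (10 * (K : ℝ))) ^ 2 * B ^ K) :=
            mul_le_mul_of_nonneg_left e9 hLx0.le
        _ = _ := by rw [hSdef]; ring
    have h8 : err ≤ ((J + 2) / (10 * (K : ℝ))) ^ 2 * S :=
      herrε.trans (mul_le_mul_of_nonneg_right (min_le_right _ _) hS0.le)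
    (clear * - h4 h6 h7 h8; linarith)
  · -- other primes
    intro j hj
    set bad : Finset (PS R W) :=
      univ.filter (fun p : PS R W => ∃ i, (((p : PS R W) : ℕ) : ℤ) ∣ (h i : ℤ) - j) with hbad
    obtain ⟨y', hy1, hy2, hy3, hy4⟩ := hSt (PS R W) κ w t γ _ _ hGood bad
    obtain ⟨a, ha⟩ : ∃ a : PS R W → Finset (Option κ), ∀ p o, o ∈ a p ↔ (o = none → p ∉ bad) :=
      ⟨fun p => univ.filter (fun o => o = none → p ∉ bad), fun p o => by simp⟩
    have ha2 : ∀ p, ∀ o ∈ a p, ∀ o' ∈ a p, o ≠ o' →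
        ¬ (((p : PS R W) : ℕ) : ℤ) ∣ ((ext h j o : ℕ) : ℤ) - (ext h j o' : ℕ) := by
      intro p o ho o' ho' hoo
      rw [ha] at ho ho'
      cases o with
      | none =>
        cases o' with
        | none => exact absurd rfl hoo
        | some i =>
          intro hdvd
          apply ho rfl
          rw [hbad, mem_filter]
          refine ⟨mem_univ _, i, ?_⟩
          have e1 : ((h i : ℤ) - j) = - (((ext h j none : ℕ) : ℤ) - (ext h j (some i) : ℕ)) := by
            simp [ext]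
          rw [e1]
          exact (dvd_neg).2 hdvd
      | some i =>
        cases o' with
        | none =>
          intro hdvd
          apply ho' rfl
          rw [hbad, mem_filter]
          exact ⟨mem_univ _, i, hdvd⟩
        | some i' =>
          exact ha1 p i (mem_univ _) i' (mem_univ _) (fun hh => hoo (by rw [hh]))
    have ha3 : ∀ c, y' c ≠ 0 → ∀ p o, c p = some o → o ∈ a p := by
      intro c hc p o hpo
      rw [ha]
      intro ho hp
      rw [ho] at hpo
      exact (hy2 c hc).2 p hp hpo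
    have h1 := hX3 x hx3' (ext h j) W v hS.W_pos hS.small hWA' a ha2 y'
      (fun c => (hy3 c).trans hRr) (fun c hc => (hy2 c hc).1.trans (by norm_num)) ha3
    have h2 := hG1 (PS R W) (Option κ) w y' hGood.w_nonneg hwK1
    have h4 := (abs_le.1 h1).2
    have h5 : ∀ n ∈ (NS x W v).filter (fun n => (n + j).Prime),
        sw h (lam w (yw t γ)) n = sw (ext h j) (lam w y') n := by
      intro n hn
      rw [mem_filter] at hn
      have hgt := NS_gt hn.1 (by (clear * - hXa3 hxa; linarith))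
      exact (sw_star hn.2 (by omega) hy1).symm
    have h6 : ∑ n ∈ (NS x W v).filter (fun n => (n + j).Prime),
        1 / (n : ℝ) * sw h (lam w (yw t γ)) n ≤
        ∑ n ∈ NS x W v, 1 / (n : ℝ) * sw (ext h j) (lam w y') n := by
      rw [Finset.sum_congr rfl fun n hn => by rw [h5 n hn]]
      exact Finset.sum_le_sum_of_subset_of_nonneg (Finset.filter_subset _ _)
        fun n _ _ => sw_term_nonneg _ _ n
    set Sg : ℝ := ∏ p ∈ (∏ i, ((h i : ℤ) - j).natAbs).primeFactors, (1 + 1 / (p : ℝ)) with hSg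
    have hSg1 : 1 ≤ Sg := bad_prod_ge h j
    have hbadSg : ∏ p ∈ bad, (1 + w p) ≤ Sg :=
      bad_prod h j hj bad (fun p hp => by
        rw [hbad, mem_filter] at hp
        exact hp.2)
    set E := ∑ c : PS R W → Option (Option κ), ws w (supp c) * y' c ^ 2 with hE
    have h7 : 9 / 10 * (1 / (32 * (D0 : ℝ)) * Real.log R) ≤ V :=
      le_trans (mul_le_mul_of_nonneg_left (mul_le_mul_of_nonneg_right hcD hlogR.le)
        (by norm_num)) hV
    have h8 : Lx * Qf (fun p => pr (Option κ) (w p)) (lam w y') + err ≤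
        6000 * D0 / Real.log x * Sg * S :=
      num_star_end hD00 hV0 hlogx hxl h7 hy4 hbadSg hSg1 hB1 hLx0 h2 hSdef herrS
    (clear * - h4 h6 h8; linarith)

end Pool.Agent.Helper1.MT

end

section

set_option autoImplicit false

set_option linter.unusedSectionVars false

open Finset

namespace Pool.Agent.Helper87.MT

open Pool.Agent.Helper1.MT

open Pool.Agent.Helper90.MT (sg sg_prod ws_nonneg superSum memSum mem_cls mem_supp prod_supp ws_supp T_supp cls_inj prod_one_add_le exp_le_two)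

variable {ι κ : Type} [Fintype ι] [Fintype κ] [DecidableEq ι] [DecidableEq κ]

theorem lam_eq {m m' : κ} {w t : ι → ℝ} {γ : Finset ι → ℝ} (hw : ∀ p, 0 ≤ w p)
    {c : ι → Option κ} (h1 : cls c m = ∅) (h2 : cls c m' = ∅) :
    lam w (fun c' => (∏ p, sg (c' p)) * Fv m m' w t γ c') c = lam w (yw t γ) c := by
  have h3 : yw t γ = fun c' : ι → Option κ => (∏ p, sg (c' p)) * Yv t γ c' := by
    funext c'
    unfold yw Yv
    rw [sg_prod]
  rw [h3, lam_sg w _ h1 h2, lam_sg w _ h1 h2]
  refine Finset.sum_congr rfl fun b _ => ?_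
  rw [sum_Fv hw]
  rfl

theorem Vb_ge {m m' : κ} (hmm : m ≠ m') {w t : ι → ℝ} (hw : ∀ p, 0 ≤ w p) (ht : ∀ p, 0 ≤ t p)
    {b : ι → Option κ} (hb : rs m m' b = b) :
    (1 - ∑ p, w p ^ 2) * (∑ S : Finset ι, Gd t (supp b) S * ws w S) ^ 2 ≤ Vb m m' w t b := by
  set H : Finset ι → ℝ := fun S => Gd t (supp b) S * ws w S with hH
  have hH0 : ∀ S, 0 ≤ H S := fun S => mul_nonneg (Gd_nonneg _ _ _) (Pool.Agent.Helper90.MT.ws_nonneg hw S)
  set F : Finset ι → Finset ι → ℝ := fun S S' =>
    ws w S * ws w S' * (if T t S ≤ 1 ∧ T t S' ≤ 1 then 1 else 0) with hF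
  have hF0 : ∀ S S', 0 ≤ F S S' := by
    intro S S'
    refine mul_nonneg (mul_nonneg (Pool.Agent.Helper90.MT.ws_nonneg hw S) (Pool.Agent.Helper90.MT.ws_nonneg hw S')) ?_
    split_ifs
    · exact zero_le_one
    · exact le_rfl
  have h1 : Vb m m' w t b = ∑ c ∈ fib m m' b, F (cls c m) (cls c m') := by
    unfold Vb
    refine Finset.sum_congr rfl fun c _ => ?_
    rw [w2_cls hmm]
    rfl
  rw [h1]
  refine le_trans ?_ (fib_sum_ge hmm hb hF0)
  have h2 : ∀ x : Finset ι × Finset ι, H x.1 * H x.2 *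
      (1 - ∑ p, (if p ∈ x.1 then 1 else 0) * (if p ∈ x.2 then 1 else 0)) ≤
      if Disjoint x.1 x.2 ∧ Disjoint x.1 (supp b) ∧ Disjoint x.2 (supp b) then F x.1 x.2 else 0 := by
    rintro ⟨S, S'⟩
    simp only
    have hsum0 : (0 : ℝ) ≤ ∑ p, (if p ∈ S then (1 : ℝ) else 0) * (if p ∈ S' then 1 else 0) := by
      refine Finset.sum_nonneg fun p _ => mul_nonneg ?_ ?_
      · split_ifs <;> norm_num
      · split_ifs <;> norm_num
    by_cases hd : Disjoint S S'
    · by_cases h3 : Disjoint S (supp b) ∧ Disjoint S' (supp b)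
      · rw [if_pos ⟨hd, h3.1, h3.2⟩]
        have h4 : H S * H S' = F S S' := by
          simp only [hH, hF, Gd]
          by_cases h5 : T t S ≤ 1
          · by_cases h6 : T t S' ≤ 1
            · simp [h5, h6, h3.1, h3.2]
            · simp [h5, h6]
          · simp [h5]
        rw [← h4]
        (clear * - hsum0 hH0; nlinarith [mul_nonneg (hH0 S) (hH0 S')])
      · rw [if_neg fun h => h3 ⟨h.2.1, h.2.2⟩]
        have h4 : H S * H S' = 0 := by
          simp only [hH, Gd]
          by_cases h5 : Disjoint S (supp b)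
          · have h6 : ¬ Disjoint S' (supp b) := fun h => h3 ⟨h5, h⟩
            simp [h6]
          · simp [h5]
        rw [h4, zero_mul]
    · rw [if_neg fun h => hd h.1]
      obtain ⟨q, hq, hq'⟩ := Finset.not_disjoint_iff.1 hd
      have h4 : (1 : ℝ) ≤ ∑ p, (if p ∈ S then (1 : ℝ) else 0) * (if p ∈ S' then 1 else 0) := by
        have h5 := Finset.single_le_sum (s := univ)
          (f := fun p => (if p ∈ S then (1 : ℝ) else 0) * (if p ∈ S' then 1 else 0))
          (fun p _ => mul_nonneg (by split_ifs <;> norm_num) (by split_ifs <;> norm_num))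
          (Finset.mem_univ q)
        simpa [hq, hq'] using h5
      exact mul_nonpos_of_nonneg_of_nonpos (mul_nonneg (hH0 S) (hH0 S')) (by (clear * - h4; linarith))
  rw [Finset.sum_filter]
  refine le_trans ?_ (Finset.sum_le_sum fun x _ => h2 x)
  have h3 : ∑ x : Finset ι × Finset ι, H x.1 * H x.2 *
      (1 - ∑ p, (if p ∈ x.1 then 1 else 0) * (if p ∈ x.2 then 1 else 0)) =
      (∑ S, H S) ^ 2 - ∑ p, (∑ S, if p ∈ S then H S else 0) ^ 2 := by
    have h4 : ∀ x : Finset ι × Finset ι, H x.1 * H x.2 *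
      (1 - ∑ p, (if p ∈ x.1 then 1 else 0) * (if p ∈ x.2 then 1 else 0)) = H x.1 * H x.2 -
        ∑ p, (if p ∈ x.1 then H x.1 else 0) * (if p ∈ x.2 then H x.2 else 0) := by
      intro x
      rw [mul_sub, mul_one, Finset.mul_sum]
      congr 1
      refine Finset.sum_congr rfl fun p _ => ?_
      by_cases h5 : p ∈ x.1
      · by_cases h6 : p ∈ x.2
        · simp [h5, h6]
        · simp [h6]
      · simp [h5]
    simp only [h4]
    rw [Finset.sum_sub_distrib, Finset.sum_comm (s := (univ : Finset (Finset ι × Finset ι)))]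
    congr 1
    · rw [pow_two, Finset.sum_mul_sum, ← Finset.univ_product_univ, Finset.sum_product]
    · refine Finset.sum_congr rfl fun p _ => ?_
      rw [pow_two, Finset.sum_mul_sum, ← Finset.univ_product_univ, Finset.sum_product]
  rw [h3]
  have h5 : ∀ p, (∑ S, if p ∈ S then H S else 0) ^ 2 ≤ (w p * ∑ S, H S) ^ 2 := by
    intro p
    have h6 := memSum hw (Gd_nonneg t (supp b)) (Gd_anti ht (supp b)) p
    refine pow_le_pow_left₀ (Finset.sum_nonneg fun S _ => ?_) h6 2
    split_ifs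
    · exact hH0 S
    · exact le_rfl
  have h7 : ∑ p, (∑ S, if p ∈ S then H S else 0) ^ 2 ≤ (∑ p, w p ^ 2) * (∑ S, H S) ^ 2 := by
    refine (Finset.sum_le_sum fun p _ => h5 p).trans (le_of_eq ?_)
    rw [Finset.sum_mul]
    exact Finset.sum_congr rfl fun p _ => by ring
  (clear * - h7; linarith)

/-- The sum of `γ² w ∏ (1 + w)²`. -/
theorem sum_sq_le {w : ι → ℝ} (hw : ∀ p, 0 ≤ w p) (hw1 : ∀ p, w p ≤ 1) {γ : Finset ι → ℝ}
    (h0 : ∀ S, 0 ≤ γ S) (hanti : ∀ S S', S ⊆ S' → γ S' ≤ γ S) :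
    ∑ S : Finset ι, γ S ^ 2 * ws w S * (∏ p ∈ S, (1 + w p)) ^ 2 ≤
      B1 w γ * Real.exp (3 * ∑ p, w p ^ 2) := by
  set u : ι → ℝ := fun p => 2 * w p + w p ^ 2 with hu
  have hu0 : ∀ p, 0 ≤ u p := fun p => by
    simp only [hu]
    have := hw p
    (clear * - this; positivity)
  have h1 : ∀ S : Finset ι, (∏ p ∈ S, (1 + w p)) ^ 2 = ∑ U ∈ S.powerset, ws u U := by
    intro S
    have h2 : (∏ p ∈ S, (1 + w p)) ^ 2 = ∏ p ∈ S, (1 + u p) := by
      rw [← Finset.prod_pow]
      refine Finset.prod_congr rfl fun p _ => ?_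
      simp only [hu]
      ring
    rw [h2, Finset.prod_one_add]
    rfl
  have h3 : ∑ S : Finset ι, γ S ^ 2 * ws w S * (∏ p ∈ S, (1 + w p)) ^ 2 =
      ∑ U : Finset ι, ws u U * ∑ S ∈ univ.filter (fun S : Finset ι => U ⊆ S),
        γ S ^ 2 * ws w S := by
    have h4 : ∀ S : Finset ι, γ S ^ 2 * ws w S * (∏ p ∈ S, (1 + w p)) ^ 2 =
        ∑ U : Finset ι, if U ⊆ S then ws u U * (γ S ^ 2 * ws w S) else 0 := by
      intro S
      rw [h1, Finset.mul_sum, ← Finset.sum_filter]
      have h5 : S.powerset = univ.filter (fun U : Finset ι => U ⊆ S) := by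
        ext U
        simp
      rw [h5]
      exact Finset.sum_congr rfl fun U _ => by ring
    simp only [h4]
    rw [Finset.sum_comm]
    refine Finset.sum_congr rfl fun U _ => ?_
    rw [← Finset.sum_filter, Finset.mul_sum]
  rw [h3]
  have hg0 : ∀ S, 0 ≤ γ S ^ 2 := fun S => sq_nonneg _
  have hga : ∀ S S', S ⊆ S' → γ S' ^ 2 ≤ γ S ^ 2 := fun S S' h =>
    pow_le_pow_left₀ (h0 S') (hanti S S' h) 2
  have hB : 0 ≤ B1 w γ := Finset.sum_nonneg fun S _ => mul_nonneg (hg0 S) (Pool.Agent.Helper90.MT.ws_nonneg hw S)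
  calc ∑ U : Finset ι, ws u U * ∑ S ∈ univ.filter (fun S : Finset ι => U ⊆ S),
        γ S ^ 2 * ws w S
      ≤ ∑ U : Finset ι, ws u U * (ws w U * B1 w γ) :=
        Finset.sum_le_sum fun U _ => mul_le_mul_of_nonneg_left
          (superSum hw hg0 hga U) (Pool.Agent.Helper90.MT.ws_nonneg hu0 U)
    _ = B1 w γ * ∑ U : Finset ι, ws (fun p => u p * w p) U := by
        rw [Finset.mul_sum]
        refine Finset.sum_congr rfl fun U _ => ?_
        unfold ws
        rw [Finset.prod_mul_distrib]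
        ring
    _ = B1 w γ * ∏ p, (1 + u p * w p) := by
        rw [Finset.prod_one_add, Finset.powerset_univ]
        rfl
    _ ≤ B1 w γ * Real.exp (3 * ∑ p, w p ^ 2) := by
        refine mul_le_mul_of_nonneg_left ?_ hB
        refine (prod_one_add_le (fun p => u p * w p) fun p => mul_nonneg (hu0 p) (hw p)).trans ?_
        rw [Real.exp_le_exp, Finset.mul_sum]
        refine Finset.sum_le_sum fun p _ => ?_
        simp only [hu]
        (clear * - hw hw1; nlinarith [hw p, hw1 p, mul_nonneg (hw p) (hw p), mul_nonneg (mul_nonneg (hw p) (hw p))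
          (sub_nonneg.2 (hw1 p))])

theorem energy_term {m m' : κ} (hmm : m ≠ m') {w t : ι → ℝ} {γ : Finset ι → ℝ}
    (hw : ∀ p, 0 ≤ w p) (ht : ∀ p, 0 ≤ t p) (h0 : ∀ S, 0 ≤ γ S) (hη : ∑ p, w p ^ 2 ≤ 1)
    (b : ι → Option κ) :
    ws w (supp b) * (Zb m m' w t γ b / Vb m m' w t b) ^ 2 * Vb m m' w t b *
      (V0 w t ^ 2 * (1 - ∑ p, w p ^ 2)) ≤ A1 w γ ^ 4 * ∏ i, Gt m m' w γ i (cls b i) := by
  have hG : 0 ≤ ∏ i, Gt m m' w γ i (cls b i) := Finset.prod_nonneg fun i _ => Gt_nonneg hw γ i _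
  by_cases hb : rs m m' b = b
  · set Z := Zb m m' w t γ b with hZ
    set V := Vb m m' w t b with hV
    set P := ∏ p ∈ supp b, (1 + w p) with hP
    set S0 := ∑ S : Finset ι, Gd t (supp b) S * ws w S with hS0
    have hV1 : 1 ≤ V := Vb_ge_one hw hb
    have hV0 : 0 < V := lt_of_lt_of_le zero_lt_one hV1
    have hZ0 : 0 ≤ Z := Zb_nonneg hw h0 b
    have hZ1 : Z ≤ gb m m' γ b * A1 w γ ^ 2 := Zb_le hmm hw h0 b
    have h1 : (1 - ∑ p, w p ^ 2) * S0 ^ 2 ≤ V := Vb_ge hmm hw ht hb
    have h2 : V0 w t ≤ P * S0 := V0_le hw ht (supp b)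
    have hV00 : 0 ≤ V0 w t := Finset.sum_nonneg fun S _ => Pool.Agent.Helper90.MT.ws_nonneg hw S
    have h3 : V0 w t ^ 2 * (1 - ∑ p, w p ^ 2) ≤ P ^ 2 * V := by
      have h4 : V0 w t ^ 2 ≤ (P * S0) ^ 2 := pow_le_pow_left₀ hV00 h2 2
      calc V0 w t ^ 2 * (1 - ∑ p, w p ^ 2) ≤ (P * S0) ^ 2 * (1 - ∑ p, w p ^ 2) :=
            mul_le_mul_of_nonneg_right h4 (by (clear * - hη; linarith))
        _ = P ^ 2 * ((1 - ∑ p, w p ^ 2) * S0 ^ 2) := by ring
        _ ≤ P ^ 2 * V := mul_le_mul_of_nonneg_left h1 (sq_nonneg _)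
    have h5 : (Z / V) ^ 2 * V * (V0 w t ^ 2 * (1 - ∑ p, w p ^ 2)) ≤
        (gb m m' γ b * A1 w γ ^ 2) ^ 2 * P ^ 2 := by
      calc (Z / V) ^ 2 * V * (V0 w t ^ 2 * (1 - ∑ p, w p ^ 2))
          ≤ (Z / V) ^ 2 * V * (P ^ 2 * V) :=
            mul_le_mul_of_nonneg_left h3 (mul_nonneg (sq_nonneg _) hV0.le)
        _ = Z ^ 2 * P ^ 2 := by
            (clear * - hV1; field_simp)
        _ ≤ _ := mul_le_mul_of_nonneg_right (pow_le_pow_left₀ hZ0 hZ1 2) (sq_nonneg _)
    rw [← prod_Gt w γ hb]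
    have hws : 0 ≤ ws w (supp b) := Pool.Agent.Helper90.MT.ws_nonneg hw _
    calc ws w (supp b) * (Z / V) ^ 2 * V * (V0 w t ^ 2 * (1 - ∑ p, w p ^ 2))
        = ws w (supp b) * ((Z / V) ^ 2 * V * (V0 w t ^ 2 * (1 - ∑ p, w p ^ 2))) := by ring
      _ ≤ ws w (supp b) * ((gb m m' γ b * A1 w γ ^ 2) ^ 2 * P ^ 2) :=
          mul_le_mul_of_nonneg_left h5 hws
      _ = _ := by ring
  · have h1 : fib m m' b = ∅ := by
      rw [Finset.eq_empty_iff_forall_notMem]
      intro c hc
      apply hb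
      rw [← mem_fib.1 hc, rs_idem]
    have h2 : Vb m m' w t b = 0 := by
      unfold Vb
      rw [h1, Finset.sum_empty]
    rw [h2, mul_zero, zero_mul]
    exact mul_nonneg (pow_nonneg (A1_nonneg hw h0) 4) hG

theorem pairMajorant (hT : TupleSum) : PairMajorant := by
  intro ι κ _ _ _ _ w t γ τ η hg m m' hmm
  have hw := hg.w_nonneg
  have ht := hg.t_nonneg
  have h0 := hg.g_nonneg
  have hK2 : 2 ≤ Fintype.card κ := by
    have h1 : ({m, m'} : Finset κ).card ≤ Fintype.card κ := Finset.card_le_univ _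
    rwa [Finset.card_pair hmm] at h1
  have hK : (2 : ℝ) ≤ Fintype.card κ := by exact_mod_cast hK2
  have hw1 : ∀ p, w p ≤ 1 := by
    intro p
    have h1 := hg.w_le p
    have h2 := hw p
    nlinarith
  set q := ∑ p, w p ^ 2 with hq
  have hq0 : 0 ≤ q := Finset.sum_nonneg fun p _ => sq_nonneg _
  have hqK : 1000 * (Fintype.card κ : ℝ) ^ 2 * q ≤ 1 := by
    have h1 := hg.eta
    have h2 := hg.sq
    have h3 : (0 : ℝ) ≤ 1000 * (Fintype.card κ : ℝ) ^ 2 := by (clear * - hK2; positivity)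
    (clear * - h1 h2 h3; nlinarith [mul_le_mul_of_nonneg_left h2 h3])
  have hqK' : 1000 * (Fintype.card κ : ℝ) * q ≤ 1 := by
    have h1 : (Fintype.card κ : ℝ) * q ≤ (Fintype.card κ : ℝ) ^ 2 * q := by
      have h2 : (Fintype.card κ : ℝ) ≤ (Fintype.card κ : ℝ) ^ 2 := by (clear * - hK; nlinarith)
      exact mul_le_mul_of_nonneg_right h2 hq0
    (clear * - hqK h1; linarith)
  have hq1 : q ≤ 1 / 2 := by (clear * - hK hqK; nlinarith)
  have hA : 0 ≤ A1 w γ := A1_nonneg hw h0
  refine ⟨fun c => (∏ p, sg (c p)) * Fv m m' w t γ c, ?_, ?_, ?_, ?_⟩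
  · intro c h1 h2
    exact lam_eq hw h1 h2
  · intro c hc
    have h1 : Fv m m' w t γ c ≠ 0 := right_ne_zero_of_mul hc
    have h2 : rho m m' t c ≠ 0 := left_ne_zero_of_mul h1
    have h3 : Zb m m' w t γ (rs m m' c) ≠ 0 := by
      intro h
      apply h1
      unfold Fv
      rw [h, zero_div, mul_zero]
    obtain ⟨c'', hc'', h4⟩ := Finset.exists_ne_zero_of_sum_ne_zero h3
    have h5 : Yv t γ c'' ≠ 0 := right_ne_zero_of_mul h4
    have h6 : T t (supp c'') ≤ 1 := by
      by_contra h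
      apply h5
      unfold Yv
      rw [if_neg h]
    have h7 : T t (cls c m) ≤ 1 ∧ T t (cls c m') ≤ 1 := by
      by_contra h
      apply h2
      unfold rho
      rw [if_neg h]
    have h8 : T t (supp (rs m m' c)) ≤ T t (supp c'') := by
      rw [← mem_fib.1 hc'']
      exact T_mono ht (supp_rs_sub m m' c'')
    rw [T_rs hmm]
    (clear * - h6 h7 h8; linarith [h7.1, h7.2])
  · intro c
    rw [abs_mul]
    have h1 : |∏ p, sg (c p)| = 1 := by
      have h2 := sg_sq c
      rw [← sq_abs] at h2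
      (clear * - h2; nlinarith [abs_nonneg (∏ p, sg (c p))])
    rw [h1, one_mul]
    have hb : rs m m' (rs m m' c) = rs m m' c := rs_idem m m' c
    have hV1 : 1 ≤ Vb m m' w t (rs m m' c) := Vb_ge_one hw hb
    have hZ0 : 0 ≤ Zb m m' w t γ (rs m m' c) := Zb_nonneg hw h0 _
    have hZ1 : Zb m m' w t γ (rs m m' c) ≤ gb m m' γ (rs m m' c) * A1 w γ ^ 2 :=
      Zb_le hmm hw h0 _
    have hd0 : 0 ≤ Zb m m' w t γ (rs m m' c) / Vb m m' w t (rs m m' c) :=
      div_nonneg hZ0 (by (clear * - hV1; linarith))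
    have h2 : 0 ≤ Fv m m' w t γ c := mul_nonneg (rho_nonneg c) hd0
    rw [abs_of_nonneg h2]
    have h3 : Zb m m' w t γ (rs m m' c) / Vb m m' w t (rs m m' c) ≤
        Zb m m' w t γ (rs m m' c) := div_le_self hZ0 hV1
    have h4 : gb m m' γ (rs m m' c) * A1 w γ ^ 2 ≤ 1 * A1 w γ ^ 2 :=
      mul_le_mul_of_nonneg_right (gb_le_one h0 hg.g_le _) (sq_nonneg _)
    calc Fv m m' w t γ c
        ≤ 1 * (Zb m m' w t γ (rs m m' c) / Vb m m' w t (rs m m' c)) :=
          mul_le_mul_of_nonneg_right (rho_le c) hd0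
      _ ≤ A1 w γ ^ 2 := by (clear * - hZ1 h3 h4; linarith)
  · rw [energy_eq]
    set C := ∑ S : Finset ι, γ S ^ 2 * ws w S * (∏ p ∈ S, (1 + w p)) ^ 2 with hC
    set E := ∑ b : ι → Option κ, ws w (supp b) * (Zb m m' w t γ b / Vb m m' w t b) ^ 2 *
        Vb m m' w t b with hE
    have hB : 0 ≤ B1 w γ := Finset.sum_nonneg fun S _ => mul_nonneg (sq_nonneg _) (Pool.Agent.Helper90.MT.ws_nonneg hw S)
    have hC0 : 0 ≤ C := Finset.sum_nonneg fun S _ =>
      mul_nonneg (mul_nonneg (sq_nonneg _) (Pool.Agent.Helper90.MT.ws_nonneg hw S)) (sq_nonneg _)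
    have h1 : E * (V0 w t ^ 2 * (1 - q)) ≤ A1 w γ ^ 4 * C ^ (Fintype.card κ - 2) := by
      rw [hE, Finset.sum_mul]
      refine (Finset.sum_le_sum fun b _ =>
        energy_term hmm hw ht h0 (by (clear * - hq1; linarith) : ∑ p, w p ^ 2 ≤ 1) b).trans ?_
      rw [← Finset.mul_sum, ← prod_Gt_sum hmm]
      exact mul_le_mul_of_nonneg_left
        (hT ι κ (Gt m m' w γ) fun i S => Gt_nonneg hw γ i S) (pow_nonneg hA 4)
    have h2 : C ≤ B1 w γ * Real.exp (3 * q) := sum_sq_le hw hw1 h0 hg.g_anti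
    have h3 : C ^ (Fintype.card κ - 2) ≤ 2 * B1 w γ ^ (Fintype.card κ - 2) := by
      refine (pow_le_pow_left₀ hC0 h2 _).trans ?_
      rw [mul_pow, ← Real.exp_nat_mul, mul_comm]
      refine mul_le_mul_of_nonneg_right ?_ (pow_nonneg hB _)
      have h4 : ((Fintype.card κ - 2 : ℕ) : ℝ) ≤ Fintype.card κ := by
        exact_mod_cast Nat.sub_le _ _
      have h5 : (0 : ℝ) ≤ ((Fintype.card κ - 2 : ℕ) : ℝ) := Nat.cast_nonneg _
      have h6 : ((Fintype.card κ - 2 : ℕ) : ℝ) * (3 * q) ≤ 1 / 2 := by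
        (clear * - hqK' h4 hq0; nlinarith [mul_le_mul_of_nonneg_right h4 hq0])
      have h7 := exp_le_two (mul_nonneg h5 (mul_nonneg (by norm_num : (0 : ℝ) ≤ 3) hq0)) h6
      (clear * - h6 h7; linarith)
    have h4 : E * (V0 w t ^ 2 * (1 - q)) ≤ A1 w γ ^ 4 * (2 * B1 w γ ^ (Fintype.card κ - 2)) :=
      h1.trans (mul_le_mul_of_nonneg_left h3 (pow_nonneg hA 4))
    have hE0 : 0 ≤ E * V0 w t ^ 2 := by
      refine mul_nonneg ?_ (sq_nonneg _)
      rw [hE]
      refine Finset.sum_nonneg fun b _ => mul_nonneg (mul_nonneg (Pool.Agent.Helper90.MT.ws_nonneg hw _) (sq_nonneg _)) ?_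
      exact Finset.sum_nonneg fun c _ => mul_nonneg (w2_nonneg hw c) (rho_nonneg c)
    (clear * - h4 hE0 hK hqK'; nlinarith)

end Pool.Agent.Helper87.MT

end

section

set_option autoImplicit false

set_option linter.unusedSectionVars false

open Finset

namespace Pool.Agent.Helper12.MT

open Pool.Agent.Helper1.MT

open Pool.Agent.Helper90.MT (ws_nonneg mem_cls mem_supp ws_supp prod_one_add_le)

section Sums

variable {ι κ : Type} [Fintype ι] [Fintype κ] [DecidableEq ι] [DecidableEq κ]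

/-- The majorant. -/
noncomputable def yst (w t : ι → ℝ) (γ : Finset ι → ℝ) (bad : Finset ι)
    (c : ι → Option (Option κ)) : ℝ :=
  (-1) ^ (sstar c).card * (if T t (sstar c) ≤ 1 ∧ Disjoint (sstar c) bad then 1 else 0) *
    (yw t γ (spart c) / VV w t bad (spart c))

theorem yst_smk (w t : ι → ℝ) (γ : Finset ι → ℝ) (bad : Finset ι) {b : ι → Option κ}
    {S : Finset ι} (h : Disjoint S (supp b)) :
    yst w t γ bad (smk b S) = (-1) ^ S.card * (if T t S ≤ 1 ∧ Disjoint S bad then 1 else 0) *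
      (yw t γ b / VV w t bad b) := by
  unfold yst
  rw [sstar_smk, spart_smk h]

theorem lam_yst {w t : ι → ℝ} (hw : ∀ p, 0 ≤ w p) (γ : Finset ι → ℝ) (bad : Finset ι)
    (c : ι → Option κ) :
    lam w (yst w t γ bad) (fun p => (c p).map some) = lam w (yw t γ) c := by
  unfold lam
  rw [sum_star]
  refine Finset.sum_congr rfl fun b _ => ?_
  have hV : VV w t bad b ≠ 0 := (lt_of_lt_of_le one_pos (one_le_VV hw bad b)).ne'
  have h1 : ∀ S ∈ univ.filter (fun S => Disjoint S (supp b)),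
      (∏ p, inv (w p) ((c p).map some) (smk b S p)) * yst w t γ bad (smk b S) =
        (∏ p, inv (w p) (c p) (b p)) * (yw t γ b / VV w t bad b) *
          (if T t S ≤ 1 ∧ Disjoint S bad then ws w S else 0) := by
    intro S hS
    have hS' : Disjoint S (supp b) := (Finset.mem_filter.1 hS).2
    rw [prod_inv w c b hS', yst_smk w t γ bad hS']
    have h2 : ∏ p ∈ S, (- w p) = (-1) ^ S.card * ws w S := by
      unfold ws
      rw [← Finset.prod_const, ← Finset.prod_mul_distrib]
      refine Finset.prod_congr rfl fun p _ => ?_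
      ring
    rw [h2]
    have h3 : ((-1 : ℝ) ^ S.card) * (-1) ^ S.card = 1 := by
      rw [← mul_pow]
      norm_num
    by_cases h : T t S ≤ 1 ∧ Disjoint S bad
    · rw [if_pos h, if_pos h]
      linear_combination (ws w S * (∏ p, inv (w p) (c p) (b p)) *
        (yw t γ b / VV w t bad b)) * h3
    · rw [if_neg h, if_neg h]
      ring
  rw [Finset.sum_congr rfl h1, ← Finset.mul_sum, ← Finset.sum_filter]
  have h4 : ∑ S ∈ (univ.filter (fun S => Disjoint S (supp b))).filter
      (fun S => T t S ≤ 1 ∧ Disjoint S bad), ws w S = VV w t bad b := rfl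
  rw [h4, mul_assoc, div_mul_cancel₀ _ hV]

theorem energy_yst {w t : ι → ℝ} (hw : ∀ p, 0 ≤ w p) (γ : Finset ι → ℝ) (bad : Finset ι) :
    ∑ c : ι → Option (Option κ), ws w (supp c) * yst w t γ bad c ^ 2 =
      ∑ b : ι → Option κ, ws w (supp b) * yw t γ b ^ 2 / VV w t bad b := by
  rw [sum_star]
  refine Finset.sum_congr rfl fun b _ => ?_
  have hV : VV w t bad b ≠ 0 := (lt_of_lt_of_le one_pos (one_le_VV hw bad b)).ne'
  have h1 : ∀ S ∈ univ.filter (fun S => Disjoint S (supp b)),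
      ws w (supp (smk b S)) * yst w t γ bad (smk b S) ^ 2 =
        ws w (supp b) * (yw t γ b / VV w t bad b) ^ 2 *
          (if T t S ≤ 1 ∧ Disjoint S bad then ws w S else 0) := by
    intro S hS
    have hS' : Disjoint S (supp b) := (Finset.mem_filter.1 hS).2
    rw [supp_smk, yst_smk w t γ bad hS']
    have h2 : ws w (S ∪ supp b) = ws w S * ws w (supp b) := Finset.prod_union hS'
    rw [h2, mul_pow, mul_pow]
    have h3 : ((-1 : ℝ) ^ S.card) ^ 2 = 1 := by
      rw [← pow_mul, mul_comm, pow_mul]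
      norm_num
    rw [h3]
    by_cases h : T t S ≤ 1 ∧ Disjoint S bad
    · rw [if_pos h, if_pos h]
      ring
    · rw [if_neg h, if_neg h]
      ring
  rw [Finset.sum_congr rfl h1, ← Finset.mul_sum, ← Finset.sum_filter]
  have h4 : ∑ S ∈ (univ.filter (fun S => Disjoint S (supp b))).filter
      (fun S => T t S ≤ 1 ∧ Disjoint S bad), ws w S = VV w t bad b := rfl
  rw [h4]
  (clear * - hV; field_simp)

end Sums

theorem starMajorant (hT : TupleSum) : StarMajorant := by
  intro ι κ _ _ _ _ w t γ τ η hG bad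
  refine ⟨yst w t γ bad, fun c => lam_yst hG.w_nonneg γ bad c, fun c hc => ?_, fun c => ?_, ?_⟩
  · -- the support
    unfold yst at hc
    have h1 : T t (sstar c) ≤ 1 ∧ Disjoint (sstar c) bad := by
      by_contra h
      rw [if_neg h] at hc
      simp at hc
    have h2 : T t (supp (spart c)) ≤ 1 := by
      by_contra h
      unfold yw at hc
      rw [if_neg h] at hc
      simp at hc
    constructor
    · have h3 : supp c = sstar c ∪ supp (spart c) := by
        conv_lhs => rw [← smk_self c]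
        rw [supp_smk]
      have h4 : T t (supp c) = T t (sstar c) + T t (supp (spart c)) := by
        rw [h3]
        exact Finset.sum_union (disj_self c)
      rw [h4]
      (clear * - h1 h2; linarith [h1.1])
    · intro p hp hcp
      refine Finset.disjoint_right.1 h1.2 hp ?_
      simp [sstar, hcp]
  · -- the bound
    unfold yst
    rw [abs_mul, abs_mul, abs_pow, abs_neg, abs_one, one_pow, one_mul, abs_div]
    have h1 := one_le_VV hG.w_nonneg (t := t) bad (spart c)
    have h2 := yw_abs_le (t := t) hG.g_nonneg hG.g_le (spart c)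
    have h3 : |yw t γ (spart c)| / |VV w t bad (spart c)| ≤ 1 := by
      rw [abs_of_nonneg (le_trans zero_le_one h1)]
      rw [div_le_one (lt_of_lt_of_le one_pos h1)]
      exact h2.trans h1
    by_cases h : T t (sstar c) ≤ 1 ∧ Disjoint (sstar c) bad
    · rw [if_pos h, abs_one, one_mul]
      exact h3
    · rw [if_neg h, abs_zero, zero_mul]
      exact zero_le_one
  · -- the energy
    rw [energy_yst hG.w_nonneg]
    have hbad : 0 ≤ ∏ p ∈ bad, (1 + w p) :=
      Finset.prod_nonneg fun p _ => by linarith [hG.w_nonneg p]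
    have h1 : (∑ b : ι → Option κ, ws w (supp b) * yw t γ b ^ 2 / VV w t bad b) * V0 w t ≤
        (∑ b : ι → Option κ, ∏ i, (γ (cls b i) ^ 2 *
          (ws w (cls b i) * ∏ p ∈ cls b i, (1 + w p)))) * ∏ p ∈ bad, (1 + w p) := by
      rw [Finset.sum_mul, Finset.sum_mul]
      refine Finset.sum_le_sum fun b _ => ?_
      have hV := lt_of_lt_of_le one_pos (one_le_VV hG.w_nonneg (t := t) bad b)
      have h2 := V0_le hG.w_nonneg hG.t_nonneg bad b
      have h3 : 0 ≤ ws w (supp b) * yw t γ b ^ 2 / VV w t bad b :=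
        div_nonneg (mul_nonneg (Pool.Agent.Helper90.MT.ws_nonneg hG.w_nonneg _) (sq_nonneg _)) hV.le
      have h4 : 0 ≤ ws w (supp b) * ∏ p ∈ supp b, (1 + w p) :=
        mul_nonneg (Pool.Agent.Helper90.MT.ws_nonneg hG.w_nonneg _)
          (Finset.prod_nonneg fun p _ => by linarith [hG.w_nonneg p])
      calc ws w (supp b) * yw t γ b ^ 2 / VV w t bad b * V0 w t
          ≤ ws w (supp b) * yw t γ b ^ 2 / VV w t bad b *
            ((∏ p ∈ supp b, (1 + w p)) * (∏ p ∈ bad, (1 + w p)) * VV w t bad b) :=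
            mul_le_mul_of_nonneg_left h2 h3
        _ = yw t γ b ^ 2 * (ws w (supp b) * ∏ p ∈ supp b, (1 + w p)) *
            ∏ p ∈ bad, (1 + w p) := by
            (clear * - hV; field_simp)
        _ ≤ (∏ i, γ (cls b i) ^ 2) * (ws w (supp b) * ∏ p ∈ supp b, (1 + w p)) *
            ∏ p ∈ bad, (1 + w p) :=
            mul_le_mul_of_nonneg_right (mul_le_mul_of_nonneg_right (yw_sq_le b) h4) hbad
        _ = (∏ i, (γ (cls b i) ^ 2 * (ws w (cls b i) * ∏ p ∈ cls b i, (1 + w p)))) *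
            ∏ p ∈ bad, (1 + w p) := by
            rw [Pool.Agent.Helper90.MT.ws_supp, Pool.Agent.Helper90.MT.prod_supp (fun p => 1 + w p),
              Finset.prod_mul_distrib, Finset.prod_mul_distrib]
    refine h1.trans ?_
    refine mul_le_mul_of_nonneg_right ?_ hbad
    have h5 := hT ι κ (fun _ S => γ S ^ 2 * (ws w S * ∏ p ∈ S, (1 + w p)))
      (fun _ S => mul_nonneg (sq_nonneg _) (mul_nonneg (Pool.Agent.Helper90.MT.ws_nonneg hG.w_nonneg _)
        (Finset.prod_nonneg fun p _ => by (clear * - hG; linarith [hG.w_nonneg p]))))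
    refine h5.trans ?_
    rw [Finset.prod_const, Finset.card_univ]
    have h6 := sum_energy hG.w_nonneg hG.g_nonneg hG.g_anti
    have h7 : 0 ≤ ∑ S : Finset ι, γ S ^ 2 * (ws w S * ∏ p ∈ S, (1 + w p)) :=
      Finset.sum_nonneg fun S _ => mul_nonneg (sq_nonneg _) (mul_nonneg (Pool.Agent.Helper90.MT.ws_nonneg hG.w_nonneg _)
        (Finset.prod_nonneg fun p _ => by (clear * - hG; linarith [hG.w_nonneg p])))
    have h8 : 0 ≤ B1 w γ :=
      Finset.sum_nonneg fun S _ => mul_nonneg (sq_nonneg _) (Pool.Agent.Helper90.MT.ws_nonneg hG.w_nonneg _)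
    refine (pow_le_pow_left₀ h7 h6 _).trans ?_
    rw [mul_pow]
    refine mul_le_mul_of_nonneg_right ?_ (pow_nonneg h8 _)
    have h9 : ∏ p, (1 + w p ^ 2) ≤ Real.exp η :=
      (prod_one_add_le (fun p => w p ^ 2) (fun p => sq_nonneg _)).trans
        (Real.exp_le_exp.2 hG.sq)
    have h10 : 0 ≤ ∏ p, (1 + w p ^ 2) := Finset.prod_nonneg fun p _ => by (clear * -; positivity)
    refine (pow_le_pow_left₀ h10 h9 _).trans ?_
    rw [← Real.exp_nat_mul]
    have hη0 : 0 ≤ η := le_trans (Finset.sum_nonneg fun p _ => sq_nonneg _) hG.sq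
    have h11 : (Fintype.card κ : ℝ) * η ≤ 1 / 1000 := by
      rcases Nat.eq_zero_or_pos (Fintype.card κ) with hK | hK
      · rw [hK]
        norm_num
      · have hK1 : (1 : ℝ) ≤ Fintype.card κ := by exact_mod_cast hK
        have h12 := hG.eta
        (clear * - h12 hK1 hη0; nlinarith [mul_nonneg (sub_nonneg.2 hK1) (mul_nonneg (le_trans zero_le_one hK1) hη0)])
    have h13 := Pool.Agent.Helper90.MT.exp_le_two
      (mul_nonneg (Nat.cast_nonneg (Fintype.card κ)) hη0) (by (clear * - h11; linarith))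
    (clear * - h11 h13; linarith)

end Pool.Agent.Helper12.MT

end

section

set_option autoImplicit false

open Finset Filter

namespace Pool.Agent.Helper18.MT

open Pool.Agent.Helper1.MT

open Pool.Agent.Helper74.MT

/-- MU-N1. -/
theorem sumGen (hE : Expand) : SumGen := by
  intro κ _ _ D0 A _hD0 hA
  have ev1 : ∀ᶠ x : ℝ in atTop, Real.log x ^ A ≤ x ^ (23 / 54 : ℝ) := by
    have h1 := (isLittleO_log_rpow_rpow_atTop A (by norm_num : (0 : ℝ) < 23 / 54)).bound
      (c := 1) one_pos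
    filter_upwards [h1, eventually_ge_atTop (3 : ℝ)] with x hx hx3
    rw [one_mul] at hx
    refine (le_abs_self _).trans (hx.trans (le_of_eq ?_))
    exact abs_of_nonneg (Real.rpow_nonneg (by (clear * - hx3; linarith)) _)
  have ev2 : ∀ᶠ x : ℝ in atTop,
      4 * Real.exp (4 * Fintype.card κ) ^ 2 * Real.log x ^ A ≤ x ^ (53 / 162 : ℝ) := by
    have h1 := (isLittleO_log_rpow_rpow_atTop A (by norm_num : (0 : ℝ) < 53 / 162)).bound
      (c := (4 * Real.exp (4 * Fintype.card κ) ^ 2)⁻¹) (by positivity)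
    filter_upwards [h1, eventually_ge_atTop (3 : ℝ)] with x hx hx3
    have h2 : Real.log x ^ A ≤ (4 * Real.exp (4 * Fintype.card κ) ^ 2)⁻¹ * x ^ (53 / 162 : ℝ) := by
      refine (le_abs_self _).trans (hx.trans (le_of_eq ?_))
      congr 1
      exact abs_of_nonneg (Real.rpow_nonneg (by (clear * - hx3; linarith)) _)
    have h3 : (0 : ℝ) < 4 * Real.exp (4 * Fintype.card κ) ^ 2 := by positivity
    calc 4 * Real.exp (4 * Fintype.card κ) ^ 2 * Real.log x ^ A
        ≤ 4 * Real.exp (4 * Fintype.card κ) ^ 2 *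
          ((4 * Real.exp (4 * Fintype.card κ) ^ 2)⁻¹ * x ^ (53 / 162 : ℝ)) :=
          mul_le_mul_of_nonneg_left h2 h3.le
      _ = x ^ (53 / 162 : ℝ) := by
          rw [← mul_assoc, mul_inv_cancel₀ h3.ne', one_mul]
  have ev3 : ∀ᶠ x : ℝ in atTop, (2 : ℝ) ≤ x ^ (1 / 81 : ℝ) :=
    (tendsto_rpow_atTop (by norm_num)).eventually (eventually_ge_atTop _)
  obtain ⟨X1, hX1⟩ := eventually_atTop.1 (ev1.and (ev2.and ev3))
  refine ⟨max 9 X1, le_trans (by norm_num) (le_max_left _ _), ?_⟩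
  intro x hx h W v hW _hsmall hWA a ha y hy hT hya
  have hx9 : 9 ≤ x := (le_max_left _ _).trans hx
  obtain ⟨hWx, hKx, h2x⟩ := hX1 x ((le_max_right _ _).trans hx)
  have hlog : 0 < Real.log x ^ A :=
    Real.rpow_pos_of_pos (Real.log_pos (by (clear * - hx9; linarith))) _
  refine sumGen_core hE hW hx9 hlog (hWA.trans hWx) hKx ?_ ?_ a ha y hy hT hya
  · unfold lev
    exact Nat.le_floor (by exact_mod_cast h2x)
  · unfold lev
    exact Nat.floor_le (Real.rpow_nonneg (by (clear * - hx9; linarith)) _)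

end Pool.Agent.Helper18.MT

end

section

set_option autoImplicit false

open Finset

namespace Pool.Agent.Helper83.MT

open Pool.Agent.Helper1.MT

variable {R W : ℕ}

theorem crt {κ : Type} {D0 : ℕ} {h : κ → ℕ} {v : ℕ} (hS : Setup D0 h W v) (m : κ)
    (i : PS R W → κ) (S : Finset (PS R W)) (hi : ∀ p ∈ S, i p ≠ m) :
    ∃ a : ℕ, Nat.Coprime a (W * ∏ p ∈ S, (p : ℕ)) ∧
      ∀ n : ℕ, (n ≡ v [MOD W] ∧ ∀ p ∈ S, (p : ℕ) ∣ n + h (i p)) ↔
        n + h m ≡ a [MOD W * ∏ p ∈ S, (p : ℕ)] := by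
  classical
  induction S using Finset.induction_on with
  | empty =>
    refine ⟨v + h m, ?_, ?_⟩
    · rw [Finset.prod_empty, mul_one]
      exact hS.cop m
    · intro n
      rw [Finset.prod_empty, mul_one]
      constructor
      · rintro ⟨h1, -⟩
        exact h1.add_right _
      · intro h1
        exact ⟨Nat.ModEq.add_right_cancel' _ h1, by simp⟩
  | insert p S hp ih =>
    obtain ⟨a, ha1, ha2⟩ := ih (fun q hq => hi q (Finset.mem_insert_of_mem hq))
    have hpp := PS_prime p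
    have hcop := coprime_step S p hp
    set b : ℕ := h m + (p - 1) * h (i p) with hb
    obtain ⟨a', ha'1, ha'2⟩ := Nat.chineseRemainder hcop a b
    have h1 : W * ∏ q ∈ insert p S, (q : ℕ) = (W * ∏ q ∈ S, (q : ℕ)) * p := by
      rw [Finset.prod_insert hp]; ring
    have hpsplit : ((p : ℕ) - 1) + 1 = (p : ℕ) := Nat.sub_add_cancel hpp.one_le
    refine ⟨a', ?_, ?_⟩
    · rw [h1, Nat.coprime_mul_iff_right]
      constructor
      · have := ha'1.gcd_eq
        unfold Nat.Coprime
        rw [this]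
        exact ha1
      · rw [Nat.coprime_comm, hpp.coprime_iff_not_dvd]
        intro hdvd
        have h2 : (p : ℕ) ∣ b := (ha'2.dvd_iff (dvd_refl _)).1 hdvd
        have h3 : ((p : ℕ) : ℤ) ∣ (h m : ℤ) - h (i p) := by
          have h4 : ((p : ℕ) : ℤ) ∣ (b : ℤ) := by exact_mod_cast h2
          have h5 : (h m : ℤ) - h (i p) = b - (p : ℕ) * h (i p) := by
            rw [hb]
            push_cast [Nat.cast_sub hpp.one_le]
            ring
          rw [h5]
          exact dvd_sub h4 (dvd_mul_right _ _)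
        exact PS_not_dvd p (hS.diff m (i p) (Ne.symm (hi p (Finset.mem_insert_self _ _))) p hpp h3)
    · intro n
      rw [h1, ← Nat.modEq_and_modEq_iff_modEq_mul hcop]
      have h2 : (p : ℕ) ∣ n + h (i p) ↔ n + h m ≡ a' [MOD p] := by
        constructor
        · intro h3
          refine Nat.ModEq.trans ?_ ha'2.symm
          rw [hb, add_comm n]
          apply Nat.ModEq.add_left
          apply Nat.ModEq.add_right_cancel' (h (i p))
          have h4 : ((p : ℕ) - 1) * h (i p) + h (i p) = (p : ℕ) * h (i p) := by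
            calc ((p : ℕ) - 1) * h (i p) + h (i p) = (((p : ℕ) - 1) + 1) * h (i p) := by ring
              _ = _ := by rw [hpsplit]
          rw [h4]
          exact ((Nat.modEq_zero_iff_dvd.2 h3)).trans
            (Nat.modEq_zero_iff_dvd.2 (dvd_mul_right _ _)).symm
        · intro h3
          have h4 := h3.trans ha'2
          rw [hb, add_comm n] at h4
          have h5 := (Nat.ModEq.add_left_cancel' _ h4).add_right (h (i p))
          have h6 : ((p : ℕ) - 1) * h (i p) + h (i p) = (p : ℕ) * h (i p) := by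
            calc ((p : ℕ) - 1) * h (i p) + h (i p) = (((p : ℕ) - 1) + 1) * h (i p) := by ring
              _ = _ := by rw [hpsplit]
          rw [h6] at h5
          exact Nat.modEq_zero_iff_dvd.1 (h5.trans (Nat.modEq_zero_iff_dvd.2 (dvd_mul_right _ _)))
      constructor
      · rintro ⟨h3, h4⟩
        refine ⟨?_, ?_⟩
        · exact ((ha2 n).1 ⟨h3, fun q hq => h4 q (Finset.mem_insert_of_mem hq)⟩).trans ha'1.symm
        · exact h2.1 (h4 p (Finset.mem_insert_self _ _))
      · rintro ⟨h3, h4⟩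
        have h5 := (ha2 n).2 (h3.trans ha'1)
        refine ⟨h5.1, ?_⟩
        intro q hq
        rcases Finset.mem_insert.1 hq with rfl | hq
        · exact h2.2 h4
        · exact h5.2 q hq

theorem Dv_iff {κ : Type} {D0 : ℕ} {h : κ → ℕ} {v : ℕ} (hS : Setup D0 h W v)
    (c : PS R W → Option κ) (n : ℕ) : Dv h c n ↔ Le c (sig h n) := by
  classical
  have huniq : ∀ (p : PS R W) (i j : κ), (p : ℕ) ∣ n + h i → (p : ℕ) ∣ n + h j → i = j := by
    intro p i j hi hj
    by_contra hne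
    apply PS_not_dvd p
    apply hS.diff i j hne p (PS_prime p)
    have h1 : ((p : ℕ) : ℤ) ∣ ((n + h i : ℕ) : ℤ) := by exact_mod_cast hi
    have h2 : ((p : ℕ) : ℤ) ∣ ((n + h j : ℕ) : ℤ) := by exact_mod_cast hj
    have h3 : (h i : ℤ) - h j = ((n + h i : ℕ) : ℤ) - ((n + h j : ℕ) : ℤ) := by
      push_cast; ring
    rw [h3]
    exact dvd_sub h1 h2
  constructor
  · intro hD p
    cases hc : c p with
    | none => left; rfl
    | some i =>
      right
      have h1 := hD p i hc
      have h2 : ∃ i, (p : ℕ) ∣ n + h i := ⟨i, h1⟩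
      unfold sig
      rw [dif_pos h2, huniq p i _ h1 h2.choose_spec]
  · intro hL p i hc
    rcases hL p with h1 | h1
    · rw [hc] at h1; cases h1
    · rw [hc] at h1
      unfold sig at h1
      split_ifs at h1 with h2
      rw [Option.some.injEq] at h1
      rw [h1]
      exact h2.choose_spec

end Pool.Agent.Helper83.MT

end

section

set_option autoImplicit false

open Finset Filter Topology

open scoped ArithmeticFunction.vonMangoldt

namespace Pool.Agent.Helper83.MT

open Pool.Agent.Helper1.MT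

open Pool.Agent.Helper18.BV (wt IsWt)

theorem sw_eq {κ : Type} [Fintype κ] [DecidableEq κ] {D0 : ℕ} {h : κ → ℕ} {R W v : ℕ}
    (hS : Setup D0 h W v) (f : (PS R W → Option κ) → ℝ) (n : ℕ) :
    sw h f n = (∑ c ∈ univ.filter (fun c : PS R W → Option κ => Le c (sig h n)), f c) ^ 2 := by
  classical
  unfold sw
  congr 1
  apply Finset.sum_congr _ (fun _ _ => rfl)
  ext c
  simp only [Finset.mem_filter, Dv_iff hS]

end Pool.Agent.Helper83.MT

end
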