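import Pool.Agent.Helper23.MT.L01_acd0
import Pool.Agent.Helper23.MT.L01_acd2
import Pool.Agent.Helper23.MT.L01_acd3
import Pool.Agent.Helper23.MT.L01_acd4
import Pool.Agent.Helper23.MT.L01_ad0

/-!
Parts of Helper90.MT.LowerMain, Helper83.MT.Crt, Helper83.MT.SumPrime, Helper81.MT.OneDimU
-/

namespace Pool.Agent.Helper1.MT
end Pool.Agent.Helper1.MT
namespace Pool.Agent.Helper28.MT
end Pool.Agent.Helper28.MT

section

set_option autoImplicit false

open Finset

namespace Pool.Agent.Helper90.MT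

open Pool.Agent.Helper1.MT

variable {ι κ : Type} [Fintype ι] [Fintype κ] [DecidableEq ι] [DecidableEq κ]

theorem signed_ym (m : κ) (w w' t : ι → ℝ) (γ : Finset ι → ℝ) (c : ι → Option κ) :
    (-1) ^ (supp c).card * ym m w w' (yw t γ) c =
      ∑ c' : ι → Option κ, (∏ p, k2 m (w p) (w' p) (c p) (c' p)) * Yt t γ c' := by
  unfold ym yw
  rw [Finset.mul_sum]
  refine Finset.sum_congr rfl fun c' _ => ?_
  have h1 : ∏ p, k2 m (w p) (w' p) (c p) (c' p) =
      (∏ p, sg (c p)) * (∏ p, ker m (w p) (w' p) (c p) (c' p)) * ∏ p, sg (c' p) := by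
    rw [← Finset.prod_mul_distrib, ← Finset.prod_mul_distrib]
    refine Finset.prod_congr rfl fun p _ => ?_
    rcases c p with _ | i
    · rcases c' p with _ | j
      · simp [k2, ker, sg]
      · by_cases h : j = m
        · simp [k2, ker, sg, h]
        · simp [k2, ker, sg, h]
    · rcases c' p with _ | j
      · simp [k2, ker, sg]
      · by_cases h : i = j
        · simp [k2, ker, sg, h]
        · simp [k2, ker, sg, h]
  rw [h1, ← sg_prod, ← sg_prod]
  unfold Yt
  ring

section Main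

variable {w w' t : ι → ℝ} {γ : Finset ι → ℝ} {τ η : ℝ}

theorem Yt_ext (hG : Good (Fintype.card κ) w t γ τ η) {m : κ} {c : ι → Option κ}
    (hc : cls c m = ∅) (hT : T t (supp c) ≤ 1 - τ) {S : Finset ι} (hS : Disjoint S (supp c)) :
    Yt t γ (ext m c S) = γ S * Pm m γ c := by
  have h1 : ∏ i : κ, γ (cls (ext m c S) i) = γ S * Pm m γ c := by
    rw [← Finset.mul_prod_erase univ _ (Finset.mem_univ m), cls_ext_self hc]
    congr 1
    unfold Pm
    refine Finset.prod_congr rfl fun i hi => ?_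
    rw [cls_ext_ne (Finset.ne_of_mem_erase hi) hS]
  unfold Yt
  rw [h1]
  split_ifs with h
  · rfl
  · rcases eq_or_ne (γ S) 0 with h0 | h0
    · rw [h0, zero_mul]
    · exfalso
      have h2 := hG.g_supp S h0
      apply h
      rw [supp_ext]
      unfold T at *
      rw [Finset.sum_union hS.symm]
      (clear * - hT h2; linarith)

theorem A_ge (hG : Good (Fintype.card κ) w t γ τ η) {m : κ} {c : ι → Option κ}
    (hc : cls c m = ∅) (hT : T t (supp c) ≤ 1 - τ) :
    Pm m γ c * (A1 w γ * (1 - ∑ p ∈ supp c, w p)) ≤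
      ∑ c' : ι → Option κ, (∏ p, kA m (w p) (c p) (c' p)) * Yt t γ c' := by
  have hD : ∀ S, S ∈ univ.filter (fun S : Finset ι => Disjoint S (supp c)) ↔
      Disjoint S (supp c) := fun S => by simp
  have hinj : Set.InjOn (fun S : Finset ι => ext m c S)
      (univ.filter (fun S : Finset ι => Disjoint S (supp c)) : Finset (Finset ι)) := by
    intro S _ S' _ h
    have h1 : ext m c S = ext m c S' := h
    rw [← cls_ext_self hc S, h1, cls_ext_self hc S']
  have h1 : ∑ S ∈ univ.filter (fun S : Finset ι => Disjoint S (supp c)),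
      γ S * ws w S * Pm m γ c ≤
      ∑ c' : ι → Option κ, (∏ p, kA m (w p) (c p) (c' p)) * Yt t γ c' := by
    have h2 : ∑ S ∈ univ.filter (fun S : Finset ι => Disjoint S (supp c)),
        γ S * ws w S * Pm m γ c =
        ∑ c' ∈ (univ.filter (fun S : Finset ι => Disjoint S (supp c))).image
          (fun S : Finset ι => ext m c S),
          (∏ p, kA m (w p) (c p) (c' p)) * Yt t γ c' := by
      rw [Finset.sum_image hinj]
      refine Finset.sum_congr rfl fun S hS => ?_
      rw [prod_kA_ext w ((hD S).1 hS), Yt_ext hG hc hT ((hD S).1 hS)]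
      ring
    rw [h2]
    refine Finset.sum_le_sum_of_subset_of_nonneg (Finset.subset_univ _) fun c' _ _ => ?_
    exact mul_nonneg (Finset.prod_nonneg fun p _ => kA_nonneg m (hG.w_nonneg p) _ _)
      (Yt_nonneg hG.g_nonneg _)
  refine le_trans ?_ h1
  rw [← Finset.sum_mul, mul_comm]
  refine mul_le_mul_of_nonneg_right ?_ (Pm_nonneg m hG.g_nonneg c)
  -- the sum over the sets disjoint from the support
  have h3 : ∀ S : Finset ι, γ S * ws w S ≤
      (if Disjoint S (supp c) then γ S * ws w S else 0) +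
        ∑ p ∈ supp c, (if p ∈ S then γ S * ws w S else 0) := by
    intro S
    have h0 : 0 ≤ γ S * ws w S := mul_nonneg (hG.g_nonneg S) (ws_nonneg hG.w_nonneg S)
    have h4 : ∀ p ∈ supp c, 0 ≤ (if p ∈ S then γ S * ws w S else 0) := by
      intro p _
      split_ifs
      · exact h0
      · exact le_rfl
    split_ifs with hS
    · have := Finset.sum_nonneg h4
      linarith
    · rw [Finset.not_disjoint_iff] at hS
      obtain ⟨p, hp, hp'⟩ := hS
      have := Finset.single_le_sum h4 hp'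
      rw [if_pos hp] at this
      linarith
  have h5 := Finset.sum_le_sum fun S (_ : S ∈ (univ : Finset (Finset ι))) => h3 S
  rw [Finset.sum_add_distrib, ← Finset.sum_filter, Finset.sum_comm] at h5
  have h6 : ∑ p ∈ supp c, ∑ S : Finset ι, (if p ∈ S then γ S * ws w S else 0) ≤
      ∑ p ∈ supp c, w p * A1 w γ := Finset.sum_le_sum fun p _ =>
        memSum hG.w_nonneg hG.g_nonneg hG.g_anti p
  rw [← Finset.sum_mul] at h6
  have h7 : A1 w γ = ∑ S : Finset ι, γ S * ws w S := rfl
  rw [← h7] at h5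
  (clear * - h5 h6; linarith)

/-- The lower bound for `ym`. -/
theorem ym_ge (hG : Good (Fintype.card κ) w t γ τ η) (hw1 : ∀ p, w p ≤ w' p)
    (hw2 : ∀ p, w' p - w p ≤ 2 * w p ^ 2) {m : κ} {c : ι → Option κ} (hc : cls c m = ∅)
    (hT : T t (supp c) ≤ 1 - τ) :
    Pm m γ c * A1 w γ * (1 - 2 * ∑ p ∈ supp c, w p - 4 * Fintype.card κ * η) ≤
      (-1) ^ (supp c).card * ym m w w' (yw t γ) c := by
  rw [signed_ym]
  have h1 : ∑ c' : ι → Option κ, (2 * (∏ p, kA m (w p) (c p) (c' p)) * Yt t γ c' -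
      (∏ p, |k2 m (w p) (w' p) (c p) (c' p)|) * Yt t γ c') ≤
      ∑ c' : ι → Option κ, (∏ p, k2 m (w p) (w' p) (c p) (c' p)) * Yt t γ c' := by
    refine Finset.sum_le_sum fun c' _ => ?_
    have h2 := mul_le_mul_of_nonneg_right (prod_k2_ge m w' hG.w_nonneg c c')
      (Yt_nonneg (t := t) hG.g_nonneg c')
    linarith
  refine le_trans ?_ h1
  rw [Finset.sum_sub_distrib]
  have h3 : ∑ c' : ι → Option κ, 2 * (∏ p, kA m (w p) (c p) (c' p)) * Yt t γ c' =
      2 * ∑ c' : ι → Option κ, (∏ p, kA m (w p) (c p) (c' p)) * Yt t γ c' := by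
    rw [Finset.mul_sum]
    exact Finset.sum_congr rfl fun c' _ => by ring
  rw [h3]
  have h4 := A_ge hG hc hT
  have h5 := B_le (γ := γ) hG hw1 hw2 hc
  (clear * - h4 h5; nlinarith)

theorem Gc_mem (hG : Good (Fintype.card κ) w t γ τ η) (m i : κ) (p : ι) :
    ∑ S : Finset ι, (if p ∈ S then Gc m w γ i S else 0) ≤ w p * ∑ S : Finset ι, Gc m w γ i S := by
  by_cases h : i = m
  · have h1 : ∀ S : Finset ι, (if p ∈ S then Gc m w γ i S else 0) = 0 := by
      intro S
      split_ifs with hp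
      · unfold Gc
        rw [if_pos h, if_neg]
        intro h2
        rw [h2] at hp
        simp at hp
      · rfl
    simp only [h1, Finset.sum_const_zero]
    exact mul_nonneg (hG.w_nonneg p) (Finset.sum_nonneg fun S _ => Gc_nonneg hG.w_nonneg m i S)
  · unfold Gc
    simp only [if_neg h]
    exact memSum hG.w_nonneg (G := fun S => γ S ^ 2) (fun S => sq_nonneg _)
      (fun S S' hS => by
        have h1 := hG.g_anti S S' hS
        have h2 := hG.g_nonneg S'
        exact pow_le_pow_left₀ h2 h1 2) p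

theorem pair_le (hG : Good (Fintype.card κ) w t γ τ η) (m i j : κ) (hij : i ≠ j) (p : ι) :
    ∑ f : κ → Finset ι, (if p ∈ f i ∧ p ∈ f j then ∏ l, Gc m w γ l (f l) else 0) ≤
      w p ^ 2 * B1 w γ ^ (Fintype.card κ - 1) := by
  have h1 : ∀ f : κ → Finset ι, (if p ∈ f i ∧ p ∈ f j then ∏ l, Gc m w γ l (f l) else 0) =
      ∏ l, (if l = i ∨ l = j then (if p ∈ f l then Gc m w γ l (f l) else 0)
        else Gc m w γ l (f l)) := by
    intro f
    split_ifs with h
    · refine Finset.prod_congr rfl fun l _ => ?_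
      split_ifs with h2 h3
      · rfl
      · exfalso
        rcases h2 with h2 | h2
        · exact h3 (h2 ▸ h.1)
        · exact h3 (h2 ▸ h.2)
      · rfl
    · symm
      rw [not_and_or] at h
      rcases h with h | h
      · exact Finset.prod_eq_zero (Finset.mem_univ i) (by simp [h])
      · exact Finset.prod_eq_zero (Finset.mem_univ j) (by simp [h])
  simp only [h1]
  have h2 := tuple_scale (G := fun l => Gc m w γ l)
    (G' := fun l S => if l = i ∨ l = j then (if p ∈ S then Gc m w γ l S else 0)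
      else Gc m w γ l S) (r := fun l => if l = i ∨ l = j then w p else 1)
    (fun l S => by
      have := Gc_nonneg (γ := γ) hG.w_nonneg m l S
      split_ifs
      · exact this
      · exact le_rfl
      · exact this)
    (fun l => by
      by_cases h : l = i ∨ l = j
      · simp only [if_pos h]
        exact Gc_mem hG m l p
      · simp only [if_neg h, one_mul]
        exact le_rfl)
  refine h2.trans (le_of_eq ?_)
  rw [Gc_prod_sum]
  congr 1
  rw [← Finset.prod_filter]
  have h3 : univ.filter (fun l => l = i ∨ l = j) = {i, j} := by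
    ext l
    simp
  rw [h3, Finset.prod_pair hij, sq]

/-- The sum of `∏ G i (cls c i)` over the colourings. -/
theorem Phi_ge (hG : Good (Fintype.card κ) w t γ τ η) (m : κ) :
    (1 - (Fintype.card κ : ℝ) ^ 2 * η) * B1 w γ ^ (Fintype.card κ - 1) ≤
      ∑ c : ι → Option κ, ∏ i, Gc m w γ i (cls c i) := by
  classical
  have hP : ∀ f : κ → Finset ι, 0 ≤ ∏ l, Gc m w γ l (f l) := fun f =>
    Finset.prod_nonneg fun l _ => Gc_nonneg hG.w_nonneg m l _
  have h1 := le_tuple (F := fun f : κ → Finset ι => ∏ l, Gc m w γ l (f l)) hP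
  refine le_trans ?_ h1
  have h2 : ∀ f : κ → Finset ι, ∏ l, Gc m w γ l (f l) ≤
      (if ∀ i j, i ≠ j → Disjoint (f i) (f j) then ∏ l, Gc m w γ l (f l) else 0) +
        ∑ i : κ, ∑ j : κ, ∑ p : ι, (if i ≠ j then
          (if p ∈ f i ∧ p ∈ f j then ∏ l, Gc m w γ l (f l) else 0) else 0) := by
    intro f
    have h0 := hP f
    have h3 : ∀ i j p, 0 ≤ (if i ≠ j then
          (if p ∈ f i ∧ p ∈ f j then ∏ l, Gc m w γ l (f l) else 0) else 0) := by
      intro i j p
      split_ifs
      · exact h0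
      · exact le_rfl
      · exact le_rfl
    split_ifs with h
    · have : 0 ≤ ∑ i : κ, ∑ j : κ, ∑ p : ι, (if i ≠ j then
          (if p ∈ f i ∧ p ∈ f j then ∏ l, Gc m w γ l (f l) else 0) else 0) :=
        Finset.sum_nonneg fun i _ => Finset.sum_nonneg fun j _ => Finset.sum_nonneg fun p _ =>
          h3 i j p
      linarith
    · push Not at h
      obtain ⟨i, j, hij, hd⟩ := h
      rw [Finset.not_disjoint_iff] at hd
      obtain ⟨p, hp, hp'⟩ := hd
      rw [zero_add]
      calc ∏ l, Gc m w γ l (f l) = (if i ≠ j then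
            (if p ∈ f i ∧ p ∈ f j then ∏ l, Gc m w γ l (f l) else 0) else 0) := by
            rw [if_pos hij, if_pos ⟨hp, hp'⟩]
        _ ≤ ∑ p : ι, (if i ≠ j then
            (if p ∈ f i ∧ p ∈ f j then ∏ l, Gc m w γ l (f l) else 0) else 0) :=
            Finset.single_le_sum (f := fun p => if i ≠ j then
              (if p ∈ f i ∧ p ∈ f j then ∏ l, Gc m w γ l (f l) else 0) else 0)
              (fun p _ => h3 i j p) (Finset.mem_univ p)
        _ ≤ ∑ j : κ, ∑ p : ι, (if i ≠ j then
            (if p ∈ f i ∧ p ∈ f j then ∏ l, Gc m w γ l (f l) else 0) else 0) :=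
            Finset.single_le_sum (f := fun j => ∑ p : ι, if i ≠ j then
              (if p ∈ f i ∧ p ∈ f j then ∏ l, Gc m w γ l (f l) else 0) else 0)
              (fun j _ => Finset.sum_nonneg fun p _ => h3 i j p) (Finset.mem_univ j)
        _ ≤ ∑ i : κ, ∑ j : κ, ∑ p : ι, (if i ≠ j then
            (if p ∈ f i ∧ p ∈ f j then ∏ l, Gc m w γ l (f l) else 0) else 0) :=
            Finset.single_le_sum (f := fun i => ∑ j : κ, ∑ p : ι, if i ≠ j then
              (if p ∈ f i ∧ p ∈ f j then ∏ l, Gc m w γ l (f l) else 0) else 0)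
              (fun i _ => Finset.sum_nonneg fun j _ => Finset.sum_nonneg fun p _ => h3 i j p)
              (Finset.mem_univ i)
  have h4 := Finset.sum_le_sum fun f (_ : f ∈ (univ : Finset (κ → Finset ι))) => h2 f
  rw [Finset.sum_add_distrib, ← Finset.sum_filter, ← prod_tuple, Gc_prod_sum] at h4
  have h5 : ∑ f : κ → Finset ι, ∑ i : κ, ∑ j : κ, ∑ p : ι, (if i ≠ j then
      (if p ∈ f i ∧ p ∈ f j then ∏ l, Gc m w γ l (f l) else 0) else 0) ≤
      (Fintype.card κ : ℝ) ^ 2 * η * B1 w γ ^ (Fintype.card κ - 1) := by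
    have hB := pow_nonneg (B1_nonneg (γ := γ) hG.w_nonneg) (Fintype.card κ - 1)
    rw [Finset.sum_comm]
    have h6 : ∀ i : κ, ∑ f : κ → Finset ι, ∑ j : κ, ∑ p : ι, (if i ≠ j then
        (if p ∈ f i ∧ p ∈ f j then ∏ l, Gc m w γ l (f l) else 0) else 0) ≤
        (Fintype.card κ : ℝ) * (η * B1 w γ ^ (Fintype.card κ - 1)) := by
      intro i
      rw [Finset.sum_comm]
      have h7 : ∀ j : κ, ∑ f : κ → Finset ι, ∑ p : ι, (if i ≠ j then
          (if p ∈ f i ∧ p ∈ f j then ∏ l, Gc m w γ l (f l) else 0) else 0) ≤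
          η * B1 w γ ^ (Fintype.card κ - 1) := by
        intro j
        have hη : 0 ≤ η := le_trans (Finset.sum_nonneg fun p _ => sq_nonneg _) hG.sq
        by_cases hij : i ≠ j
        · simp only [if_pos hij]
          rw [Finset.sum_comm]
          calc ∑ p : ι, ∑ f : κ → Finset ι,
                (if p ∈ f i ∧ p ∈ f j then ∏ l, Gc m w γ l (f l) else 0)
              ≤ ∑ p : ι, w p ^ 2 * B1 w γ ^ (Fintype.card κ - 1) :=
                Finset.sum_le_sum fun p _ => pair_le hG m i j hij p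
            _ = (∑ p : ι, w p ^ 2) * B1 w γ ^ (Fintype.card κ - 1) := by rw [Finset.sum_mul]
            _ ≤ _ := mul_le_mul_of_nonneg_right hG.sq hB
        · simp only [if_neg hij, Finset.sum_const_zero]
          exact mul_nonneg hη hB
      refine (Finset.sum_le_sum fun j _ => h7 j).trans ?_
      rw [Finset.sum_const, Finset.card_univ, nsmul_eq_mul]
    refine (Finset.sum_le_sum fun i _ => h6 i).trans ?_
    rw [Finset.sum_const, Finset.card_univ, nsmul_eq_mul]
    exact le_of_eq (by ring)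
  linarith

/-- The sum of `∏ G i (cls c i)` times a function of one class. -/
theorem Phi_u (hG : Good (Fintype.card κ) w t γ τ η)
    (hM : ((Fintype.card κ : ℝ) - 1) * M1 w t γ ≤ 1 / 10 * (1 - τ) * B1 w γ) (m i : κ) {α : ℝ}
    (hα : 0 ≤ α) :
    ∑ c : ι → Option κ, (∏ l, Gc m w γ l (cls c l)) *
        (α * ∑ p ∈ cls c i, w p + T t (cls c i) / (1 - τ)) ≤
      (if i = m then 0 else α * η + 1 / (10 * ((Fintype.card κ : ℝ) - 1))) *
        B1 w γ ^ (Fintype.card κ - 1) := by
  have hτ : 0 < 1 - τ := by have := hG.tau_le; (clear * - this; linarith)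
  have hu : ∀ S : Finset ι, 0 ≤ α * ∑ p ∈ S, w p + T t S / (1 - τ) := by
    intro S
    refine add_nonneg (mul_nonneg hα (Finset.sum_nonneg fun p _ => hG.w_nonneg p)) ?_
    exact div_nonneg (Finset.sum_nonneg fun p _ => hG.t_nonneg p) hτ.le
  have h1 := tuple_le (F := fun f : κ → Finset ι => (∏ l, Gc m w γ l (f l)) *
        (α * ∑ p ∈ f i, w p + T t (f i) / (1 - τ)))
        (fun f => mul_nonneg (Finset.prod_nonneg fun l _ => Gc_nonneg hG.w_nonneg m l _) (hu _))
  refine h1.trans ?_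
  have h2 : ∀ f : κ → Finset ι, (∏ l, Gc m w γ l (f l)) *
        (α * ∑ p ∈ f i, w p + T t (f i) / (1 - τ)) =
      ∏ l, (if l = i then Gc m w γ l (f l) * (α * ∑ p ∈ f l, w p + T t (f l) / (1 - τ))
        else Gc m w γ l (f l)) := by
    intro f
    rw [← Finset.mul_prod_erase univ _ (Finset.mem_univ i),
      ← Finset.mul_prod_erase univ (fun l => if l = i then _ else _) (Finset.mem_univ i),
      if_pos rfl]
    have h3 : ∏ l ∈ univ.erase i, (if l = i then Gc m w γ l (f l) *
        (α * ∑ p ∈ f l, w p + T t (f l) / (1 - τ)) else Gc m w γ l (f l)) =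
        ∏ l ∈ univ.erase i, Gc m w γ l (f l) :=
      Finset.prod_congr rfl fun l hl => if_neg (Finset.ne_of_mem_erase hl)
    rw [h3]
    ring
  simp only [h2]
  have h4 := tuple_scale (G := fun l => Gc m w γ l)
    (G' := fun l S => if l = i then Gc m w γ l S * (α * ∑ p ∈ S, w p + T t S / (1 - τ))
      else Gc m w γ l S)
    (r := fun l => if l = i then
      (if i = m then 0 else α * η + 1 / (10 * ((Fintype.card κ : ℝ) - 1))) else 1)
    (fun l S => by
      have := Gc_nonneg (γ := γ) hG.w_nonneg m l S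
      split_ifs
      · exact mul_nonneg this (hu S)
      · exact this)
    (fun l => by
      by_cases h : l = i
      · subst h
        simp only [if_true]
        by_cases hm : l = m
        · rw [if_pos hm, zero_mul]
          refine le_of_eq (Finset.sum_eq_zero fun S _ => ?_)
          unfold Gc
          rw [if_pos hm]
          split_ifs with hS
          · rw [hS]
            simp [T]
          · rw [zero_mul]
        · rw [if_neg hm, Gc_sum, if_neg hm]
          have hK : (2 : ℝ) ≤ Fintype.card κ := by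
            have : 1 < Fintype.card κ := Fintype.one_lt_card_iff.2 ⟨l, m, hm⟩
            exact_mod_cast this
          have h5 : ∑ S : Finset ι, Gc m w γ l S * (α * ∑ p ∈ S, w p + T t S / (1 - τ)) =
              α * (∑ S : Finset ι, γ S ^ 2 * ws w S * ∑ p ∈ S, w p) + M1 w t γ / (1 - τ) := by
            unfold M1
            rw [Finset.mul_sum, Finset.sum_div, ← Finset.sum_add_distrib]
            refine Finset.sum_congr rfl fun S _ => ?_
            unfold Gc
            rw [if_neg hm]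
            ring
          rw [h5]
          have h6 := sumSum hG.w_nonneg (G := fun S => γ S ^ 2) (fun S => sq_nonneg _)
            (fun S S' hS => pow_le_pow_left₀ (hG.g_nonneg S') (hG.g_anti S S' hS) 2)
          have h7 : ∑ S : Finset ι, γ S ^ 2 * ws w S = B1 w γ := rfl
          rw [h7] at h6
          have hB := B1_nonneg (γ := γ) hG.w_nonneg
          have h8 : (∑ p, w p ^ 2) * B1 w γ ≤ η * B1 w γ := mul_le_mul_of_nonneg_right hG.sq hB
          have h9 : M1 w t γ / (1 - τ) ≤ 1 / (10 * ((Fintype.card κ : ℝ) - 1)) * B1 w γ := by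
            rw [div_le_iff₀ hτ, one_div, ← div_eq_inv_mul, div_mul_eq_mul_div,
              le_div_iff₀ (by (clear * - hK; linarith))]
            (clear * - hM; linarith)
          have h10 := mul_le_mul_of_nonneg_left (h6.trans h8) hα
          linarith
      · simp only [if_neg h, one_mul]
        exact le_rfl)
  refine h4.trans (le_of_eq ?_)
  rw [Gc_prod_sum, Finset.prod_ite_eq' univ i]
  simp

/-- The lower bound for one term. -/
theorem term_ge (hG : Good (Fintype.card κ) w t γ τ η) (hw1 : ∀ p, w p ≤ w' p)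
    (hw2 : ∀ p, w' p - w p ≤ 2 * w p ^ 2) {m : κ} {c : ι → Option κ} (hc : cls c m = ∅) :
    A1 w γ ^ 2 * ((∏ i, Gc m w γ i (cls c i)) * (1 - 8 * Fintype.card κ * η -
      ((2 * Fintype.card κ + 4) * ∑ p ∈ supp c, w p + T t (supp c) / (1 - τ)))) ≤
      (∏ p ∈ supp c, w' p * (1 - ((Fintype.card κ : ℝ) - 1) * w' p)) *
          ym m w w' (yw t γ) c ^ 2 := by
  have hK : (1 : ℝ) ≤ Fintype.card κ := by
    have : 0 < Fintype.card κ := Fintype.card_pos_iff.2 ⟨m⟩
    exact_mod_cast this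
  have hη : 0 ≤ η := le_trans (Finset.sum_nonneg fun p _ => sq_nonneg _) hG.sq
  have hτ : 0 < 1 - τ := by have := hG.tau_le; (clear * - this; linarith)
  have hT0 : 0 ≤ T t (supp c) := Finset.sum_nonneg fun p _ => hG.t_nonneg p
  set s : ℝ := ∑ p ∈ supp c, w p with hs
  have hs0 : 0 ≤ s := Finset.sum_nonneg fun p _ => hG.w_nonneg p
  set K : ℝ := (Fintype.card κ : ℝ) with hKd
  have hws := ws_nonneg hG.w_nonneg (supp c)
  have hP := Pm_nonneg m hG.g_nonneg c
  have hA : 0 ≤ A1 w γ := Finset.sum_nonneg fun S _ =>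
    mul_nonneg (hG.g_nonneg _) (ws_nonneg hG.w_nonneg _)
  -- the right-hand side is nonnegative
  have hR : 0 ≤ (∏ p ∈ supp c, w' p * (1 - (K - 1) * w' p)) := by
    refine Finset.prod_nonneg fun p _ => ?_
    have h1 := wprime_ge hG hw1 hw2 m p
    have h0 := hG.w_nonneg p
    have h2 := hG.w_le p
    have h3 : 0 ≤ w p * (1 - 2 * K * w p) := mul_nonneg h0 (by (clear * - h0 h2; nlinarith))
    linarith
  rw [Phi_eq hc]
  have hTd : 0 ≤ T t (supp c) / (1 - τ) := div_nonneg hT0 hτ.le
  have hβ : 0 ≤ 8 * K * η := by (clear * - hK hη; positivity)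
  by_cases hh : 1 - 8 * K * η - ((2 * K + 4) * s + T t (supp c) / (1 - τ)) ≤ 0
  · have h1 : A1 w γ ^ 2 * (Pm m γ c ^ 2 * ws w (supp c) *
        (1 - 8 * K * η - ((2 * K + 4) * s + T t (supp c) / (1 - τ)))) ≤ 0 :=
      mul_nonpos_of_nonneg_of_nonpos (sq_nonneg _)
        (mul_nonpos_of_nonneg_of_nonpos (mul_nonneg (sq_nonneg _) hws) hh)
    exact h1.trans (mul_nonneg hR (sq_nonneg _))
  · push Not at hh
    have hKs : 0 ≤ K * s := mul_nonneg (by (clear * - hK; linarith)) hs0
    have hT : T t (supp c) ≤ 1 - τ := by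
      by_contra h
      push Not at h
      have h1 : 1 < T t (supp c) / (1 - τ) := by rwa [lt_div_iff₀ hτ, one_mul]
      (clear * - hs0 hβ hh hKs h1; nlinarith)
    have h1 := ym_ge hG hw1 hw2 hc hT
    rw [← hs, ← hKd] at h1
    have h2 : 0 ≤ 1 - 2 * s - 4 * K * η := by (clear * - hTd hh hKs; nlinarith)
    have h3 : 0 ≤ 1 - 2 * K * s := by (clear * - hs0 hTd hβ hh; nlinarith)
    have h4 : 0 ≤ Pm m γ c * A1 w γ * (1 - 2 * s - 4 * K * η) :=
      mul_nonneg (mul_nonneg hP hA) h2
    have h5 : (Pm m γ c * A1 w γ * (1 - 2 * s - 4 * K * η)) ^ 2 ≤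
        ym m w w' (yw t γ) c ^ 2 := by
      have h6 := pow_le_pow_left₀ h4 h1 2
      have h7 : ((-1) ^ (supp c).card * ym m w w' (yw t γ) c) ^ 2 = ym m w w' (yw t γ) c ^ 2 := by
        rw [mul_pow, ← pow_mul, mul_comm, mul_comm _ 2, pow_mul]
        simp
      rwa [h7] at h6
    have h8 := prod_wprime_ge hG hw1 hw2 m (supp c)
    rw [← hs, ← hKd] at h8
    have h9 : ws w (supp c) * (1 - 2 * K * s) *
        (Pm m γ c * A1 w γ * (1 - 2 * s - 4 * K * η)) ^ 2 ≤
        (∏ p ∈ supp c, w' p * (1 - (K - 1) * w' p)) * ym m w w' (yw t γ) c ^ 2 :=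
      mul_le_mul h8 h5 (sq_nonneg _) hR
    refine le_trans ?_ h9
    have h10 : (1 - 8 * K * η - ((2 * K + 4) * s + T t (supp c) / (1 - τ))) ≤
        (1 - 2 * K * s) * (1 - 2 * s - 4 * K * η) ^ 2 := by
      have h11 : 1 - 4 * s - 8 * K * η ≤ (1 - 2 * s - 4 * K * η) ^ 2 := by
        (clear * -; nlinarith [sq_nonneg (2 * s + 4 * K * η)])
      have h12 := mul_le_mul_of_nonneg_left h11 h3
      have h13 : 0 ≤ 2 * K * s * (4 * s + 8 * K * η) :=
        mul_nonneg (by (clear * - hKs; nlinarith)) (by (clear * - hs0 hβ; linarith))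
      (clear * - hTd h12 h13; nlinarith)
    have h14 : 0 ≤ A1 w γ ^ 2 * (Pm m γ c ^ 2 * ws w (supp c)) :=
      mul_nonneg (sq_nonneg _) (mul_nonneg (sq_nonneg _) hws)
    have h15 := mul_le_mul_of_nonneg_left h10 h14
    calc _ = A1 w γ ^ 2 * (Pm m γ c ^ 2 * ws w (supp c)) *
          (1 - 8 * K * η - ((2 * K + 4) * s + T t (supp c) / (1 - τ))) := by ring
      _ ≤ _ := h15
      _ = _ := by ring

end Main

/-- MT-L: the main term for primes. -/
theorem lowerMain : LowerMain := by
  intro ι κ _ _ _ _ w w' t γ τ η hG hw1 hw2 hM m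
  have hK : (1 : ℝ) ≤ Fintype.card κ := by
    have : 0 < Fintype.card κ := Fintype.card_pos_iff.2 ⟨m⟩
    exact_mod_cast this
  have hη : 0 ≤ η := le_trans (Finset.sum_nonneg fun p _ => sq_nonneg _) hG.sq
  have hτ : 0 < 1 - τ := by have := hG.tau_le; (clear * - this; linarith)
  set K : ℝ := (Fintype.card κ : ℝ) with hKd
  have h1 : ∑ c ∈ univ.filter (fun c : ι → Option κ => cls c m = ∅),
      A1 w γ ^ 2 * ((∏ i, Gc m w γ i (cls c i)) * (1 - 8 * K * η -
        ((2 * K + 4) * ∑ p ∈ supp c, w p + T t (supp c) / (1 - τ)))) ≤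
      ∑ c ∈ univ.filter (fun c : ι → Option κ => cls c m = ∅),
      (∏ p ∈ supp c, w' p * (1 - (K - 1) * w' p)) * ym m w w' (yw t γ) c ^ 2 :=
    Finset.sum_le_sum fun c hc => term_ge hG hw1 hw2 (Finset.mem_filter.1 hc).2
  refine le_trans ?_ h1
  rw [← Finset.mul_sum, Finset.sum_filter]
  have h2 : ∀ c : ι → Option κ, (if cls c m = ∅ then (∏ i, Gc m w γ i (cls c i)) *
      (1 - 8 * K * η - ((2 * K + 4) * ∑ p ∈ supp c, w p + T t (supp c) / (1 - τ))) else 0) =
      (1 - 8 * K * η) * (∏ i, Gc m w γ i (cls c i)) -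
        ∑ j : κ, (∏ i, Gc m w γ i (cls c i)) *
          ((2 * K + 4) * ∑ p ∈ cls c j, w p + T t (cls c j) / (1 - τ)) := by
    intro c
    rw [← Finset.mul_sum, Finset.sum_add_distrib, ← Finset.mul_sum, ← Finset.sum_div,
      ← sum_supp, ← T_supp]
    split_ifs with h
    · ring
    · have h3 : ∏ i, Gc m w γ i (cls c i) = 0 := by
        refine Finset.prod_eq_zero (Finset.mem_univ m) ?_
        unfold Gc
        rw [if_pos rfl, if_neg h]
      rw [h3]
      ring
  simp only [h2]
  rw [Finset.sum_sub_distrib, ← Finset.mul_sum, Finset.sum_comm]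
  have h4 := Phi_ge (κ := κ) hG m
  have h5 : ∑ j : κ, ∑ c : ι → Option κ, (∏ i, Gc m w γ i (cls c i)) *
      ((2 * K + 4) * ∑ p ∈ cls c j, w p + T t (cls c j) / (1 - τ)) ≤
      ∑ j : κ, (if j = m then 0 else (2 * K + 4) * η + 1 / (10 * (K - 1))) *
        B1 w γ ^ (Fintype.card κ - 1) :=
    Finset.sum_le_sum fun j _ => Phi_u hG hM m j (by (clear * - hK; linarith))
  rw [← Finset.sum_mul] at h5
  have hB := pow_nonneg (B1_nonneg (γ := γ) hG.w_nonneg) (Fintype.card κ - 1)
  have h6 : ∑ j : κ, (if j = m then 0 else (2 * K + 4) * η + 1 / (10 * (K - 1))) ≤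
      (2 * K + 4) * (K - 1) * η + 1 / 10 := by
    rw [← Finset.add_sum_erase univ _ (Finset.mem_univ m), if_pos rfl, zero_add]
    have h7 : ∀ j ∈ univ.erase m, (if j = m then 0 else (2 * K + 4) * η + 1 / (10 * (K - 1))) =
        (2 * K + 4) * η + 1 / (10 * (K - 1)) := by
      intro j hj
      rw [if_neg (Finset.ne_of_mem_erase hj)]
    rw [Finset.sum_congr rfl h7, Finset.sum_const, Finset.card_erase_of_mem (Finset.mem_univ m),
      Finset.card_univ, nsmul_eq_mul, Nat.cast_sub (Fintype.card_pos_iff.2 ⟨m⟩ : 1 ≤ Fintype.card κ),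
      ← hKd, Nat.cast_one]
    rcases eq_or_lt_of_le hK with h8 | h8
    · rw [← h8]
      norm_num
    · have h9 : K - 1 ≠ 0 := by (clear * - h8; linarith)
      have h10 : (K - 1) * ((2 * K + 4) * η + 1 / (10 * (K - 1))) =
          (2 * K + 4) * (K - 1) * η + 1 / 10 := by
        field_simp
      rw [h10]
  have h7 := h5.trans (mul_le_mul_of_nonneg_right h6 hB)
  have hE := hG.eta
  rw [← hKd] at hE h4
  have hK2 : K * η ≤ K ^ 2 * η := mul_le_mul_of_nonneg_right (by (clear * - hK; nlinarith)) hη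
  have h8 : 0 ≤ 1 - 8 * K * η := by (clear * - hE hK2; nlinarith)
  have h9 := mul_le_mul_of_nonneg_left h4 h8
  have hA : 0 ≤ A1 w γ ^ 2 := sq_nonneg _
  have h10 : 1 / 2 * B1 w γ ^ (Fintype.card κ - 1) ≤
      (1 - 8 * K * η) * ∑ c : ι → Option κ, ∏ i, Gc m w γ i (cls c i) -
        ∑ j : κ, ∑ c : ι → Option κ, (∏ i, Gc m w γ i (cls c i)) *
          ((2 * K + 4) * ∑ p ∈ cls c j, w p + T t (cls c j) / (1 - τ)) := by
    have h11 : 1 / 2 ≤ (1 - 8 * K * η) * (1 - K ^ 2 * η) -
        ((2 * K + 4) * (K - 1) * η + 1 / 10) := by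
      have h12 : (1 - 8 * K * η) * (1 - K ^ 2 * η) = 1 - 8 * (K * η) - K ^ 2 * η +
          8 * (K * η) * (K ^ 2 * η) := by ring
      have h13 : 0 ≤ 8 * (K * η) * (K ^ 2 * η) := by (clear * - hK hη; positivity)
      have h14 : (2 * K + 4) * (K - 1) * η = 2 * (K ^ 2 * η) + 2 * (K * η) - 4 * η := by ring
      rw [h12, h14]
      (clear * - hη hE hK2 h13; nlinarith)
    have h12 := mul_le_mul_of_nonneg_right h11 hB
    (clear * - h7 h9 h12; nlinarith)
  have h11 := mul_le_mul_of_nonneg_left h10 hA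
  (clear * - h11; linarith)

end Pool.Agent.Helper90.MT

end

section

set_option autoImplicit false

open Finset

namespace Pool.Agent.Helper83.MT

open Pool.Agent.Helper1.MT

variable {R W : ℕ}

theorem PS_ge {κ : Type} {D0 : ℕ} {h : κ → ℕ} {v : ℕ} (hS : Setup D0 h W v) (p : PS R W) :
    D0 ≤ (p : ℕ) := by
  by_contra hlt
  exact PS_not_dvd p (hS.small p (PS_prime p) (not_le.1 hlt))

end Pool.Agent.Helper83.MT

end

section

set_option autoImplicit false

open Finset Filter Topology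

open scoped ArithmeticFunction.vonMangoldt

namespace Pool.Agent.Helper83.MT

open Pool.Agent.Helper1.MT

open Pool.Agent.Helper18.BV (wt IsWt)

theorem PS_ge_three_mul {κ : Type} [Fintype κ] {D0 : ℕ} {h : κ → ℕ} {R W v : ℕ}
    (hS : Setup D0 h W v) (hD0 : (Fintype.card κ + 2) ^ 10 ≤ D0) (p : PS R W) :
    3 * Fintype.card κ ≤ (p : ℕ) := by
  refine le_trans ?_ (PS_ge hS p)
  refine le_trans ?_ hD0
  calc 3 * Fintype.card κ ≤ (Fintype.card κ + 2) ^ 2 := by nlinarith
    _ ≤ (Fintype.card κ + 2) ^ 10 := Nat.pow_le_pow_right (by omega) (by norm_num)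

theorem prm_nonneg {κ : Type} [Fintype κ] [DecidableEq κ] {D0 : ℕ} {h : κ → ℕ} {R W v : ℕ}
    (hS : Setup D0 h W v) (hD0 : (Fintype.card κ + 2) ^ 10 ≤ D0) (m : κ) (p : PS R W)
    (a : Option κ) : 0 ≤ prm m (wp' R W p) a := by
  have h1 := PS_ge_three_mul hS hD0 p
  have h2 := (PS_prime p).two_le
  have h3 : (1 : ℝ) ≤ ((p : ℕ) : ℝ) - 1 := by
    have : (2 : ℝ) ≤ ((p : ℕ) : ℝ) := by exact_mod_cast h2
    (clear * - this; linarith)
  have h4 : (0 : ℝ) ≤ wp' R W p := by
    unfold wp'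
    (clear * - h3; positivity)
  cases a with
  | none =>
    unfold prm wp'
    have h5 : ((Fintype.card κ : ℝ) - 1) * (1 / (((p : ℕ) : ℝ) - 1)) ≤ 1 := by
      rw [mul_one_div, div_le_one (by (clear * - h3; linarith))]
      have h6 : (3 * (Fintype.card κ : ℝ)) ≤ ((p : ℕ) : ℝ) := by exact_mod_cast h1
      have h7 : (0 : ℝ) ≤ (Fintype.card κ : ℝ) := Nat.cast_nonneg _
      (clear * - h3 h6; linarith)
    (clear * - h5; linarith)
  | some j =>
    show 0 ≤ if j = m then (0 : ℝ) else wp' R W p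
    split_ifs
    · exact le_rfl
    · exact h4

/-- The total error. -/
theorem total_error {κ : Type} [Fintype κ] [DecidableEq κ] {D0 : ℕ} {h : κ → ℕ} {R W v : ℕ}
    (hS : Setup D0 h W v) (hD0 : (Fintype.card κ + 2) ^ 10 ≤ D0)
    {f : (PS R W → Option κ) → ℝ} {L : ℝ} (hL : ∀ c, |f c| ≤ L) {g : ℝ → ℝ} {x : ℝ}
    {cm : ℕ → ℕ} {δ β : ℝ} (hδ0 : 0 ≤ δ)
    (hβ : ∑ U ∈ (PS R W).powerset.filter (fun U => ∏ p ∈ U, p ≤ R ^ 2),
      ((3 * Fintype.card κ : ℕ) : ℝ) ^ U.card *
        err g x (W * ∏ p ∈ U, p) (cm (W * ∏ p ∈ U, p)) ≤ β) :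
    ∑ c : PS R W → Option κ, ∑ c' : PS R W → Option κ,
      (open Classical in if Compat c c' then |f c| * |f c'| *
        (if ∏ p ∈ supp (join c c'), (p : ℕ) ≤ R ^ 2 then
          err g x (W * ∏ p ∈ supp (join c c'), (p : ℕ))
            (cm (W * ∏ p ∈ supp (join c c'), (p : ℕ))) + δ else 0) else 0) ≤
      L ^ 2 * (β + (R : ℝ) ^ 4 * δ) := by
  classical
  set G : Finset (PS R W) → ℝ := fun S => if ∏ p ∈ S, (p : ℕ) ≤ R ^ 2 then
    err g x (W * ∏ p ∈ S, (p : ℕ)) (cm (W * ∏ p ∈ S, (p : ℕ))) + δ else 0 with hG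
  have hG0 : ∀ S, 0 ≤ G S := by
    intro S
    simp only [hG]
    split_ifs
    · exact add_nonneg (err_nonneg _ _ _ _) hδ0
    · exact le_rfl
  have hLn : 0 ≤ L := (abs_nonneg _).trans (hL (fun _ => none))
  have h1 : ∀ c c' : PS R W → Option κ, (if Compat c c' then |f c| * |f c'| *
        G (supp (join c c')) else 0) ≤
      L ^ 2 * (if Compat c c' then G (supp (join c c')) else 0) := by
    intro c c'
    split_ifs
    · apply mul_le_mul_of_nonneg_right _ (hG0 _)
      rw [pow_two]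
      exact mul_le_mul (hL c) (hL c') (abs_nonneg _) hLn
    · rw [mul_zero]
  have h2 := sum_pairs_le (ι := PS R W) (κ := κ) G hG0
  have h3 : ∑ S : Finset (PS R W), (3 * Fintype.card κ : ℝ) ^ S.card * G S ≤
      β + (R : ℝ) ^ 4 * δ := by
    have h4 : ∑ S : Finset (PS R W), (3 * Fintype.card κ : ℝ) ^ S.card * G S =
        ∑ S ∈ (univ : Finset (Finset (PS R W))).filter
          (fun S : Finset (PS R W) => ∏ p ∈ S, (p : ℕ) ≤ R ^ 2),
          (((3 * Fintype.card κ : ℕ) : ℝ) ^ S.card *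
            err g x (W * ∏ p ∈ S, (p : ℕ)) (cm (W * ∏ p ∈ S, (p : ℕ))) +
            ((3 * Fintype.card κ : ℕ) : ℝ) ^ S.card * δ) := by
      rw [Finset.sum_filter]
      apply Finset.sum_congr rfl
      intro S _
      simp only [hG]
      split_ifs
      · push_cast; ring
      · rw [mul_zero]
    rw [h4, Finset.sum_add_distrib]
    apply add_le_add
    · refine le_trans ?_ hβ
      have h5 : ∑ S ∈ (univ : Finset (Finset (PS R W))).filter
          (fun S : Finset (PS R W) => ∏ p ∈ S, (p : ℕ) ≤ R ^ 2),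
          ((3 * Fintype.card κ : ℕ) : ℝ) ^ S.card *
            err g x (W * ∏ p ∈ S, (p : ℕ)) (cm (W * ∏ p ∈ S, (p : ℕ))) =
          ∑ U ∈ ((univ : Finset (Finset (PS R W))).filter
          (fun S : Finset (PS R W) => ∏ p ∈ S, (p : ℕ) ≤ R ^ 2)).image toNat,
            ((3 * Fintype.card κ : ℕ) : ℝ) ^ U.card *
            err g x (W * ∏ p ∈ U, p) (cm (W * ∏ p ∈ U, p)) := by
        rw [Finset.sum_image (fun _ _ _ _ h => toNat_injective h)]
        apply Finset.sum_congr rfl
        intro S _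
        rw [toNat_card, toNat_prod]
      rw [h5]
      apply Finset.sum_le_sum_of_subset_of_nonneg
      · intro U hU
        obtain ⟨S, hS', rfl⟩ := Finset.mem_image.1 hU
        rw [Finset.mem_filter]
        refine ⟨toNat_mem S, ?_⟩
        rw [toNat_prod]
        exact (Finset.mem_filter.1 hS').2
      · intro U _ _
        exact mul_nonneg (by (clear * -; positivity)) (err_nonneg _ _ _ _)
    · rw [← Finset.sum_mul]
      apply mul_le_mul_of_nonneg_right _ hδ0
      have h6 := sum_pow_card_le (R := R) (W := W) (3 * Fintype.card κ) (R ^ 2)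
        (PS_ge_three_mul hS hD0)
      calc _ ≤ ((R ^ 2 : ℕ) : ℝ) ^ 2 := h6
        _ = (R : ℝ) ^ 4 := by push_cast; ring
  calc _ ≤ ∑ c : PS R W → Option κ, ∑ c' : PS R W → Option κ,
        L ^ 2 * (if Compat c c' then G (supp (join c c')) else 0) :=
        Finset.sum_le_sum fun c _ => Finset.sum_le_sum fun c' _ => h1 c c'
    _ = L ^ 2 * ∑ c : PS R W → Option κ, ∑ c' : PS R W → Option κ,
        (if Compat c c' then G (supp (join c c')) else 0) := by
        simp_rw [← Finset.mul_sum]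
    _ ≤ L ^ 2 * (β + (R : ℝ) ^ 4 * δ) :=
        mul_le_mul_of_nonneg_left (h2.trans h3) (by (clear * -; positivity))

end Pool.Agent.Helper83.MT

end

section

set_option autoImplicit false

open Finset

namespace Pool.Agent.Helper81.MT

open Pool.Agent.Helper1.MT Pool.Agent.Helper28.MT

/-- MU-A. -/
theorem oneDimU (hF : SqfreeSumU) : OneDimU := by
  obtain ⟨C, hC, hS⟩ := hF
  intro K J D0 A hK hJ hD hA
  have hD2 : 2 ≤ D0 := by
    have h1 := D0_ge hK hD
    have h2 : 1 ≤ (K + 2) ^ 2 := Nat.one_le_pow _ _ (by omega)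
    omega
  have hD' : (2 : ℝ) ≤ D0 := by exact_mod_cast hD2
  have hκ : 0 < Kp K J := by
    have : 0 < K := hK
    unfold Kp
    (clear * - hK; positivity)
  -- the condition on x
  have hx : ∀ᶠ x : ℝ in Filter.atTop, 3 ≤ lev x ∧
      2560 * (D0 : ℝ) ^ 2 * Kp K J * C * (1 + A * Real.log (Real.log x)) ≤ Real.log (lev x) := by
    have h1 : ∀ᶠ x : ℝ in Filter.atTop, (3 : ℝ) ≤ x ^ (1 / 81 : ℝ) - 1 :=
      ((tendsto_rpow_atTop (by norm_num : (0 : ℝ) < 1 / 81)).eventually_ge_atTop 4).mono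
        fun x hx => by linarith
    have h2 : ∀ᶠ x : ℝ in Filter.atTop,
        2560 * (D0 : ℝ) ^ 2 * Kp K J * C * (1 + A * Real.log (Real.log x)) ≤
          1 / 81 * Real.log x - 1 := by
      have h3 : (fun y : ℝ => 2560 * (D0 : ℝ) ^ 2 * Kp K J * C * (1 + A * Real.log y) + 1)
          =o[Filter.atTop] fun y : ℝ => y := by
        have e1 : (fun y : ℝ => 2560 * (D0 : ℝ) ^ 2 * Kp K J * C * (1 + A * Real.log y) + 1) =
            fun y : ℝ => (2560 * (D0 : ℝ) ^ 2 * Kp K J * C + 1) +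
              (2560 * (D0 : ℝ) ^ 2 * Kp K J * C * A) * Real.log y := by
          funext y
          ring
        rw [e1]
        refine Asymptotics.IsLittleO.add ?_ (Real.isLittleO_log_id_atTop.const_mul_left _)
        exact Asymptotics.isLittleO_const_id_atTop _
      have h4 := (h3.bound (by norm_num : (0 : ℝ) < 1 / 81))
      have h5 := Real.tendsto_log_atTop.eventually (h4.and (Filter.eventually_ge_atTop 1))
      filter_upwards [h5] with x hx
      obtain ⟨h6, h7⟩ := hx
      rw [Real.norm_eq_abs, Real.norm_eq_abs, abs_of_nonneg (by (clear * - h7; linarith) : (0 : ℝ) ≤ Real.log x)] at h6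
      have h8 := (abs_le.1 h6).2
      (clear * - h8; linarith)
    filter_upwards [h1, h2, Filter.eventually_ge_atTop (3 : ℝ)] with x hx1 hx2 hx3
    have hx0 : 0 < x := by (clear * - hx3; linarith)
    have hf : x ^ (1 / 81 : ℝ) - 1 < (lev x : ℝ) := by
      have := Nat.lt_floor_add_one (x ^ (1 / 81 : ℝ))
      unfold lev
      (clear * - this; linarith)
    have h3 : (3 : ℝ) < lev x := lt_of_le_of_lt hx1 hf
    refine ⟨by exact_mod_cast h3.le, hx2.trans ?_⟩
    have h4 : x ^ (1 / 81 : ℝ) / Real.exp 1 ≤ lev x := by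
      rw [div_le_iff₀ (Real.exp_pos 1)]
      have h5 : (2 : ℝ) ≤ Real.exp 1 := by (clear * -; linarith [Real.add_one_le_exp (1 : ℝ)])
      (clear * - hx1 hf h5; nlinarith)
    have h5 : 0 < x ^ (1 / 81 : ℝ) := Real.rpow_pos_of_pos hx0 _
    have h6 := Real.log_le_log (by (clear * - hx3; positivity)) h4
    rw [Real.log_div h5.ne' (Real.exp_pos 1).ne', Real.log_exp, Real.log_rpow hx0] at h6
    exact h6
  obtain ⟨X0, hX0⟩ := Filter.eventually_atTop.1 hx
  refine ⟨max 3 X0, le_max_left _ _, fun x hxx W hW hWx => ?_⟩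
  have hx3 : (3 : ℝ) ≤ x := (le_max_left _ _).trans hxx
  obtain ⟨hR3, hbig⟩ := hX0 x ((le_max_right _ _).trans hxx)
  obtain ⟨c, hc1, hc2, hc⟩ := hS W hW.pos
  have hW0 : (0 : ℝ) < W := by exact_mod_cast hW.pos
  have hφ := totient_ge hD2 hW
  have hφ1 : (W.totient : ℝ) / W ≤ 1 := by
    rw [div_le_one hW0]
    exact_mod_cast Nat.totient_le W
  have hφ0 : 0 < (W.totient : ℝ) / W := lt_of_lt_of_le (by positivity) hφ
  have hc0 : 1 / (32 * (D0 : ℝ)) ≤ c := by
    refine le_trans ?_ hc1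
    have e1 : (W.totient : ℝ) / (4 * W) = (W.totient : ℝ) / W / 4 := by
      rw [div_div, mul_comm (4 : ℝ)]
    have e2 : 1 / (32 * (D0 : ℝ)) = 1 / (8 * (D0 : ℝ)) / 4 := by
      rw [div_div]
      congr 1
      ring
    rw [e1, e2]
    exact div_le_div_of_nonneg_right hφ (by norm_num)
  refine ⟨c, hc1, hc2.trans hφ1, hc0, ?_⟩
  have hinv : (W : ℝ) / W.totient ≤ 8 * D0 := by
    have h1 : (W : ℝ) / W.totient = ((W.totient : ℝ) / W)⁻¹ := by rw [inv_div]
    rw [h1]
    have h2 := inv_anti₀ (by positivity) hφ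
    rwa [one_div, inv_inv] at h2
  have hinv0 : 0 ≤ (W : ℝ) / W.totient := by (clear * - hW0; positivity)
  have hlogx : 1 ≤ Real.log x := by
    rw [Real.le_log_iff_exp_le (by (clear * - hx3; linarith))]
    (clear * - hx3; linarith [Real.exp_one_lt_d9])
  have hllx : 0 ≤ Real.log (Real.log x) := Real.log_nonneg hlogx
  have hlW : Real.log W ≤ A * Real.log (Real.log x) := by
    have h1 := Real.log_le_log hW0 hWx
    rwa [Real.log_rpow (by (clear * - hlogx; linarith))] at h1
  have hlW0 : 0 ≤ Real.log W := Real.log_natCast_nonneg W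
  have hW1 : 0 < (W : ℝ) / W.totient := by
    have h1 : (W : ℝ) / W.totient = ((W.totient : ℝ) / W)⁻¹ := by rw [inv_div]
    rw [h1]
    exact inv_pos.2 hφ0
  have hC' : 0 < C * ((W : ℝ) / W.totient) * (1 + Real.log W) := by (clear * - hC hW1; positivity)
  refine core hK hJ hD hW.small hR3 hC' hc ?_
  have hlR : 0 ≤ Real.log (lev x) := Real.log_natCast_nonneg _
  calc 10 * Kp K J * (C * ((W : ℝ) / W.totient) * (1 + Real.log W)) ≤
      10 * Kp K J * (C * (8 * D0) * (1 + A * Real.log (Real.log x))) := by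
        apply mul_le_mul_of_nonneg_left _ (by positivity)
        apply mul_le_mul _ (by (clear * - hlW; linarith)) (by (clear * - hlW0; linarith)) (by positivity)
        exact mul_le_mul_of_nonneg_left hinv hC.le
    _ = 1 / (32 * (D0 : ℝ)) *
        (2560 * (D0 : ℝ) ^ 2 * Kp K J * C * (1 + A * Real.log (Real.log x))) := by
        field_simp
        norm_num
    _ ≤ 1 / (32 * (D0 : ℝ)) * Real.log (lev x) :=
        mul_le_mul_of_nonneg_left hbig (by positivity)
    _ ≤ c * Real.log (lev x) := mul_le_mul_of_nonneg_right hc0 hlR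

end Pool.Agent.Helper81.MT

end
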