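import Pool.Agent.Helper23.MT.L02_acd0
import Pool.Agent.Helper23.MT.L02_ad0
import Pool.Agent.Helper23.MT.L02_ad1

/-!
Parts of Helper83.MT.SumPrime, Helper72.MT.SumPrimeU
-/

namespace Pool.Agent.Helper1.MT
end Pool.Agent.Helper1.MT
namespace Pool.Agent.Helper83.MT
end Pool.Agent.Helper83.MT

section

set_option autoImplicit false

open Finset Filter Topology

open scoped ArithmeticFunction.vonMangoldt

namespace Pool.Agent.Helper83.MT

open Pool.Agent.Helper1.MT

open Pool.Agent.Helper18.BV (wt IsWt)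

/-- The comparison for one colouring. -/
theorem one_colouring {κ : Type} [Fintype κ] [DecidableEq κ] {D0 : ℕ} {h : κ → ℕ} {R W v : ℕ}
    (hS : Setup D0 h W v) (m : κ) {g : ℝ → ℝ} (hg : IsWt g) (hg1 : ∀ v, g v ≤ 1)
    (hg0 : ∀ v, v ≤ 5 / 8 → g v = 0) {x : ℝ} (hx : 3 ≤ x)
    (hH : x ^ (1 / 2 : ℝ) + h m + 1 ≤ x ^ (5 / 8 : ℝ)) (hR : (R : ℝ) ≤ x ^ (5 / 8 : ℝ))
    {δ : ℝ} (hδ0 : 0 ≤ δ)
    (hδ : ∀ T : Finset ℕ, (∀ n ∈ T, ¬ n.Prime ∧ x ^ (1 / 2 : ℝ) < n ∧ (n : ℝ) ≤ x) →
      ∑ n ∈ T, Λ n / n ≤ δ) {cm : ℕ → ℕ}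
    (hmax : ∀ d a, Nat.Coprime a d → err g x d a ≤ err g x d (cm d))
    (U : PS R W → Option κ) :
    |∑ n ∈ (NS x W v).filter (fun n => Le U (sig h n)), nu g x (h m) n -
      ((∑ n ∈ Icc 1 ⌊x⌋₊, Λ n * wt g x n) / (W.totient : ℝ)) *
        ∏ p ∈ supp U, prm m (wp' R W p) (U p)| ≤
      err g x (W * ∏ p ∈ supp U, (p : ℕ)) (cm (W * ∏ p ∈ supp U, (p : ℕ))) + δ := by
  classical
  have hx1 : 1 < x := by (clear * - hx; linarith)
  by_cases hm : ∃ p, U p = some m
  · obtain ⟨p, hp⟩ := hm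
    have h1 : ∏ p ∈ supp U, prm m (wp' R W p) (U p) = 0 := by
      apply Finset.prod_eq_zero (i := p)
      · rw [mem_supp, hp]; simp
      · rw [hp]; simp [prm]
    have h2 : ∑ n ∈ (NS x W v).filter (fun n => Le U (sig h n)), nu g x (h m) n = 0 := by
      apply Finset.sum_eq_zero
      intro n hn
      by_contra hne
      obtain ⟨hq, h3, _⟩ := nu_range hg hg0 hx1 hne
      have h4 : Dv h U n := (Dv_iff hS U n).2 (Finset.mem_filter.1 hn).2
      have h5 := h4 p m hp
      have h6 := (Nat.prime_dvd_prime_iff_eq (PS_prime p) hq).1 h5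
      have h7 : ((p : ℕ) : ℝ) ≤ R := by exact_mod_cast PS_le p
      rw [← h6] at h3
      (clear * - hR h3 h7; linarith)
    rw [h1, h2, mul_zero, sub_zero, abs_zero]
    exact add_nonneg (err_nonneg _ _ _ _) hδ0
  · push Not at hm
    set i : PS R W → κ := fun p => (U p).getD m with hi
    have hUi : ∀ p ∈ supp U, U p = some (i p) := by
      intro p hp
      rw [mem_supp] at hp
      simp only [hi]
      cases hU : U p with
      | none => exact absurd hU hp
      | some j => rfl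
    have hine : ∀ p ∈ supp U, i p ≠ m := by
      intro p hp heq
      apply hm p
      rw [hUi p hp, heq]
    obtain ⟨a, ha1, ha2⟩ := crt hS m i (supp U) hine
    set q := W * ∏ p ∈ supp U, (p : ℕ) with hq
    have hQ : ∀ n, (n ≡ v [MOD W] ∧ Le U (sig h n)) ↔ n + h m ≡ a [MOD q] := by
      intro n
      rw [← ha2 n, ← Dv_iff hS U n]
      apply and_congr_right
      intro _
      constructor
      · intro hD p hp
        exact hD p (i p) (hUi p hp)
      · intro hD p j hj
        have hp : p ∈ supp U := by rw [mem_supp, hj]; simp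
        have h1 := hUi p hp
        rw [hj, Option.some.injEq] at h1
        rw [h1]
        exact hD p hp
    rw [sum_nu hg hg0 hx1 hH _ hQ]
    have h3 : ((∑ n ∈ Icc 1 ⌊x⌋₊, Λ n * wt g x n) / (W.totient : ℝ)) *
        ∏ p ∈ supp U, prm m (wp' R W p) (U p) =
        (1 / (q.totient : ℝ)) * ∑ n ∈ Icc 1 ⌊x⌋₊, Λ n * wt g x n := by
      have h4 : ∏ p ∈ supp U, prm m (wp' R W p) (U p) =
          1 / ∏ p ∈ supp U, (((p : ℕ) : ℝ) - 1) := by
        rw [one_div, ← Finset.prod_inv_distrib]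
        apply Finset.prod_congr rfl
        intro p hp
        rw [hUi p hp]
        simp only [prm, if_neg (hine p hp), wp', one_div]
      rw [h4, hq, totient_mul_prod, one_div, one_div, mul_inv, div_eq_mul_inv]
      ring
    rw [h3]
    refine (class_bound hg hg1 hx hδ q a).trans ?_
    have := hmax q a ha1
    (clear * - this; linarith)

end Pool.Agent.Helper83.MT

end

section

set_option autoImplicit false

open Finset Filter Topology

open scoped ArithmeticFunction.vonMangoldt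

namespace Pool.Agent.Helper72.MT

open Pool.Agent.Helper1.MT

open Pool.Agent.Helper18.BV (wt IsWt)

open Pool.Agent.Helper83.MT

/-- MU-N2: the sieve sum over the `n` such that `n + h m` is prime, uniformly. -/
theorem sumPrimeU (hE : Expand) (hB : BVErrorU) : SumPrimeU := by
  obtain ⟨g, hg, hgne, hg1, hg0'⟩ := Pool.Agent.Helper18.BV.exists_wt
    (show (0 : ℝ) < 3 / 8 by norm_num) (by norm_num)
  have hg0 : ∀ v, v ≤ 5 / 8 → g v = 0 := fun v hv => hg0' v (by linarith)
  obtain ⟨c, C, XM, hc, hC, hXM, hmass⟩ := Pool.Agent.Helper44.BV.mass g hg hgne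
  refine ⟨c, hc, ?_⟩
  intro κ _ _ D0 A hD0 hA
  obtain ⟨C1, hC1, hprod⟩ := prod_bound
  obtain ⟨C2, hC2, hnp⟩ := nonprime_bound
  obtain ⟨XB, hXB, hBV⟩ := hB g hg (3 * Fintype.card κ)
    (((2 * Fintype.card κ + 1 : ℕ) : ℝ) + A) (by (clear * - hA; positivity))
  obtain ⟨X1, hX1⟩ := eventually_atTop.1 (eventually_smallU (A := A) (Fintype.card κ) hC1 hC2)
  obtain ⟨X2, hX2⟩ := eventually_atTop.1 (eventually_shift (A := A))
  refine ⟨max (max XM XB) (max X1 (max (2 ^ 81) X2)),
    le_max_of_le_left (le_max_of_le_left hXM), ?_⟩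
  intro x hx
  have hxM : XM ≤ x := ((le_max_left _ _).trans (le_max_left _ _)).trans hx
  have hxB : XB ≤ x := ((le_max_right _ _).trans (le_max_left _ _)).trans hx
  have hx1 : X1 ≤ x := ((le_max_left _ _).trans (le_max_right _ _)).trans hx
  have hx2 : (2 : ℝ) ^ 81 ≤ x := ((le_max_left _ _).trans ((le_max_right _ _).trans
    (le_max_right _ _))).trans hx
  have hxh : X2 ≤ x := ((le_max_right _ _).trans ((le_max_right _ _).trans
    (le_max_right _ _))).trans hx
  have hx3 : 3 ≤ x := hXM.trans hxM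
  have hx0 : 0 < x := by (clear * - hx2; linarith)
  have hlog1 : 1 ≤ Real.log x := by
    rw [Real.le_log_iff_exp_le hx0]
    exact (Real.exp_one_lt_d9.le.trans (by norm_num)).trans hx3
  have hlog0 : 0 < Real.log x := by (clear * - hlog1; linarith)
  intro h W v hS hWA hhA m
  have hWA' : (W : ℝ) ≤ Real.log x ^ (((2 * Fintype.card κ + 1 : ℕ) : ℝ) + A) := by
    refine hWA.trans (Real.rpow_le_rpow_of_exponent_le hlog1 ?_)
    have : (0 : ℝ) ≤ ((2 * Fintype.card κ + 1 : ℕ) : ℝ) := Nat.cast_nonneg _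
    linarith
  set R : ℕ := lev x with hR
  have hRx : (R : ℝ) ≤ x ^ (1 / 81 : ℝ) := Nat.floor_le (Real.rpow_nonneg hx0.le _)
  have hR2 : 2 ≤ R := by
    apply Nat.le_floor
    have h1 : ((2 : ℝ) ^ 81) ^ (1 / 81 : ℝ) = 2 := by
      rw [← Real.rpow_natCast, ← Real.rpow_mul (by norm_num)]
      norm_num
    calc ((2 : ℕ) : ℝ) = ((2 : ℝ) ^ 81) ^ (1 / 81 : ℝ) := by rw [h1]; norm_num
      _ ≤ x ^ (1 / 81 : ℝ) := Real.rpow_le_rpow (by positivity) hx2 (by norm_num)
  have hR58 : (R : ℝ) ≤ x ^ (5 / 8 : ℝ) :=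
    hRx.trans (Real.rpow_le_rpow_of_exponent_le (by (clear * - hx2; linarith)) (by norm_num))
  have hR4 : (R : ℝ) ^ 4 ≤ x ^ (4 / 81 : ℝ) := by
    calc (R : ℝ) ^ 4 ≤ (x ^ (1 / 81 : ℝ)) ^ 4 := pow_le_pow_left₀ (Nat.cast_nonneg _) hRx 4
      _ = x ^ (4 / 81 : ℝ) := by
          rw [← Real.rpow_natCast, ← Real.rpow_mul hx0.le]
          norm_num
  have hRlog : Real.log R ≤ Real.log x := by
    apply Real.log_le_log (by positivity)
    refine hRx.trans ?_
    calc x ^ (1 / 81 : ℝ) ≤ x ^ (1 : ℝ) :=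
          Real.rpow_le_rpow_of_exponent_le (by (clear * - hx2; linarith)) (by norm_num)
      _ = x := Real.rpow_one x
  have hH : x ^ (1 / 2 : ℝ) + h m + 1 ≤ x ^ (5 / 8 : ℝ) := by
    have h1 : x ^ (5 / 8 : ℝ) = x ^ (1 / 2 : ℝ) * x ^ (1 / 8 : ℝ) := by
      rw [← Real.rpow_add hx0]; norm_num
    have h2 : (h m : ℝ) + 2 ≤ x ^ (1 / 8 : ℝ) := by
      have := hX2 x hxh
      have := hhA m
      linarith
    have h3 : 1 ≤ x ^ (1 / 2 : ℝ) := Real.one_le_rpow (by (clear * - hx2; linarith)) (by norm_num)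
    have h4 : (0 : ℝ) ≤ h m := Nat.cast_nonneg _
    rw [h1]
    (clear * - h2 h3; nlinarith)
  have hβ := fun cm hcm => hBV x hxB W hS.W_pos hWA' cm hcm
  rw [← hR] at hβ
  intro y hy1 hyT
  set f := lam (wp R W) y with hf
  set δ : ℝ := C2 * Real.log x ^ 2 * x ^ (-(1 / 8) : ℝ) with hδ
  have hδ0 : 0 ≤ δ := by positivity
  obtain ⟨cm, hcm, hmax⟩ := exists_max_class (err g x) (err_mod g x)
  have hwp : ∀ p : PS R W, 0 ≤ wp R W p := by
    intro p
    unfold wp
    (clear * -; positivity)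
  have hL : ∀ c, |f c| ≤ (C1 * Real.log x) ^ Fintype.card κ := by
    intro c
    refine (abs_lam_le hwp hy1 c).trans ?_
    refine (hprod (Fintype.card κ) W R hR2).trans ?_
    apply pow_le_pow_left₀
    · have : 0 ≤ Real.log R := Real.log_nonneg (by exact_mod_cast (by omega : 1 ≤ R))
      (clear * - hC1; positivity)
    · exact mul_le_mul_of_nonneg_left hRlog hC1.le
  have hsupp : ∀ c, f c ≠ 0 → ∏ p ∈ supp c, (p : ℕ) ≤ R := by
    intro c hc0
    obtain ⟨c', hle, hy0⟩ := exists_of_lam_ne_zero hc0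
    exact (prod_le_prod_of_subset (supp_subset_of_le hle)).trans
      (prod_le_of_T_le hR2 (hyT c' hy0))
  -- the expansion
  set tot : ℝ := ∑ n ∈ Icc 1 ⌊x⌋₊, Λ n * wt g x n with htot
  have hexp := hE (PS R W) κ (fun p => prm m (wp' R W p)) f (NS x W v) (nu g x (h m)) (sig h)
    (tot / (W.totient : ℝ))
    (fun U => if ∏ p ∈ supp U, (p : ℕ) ≤ R ^ 2 then
      err g x (W * ∏ p ∈ supp U, (p : ℕ)) (cm (W * ∏ p ∈ supp U, (p : ℕ))) + δ else 0)
    (fun p => sum_prm m _) (by
      intro c c' hc0 hc0' _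
      have h1 : ∏ p ∈ supp (join c c'), (p : ℕ) ≤ R ^ 2 := by
        rw [supp_join]
        refine (prod_union_le _ _).trans ?_
        rw [pow_two]
        exact Nat.mul_le_mul (hsupp c hc0) (hsupp c' hc0')
      rw [if_pos h1]
      exact one_colouring hS m hg hg1 hg0 hx3 hH hR58 hδ0 (hnp x hx3) hmax (join c c'))
  have htotal := total_error hS hD0 hL hδ0 (R := R) (g := g) (x := x) (cm := cm)
    (β := 1 / Real.log x ^ (((2 * Fintype.card κ + 1 : ℕ) : ℝ) + A)) (hβ cm hcm)
  have hsmall := hX1 x hx1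
  have herr : ((C1 * Real.log x) ^ Fintype.card κ) ^ 2 *
      (1 / Real.log x ^ (((2 * Fintype.card κ + 1 : ℕ) : ℝ) + A) + (R : ℝ) ^ 4 * δ) ≤
      1 / Real.log x ^ A := by
    refine le_trans ?_ hsmall
    apply mul_le_mul_of_nonneg_left _ (by positivity)
    apply add_le_add le_rfl
    exact mul_le_mul_of_nonneg_right hR4 hδ0
  have h1 := (hexp.trans htotal).trans herr
  have h2 := (abs_le.1 h1).1
  set Q := Qf (fun p => prm m (wp' R W p)) f with hQ
  have hQ0 : 0 ≤ Q := Qf_nonneg (fun p a => prm_nonneg hS hD0 m p a) f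
  have hmassx := (hmass x hxM).1
  set Sg : ℝ := ∑ n ∈ NS x W v, nu g x (h m) n *
    (∑ c ∈ univ.filter (fun c : PS R W → Option κ => Le c (sig h n)), f c) ^ 2 with hSg
  have h3 : (1 / Real.log x) * Sg ≤
      ∑ n ∈ (NS x W v).filter (fun n => (n + h m).Prime), (1 / (n : ℝ)) * sw h f n := by
    have h4 : Sg = ∑ n ∈ (NS x W v).filter (fun n => (n + h m).Prime),
        nu g x (h m) n * sw h f n := by
      rw [Finset.sum_filter]
      apply Finset.sum_congr rfl
      intro n _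
      rw [sw_eq hS f n]
      split_ifs with hp
      · rfl
      · unfold nu
        rw [if_neg hp, zero_mul]
    rw [h4, Finset.mul_sum]
    apply Finset.sum_le_sum
    intro n hn
    have hn1 := (mem_NS.1 (Finset.mem_filter.1 hn).1).1.1
    have hn0 : (0 : ℝ) < n := by exact_mod_cast (by omega : 0 < n)
    rw [← mul_assoc]
    have hsw : 0 ≤ sw h f n := by rw [sw_eq hS f n]; (clear * -; positivity)
    apply mul_le_mul_of_nonneg_right _ hsw
    by_cases hν : nu g x (h m) n = 0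
    · rw [hν, mul_zero]
      (clear * - hn0; positivity)
    obtain ⟨hp, h5, h6⟩ := nu_range hg hg0 (by (clear * - hx2; linarith)) hν
    have h7 : nu g x (h m) n ≤ Real.log x * (1 / n) := by
      unfold nu
      rw [if_pos hp, ArithmeticFunction.vonMangoldt_apply_prime hp]
      have hq0 : (0 : ℝ) < ((n + h m : ℕ) : ℝ) := by exact_mod_cast hp.pos
      apply mul_le_mul
      · exact Real.log_le_log hq0 h6.le
      · unfold wt
        apply div_le_div₀ zero_le_one (hg1 _) hn0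
        exact_mod_cast Nat.le_add_right n (h m)
      · exact Pool.Agent.Helper18.BV.wt_nonneg hg _ _
      · exact hlog0.le
    calc 1 / Real.log x * nu g x (h m) n ≤ 1 / Real.log x * (Real.log x * (1 / n)) :=
          mul_le_mul_of_nonneg_left h7 (by positivity)
      _ = 1 / n := by (clear * - hlog1 hn0; field_simp)
  refine le_trans ?_ h3
  have hZ0 : 0 < 1 / Real.log x ^ A := by
    have := Real.rpow_pos_of_pos hlog0 A
    positivity
  have h8 : tot / (W.totient : ℝ) * Q - 1 / Real.log x ^ A ≤ Sg := by (clear * - h2; linarith)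
  have hφ : (0 : ℝ) ≤ W.totient := Nat.cast_nonneg _
  have h9 : c / (W.totient : ℝ) * Q ≤ (1 / Real.log x) * (tot / (W.totient : ℝ) * Q) := by
    have h10 : (1 / Real.log x) * (tot / (W.totient : ℝ) * Q) =
        (tot / Real.log x) * (Q / (W.totient : ℝ)) := by ring
    have h11 : c / (W.totient : ℝ) * Q = c * (Q / (W.totient : ℝ)) := by ring
    rw [h10, h11]
    apply mul_le_mul_of_nonneg_right _ (by (clear * - hQ0; positivity))
    rw [le_div_iff₀ hlog0]
    exact hmassx
  have h12 : (1 / Real.log x) * (tot / (W.totient : ℝ) * Q - 1 / Real.log x ^ A) ≤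
      (1 / Real.log x) * Sg :=
    mul_le_mul_of_nonneg_left h8 (by positivity)
  have h13 : 1 / Real.log x ≤ 1 := by
    rw [div_le_one hlog0]
    exact hlog1
  have h14 : (1 / Real.log x) * (tot / (W.totient : ℝ) * Q - 1 / Real.log x ^ A) =
      (1 / Real.log x) * (tot / (W.totient : ℝ) * Q) -
        (1 / Real.log x) * (1 / Real.log x ^ A) := by ring
  have h15 : (1 / Real.log x) * (1 / Real.log x ^ A) ≤ 1 / Real.log x ^ A := by
    calc (1 / Real.log x) * (1 / Real.log x ^ A) ≤ 1 * (1 / Real.log x ^ A) :=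
          mul_le_mul_of_nonneg_right h13 hZ0.le
      _ = 1 / Real.log x ^ A := one_mul _
  (clear * - h9 h12 h15; linarith)

end Pool.Agent.Helper72.MT

end
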