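import Pool.Agent.Helper23.MT.L01_a0
import Pool.Agent.Helper23.MT.L03_ad0

/-!
Parts of Helper1.MT.DefsU, Helper1.MT.BlocksLogFinal, Helper93.MT.Patterns, Helper1.MT.MainU
-/

namespace Pool.Agent.Helper16.MT
end Pool.Agent.Helper16.MT

section

set_option autoImplicit false

open Finset

open scoped ArithmeticFunction.vonMangoldt

namespace Pool.Agent.Helper1.MT

open Pool.Agent.Helper18.BV (wt IsWt)

/-- The main theorem on blocks, uniformly for spacings up to a constant times `log x`. -/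
def BlocksLog : Prop :=
  ∀ η : ℝ, 0 < η → ∃ δ : ℝ, 0 < δ ∧ ∃ M0 : ℕ, ∀ M : ℕ, M0 ≤ M → ∃ (B0 : ℕ) (c x0 : ℝ), 0 < c ∧
    ∀ x : ℝ, x0 ≤ x → ∀ D : ℕ, 2 * B0 < D → (D : ℝ) ≤ c * Real.log x →
    ∃ n E : ℕ, x ^ (1 / 2 : ℝ) ≤ n ∧ (n : ℝ) ≤ x ∧ D ≤ E ∧ E ≤ B0 * D ∧
      (∀ q : ℕ, q.Prime → n ≤ q → q < n + M * E → ∃ i < M, n + i * E ≤ q ∧ q ≤ n + i * E + B0) ∧
      δ * M ≤ (((range M).filter (fun i => pc (n + i * E) (n + i * E + B0) = 1)).card : ℝ) ∧
      (((range M).filter (fun i => 2 ≤ pc (n + i * E) (n + i * E + B0))).card : ℝ) ≤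
        η * ((range M).filter (fun i => pc (n + i * E) (n + i * E + B0) = 1)).card

/-- MU-K: the final statement. Among boundedly many consecutive primes near `x` (on the
logarithmic scale) there are `k + 1` disjoint groups of `r + 1` consecutive primes that are, up to
a bounded error, translates of each other, the translations being in arithmetic progression; all
the differences are between `D` and `B D`, for any `D` up to a constant times `log x`. -/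
def Patterns : Prop :=
  ∀ r k : ℕ, ∃ (B : ℕ) (c x0 : ℝ), 0 < c ∧ ∀ x : ℝ, x0 ≤ x → ∀ D : ℕ, B ≤ D →
    (D : ℝ) ≤ c * Real.log x → ∃ (i : ℕ → ℕ) (d : ℕ) (G : ℕ → ℕ),
      x ^ (1 / 2 : ℝ) ≤ P (i 0) ∧ (P (i k + r) : ℝ) ≤ 2 * x ∧
      (∀ s < k, i s + r < i (s + 1)) ∧ i k + r ≤ i 0 + B ∧
      D ≤ d ∧ d ≤ B * D ∧ (∀ j < r, D ≤ G j ∧ G j ≤ B * D) ∧
      ∀ s ≤ k, ∀ j ≤ r, |(P (i s + j) : ℤ) - (P (i 0) + s * d + ∑ l ∈ range j, (G l : ℤ))| ≤ B

end Pool.Agent.Helper1.MT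

end

section

set_option autoImplicit false

open Finset Filter

namespace Pool.Agent.Helper1.MT

theorem blocksLog_of {c1 : ℝ} (hc1 : 0 < c1)
    (hb : ∀ (κ : Type) [Fintype κ] [DecidableEq κ] (J D0 : ℕ) (A : ℝ),
      0 < Fintype.card κ → 10 * 2 ^ J ≤ 8 * Fintype.card κ * (J + 2) →
      (Fintype.card κ + 3) ^ 10 ≤ D0 → 1 ≤ A → ∃ X0 : ℝ, 3 ≤ X0 ∧ ∀ x : ℝ, X0 ≤ x →
      ∀ (h : κ → ℕ) (W v : ℕ), Setup D0 h W v → Reg D0 W → (W : ℝ) ≤ Real.log x ^ A →
      (∀ i, (h i : ℝ) ≤ Real.log x ^ A) →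
      ∃ (u : ℕ → ℝ) (S : ℝ), (∀ n, 0 ≤ u n) ∧ 0 < S ∧ ∑ n ∈ NS x W v, u n ≤ 2 * S ∧
        (∀ m : κ, c1 * ((J + 2) / Fintype.card κ) * S ≤
          ∑ n ∈ (NS x W v).filter (fun n => (n + h m).Prime), u n) ∧
        (∀ m m' : κ, m ≠ m' →
          ∑ n ∈ (NS x W v).filter (fun n => (n + h m).Prime ∧ (n + h m').Prime), u n ≤
            2 * ((J + 2) / (10 * Fintype.card κ)) ^ 2 * S) ∧
        (∀ j : ℕ, (∀ i, h i ≠ j) →
          ∑ n ∈ (NS x W v).filter (fun n => (n + j).Prime), u n ≤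
            6000 * D0 / Real.log x *
              (∏ p ∈ (∏ i, ((h i : ℤ) - j).natAbs).primeFactors, (1 + 1 / (p : ℝ))) * S))
    (hY : SingAvg) (hC : ShiftsU) : BlocksLog := by
  intro η hη
  have hθ0 : 0 < 1 + 1 / η := by (clear * - hη; positivity)
  obtain ⟨e1, he1⟩ : ∃ e1 : ℝ, e1 = 25 * c1 / (1 + 1 / η) := ⟨_, rfl⟩
  have he10 : 0 < e1 := by rw [he1]; (clear * - hc1 hη; positivity)
  refine ⟨e1 * c1 / 16, by (clear * - he10 hc1; positivity), ⌈4 / e1⌉₊ + 1, ?_⟩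
  intro M hM
  have hM0 : 0 < M := by omega
  have hMr : (0 : ℝ) < M := by exact_mod_cast hM0
  have heM : 4 ≤ e1 * M := by
    have h1 : 4 / e1 ≤ M := (Nat.le_ceil _).trans (by exact_mod_cast (by omega : ⌈4 / e1⌉₊ ≤ M))
    rw [div_le_iff₀ he10] at h1
    (clear * - h1; linarith)
  obtain ⟨J, hJ1, hJ2⟩ : ∃ J : ℕ, ((J : ℝ) + 2) ≤ e1 * M ∧ e1 * M / 2 ≤ (J : ℝ) + 2 := by
    have h1 : 4 ≤ ⌊e1 * M⌋₊ := Nat.le_floor (by exact_mod_cast heM)
    refine ⟨⌊e1 * M⌋₊ - 2, ?_, ?_⟩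
    · have h2 : ((⌊e1 * M⌋₊ - 2 : ℕ) : ℝ) + 2 = ⌊e1 * M⌋₊ := by
        push_cast [(by omega : 2 ≤ ⌊e1 * M⌋₊)]
        ring
      rw [h2]
      exact Nat.floor_le (by (clear * - he10 hM0; positivity))
    · have h2 : ((⌊e1 * M⌋₊ - 2 : ℕ) : ℝ) + 2 = ⌊e1 * M⌋₊ := by
        push_cast [(by omega : 2 ≤ ⌊e1 * M⌋₊)]
        ring
      rw [h2]
      have h3 := Nat.lt_floor_add_one (e1 * M)
      (clear * - heM h3; linarith)
  obtain ⟨κ0, hκ0⟩ : ∃ κ0 : ℕ, κ0 = 2 ^ (J + 1) := ⟨_, rfl⟩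
  have hκ00 : 0 < κ0 := by rw [hκ0]; positivity
  obtain ⟨D0, hD0⟩ : ∃ D0 : ℕ, D0 = (M * κ0 + 3) ^ 10 := ⟨_, rfl⟩
  have hD00 : 0 < D0 := by rw [hD0]; positivity
  have hD0r : (0 : ℝ) < D0 := by exact_mod_cast hD00
  obtain ⟨Q, D1, hQ, hD1, hsh⟩ := hC M κ0 D0 hM0 hκ00 (by
    rw [hD0]
    exact Nat.pow_le_pow_left (by omega) 10)
  have hQr : (0 : ℝ) < Q := by exact_mod_cast hQ
  obtain ⟨CK, hCK0, hCK⟩ := hY (M * κ0)
  have hcard : Fintype.card (Fin M × Fin κ0) = M * κ0 := by simp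
  obtain ⟨X0, hX03, hb'⟩ := hb (Fin M × Fin κ0) J D0 (D1 + 1 : ℕ) (by rw [hcard]; positivity) (by
      rw [hcard]
      have h1 : 1 * 2 ^ (J + 1) ≤ M * κ0 := by
        rw [hκ0]
        exact Nat.mul_le_mul hM0 le_rfl
      have h2 : (2 : ℕ) ^ (J + 1) = 2 * 2 ^ J := by ring
      have h3 : 0 < 2 ^ J := by positivity
      (clear * - h1 h2 h3 hcard; nlinarith)) (by rw [hcard, hD0]) (by exact_mod_cast (by omega : 1 ≤ D1 + 1))
  set c : ℝ := min (1 / (2 * Q * M)) (e1 * c1 / (32 * 12000 * D0 * CK * Q * M)) with hc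
  have hc0 : 0 < c := lt_min (by (clear * - hQ hM0; positivity)) (by (clear * - he10 hc1 hD00 hCK0 hQ hM0; positivity))
  refine ⟨Q * κ0 + D1 + 2 * Q, c, max X0 3, hc0, ?_⟩
  intro x hx D hD hDc
  have hxX : X0 ≤ x := (le_max_left _ _).trans hx
  have hx3 : 3 ≤ x := (le_max_right _ _).trans hx
  have hD1D : D1 ≤ D := by omega
  have hlog1 : 1 ≤ Real.log x := by
    rw [Real.le_log_iff_exp_le (by (clear * - hX03 hxX; linarith))]
    exact (Real.exp_one_lt_d9.le.trans (by norm_num)).trans hx3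
  have hlog0 : 0 < Real.log x := by (clear * - hlog1; linarith)
  obtain ⟨E, W, v, hDE, hE2, hSet, hReg, hW⟩ := hsh D hD1D
  have hc1' : c ≤ 1 / (2 * Q * M) := min_le_left _ _
  have hc2' : c ≤ e1 * c1 / (32 * 12000 * D0 * CK * Q * M) := min_le_right _ _
  have hYle : ((Q * M * E : ℕ) : ℝ) ≤ 2 * Q * M * (c * Real.log x) := by
    have h1 : (E : ℝ) ≤ 2 * D := by exact_mod_cast hE2
    push_cast
    calc (Q : ℝ) * M * E ≤ Q * M * (2 * D) := by (clear * - h1 hQ hM0; gcongr)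
      _ = 2 * Q * M * D := by ring
      _ ≤ _ := by (clear * - hDc hQ hM0; gcongr)
  have hYlog : ((Q * M * E : ℕ) : ℝ) ≤ Real.log x := by
    refine hYle.trans ?_
    calc 2 * Q * M * (c * Real.log x) = 2 * Q * M * c * Real.log x := by ring
      _ ≤ 2 * Q * M * (1 / (2 * Q * M)) * Real.log x := by (clear * - hc1' hQ hM0 hlog1; gcongr)
      _ = Real.log x := by (clear * - hQ hM0 hlog1; field_simp)
  have hDlog : (D : ℝ) ≤ Real.log x := by
    refine le_trans ?_ hYlog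
    have h1 : 1 * 1 * D ≤ Q * M * E := Nat.mul_le_mul (Nat.mul_le_mul hQ hM0) hDE
    rw [one_mul, one_mul] at h1
    exact_mod_cast h1
  have hpow1 : Real.log x ≤ Real.log x ^ ((D1 + 1 : ℕ) : ℝ) := by
    rw [Real.rpow_natCast]
    exact le_self_pow₀ hlog1 (by omega)
  have hWlog : (W : ℝ) ≤ Real.log x ^ ((D1 + 1 : ℕ) : ℝ) := by
    rw [Real.rpow_natCast]
    calc (W : ℝ) ≤ (D : ℝ) ^ D1 := by exact_mod_cast hW
      _ ≤ Real.log x ^ D1 := by (clear * - hDlog; gcongr)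
      _ ≤ Real.log x ^ (D1 + 1) := pow_le_pow_right₀ hlog1 (by omega)
  have hκE : κ0 ≤ E := by omega
  -- the shifts are at most Q M E
  have hshift : ∀ a : Fin M × Fin κ0, Q * (a.1.val * E + a.2.val) ≤ Q * M * E := by
    intro a
    have h1 := a.1.isLt
    have h2 := a.2.isLt
    have h3 : (a.1.val + 1) * E ≤ M * E := Nat.mul_le_mul_right _ h1
    rw [mul_assoc]
    apply Nat.mul_le_mul_left
    rw [add_mul, one_mul] at h3
    (clear * - e1 hκ0 D0 hQ hD1 hD W hDE h2 h3; omega)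
  obtain ⟨u, S, hu, hS0, hT, hs, hp, ho⟩ := hb' x hxX _ W v hSet hReg hWlog (fun a => by
    refine le_trans ?_ hpow1
    refine le_trans ?_ hYlog
    exact_mod_cast hshift a)
  rw [hcard] at hs hp
  set h : Fin M × Fin κ0 → ℕ := fun a => Q * (a.1.val * E + a.2.val) with hh
  set Yf : Finset ℕ := (range (Q * M * E + 1)).filter
      (fun j => ∀ a : Fin M × Fin κ0, h a ≠ j) with hYf
  have hYsum : ∑ j ∈ Yf, ∑ n ∈ (NS x W v).filter (fun n => (n + j).Prime), u n ≤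
      e1 * c1 / 32 * S := by
    have h1 : ∑ j ∈ Yf, ∑ n ∈ (NS x W v).filter (fun n => (n + j).Prime), u n ≤
        ∑ j ∈ Yf, 6000 * D0 / Real.log x *
          (∏ p ∈ (∏ i, ((h i : ℤ) - j).natAbs).primeFactors, (1 + 1 / (p : ℝ))) * S := by
      refine Finset.sum_le_sum fun j hj => ho j ?_
      rw [hYf, mem_filter] at hj
      exact hj.2
    refine h1.trans ?_
    rw [← Finset.sum_mul, ← Finset.mul_sum]
    have h2 : ∑ j ∈ Yf, ∏ p ∈ (∏ i, ((h i : ℤ) - j).natAbs).primeFactors, (1 + 1 / (p : ℝ)) ≤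
        CK * (Q * M * E : ℕ) := by
      have h3 := hCK (Q * M * E) (fun i => h (finProdFinEquiv.symm i)) (by
        have : 1 * 1 * 1 ≤ Q * M * E := Nat.mul_le_mul (Nat.mul_le_mul hQ hM0) (by omega)
        omega) (fun i => hshift _)
      refine le_trans (le_of_eq ?_) h3
      have h4 : Yf = (range (Q * M * E + 1)).filter
          (fun j => ∀ i : Fin (M * κ0), h (finProdFinEquiv.symm i) ≠ j) := by
        rw [hYf]
        refine Finset.filter_congr fun j _ => ?_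
        constructor
        · intro h5 i
          exact h5 _
        · intro h5 a
          have := h5 (finProdFinEquiv a)
          rwa [Equiv.symm_apply_apply] at this
      rw [h4]
      refine Finset.sum_congr rfl fun j _ => ?_
      have h5 : (∏ i : Fin (M * κ0), ((h (finProdFinEquiv.symm i) : ℤ) - j).natAbs) =
          ∏ a : Fin M × Fin κ0, ((h a : ℤ) - j).natAbs :=
        Equiv.prod_comp finProdFinEquiv.symm (fun a => ((h a : ℤ) - j).natAbs)
      rw [h5]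
    calc _ ≤ 6000 * D0 / Real.log x * (CK * (Q * M * E : ℕ)) * S := by (clear * - h2 hD00 hlog1 hS0; gcongr)
      _ ≤ 6000 * D0 / Real.log x * (CK * (2 * Q * M * (c * Real.log x))) * S := by (clear * - hYle hCK0 hD00 hlog1 hS0; gcongr)
      _ = 12000 * D0 * CK * Q * M * c * S := by
        field_simp
        ring
      _ ≤ 12000 * D0 * CK * Q * M * (e1 * c1 / (32 * 12000 * D0 * CK * Q * M)) * S := by (clear * - hc2' hD00 hCK0 hQ hM0 hS0; gcongr)
      _ = e1 * c1 / 32 * S := by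
        field_simp
  obtain ⟨n, hn, hn1, hn2, hn3⟩ := pick hM0 hκ00 hη hc1 he1 rfl hJ1 hJ2 h (NS x W v) u Yf hu hS0
    hT hs hp hYsum
  obtain ⟨hb1, hb2⟩ := to_blocks (B0 := Q * κ0 + D1 + 2 * Q) hQ hκE (by omega) (by omega) hn3
  refine ⟨n, Q * E, ?_, ?_, ?_, ?_, hb1, ?_, ?_⟩
  · have h1 := NS_floor hn
    have h2 := Nat.lt_floor_add_one (x ^ (1 / 2 : ℝ))
    have h3 : ((⌊x ^ (1 / 2 : ℝ)⌋₊ : ℝ) + 1) ≤ n := by exact_mod_cast h1
    (clear * - h2 h3; linarith)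
  · unfold NS at hn
    rw [mem_filter, mem_Ioc] at hn
    exact (Nat.le_floor_iff (by (clear * - hX03 hxX; linarith))).1 hn.1.2
  · exact hDE.trans (Nat.le_mul_of_pos_left E hQ)
  · calc Q * E ≤ Q * (2 * D) := Nat.mul_le_mul_left _ hE2
      _ = 2 * Q * D := by ring
      _ ≤ _ := Nat.mul_le_mul_right _ (by omega)
  · rw [hb2 (fun r => r = 1)]
    exact hn1
  · rw [hb2 (fun r => r = 1), hb2 (fun r => 2 ≤ r)]
    exact hn2

end Pool.Agent.Helper1.MT

end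

section

set_option autoImplicit false

open Finset

namespace Pool.Agent.Helper93.MT

open Pool.Agent.Helper1.MT (P pc BlocksLog Szemeredi Patterns)

open Pool.Agent.Helper16.MT

theorem patterns (hB : BlocksLog) (hS : Szemeredi) : Patterns := by
  classical
  intro r k
  obtain ⟨δ, hδ, M0, hM⟩ := hB (1 / (4 * ((r : ℝ) + 1))) (by (clear * -; positivity))
  obtain ⟨C, hC⟩ := exists_nat_ge (8 * (r : ℝ) / δ)
  obtain ⟨M1, hM1⟩ := windows_ap hS r k C δ hδ hC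
  obtain ⟨B0, c, x0, hc, hx⟩ := hM (max M0 M1) (le_max_left _ _)
  set M := max M0 M1 with hMdef
  refine ⟨M * (B0 + 1) + 2 * B0 + 1, min c (1 / (4 * ((M : ℝ) * B0 + 1))),
    max x0 (max 1 (4 * B0)), lt_min hc (by (clear * -; positivity)), fun x hxx D hD hDx => ?_⟩
  have hx1 : 1 ≤ x := (le_max_left _ _).trans ((le_max_right _ _).trans hxx)
  have hxB : 4 * (B0 : ℝ) ≤ x := (le_max_right _ _).trans ((le_max_right _ _).trans hxx)
  have hlog : 0 ≤ Real.log x := Real.log_nonneg hx1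
  have hlogx : Real.log x ≤ x := (Real.log_le_sub_one_of_pos (by (clear * - hx1; linarith))).trans (by (clear * -; linarith))
  have hDc : (D : ℝ) ≤ c * Real.log x :=
    hDx.trans (mul_le_mul_of_nonneg_right (min_le_left _ _) hlog)
  have hDx' : (M : ℝ) * B0 * D ≤ x / 4 := by
    have h1 : (D : ℝ) ≤ 1 / (4 * ((M : ℝ) * B0 + 1)) * x :=
      (hDx.trans (mul_le_mul_of_nonneg_right (min_le_right _ _) hlog)).trans
        (mul_le_mul_of_nonneg_left hlogx (by (clear * -; positivity)))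
    have h2 : (0 : ℝ) ≤ (M : ℝ) * B0 := by (clear * -; positivity)
    have h3 : (M : ℝ) * B0 * D ≤ (M : ℝ) * B0 * (1 / (4 * ((M : ℝ) * B0 + 1)) * x) :=
      mul_le_mul_of_nonneg_left h1 h2
    refine h3.trans ?_
    have h4 : (M : ℝ) * B0 * (1 / (4 * ((M : ℝ) * B0 + 1)) * x) =
        ((M : ℝ) * B0 / ((M : ℝ) * B0 + 1)) * (x / 4) := by
      (clear * - hx1; field_simp)
    rw [h4]
    have h5 : (M : ℝ) * B0 / ((M : ℝ) * B0 + 1) ≤ 1 := by
      rw [div_le_one (by (clear * -; positivity))]; (clear * -; linarith)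
    have h6 : 0 ≤ x / 4 := by (clear * - hx1; linarith)
    (clear * - h5 hx1; nlinarith)
  obtain ⟨n, E, hn1, hn2, hDE, hEB, hq, hs, hm⟩ := hx x ((le_max_left _ _).trans hxx) D
    (by omega) hDc
  obtain ⟨p0, L, f, hp0, hp0', hfM, hmono, hloc, hcnt, hL⟩ := bridge n E M B0 (by omega) hq
  have hsgl : ((range M).filter (fun i => pc (n + i * E) (n + i * E + B0) = 1)) = sgl M L f := by
    unfold sgl
    apply Finset.filter_congr
    intro v hv
    rw [hcnt v (by simpa using hv)]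
  have hmlt : ((range M).filter (fun i => 2 ≤ pc (n + i * E) (n + i * E + B0))) = mlt M L f := by
    unfold mlt
    apply Finset.filter_congr
    intro v hv
    rw [hcnt v (by simpa using hv)]
  rw [hsgl] at hs hm
  rw [hmlt] at hm
  obtain ⟨ι, g', gg, hg1, hg2, hgg, hι⟩ := hM1 M (le_max_right _ _) L f hfM hmono hs hm
  have hle : M * E ≤ M * B0 * D := by
    rw [mul_assoc]
    exact Nat.mul_le_mul_left _ hEB
  have hMB : M * B0 * D ≤ (M * (B0 + 1) + 2 * B0 + 1) * D := by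
    refine Nat.mul_le_mul_right _ ?_
    have : M * B0 ≤ M * (B0 + 1) := Nat.mul_le_mul_left _ (by omega)
    omega
  refine ⟨fun s => p0 + ι s, g' * E, fun l => gg l * E, ?_, ?_, ?_, ?_, ?_, ?_, ?_, ?_⟩
  · have h1 : (n : ℝ) ≤ P (p0 + ι 0) := by
      exact_mod_cast hp0.trans (P_strictMono.monotone (by omega))
    exact hn1.trans h1
  · obtain ⟨h1, h2, h3, h4⟩ := hι k le_rfl
    obtain ⟨h5, h6⟩ := hloc (ι k + r) h1
    have h7 := hfM _ h1
    have h8 : f (ι k + r) * E ≤ M * E := Nat.mul_le_mul_right _ h7.le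
    have h9 : P (p0 + ι k + r) ≤ n + M * B0 * D + B0 := by
      rw [show p0 + ι k + r = p0 + (ι k + r) by omega]
      omega
    have h10 : ((P (p0 + ι k + r) : ℕ) : ℝ) ≤ n + M * B0 * D + B0 := by exact_mod_cast h9
    change ((P (p0 + ι k + r) : ℕ) : ℝ) ≤ 2 * x
    (clear * - hx1 hxB hDx' hn2 h10; linarith)
  · intro s hs'
    obtain ⟨h1, h2, h3, h4⟩ := hι s (by omega)
    obtain ⟨h1', h2', -, -⟩ := hι (s + 1) (by omega)
    change p0 + ι s + r < p0 + ι (s + 1)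
    by_contra hcon
    have h5 : ι (s + 1) ≤ ι s + r := by omega
    have h6 := hmono _ _ h5 h1
    have h7 : (s + 1) * g' = s * g' + g' := Nat.succ_mul s g'
    omega
  · obtain ⟨h1, -, -, -⟩ := hι k le_rfl
    change p0 + ι k + r ≤ p0 + ι 0 + _
    omega
  · exact hDE.trans (Nat.le_mul_of_pos_left _ (by omega))
  · exact ((Nat.mul_le_mul_right _ hg2.le).trans hle).trans hMB
  · intro j hj
    obtain ⟨h1, h2⟩ := hgg j hj
    exact ⟨hDE.trans (Nat.le_mul_of_pos_left _ h1),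
      ((Nat.mul_le_mul_right _ h2.le).trans hle).trans hMB⟩
  · intro s hs' j hj
    obtain ⟨h1, h2, h3, h4⟩ := hι s hs'
    obtain ⟨h1', -, -, -⟩ := hι 0 (Nat.zero_le _)
    obtain ⟨a1, a2⟩ := hloc (ι s + j) (by omega)
    obtain ⟨b1, b2⟩ := hloc (ι 0) (by omega)
    have h5 := h4 j hj
    rw [h2] at h5
    have h6 : f (ι s + j) * E = f (ι 0) * E + s * (g' * E) + ∑ l ∈ range j, gg l * E := by
      rw [h5, ← sum_mul]
      ring
    rw [h6] at a1 a2
    change |((P (p0 + ι s + j) : ℕ) : ℤ) - (((P (p0 + ι 0) : ℕ) : ℤ) + (s : ℤ) * ((g' * E : ℕ) : ℤ) +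
      ∑ l ∈ range j, ((gg l * E : ℕ) : ℤ))| ≤ _
    rw [show p0 + ι s + j = p0 + (ι s + j) by omega]
    have a1' : (n : ℤ) + (((f (ι 0) * E : ℕ) : ℤ) + (s : ℤ) * ((g' * E : ℕ) : ℤ) +
        ∑ l ∈ range j, ((gg l * E : ℕ) : ℤ)) ≤ ((P (p0 + (ι s + j)) : ℕ) : ℤ) := by
      exact_mod_cast a1
    have a2' : ((P (p0 + (ι s + j)) : ℕ) : ℤ) ≤ (n : ℤ) + (((f (ι 0) * E : ℕ) : ℤ) +
        (s : ℤ) * ((g' * E : ℕ) : ℤ) + ∑ l ∈ range j, ((gg l * E : ℕ) : ℤ)) + B0 := by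
      exact_mod_cast a2
    have b1' : (n : ℤ) + ((f (ι 0) * E : ℕ) : ℤ) ≤ ((P (p0 + ι 0) : ℕ) : ℤ) := by exact_mod_cast b1
    have b2' : ((P (p0 + ι 0) : ℕ) : ℤ) ≤ (n : ℤ) + ((f (ι 0) * E : ℕ) : ℤ) + B0 := by
      exact_mod_cast b2
    rw [abs_le]
    push_cast at a1' a2' b1' b2' ⊢
    have hM' : (0 : ℤ) ≤ (M : ℤ) * ((B0 : ℤ) + 1) := by (clear * -; positivity)
    constructor
    · (clear * - hL h1 a1 b2; linarith)
    · (clear * - hL h1 a2 b1; linarith)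

end Pool.Agent.Helper93.MT

end

section

set_option autoImplicit false

namespace Pool.Agent.Helper1.MT

theorem blocksLog : BlocksLog := by
  have hT := Pool.Agent.Helper87.MT.tupleSum
  have hE := Pool.Agent.Helper46.MT.expand
  obtain ⟨c1, hc1, hb⟩ := boundsU hT Pool.Agent.Helper9.MT.gramUpper
    Pool.Agent.Helper9.MT.gramLower Pool.Agent.Helper90.MT.lowerMain
    (Pool.Agent.Helper87.MT.pairMajorant hT) (Pool.Agent.Helper12.MT.starMajorant hT)
    (Pool.Agent.Helper18.MT.sumGen hE) (Pool.Agent.Helper72.MT.sumPrimeU hE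
      Pool.Agent.Helper28.MT.bvErrorU) (Pool.Agent.Helper81.MT.oneDimU
      Pool.Agent.Helper63.MT.sqfreeSumU)
  exact blocksLog_of hc1 hb Pool.Agent.Helper68.MT.singAvg Pool.Agent.Helper37.MT.shiftsU

theorem patterns : Patterns :=
  Pool.Agent.Helper93.MT.patterns blocksLog fun k δ hδ => Pool.Agent.Helper52.SZ.szemeredi k δ hδ

end Pool.Agent.Helper1.MT

end
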