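import Pool.Agent.Helper23.MT.L01_acd0
import Pool.Agent.Helper23.MT.L01_acd1
import Pool.Agent.Helper23.MT.L01_acd2
import Pool.Agent.Helper23.MT.L01_acd3
import Pool.Agent.Helper23.MT.L01_acd4

/-!
Parts of Helper44.BV.Mass, Helper18.BV.Vaughan, Helper18.BV.Bv, Helper28.MT.BVErrorU, Helper83.MT.Wt
-/

namespace Pool.Agent.Helper1.MT
end Pool.Agent.Helper1.MT
namespace Pool.Agent.Helper18.BV
end Pool.Agent.Helper18.BV

section

set_option autoImplicit false

open Finset Filter Topology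

open scoped ArithmeticFunction.vonMangoldt

namespace Pool.Agent.Helper44.BV

open Pool.Agent.Helper18.BV

theorem mass : Mass := by
  intro g hg ⟨v0, hv0⟩
  obtain ⟨G, hG0, hG⟩ := IsWt_bdd hg
  have hpos : 0 < g v0 := lt_of_le_of_ne (hg.nonneg v0) (Ne.symm hv0)
  have hv0mem : v0 ∈ Set.Ioo (1 / 2 : ℝ) 1 := hg.supp (subset_tsupport g hv0)
  have hev : ∀ᶠ v in 𝓝 v0, g v0 / 2 < g v ∧ v ∈ Set.Ioo (1 / 2 : ℝ) 1 :=
    ((hg.smooth.continuous.tendsto v0).eventually (lt_mem_nhds (half_lt_self hpos))).and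
      (Ioo_mem_nhds hv0mem.1 hv0mem.2)
  obtain ⟨ε, hε, hball⟩ := Metric.eventually_nhds_iff_ball.1 hev
  have hin : ∀ v, v0 - ε / 2 ≤ v → v ≤ v0 + ε / 2 →
      g v0 / 2 < g v ∧ v ∈ Set.Ioo (1 / 2 : ℝ) 1 := by
    intro v h1 h2
    apply hball
    rw [Metric.mem_ball, Real.dist_eq, abs_lt]
    constructor <;> (clear * - hε h1 h2; linarith)
  refine ⟨g v0 / 2 * (ε / 2), 7 * G, max 3 (Real.exp (26 / ε)), by (clear * - hpos hε; positivity), by positivity,
    le_max_left _ _, ?_⟩
  intro x hx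
  have hx3 : 3 ≤ x := (le_max_left _ _).trans hx
  have hx0 : 0 < x := by linarith
  have hlog1 : 1 ≤ Real.log x := by
    rw [Real.le_log_iff_exp_le hx0]
    exact (Real.exp_one_lt_d9.le.trans (by norm_num)).trans hx3
  have hlogε : 26 / ε ≤ Real.log x := by
    rw [Real.le_log_iff_exp_le hx0]
    exact (le_max_right _ _).trans hx
  have hlog0 : 0 < Real.log x := by linarith
  have hterm : ∀ n : ℕ, Λ n * wt g x n = g (Real.log n / Real.log x) * (Λ n / n) := by
    intro n
    unfold wt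
    ring
  constructor
  · -- lower bound
    set a := v0 - ε / 2 with ha
    set b := v0 + ε / 2 with hb
    have ha' : a ∈ Set.Ioo (1 / 2 : ℝ) 1 := (hin a le_rfl (by (clear * - hε ha; linarith))).2
    have hb' : b ∈ Set.Ioo (1 / 2 : ℝ) 1 := (hin b (by (clear * - hε ha; linarith)) le_rfl).2
    have hxa : 1 ≤ x ^ a := Real.one_le_rpow (by (clear * - hx3; linarith)) (by (clear * - ha'; linarith [ha'.1]))
    have hxb : 1 ≤ x ^ b := Real.one_le_rpow (by (clear * - hx3; linarith)) (by (clear * - hb'; linarith [hb'.1]))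
    have hAB : ⌊x ^ a⌋₊ ≤ ⌊x ^ b⌋₊ :=
      Nat.floor_le_floor (Real.rpow_le_rpow_of_exponent_le (by (clear * - hx3; linarith)) (by (clear * - hε ha; linarith)))
    have hBx : ⌊x ^ b⌋₊ ≤ ⌊x⌋₊ := by
      apply Nat.floor_le_floor
      calc x ^ b ≤ x ^ (1 : ℝ) := Real.rpow_le_rpow_of_exponent_le (by (clear * - hx3; linarith)) hb'.2.le
        _ = x := Real.rpow_one x
    have h1 : ∑ n ∈ Ioc ⌊x ^ a⌋₊ ⌊x ^ b⌋₊, g v0 / 2 * (Λ n / n) ≤
        ∑ n ∈ Icc 1 ⌊x⌋₊, Λ n * wt g x n := by
      calc ∑ n ∈ Ioc ⌊x ^ a⌋₊ ⌊x ^ b⌋₊, g v0 / 2 * (Λ n / n)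
          ≤ ∑ n ∈ Ioc ⌊x ^ a⌋₊ ⌊x ^ b⌋₊, Λ n * wt g x n := by
            apply Finset.sum_le_sum
            intro n hn
            rw [hterm n]
            have hn1 := (Finset.mem_Ioc.1 hn).1
            have hn2 := (Finset.mem_Ioc.1 hn).2
            have hna : x ^ a < n := (Nat.floor_lt (by (clear * - hx3; positivity))).1 hn1
            have hnb : (n : ℝ) ≤ x ^ b := (Nat.le_floor_iff (by positivity)).1 hn2
            have hn0 : (0 : ℝ) < n := by (clear * - hxa hna; linarith)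
            have hla : a ≤ Real.log n / Real.log x := by
              rw [le_div_iff₀ hlog0, ← Real.log_rpow hx0]
              exact Real.log_le_log (by positivity) hna.le
            have hlb : Real.log n / Real.log x ≤ b := by
              rw [div_le_iff₀ hlog0, ← Real.log_rpow hx0]
              exact Real.log_le_log hn0 hnb
            have hΛ : 0 ≤ Λ n / n := div_nonneg ArithmeticFunction.vonMangoldt_nonneg hn0.le
            exact mul_le_mul_of_nonneg_right (hin _ hla hlb).1.le hΛ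
        _ ≤ ∑ n ∈ Icc 1 ⌊x⌋₊, Λ n * wt g x n := by
            apply Finset.sum_le_sum_of_subset_of_nonneg
            · intro n hn
              rw [Finset.mem_Ioc] at hn
              rw [Finset.mem_Icc]
              (clear * - hBx hn; omega)
            · intro n _ _
              rw [hterm n]
              exact mul_nonneg (hg.nonneg _)
                (div_nonneg ArithmeticFunction.vonMangoldt_nonneg (Nat.cast_nonneg n))
    have h2 : ∑ n ∈ Ioc ⌊x ^ a⌋₊ ⌊x ^ b⌋₊, Λ n / n =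
        ∑ n ∈ Ioc 0 ⌊x ^ b⌋₊, Λ n / n - ∑ n ∈ Ioc 0 ⌊x ^ a⌋₊, Λ n / n := by
      rw [eq_sub_iff_add_eq, add_comm]
      have hd : Disjoint (Ioc 0 ⌊x ^ a⌋₊) (Ioc ⌊x ^ a⌋₊ ⌊x ^ b⌋₊) := by
        rw [Finset.disjoint_left]
        intro n h h'
        rw [Finset.mem_Ioc] at h h'
        omega
      rw [← Finset.sum_union hd, Finset.Ioc_union_Ioc_eq_Ioc (Nat.zero_le _) hAB]
    have h3 := sum_Lambda_Ioc_le hxa
    have h4 := le_sum_Lambda_Ioc hxb
    rw [Real.log_rpow hx0] at h3 h4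
    rw [← Finset.mul_sum, h2] at h1
    refine le_trans ?_ h1
    rw [mul_assoc]
    apply mul_le_mul_of_nonneg_left _ (by positivity)
    have h5 : 26 ≤ ε * Real.log x := by
      rw [div_le_iff₀ hε] at hlogε
      (clear * - hlogε; linarith)
    have h6 : b * Real.log x - a * Real.log x = ε * Real.log x := by
      rw [ha, hb]; ring
    (clear * - h3 h4 h5 h6; linarith)
  · -- upper bound
    calc ∑ n ∈ Icc 1 ⌊x⌋₊, Λ n * wt g x n ≤ ∑ n ∈ Icc 1 ⌊x⌋₊, G * (Λ n / n) := by
          apply Finset.sum_le_sum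
          intro n _
          rw [hterm n]
          exact mul_le_mul_of_nonneg_right ((le_abs_self _).trans (hG _))
            (div_nonneg ArithmeticFunction.vonMangoldt_nonneg (Nat.cast_nonneg n))
      _ = G * ∑ n ∈ Ioc 0 ⌊x⌋₊, Λ n / n := by
          rw [Finset.mul_sum]
          apply Finset.sum_congr _ fun _ _ => rfl
          ext n
          rw [Finset.mem_Icc, Finset.mem_Ioc]
          omega
      _ ≤ G * (Real.log x + 6) := by
          gcongr
          exact sum_Lambda_Ioc_le (by (clear * - hx3; linarith))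
      _ ≤ 7 * G * Real.log x := by (clear * - hG0 hlog1; nlinarith)

end Pool.Agent.Helper44.BV

end

section

set_option autoImplicit false

open Finset

open scoped ArithmeticFunction.vonMangoldt ArithmeticFunction.Moebius ArithmeticFunction.zeta

namespace Pool.Agent.Helper18.BV

theorem coefFacts : CoefFacts where
  inv := ArithmeticFunction.coe_zeta_mul_coe_moebius
  log := zeC_mul_LaC
  mu_le := norm_muC_le
  lo_mul_lo_le := fun U V n => norm_conv_le (fun n => (norm_lo_le U _ n).trans (norm_muC_le n))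
    (fun n => (norm_lo_le V _ n).trans (norm_LaC n).le) n
  lo_mul_lo_zero := by
    intro U V n hn
    rw [ArithmeticFunction.mul_apply]
    apply Finset.sum_eq_zero
    intro x hx
    rw [lo_apply, lo_apply]
    have hxn := (Nat.mem_divisorsAntidiagonal.1 hx).1
    by_cases h1 : x.1 ≤ U
    · by_cases h2 : x.2 ≤ V
      · exfalso
        have := Nat.mul_le_mul h1 h2
        omega
      · simp [h2]
    · simp [h1]
  hi_mul_le := by
    intro V n
    rw [mul_comm]
    exact norm_conv_le norm_zeC_le (fun n => (norm_hi_le V _ n).trans (norm_LaC n).le) n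
  hi_mul_zero := by
    intro V n hn
    rw [ArithmeticFunction.mul_apply]
    apply Finset.sum_eq_zero
    intro x hx
    obtain ⟨hxn, hn0⟩ := Nat.mem_divisorsAntidiagonal.1 hx
    have hle : x.1 ≤ V := by
      have := Nat.le_of_dvd (Nat.pos_of_ne_zero hn0) (Dvd.intro x.2 hxn)
      omega
    rw [hi_apply]
    simp [hle]

end Pool.Agent.Helper18.BV

end

section

set_option autoImplicit false

namespace Pool.Agent.Helper18.BV

/-- The Bombieri-Vinogradov theorem in the form used here (averages over moduli `d ≤ x ^ (1/40)`). -/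
theorem bv : BVav := by
  have hB := Pool.Agent.Helper85.BV.lBound
  have hU := Pool.Agent.Helper85.BV.lUpper
  have hC := Pool.Agent.Helper30.BV.lComplex hU
  have hE := Pool.Agent.Helper18.BV.estermann
  have hAP := Pool.Agent.Helper79.BV.altProd
  have hAO := Pool.Agent.Helper79.BV.altOne
  have hSi := Pool.Agent.Helper37.BV.siegelReal hB hU hE hAP hAO
  have hF := Pool.Agent.Helper46.BV.fourierRep
  have hN := Pool.Agent.Helper79.BV.nearOne hU hC hSi
  have hS := Pool.Agent.Helper81.BV.small hN hF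
  have hT2 := Pool.Agent.Helper96.BV.typeTwo Pool.Agent.Helper96.BV.tls hF
  have hL := Pool.Agent.Helper96.BV.large Pool.Agent.Helper18.BV.vaughanId
    Pool.Agent.Helper18.BV.coefFacts Pool.Agent.Helper44.BV.typeOne hT2
  exact Pool.Agent.Helper51.BV.bvav hS hL

end Pool.Agent.Helper18.BV

end

section

set_option autoImplicit false

open Finset Filter

open scoped ArithmeticFunction.vonMangoldt

namespace Pool.Agent.Helper28.MT

open Pool.Agent.Helper18.BV (wt IsWt BVav)

open Pool.Agent.Helper1.MT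

open Pool.Agent.Helper74.MT (sum_class_le sum_total_le wt_nonneg le_totient sum_powerset_le)

theorem bvErrorU : BVErrorU := bvErrorU_of Pool.Agent.Helper18.BV.bv

end Pool.Agent.Helper28.MT

end

section

set_option autoImplicit false

open Finset

open scoped ArithmeticFunction.vonMangoldt

namespace Pool.Agent.Helper83.MT

open Pool.Agent.Helper1.MT

open Pool.Agent.Helper18.BV (wt IsWt)

theorem wt_range {g : ℝ → ℝ} (hg : IsWt g) (hg0 : ∀ v, v ≤ 5 / 8 → g v = 0) {x : ℝ} (hx : 1 < x)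
    {n : ℕ} (h : wt g x n ≠ 0) : x ^ (5 / 8 : ℝ) < n ∧ (n : ℝ) < x := by
  have hlog : 0 < Real.log x := Real.log_pos hx
  have hx0 : 0 < x := by linarith
  unfold wt at h
  have h1 : g (Real.log n / Real.log x) ≠ 0 := fun h0 => h (by rw [h0, zero_div])
  have h2 : (n : ℝ) ≠ 0 := fun h0 => h (by rw [h0, div_zero])
  have hn : (0 : ℝ) < n := lt_of_le_of_ne (Nat.cast_nonneg _) (Ne.symm h2)
  constructor
  · by_contra hle
    push Not at hle
    apply h1
    apply hg0
    rw [div_le_iff₀ hlog, ← Real.log_rpow hx0]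
    exact Real.log_le_log hn hle
  · by_contra hle
    push Not at hle
    apply h1
    apply hg.zero_of_ge
    rw [le_div_iff₀ hlog, one_mul]
    exact Real.log_le_log hx0 hle

/-- Facts on `n` with nonzero weight. -/
theorem nu_range {g : ℝ → ℝ} (hg : IsWt g) (hg0 : ∀ v, v ≤ 5 / 8 → g v = 0) {x : ℝ} (hx : 1 < x)
    {H n : ℕ} (h : nu g x H n ≠ 0) :
    (n + H).Prime ∧ x ^ (5 / 8 : ℝ) < ((n + H : ℕ) : ℝ) ∧ ((n + H : ℕ) : ℝ) < x := by
  unfold nu at h
  split_ifs at h with hp
  · exact ⟨hp, wt_range hg hg0 hx (right_ne_zero_of_mul h)⟩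
  · exact absurd rfl h

theorem sum_nu {g : ℝ → ℝ} (hg : IsWt g) (hg0 : ∀ v, v ≤ 5 / 8 → g v = 0) {x : ℝ} (hx : 1 < x)
    {H : ℕ} (hH : x ^ (1 / 2 : ℝ) + H + 1 ≤ x ^ (5 / 8 : ℝ)) {W v q a : ℕ} (Q : ℕ → Prop)
    [DecidablePred Q] (hQ : ∀ n, (n ≡ v [MOD W] ∧ Q n) ↔ n + H ≡ a [MOD q]) :
    ∑ n ∈ (NS x W v).filter Q, nu g x H n =
      ∑ n ∈ (Icc 1 ⌊x⌋₊).filter (fun n => n ≡ a [MOD q]),
        (if n.Prime then Λ n * wt g x n else 0) := by
  have hx0 : 0 < x := by (clear * - hx; linarith)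
  have hs0 : 0 ≤ x ^ (1 / 2 : ℝ) := Real.rpow_nonneg hx0.le _
  apply Finset.sum_bij_ne_zero (fun n _ _ => n + H)
  · intro n hn hne
    rw [Finset.mem_filter, mem_NS] at hn
    obtain ⟨hp, h1, h2⟩ := nu_range hg hg0 hx hne
    rw [Finset.mem_filter, Finset.mem_Icc]
    refine ⟨⟨hp.one_le, ?_⟩, ?_⟩
    · exact Nat.le_floor h2.le
    · exact (hQ n).1 ⟨hn.1.2, hn.2⟩
  · intro n _ _ n' _ _ h
    exact Nat.add_right_cancel h
  · intro q' hq hne
    rw [Finset.mem_filter, Finset.mem_Icc] at hq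
    have hp : q'.Prime := by
      by_contra h
      rw [if_neg h] at hne
      exact hne rfl
    rw [if_pos hp] at hne
    have hw := wt_range hg hg0 hx (right_ne_zero_of_mul hne)
    have hHq : H ≤ q' := by
      have : (H : ℝ) ≤ q' := by linarith
      exact_mod_cast this
    have hadd : q' - H + H = q' := Nat.sub_add_cancel hHq
    have hc : ((q' - H : ℕ) : ℝ) = q' - H := Nat.cast_sub hHq
    have h3 := (hQ (q' - H)).2 (by rw [hadd]; exact hq.2)
    refine ⟨q' - H, ?_, ?_, hadd⟩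
    · rw [Finset.mem_filter, mem_NS]
      refine ⟨⟨⟨?_, ?_⟩, h3.1⟩, h3.2⟩
      · rw [Nat.floor_lt hs0, hc]
        (clear * - hH hw; linarith)
      · exact (Nat.sub_le _ _).trans hq.1.2
    · unfold nu
      rw [hadd, if_pos hp]
      exact hne
  · intro n _ hne
    have hp := (nu_range hg hg0 hx hne).1
    unfold nu
    rfl

/-- The sum over the primes in a class is close to the expected value. -/
theorem class_bound {g : ℝ → ℝ} (hg : IsWt g) (hg1 : ∀ v, g v ≤ 1) {x : ℝ} (hx : 3 ≤ x)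
    {δ : ℝ} (hδ : ∀ T : Finset ℕ, (∀ n ∈ T, ¬ n.Prime ∧ x ^ (1 / 2 : ℝ) < n ∧ (n : ℝ) ≤ x) →
      ∑ n ∈ T, Λ n / n ≤ δ) (q a : ℕ) :
    |∑ n ∈ (Icc 1 ⌊x⌋₊).filter (fun n => n ≡ a [MOD q]),
        (if n.Prime then Λ n * wt g x n else 0) -
      (1 / (q.totient : ℝ)) * ∑ n ∈ Icc 1 ⌊x⌋₊, Λ n * wt g x n| ≤ err g x q a + δ := by
  classical
  have hx0 : 0 < x := by (clear * - hx; linarith)
  set F := (Icc 1 ⌊x⌋₊).filter (fun n => n ≡ a [MOD q]) with hF
  set A := ∑ n ∈ F, (if n.Prime then Λ n * wt g x n else 0) with hA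
  set B := ∑ n ∈ F, Λ n * wt g x n with hB
  set Y := (1 / (q.totient : ℝ)) * ∑ n ∈ Icc 1 ⌊x⌋₊, Λ n * wt g x n with hY
  have hwt0 : ∀ n : ℕ, 0 ≤ Λ n * wt g x n := fun n =>
    mul_nonneg ArithmeticFunction.vonMangoldt_nonneg (Pool.Agent.Helper18.BV.wt_nonneg hg _ _)
  have h1 : B - A = ∑ n ∈ F.filter (fun n => ¬ n.Prime), Λ n * wt g x n := by
    symm
    rw [Finset.sum_filter, hA, hB, ← Finset.sum_sub_distrib]
    apply Finset.sum_congr rfl
    intro n _
    by_cases hp : n.Prime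
    · simp [hp]
    · simp [hp]
  have h2 : ∑ n ∈ F.filter (fun n => ¬ n.Prime), Λ n * wt g x n ≤ δ := by
    set T := (F.filter (fun n => ¬ n.Prime)).filter (fun n : ℕ => x ^ (1 / 2 : ℝ) < n) with hT
    have h3 : ∑ n ∈ F.filter (fun n => ¬ n.Prime), Λ n * wt g x n =
        ∑ n ∈ T, Λ n * wt g x n := by
      symm
      apply Finset.sum_subset (Finset.filter_subset _ _)
      intro n hn hn'
      have h4 : (n : ℝ) ≤ x ^ (1 / 2 : ℝ) := by
        by_contra hlt
        exact hn' (Finset.mem_filter.2 ⟨hn, not_le.1 hlt⟩)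
      rw [Pool.Agent.Helper18.BV.wt_zero hg (by (clear * - hx; linarith)) h4, mul_zero]
    rw [h3]
    refine le_trans ?_ (hδ T ?_)
    · apply Finset.sum_le_sum
      intro n _
      unfold wt
      rw [← mul_div_assoc]
      apply div_le_div_of_nonneg_right _ (Nat.cast_nonneg _)
      exact mul_le_of_le_one_right ArithmeticFunction.vonMangoldt_nonneg (hg1 _)
    · intro n hn
      rw [hT, Finset.mem_filter, Finset.mem_filter, hF, Finset.mem_filter, Finset.mem_Icc] at hn
      refine ⟨hn.1.2, hn.2, ?_⟩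
      exact (Nat.le_floor_iff hx0.le).1 hn.1.1.1.2
  have h3 : 0 ≤ B - A := by
    rw [h1]
    exact Finset.sum_nonneg fun n _ => hwt0 n
  have h4 : err g x q a = |B - Y| := rfl
  rw [h4]
  have h5 : |A - Y| ≤ |B - Y| + |B - A| := by
    have : A - Y = (B - Y) - (B - A) := by ring
    rw [this]
    exact abs_sub _ _
  refine h5.trans ?_
  rw [abs_of_nonneg h3, h1]
  (clear * - h2; linarith)

end Pool.Agent.Helper83.MT

end
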