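import Pool.Agent.Helper23.MT.L01_acd3
import Pool.Agent.Helper23.MT.L01_c0
import Pool.Agent.Helper23.MT.L01_c1
import Pool.Agent.Helper23.MT.L01_c2

/-!
Parts of Helper66.PV.Defs, Helper66.PV.Main, Helper66.PV.FinalA, Helper66.PU.FinalG, Helper4.PU.Defs, Helper4.PU.OneT, Helper66.PU.OneG, Helper66.PU.InterG, Helper66.PU.AllG, Helper4.PU.EnergyOne, Helper13.PV.Ik
-/

namespace Pool.Agent.Helper1.MT
end Pool.Agent.Helper1.MT
namespace Pool.Agent.Helper66.PV
end Pool.Agent.Helper66.PV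

section

set_option autoImplicit false

open Finset

namespace Pool.Agent.Helper66.PV

open Pool.Agent.Helper1.MT

open Pool.Agent.Helper66.PAP (ext ys)

/-- PV-I: there are many of them. -/
def IkCard : Prop := ∃ c : ℝ, 0 < c ∧ ∀ k : ℕ, 1 ≤ k → c * k / Real.log (2 * k) ≤ (Ik k).card

end Pool.Agent.Helper66.PV

end

section

set_option autoImplicit false

open Finset Filter

namespace Pool.Agent.Helper66.PV

open Pool.Agent.Helper1.MT

open Pool.Agent.Helper66.PAP (BadAt mem_PS)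

/-- Many positions. -/
theorem J_ge (hI : IkCard) : ∃ c : ℝ, 0 < c ∧ ∀ k : ℕ, 1 ≤ k → 1 ≤ (Ik k).card ∧
    c * Real.log k ≤ (Nat.log 2 (Ik k).card : ℝ) + 2 := by
  obtain ⟨cI, hcI, hI⟩ := hI
  set a := |Real.log (cI / 3)| with ha
  have ha0 : 0 ≤ a := abs_nonneg _
  refine ⟨1 / (2 + a), by (clear * -; positivity), fun k hk => ?_⟩
  have hkr : (1 : ℝ) ≤ k := by exact_mod_cast hk
  have hk0 : (0 : ℝ) < k := by (clear * - hkr; linarith)
  have hlog2 : 0 < Real.log (2 * k) := Real.log_pos (by (clear * - hkr; linarith))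
  have h1 := hI k hk
  have hN0 : (0 : ℝ) < (Ik k).card := lt_of_lt_of_le (by (clear * - hcI hk hlog2; positivity)) h1
  have hN1 : 1 ≤ (Ik k).card := by exact_mod_cast hN0
  refine ⟨hN1, ?_⟩
  have h2 := log_le_J hN1
  -- the size of `Ik k`
  have hsq : 0 < Real.sqrt k := Real.sqrt_pos.2 hk0
  have h3 : Real.log (2 * k) ≤ 3 * Real.sqrt k := by
    have h4 : Real.log (2 * k) = 2 * Real.log (Real.sqrt (2 * k)) := by
      rw [Real.log_sqrt (by positivity)]
      ring
    have h5 : Real.log (Real.sqrt (2 * k)) ≤ Real.sqrt (2 * k) - 1 :=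
      Real.log_le_sub_one_of_pos (Real.sqrt_pos.2 (by positivity))
    have h6 : Real.sqrt (2 * k) = Real.sqrt 2 * Real.sqrt k := Real.sqrt_mul (by norm_num) _
    have h7 : Real.sqrt 2 ≤ 3 / 2 := by
      rw [Real.sqrt_le_left (by norm_num)]
      norm_num
    rw [h4]
    rw [h6] at h5 ⊢
    (clear * - h5 hsq h7; nlinarith)
  have h4 : cI / 3 * Real.sqrt k ≤ (Ik k).card := by
    refine le_trans ?_ h1
    rw [le_div_iff₀ hlog2]
    calc cI / 3 * Real.sqrt k * Real.log (2 * k) ≤ cI / 3 * Real.sqrt k * (3 * Real.sqrt k) := by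
          gcongr
      _ = cI * (Real.sqrt k * Real.sqrt k) := by ring
      _ = cI * k := by rw [Real.mul_self_sqrt hk0.le]
  have h5 : Real.log (cI / 3) + 1 / 2 * Real.log k ≤ Real.log (Ik k).card := by
    have h6 := Real.log_le_log (by (clear * - hcI hk; positivity)) h4
    rw [Real.log_mul (by positivity) (by positivity), Real.log_sqrt hk0.le] at h6
    (clear * - h6; linarith)
  have h6 : -a ≤ Real.log (cI / 3) := neg_abs_le _
  set X : ℝ := (Nat.log 2 (Ik k).card : ℝ) + 2 with hX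
  have hX2 : 2 ≤ X := by
    have : (0 : ℝ) ≤ (Nat.log 2 (Ik k).card : ℝ) := Nat.cast_nonneg _
    linarith
  have h7 : 1 / 2 * Real.log k ≤ X * (1 + a / 2) := by nlinarith
  rw [one_div, inv_mul_le_iff₀ (by (clear * -; positivity))]
  (clear * - h7; linarith)

end Pool.Agent.Helper66.PV

end

section

set_option autoImplicit false

set_option linter.unusedSectionVars false

open Finset Filter

namespace Pool.Agent.Helper66.PV

open Pool.Agent.Helper1.MT

open Pool.Agent.Helper66.PAP (BadAt mem_PS)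

section Abs

variable {ι κ : Type} [Fintype ι] [Fintype κ] [DecidableEq ι] [DecidableEq κ]

theorem yv_anti {w t : ι → ℝ} {γ : κ → Finset ι → ℝ} {τ η : ℝ} (hG : GoodV w t γ τ η)
    (c c' : ι → Option κ) (hc : Le c c') : |yv t γ c'| ≤ |yv t γ c| := by
  have h1 : ∀ i, cls c i ⊆ cls c' i := by
    intro i p hp
    simp only [cls, mem_filter, mem_univ, true_and] at hp ⊢
    rcases hc p with h | h
    · rw [h] at hp
      simp at hp
    · rw [← h, hp]
  have h2 : supp c ⊆ supp c' := by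
    intro p hp
    simp only [supp, mem_filter, mem_univ, true_and] at hp ⊢
    rcases hc p with h | h
    · exact absurd h hp
    · rwa [← h]
  have h3 : T t (supp c) ≤ T t (supp c') := by
    unfold T
    exact Finset.sum_le_sum_of_subset_of_nonneg h2 fun p _ _ => hG.t_nonneg p
  unfold yv
  rw [abs_mul, abs_mul, abs_pow, abs_pow, abs_neg, abs_one, one_pow, one_pow, one_mul, one_mul]
  by_cases h4 : T t (supp c') ≤ 1
  · rw [if_pos h4, if_pos (h3.trans h4),
      abs_of_nonneg (Finset.prod_nonneg fun i _ => hG.g_nonneg _ _),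
      abs_of_nonneg (Finset.prod_nonneg fun i _ => hG.g_nonneg _ _)]
    exact Finset.prod_le_prod (fun i _ => hG.g_nonneg _ _) fun i _ => hG.g_anti _ _ _ (h1 i)
  · rw [if_neg h4, abs_zero]
    exact abs_nonneg _

end Abs

end Pool.Agent.Helper66.PV

end

section

set_option autoImplicit false

set_option linter.unusedSectionVars false

open Finset Filter

open ArithmeticFunction (cardFactors)

namespace Pool.Agent.Helper66.PU

open Pool.Agent.Helper1.MT

open Pool.Agent.Helper66.PV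

open Pool.Agent.Helper66.PAP (BadAt)

/-- The `n` with `T d n` contribute little. -/
def RareHyp (k j : ℕ) (T : ℕ → ℕ → Prop) : Prop :=
  ∀ (D0 : ℕ) (K J : Fin k → ℕ), (k + 2) ^ 10 ≤ D0 →
    ∃ C X0 : ℝ, 0 < C ∧ ∀ x : ℝ, X0 ≤ x → ∀ d W v : ℕ, 0 < d → (d : ℝ) ≤ Real.log x →
      SetN D0 (fun i : Fin k => (i : ℕ) * d) W → (∀ p : ℕ, p.Prime → p ∣ W → p < D0 ∨ p ∣ d) →
      (W : ℝ) ≤ Real.log x ^ (2 : ℝ) →
      GoodV (wp (lev x) W) (tp (lev x) W) (gv K J (lev x) W) (1 / 10) (2 / D0) →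
      9 / 40 * ((W.totient : ℝ) / W * Real.log (lev x)) ≤ V0 (wp (lev x) W) (tp (lev x) W) →
      ∀ [DecidablePred (T d)],
      ∑ n ∈ (NS x W v).filter (T d), uv (fun i : Fin k => (i : ℕ) * d) K J W x n ≤
        C * (d * Real.log (Real.log x) ^ j / Real.log x) * Sv K J W x + 1

end Pool.Agent.Helper66.PU

end

section

set_option autoImplicit false

open Finset

open ArithmeticFunction (cardFactors)

namespace Pool.Agent.Helper4.PU

open Pool.Agent.Helper1.MT

open Pool.Agent.Helper66.PV (GoodV SetN gv uv Sv)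

/-- PU-2: the energy with additional factors. -/
def EnergyOne : Prop :=
  ∀ (ι κ : Type) [Fintype ι] [Fintype κ] [DecidableEq ι] [DecidableEq κ] (w t : ι → ℝ)
    (γ : κ → Finset ι → ℝ) (τ η : ℝ), GoodV w t γ τ η →
    ∑ c : ι → Option κ, ws w (supp c) * (∏ i, γ i (cls c i)) ^ 2 * ∏ p ∈ supp c, (1 + w p) ≤
      2 * ∏ i, B1 w (γ i)

end Pool.Agent.Helper4.PU

end

section

set_option autoImplicit false

open Finset

open ArithmeticFunction (cardFactors)

namespace Pool.Agent.Helper4.PU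

open Pool.Agent.Helper1.MT (Le supp cls ws V0 B1 PS wp tp NS lev sw lam Expand PS_prime PS_large NS_gt NS_mod T)

open Pool.Agent.Helper66.PAP (mem_PS)

open Pool.Agent.Helper66.PV (GoodV SetN gv uv Sv Bv yv yv_abs_le yv_supp uv_nonneg)

section Abs

variable {ι κ : Type} [Fintype ι] [Fintype κ] [DecidableEq ι] [DecidableEq κ]

theorem Yv_le_one {w t : ι → ℝ} {γ : κ → Finset ι → ℝ} {τ η : ℝ} (hG : GoodV w t γ τ η)
    (c : ι → Option κ) : Yv γ c ≤ 1 :=
  Finset.prod_le_one (fun i _ => hG.g_nonneg _ _) fun i _ => hG.g_le _ _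

theorem Yv_anti {w t : ι → ℝ} {γ : κ → Finset ι → ℝ} {τ η : ℝ} (hG : GoodV w t γ τ η)
    (c c' : ι → Option κ) (hc : Le c c') : Yv γ c' ≤ Yv γ c := by
  have h1 : ∀ i, cls c i ⊆ cls c' i := by
    intro i p hp
    simp only [cls, mem_filter, mem_univ, true_and] at hp ⊢
    rcases hc p with h | h
    · rw [h] at hp
      simp at hp
    · rw [← h, hp]
  exact Finset.prod_le_prod (fun i _ => hG.g_nonneg _ _) fun i _ => hG.g_anti _ _ _ (h1 i)

end Abs

end Pool.Agent.Helper4.PU

end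

section

set_option autoImplicit false

open Finset

open ArithmeticFunction (cardFactors)

namespace Pool.Agent.Helper66.PU

open Pool.Agent.Helper1.MT (Le supp cls ws V0 B1 PS wp tp NS lev sw lam Expand PS_prime PS_large NS_gt NS_mod T)

open Pool.Agent.Helper4.PU (SumExact EnergyOne Exact Sm mem_Sm Yv yv_le_Yv Yv_le_one Yv_anti one_le_V0)

open Pool.Agent.Helper66.PAP (mem_PS)

open Pool.Agent.Helper66.PV (GoodV SetN gv uv Sv Bv yv yv_abs_le yv_supp uv_nonneg)

/-- The sum over the `n` with `P n`, for which `n + t` has few small prime factors. -/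
theorem one_tG (hSE : SumExact) (hEn : EnergyOne) {C4 : ℝ}
    (hSm : ∀ (R W m : ℕ) (z : ℝ), 3 ≤ R → 1 ≤ z →
      ∑ A ∈ Sm R W m z, (18 : ℝ) ^ A.card / ∏ p ∈ A, (p : ℝ) ≤
        (18 * (Real.log (Real.log R) + C4)) ^ m ∧
      ((Sm R W m z).card : ℝ) ≤ (2 * z) ^ m)
    {κ : Type} [Fintype κ] [DecidableEq κ] {K J : κ → ℕ} {D0 r m t W v : ℕ} {h : κ → ℕ}
    {x τ η Bd : ℝ} (hD : Fintype.card κ + 1 ≤ D0) (hr : 1 ≤ r) (hS : SetN D0 h W)
    (hG : GoodV (wp (lev x) W) (tp (lev x) W) (gv K J (lev x) W) τ η)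
    (x9 : 9 ≤ x) (R3 : 3 ≤ lev x)
    (e3 : 4 * Real.exp (4 * (Fintype.card κ + 1)) ^ 2 * x ^ (1 / 4 : ℝ) ≤ x ^ (53 / 162 : ℝ))
    (e4 : (W : ℝ) ≤ (lev x : ℝ) ^ (1 / (r : ℝ)))
    (e5 : (W : ℝ) * lev x ≤ x ^ (23 / 54 : ℝ)) (e6 : (3 : ℝ) ^ r ≤ lev x)
    (hBd : ∏ p ∈ univ.filter (fun p : PS (lev x) W => (lev x : ℝ) ^ (1 / (r : ℝ)) < ((p : ℕ) : ℝ) ∨
      ∃ i, ((p : ℕ) : ℤ) ∣ (h i : ℤ) - t), (1 + wp (lev x) W p) ≤ Bd)
    (hmr : m ≤ r) (P : ℕ → Prop) [DecidablePred P]
    (hP : ∀ n ∈ NS x W v, P n → ∃ A ⊆ PS (lev x) W,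
      (∀ p ∈ A, (p : ℝ) ≤ (lev x : ℝ) ^ (1 / (r : ℝ))) ∧
      Exact (lev x) W ((lev x : ℝ) ^ (1 / (r : ℝ))) A (n + t) ∧ A.card ≤ m) :
    ∑ n ∈ (NS x W v).filter P, uv h K J W x n ≤
      (18 * (Real.log (Real.log (lev x)) + C4)) ^ m *
        (2 * Bd / V0 (wp (lev x) W) (tp (lev x) W)) * Sv K J W x +
        2 ^ r * lev x / x ^ (1 / 4 : ℝ) := by
  classical
  have hx0 : (0 : ℝ) < x := by (clear * - x9; linarith)
  have hx1 : (1 : ℝ) ≤ x := by (clear * - x9; linarith)
  have hWr : (0 : ℝ) < W := by exact_mod_cast hS.W_pos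
  have hW1 : (1 : ℝ) ≤ W := by exact_mod_cast hS.W_pos
  have hRr : (3 : ℝ) ≤ lev x := by exact_mod_cast R3
  have hRx : (lev x : ℝ) ≤ x ^ (1 / 81 : ℝ) := Nat.floor_le (by positivity)
  have hr0 : (0 : ℝ) < r := by exact_mod_cast hr
  set R := lev x with hRdef
  set z : ℝ := (R : ℝ) ^ (1 / (r : ℝ)) with hz
  have hz1 : 1 ≤ z := hW1.trans e4
  have hzr : z ^ r = R := by
    rw [hz, ← Real.rpow_natCast, ← Real.rpow_mul (by (clear * - hRr; linarith)), one_div,
      inv_mul_cancel₀ hr0.ne', Real.rpow_one]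
  have hzR : z ≤ R := by
    calc z = z ^ 1 := (pow_one z).symm
      _ ≤ z ^ r := pow_le_pow_right₀ hz1 hr
      _ = R := hzr
  set L : ℝ := x ^ (1 / 4 : ℝ) with hL
  have hL0 : 0 < L := by positivity
  have hlogx : 0 ≤ Real.log x := Real.log_nonneg hx1
  set V := V0 (wp R W) (tp R W) with hV
  have hwp0 : ∀ p : PS R W, 0 ≤ wp R W p := fun p => by unfold wp; (clear * -; positivity)
  have hV1 : 1 ≤ V := one_le_V0 hwp0
  set B : ℝ := ∏ i, Bv K J W x i with hB
  have hE := hEn (PS R W) κ (wp R W) (tp R W) (gv K J R W) τ η hG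
  have hB0 : 0 ≤ B := by
    refine Finset.prod_nonneg fun i _ => ?_
    unfold Bv B1
    exact Finset.sum_nonneg fun S _ =>
      mul_nonneg (sq_nonneg _) (Finset.prod_nonneg fun p _ => hwp0 p)
  have hBd0 : 0 ≤ Bd := le_trans (Finset.prod_nonneg fun p _ => by (clear * - hwp0; linarith [hwp0 p])) hBd
  -- one set of primes
  have hone : ∀ A ∈ Sm R W m z, ∑ n ∈ (NS x W v).filter (fun n => Exact R W z A (n + t)),
      uv h K J W x n ≤ Real.log x / (2 * W) * (2 * B * Bd / V) *
        ((18 : ℝ) ^ A.card / ∏ p ∈ A, (p : ℝ)) + 1 / L := by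
    intro A hA
    obtain ⟨hA1, hA2, hA3⟩ := mem_Sm.1 hA
    have hpos : 0 < ∏ q ∈ A, (q : ℝ) := Finset.prod_pos fun q hq => by
      have := (mem_PS.1 (hA1 hq)).2.1.pos
      exact_mod_cast this
    have hprod : ∏ q ∈ A, (q : ℝ) ≤ R := by
      calc ∏ q ∈ A, (q : ℝ) ≤ ∏ _q ∈ A, z :=
            Finset.prod_le_prod (fun q _ => Nat.cast_nonneg q) hA3
        _ = z ^ A.card := by rw [Finset.prod_const]
        _ ≤ z ^ r := pow_le_pow_right₀ hz1 (hA2.trans hmr)
        _ = R := hzr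
    have hWx : ((W * ∏ q ∈ A, q : ℕ) : ℝ) ≤ x ^ (23 / 54 : ℝ) := by
      push_cast
      exact (mul_le_mul_of_nonneg_left hprod hWr.le).trans e5
    have h1 := hSE κ D0 h t R x L z hD x9 hL0 e3 R3 hRx A W v hS.W_pos hS.small hS.diff hA1 hA3
      hWx 1 (yv (tp R W) (gv K J R W)) (Yv (gv K J R W)) (2 * B) Bd (yv_le_Yv hG) (Yv_le_one hG)
      (Yv_anti hG) (by
        rw [mul_one]
        exact (pow_le_pow_right₀ (by norm_num) (hA2.trans hmr)).trans e6)
      (fun c hc => yv_supp hc) hE hBd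
    unfold uv
    refine h1.trans (le_of_eq ?_)
    push_cast
    have hV0 : V ≠ 0 := by (clear * - hV1; linarith)
    have hpos' := hpos.ne'
    have hW' := hWr.ne'
    rw [← hV]
    (clear * - hL0 hV0 hpos' hW' hlogx hB0 hBd0 hWr hpos hV1; field_simp)
  have hu0 : ∀ n, 0 ≤ uv h K J W x n := fun n => uv_nonneg h K J W x n
  -- the union
  have hcov : ∑ n ∈ (NS x W v).filter P, uv h K J W x n ≤
      ∑ A ∈ Sm R W m z, ∑ n ∈ (NS x W v).filter (fun n => Exact R W z A (n + t)),
        uv h K J W x n := by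
    have hnn : ∀ (A : Finset ℕ) (n : ℕ), 0 ≤ if Exact R W z A (n + t) then uv h K J W x n
        else 0 := by
      intro A n
      split_ifs
      · exact hu0 n
      · exact le_rfl
    have h1 : ∀ n ∈ (NS x W v).filter P, uv h K J W x n ≤
        ∑ A ∈ Sm R W m z, if Exact R W z A (n + t) then uv h K J W x n else 0 := by
      intro n hn
      rw [mem_filter] at hn
      obtain ⟨A, hA1, hA2, hA3, hA4⟩ := hP n hn.1 hn.2
      have hmem : A ∈ Sm R W m z := mem_Sm.2 ⟨hA1, hA4, hA2⟩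
      calc uv h K J W x n = if Exact R W z A (n + t) then uv h K J W x n else 0 := by
            rw [if_pos hA3]
        _ ≤ _ := Finset.single_le_sum (f := fun A : Finset ℕ =>
            if Exact R W z A (n + t) then uv h K J W x n else 0) (fun A _ => hnn A n) hmem
    refine (Finset.sum_le_sum h1).trans ?_
    refine (Finset.sum_le_sum_of_subset_of_nonneg (Finset.filter_subset _ _) ?_).trans ?_
    · intro n _ _
      exact Finset.sum_nonneg fun A _ => hnn A n
    · rw [Finset.sum_comm]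
      refine Finset.sum_le_sum fun A _ => ?_
      rw [Finset.sum_filter]
  obtain ⟨hs1, hs2⟩ := hSm R W m z R3 hz1
  have hcard : ((Sm R W m z).card : ℝ) ≤ 2 ^ r * R := by
    calc ((Sm R W m z).card : ℝ) ≤ (2 * z) ^ m := hs2
      _ ≤ (2 * z) ^ r := pow_le_pow_right₀ (by (clear * - hWr hW1 e4; linarith)) hmr
      _ = 2 ^ r * R := by rw [mul_pow, hzr]
  have hMn : 0 ≤ Real.log x / (2 * W) * (2 * B * Bd / V) := by (clear * - hlogx hWr hB0 hBd0 hV1; positivity)
  calc ∑ n ∈ (NS x W v).filter P, uv h K J W x n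
      ≤ ∑ A ∈ Sm R W m z, (Real.log x / (2 * W) * (2 * B * Bd / V) *
        ((18 : ℝ) ^ A.card / ∏ p ∈ A, (p : ℝ)) + 1 / L) :=
        hcov.trans (Finset.sum_le_sum hone)
    _ = Real.log x / (2 * W) * (2 * B * Bd / V) *
        ∑ A ∈ Sm R W m z, ((18 : ℝ) ^ A.card / ∏ p ∈ A, (p : ℝ)) +
          (Sm R W m z).card / L := by
        rw [Finset.sum_add_distrib, ← Finset.mul_sum, Finset.sum_const, nsmul_eq_mul,
          mul_one_div]
    _ ≤ Real.log x / (2 * W) * (2 * B * Bd / V) *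
        (18 * (Real.log (Real.log R) + C4)) ^ m + 2 ^ r * R / L :=
        add_le_add (mul_le_mul_of_nonneg_left hs1 hMn) (div_le_div_of_nonneg_right hcard hL0.le)
    _ = _ := by
        unfold Sv
        rw [← hB]
        ring

end Pool.Agent.Helper66.PU

end

section

set_option autoImplicit false

open Finset Filter

open ArithmeticFunction (cardFactors)

namespace Pool.Agent.Helper66.PU

open Pool.Agent.Helper1.MT (Le supp cls ws V0 B1 PS wp tp NS lev sw lam Expand PS_prime PS_large NS_gt NS_mod T SingAvg lev_tendsto lev_log)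

open Pool.Agent.Helper4.PU (SumExact EnergyOne Exact Sm mem_Sm Sg SmallSets BadProd SingCop RhoBound inter_ev one_le_V0 Sg_nonneg Sg_anti Sg_le_full density_le inter_num)

open Pool.Agent.Helper66.PAP (mem_PS)

open Pool.Agent.Helper66.PV (GoodV SetN gv uv Sv Bv yv yv_abs_le yv_supp uv_nonneg)

/-- The `n` with an intermediate integer that has few small prime factors contribute little. -/
def InterSumG : Prop :=
  ∀ (k D0 j : ℕ) (δ : ℝ) (K J : Fin k → ℕ) (c : ℝ), 1 ≤ k → (k + 2) ^ 10 ≤ D0 → 0 < δ → 0 < c →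
    ∃ C X0 : ℝ, 0 < C ∧ ∀ x : ℝ, X0 ≤ x → ∀ d W v : ℕ, 0 < d → (d : ℝ) ≤ Real.log x →
      SetN D0 (fun i : Fin k => (i : ℕ) * d) W → (W : ℝ) ≤ Real.log x ^ 2 →
      (∀ p : ℕ, p.Prime → p ∣ W → p < D0 ∨ p ∣ d) → ∀ τ η : ℝ,
      GoodV (wp (lev x) W) (tp (lev x) W) (gv K J (lev x) W) τ η →
      c * ((W.totient : ℝ) / W) * Real.log (lev x) ≤ V0 (wp (lev x) W) (tp (lev x) W) →
      ∀ [DecidablePred (InterG k d j δ)],
      ∑ n ∈ (NS x W v).filter (InterG k d j δ), uv (fun i : Fin k => (i : ℕ) * d) K J W x n ≤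
      C * d * Real.log (Real.log x) ^ j / Real.log x * Sv K J W x + 1

theorem interSumG (hSE : SumExact) (hEn : EnergyOne) (hSm : SmallSets) (hBp : BadProd)
    (hSc : SingCop) (hSa : SingAvg) (hRho : RhoBound) : InterSumG := by
  classical
  intro k D0 j δ K J c hk hD hδ hc
  set r : ℕ := max ⌈1 / δ⌉₊ (j + 1) with hrdef
  have hjr : j + 1 ≤ r := le_max_right _ _
  have hr : 1 ≤ r := by omega
  have hδr : 1 / (r : ℝ) ≤ δ := by
    have h1 : (1 : ℝ) / δ ≤ r := (Nat.le_ceil _).trans (Nat.cast_le.2 (le_max_left _ _))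
    have h2 : (0 : ℝ) < r := by exact_mod_cast hr
    rw [div_le_iff₀ hδ] at h1
    rw [div_le_iff₀ h2]
    (clear * - h1; linarith)
  obtain ⟨C4, hC4, hSm⟩ := hSm
  obtain ⟨Cb, hCb, hBp⟩ := hBp
  obtain ⟨Cs, hCs, hSc⟩ := hSc k
  obtain ⟨Ca, hCa, hSa⟩ := hSa k
  obtain ⟨X0, hX0⟩ := eventually_atTop.1 (inter_ev k r C4 hr)
  have hkr : (0 : ℝ) < k := by exact_mod_cast hk
  have hrr : (0 : ℝ) < r := by exact_mod_cast hr
  have hD2 : k + 2 ≤ D0 := (Nat.le_self_pow (by norm_num) _).trans hD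
  have hD0r : (0 : ℝ) < D0 := by exact_mod_cast (by omega : 0 < D0)
  refine ⟨164 * Cb * r / c * (Cs * D0 + 4 * Ca * k) * 36 ^ j, X0, by (clear * - hCb hδ hc hCs hD0r hCa hk; positivity), ?_⟩
  intro x hx d W v hd hdx hS hW2 hpW τ η hG hV _
  obtain ⟨x9, R3, e2, e3, e5, e6, e7, e8, e9, e10, e11, e12⟩ := hX0 x hx
  have hx0 : (0 : ℝ) < x := by (clear * - x9; linarith)
  have hx1 : (1 : ℝ) ≤ x := by (clear * - x9; linarith)
  have hRr : (3 : ℝ) ≤ lev x := by exact_mod_cast R3
  have hlogR : 0 < Real.log (lev x) := Real.log_pos (by (clear * - hRr; linarith))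
  have hlx : 0 < Real.log x := Real.log_pos (by (clear * - x9; linarith))
  have hdr : (0 : ℝ) < d := by exact_mod_cast hd
  have hWr : (0 : ℝ) < W := by exact_mod_cast hS.W_pos
  have hphi : (0 : ℝ) < W.totient := by exact_mod_cast Nat.totient_pos.2 hS.W_pos
  set h : Fin k → ℕ := fun i => (i : ℕ) * d with hh
  have hu0 : ∀ n, 0 ≤ uv h K J W x n := fun n => uv_nonneg h K J W x n
  set LL := Real.log (Real.log x) with hLL
  have hwp0 : ∀ p : PS (lev x) W, 0 ≤ wp (lev x) W p := fun p => by unfold wp; (clear * -; positivity)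
  have hS0 : 0 ≤ Sv K J W x := by
    unfold Sv
    apply mul_nonneg (by (clear * - hlx hWr; positivity))
    refine Finset.prod_nonneg fun i _ => ?_
    unfold Bv B1
    exact Finset.sum_nonneg fun S _ =>
      mul_nonneg (sq_nonneg _) (Finset.prod_nonneg fun p _ => hwp0 p)
  set V := V0 (wp (lev x) W) (tp (lev x) W) with hVdef
  set ρ : ℝ := (W.totient : ℝ) / W with hρ
  have hρ0 : 0 < ρ := by (clear * - hphi hWr; positivity)
  have hV1 : 1 ≤ V := one_le_V0 hwp0
  rcases Nat.lt_or_ge k 2 with hk2 | hk2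
  · -- no intermediate integers
    have hfe : (NS x W v).filter (InterG k d j δ) = ∅ := by
      rw [Finset.filter_eq_empty_iff]
      rintro n - ⟨t, ht, -⟩
      have h1 : k - 1 = 0 := by omega
      rw [h1, zero_mul] at ht
      omega
    rw [hfe, Finset.sum_empty]
    have h2 : 0 ≤ 164 * Cb * r / c * (Cs * D0 + 4 * Ca * k) * 36 ^ j * d * LL ^ j /
        Real.log x * Sv K J W x := by (clear * - hCb hδ hc hCs hD0r hCa hk hd e11 hlx hS0; positivity)
    (clear * - h2; linarith)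
  -- the intermediate integers
  set Tt := (range ((k - 1) * d)).filter (fun t => ¬ d ∣ t) with hTt
  have hdW : ∀ p : ℕ, p.Prime → p ∣ d → p ∣ W := by
    intro p hp hpd
    refine hS.diff ⟨1, by omega⟩ ⟨0, by omega⟩ (by simp) p hp ?_
    have h1 : ((h ⟨1, by omega⟩ : ℕ) : ℤ) - (h ⟨0, by omega⟩ : ℕ) = (d : ℤ) := by
      simp [hh]
    rw [h1]
    exact_mod_cast hpd
  have hne : ∀ t ∈ Tt, ∀ i, h i ≠ t := by
    intro t ht i hi
    rw [hTt, mem_filter] at ht
    exact ht.2 (hi ▸ Dvd.intro_left _ rfl)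
  set err : ℝ := 2 ^ r * lev x / x ^ (1 / 4 : ℝ) with herr
  have herr0 : 0 ≤ err := by (clear * - R3 x9; positivity)
  set G1 : ℝ := (36 * LL) ^ j with hG1
  set G2 : ℝ := if j = 0 then 0 else (36 * LL) ^ (j - 1) with hG2
  have hG10 : 0 ≤ G1 := by (clear * - e11; positivity)
  have hG20 : 0 ≤ G2 := by
    rw [hG2]
    split_ifs
    · exact le_rfl
    · (clear * - e11; positivity)
  have e4 : (W : ℝ) ≤ (lev x : ℝ) ^ (1 / (r : ℝ)) := hW2.trans e5
  have e6' : (W : ℝ) * lev x ≤ x ^ (23 / 54 : ℝ) :=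
    (mul_le_mul_of_nonneg_right hW2 (by (clear * - hRr; linarith))).trans e6
  have hpow : ∀ m : ℕ, (18 * (Real.log (Real.log (lev x)) + C4)) ^ m ≤ (36 * LL) ^ m := by
    intro m
    apply pow_le_pow_left₀ (by (clear * - e12; linarith))
    (clear * - e9; linarith)
  have hcard : Fintype.card (Fin k) = k := Fintype.card_fin k
  -- the bad residues
  set Bt : ℕ → Prop := fun t => ∃ q : ℕ, q.Prime ∧ k < q ∧ q ∣ W ∧ q ∣ v + t with hBt
  have hzy : ∀ n ∈ NS x W v, ∀ t : ℕ,
      (lev x : ℝ) ^ (1 / (r : ℝ)) ≤ ((n + t : ℕ) : ℝ) ^ δ := by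
    intro n hn t
    have hn2 : x ^ (1 / 2 : ℝ) ≤ ((n + t : ℕ) : ℝ) := by
      unfold NS at hn
      rw [mem_filter, mem_Ioc] at hn
      have h1 := Nat.lt_of_floor_lt hn.1.1
      have h2 : (n : ℝ) ≤ ((n + t : ℕ) : ℝ) := by exact_mod_cast Nat.le_add_right n t
      (clear * - h1 h2; linarith)
    have hRx : (lev x : ℝ) ≤ x ^ (1 / 81 : ℝ) := Nat.floor_le (by positivity)
    calc (lev x : ℝ) ^ (1 / (r : ℝ)) ≤ (x ^ (1 / 81 : ℝ)) ^ (1 / (r : ℝ)) :=
          Real.rpow_le_rpow (by (clear * - hRr; linarith)) hRx (by positivity)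
      _ = x ^ (1 / 81 * (1 / (r : ℝ))) := by rw [← Real.rpow_mul hx0.le]
      _ ≤ x ^ (1 / 2 * δ) := by
          apply Real.rpow_le_rpow_of_exponent_le hx1
          (clear * - hδ hδr; linarith)
      _ = (x ^ (1 / 2 : ℝ)) ^ δ := by rw [← Real.rpow_mul hx0.le]
      _ ≤ _ := Real.rpow_le_rpow (by positivity) hn2 hδ.le
  have hone : ∀ t ∈ Tt, ∑ n ∈ (NS x W v).filter
      (fun n => smallF k (((n + t : ℕ) : ℝ) ^ δ) (n + t) ≤ j),
      uv h K J W x n ≤ 2 * Cb * r * Sv K J W x / V *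
        ((if ¬ Bt t then G1 else G2) * Sg h W t) + err := by
    intro t ht
    have hBd := hBp (Fin k) h t (lev x) W r R3 hr (hne t ht) e8
    have hSg0 := Sg_nonneg h W t
    have hset : ∀ n ∈ NS x W v, smallF k (((n + t : ℕ) : ℝ) ^ δ) (n + t) ≤ j →
        ∃ A ⊆ PS (lev x) W, (∀ p ∈ A, (p : ℝ) ≤ (lev x : ℝ) ^ (1 / (r : ℝ))) ∧
          Exact (lev x) W ((lev x : ℝ) ^ (1 / (r : ℝ))) A (n + t) ∧ A.card ≤ j ∧
          (Bt t → A.card + 1 ≤ j) := by
      intro n hn hnj
      have hgt := NS_gt hn hx1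
      exact small_set (k := k) (D0 := D0) (by omega) hS.W_pos (by omega) (NS_mod hn) hS.small e4
        (hzy n hn t) hnj
    have hgen : ∀ m : ℕ, m ≤ r → (∀ a : ℕ, a ≤ j → (Bt t → a + 1 ≤ j) → a ≤ m) →
        ∑ n ∈ (NS x W v).filter (fun n => smallF k (((n + t : ℕ) : ℝ) ^ δ) (n + t) ≤ j),
          uv h K J W x n ≤
        2 * Cb * r * Sv K J W x / V * ((36 * LL) ^ m * Sg h W t) + err := by
      intro m hmr hm
      have h1 := one_tG hSE hEn hSm (K := K) (J := J) (h := h) (v := v) (t := t)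
        (by rw [hcard]; omega) hr hS hG x9 R3 (by rw [hcard]; exact e3) e4 e6' e7 hBd hmr
        (fun n => smallF k (((n + t : ℕ) : ℝ) ^ δ) (n + t) ≤ j) (by
          intro n hn hnj
          obtain ⟨A, hA1, hA2, hA3, hA4, hA5⟩ := hset n hn hnj
          exact ⟨A, hA1, hA2, hA3, hm _ hA4 hA5⟩)
      refine h1.trans ?_
      gcongr ?_ + err
      calc (18 * (Real.log (Real.log (lev x)) + C4)) ^ m *
            (2 * (Cb * r * Sg h W t) / V) * Sv K J W x
          ≤ (36 * LL) ^ m * (2 * (Cb * r * Sg h W t) / V) * Sv K J W x := by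
            apply mul_le_mul_of_nonneg_right _ hS0
            exact mul_le_mul_of_nonneg_right (hpow m) (by (clear * - hCb hδ hSg0 hV1; positivity))
        _ = _ := by ring
    by_cases hco : ¬ Bt t
    · rw [if_pos hco]
      exact hgen j (by omega) (fun a ha _ => ha)
    · rw [if_neg hco]
      push Not at hco
      by_cases hr1 : j = 0
      · have h2 : (NS x W v).filter
            (fun n => smallF k (((n + t : ℕ) : ℝ) ^ δ) (n + t) ≤ j) = ∅ := by
          rw [Finset.filter_eq_empty_iff]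
          intro n hn hnj
          obtain ⟨A, -, -, -, -, hA5⟩ := hset n hn hnj
          have := hA5 hco
          omega
        rw [h2, Finset.sum_empty]
        (clear * - hCb hδ hS0 hV1 e11 hSg0 R3 x9; positivity)
      · rw [hG2, if_neg hr1]
        exact hgen (j - 1) (by omega) (fun a _ h2 => by
          have := h2 hco
          omega)
  -- the union over t
  have hcov : ∑ n ∈ (NS x W v).filter (InterG k d j δ), uv h K J W x n ≤
      ∑ t ∈ Tt, ∑ n ∈ (NS x W v).filter
        (fun n => smallF k (((n + t : ℕ) : ℝ) ^ δ) (n + t) ≤ j),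
        uv h K J W x n := by
    have hnn : ∀ (t n : ℕ), 0 ≤ if smallF k (((n + t : ℕ) : ℝ) ^ δ) (n + t) ≤ j
        then uv h K J W x n else 0 := by
      intro t n
      split_ifs
      · exact hu0 n
      · exact le_rfl
    have h1 : ∀ n ∈ (NS x W v).filter (InterG k d j δ), uv h K J W x n ≤
        ∑ t ∈ Tt, if smallF k (((n + t : ℕ) : ℝ) ^ δ) (n + t) ≤ j then uv h K J W x n
          else 0 := by
      intro n hn
      rw [mem_filter] at hn
      obtain ⟨t, ht1, ht2, ht3⟩ := hn.2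
      calc uv h K J W x n = if smallF k (((n + t : ℕ) : ℝ) ^ δ) (n + t) ≤ j
            then uv h K J W x n else 0 := by
            rw [if_pos ht3]
        _ ≤ _ := Finset.single_le_sum (f := fun t : ℕ =>
            if smallF k (((n + t : ℕ) : ℝ) ^ δ) (n + t) ≤ j then uv h K J W x n else 0)
            (fun t _ => hnn t n) (mem_filter.2 ⟨mem_range.2 ht1, ht2⟩)
    refine (Finset.sum_le_sum h1).trans ?_
    refine (Finset.sum_le_sum_of_subset_of_nonneg (Finset.filter_subset _ _) ?_).trans ?_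
    · intro n _ _
      exact Finset.sum_nonneg fun t _ => hnn t n
    · rw [Finset.sum_comm]
      refine Finset.sum_le_sum fun t _ => ?_
      rw [Finset.sum_filter]
  -- the two averages
  set s1 := ∑ t ∈ Tt.filter (fun t => ¬ Bt t), Sg h W t with hs1
  set s2 := ∑ t ∈ Tt.filter (fun t => ¬ ¬ Bt t), Sg h W t with hs2
  have hs1le : s1 ≤ Cs * d * (D0 * ρ) := by
    have h1 := hSc d D0 v hd
    have h2 : s1 ≤ ∑ t ∈ (range ((k - 1) * d)).filter
        (fun t => ¬ d ∣ t ∧ ∀ p : ℕ, p.Prime → D0 ≤ p → p ∣ d → ¬ p ∣ v + t),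
        Sg (fun i : Fin k => (i : ℕ) * d) d t := by
      calc s1 ≤ ∑ t ∈ Tt.filter (fun t => ¬ Bt t), Sg h d t :=
            Finset.sum_le_sum fun t _ => Sg_anti h hdW
        _ ≤ _ := by
            apply Finset.sum_le_sum_of_subset_of_nonneg
            · intro t ht
              rw [mem_filter, hTt, mem_filter] at ht
              rw [mem_filter]
              exact ⟨ht.1.1, ht.1.2, fun p hp hpD hpd hpv =>
                ht.2 ⟨p, hp, by omega, hdW p hp hpd, hpv⟩⟩
            · intro t _ _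
              exact Sg_nonneg h d t
    refine h2.trans (h1.trans ?_)
    apply mul_le_mul_of_nonneg_left _ (by (clear * - hCs hd; positivity))
    exact density_le (by omega) hS.W_pos hd hpW
  have hs2le : s2 ≤ Ca * k * d := by
    have hY : 1 ≤ (k - 1) * d := Nat.mul_pos (by omega) hd
    have h1 := hSa ((k - 1) * d) h hY (fun i => Nat.mul_le_mul_right d (by omega))
    calc s2 ≤ ∑ j ∈ (range ((k - 1) * d + 1)).filter (fun j => ∀ i, h i ≠ j),
          ∏ p ∈ (∏ i, ((h i : ℤ) - j).natAbs).primeFactors, (1 + 1 / (p : ℝ)) := by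
          refine (Finset.sum_le_sum fun t _ => Sg_le_full h W t).trans ?_
          apply Finset.sum_le_sum_of_subset_of_nonneg
          · intro t ht
            rw [mem_filter] at ht
            have h2 := hne t ht.1
            rw [hTt, mem_filter, mem_range] at ht
            rw [mem_filter, mem_range]
            exact ⟨by omega, h2⟩
          · intro t _ _
            exact Finset.prod_nonneg fun p _ => by (clear * -; positivity)
      _ ≤ Ca * ((k - 1) * d : ℕ) := h1
      _ ≤ Ca * (k * d) := by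
          apply mul_le_mul_of_nonneg_left _ hCa.le
          have h3 : (k - 1) * d ≤ k * d := Nat.mul_le_mul_right d (by omega)
          exact_mod_cast h3
      _ = Ca * k * d := by ring
  have hsplit : ∑ t ∈ Tt, (if ¬ Bt t then G1 else G2) * Sg h W t =
      G1 * s1 + G2 * s2 := by
    rw [← Finset.sum_filter_add_sum_filter_not Tt (fun t => ¬ Bt t), hs1, hs2,
      Finset.mul_sum, Finset.mul_sum]
    congr 1
    · refine Finset.sum_congr rfl fun t ht => ?_
      rw [if_pos (mem_filter.1 ht).2]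
    · refine Finset.sum_congr rfl fun t ht => ?_
      rw [if_neg (mem_filter.1 ht).2]
  have hTcard : (Tt.card : ℝ) ≤ k * Real.log x := by
    have h1 : Tt.card ≤ (k - 1) * d := by
      rw [hTt]
      exact (Finset.card_filter_le _ _).trans (by rw [card_range])
    have h2 : (k - 1) * d ≤ k * d := Nat.mul_le_mul_right d (by omega)
    have h3 : (Tt.card : ℝ) ≤ k * d := by exact_mod_cast h1.trans h2
    exact h3.trans (mul_le_mul_of_nonneg_left hdx hkr.le)
  have hρ1 : 1 / ρ ≤ 4 * LL := by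
    have h1 := hRho W hS.W_pos
    have h2 : 1 / ρ = (W : ℝ) / W.totient := by
      rw [hρ, one_div_div]
    have h3 : Real.log W ≤ 2 * LL := by
      have h4 := Real.log_le_log hWr hW2
      rw [Real.log_pow] at h4
      push_cast at h4
      exact h4
    have h5 : (1 : ℝ) / 2 < Real.log 2 := by
      have := Real.log_two_gt_d9
      (clear * - this; linarith)
    have h6 : Real.log W / Real.log 2 ≤ 3 * LL := by
      rw [div_le_iff₀ (by (clear * - h5; linarith))]
      have h7 := Real.log_two_gt_d9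
      (clear * - e11 h3 e12 h7 e9; nlinarith)
    rw [h2]
    (clear * - e11 h1 h6; linarith)
  have hVge : c * ρ * (Real.log x / 82) ≤ V := by
    refine le_trans ?_ hV
    apply mul_le_mul_of_nonneg_left _ (by (clear * - hc hphi hWr; positivity))
    rw [div_le_iff₀ (by norm_num)]
    (clear * - e2; linarith)
  have hq2 : G2 * (4 * LL) ≤ 4 * (36 ^ j * LL ^ j) := by
    rw [hG2]
    split_ifs with hr1
    · rw [zero_mul]
      (clear * - e11; positivity)
    · obtain ⟨m, hm⟩ : ∃ m, j = m + 1 := ⟨j - 1, by omega⟩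
      have h1 : j - 1 = m := by omega
      rw [h1, hm]
      calc (36 * LL) ^ m * (4 * LL) = 4 * (36 ^ m * LL ^ (m + 1)) := by
            rw [mul_pow, pow_succ]
            ring
        _ ≤ 4 * (36 ^ (m + 1) * LL ^ (m + 1)) := by
            gcongr
            · norm_num
            · omega
  have hfin := inter_num (S := Sv K J W x) (d := (d : ℝ)) hCb hrr hc hCs hD0r hCa hkr hS0 hVge hρ0
    hlx hdr hG10 hG20 (le_of_eq (by rw [hG1, mul_pow])) hq2 hρ1 hs1le hs2le (by (clear * - e11; positivity))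
  calc ∑ n ∈ (NS x W v).filter (InterG k d j δ), uv h K J W x n
      ≤ ∑ t ∈ Tt, (2 * Cb * r * Sv K J W x / V *
          ((if ¬ Bt t then G1 else G2) * Sg h W t) + err) :=
        hcov.trans (Finset.sum_le_sum hone)
    _ = 2 * Cb * r * Sv K J W x / V * (G1 * s1 + G2 * s2) + Tt.card * err := by
        rw [Finset.sum_add_distrib, ← Finset.mul_sum, hsplit, Finset.sum_const, nsmul_eq_mul]
    _ ≤ 164 * Cb * r / c * (Cs * D0 + 4 * Ca * k) * (36 ^ j * LL ^ j) * d /
          Real.log x * Sv K J W x + 1 := by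
        apply add_le_add hfin
        calc (Tt.card : ℝ) * err ≤ k * Real.log x * err :=
              mul_le_mul_of_nonneg_right hTcard herr0
          _ ≤ 1 := e10
    _ = _ := by ring

end Pool.Agent.Helper66.PU

end

section

set_option autoImplicit false

open Finset Filter

open ArithmeticFunction (cardFactors)

namespace Pool.Agent.Helper66.PU

open Pool.Agent.Helper1.MT

open Pool.Agent.Helper66.PV

open Pool.Agent.Helper66.PAP (cardFactors_le)

/-- The rare set of the `n` with an intermediate integer that has few small prime factors. -/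
theorem rareHyp_of (h : InterSumG) {k : ℕ} (hk : 1 ≤ k) (j : ℕ) {δ : ℝ} (hδ : 0 < δ) :
    RareHyp k j (fun d n => InterG k d j δ n) := by
  intro D0 K J hD
  obtain ⟨C, X0, hC, hX0⟩ := h k D0 j δ K J (9 / 40) hk hD hδ (by norm_num)
  refine ⟨C, X0, hC, fun x hx d W v hd hdx hS hpW hW2 hG hV _ => ?_⟩
  have h1 := hX0 x hx d W v hd hdx hS (by rwa [Real.rpow_two] at hW2) hpW (1 / 10) (2 / D0) hG
    (by rw [mul_assoc]; exact hV)
  have h2 : C * (d * Real.log (Real.log x) ^ j / Real.log x) * Sv K J W x + 1 =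
      C * d * Real.log (Real.log x) ^ j / Real.log x * Sv K J W x + 1 := by ring
  rw [h2]
  exact h1

end Pool.Agent.Helper66.PU

end

section

set_option autoImplicit false

open Finset

namespace Pool.Agent.Helper4.PU

open Pool.Agent.Helper1.MT

open Pool.Agent.Helper66.PV (GoodV)

/-- `TupleSum` (proved in Helper87/MT/Tuple.lean) with
`G i S = γ i S ^ 2 * (ws w S * ∏ p ∈ S, (1 + w p))`, then `Pool.Agent.Helper12.MT.sum_energy` for
each colour; the product of the factors `∏ p, (1 + w p ^ 2)` is at most `exp (K η) ≤ 2` by `GoodV.sq`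
and `GoodV.eta` (`K = 0` separately). See the end of `starMajorant` in Helper12/MT/Star.lean. -/
theorem energyOne : EnergyOne := by
  intro ι κ _ _ _ _ w t γ τ η hG
  have hG0 : ∀ (i : κ) (S : Finset ι), 0 ≤ γ i S ^ 2 * (ws w S * ∏ p ∈ S, (1 + w p)) :=
    fun i S => mul_nonneg (sq_nonneg _) (mul_nonneg
      (Pool.Agent.Helper90.MT.ws_nonneg hG.w_nonneg _)
      (Finset.prod_nonneg fun p _ => by linarith [hG.w_nonneg p]))
  have h1 : ∑ c : ι → Option κ, ws w (supp c) * (∏ i, γ i (cls c i)) ^ 2 *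
      ∏ p ∈ supp c, (1 + w p) =
      ∑ c : ι → Option κ, ∏ i, (γ i (cls c i) ^ 2 *
        (ws w (cls c i) * ∏ p ∈ cls c i, (1 + w p))) := by
    refine Finset.sum_congr rfl fun c _ => ?_
    rw [Pool.Agent.Helper90.MT.ws_supp, Pool.Agent.Helper90.MT.prod_supp (fun p => 1 + w p),
      Finset.prod_mul_distrib, Finset.prod_mul_distrib, Finset.prod_pow]
    ring
  rw [h1]
  have h5 := Pool.Agent.Helper87.MT.tupleSum ι κ
    (fun i S => γ i S ^ 2 * (ws w S * ∏ p ∈ S, (1 + w p))) hG0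
  refine h5.trans ?_
  have h6 : ∀ i : κ, ∑ S : Finset ι, γ i S ^ 2 * (ws w S * ∏ p ∈ S, (1 + w p)) ≤
      (∏ p, (1 + w p ^ 2)) * B1 w (γ i) := fun i =>
    Pool.Agent.Helper12.MT.sum_energy hG.w_nonneg (hG.g_nonneg i) (hG.g_anti i)
  have h8 : ∀ i : κ, 0 ≤ B1 w (γ i) := fun i =>
    Finset.sum_nonneg fun S _ => mul_nonneg (sq_nonneg _)
      (Pool.Agent.Helper90.MT.ws_nonneg hG.w_nonneg _)
  refine (Finset.prod_le_prod (fun i _ => Finset.sum_nonneg fun S _ => hG0 i S)
    fun i _ => h6 i).trans ?_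
  rw [Finset.prod_mul_distrib, Finset.prod_const, Finset.card_univ]
  refine mul_le_mul_of_nonneg_right ?_ (Finset.prod_nonneg fun i _ => h8 i)
  have h9 : ∏ p, (1 + w p ^ 2) ≤ Real.exp η :=
    (Pool.Agent.Helper90.MT.prod_one_add_le (fun p => w p ^ 2) (fun p => sq_nonneg _)).trans
      (Real.exp_le_exp.2 hG.sq)
  have h10 : 0 ≤ ∏ p, (1 + w p ^ 2) := Finset.prod_nonneg fun p _ => by positivity
  refine (pow_le_pow_left₀ h10 h9 _).trans ?_
  rw [← Real.exp_nat_mul]
  have hη0 : 0 ≤ η := le_trans (Finset.sum_nonneg fun p _ => sq_nonneg _) hG.sq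
  have h11 : (Fintype.card κ : ℝ) * η ≤ 1 / 1000 := by
    rcases Nat.eq_zero_or_pos (Fintype.card κ) with hK | hK
    · rw [hK]
      norm_num
    · have hK1 : (1 : ℝ) ≤ Fintype.card κ := by exact_mod_cast hK
      have h12 := hG.eta
      (clear * - h12 hK1 hη0; nlinarith [mul_nonneg (sub_nonneg.2 hK1) (mul_nonneg (le_trans zero_le_one hK1) hη0)])
  have h13 := Pool.Agent.Helper90.MT.exp_le_two
    (mul_nonneg (Nat.cast_nonneg (Fintype.card κ)) hη0) (by linarith)
  linarith

end Pool.Agent.Helper4.PU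

end

section

set_option autoImplicit false

open Finset Filter

namespace Pool.Agent.Helper13.PV

open Pool.Agent.Helper66.PV

theorem ikCard : Pool.Agent.Helper66.PV.IkCard := by
  obtain ⟨K, hK⟩ := eventually_atTop.1 large
  have hl2 : 0 < Real.log 2 := Real.log_pos (by norm_num)
  refine ⟨min (1 / 2) (Real.log 2 / (K + 1)), by (clear * -; positivity), fun k hk => ?_⟩
  have hk' : (1 : ℝ) ≤ k := by exact_mod_cast hk
  have hlog : Real.log 2 ≤ Real.log (2 * k) := Real.log_le_log (by norm_num) (by (clear * - hk'; linarith))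
  have hlog0 : 0 < Real.log (2 * k) := by (clear * - hl2 hlog; linarith)
  rw [card_Ik, div_le_iff₀ hlog0]
  by_cases h : K ≤ k
  · calc min (1 / 2) (Real.log 2 / (K + 1)) * (k : ℝ) ≤ 1 / 2 * k :=
          mul_le_mul_of_nonneg_right (min_le_left _ _) (by (clear * - hk'; linarith))
      _ ≤ _ := hK k h
  · push Not at h
    have h1 : (k : ℝ) ≤ K + 1 := by
      have : (k : ℝ) ≤ K := by exact_mod_cast h.le
      (clear * - this; linarith)
    have h2 : (1 : ℝ) ≤ (dp k).card := by exact_mod_cast dp_pos hk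
    calc min (1 / 2) (Real.log 2 / (K + 1)) * (k : ℝ) ≤ Real.log 2 / (K + 1) * (K + 1) := by
          apply mul_le_mul (min_le_right _ _) h1 (by (clear * - hk'; linarith)) (by positivity)
      _ = Real.log 2 := by field_simp
      _ ≤ 1 * Real.log (2 * k) := by (clear * - hlog; linarith)
      _ ≤ (dp k).card * Real.log (2 * k) := mul_le_mul_of_nonneg_right h2 hlog0.le

end Pool.Agent.Helper13.PV

end
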