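import Pool.Agent.Helper23.MT.L01_acd3
import Pool.Agent.Helper23.MT.L01_acd4
import Pool.Agent.Helper23.MT.L01_c0
import Pool.Agent.Helper23.MT.L01_c1
import Pool.Agent.Helper23.MT.L01_c2

/-!
Parts of Helper66.PU.Defs, Helper66.PV.BoundsX0, Helper66.PU.Bounds, Helper95.PV.LowerMain, Helper4.PU.BadProd
-/

namespace Pool.Agent.Helper1.MT
end Pool.Agent.Helper1.MT
namespace Pool.Agent.Helper66.PV
end Pool.Agent.Helper66.PV
namespace Pool.Agent.Helper90.MT
end Pool.Agent.Helper90.MT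

section

set_option autoImplicit false

open Finset

namespace Pool.Agent.Helper66.PU

open Pool.Agent.Helper1.MT

open Pool.Agent.Helper66.PV

/-- PU-P: the sieve sum over the `n` such that `n + h m` is prime, uniformly. -/
def SumPrimeNU : Prop :=
  ∃ c0 : ℝ, 0 < c0 ∧ ∀ (κ : Type) [Fintype κ] [DecidableEq κ] (D0 : ℕ) (A : ℝ),
    (Fintype.card κ + 2) ^ 10 ≤ D0 → 0 < A → ∃ X0 : ℝ, 3 ≤ X0 ∧ ∀ x : ℝ, X0 ≤ x →
    ∀ (h : κ → ℕ) (W v : ℕ), SetN D0 h W → (W : ℝ) ≤ Real.log x ^ A →
    (∀ i, (h i : ℝ) ≤ Real.log x ^ A) → ∀ m : κ, Nat.Coprime (v + h m) W →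
    ∀ y : (PS (lev x) W → Option κ) → ℝ, (∀ c, |y c| ≤ 1) →
      (∀ c, y c ≠ 0 → T (tp (lev x) W) (supp c) ≤ 1) →
      (c0 / (W.totient : ℝ)) *
        Qf (fun p => prm m (wp' (lev x) W p)) (lam (wp (lev x) W) y) - 1 ≤
      ∑ n ∈ (NS x W v).filter (fun n => (n + h m).Prime),
        (1 / (n : ℝ)) * sw h (lam (wp (lev x) W) y) n

end Pool.Agent.Helper66.PU

end

section

set_option autoImplicit false

set_option linter.unusedSectionVars false

open Finset Filter

open scoped ArithmeticFunction.vonMangoldt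

namespace Pool.Agent.Helper66.PV

open Pool.Agent.Helper1.MT

open Pool.Agent.Helper66.PAP (PS_not_dvd)

section Abs

variable {ι κ : Type} [Fintype ι] [Fintype κ] [DecidableEq ι] [DecidableEq κ]

theorem energyV_le (hT : TupleSum) {w t : ι → ℝ} {γ : κ → Finset ι → ℝ} {τ η : ℝ}
    (hG : GoodV w t γ τ η) :
    ∑ c : ι → Option κ, ws w (supp c) * yv t γ c ^ 2 ≤ ∏ i, B1 w (γ i) := by
  have h1 := hT ι κ (fun i S => γ i S ^ 2 * ws w S)
    (fun i S => mul_nonneg (sq_nonneg _) (ws_nonneg hG.w_nonneg S))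
  refine le_trans (Finset.sum_le_sum fun c _ => ?_) h1
  rw [Finset.prod_mul_distrib, ← ws_supp, mul_comm]
  apply mul_le_mul_of_nonneg_right _ (ws_nonneg hG.w_nonneg _)
  unfold yv
  rw [mul_pow, ← pow_mul, mul_comm (supp c).card 2, pow_mul, neg_one_sq, one_pow, one_mul]
  split_ifs
  · rw [Finset.prod_pow]
  · rw [zero_pow two_ne_zero]
    exact Finset.prod_nonneg fun i _ => sq_nonneg _

end Abs

end Pool.Agent.Helper66.PV

end

section

set_option autoImplicit false

set_option linter.unusedSectionVars false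

open Finset Filter

open scoped ArithmeticFunction.vonMangoldt

namespace Pool.Agent.Helper66.PU

open Pool.Agent.Helper1.MT

open Pool.Agent.Helper66.PV

open Pool.Agent.Helper66.PAP (PS_not_dvd)

theorem sieveAtU (hT : TupleSum) (hG1 : GramUpper) (hG2 : GramLower) (hL : LowerMainV)
    (hE : Expand) (hN2 : SumPrimeNU) (hA : OneDimW) :
    ∃ c1 : ℝ, 0 < c1 ∧ ∀ (κ : Type) [Fintype κ] [DecidableEq κ] (K J : κ → ℕ) (D0 : ℕ) (A : ℝ),
      0 < A → 0 < Fintype.card κ → (Fintype.card κ + 2) ^ 10 ≤ D0 →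
      (∀ i, 2 ≤ K i) → (∀ i, 10 * 2 ^ J i ≤ 8 * K i * (J i + 2)) → (∀ i, (K i + 2) ^ 10 ≤ D0) →
      ∑ i, 1 / (9 * ((K i : ℝ) - 1)) ≤ 1 / 10 →
      ∃ X0 : ℝ, ∀ x : ℝ, X0 ≤ x → ∀ (I : Finset κ) (h : κ → ℕ) (W v : ℕ), SetN D0 h W →
        (W : ℝ) ≤ Real.log x ^ A → (∀ i, (h i : ℝ) ≤ Real.log x ^ A) →
        (∀ m ∈ I, Nat.Coprime (v + h m) W) →
        SieveAtV c1 K J I D0 h W v x ∧
          9 / 40 * ((W.totient : ℝ) / W * Real.log (lev x)) ≤
            V0 (wp (lev x) W) (tp (lev x) W) := by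
  classical
  obtain ⟨c0, hc0, hN2⟩ := hN2
  refine ⟨c0 / 25000, by (clear * - hc0; positivity), ?_⟩
  intro κ _ _ K J D0 A hA0 hcard hcD hK2 hJ hD hρ
  have hOne := fun i => hA (K i) (J i) D0 A (by have := hK2 i; omega) (hJ i) (hD i) hA0
  choose X3 hX33 hX3 using hOne
  obtain ⟨X2, hX23, hX2⟩ := hN2 κ D0 A hcD hA0
  have hKr : ∀ i, (2 : ℝ) ≤ K i := fun i => by exact_mod_cast hK2 i
  have hKp : ∀ i, 0 < Kp (K i) (J i) := fun i => by
    have := hKr i
    unfold Kp
    (clear * - this; positivity)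
  -- large x
  have hev : ∀ᶠ x : ℝ in atTop, (∀ i, X3 i ≤ x) ∧ X2 ≤ x ∧ 3 ≤ lev x ∧
      Real.log x ≤ 82 * Real.log (lev x) ∧ 9 ≤ x ∧
      4 * Real.exp (4 * Fintype.card κ) ^ 2 * 1 ≤ x ^ (53 / 162 : ℝ) ∧
      Real.log x ^ A ≤ x ^ (23 / 54 : ℝ) := by
    refine ((eventually_all).2 fun i => eventually_ge_atTop (X3 i)).and
      ((eventually_ge_atTop X2).and ((lev_tendsto.eventually_ge_atTop 3).and
      (lev_log.and ((eventually_ge_atTop 9).and (Eventually.and ?_
        (log_rpow_le (by norm_num)))))))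
    exact (tendsto_rpow_atTop (by norm_num : (0 : ℝ) < 53 / 162)).eventually_ge_atTop _
  obtain ⟨X0, hX0⟩ := eventually_atTop.1 hev
  refine ⟨X0, fun x hx I h W v hS hWA hhA hcop => ?_⟩
  obtain ⟨hx3, hx2, hR3, hxl, hx9, hxK, hxW⟩ := hX0 x hx
  have hWr : (0 : ℝ) < W := by exact_mod_cast hS.W_pos
  have hphi : (0 : ℝ) < W.totient := by exact_mod_cast Nat.totient_pos.2 hS.W_pos
  obtain ⟨i0⟩ : Nonempty κ := Fintype.card_pos_iff.1 hcard
  have hOne' := fun i => hX3 i x (hx3 i) W hS.W_pos hS.small hWA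
  choose c hcW hcρ hOne using hOne'
  have hρ0' : 0 < (W.totient : ℝ) / (4 * W) := by (clear * - hphi hWr; positivity)
  have hc : ∀ i, 0 < c i := fun i => lt_of_lt_of_le hρ0' (hcW i)
  set R := lev x with hRdef
  set n := Fintype.card κ with hn
  have hnr : (0 : ℝ) < n := by exact_mod_cast hcard
  have hn1 : (1 : ℝ) ≤ n := by exact_mod_cast hcard
  set w := wp R W with hw
  set w' := wp' R W with hw'
  set t := tp R W with ht
  set γ : κ → Finset (PS R W) → ℝ := gv K J R W with hγ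
  have hlogR : 0 < Real.log R := Real.log_pos (by exact_mod_cast (by omega : 1 < R))
  have hlogx : 0 < Real.log x := Real.log_pos (by (clear * - hx9; linarith))
  have hRr : (1 : ℝ) ≤ R := by exact_mod_cast (by omega : 1 ≤ R)
  -- the size of the primes
  have hpD : ∀ p : PS R W, ((n : ℝ) + 2) ^ 10 ≤ ((p : ℕ) : ℝ) := by
    intro p
    have h1 := PS_large hS.small p
    exact_mod_cast hcD.trans h1
  have hpow : ((n : ℝ) + 2) ≤ ((n : ℝ) + 2) ^ 10 :=
    le_self_pow₀ (by (clear * - hnr; linarith)) (by norm_num)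
  have hpn : ∀ p : PS R W, (n : ℝ) + 2 ≤ ((p : ℕ) : ℝ) := fun p => hpow.trans (hpD p)
  have hD0r : ((n : ℝ) + 2) ^ 10 ≤ D0 := by exact_mod_cast hcD
  have hGood : GoodV w t γ (1 / 10) (2 / D0) := by
    refine ⟨fun p => (hOne i0).1.w_nonneg p, ?_, fun p => (hOne i0).1.t_nonneg p,
      fun i S => (hOne i).1.g_nonneg S, fun i S => (hOne i).1.g_le S,
      fun i S S' hS => (hOne i).1.g_anti S S' hS,
      fun i S hne => ((hOne i).1.g_supp S hne).trans (hOne i).1.tau_le, (hOne i0).1.sq, ?_,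
      by norm_num, le_rfl⟩
    · intro p
      have h1 := hpD p
      have h2 : 4 * ((n : ℝ) + 1) ≤ ((n : ℝ) + 2) ^ 10 := by
        calc 4 * ((n : ℝ) + 1) ≤ ((n : ℝ) + 2) ^ 2 := by (clear * -; nlinarith)
          _ ≤ ((n : ℝ) + 2) ^ 10 := pow_le_pow_right₀ (by (clear * - hnr; linarith)) (by norm_num)
      have h0 : (0 : ℝ) < ((p : ℕ) : ℝ) := by exact_mod_cast (PS_prime p).pos
      simp only [hw, wp]
      rw [mul_one_div, div_le_one h0]
      exact h2.trans h1
    · have h2 : 2000 * (n : ℝ) ^ 2 ≤ ((n : ℝ) + 2) ^ 10 := by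
        have h3 : (2000 : ℝ) ≤ ((n : ℝ) + 2) ^ 8 := by
          calc (2000 : ℝ) ≤ 3 ^ 8 := by norm_num
            _ ≤ ((n : ℝ) + 2) ^ 8 := pow_le_pow_left₀ (by norm_num) (by (clear * - hn1; linarith)) 8
        have h4 : (n : ℝ) ^ 2 ≤ ((n : ℝ) + 2) ^ 2 :=
          pow_le_pow_left₀ hnr.le (by (clear * -; linarith)) 2
        calc 2000 * (n : ℝ) ^ 2 ≤ ((n : ℝ) + 2) ^ 8 * ((n : ℝ) + 2) ^ 2 := by (clear * - h3 h4 hcard; gcongr)
          _ = ((n : ℝ) + 2) ^ 10 := by ring
      have h0 : (0 : ℝ) < D0 := lt_of_lt_of_le (by (clear * - hcard; positivity)) hD0r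
      rw [← hn, mul_div_assoc', div_le_one h0]
      have h3 : 1000 * (n : ℝ) ^ 2 * 2 = 2000 * (n : ℝ) ^ 2 := by ring
      rw [h3]
      exact h2.trans hD0r
  have hw'0 : ∀ p, 0 ≤ w' p := by
    intro p
    have := hpn p
    simp only [hw', wp']
    exact div_nonneg zero_le_one (by (clear * - hnr this; linarith))
  have hw'K : ∀ p, (n : ℝ) * w' p ≤ 1 := by
    intro p
    have := hpn p
    simp only [hw', wp']
    rw [mul_one_div, div_le_one (by (clear * - hnr this; linarith))]
    (clear * - this; linarith)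
  have hww' : ∀ p, w p ≤ w' p := by
    intro p
    have := hpn p
    simp only [hw, hw', wp, wp']
    exact one_div_le_one_div_of_le (by (clear * - hnr this; linarith)) (by (clear * -; linarith))
  have hww2 : ∀ p, w' p - w p ≤ 2 * w p ^ 2 := by
    intro p
    have := hpn p
    simp only [hw, hw', wp, wp']
    have h1 : (0 : ℝ) < ((p : ℕ) : ℝ) := by (clear * - hnr this; linarith)
    have h2 : (0 : ℝ) < ((p : ℕ) : ℝ) - 1 := by (clear * - hnr this; linarith)
    have h3 : (2 : ℝ) ≤ ((p : ℕ) : ℝ) := by (clear * - hnr this; linarith)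
    rw [div_sub_div _ _ h2.ne' h1.ne', div_pow, one_pow, mul_one_div,
      div_le_div_iff₀ (by (clear * - h2 h1; positivity)) (by (clear * - h1; positivity))]
    (clear * - hnr hn1 this; nlinarith)
  set B : κ → ℝ := fun i => B1 w (γ i) with hB
  have hBdef : ∀ i, Bv K J W x i = B i := fun i => rfl
  have hBl : ∀ i, 9 / 10 / Kp (K i) (J i) * (c i * Real.log R) ≤ B i := fun i =>
    (hOne i).2.2.2.2.1
  have hB1 : ∀ i, 1 ≤ B i := fun i => (hOne i).2.2.2.2.2.2.2.trans (hBl i)
  have hB0 : ∀ i, 0 < B i := fun i => by (clear * - hB1; linarith [hB1 i])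
  have hM : ∀ i, M1 w t (γ i) ≤ 1 / (9 * ((K i : ℝ) - 1)) * (1 - 1 / 10) * B1 w (γ i) := by
    intro i
    have h1 := (hOne i).2.1
    have h2 : (0 : ℝ) < (K i : ℝ) - 1 := by (clear * - hKr; linarith [hKr i])
    have h3 : 1 / 10 * (1 - 2 ^ J i / Kp (K i) (J i)) * B i ≤ 1 / 10 * B i := by
      have h4 : 0 ≤ (2 : ℝ) ^ J i / Kp (K i) (J i) := div_nonneg (by positivity) (hKp i).le
      have := hB0 i
      (clear * - h4 this; nlinarith)
    have h5 : ((K i : ℝ) - 1) * M1 w t (γ i) ≤ 1 / 10 * B i := h1.trans h3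
    have h6 : 1 / (9 * ((K i : ℝ) - 1)) * (1 - 1 / 10) * B1 w (γ i) =
        1 / 10 * B i / ((K i : ℝ) - 1) := by
      field_simp
      ring
    rw [h6, le_div_iff₀ h2, mul_comm]
    exact h5
  have hρ0 : ∀ i, 0 ≤ 1 / (9 * ((K i : ℝ) - 1)) := fun i =>
    div_nonneg zero_le_one (by (clear * - hKr; linarith [hKr i]))
  -- S
  set Lx := Real.log x / (2 * W) with hLx
  have hLx0 : 0 < Lx := by (clear * - hlogx hWr; positivity)
  have hSx : Sv K J W x = Lx * ∏ i, B i := rfl
  have hRx : (R : ℝ) ≤ x ^ (1 / 81 : ℝ) := Nat.floor_le (Real.rpow_nonneg (by (clear * - hx9; linarith)) _)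
  have hρc : ∀ i, (W.totient : ℝ) / W ≤ 4 * c i := by
    intro i
    have h2 : (W.totient : ℝ) / W = 4 * ((W.totient : ℝ) / (4 * W)) := by (clear * - hWr hphi; field_simp)
    rw [h2]
    (clear * - hcW; linarith [hcW i])
  refine ⟨⟨hR3, hRx, hx9, hxl, hGood, ?_, hB1, ?_, ?_⟩, ?_⟩
  · intro i
    refine le_trans ?_ (hBl i)
    have h1 := hcW i
    have h2 : (W.totient : ℝ) / W = 4 * ((W.totient : ℝ) / (4 * W)) := by (clear * - hWr hphi; field_simp)
    rw [h2]
    have h3 : 0 < 9 / 10 / Kp (K i) (J i) := div_pos (by norm_num) (hKp i)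
    calc 9 / 40 / Kp (K i) (J i) * (4 * ((W.totient : ℝ) / (4 * W)) * Real.log R)
        = 9 / 10 / Kp (K i) (J i) * ((W.totient : ℝ) / (4 * W) * Real.log R) := by ring
      _ ≤ 9 / 10 / Kp (K i) (J i) * (c i * Real.log R) := by (clear * - h1 hlogR h3; gcongr)
  · -- total
    have h1 := Pool.Agent.Helper18.MT.sumGen_core (R := R) hE (h := h) (v := v) hS.W_pos hx9
      one_pos (hWA.trans hxW) hxK (by (clear * - κ D0 hR3; omega)) hRx (fun _ => univ) (by
        intro p j _ j' _ hjj hdvd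
        exact PS_not_dvd p (hS.diff j j' hjj p (PS_prime p) hdvd))
      (yv t γ) (fun c => (yv_abs_le hGood c).trans hRr)
      (fun c hc => (yv_supp hc).trans (by norm_num)) (fun _ _ _ j _ => mem_univ j)
    rw [div_one] at h1
    have h2 := hG1 (PS R W) κ w (yv t γ) hGood.w_nonneg (fun p => by
      have := hGood.w_le p
      have h0 := hGood.w_nonneg p
      rw [← hn] at this ⊢
      (clear * - this h0; nlinarith))
    have h3 := h2.trans (energyV_le hT hGood)
    have h4 := (abs_le.1 h1).2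
    have h5 : Lx * Qf (fun p => pr κ (w p)) (lam w (yv t γ)) ≤ Sv K J W x := by
      rw [hSx]
      exact mul_le_mul_of_nonneg_left h3 hLx0.le
    have h6 : ∑ n ∈ NS x W v, uv h K J W x n =
        ∑ n ∈ NS x W v, 1 / (n : ℝ) * sw h (lam w (yv t γ)) n := rfl
    rw [h6]
    (clear * - h4 h5; linarith)
  · -- primes
    intro m hm
    obtain ⟨-, hM1, hAl, hAu, hBl', hBu, hV, hone1⟩ := hOne m
    set A := A1 w (γ m) with hAdef
    set L := c m * Real.log R with hLdef
    have hL0 : 0 < L := mul_pos (hc m) hlogR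
    have h1 := hX2 x hx2 h W v hS hWA hhA m (hcop m hm) (yv t γ) (fun c => yv_abs_le hGood c)
      (fun c hc => yv_supp hc)
    have h2 := hG2 (PS R W) κ w w' m (yv t γ) hw'0 hw'K
    have h3 := hL (PS R W) κ w w' t γ _ _ _ hGood hww' hww2 hρ0 hM hρ m
    have h4 := h3.trans h2
    refine le_trans ?_ h1
    have hBe0 : 0 ≤ ∏ i ∈ univ.erase m, B i := Finset.prod_nonneg fun i _ => (hB0 i).le
    have hKm : (0 : ℝ) < K m := by (clear * - hKr; linarith [hKr m])
    have h5 : c0 / 25000 * ((J m + 2) / (K m : ℝ)) * Sv K J W x ≤ c0 / (W.totient : ℝ) *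
        (1 / 2 * (A ^ 2 * ∏ i ∈ univ.erase m, B i)) := by
      have hBK : ∏ i, B i = (∏ i ∈ univ.erase m, B i) * B m := by
        rw [mul_comm, Finset.mul_prod_erase univ B (mem_univ m)]
      have hJ0 : (0 : ℝ) ≤ J m := by (clear * -; positivity)
      have key : 1 / 25000 * ((J m + 2) / (K m : ℝ)) * (Real.log x * W.totient / W * B m) ≤
          A ^ 2 := by
        have e1 : Real.log x * W.totient / W * B m ≤ 82 * Real.log R * (4 * c m) *
            (16 / 10 / Kp (K m) (J m) * L) := by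
          have e2 : (W.totient : ℝ) / W ≤ 4 * c m := by
            have : (W.totient : ℝ) / W = 4 * ((W.totient : ℝ) / (4 * W)) := by
              (clear * - hWr hphi; field_simp)
            rw [this]
            (clear * - hcW; linarith [hcW m])
          have e3 : 0 ≤ 4 * c m := by (clear * - hc; linarith [hc m])
          have e4 : B m ≤ 16 / 10 / Kp (K m) (J m) * L := hBu
          have e5 := (hB0 m).le
          calc Real.log x * W.totient / W * B m =
              Real.log x * ((W.totient : ℝ) / W) * B m := by ring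
            _ ≤ _ := by (clear * - hxl e2 hphi hWr hlogR e4 e5 e3; gcongr)
        have e3 : A ^ 2 ≥ (9 / 10 * (J m + 2 : ℝ) / (2 * Kp (K m) (J m)) * L) ^ 2 := by
          have := hKp m
          apply pow_le_pow_left₀ (by (clear * - this hL0; positivity)) hAl
        have e4 : 1 / 25000 * ((J m + 2) / (K m : ℝ)) * (82 * Real.log R * (4 * c m) *
            (16 / 10 / Kp (K m) (J m) * L)) ≤
            (9 / 10 * (J m + 2 : ℝ) / (2 * Kp (K m) (J m)) * L) ^ 2 := by
          have hKpm := hKp m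
          have e5 : (9 / 10 * (J m + 2 : ℝ) / (2 * Kp (K m) (J m)) * L) ^ 2 =
              (81 / 3200 : ℝ) * ((J m + 2) / K m) * (L ^ 2 / Kp (K m) (J m)) := by
            unfold Kp
            field_simp
            ring
          have e6 : 1 / 25000 * ((J m + 2) / (K m : ℝ)) * (82 * Real.log R * (4 * c m) *
            (16 / 10 / Kp (K m) (J m) * L)) =
            (5248 / 250000 : ℝ) * ((J m + 2) / K m) * (L ^ 2 / Kp (K m) (J m)) := by
            rw [hLdef]
            ring
          rw [e5, e6]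
          have : 0 ≤ ((J m + 2) / (K m : ℝ)) * (L ^ 2 / Kp (K m) (J m)) := by (clear * - hKm hL0 hKpm; positivity)
          (clear * - e5; nlinarith)
        calc _ ≤ 1 / 25000 * ((J m + 2) / (K m : ℝ)) * (82 * Real.log R * (4 * c m) *
            (16 / 10 / Kp (K m) (J m) * L)) := by (clear * - e1 hKm; gcongr)
          _ ≤ _ := e4.trans e3
      rw [hSx, hLx, hBK]
      have e7 : c0 / 25000 * ((J m + 2) / (K m : ℝ)) *
          (Real.log x / (2 * W) * ((∏ i ∈ univ.erase m, B i) * B m)) =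
          c0 / (W.totient : ℝ) * (1 / 2 * ((1 / 25000 * ((J m + 2) / (K m : ℝ)) *
            (Real.log x * W.totient / W * B m)) * ∏ i ∈ univ.erase m, B i)) := by
        (clear * - hphi hWr hlogx hKm hc0; field_simp)
      rw [e7]
      exact mul_le_mul_of_nonneg_left (mul_le_mul_of_nonneg_left
        (mul_le_mul_of_nonneg_right key hBe0) (by norm_num)) (by (clear * - hc0 hphi; positivity))
    have h6 : c0 / (W.totient : ℝ) * (1 / 2 * (A ^ 2 * ∏ i ∈ univ.erase m, B i)) ≤
        c0 / (W.totient : ℝ) * Qf (fun p => prm m (w' p)) (lam w (yv t γ)) :=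
      mul_le_mul_of_nonneg_left h4 (by (clear * - hc0 hphi; positivity))
    (clear * - h5 h6; linarith)
  · -- V0
    refine le_trans ?_ (hOne i0).2.2.2.2.2.2.1
    have h1 := mul_le_mul_of_nonneg_right (hρc i0) hlogR.le
    (clear * - h1; linarith)

end Pool.Agent.Helper66.PU

end

section

set_option autoImplicit false

open Finset

namespace Pool.Agent.Helper95.PV

open Pool.Agent.Helper1.MT hiding ws_nonneg ws_supp

open Pool.Agent.Helper90.MT Pool.Agent.Helper66.PV

variable {ι κ : Type} [Fintype ι] [Fintype κ] [DecidableEq ι] [DecidableEq κ]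

theorem signed_ym (m : κ) (w w' t : ι → ℝ) (γ : κ → Finset ι → ℝ) (c : ι → Option κ) :
    (-1) ^ (supp c).card * ym m w w' (yv t γ) c =
      ∑ c' : ι → Option κ, (∏ p, k2 m (w p) (w' p) (c p) (c' p)) * Yt t γ c' := by
  unfold ym yv
  rw [Finset.mul_sum]
  refine Finset.sum_congr rfl fun c' _ => ?_
  have h1 : ∏ p, k2 m (w p) (w' p) (c p) (c' p) =
      (∏ p, sg (c p)) * (∏ p, ker m (w p) (w' p) (c p) (c' p)) * ∏ p, sg (c' p) := by
    rw [← Finset.prod_mul_distrib, ← Finset.prod_mul_distrib]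
    refine Finset.prod_congr rfl fun p _ => ?_
    rcases c p with _ | i
    · rcases c' p with _ | j
      · simp [k2, ker, sg]
      · by_cases h : j = m
        · simp [k2, ker, sg, h]
        · simp [k2, ker, sg, h]
    · rcases c' p with _ | j
      · simp [k2, ker, sg]
      · by_cases h : i = j
        · simp [k2, ker, sg, h]
        · simp [k2, ker, sg, h]
  rw [h1, ← sg_prod, ← sg_prod]
  unfold Yt
  ring

section Main

variable {w w' t : ι → ℝ} {γ : κ → Finset ι → ℝ} {τ η : ℝ}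

theorem Yt_ext (hG : GoodV w t γ τ η) {m : κ} {c : ι → Option κ}
    (hc : cls c m = ∅) (hT : T t (supp c) ≤ 1 - τ) {S : Finset ι} (hS : Disjoint S (supp c)) :
    Yt t γ (Pool.Agent.Helper90.MT.ext m c S) = γ m S * Pm m γ c := by
  have h1 : ∏ i : κ, γ i (cls (Pool.Agent.Helper90.MT.ext m c S) i) = γ m S * Pm m γ c := by
    rw [← Finset.mul_prod_erase univ _ (Finset.mem_univ m), cls_ext_self hc]
    congr 1
    unfold Pm
    refine Finset.prod_congr rfl fun i hi => ?_
    rw [cls_ext_ne (Finset.ne_of_mem_erase hi) hS]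
  unfold Yt
  rw [h1]
  split_ifs with h
  · rfl
  · rcases eq_or_ne (γ m S) 0 with h0 | h0
    · rw [h0, zero_mul]
    · exfalso
      have h2 := hG.g_supp m S h0
      apply h
      rw [supp_ext]
      unfold T at *
      rw [Finset.sum_union hS.symm]
      linarith

theorem A_ge (hG : GoodV w t γ τ η) {m : κ} {c : ι → Option κ}
    (hc : cls c m = ∅) (hT : T t (supp c) ≤ 1 - τ) :
    Pm m γ c * (A1 w (γ m) * (1 - ∑ p ∈ supp c, w p)) ≤
      ∑ c' : ι → Option κ, (∏ p, kA m (w p) (c p) (c' p)) * Yt t γ c' := by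
  have hD : ∀ S, S ∈ univ.filter (fun S : Finset ι => Disjoint S (supp c)) ↔
      Disjoint S (supp c) := fun S => by simp
  have hinj : Set.InjOn (fun S : Finset ι => Pool.Agent.Helper90.MT.ext m c S)
      (univ.filter (fun S : Finset ι => Disjoint S (supp c)) : Finset (Finset ι)) := by
    intro S _ S' _ h
    have h1 : Pool.Agent.Helper90.MT.ext m c S = Pool.Agent.Helper90.MT.ext m c S' := h
    rw [← cls_ext_self hc S, h1, cls_ext_self hc S']
  have h1 : ∑ S ∈ univ.filter (fun S : Finset ι => Disjoint S (supp c)),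
      γ m S * ws w S * Pm m γ c ≤
      ∑ c' : ι → Option κ, (∏ p, kA m (w p) (c p) (c' p)) * Yt t γ c' := by
    have h2 : ∑ S ∈ univ.filter (fun S : Finset ι => Disjoint S (supp c)),
        γ m S * ws w S * Pm m γ c =
        ∑ c' ∈ (univ.filter (fun S : Finset ι => Disjoint S (supp c))).image
          (fun S : Finset ι => Pool.Agent.Helper90.MT.ext m c S),
          (∏ p, kA m (w p) (c p) (c' p)) * Yt t γ c' := by
      rw [Finset.sum_image hinj]
      refine Finset.sum_congr rfl fun S hS => ?_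
      rw [prod_kA_ext w ((hD S).1 hS), Yt_ext hG hc hT ((hD S).1 hS)]
      ring
    rw [h2]
    refine Finset.sum_le_sum_of_subset_of_nonneg (Finset.subset_univ _) fun c' _ _ => ?_
    exact mul_nonneg (Finset.prod_nonneg fun p _ => kA_nonneg m (hG.w_nonneg p) _ _)
      (Yt_nonneg hG.g_nonneg _)
  refine le_trans ?_ h1
  rw [← Finset.sum_mul, mul_comm]
  refine mul_le_mul_of_nonneg_right ?_ (Pm_nonneg m hG.g_nonneg c)
  -- the sum over the sets disjoint from the support
  have h3 : ∀ S : Finset ι, γ m S * ws w S ≤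
      (if Disjoint S (supp c) then γ m S * ws w S else 0) +
        ∑ p ∈ supp c, (if p ∈ S then γ m S * ws w S else 0) := by
    intro S
    have h0 : 0 ≤ γ m S * ws w S := mul_nonneg (hG.g_nonneg m S) (ws_nonneg hG.w_nonneg S)
    have h4 : ∀ p ∈ supp c, 0 ≤ (if p ∈ S then γ m S * ws w S else 0) := by
      intro p _
      split_ifs
      · exact h0
      · exact le_rfl
    split_ifs with hS
    · have := Finset.sum_nonneg h4
      (clear * - this; linarith)
    · rw [Finset.not_disjoint_iff] at hS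
      obtain ⟨p, hp, hp'⟩ := hS
      have := Finset.single_le_sum h4 hp'
      rw [if_pos hp] at this
      (clear * - this; linarith)
  have h5 := Finset.sum_le_sum fun S (_ : S ∈ (univ : Finset (Finset ι))) => h3 S
  rw [Finset.sum_add_distrib, ← Finset.sum_filter, Finset.sum_comm] at h5
  have h6 : ∑ p ∈ supp c, ∑ S : Finset ι, (if p ∈ S then γ m S * ws w S else 0) ≤
      ∑ p ∈ supp c, w p * A1 w (γ m) := Finset.sum_le_sum fun p _ =>
        memSum hG.w_nonneg (hG.g_nonneg m) (hG.g_anti m) p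
  rw [← Finset.sum_mul] at h6
  have h7 : A1 w (γ m) = ∑ S : Finset ι, γ m S * ws w S := rfl
  rw [← h7] at h5
  linarith

/-- The lower bound for `ym`. -/
theorem ym_ge (hG : GoodV w t γ τ η) (hw1 : ∀ p, w p ≤ w' p)
    (hw2 : ∀ p, w' p - w p ≤ 2 * w p ^ 2) {m : κ} {c : ι → Option κ} (hc : cls c m = ∅)
    (hT : T t (supp c) ≤ 1 - τ) :
    Pm m γ c * A1 w (γ m) * (1 - 2 * ∑ p ∈ supp c, w p - 4 * Fintype.card κ * η) ≤
      (-1) ^ (supp c).card * ym m w w' (yv t γ) c := by
  rw [signed_ym]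
  have h1 : ∑ c' : ι → Option κ, (2 * (∏ p, kA m (w p) (c p) (c' p)) * Yt t γ c' -
      (∏ p, |k2 m (w p) (w' p) (c p) (c' p)|) * Yt t γ c') ≤
      ∑ c' : ι → Option κ, (∏ p, k2 m (w p) (w' p) (c p) (c' p)) * Yt t γ c' := by
    refine Finset.sum_le_sum fun c' _ => ?_
    have h2 := mul_le_mul_of_nonneg_right (prod_k2_ge m w' hG.w_nonneg c c')
      (Yt_nonneg (t := t) hG.g_nonneg c')
    linarith
  refine le_trans ?_ h1
  rw [Finset.sum_sub_distrib]
  have h3 : ∑ c' : ι → Option κ, 2 * (∏ p, kA m (w p) (c p) (c' p)) * Yt t γ c' =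
      2 * ∑ c' : ι → Option κ, (∏ p, kA m (w p) (c p) (c' p)) * Yt t γ c' := by
    rw [Finset.mul_sum]
    exact Finset.sum_congr rfl fun c' _ => by ring
  rw [h3]
  have h4 := A_ge hG hc hT
  have h5 := B_le (γ := γ) hG hw1 hw2 hc
  (clear * - h4 h5; nlinarith)

theorem BB_nonneg (hw : ∀ p, 0 ≤ w p) (m : κ) : 0 ≤ ∏ l ∈ univ.erase m, B1 w (γ l) :=
  Finset.prod_nonneg fun l _ => B1_nonneg (γ := γ l) hw

theorem Gc_mem (hG : GoodV w t γ τ η) (m i : κ) (p : ι) :
    ∑ S : Finset ι, (if p ∈ S then Gc m w γ i S else 0) ≤ w p * ∑ S : Finset ι, Gc m w γ i S := by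
  by_cases h : i = m
  · have h1 : ∀ S : Finset ι, (if p ∈ S then Gc m w γ i S else 0) = 0 := by
      intro S
      split_ifs with hp
      · unfold Gc
        rw [if_pos h, if_neg]
        intro h2
        rw [h2] at hp
        simp at hp
      · rfl
    simp only [h1, Finset.sum_const_zero]
    exact mul_nonneg (hG.w_nonneg p) (Finset.sum_nonneg fun S _ => Gc_nonneg hG.w_nonneg m i S)
  · unfold Gc
    simp only [if_neg h]
    exact memSum hG.w_nonneg (G := fun S => γ i S ^ 2) (fun S => sq_nonneg _)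
      (fun S S' hS => by
        have h1 := hG.g_anti i S S' hS
        have h2 := hG.g_nonneg i S'
        exact pow_le_pow_left₀ h2 h1 2) p

theorem pair_le (hG : GoodV w t γ τ η) (m i j : κ) (hij : i ≠ j) (p : ι) :
    ∑ f : κ → Finset ι, (if p ∈ f i ∧ p ∈ f j then ∏ l, Gc m w γ l (f l) else 0) ≤
      w p ^ 2 * (∏ l ∈ univ.erase m, B1 w (γ l)) := by
  have h1 : ∀ f : κ → Finset ι, (if p ∈ f i ∧ p ∈ f j then ∏ l, Gc m w γ l (f l) else 0) =
      ∏ l, (if l = i ∨ l = j then (if p ∈ f l then Gc m w γ l (f l) else 0)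
        else Gc m w γ l (f l)) := by
    intro f
    split_ifs with h
    · refine Finset.prod_congr rfl fun l _ => ?_
      split_ifs with h2 h3
      · rfl
      · exfalso
        rcases h2 with h2 | h2
        · exact h3 (h2 ▸ h.1)
        · exact h3 (h2 ▸ h.2)
      · rfl
    · symm
      rw [not_and_or] at h
      rcases h with h | h
      · exact Finset.prod_eq_zero (Finset.mem_univ i) (by simp [h])
      · exact Finset.prod_eq_zero (Finset.mem_univ j) (by simp [h])
  simp only [h1]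
  have h2 := tuple_scale (G := fun l => Gc m w γ l)
    (G' := fun l S => if l = i ∨ l = j then (if p ∈ S then Gc m w γ l S else 0)
      else Gc m w γ l S) (r := fun l => if l = i ∨ l = j then w p else 1)
    (fun l S => by
      have := Gc_nonneg (γ := γ) hG.w_nonneg m l S
      split_ifs
      · exact this
      · exact le_rfl
      · exact this)
    (fun l => by
      by_cases h : l = i ∨ l = j
      · simp only [if_pos h]
        exact Gc_mem hG m l p
      · simp only [if_neg h, one_mul]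
        exact le_rfl)
  refine h2.trans (le_of_eq ?_)
  rw [Gc_prod_sum]
  congr 1
  rw [← Finset.prod_filter]
  have h3 : univ.filter (fun l => l = i ∨ l = j) = {i, j} := by
    ext l
    simp
  rw [h3, Finset.prod_pair hij, sq]

/-- The sum of `∏ G i (cls c i)` over the colourings. -/
theorem Phi_ge (hG : GoodV w t γ τ η) (m : κ) :
    (1 - (Fintype.card κ : ℝ) ^ 2 * η) * (∏ l ∈ univ.erase m, B1 w (γ l)) ≤
      ∑ c : ι → Option κ, ∏ i, Gc m w γ i (cls c i) := by
  classical
  have hP : ∀ f : κ → Finset ι, 0 ≤ ∏ l, Gc m w γ l (f l) := fun f =>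
    Finset.prod_nonneg fun l _ => Gc_nonneg hG.w_nonneg m l _
  have h1 := le_tuple (F := fun f : κ → Finset ι => ∏ l, Gc m w γ l (f l)) hP
  refine le_trans ?_ h1
  have h2 : ∀ f : κ → Finset ι, ∏ l, Gc m w γ l (f l) ≤
      (if ∀ i j, i ≠ j → Disjoint (f i) (f j) then ∏ l, Gc m w γ l (f l) else 0) +
        ∑ i : κ, ∑ j : κ, ∑ p : ι, (if i ≠ j then
          (if p ∈ f i ∧ p ∈ f j then ∏ l, Gc m w γ l (f l) else 0) else 0) := by
    intro f
    have h0 := hP f
    have h3 : ∀ i j p, 0 ≤ (if i ≠ j then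
          (if p ∈ f i ∧ p ∈ f j then ∏ l, Gc m w γ l (f l) else 0) else 0) := by
      intro i j p
      split_ifs
      · exact h0
      · exact le_rfl
      · exact le_rfl
    split_ifs with h
    · have : 0 ≤ ∑ i : κ, ∑ j : κ, ∑ p : ι, (if i ≠ j then
          (if p ∈ f i ∧ p ∈ f j then ∏ l, Gc m w γ l (f l) else 0) else 0) :=
        Finset.sum_nonneg fun i _ => Finset.sum_nonneg fun j _ => Finset.sum_nonneg fun p _ =>
          h3 i j p
      linarith
    · push Not at h
      obtain ⟨i, j, hij, hd⟩ := h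
      rw [Finset.not_disjoint_iff] at hd
      obtain ⟨p, hp, hp'⟩ := hd
      rw [zero_add]
      calc ∏ l, Gc m w γ l (f l) = (if i ≠ j then
            (if p ∈ f i ∧ p ∈ f j then ∏ l, Gc m w γ l (f l) else 0) else 0) := by
            rw [if_pos hij, if_pos ⟨hp, hp'⟩]
        _ ≤ ∑ p : ι, (if i ≠ j then
            (if p ∈ f i ∧ p ∈ f j then ∏ l, Gc m w γ l (f l) else 0) else 0) :=
            Finset.single_le_sum (f := fun p => if i ≠ j then
              (if p ∈ f i ∧ p ∈ f j then ∏ l, Gc m w γ l (f l) else 0) else 0)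
              (fun p _ => h3 i j p) (Finset.mem_univ p)
        _ ≤ ∑ j : κ, ∑ p : ι, (if i ≠ j then
            (if p ∈ f i ∧ p ∈ f j then ∏ l, Gc m w γ l (f l) else 0) else 0) :=
            Finset.single_le_sum (f := fun j => ∑ p : ι, if i ≠ j then
              (if p ∈ f i ∧ p ∈ f j then ∏ l, Gc m w γ l (f l) else 0) else 0)
              (fun j _ => Finset.sum_nonneg fun p _ => h3 i j p) (Finset.mem_univ j)
        _ ≤ ∑ i : κ, ∑ j : κ, ∑ p : ι, (if i ≠ j then
            (if p ∈ f i ∧ p ∈ f j then ∏ l, Gc m w γ l (f l) else 0) else 0) :=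
            Finset.single_le_sum (f := fun i => ∑ j : κ, ∑ p : ι, if i ≠ j then
              (if p ∈ f i ∧ p ∈ f j then ∏ l, Gc m w γ l (f l) else 0) else 0)
              (fun i _ => Finset.sum_nonneg fun j _ => Finset.sum_nonneg fun p _ => h3 i j p)
              (Finset.mem_univ i)
  have h4 := Finset.sum_le_sum fun f (_ : f ∈ (univ : Finset (κ → Finset ι))) => h2 f
  rw [Finset.sum_add_distrib, ← Finset.sum_filter, ← prod_tuple, Gc_prod_sum] at h4
  have h5 : ∑ f : κ → Finset ι, ∑ i : κ, ∑ j : κ, ∑ p : ι, (if i ≠ j then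
      (if p ∈ f i ∧ p ∈ f j then ∏ l, Gc m w γ l (f l) else 0) else 0) ≤
      (Fintype.card κ : ℝ) ^ 2 * η * (∏ l ∈ univ.erase m, B1 w (γ l)) := by
    have hB := BB_nonneg (γ := γ) hG.w_nonneg m
    rw [Finset.sum_comm]
    have h6 : ∀ i : κ, ∑ f : κ → Finset ι, ∑ j : κ, ∑ p : ι, (if i ≠ j then
        (if p ∈ f i ∧ p ∈ f j then ∏ l, Gc m w γ l (f l) else 0) else 0) ≤
        (Fintype.card κ : ℝ) * (η * (∏ l ∈ univ.erase m, B1 w (γ l))) := by
      intro i
      rw [Finset.sum_comm]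
      have h7 : ∀ j : κ, ∑ f : κ → Finset ι, ∑ p : ι, (if i ≠ j then
          (if p ∈ f i ∧ p ∈ f j then ∏ l, Gc m w γ l (f l) else 0) else 0) ≤
          η * (∏ l ∈ univ.erase m, B1 w (γ l)) := by
        intro j
        have hη : 0 ≤ η := le_trans (Finset.sum_nonneg fun p _ => sq_nonneg _) hG.sq
        by_cases hij : i ≠ j
        · simp only [if_pos hij]
          rw [Finset.sum_comm]
          calc ∑ p : ι, ∑ f : κ → Finset ι,
                (if p ∈ f i ∧ p ∈ f j then ∏ l, Gc m w γ l (f l) else 0)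
              ≤ ∑ p : ι, w p ^ 2 * (∏ l ∈ univ.erase m, B1 w (γ l)) :=
                Finset.sum_le_sum fun p _ => pair_le hG m i j hij p
            _ = (∑ p : ι, w p ^ 2) * (∏ l ∈ univ.erase m, B1 w (γ l)) := by rw [Finset.sum_mul]
            _ ≤ _ := mul_le_mul_of_nonneg_right hG.sq hB
        · simp only [if_neg hij, Finset.sum_const_zero]
          exact mul_nonneg hη hB
      refine (Finset.sum_le_sum fun j _ => h7 j).trans ?_
      rw [Finset.sum_const, Finset.card_univ, nsmul_eq_mul]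
    refine (Finset.sum_le_sum fun i _ => h6 i).trans ?_
    rw [Finset.sum_const, Finset.card_univ, nsmul_eq_mul]
    exact le_of_eq (by ring)
  (clear * - h4 h5; linarith)

/-- The sum of `∏ G i (cls c i)` times a function of one class. -/
theorem Phi_u (hG : GoodV w t γ τ η)
    {ρ : κ → ℝ} (hM : ∀ i, M1 w t (γ i) ≤ ρ i * (1 - τ) * B1 w (γ i)) (m i : κ) {α : ℝ}
    (hα : 0 ≤ α) :
    ∑ c : ι → Option κ, (∏ l, Gc m w γ l (cls c l)) *
        (α * ∑ p ∈ cls c i, w p + T t (cls c i) / (1 - τ)) ≤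
      (if i = m then 0 else α * η + ρ i) *
        (∏ l ∈ univ.erase m, B1 w (γ l)) := by
  have hτ : 0 < 1 - τ := by have := hG.tau_le; (clear * - this; linarith)
  have hu : ∀ S : Finset ι, 0 ≤ α * ∑ p ∈ S, w p + T t S / (1 - τ) := by
    intro S
    refine add_nonneg (mul_nonneg hα (Finset.sum_nonneg fun p _ => hG.w_nonneg p)) ?_
    exact div_nonneg (Finset.sum_nonneg fun p _ => hG.t_nonneg p) hτ.le
  have h1 := tuple_le (F := fun f : κ → Finset ι => (∏ l, Gc m w γ l (f l)) *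
        (α * ∑ p ∈ f i, w p + T t (f i) / (1 - τ)))
        (fun f => mul_nonneg (Finset.prod_nonneg fun l _ => Gc_nonneg hG.w_nonneg m l _) (hu _))
  refine h1.trans ?_
  have h2 : ∀ f : κ → Finset ι, (∏ l, Gc m w γ l (f l)) *
        (α * ∑ p ∈ f i, w p + T t (f i) / (1 - τ)) =
      ∏ l, (if l = i then Gc m w γ l (f l) * (α * ∑ p ∈ f l, w p + T t (f l) / (1 - τ))
        else Gc m w γ l (f l)) := by
    intro f
    rw [← Finset.mul_prod_erase univ _ (Finset.mem_univ i),
      ← Finset.mul_prod_erase univ (fun l => if l = i then _ else _) (Finset.mem_univ i),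
      if_pos rfl]
    have h3 : ∏ l ∈ univ.erase i, (if l = i then Gc m w γ l (f l) *
        (α * ∑ p ∈ f l, w p + T t (f l) / (1 - τ)) else Gc m w γ l (f l)) =
        ∏ l ∈ univ.erase i, Gc m w γ l (f l) :=
      Finset.prod_congr rfl fun l hl => if_neg (Finset.ne_of_mem_erase hl)
    rw [h3]
    ring
  simp only [h2]
  have h4 := tuple_scale (G := fun l => Gc m w γ l)
    (G' := fun l S => if l = i then Gc m w γ l S * (α * ∑ p ∈ S, w p + T t S / (1 - τ))
      else Gc m w γ l S)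
    (r := fun l => if l = i then
      (if i = m then 0 else α * η + ρ i) else 1)
    (fun l S => by
      have := Gc_nonneg (γ := γ) hG.w_nonneg m l S
      split_ifs
      · exact mul_nonneg this (hu S)
      · exact this)
    (fun l => by
      by_cases h : l = i
      · subst h
        simp only [if_true]
        by_cases hm : l = m
        · rw [if_pos hm, zero_mul]
          refine le_of_eq (Finset.sum_eq_zero fun S _ => ?_)
          unfold Gc
          rw [if_pos hm]
          split_ifs with hS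
          · rw [hS]
            simp [T]
          · rw [zero_mul]
        · rw [if_neg hm, Gc_sum, if_neg hm]
          have h5 : ∑ S : Finset ι, Gc m w γ l S * (α * ∑ p ∈ S, w p + T t S / (1 - τ)) =
              α * (∑ S : Finset ι, γ l S ^ 2 * ws w S * ∑ p ∈ S, w p) + M1 w t (γ l) / (1 - τ) := by
            unfold M1
            rw [Finset.mul_sum, Finset.sum_div, ← Finset.sum_add_distrib]
            refine Finset.sum_congr rfl fun S _ => ?_
            unfold Gc
            rw [if_neg hm]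
            ring
          rw [h5]
          have h6 := sumSum hG.w_nonneg (G := fun S => γ l S ^ 2) (fun S => sq_nonneg _)
            (fun S S' hS => pow_le_pow_left₀ (hG.g_nonneg l S') (hG.g_anti l S S' hS) 2)
          have h7 : ∑ S : Finset ι, γ l S ^ 2 * ws w S = B1 w (γ l) := rfl
          rw [h7] at h6
          have hB := B1_nonneg (γ := γ l) hG.w_nonneg
          have h8 : (∑ p, w p ^ 2) * B1 w (γ l) ≤ η * B1 w (γ l) :=
            mul_le_mul_of_nonneg_right hG.sq hB
          have h9 : M1 w t (γ l) / (1 - τ) ≤ ρ l * B1 w (γ l) := by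
            rw [div_le_iff₀ hτ]
            (clear * - hM; linarith [hM l])
          have h10 := mul_le_mul_of_nonneg_left (h6.trans h8) hα
          linarith
      · simp only [if_neg h, one_mul]
        exact le_rfl)
  refine h4.trans (le_of_eq ?_)
  rw [Gc_prod_sum, Finset.prod_ite_eq' univ i]
  simp

/-- The lower bound for one term. -/
theorem term_ge (hG : GoodV w t γ τ η) (hw1 : ∀ p, w p ≤ w' p)
    (hw2 : ∀ p, w' p - w p ≤ 2 * w p ^ 2) {m : κ} {c : ι → Option κ} (hc : cls c m = ∅) :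
    A1 w (γ m) ^ 2 * ((∏ i, Gc m w γ i (cls c i)) * (1 - 8 * Fintype.card κ * η -
      ((2 * Fintype.card κ + 4) * ∑ p ∈ supp c, w p + T t (supp c) / (1 - τ)))) ≤
      (∏ p ∈ supp c, w' p * (1 - ((Fintype.card κ : ℝ) - 1) * w' p)) *
          ym m w w' (yv t γ) c ^ 2 := by
  have hK : (1 : ℝ) ≤ Fintype.card κ := by
    have : 0 < Fintype.card κ := Fintype.card_pos_iff.2 ⟨m⟩
    exact_mod_cast this
  have hη : 0 ≤ η := le_trans (Finset.sum_nonneg fun p _ => sq_nonneg _) hG.sq
  have hτ : 0 < 1 - τ := by have := hG.tau_le; linarith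
  have hT0 : 0 ≤ T t (supp c) := Finset.sum_nonneg fun p _ => hG.t_nonneg p
  set s : ℝ := ∑ p ∈ supp c, w p with hs
  have hs0 : 0 ≤ s := Finset.sum_nonneg fun p _ => hG.w_nonneg p
  set K : ℝ := (Fintype.card κ : ℝ) with hKd
  have hws := ws_nonneg hG.w_nonneg (supp c)
  have hP := Pm_nonneg m hG.g_nonneg c
  have hA : 0 ≤ A1 w (γ m) := Finset.sum_nonneg fun S _ =>
    mul_nonneg (hG.g_nonneg _ _) (ws_nonneg hG.w_nonneg _)
  -- the right-hand side is nonnegative
  have hR : 0 ≤ (∏ p ∈ supp c, w' p * (1 - (K - 1) * w' p)) := by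
    refine Finset.prod_nonneg fun p _ => ?_
    have h1 := wprime_ge hG hw1 hw2 m p
    have h0 := hG.w_nonneg p
    have h2 := hG.w_le p
    have h3 : 0 ≤ w p * (1 - 2 * K * w p) := mul_nonneg h0 (by (clear * - h0 h2; nlinarith))
    (clear * - h1 h3; linarith)
  rw [Phi_eq hc]
  have hTd : 0 ≤ T t (supp c) / (1 - τ) := div_nonneg hT0 hτ.le
  have hβ : 0 ≤ 8 * K * η := by (clear * - hK hη; positivity)
  by_cases hh : 1 - 8 * K * η - ((2 * K + 4) * s + T t (supp c) / (1 - τ)) ≤ 0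
  · have h1 : A1 w (γ m) ^ 2 * (Pm m γ c ^ 2 * ws w (supp c) *
        (1 - 8 * K * η - ((2 * K + 4) * s + T t (supp c) / (1 - τ)))) ≤ 0 :=
      mul_nonpos_of_nonneg_of_nonpos (sq_nonneg _)
        (mul_nonpos_of_nonneg_of_nonpos (mul_nonneg (sq_nonneg _) hws) hh)
    exact h1.trans (mul_nonneg hR (sq_nonneg _))
  · push Not at hh
    have hKs : 0 ≤ K * s := mul_nonneg (by (clear * - hK; linarith)) hs0
    have hT : T t (supp c) ≤ 1 - τ := by
      by_contra h
      push Not at h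
      have h1 : 1 < T t (supp c) / (1 - τ) := by rwa [lt_div_iff₀ hτ, one_mul]
      (clear * - hs0 hβ hh hKs h1; nlinarith)
    have h1 := ym_ge hG hw1 hw2 hc hT
    rw [← hs, ← hKd] at h1
    have h2 : 0 ≤ 1 - 2 * s - 4 * K * η := by (clear * - hTd hh hKs; nlinarith)
    have h3 : 0 ≤ 1 - 2 * K * s := by (clear * - hs0 hTd hβ hh; nlinarith)
    have h4 : 0 ≤ Pm m γ c * A1 w (γ m) * (1 - 2 * s - 4 * K * η) :=
      mul_nonneg (mul_nonneg hP hA) h2
    have h5 : (Pm m γ c * A1 w (γ m) * (1 - 2 * s - 4 * K * η)) ^ 2 ≤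
        ym m w w' (yv t γ) c ^ 2 := by
      have h6 := pow_le_pow_left₀ h4 h1 2
      have h7 : ((-1) ^ (supp c).card * ym m w w' (yv t γ) c) ^ 2 = ym m w w' (yv t γ) c ^ 2 := by
        rw [mul_pow, ← pow_mul, mul_comm, mul_comm _ 2, pow_mul]
        simp
      rwa [h7] at h6
    have h8 := prod_wprime_ge hG hw1 hw2 m (supp c)
    rw [← hs, ← hKd] at h8
    have h9 : ws w (supp c) * (1 - 2 * K * s) *
        (Pm m γ c * A1 w (γ m) * (1 - 2 * s - 4 * K * η)) ^ 2 ≤
        (∏ p ∈ supp c, w' p * (1 - (K - 1) * w' p)) * ym m w w' (yv t γ) c ^ 2 :=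
      mul_le_mul h8 h5 (sq_nonneg _) hR
    refine le_trans ?_ h9
    have h10 : (1 - 8 * K * η - ((2 * K + 4) * s + T t (supp c) / (1 - τ))) ≤
        (1 - 2 * K * s) * (1 - 2 * s - 4 * K * η) ^ 2 := by
      have h11 : 1 - 4 * s - 8 * K * η ≤ (1 - 2 * s - 4 * K * η) ^ 2 := by
        (clear * -; nlinarith [sq_nonneg (2 * s + 4 * K * η)])
      have h12 := mul_le_mul_of_nonneg_left h11 h3
      have h13 : 0 ≤ 2 * K * s * (4 * s + 8 * K * η) :=
        mul_nonneg (by (clear * - hKs; nlinarith)) (by (clear * - hs0 hβ; linarith))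
      (clear * - hTd h12 h13; nlinarith)
    have h14 : 0 ≤ A1 w (γ m) ^ 2 * (Pm m γ c ^ 2 * ws w (supp c)) :=
      mul_nonneg (sq_nonneg _) (mul_nonneg (sq_nonneg _) hws)
    have h15 := mul_le_mul_of_nonneg_left h10 h14
    calc _ = A1 w (γ m) ^ 2 * (Pm m γ c ^ 2 * ws w (supp c)) *
          (1 - 8 * K * η - ((2 * K + 4) * s + T t (supp c) / (1 - τ))) := by ring
      _ ≤ _ := h15
      _ = _ := by ring

end Main

/-- PV-L: the main term for primes. -/
theorem lowerMainV : LowerMainV := by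
  intro ι κ _ _ _ _ w w' t γ τ η ρ hG hw1 hw2 hρ hM hρ1 m
  have hK : (1 : ℝ) ≤ Fintype.card κ := by
    have : 0 < Fintype.card κ := Fintype.card_pos_iff.2 ⟨m⟩
    exact_mod_cast this
  have hη : 0 ≤ η := le_trans (Finset.sum_nonneg fun p _ => sq_nonneg _) hG.sq
  have hτ : 0 < 1 - τ := by have := hG.tau_le; (clear * - this; linarith)
  set K : ℝ := (Fintype.card κ : ℝ) with hKd
  have h1 : ∑ c ∈ univ.filter (fun c : ι → Option κ => cls c m = ∅),
      A1 w (γ m) ^ 2 * ((∏ i, Gc m w γ i (cls c i)) * (1 - 8 * K * η -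
        ((2 * K + 4) * ∑ p ∈ supp c, w p + T t (supp c) / (1 - τ)))) ≤
      ∑ c ∈ univ.filter (fun c : ι → Option κ => cls c m = ∅),
      (∏ p ∈ supp c, w' p * (1 - (K - 1) * w' p)) * ym m w w' (yv t γ) c ^ 2 :=
    Finset.sum_le_sum fun c hc => term_ge hG hw1 hw2 (Finset.mem_filter.1 hc).2
  refine le_trans ?_ h1
  rw [← Finset.mul_sum, Finset.sum_filter]
  have h2 : ∀ c : ι → Option κ, (if cls c m = ∅ then (∏ i, Gc m w γ i (cls c i)) *
      (1 - 8 * K * η - ((2 * K + 4) * ∑ p ∈ supp c, w p + T t (supp c) / (1 - τ))) else 0) =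
      (1 - 8 * K * η) * (∏ i, Gc m w γ i (cls c i)) -
        ∑ j : κ, (∏ i, Gc m w γ i (cls c i)) *
          ((2 * K + 4) * ∑ p ∈ cls c j, w p + T t (cls c j) / (1 - τ)) := by
    intro c
    rw [← Finset.mul_sum, Finset.sum_add_distrib, ← Finset.mul_sum, ← Finset.sum_div,
      ← sum_supp, ← T_supp]
    split_ifs with h
    · ring
    · have h3 : ∏ i, Gc m w γ i (cls c i) = 0 := by
        refine Finset.prod_eq_zero (Finset.mem_univ m) ?_
        unfold Gc
        rw [if_pos rfl, if_neg h]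
      rw [h3]
      ring
  simp only [h2]
  rw [Finset.sum_sub_distrib, ← Finset.mul_sum, Finset.sum_comm]
  have h4 := Phi_ge (κ := κ) hG m
  have h5 : ∑ j : κ, ∑ c : ι → Option κ, (∏ i, Gc m w γ i (cls c i)) *
      ((2 * K + 4) * ∑ p ∈ cls c j, w p + T t (cls c j) / (1 - τ)) ≤
      ∑ j : κ, (if j = m then 0 else (2 * K + 4) * η + ρ j) *
        (∏ l ∈ univ.erase m, B1 w (γ l)) :=
    Finset.sum_le_sum fun j _ => Phi_u hG hM m j (by (clear * - hK; linarith))
  rw [← Finset.sum_mul] at h5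
  have hB := BB_nonneg (γ := γ) hG.w_nonneg m
  have h6 : ∑ j : κ, (if j = m then 0 else (2 * K + 4) * η + ρ j) ≤
      (2 * K + 4) * (K - 1) * η + 1 / 10 := by
    rw [← Finset.add_sum_erase univ _ (Finset.mem_univ m), if_pos rfl, zero_add]
    have h7 : ∀ j ∈ univ.erase m, (if j = m then 0 else (2 * K + 4) * η + ρ j) =
        (2 * K + 4) * η + ρ j := by
      intro j hj
      rw [if_neg (Finset.ne_of_mem_erase hj)]
    rw [Finset.sum_congr rfl h7, Finset.sum_add_distrib, Finset.sum_const,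
      Finset.card_erase_of_mem (Finset.mem_univ m),
      Finset.card_univ, nsmul_eq_mul, Nat.cast_sub (Fintype.card_pos_iff.2 ⟨m⟩ : 1 ≤ Fintype.card κ),
      ← hKd, Nat.cast_one]
    have h8 : ∑ j ∈ univ.erase m, ρ j ≤ ∑ j, ρ j :=
      Finset.sum_le_sum_of_subset_of_nonneg (Finset.subset_univ _) fun j _ _ => hρ j
    (clear * - hρ1 h8; linarith)
  have h7 := h5.trans (mul_le_mul_of_nonneg_right h6 hB)
  have hE := hG.eta
  rw [← hKd] at hE h4
  have hK2 : K * η ≤ K ^ 2 * η := mul_le_mul_of_nonneg_right (by (clear * - hK; nlinarith)) hη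
  have h8 : 0 ≤ 1 - 8 * K * η := by (clear * - hE hK2; nlinarith)
  have h9 := mul_le_mul_of_nonneg_left h4 h8
  have hA : 0 ≤ A1 w (γ m) ^ 2 := sq_nonneg _
  have h10 : 1 / 2 * (∏ l ∈ univ.erase m, B1 w (γ l)) ≤
      (1 - 8 * K * η) * ∑ c : ι → Option κ, ∏ i, Gc m w γ i (cls c i) -
        ∑ j : κ, ∑ c : ι → Option κ, (∏ i, Gc m w γ i (cls c i)) *
          ((2 * K + 4) * ∑ p ∈ cls c j, w p + T t (cls c j) / (1 - τ)) := by
    have h11 : 1 / 2 ≤ (1 - 8 * K * η) * (1 - K ^ 2 * η) -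
        ((2 * K + 4) * (K - 1) * η + 1 / 10) := by
      have h12 : (1 - 8 * K * η) * (1 - K ^ 2 * η) = 1 - 8 * (K * η) - K ^ 2 * η +
          8 * (K * η) * (K ^ 2 * η) := by ring
      have h13 : 0 ≤ 8 * (K * η) * (K ^ 2 * η) := by (clear * - hK hη; positivity)
      have h14 : (2 * K + 4) * (K - 1) * η = 2 * (K ^ 2 * η) + 2 * (K * η) - 4 * η := by ring
      rw [h12, h14]
      (clear * - hη hE hK2 h13; nlinarith)
    have h12 := mul_le_mul_of_nonneg_right h11 hB
    (clear * - h7 h9 h12; nlinarith)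
  have h11 := mul_le_mul_of_nonneg_left h10 hA
  (clear * - h11; linarith)

end Pool.Agent.Helper95.PV

end

section

set_option autoImplicit false

open Finset

namespace Pool.Agent.Helper4.PU

open Pool.Agent.Helper1.MT

/-- The product over the union is at most the product of the products. The primes in
`(R^(1/r), R]`: `∏ (1 + 1/p) ≤ exp (∑ 1/p) ≤ exp (log r + C)` by
`Pool.Agent.Helper4.AR.large_sum` with `s = 1`, `T` the singletons. The others: they divide
`∏ i, (h i - t).natAbs` (which is not `0`) and do not divide `W`. -/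
theorem badProd : BadProd := by
  classical
  obtain ⟨C, hC, hL⟩ := Pool.Agent.Helper4.AR.large_sum
  refine ⟨Real.exp C, Real.exp_pos _, ?_⟩
  intro κ _ h t R W r hR hr ht hw
  have hr0 : (0 : ℝ) < r := by exact_mod_cast hr
  have hR0 : (0 : ℝ) < R := by
    have : 0 < R := by omega
    exact_mod_cast this
  have hR1 : (1 : ℝ) < R := by
    have : 1 < R := by omega
    exact_mod_cast this
  set w : ℝ := (R : ℝ) ^ (1 / (r : ℝ)) with hwdef
  have hwR : w ≤ R := by
    rw [hwdef]
    calc (R : ℝ) ^ (1 / (r : ℝ)) ≤ (R : ℝ) ^ (1 : ℝ) := by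
          apply Real.rpow_le_rpow_of_exponent_le hR1.le
          rw [div_le_one hr0]
          exact_mod_cast hr
      _ = R := Real.rpow_one _
  have hlogw : Real.log w = 1 / r * Real.log R := by rw [hwdef, Real.log_rpow hR0]
  have hlogR : 0 < Real.log R := Real.log_pos hR1
  -- the primes as natural numbers
  have hpp : ∀ p : PS R W, (p : ℕ).Prime ∧ ¬ (p : ℕ) ∣ W ∧ (p : ℕ) ≤ R := by
    intro p
    have := p.2
    unfold PS at this
    rw [Finset.mem_filter, Finset.mem_range] at this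
    exact ⟨this.2.1, this.2.2, by omega⟩
  set P1 : Finset ℕ := (PS R W).filter (fun p => w < (p : ℝ)) with hP1
  set Q : Finset ℕ := (∏ i, ((h i : ℤ) - t).natAbs).primeFactors.filter (fun p => ¬ p ∣ W) with hQ
  have hne : ∏ i, ((h i : ℤ) - t).natAbs ≠ 0 := by
    rw [Finset.prod_ne_zero_iff]
    intro i _
    rw [Int.natAbs_ne_zero, sub_ne_zero]
    exact_mod_cast ht i
  have hone : ∀ p : ℕ, (1 : ℝ) ≤ 1 + 1 / (p : ℝ) := fun p => by
    have : (0 : ℝ) ≤ 1 / (p : ℝ) := by (clear * -; positivity)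
    (clear * - this; linarith)
  -- the product as a product of natural numbers
  have e1 : ∏ p ∈ univ.filter (fun p : PS R W => w < ((p : ℕ) : ℝ) ∨
      ∃ i, ((p : ℕ) : ℤ) ∣ (h i : ℤ) - t), (1 + wp R W p) =
      ∏ p ∈ (univ.filter (fun p : PS R W => w < ((p : ℕ) : ℝ) ∨
      ∃ i, ((p : ℕ) : ℤ) ∣ (h i : ℤ) - t)).image (fun p : PS R W => (p : ℕ)), (1 + 1 / (p : ℝ)) := by
    rw [Finset.prod_image (fun x _ y _ h => Subtype.ext h)]
    rfl
  have e2 : (univ.filter (fun p : PS R W => w < ((p : ℕ) : ℝ) ∨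
      ∃ i, ((p : ℕ) : ℤ) ∣ (h i : ℤ) - t)).image (fun p : PS R W => (p : ℕ)) ⊆ P1 ∪ Q := by
    intro q hq
    rw [Finset.mem_image] at hq
    obtain ⟨p, hp, rfl⟩ := hq
    rw [Finset.mem_filter] at hp
    obtain ⟨hp1, hp2, _⟩ := hpp p
    rcases hp.2 with hlt | ⟨i, hi⟩
    · exact Finset.mem_union_left _ (Finset.mem_filter.mpr ⟨p.2, hlt⟩)
    · refine Finset.mem_union_right _ (Finset.mem_filter.mpr ⟨?_, hp2⟩)
      rw [Nat.mem_primeFactors]
      refine ⟨hp1, ?_, hne⟩
      exact (Int.natCast_dvd.mp hi).trans (Finset.dvd_prod_of_mem _ (Finset.mem_univ i))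
  have e3 : ∏ p ∈ P1, (1 + 1 / (p : ℝ)) ≤ Real.exp C * r := by
    have f1 : ∏ p ∈ P1, (1 + 1 / (p : ℝ)) ≤ Real.exp (∑ p ∈ P1, 1 / (p : ℝ)) := by
      rw [Real.exp_sum]
      refine Finset.prod_le_prod (fun p _ => le_trans zero_le_one (hone p)) fun p _ => ?_
      have := Real.add_one_le_exp (1 / (p : ℝ))
      (clear * - this; linarith)
    have f2 := hL w R hw hwR 1 (P1.image (fun p => ({p} : Finset ℕ))) (by
      intro A hA
      rw [Finset.mem_image] at hA
      obtain ⟨p, hp, rfl⟩ := hA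
      rw [hP1, Finset.mem_filter] at hp
      obtain ⟨hp1, _, hp3⟩ := hpp ⟨p, hp.1⟩
      refine ⟨Finset.card_singleton _, fun q hq => ?_⟩
      rw [Finset.mem_singleton] at hq
      subst hq
      exact ⟨hp1, hp.2, by exact_mod_cast hp3⟩)
    rw [Finset.sum_image (fun x _ y _ h => Finset.singleton_injective h)] at f2
    simp only [Finset.prod_singleton, pow_one, Nat.factorial_one, Nat.cast_one, div_one] at f2
    refine f1.trans ((Real.exp_le_exp.mpr f2).trans ?_)
    have f3 : Real.log R / Real.log w = r := by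
      rw [hlogw]
      field_simp
    rw [f3, Real.exp_add, Real.exp_log hr0, mul_comm]
  have e4 : Sg h W t = ∏ p ∈ Q, (1 + 1 / (p : ℝ)) := rfl
  have hQ0 : 1 ≤ ∏ p ∈ Q, (1 + 1 / (p : ℝ)) := by
    refine Finset.one_le_prod ?_
    intro p _
    exact hone p
  rw [e1]
  calc ∏ p ∈ (univ.filter (fun p : PS R W => w < ((p : ℕ) : ℝ) ∨
      ∃ i, ((p : ℕ) : ℤ) ∣ (h i : ℤ) - t)).image (fun p : PS R W => (p : ℕ)), (1 + 1 / (p : ℝ))
      ≤ ∏ p ∈ P1 ∪ Q, (1 + 1 / (p : ℝ)) :=
        Finset.prod_le_prod_of_subset_of_one_le e2 (fun p _ => le_trans zero_le_one (hone p))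
          (fun p _ _ => hone p)
    _ ≤ (∏ p ∈ P1, (1 + 1 / (p : ℝ))) * ∏ p ∈ Q, (1 + 1 / (p : ℝ)) := by
        rw [← Finset.prod_union_inter]
        have f4 : 1 ≤ ∏ p ∈ P1 ∩ Q, (1 + 1 / (p : ℝ)) := Finset.one_le_prod fun p _ => hone p
        have f5 : 0 ≤ ∏ p ∈ P1 ∪ Q, (1 + 1 / (p : ℝ)) :=
          Finset.prod_nonneg fun p _ => le_trans zero_le_one (hone p)
        (clear * - f4 f5; nlinarith)
    _ ≤ Real.exp C * r * Sg h W t := by
        rw [e4]
        exact mul_le_mul_of_nonneg_right e3 (le_trans zero_le_one hQ0)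

end Pool.Agent.Helper4.PU

end
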