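import Pool.Agent.Helper23.MT.L01_acd2
import Pool.Agent.Helper23.MT.L01_acd3
import Pool.Agent.Helper23.MT.L01_acd4
import Pool.Agent.Helper23.MT.L01_c0
import Pool.Agent.Helper23.MT.L01_c1
import Pool.Agent.Helper23.MT.L01_c2

/-!
Parts of Helper66.PV.Rare, Helper66.PV.Bad0, Helper66.PU.Bad, Helper66.PU.Defs2, Helper4.PU.Defs, Helper66.PU.WeightPS, Helper4.PL.Square, Helper4.PL.Rare, Helper4.PU.ManyU, Helper4.PU.SquareU, Helper4.PU.RareU, Helper4.PU.All, Helper56.PU.OneDim, Helper7.PU.Interval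
-/

namespace Pool.Agent.Helper1.MT
end Pool.Agent.Helper1.MT
namespace Pool.Agent.Helper28.MT
end Pool.Agent.Helper28.MT
namespace Pool.Agent.Helper66.PAP
end Pool.Agent.Helper66.PAP
namespace Pool.Agent.Helper66.PV
end Pool.Agent.Helper66.PV
namespace Pool.Agent.Helper81.MT
end Pool.Agent.Helper81.MT

section

set_option autoImplicit false

open Finset

namespace Pool.Agent.Helper66.PV

open Pool.Agent.Helper1.MT

open Pool.Agent.Helper66.PAP (BadAt)

/-- No `n + h i` has a small prime factor of the sieve, but some `n + h i` has more than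
`6 s + 164` prime factors. -/
def RareAt {κ : Type} (h : κ → ℕ) (W s : ℕ) (ε x : ℝ) (n : ℕ) : Prop :=
  ¬ BadAt h W ε x n ∧ ∃ i, 6 * s + 164 < oW W (n + h i)

end Pool.Agent.Helper66.PV

end

section

set_option autoImplicit false

open Finset Filter

namespace Pool.Agent.Helper66.PV

open Pool.Agent.Helper1.MT

open Pool.Agent.Helper66.PAP (ys BadAt sum_log_small sum_inv_small card_PS_le exists_equiv wp_comp)

/-- The contribution of one prime and one shift. -/
theorem one_prime (hE : Expand) {κ : Type} [Fintype κ] [DecidableEq κ] {K J : κ → ℕ}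
    {I : Finset κ} {D0 W v : ℕ} {h : κ → ℕ} {c1 x L Λ : ℝ} (hS : SetN D0 h W)
    (hD : (Fintype.card κ + 2) ^ 10 ≤ D0) (hF : SieveAtV c1 K J I D0 h W v x) (hL : 0 < L)
    (hKx : 4 * Real.exp (4 * Fintype.card κ) ^ 2 * L ≤ x ^ (53 / 162 : ℝ))
    (q : PS (lev x) W) (hWx : ((W * (q : ℕ) : ℕ) : ℝ) ≤ x ^ (23 / 54 : ℝ))
    (H1 : ∀ a : ℝ, a ≤ 1 → ∑ S ∈ (univ : Finset (Finset (PS (lev x) W))).filter
      (fun S => a - tp (lev x) W q < T (tp (lev x) W) S ∧ T (tp (lev x) W) S ≤ a),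
        ws (wp (lev x) W) S ≤ Λ)
    (H2 : ∀ j, ∑ S : Finset (PS (lev x) W), (gam (K j) (J j) S ^ 2 -
      gam (K j) (J j) (insert q S) ^ 2) * ws (wp (lev x) W) S ≤ Λ) (i : κ) :
    ∑ n ∈ (NS x W v).filter (fun n => (q : ℕ) ∣ n + h i), uv h K J W x n ≤
      Real.log x / (2 * W) * (4 * (Λ / ((q : ℕ) : ℝ)) * (∏ j ∈ univ.erase i, Bv K J W x j) +
        2 * (Fintype.card κ : ℝ) ^ 2 * wp (lev x) W q ^ 2 * ∏ j, Bv K J W x j) + 1 / L := by
  obtain ⟨e, he, he'⟩ := exists_equiv q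
  have hG := hF.good
  have h1 := sum_qN (v := v) hE hS hD hF.x9 hL hKx hF.R3 hF.Rx q hWx e he he'
    (yv (tp (lev x) W) (gv K J (lev x) W)) (fun c => yv_abs_le hG c)
    (fun c hc => yv_supp hc) i
  have h2 := energyStarV (PS (lev x) W) (PS (lev x) (W * (q : ℕ))) κ e (wp (lev x) W)
    (tp (lev x) W) (gv K J (lev x) W) _ _ Λ hG (by rw [he]; exact H1)
    (by rw [he]; exact H2) i
  rw [wp_comp q e he', he] at h2
  have hq0 : (1 : ℝ) ≤ ((q : ℕ) : ℝ) := by exact_mod_cast (PS_prime q).one_le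
  have hlogx : 0 ≤ Real.log x := Real.log_nonneg (by (clear * - hF; linarith [hF.x9]))
  have hW : (0 : ℝ) < W := by exact_mod_cast hS.W_pos
  have hB : ∀ j, 0 ≤ Bv K J W x j := fun j => zero_le_one.trans (hF.Bone j)
  have hBdef : ∀ j, B1 (wp (lev x) W) (gv K J (lev x) W j) = Bv K J W x j := fun j => rfl
  simp only [hBdef] at h2
  have hP : 0 ≤ ∏ j, Bv K J W x j := Finset.prod_nonneg fun j _ => hB j
  set P := ∏ j, Bv K J W x j with hPdef
  set P' := ∏ j ∈ univ.erase i, Bv K J W x j with hP'def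
  set n := Fintype.card κ with hn
  refine h1.trans ?_
  gcongr ?_ + 1 / L
  calc Real.log x / (2 * ((W * (q : ℕ) : ℕ) : ℝ)) *
        ∑ c : PS (lev x) (W * (q : ℕ)) → Option κ,
          ws (wp (lev x) (W * (q : ℕ))) (supp c) *
            ys e (wp (lev x) W) i (yv (tp (lev x) W) (gv K J (lev x) W)) c ^ 2
      ≤ Real.log x / (2 * ((W * (q : ℕ) : ℕ) : ℝ)) *
        (4 * Λ * P' + 2 * (n * wp (lev x) W q) ^ 2 * P) := by
        apply mul_le_mul_of_nonneg_left h2
        (clear * - hlogx; positivity)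
    _ = Real.log x / (2 * W) * (4 * (Λ / ((q : ℕ) : ℝ)) * P' +
        2 * (n : ℝ) ^ 2 * wp (lev x) W q ^ 2 * P / ((q : ℕ) : ℝ)) := by
        push_cast
        (clear * - hq0 hW; field_simp)
    _ ≤ _ := by
        have h3 : 2 * (n : ℝ) ^ 2 * wp (lev x) W q ^ 2 * P / ((q : ℕ) : ℝ) ≤
            2 * (n : ℝ) ^ 2 * wp (lev x) W q ^ 2 * P := by
          apply div_le_self (by (clear * - hP; positivity)) hq0
        (clear * - h3 hlogx hW; gcongr)

end Pool.Agent.Helper66.PV

end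

section

set_option autoImplicit false

open Finset Filter

namespace Pool.Agent.Helper66.PU

open Pool.Agent.Helper1.MT

open Pool.Agent.Helper66.PV

open Pool.Agent.Helper66.PAP (BadAt sum_log_small sum_inv_small card_PS_le)

/-- The `n` with small prime factors contribute little. -/
theorem bad_sumU (hI : IntervalSumU) (hE : Expand) {κ : Type} [Fintype κ]
    [DecidableEq κ] {K J : κ → ℕ} {D0 : ℕ} {c1 ε KM A : ℝ}
    (hK0 : ∀ i, 0 < K i) (hJ : ∀ i, 10 * 2 ^ J i ≤ 8 * K i * (J i + 2))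
    (hD : (Fintype.card κ + 2) ^ 10 ≤ D0) (hKM : ∀ i, Kp (K i) (J i) ≤ KM) (hε : 0 < ε)
    (hA : 1 ≤ A) :
    ∃ X0 : ℝ, ∀ x : ℝ, X0 ≤ x → ∀ (I : Finset κ) (h : κ → ℕ) (W v : ℕ), SetN D0 h W →
      (W : ℝ) ≤ Real.log x ^ A → SieveAtV c1 K J I D0 h W v x →
      ∀ [DecidablePred (BadAt h W ε x)],
      ∑ n ∈ (NS x W v).filter (BadAt h W ε x), uv h K J W x n ≤
        (36 * Fintype.card κ * KM * ε + 4 * (Fintype.card κ : ℝ) ^ 3 / D0) * Sv K J W x + 1 := by
  obtain ⟨C, hC, hC'⟩ := hI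
  obtain ⟨Cm, hCm, hCm'⟩ := sum_log_small
  obtain ⟨C2, hC2, hC2'⟩ := sum_inv_small
  set k := Fintype.card κ with hk
  have hKr : ∀ i, (0 : ℝ) < K i := fun i => by exact_mod_cast hK0 i
  have hKp : ∀ i, 0 < Kp (K i) (J i) := fun i => by
    have := hKr i
    unfold Kp
    (clear * - this; positivity)
  -- large x
  have hll := loglog_small 4 (2 * A) (Cm + C * (1 + C2)) (by (clear * - hA; linarith)) (by positivity)
    (show 0 < ε / 82 by positivity)
  have hx1 : ∀ᶠ x : ℝ in atTop, 4 * Real.exp (4 * k) ^ 2 * x ^ (1 / 50 : ℝ) ≤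
      x ^ (53 / 162 : ℝ) := by
    have h1 : Tendsto (fun x : ℝ => x ^ (53 / 162 - 1 / 50 : ℝ)) atTop atTop :=
      tendsto_rpow_atTop (by norm_num)
    filter_upwards [h1.eventually_ge_atTop (4 * Real.exp (4 * k) ^ 2), eventually_gt_atTop 0]
      with x hx hx0
    calc 4 * Real.exp (4 * k) ^ 2 * x ^ (1 / 50 : ℝ) ≤
          x ^ (53 / 162 - 1 / 50 : ℝ) * x ^ (1 / 50 : ℝ) :=
          mul_le_mul_of_nonneg_right hx (by positivity)
      _ = x ^ (53 / 162 : ℝ) := by rw [← Real.rpow_add hx0]; norm_num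
  have hx2 : ∀ᶠ x : ℝ in atTop, Real.log x ^ A * x ^ (1 / 81 : ℝ) ≤ x ^ (23 / 54 : ℝ) := by
    filter_upwards [log_rpow_le (A := A) (show (0 : ℝ) < 23 / 54 - 1 / 81 by norm_num),
      eventually_gt_atTop 0] with x hx hx0
    calc Real.log x ^ A * x ^ (1 / 81 : ℝ) ≤ x ^ (23 / 54 - 1 / 81 : ℝ) * x ^ (1 / 81 : ℝ) :=
          mul_le_mul_of_nonneg_right hx (by positivity)
      _ = x ^ (23 / 54 : ℝ) := by rw [← Real.rpow_add hx0]; norm_num
  have hx3 : ∀ᶠ x : ℝ in atTop, (2 * k : ℝ) * x ^ (1 / 81 : ℝ) ≤ x ^ (1 / 50 : ℝ) := by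
    have h1 : Tendsto (fun x : ℝ => x ^ (1 / 50 - 1 / 81 : ℝ)) atTop atTop :=
      tendsto_rpow_atTop (by norm_num)
    filter_upwards [h1.eventually_ge_atTop (2 * k : ℝ), eventually_gt_atTop 0] with x hx hx0
    calc (2 * k : ℝ) * x ^ (1 / 81 : ℝ) ≤ x ^ (1 / 50 - 1 / 81 : ℝ) * x ^ (1 / 81 : ℝ) :=
          mul_le_mul_of_nonneg_right hx (by positivity)
      _ = x ^ (1 / 50 : ℝ) := by rw [← Real.rpow_add hx0]; norm_num
  obtain ⟨X0, hX0⟩ := eventually_atTop.1
    (hll.and (hx1.and (hx2.and (hx3.and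
      (Real.tendsto_log_atTop.eventually_ge_atTop (1 : ℝ))))))
  refine ⟨X0, fun x hx I h W v hS hWA hF _ => ?_⟩
  obtain ⟨e1, e3, e4, e5, e6⟩ := hX0 x hx
  have hWr : (0 : ℝ) < W := by exact_mod_cast hS.W_pos
  have hW1 : (1 : ℝ) ≤ W := by exact_mod_cast hS.W_pos
  have hφ : (0 : ℝ) < W.totient := by exact_mod_cast Nat.totient_pos.2 hS.W_pos
  set ρ : ℝ := (W.totient : ℝ) / W with hρ
  have hρ0 : 0 < ρ := by (clear * - hφ hWr; positivity)
  have hlW0 : 0 ≤ Real.log W := Real.log_nonneg hW1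
  set ll : ℝ := 1 + 2 * A * Real.log (Real.log x) with hlldef
  have hllx : 0 ≤ Real.log (Real.log x) := Real.log_nonneg e6
  have hlW : Real.log W ≤ A * Real.log (Real.log x) := by
    have h1 := Real.log_le_log hWr hWA
    rwa [Real.log_rpow (by (clear * - e6; linarith))] at h1
  have hAll : 0 ≤ A * Real.log (Real.log x) := by (clear * - hA hllx; positivity)
  have hll1 : 1 ≤ ll := by rw [hlldef]; (clear * - hlW0 hlW; nlinarith)
  have hinv : (W : ℝ) / W.totient ≤ ll := by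
    refine (div_totient_le hS.W_pos).trans ?_
    rw [hlldef]
    (clear * - hlW; nlinarith)
  have hinv0 : 0 ≤ (W : ℝ) / W.totient := by (clear * - hWr hφ; positivity)
  have hρinv : ρ * ((W : ℝ) / W.totient) = 1 := by rw [hρ]; (clear * - hφ hWr; field_simp)
  set CW : ℝ := C * ((W : ℝ) / W.totient) * (1 + Real.log W) with hCW
  have hCW0 : 0 ≤ CW := by (clear * - hC hWr hφ; positivity)
  set R := lev x with hR
  have hR3 := hF.R3
  have hx0 : (0 : ℝ) < x := by (clear * - hF; linarith [hF.x9])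
  have hlogx : 0 < Real.log x := Real.log_pos (by (clear * - hF; linarith [hF.x9]))
  have hRr : (3 : ℝ) ≤ R := by exact_mod_cast hR3
  have hlogR : 0 < Real.log R := Real.log_pos (by (clear * - hRr; linarith))
  set L : ℝ := x ^ (1 / 50 : ℝ) with hL
  have hL0 : 0 < L := by positivity
  set B : κ → ℝ := Bv K J W x with hB
  have hB1 : ∀ i, 1 ≤ B i := hF.Bone
  have hB0 : ∀ i, 0 < B i := fun i => by (clear * - hB1; linarith [hB1 i])
  set P := ∏ j, B j with hP
  have hP0 : 0 < P := Finset.prod_pos fun j _ => hB0 j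
  set G := univ.filter (fun q : PS R W => tp R W q ≤ ε) with hG
  refine (bad_union h K J W v ε x).trans ?_
  -- one prime
  have hone : ∀ q ∈ G, ∀ i : κ,
      ∑ n ∈ (NS x W v).filter (fun n => (q : ℕ) ∣ n + h i), uv h K J W x n ≤
      Real.log x / (2 * W) * (4 * ((ρ * Real.log (q : ℕ) + CW) / ((q : ℕ) : ℝ)) *
        (∏ j ∈ univ.erase i, B j) + 2 * (k : ℝ) ^ 2 * wp R W q ^ 2 * P) + 1 / L := by
    intro q _ i
    obtain ⟨H1, H2⟩ := hC' W hS.W_pos R hR3 q
    have hWq : ((W * (q : ℕ) : ℕ) : ℝ) ≤ x ^ (23 / 54 : ℝ) := by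
      push_cast
      refine le_trans ?_ e4
      have h1 : ((q : ℕ) : ℝ) ≤ R := by exact_mod_cast PS_le q
      have h2 := hF.Rx
      exact mul_le_mul hWA (h1.trans h2) (Nat.cast_nonneg _) (by (clear * - e6; positivity))
    exact one_prime hE hS hD hF hL0 e3 q hWq H1 (fun j => H2 (K j) (J j) (hK0 j) (hJ j)) i
  rw [Finset.sum_comm]
  -- one shift
  have hshift : ∀ i : κ, ∑ q ∈ G,
        ∑ n ∈ (NS x W v).filter (fun n => (q : ℕ) ∣ n + h i), uv h K J W x n ≤
      Real.log x / (2 * W) * ((36 * KM * ε + 4 * (k : ℝ) ^ 2 / D0) * P) + G.card * (1 / L) := by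
    intro i
    set P' := ∏ j ∈ univ.erase i, B j with hP'
    have hP'0 : 0 < P' := Finset.prod_pos fun j _ => hB0 j
    refine (Finset.sum_le_sum fun q hq => hone q hq i).trans ?_
    have hsum2 : ∑ q ∈ G, (Real.log x / (2 * W) *
        (4 * ((ρ * Real.log (q : ℕ) + CW) / ((q : ℕ) : ℝ)) * P' +
        2 * (k : ℝ) ^ 2 * wp R W q ^ 2 * P) + 1 / L) =
      (Real.log x / (2 * W)) * (4 * P' *
        (ρ * ∑ q ∈ G, Real.log (q : ℕ) / ((q : ℕ) : ℝ) + CW * ∑ q ∈ G, 1 / ((q : ℕ) : ℝ)) +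
        2 * (k : ℝ) ^ 2 * P * ∑ q ∈ G, wp R W q ^ 2) + G.card * (1 / L) := by
      rw [Finset.sum_add_distrib, Finset.sum_const, nsmul_eq_mul,
        ← Finset.mul_sum, Finset.sum_add_distrib]
      have s1 : ∑ q ∈ G, 4 * ((ρ * Real.log (q : ℕ) + CW) / ((q : ℕ) : ℝ)) * P' =
          4 * P' * (ρ * ∑ q ∈ G, Real.log (q : ℕ) / ((q : ℕ) : ℝ) +
            CW * ∑ q ∈ G, 1 / ((q : ℕ) : ℝ)) := by
        rw [Finset.mul_sum, Finset.mul_sum, ← Finset.sum_add_distrib, Finset.mul_sum]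
        refine Finset.sum_congr rfl fun q _ => ?_
        ring
      have s2 : ∑ q ∈ G, 2 * (k : ℝ) ^ 2 * wp R W q ^ 2 * P =
          2 * (k : ℝ) ^ 2 * P * ∑ q ∈ G, wp R W q ^ 2 := by
        rw [Finset.mul_sum]
        refine Finset.sum_congr rfl fun q _ => ?_
        ring
      rw [s1, s2]
    rw [hsum2]
    -- the sums over q
    have t1 : ∑ q ∈ G, Real.log (q : ℕ) / ((q : ℕ) : ℝ) ≤ ε * Real.log R + Cm :=
      hCm' R W ε hR3 hε.le
    have t2 : ∑ q ∈ G, 1 / ((q : ℕ) : ℝ) ≤ Real.log (Real.log R) + C2 := by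
      refine le_trans ?_ (hC2' R W hR3)
      apply Finset.sum_le_sum_of_subset_of_nonneg (Finset.filter_subset _ _)
      intro q _ _
      (clear * -; positivity)
    have t3 : ∑ q ∈ G, wp R W q ^ 2 ≤ 2 / D0 := by
      refine le_trans ?_ hF.good.sq
      apply Finset.sum_le_sum_of_subset_of_nonneg (Finset.filter_subset _ _)
      intro q _ _
      (clear * -; positivity)
    have t5 : ρ * ∑ q ∈ G, Real.log (q : ℕ) / ((q : ℕ) : ℝ) +
        CW * ∑ q ∈ G, 1 / ((q : ℕ) : ℝ) ≤ 2 * ρ * ε * Real.log R := by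
      have h1 : ρ * ∑ q ∈ G, Real.log (q : ℕ) / ((q : ℕ) : ℝ) ≤ ρ * (ε * Real.log R + Cm) :=
        mul_le_mul_of_nonneg_left t1 hρ0.le
      have h2 : CW * ∑ q ∈ G, 1 / ((q : ℕ) : ℝ) ≤ CW * (Real.log (Real.log R) + C2) :=
        mul_le_mul_of_nonneg_left t2 hCW0
      have h3 : Real.log (Real.log R) + C2 ≤ (1 + C2) * ll := by
        have h4 : Real.log (Real.log R) ≤ Real.log (Real.log x) := by
          apply Real.log_le_log hlogR
          apply Real.log_le_log (by (clear * - hRr; linarith))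
          refine hF.Rx.trans ?_
          calc x ^ (1 / 81 : ℝ) ≤ x ^ (1 : ℝ) :=
                Real.rpow_le_rpow_of_exponent_le (by (clear * - hx0 hF; linarith [hF.x9])) (by norm_num)
            _ = x := Real.rpow_one x
        have h5 : Real.log (Real.log x) ≤ A * Real.log (Real.log x) := by (clear * - hA hllx; nlinarith)
        have h6 : 0 ≤ C2 * (2 * A * Real.log (Real.log x)) := by (clear * - hC2 hA hllx; positivity)
        rw [hlldef]
        (clear * - hlW0 hlW h4 h5 h6; linarith)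
      have h4 : CW ≤ ρ * (C * ll ^ 3) := by
        have h5 : CW = ρ * (C * (((W : ℝ) / W.totient) ^ 2 * (1 + Real.log W))) := by
          calc CW = C * (ρ * ((W : ℝ) / W.totient)) * ((W : ℝ) / W.totient) *
                (1 + Real.log W) := by rw [hρinv, hCW]; ring
            _ = _ := by ring
        rw [h5]
        apply mul_le_mul_of_nonneg_left _ hρ0.le
        apply mul_le_mul_of_nonneg_left _ hC.le
        have h6 : 1 + Real.log W ≤ ll := by rw [hlldef]; (clear * - hlW0 hlW; linarith)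
        calc ((W : ℝ) / W.totient) ^ 2 * (1 + Real.log W) ≤ ll ^ 2 * ll :=
              mul_le_mul (pow_le_pow_left₀ hinv0 hinv 2) h6 (by (clear * - hlW0; linarith)) (by (clear * - hA hllx; positivity))
          _ = ll ^ 3 := by ring
      have h5 : CW * (Real.log (Real.log R) + C2) ≤ ρ * (C * (1 + C2) * ll ^ 4) := by
        calc CW * (Real.log (Real.log R) + C2) ≤ CW * ((1 + C2) * ll) :=
              mul_le_mul_of_nonneg_left h3 hCW0
          _ ≤ ρ * (C * ll ^ 3) * ((1 + C2) * ll) :=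
              mul_le_mul_of_nonneg_right h4 (by (clear * - hC2 hA hllx; positivity))
          _ = _ := by ring
      have h6 : Cm + C * (1 + C2) * ll ^ 4 ≤ ε * Real.log R := by
        have h7 : Cm ≤ Cm * ll ^ 4 := le_mul_of_one_le_right hCm.le (one_le_pow₀ hll1)
        have h8 := hF.logx
        have h9 : ε / 82 * Real.log x ≤ ε * Real.log R := by
          calc ε / 82 * Real.log x ≤ ε / 82 * (82 * Real.log R) := by (clear * - h8 hε; gcongr)
            _ = _ := by ring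
        have h10 : (Cm + C * (1 + C2)) * ll ^ 4 = Cm * ll ^ 4 + C * (1 + C2) * ll ^ 4 := by ring
        (clear * - e1 h7 h9; linarith)
      have h7 := mul_le_mul_of_nonneg_left h6 hρ0.le
      have h8 : ρ * (Cm + C * (1 + C2) * ll ^ 4) =
        ρ * Cm + ρ * (C * (1 + C2) * ll ^ 4) := by ring
      have h9 : 2 * ρ * ε * Real.log R = ρ * (ε * Real.log R) + ρ * (ε * Real.log R) := by ring
      have h10 : ρ * (ε * Real.log R + Cm) = ρ * (ε * Real.log R) + ρ * Cm := by ring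
      (clear * - h1 h2 h5 h7; linarith)
    have hPP : P = P' * B i := by
      rw [hP, hP', mul_comm, Finset.mul_prod_erase univ B (mem_univ i)]
    have hKMi : Kp (K i) (J i) ≤ KM := hKM i
    have hKMp : 0 < KM := lt_of_lt_of_le (hKp i) hKMi
    have t6 : P' * (2 * ρ * ε * Real.log R) ≤ 9 * ε * KM * P := by
      have h1 : ρ * Real.log R ≤ 40 / 9 * Kp (K i) (J i) * B i := by
        have h2 : 9 / 40 / Kp (K i) (J i) * (ρ * Real.log R) ≤ B i := hF.Blow i
        have h4 := hKp i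
        have h3 : ρ * Real.log R = 40 / 9 * Kp (K i) (J i) *
            (9 / 40 / Kp (K i) (J i) * (ρ * Real.log R)) := by
          (clear * - h4 hlogR hρ0; field_simp)
        rw [h3]
        exact mul_le_mul_of_nonneg_left h2 (by (clear * - h4; positivity))
      have h2 : 2 * ρ * ε * Real.log R ≤ 9 * ε * KM * B i := by
        have h5 := hB0 i
        calc 2 * ρ * ε * Real.log R = 2 * ε * (ρ * Real.log R) := by ring
          _ ≤ 2 * ε * (40 / 9 * Kp (K i) (J i) * B i) := by (clear * - h1 hε; gcongr)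
          _ ≤ 2 * ε * (40 / 9 * KM * B i) := by (clear * - hKMi h5 hε; gcongr)
          _ ≤ 9 * ε * KM * B i := by
              have : 0 ≤ ε * KM * B i := by (clear * - hε hKMp h5; positivity)
              (clear * - this; nlinarith)
      calc P' * (2 * ρ * ε * Real.log R) ≤ P' * (9 * ε * KM * B i) := by (clear * - h2 hP'0; gcongr)
        _ = _ := by rw [hPP]; ring
    have hlx : 0 ≤ Real.log x / (2 * W) := by (clear * - e6 hWr; positivity)
    have t8 : 4 * P' *
          (ρ * ∑ q ∈ G, Real.log (q : ℕ) / ((q : ℕ) : ℝ) + CW * ∑ q ∈ G, 1 / ((q : ℕ) : ℝ)) +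
          2 * (k : ℝ) ^ 2 * P * ∑ q ∈ G, wp R W q ^ 2 ≤
        (36 * KM * ε + 4 * (k : ℝ) ^ 2 / D0) * P := by
      have h1 : 4 * P' *
          (ρ * ∑ q ∈ G, Real.log (q : ℕ) / ((q : ℕ) : ℝ) + CW * ∑ q ∈ G, 1 / ((q : ℕ) : ℝ)) ≤
          4 * (9 * ε * KM * P) := by
        calc 4 * P' * (ρ * ∑ q ∈ G, Real.log (q : ℕ) / ((q : ℕ) : ℝ) +
              CW * ∑ q ∈ G, 1 / ((q : ℕ) : ℝ)) ≤ 4 * P' * (2 * ρ * ε * Real.log R) := by
              (clear * - t5 hP'0; gcongr)
          _ = 4 * (P' * (2 * ρ * ε * Real.log R)) := by ring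
          _ ≤ _ := by (clear * - t6; gcongr)
      have h2 : 2 * (k : ℝ) ^ 2 * P * ∑ q ∈ G, wp R W q ^ 2 ≤
          2 * (k : ℝ) ^ 2 * P * (2 / D0) := by (clear * - t3 hP0; gcongr)
      calc _ ≤ 4 * (9 * ε * KM * P) + 2 * (k : ℝ) ^ 2 * P * (2 / D0) := add_le_add h1 h2
        _ = _ := by ring
    (clear * - t8 e6 hWr; gcongr)
  have t4 : k * ((G.card : ℝ) * (1 / L)) ≤ 1 := by
    have h1 : (G.card : ℝ) ≤ R + 1 := by
      have h2 : G.card ≤ Fintype.card (PS R W) := Finset.card_le_univ _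
      exact_mod_cast h2.trans (card_PS_le R W)
    have h2 : (G.card : ℝ) ≤ 2 * x ^ (1 / 81 : ℝ) := by
      have := hF.Rx
      (clear * - hRr h1 this; linarith)
    rw [mul_one_div, mul_div_assoc', div_le_one hL0]
    calc (k : ℝ) * G.card ≤ k * (2 * x ^ (1 / 81 : ℝ)) := by (clear * - h2; gcongr)
      _ = (2 * k : ℝ) * x ^ (1 / 81 : ℝ) := by ring
      _ ≤ L := e5
  have t7 : Sv K J W x = Real.log x / (2 * W) * P := rfl
  refine (Finset.sum_le_sum fun i _ => hshift i).trans ?_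
  rw [Finset.sum_const, Finset.card_univ, nsmul_eq_mul, ← hk, mul_add, t7]
  have t9 : (k : ℝ) * (Real.log x / (2 * W) * ((36 * KM * ε + 4 * (k : ℝ) ^ 2 / D0) * P)) =
      (36 * k * KM * ε + 4 * (k : ℝ) ^ 3 / D0) * (Real.log x / (2 * W) * P) := by
    ring
  rw [t9]
  (clear * - t4; linarith)

end Pool.Agent.Helper66.PU

end

section

set_option autoImplicit false

open Finset

open ArithmeticFunction (cardFactors)

namespace Pool.Agent.Helper66.PU

open Pool.Agent.Helper1.MT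

open Pool.Agent.Helper66.PV

/-- PU-R: `RareSum`, uniformly. -/
def RareSumU : Prop :=
  ∃ C : ℝ, 0 < C ∧ ∀ (κ : Type) [Fintype κ] [DecidableEq κ] (D0 s : ℕ) (ε A : ℝ),
    (Fintype.card κ + 2) ^ 10 ≤ D0 → 0 < ε → ε ≤ 1 → 0 < A →
    ∃ X0 : ℝ, ∀ x : ℝ, X0 ≤ x → ∀ (h : κ → ℕ) (W v : ℕ), SetN D0 h W →
      (W : ℝ) ≤ Real.log x ^ A → (∀ i, (h i : ℝ) ≤ Real.log x ^ A) →
      ∀ (y Y : (PS (lev x) W → Option κ) → ℝ) (E : ℝ),
      (∀ c, |y c| ≤ Y c) → (∀ c, Y c ≤ 1) → (∀ c c', Le c c' → Y c' ≤ Y c) →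
      (∀ c, y c ≠ 0 → T (tp (lev x) W) (supp c) ≤ 1) →
      ∑ c : PS (lev x) W → Option κ, ws (wp (lev x) W) (supp c) * Y c ^ 2 ≤ E →
      ∀ [DecidablePred (RareAt h W s ε x)],
      ∑ n ∈ (NS x W v).filter (RareAt h W s ε x),
        (1 / (n : ℝ)) * sw h (lam (wp (lev x) W) y) n ≤
        Fintype.card κ * ((9 * (Real.log (1 / ε) + C)) ^ s / s.factorial) *
          (Real.log x / (2 * W) * E) + 2

end Pool.Agent.Helper66.PU

end

section

set_option autoImplicit false

open Finset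

open ArithmeticFunction (cardFactors)

namespace Pool.Agent.Helper4.PU

open Pool.Agent.Helper1.MT

open Pool.Agent.Helper66.PV (GoodV SetN gv uv Sv RareAt)

/-- PU-R: the `n` for which some `n + h i` has many prime factors contribute little, uniformly. -/
def RareSumU : Prop :=
  ∃ C : ℝ, 0 < C ∧ ∀ (κ : Type) [Fintype κ] [DecidableEq κ] (D0 s : ℕ) (ε A : ℝ),
    (Fintype.card κ + 2) ^ 10 ≤ D0 → 0 < ε → ε ≤ 1 → 0 < A →
    ∃ X0 : ℝ, ∀ x : ℝ, X0 ≤ x → ∀ (h : κ → ℕ) (W v : ℕ), SetN D0 h W →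
      (W : ℝ) ≤ Real.log x ^ A → (∀ i, (h i : ℝ) ≤ Real.log x ^ A) →
      ∀ (y Y : (PS (lev x) W → Option κ) → ℝ) (E : ℝ),
      (∀ c, |y c| ≤ Y c) → (∀ c, Y c ≤ 1) → (∀ c c', Le c c' → Y c' ≤ Y c) →
      (∀ c, y c ≠ 0 → T (tp (lev x) W) (supp c) ≤ 1) →
      ∑ c : PS (lev x) W → Option κ, ws (wp (lev x) W) (supp c) * Y c ^ 2 ≤ E →
      ∀ [DecidablePred (RareAt h W s ε x)],
      ∑ n ∈ (NS x W v).filter (RareAt h W s ε x),
        (1 / (n : ℝ)) * sw h (lam (wp (lev x) W) y) n ≤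
        Fintype.card κ * ((9 * (Real.log (1 / ε) + C)) ^ s / s.factorial) *
          (Real.log x / (2 * W) * E) + 2

end Pool.Agent.Helper4.PU

end

section

set_option autoImplicit false

open Finset

namespace Pool.Agent.Helper66.PU

open Pool.Agent.Helper1.MT

theorem weightPS : Pool.Agent.Helper4.PU.WeightPS := by
  obtain ⟨C, hC, hP⟩ := Pool.Agent.Helper83.MT.prod_bound
  refine ⟨C, hC, ?_⟩
  intro κ _ _ R W h y n r hR hy hn hr
  have hb : ∀ c : PS R W → Option κ, |lam (wp R W) y c| ≤ (C * Real.log R) ^ Fintype.card κ :=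
    fun c => (Pool.Agent.Helper83.MT.abs_lam_le (wp_nonneg' R W) hy c).trans
      (hP (Fintype.card κ) W R (by omega))
  have hB : 0 ≤ (C * Real.log R) ^ Fintype.card κ :=
    (abs_nonneg _).trans (hb (fun _ => none))
  unfold sw
  classical
  rw [← sq_abs]
  refine pow_le_pow_left₀ (abs_nonneg _) ?_ 2
  refine (Finset.abs_sum_le_sum_abs _ _).trans ?_
  refine (Finset.sum_le_card_nsmul _ _ _ fun c _ => hb c).trans ?_
  rw [nsmul_eq_mul]
  refine mul_le_mul_of_nonneg_right ?_ hB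
  have h1 := card_Dv_le R W h n r hr
    (univ.filter (fun c : PS R W → Option κ => Dv h c n)) (fun c hc => (Finset.mem_filter.1 hc).2)
  refine le_trans (le_of_eq ?_) (show ((univ.filter
    (fun c : PS R W → Option κ => Dv h c n)).card : ℝ) ≤ 2 ^ (Fintype.card κ * r) by
      exact_mod_cast h1)
  congr

end Pool.Agent.Helper66.PU

end

section

set_option autoImplicit false

open Finset Filter

namespace Pool.Agent.Helper4.PL

open Pool.Agent.Helper1.MT

open Pool.Agent.Helper66.PAP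

/-- The harmonic sum of the `n` with a square divisor. -/
theorem square_harm : ∃ C : ℝ, 0 < C ∧ ∀ (κ : Type) [Fintype κ] (h : κ → ℕ) (R W v : ℕ)
    (ε x : ℝ), 3 ≤ R → (R : ℝ) ≤ x ^ (1 / 81 : ℝ) → 9 ≤ x →
    ∀ [DecidablePred (Sqr h R W ε)],
    ∑ n ∈ (NS x W v).filter (Sqr h R W ε), (1 : ℝ) / n ≤
      Fintype.card κ * (Real.log x * (Real.log (Real.log R) + C) / (R : ℝ) ^ ε +
        8 * R / x ^ (1 / 2 : ℝ)) := by
  classical
  obtain ⟨C, hC, hsum⟩ := sum_inv_small
  refine ⟨C, hC, ?_⟩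
  intro κ _ h R W v ε x hR3 hRx hx9 _
  have hx0 : (0 : ℝ) < x := by (clear * - hx9; linarith)
  have hx1 : (1 : ℝ) ≤ x := by (clear * - hx9; linarith)
  have hRr : (3 : ℝ) ≤ R := by exact_mod_cast hR3
  have hR0 : (0 : ℝ) < R := by (clear * - hRr; linarith)
  have hlogR : 0 < Real.log R := Real.log_pos (by (clear * - hRr; linarith))
  have hlogx : 0 ≤ Real.log x := Real.log_nonneg hx1
  refine (square_union h R W v ε x).trans ?_
  rw [← nsmul_eq_mul, ← Finset.card_univ, ← Finset.sum_const]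
  refine Finset.sum_le_sum fun i _ => ?_
  have hone : ∀ q ∈ univ.filter (fun q : PS R W => ε < tp R W q),
      ∑ n ∈ (NS x W v).filter (fun n => (q : ℕ) ^ 2 ∣ n + h i), (1 : ℝ) / n ≤
        Real.log x / (R : ℝ) ^ ε * (1 / ((q : ℕ) : ℝ)) + 4 / x ^ (1 / 2 : ℝ) := by
    intro q hq
    rw [mem_filter] at hq
    have hq2 := hq.2
    have hqp := PS_prime q
    have hq0 : (0 : ℝ) < ((q : ℕ) : ℝ) := by exact_mod_cast hqp.pos
    unfold tp at hq2
    rw [lt_div_iff₀ hlogR, ← Real.log_rpow hR0] at hq2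
    have hq3 : (R : ℝ) ^ ε ≤ ((q : ℕ) : ℝ) :=
      ((Real.log_lt_log_iff (Real.rpow_pos_of_pos hR0 _) hq0).1 hq2).le
    have hqR : ((q : ℕ) : ℝ) ≤ R := by exact_mod_cast PS_le q
    have h1 := sum_dvd_le hx9 W v (h i) ((q : ℕ) ^ 2) (pow_pos hqp.pos 2) (by
      push_cast
      calc ((q : ℕ) : ℝ) ^ 2 ≤ (x ^ (1 / 81 : ℝ)) ^ 2 :=
            pow_le_pow_left₀ hq0.le (hqR.trans hRx) 2
        _ = x ^ (2 / 81 : ℝ) := by
            rw [← Real.rpow_natCast, ← Real.rpow_mul hx0.le]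
            norm_num
        _ ≤ x ^ (1 / 2 : ℝ) := Real.rpow_le_rpow_of_exponent_le hx1 (by norm_num))
    refine h1.trans ?_
    gcongr ?_ + _
    have hRe : 0 < (R : ℝ) ^ ε := Real.rpow_pos_of_pos hR0 _
    push_cast
    rw [div_mul_div_comm, mul_one, div_le_div_iff₀ (by (clear * - hq0; positivity)) (by (clear * - hR3 hq0; positivity))]
    have h2 : (R : ℝ) ^ ε * ((q : ℕ) : ℝ) ≤ 2 * ((q : ℕ) : ℝ) ^ 2 := by (clear * - hq3; nlinarith)
    exact mul_le_mul_of_nonneg_left h2 hlogx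
  refine (Finset.sum_le_sum hone).trans ?_
  rw [Finset.sum_add_distrib, ← Finset.mul_sum, Finset.sum_const, nsmul_eq_mul]
  apply add_le_add
  · have h2 : ∑ q ∈ univ.filter (fun q : PS R W => ε < tp R W q), 1 / ((q : ℕ) : ℝ) ≤
        Real.log (Real.log R) + C := by
      refine le_trans ?_ (hsum R W hR3)
      apply Finset.sum_le_sum_of_subset_of_nonneg (Finset.filter_subset _ _)
      intro q _ _
      (clear * -; positivity)
    calc Real.log x / (R : ℝ) ^ ε *
          ∑ q ∈ univ.filter (fun q : PS R W => ε < tp R W q), 1 / ((q : ℕ) : ℝ)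
        ≤ Real.log x / (R : ℝ) ^ ε * (Real.log (Real.log R) + C) := by
          apply mul_le_mul_of_nonneg_left h2
          (clear * - hlogx hR3; positivity)
      _ = _ := by ring
  · have h2 : ((univ.filter (fun q : PS R W => ε < tp R W q)).card : ℝ) ≤ 2 * R := by
      have h3 : (univ.filter (fun q : PS R W => ε < tp R W q)).card ≤ R + 1 :=
        (Finset.card_le_univ _).trans (card_PS_le R W)
      have h4 : ((univ.filter (fun q : PS R W => ε < tp R W q)).card : ℝ) ≤ R + 1 := by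
        exact_mod_cast h3
      (clear * - hRr h4; linarith)
    calc ((univ.filter (fun q : PS R W => ε < tp R W q)).card : ℝ) * (4 / x ^ (1 / 2 : ℝ))
        ≤ 2 * R * (4 / x ^ (1 / 2 : ℝ)) := by
          apply mul_le_mul_of_nonneg_right h2
          positivity
      _ = 8 * R / x ^ (1 / 2 : ℝ) := by ring

end Pool.Agent.Helper4.PL

end

section

set_option autoImplicit false

open Finset Filter

namespace Pool.Agent.Helper4.PL

open Pool.Agent.Helper1.MT

open Pool.Agent.Helper66.PAP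

open Pool.Agent.Helper66.PV (oW RareAt SetN)

/-- The number of the prime factors of `m` outside `W`, with multiplicity. -/
theorem oW_le {R W m s : ℕ} {ε : ℝ} (hR : 2 ≤ R) (hm : m ≠ 0) (hmR : m ≤ R ^ 164)
    (hbig : ∀ q : PS R W, (q : ℕ) ∣ m → (R : ℝ) ^ ε < ((q : ℕ) : ℝ))
    (hfew : (lps R W ε m).card < 6 * s)
    (hsq : ∀ q : PS R W, (q : ℕ) ∣ m → ¬ (q : ℕ) ^ 2 ∣ m) :
    oW W m ≤ 6 * s + 164 := by
  classical
  unfold oW
  have h1 : ∑ p ∈ m.primeFactors.filter (fun p => ¬ p ∣ W), m.factorization p ≤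
      ∑ p ∈ lps R W ε m ∪ m.primeFactors.filter (fun p => R < p), m.factorization p := by
    apply Finset.sum_le_sum_of_subset
    intro p hp
    rw [mem_filter] at hp
    have hpp := Nat.prime_of_mem_primeFactors hp.1
    have hpm := Nat.dvd_of_mem_primeFactors hp.1
    rw [Finset.mem_union]
    by_cases hpR : R < p
    · exact Or.inr (mem_filter.2 ⟨hp.1, hpR⟩)
    · have hmem : p ∈ PS R W := mem_PS.2 ⟨not_lt.1 hpR, hpp, hp.2⟩
      refine Or.inl ?_
      unfold lps
      rw [mem_filter]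
      exact ⟨hmem, hpm, hbig ⟨p, hmem⟩ hpm⟩
  have h2 := exp_large hR hm hmR
  have h3 : ∑ p ∈ lps R W ε m, m.factorization p ≤ (lps R W ε m).card := by
    rw [Finset.card_eq_sum_ones]
    refine Finset.sum_le_sum fun p hp => ?_
    unfold lps at hp
    rw [mem_filter] at hp
    have h4 := hsq ⟨p, hp.1⟩ hp.2.1
    by_contra hcon
    push Not at hcon
    exact h4 ((pow_dvd_pow p hcon).trans (Nat.ordProj_dvd m p))
  have h4 : ∑ p ∈ lps R W ε m ∪ m.primeFactors.filter (fun p => R < p), m.factorization p ≤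
      ∑ p ∈ lps R W ε m, m.factorization p +
        ∑ p ∈ m.primeFactors.filter (fun p => R < p), m.factorization p := by
    rw [← Finset.sum_union_inter]
    exact Nat.le_add_right _ _
  omega

end Pool.Agent.Helper4.PL

end

section

set_option autoImplicit false

open Finset Filter

namespace Pool.Agent.Helper4.PU

open Pool.Agent.Helper1.MT

open Pool.Agent.Helper4.PL (Many)

/-- As `Pool.Agent.Helper4.PL.many_sum` (from `many_core`), with `X0` independent of `h`, `W`, `v`: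
only the facts `e2` (`W x^(1/5) ≤ x^(23/54)`) and `e4` (`x + h i < x^(6/5)`) depend on them, use
`Real.log x ^ A ≤ x ^ (1/10)` for large `x`. -/
theorem many_sumU (hE : Expand) : ∃ C : ℝ, 0 < C ∧ ∀ (κ : Type) [Fintype κ] [DecidableEq κ]
    (D0 s : ℕ) (ε A : ℝ), Fintype.card κ ≤ D0 → 0 < ε → ε ≤ 1 → 0 < A →
    ∃ X0 : ℝ, ∀ x : ℝ, X0 ≤ x → ∀ (h : κ → ℕ) (W v : ℕ), 0 < W →
    (∀ p : ℕ, p.Prime → p < D0 → p ∣ W) →
    (∀ i j, i ≠ j → ∀ p : ℕ, p.Prime → (p : ℤ) ∣ (h i : ℤ) - h j → p ∣ W) →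
    (W : ℝ) ≤ Real.log x ^ A → (∀ i, (h i : ℝ) ≤ Real.log x ^ A) →
      ∀ (y Y : (PS (lev x) W → Option κ) → ℝ) (E : ℝ), (∀ c, |y c| ≤ Y c) → (∀ c, Y c ≤ 1) →
        (∀ c c', Le c c' → Y c' ≤ Y c) →
        (∀ c, y c ≠ 0 → T (tp (lev x) W) (supp c) ≤ 3) →
        ∑ c, ws (wp (lev x) W) (supp c) * Y c ^ 2 ≤ E →
        ∀ [DecidablePred (Many h (lev x) W ε s)],
        ∑ n ∈ (NS x W v).filter (Many h (lev x) W ε s),
          (1 / (n : ℝ)) * sw h (lam (wp (lev x) W) y) n ≤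
        Fintype.card κ * ((9 * (Real.log (1 / ε) + C)) ^ s / (s.factorial : ℝ)) *
          (Real.log x / (2 * W) * E) + 1 := by
  classical
  obtain ⟨C, hC, hlarge⟩ := Pool.Agent.Helper4.AR.large_sum
  refine ⟨C, hC, ?_⟩
  intro κ _ _ D0 s ε A hD hε0 hε1 _
  obtain ⟨X1, hX1⟩ := eventually_atTop.1
    (Pool.Agent.Helper4.PL.many_ev (Fintype.card κ) 1 s hε0 (fun _ : κ => 0))
  obtain ⟨X2, hX2⟩ := eventually_atTop.1 (many_evU A)
  refine ⟨max X1 X2, fun x hx h W v hW hsm hdiff hWA hhA y Y E hyY hY1 hanti hT hYE _ => ?_⟩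
  obtain ⟨e1, _, e3, _, e5, e6, e7, e8⟩ := hX1 x ((le_max_left _ _).trans hx)
  obtain ⟨a1, a2, a3⟩ := hX2 x ((le_max_right _ _).trans hx)
  have hx0 : (0 : ℝ) < x := by (clear * - e8; linarith)
  have hRx : (lev x : ℝ) ≤ x ^ (1 / 81 : ℝ) := Nat.floor_le (by positivity)
  have hRr : (3 : ℝ) ≤ lev x := by exact_mod_cast e7
  have hR0 : (0 : ℝ) < lev x := by (clear * - hRr; linarith)
  have hlogR : 0 < Real.log (lev x) := Real.log_pos (by (clear * - hRr; linarith))
  have e2 : (W : ℝ) * x ^ (1 / 5 : ℝ) ≤ x ^ (23 / 54 : ℝ) := by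
    calc (W : ℝ) * x ^ (1 / 5 : ℝ) ≤ x ^ (1 / 10 : ℝ) * x ^ (1 / 5 : ℝ) :=
          mul_le_mul_of_nonneg_right (hWA.trans a1) (by positivity)
      _ = x ^ (3 / 10 : ℝ) := by rw [← Real.rpow_add hx0]; norm_num
      _ ≤ x ^ (23 / 54 : ℝ) := Real.rpow_le_rpow_of_exponent_le a3 (by norm_num)
  have e4 : ∀ i, x + h i < (x ^ (1 / 5 : ℝ)) ^ 6 := by
    intro i
    have h2 : (x ^ (1 / 5 : ℝ)) ^ 6 = x * x ^ (1 / 5 : ℝ) := by
      have h3 : (x ^ (1 / 5 : ℝ)) ^ 5 = x := by
        rw [← Real.rpow_natCast, ← Real.rpow_mul hx0.le]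
        norm_num
      rw [pow_succ, h3]
    have h4 : (h i : ℝ) ≤ x := by
      calc (h i : ℝ) ≤ x ^ (1 / 10 : ℝ) := (hhA i).trans a1
        _ ≤ x ^ (1 : ℝ) := Real.rpow_le_rpow_of_exponent_le a3 (by norm_num)
        _ = x := Real.rpow_one x
    rw [h2]
    (clear * - e8 a2 h4; nlinarith)
  refine Pool.Agent.Helper4.PL.many_core hE hD hW hsm hdiff e8 e7 hRx ?_ e1 e2 e3 e4 e5 ?_ y Y E
    hyY hY1 hanti hT hYE
  · have : 0 ≤ Real.log (1 / ε) := Real.log_nonneg (by
      rw [le_div_iff₀ hε0]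
      (clear * - hε1; linarith))
    (clear * - hC this; linarith)
  · have h1 := hlarge ((lev x : ℝ) ^ ε) (lev x) e6 (by
      calc (lev x : ℝ) ^ ε ≤ (lev x : ℝ) ^ (1 : ℝ) :=
            Real.rpow_le_rpow_of_exponent_le (by (clear * - hRr; linarith)) hε1
        _ = lev x := Real.rpow_one _) s
        (Pool.Agent.Helper4.PL.sets (lev x) W ε (x ^ (1 / 5 : ℝ)) s) (by
      intro B hB
      obtain ⟨hB1, hB2, hB3, hB4⟩ := Pool.Agent.Helper4.PL.mem_sets.1 hB
      refine ⟨hB2, fun p hp => ⟨(Pool.Agent.Helper66.PAP.mem_PS.1 (hB1 hp)).2.1, hB3 p hp, ?_⟩⟩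
      exact_mod_cast (Pool.Agent.Helper66.PAP.mem_PS.1 (hB1 hp)).1)
    have h2 : Real.log (lev x) / Real.log ((lev x : ℝ) ^ ε) = 1 / ε := by
      rw [Real.log_rpow hR0]
      (clear * - hlogR hε0; field_simp)
    rw [h2] at h1
    exact h1

end Pool.Agent.Helper4.PU

end

section

set_option autoImplicit false

open Finset Filter

namespace Pool.Agent.Helper4.PU

open Pool.Agent.Helper1.MT

open Pool.Agent.Helper4.PL (Sqr)

/-- As `Pool.Agent.Helper4.PL.square_sum` (from `square_harm` and `square_ev`), with `WeightPS` in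
place of `WeightLe` and `X0` independent of `h`, `W`, `v`. -/
theorem square_sumU (hWt : WeightPS) (κ : Type) [Fintype κ] [DecidableEq κ] (r : ℕ) {ε : ℝ}
    (hε0 : 0 < ε) : ∃ X0 : ℝ, ∀ x : ℝ, X0 ≤ x → ∀ (h : κ → ℕ) (W v : ℕ)
      (y : (PS (lev x) W → Option κ) → ℝ), (∀ c, |y c| ≤ 1) →
        ∀ [DecidablePred (fun n => (∀ i, ((PS (lev x) W).filter (fun p => p ∣ n + h i)).card ≤ r) ∧
          Sqr h (lev x) W ε n)],
        ∑ n ∈ (NS x W v).filter (fun n =>
            (∀ i, ((PS (lev x) W).filter (fun p => p ∣ n + h i)).card ≤ r) ∧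
            Sqr h (lev x) W ε n),
          (1 / (n : ℝ)) * sw h (lam (wp (lev x) W) y) n ≤ 1 := by
  classical
  obtain ⟨Cw, hCw, hWt⟩ := hWt
  obtain ⟨C, hC, hharm⟩ := Pool.Agent.Helper4.PL.square_harm
  have hM : (0 : ℝ) < ((2 : ℝ) ^ (Fintype.card κ * r) * Cw ^ Fintype.card κ) ^ 2 *
      (Fintype.card κ + 1) := by (clear * - hCw; positivity)
  obtain ⟨X0, hX0⟩ := eventually_atTop.1
    ((Pool.Agent.Helper4.PL.square_ev hC hε0 hM (Fintype.card κ)).and
    ((lev_tendsto.eventually_ge_atTop 3).and (eventually_ge_atTop (9 : ℝ))))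
  refine ⟨X0, fun x hx h W v y hy _ => ?_⟩
  obtain ⟨e1, e2, e3⟩ := hX0 x hx
  have hx0 : (0 : ℝ) < x := by (clear * - e3; linarith)
  have hRx : (lev x : ℝ) ≤ x ^ (1 / 81 : ℝ) := Nat.floor_le (by positivity)
  have hRr : (3 : ℝ) ≤ lev x := by exact_mod_cast e2
  have hlogR : 0 < Real.log (lev x) := Real.log_pos (by (clear * - hRr; linarith))
  have h1 := hharm κ h (lev x) W v ε x e2 hRx e3
  have hpt : ∀ n ∈ (NS x W v).filter (fun n =>
      (∀ i, ((PS (lev x) W).filter (fun p => p ∣ n + h i)).card ≤ r) ∧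
      Sqr h (lev x) W ε n), (1 / (n : ℝ)) * sw h (lam (wp (lev x) W) y) n ≤
      ((2 : ℝ) ^ (Fintype.card κ * r) * Cw ^ Fintype.card κ) ^ 2 *
        Real.log (lev x) ^ (2 * Fintype.card κ) * (1 / (n : ℝ)) := by
    intro n hn
    rw [mem_filter] at hn
    have hn0 : 0 < n := by
      have h2 := hn.1
      unfold NS at h2
      rw [mem_filter, mem_Ioc] at h2
      omega
    have h3 := hWt κ (lev x) W h y n r e2 hy hn0 hn.2.1
    rw [mul_comm]
    apply mul_le_mul_of_nonneg_right _ (by positivity)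
    refine h3.trans (le_of_eq ?_)
    ring
  refine (Finset.sum_le_sum hpt).trans ?_
  rw [← Finset.mul_sum]
  have h2 : ∑ n ∈ (NS x W v).filter (fun n =>
      (∀ i, ((PS (lev x) W).filter (fun p => p ∣ n + h i)).card ≤ r) ∧
      Sqr h (lev x) W ε n), (1 : ℝ) / n ≤
      ∑ n ∈ (NS x W v).filter (Sqr h (lev x) W ε), (1 : ℝ) / n := by
    apply Finset.sum_le_sum_of_subset_of_nonneg
    · intro n hn
      rw [mem_filter] at hn ⊢
      exact ⟨hn.1, hn.2.2⟩
    · intro n _ _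
      (clear * -; positivity)
  have h3 := h2.trans h1
  set Z : ℝ := Real.log x * (Real.log (Real.log (lev x)) + C) / (lev x : ℝ) ^ ε +
        8 * lev x / x ^ (1 / 2 : ℝ) with hZ
  have hcK : (0 : ℝ) ≤ Fintype.card κ := Nat.cast_nonneg _
  by_cases hZ0 : 0 ≤ Z
  · calc ((2 : ℝ) ^ (Fintype.card κ * r) * Cw ^ Fintype.card κ) ^ 2 *
        Real.log (lev x) ^ (2 * Fintype.card κ) *
        ∑ n ∈ (NS x W v).filter (fun n =>
          (∀ i, ((PS (lev x) W).filter (fun p => p ∣ n + h i)).card ≤ r) ∧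
          Sqr h (lev x) W ε n), (1 : ℝ) / n
        ≤ ((2 : ℝ) ^ (Fintype.card κ * r) * Cw ^ Fintype.card κ) ^ 2 *
          Real.log (lev x) ^ (2 * Fintype.card κ) * ((Fintype.card κ + 1) * Z) := by
          apply mul_le_mul_of_nonneg_left _ (by (clear * - hCw hlogR; positivity))
          refine h3.trans ?_
          apply mul_le_mul_of_nonneg_right _ hZ0
          (clear * -; linarith)
      _ = ((2 : ℝ) ^ (Fintype.card κ * r) * Cw ^ Fintype.card κ) ^ 2 *
            (Fintype.card κ + 1) * Real.log (lev x) ^ (2 * Fintype.card κ) * Z := by ring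
      _ ≤ 1 := e1
  · push Not at hZ0
    have h4 : ∑ n ∈ (NS x W v).filter (fun n =>
        (∀ i, ((PS (lev x) W).filter (fun p => p ∣ n + h i)).card ≤ r) ∧
        Sqr h (lev x) W ε n), (1 : ℝ) / n ≤ 0 :=
      h3.trans (mul_nonpos_of_nonneg_of_nonpos hcK hZ0.le)
    refine le_trans ?_ zero_le_one
    exact mul_nonpos_of_nonneg_of_nonpos (by positivity) h4

end Pool.Agent.Helper4.PU

end

section

set_option autoImplicit false

open Finset Filter

namespace Pool.Agent.Helper4.PU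

open Pool.Agent.Helper1.MT

open Pool.Agent.Helper66.PAP (mem_PS)

open Pool.Agent.Helper66.PV (oW RareAt SetN)

open Pool.Agent.Helper4.PL (Many Sqr lps oW_le)

theorem card_PS_dvd_le {R W m s : ℕ} {ε : ℝ}
    (hbig : ∀ q : PS R W, (q : ℕ) ∣ m → (R : ℝ) ^ ε < ((q : ℕ) : ℝ))
    (hfew : (lps R W ε m).card < 6 * s) :
    ((PS R W).filter (fun p => p ∣ m)).card ≤ 6 * s := by
  classical
  have h1 : (PS R W).filter (fun p => p ∣ m) ⊆ lps R W ε m := by
    intro p hp
    rw [mem_filter] at hp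
    unfold lps
    rw [mem_filter]
    exact ⟨hp.1, hp.2, hbig ⟨p, hp.1⟩ hp.2⟩
  have h2 := Finset.card_le_card h1
  omega

theorem rareSumU (hWt : WeightPS) : RareSumU := by
  classical
  obtain ⟨C, hC, hmany⟩ := many_sumU Pool.Agent.Helper46.MT.expand
  refine ⟨C, hC, ?_⟩
  intro κ _ _ D0 s ε A hD hε0 hε1 hA
  have hD' : Fintype.card κ ≤ D0 :=
    ((Nat.le_add_right _ 2).trans (Nat.le_self_pow (by norm_num) _)).trans hD
  obtain ⟨X1, hX1⟩ := hmany κ D0 s ε A hD' hε0 hε1 hA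
  obtain ⟨X2, hX2⟩ := square_sumU hWt κ (6 * s) hε0
  have hev : ∀ᶠ x : ℝ in atTop, x + Real.log x ^ A ≤ x ^ 2 ∧
      Real.log x ≤ 82 * Real.log (lev x) ∧ 3 ≤ lev x ∧ 9 ≤ x := by
    refine Eventually.and ?_ (lev_log.and ((lev_tendsto.eventually_ge_atTop 3).and
      (eventually_ge_atTop (9 : ℝ))))
    have h2 : (fun t : ℝ => Real.log t ^ A) =o[atTop] fun t : ℝ => t ^ (1 : ℝ) :=
      isLittleO_log_rpow_rpow_atTop A one_pos
    filter_upwards [h2.bound one_pos, eventually_ge_atTop (2 : ℝ)] with x hx hx2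
    have h3 : 0 ≤ Real.log x := Real.log_nonneg (by (clear * - hx2; linarith))
    rw [Real.norm_eq_abs, Real.norm_eq_abs, abs_of_nonneg (by positivity),
      abs_of_nonneg (by positivity), one_mul, Real.rpow_one] at hx
    (clear * - hx hx2; nlinarith)
  obtain ⟨X3, hX3⟩ := eventually_atTop.1 hev
  refine ⟨max X1 (max X2 X3), fun x hx h W v hS hWA hhA y Y E hyY hY1 hanti hT hYE _ => ?_⟩
  have hx1 : X1 ≤ x := (le_max_left _ _).trans hx
  have hx2 : X2 ≤ x := (le_max_left _ _).trans ((le_max_right _ _).trans hx)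
  have hx3 : X3 ≤ x := (le_max_right _ _).trans ((le_max_right _ _).trans hx)
  obtain ⟨e1', e2, e3, e4⟩ := hX3 x hx3
  have e1 : ∀ i, x + h i ≤ x ^ 2 := fun i => by (clear * - e1' hhA; linarith [hhA i])
  have hx0 : (0 : ℝ) < x := by (clear * - e4; linarith)
  have hRr : (3 : ℝ) ≤ lev x := by exact_mod_cast e3
  have hR0 : (0 : ℝ) < lev x := by (clear * - hRr; linarith)
  have hlogR : 0 < Real.log (lev x) := Real.log_pos (by (clear * - hRr; linarith))
  have h1 := hX1 x hx1 h W v hS.W_pos hS.small hS.diff hWA hhA y Y E hyY hY1 hanti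
    (fun c hc => (hT c hc).trans (by norm_num)) hYE
  have h2 := hX2 x hx2 h W v y (fun c => (hyY c).trans (hY1 c))
  have hu : ∀ n : ℕ, 0 ≤ (1 / (n : ℝ)) * sw h (lam (wp (lev x) W) y) n := fun n => by
    unfold sw
    (clear * -; positivity)
  have hsub : (NS x W v).filter (RareAt h W s ε x) ⊆
      (NS x W v).filter (Many h (lev x) W ε s) ∪
      (NS x W v).filter (fun n => (∀ i, ((PS (lev x) W).filter (fun p => p ∣ n + h i)).card ≤
        6 * s) ∧ Sqr h (lev x) W ε n) := by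
    intro n hn
    rw [mem_filter] at hn
    obtain ⟨hnNS, hbad, i0, hi0⟩ := hn
    rw [Finset.mem_union, mem_filter, mem_filter]
    by_cases hM : Many h (lev x) W ε s n
    · exact Or.inl ⟨hnNS, hM⟩
    · refine Or.inr ⟨hnNS, ?_⟩
      have hnx : (n : ℝ) ≤ x ∧ 0 < n := by
        unfold NS at hnNS
        rw [mem_filter, mem_Ioc] at hnNS
        exact ⟨(Nat.le_floor_iff hx0.le).1 hnNS.1.2, by omega⟩
      have hne : ∀ i, n + h i ≠ 0 := fun i => by omega
      have hfew : ∀ i, (lps (lev x) W ε (n + h i)).card < 6 * s := by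
        intro i
        by_contra hcon
        push Not at hcon
        exact hM ⟨i, hcon⟩
      have hmR : ∀ i, n + h i ≤ lev x ^ 164 := by
        intro i
        have h3 : x ≤ (lev x : ℝ) ^ (82 : ℝ) := by
          rw [← Real.log_le_log_iff hx0 (Real.rpow_pos_of_pos hR0 _), Real.log_rpow hR0]
          exact e2
        have h4 : ((n + h i : ℕ) : ℝ) ≤ ((lev x ^ 164 : ℕ) : ℝ) := by
          push_cast
          calc (n : ℝ) + h i ≤ x + h i := by (clear * - hnx; linarith [hnx.1])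
            _ ≤ x ^ 2 := e1 i
            _ ≤ ((lev x : ℝ) ^ (82 : ℝ)) ^ 2 := pow_le_pow_left₀ hx0.le h3 2
            _ = (lev x : ℝ) ^ 164 := by
              rw [← Real.rpow_natCast, ← Real.rpow_mul hR0.le]
              norm_num
        exact_mod_cast h4
      have htp : ∀ i, ∀ q : PS (lev x) W, (q : ℕ) ∣ n + h i → ε < tp (lev x) W q := by
        intro i q hq
        by_contra hcon
        push Not at hcon
        exact hbad ⟨q, hcon, i, hq⟩
      have hbig : ∀ i, ∀ q : PS (lev x) W, (q : ℕ) ∣ n + h i →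
          (lev x : ℝ) ^ ε < ((q : ℕ) : ℝ) := by
        intro i q hq
        have h4 := htp i q hq
        unfold tp at h4
        rw [lt_div_iff₀ hlogR, ← Real.log_rpow hR0] at h4
        have hp0 : (0 : ℝ) < ((q : ℕ) : ℝ) := by exact_mod_cast (PS_prime q).pos
        exact (Real.log_lt_log_iff (Real.rpow_pos_of_pos hR0 _) hp0).1 h4
      refine ⟨fun i => card_PS_dvd_le (hbig i) (hfew i), ?_⟩
      by_contra hcon
      have h5 := oW_le (s := s) (by omega) (hne i0) (hmR i0) (hbig i0) (hfew i0) (by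
        intro q hq hq2
        exact hcon ⟨i0, q, htp i0 q hq, hq2⟩)
      omega
  calc ∑ n ∈ (NS x W v).filter (RareAt h W s ε x),
        (1 / (n : ℝ)) * sw h (lam (wp (lev x) W) y) n
      ≤ ∑ n ∈ (NS x W v).filter (Many h (lev x) W ε s) ∪
          (NS x W v).filter (fun n => (∀ i, ((PS (lev x) W).filter (fun p => p ∣ n + h i)).card ≤
            6 * s) ∧ Sqr h (lev x) W ε n),
        (1 / (n : ℝ)) * sw h (lam (wp (lev x) W) y) n :=
        Finset.sum_le_sum_of_subset_of_nonneg hsub fun n _ _ => hu n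
    _ ≤ ∑ n ∈ (NS x W v).filter (Many h (lev x) W ε s),
          (1 / (n : ℝ)) * sw h (lam (wp (lev x) W) y) n +
        ∑ n ∈ (NS x W v).filter (fun n => (∀ i, ((PS (lev x) W).filter
            (fun p => p ∣ n + h i)).card ≤ 6 * s) ∧ Sqr h (lev x) W ε n),
          (1 / (n : ℝ)) * sw h (lam (wp (lev x) W) y) n := by
        rw [← Finset.sum_union_inter]
        have := Finset.sum_nonneg (s := (NS x W v).filter (Many h (lev x) W ε s) ∩
          (NS x W v).filter (fun n => (∀ i, ((PS (lev x) W).filter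
            (fun p => p ∣ n + h i)).card ≤ 6 * s) ∧ Sqr h (lev x) W ε n)) (fun n _ => hu n)
        (clear * - this; linarith)
    _ ≤ _ := by linarith

end Pool.Agent.Helper4.PU

end

section

set_option autoImplicit false

open Finset

namespace Pool.Agent.Helper4.PU

/-- The rare integers. -/
theorem rareSum66 : Pool.Agent.Helper66.PU.RareSumU :=
  rareSumU Pool.Agent.Helper66.PU.weightPS

end Pool.Agent.Helper4.PU

end

section

set_option autoImplicit false

open Finset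

namespace Pool.Agent.Helper56.PU

open Pool.Agent.Helper1.MT Pool.Agent.Helper28.MT Pool.Agent.Helper81.MT

/-- PU-O. -/
theorem oneDimW : Pool.Agent.Helper66.PU.OneDimW := by
  obtain ⟨C, hC, hS⟩ := Pool.Agent.Helper63.MT.sqfreeSumU
  intro K J D0 A hK hJ hD hA
  have hκ : 0 < Kp K J := by
    have : 0 < K := hK
    unfold Kp
    (clear * - hK; positivity)
  -- the condition on x
  have hx : ∀ᶠ x : ℝ in Filter.atTop, 3 ≤ lev x ∧
      160 * Kp K J * (C + 1) * (1 + A * Real.log (Real.log x)) ^ 3 ≤ Real.log (lev x) := by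
    have h1 : ∀ᶠ x : ℝ in Filter.atTop, (3 : ℝ) ≤ x ^ (1 / 81 : ℝ) - 1 :=
      ((tendsto_rpow_atTop (by norm_num : (0 : ℝ) < 1 / 81)).eventually_ge_atTop 4).mono
        fun x hx => by (clear * - hx; linarith)
    have h2 : ∀ᶠ x : ℝ in Filter.atTop,
        160 * Kp K J * (C + 1) * (1 + A * Real.log (Real.log x)) ^ 3 ≤
          1 / 81 * Real.log x - 1 := by
      have h3 : (fun y : ℝ => 160 * Kp K J * (C + 1) * (1 + A) ^ 3 * Real.log y ^ 3 + 1)
          =o[Filter.atTop] fun y : ℝ => y := by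
        refine Asymptotics.IsLittleO.add ?_ (Asymptotics.isLittleO_const_id_atTop _)
        exact (Real.isLittleO_pow_log_id_atTop (n := 3)).const_mul_left _
      have h4 := (h3.bound (by norm_num : (0 : ℝ) < 1 / 81))
      have h5 := Real.tendsto_log_atTop.eventually
        (h4.and (Filter.eventually_ge_atTop (Real.exp 1)))
      filter_upwards [h5] with x hx
      obtain ⟨h6, h7⟩ := hx
      have h70 : 0 < Real.log x := lt_of_lt_of_le (Real.exp_pos 1) h7
      rw [Real.norm_eq_abs, Real.norm_eq_abs, abs_of_nonneg h70.le] at h6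
      have h8 := (abs_le.1 h6).2
      have h9 : 1 ≤ Real.log (Real.log x) := by
        rw [Real.le_log_iff_exp_le h70]
        exact h7
      have h10 : (1 + A * Real.log (Real.log x)) ^ 3 ≤ ((1 + A) * Real.log (Real.log x)) ^ 3 := by
        apply pow_le_pow_left₀ (by positivity)
        (clear * - h9; nlinarith)
      have h11 : 160 * Kp K J * (C + 1) * (1 + A * Real.log (Real.log x)) ^ 3 ≤
          160 * Kp K J * (C + 1) * ((1 + A) * Real.log (Real.log x)) ^ 3 :=
        mul_le_mul_of_nonneg_left h10 (by positivity)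
      have h12 : 160 * Kp K J * (C + 1) * ((1 + A) * Real.log (Real.log x)) ^ 3 =
          160 * Kp K J * (C + 1) * (1 + A) ^ 3 * Real.log (Real.log x) ^ 3 := by ring
      linarith
    filter_upwards [h1, h2, Filter.eventually_ge_atTop (3 : ℝ)] with x hx1 hx2 hx3
    have hx0 : 0 < x := by (clear * - hx3; linarith)
    have hf : x ^ (1 / 81 : ℝ) - 1 < (lev x : ℝ) := by
      have := Nat.lt_floor_add_one (x ^ (1 / 81 : ℝ))
      unfold lev
      (clear * - this; linarith)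
    have h3 : (3 : ℝ) < lev x := lt_of_le_of_lt hx1 hf
    refine ⟨by exact_mod_cast h3.le, hx2.trans ?_⟩
    have h4 : x ^ (1 / 81 : ℝ) / Real.exp 1 ≤ lev x := by
      rw [div_le_iff₀ (Real.exp_pos 1)]
      have h5 : (2 : ℝ) ≤ Real.exp 1 := by (clear * -; linarith [Real.add_one_le_exp (1 : ℝ)])
      (clear * - hx1 hf h5; nlinarith)
    have h5 : 0 < x ^ (1 / 81 : ℝ) := Real.rpow_pos_of_pos hx0 _
    have h6 := Real.log_le_log (by positivity) h4
    rw [Real.log_div h5.ne' (Real.exp_pos 1).ne', Real.log_exp, Real.log_rpow hx0] at h6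
    exact h6
  obtain ⟨X0, hX0⟩ := Filter.eventually_atTop.1 hx
  refine ⟨max 3 X0, le_max_left _ _, fun x hxx W hWpos hsmall hWx => ?_⟩
  have hx3 : (3 : ℝ) ≤ x := (le_max_left _ _).trans hxx
  obtain ⟨hR3, hbig⟩ := hX0 x ((le_max_right _ _).trans hxx)
  obtain ⟨c, hc1, hc2, hc⟩ := hS W hWpos
  have hW0 : (0 : ℝ) < W := by exact_mod_cast hWpos
  have hlW0 : 0 ≤ Real.log W := Real.log_natCast_nonneg W
  have hφ := totient_ge' hWpos
  have hφ0 : 0 < (W.totient : ℝ) / W := lt_of_lt_of_le (by positivity) hφ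
  have hc0 : 1 / (8 * (1 + Real.log W)) ≤ c := by
    refine le_trans ?_ hc1
    have e1 : (W.totient : ℝ) / (4 * W) = (W.totient : ℝ) / W / 4 := by
      rw [div_div, mul_comm (4 : ℝ)]
    have e2 : 1 / (8 * (1 + Real.log W)) = 1 / (2 * (1 + Real.log W)) / 4 := by
      rw [div_div]
      congr 1
      ring
    rw [e1, e2]
    exact div_le_div_of_nonneg_right hφ (by norm_num)
  have hinv : (W : ℝ) / W.totient ≤ 2 * (1 + Real.log W) := by
    have h1 : (W : ℝ) / W.totient = ((W.totient : ℝ) / W)⁻¹ := by rw [inv_div]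
    rw [h1]
    have h2 := inv_anti₀ (by positivity) hφ
    rwa [one_div, inv_inv] at h2
  have hlogx : 1 ≤ Real.log x := by
    rw [Real.le_log_iff_exp_le (by (clear * - hx3; linarith))]
    (clear * - hx3; linarith [Real.exp_one_lt_d9])
  have hllx : 0 ≤ Real.log (Real.log x) := Real.log_nonneg hlogx
  have hlW : Real.log W ≤ A * Real.log (Real.log x) := by
    have h1 := Real.log_le_log hW0 hWx
    rwa [Real.log_rpow (by (clear * - hlogx; linarith))] at h1
  have hW1 : 0 < (W : ℝ) / W.totient := by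
    have h1 : (W : ℝ) / W.totient = ((W.totient : ℝ) / W)⁻¹ := by rw [inv_div]
    rw [h1]
    exact inv_pos.2 hφ0
  have hC' : 0 < C * ((W : ℝ) / W.totient) * (1 + Real.log W) := by (clear * - hC hWpos; positivity)
  have hlR : 0 ≤ Real.log (lev x) := Real.log_natCast_nonneg _
  set l := 1 + Real.log W with hl
  have hl1 : 1 ≤ l := by (clear * - hlW0; linarith)
  have hbig' : 160 * Kp K J * (C + 1) * l ^ 3 ≤ Real.log (lev x) := by
    refine le_trans ?_ hbig
    apply mul_le_mul_of_nonneg_left _ (by positivity)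
    exact pow_le_pow_left₀ (by (clear * - hlW0; linarith)) (by (clear * - hlW; linarith)) 3
  have hcR : 1 / (8 * l) * (160 * Kp K J * (C + 1) * l ^ 3) ≤ c * Real.log (lev x) :=
    mul_le_mul hc0 hbig' (by positivity) (le_trans (by positivity) hc0)
  have he : 1 / (8 * l) * (160 * Kp K J * (C + 1) * l ^ 3) = 20 * Kp K J * (C + 1) * l ^ 2 := by
    field_simp
    ring
  rw [he] at hcR
  have hl2 : 1 ≤ l ^ 2 := one_le_pow₀ hl1
  have hcond : 10 * Kp K J * (C * ((W : ℝ) / W.totient) * l) ≤ c * Real.log (lev x) := by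
    calc 10 * Kp K J * (C * ((W : ℝ) / W.totient) * l) ≤
        10 * Kp K J * ((C + 1) * (2 * l) * l) := by
          apply mul_le_mul_of_nonneg_left _ (by positivity)
          apply mul_le_mul_of_nonneg_right _ (by (clear * - hlW0; linarith))
          exact mul_le_mul (by (clear * -; linarith)) hinv hW1.le (by (clear * - hC; linarith))
      _ = 20 * Kp K J * (C + 1) * l ^ 2 := by ring
      _ ≤ c * Real.log (lev x) := hcR
  obtain ⟨g1, g2, g3, g4, g5, g6, g7⟩ := core hK hJ hD hsmall hR3 hC' hc hcond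
  refine ⟨c, hc1, hc2, g1, g2, g3, g4, g5, g6, g7, ?_⟩
  have h1 : 20 * Kp K J ≤ c * Real.log (lev x) := by
    refine le_trans ?_ hcR
    have : 1 ≤ (C + 1) * l ^ 2 := by (clear * - hl2 hC; nlinarith)
    calc 20 * Kp K J = 20 * Kp K J * 1 := by ring
      _ ≤ 20 * Kp K J * ((C + 1) * l ^ 2) := mul_le_mul_of_nonneg_left this (by (clear * - hκ; positivity))
      _ = 20 * Kp K J * (C + 1) * l ^ 2 := by ring
  calc (1 : ℝ) ≤ 9 / 10 / Kp K J * (20 * Kp K J) := by
        have : 9 / 10 / Kp K J * (20 * Kp K J) = 18 := by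
          field_simp
          norm_num
        rw [this]
        norm_num
    _ ≤ 9 / 10 / Kp K J * (c * Real.log (lev x)) := mul_le_mul_of_nonneg_left h1 (by positivity)

end Pool.Agent.Helper56.PU

end

section

set_option autoImplicit false

open Finset

namespace Pool.Agent.Helper7.PU

open Pool.Agent.Helper1.MT

open Pool.Agent.Helper28.MT

theorem tp_nonneg {R W : ℕ} (hR : 3 ≤ R) (q : PS R W) : 0 ≤ tp R W q := by
  unfold tp
  apply div_nonneg
  · exact Real.log_nonneg (by exact_mod_cast (ps_prime q).one_lt.le)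
  · exact Real.log_nonneg (by exact_mod_cast (by omega : 1 ≤ R))

theorem rpow_tp {R W : ℕ} (hR : 3 ≤ R) (q : PS R W) :
    (R : ℝ) ^ tp R W q = ((q : ℕ) : ℝ) := by
  have hR0 : (0 : ℝ) < R := by
    exact_mod_cast (by omega : 0 < R)
  have hlR : 0 < Real.log R := Real.log_pos (by exact_mod_cast (by omega : 1 < R))
  have hq0 : (0 : ℝ) < ((q : ℕ) : ℝ) := by
    exact_mod_cast (ps_prime q).pos
  rw [Real.rpow_def_of_pos hR0]
  unfold tp
  rw [mul_div_cancel₀ _ hlR.ne', Real.exp_log hq0]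

/-- The sum over the sets with size in a short interval. -/
theorem interval_le {R W : ℕ} (hR : 3 ≤ R) (q : PS R W) {c b C : ℝ} (hc0 : 0 ≤ c)
    (hcb : c ≤ b) (hC : 0 ≤ C) (hG : ∀ z : ℝ, 1 ≤ z → |gg W z - c * Real.log z| ≤ C) (a : ℝ)
    (ha : a ≤ 1) :
    ∑ S ∈ (univ : Finset (Finset (PS R W))).filter
      (fun S => a - tp R W q < T (tp R W) S ∧ T (tp R W) S ≤ a), ws (wp R W) S ≤
        b * Real.log (q : ℕ) + 2 * C := by
  classical
  have ht := tp_nonneg hR q
  have hR0 : (0 : ℝ) < R := by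
    exact_mod_cast (by omega : 0 < R)
  have h1 : ∑ S ∈ (univ : Finset (Finset (PS R W))).filter
      (fun S => a - tp R W q < T (tp R W) S ∧ T (tp R W) S ≤ a), ws (wp R W) S =
      FF R W a - FF R W (a - tp R W q) := by
    unfold FF
    rw [eq_sub_iff_add_eq, ← sum_union]
    · apply sum_congr _ fun _ _ => rfl
      ext S
      simp only [mem_union, mem_filter, mem_univ, true_and]
      constructor
      · rintro (h | h)
        · exact h.2
        · (clear * - ht h; linarith)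
      · intro h
        by_cases h' : T (tp R W) S ≤ a - tp R W q
        · exact Or.inr h'
        · exact Or.inl ⟨not_le.1 h', h⟩
    · rw [disjoint_left]
      intro S hS hS'
      rw [mem_filter] at hS hS'
      exact absurd hS'.2 (not_le.2 hS.2.1)
  rw [h1, FF_eq hR ha, FF_eq hR (by (clear * - ha ht; linarith))]
  refine gg_sub (z := (R : ℝ) ^ a) (z' := (R : ℝ) ^ (a - tp R W q)) hc0 hcb hC hG ?_ ?_ ?_
  · exact_mod_cast (ps_prime q).one_lt.le
  · exact Real.rpow_pos_of_pos hR0 _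
  · rw [← rpow_tp hR q, ← Real.rpow_add hR0]
    congr 1
    ring

/-- One step of the step function. -/
theorem step_le {R W : ℕ} (hR : 3 ≤ R) (q : PS R W) {B th a : ℝ} (ha : 0 ≤ a)
    (hB : ∑ S ∈ (univ : Finset (Finset (PS R W))).filter
      (fun S => th - tp R W q < T (tp R W) S ∧ T (tp R W) S ≤ th), ws (wp R W) S ≤ B) :
    ∑ S : Finset (PS R W), ((if T (tp R W) S ≤ th then a else 0) -
      (if T (tp R W) S + tp R W q ≤ th then a else 0)) * ws (wp R W) S ≤ a * B := by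
  classical
  have ht := tp_nonneg hR q
  refine le_trans (le_of_eq ?_) (mul_le_mul_of_nonneg_left hB ha)
  rw [mul_sum, sum_filter]
  apply sum_congr rfl
  intro S _
  by_cases h1 : T (tp R W) S ≤ th
  · by_cases h2 : T (tp R W) S + tp R W q ≤ th
    · rw [if_pos h1, if_pos h2, if_neg (by intro h; (clear * - h2 h; linarith [h.1]))]
      ring
    · rw [if_pos h1, if_neg h2, if_pos ⟨by (clear * - h2; linarith [not_le.1 h2]), h1⟩]
      ring
  · rw [if_neg h1, if_neg (by intro h; (clear * - ht h1 h; linarith [not_le.1 h1])), if_neg (by intro h; exact h1 h.2)]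
    ring

theorem intervalSumU : Pool.Agent.Helper66.PU.IntervalSumU := by
  obtain ⟨C0, hC0, hU⟩ := Pool.Agent.Helper63.MT.sqfreeSumU
  refine ⟨2 * C0 + 1, by (clear * - hC0; linarith), ?_⟩
  intro W hW R hR q
  obtain ⟨c, hc1, hc2, hz⟩ := hU W hW
  have hW1 : (1 : ℝ) ≤ W := by exact_mod_cast hW
  have hc0 : 0 ≤ c := le_trans (by (clear * - hW; positivity)) hc1
  set C1 : ℝ := C0 * ((W : ℝ) / W.totient) * (1 + Real.log W) with hC1
  have hlW : 0 ≤ Real.log W := Real.log_nonneg hW1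
  have hC1' : 0 ≤ C1 := by (clear * - hC0 hW; positivity)
  have htot : (0 : ℝ) < W.totient := by
    exact_mod_cast Nat.totient_pos.2 hW
  have hWt : (1 : ℝ) ≤ (W : ℝ) / W.totient := by
    rw [one_le_div htot]
    exact_mod_cast Nat.totient_le W
  have hCC : 2 * C1 + 1 ≤ (2 * C0 + 1) * ((W : ℝ) / W.totient) * (1 + Real.log W) := by
    have h1 : (1 : ℝ) ≤ ((W : ℝ) / W.totient) * (1 + Real.log W) :=
      one_le_mul_of_one_le_of_one_le hWt (by (clear * - hlW; linarith))
    have h2 : (2 * C0 + 1) * ((W : ℝ) / W.totient) * (1 + Real.log W) =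
        2 * C1 + ((W : ℝ) / W.totient) * (1 + Real.log W) := by
      rw [hC1]
      ring
    rw [h2]
    (clear * - h1; linarith)
  set D : ℝ := (2 * C0 + 1) * ((W : ℝ) / W.totient) * (1 + Real.log W) with hD
  have key : ∀ a : ℝ, a ≤ 1 → ∑ S ∈ (univ : Finset (Finset (PS R W))).filter
      (fun S => a - tp R W q < T (tp R W) S ∧ T (tp R W) S ≤ a), ws (wp R W) S ≤
        (W.totient : ℝ) / W * Real.log (q : ℕ) + D := by
    intro a ha
    have := interval_le hR q hc0 hc2 hC1' hz a ha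
    (clear * - hCC this; linarith)
  refine ⟨key, ?_⟩
  intro K J hK hJK
  classical
  set B : ℝ := (W.totient : ℝ) / W * Real.log (q : ℕ) + D with hB
  have hKp : 0 < Kp K J := by
    unfold Kp
    (clear * - hK; positivity)
  have hth : ∀ j ≤ J, (2 : ℝ) ^ j / Kp K J ≤ 1 := by
    intro j hj
    refine (thr_mono hKp hj).trans ?_
    rw [div_le_one hKp]
    unfold Kp
    have h1 : ((10 * 2 ^ J : ℕ) : ℝ) ≤ ((8 * K * (J + 2) : ℕ) : ℝ) := by
      exact_mod_cast hJK
    push_cast at h1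
    have h2 : (0 : ℝ) < 2 ^ J := by positivity
    (clear * - h1 h2; linarith)
  have hT : ∀ S : Finset (PS R W), T (tp R W) (insert q S) ≤ T (tp R W) S + tp R W q := by
    intro S
    by_cases hq : q ∈ S
    · rw [insert_eq_of_mem hq]
      (clear * - hR; linarith [tp_nonneg hR q])
    · unfold T
      rw [sum_insert hq]
      (clear * -; linarith)
  have h1 : ∀ S : Finset (PS R W), (gam K J S ^ 2 - gam K J (insert q S) ^ 2) * ws (wp R W) S ≤
      (∑ j ∈ range J, ((if T (tp R W) S ≤ 2 ^ j / Kp K J then (3 / 4 : ℝ) * (1 / 4) ^ j else 0) -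
          (if T (tp R W) S + tp R W q ≤ 2 ^ j / Kp K J then (3 / 4 : ℝ) * (1 / 4) ^ j else 0)) *
            ws (wp R W) S) +
        ((if T (tp R W) S ≤ 2 ^ J / Kp K J then (1 / 4 : ℝ) ^ J else 0) -
          (if T (tp R W) S + tp R W q ≤ 2 ^ J / Kp K J then (1 / 4 : ℝ) ^ J else 0)) *
            ws (wp R W) S := by
    intro S
    rw [gam_eq, gam_eq, gJ_sq hKp, gJ_sq hKp]
    have h2 := hJ_anti (Kp K J) J (hT S)
    have h3 : (hJ (Kp K J) J (T (tp R W) S) - hJ (Kp K J) J (T (tp R W) (insert q S))) *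
        ws (wp R W) S ≤ (hJ (Kp K J) J (T (tp R W) S) -
          hJ (Kp K J) J (T (tp R W) S + tp R W q)) * ws (wp R W) S :=
      mul_le_mul_of_nonneg_right (by (clear * - h2; linarith)) (ws_nonneg' S)
    refine h3.trans (le_of_eq ?_)
    unfold hJ
    rw [← sum_mul, sum_sub_distrib]
    ring
  refine (sum_le_sum fun S _ => h1 S).trans ?_
  rw [sum_add_distrib, sum_comm]
  have h4 : ∀ j ∈ range J, ∑ S : Finset (PS R W),
      ((if T (tp R W) S ≤ 2 ^ j / Kp K J then (3 / 4 : ℝ) * (1 / 4) ^ j else 0) -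
          (if T (tp R W) S + tp R W q ≤ 2 ^ j / Kp K J then (3 / 4 : ℝ) * (1 / 4) ^ j else 0)) *
            ws (wp R W) S ≤ (3 / 4 : ℝ) * (1 / 4) ^ j * B := by
    intro j hj
    exact step_le hR q (by positivity) (key _ (hth j (mem_range.1 hj).le))
  have h5 := step_le hR q (a := (1 / 4 : ℝ) ^ J) (by positivity) (key _ (hth J le_rfl))
  refine (add_le_add (sum_le_sum h4) h5).trans (le_of_eq ?_)
  rw [← sum_mul, ← add_mul, sum_quarter, one_mul]

end Pool.Agent.Helper7.PU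

end
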