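import Pool.Agent.Helper23.MT.L01_acd1
import Pool.Agent.Helper23.MT.L01_acd2
import Pool.Agent.Helper23.MT.L01_acd3
import Pool.Agent.Helper23.MT.L01_acd4
import Pool.Agent.Helper23.MT.L01_c0
import Pool.Agent.Helper23.MT.L01_c1
import Pool.Agent.Helper23.MT.L01_c2

/-!
Parts of Helper66.PV.Sum, Helper66.PV.Main, Helper66.PU.Main, Helper66.PU.Big, Helper4.PU.Exact, Helper4.PU.StarGen, Helper4.PU.SmallSets, Helper4.PU.SingCop, Helper47.PV.SumPrime, Helper96.PU.Weight
-/

namespace Pool.Agent.Helper1.MT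
end Pool.Agent.Helper1.MT
namespace Pool.Agent.Helper12.MT
end Pool.Agent.Helper12.MT
namespace Pool.Agent.Helper4.PL
end Pool.Agent.Helper4.PL
namespace Pool.Agent.Helper66.PAP
end Pool.Agent.Helper66.PAP
namespace Pool.Agent.Helper66.PV
end Pool.Agent.Helper66.PV

section

set_option autoImplicit false

open Finset Filter

namespace Pool.Agent.Helper66.PV

open Pool.Agent.Helper1.MT

/-- The weighted number of the `n` outside `Q` with many primes. -/
theorem rough_many {κ : Type} [Fintype κ] [DecidableEq κ] {K J : κ → ℕ} {I : Finset κ}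
    {D0 W v : ℕ} {h : κ → ℕ} {c1 δ1 b G x : ℝ} (hI0 : 0 < I.card) (hG0 : 0 < G)
    (hF : SieveAtV c1 K J I D0 h W v x) (hG : G ≤ ∑ m ∈ I, c1 * ((J m + 2) / K m))
    (Q : ℕ → Prop) [DecidablePred Q]
    (hbad : ∑ n ∈ (NS x W v).filter Q, uv h K J W x n ≤ δ1 * Sv K J W x + b)
    (hδ1 : I.card * δ1 ≤ G / 8)
    (hS : I.card * (1 + b) + G / 4 ≤ 3 / 8 * G * Sv K J W x) (hS0 : 0 ≤ Sv K J W x) :
    G / (4 * I.card) * Sv K J W x ≤
      ∑ n ∈ (NS x W v).filter (fun n => ¬ Q n ∧ G / 4 ≤ npI h I n), uv h K J W x n := by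
  classical
  set N := I.card with hN
  set S := Sv K J W x with hSdef
  have hNr : (0 : ℝ) < N := by exact_mod_cast hI0
  set u := uv h K J W x with hu
  have hu0 : ∀ n, 0 ≤ u n := fun n => uv_nonneg h K J W x n
  set τ := G / 4 with hτ
  have hτ0 : 0 < τ := by positivity
  have hnp : ∀ n, (npI h I n : ℝ) ≤ N := by
    intro n
    have h1 : npI h I n ≤ N := by
      unfold npI
      exact Finset.card_filter_le _ _
    exact_mod_cast h1
  -- all `n`
  have hA : G * S - N ≤ ∑ n ∈ NS x W v, u n * npI h I n := by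
    have h1 : ∑ n ∈ NS x W v, u n * npI h I n =
        ∑ m ∈ I, ∑ n ∈ (NS x W v).filter (fun n => (n + h m).Prime), u n := by
      simp only [Finset.sum_filter]
      rw [Finset.sum_comm]
      refine Finset.sum_congr rfl fun n _ => ?_
      unfold npI
      rw [← Finset.sum_filter, Finset.sum_const, nsmul_eq_mul, mul_comm]
    rw [h1]
    have h2 : ∑ m ∈ I, (c1 * ((J m + 2) / K m) * S - 1) ≤
        ∑ m ∈ I, ∑ n ∈ (NS x W v).filter (fun n => (n + h m).Prime), u n :=
      Finset.sum_le_sum fun m hm => hF.prim m hm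
    rw [Finset.sum_sub_distrib, Finset.sum_const, nsmul_eq_mul, mul_one, ← Finset.sum_mul] at h2
    have h3 : G * S ≤ (∑ m ∈ I, c1 * ((J m + 2) / K m)) * S := mul_le_mul_of_nonneg_right hG hS0
    (clear * - h2 h3; linarith)
  -- the bad `n`
  have hB : ∑ n ∈ (NS x W v).filter Q, u n * npI h I n ≤ N * (δ1 * S + b) := by
    calc ∑ n ∈ (NS x W v).filter Q, u n * npI h I n ≤
        ∑ n ∈ (NS x W v).filter Q, u n * N :=
          Finset.sum_le_sum fun n _ => mul_le_mul_of_nonneg_left (hnp n) (hu0 n)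
      _ = N * ∑ n ∈ (NS x W v).filter Q, u n := by
          rw [← Finset.sum_mul, mul_comm]
      _ ≤ _ := mul_le_mul_of_nonneg_left hbad hNr.le
  have hsplit := Finset.sum_filter_add_sum_filter_not (NS x W v) Q
    (fun n => u n * npI h I n)
  set Gs := (NS x W v).filter (fun n => ¬ Q n) with hGs
  have hC : ∑ n ∈ Gs, u n * npI h I n ≤
      N * ∑ n ∈ Gs.filter (fun n => τ ≤ npI h I n), u n + τ * (S + 1) := by
    rw [← Finset.sum_filter_add_sum_filter_not Gs (fun n => τ ≤ (npI h I n : ℝ))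
      (fun n => u n * npI h I n)]
    apply add_le_add
    · rw [mul_comm, Finset.sum_mul]
      exact Finset.sum_le_sum fun n _ => mul_le_mul_of_nonneg_left (hnp n) (hu0 n)
    · calc ∑ n ∈ Gs.filter (fun n => ¬ τ ≤ (npI h I n : ℝ)), u n * npI h I n ≤
          ∑ n ∈ Gs.filter (fun n => ¬ τ ≤ (npI h I n : ℝ)), u n * τ := by
            refine Finset.sum_le_sum fun n hn => ?_
            have := (mem_filter.1 hn).2
            push Not at this
            exact mul_le_mul_of_nonneg_left this.le (hu0 n)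
        _ = τ * ∑ n ∈ Gs.filter (fun n => ¬ τ ≤ (npI h I n : ℝ)), u n := by
            rw [← Finset.sum_mul, mul_comm]
        _ ≤ τ * ∑ n ∈ NS x W v, u n := by
            apply mul_le_mul_of_nonneg_left _ hτ0.le
            apply Finset.sum_le_sum_of_subset_of_nonneg
            · exact (Finset.filter_subset _ _).trans (Finset.filter_subset _ _)
            · intro n _ _
              exact hu0 n
        _ ≤ τ * (S + 1) := mul_le_mul_of_nonneg_left hF.tot hτ0.le
  have hfil : Gs.filter (fun n => τ ≤ npI h I n) =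
      (NS x W v).filter (fun n => ¬ Q n ∧ τ ≤ npI h I n) := by
    rw [hGs, Finset.filter_filter]
  rw [hfil] at hC
  set Z := ∑ n ∈ (NS x W v).filter (fun n => ¬ Q n ∧ τ ≤ npI h I n), u n with hZ
  have hD : N * (δ1 * S) ≤ G / 8 * S := by
    calc N * (δ1 * S) = N * δ1 * S := by ring
      _ ≤ _ := mul_le_mul_of_nonneg_right hδ1 hS0
  have hE : G / 4 * S ≤ N * Z := by
    have h7 : τ * (S + 1) = G / 4 * S + τ := by rw [hτ]; ring
    have h8 : N * (δ1 * S + b) = N * (δ1 * S) + N * b := by ring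
    have h9 : (N : ℝ) * (1 + b) = N + N * b := by ring
    rw [h7] at hC
    rw [h8] at hB
    rw [h9] at hS
    (clear * - hS hA hB hsplit hC hD; linarith)
  calc G / (4 * N) * S = G / 4 * S / N := by (clear * - hI0 hG0; field_simp)
    _ ≤ Z := by
      rw [div_le_iff₀ hNr, mul_comm Z]
      exact hE

end Pool.Agent.Helper66.PV

end

section

set_option autoImplicit false

open Finset Filter

namespace Pool.Agent.Helper66.PV

open Pool.Agent.Helper1.MT

open Pool.Agent.Helper66.PAP (BadAt mem_PS)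

theorem big_of_not_bad {κ : Type} {h : κ → ℕ} {W n : ℕ} {ε x : ℝ} (hR3 : 3 ≤ lev x) (hε1 : ε ≤ 1)
    (hB : ¬ BadAt h W ε x n) (i : κ) (p : ℕ) (hp : p.Prime) (hpd : p ∣ n + h i) (hpW : ¬ p ∣ W) :
    (lev x : ℝ) ^ ε < p := by
  have hRr : (3 : ℝ) ≤ lev x := by exact_mod_cast hR3
  have hR0 : (0 : ℝ) < lev x := by (clear * - hRr; linarith)
  have hlogR : 0 < Real.log (lev x) := Real.log_pos (by (clear * - hRr; linarith))
  by_cases hpR : p ≤ lev x
  · have hmem : p ∈ PS (lev x) W := mem_PS.2 ⟨hpR, hp, hpW⟩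
    have h4 : ¬ tp (lev x) W ⟨p, hmem⟩ ≤ ε := fun h5 => hB ⟨⟨p, hmem⟩, h5, i, hpd⟩
    push Not at h4
    unfold tp at h4
    rw [lt_div_iff₀ hlogR, ← Real.log_rpow hR0] at h4
    have hp0 : (0 : ℝ) < p := by exact_mod_cast hp.pos
    exact (Real.log_lt_log_iff (Real.rpow_pos_of_pos hR0 _) hp0).1 h4
  · have h1 : (lev x : ℝ) < p := by exact_mod_cast (not_le.1 hpR)
    refine lt_of_le_of_lt ?_ h1
    calc (lev x : ℝ) ^ ε ≤ (lev x : ℝ) ^ (1 : ℝ) :=
          Real.rpow_le_rpow_of_exponent_le (by (clear * - hRr; linarith)) hε1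
      _ = lev x := Real.rpow_one _

end Pool.Agent.Helper66.PV

end

section

set_option autoImplicit false

open Finset Filter

open ArithmeticFunction (cardFactors)

namespace Pool.Agent.Helper66.PU

open Pool.Agent.Helper1.MT

open Pool.Agent.Helper66.PV

/-- The lower bound for the number of the good `n` in one class. -/
theorem count_of_sumU (hWt : WeightU) {k : ℕ} (hk : 1 ≤ k) {K J : Fin k → ℕ} {KM g : ℝ} {r : ℕ}
    (hg : 0 < g) (hK0 : ∀ i, 0 < Kp (K i) (J i)) (hKM : ∀ i, Kp (K i) (J i) ≤ KM) :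
    ∃ C : ℝ, 0 < C ∧ ∀ (I : Finset (Fin k)) (D0 : ℕ) (c1 x : ℝ) (h : Fin k → ℕ) (W v : ℕ),
      0 < W → W ≤ lev x → SieveAtV c1 K J I D0 h W v x →
      ∀ (P : ℕ → Prop) [DecidablePred P],
      (∀ n ∈ (NS x W v).filter P, ∀ i, oW W (n + h i) ≤ r) →
      g * Sv K J W x ≤ ∑ n ∈ (NS x W v).filter P, uv h K J W x n →
      C * (Real.log x / W) / ((W.totient : ℝ) / W * Real.log x) ^ k ≤
        ∑ n ∈ (NS x W v).filter P, 1 / (n : ℝ) := by
  classical
  obtain ⟨Cw, hCw, hWt⟩ := hWt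
  have hcard : Fintype.card (Fin k) = k := Fintype.card_fin k
  obtain ⟨i0⟩ : Nonempty (Fin k) := ⟨⟨0, hk⟩⟩
  have hKMp : 0 < KM := lt_of_lt_of_le (hK0 i0) (hKM i0)
  set c2 : ℝ := 9 / 40 / KM with hc2
  have hc20 : 0 < c2 := by (clear * - hKMp; positivity)
  set M0 : ℝ := ((2 : ℝ) ^ (k * r) * Cw ^ k) ^ 2 with hM0
  have hM00 : 0 < M0 := by (clear * - hCw; positivity)
  set Cf : ℝ := g * (1 / 2) * c2 ^ k / M0 with hCf
  have hCf0 : 0 < Cf := by (clear * - hg hKMp hCw; positivity)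
  refine ⟨Cf, hCf0, fun I D0 c1 x h W v hW hWR hF P _ hP hsum => ?_⟩
  have hWr : (0 : ℝ) < W := by exact_mod_cast hW
  have hphi : (0 : ℝ) < W.totient := by exact_mod_cast Nat.totient_pos.2 hW
  have hx9 := hF.x9
  have hx0 : (0 : ℝ) < x := by (clear * - hx9; linarith)
  have hlogx : 0 < Real.log x := Real.log_pos (by (clear * - hx9; linarith))
  have hR3 := hF.R3
  set R := lev x with hR
  have hRr : (3 : ℝ) ≤ R := by exact_mod_cast hR3
  have hR0 : (0 : ℝ) < R := by (clear * - hRr; linarith)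
  have hlogR : 0 < Real.log R := Real.log_pos (by (clear * - hRr; linarith))
  have hlogRx : Real.log R ≤ Real.log x := by
    apply Real.log_le_log hR0
    refine hF.Rx.trans ?_
    calc x ^ (1 / 81 : ℝ) ≤ x ^ (1 : ℝ) :=
          Real.rpow_le_rpow_of_exponent_le (by (clear * - hx9; linarith)) (by norm_num)
      _ = x := Real.rpow_one x
  set q : ℝ := (W.totient : ℝ) / W * Real.log R with hq
  have hq0 : 0 < q := by (clear * - hW hlogR; positivity)
  have hqx : q ≤ (W.totient : ℝ) / W * Real.log x :=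
    mul_le_mul_of_nonneg_left hlogRx (by (clear * - hW; positivity))
  -- the weights
  have hgood : ∀ n ∈ (NS x W v).filter P,
      uv h K J W x n ≤ M0 * q ^ (2 * k) * (1 / (n : ℝ)) := by
    intro n hn
    have hno := hP n hn
    rw [mem_filter] at hn
    have hngt : R < n := NS_gt hn.1 (by (clear * - hx9; linarith))
    have hn0 : 0 < n := by omega
    have h1 := hWt (Fin k) R W h (yv (tp R W) (gv K J R W)) n r hR3 hW hWR
      (fun c => yv_abs_le hF.good c) hn0 hno
    rw [hcard] at h1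
    have h2 : uv h K J W x n = (1 / (n : ℝ)) *
        sw h (lam (wp R W) (yv (tp R W) (gv K J R W))) n := rfl
    rw [h2, mul_comm]
    apply mul_le_mul_of_nonneg_right _ (by (clear * - hn0; positivity))
    refine h1.trans (le_of_eq ?_)
    rw [hM0, hq]
    ring
  have hfin1 : ∑ n ∈ (NS x W v).filter P, uv h K J W x n ≤ M0 * q ^ (2 * k) *
      ∑ n ∈ (NS x W v).filter P, 1 / (n : ℝ) := by
    rw [Finset.mul_sum]
    exact Finset.sum_le_sum hgood
  have hfin2 := hsum.trans hfin1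
  set Z := ∑ n ∈ (NS x W v).filter P, 1 / (n : ℝ) with hZ
  have hBi : ∀ i, c2 * q ≤ Bv K J W x i := by
    intro i
    refine le_trans ?_ (hF.Blow i)
    have h1 : 9 / 40 / KM ≤ 9 / 40 / Kp (K i) (J i) :=
      div_le_div_of_nonneg_left (by norm_num) (hK0 i) (hKM i)
    exact mul_le_mul_of_nonneg_right h1 hq0.le
  have hprod : (c2 * q) ^ k ≤ ∏ i, Bv K J W x i := by
    have h1 : (c2 * q) ^ k = ∏ _i : Fin k, (c2 * q) := by
      rw [Finset.prod_const, Finset.card_univ, hcard]
    rw [h1]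
    exact Finset.prod_le_prod (fun i _ => by (clear * - hKMp hW hlogR; positivity)) fun i _ => hBi i
  have hfin3 : g * (Real.log x / (2 * W) * (c2 * q) ^ k) ≤ M0 * q ^ (2 * k) * Z := by
    refine le_trans ?_ hfin2
    apply mul_le_mul_of_nonneg_left _ hg.le
    unfold Sv
    exact mul_le_mul_of_nonneg_left hprod (by (clear * - hlogx hW; positivity))
  have hfin4 : Cf * (Real.log x / W) / q ^ k ≤ Z := by
    rw [div_le_iff₀ (by positivity)]
    have h1 : Cf * (Real.log x / W) * (M0 * q ^ k) ≤ Z * q ^ k * (M0 * q ^ k) := by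
      have hCf' : Cf * M0 = g * (1 / 2) * c2 ^ k := by
        rw [hCf]
        exact div_mul_cancel₀ _ hM00.ne'
      calc Cf * (Real.log x / W) * (M0 * q ^ k) = (Cf * M0) * (Real.log x / W * q ^ k) := by ring
        _ = g * (Real.log x / (2 * W) * (c2 * q) ^ k) := by
            rw [hCf', mul_pow c2 q k]
            generalize q ^ k = z
            generalize c2 ^ k = z'
            (clear * - hW hlogx hg; field_simp)
        _ ≤ M0 * q ^ (2 * k) * Z := hfin3
        _ = _ := by ring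
    exact le_of_mul_le_mul_right h1 (by (clear * - hCw hW hlogR; positivity))
  refine le_trans ?_ hfin4
  have h5 : q ^ k ≤ ((W.totient : ℝ) / W * Real.log x) ^ k := pow_le_pow_left₀ hq0.le hqx k
  exact div_le_div_of_nonneg_left (by (clear * - hg hKMp hCw hlogx hW; positivity)) (by (clear * - hW hlogR; positivity)) h5

end Pool.Agent.Helper66.PU

end

section

set_option autoImplicit false

set_option linter.unusedSectionVars false

open Finset Filter

open ArithmeticFunction (cardFactors)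

namespace Pool.Agent.Helper66.PU

open Pool.Agent.Helper1.MT

open Pool.Agent.Helper66.PV

open Pool.Agent.Helper66.PAP (BadAt)

/-- The expected size of the sieve sum is large, uniformly in the modulus. -/
theorem Sv_big {k : ℕ} (hk : 1 ≤ k) {K J : Fin k → ℕ} {KM : ℝ} (hK0 : ∀ i, 0 < Kp (K i) (J i))
    (hKM : ∀ i, Kp (K i) (J i) ≤ KM) {W0 : ℕ} (hW0 : 0 < W0) (M : ℝ) :
    ∀ᶠ x : ℝ in atTop, ∀ (I : Finset (Fin k)) (D0 : ℕ) (c1 : ℝ) (h : Fin k → ℕ) (W v : ℕ),
      0 < W → (W : ℝ) ≤ W0 * Real.log x → (W : ℝ) ≤ Real.log x ^ (2 : ℝ) →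
      SieveAtV c1 K J I D0 h W v x → Real.log x / (2 * W) ≤ Sv K J W x ∧ M ≤ Sv K J W x := by
  obtain ⟨i0⟩ : Nonempty (Fin k) := ⟨⟨0, hk⟩⟩
  have hKMp : 0 < KM := lt_of_lt_of_le (hK0 i0) (hKM i0)
  have hW0r : (0 : ℝ) < W0 := by exact_mod_cast hW0
  set c2 : ℝ := 9 / 40 / KM with hc2
  have hc20 : 0 < c2 := by positivity
  set M' : ℝ := max 1 M with hM'
  have hM'1 : 1 ≤ M' := le_max_left _ _
  have hM'0 : 0 < M' := by (clear * - hM'1; linarith)
  have h1 := loglog_small 1 4 (M' * (2 * W0)) (by norm_num) (by positivity)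
    (show 0 < c2 / 82 by positivity)
  filter_upwards [h1, Real.tendsto_log_atTop.eventually_ge_atTop 1] with x hx hlx
  intro I D0 c1 h W v hW hWl hW2 hF
  have hWr : (0 : ℝ) < W := by exact_mod_cast hW
  have hphi : (0 : ℝ) < W.totient := by exact_mod_cast Nat.totient_pos.2 hW
  have hlogx : 0 < Real.log x := by (clear * - hlx; linarith)
  have hll : 0 ≤ Real.log (Real.log x) := Real.log_nonneg hlx
  rw [pow_one] at hx
  -- the size of the modulus
  have hlogW : Real.log W ≤ 2 * Real.log (Real.log x) := by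
    have h2 := Real.log_le_log hWr hW2
    rwa [Real.log_rpow hlogx] at h2
  have hρ : (W : ℝ) / W.totient ≤ 1 + 4 * Real.log (Real.log x) := by
    have := div_totient_le hW
    (clear * - hlogW this; linarith)
  set y : ℝ := 1 + 4 * Real.log (Real.log x) with hy
  have hy0 : 0 < y := by (clear * - hll; positivity)
  have hρ' : 1 / y ≤ (W.totient : ℝ) / W := by
    rw [div_le_div_iff₀ hy0 hWr, one_mul]
    rw [div_le_iff₀ hphi] at hρ
    (clear * - hρ; linarith)
  -- one factor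
  have hB0 : M' * (2 * W0) ≤ Bv K J W x i0 := by
    refine le_trans ?_ (hF.Blow i0)
    have h3 : c2 ≤ 9 / 40 / Kp (K i0) (J i0) :=
      div_le_div_of_nonneg_left (by norm_num) (hK0 i0) (hKM i0)
    have h4 : Real.log x / 82 ≤ Real.log (lev x) := by
      have := hF.logx
      (clear * - this; linarith)
    calc M' * (2 * W0) ≤ c2 / 82 * Real.log x / y := by
          rw [le_div_iff₀ hy0]
          exact hx
      _ = c2 * (1 / y * (Real.log x / 82)) := by ring
      _ ≤ 9 / 40 / Kp (K i0) (J i0) * ((W.totient : ℝ) / W * Real.log (lev x)) := by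
          have h5 : 0 ≤ 9 / 40 / Kp (K i0) (J i0) := hc20.le.trans h3
          (clear * - h3 hρ' h4 hlx hW hll h5; gcongr)
  have hprod : Bv K J W x i0 ≤ ∏ i, Bv K J W x i := by
    rw [← Finset.mul_prod_erase univ _ (mem_univ i0)]
    refine le_mul_of_one_le_right (by (clear * - hF; linarith [hF.Bone i0])) ?_
    calc (1 : ℝ) = ∏ _i ∈ univ.erase i0, (1 : ℝ) := by simp
      _ ≤ ∏ i ∈ univ.erase i0, Bv K J W x i :=
        Finset.prod_le_prod (fun i _ => zero_le_one) fun i _ => hF.Bone i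
  unfold Sv
  refine ⟨le_mul_of_one_le_right (by (clear * - hlx hW; positivity)) ((hF.Bone i0).trans hprod), ?_⟩
  calc M ≤ M' := le_max_right _ _
    _ = 1 / (2 * W0) * (M' * (2 * W0)) := by (clear * - hW0 hM'1; field_simp)
    _ ≤ Real.log x / (2 * W) * ∏ i, Bv K J W x i := by
        apply mul_le_mul _ (hB0.trans hprod) (by positivity) (by (clear * - hlx hW; positivity))
        rw [div_le_div_iff₀ (by positivity) (by positivity)]
        (clear * - hWl; linarith)

end Pool.Agent.Helper66.PU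

end

section

set_option autoImplicit false

open Finset

namespace Pool.Agent.Helper4.PU

open Pool.Agent.Helper1.MT (Le supp cls ws inv pr lam Qf T V0 PS wp tp Dv NS sw Expand PS_prime PS_large)

open Pool.Agent.Helper66.PAP

open Pool.Agent.Helper4.PL

section Arith

variable {κ : Type} [Fintype κ] [DecidableEq κ] {R W : ℕ}

theorem exact_insert {z : ℝ} {A : Finset ℕ} {m : ℕ} (q : PS R W) (hqA : (q : ℕ) ∉ A)
    (hqz : ((q : ℕ) : ℝ) ≤ z) :
    Exact R W z (insert (q : ℕ) A) m ↔ (q : ℕ) ∣ m ∧ Exact R (W * (q : ℕ)) z A m := by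
  unfold Exact
  constructor
  · intro H
    refine ⟨(H q q.2 hqz).2 (Finset.mem_insert_self _ _), fun p hp hpz => ?_⟩
    rw [mem_PS_mul q] at hp
    rw [H p hp.1 hpz, Finset.mem_insert]
    constructor
    · rintro (h1 | h1)
      · exact absurd h1 hp.2
      · exact h1
    · exact fun h1 => Or.inr h1
  · rintro ⟨H1, H2⟩ p hp hpz
    by_cases hpq : p = q
    · rw [hpq]
      exact ⟨fun _ => Finset.mem_insert_self _ _, fun _ => H1⟩
    · rw [H2 p ((mem_PS_mul q).2 ⟨hp, hpq⟩) hpz, Finset.mem_insert]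
      constructor
      · exact fun h1 => Or.inr h1
      · rintro (h1 | h1)
        · exact absurd h1 hpq
        · exact h1

end Arith

/-- **PU-3.** -/
theorem sumExact (hE : Expand) (hS : StarGen) : SumExact := by
  classical
  intro κ _ _ D0 h t R x L z hD hx9 hL hKx hR3 hRx A
  have hlogx : 0 ≤ Real.log x := Real.log_nonneg (by (clear * - hx9; linarith))
  have hD1 : Fintype.card κ ≤ D0 := by omega
  have hwp0 : ∀ (W : ℕ) (p : PS R W), 0 ≤ wp R W p := by
    intro W p
    unfold wp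
    (clear * -; positivity)
  have hlogR : 0 < Real.log (R : ℝ) := Real.log_pos (by exact_mod_cast (by omega : 1 < R))
  have htp0 : ∀ (W : ℕ) (p : PS R W), 0 ≤ tp R W p := fun W p => tp_nonneg' (by omega) p
  induction A using Finset.induction_on with
  | empty =>
    intro W v hW hsm hdiff _ _ hWx b y Y E Bd hyY hYb hanti hb hT hE1 hBd _
    rw [Finset.prod_empty, mul_one] at hWx ⊢
    rw [Finset.card_empty, pow_zero, one_mul] at hb ⊢
    have hWr : (0 : ℝ) < W := by exact_mod_cast hW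
    set bad : Finset (PS R W) := univ.filter (fun p : PS R W => z < ((p : ℕ) : ℝ) ∨
      ∃ i, ((p : ℕ) : ℤ) ∣ (h i : ℤ) - t) with hbad
    obtain ⟨y', hy1, hy2, hy3, hy4⟩ := hS (PS R W) κ (wp R W) (tp R W) y b bad (hwp0 W) (htp0 W)
      (fun c => (hyY c).trans (hYb c)) hT
    obtain ⟨a, ha⟩ : ∃ a : PS R W → Finset (Option κ), ∀ p o, o ∈ a p ↔ (o = none → p ∉ bad) :=
      ⟨fun p => univ.filter (fun o => o = none → p ∉ bad), fun p o => by simp⟩
    have ha2 : ∀ p, ∀ o ∈ a p, ∀ o' ∈ a p, o ≠ o' →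
        ¬ (((p : PS R W) : ℕ) : ℤ) ∣ ((Pool.Agent.Helper1.MT.ext h t o : ℕ) : ℤ) -
          (Pool.Agent.Helper1.MT.ext h t o' : ℕ) := by
      intro p o ho o' ho' hoo
      rw [ha] at ho ho'
      cases o with
      | none =>
        cases o' with
        | none => exact absurd rfl hoo
        | some i =>
          intro hdvd
          apply ho rfl
          rw [hbad, mem_filter]
          refine ⟨mem_univ _, Or.inr ⟨i, ?_⟩⟩
          have e1 : ((h i : ℤ) - t) = - (((Pool.Agent.Helper1.MT.ext h t none : ℕ) : ℤ) -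
              (Pool.Agent.Helper1.MT.ext h t (some i) : ℕ)) := by
            simp [Pool.Agent.Helper1.MT.ext]
          rw [e1]
          exact (dvd_neg).2 hdvd
      | some i =>
        cases o' with
        | none =>
          intro hdvd
          apply ho' rfl
          rw [hbad, mem_filter]
          exact ⟨mem_univ _, Or.inr ⟨i, hdvd⟩⟩
        | some i' =>
          intro hdvd
          exact PS_not_dvd p (hdiff i i' (fun hh => hoo (by rw [hh])) p (PS_prime p) hdvd)
    have hcard : ((Fintype.card (Option κ) : ℕ) : ℝ) = (Fintype.card κ : ℝ) + 1 := by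
      rw [Fintype.card_option]
      push_cast
      rfl
    have hmain := Pool.Agent.Helper18.MT.sumGen_core hE (h := Pool.Agent.Helper1.MT.ext h t)
      (v := v) hW hx9 hL hWx (by rw [hcard]; exact hKx)
      (by omega) hRx a ha2 y' (fun c => (hy3 c).trans hb)
      (fun c hc => (hy2 c hc).1.trans (by norm_num)) (by
        intro c hc p o hpo
        rw [ha]
        intro ho hp
        rw [ho] at hpo
        exact (hy2 c hc).2 p hp hpo)
    have hG := Pool.Agent.Helper9.MT.gramUpper (PS R W) (Option κ) (wp R W) y' (hwp0 W) (by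
      intro p
      rw [hcard]
      have h1 := PS_large hsm p
      have h3 : ((Fintype.card κ : ℕ) : ℝ) + 1 ≤ ((p : ℕ) : ℝ) := by exact_mod_cast hD.trans h1
      have h4 : (0 : ℝ) < ((p : ℕ) : ℝ) := by exact_mod_cast (PS_prime p).pos
      unfold wp
      rw [mul_one_div, div_le_one h4]
      exact h3)
    -- the sum
    have h6 : ∑ n ∈ (NS x W v).filter (fun n => Exact R W z ∅ (n + t)),
        (1 / (n : ℝ)) * sw h (lam (wp R W) y) n ≤
        ∑ n ∈ NS x W v, (1 / (n : ℝ)) *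
          sw (Pool.Agent.Helper1.MT.ext h t) (lam (wp R W) y') n := by
      calc ∑ n ∈ (NS x W v).filter (fun n => Exact R W z ∅ (n + t)),
            (1 / (n : ℝ)) * sw h (lam (wp R W) y) n
          = ∑ n ∈ (NS x W v).filter (fun n => Exact R W z ∅ (n + t)), (1 / (n : ℝ)) *
              sw (Pool.Agent.Helper1.MT.ext h t) (lam (wp R W) y') n := by
            refine Finset.sum_congr rfl fun n hn => ?_
            rw [mem_filter] at hn
            rw [sw_extra bad ?_ (fun c hc => (hy2 c hc).2) hy1]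
            intro p hp
            rw [hbad, mem_filter]
            refine ⟨mem_univ _, Or.inl ?_⟩
            by_contra hcon
            push Not at hcon
            exact Finset.notMem_empty _ ((hn.2 p p.2 hcon).1 hp)
        _ ≤ _ := by
            refine Finset.sum_le_sum_of_subset_of_nonneg (Finset.filter_subset _ _)
              fun n _ _ => ?_
            unfold sw
            (clear * -; positivity)
    -- the energy
    have hV1 : 1 ≤ V0 (wp R W) (tp R W) := one_le_V0 (hwp0 W)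
    have hV0 : 0 < V0 (wp R W) (tp R W) := by (clear * - hV1; linarith)
    have hyY2 : ∑ c, ws (wp R W) (supp c) * y c ^ 2 * ∏ p ∈ supp c, (1 + wp R W p) ≤ E := by
      refine le_trans (Finset.sum_le_sum fun c _ => ?_) hE1
      have h1 : y c ^ 2 ≤ Y c ^ 2 := by
        rw [← sq_abs (y c)]
        exact pow_le_pow_left₀ (abs_nonneg _) (hyY c) 2
      have h2 : 0 ≤ ws (wp R W) (supp c) := Finset.prod_nonneg fun p _ => hwp0 W p
      have h3 : 0 ≤ ∏ p ∈ supp c, (1 + wp R W p) :=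
        Finset.prod_nonneg fun p _ => by (clear * - hwp0; linarith [hwp0 W p])
      exact mul_le_mul_of_nonneg_right (mul_le_mul_of_nonneg_left h1 h2) h3
    have hB0 : 0 ≤ ∏ p ∈ bad, (1 + wp R W p) :=
      Finset.prod_nonneg fun p _ => by (clear * - hwp0; linarith [hwp0 W p])
    have hE0 : 0 ≤ E := by
      refine le_trans (Finset.sum_nonneg fun c _ => ?_) hyY2
      exact mul_nonneg (mul_nonneg (Finset.prod_nonneg fun p _ => hwp0 W p) (sq_nonneg _))
        (Finset.prod_nonneg fun p _ => by (clear * - hwp0; linarith [hwp0 W p]))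
    have hen : ∑ c : PS R W → Option (Option κ), ws (wp R W) (supp c) * y' c ^ 2 ≤
        E * Bd / V0 (wp R W) (tp R W) := by
      rw [le_div_iff₀ hV0]
      refine hy4.trans ?_
      exact mul_le_mul hyY2 hBd hB0 hE0
    have h5 := (abs_le.1 hmain).2
    have h7 := mul_le_mul_of_nonneg_left (hG.trans hen)
      (show 0 ≤ Real.log x / (2 * (W : ℝ)) by (clear * - hlogx hW; positivity))
    refine h6.trans ?_
    (clear * - h5 h7; linarith)
  | insert q A hqA ih =>
    intro W v hW hsm hdiff hAS hAz hWx b y Y E Bd hyY hYb hanti hb hT hE1 hBd _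
    have hqS : q ∈ PS R W := hAS (Finset.mem_insert_self q A)
    have hAS' : A ⊆ PS R W := fun p hp => hAS (Finset.mem_insert_of_mem hp)
    obtain ⟨hqR, hqp, hqW⟩ := mem_PS.1 hqS
    set q' : PS R W := ⟨q, hqS⟩ with hq'
    have hqq : ((q' : PS R W) : ℕ) = q := rfl
    obtain ⟨e, he, he'⟩ := exists_equiv q'
    obtain ⟨v', hv'⟩ := exists_class W v t hqp hqW
    have hW' : 0 < W * (q' : ℕ) := Nat.mul_pos hW hqp.pos
    have hsm' : ∀ p : ℕ, p.Prime → p < D0 → p ∣ W * (q' : ℕ) := fun p hp hpD =>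
      Dvd.dvd.mul_right (hsm p hp hpD) _
    have hdiff' : ∀ i j, i ≠ j → ∀ p : ℕ, p.Prime → (p : ℤ) ∣ (h i : ℤ) - h j →
        p ∣ W * (q' : ℕ) := fun i j hij p hp hd => Dvd.dvd.mul_right (hdiff i j hij p hp hd) _
    have hAS2 : A ⊆ PS R (W * (q' : ℕ)) := by
      intro p hp
      rw [mem_PS_mul q']
      exact ⟨hAS' hp, fun hpq => hqA (by rw [hqq] at hpq; rwa [← hpq])⟩
    have hprod : W * ∏ p ∈ insert q A, p = W * (q' : ℕ) * ∏ p ∈ A, p := by
      rw [Finset.prod_insert hqA, hqq, mul_assoc]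
    have hcard : (insert q A).card = A.card + 1 := Finset.card_insert_of_notMem hqA
    rw [hprod] at hWx ⊢
    have hqz : ((q : ℕ) : ℝ) ≤ z := hAz q (Finset.mem_insert_self q A)
    obtain ⟨y₂, hy₂1, hy₂2, hy₂3⟩ := exists_transform (t := t) hD1 hsm hdiff q' e he he' y Y hyY
      hanti
    have hE2 : ∑ c, ws (wp R (W * (q' : ℕ))) (supp c) * (3 * Y (ext e c none)) ^ 2 *
        ∏ p ∈ supp c, (1 + wp R (W * (q' : ℕ)) p) ≤ 9 * E := by
      have h1 := energy1_ext e (wp R W) (hwp0 W) Y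
      have h2 : ∀ p, wp R W (e (some p)) = wp R (W * (q' : ℕ)) p :=
        congrFun (wp_comp q' e he')
      simp only [h2] at h1
      have h3 : (fun p => wp R (W * (q' : ℕ)) p) = wp R (W * (q' : ℕ)) := rfl
      rw [h3] at h1
      calc ∑ c, ws (wp R (W * (q' : ℕ))) (supp c) * (3 * Y (ext e c none)) ^ 2 *
            ∏ p ∈ supp c, (1 + wp R (W * (q' : ℕ)) p)
          = 9 * ∑ c, ws (wp R (W * (q' : ℕ))) (supp c) * Y (ext e c none) ^ 2 *
            ∏ p ∈ supp c, (1 + wp R (W * (q' : ℕ)) p) := by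
            rw [Finset.mul_sum]
            refine Finset.sum_congr rfl fun c _ => ?_
            ring
        _ ≤ 9 * E := by
            apply mul_le_mul_of_nonneg_left _ (by norm_num)
            exact h1.trans hE1
    have hmain := ih (W * (q' : ℕ)) v' hW' hsm' hdiff' hAS2
      (fun p hp => hAz p (Finset.mem_insert_of_mem hp)) hWx (3 * b) y₂
      (fun c => 3 * Y (ext e c none)) (9 * E) Bd hy₂1
      (fun c => mul_le_mul_of_nonneg_left (hYb _) (by norm_num))
      (fun c c' hcc => mul_le_mul_of_nonneg_left (hanti _ _ (le_ext_none e hcc)) (by norm_num))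
      (by
        rw [hcard, pow_succ] at hb
        (clear * - hb; linarith))
      (by
        intro c hc
        obtain ⟨a, ha⟩ := hy₂2 c hc
        exact (T_ext_le (by omega) q' e he' c a).trans (hT _ ha))
      hE2 ((bad_ext q' e he').trans hBd)
    have hset : (NS x W v).filter (fun n => Exact R W z (insert q A) (n + t)) =
        (NS x (W * (q' : ℕ)) v').filter (fun n => Exact R (W * (q' : ℕ)) z A (n + t)) := by
      unfold NS
      rw [Finset.filter_filter, Finset.filter_filter]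
      refine Finset.filter_congr fun n _ => ?_
      have h1 := exact_insert (m := n + t) q' (A := A) hqA hqz
      rw [hqq] at h1
      rw [hqq, hv', h1, and_assoc]
    have hsum : ∑ n ∈ (NS x W v).filter (fun n => Exact R W z (insert q A) (n + t)),
        (1 / (n : ℝ)) * sw h (lam (wp R W) y) n =
        ∑ n ∈ (NS x (W * (q' : ℕ)) v').filter (fun n => Exact R (W * (q' : ℕ)) z A (n + t)),
          (1 / (n : ℝ)) * sw h (lam (wp R (W * (q' : ℕ))) y₂) n := by
      rw [hset]
      refine Finset.sum_congr rfl fun n hn => ?_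
      rw [← hset, mem_filter] at hn
      have hqn : (q' : ℕ) ∣ n + t :=
        (hn.2 q hqS hqz).2 (Finset.mem_insert_self q A)
      rw [hy₂3 n hqn]
    rw [hsum]
    refine hmain.trans ?_
    gcongr ?_ + 1 / L
    apply mul_le_mul_of_nonneg_left _ (by (clear * - hlogx; positivity))
    rw [hcard, pow_succ]
    have hV := V0_ext e (wp R W) (tp R W) (hwp0 W) (htp0 W) (by
      unfold wp
      have h4 : (1 : ℝ) ≤ (((e none : PS R W) : ℕ) : ℝ) := by
        exact_mod_cast (PS_prime (e none)).one_le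
      rw [div_le_one (by (clear * - h4; linarith))]
      exact h4)
    rw [wp_comp q' e he', tp_comp q' e he'] at hV
    have hV1 : 1 ≤ V0 (wp R W) (tp R W) := one_le_V0 (hwp0 W)
    have hV2 : 1 ≤ V0 (wp R (W * (q' : ℕ))) (tp R (W * (q' : ℕ))) := one_le_V0 (hwp0 _)
    have hE0 : 0 ≤ E := by
      refine le_trans (Finset.sum_nonneg fun c _ => ?_) hE1
      exact mul_nonneg (mul_nonneg (Finset.prod_nonneg fun p _ => hwp0 W p) (sq_nonneg _))
        (Finset.prod_nonneg fun p _ => by (clear * - hwp0; linarith [hwp0 W p]))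
    have hB0 : 0 ≤ Bd := by
      refine le_trans (Finset.prod_nonneg fun p _ => ?_) hBd
      (clear * - hwp0; linarith [hwp0 W p])
    have h9 : 9 * E * Bd / V0 (wp R (W * (q' : ℕ))) (tp R (W * (q' : ℕ))) ≤
        18 * (E * Bd / V0 (wp R W) (tp R W)) := by
      rw [mul_div_assoc', div_le_div_iff₀ (by (clear * - hV2; linarith)) (by (clear * - hV1; linarith))]
      have h10 : 0 ≤ E * Bd := mul_nonneg hE0 hB0
      (clear * - hV h10; nlinarith)
    calc 18 ^ A.card * (9 * E * Bd / V0 (wp R (W * (q' : ℕ))) (tp R (W * (q' : ℕ))))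
        ≤ 18 ^ A.card * (18 * (E * Bd / V0 (wp R W) (tp R W))) := by (clear * - h9; gcongr)
      _ = 18 ^ A.card * 18 * (E * Bd / V0 (wp R W) (tp R W)) := by ring

end Pool.Agent.Helper4.PU

end

section

set_option autoImplicit false

set_option linter.unusedSectionVars false

open Finset

namespace Pool.Agent.Helper4.PU

open Pool.Agent.Helper1.MT

open Pool.Agent.Helper12.MT

open Pool.Agent.Helper90.MT (ws_nonneg mem_cls mem_supp ws_supp)

section Gen

variable {ι κ : Type} [Fintype ι] [Fintype κ] [DecidableEq ι] [DecidableEq κ]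

/-- The majorant. -/
noncomputable def yg (w t : ι → ℝ) (y : (ι → Option κ) → ℝ) (bad : Finset ι)
    (c : ι → Option (Option κ)) : ℝ :=
  (-1) ^ (sstar c).card * (if T t (sstar c) ≤ 1 ∧ Disjoint (sstar c) bad then 1 else 0) *
    (y (spart c) / VV w t bad (spart c))

theorem yg_smk (w t : ι → ℝ) (y : (ι → Option κ) → ℝ) (bad : Finset ι)
    {b : ι → Option κ} {S : Finset ι} (h : Disjoint S (supp b)) :
    yg w t y bad (smk b S) = (-1) ^ S.card * (if T t S ≤ 1 ∧ Disjoint S bad then 1 else 0) *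
      (y b / VV w t bad b) := by
  unfold yg
  rw [sstar_smk, spart_smk h]

theorem lam_yg {w t : ι → ℝ} (hw : ∀ p, 0 ≤ w p) (y : (ι → Option κ) → ℝ)
    (bad : Finset ι) (c : ι → Option κ) :
    lam w (yg w t y bad) (fun p => (c p).map some) = lam w y c := by
  unfold lam
  rw [sum_star]
  refine Finset.sum_congr rfl fun b _ => ?_
  have hV : VV w t bad b ≠ 0 := (lt_of_lt_of_le one_pos (one_le_VV hw bad b)).ne'
  have h1 : ∀ S ∈ univ.filter (fun S => Disjoint S (supp b)),
      (∏ p, inv (w p) ((c p).map some) (smk b S p)) * yg w t y bad (smk b S) =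
        (∏ p, inv (w p) (c p) (b p)) * (y b / VV w t bad b) *
          (if T t S ≤ 1 ∧ Disjoint S bad then ws w S else 0) := by
    intro S hS
    have hS' : Disjoint S (supp b) := (Finset.mem_filter.1 hS).2
    rw [prod_inv w c b hS', yg_smk w t y bad hS']
    have h2 : ∏ p ∈ S, (- w p) = (-1) ^ S.card * ws w S := by
      unfold ws
      rw [← Finset.prod_const, ← Finset.prod_mul_distrib]
      refine Finset.prod_congr rfl fun p _ => ?_
      ring
    rw [h2]
    have h3 : ((-1 : ℝ) ^ S.card) * (-1) ^ S.card = 1 := by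
      rw [← mul_pow]
      norm_num
    by_cases h : T t S ≤ 1 ∧ Disjoint S bad
    · rw [if_pos h, if_pos h]
      linear_combination (ws w S * (∏ p, inv (w p) (c p) (b p)) *
        (y b / VV w t bad b)) * h3
    · rw [if_neg h, if_neg h]
      ring
  rw [Finset.sum_congr rfl h1, ← Finset.mul_sum, ← Finset.sum_filter]
  have h4 : ∑ S ∈ (univ.filter (fun S => Disjoint S (supp b))).filter
      (fun S => T t S ≤ 1 ∧ Disjoint S bad), ws w S = VV w t bad b := rfl
  rw [h4, mul_assoc, div_mul_cancel₀ _ hV]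

theorem energy_yg {w t : ι → ℝ} (hw : ∀ p, 0 ≤ w p) (y : (ι → Option κ) → ℝ)
    (bad : Finset ι) :
    ∑ c : ι → Option (Option κ), ws w (supp c) * yg w t y bad c ^ 2 =
      ∑ b : ι → Option κ, ws w (supp b) * y b ^ 2 / VV w t bad b := by
  rw [sum_star]
  refine Finset.sum_congr rfl fun b _ => ?_
  have hV : VV w t bad b ≠ 0 := (lt_of_lt_of_le one_pos (one_le_VV hw bad b)).ne'
  have h1 : ∀ S ∈ univ.filter (fun S => Disjoint S (supp b)),
      ws w (supp (smk b S)) * yg w t y bad (smk b S) ^ 2 =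
        ws w (supp b) * (y b / VV w t bad b) ^ 2 *
          (if T t S ≤ 1 ∧ Disjoint S bad then ws w S else 0) := by
    intro S hS
    have hS' : Disjoint S (supp b) := (Finset.mem_filter.1 hS).2
    rw [supp_smk, yg_smk w t y bad hS']
    have h2 : ws w (S ∪ supp b) = ws w S * ws w (supp b) := Finset.prod_union hS'
    rw [h2, mul_pow, mul_pow]
    have h3 : ((-1 : ℝ) ^ S.card) ^ 2 = 1 := by
      rw [← pow_mul, mul_comm, pow_mul]
      norm_num
    rw [h3]
    by_cases h : T t S ≤ 1 ∧ Disjoint S bad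
    · rw [if_pos h, if_pos h]
      ring
    · rw [if_neg h, if_neg h]
      ring
  rw [Finset.sum_congr rfl h1, ← Finset.mul_sum, ← Finset.sum_filter]
  have h4 : ∑ S ∈ (univ.filter (fun S => Disjoint S (supp b))).filter
      (fun S => T t S ≤ 1 ∧ Disjoint S bad), ws w S = VV w t bad b := rfl
  rw [h4]
  (clear * - hV; field_simp)

end Gen

/-- Copy `yst`, `lam_yst`, `energy_yst` and `starMajorant` of Helper12/MT/Star.lean with an
arbitrary `y` in place of `yw t γ`: `y' c = (-1)^|S| * [T t S ≤ 1 ∧ Disjoint S bad] *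
(y (spart c) / VV w t bad (spart c))`, `S = sstar c`. `V0_le` and `one_le_VV` may be used. No
assumption on `y` besides the bound and the support is needed. -/
theorem starGen : StarGen := by
  intro ι κ _ _ _ _ w t y b bad hw ht hb hy
  have hb0 : 0 ≤ b := (abs_nonneg _).trans (hb fun _ => none)
  refine ⟨yg w t y bad, fun c => lam_yg hw y bad c, fun c hc => ?_, fun c => ?_, ?_⟩
  · -- the support
    unfold yg at hc
    have h1 : T t (sstar c) ≤ 1 ∧ Disjoint (sstar c) bad := by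
      by_contra h
      rw [if_neg h] at hc
      simp at hc
    have h2 : T t (supp (spart c)) ≤ 1 := by
      apply hy
      intro h
      rw [h] at hc
      simp at hc
    constructor
    · have h3 : supp c = sstar c ∪ supp (spart c) := by
        conv_lhs => rw [← smk_self c]
        rw [supp_smk]
      have h4 : T t (supp c) = T t (sstar c) + T t (supp (spart c)) := by
        rw [h3]
        exact Finset.sum_union (disj_self c)
      rw [h4]
      (clear * - h1 h2; linarith [h1.1])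
    · intro p hp hcp
      refine Finset.disjoint_right.1 h1.2 hp ?_
      simp [sstar, hcp]
  · -- the bound
    unfold yg
    rw [abs_mul, abs_mul, abs_pow, abs_neg, abs_one, one_pow, one_mul, abs_div]
    have h1 := one_le_VV hw (t := t) bad (spart c)
    have h3 : |y (spart c)| / |VV w t bad (spart c)| ≤ b := by
      rw [abs_of_nonneg (le_trans zero_le_one h1)]
      rw [div_le_iff₀ (lt_of_lt_of_le one_pos h1)]
      refine (hb _).trans ?_
      (clear * - hb0 h1; nlinarith)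
    by_cases h : T t (sstar c) ≤ 1 ∧ Disjoint (sstar c) bad
    · rw [if_pos h, abs_one, one_mul]
      exact h3
    · rw [if_neg h, abs_zero, zero_mul]
      exact hb0
  · -- the energy
    rw [energy_yg hw, Finset.sum_mul, Finset.sum_mul]
    refine Finset.sum_le_sum fun c _ => ?_
    have hV := lt_of_lt_of_le one_pos (one_le_VV hw (t := t) bad c)
    have h2 := V0_le hw ht bad c
    have h3 : 0 ≤ ws w (supp c) * y c ^ 2 / VV w t bad c :=
      div_nonneg (mul_nonneg (Pool.Agent.Helper90.MT.ws_nonneg hw _) (sq_nonneg _)) hV.le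
    calc ws w (supp c) * y c ^ 2 / VV w t bad c * V0 w t
        ≤ ws w (supp c) * y c ^ 2 / VV w t bad c *
          ((∏ p ∈ supp c, (1 + w p)) * (∏ p ∈ bad, (1 + w p)) * VV w t bad c) :=
          mul_le_mul_of_nonneg_left h2 h3
      _ = ws w (supp c) * y c ^ 2 * (∏ p ∈ supp c, (1 + w p)) *
          ∏ p ∈ bad, (1 + w p) := by
          (clear * - hV; field_simp)

end Pool.Agent.Helper4.PU

end

section

set_option autoImplicit false

open Finset

namespace Pool.Agent.Helper4.PU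

open Pool.Agent.Helper1.MT

theorem Sm_eq (R W m : ℕ) (z : ℝ) [DecidablePred fun p : ℕ => (p : ℝ) ≤ z] :
    Sm R W m z = ((PS R W).filter (fun p : ℕ => (p : ℝ) ≤ z)).powerset.filter
      (fun A => A.card ≤ m) := by
  ext A
  rw [mem_Sm, mem_filter, mem_powerset]
  constructor
  · rintro ⟨h1, h2, h3⟩
    exact ⟨fun p hp => mem_filter.2 ⟨h1 hp, h3 p hp⟩, h2⟩
  · rintro ⟨h1, h2⟩
    exact ⟨fun p hp => (mem_filter.1 (h1 hp)).1, h2, fun p hp => (mem_filter.1 (h1 hp)).2⟩

/-- `∑_{A ⊆ B, |A| ≤ m} ∏_{p ∈ A} f p ≤ (1 + ∑_{p ∈ B} f p)^m` for `f ≥ 0` (induction on `B`),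
with `f p = 18 / p`, resp. `f = 1`, and `B` the primes of `PS R W` up to `z` (at most `z` of
them). -/
theorem smallSets : SmallSets := by
  classical
  obtain ⟨C, hC, hC'⟩ := Pool.Agent.Helper66.PAP.sum_inv_small
  refine ⟨C + 1, by (clear * - hC; linarith), fun R W m z hR hz => ?_⟩
  set B := (PS R W).filter (fun p : ℕ => (p : ℝ) ≤ z) with hB
  have hBs : B ⊆ PS R W := Finset.filter_subset _ _
  constructor
  · have h1 := hC' R W hR
    have h2 : ∑ q : PS R W, 1 / ((q : ℕ) : ℝ) = ∑ p ∈ PS R W, 1 / (p : ℝ) :=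
      Finset.sum_coe_sort (PS R W) (fun p : ℕ => 1 / (p : ℝ))
    rw [h2] at h1
    have h3 : ∑ p ∈ B, 1 / (p : ℝ) ≤ ∑ p ∈ PS R W, 1 / (p : ℝ) :=
      Finset.sum_le_sum_of_subset_of_nonneg hBs fun p _ _ => by (clear * -; positivity)
    have h4 : ∑ p ∈ B, 18 / (p : ℝ) = 18 * ∑ p ∈ B, 1 / (p : ℝ) := by
      rw [Finset.mul_sum]
      refine Finset.sum_congr rfl fun p _ => ?_
      ring
    have h5 : 0 ≤ ∑ p ∈ B, 18 / (p : ℝ) := Finset.sum_nonneg fun p _ => by (clear * -; positivity)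
    have h6 := sum_small_sets (fun p => 18 / (p : ℝ)) B (fun p _ => by (clear * -; positivity)) m
    have h7 : ∑ A ∈ Sm R W m z, (18 : ℝ) ^ A.card / ∏ p ∈ A, (p : ℝ) =
        ∑ A ∈ B.powerset, (if A.card ≤ m then ∏ p ∈ A, 18 / (p : ℝ) else 0) := by
      rw [Sm_eq, Finset.sum_filter]
      refine Finset.sum_congr rfl fun A _ => ?_
      by_cases h : A.card ≤ m
      · rw [if_pos h, if_pos h, Finset.prod_div_distrib, Finset.prod_const]
      · rw [if_neg h, if_neg h]
    rw [h7]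
    refine h6.trans (pow_le_pow_left₀ (by (clear * - h5; linarith)) ?_ m)
    rw [h4]
    (clear * - h1 h3; linarith)
  · have h6 := sum_small_sets (fun _ => 1) B (fun p _ => zero_le_one) m
    have h7 : ((Sm R W m z).card : ℝ) =
        ∑ A ∈ B.powerset, (if A.card ≤ m then ∏ p ∈ A, (1 : ℝ) else 0) := by
      rw [Sm_eq, ← Finset.sum_filter, Finset.cast_card]
      refine Finset.sum_congr rfl fun A _ => ?_
      rw [Finset.prod_const_one]
    rw [h7]
    refine h6.trans (pow_le_pow_left₀ ?_ ?_ m)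
    · have : (0 : ℝ) ≤ ∑ p ∈ B, (1 : ℝ) := Finset.sum_nonneg fun p _ => zero_le_one
      (clear * - this; linarith)
    · have h8 : B ⊆ Ioc 0 ⌊z⌋₊ := by
        intro p hp
        obtain ⟨h9, h10⟩ := mem_filter.1 hp
        rw [Pool.Agent.Helper66.PAP.mem_PS] at h9
        rw [mem_Ioc]
        exact ⟨h9.2.1.pos, Nat.le_floor h10⟩
      have h9 : B.card ≤ ⌊z⌋₊ := by
        have := Finset.card_le_card h8
        rwa [Nat.card_Ioc, Nat.sub_zero] at this
      have h10 : (B.card : ℝ) ≤ z :=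
        (Nat.cast_le.2 h9).trans (Nat.floor_le (by (clear * - hz; linarith)))
      rw [Finset.sum_const, nsmul_eq_mul, mul_one]
      (clear * - hz h10; linarith)

end Pool.Agent.Helper4.PU

end

section

set_option autoImplicit false

open Finset

namespace Pool.Agent.Helper4.PU

theorem count_le (P : Finset ℕ) (e a v N : ℕ) (he : 0 < e)
    (hP : ∀ p ∈ P, p.Prime ∧ ¬ p ∣ e) (S : Finset ℕ)
    (hS : ∀ t ∈ S, t < N ∧ t ≡ a [MOD e] ∧ ∀ p ∈ P, ¬ p ∣ v + t) :
    (S.card : ℝ) ≤ N / e * ∏ p ∈ P, (1 - 1 / (p : ℝ)) + 2 ^ P.card := by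
  have h1 := (abs_le.mp (legendre P e a v N he hP)).2
  have h2 : (S.card : ℝ) ≤ ((((range N).filter
      (fun t => t ≡ a [MOD e] ∧ ∀ p ∈ P, ¬ p ∣ v + t)).card : ℕ) : ℝ) := by
    exact_mod_cast Finset.card_le_card (fun t ht => by
      rw [Finset.mem_filter, Finset.mem_range]
      exact hS t ht)
  (clear * - h1 h2; linarith)

/-- Proof. Let `P` be the set of the primes `p ≥ D0` dividing `d`, `M = ∏ P`, and for `m ≥ 1`
`g m = ∏ (1 + 1/p)` over the primes `p ∣ m`, `¬ p ∣ d`. For each `t`: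
`Sg ≤ ∏ i, g (|i d - t|) ≤ ∑ i, g (|i d - t|)^k`, and `(1 + 1/p)^k ≤ 1 + 2^k / p`, so
`g(m)^k ≤ ∑_{e ∣ m, e squarefree, (e, d) = 1} 2^(k ω(e)) / e`. Exchange the sums and count with
`legendre`; `2^(k ω(e)) ≤ C_k e^(1/8)` and `rhoBound` give the result. -/
theorem singCop : SingCop := by
  classical
  intro k
  set S1 : ℝ := ∑' n : ℕ, (n : ℝ) ^ (-(15 / 8) : ℝ) with hS1
  set S2 : ℝ := ∑' n : ℕ, (n : ℝ) ^ (-(9 / 8) : ℝ) with hS2
  have hs1 : Summable (fun n : ℕ => (n : ℝ) ^ (-(15 / 8) : ℝ)) :=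
    Real.summable_nat_rpow.mpr (by norm_num)
  have hs2 : Summable (fun n : ℕ => (n : ℝ) ^ (-(9 / 8) : ℝ)) :=
    Real.summable_nat_rpow.mpr (by norm_num)
  have hS10 : 0 ≤ S1 := tsum_nonneg fun n => Real.rpow_nonneg (Nat.cast_nonneg n) _
  have hS20 : 0 ≤ S2 := tsum_nonneg fun n => Real.rpow_nonneg (Nat.cast_nonneg n) _
  obtain ⟨C1, hC1, hC1'⟩ := exists_two_pow 1
  obtain ⟨Ck, hCk, hCk'⟩ := exists_two_pow k
  refine ⟨k * (k * Ck * S1 + 4 * C1 * Ck * k * S2) + 1, by (clear * - hCk hC1; positivity), ?_⟩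
  intro d D0 v hd inst
  have hd0 : (0 : ℝ) < d := by exact_mod_cast hd
  set P := d.primeFactors.filter (fun p => D0 ≤ p) with hPd
  have hP : ∀ p ∈ P, p.Prime ∧ p ∣ d ∧ D0 ≤ p := by
    intro p hp
    rw [hPd, Finset.mem_filter] at hp
    exact ⟨Nat.prime_of_mem_primeFactors hp.1, Nat.dvd_of_mem_primeFactors hp.1, hp.2⟩
  set Q : ℝ := ∏ p ∈ P, (1 - 1 / (p : ℝ)) with hQ
  have hf0 : ∀ p : ℕ, p.Prime → (0 : ℝ) ≤ 1 - 1 / (p : ℝ) ∧ 1 - 1 / (p : ℝ) ≤ 1 := by
    intro p hp
    have h1 : (1 : ℝ) ≤ p := by exact_mod_cast hp.one_lt.le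
    have h2 : 1 / (p : ℝ) ≤ 1 := by
      rw [div_le_one (by (clear * - h1; linarith))]
      exact h1
    have h3 : 0 ≤ 1 / (p : ℝ) := by (clear * - h1; positivity)
    constructor <;> (clear * - h2 h3; linarith)
  have hQ0 : 0 ≤ Q := Finset.prod_nonneg fun p hp => (hf0 p (hP p hp).1).1
  have hQφ : (d.totient : ℝ) / d ≤ Q := by
    have h1 : (d.totient : ℝ) = d * ∏ p ∈ d.primeFactors, (1 - 1 / (p : ℝ)) := by
      have := Nat.totient_eq_mul_prod_factors d
      have h2 : ((d.totient : ℚ) : ℝ) =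
          ((d * ∏ p ∈ d.primeFactors, (1 - (p : ℚ)⁻¹) : ℚ) : ℝ) := by rw [this]
      push_cast at h2
      rw [h2]
      congr 1
      apply Finset.prod_congr rfl
      intro p _
      rw [one_div]
    rw [h1, mul_div_cancel_left₀ _ hd0.ne']
    rw [← Finset.prod_filter_mul_prod_filter_not d.primeFactors (fun p => D0 ≤ p), ← hPd, ← hQ]
    apply mul_le_of_le_one_right hQ0
    apply Finset.prod_le_one
    · intro p hp
      exact (hf0 p (Nat.prime_of_mem_primeFactors (Finset.mem_filter.mp hp).1)).1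
    · intro p hp
      exact (hf0 p (Nat.prime_of_mem_primeFactors (Finset.mem_filter.mp hp).1)).2
  rcases Nat.eq_zero_or_pos k with hk | hk
  · subst hk
    simp only [Nat.zero_sub, zero_mul, Finset.range_zero, Finset.filter_empty, Finset.sum_empty]
    (clear * - hCk hC1 hd hQ0; positivity)
  have hk1 : (1 : ℝ) ≤ k := by exact_mod_cast hk
  set T := (range ((k - 1) * d)).filter
      (fun t => ¬ d ∣ t ∧ ∀ p : ℕ, p.Prime → D0 ≤ p → p ∣ d → ¬ p ∣ v + t) with hT
  have hTt : ∀ t ∈ T, t < (k - 1) * d ∧ ¬ d ∣ t ∧ ∀ p ∈ P, ¬ p ∣ v + t := by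
    intro t ht
    rw [hT, Finset.mem_filter, Finset.mem_range] at ht
    exact ⟨ht.1, ht.2.1, fun p hp => ht.2.2 p (hP p hp).1 (hP p hp).2.2 (hP p hp).2.1⟩
  set E := (Finset.Icc 1 (k * d)).filter (fun e => Nat.Coprime e d) with hE
  have hEe : ∀ e ∈ E, 0 < e ∧ e ≤ k * d ∧ Nat.Coprime e d := by
    intro e he
    rw [hE, Finset.mem_filter, Finset.mem_Icc] at he
    exact ⟨he.1.1, he.1.2, he.2⟩
  have hne : (Finset.univ : Finset (Fin k)).Nonempty := ⟨⟨0, hk⟩, Finset.mem_univ _⟩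
  have hSg : ∀ t ∈ T, Sg (fun i : Fin k => (i : ℕ) * d) d t ≤
      ∑ i : Fin k, ∑ e ∈ E, if e ∣ ((((i : ℕ) * d : ℕ) : ℤ) - t).natAbs then wt k e else 0 := by
    intro t ht
    obtain ⟨h1, h2, _⟩ := hTt t ht
    have hx0 : ∀ i : Fin k, ((((i : ℕ) * d : ℕ) : ℤ) - t).natAbs ≠ 0 := by
      intro i h
      have h3 : (i : ℕ) * d = t := by omega
      exact h2 (h3 ▸ Dvd.intro_left (i : ℕ) rfl)
    have hx1 : ∀ i : Fin k, ((((i : ℕ) * d : ℕ) : ℤ) - t).natAbs ≤ k * d := by
      intro i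
      have h3 : (i : ℕ) * d ≤ k * d := Nat.mul_le_mul_right d i.2.le
      have h4 : (k - 1) * d ≤ k * d := Nat.mul_le_mul_right d (Nat.sub_le k 1)
      omega
    calc Sg (fun i : Fin k => (i : ℕ) * d) d t =
          gf d (∏ i : Fin k, ((((i : ℕ) * d : ℕ) : ℤ) - t).natAbs) := rfl
      _ ≤ ∏ i : Fin k, gf d ((((i : ℕ) * d : ℕ) : ℤ) - t).natAbs :=
          gf_prod_le d Finset.univ _ (fun i _ => hx0 i)
      _ ≤ ∑ i : Fin k, gf d ((((i : ℕ) * d : ℕ) : ℤ) - t).natAbs ^ k :=
          prod_le_sum_pow k Finset.univ hne (by simp) _ (fun i _ => one_le_gf d _)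
      _ ≤ _ := Finset.sum_le_sum fun i _ => gf_pow_le k d _ _ (hx0 i) (hx1 i)
  have hcnt : ∀ i : Fin k, ∀ e ∈ E,
      ∑ t ∈ T, (if e ∣ ((((i : ℕ) * d : ℕ) : ℤ) - t).natAbs then wt k e else 0) ≤
        wt k e * ((((k - 1) * d : ℕ) : ℝ) / e * Q + 2 ^ P.card) := by
    intro i e he
    obtain ⟨he0, _, hec⟩ := hEe e he
    rw [← Finset.sum_filter, Finset.sum_const, nsmul_eq_mul, mul_comm]
    apply mul_le_mul_of_nonneg_left _ (wt_nonneg k e)
    apply count_le P e ((i : ℕ) * d) v ((k - 1) * d) he0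
    · intro p hp
      refine ⟨(hP p hp).1, fun h => ?_⟩
      have h1 := Nat.dvd_gcd h (hP p hp).2.1
      rw [hec] at h1
      exact (hP p hp).1.one_lt.ne' (Nat.dvd_one.mp h1)
    · intro t ht
      rw [Finset.mem_filter] at ht
      obtain ⟨h1, _, h3⟩ := hTt t ht.1
      refine ⟨h1, ?_, h3⟩
      rw [Nat.modEq_iff_dvd]
      exact Int.natCast_dvd.mpr ht.2
  have hkd0 : (0 : ℝ) < ((k * d : ℕ) : ℝ) := by
    exact_mod_cast Nat.mul_pos hk hd
  have hterm : ∀ e ∈ E, wt k e * ((((k - 1) * d : ℕ) : ℝ) / e * Q + 2 ^ P.card) ≤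
      (((k - 1) * d : ℕ) : ℝ) * Q * Ck * (e : ℝ) ^ (-(15 / 8) : ℝ) +
        2 ^ P.card * Ck * ((k * d : ℕ) : ℝ) ^ (1 / 4 : ℝ) * (e : ℝ) ^ (-(9 / 8) : ℝ) := by
    intro e he
    obtain ⟨he0, hek, _⟩ := hEe e he
    have her : (0 : ℝ) < e := by exact_mod_cast he0
    have h1 : wt k e ≤ Ck * (e : ℝ) ^ (-(7 / 8) : ℝ) := by
      have h2 : (e : ℝ) ^ (-(7 / 8) : ℝ) = (e : ℝ) ^ (1 / 8 : ℝ) / e := by
        rw [← Real.rpow_sub_one her.ne']
        norm_num
      rw [h2, ← mul_div_assoc]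
      unfold wt
      exact div_le_div_of_nonneg_right (hCk' e he0) her.le
    have h3 : (e : ℝ) ^ (-(7 / 8) : ℝ) / e = (e : ℝ) ^ (-(15 / 8) : ℝ) := by
      rw [← Real.rpow_sub_one her.ne']
      norm_num
    have h4 : (e : ℝ) ^ (-(7 / 8) : ℝ) ≤
        ((k * d : ℕ) : ℝ) ^ (1 / 4 : ℝ) * (e : ℝ) ^ (-(9 / 8) : ℝ) := by
      have h5 : (e : ℝ) ^ (-(7 / 8) : ℝ) = (e : ℝ) ^ (1 / 4 : ℝ) * (e : ℝ) ^ (-(9 / 8) : ℝ) := by
        rw [← Real.rpow_add her]
        norm_num
      rw [h5]
      apply mul_le_mul_of_nonneg_right _ (by (clear * - he0; positivity))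
      apply Real.rpow_le_rpow her.le _ (by norm_num)
      exact_mod_cast hek
    calc wt k e * ((((k - 1) * d : ℕ) : ℝ) / e * Q + 2 ^ P.card)
        ≤ (Ck * (e : ℝ) ^ (-(7 / 8) : ℝ)) *
          ((((k - 1) * d : ℕ) : ℝ) / e * Q + 2 ^ P.card) :=
          mul_le_mul_of_nonneg_right h1 (by (clear * - he0 hQ0; positivity))
      _ = (((k - 1) * d : ℕ) : ℝ) * Q * Ck * ((e : ℝ) ^ (-(7 / 8) : ℝ) / e) +
          2 ^ P.card * Ck * (e : ℝ) ^ (-(7 / 8) : ℝ) := by ring
      _ ≤ _ := by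
          rw [h3]
          have h6 : (0 : ℝ) ≤ 2 ^ P.card * Ck := by positivity
          have h7 := mul_le_mul_of_nonneg_left h4 h6
          (clear * - h7; linarith)
  have hE1 : ∑ e ∈ E, (e : ℝ) ^ (-(15 / 8) : ℝ) ≤ S1 :=
    hs1.sum_le_tsum E fun n _ => Real.rpow_nonneg (Nat.cast_nonneg n) _
  have hE2 : ∑ e ∈ E, (e : ℝ) ^ (-(9 / 8) : ℝ) ≤ S2 :=
    hs2.sum_le_tsum E fun n _ => Real.rpow_nonneg (Nat.cast_nonneg n) _
  have hPc : (2 : ℝ) ^ P.card ≤ C1 * (d : ℝ) ^ (1 / 8 : ℝ) := by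
    refine le_trans ?_ (hC1' d hd)
    rw [one_mul]
    exact pow_le_pow_right₀ (by norm_num) (Finset.card_le_card (Finset.filter_subset _ _))
  have hkd4 : ((k * d : ℕ) : ℝ) ^ (1 / 4 : ℝ) ≤ k * (d : ℝ) ^ (1 / 4 : ℝ) := by
    rw [Nat.cast_mul, Real.mul_rpow (by (clear * - hk1; linarith)) hd0.le]
    apply mul_le_mul_of_nonneg_right _ (by positivity)
    calc (k : ℝ) ^ (1 / 4 : ℝ) ≤ (k : ℝ) ^ (1 : ℝ) :=
          Real.rpow_le_rpow_of_exponent_le hk1 (by norm_num)
      _ = k := Real.rpow_one _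
  have hN : (((k - 1) * d : ℕ) : ℝ) ≤ k * d := by
    exact_mod_cast Nat.mul_le_mul_right d (Nat.sub_le k 1)
  have hd38 := rpow_le_tot d hd Q hQφ
  have hB : 2 ^ P.card * Ck * ((k * d : ℕ) : ℝ) ^ (1 / 4 : ℝ) * S2 ≤
      4 * C1 * Ck * k * S2 * (d * Q) := by
    calc 2 ^ P.card * Ck * ((k * d : ℕ) : ℝ) ^ (1 / 4 : ℝ) * S2
        ≤ (C1 * (d : ℝ) ^ (1 / 8 : ℝ)) * Ck * (k * (d : ℝ) ^ (1 / 4 : ℝ)) * S2 := by
          (clear * - hPc hCk hkd4 hk hd hC1; gcongr)
      _ = C1 * Ck * k * S2 * ((d : ℝ) ^ (1 / 8 : ℝ) * (d : ℝ) ^ (1 / 4 : ℝ)) := by ring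
      _ = C1 * Ck * k * S2 * (d : ℝ) ^ (3 / 8 : ℝ) := by
          rw [← Real.rpow_add hd0]
          norm_num
      _ ≤ C1 * Ck * k * S2 * (4 * (d * Q)) := by (clear * - hd38 hC1 hCk hk; gcongr)
      _ = _ := by ring
  have hA : (((k - 1) * d : ℕ) : ℝ) * Q * Ck * S1 ≤ k * Ck * S1 * (d * Q) := by
    calc (((k - 1) * d : ℕ) : ℝ) * Q * Ck * S1 ≤ (k * d) * Q * Ck * S1 := by (clear * - hN hQ0 hCk; gcongr)
      _ = _ := by ring
  calc ∑ t ∈ T, Sg (fun i : Fin k => (i : ℕ) * d) d t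
      ≤ ∑ t ∈ T, ∑ i : Fin k, ∑ e ∈ E,
          (if e ∣ ((((i : ℕ) * d : ℕ) : ℤ) - t).natAbs then wt k e else 0) :=
        Finset.sum_le_sum hSg
    _ = ∑ i : Fin k, ∑ e ∈ E, ∑ t ∈ T,
          (if e ∣ ((((i : ℕ) * d : ℕ) : ℤ) - t).natAbs then wt k e else 0) := by
        rw [Finset.sum_comm]
        apply Finset.sum_congr rfl
        intro i _
        rw [Finset.sum_comm]
    _ ≤ ∑ i : Fin k, ∑ e ∈ E, ((((k - 1) * d : ℕ) : ℝ) * Q * Ck * (e : ℝ) ^ (-(15 / 8) : ℝ) +
          2 ^ P.card * Ck * ((k * d : ℕ) : ℝ) ^ (1 / 4 : ℝ) * (e : ℝ) ^ (-(9 / 8) : ℝ)) :=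
        Finset.sum_le_sum fun i _ => Finset.sum_le_sum fun e he =>
          (hcnt i e he).trans (hterm e he)
    _ = k * ((((k - 1) * d : ℕ) : ℝ) * Q * Ck * ∑ e ∈ E, (e : ℝ) ^ (-(15 / 8) : ℝ) +
          2 ^ P.card * Ck * ((k * d : ℕ) : ℝ) ^ (1 / 4 : ℝ) *
            ∑ e ∈ E, (e : ℝ) ^ (-(9 / 8) : ℝ)) := by
        rw [Finset.sum_const, Finset.card_univ, Fintype.card_fin, nsmul_eq_mul,
          Finset.sum_add_distrib, ← Finset.mul_sum, ← Finset.mul_sum]
    _ ≤ k * ((((k - 1) * d : ℕ) : ℝ) * Q * Ck * S1 +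
          2 ^ P.card * Ck * ((k * d : ℕ) : ℝ) ^ (1 / 4 : ℝ) * S2) := by
        (clear * - hE1 hQ0 hCk hE2 hk hd; gcongr)
    _ ≤ k * (k * Ck * S1 * (d * Q) + 4 * C1 * Ck * k * S2 * (d * Q)) := by
        (clear * - hA hB hk; gcongr)
    _ ≤ (k * (k * Ck * S1 + 4 * C1 * Ck * k * S2) + 1) * d * Q := by
        have h9 : 0 ≤ d * Q := by (clear * - hd hQ0; positivity)
        (clear * - h9; nlinarith)

end Pool.Agent.Helper4.PU

end

section

set_option autoImplicit false

open Finset Filter Topology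

open scoped ArithmeticFunction.vonMangoldt

namespace Pool.Agent.Helper47.PV

open Pool.Agent.Helper1.MT hiding PS_prime PS_le

open Pool.Agent.Helper18.BV (wt IsWt)

open Pool.Agent.Helper66.PV (SetN)

open Pool.Agent.Helper83.MT (PS_prime PS_not_dvd PS_le coprime_step totient_mul_prod prod_pos prod_le_of_T_le prod_le_prod_of_subset prod_union_le toNat toNat_injective toNat_card toNat_prod toNat_mem sum_pow_card_le sig le_of_inv_prod exists_of_lam_ne_zero supp_subset_of_le abs_lam_le mem_supp supp_join sum_pairs_le Qf_nonneg sum_prm exists_max_class nu err err_mod err_nonneg mem_NS)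

variable {R W : ℕ}

theorem PS_ge {κ : Type} {D0 : ℕ} {h : κ → ℕ} (hS : SetN D0 h W) (p : PS R W) :
    D0 ≤ (p : ℕ) := by
  by_contra hlt
  exact PS_not_dvd p (hS.small p (PS_prime p) (not_le.1 hlt))

theorem crt {κ : Type} {D0 : ℕ} {h : κ → ℕ} {v : ℕ} (hS : SetN D0 h W) (m : κ)
    (hcop : Nat.Coprime (v + h m) W) (i : PS R W → κ) (S : Finset (PS R W)) (hi : ∀ p ∈ S, i p ≠ m) :
    ∃ a : ℕ, Nat.Coprime a (W * ∏ p ∈ S, (p : ℕ)) ∧
      ∀ n : ℕ, (n ≡ v [MOD W] ∧ ∀ p ∈ S, (p : ℕ) ∣ n + h (i p)) ↔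
        n + h m ≡ a [MOD W * ∏ p ∈ S, (p : ℕ)] := by
  classical
  induction S using Finset.induction_on with
  | empty =>
    refine ⟨v + h m, ?_, ?_⟩
    · rw [Finset.prod_empty, mul_one]
      exact hcop
    · intro n
      rw [Finset.prod_empty, mul_one]
      constructor
      · rintro ⟨h1, -⟩
        exact h1.add_right _
      · intro h1
        exact ⟨Nat.ModEq.add_right_cancel' _ h1, by simp⟩
  | insert p S hp ih =>
    obtain ⟨a, ha1, ha2⟩ := ih (fun q hq => hi q (Finset.mem_insert_of_mem hq))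
    have hpp := PS_prime p
    have hcp := coprime_step S p hp
    set b : ℕ := h m + (p - 1) * h (i p) with hb
    obtain ⟨a', ha'1, ha'2⟩ := Nat.chineseRemainder hcp a b
    have h1 : W * ∏ q ∈ insert p S, (q : ℕ) = (W * ∏ q ∈ S, (q : ℕ)) * p := by
      rw [Finset.prod_insert hp]; ring
    have hpsplit : ((p : ℕ) - 1) + 1 = (p : ℕ) := Nat.sub_add_cancel hpp.one_le
    refine ⟨a', ?_, ?_⟩
    · rw [h1, Nat.coprime_mul_iff_right]
      constructor
      · have := ha'1.gcd_eq
        unfold Nat.Coprime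
        rw [this]
        exact ha1
      · rw [Nat.coprime_comm, hpp.coprime_iff_not_dvd]
        intro hdvd
        have h2 : (p : ℕ) ∣ b := (ha'2.dvd_iff (dvd_refl _)).1 hdvd
        have h3 : ((p : ℕ) : ℤ) ∣ (h m : ℤ) - h (i p) := by
          have h4 : ((p : ℕ) : ℤ) ∣ (b : ℤ) := by exact_mod_cast h2
          have h5 : (h m : ℤ) - h (i p) = b - (p : ℕ) * h (i p) := by
            rw [hb]
            push_cast [Nat.cast_sub hpp.one_le]
            ring
          rw [h5]
          exact dvd_sub h4 (dvd_mul_right _ _)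
        exact PS_not_dvd p (hS.diff m (i p) (Ne.symm (hi p (Finset.mem_insert_self _ _))) p hpp h3)
    · intro n
      rw [h1, ← Nat.modEq_and_modEq_iff_modEq_mul hcp]
      have h2 : (p : ℕ) ∣ n + h (i p) ↔ n + h m ≡ a' [MOD p] := by
        constructor
        · intro h3
          refine Nat.ModEq.trans ?_ ha'2.symm
          rw [hb, add_comm n]
          apply Nat.ModEq.add_left
          apply Nat.ModEq.add_right_cancel' (h (i p))
          have h4 : ((p : ℕ) - 1) * h (i p) + h (i p) = (p : ℕ) * h (i p) := by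
            calc ((p : ℕ) - 1) * h (i p) + h (i p) = (((p : ℕ) - 1) + 1) * h (i p) := by ring
              _ = _ := by rw [hpsplit]
          rw [h4]
          exact ((Nat.modEq_zero_iff_dvd.2 h3)).trans
            (Nat.modEq_zero_iff_dvd.2 (dvd_mul_right _ _)).symm
        · intro h3
          have h4 := h3.trans ha'2
          rw [hb, add_comm n] at h4
          have h5 := (Nat.ModEq.add_left_cancel' _ h4).add_right (h (i p))
          have h6 : ((p : ℕ) - 1) * h (i p) + h (i p) = (p : ℕ) * h (i p) := by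
            calc ((p : ℕ) - 1) * h (i p) + h (i p) = (((p : ℕ) - 1) + 1) * h (i p) := by ring
              _ = _ := by rw [hpsplit]
          rw [h6] at h5
          exact Nat.modEq_zero_iff_dvd.1 (h5.trans (Nat.modEq_zero_iff_dvd.2 (dvd_mul_right _ _)))
      constructor
      · rintro ⟨h3, h4⟩
        refine ⟨?_, ?_⟩
        · exact ((ha2 n).1 ⟨h3, fun q hq => h4 q (Finset.mem_insert_of_mem hq)⟩).trans ha'1.symm
        · exact h2.1 (h4 p (Finset.mem_insert_self _ _))
      · rintro ⟨h3, h4⟩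
        have h5 := (ha2 n).2 (h3.trans ha'1)
        refine ⟨h5.1, ?_⟩
        intro q hq
        rcases Finset.mem_insert.1 hq with rfl | hq
        · exact h2.2 h4
        · exact h5.2 q hq

theorem Dv_iff {κ : Type} {D0 : ℕ} {h : κ → ℕ} (hS : SetN D0 h W)
    (c : PS R W → Option κ) (n : ℕ) : Dv h c n ↔ Le c (sig h n) := by
  classical
  have huniq : ∀ (p : PS R W) (i j : κ), (p : ℕ) ∣ n + h i → (p : ℕ) ∣ n + h j → i = j := by
    intro p i j hi hj
    by_contra hne
    apply PS_not_dvd p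
    apply hS.diff i j hne p (PS_prime p)
    have h1 : ((p : ℕ) : ℤ) ∣ ((n + h i : ℕ) : ℤ) := by exact_mod_cast hi
    have h2 : ((p : ℕ) : ℤ) ∣ ((n + h j : ℕ) : ℤ) := by exact_mod_cast hj
    have h3 : (h i : ℤ) - h j = ((n + h i : ℕ) : ℤ) - ((n + h j : ℕ) : ℤ) := by
      push_cast; ring
    rw [h3]
    exact dvd_sub h1 h2
  constructor
  · intro hD p
    cases hc : c p with
    | none => left; rfl
    | some i =>
      right
      have h1 := hD p i hc
      have h2 : ∃ i, (p : ℕ) ∣ n + h i := ⟨i, h1⟩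
      unfold sig
      rw [dif_pos h2, huniq p i _ h1 h2.choose_spec]
  · intro hL p i hc
    rcases hL p with h1 | h1
    · rw [hc] at h1; cases h1
    · rw [hc] at h1
      unfold sig at h1
      split_ifs at h1 with h2
      rw [Option.some.injEq] at h1
      rw [h1]
      exact h2.choose_spec

theorem sw_eq {κ : Type} [Fintype κ] [DecidableEq κ] {D0 : ℕ} {h : κ → ℕ} {R W : ℕ}
    (hS : SetN D0 h W) (f : (PS R W → Option κ) → ℝ) (n : ℕ) :
    sw h f n = (∑ c ∈ univ.filter (fun c : PS R W → Option κ => Le c (sig h n)), f c) ^ 2 := by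
  classical
  unfold sw
  congr 1
  apply Finset.sum_congr _ (fun _ _ => rfl)
  ext c
  simp only [Finset.mem_filter, Dv_iff hS]

theorem PS_ge_three_mul {κ : Type} [Fintype κ] {D0 : ℕ} {h : κ → ℕ} {R W : ℕ}
    (hS : SetN D0 h W) (hD0 : (Fintype.card κ + 2) ^ 10 ≤ D0) (p : PS R W) :
    3 * Fintype.card κ ≤ (p : ℕ) := by
  refine le_trans ?_ (PS_ge hS p)
  refine le_trans ?_ hD0
  calc 3 * Fintype.card κ ≤ (Fintype.card κ + 2) ^ 2 := by (clear * -; nlinarith)
    _ ≤ (Fintype.card κ + 2) ^ 10 := Nat.pow_le_pow_right (by omega) (by norm_num)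

theorem prm_nonneg {κ : Type} [Fintype κ] [DecidableEq κ] {D0 : ℕ} {h : κ → ℕ} {R W : ℕ}
    (hS : SetN D0 h W) (hD0 : (Fintype.card κ + 2) ^ 10 ≤ D0) (m : κ) (p : PS R W)
    (a : Option κ) : 0 ≤ prm m (wp' R W p) a := by
  have h1 := PS_ge_three_mul hS hD0 p
  have h2 := (PS_prime p).two_le
  have h3 : (1 : ℝ) ≤ ((p : ℕ) : ℝ) - 1 := by
    have : (2 : ℝ) ≤ ((p : ℕ) : ℝ) := by exact_mod_cast h2
    (clear * - this; linarith)
  have h4 : (0 : ℝ) ≤ wp' R W p := by
    unfold wp'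
    (clear * - h3; positivity)
  cases a with
  | none =>
    unfold prm wp'
    have h5 : ((Fintype.card κ : ℝ) - 1) * (1 / (((p : ℕ) : ℝ) - 1)) ≤ 1 := by
      rw [mul_one_div, div_le_one (by (clear * - h3; linarith))]
      have h6 : (3 * (Fintype.card κ : ℝ)) ≤ ((p : ℕ) : ℝ) := by exact_mod_cast h1
      have h7 : (0 : ℝ) ≤ (Fintype.card κ : ℝ) := Nat.cast_nonneg _
      (clear * - h3 h6; linarith)
    linarith
  | some j =>
    show 0 ≤ if j = m then (0 : ℝ) else wp' R W p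
    split_ifs
    · exact le_rfl
    · exact h4

/-- The total error. -/
theorem total_error {κ : Type} [Fintype κ] [DecidableEq κ] {D0 : ℕ} {h : κ → ℕ} {R W : ℕ}
    (hS : SetN D0 h W) (hD0 : (Fintype.card κ + 2) ^ 10 ≤ D0)
    {f : (PS R W → Option κ) → ℝ} {L : ℝ} (hL : ∀ c, |f c| ≤ L) {g : ℝ → ℝ} {x : ℝ}
    {cm : ℕ → ℕ} {δ β : ℝ} (hδ0 : 0 ≤ δ)
    (hβ : ∑ U ∈ (PS R W).powerset.filter (fun U => ∏ p ∈ U, p ≤ R ^ 2),
      ((3 * Fintype.card κ : ℕ) : ℝ) ^ U.card *
        err g x (W * ∏ p ∈ U, p) (cm (W * ∏ p ∈ U, p)) ≤ β) :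
    ∑ c : PS R W → Option κ, ∑ c' : PS R W → Option κ,
      (open Classical in if Compat c c' then |f c| * |f c'| *
        (if ∏ p ∈ supp (join c c'), (p : ℕ) ≤ R ^ 2 then
          err g x (W * ∏ p ∈ supp (join c c'), (p : ℕ))
            (cm (W * ∏ p ∈ supp (join c c'), (p : ℕ))) + δ else 0) else 0) ≤
      L ^ 2 * (β + (R : ℝ) ^ 4 * δ) := by
  classical
  set G : Finset (PS R W) → ℝ := fun S => if ∏ p ∈ S, (p : ℕ) ≤ R ^ 2 then
    err g x (W * ∏ p ∈ S, (p : ℕ)) (cm (W * ∏ p ∈ S, (p : ℕ))) + δ else 0 with hG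
  have hG0 : ∀ S, 0 ≤ G S := by
    intro S
    simp only [hG]
    split_ifs
    · exact add_nonneg (err_nonneg _ _ _ _) hδ0
    · exact le_rfl
  have hLn : 0 ≤ L := (abs_nonneg _).trans (hL (fun _ => none))
  have h1 : ∀ c c' : PS R W → Option κ, (if Compat c c' then |f c| * |f c'| *
        G (supp (join c c')) else 0) ≤
      L ^ 2 * (if Compat c c' then G (supp (join c c')) else 0) := by
    intro c c'
    split_ifs
    · apply mul_le_mul_of_nonneg_right _ (hG0 _)
      rw [pow_two]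
      exact mul_le_mul (hL c) (hL c') (abs_nonneg _) hLn
    · rw [mul_zero]
  have h2 := sum_pairs_le (ι := PS R W) (κ := κ) G hG0
  have h3 : ∑ S : Finset (PS R W), (3 * Fintype.card κ : ℝ) ^ S.card * G S ≤
      β + (R : ℝ) ^ 4 * δ := by
    have h4 : ∑ S : Finset (PS R W), (3 * Fintype.card κ : ℝ) ^ S.card * G S =
        ∑ S ∈ (univ : Finset (Finset (PS R W))).filter
          (fun S : Finset (PS R W) => ∏ p ∈ S, (p : ℕ) ≤ R ^ 2),
          (((3 * Fintype.card κ : ℕ) : ℝ) ^ S.card *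
            err g x (W * ∏ p ∈ S, (p : ℕ)) (cm (W * ∏ p ∈ S, (p : ℕ))) +
            ((3 * Fintype.card κ : ℕ) : ℝ) ^ S.card * δ) := by
      rw [Finset.sum_filter]
      apply Finset.sum_congr rfl
      intro S _
      simp only [hG]
      split_ifs
      · push_cast; ring
      · rw [mul_zero]
    rw [h4, Finset.sum_add_distrib]
    apply add_le_add
    · refine le_trans ?_ hβ
      have h5 : ∑ S ∈ (univ : Finset (Finset (PS R W))).filter
          (fun S : Finset (PS R W) => ∏ p ∈ S, (p : ℕ) ≤ R ^ 2),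
          ((3 * Fintype.card κ : ℕ) : ℝ) ^ S.card *
            err g x (W * ∏ p ∈ S, (p : ℕ)) (cm (W * ∏ p ∈ S, (p : ℕ))) =
          ∑ U ∈ ((univ : Finset (Finset (PS R W))).filter
          (fun S : Finset (PS R W) => ∏ p ∈ S, (p : ℕ) ≤ R ^ 2)).image toNat,
            ((3 * Fintype.card κ : ℕ) : ℝ) ^ U.card *
            err g x (W * ∏ p ∈ U, p) (cm (W * ∏ p ∈ U, p)) := by
        rw [Finset.sum_image (fun _ _ _ _ h => toNat_injective h)]
        apply Finset.sum_congr rfl
        intro S _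
        rw [toNat_card, toNat_prod]
      rw [h5]
      apply Finset.sum_le_sum_of_subset_of_nonneg
      · intro U hU
        obtain ⟨S, hS', rfl⟩ := Finset.mem_image.1 hU
        rw [Finset.mem_filter]
        refine ⟨toNat_mem S, ?_⟩
        rw [toNat_prod]
        exact (Finset.mem_filter.1 hS').2
      · intro U _ _
        exact mul_nonneg (by (clear * -; positivity)) (err_nonneg _ _ _ _)
    · rw [← Finset.sum_mul]
      apply mul_le_mul_of_nonneg_right _ hδ0
      have h6 := sum_pow_card_le (R := R) (W := W) (3 * Fintype.card κ) (R ^ 2)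
        (PS_ge_three_mul hS hD0)
      calc _ ≤ ((R ^ 2 : ℕ) : ℝ) ^ 2 := h6
        _ = (R : ℝ) ^ 4 := by push_cast; ring
  calc _ ≤ ∑ c : PS R W → Option κ, ∑ c' : PS R W → Option κ,
        L ^ 2 * (if Compat c c' then G (supp (join c c')) else 0) :=
        Finset.sum_le_sum fun c _ => Finset.sum_le_sum fun c' _ => h1 c c'
    _ = L ^ 2 * ∑ c : PS R W → Option κ, ∑ c' : PS R W → Option κ,
        (if Compat c c' then G (supp (join c c')) else 0) := by
        simp_rw [← Finset.mul_sum]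
    _ ≤ L ^ 2 * (β + (R : ℝ) ^ 4 * δ) :=
        mul_le_mul_of_nonneg_left (h2.trans h3) (by (clear * -; positivity))

end Pool.Agent.Helper47.PV

end

section

set_option autoImplicit false

open Finset

namespace Pool.Agent.Helper96.PU

open Pool.Agent.Helper1.MT

open Pool.Agent.Helper66.PV

theorem weightU : Pool.Agent.Helper66.PU.WeightU := by
  obtain ⟨C, hC, hP⟩ := prod_boundW
  refine ⟨C, hC, ?_⟩
  intro κ _ _ R W h y n r hR hW hWR hy hn hr
  have hb : ∀ c : PS R W → Option κ, |lam (wp R W) y c| ≤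
      (C * ((W.totient : ℝ) / W * Real.log R)) ^ Fintype.card κ :=
    fun c => (Pool.Agent.Helper83.MT.abs_lam_le (wp_nonneg R W) hy c).trans
      (hP (Fintype.card κ) W R (by omega) hW hWR)
  have hB : 0 ≤ (C * ((W.totient : ℝ) / W * Real.log R)) ^ Fintype.card κ :=
    (abs_nonneg _).trans (hb (fun _ => none))
  unfold sw
  classical
  rw [← sq_abs]
  refine pow_le_pow_left₀ (abs_nonneg _) ?_ 2
  refine (Finset.abs_sum_le_sum_abs _ _).trans ?_
  refine (Finset.sum_le_card_nsmul _ _ _ fun c _ => hb c).trans ?_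
  rw [nsmul_eq_mul]
  refine mul_le_mul_of_nonneg_right ?_ hB
  have h1 := card_Dv_le R W h n r hn hr
    (univ.filter (fun c : PS R W → Option κ => Dv h c n)) (fun c hc => (Finset.mem_filter.1 hc).2)
  refine le_trans (le_of_eq ?_) (show ((univ.filter
    (fun c : PS R W → Option κ => Dv h c n)).card : ℝ) ≤ 2 ^ (Fintype.card κ * r) by
      exact_mod_cast h1)
  congr

end Pool.Agent.Helper96.PU

end
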