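import Pool.Agent.Helper23.MT.L02_acd0
import Pool.Agent.Helper23.MT.L02_c0
import Pool.Agent.Helper23.MT.L02_c1
import Pool.Agent.Helper23.MT.L02_c2
import Pool.Agent.Helper23.MT.L02_c3

/-!
Parts of Helper66.PU.FinalG, Helper66.PU.AllG, Helper47.PV.SumPrime, Helper60.PU.SumPrime
-/

namespace Pool.Agent.Helper1.MT
end Pool.Agent.Helper1.MT
namespace Pool.Agent.Helper66.PV
end Pool.Agent.Helper66.PV

section

set_option autoImplicit false

set_option linter.unusedSectionVars false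

open Finset Filter

open ArithmeticFunction (cardFactors)

namespace Pool.Agent.Helper66.PU

open Pool.Agent.Helper1.MT

open Pool.Agent.Helper66.PV

open Pool.Agent.Helper66.PAP (BadAt)

/-- The number of the good `n` in one class, uniformly. -/
theorem main_classG (hI : IntervalSumU) (hWt : WeightU) (hIk : IkCard) (hN2 : SumPrimeNU)
    (hA : OneDimW) (hRare : RareSumU) :
    ∃ c C₀ : ℝ, 0 < c ∧ 0 < C₀ ∧ ∀ k : ℕ, 1 ≤ k → ∃ (r D0 : ℕ) (δ : ℝ), 2 * k < D0 ∧
      (r : ℝ) ≤ C₀ * Real.log (k + 1) ∧ 0 < δ ∧ 1 ≤ C₀ * (k : ℝ) ^ 3 * δ ∧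
      ∀ (j W0 : ℕ) (T : ℕ → ℕ → Prop), RareHyp k j T → 0 < W0 →
        ∃ C : ℝ, 0 < C ∧ ∃ X0 : ℝ, ∀ x : ℝ, X0 ≤ x →
        ∀ d d' v : ℕ, 0 < d → 0 < d' → d' ≤ d →
        (d : ℝ) ≤ C * Real.log x / Real.log (Real.log x) ^ j →
        SetN D0 (fun i : Fin k => (i : ℕ) * d) (W0 * d') →
        (∀ p : ℕ, p.Prime → p ∣ W0 * d' → p < D0 ∨ p ∣ d) →
        (∀ i ∈ Ik k, Nat.Coprime (v + (i : ℕ) * d) (W0 * d')) →
        ∀ (P : ℕ → Prop) [DecidablePred P], (∀ n ∈ NS x (W0 * d') v,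
          GoodN (fun i : Fin k => (i : ℕ) * d) (W0 * d') c δ r n → ¬ T d n → P n) →
        C * (Real.log x / (W0 * d' : ℕ)) /
          (((W0 * d').totient : ℝ) / (W0 * d' : ℕ) * Real.log x) ^ k ≤
            ∑ n ∈ (NS x (W0 * d') v).filter P, 1 / (n : ℝ) := by
  classical
  have hT := Pool.Agent.Helper87.MT.tupleSum
  have hE := Pool.Agent.Helper46.MT.expand
  obtain ⟨c1, hc1, hb⟩ := sieveAtU hT Pool.Agent.Helper9.MT.gramUpper
    Pool.Agent.Helper9.MT.gramLower Pool.Agent.Helper95.PV.lowerMainV hE hN2 hA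
  obtain ⟨cJ, hcJ, hJge⟩ := J_ge hIk
  obtain ⟨CR, hCR, hRare⟩ := hRare
  set c1' : ℝ := c1 / 2 with hc1'
  have hc1'0 : 0 < c1' := by positivity
  set e0 : ℝ := min 1 (c1' / 110592) with he0
  have he00 : 0 < e0 := lt_min one_pos (by positivity)
  have he01 : e0 ≤ 1 := min_le_left _ _
  have he0c : e0 ≤ c1' / 110592 := min_le_right _ _
  have hloge : 0 ≤ Real.log (1 / e0) := Real.log_nonneg (by rw [le_div_iff₀ he00]; (clear * - he01; linarith))
  set L0 : ℝ := Real.log (1 / e0) + CR with hL0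
  have hL00 : 0 ≤ L0 := by (clear * - hloge hCR; positivity)
  set L1 : ℝ := |Real.log (48 / c1')| with hL1
  have hL10 : 0 ≤ L1 := abs_nonneg _
  set C' : ℝ := 218 + 2 * (72 * L0 + L1 + 1) with hC'
  have hC'0 : 0 ≤ C' := by
    rw [hC']
    (clear * - hCR hloge hL10; linarith)
  clear_value c1' e0 L0 L1 C'
  refine ⟨c1 * cJ / 16, 6 * C' + 328 + 82 / e0, div_pos (mul_pos hc1 hcJ) (by norm_num),
    add_pos_of_pos_of_nonneg (by (clear * - hCR hloge hL0 hL10 hC'; linarith)) (div_pos (by norm_num) he00).le, ?_⟩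
  intro k hk
  have hkr : (1 : ℝ) ≤ k := by exact_mod_cast hk
  have hkr0 : (0 : ℝ) < k := by (clear * - hkr; linarith)
  have hlogk : 0 ≤ Real.log k := Real.log_nonneg hkr
  obtain ⟨hN1, hJ1⟩ := hJge k hk
  set I := Ik k with hIdef
  set N := I.card with hNdef
  have hNk : N ≤ k := by
    have h1 : I.card ≤ Fintype.card (Fin k) := Finset.card_le_univ I
    rwa [Fintype.card_fin] at h1
  have hNr : (1 : ℝ) ≤ N := by exact_mod_cast hN1
  have hNr0 : (0 : ℝ) < N := by (clear * - hNr; linarith)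
  have hNkr : (N : ℝ) ≤ k := by exact_mod_cast hNk
  set J1 := Nat.log 2 N with hJ1def
  have hJ0 : (0 : ℝ) ≤ J1 := Nat.cast_nonneg J1
  set ε : ℝ := e0 / (k : ℝ) ^ 3 with hε
  have hk3 : (1 : ℝ) ≤ (k : ℝ) ^ 3 := one_le_pow₀ hkr
  have hε0 : 0 < ε := by (clear * - he00 hk; positivity)
  have hε1 : ε ≤ 1 := by
    rw [hε, div_le_one (by positivity)]
    (clear * - he01 hk3; linarith)
  have hlogε : Real.log (1 / ε) = 3 * Real.log k + Real.log (1 / e0) := by
    have h1 : 1 / ε = (k : ℝ) ^ 3 * (1 / e0) := by rw [hε]; (clear * - hk he00; field_simp)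
    rw [h1, Real.log_mul (by positivity) (by positivity), Real.log_pow]
    norm_num
  set s : ℕ := ⌈72 * (3 * Real.log k + L0) + 2 * Real.log k + L1⌉₊ with hs
  have hsarg : 0 ≤ 72 * (3 * Real.log k + L0) + 2 * Real.log k + L1 := by (clear * - hL00 hL10; positivity)
  have hsge : 72 * (3 * Real.log k + L0) + 2 * Real.log k + L1 ≤ s := Nat.le_ceil _
  have hsle : (s : ℝ) ≤ 72 * (3 * Real.log k + L0) + 2 * Real.log k + L1 + 1 :=
    (Nat.ceil_lt_add_one hsarg).le
  set D0 : ℕ := max ((3 * k + 3) ^ 10) ⌈192 * (k : ℝ) ^ 4 / c1'⌉₊ with hD0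
  have hD0a : (3 * k + 3) ^ 10 ≤ D0 := le_max_left _ _
  have hD0k : 2 * k < D0 := by
    have h1 : 3 * k + 3 ≤ (3 * k + 3) ^ 10 := Nat.le_self_pow (by norm_num) _
    omega
  have hD0pos : (0 : ℝ) < D0 := by exact_mod_cast (by omega : 0 < D0)
  have hD0b : 192 * (k : ℝ) ^ 4 / c1' ≤ D0 := (Nat.le_ceil _).trans (Nat.cast_le.2 (le_max_right _ _))
  clear_value ε s D0
  -- the bound for r
  have hlogk1 : Real.log k ≤ Real.log (k + 1) := Real.log_le_log hkr0 (by (clear * -; linarith))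
  have hlog2 : 1 / 2 ≤ Real.log (k + 1) := by
    have h1 : Real.log 2 ≤ Real.log ((k : ℝ) + 1) := Real.log_le_log (by norm_num) (by (clear * - hkr; linarith))
    have h2 := Real.log_two_gt_d9
    (clear * - h1 h2; linarith)
  have hrle : ((6 * s + 164 : ℕ) : ℝ) ≤ (6 * C' + 328 + 82 / e0) * Real.log (k + 1) := by
    have h1 : (s : ℝ) ≤ C' * Real.log (k + 1) := by
      rw [hC']
      exact num_r hlogk1 hlog2 hL00 hL10 hsle
    have h2 : 0 ≤ 82 / e0 * Real.log (k + 1) :=
      mul_nonneg (div_pos (by norm_num) he00).le (le_trans (by norm_num) hlog2)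
    push_cast
    exact num_r2 h2 hlog2 h1
  have hδle : 1 ≤ (6 * C' + 328 + 82 / e0) * (k : ℝ) ^ 3 * (ε / 82) := by
    have h1 : (6 * C' + 328 + 82 / e0) * (k : ℝ) ^ 3 * (ε / 82) =
        (6 * C' + 328) * (e0 / 82) + 1 := by
      rw [hε]
      (clear * - he00 hk hC'0; field_simp)
    rw [h1]
    have h2 : 0 ≤ (6 * C' + 328) * (e0 / 82) := by (clear * - hC'0 he00; positivity)
    (clear * - h2; linarith)
  refine ⟨6 * s + 164, D0, ε / 82, hD0k, hrle, by positivity, hδle, ?_⟩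
  intro j W0 T hInter hW0
  have hW0r : (0 : ℝ) < W0 := by exact_mod_cast hW0
  -- the parameters of the sieve
  set K : Fin k → ℕ := fun i => if i ∈ I then 3 * N + 1 else 3 * k + 1 with hKdef
  set J : Fin k → ℕ := fun i => if i ∈ I then J1 else 0 with hJdef
  have hcard : Fintype.card (Fin k) = k := Fintype.card_fin k
  have hK1 : ∀ i ∈ I, K i = 3 * N + 1 := fun i hi => by simp only [hKdef]; rw [if_pos hi]
  have hK2 : ∀ i, i ∉ I → K i = 3 * k + 1 := fun i hi => by simp only [hKdef]; rw [if_neg hi]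
  have hJ1' : ∀ i ∈ I, J i = J1 := fun i hi => by simp only [hJdef]; rw [if_pos hi]
  have hJ2' : ∀ i, i ∉ I → J i = 0 := fun i hi => by simp only [hJdef]; rw [if_neg hi]
  have hKge : ∀ i, 2 ≤ K i := by
    intro i
    by_cases hi : i ∈ I
    · rw [hK1 i hi]; omega
    · rw [hK2 i hi]; omega
  have hKle : ∀ i, K i ≤ 3 * k + 1 := by
    intro i
    by_cases hi : i ∈ I
    · rw [hK1 i hi]; omega
    · rw [hK2 i hi]
  have hJle : ∀ i, J i ≤ J1 := by
    intro i
    by_cases hi : i ∈ I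
    · rw [hJ1' i hi]
    · rw [hJ2' i hi]; omega
  have hJK : ∀ i, 10 * 2 ^ J i ≤ 8 * K i * (J i + 2) := by
    intro i
    by_cases hi : i ∈ I
    · rw [hK1 i hi, hJ1' i hi]
      exact num_J hN1 (Nat.pow_log_le_self 2 (by omega))
    · rw [hK2 i hi, hJ2' i hi]
      omega
  have hρ : ∑ i, 1 / (9 * ((K i : ℝ) - 1)) ≤ 1 / 10 := sum_rho I hN1
  clear_value K J J1
  have hKD : ∀ i, (K i + 2) ^ 10 ≤ D0 := by
    intro i
    have h1 := hKle i
    exact (Nat.pow_le_pow_left (by omega) 10).trans hD0a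
  have hcD : (Fintype.card (Fin k) + 2) ^ 10 ≤ D0 := by
    rw [hcard]
    exact (Nat.pow_le_pow_left (by omega) 10).trans hD0a
  set KM : ℝ := 8 * (3 * (k : ℝ) + 1) * (J1 + 2) with hKMdef
  have hKp0 : ∀ i, 0 < Kp (K i) (J i) := by
    intro i
    have h1 : (0 : ℝ) < K i := by exact_mod_cast (by have := hKge i; omega : 0 < K i)
    unfold Kp
    (clear * - h1; positivity)
  have hKM : ∀ i, Kp (K i) (J i) ≤ KM := by
    intro i
    unfold Kp
    have h1 : ((K i : ℕ) : ℝ) ≤ 3 * k + 1 := by exact_mod_cast hKle i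
    have h2 : ((J i : ℕ) : ℝ) ≤ J1 := by exact_mod_cast hJle i
    rw [hKMdef]
    (clear * - h1 h2 hk; gcongr)
  have hKM0 : 0 ≤ KM := by
    rw [hKMdef]
    (clear * - hk; positivity)
  clear_value KM
  set G : ℝ := c1 * (J1 + 2) / 4 with hG
  have hG0 : 0 < G := by (clear * - hc1; positivity)
  clear_value G
  have hGsum : G ≤ ∑ m ∈ I, c1 * (((J m : ℕ) + 2) / (K m : ℕ) : ℝ) := by
    have h1 : ∑ m ∈ I, c1 * (((J m : ℕ) + 2) / (K m : ℕ) : ℝ) =
        N * (c1 * ((J1 + 2) / (3 * N + 1))) := by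
      rw [Finset.sum_congr rfl (g := fun _ => c1 * (((J1 : ℝ) + 2) / (3 * N + 1)))]
      · rw [Finset.sum_const, nsmul_eq_mul]
      · intro m hm
        rw [hK1 m hm, hJ1' m hm]
        push_cast
        rfl
    rw [h1, hG]
    exact num_G hc1 hJ0 hNr
  obtain ⟨X1, hX1⟩ := hb (Fin k) K J D0 2 two_pos (by rw [hcard]; omega) hcD hKge hJK hKD hρ
  obtain ⟨X2, hX2⟩ := bad_sumU (D0 := D0) (c1 := c1) (A := 2) hI hE
    (fun i => by have := hKge i; omega) hJK hcD hKM hε0 one_le_two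
  obtain ⟨X3, hX3⟩ := hRare (Fin k) D0 s ε 2 hcD hε0 hε1 two_pos
  obtain ⟨CI, X4, hCI, hX4⟩ := hInter D0 K J (by rw [← hcard]; exact hcD)
  obtain ⟨Cf, hCf, hcount⟩ := count_of_sumU (K := K) (J := J) (KM := KM) (g := G / (4 * N))
    (r := 6 * s + 164) hWt hk (by (clear * - hG0 hN1; positivity)) hKp0 hKM
  set Smin : ℝ := (N * (1 + 4) + G / 4) / (3 / 8 * G) with hSmin
  set C : ℝ := min (min 1 Cf) (G / (16 * N * CI)) with hC
  have hC0 : 0 < C := lt_min (lt_min one_pos hCf) (by (clear * - hG0 hN1 hCI; positivity))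
  have hC1 : C ≤ 1 := (min_le_left _ _).trans (min_le_left _ _)
  have hCCf : C ≤ Cf := (min_le_left _ _).trans (min_le_right _ _)
  have hCG : N * (CI * C) ≤ G / 16 := by
    have h1 : C ≤ G / (16 * N * CI) := min_le_right _ _
    rw [le_div_iff₀ (by (clear * - hN1 hCI; positivity))] at h1
    (clear * - h1; linarith)
  clear_value C
  refine ⟨C, hC0, ?_⟩
  obtain ⟨X0, hX0⟩ := eventually_atTop.1 ((eventually_ge_atTop X1).and
    ((eventually_ge_atTop X2).and ((eventually_ge_atTop X3).and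
      ((eventually_ge_atTop X4).and ((Sv_big (K := K) (J := J) hk hKp0 hKM hW0 Smin).and
      ((Real.tendsto_log_atTop.eventually_ge_atTop ((W0 : ℝ) + k)).and
      (((Real.tendsto_log_atTop.comp Real.tendsto_log_atTop).eventually_ge_atTop 1).and
      (log_rpow_le (A := 2) (show (0 : ℝ) < 1 / 81 by norm_num)))))))))
  refine ⟨X0, fun x hx d d' v hd hd' hdd' hdx hS hpW hcop P _ hP => ?_⟩
  obtain ⟨e1, e2, e3, e4, e5, e6, e7, e8⟩ := hX0 x hx
  simp only [Function.comp_apply] at e7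
  set h : Fin k → ℕ := fun i : Fin k => (i : ℕ) * d with hhdef
  set W : ℕ := W0 * d' with hWdef
  have hWpos : 0 < W := hS.W_pos
  have hWr : (0 : ℝ) < W := by exact_mod_cast hWpos
  have hdr : (0 : ℝ) < d := by exact_mod_cast hd
  have hlogx : 0 < Real.log x := by (clear * - hkr hW0r e6; linarith)
  have hll1 : (1 : ℝ) ≤ Real.log (Real.log x) ^ j := one_le_pow₀ e7
  have hll0 : (0 : ℝ) < Real.log (Real.log x) ^ j := by (clear * - hll1; linarith)
  -- the sizes
  have hdlog : (d : ℝ) ≤ Real.log x := by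
    refine hdx.trans ?_
    rw [div_le_iff₀ hll0]
    calc C * Real.log x ≤ 1 * Real.log x := by (clear * - hC1 hlogx; gcongr)
      _ = Real.log x * 1 := by ring
      _ ≤ _ := by (clear * - hll1 hlogx; gcongr)
  have hd'log : (d' : ℝ) ≤ Real.log x := le_trans (by exact_mod_cast hdd') hdlog
  have hWlog : (W : ℝ) ≤ W0 * Real.log x := by
    rw [hWdef]
    push_cast
    (clear * - hd'log hW0; gcongr)
  have hsq : Real.log x ^ (2 : ℝ) = Real.log x * Real.log x := by
    rw [Real.rpow_two, sq]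
  have hW2 : (W : ℝ) ≤ Real.log x ^ (2 : ℝ) := by
    rw [hsq]
    refine hWlog.trans ?_
    have : (W0 : ℝ) ≤ Real.log x := by (clear * - hkr e6; linarith)
    (clear * - this hlogx; gcongr)
  have hh2 : ∀ i, (h i : ℝ) ≤ Real.log x ^ (2 : ℝ) := by
    intro i
    rw [hsq, hhdef]
    push_cast
    have h1 : ((i : ℕ) : ℝ) ≤ Real.log x := by
      have h2 : ((i : ℕ) : ℝ) ≤ k := by exact_mod_cast i.2.le
      (clear * - hW0r e6 h2; linarith)
    (clear * - h1 hdlog hd hlogx; gcongr)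
  have hWlev : W ≤ lev x := Nat.le_floor (hW2.trans e8)
  obtain ⟨hF, hV0⟩ := hX1 x e1 I h W v hS hW2 hh2 hcop
  have hx9 := hF.x9
  have hx0 : (0 : ℝ) < x := by (clear * - hx9; linarith)
  have hbad := hX2 x e2 I h W v hS hW2 hF
  rw [hcard] at hbad
  -- the rare ones
  have hrare := hX3 x e3 h W v hS hW2 hh2 (yv (tp (lev x) W) (gv K J (lev x) W))
    (fun c => |yv (tp (lev x) W) (gv K J (lev x) W) c|) (∏ i, Bv K J W x i)
    (fun c => le_rfl) (fun c => yv_abs_le hF.good c) (fun c c' hc => yv_anti hF.good c c' hc)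
    (fun c hc => yv_supp hc) (by
      simp only [sq_abs]
      exact energyV_le hT hF.good)
  rw [hcard] at hrare
  have hinter := hX4 x e4 d W v hd hdlog hS hpW hW2 hF.good hV0
  set S := Sv K J W x with hSdef
  have hSeq : Real.log x / (2 * W) * ∏ i, Bv K J W x i = S := rfl
  rw [hSeq] at hrare
  obtain ⟨hS1, hS2⟩ := e5 I D0 c1 h W v hWpos hWlog hW2 hF
  have hS0 : 0 ≤ S := le_trans (by (clear * - hlogx hW0 hd'; positivity)) hS1
  have hSbig : N * (1 + 4) + G / 4 ≤ 3 / 8 * G * S := by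
    have h1 : Smin ≤ S := hS2
    rw [hSmin, div_le_iff₀ (by (clear * - hG0; positivity))] at h1
    (clear * - h1; linarith)
  -- the total of the bad ones
  set δa : ℝ := 36 * k * KM * ε + 4 * (k : ℝ) ^ 3 / D0 with hδa
  set δb : ℝ := k * ((9 * (Real.log (1 / ε) + CR)) ^ s / s.factorial) with hδb
  set δc : ℝ := CI * (d * Real.log (Real.log x) ^ j / Real.log x) with hδc
  set Q : ℕ → Prop := fun n => (BadAt h W ε x n ∨ RareAt h W s ε x n) ∨ T d n with hQ
  have hbadQ : ∑ n ∈ (NS x W v).filter Q, uv h K J W x n ≤ (δa + δb + δc) * S + 4 := by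
    have h0 := sum_or_le (s := NS x W v) (A := fun n => BadAt h W ε x n ∨ RareAt h W s ε x n)
      (B := T d) (u := uv h K J W x) (fun n => uv_nonneg h K J W x n)
    have h1 := sum_or_le (s := NS x W v) (A := BadAt h W ε x) (B := RareAt h W s ε x)
      (u := uv h K J W x) (fun n => uv_nonneg h K J W x n)
    have h2 : ∑ n ∈ (NS x W v).filter (RareAt h W s ε x), uv h K J W x n ≤ δb * S + 2 := hrare
    calc _ ≤ _ := h0
      _ ≤ ((δa * S + 1) + (δb * S + 2)) + (δc * S + 1) :=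
          add_le_add (h1.trans (add_le_add hbad h2)) hinter
      _ = _ := by ring
  have hNδ : N * (δa + δb + δc) ≤ G / 8 := by
    have hδa0 : 0 ≤ δa := by (clear * - hk hKM0 hε0 hD0pos; positivity)
    have hδb0 : 0 ≤ δb := by
      have : 0 ≤ Real.log (1 / ε) + CR := by
        rw [hlogε]
        (clear * - hloge hCR; positivity)
      (clear * - hk this; positivity)
    have hGc : G = 2 * (c1' * (J1 + 2) / 4) := by rw [hG, hc1']; ring
    have h2 : k * (36 * k * KM * ε) ≤ c1' * (J1 + 2) / 4 / 24 := by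
      rw [hKMdef, hε]
      exact num_a hkr hJ0 he00 he0c
    have h3 : k * (4 * (k : ℝ) ^ 3 / D0) ≤ c1' * (J1 + 2) / 4 / 24 :=
      num_b hJ0 hc1'0 hD0pos hD0b
    have h4 : k * δb ≤ c1' * (J1 + 2) / 4 / 24 := by
      have h5 : 0 ≤ 9 * (Real.log (1 / ε) + CR) := by
        rw [hlogε]
        (clear * - hloge hCR; positivity)
      have h6 : 8 * (9 * (Real.log (1 / ε) + CR)) ≤ s := by
        refine le_trans ?_ hsge
        rw [hlogε]
        have : 8 * (9 * (3 * Real.log k + Real.log (1 / e0) + CR)) =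
          72 * (3 * Real.log k + L0) := by rw [hL0]; ring
        rw [this]
        (clear * - hL10 hlogk; linarith)
      have h7 := tail_le h5 h6
      have h8 : Real.exp (-s) ≤ c1' / 48 / (k : ℝ) ^ 2 := by
        refine num_c hkr hc1'0 (le_abs_self _) (le_trans ?_ hsge)
        have : 0 ≤ 72 * (3 * Real.log k + L0) := by (clear * - hL00; positivity)
        (clear * - hCR hloge hL0 hL1 hlogk; linarith)
      exact num_d hkr hJ0 hc1'0 (h7.trans h8)
    have h9 : N * δc ≤ G / 16 := by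
      refine le_trans ?_ hCG
      rw [hδc]
      have h10 : (d : ℝ) * Real.log (Real.log x) ^ j / Real.log x ≤ C := by
        rw [le_div_iff₀ hll0] at hdx
        rw [div_le_iff₀ hlogx]
        exact hdx
      exact mul_le_mul_of_nonneg_left (mul_le_mul_of_nonneg_left h10 hCI.le) hNr0.le
    have h11 : (N : ℝ) * (δa + δb) ≤ G / 16 := by
      calc (N : ℝ) * (δa + δb) ≤ k * (δa + δb) :=
            mul_le_mul_of_nonneg_right hNkr (add_nonneg hδa0 hδb0)
        _ = k * (36 * k * KM * ε) + k * (4 * (k : ℝ) ^ 3 / D0) + k * δb := by rw [hδa]; ring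
        _ ≤ c1' * (J1 + 2) / 4 / 24 + c1' * (J1 + 2) / 4 / 24 + c1' * (J1 + 2) / 4 / 24 :=
          add_le_add (add_le_add h2 h3) h4
        _ = G / 16 := by rw [hGc]; ring
    calc (N : ℝ) * (δa + δb + δc) = N * (δa + δb) + N * δc := by ring
      _ ≤ G / 16 + G / 16 := add_le_add h11 h9
      _ = G / 8 := by ring
  have hmain := rough_many (b := 4) (G := G) (δ1 := δa + δb + δc) (by (clear * - c1' L0 L1 hN1 J1 s D0 W0 x d d'; omega)) hG0 hF hGsum Q hbadQ
    hNδ hSbig hS0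
  have hcnt := hcount I D0 c1 x h W v hWpos hWlev hF (fun n => ¬ Q n ∧ G / 4 ≤ npI h I n) (by
    intro n hn i
    obtain ⟨hnQ, -⟩ := (mem_filter.1 hn).2
    simp only [hQ] at hnQ
    push Not at hnQ
    have h1 := hnQ.1.2
    unfold RareAt at h1
    push Not at h1
    exact h1 hnQ.1.1 i) hmain
  have hphi : (0 : ℝ) < W.totient := by exact_mod_cast Nat.totient_pos.2 hWpos
  refine le_trans ?_ (hcnt.trans ?_)
  · (clear * - hCCf hlogx hW0 hd'; gcongr)
  apply Finset.sum_le_sum_of_subset_of_nonneg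
  · intro n hn
    rw [mem_filter] at hn ⊢
    obtain ⟨hnNS, hnQ, hnp⟩ := hn
    simp only [hQ] at hnQ
    push Not at hnQ
    refine ⟨hnNS, hP n hnNS ⟨fun i => ?_, fun i p hp hpd hpW => ?_, ?_⟩ hnQ.2⟩
    · have h1 := hnQ.1.2
      unfold RareAt at h1
      push Not at h1
      exact h1 hnQ.1.1 i
    · refine lt_of_le_of_lt ?_ (big_of_not_bad hF.R3 hε1 hnQ.1.1 i p hp hpd hpW)
      have hnx : (n : ℝ) ≤ x := by
        unfold NS at hnNS
        rw [mem_filter, mem_Ioc] at hnNS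
        exact (Nat.le_floor_iff hx0.le).1 hnNS.1.2
      have hR0 : (0 : ℝ) < lev x := by
        have := hF.R3
        exact_mod_cast (by omega : 0 < lev x)
      calc (n : ℝ) ^ (ε / 82) ≤ x ^ (ε / 82) :=
            Real.rpow_le_rpow (Nat.cast_nonneg n) hnx (by positivity)
        _ ≤ (lev x : ℝ) ^ ε := by
            rw [← Real.log_le_log_iff (Real.rpow_pos_of_pos hx0 _) (Real.rpow_pos_of_pos hR0 _),
              Real.log_rpow hx0, Real.log_rpow hR0]
            have := hF.logx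
            calc ε / 82 * Real.log x ≤ ε / 82 * (82 * Real.log (lev x)) := by (clear * - this hε0; gcongr)
              _ = ε * Real.log (lev x) := by ring
    · refine le_trans ?_ hnp
      calc c1 * cJ / 16 * Real.log k = c1 / 16 * (cJ * Real.log k) := by ring
        _ ≤ c1 / 16 * (J1 + 2) := by (clear * - hJ1 hc1; gcongr)
        _ = G / 4 := by rw [hG]; ring
  · intro n _ _
    (clear * -; positivity)

end Pool.Agent.Helper66.PU

end

section

set_option autoImplicit false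

open Finset Filter

open ArithmeticFunction (cardFactors)

namespace Pool.Agent.Helper66.PU

open Pool.Agent.Helper1.MT

open Pool.Agent.Helper66.PV

open Pool.Agent.Helper66.PAP (cardFactors_le)

theorem main_allG (hI : IntervalSumU) (hWt : WeightU) (hIk : IkCard) (hN2 : SumPrimeNU)
    (hA : OneDimW) (hCl : ClassesU) (hRare : RareSumU) :
    ∃ c C₀ : ℝ, 0 < c ∧ 0 < C₀ ∧ ∀ k : ℕ, 1 ≤ k → ∃ (R₀ : ℕ) (δ : ℝ), 0 < R₀ ∧
      (R₀ : ℝ) ≤ C₀ * Real.log (k + 1) ∧ 0 < δ ∧ 1 ≤ C₀ * (k : ℝ) ^ 3 * δ ∧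
      ∀ (j : ℕ) (T : ℕ → ℕ → Prop), RareHyp k j T → ∃ C : ℝ, 0 < C ∧ ∃ X0 : ℝ, ∀ x : ℝ, X0 ≤ x → ∀ d : ℕ, 0 < d →
        (d : ℝ) ≤ C * Real.log x / Real.log (Real.log x) ^ j →
        ∀ [DecidablePred (GoodT T c k d R₀ δ)],
        C * ((d : ℝ) / d.totient) ^ (k - 1) * Real.log x / Real.log x ^ k ≤
          ∑ n ∈ (Ioc ⌊x ^ (1 / 2 : ℝ)⌋₊ ⌊x⌋₊).filter (GoodT T c k d R₀ δ), 1 / (n : ℝ) := by
  classical
  obtain ⟨c, C₀, hc, hC₀, hmain⟩ := main_classG hI hWt hIk hN2 hA hRare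
  refine ⟨c, C₀ + 9, hc, by positivity, fun k hk => ?_⟩
  obtain ⟨r, D0, δ, hD0, hr', hδ, hδ', hk2⟩ := hmain k hk
  have hkr : (1 : ℝ) ≤ k := by exact_mod_cast hk
  have hlog2 : 1 / 2 ≤ Real.log (k + 1) := by
    have h1 : Real.log 2 ≤ Real.log ((k : ℝ) + 1) := Real.log_le_log (by norm_num) (by (clear * - hkr; linarith))
    have h2 := Real.log_two_gt_d9
    (clear * - h1 h2; linarith)
  have hR0 : ((r + ⌈5 / 2 * Real.log (2 * k)⌉₊ + 1 : ℕ) : ℝ) ≤ (C₀ + 9) * Real.log (k + 1) := by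
    have h0 : 0 ≤ Real.log (2 * k) := Real.log_nonneg (by (clear * - hkr; linarith))
    have h1 := (Nat.ceil_lt_add_one (show 0 ≤ 5 / 2 * Real.log (2 * k) by (clear * - h0; positivity))).le
    have h2 : Real.log (2 * k) ≤ 2 * Real.log (k + 1) := by
      have h3 : Real.log (2 * k) ≤ Real.log (((k : ℝ) + 1) ^ 2) :=
        Real.log_le_log (by positivity) (by (clear * -; nlinarith))
      rw [Real.log_pow] at h3
      exact_mod_cast h3
    push_cast
    (clear * - hr' hlog2 h1 h2; linarith)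
  refine ⟨r + ⌈5 / 2 * Real.log (2 * k)⌉₊ + 1, δ, by omega, hR0, hδ, ?_, fun j T hT => ?_⟩
  · refine hδ'.trans ?_
    gcongr
    (clear * -; linarith)
  set R₀ := r + ⌈5 / 2 * Real.log (2 * k)⌉₊ + 1 with hR₀
  obtain ⟨W0, hW0, hcl⟩ := hCl k D0 hk hD0
  have hW0r : (0 : ℝ) < W0 := by exact_mod_cast hW0
  have hW01 : (1 : ℝ) ≤ W0 := by exact_mod_cast hW0
  have hφ0 : (0 : ℝ) < W0.totient := by exact_mod_cast Nat.totient_pos.2 hW0
  set θ : ℝ := (W0.totient : ℝ) / W0 with hθ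
  have hθ0 : 0 < θ := by positivity
  have hθ1 : θ ≤ 1 := by
    rw [hθ, div_le_one hW0r]
    exact_mod_cast Nat.totient_le W0
  obtain ⟨C, hC, X1, hX1⟩ := hk2 j W0 T hT hW0
  obtain ⟨X0, hX0⟩ := eventually_atTop.1 ((eventually_ge_atTop X1).and
    ((eventually_gt_atTop 1).and
    ((Real.tendsto_log_atTop.comp Real.tendsto_log_atTop).eventually_ge_atTop 0)))
  refine ⟨C / W0 * θ ^ (k - 1), by (clear * - hC hW0; positivity), X0, fun x hx d hd hdx _ => ?_⟩
  obtain ⟨e1, e2, e3⟩ := hX0 x hx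
  simp only [Function.comp_apply] at e3
  have hlogx : 0 < Real.log x := Real.log_pos e2
  obtain ⟨d', V, hd'd, hd', hco, hS, hpW, hV, hVcard, hVprop⟩ := hcl d hd
  have hdr : (0 : ℝ) < d := by exact_mod_cast hd
  have hd'r : (0 : ℝ) < d' := by exact_mod_cast hd'
  have hφd : (0 : ℝ) < d.totient := by exact_mod_cast Nat.totient_pos.2 hd
  have hφd' : (0 : ℝ) < d'.totient := by exact_mod_cast Nat.totient_pos.2 hd'
  have hfactor : (θ * ((d : ℝ) / d.totient)) ^ (k - 1) ≤ ((d' : ℝ) / d'.totient) ^ (k - 1) := by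
    rcases Nat.lt_or_ge 1 k with hk1 | hk1
    · apply pow_le_pow_left₀ (by (clear * - hW0 hd; positivity))
      have h1 : ∀ p : ℕ, p.Prime → p ∣ d → p ∣ W0 * d' := by
        intro p hp hpd
        refine hS.diff ⟨1, hk1⟩ ⟨0, by omega⟩ (by simp) p hp ?_
        simpa using Int.natCast_dvd_natCast.2 hpd
      have h2 := totient_div_anti hd (Nat.mul_pos hW0 hd') h1
      have h3 : ((W0 * d').totient : ℝ) / (W0 * d' : ℕ) =
          (W0.totient : ℝ) / W0 * ((d'.totient : ℝ) / d') := by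
        rw [Nat.totient_mul hco]
        push_cast
        (clear * - hd' hW0; field_simp)
      rw [h3, ← hθ, mul_div_assoc', div_le_div_iff₀ hd'r hdr] at h2
      rw [mul_div_assoc', div_le_div_iff₀ hφd hφd']
      (clear * - h2; linarith)
    · have h1 : k - 1 = 0 := by omega
      rw [h1, pow_zero, pow_zero]
  refine le_trans (le_of_eq_of_le ?_ (mul_le_mul_of_nonneg_left hfactor
    (show 0 ≤ C / W0 * Real.log x / Real.log x ^ k by (clear * - hC hW0 hlogx; positivity)))) (le_of_eq_of_le ?_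
    (sum_classes hk hW0 hd' hco e2 hC hV hVcard fun v hv => ?_))
  · rw [mul_pow]
    ring
  · ring
  obtain ⟨hcop, hfac⟩ := hVprop v hv
  refine hX1 x e1 d d' v hd hd' (Nat.le_of_dvd hd hd'd) ?_ hS hpW hcop _ fun n hn hgood hint => ?_
  · refine hdx.trans ?_
    apply div_le_div_of_nonneg_right _ (pow_nonneg e3 _)
    apply mul_le_mul_of_nonneg_right _ hlogx.le
    exact (mul_le_of_le_one_right (by positivity) (pow_le_one₀ hθ0.le hθ1)).trans
      (div_le_self hC.le hW01)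
  have hmod : n ≡ v [MOD (W0 * d')] := NS_mod hn
  have hn0 : 0 < n := by
    unfold NS at hn
    rw [mem_filter, mem_Ioc] at hn
    omega
  have hfac := hfac n hn0 hmod
  obtain ⟨hfew, hbig, hnp⟩ := hgood
  refine ⟨fun i hi => ?_, fun i hi p hp hpd => ?_, hint, hnp.trans ?_⟩
  · obtain ⟨g, m, hgm, hg0, hg, hgp, hm⟩ := hfac ⟨i, hi⟩
    have h1 := cardFactors_mul_le hk hgm (by omega) hg hm
    have h2 := hfew ⟨i, hi⟩
    simp only at h1 h2
    omega
  · by_cases hpW : p ∣ W0 * d'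
    · left
      obtain ⟨g, m, hgm, hg0, hg, hgp, hm⟩ := hfac ⟨i, hi⟩
      simp only at hgm
      rw [hgm] at hpd
      rcases (hp.dvd_mul).1 hpd with h1 | h1
      · exact hgp p hp h1
      · exfalso
        have h2 : p ∣ Nat.gcd m (W0 * d') := Nat.dvd_gcd h1 hpW
        rw [hm] at h2
        exact hp.one_lt.ne' (Nat.dvd_one.1 h2)
    · exact Or.inr (hbig ⟨i, hi⟩ p hp hpd hpW)
  · have h1 : npI (fun i : Fin k => (i : ℕ) * d) (Ik k) n ≤
        ((range k).filter (fun i => (n + i * d).Prime)).card := by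
      unfold npI
      rw [← Finset.card_map Fin.valEmbedding]
      apply Finset.card_le_card
      intro i hi
      rw [Finset.mem_map] at hi
      obtain ⟨j, hj, rfl⟩ := hi
      rw [mem_filter] at hj ⊢
      exact ⟨mem_range.2 j.2, hj.2⟩
    exact_mod_cast h1

end Pool.Agent.Helper66.PU

end

section

set_option autoImplicit false

open Finset Filter Topology

open scoped ArithmeticFunction.vonMangoldt

namespace Pool.Agent.Helper47.PV

open Pool.Agent.Helper1.MT hiding PS_prime PS_le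

open Pool.Agent.Helper18.BV (wt IsWt)

open Pool.Agent.Helper66.PV (SetN)

open Pool.Agent.Helper83.MT (PS_prime PS_not_dvd PS_le coprime_step totient_mul_prod prod_pos prod_le_of_T_le prod_le_prod_of_subset prod_union_le toNat toNat_injective toNat_card toNat_prod toNat_mem sum_pow_card_le sig le_of_inv_prod exists_of_lam_ne_zero supp_subset_of_le abs_lam_le mem_supp supp_join sum_pairs_le Qf_nonneg sum_prm exists_max_class nu err err_mod err_nonneg nu_range mem_NS sum_nu class_bound)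

variable {R W : ℕ}

/-- The comparison for one colouring. -/
theorem one_colouring {κ : Type} [Fintype κ] [DecidableEq κ] {D0 : ℕ} {h : κ → ℕ} {R W v : ℕ}
    (hS : SetN D0 h W) (m : κ) (hcop : Nat.Coprime (v + h m) W) {g : ℝ → ℝ} (hg : IsWt g) (hg1 : ∀ v, g v ≤ 1)
    (hg0 : ∀ v, v ≤ 5 / 8 → g v = 0) {x : ℝ} (hx : 3 ≤ x)
    (hH : x ^ (1 / 2 : ℝ) + h m + 1 ≤ x ^ (5 / 8 : ℝ)) (hR : (R : ℝ) ≤ x ^ (5 / 8 : ℝ))
    {δ : ℝ} (hδ0 : 0 ≤ δ)
    (hδ : ∀ T : Finset ℕ, (∀ n ∈ T, ¬ n.Prime ∧ x ^ (1 / 2 : ℝ) < n ∧ (n : ℝ) ≤ x) →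
      ∑ n ∈ T, Λ n / n ≤ δ) {cm : ℕ → ℕ}
    (hmax : ∀ d a, Nat.Coprime a d → err g x d a ≤ err g x d (cm d))
    (U : PS R W → Option κ) :
    |∑ n ∈ (NS x W v).filter (fun n => Le U (sig h n)), nu g x (h m) n -
      ((∑ n ∈ Icc 1 ⌊x⌋₊, Λ n * wt g x n) / (W.totient : ℝ)) *
        ∏ p ∈ supp U, prm m (wp' R W p) (U p)| ≤
      err g x (W * ∏ p ∈ supp U, (p : ℕ)) (cm (W * ∏ p ∈ supp U, (p : ℕ))) + δ := by
  classical
  have hx1 : 1 < x := by (clear * - hx; linarith)
  by_cases hm : ∃ p, U p = some m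
  · obtain ⟨p, hp⟩ := hm
    have h1 : ∏ p ∈ supp U, prm m (wp' R W p) (U p) = 0 := by
      apply Finset.prod_eq_zero (i := p)
      · rw [mem_supp, hp]; simp
      · rw [hp]; simp [prm]
    have h2 : ∑ n ∈ (NS x W v).filter (fun n => Le U (sig h n)), nu g x (h m) n = 0 := by
      apply Finset.sum_eq_zero
      intro n hn
      by_contra hne
      obtain ⟨hq, h3, _⟩ := nu_range hg hg0 hx1 hne
      have h4 : Dv h U n := (Dv_iff hS U n).2 (Finset.mem_filter.1 hn).2
      have h5 := h4 p m hp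
      have h6 := (Nat.prime_dvd_prime_iff_eq (PS_prime p) hq).1 h5
      have h7 : ((p : ℕ) : ℝ) ≤ R := by exact_mod_cast PS_le p
      rw [← h6] at h3
      (clear * - hR h3 h7; linarith)
    rw [h1, h2, mul_zero, sub_zero, abs_zero]
    exact add_nonneg (err_nonneg _ _ _ _) hδ0
  · push Not at hm
    set i : PS R W → κ := fun p => (U p).getD m with hi
    have hUi : ∀ p ∈ supp U, U p = some (i p) := by
      intro p hp
      rw [mem_supp] at hp
      simp only [hi]
      cases hU : U p with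
      | none => exact absurd hU hp
      | some j => rfl
    have hine : ∀ p ∈ supp U, i p ≠ m := by
      intro p hp heq
      apply hm p
      rw [hUi p hp, heq]
    obtain ⟨a, ha1, ha2⟩ := crt hS m hcop i (supp U) hine
    set q := W * ∏ p ∈ supp U, (p : ℕ) with hq
    have hQ : ∀ n, (n ≡ v [MOD W] ∧ Le U (sig h n)) ↔ n + h m ≡ a [MOD q] := by
      intro n
      rw [← ha2 n, ← Dv_iff hS U n]
      apply and_congr_right
      intro _
      constructor
      · intro hD p hp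
        exact hD p (i p) (hUi p hp)
      · intro hD p j hj
        have hp : p ∈ supp U := by rw [mem_supp, hj]; simp
        have h1 := hUi p hp
        rw [hj, Option.some.injEq] at h1
        rw [h1]
        exact hD p hp
    rw [sum_nu hg hg0 hx1 hH _ hQ]
    have h3 : ((∑ n ∈ Icc 1 ⌊x⌋₊, Λ n * wt g x n) / (W.totient : ℝ)) *
        ∏ p ∈ supp U, prm m (wp' R W p) (U p) =
        (1 / (q.totient : ℝ)) * ∑ n ∈ Icc 1 ⌊x⌋₊, Λ n * wt g x n := by
      have h4 : ∏ p ∈ supp U, prm m (wp' R W p) (U p) =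
          1 / ∏ p ∈ supp U, (((p : ℕ) : ℝ) - 1) := by
        rw [one_div, ← Finset.prod_inv_distrib]
        apply Finset.prod_congr rfl
        intro p hp
        rw [hUi p hp]
        simp only [prm, if_neg (hine p hp), wp', one_div]
      rw [h4, hq, totient_mul_prod, one_div, one_div, mul_inv, div_eq_mul_inv]
      ring
    rw [h3]
    refine (class_bound hg hg1 hx hδ q a).trans ?_
    have := hmax q a ha1
    (clear * - this; linarith)

end Pool.Agent.Helper47.PV

end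

section

set_option autoImplicit false

open Finset Filter Topology

open scoped ArithmeticFunction.vonMangoldt

namespace Pool.Agent.Helper60.PU

open Pool.Agent.Helper1.MT hiding PS_prime PS_le

open Pool.Agent.Helper18.BV (wt IsWt)

open Pool.Agent.Helper66.PV (SetN)

open Pool.Agent.Helper72.MT (eventually_smallU eventually_shift)

open Pool.Agent.Helper47.PV (one_colouring total_error prm_nonneg sw_eq)

open Pool.Agent.Helper83.MT (prod_bound nonprime_bound exists_max_class err err_mod abs_lam_le exists_of_lam_ne_zero prod_le_prod_of_subset supp_subset_of_le prod_le_of_T_le supp_join prod_union_le sum_prm nu sig Qf_nonneg mem_NS nu_range)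

/-- PU-P: the sieve sum over the `n` such that `n + h m` is prime, uniformly. -/
theorem sumPrimeNU : Pool.Agent.Helper66.PU.SumPrimeNU := by
  have hE : Expand := Pool.Agent.Helper46.MT.expand
  have hB : BVErrorU := Pool.Agent.Helper28.MT.bvErrorU
  obtain ⟨g, hg, hgne, hg1, hg0'⟩ := Pool.Agent.Helper18.BV.exists_wt
    (show (0 : ℝ) < 3 / 8 by norm_num) (by norm_num)
  have hg0 : ∀ v, v ≤ 5 / 8 → g v = 0 := fun v hv => hg0' v (by linarith)
  obtain ⟨c, C, XM, hc, hC, hXM, hmass⟩ := Pool.Agent.Helper44.BV.mass g hg hgne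
  refine ⟨c, hc, ?_⟩
  intro κ _ _ D0 A hD0 hA
  obtain ⟨C1, hC1, hprod⟩ := prod_bound
  obtain ⟨C2, hC2, hnp⟩ := nonprime_bound
  obtain ⟨XB, hXB, hBV⟩ := hB g hg (3 * Fintype.card κ)
    (((2 * Fintype.card κ + 1 : ℕ) : ℝ) + A) (by (clear * - hA; positivity))
  obtain ⟨X1, hX1⟩ := eventually_atTop.1 (eventually_smallU (A := A) (Fintype.card κ) hC1 hC2)
  obtain ⟨X2, hX2⟩ := eventually_atTop.1 (eventually_shift (A := A))
  refine ⟨max (max XM XB) (max X1 (max (2 ^ 81) X2)),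
    le_max_of_le_left (le_max_of_le_left hXM), ?_⟩
  intro x hx
  have hxM : XM ≤ x := ((le_max_left _ _).trans (le_max_left _ _)).trans hx
  have hxB : XB ≤ x := ((le_max_right _ _).trans (le_max_left _ _)).trans hx
  have hx1 : X1 ≤ x := ((le_max_left _ _).trans (le_max_right _ _)).trans hx
  have hx2 : (2 : ℝ) ^ 81 ≤ x := ((le_max_left _ _).trans ((le_max_right _ _).trans
    (le_max_right _ _))).trans hx
  have hxh : X2 ≤ x := ((le_max_right _ _).trans ((le_max_right _ _).trans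
    (le_max_right _ _))).trans hx
  have hx3 : 3 ≤ x := hXM.trans hxM
  have hx0 : 0 < x := by (clear * - hx2; linarith)
  have hlog1 : 1 ≤ Real.log x := by
    rw [Real.le_log_iff_exp_le hx0]
    exact (Real.exp_one_lt_d9.le.trans (by norm_num)).trans hx3
  have hlog0 : 0 < Real.log x := by (clear * - hlog1; linarith)
  intro h W v hS hWA hhA m hcop
  have hWA' : (W : ℝ) ≤ Real.log x ^ (((2 * Fintype.card κ + 1 : ℕ) : ℝ) + A) := by
    refine hWA.trans (Real.rpow_le_rpow_of_exponent_le hlog1 ?_)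
    have : (0 : ℝ) ≤ ((2 * Fintype.card κ + 1 : ℕ) : ℝ) := Nat.cast_nonneg _
    (clear * -; linarith)
  set R : ℕ := lev x with hR
  have hRx : (R : ℝ) ≤ x ^ (1 / 81 : ℝ) := Nat.floor_le (Real.rpow_nonneg hx0.le _)
  have hR2 : 2 ≤ R := by
    apply Nat.le_floor
    have h1 : ((2 : ℝ) ^ 81) ^ (1 / 81 : ℝ) = 2 := by
      rw [← Real.rpow_natCast, ← Real.rpow_mul (by norm_num)]
      norm_num
    calc ((2 : ℕ) : ℝ) = ((2 : ℝ) ^ 81) ^ (1 / 81 : ℝ) := by rw [h1]; norm_num
      _ ≤ x ^ (1 / 81 : ℝ) := Real.rpow_le_rpow (by positivity) hx2 (by norm_num)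
  have hR58 : (R : ℝ) ≤ x ^ (5 / 8 : ℝ) :=
    hRx.trans (Real.rpow_le_rpow_of_exponent_le (by (clear * - hx2; linarith)) (by norm_num))
  have hR4 : (R : ℝ) ^ 4 ≤ x ^ (4 / 81 : ℝ) := by
    calc (R : ℝ) ^ 4 ≤ (x ^ (1 / 81 : ℝ)) ^ 4 := pow_le_pow_left₀ (Nat.cast_nonneg _) hRx 4
      _ = x ^ (4 / 81 : ℝ) := by
          rw [← Real.rpow_natCast, ← Real.rpow_mul hx0.le]
          norm_num
  have hRlog : Real.log R ≤ Real.log x := by
    apply Real.log_le_log (by positivity)
    refine hRx.trans ?_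
    calc x ^ (1 / 81 : ℝ) ≤ x ^ (1 : ℝ) :=
          Real.rpow_le_rpow_of_exponent_le (by (clear * - hx2; linarith)) (by norm_num)
      _ = x := Real.rpow_one x
  have hH : x ^ (1 / 2 : ℝ) + h m + 1 ≤ x ^ (5 / 8 : ℝ) := by
    have h1 : x ^ (5 / 8 : ℝ) = x ^ (1 / 2 : ℝ) * x ^ (1 / 8 : ℝ) := by
      rw [← Real.rpow_add hx0]; norm_num
    have h2 : (h m : ℝ) + 2 ≤ x ^ (1 / 8 : ℝ) := by
      have := hX2 x hxh
      have := hhA m
      linarith
    have h3 : 1 ≤ x ^ (1 / 2 : ℝ) := Real.one_le_rpow (by (clear * - hx2; linarith)) (by norm_num)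
    have h4 : (0 : ℝ) ≤ h m := Nat.cast_nonneg _
    rw [h1]
    (clear * - h2 h3; nlinarith)
  have hβ := fun cm hcm => hBV x hxB W hS.W_pos hWA' cm hcm
  rw [← hR] at hβ
  intro y hy1 hyT
  set f := lam (wp R W) y with hf
  set δ : ℝ := C2 * Real.log x ^ 2 * x ^ (-(1 / 8) : ℝ) with hδ
  have hδ0 : 0 ≤ δ := by positivity
  obtain ⟨cm, hcm, hmax⟩ := exists_max_class (err g x) (err_mod g x)
  have hwp : ∀ p : PS R W, 0 ≤ wp R W p := by
    intro p
    unfold wp
    (clear * -; positivity)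
  have hL : ∀ c, |f c| ≤ (C1 * Real.log x) ^ Fintype.card κ := by
    intro c
    refine (abs_lam_le hwp hy1 c).trans ?_
    refine (hprod (Fintype.card κ) W R hR2).trans ?_
    apply pow_le_pow_left₀
    · have : 0 ≤ Real.log R := Real.log_nonneg (by exact_mod_cast (by omega : 1 ≤ R))
      (clear * - hC1; positivity)
    · exact mul_le_mul_of_nonneg_left hRlog hC1.le
  have hsupp : ∀ c, f c ≠ 0 → ∏ p ∈ supp c, (p : ℕ) ≤ R := by
    intro c hc0
    obtain ⟨c', hle, hy0⟩ := exists_of_lam_ne_zero hc0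
    exact (prod_le_prod_of_subset (supp_subset_of_le hle)).trans
      (prod_le_of_T_le hR2 (hyT c' hy0))
  -- the expansion
  set tot : ℝ := ∑ n ∈ Icc 1 ⌊x⌋₊, Λ n * wt g x n with htot
  have hexp := hE (PS R W) κ (fun p => prm m (wp' R W p)) f (NS x W v) (nu g x (h m)) (sig h)
    (tot / (W.totient : ℝ))
    (fun U => if ∏ p ∈ supp U, (p : ℕ) ≤ R ^ 2 then
      err g x (W * ∏ p ∈ supp U, (p : ℕ)) (cm (W * ∏ p ∈ supp U, (p : ℕ))) + δ else 0)
    (fun p => sum_prm m _) (by
      intro c c' hc0 hc0' _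
      have h1 : ∏ p ∈ supp (join c c'), (p : ℕ) ≤ R ^ 2 := by
        rw [supp_join]
        refine (prod_union_le _ _).trans ?_
        rw [pow_two]
        exact Nat.mul_le_mul (hsupp c hc0) (hsupp c' hc0')
      rw [if_pos h1]
      exact one_colouring hS m hcop hg hg1 hg0 hx3 hH hR58 hδ0 (hnp x hx3) hmax (join c c'))
  have htotal := total_error hS hD0 hL hδ0 (R := R) (g := g) (x := x) (cm := cm)
    (β := 1 / Real.log x ^ (((2 * Fintype.card κ + 1 : ℕ) : ℝ) + A)) (hβ cm hcm)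
  have hsmall := hX1 x hx1
  have herr : ((C1 * Real.log x) ^ Fintype.card κ) ^ 2 *
      (1 / Real.log x ^ (((2 * Fintype.card κ + 1 : ℕ) : ℝ) + A) + (R : ℝ) ^ 4 * δ) ≤
      1 / Real.log x ^ A := by
    refine le_trans ?_ hsmall
    apply mul_le_mul_of_nonneg_left _ (by positivity)
    apply add_le_add le_rfl
    exact mul_le_mul_of_nonneg_right hR4 hδ0
  have h1 := (hexp.trans htotal).trans herr
  have h2 := (abs_le.1 h1).1
  set Q := Qf (fun p => prm m (wp' R W p)) f with hQ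
  have hQ0 : 0 ≤ Q := Qf_nonneg (fun p a => prm_nonneg hS hD0 m p a) f
  have hmassx := (hmass x hxM).1
  set Sg : ℝ := ∑ n ∈ NS x W v, nu g x (h m) n *
    (∑ c ∈ univ.filter (fun c : PS R W → Option κ => Le c (sig h n)), f c) ^ 2 with hSg
  have h3 : (1 / Real.log x) * Sg ≤
      ∑ n ∈ (NS x W v).filter (fun n => (n + h m).Prime), (1 / (n : ℝ)) * sw h f n := by
    have h4 : Sg = ∑ n ∈ (NS x W v).filter (fun n => (n + h m).Prime),
        nu g x (h m) n * sw h f n := by
      rw [Finset.sum_filter]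
      apply Finset.sum_congr rfl
      intro n _
      rw [sw_eq hS f n]
      split_ifs with hp
      · rfl
      · unfold nu
        rw [if_neg hp, zero_mul]
    rw [h4, Finset.mul_sum]
    apply Finset.sum_le_sum
    intro n hn
    have hn1 := (mem_NS.1 (Finset.mem_filter.1 hn).1).1.1
    have hn0 : (0 : ℝ) < n := by exact_mod_cast (by omega : 0 < n)
    rw [← mul_assoc]
    have hsw : 0 ≤ sw h f n := by rw [sw_eq hS f n]; (clear * -; positivity)
    apply mul_le_mul_of_nonneg_right _ hsw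
    by_cases hν : nu g x (h m) n = 0
    · rw [hν, mul_zero]
      (clear * - hn0; positivity)
    obtain ⟨hp, h5, h6⟩ := nu_range hg hg0 (by (clear * - hx2; linarith)) hν
    have h7 : nu g x (h m) n ≤ Real.log x * (1 / n) := by
      unfold nu
      rw [if_pos hp, ArithmeticFunction.vonMangoldt_apply_prime hp]
      have hq0 : (0 : ℝ) < ((n + h m : ℕ) : ℝ) := by exact_mod_cast hp.pos
      apply mul_le_mul
      · exact Real.log_le_log hq0 h6.le
      · unfold wt
        apply div_le_div₀ zero_le_one (hg1 _) hn0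
        exact_mod_cast Nat.le_add_right n (h m)
      · exact Pool.Agent.Helper18.BV.wt_nonneg hg _ _
      · exact hlog0.le
    calc 1 / Real.log x * nu g x (h m) n ≤ 1 / Real.log x * (Real.log x * (1 / n)) :=
          mul_le_mul_of_nonneg_left h7 (by (clear * - hlog1; positivity))
      _ = 1 / n := by (clear * - hlog1 hn0; field_simp)
  refine le_trans ?_ h3
  have hZ0 : 0 < 1 / Real.log x ^ A := by
    have := Real.rpow_pos_of_pos hlog0 A
    positivity
  have hZ1 : 1 / Real.log x ^ A ≤ 1 := by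
    rw [div_le_one (Real.rpow_pos_of_pos hlog0 A)]
    exact Real.one_le_rpow hlog1 hA.le
  have h8 : tot / (W.totient : ℝ) * Q - 1 / Real.log x ^ A ≤ Sg := by (clear * - h2; linarith)
  have hφ : (0 : ℝ) ≤ W.totient := Nat.cast_nonneg _
  have h9 : c / (W.totient : ℝ) * Q ≤ (1 / Real.log x) * (tot / (W.totient : ℝ) * Q) := by
    have h10 : (1 / Real.log x) * (tot / (W.totient : ℝ) * Q) =
        (tot / Real.log x) * (Q / (W.totient : ℝ)) := by ring
    have h11 : c / (W.totient : ℝ) * Q = c * (Q / (W.totient : ℝ)) := by ring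
    rw [h10, h11]
    apply mul_le_mul_of_nonneg_right _ (by (clear * - hQ0; positivity))
    rw [le_div_iff₀ hlog0]
    exact hmassx
  have h12 : (1 / Real.log x) * (tot / (W.totient : ℝ) * Q - 1 / Real.log x ^ A) ≤
      (1 / Real.log x) * Sg :=
    mul_le_mul_of_nonneg_left h8 (by positivity)
  have h13 : 1 / Real.log x ≤ 1 := by
    rw [div_le_one hlog0]
    exact hlog1
  have h14 : (1 / Real.log x) * (tot / (W.totient : ℝ) * Q - 1 / Real.log x ^ A) =
      (1 / Real.log x) * (tot / (W.totient : ℝ) * Q) -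
        (1 / Real.log x) * (1 / Real.log x ^ A) := by ring
  have h15 : (1 / Real.log x) * (1 / Real.log x ^ A) ≤ 1 / Real.log x ^ A := by
    calc (1 / Real.log x) * (1 / Real.log x ^ A) ≤ 1 * (1 / Real.log x ^ A) :=
          mul_le_mul_of_nonneg_right h13 hZ0.le
      _ = 1 / Real.log x ^ A := one_mul _
  (clear * - hZ1 h9 h12 h15; linarith)

end Pool.Agent.Helper60.PU

end
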